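import Pool.Agent.Lib.MP_391708_nt.QPA.Spec
import Pool.Agent.Lib.MP_391708_nt.H20.LS
import Pool.Agent.Lib.MP_cb27ba_nt.H71.PV

/-!
# Module LS: the multiplicative large sieve
-/

set_option autoImplicit false

namespace Pool.Agent.Lib.MP391708.QPA

open Finset Filter Topology
open scoped Classical

namespace LS

open Pool.Agent.Lib.MP_cb27ba_nt.H71 (G)
open ZMod

variable {q : ℕ} [NeZero q]

theorem conj_char (χ : DirichletCharacter ℂ q) {l : ZMod q} (hl : IsUnit l) :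
    (starRingEnd ℂ) (χ l) = χ l⁻¹ := by
  obtain ⟨u, rfl⟩ := hl
  have h1 : χ (u : ZMod q) * χ ((u : ZMod q)⁻¹) = 1 := by
    rw [← map_mul, ZMod.mul_inv_of_unit _ u.isUnit, map_one]
  have h2 : χ (u : ZMod q) * (starRingEnd ℂ) (χ (u : ZMod q)) = 1 := by
    rw [Complex.mul_conj', χ.unit_norm_eq_one]
    norm_num
  have h3 : χ (u : ZMod q) ≠ 0 := by
    intro h
    rw [h, zero_mul] at h1
    exact zero_ne_one h1
  exact mul_left_cancel₀ h3 (h2.trans h1.symm)

/-- Parseval for the multiplicative characters -/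
theorem orth (f : ZMod q → ℂ) :
    ∑ χ : DirichletCharacter ℂ q, ‖∑ k, χ k * f k‖ ^ 2 =
      (q.totient : ℝ) * ∑ k ∈ univ.filter (fun k : ZMod q => IsUnit k), ‖f k‖ ^ 2 := by
  have h0 : ∀ χ : DirichletCharacter ℂ q, ∑ k, χ k * f k =
      ∑ k ∈ univ.filter (fun k : ZMod q => IsUnit k), χ k * f k := by
    intro χ
    rw [Finset.sum_filter]
    apply Finset.sum_congr rfl
    intro k _
    split_ifs with hk
    · rfl
    · rw [χ.map_nonunit hk, zero_mul]
  set U := univ.filter (fun k : ZMod q => IsUnit k) with hU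
  have key : (∑ χ : DirichletCharacter ℂ q, ((‖∑ k, χ k * f k‖ : ℂ)) ^ 2) =
      (q.totient : ℂ) * ∑ k ∈ U, ((‖f k‖ : ℂ)) ^ 2 := by
    have h1 : ∀ χ : DirichletCharacter ℂ q, ((‖∑ k, χ k * f k‖ : ℂ)) ^ 2 =
        ∑ l ∈ U, ∑ k ∈ U, (χ l⁻¹ * χ k) * (f k * (starRingEnd ℂ) (f l)) := by
      intro χ
      rw [h0, ← Complex.mul_conj', map_sum, Finset.mul_sum]
      apply Finset.sum_congr rfl
      intro l hl
      rw [Finset.sum_mul]
      apply Finset.sum_congr rfl
      intro k _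
      rw [map_mul, conj_char χ (Finset.mem_filter.mp hl).2]
      ring
    simp_rw [h1]
    rw [Finset.sum_comm, Finset.mul_sum]
    apply Finset.sum_congr rfl
    intro l hl
    rw [Finset.sum_comm]
    have h2 : ∀ k ∈ U, ∑ χ : DirichletCharacter ℂ q,
        (χ l⁻¹ * χ k) * (f k * (starRingEnd ℂ) (f l)) =
        if l = k then (q.totient : ℂ) * (f k * (starRingEnd ℂ) (f l)) else 0 := by
      intro k _
      rw [← Finset.sum_mul, DirichletCharacter.sum_char_inv_mul_char_eq ℂ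
        (Finset.mem_filter.mp hl).2 k]
      split_ifs with h
      · rfl
      · rw [zero_mul]
    rw [Finset.sum_congr rfl h2, Finset.sum_ite_eq U l, if_pos hl, Complex.mul_conj']
  exact_mod_cast key

/-- the Gauss sum of a primitive character -/
theorem norm_G_one {ψ : DirichletCharacter ℂ q} (hψ : ψ.IsPrimitive) : ‖G ψ 1‖ ^ 2 = q := by
  have hG : ∀ k : ZMod q, G ψ k = ψ⁻¹ k * G ψ 1 := by
    intro k
    have h1 := gaussSum_mulShift_of_isPrimitive (stdAddChar (N := q)) hψ k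
    have h2 : ∀ j : ZMod q, G ψ j = gaussSum ψ (AddChar.mulShift (stdAddChar (N := q)) j) := by
      intro j
      unfold G gaussSum
      apply Finset.sum_congr rfl
      intro x _
      rw [AddChar.mulShift_apply]
    have h3 : gaussSum ψ (stdAddChar (N := q)) = G ψ 1 := by
      rw [h2 1, AddChar.mulShift_one]
    rw [h2 k, h1, h3]
  have h4 := Pool.Agent.Lib.MP_cb27ba_nt.H71.parseval ψ
  rw [Pool.Agent.Lib.MP_cb27ba_nt.H71.sum_norm_sq] at h4
  have h5 : ∑ k, ‖G ψ k‖ ^ 2 = (Fintype.card (ZMod q)ˣ : ℝ) * ‖G ψ 1‖ ^ 2 := by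
    rw [← Pool.Agent.Lib.MP_cb27ba_nt.H71.sum_norm_sq ψ⁻¹, Finset.sum_mul]
    apply Finset.sum_congr rfl
    intro k _
    rw [hG k, norm_mul, mul_pow]
  rw [h5] at h4
  have hpos : (0 : ℝ) < (Fintype.card (ZMod q)ˣ : ℝ) := by exact_mod_cast Fintype.card_pos
  have h6 : (Fintype.card (ZMod q)ˣ : ℝ) * ‖G ψ 1‖ ^ 2 = (Fintype.card (ZMod q)ˣ : ℝ) * q := by
    rw [h4]; ring
  exact mul_left_cancel₀ hpos.ne' h6

/-- exponential sum at `k / q` -/
noncomputable def S (b : ℕ → ℂ) (X : ℕ) (k : ZMod q) : ℂ :=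
  ∑ u ∈ Icc 1 X, b u * stdAddChar (k * (u : ZMod q))

theorem prim_eq {ψ : DirichletCharacter ℂ q} (hψ : ψ.IsPrimitive) (b : ℕ → ℂ) (X : ℕ) :
    (q : ℝ) * ‖∑ u ∈ Icc 1 X, b u * ψ (u : ZMod q)‖ ^ 2 = ‖∑ k, ψ⁻¹ k * S b X (-k)‖ ^ 2 := by
  have hG : ∀ k : ZMod q, G ψ k = ψ⁻¹ k * G ψ 1 := by
    intro k
    have h1 := gaussSum_mulShift_of_isPrimitive (stdAddChar (N := q)) hψ k
    have h2 : ∀ j : ZMod q, G ψ j = gaussSum ψ (AddChar.mulShift (stdAddChar (N := q)) j) := by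
      intro j
      unfold G gaussSum
      apply Finset.sum_congr rfl
      intro x _
      rw [AddChar.mulShift_apply]
    have h3 : gaussSum ψ (stdAddChar (N := q)) = G ψ 1 := by
      rw [h2 1, AddChar.mulShift_one]
    rw [h2 k, h1, h3]
  have e1 : (q : ℂ) * ∑ u ∈ Icc 1 X, b u * ψ (u : ZMod q) =
      G ψ 1 * ∑ k, ψ⁻¹ k * S b X (-k) := by
    rw [Finset.mul_sum]
    have : ∀ u ∈ Icc 1 X, (q : ℂ) * (b u * ψ (u : ZMod q)) =
        ∑ k : ZMod q, b u * (G ψ k * stdAddChar (-(k * (u : ZMod q)))) := by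
      intro u _
      rw [← Finset.mul_sum, Pool.Agent.Lib.MP_cb27ba_nt.H71.inversion]
      ring
    rw [Finset.sum_congr rfl this, Finset.sum_comm, Finset.mul_sum]
    apply Finset.sum_congr rfl
    intro k _
    rw [hG k]
    unfold S
    rw [Finset.mul_sum, Finset.mul_sum]
    apply Finset.sum_congr rfl
    intro u _
    rw [neg_mul]
    ring
  have hq : (0 : ℝ) < q := by exact_mod_cast Nat.pos_of_ne_zero (NeZero.ne q)
  have e2 : ‖(q : ℂ) * ∑ u ∈ Icc 1 X, b u * ψ (u : ZMod q)‖ ^ 2 =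
      ‖G ψ 1 * ∑ k, ψ⁻¹ k * S b X (-k)‖ ^ 2 := by rw [e1]
  rw [norm_mul, norm_mul, mul_pow, mul_pow, norm_G_one hψ, Complex.norm_natCast] at e2
  have e3 : (q : ℝ) * ((q : ℝ) * ‖∑ u ∈ Icc 1 X, b u * ψ (u : ZMod q)‖ ^ 2) =
      (q : ℝ) * ‖∑ k, ψ⁻¹ k * S b X (-k)‖ ^ 2 := by
    rw [← e2]; ring
  exact mul_left_cancel₀ hq.ne' e3

/-- the sum over the primitive characters modulo `q` -/
theorem prim_sum_le (b : ℕ → ℂ) (X : ℕ) :
    (q : ℝ) * ∑ ψ ∈ (univ : Finset (DirichletCharacter ℂ q)).filter (fun ψ => ψ.IsPrimitive),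
      ‖∑ u ∈ Icc 1 X, b u * ψ (u : ZMod q)‖ ^ 2 ≤
      (q.totient : ℝ) * ∑ k ∈ univ.filter (fun k : ZMod q => IsUnit k), ‖S b X k‖ ^ 2 := by
  rw [Finset.mul_sum]
  have h1 : ∀ ψ ∈ (univ : Finset (DirichletCharacter ℂ q)).filter (fun ψ => ψ.IsPrimitive),
      (q : ℝ) * ‖∑ u ∈ Icc 1 X, b u * ψ (u : ZMod q)‖ ^ 2 = ‖∑ k, ψ⁻¹ k * S b X (-k)‖ ^ 2 :=
    fun ψ hψ => prim_eq (Finset.mem_filter.mp hψ).2 b X
  rw [Finset.sum_congr rfl h1]
  have h2 : ∑ ψ ∈ (univ : Finset (DirichletCharacter ℂ q)).filter (fun ψ => ψ.IsPrimitive),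
      ‖∑ k, ψ⁻¹ k * S b X (-k)‖ ^ 2 ≤ ∑ ψ : DirichletCharacter ℂ q,
      ‖∑ k, ψ⁻¹ k * S b X (-k)‖ ^ 2 :=
    Finset.sum_le_sum_of_subset_of_nonneg (Finset.filter_subset _ _)
      (fun _ _ _ => by positivity)
  refine h2.trans ?_
  have h3 : ∑ ψ : DirichletCharacter ℂ q, ‖∑ k, ψ⁻¹ k * S b X (-k)‖ ^ 2 =
      ∑ ψ : DirichletCharacter ℂ q, ‖∑ k, ψ k * S b X (-k)‖ ^ 2 :=
    Equiv.sum_comp (Equiv.inv (DirichletCharacter ℂ q))
      (fun ψ => ‖∑ k, ψ k * S b X (-k)‖ ^ 2)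
  rw [h3, orth]
  apply le_of_eq
  congr 1
  refine Finset.sum_nbij' (fun k => -k) (fun k => -k) ?_ ?_ ?_ ?_ ?_
  · intro k hk
    rw [Finset.mem_filter] at hk ⊢
    exact ⟨Finset.mem_univ _, hk.2.neg⟩
  · intro k hk
    rw [Finset.mem_filter] at hk ⊢
    exact ⟨Finset.mem_univ _, hk.2.neg⟩
  · intro k _; exact neg_neg k
  · intro k _; exact neg_neg k
  · intro k _; rfl

/-- the units as residues -/
theorem S_units (b : ℕ → ℂ) (X : ℕ) :
    ∑ k ∈ univ.filter (fun k : ZMod q => IsUnit k), ‖S b X k‖ ^ 2 =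
      ∑ j ∈ (range q).filter (fun j => Nat.Coprime j q),
        ‖∑ n ∈ range (X + 1), (if n = 0 then 0 else b n) *
          Pool.Agent.Lib.MP_391708_nt.H20.ee (n * ((j : ℝ) / q))‖ ^ 2 := by
  refine Finset.sum_nbij' (fun k => k.val) (fun j => (j : ZMod q)) ?_ ?_ ?_ ?_ ?_
  · intro k hk
    rw [Finset.mem_filter] at hk ⊢
    refine ⟨Finset.mem_range.mpr (ZMod.val_lt k), ?_⟩
    have := (ZMod.isUnit_iff_coprime k.val q).mp (by rw [ZMod.natCast_val, ZMod.cast_id', id]; exact hk.2)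
    exact this
  · intro j hj
    rw [Finset.mem_filter] at hj ⊢
    exact ⟨Finset.mem_univ _, (ZMod.isUnit_iff_coprime j q).mpr hj.2⟩
  · intro k _
    rw [ZMod.natCast_val, ZMod.cast_id', id]
  · intro j hj
    rw [Finset.mem_filter, Finset.mem_range] at hj
    exact ZMod.val_cast_of_lt hj.1
  · intro k _
    congr 2
    unfold S
    have h1 : Icc 1 X ⊆ range (X + 1) := by
      intro u hu
      rw [Finset.mem_Icc] at hu
      rw [Finset.mem_range]; omega
    rw [← Finset.sum_subset h1]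
    · apply Finset.sum_congr rfl
      intro u hu
      rw [Finset.mem_Icc] at hu
      rw [if_neg (by omega)]
      congr 1
      have h2 : k * (u : ZMod q) = (((k.val : ℤ) * (u : ℤ) : ℤ) : ZMod q) := by
        push_cast
        rw [ZMod.natCast_val, ZMod.cast_id', id]
      rw [h2, stdAddChar_coe]
      unfold Pool.Agent.Lib.MP_391708_nt.H20.ee
      congr 1
      push_cast
      ring
    · intro u hu hu2
      rw [Finset.mem_range] at hu
      rw [Finset.mem_Icc] at hu2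
      have : u = 0 := by omega
      rw [if_pos this, zero_mul]

end LS

open LS in
theorem specLS : SpecLS := by
  obtain ⟨C, hC, hls⟩ := Pool.Agent.Lib.MP_391708_nt.H20.ls
  refine ⟨2 * C, by positivity, ?_⟩
  intro R X b hR hX
  have hRR : (1 : ℝ) ≤ R := by exact_mod_cast hR
  have hXR : (1 : ℝ) ≤ X := by exact_mod_cast hX
  set c : ℕ → ℂ := fun n => if n = 0 then 0 else (b n : ℂ) with hc
  set s : Finset (ℕ × ℕ) := ((range R) ×ˢ (range R)).filter
    (fun x => x.2 < x.1 + 1 ∧ Nat.Coprime x.2 (x.1 + 1)) with hs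
  have h1 := hls (ℕ × ℕ) s (fun x => (x.2 : ℝ) / ((x.1 : ℝ) + 1)) (X + 1) (1 / (R : ℝ) ^ 2)
    (by positivity) (by
      intro i hi j hj hij m
      rw [hs, Finset.mem_filter, Finset.mem_product, Finset.mem_range, Finset.mem_range] at hi hj
      obtain ⟨⟨hi1, hi2⟩, hi3, hi4⟩ := hi
      obtain ⟨⟨hj1, hj2⟩, hj3, hj4⟩ := hj
      set p := i.1 + 1 with hp
      set r := j.1 + 1 with hr
      have hp0 : (0 : ℝ) < p := by positivity
      have hr0 : (0 : ℝ) < r := by positivity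
      have e1 : (i.1 : ℝ) + 1 = p := by rw [hp]; push_cast; ring
      have e2 : (j.1 : ℝ) + 1 = r := by rw [hr]; push_cast; ring
      rw [e1, e2]
      have hne : (i.2 : ℤ) * r - j.2 * p - m * (p * r) ≠ 0 := by
        intro h0
        have d1 : (p : ℤ) ∣ i.2 * r := ⟨j.2 + m * r, by linear_combination h0⟩
        have d2 : (r : ℤ) ∣ j.2 * p := ⟨i.2 - m * p, by linear_combination (-1 : ℤ) * h0⟩
        have d1' : p ∣ i.2 * r := by exact_mod_cast d1
        have d2' : r ∣ j.2 * p := by exact_mod_cast d2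
        have d3 : p ∣ r := (Nat.Coprime.dvd_of_dvd_mul_left hi4.symm d1')
        have d4 : r ∣ p := (Nat.Coprime.dvd_of_dvd_mul_left hj4.symm d2')
        have hpr : p = r := Nat.dvd_antisymm d3 d4
        have hij1 : i.1 = j.1 := by omega
        rw [← hpr] at h0
        have h5 : (p : ℤ) * ((i.2 : ℤ) - j.2 - m * p) = 0 := by linear_combination h0
        have h6 : (p : ℤ) ≠ 0 := by positivity
        have h7 : (i.2 : ℤ) - j.2 - m * p = 0 := by
          rcases mul_eq_zero.mp h5 with h | h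
          · exact absurd h h6
          · exact h
        have h8 : m = 0 := by
          have a1 : (i.2 : ℤ) < p := by exact_mod_cast hi3
          have a2 : (j.2 : ℤ) < p := by rw [hpr]; exact_mod_cast hj3
          have a3 : (0 : ℤ) ≤ i.2 := by positivity
          have a4 : (0 : ℤ) ≤ j.2 := by positivity
          have a5 : (0 : ℤ) < p := by positivity
          by_contra hm
          rcases lt_or_gt_of_ne hm with h | h
          · have : m ≤ -1 := by omega
            nlinarith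
          · have : 1 ≤ m := by omega
            nlinarith
        rw [h8, zero_mul, sub_zero] at h7
        apply hij
        exact Prod.ext hij1 (by omega)
      have h2 : (1 : ℝ) ≤ |(i.2 : ℝ) * r - j.2 * p - m * (p * r)| := by
        have := Int.one_le_abs hne
        exact_mod_cast this
      have h3 : (i.2 : ℝ) / p - (j.2 : ℝ) / r - m =
          ((i.2 : ℝ) * r - j.2 * p - m * (p * r)) / (p * r) := by
        field_simp
      rw [h3, abs_div, abs_of_pos (show (0 : ℝ) < p * r by positivity)]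
      have h4 : (p : ℝ) * r ≤ (R : ℝ) ^ 2 := by
        have a1 : (p : ℝ) ≤ R := by exact_mod_cast (by omega : p ≤ R)
        have a2 : (r : ℝ) ≤ R := by exact_mod_cast (by omega : r ≤ R)
        nlinarith
      calc 1 / (R : ℝ) ^ 2 ≤ 1 / (p * r) := one_div_le_one_div_of_le (by positivity) h4
        _ ≤ _ := div_le_div_of_nonneg_right h2 (by positivity)) c
  have h2 : ∑ r ∈ range R, ((r : ℝ) + 1) / ((r + 1).totient : ℝ) * csum r b X ≤
      ∑ x ∈ s, ‖∑ n ∈ range (X + 1), c n *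
        Pool.Agent.Lib.MP_391708_nt.H20.ee (n * ((x.2 : ℝ) / ((x.1 : ℝ) + 1)))‖ ^ 2 := by
    have hsplit : ∑ x ∈ s, ‖∑ n ∈ range (X + 1), c n *
        Pool.Agent.Lib.MP_391708_nt.H20.ee (n * ((x.2 : ℝ) / ((x.1 : ℝ) + 1)))‖ ^ 2 =
        ∑ r ∈ range R, ∑ j ∈ (range (r + 1)).filter (fun j => Nat.Coprime j (r + 1)),
        ‖∑ n ∈ range (X + 1), c n *
        Pool.Agent.Lib.MP_391708_nt.H20.ee (n * ((j : ℝ) / ((r : ℝ) + 1)))‖ ^ 2 := by
      rw [Finset.sum_sigma']
      refine Finset.sum_nbij' (fun x => (⟨x.1, x.2⟩ : (_ : ℕ) × ℕ)) (fun x => (x.1, x.2))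
        ?_ ?_ ?_ ?_ ?_
      · intro x hx
        rw [hs, Finset.mem_filter, Finset.mem_product, Finset.mem_range, Finset.mem_range] at hx
        rw [Finset.mem_sigma, Finset.mem_range, Finset.mem_filter, Finset.mem_range]
        exact ⟨hx.1.1, hx.2.1, hx.2.2⟩
      · intro x hx
        rw [Finset.mem_sigma, Finset.mem_range, Finset.mem_filter, Finset.mem_range] at hx
        rw [hs, Finset.mem_filter, Finset.mem_product, Finset.mem_range, Finset.mem_range]
        exact ⟨⟨hx.1, by have := hx.2.1; omega⟩, hx.2.1, hx.2.2⟩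
      · intro x _; rfl
      · intro x _; rfl
      · intro x _; rfl
    rw [hsplit]
    apply Finset.sum_le_sum
    intro r _
    have h3 := prim_sum_le (q := r + 1) (fun u => (b u : ℂ)) X
    rw [S_units] at h3
    have hφ : (0 : ℝ) < ((r + 1).totient : ℝ) := by
      exact_mod_cast Nat.totient_pos.mpr (Nat.succ_pos r)
    rw [div_mul_eq_mul_div, div_le_iff₀ hφ]
    unfold csum
    push_cast at h3 ⊢
    calc _ ≤ _ := h3
      _ = _ := by rw [mul_comm]
  refine h2.trans (h1.trans ?_)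
  have h4 : ∑ n ∈ range (X + 1), ‖c n‖ ^ 2 = ∑ u ∈ Icc 1 X, (b u) ^ 2 := by
    have h5 : Icc 1 X ⊆ range (X + 1) := by
      intro u hu
      rw [Finset.mem_Icc] at hu
      rw [Finset.mem_range]; omega
    rw [← Finset.sum_subset h5]
    · apply Finset.sum_congr rfl
      intro u hu
      rw [Finset.mem_Icc] at hu
      simp only [hc]
      rw [if_neg (by omega), Complex.norm_real, Real.norm_eq_abs, sq_abs]
    · intro u hu hu2
      rw [Finset.mem_range] at hu
      rw [Finset.mem_Icc] at hu2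
      simp only [hc]
      rw [if_pos (by omega)]
      simp
  rw [h4]
  apply mul_le_mul_of_nonneg_right _ (Finset.sum_nonneg (fun _ _ => sq_nonneg _))
  rw [one_div_one_div]
  push_cast
  nlinarith [hC]

end Pool.Agent.Lib.MP391708.QPA
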