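import Pool.Agent.Lib.MP_391708_nt.QPA.LS

/-!
# Characters modulo `q` and primitive characters (for the module BDH)
-/

set_option autoImplicit false

namespace Pool.Agent.Lib.MP391708.QPA

open Finset Filter Topology
open scoped Classical

namespace BDH

/-- `b` restricted to the integers coprime to `q` -/
noncomputable def bq (q : ℕ) (b : ℕ → ℝ) (u : ℕ) : ℝ := if Nat.Coprime u q then b u else 0

lemma char_zero {n : ℕ} (ψ : DirichletCharacter ℂ n) {u : ℕ} (h : ¬ Nat.Coprime u n) :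
    ψ (u : ZMod n) = 0 := by
  apply MulChar.map_nonunit
  rwa [ZMod.isUnit_iff_coprime]

lemma changeLevel_apply {n q : ℕ} (hn : n ∣ q) (ψ : DirichletCharacter ℂ n) {u : ℕ}
    (h : Nat.Coprime u q) :
    DirichletCharacter.changeLevel hn ψ (u : ZMod q) = ψ (u : ZMod n) := by
  have h1 : IsCoprime ((u : ℕ) : ℤ) (q : ℤ) := Nat.isCoprime_iff_coprime.mpr h
  have h2 := DirichletCharacter.changeLevel_eq_cast_of_dvd' ψ hn h1
  simpa using h2

lemma exists_prim {q : ℕ} (χ : DirichletCharacter ℂ q) : ∀ n : ℕ, χ.conductor = n →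
    ∀ hn : n ∣ q, ∃ ψ : DirichletCharacter ℂ n, ψ.IsPrimitive ∧
      DirichletCharacter.changeLevel hn ψ = χ := by
  rintro n rfl hn
  exact ⟨χ.primitiveCharacter, χ.primitiveCharacter_isPrimitive, χ.changeLevel_primitiveCharacter⟩

lemma sum_changeLevel {n q : ℕ} (hn : n ∣ q) (ψ : DirichletCharacter ℂ n) (b : ℕ → ℝ) (X : ℕ) :
    ∑ u ∈ Icc 1 X, (b u : ℂ) * (DirichletCharacter.changeLevel hn ψ) (u : ZMod q) =
      ∑ u ∈ Icc 1 X, ((bq q b u : ℝ) : ℂ) * ψ (u : ZMod n) := by
  apply Finset.sum_congr rfl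
  intro u _
  unfold bq
  by_cases h : Nat.Coprime u q
  · rw [if_pos h, changeLevel_apply hn ψ h]
  · rw [if_neg h, char_zero _ h]
    simp

lemma char_split (q : ℕ) [NeZero q] (b : ℕ → ℝ) (X : ℕ) :
    ∑ χ ∈ (univ : Finset (DirichletCharacter ℂ q)).filter (fun χ => χ ≠ 1),
        ‖∑ u ∈ Icc 1 X, (b u : ℂ) * χ (u : ZMod q)‖ ^ 2
      ≤ ∑ r ∈ (range q).filter (fun r => 1 ≤ r ∧ r + 1 ∣ q), csum r (bq q b) X := by
  have hmaps : ∀ χ ∈ (univ : Finset (DirichletCharacter ℂ q)).filter (fun χ => χ ≠ 1),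
      χ.conductor - 1 ∈ (range q).filter (fun r => 1 ≤ r ∧ r + 1 ∣ q) := by
    intro χ hχ
    rw [Finset.mem_filter] at hχ
    have h1 : χ.conductor ≠ 1 := fun h => hχ.2 ((χ.eq_one_iff_conductor_eq_one).mpr h)
    have h2 : χ.conductor ≠ 0 := χ.conductor_ne_zero
    have h3 : χ.conductor ∣ q := χ.conductor_dvd_level
    have h4 : χ.conductor ≤ q := Nat.le_of_dvd (NeZero.pos q) h3
    rw [Finset.mem_filter, Finset.mem_range]
    refine ⟨by omega, by omega, ?_⟩
    have : χ.conductor - 1 + 1 = χ.conductor := by omega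
    rw [this]; exact h3
  rw [← Finset.sum_fiberwise_of_maps_to hmaps]
  apply Finset.sum_le_sum
  intro r hr
  rw [Finset.mem_filter, Finset.mem_range] at hr
  obtain ⟨hr1, hr2, hr3⟩ := hr
  have hinj : Function.Injective (DirichletCharacter.changeLevel (R := ℂ) hr3) :=
    DirichletCharacter.changeLevel_injective hr3
  have hsub : ((univ : Finset (DirichletCharacter ℂ q)).filter (fun χ => χ ≠ 1)).filter
      (fun χ => χ.conductor - 1 = r) ⊆
      ((univ : Finset (DirichletCharacter ℂ (r + 1))).filter (fun ψ => ψ.IsPrimitive)).image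
        (fun ψ => DirichletCharacter.changeLevel hr3 ψ) := by
    intro χ hχ
    rw [Finset.mem_filter, Finset.mem_filter] at hχ
    have h2 : χ.conductor ≠ 0 := χ.conductor_ne_zero
    obtain ⟨ψ, hψ, h⟩ := exists_prim χ (r + 1) (by omega) hr3
    rw [Finset.mem_image]
    exact ⟨ψ, by simp [hψ], h⟩
  calc _ ≤ ∑ χ ∈ ((univ : Finset (DirichletCharacter ℂ (r + 1))).filter
        (fun ψ => ψ.IsPrimitive)).image (fun ψ => DirichletCharacter.changeLevel hr3 ψ),
          ‖∑ u ∈ Icc 1 X, (b u : ℂ) * χ (u : ZMod q)‖ ^ 2 :=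
        Finset.sum_le_sum_of_subset_of_nonneg hsub (fun _ _ _ => by positivity)
    _ = ∑ ψ ∈ (univ : Finset (DirichletCharacter ℂ (r + 1))).filter (fun ψ => ψ.IsPrimitive),
          ‖∑ u ∈ Icc 1 X, (b u : ℂ) *
            ((DirichletCharacter.changeLevel hr3 ψ : DirichletCharacter ℂ q) (u : ZMod q))‖ ^ 2 := by
        rw [Finset.sum_image]
        intro a _ c _ h
        exact hinj h
    _ = csum r (bq q b) X := by
        unfold csum
        apply Finset.sum_congr rfl
        intro ψ _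
        rw [sum_changeLevel]

lemma sum_range_coprime {q : ℕ} [NeZero q] (F : ℕ → ℝ) :
    ∑ c ∈ (range q).filter (fun c => Nat.Coprime c q), F c =
      ∑ k ∈ (univ : Finset (ZMod q)).filter (fun k => IsUnit k), F k.val := by
  symm
  apply Finset.sum_bij (fun (k : ZMod q) _ => k.val)
  · intro k hk
    rw [Finset.mem_filter] at hk ⊢
    refine ⟨Finset.mem_range.mpr (ZMod.val_lt k), ?_⟩
    rw [← ZMod.isUnit_iff_coprime, ZMod.natCast_zmod_val]
    exact hk.2
  · intro a _ c _ h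
    exact ZMod.val_injective q h
  · intro c hc
    rw [Finset.mem_filter, Finset.mem_range] at hc
    refine ⟨(c : ZMod q), ?_, ZMod.val_natCast_of_lt hc.1⟩
    rw [Finset.mem_filter]
    exact ⟨Finset.mem_univ _, (ZMod.isUnit_iff_coprime c q).mpr hc.2⟩
  · intro k _
    rfl

lemma variance (q : ℕ) [NeZero q] (b : ℕ → ℝ) (X : ℕ) :
    ∑ c ∈ (range q).filter (fun c => Nat.Coprime c q),
      ((∑ u ∈ (Icc 1 X).filter (fun u => u % q = c), b u)
        - (∑ u ∈ Icc 1 X, b u) / (q.totient : ℝ)) ^ 2 =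
    1 / (q.totient : ℝ) * ((∑ χ ∈ (univ : Finset (DirichletCharacter ℂ q)).filter (fun χ => χ ≠ 1),
        ‖∑ u ∈ Icc 1 X, (b u : ℂ) * χ (u : ZMod q)‖ ^ 2)
      + (∑ u ∈ (Icc 1 X).filter (fun u => ¬ Nat.Coprime u q), b u) ^ 2) := by
  have hφ : (0 : ℝ) < q.totient := by exact_mod_cast Nat.totient_pos.2 (NeZero.pos q)
  set S : ℝ := ∑ u ∈ Icc 1 X, b u with hS
  set f : ZMod q → ℂ := fun k => if IsUnit k then
    (((∑ u ∈ (Icc 1 X).filter (fun u : ℕ => (u : ZMod q) = k), b u) - S / (q.totient : ℝ) : ℝ) : ℂ)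
    else 0 with hf
  have horth := LS.orth f
  have hR : ∑ k ∈ univ.filter (fun k : ZMod q => IsUnit k), ‖f k‖ ^ 2 =
      ∑ c ∈ (range q).filter (fun c => Nat.Coprime c q),
      ((∑ u ∈ (Icc 1 X).filter (fun u => u % q = c), b u) - S / (q.totient : ℝ)) ^ 2 := by
    rw [sum_range_coprime (fun c => ((∑ u ∈ (Icc 1 X).filter (fun u => u % q = c), b u)
      - S / (q.totient : ℝ)) ^ 2)]
    apply Finset.sum_congr rfl
    intro k hk
    rw [Finset.mem_filter] at hk
    rw [hf]
    simp only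
    rw [if_pos hk.2, Complex.norm_real, Real.norm_eq_abs, sq_abs]
    congr 2
    apply Finset.sum_congr _ (fun _ _ => rfl)
    apply Finset.filter_congr
    intro u _
    rw [← ZMod.val_natCast]
    constructor
    · intro h; rw [h]
    · intro h; exact ZMod.val_injective q h
  have hchi : ∀ χ : DirichletCharacter ℂ q, ∑ k, χ k * f k =
      (∑ u ∈ Icc 1 X, (b u : ℂ) * χ (u : ZMod q)) - (S / (q.totient : ℝ) : ℝ) * ∑ k, χ k := by
    intro χ
    have h1 : ∀ k : ZMod q, χ k * f k =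
        (∑ u ∈ (Icc 1 X).filter (fun u : ℕ => (u : ZMod q) = k), (b u : ℂ) * χ (u : ZMod q))
          - (S / (q.totient : ℝ) : ℝ) * χ k := by
      intro k
      have h2 : (∑ u ∈ (Icc 1 X).filter (fun u : ℕ => (u : ZMod q) = k), (b u : ℂ) * χ (u : ZMod q)) =
          (∑ u ∈ (Icc 1 X).filter (fun u : ℕ => (u : ZMod q) = k), (b u : ℂ)) * χ k := by
        rw [Finset.sum_mul]
        apply Finset.sum_congr rfl
        intro u hu
        rw [(Finset.mem_filter.mp hu).2]
      rw [h2, hf]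
      simp only
      split_ifs with hk
      · push_cast
        ring
      · rw [χ.map_nonunit hk]
        simp
    rw [Finset.sum_congr rfl (fun k _ => h1 k), Finset.sum_sub_distrib, ← Finset.mul_sum]
    congr 1
    rw [Finset.sum_fiberwise]
  have hne : ∀ χ : DirichletCharacter ℂ q, χ ≠ 1 → ∑ k, χ k * f k =
      ∑ u ∈ Icc 1 X, (b u : ℂ) * χ (u : ZMod q) := by
    intro χ hχ
    rw [hchi, MulChar.sum_eq_zero_of_ne_one hχ]
    simp
  have h1 : ∑ k, (1 : DirichletCharacter ℂ q) k * f k =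
      ((-(∑ u ∈ (Icc 1 X).filter (fun u => ¬ Nat.Coprime u q), b u) : ℝ) : ℂ) := by
    rw [hchi, MulChar.sum_one_eq_card_units, ZMod.card_units_eq_totient]
    have h2 : ∑ u ∈ Icc 1 X, (b u : ℂ) * (1 : DirichletCharacter ℂ q) (u : ZMod q) =
        ((∑ u ∈ (Icc 1 X).filter (fun u => Nat.Coprime u q), b u : ℝ) : ℂ) := by
      push_cast
      rw [Finset.sum_filter]
      apply Finset.sum_congr rfl
      intro u _
      by_cases h : Nat.Coprime u q
      · rw [if_pos h, MulChar.one_apply ((ZMod.isUnit_iff_coprime u q).mpr h), mul_one]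
      · rw [if_neg h, char_zero _ h, mul_zero]
    have h3 := Finset.sum_filter_add_sum_filter_not (Icc 1 X) (fun u => Nat.Coprime u q) b
    rw [← hS] at h3
    have h4 : ((S / (q.totient : ℝ) : ℝ) : ℂ) * ((q.totient : ℕ) : ℂ) = (S : ℂ) := by
      have : S / (q.totient : ℝ) * (q.totient : ℝ) = S := by field_simp
      exact_mod_cast this
    rw [h2, h4, ← h3]
    push_cast
    ring
  have hsplit : ∑ χ : DirichletCharacter ℂ q, ‖∑ k, χ k * f k‖ ^ 2 =
      (∑ χ ∈ (univ : Finset (DirichletCharacter ℂ q)).filter (fun χ => χ ≠ 1),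
        ‖∑ u ∈ Icc 1 X, (b u : ℂ) * χ (u : ZMod q)‖ ^ 2)
      + (∑ u ∈ (Icc 1 X).filter (fun u => ¬ Nat.Coprime u q), b u) ^ 2 := by
    rw [← Finset.sum_filter_add_sum_filter_not univ (fun χ : DirichletCharacter ℂ q => χ ≠ 1)]
    congr 1
    · apply Finset.sum_congr rfl
      intro χ hχ
      rw [hne χ (Finset.mem_filter.mp hχ).2]
    · have : (univ : Finset (DirichletCharacter ℂ q)).filter (fun χ => ¬ χ ≠ 1) = {1} := by
        ext χ; simp
      rw [this, Finset.sum_singleton, h1, Complex.norm_real, Real.norm_eq_abs, sq_abs, neg_sq]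
  rw [← hR, ← hsplit, horth]
  field_simp

end BDH

end Pool.Agent.Lib.MP391708.QPA
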