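import Pool.Agent.Lib.MP_391708_nt.QPA.Spec

/-!
# BT: Brun-Titchmarsh for rough numbers
-/

set_option autoImplicit false

namespace Pool.Agent.Lib.MP391708.QPA

open Finset Filter Topology
open scoped Classical

namespace BT

/-- a residue class in an interval -/
lemma count_le (x H M v : ℕ) (hM : 0 < M) :
    (((Ioc x (x + H)).filter (fun u => u ≡ v [MOD M])).card : ℝ) ≤ (H : ℝ) / M + 1 ∧
    (H : ℝ) / M - 1 ≤ (((Ioc x (x + H)).filter (fun u => u ≡ v [MOD M])).card : ℝ) := by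
  have h := Nat.Ioc_filter_modEq_card (x) (x + H) hM v
  have hM' : (0 : ℝ) < M := by exact_mod_cast hM
  have h1 : ((((x + H : ℕ) : ℚ) - (v : ℚ)) / (M : ℚ)) = (((x : ℚ) - v) / M) + (H : ℚ) / M := by
    push_cast
    ring
  rw [h1] at h
  set α : ℚ := ((x : ℚ) - v) / M
  set β : ℚ := (H : ℚ) / M
  have hβ : 0 ≤ β := by positivity
  have hf1 : (⌊α + β⌋ : ℚ) ≤ α + β := Int.floor_le _
  have hf2 : α + β < (⌊α + β⌋ : ℚ) + 1 := Int.lt_floor_add_one _
  have hf3 : (⌊α⌋ : ℚ) ≤ α := Int.floor_le _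
  have hf4 : α < (⌊α⌋ : ℚ) + 1 := Int.lt_floor_add_one _
  have hmono : ⌊α⌋ ≤ ⌊α + β⌋ := Int.floor_le_floor (by linarith)
  rw [max_eq_left (by omega)] at h
  have h2 : (((((Ioc x (x + H)).filter (fun u => u ≡ v [MOD M])).card : ℤ) : ℚ)
      = (⌊α + β⌋ : ℚ) - (⌊α⌋ : ℚ)) := by
    rw [h]; push_cast; ring
  push_cast at h2
  have hq1 : ((((Ioc x (x + H)).filter (fun u => u ≡ v [MOD M])).card : ℚ)) ≤ β + 1 := by
    rw [h2]; linarith
  have hq2 : β - 1 ≤ ((((Ioc x (x + H)).filter (fun u => u ≡ v [MOD M])).card : ℚ)) := by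
    rw [h2]; linarith
  constructor
  · have : ((((((Ioc x (x + H)).filter (fun u => u ≡ v [MOD M])).card : ℚ)) : ℝ)) ≤ ((β + 1 : ℚ) : ℝ) := by
      exact_mod_cast hq1
    push_cast [β] at this
    exact_mod_cast this
  · have : ((β - 1 : ℚ) : ℝ) ≤ ((((((Ioc x (x + H)).filter (fun u => u ≡ v [MOD M])).card : ℚ)) : ℝ)) := by
      exact_mod_cast hq2
    push_cast [β] at this
    exact_mod_cast this

/-- the number of `u ≡ c (mod q)`, `l ∣ u`, for coprime `l`, `q` -/
lemma count_crt (x H q c l : ℕ) (hq : 0 < q) (hl : 0 < l) (hc : c < q) (hcop : Nat.Coprime l q) :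
    |(((Ioc x (x + H)).filter (fun u => u % q = c ∧ l ∣ u)).card : ℝ) - (H : ℝ) / (l * q)| ≤ 1 := by
  obtain ⟨v, hv1, hv2⟩ := Nat.chineseRemainder hcop 0 c
  have hset : (Ioc x (x + H)).filter (fun u => u % q = c ∧ l ∣ u)
      = (Ioc x (x + H)).filter (fun u => u ≡ v [MOD (l * q)]) := by
    ext u
    simp only [Finset.mem_filter, and_congr_right_iff]
    intro _
    rw [← Nat.modEq_and_modEq_iff_modEq_mul hcop]
    constructor
    · rintro ⟨h1, h2⟩
      refine ⟨?_, ?_⟩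
      · exact ((Nat.modEq_zero_iff_dvd.mpr h2)).trans hv1.symm
      · have : u ≡ c [MOD q] := by
          unfold Nat.ModEq; rw [h1, Nat.mod_eq_of_lt hc]
        exact this.trans hv2.symm
    · rintro ⟨h1, h2⟩
      refine ⟨?_, ?_⟩
      · have := h2.trans hv2
        unfold Nat.ModEq at this
        rw [this, Nat.mod_eq_of_lt hc]
      · exact Nat.modEq_zero_iff_dvd.mp (h1.trans hv1)
  rw [hset]
  obtain ⟨h1, h2⟩ := count_le x H (l * q) v (Nat.mul_pos hl hq)
  push_cast at h1 h2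
  rw [abs_le]
  constructor <;> linarith

/-- `Th lam u = 1` for rough `u` -/
lemma th_one (y z : ℝ) (hyz : y < z) (lam : ℕ → ℝ) (h1 : lam 1 = 1)
    (h2 : ∀ d, lam d ≠ 0 → 1 ≤ d ∧ (d : ℝ) ≤ y) (u : ℕ) (hu : 1 ≤ u) (hr : Rough z u) :
    Th lam u = 1 := by
  unfold Th
  rw [Finset.sum_eq_single 1]
  · rw [h1]; norm_num
  · intro d hd hd1
    by_contra hne
    obtain ⟨hd2, hd3⟩ := h2 d hne
    obtain ⟨p, hp, hpd⟩ := Nat.exists_prime_and_dvd hd1
    have h3 := hr p hp (dvd_trans hpd (Nat.dvd_of_mem_divisors hd))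
    have h4 : (p : ℝ) ≤ d := by exact_mod_cast Nat.le_of_dvd hd2 hpd
    linarith
  · intro h
    exact absurd (Nat.one_mem_divisors.mpr (by omega)) h

/-- the main inequality -/
lemma main (y z : ℝ) (q c x H : ℕ) (hyz : y < z) (hy : 2 ≤ y) (hq : 1 ≤ q) (hc : c < q)
    (lam : ℕ → ℝ) (h1 : lam 1 = 1) (habs : ∀ d, |lam d| ≤ 1)
    (h2 : ∀ d, lam d ≠ 0 → 1 ≤ d ∧ (d : ℝ) ≤ y ∧ Squarefree d ∧ Nat.Coprime d q) :
    (((Ioc x (x + H)).filter (fun u => u % q = c ∧ Rough z u)).card : ℝ)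
      ≤ (H : ℝ) / q * QF y lam + y ^ 2 := by
  set Y := ⌊y⌋₊ with hY
  have hcard : (((Ioc x (x + H)).filter (fun u => u % q = c ∧ Rough z u)).card : ℝ)
      ≤ ∑ u ∈ (Ioc x (x + H)).filter (fun u => u % q = c), Th lam u := by
    rw [Finset.card_eq_sum_ones]
    push_cast
    have hs : (Ioc x (x + H)).filter (fun u => u % q = c ∧ Rough z u)
        = ((Ioc x (x + H)).filter (fun u => u % q = c)).filter (fun u => Rough z u) := by
      rw [Finset.filter_filter]
    rw [hs]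
    calc ∑ u ∈ ((Ioc x (x + H)).filter (fun u => u % q = c)).filter (fun u => Rough z u), (1 : ℝ)
        = ∑ u ∈ ((Ioc x (x + H)).filter (fun u => u % q = c)).filter (fun u => Rough z u), Th lam u := by
          apply Finset.sum_congr rfl
          intro u hu
          obtain ⟨hu1, hu2⟩ := Finset.mem_filter.mp hu
          have hu3 := (Finset.mem_filter.mp hu1).1
          rw [th_one y z hyz lam h1 (fun d hd => ⟨(h2 d hd).1, (h2 d hd).2.1⟩) u ?_ hu2]
          have := (Finset.mem_Ioc.mp hu3).1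
          omega
      _ ≤ ∑ u ∈ (Ioc x (x + H)).filter (fun u => u % q = c), Th lam u := by
          apply Finset.sum_le_sum_of_subset_of_nonneg (Finset.filter_subset _ _)
          intro i _ _
          exact sq_nonneg _
  refine le_trans hcard ?_
  have hth : ∀ u ∈ (Ioc x (x + H)).filter (fun u => u % q = c), Th lam u
      = ∑ d ∈ Icc 1 Y, ∑ e ∈ Icc 1 Y, lam d * lam e * (if Nat.lcm d e ∣ u then 1 else 0) := by
    intro u hu
    have hu1 := (Finset.mem_Ioc.mp (Finset.mem_filter.mp hu).1).1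
    have hsum : ∑ d ∈ u.divisors, lam d = ∑ d ∈ Icc 1 Y, (if d ∣ u then lam d else 0) := by
      rw [← Finset.sum_filter]
      symm
      apply Finset.sum_subset
      · intro d hd
        exact Nat.mem_divisors.mpr ⟨(Finset.mem_filter.mp hd).2, by omega⟩
      · intro d hd hd2
        by_contra hne
        obtain ⟨g1, g2, _, _⟩ := h2 d hne
        apply hd2
        refine Finset.mem_filter.mpr ⟨Finset.mem_Icc.mpr ⟨g1, ?_⟩, Nat.dvd_of_mem_divisors hd⟩
        exact Nat.le_floor g2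
    unfold Th
    rw [hsum, sq, Finset.sum_mul_sum]
    apply Finset.sum_congr rfl
    intro d _
    apply Finset.sum_congr rfl
    intro e _
    by_cases hd : d ∣ u
    · by_cases he : e ∣ u
      · rw [if_pos hd, if_pos he, if_pos (Nat.lcm_dvd hd he)]; ring
      · rw [if_neg he, if_neg (fun h => he (dvd_trans (Nat.dvd_lcm_right d e) h))]; ring
    · rw [if_neg hd, if_neg (fun h => hd (dvd_trans (Nat.dvd_lcm_left d e) h))]; ring
  rw [Finset.sum_congr rfl hth, Finset.sum_comm]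
  have h3 : ∑ d ∈ Icc 1 Y, ∑ u ∈ (Ioc x (x + H)).filter (fun u => u % q = c),
      ∑ e ∈ Icc 1 Y, lam d * lam e * (if Nat.lcm d e ∣ u then (1 : ℝ) else 0)
      = ∑ d ∈ Icc 1 Y, ∑ e ∈ Icc 1 Y, lam d * lam e *
        (((Ioc x (x + H)).filter (fun u => u % q = c ∧ Nat.lcm d e ∣ u)).card : ℝ) := by
    apply Finset.sum_congr rfl
    intro d _
    rw [Finset.sum_comm]
    apply Finset.sum_congr rfl
    intro e _
    rw [← Finset.mul_sum, ← Finset.sum_filter, Finset.filter_filter]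
    simp
  rw [h3]
  have h4 : ∀ d ∈ Icc 1 Y, ∀ e ∈ Icc 1 Y, lam d * lam e *
        (((Ioc x (x + H)).filter (fun u => u % q = c ∧ Nat.lcm d e ∣ u)).card : ℝ)
      ≤ (H : ℝ) / q * (lam d * lam e / (Nat.lcm d e : ℝ)) + 1 := by
    intro d hd e he
    have hd1 := (Finset.mem_Icc.mp hd).1
    have he1 := (Finset.mem_Icc.mp he).1
    by_cases hd0 : lam d = 0
    · rw [hd0]; simp
    by_cases he0 : lam e = 0
    · rw [he0]; simp
    have hl : 0 < Nat.lcm d e := Nat.lcm_pos hd1 he1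
    have hcop : Nat.Coprime (Nat.lcm d e) q :=
      Nat.Coprime.coprime_dvd_left (Nat.lcm_dvd_mul d e)
        (Nat.Coprime.mul_left (h2 d hd0).2.2.2 (h2 e he0).2.2.2)
    have h5 := count_crt x H q c (Nat.lcm d e) hq hl hc hcop
    have h6 : |lam d * lam e| ≤ 1 := by
      rw [abs_mul]
      calc |lam d| * |lam e| ≤ 1 * 1 := mul_le_mul (habs d) (habs e) (abs_nonneg _) zero_le_one
        _ = 1 := one_mul 1
    have h7 : |lam d * lam e * ((((Ioc x (x + H)).filter
        (fun u => u % q = c ∧ Nat.lcm d e ∣ u)).card : ℝ) - (H : ℝ) / (Nat.lcm d e * q))| ≤ 1 := by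
      rw [abs_mul]
      calc _ ≤ 1 * 1 := mul_le_mul h6 h5 (abs_nonneg _) zero_le_one
        _ = 1 := one_mul 1
    have h8 := (abs_le.mp h7).2
    have hq0 : (q : ℝ) ≠ 0 := by positivity
    have hl0 : (Nat.lcm d e : ℝ) ≠ 0 := by positivity
    have h9 : lam d * lam e * ((H : ℝ) / (Nat.lcm d e * q))
        = (H : ℝ) / q * (lam d * lam e / (Nat.lcm d e : ℝ)) := by
      field_simp
    rw [mul_sub, h9] at h8
    linarith
  refine le_trans (Finset.sum_le_sum fun d hd => Finset.sum_le_sum (h4 d hd)) ?_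
  simp only [Finset.sum_add_distrib, ← Finset.mul_sum]
  have h10 : ∑ d ∈ Icc 1 Y, ∑ e ∈ Icc 1 Y, (1 : ℝ) ≤ y ^ 2 := by
    simp only [Finset.sum_const, Nat.card_Icc, Nat.add_sub_cancel, nsmul_eq_mul, mul_one]
    have : (Y : ℝ) ≤ y := Nat.floor_le (by linarith)
    nlinarith [Nat.cast_nonneg (α := ℝ) Y]
  have h11 : ∑ d ∈ Icc 1 Y, ∑ e ∈ Icc 1 Y, lam d * lam e / (Nat.lcm d e : ℝ) = QF y lam := rfl
  rw [h11]
  linarith

end BT

open BT in
theorem specBT (hS : SpecSELB) : SpecBT := by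
  obtain ⟨C, hC, h⟩ := hS
  refine ⟨max C 1, lt_of_lt_of_le one_pos (le_max_right _ _), fun y z q c x H hy hyz hq => ?_⟩
  have hlog : 0 < Real.log y := Real.log_pos (by linarith)
  have htot : (0 : ℝ) < (q.totient : ℝ) := by exact_mod_cast Nat.totient_pos.mpr hq
  have hM1 : (1 : ℝ) ≤ max C 1 := le_max_right _ _
  have hMC : C ≤ max C 1 := le_max_left _ _
  by_cases hc : c < q
  · obtain ⟨lam, h1, h2, h3, h4, h5⟩ := h y q hy hq
    have h6 := main y z q c x H hyz hy hq hc lam h1 h2 h3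
    refine le_trans h6 ?_
    have hq0 : (0 : ℝ) < q := by exact_mod_cast hq
    have h7 : (H : ℝ) / q * QF y lam ≤ (H : ℝ) / q * (C * ((q : ℝ) / (q.totient : ℝ)) / Real.log y) :=
      mul_le_mul_of_nonneg_left h5 (by positivity)
    have h8 : (H : ℝ) / q * (C * ((q : ℝ) / (q.totient : ℝ)) / Real.log y)
        = C * H / ((q.totient : ℝ) * Real.log y) := by
      field_simp
    have h9 : C * H / ((q.totient : ℝ) * Real.log y) ≤ max C 1 * H / ((q.totient : ℝ) * Real.log y) := by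
      gcongr
    have h10 : y ^ 2 ≤ max C 1 * y ^ 2 := by nlinarith [sq_nonneg y]
    linarith
  · have hempty : (Ioc x (x + H)).filter (fun u => u % q = c ∧ Rough z u) = ∅ := by
      apply Finset.filter_eq_empty_iff.mpr
      rintro u _ ⟨hu, _⟩
      exact hc (hu ▸ Nat.mod_lt u hq)
    rw [hempty]
    simp only [Finset.card_empty, Nat.cast_zero]
    positivity

end Pool.Agent.Lib.MP391708.QPA
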