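import Pool.Agent.Lib.MP_391708_nt.QPA.Spec

/-!
# WMER: `∏_{p<z} (1-1/p) ≤ 1/log z`
-/

set_option autoImplicit false

namespace Pool.Agent.Lib.MP391708.QPA

open Finset Filter Topology

namespace WMER

/-- the completely multiplicative function `n ↦ 1/n` -/
noncomputable def invHom : ℕ →* ℝ where
  toFun n := ((n : ℝ))⁻¹
  map_one' := by simp
  map_mul' a b := by push_cast; rw [mul_inv]

lemma invHom_lt {p : ℕ} (hp : p.Prime) : ‖invHom p‖ < 1 := by
  have h2 : (2 : ℝ) ≤ p := by exact_mod_cast hp.two_le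
  have : invHom p = ((p : ℝ))⁻¹ := rfl
  rw [this, Real.norm_of_nonneg (by positivity)]
  exact inv_lt_one_of_one_lt₀ (by linarith)

/-- a finite partial sum of a nonnegative series over a set -/
lemma sum_le_of_hasSum_subtype (s : Set ℕ) (f : ℕ → ℝ) (hf : ∀ n, 0 ≤ f n) (a : ℝ)
    (h : HasSum (fun m : s => f m) a) (T : Finset ℕ) (hT : ∀ n ∈ T, n ∈ s) :
    ∑ n ∈ T, f n ≤ a := by
  have h1 : HasSum (s.indicator f) a := (hasSum_subtype_iff_indicator (f := f) (s := s)).mp h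
  have h2 : ∑ n ∈ T, f n = ∑ n ∈ T, s.indicator f n :=
    Finset.sum_congr rfl fun n hn => (Set.indicator_of_mem (hT n hn) f).symm
  rw [h2]
  exact sum_le_hasSum T (fun n _ => Set.indicator_nonneg (fun m _ => hf m) n) h1

/-- `∑_{1 ≤ n < M} 1/n ≤ ∏_{p<M} (1-1/p)⁻¹` -/
lemma sum_le_prod (M : ℕ) :
    ∑ n ∈ Icc 1 (M - 1), ((n : ℝ))⁻¹ ≤ ∏ p ∈ M.primesBelow, (1 - ((p : ℝ))⁻¹)⁻¹ := by
  obtain ⟨hs, hh⟩ := EulerProduct.summable_and_hasSum_smoothNumbers_prod_primesBelow_geometric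
    (F := ℝ) (f := invHom) (fun hp => invHom_lt hp) M
  have hinj : ∀ n ∈ Icc 1 (M - 1), n ∈ Nat.smoothNumbers M := by
    intro n hn
    rw [Finset.mem_Icc] at hn
    rw [Nat.mem_smoothNumbers']
    intro p hp hpn
    exact lt_of_le_of_lt (Nat.le_of_dvd (by omega) hpn) (by omega)
  exact sum_le_of_hasSum_subtype (Nat.smoothNumbers M) (fun n => ((n : ℝ))⁻¹)
    (fun n => by positivity) _ hh _ hinj

end WMER

open WMER in
theorem specWMER : SpecWMER := by
  refine ⟨1, one_pos, fun z hz => ?_⟩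
  set M : ℕ := ⌈z⌉₊ with hM
  have hz0 : 0 < Real.log z := Real.log_pos (by linarith)
  have hMz : z ≤ M := Nat.le_ceil z
  have hM2 : 2 ≤ M := by
    have : (2 : ℝ) ≤ M := le_trans hz hMz
    exact_mod_cast this
  have hW : Wp z = (∏ p ∈ M.primesBelow, (1 - ((p : ℝ))⁻¹)⁻¹)⁻¹ := by
    rw [← Finset.prod_inv_distrib]
    unfold Wp PB
    rw [← hM]
    apply Finset.prod_congr
    · ext p; simp [Nat.primesBelow]
    · intro p _
      simp
  have h1 := sum_le_prod M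
  have h2 : Real.log z ≤ ∑ n ∈ Icc 1 (M - 1), ((n : ℝ))⁻¹ := by
    have h3 := log_add_one_le_harmonic (M - 1)
    have h4 : (((harmonic (M - 1) : ℚ)) : ℝ) = ∑ n ∈ Icc 1 (M - 1), ((n : ℝ))⁻¹ := by
      rw [harmonic_eq_sum_Icc]
      push_cast
      rfl
    rw [h4] at h3
    refine le_trans (Real.log_le_log (by linarith) ?_) h3
    have : ((M - 1 : ℕ) : ℝ) = (M : ℝ) - 1 := by
      rw [Nat.cast_sub (by omega)]; simp
    push_cast
    rw [this]
    linarith
  rw [hW, one_div]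
  exact inv_anti₀ hz0 (le_trans h2 h1)

end Pool.Agent.Lib.MP391708.QPA
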