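import Pool.Agent.Lib.MP_391708_nt.QPA.Spec
import Pool.Agent.Lib.MP_391708_nt.QPA.Wmer

/-!
# SELB: Selberg's weights
-/

set_option autoImplicit false

namespace Pool.Agent.Lib.MP391708.QPA

open Finset Filter Topology

namespace SELB

/-- squarefree integers up to `Y` coprime to `m` -/
def R (Y m : ℕ) : Finset ℕ := (Icc 1 Y).filter (fun r => Squarefree r ∧ Nat.Coprime r m)

lemma mem_R {Y m r : ℕ} : r ∈ R Y m ↔ (1 ≤ r ∧ r ≤ Y) ∧ Squarefree r ∧ Nat.Coprime r m := by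
  simp [R]

/-- `1/φ(r)` -/
noncomputable def ip (r : ℕ) : ℝ := 1 / (r.totient : ℝ)

lemma tpos {r : ℕ} (h : 1 ≤ r) : (0 : ℝ) < (r.totient : ℝ) := by
  exact_mod_cast Nat.totient_pos.mpr h

lemma ip_nonneg (r : ℕ) : 0 ≤ ip r := by unfold ip; positivity

/-- Selberg's sum -/
noncomputable def S (Y m : ℕ) : ℝ := ∑ r ∈ R Y m, ip r

lemma one_mem {Y m : ℕ} (hY : 1 ≤ Y) : 1 ∈ R Y m := by
  rw [mem_R]; exact ⟨⟨le_refl _, hY⟩, squarefree_one, Nat.coprime_one_left m⟩

lemma S_pos {Y m : ℕ} (hY : 1 ≤ Y) : 0 < S Y m := by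
  have h1 : ip 1 ≤ S Y m := Finset.single_le_sum (f := ip) (fun i _ => ip_nonneg i) (one_mem hY)
  have : ip 1 = 1 := by simp [ip]
  linarith

/-- the weights -/
noncomputable def lam (Y m d : ℕ) : ℝ :=
  if d ∈ R Y m then (ArithmeticFunction.moebius d : ℝ) * d * (1 / S Y m) *
    ∑ r ∈ (R Y m).filter (fun r => d ∣ r), ip r else 0

lemma dvd_mem {Y m n d : ℕ} (hn : n ∈ R Y m) (hd : d ∣ n) : d ∈ R Y m := by
  rw [mem_R] at hn ⊢
  obtain ⟨⟨h1, h2⟩, h3, h4⟩ := hn
  refine ⟨⟨Nat.pos_of_dvd_of_pos hd h1, le_trans (Nat.le_of_dvd h1 hd) h2⟩, h3.squarefree_of_dvd hd, ?_⟩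
  exact Nat.Coprime.coprime_dvd_left hd h4

lemma lam_one {Y m : ℕ} (hY : 1 ≤ Y) : lam Y m 1 = 1 := by
  unfold lam
  rw [if_pos (one_mem hY)]
  have h1 : (R Y m).filter (fun r => 1 ∣ r) = R Y m := by
    apply Finset.filter_true_of_mem; intro r _; exact one_dvd r
  rw [h1]
  change _ * S Y m = 1
  have := (S_pos (m := m) hY).ne'
  simp
  field_simp

/-- `∑_{k ∣ δ} 1/φ((r/δ) k) = δ/φ(r)` -/
lemma sum_div (d t : ℕ) (hsq : Squarefree (d * t)) (hd : 1 ≤ d) (ht : 1 ≤ t) :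
    ∑ k ∈ d.divisors, ip (t * k) = d * ip (d * t) := by
  have hcop : Nat.Coprime d t := (Nat.squarefree_mul_iff.mp hsq).1
  have hdsq : Squarefree d := (Nat.squarefree_mul_iff.mp hsq).2.1
  have h1 : ∀ k ∈ d.divisors, ip (t * k) = ((d / k).totient : ℝ) * ip (d * t) := by
    intro k hk
    have hkd : k ∣ d := Nat.dvd_of_mem_divisors hk
    obtain ⟨j, rfl⟩ := hkd
    have hk1 : 1 ≤ k := Nat.pos_of_ne_zero (by rintro rfl; simp at hd)
    have hj1 : 1 ≤ j := Nat.pos_of_ne_zero (by rintro rfl; simp at hd)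
    have hkj : Nat.Coprime k j := (Nat.squarefree_mul_iff.mp hdsq).1
    have hkt : Nat.Coprime k t := Nat.Coprime.coprime_dvd_left (Dvd.intro _ rfl) hcop
    rw [Nat.mul_div_cancel_left _ hk1]
    unfold ip
    rw [Nat.totient_mul hkt.symm, Nat.totient_mul hcop, Nat.totient_mul hkj]
    push_cast
    have a1 := tpos hk1
    have a2 := tpos hj1
    have a3 := tpos ht
    field_simp
  rw [Finset.sum_congr rfl h1, ← Finset.sum_mul]
  congr 1
  have h2 : ∑ k ∈ d.divisors, (((d / k).totient : ℕ) : ℝ) = ∑ k ∈ d.divisors, ((k.totient : ℕ) : ℝ) :=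
    Nat.sum_div_divisors d (fun k => ((k.totient : ℕ) : ℝ))
  rw [h2]
  exact_mod_cast Nat.sum_totient d

lemma key {Y m d : ℕ} (hd : d ∈ R Y m) :
    (d : ℝ) * ∑ r ∈ (R Y m).filter (fun r => d ∣ r), ip r ≤ S Y m := by
  have hd' := mem_R.mp hd
  have hd1 : 1 ≤ d := hd'.1.1
  rw [Finset.mul_sum]
  have h1 : ∀ r ∈ (R Y m).filter (fun r => d ∣ r), (d : ℝ) * ip r
      = ∑ k ∈ d.divisors, ip ((r / d) * k) := by
    intro r hr
    obtain ⟨hr1, t, rfl⟩ := Finset.mem_filter.mp hr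
    have hr' := mem_R.mp hr1
    have ht : 1 ≤ t := Nat.pos_of_ne_zero (by rintro rfl; simp at hr')
    rw [Nat.mul_div_cancel_left _ hd1, sum_div d t hr'.2.1 hd1 ht]
  rw [Finset.sum_congr rfl h1, ← Finset.sum_product']
  have hinj : Set.InjOn (fun x : ℕ × ℕ => (x.1 / d) * x.2)
      (((R Y m).filter (fun r => d ∣ r)) ×ˢ d.divisors : Finset (ℕ × ℕ)) := by
    rintro ⟨r, k⟩ h1 ⟨r', k'⟩ h2 h3
    simp only [Finset.coe_product, Set.mem_prod, Finset.mem_coe, Finset.mem_filter] at h1 h2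
    obtain ⟨⟨hr, t, rfl⟩, hk⟩ := h1
    obtain ⟨⟨hr', t', rfl⟩, hk'⟩ := h2
    simp only [Nat.mul_div_cancel_left _ hd1] at h3
    have hkd : k ∣ d := Nat.dvd_of_mem_divisors hk
    have hkd' : k' ∣ d := Nat.dvd_of_mem_divisors hk'
    have c1 : Nat.Coprime d t := (Nat.squarefree_mul_iff.mp (mem_R.mp hr).2.1).1
    have c2 : Nat.Coprime d t' := (Nat.squarefree_mul_iff.mp (mem_R.mp hr').2.1).1
    have g1 : Nat.gcd (t * k) d = k := by
      rw [Nat.Coprime.gcd_mul_left_cancel k c1.symm]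
      exact Nat.gcd_eq_left hkd
    have g2 : Nat.gcd (t' * k') d = k' := by
      rw [Nat.Coprime.gcd_mul_left_cancel k' c2.symm]
      exact Nat.gcd_eq_left hkd'
    have hkk : k = k' := by rw [← g1, ← g2, h3]
    subst hkk
    have hk1 : 1 ≤ k := Nat.pos_of_mem_divisors hk
    have htt : t = t' := Nat.eq_of_mul_eq_mul_right hk1 h3
    subst htt
    rfl
  rw [← Finset.sum_image (f := fun n => ip n) hinj]
  apply Finset.sum_le_sum_of_subset_of_nonneg
  · intro n hn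
    obtain ⟨⟨r, k⟩, hx, rfl⟩ := Finset.mem_image.mp hn
    obtain ⟨hr, hk⟩ := Finset.mem_product.mp hx
    obtain ⟨hr1, t, ht⟩ := Finset.mem_filter.mp hr
    simp only at hr1 ht hk ⊢
    subst ht
    rw [Nat.mul_div_cancel_left _ hd1]
    refine dvd_mem hr1 ?_
    rw [mul_comm t k]
    exact mul_dvd_mul_right (Nat.dvd_of_mem_divisors hk) t
  · intro i _ _; exact ip_nonneg i

lemma lam_abs {Y m : ℕ} (hY : 1 ≤ Y) (d : ℕ) : |lam Y m d| ≤ 1 := by
  unfold lam
  split_ifs with h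
  · have hS := S_pos (m := m) hY
    rw [abs_mul, abs_mul, abs_mul]
    have h1 : |(ArithmeticFunction.moebius d : ℝ)| ≤ 1 := by
      have := ArithmeticFunction.abs_moebius_le_one (n := d)
      exact_mod_cast this
    have h2 : |(d : ℝ)| = d := abs_of_nonneg (by positivity)
    have h3 : |1 / S Y m| = 1 / S Y m := abs_of_nonneg (by positivity)
    have h4 : |∑ r ∈ (R Y m).filter (fun r => d ∣ r), ip r|
        = ∑ r ∈ (R Y m).filter (fun r => d ∣ r), ip r :=
      abs_of_nonneg (Finset.sum_nonneg fun i _ => ip_nonneg i)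
    rw [h2, h3, h4]
    have h5 := key h
    have h6 : 0 ≤ (d : ℝ) * ∑ r ∈ (R Y m).filter (fun r => d ∣ r), ip r :=
      mul_nonneg (by positivity) (Finset.sum_nonneg fun i _ => ip_nonneg i)
    have h7 : (d : ℝ) * (∑ r ∈ (R Y m).filter (fun r => d ∣ r), ip r) / S Y m ≤ 1 := by
      rw [div_le_one hS]; exact h5
    have h8 : 0 ≤ (d : ℝ) * (∑ r ∈ (R Y m).filter (fun r => d ∣ r), ip r) / S Y m :=
      div_nonneg h6 hS.le
    calc |(ArithmeticFunction.moebius d : ℝ)| * d * (1 / S Y m)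
          * ∑ r ∈ (R Y m).filter (fun r => d ∣ r), ip r
        = |(ArithmeticFunction.moebius d : ℝ)|
          * ((d : ℝ) * (∑ r ∈ (R Y m).filter (fun r => d ∣ r), ip r) / S Y m) := by ring
      _ ≤ 1 * 1 := mul_le_mul h1 h7 h8 zero_le_one
      _ = 1 := one_mul 1
  · simp

/-- `∑_{r ∣ d ∣ n} μ(d) = μ(r) [n = r]` for squarefree `n` -/
lemma sum_moeb (n r : ℕ) (hn : Squarefree n) (hn1 : 1 ≤ n) :
    ∑ d ∈ n.divisors.filter (fun d => r ∣ d), (ArithmeticFunction.moebius d : ℝ)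
      = if r = n then (ArithmeticFunction.moebius r : ℝ) else 0 := by
  by_cases hr : r ∣ n
  · obtain ⟨t, rfl⟩ := hr
    have hr1 : 1 ≤ r := Nat.pos_of_ne_zero (by rintro rfl; simp at hn1)
    have ht1 : 1 ≤ t := Nat.pos_of_ne_zero (by rintro rfl; simp at hn1)
    have hset : (r * t).divisors.filter (fun d => r ∣ d) = t.divisors.image (fun j => r * j) := by
      ext d
      simp only [Finset.mem_filter, Nat.mem_divisors, Finset.mem_image]
      constructor
      · rintro ⟨⟨h1, _⟩, j, rfl⟩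
        exact ⟨j, ⟨Nat.dvd_of_mul_dvd_mul_left hr1 h1, by omega⟩, rfl⟩
      · rintro ⟨j, ⟨h1, _⟩, rfl⟩
        exact ⟨⟨mul_dvd_mul_left r h1, by positivity⟩, dvd_mul_right r j⟩
    rw [hset, Finset.sum_image (by
      intro a _ b _ hab
      exact Nat.eq_of_mul_eq_mul_left hr1 hab)]
    have hm : ∀ j ∈ t.divisors, (ArithmeticFunction.moebius (r * j) : ℝ)
        = (ArithmeticFunction.moebius r : ℝ) * (ArithmeticFunction.moebius j : ℝ) := by
      intro j hj
      have hjt : j ∣ t := Nat.dvd_of_mem_divisors hj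
      have hc : Nat.Coprime r j :=
        Nat.Coprime.coprime_dvd_right hjt (Nat.squarefree_mul_iff.mp hn).1
      rw [ArithmeticFunction.isMultiplicative_moebius.map_mul_of_coprime hc]
      push_cast; rfl
    rw [Finset.sum_congr rfl hm, ← Finset.mul_sum]
    have h0 : ∑ j ∈ t.divisors, (ArithmeticFunction.moebius j : ℝ) = if t = 1 then 1 else 0 := by
      have h := congrArg (fun f => f t) ArithmeticFunction.moebius_mul_coe_zeta
      simp only [ArithmeticFunction.coe_mul_zeta_apply] at h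
      have h' : ((∑ i ∈ t.divisors, ArithmeticFunction.moebius i : ℤ) : ℝ)
          = (((1 : ArithmeticFunction ℤ) t : ℤ) : ℝ) := by rw [h]
      rw [ArithmeticFunction.one_apply] at h'
      push_cast at h'
      rw [h']
    rw [h0]
    by_cases ht : t = 1
    · subst ht; simp
    · have : ¬ r = r * t := by
        intro h
        have : t = 1 := by
          have h2 : r * 1 = r * t := by rw [mul_one]; exact h
          exact (Nat.eq_of_mul_eq_mul_left hr1 h2).symm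
        exact ht this
      simp [ht, this]
  · have h1 : n.divisors.filter (fun d => r ∣ d) = ∅ := by
      apply Finset.filter_eq_empty_iff.mpr
      intro d hd hrd
      exact hr (dvd_trans hrd (Nat.dvd_of_mem_divisors hd))
    rw [h1]
    have : ¬ r = n := by rintro rfl; exact hr dvd_rfl
    simp [this]

/-- the diagonal variables -/
lemma diag {Y m : ℕ} (hY : 1 ≤ Y) (r : ℕ) :
    ∑ d ∈ (Icc 1 Y).filter (fun d => r ∣ d), lam Y m d / d
      = if r ∈ R Y m then (1 / S Y m) * ((ArithmeticFunction.moebius r : ℝ) * ip r) else 0 := by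
  have hS := (S_pos (m := m) hY).ne'
  have h1 : ∑ d ∈ (Icc 1 Y).filter (fun d => r ∣ d), lam Y m d / d
      = ∑ d ∈ (R Y m).filter (fun d => r ∣ d), (1 / S Y m) *
          ∑ n ∈ R Y m, if d ∣ n then (ArithmeticFunction.moebius d : ℝ) * ip n else 0 := by
    have hsub : (R Y m).filter (fun d => r ∣ d) ⊆ (Icc 1 Y).filter (fun d => r ∣ d) := by
      intro d hd
      obtain ⟨h1, h2⟩ := Finset.mem_filter.mp hd
      exact Finset.mem_filter.mpr ⟨Finset.mem_Icc.mpr (mem_R.mp h1).1, h2⟩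
    rw [← Finset.sum_subset hsub]
    · apply Finset.sum_congr rfl
      intro d hd
      obtain ⟨hd1, hd2⟩ := Finset.mem_filter.mp hd
      have hd0 : (d : ℝ) ≠ 0 := by
        have := (mem_R.mp hd1).1.1
        positivity
      unfold lam
      rw [if_pos hd1, ← Finset.sum_filter, ← Finset.mul_sum]
      field_simp
    · intro d hd hd2
      have : d ∉ R Y m := fun h => hd2 (Finset.mem_filter.mpr ⟨h, (Finset.mem_filter.mp hd).2⟩)
      unfold lam
      rw [if_neg this]; simp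
  rw [h1, ← Finset.mul_sum, Finset.sum_comm]
  have h2 : ∀ n ∈ R Y m, ∑ d ∈ (R Y m).filter (fun d => r ∣ d),
      (if d ∣ n then (ArithmeticFunction.moebius d : ℝ) * ip n else 0)
      = if r = n then (ArithmeticFunction.moebius r : ℝ) * ip r else 0 := by
    intro n hn
    have hset : ((R Y m).filter (fun d => r ∣ d)).filter (fun d => d ∣ n)
        = n.divisors.filter (fun d => r ∣ d) := by
      ext d
      simp only [Finset.mem_filter, Nat.mem_divisors]
      constructor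
      · rintro ⟨⟨_, h2⟩, h3⟩
        exact ⟨⟨h3, by have := (mem_R.mp hn).1.1; omega⟩, h2⟩
      · rintro ⟨⟨h1, _⟩, h2⟩
        exact ⟨⟨dvd_mem hn h1, h2⟩, h1⟩
    rw [← Finset.sum_filter, hset, ← Finset.sum_mul,
      sum_moeb n r (mem_R.mp hn).2.1 (mem_R.mp hn).1.1]
    by_cases h : r = n
    · subst h; simp
    · simp [h]
  rw [Finset.sum_congr rfl h2, Finset.sum_ite_eq]
  split_ifs <;> simp

/-- `1/[d,e] = (1/(de)) ∑_{r ∣ d, r ∣ e} φ(r)` -/
lemma inv_lcm {Y d e : ℕ} (hd : d ∈ Icc 1 Y) (he : e ∈ Icc 1 Y) :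
    1 / (Nat.lcm d e : ℝ) = ∑ r ∈ Icc 1 Y, (r.totient : ℝ) *
      ((if r ∣ d then 1 / (d : ℝ) else 0) * (if r ∣ e then 1 / (e : ℝ) else 0)) := by
  obtain ⟨hd1, hd2⟩ := Finset.mem_Icc.mp hd
  obtain ⟨he1, he2⟩ := Finset.mem_Icc.mp he
  have h1 : ∀ r ∈ Icc 1 Y, (r.totient : ℝ) *
      ((if r ∣ d then 1 / (d : ℝ) else 0) * (if r ∣ e then 1 / (e : ℝ) else 0))
      = if r ∣ Nat.gcd d e then (r.totient : ℝ) * (1 / ((d : ℝ) * e)) else 0 := by
    intro r _
    by_cases h1 : r ∣ d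
    · by_cases h2 : r ∣ e
      · rw [if_pos h1, if_pos h2, if_pos (Nat.dvd_gcd h1 h2)]
        have : (d : ℝ) ≠ 0 := by positivity
        have : (e : ℝ) ≠ 0 := by positivity
        field_simp
      · rw [if_neg h2, if_neg (fun h => h2 (dvd_trans h (Nat.gcd_dvd_right d e)))]; simp
    · rw [if_neg h1, if_neg (fun h => h1 (dvd_trans h (Nat.gcd_dvd_left d e)))]; simp
  rw [Finset.sum_congr rfl h1, ← Finset.sum_filter]
  have hset : (Icc 1 Y).filter (fun r => r ∣ Nat.gcd d e) = (Nat.gcd d e).divisors := by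
    ext r
    simp only [Finset.mem_filter, Finset.mem_Icc, Nat.mem_divisors]
    have hg : 1 ≤ Nat.gcd d e := Nat.gcd_pos_of_pos_left e hd1
    constructor
    · rintro ⟨_, h⟩; exact ⟨h, by omega⟩
    · rintro ⟨h, _⟩
      refine ⟨⟨Nat.pos_of_dvd_of_pos h hg, ?_⟩, h⟩
      exact le_trans (Nat.le_of_dvd hg h) (le_trans (Nat.gcd_le_left e hd1) hd2)
  rw [hset, ← Finset.sum_mul]
  have h2 : ∑ r ∈ (Nat.gcd d e).divisors, ((r.totient : ℕ) : ℝ) = (Nat.gcd d e : ℝ) := by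
    exact_mod_cast Nat.sum_totient (Nat.gcd d e)
  rw [h2]
  have h3 : (Nat.gcd d e : ℝ) * (Nat.lcm d e : ℝ) = (d : ℝ) * e := by
    exact_mod_cast Nat.gcd_mul_lcm d e
  have hl : (Nat.lcm d e : ℝ) ≠ 0 := by
    have := Nat.lcm_pos hd1 he1
    positivity
  have hd0 : (d : ℝ) ≠ 0 := by positivity
  have he0 : (e : ℝ) ≠ 0 := by positivity
  field_simp
  linarith

lemma form {Y m : ℕ} (hY : 1 ≤ Y) :
    ∑ d ∈ Icc 1 Y, ∑ e ∈ Icc 1 Y, lam Y m d * lam Y m e / (Nat.lcm d e : ℝ) = 1 / S Y m := by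
  have hS := (S_pos (m := m) hY)
  have h1 : ∀ d ∈ Icc 1 Y, ∀ e ∈ Icc 1 Y, lam Y m d * lam Y m e / (Nat.lcm d e : ℝ)
      = ∑ r ∈ Icc 1 Y, (r.totient : ℝ) *
      ((if r ∣ d then lam Y m d / (d : ℝ) else 0) * (if r ∣ e then lam Y m e / (e : ℝ) else 0)) := by
    intro d hd e he
    rw [div_eq_mul_one_div, inv_lcm hd he, Finset.mul_sum]
    apply Finset.sum_congr rfl
    intro r _
    split_ifs <;> ring
  rw [Finset.sum_congr rfl (fun d hd => Finset.sum_congr rfl (h1 d hd))]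
  have h2 : ∑ d ∈ Icc 1 Y, ∑ e ∈ Icc 1 Y, ∑ r ∈ Icc 1 Y, (r.totient : ℝ) *
      ((if r ∣ d then lam Y m d / (d : ℝ) else 0) * (if r ∣ e then lam Y m e / (e : ℝ) else 0))
      = ∑ r ∈ Icc 1 Y, (r.totient : ℝ) *
        (∑ d ∈ (Icc 1 Y).filter (fun d => r ∣ d), lam Y m d / d) ^ 2 := by
    rw [Finset.sum_congr rfl (fun d _ => Finset.sum_comm), Finset.sum_comm]
    apply Finset.sum_congr rfl
    intro r _
    rw [sq, Finset.sum_filter, Finset.sum_mul_sum, Finset.mul_sum]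
    apply Finset.sum_congr rfl
    intro d _
    rw [Finset.mul_sum]
  rw [h2]
  have h3 : ∀ r ∈ Icc 1 Y, (r.totient : ℝ) *
        (∑ d ∈ (Icc 1 Y).filter (fun d => r ∣ d), lam Y m d / d) ^ 2
      = if r ∈ R Y m then (1 / S Y m) ^ 2 * ip r else 0 := by
    intro r hr
    rw [diag hY r]
    split_ifs with h
    · have hmu : (ArithmeticFunction.moebius r : ℝ) ^ 2 = 1 := by
        have h := (mem_R.mp h).2.1
        have : (ArithmeticFunction.moebius r) ^ 2 = 1 := by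
          rcases ArithmeticFunction.moebius_eq_or (n := r) with h0 | h0 | h0
          · exact absurd h0 (ArithmeticFunction.moebius_ne_zero_iff_squarefree.mpr h)
          · rw [h0]; rfl
          · rw [h0]; rfl
        exact_mod_cast this
      have ht := tpos (mem_R.mp h).1.1
      calc (r.totient : ℝ) * (1 / S Y m * ((ArithmeticFunction.moebius r : ℝ) * ip r)) ^ 2
          = (1 / S Y m) ^ 2 * ((ArithmeticFunction.moebius r : ℝ) ^ 2) * ((r.totient : ℝ) * ip r * ip r) := by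
            ring
        _ = (1 / S Y m) ^ 2 * ip r := by
            rw [hmu]
            have : (r.totient : ℝ) * ip r = 1 := by
              unfold ip; field_simp
            rw [this]; ring
    · simp
  rw [Finset.sum_congr rfl h3, ← Finset.sum_filter]
  have hset : (Icc 1 Y).filter (fun r => r ∈ R Y m) = R Y m := by
    ext r
    simp only [Finset.mem_filter, Finset.mem_Icc]
    constructor
    · rintro ⟨_, h⟩; exact h
    · intro h; exact ⟨(mem_R.mp h).1, h⟩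
  rw [hset, ← Finset.mul_sum]
  change (1 / S Y m) ^ 2 * S Y m = 1 / S Y m
  field_simp

/-! ### the lower bound for `S` -/

/-- the radical -/
noncomputable def rad (n : ℕ) : ℕ := ∏ p ∈ n.primeFactors, p

lemma rad_dvd (n : ℕ) : rad n ∣ n := Nat.prod_primeFactors_dvd n

lemma rad_sq (n : ℕ) : Squarefree (rad n) := by
  unfold rad
  apply Finset.squarefree_prod_of_pairwise_isCoprime
  · intro p hp q hq hpq
    have hp' := Nat.prime_of_mem_primeFactors hp
    have hq' := Nat.prime_of_mem_primeFactors hq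
    exact Nat.coprime_iff_isRelPrime.mp ((Nat.coprime_primes hp' hq').mpr hpq)
  · intro p hp
    exact (Nat.prime_of_mem_primeFactors hp).squarefree

lemma rad_pf (n : ℕ) : (rad n).primeFactors = n.primeFactors := by
  unfold rad
  exact Nat.primeFactors_prod (fun p hp => Nat.prime_of_mem_primeFactors hp)

open WMER in
/-- `∑_{rad n = r} 1/n ≤ 1/φ(r)` -/
lemma fibre (Y r : ℕ) (hr1 : 1 ≤ r) :
    ∑ n ∈ (Icc 1 Y).filter (fun n => rad n = r), ((n : ℝ))⁻¹ ≤ ip r := by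
  obtain ⟨hs, hh⟩ := EulerProduct.summable_and_hasSum_factoredNumbers_prod_filter_prime_geometric
    (F := ℝ) (f := invHom) (fun hp => invHom_lt hp) r.primeFactors
  have h1 : ∀ n ∈ (Icc 1 Y).filter (fun n => rad n = r), ((n : ℝ))⁻¹
      = ((r : ℝ))⁻¹ * (((n / r : ℕ) : ℝ))⁻¹ := by
    intro n hn
    obtain ⟨hn1, hn2⟩ := Finset.mem_filter.mp hn
    have hd : r ∣ n := hn2 ▸ rad_dvd n
    obtain ⟨t, rfl⟩ := hd
    rw [Nat.mul_div_cancel_left _ hr1]
    push_cast
    rw [mul_inv]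
  rw [Finset.sum_congr rfl h1, ← Finset.mul_sum]
  have hinj : Set.InjOn (fun n : ℕ => n / r) ((Icc 1 Y).filter (fun n => rad n = r) : Finset ℕ) := by
    intro a ha b hb hab
    simp only [Finset.coe_filter, Finset.mem_Icc, Set.mem_ofPred_eq] at ha hb
    have hda : r ∣ a := ha.2 ▸ rad_dvd a
    have hdb : r ∣ b := hb.2 ▸ rad_dvd b
    rw [← Nat.div_mul_cancel hda, ← Nat.div_mul_cancel hdb]
    simp only at hab
    rw [hab]
  rw [← Finset.sum_image (f := fun t : ℕ => ((t : ℝ))⁻¹) hinj]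
  have h2 : ∑ t ∈ ((Icc 1 Y).filter (fun n => rad n = r)).image (fun n : ℕ => n / r), ((t : ℝ))⁻¹
      ≤ ∏ p ∈ r.primeFactors with Nat.Prime p, (1 - invHom p)⁻¹ := by
    apply sum_le_of_hasSum_subtype (Nat.factoredNumbers r.primeFactors) (fun n => ((n : ℝ))⁻¹)
      (fun n => by positivity) _ hh
    intro t ht
    obtain ⟨n, hn, rfl⟩ := Finset.mem_image.mp ht
    obtain ⟨hn1, hn2⟩ := Finset.mem_filter.mp hn
    have hd : r ∣ n := hn2 ▸ rad_dvd n
    have hn0 : 1 ≤ n := (Finset.mem_Icc.mp hn1).1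
    rw [Nat.mem_factoredNumbers']
    intro p hp hpt
    have hpn : p ∣ n := dvd_trans hpt (Nat.div_dvd_of_dvd hd)
    rw [← hn2, rad_pf]
    exact Nat.mem_primeFactors.mpr ⟨hp, hpn, by omega⟩
  have h3 : ((r : ℝ))⁻¹ * ∏ p ∈ r.primeFactors with Nat.Prime p, (1 - invHom p)⁻¹ = ip r := by
    have hf : r.primeFactors.filter Nat.Prime = r.primeFactors :=
      Finset.filter_true_of_mem (fun p hp => Nat.prime_of_mem_primeFactors hp)
    rw [hf, Finset.prod_inv_distrib, ← mul_inv]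
    unfold ip
    rw [one_div]
    congr 1
    have h := Nat.totient_eq_mul_prod_factors r
    have h' : (((r.totient : ℚ)) : ℝ) = (((r : ℚ) * ∏ p ∈ r.primeFactors, (1 - (p : ℚ)⁻¹) : ℚ) : ℝ) := by
      rw [← h]
    push_cast at h'
    rw [h']
    rfl
  rw [← h3]
  exact mul_le_mul_of_nonneg_left h2 (by positivity)

lemma harm_le (Y : ℕ) : ∑ n ∈ Icc 1 Y, ((n : ℝ))⁻¹ ≤ ∑ r ∈ (Icc 1 Y).filter Squarefree, ip r := by
  have hmaps : ∀ n ∈ Icc 1 Y, rad n ∈ (Icc 1 Y).filter Squarefree := by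
    intro n hn
    obtain ⟨h1, h2⟩ := Finset.mem_Icc.mp hn
    refine Finset.mem_filter.mpr ⟨Finset.mem_Icc.mpr ⟨?_, ?_⟩, rad_sq n⟩
    · exact Nat.pos_of_dvd_of_pos (rad_dvd n) h1
    · exact le_trans (Nat.le_of_dvd h1 (rad_dvd n)) h2
  rw [← Finset.sum_fiberwise_of_maps_to hmaps]
  apply Finset.sum_le_sum
  intro r hr
  have := (Finset.mem_Icc.mp (Finset.mem_filter.mp hr).1).1
  exact fibre Y r this

/-- `∑_{k ∣ m} μ²(k)/φ(k) = m/φ(m)` -/
lemma sum_sqf (m : ℕ) (hm : 1 ≤ m) :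
    ∑ k ∈ m.divisors.filter Squarefree, ip k = (m : ℝ) / (m.totient : ℝ) := by
  rw [Nat.sum_divisors_filter_squarefree (by omega)]
  have hpf : (UniqueFactorizationMonoid.normalizedFactors m).toFinset = m.primeFactors := by
    ext p
    simp only [Multiset.mem_toFinset, Nat.mem_primeFactors]
    rw [Nat.factors_eq]
    simp [Nat.mem_primeFactorsList']
  rw [hpf]
  have h1 : ∀ s ∈ m.primeFactors.powerset, ip s.val.prod = ∏ p ∈ s, (1 / ((p : ℝ) - 1)) := by
    intro s hs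
    have hs' := Finset.mem_powerset.mp hs
    have hp : ∀ p ∈ s, p.Prime := fun p hp => Nat.prime_of_mem_primeFactors (hs' hp)
    have hv : s.val.prod = ∏ p ∈ s, p := Finset.prod_val s
    rw [hv]
    unfold ip
    have hpos : 0 < ∏ p ∈ s, p := Finset.prod_pos fun p h => (hp p h).pos
    have ht : (∏ p ∈ s, p).totient = ∏ p ∈ s, (p - 1) := by
      rw [Nat.totient_eq_div_primeFactors_mul, Nat.primeFactors_prod hp, Nat.div_self hpos, one_mul]
    rw [ht]
    push_cast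
    rw [Finset.prod_div_distrib]
    simp only [Finset.prod_const_one]
    congr 1
    apply Finset.prod_congr rfl
    intro p h
    rw [Nat.cast_sub (hp p h).one_le]; simp
  rw [Finset.sum_congr rfl h1, ← Finset.prod_one_add]
  have h := Nat.totient_eq_mul_prod_factors m
  have h' : (((m.totient : ℚ)) : ℝ) = (((m : ℚ) * ∏ p ∈ m.primeFactors, (1 - (p : ℚ)⁻¹) : ℚ) : ℝ) := by
    rw [← h]
  push_cast at h'
  have hm0 : (m : ℝ) ≠ 0 := by positivity
  have h2 : (∏ p ∈ m.primeFactors, (1 + 1 / ((p : ℝ) - 1))) * ∏ p ∈ m.primeFactors, (1 - (p : ℝ)⁻¹) = 1 := by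
    rw [← Finset.prod_mul_distrib]
    apply Finset.prod_eq_one
    intro p hp
    have h2 : (2 : ℝ) ≤ p := by exact_mod_cast (Nat.prime_of_mem_primeFactors hp).two_le
    have h3 : (p : ℝ) - 1 ≠ 0 := by linarith
    have h4 : (p : ℝ) ≠ 0 := by linarith
    field_simp
    ring
  have h3 : (∏ p ∈ m.primeFactors, (1 - (p : ℝ)⁻¹)) ≠ 0 := by
    intro h0; rw [h0, mul_zero] at h2; exact one_ne_zero h2.symm
  rw [h', div_mul_eq_div_div, div_self hm0, eq_div_iff h3]
  exact h2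

lemma S_ge (Y m : ℕ) (hm : 1 ≤ m) :
    ∑ n ∈ Icc 1 Y, ((n : ℝ))⁻¹ ≤ (m : ℝ) / (m.totient : ℝ) * S Y m := by
  refine le_trans (harm_le Y) ?_
  rw [← sum_sqf m hm]
  unfold S
  rw [Finset.sum_mul_sum, ← Finset.sum_product']
  have hinj : Set.InjOn (fun n : ℕ => (Nat.gcd n m, n / Nat.gcd n m))
      ((Icc 1 Y).filter Squarefree : Finset ℕ) := by
    intro a _ b _ hab
    simp only [Prod.mk.injEq] at hab
    rw [← Nat.div_mul_cancel (Nat.gcd_dvd_left a m), ← Nat.div_mul_cancel (Nat.gcd_dvd_left b m),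
      hab.2, hab.1]
  have h1 : ∑ r ∈ (Icc 1 Y).filter Squarefree, ip r
      = ∑ x ∈ ((Icc 1 Y).filter Squarefree).image (fun n : ℕ => (Nat.gcd n m, n / Nat.gcd n m)),
        ip x.1 * ip x.2 := by
    rw [Finset.sum_image hinj]
    apply Finset.sum_congr rfl
    intro n hn
    obtain ⟨hn1, hn2⟩ := Finset.mem_filter.mp hn
    have hn0 := (Finset.mem_Icc.mp hn1).1
    have hgd := Nat.gcd_dvd_left n m
    have hsplit : Nat.gcd n m * (n / Nat.gcd n m) = n := Nat.mul_div_cancel' hgd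
    have hc : Nat.Coprime (Nat.gcd n m) (n / Nat.gcd n m) := by
      rw [← hsplit] at hn2
      exact (Nat.squarefree_mul_iff.mp hn2).1
    unfold ip
    have : (n.totient : ℝ) = ((Nat.gcd n m).totient : ℝ) * ((n / Nat.gcd n m).totient : ℝ) := by
      rw [← Nat.cast_mul, ← Nat.totient_mul hc, hsplit]
    rw [this]
    simp only
    ring
  rw [h1]
  apply Finset.sum_le_sum_of_subset_of_nonneg
  · intro x hx
    obtain ⟨n, hn, rfl⟩ := Finset.mem_image.mp hx
    obtain ⟨hn1, hn2⟩ := Finset.mem_filter.mp hn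
    obtain ⟨hn0, hnY⟩ := Finset.mem_Icc.mp hn1
    have hgd := Nat.gcd_dvd_left n m
    have hdd : n / Nat.gcd n m ∣ n := Nat.div_dvd_of_dvd hgd
    have hsplit : Nat.gcd n m * (n / Nat.gcd n m) = n := Nat.mul_div_cancel' hgd
    have hc : Nat.Coprime (Nat.gcd n m) (n / Nat.gcd n m) := by
      have h := hn2
      rw [← hsplit] at h
      exact (Nat.squarefree_mul_iff.mp h).1
    refine Finset.mem_product.mpr ⟨?_, ?_⟩
    · refine Finset.mem_filter.mpr ⟨Nat.mem_divisors.mpr ⟨Nat.gcd_dvd_right n m, by omega⟩, ?_⟩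
      exact hn2.squarefree_of_dvd hgd
    · rw [mem_R]
      refine ⟨⟨Nat.pos_of_dvd_of_pos hdd hn0, le_trans (Nat.le_of_dvd hn0 hdd) hnY⟩,
        hn2.squarefree_of_dvd hdd, ?_⟩
      rw [Nat.coprime_iff_gcd_eq_one]
      by_contra hne
      obtain ⟨p, hp, hpd⟩ := Nat.exists_prime_and_dvd hne
      have hp1 : p ∣ n / Nat.gcd n m := dvd_trans hpd (Nat.gcd_dvd_left _ _)
      have hp2 : p ∣ m := dvd_trans hpd (Nat.gcd_dvd_right _ _)
      have hp3 : p ∣ Nat.gcd n m := Nat.dvd_gcd (dvd_trans hp1 hdd) hp2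
      exact hp.one_lt.ne' (Nat.dvd_one.mp (hc ▸ Nat.dvd_gcd hp3 hp1))
  · intro x _ _
    exact mul_nonneg (ip_nonneg _) (ip_nonneg _)

end SELB

open SELB in
theorem specSELB : SpecSELB := by
  refine ⟨1, one_pos, fun y m hy hm => ?_⟩
  have hY : 1 ≤ ⌊y⌋₊ := Nat.le_floor (by push_cast; linarith)
  have hlog : 0 < Real.log y := Real.log_pos (by linarith)
  refine ⟨lam ⌊y⌋₊ m, lam_one hY, lam_abs hY, ?_, ?_⟩
  · intro d hd
    have h1 : d ∈ R ⌊y⌋₊ m := by
      by_contra h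
      apply hd
      unfold lam
      rw [if_neg h]
    obtain ⟨⟨h2, h3⟩, h4, h5⟩ := mem_R.mp h1
    exact ⟨h2, le_trans (by exact_mod_cast h3) (Nat.floor_le (by linarith)), h4, h5⟩
  · have hf : QF y (lam ⌊y⌋₊ m) = 1 / S ⌊y⌋₊ m := form hY
    have hS := S_pos (m := m) hY
    rw [hf]
    refine ⟨by positivity, ?_⟩
    have h1 := S_ge ⌊y⌋₊ m hm
    have h2 : Real.log y ≤ ∑ n ∈ Icc 1 ⌊y⌋₊, ((n : ℝ))⁻¹ := by
      have h3 := log_le_harmonic_floor y (by linarith)
      have h4 : (((harmonic ⌊y⌋₊ : ℚ)) : ℝ) = ∑ n ∈ Icc 1 ⌊y⌋₊, ((n : ℝ))⁻¹ := by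
        rw [harmonic_eq_sum_Icc]
        push_cast
        rfl
      rw [h4] at h3
      exact h3
    have h5 : Real.log y ≤ (m : ℝ) / (m.totient : ℝ) * S ⌊y⌋₊ m := le_trans h2 h1
    rw [one_mul, div_le_div_iff₀ hS hlog]
    linarith

end Pool.Agent.Lib.MP391708.QPA
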