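import Pool.Agent.Lib.MP_391708_nt.QPA.Spec

/-! # PNT: the prime number theorem -/

set_option autoImplicit false

namespace Pool.Agent.Lib.MP391708.QPA.PNT

open Filter Asymptotics Topology Finset

theorem psi_nat (h : SpecPNTAP) :
    Tendsto (fun x : ℕ => Chebyshev.psi (x : ℝ) / (x : ℝ)) atTop (𝓝 1) := by
  have h1 := h 1 (0 : ZMod 1) (by rw [Subsingleton.elim (0 : ZMod 1) 1]; exact isUnit_one)
  simp only [Nat.totient_one, Nat.cast_one, inv_one] at h1
  refine h1.congr fun x => ?_
  congr 1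
  rw [Chebyshev.psi_eq_sum_Icc, Nat.floor_natCast]
  have e : Icc 0 x = insert 0 (Icc 1 x) := by
    ext n; simp only [Finset.mem_Icc, Finset.mem_insert]; omega
  rw [e, Finset.sum_insert (by simp)]
  simp only [ArithmeticFunction.map_zero, zero_add]
  refine Finset.sum_congr rfl fun n _ => ?_
  unfold ArithmeticFunction.vonMangoldt.residueClass
  rw [Set.indicator_of_mem]
  exact Subsingleton.elim _ _

theorem psi_real (h : SpecPNTAP) :
    Tendsto (fun x : ℝ => Chebyshev.psi x / x) atTop (𝓝 1) := by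
  have h1 := (psi_nat h).comp (tendsto_nat_floor_atTop (α := ℝ))
  have h2 := tendsto_nat_floor_div_atTop (R := ℝ)
  have h3 := h1.mul h2
  rw [mul_one] at h3
  refine h3.congr' ?_
  filter_upwards [eventually_ge_atTop (1 : ℝ)] with x hx
  have hf : (0 : ℝ) < (⌊x⌋₊ : ℝ) := by exact_mod_cast Nat.floor_pos.mpr hx
  have hx0 : x ≠ 0 := by linarith
  simp only [Function.comp]
  rw [← Chebyshev.psi_eq_psi_coe_floor]
  field_simp

theorem sqrt_div : Tendsto (fun x : ℝ => √x / x) atTop (𝓝 0) := by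
  have : Tendsto (fun x : ℝ => (√x)⁻¹) atTop (𝓝 0) :=
    Real.tendsto_sqrt_atTop.inv_tendsto_atTop
  refine this.congr' ?_
  filter_upwards [eventually_gt_atTop (0 : ℝ)] with x hx
  rw [Real.sqrt_div_self', one_div]

theorem psi_sub_theta_div :
    Tendsto (fun x : ℝ => (Chebyshev.psi x - Chebyshev.theta x) / x) atTop (𝓝 0) := by
  obtain ⟨C, hC⟩ := Chebyshev.psi_sub_theta_le_mul_sqrt
  refine squeeze_zero' (g := fun x => C * (√x / x)) ?_ ?_ (by simpa using sqrt_div.const_mul C)
  · filter_upwards [eventually_gt_atTop (0 : ℝ)] with x hx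
    have := Chebyshev.theta_le_psi x
    exact div_nonneg (by linarith) hx.le
  · filter_upwards [eventually_gt_atTop (0 : ℝ)] with x hx
    rw [← mul_div_assoc]
    gcongr
    exact hC x

theorem theta_real (h : SpecPNTAP) :
    Tendsto (fun x : ℝ => Chebyshev.theta x / x) atTop (𝓝 1) := by
  have h1 := (psi_real h).sub psi_sub_theta_div
  rw [sub_zero] at h1
  refine h1.congr fun x => ?_
  ring

/-- `(π(x) - θ(x)/log x) log x / x → 0`. -/
theorem pi_sub : Tendsto (fun x : ℝ => ((Nat.primeCounting ⌊x⌋₊ : ℝ) -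
    Chebyshev.theta x / Real.log x) / (x / Real.log x)) atTop (𝓝 0) := by
  have h1 := Chebyshev.primeCounting_sub_theta_div_log_isBigO
  have h2 : (fun x : ℝ => x / Real.log x ^ 2) =o[atTop] (fun x : ℝ => x / Real.log x) := by
    refine isLittleO_iff_tendsto' ?_ |>.mpr ?_
    · filter_upwards [eventually_gt_atTop (1 : ℝ)] with x hx h0
      have := Real.log_pos hx
      have : x / Real.log x ≠ 0 := by positivity
      exact absurd h0 this
    · refine Tendsto.congr' (f₁ := fun x => (Real.log x)⁻¹) ?_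
        Real.tendsto_log_atTop.inv_tendsto_atTop
      filter_upwards [eventually_gt_atTop (1 : ℝ)] with x hx
      have := Real.log_pos hx
      field_simp
  exact (h1.trans_isLittleO h2).tendsto_div_nhds_zero

theorem pi_real (h : SpecPNTAP) : Tendsto (fun x : ℝ => (Nat.primeCounting ⌊x⌋₊ : ℝ) /
    (x / Real.log x)) atTop (𝓝 1) := by
  have h1 := pi_sub.add (theta_real h)
  rw [zero_add] at h1
  refine h1.congr' ?_
  filter_upwards [eventually_gt_atTop (1 : ℝ)] with x hx
  have := Real.log_pos hx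
  field_simp
  ring

theorem card_eq (x : ℝ) : ((Icc 1 ⌊x⌋₊).filter Nat.Prime).card = Nat.primeCounting ⌊x⌋₊ := by
  rw [Nat.primeCounting, Nat.primeCounting', Nat.count_eq_card_filter_range]
  congr 1
  ext p
  simp only [Finset.mem_filter, Finset.mem_Icc, Finset.mem_range]
  constructor
  · rintro ⟨⟨_, h1⟩, h2⟩; exact ⟨by omega, h2⟩
  · rintro ⟨h1, h2⟩; exact ⟨⟨h2.one_le, by omega⟩, h2⟩

end Pool.Agent.Lib.MP391708.QPA.PNT

namespace Pool.Agent.Lib.MP391708.QPA

open Filter Asymptotics Topology Finset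

theorem specPNT (h : SpecPNTAP) : SpecPNT := by
  intro κ hκ
  have h1 := PNT.pi_real h
  rw [Metric.tendsto_atTop] at h1
  obtain ⟨X, hX⟩ := h1 κ hκ
  refine ⟨max X 2, fun x hx => ?_⟩
  have hx2 : 2 ≤ x := (le_max_right _ _).trans hx
  have h2 := hX x ((le_max_left _ _).trans hx)
  have hl : 0 < Real.log x := Real.log_pos (by linarith)
  have hx0 : 0 < x := by linarith
  have hpos : 0 < x / Real.log x := by positivity
  rw [Real.dist_eq] at h2
  have h3 : ((((Icc 1 ⌊x⌋₊).filter Nat.Prime).card : ℕ) : ℝ) = (Nat.primeCounting ⌊x⌋₊ : ℝ) := by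
    rw [← PNT.card_eq x]
  have h4 : |(Nat.primeCounting ⌊x⌋₊ : ℝ) - x / Real.log x| ≤ κ * x / Real.log x := by
    have e : (Nat.primeCounting ⌊x⌋₊ : ℝ) - x / Real.log x =
        ((Nat.primeCounting ⌊x⌋₊ : ℝ) / (x / Real.log x) - 1) * (x / Real.log x) := by
      field_simp
    rw [e, abs_mul, abs_of_pos hpos, mul_div_assoc]
    gcongr
  rw [← h3] at h4
  convert h4 using 4

end Pool.Agent.Lib.MP391708.QPA
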