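import Pool.Agent.Lib.MP_391708_nt.QPA.Spec
import Pool.Agent.Lib.PntAP.Main

/-!
# QPA: module PNTAP (from helper53's library)
-/

set_option autoImplicit false

namespace Pool.Agent.Lib.MP391708.QPA

open Finset Filter Topology

theorem specPNTAP : SpecPNTAP := by
  intro q _ a ha
  have h := (Pool.Agent.Lib.PntAP.psi_ap ha).comp tendsto_natCast_atTop_atTop
  rw [one_div] at h
  refine h.congr ?_
  intro x
  simp only [Function.comp]
  congr 1
  unfold Pool.Agent.Lib.PntAP.psiAP
  rw [Nat.floor_natCast, Finset.sum_filter]
  apply Finset.sum_congr rfl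
  intro k _
  simp only [ArithmeticFunction.vonMangoldt.residueClass, Set.indicator_apply, Set.mem_ofPred_eq]

end Pool.Agent.Lib.MP391708.QPA
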