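import Pool.Agent.Lib.MP_391708_nt.QPA.Spec

/-!
# Module DLS: the double large sieve
-/

set_option autoImplicit false

namespace Pool.Agent.Lib.MP391708.QPA.DLS

open Finset MeasureTheory
open scoped ComplexConjugate

/-- `e(x) = exp(2πix)` -/
noncomputable def ee (x : ℝ) : ℂ := Complex.exp (2 * Real.pi * Complex.I * (x : ℂ))

lemma ee_eq (x : ℝ) : ee x = Complex.exp (((2 * Real.pi * x : ℝ) : ℂ) * Complex.I) := by
  unfold ee; congr 1; push_cast; ring

lemma ee_add (x y : ℝ) : ee (x + y) = ee x * ee y := by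
  unfold ee; rw [← Complex.exp_add]; congr 1; push_cast; ring

lemma norm_ee (x : ℝ) : ‖ee x‖ = 1 := by
  rw [ee_eq, Complex.norm_exp_ofReal_mul_I]

lemma conj_ee (x : ℝ) : conj (ee x) = ee (-x) := by
  rw [ee_eq, ee_eq, ← Complex.exp_conj]
  congr 1
  rw [map_mul, Complex.conj_I, Complex.conj_ofReal]
  push_cast; ring

lemma ee_re (x : ℝ) : (ee x).re = Real.cos (2 * Real.pi * x) := by
  rw [ee_eq, Complex.exp_ofReal_mul_I_re]

lemma continuous_ee : Continuous ee := by
  unfold ee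
  fun_prop

lemma sigma_ge {δ y : ℝ} (hδ : 0 < δ) (h : |y| * δ ≤ 1 / 8) :
    δ ≤ ‖∫ s in (-δ)..δ, ee (s * y)‖ := by
  have hc : Continuous fun s : ℝ => ee (s * y) := continuous_ee.comp (by fun_prop)
  have h1 : (∫ s in (-δ)..δ, ee (s * y)).re = ∫ s in (-δ)..δ, Real.cos (2 * Real.pi * (s * y)) := by
    have := Complex.reCLM.intervalIntegral_comp_comm (hc.intervalIntegrable (μ := volume) (-δ) δ)
    simp only [Complex.reCLM_apply] at this
    rw [← this]
    exact intervalIntegral.integral_congr fun s _ => ee_re _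
  have h2 : ∫ _s in (-δ)..δ, (1 / 2 : ℝ) ≤ ∫ s in (-δ)..δ, Real.cos (2 * Real.pi * (s * y)) := by
    refine intervalIntegral.integral_mono_on (by linarith) (by simp)
      ((by fun_prop : Continuous fun s : ℝ => Real.cos (2 * Real.pi * (s * y))).intervalIntegrable _ _)
      (fun s hs => ?_)
    have h3 := Real.one_sub_sq_div_two_le_cos (x := 2 * Real.pi * (s * y))
    have h4 : |s| ≤ δ := abs_le.2 hs
    have h5 : |2 * Real.pi * (s * y)| ≤ 1 := by
      rw [abs_mul, abs_mul, abs_mul, abs_two, abs_of_pos Real.pi_pos]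
      have h6 : |s| * |y| ≤ 1 / 8 := (mul_le_mul_of_nonneg_right h4 (abs_nonneg y)).trans
        (by rw [mul_comm]; exact h)
      have h7 := Real.pi_lt_four
      have h8 := Real.pi_pos
      have h9 : 0 ≤ |s| * |y| := by positivity
      nlinarith
    have h10 : (2 * Real.pi * (s * y)) ^ 2 ≤ 1 := by
      rw [← sq_abs]
      exact pow_le_one₀ (abs_nonneg _) h5
    linarith
  rw [intervalIntegral.integral_const, smul_eq_mul] at h2
  calc δ = (δ - -δ) * (1 / 2) := by ring
    _ ≤ _ := h2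
    _ = _ := h1.symm
    _ ≤ _ := Complex.re_le_norm _

lemma shift (x y δ : ℝ) : ∫ t in (x - δ)..(x + δ), ee (t * y) =
    ee (x * y) * ∫ s in (-δ)..δ, ee (s * y) := by
  rw [← intervalIntegral.integral_const_mul]
  have h := intervalIntegral.integral_comp_add_left (a := -δ) (b := δ) (fun t => ee (t * y)) x
  rw [← sub_eq_add_neg] at h
  rw [← h]
  refine intervalIntegral.integral_congr fun s _ => ?_
  show ee ((x + s) * y) = ee (x * y) * ee (s * y)
  rw [add_mul, ee_add]

/-- the Gaussian integral -/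
lemma gauss {X u : ℝ} (hX : 0 < X) :
    ‖∫ t : ℝ, (Real.exp (-(t / X) ^ 2) : ℂ) * ee (t * u)‖ ≤ 2 * X * Real.exp (-(X * u) ^ 2) := by
  have hb : 0 < ((1 / X ^ 2 : ℝ) : ℂ).re := by
    rw [Complex.ofReal_re]; positivity
  have h := fourierIntegral_gaussian hb ((2 * Real.pi * u : ℝ) : ℂ)
  have h1 : ∫ t : ℝ, (Real.exp (-(t / X) ^ 2) : ℂ) * ee (t * u) =
      ∫ x : ℝ, Complex.exp (Complex.I * ((2 * Real.pi * u : ℝ) : ℂ) * x) *
        Complex.exp (-((1 / X ^ 2 : ℝ) : ℂ) * x ^ 2) := by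
    congr 1
    ext t
    rw [mul_comm]
    congr 1
    · rw [ee_eq]; congr 1; push_cast; ring
    · rw [Complex.ofReal_exp]; congr 1; push_cast; ring
  rw [h1, h, norm_mul]
  have h2 : (Real.pi / ((1 / X ^ 2 : ℝ) : ℂ) : ℂ) = ((Real.pi * X ^ 2 : ℝ) : ℂ) := by
    push_cast
    have : (X : ℂ) ≠ 0 := by exact_mod_cast hX.ne'
    field_simp
  have h3 : ‖(Real.pi / ((1 / X ^ 2 : ℝ) : ℂ) : ℂ) ^ (1 / 2 : ℂ)‖ ≤ 2 * X := by
    rw [h2, Complex.norm_cpow_eq_rpow_re_of_pos (by have := Real.pi_pos; positivity)]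
    have h4 : (1 / 2 : ℂ).re = 1 / 2 := by norm_num
    rw [h4, ← Real.sqrt_eq_rpow]
    rw [Real.sqrt_le_left (by positivity)]
    have := Real.pi_lt_four
    nlinarith [sq_nonneg X]
  have h5 : ‖Complex.exp (-((2 * Real.pi * u : ℝ) : ℂ) ^ 2 / (4 * ((1 / X ^ 2 : ℝ) : ℂ)))‖ ≤
      Real.exp (-(X * u) ^ 2) := by
    have h6 : (-((2 * Real.pi * u : ℝ) : ℂ) ^ 2 / (4 * ((1 / X ^ 2 : ℝ) : ℂ))) =
        ((-(Real.pi ^ 2 * (X * u) ^ 2) : ℝ) : ℂ) := by
      push_cast
      have : (X : ℂ) ≠ 0 := by exact_mod_cast hX.ne'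
      field_simp
      ring
    rw [h6, ← Complex.ofReal_exp, Complex.norm_real, Real.norm_eq_abs, abs_of_pos (Real.exp_pos _)]
    refine Real.exp_le_exp.2 ?_
    have h7 : 1 ≤ Real.pi ^ 2 := by
      have := Real.pi_gt_three; nlinarith
    nlinarith [sq_nonneg (X * u)]
  exact mul_le_mul h3 h5 (norm_nonneg _) (by positivity)

lemma integrable_gauss {X u : ℝ} (hX : 0 < X) :
    Integrable fun t : ℝ => (Real.exp (-(t / X) ^ 2) : ℂ) * ee (t * u) := by
  have hb : 0 < ((1 / X ^ 2 : ℝ) : ℂ).re := by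
    rw [Complex.ofReal_re]; positivity
  have h := integrable_cexp_quadratic hb (Complex.I * ((2 * Real.pi * u : ℝ) : ℂ)) 0
  refine h.congr (ae_of_all _ fun t => ?_)
  simp only
  rw [ee_eq, Complex.ofReal_exp, ← Complex.exp_add]
  congr 1
  push_cast
  have : (X : ℂ) ≠ 0 := by exact_mod_cast hX.ne'
  field_simp
  ring

/-! ### Counting -/

lemma sum_half_le (A : Finset ℕ) : ∑ k ∈ A, (1 / 2 : ℝ) ^ k ≤ 2 := by
  calc ∑ k ∈ A, (1 / 2 : ℝ) ^ k ≤ ∑ k ∈ range (A.sup id + 1), (1 / 2 : ℝ) ^ k := by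
        refine Finset.sum_le_sum_of_subset_of_nonneg ?_ (fun _ _ _ => by positivity)
        intro k hk
        rw [Finset.mem_range]
        exact Nat.lt_succ_of_le (Finset.le_sup (f := id) hk)
    _ ≤ 2 := sum_geometric_two_le _

lemma sum_natAbs_le (M : Finset ℤ) (m : ℤ) : ∑ m' ∈ M, (1 / 2 : ℝ) ^ (m - m').natAbs ≤ 4 := by
  rw [← Finset.sum_filter_add_sum_filter_not M (fun m' => m ≤ m')]
  have h1 : ∑ m' ∈ M.filter (fun m' => m ≤ m'), (1 / 2 : ℝ) ^ (m - m').natAbs ≤ 2 := by
    have hinj : Set.InjOn (fun m' : ℤ => (m - m').natAbs) (M.filter (fun m' => m ≤ m') : Finset ℤ) := by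
      intro a ha b hb hab
      have ha' := (Finset.mem_filter.1 (Finset.mem_coe.1 ha)).2
      have hb' := (Finset.mem_filter.1 (Finset.mem_coe.1 hb)).2
      simp only at hab
      omega
    rw [← Finset.sum_image (f := fun k => (1 / 2 : ℝ) ^ k) hinj]
    exact sum_half_le _
  have h2 : ∑ m' ∈ M.filter (fun m' => ¬ m ≤ m'), (1 / 2 : ℝ) ^ (m - m').natAbs ≤ 2 := by
    have hinj : Set.InjOn (fun m' : ℤ => (m - m').natAbs)
        (M.filter (fun m' => ¬ m ≤ m') : Finset ℤ) := by
      intro a ha b hb hab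
      have ha' := (Finset.mem_filter.1 (Finset.mem_coe.1 ha)).2
      have hb' := (Finset.mem_filter.1 (Finset.mem_coe.1 hb)).2
      simp only at hab
      omega
    rw [← Finset.sum_image (f := fun k => (1 / 2 : ℝ) ^ k) hinj]
    exact sum_half_le _
  linarith

/-- sums over pairs of a function of the cells are controlled by the pairs in one cell -/
lemma sum_cells_le (T : Finset ℕ) (m : ℕ → ℤ) :
    ∑ j ∈ T, ∑ j' ∈ T, (1 / 2 : ℝ) ^ (m j - m j').natAbs ≤
      4 * (((T ×ˢ T).filter (fun t => m t.1 = m t.2)).card : ℝ) := by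
  classical
  set M := T.image m with hM
  set n : ℤ → ℝ := fun a => ((T.filter (fun j => m j = a)).card : ℝ) with hn
  have hn0 : ∀ a, 0 ≤ n a := fun a => Nat.cast_nonneg _
  have e1 : ∑ j ∈ T, ∑ j' ∈ T, (1 / 2 : ℝ) ^ (m j - m j').natAbs =
      ∑ a ∈ M, ∑ a' ∈ M, n a * n a' * (1 / 2 : ℝ) ^ (a - a').natAbs := by
    have h1 : ∀ a : ℤ, ∑ j' ∈ T, (1 / 2 : ℝ) ^ (a - m j').natAbs =
        ∑ a' ∈ M, n a' * (1 / 2 : ℝ) ^ (a - a').natAbs := by
      intro a
      rw [Finset.sum_comp (fun a' => (1 / 2 : ℝ) ^ (a - a').natAbs) m]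
      exact Finset.sum_congr rfl fun a' _ => by rw [nsmul_eq_mul]
    rw [Finset.sum_congr rfl (fun j _ => h1 (m j)),
      Finset.sum_comp (fun a => ∑ a' ∈ M, n a' * (1 / 2 : ℝ) ^ (a - a').natAbs) m]
    refine Finset.sum_congr rfl fun a _ => ?_
    rw [nsmul_eq_mul, Finset.mul_sum]
    exact Finset.sum_congr rfl fun a' _ => by rw [hn]; ring
  have e2 : (((T ×ˢ T).filter (fun t => m t.1 = m t.2)).card : ℝ) = ∑ a ∈ M, n a * n a := by
    have h1 : (((T ×ˢ T).filter (fun t => m t.1 = m t.2)).card : ℝ) =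
        ∑ j ∈ T, n (m j) := by
      rw [Finset.card_filter]
      push_cast
      rw [Finset.sum_product]
      refine Finset.sum_congr rfl fun j _ => ?_
      rw [hn]
      simp only
      rw [Finset.card_filter]
      push_cast
      exact Finset.sum_congr rfl fun j' _ => by
        by_cases h : m j = m j'
        · rw [if_pos h, if_pos h.symm]
        · rw [if_neg h, if_neg (fun h2 => h h2.symm)]
    rw [h1, Finset.sum_comp (fun a => n a) m]
    exact Finset.sum_congr rfl fun a _ => by rw [nsmul_eq_mul]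
  rw [e1, e2]
  have h3 : ∀ a ∈ M, ∀ a' ∈ M, n a * n a' * (1 / 2 : ℝ) ^ (a - a').natAbs ≤
      (n a * n a / 2) * (1 / 2 : ℝ) ^ (a - a').natAbs +
        (n a' * n a' / 2) * (1 / 2 : ℝ) ^ (a - a').natAbs := by
    intro a _ a' _
    rw [← add_mul]
    refine mul_le_mul_of_nonneg_right ?_ (by positivity)
    nlinarith [sq_nonneg (n a - n a')]
  refine (Finset.sum_le_sum fun a ha => Finset.sum_le_sum fun a' ha' => h3 a ha a' ha').trans ?_
  rw [Finset.sum_congr rfl (fun a _ => Finset.sum_add_distrib), Finset.sum_add_distrib]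
  have h4 : ∑ a ∈ M, ∑ a' ∈ M, (n a * n a / 2) * (1 / 2 : ℝ) ^ (a - a').natAbs ≤
      ∑ a ∈ M, (n a * n a / 2) * 4 := by
    refine Finset.sum_le_sum fun a _ => ?_
    rw [← Finset.mul_sum]
    exact mul_le_mul_of_nonneg_left (sum_natAbs_le M a) (by have := hn0 a; positivity)
  have h5 : ∑ a ∈ M, ∑ a' ∈ M, (n a' * n a' / 2) * (1 / 2 : ℝ) ^ (a - a').natAbs ≤
      ∑ a ∈ M, (n a * n a / 2) * 4 := by
    rw [Finset.sum_comm]
    refine Finset.sum_le_sum fun a _ => ?_
    rw [← Finset.mul_sum]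
    refine mul_le_mul_of_nonneg_left ?_ (by have := hn0 a; positivity)
    have := sum_natAbs_le M a
    refine le_trans (le_of_eq (Finset.sum_congr rfl fun a' _ => ?_)) this
    rw [← Int.natAbs_neg]; congr 2; ring
  have h6 : ∑ a ∈ M, (n a * n a / 2) * 4 = 2 * ∑ a ∈ M, n a * n a := by
    rw [Finset.mul_sum]; exact Finset.sum_congr rfl fun a _ => by ring
  linarith

lemma count_le (T : Finset ℕ) (y : ℕ → ℝ) {X X' : ℝ} (hX : 0 < X) (hXX : X ≤ X') :
    ∑ j ∈ T, ∑ j' ∈ T, Real.exp (-(X' * (y j - y j')) ^ 2) ≤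
      8 * (((T ×ˢ T).filter (fun t => |y t.1 - y t.2| ≤ 1 / X)).card : ℝ) := by
  classical
  set m : ℕ → ℤ := fun j => ⌊X * y j⌋ with hm
  have h1 : ∀ j j', Real.exp (-(X' * (y j - y j')) ^ 2) ≤
      2 * (1 / 2 : ℝ) ^ (m j - m j').natAbs := by
    intro j j'
    have ha : (((m j - m j').natAbs : ℕ) : ℝ) ≤ |X * (y j - y j')| + 1 := by
      rw [Nat.cast_natAbs]
      push_cast
      have f1 := Int.floor_le (X * y j)
      have f2 := Int.lt_floor_add_one (X * y j)
      have f3 := Int.floor_le (X * y j')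
      have f4 := Int.lt_floor_add_one (X * y j')
      rw [hm]
      simp only
      rw [abs_le]
      constructor
      · have := neg_abs_le (X * (y j - y j'))
        nlinarith
      · have := le_abs_self (X * (y j - y j'))
        nlinarith
    rcases Nat.eq_zero_or_pos (m j - m j').natAbs with h0 | h0
    · rw [h0, pow_zero]
      have : Real.exp (-(X' * (y j - y j')) ^ 2) ≤ 1 :=
        Real.exp_le_one_iff.2 (by nlinarith [sq_nonneg (X' * (y j - y j'))])
      linarith
    · obtain ⟨k, hk⟩ : ∃ k, (m j - m j').natAbs = k + 1 := ⟨_, (Nat.succ_pred_eq_of_pos h0).symm⟩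
      rw [hk] at ha ⊢
      push_cast at ha
      have hk0 : (k : ℝ) ≤ |X * (y j - y j')| := by linarith
      have hk1 : (k : ℝ) ≤ (X' * (y j - y j')) ^ 2 := by
        rw [abs_mul, abs_of_pos hX] at hk0
        have h2 : (k : ℝ) ≤ |X' * (y j - y j')| := by
          rw [abs_mul, abs_of_pos (hX.trans_le hXX)]
          exact hk0.trans (mul_le_mul_of_nonneg_right hXX (abs_nonneg _))
        rcases Nat.eq_zero_or_pos k with hz | hz
        · rw [hz]; simp only [Nat.cast_zero]; positivity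
        · have h3 : (1 : ℝ) ≤ k := by exact_mod_cast hz
          rw [← sq_abs]
          nlinarith
      have h5 : Real.exp (-(X' * (y j - y j')) ^ 2) ≤ Real.exp ((k : ℝ) * (-1)) :=
        Real.exp_le_exp.2 (by linarith)
      rw [Real.exp_nat_mul] at h5
      have h6 : Real.exp (-1) ≤ 1 / 2 := by
        rw [Real.exp_neg, one_div]
        refine inv_anti₀ (by norm_num) ?_
        have := Real.add_one_le_exp 1
        linarith
      have h7 := pow_le_pow_left₀ (Real.exp_pos (-1)).le h6 k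
      rw [pow_succ (1 / 2 : ℝ) k]
      linarith
  have h2 : ∑ j ∈ T, ∑ j' ∈ T, Real.exp (-(X' * (y j - y j')) ^ 2) ≤
      2 * ∑ j ∈ T, ∑ j' ∈ T, (1 / 2 : ℝ) ^ (m j - m j').natAbs := by
    rw [Finset.mul_sum]
    refine Finset.sum_le_sum fun j _ => ?_
    rw [Finset.mul_sum]
    exact Finset.sum_le_sum fun j' _ => h1 j j'
  have h3 := sum_cells_le T m
  have h4 : (((T ×ˢ T).filter (fun t => m t.1 = m t.2)).card : ℝ) ≤
      (((T ×ˢ T).filter (fun t => |y t.1 - y t.2| ≤ 1 / X)).card : ℝ) := by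
    have : (T ×ˢ T).filter (fun t => m t.1 = m t.2) ⊆
        (T ×ˢ T).filter (fun t => |y t.1 - y t.2| ≤ 1 / X) := by
      refine Finset.monotone_filter_right _ fun t _ ht => ?_
      have h5 := Int.abs_sub_lt_one_of_floor_eq_floor ht
      rw [← mul_sub, abs_mul, abs_of_pos hX] at h5
      rw [le_div_iff₀ hX, mul_comm]
      exact h5.le
    exact_mod_cast Finset.card_le_card this
  linarith

/-! ### The main estimate -/

/-- the Gaussian mean square of a trigonometric sum -/
lemma mean_sq {X D : ℝ} (hX : 0 < X) (hD : 0 ≤ D) (T : Finset ℕ) (y : ℕ → ℝ) (d : ℕ → ℂ)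
    (hd : ∀ j ∈ T, ‖d j‖ ≤ D) :
    Integrable (fun t : ℝ => Real.exp (-(t / X) ^ 2) * ‖∑ j ∈ T, d j * ee (t * y j)‖ ^ 2) ∧
    ∫ t : ℝ, Real.exp (-(t / X) ^ 2) * ‖∑ j ∈ T, d j * ee (t * y j)‖ ^ 2 ≤
      2 * X * D ^ 2 * ∑ j ∈ T, ∑ j' ∈ T, Real.exp (-(X * (y j - y j')) ^ 2) := by
  have e1 : ∀ t : ℝ, ((Real.exp (-(t / X) ^ 2) * ‖∑ j ∈ T, d j * ee (t * y j)‖ ^ 2 : ℝ) : ℂ) =
      ∑ j ∈ T, ∑ j' ∈ T, d j * conj (d j') *
        ((Real.exp (-(t / X) ^ 2) : ℂ) * ee (t * (y j - y j'))) := by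
    intro t
    have h1 : ((‖∑ j ∈ T, d j * ee (t * y j)‖ ^ 2 : ℝ) : ℂ) =
        (∑ j ∈ T, d j * ee (t * y j)) * conj (∑ j ∈ T, d j * ee (t * y j)) := by
      rw [Complex.mul_conj, Complex.normSq_eq_norm_sq]
    rw [Complex.ofReal_mul, h1, map_sum, Finset.sum_mul_sum, Finset.mul_sum]
    refine Finset.sum_congr rfl fun j _ => ?_
    rw [Finset.mul_sum]
    refine Finset.sum_congr rfl fun j' _ => ?_
    rw [map_mul, conj_ee, show t * (y j - y j') = t * y j + -(t * y j') by ring, ee_add]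
    ring
  have hint : ∀ j ∈ T, ∀ j' ∈ T, Integrable fun t : ℝ => d j * conj (d j') *
        ((Real.exp (-(t / X) ^ 2) : ℂ) * ee (t * (y j - y j'))) :=
    fun j _ j' _ => (integrable_gauss hX).const_mul _
  have hI : Integrable (fun t : ℝ => ∑ j ∈ T, ∑ j' ∈ T, d j * conj (d j') *
        ((Real.exp (-(t / X) ^ 2) : ℂ) * ee (t * (y j - y j')))) :=
    integrable_finset_sum _ fun j hj => integrable_finset_sum _ fun j' hj' => hint j hj j' hj'
  constructor
  · have h2 := hI.re
    refine h2.congr (ae_of_all _ fun t => ?_)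
    simp only
    rw [← e1 t]
    exact Complex.ofReal_re _
  · have h3 : ((∫ t : ℝ, Real.exp (-(t / X) ^ 2) * ‖∑ j ∈ T, d j * ee (t * y j)‖ ^ 2 : ℝ) : ℂ) =
        ∑ j ∈ T, ∑ j' ∈ T, d j * conj (d j') *
          ∫ t : ℝ, (Real.exp (-(t / X) ^ 2) : ℂ) * ee (t * (y j - y j')) := by
      rw [← integral_complex_ofReal]
      rw [integral_congr_ae (ae_of_all _ e1)]
      rw [integral_finset_sum _ (fun j hj => integrable_finset_sum _ fun j' hj' => hint j hj j' hj')]
      refine Finset.sum_congr rfl fun j hj => ?_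
      rw [integral_finset_sum _ (fun j' hj' => hint j hj j' hj')]
      refine Finset.sum_congr rfl fun j' hj' => ?_
      rw [integral_const_mul]
    have h4 : ∫ t : ℝ, Real.exp (-(t / X) ^ 2) * ‖∑ j ∈ T, d j * ee (t * y j)‖ ^ 2 ≤
        ‖((∫ t : ℝ, Real.exp (-(t / X) ^ 2) * ‖∑ j ∈ T, d j * ee (t * y j)‖ ^ 2 : ℝ) : ℂ)‖ := by
      rw [Complex.norm_real]
      exact le_abs_self _
    refine h4.trans ?_
    rw [h3]
    refine (norm_sum_le _ _).trans ?_
    rw [Finset.mul_sum]
    refine Finset.sum_le_sum fun j hj => (norm_sum_le _ _).trans ?_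
    rw [Finset.mul_sum]
    refine Finset.sum_le_sum fun j' hj' => ?_
    rw [norm_mul, norm_mul, RCLike.norm_conj]
    have h5 := gauss (u := y j - y j') hX
    have h6 : ‖d j‖ * ‖d j'‖ ≤ D ^ 2 := by
      rw [sq]; exact mul_le_mul (hd j hj) (hd j' hj') (norm_nonneg _) hD
    calc _ ≤ D ^ 2 * (2 * X * Real.exp (-(X * (y j - y j')) ^ 2)) :=
          mul_le_mul h6 h5 (norm_nonneg _) (by positivity)
      _ = _ := by ring

/-- the function counting the intervals -/
noncomputable def nn (S : Finset ℕ) (x : ℕ → ℝ) (δ t : ℝ) : ℝ :=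
  ∑ i ∈ S, (Set.Ioc (x i - δ) (x i + δ)).indicator (fun _ => (1 : ℝ)) t

lemma nn_sq {δ : ℝ} (hδ : 0 < δ) (S : Finset ℕ) (x : ℕ → ℝ) :
    Integrable (fun t => nn S x δ t ^ 2) ∧
    ∫ t, nn S x δ t ^ 2 ≤
      2 * δ * (((S ×ˢ S).filter (fun t => |x t.1 - x t.2| ≤ 2 * δ)).card : ℝ) := by
  classical
  set I : ℕ → Set ℝ := fun i => Set.Ioc (x i - δ) (x i + δ) with hI
  have e1 : ∀ t, nn S x δ t ^ 2 = ∑ i ∈ S, ∑ i' ∈ S,
      (I i ∩ I i').indicator (fun _ => (1 : ℝ)) t := by
    intro t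
    unfold nn
    rw [sq, Finset.sum_mul_sum]
    refine Finset.sum_congr rfl fun i _ => Finset.sum_congr rfl fun i' _ => ?_
    by_cases h1 : t ∈ I i
    · by_cases h2 : t ∈ I i'
      · rw [Set.indicator_of_mem (s := I i ∩ I i') ⟨h1, h2⟩,
          Set.indicator_of_mem (by exact h1), Set.indicator_of_mem (by exact h2)]
        norm_num
      · rw [Set.indicator_of_notMem (s := I i ∩ I i') (fun h => h2 h.2),
          Set.indicator_of_notMem (s := Set.Ioc (x i' - δ) (x i' + δ)) (by exact h2)]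
        norm_num
    · rw [Set.indicator_of_notMem (s := I i ∩ I i') (fun h => h1 h.1),
        Set.indicator_of_notMem (s := Set.Ioc (x i - δ) (x i + δ)) (by exact h1)]
      norm_num
  have hm : ∀ i i', MeasurableSet (I i ∩ I i') := fun i i' =>
    measurableSet_Ioc.inter measurableSet_Ioc
  have hfin : ∀ i i', volume (I i ∩ I i') ≠ ⊤ := fun i i' =>
    ne_top_of_le_ne_top (by rw [hI]; simp [Real.volume_Ioc]) (measure_mono Set.inter_subset_left)
  have hint : ∀ i i', Integrable (fun t => (I i ∩ I i').indicator (fun _ => (1 : ℝ)) t) :=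
    fun i i' => (integrable_indicator_iff (hm i i')).2 (integrableOn_const (hfin i i'))
  constructor
  · refine (integrable_finset_sum S fun i _ => integrable_finset_sum S fun i' _ =>
      hint i i').congr (ae_of_all _ fun t => ?_)
    simp only
    rw [e1 t]
  · rw [integral_congr_ae (ae_of_all _ e1), integral_finset_sum _
      (fun i _ => integrable_finset_sum S fun i' _ => hint i i')]
    have h1 : ∀ i ∈ S, ∫ t, ∑ i' ∈ S, (I i ∩ I i').indicator (fun _ => (1 : ℝ)) t ≤
        ∑ i' ∈ S, (if |x i - x i'| ≤ 2 * δ then 2 * δ else 0) := by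
      intro i _
      rw [integral_finset_sum _ (fun i' _ => hint i i')]
      refine Finset.sum_le_sum fun i' _ => ?_
      rw [integral_indicator (hm i i'), setIntegral_const, smul_eq_mul, mul_one]
      split_ifs with h
      · calc volume.real (I i ∩ I i') ≤ volume.real (I i) :=
            measureReal_mono Set.inter_subset_left (by rw [hI]; simp [Real.volume_Ioc])
          _ = 2 * δ := by
            rw [hI]; simp only
            rw [Real.volume_real_Ioc_of_le (by linarith)]; ring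
      · have : I i ∩ I i' = ∅ := by
          ext t
          simp only [Set.mem_inter_iff, Set.mem_empty_iff_false, iff_false, not_and]
          intro h2 h3
          rw [hI] at h2 h3
          simp only [Set.mem_Ioc] at h2 h3
          refine h ?_
          rw [abs_le]
          constructor <;> linarith [h2.1, h2.2, h3.1, h3.2]
        rw [this]; simp
    refine (Finset.sum_le_sum h1).trans (le_of_eq ?_)
    rw [Finset.card_filter, Finset.sum_product]
    push_cast
    rw [Finset.mul_sum]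
    refine Finset.sum_congr rfl fun i _ => ?_
    rw [Finset.mul_sum]
    refine Finset.sum_congr rfl fun i' _ => ?_
    split_ifs <;> ring

lemma sq_le_of_forall {B P Q : ℝ} (hP : 0 ≤ P) (hQ : 0 ≤ Q)
    (h : ∀ l : ℝ, 0 < l → B ≤ l / 2 * P + 1 / (2 * l) * Q) (hB : 0 ≤ B) : B ^ 2 ≤ P * Q := by
  rcases hP.eq_or_lt with hP0 | hP0
  · have hB0 : B = 0 := by
      by_contra hne
      have hBpos : 0 < B := lt_of_le_of_ne hB (Ne.symm hne)
      have h1 := h ((Q + 1) / B) (by positivity)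
      rw [← hP0] at h1
      have h2 : 1 / (2 * ((Q + 1) / B)) * Q < B := by
        rw [show 1 / (2 * ((Q + 1) / B)) * Q = B * (Q / (2 * (Q + 1))) by field_simp]
        have : Q / (2 * (Q + 1)) < 1 := by rw [div_lt_one (by positivity)]; linarith
        nlinarith
      linarith
    rw [hB0, ← hP0]; simp
  · rcases hB.eq_or_lt with hB0 | hB0
    · rw [← hB0]; simp; positivity
    · have h1 := h (B / P) (by positivity)
      have h2 : B / P / 2 * P = B / 2 := by field_simp
      have h3 : 1 / (2 * (B / P)) * Q = P * Q / (2 * B) := by field_simp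
      rw [h2, h3] at h1
      have h4 : B / 2 ≤ P * Q / (2 * B) := by linarith
      rw [le_div_iff₀ (by positivity)] at h4
      nlinarith

end Pool.Agent.Lib.MP391708.QPA.DLS

namespace Pool.Agent.Lib.MP391708.QPA

open Finset MeasureTheory DLS

theorem specDLS : SpecDLS := by
  classical
  refine ⟨10 ^ 4, by norm_num, ?_⟩
  intro S T x y b c X Y hX hY hx hy hb hc
  set δ : ℝ := 1 / (8 * Y) with hδd
  have hδ : 0 < δ := by positivity
  have hδY : Y * δ = 1 / 8 := by rw [hδd]; field_simp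
  set σ : ℕ → ℂ := fun j => ∫ s in (-δ)..δ, ee (s * y j) with hσ
  have hσ1 : ∀ j ∈ T, δ ≤ ‖σ j‖ := fun j hj => sigma_ge hδ (by
    calc |y j| * δ ≤ Y * δ := mul_le_mul_of_nonneg_right (hy j hj) hδ.le
      _ = 1 / 8 := hδY
      _ ≤ 1 / 8 := le_refl _)
  have hσ0 : ∀ j ∈ T, σ j ≠ 0 := fun j hj h => by
    have := hσ1 j hj
    rw [h, norm_zero] at this
    linarith
  set d : ℕ → ℂ := fun j => c j / σ j with hd
  have hd1 : ∀ j ∈ T, ‖d j‖ ≤ 8 * Y := by
    intro j hj
    rw [hd]; simp only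
    rw [norm_div]
    calc ‖c j‖ / ‖σ j‖ ≤ 1 / δ := div_le_div₀ (by norm_num) (hc j) hδ (hσ1 j hj)
      _ = 8 * Y := by rw [hδd]; field_simp
  set G : ℝ → ℂ := fun t => ∑ j ∈ T, d j * ee (t * y j) with hG
  have hGc : Continuous G := by
    rw [hG]
    refine continuous_finset_sum _ fun j _ => continuous_const.mul (continuous_ee.comp ?_)
    fun_prop
  set B : ℂ := ∑ i ∈ S, ∑ j ∈ T, b i * c j *
    Complex.exp (2 * Real.pi * Complex.I * ((x i * y j : ℝ) : ℂ)) with hB
  have hB1 : B = ∑ i ∈ S, b i * ∫ t in (x i - δ)..(x i + δ), G t := by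
    rw [hB]
    refine Finset.sum_congr rfl fun i _ => ?_
    rw [hG]
    simp only
    rw [intervalIntegral.integral_finset_sum]
    · rw [Finset.mul_sum]
      refine Finset.sum_congr rfl fun j hj => ?_
      rw [intervalIntegral.integral_const_mul, shift]
      have : (∫ s in (-δ)..δ, ee (s * y j)) = σ j := rfl
      rw [this, hd]
      simp only
      have h0 := hσ0 j hj
      have h1 : Complex.exp (2 * Real.pi * Complex.I * ((x i * y j : ℝ) : ℂ)) = ee (x i * y j) := rfl
      rw [h1]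
      field_simp
    · intro j _
      exact (continuous_const.mul (continuous_ee.comp (by fun_prop))).intervalIntegrable _ _
  set X' : ℝ := X + δ with hX'
  have hX'0 : 0 < X' := by positivity
  -- the integral form
  have hIind : ∀ i ∈ S, Integrable (fun t => (Set.Ioc (x i - δ) (x i + δ)).indicator
      (fun t => ‖G t‖) t) := by
    intro i _
    rw [integrable_indicator_iff measurableSet_Ioc]
    exact (hGc.norm.integrableOn_Icc).mono_set Set.Ioc_subset_Icc_self
  have hnG : ∀ t, nn S x δ t * ‖G t‖ = ∑ i ∈ S, (Set.Ioc (x i - δ) (x i + δ)).indicator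
      (fun t => ‖G t‖) t := by
    intro t
    unfold nn
    rw [Finset.sum_mul]
    refine Finset.sum_congr rfl fun i _ => ?_
    by_cases h : t ∈ Set.Ioc (x i - δ) (x i + δ)
    · rw [Set.indicator_of_mem h, Set.indicator_of_mem h, one_mul]
    · rw [Set.indicator_of_notMem h, Set.indicator_of_notMem h, zero_mul]
  have hnGint : Integrable (fun t => nn S x δ t * ‖G t‖) := by
    refine (integrable_finset_sum S hIind).congr (ae_of_all _ fun t => ?_)
    exact (hnG t).symm
  have hB2 : ‖B‖ ≤ ∫ t, nn S x δ t * ‖G t‖ := by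
    rw [integral_congr_ae (ae_of_all _ hnG), integral_finset_sum _ hIind, hB1]
    refine (norm_sum_le _ _).trans (Finset.sum_le_sum fun i _ => ?_)
    rw [norm_mul, integral_indicator measurableSet_Ioc,
      ← intervalIntegral.integral_of_le (by linarith)]
    calc ‖b i‖ * ‖∫ t in (x i - δ)..(x i + δ), G t‖ ≤ 1 * ‖∫ t in (x i - δ)..(x i + δ), G t‖ :=
          mul_le_mul_of_nonneg_right (hb i) (norm_nonneg _)
      _ = ‖∫ t in (x i - δ)..(x i + δ), G t‖ := one_mul _
      _ ≤ _ := intervalIntegral.norm_integral_le_integral_norm (by linarith)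
  set P := ∫ t, nn S x δ t ^ 2 with hP
  set Q := 3 * ∫ t : ℝ, Real.exp (-(t / X') ^ 2) * ‖G t‖ ^ 2 with hQ
  obtain ⟨hPi, hPle⟩ := nn_sq hδ S x
  obtain ⟨hQi, hQle⟩ := mean_sq hX'0 (show (0 : ℝ) ≤ 8 * Y by positivity) T y d hd1
  have hP0 : 0 ≤ P := integral_nonneg fun t => sq_nonneg _
  have hQ0 : 0 ≤ Q := mul_nonneg (by norm_num) (integral_nonneg fun t => by positivity)
  have hpt : ∀ l : ℝ, 0 < l → ‖B‖ ≤ l / 2 * P + 1 / (2 * l) * Q := by
    intro l hl
    refine hB2.trans ?_
    have h1 : ∫ t, nn S x δ t * ‖G t‖ ≤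
        ∫ t, (l / 2 * nn S x δ t ^ 2 + 1 / (2 * l) * (3 * (Real.exp (-(t / X') ^ 2) * ‖G t‖ ^ 2))) := by
      refine integral_mono hnGint ((hPi.const_mul _).add ((hQi.const_mul 3).const_mul _))
        (fun t => ?_)
      simp only
      by_cases hnz : nn S x δ t = 0
      · rw [hnz, zero_mul]
        positivity
      · have hex : ∃ i ∈ S, t ∈ Set.Ioc (x i - δ) (x i + δ) := by
          by_contra hcon
          push Not at hcon
          refine hnz (Finset.sum_eq_zero fun i hi => ?_)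
          rw [Set.indicator_of_notMem (hcon i hi)]
        obtain ⟨i, hi, hti⟩ := hex
        have ht : |t| ≤ X' := by
          have := hx i hi
          rw [abs_le] at this ⊢
          constructor <;> linarith [this.1, this.2, hti.1, hti.2]
        have hw : 1 ≤ 3 * Real.exp (-(t / X') ^ 2) := by
          have h2 : (t / X') ^ 2 ≤ 1 := by
            rw [← sq_abs, abs_div, abs_of_pos hX'0]
            exact pow_le_one₀ (by positivity) ((div_le_one hX'0).2 ht)
          have h3 : Real.exp (-1) ≤ Real.exp (-(t / X') ^ 2) := Real.exp_le_exp.2 (by linarith)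
          have h4 : (1 / 3 : ℝ) ≤ Real.exp (-1) := by
            have := Real.exp_neg_one_gt_d9; linarith
          linarith
        have h5 : 0 ≤ nn S x δ t := Finset.sum_nonneg fun i _ =>
          Set.indicator_nonneg (fun _ _ => zero_le_one) _
        set a := nn S x δ t
        set g := ‖G t‖
        have hg : 0 ≤ g := norm_nonneg _
        have h6 : a * g ≤ l / 2 * a ^ 2 + 1 / (2 * l) * g ^ 2 := by
          have : 0 ≤ (l * a - g) ^ 2 / (2 * l) := by positivity
          have e : (l * a - g) ^ 2 / (2 * l) = l / 2 * a ^ 2 + 1 / (2 * l) * g ^ 2 - a * g := by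
            field_simp; ring
          linarith
        have h7 : 1 / (2 * l) * g ^ 2 ≤ 1 / (2 * l) * (3 * (Real.exp (-(t / X') ^ 2) * g ^ 2)) := by
          refine mul_le_mul_of_nonneg_left ?_ (by positivity)
          nlinarith [sq_nonneg g]
        linarith
    refine h1.trans (le_of_eq ?_)
    rw [integral_add (hPi.const_mul _) ((hQi.const_mul 3).const_mul _), integral_const_mul,
      integral_const_mul, integral_const_mul]
  have hfin := sq_le_of_forall hP0 hQ0 hpt (norm_nonneg _)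
  refine hfin.trans ?_
  set N1 := (((S ×ˢ S).filter (fun t => |x t.1 - x t.2| ≤ 1 / Y)).card : ℝ) with hN1
  set N2 := (((T ×ˢ T).filter (fun t => |y t.1 - y t.2| ≤ 1 / X)).card : ℝ) with hN2
  have hN10 : 0 ≤ N1 := Nat.cast_nonneg _
  have hN20 : 0 ≤ N2 := Nat.cast_nonneg _
  have hP1 : P ≤ 2 * δ * N1 := by
    refine hPle.trans (mul_le_mul_of_nonneg_left ?_ (by positivity))
    rw [hN1]
    have : (S ×ˢ S).filter (fun t => |x t.1 - x t.2| ≤ 2 * δ) ⊆
        (S ×ˢ S).filter (fun t => |x t.1 - x t.2| ≤ 1 / Y) := by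
      refine Finset.monotone_filter_right _ fun t _ ht => ht.trans ?_
      rw [hδd]
      rw [show 2 * (1 / (8 * Y)) = (1 / 4) * (1 / Y) by field_simp; norm_num]
      have : 0 < 1 / Y := by positivity
      linarith
    exact_mod_cast Finset.card_le_card this
  have hQ1 : Q ≤ 3 * (2 * X' * (8 * Y) ^ 2 * (8 * N2)) := by
    refine mul_le_mul_of_nonneg_left (hQle.trans ?_) (by norm_num)
    refine mul_le_mul_of_nonneg_left ?_ (by positivity)
    exact count_le T y hX (by rw [hX']; linarith)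
  calc P * Q ≤ (2 * δ * N1) * (3 * (2 * X' * (8 * Y) ^ 2 * (8 * N2))) :=
        mul_le_mul hP1 hQ1 hQ0 (by positivity)
    _ = 6144 * (Y * δ) * (Y * X') * N1 * N2 := by ring
    _ = 768 * (X * Y + 1 / 8) * N1 * N2 := by
        rw [hX', mul_add, hδY]; ring
    _ ≤ 10 ^ 4 * (1 + X * Y) * N1 * N2 := by
        have h1 : 0 ≤ N1 * N2 := mul_nonneg hN10 hN20
        have h2 : 0 < X * Y := mul_pos hX hY
        nlinarith

end Pool.Agent.Lib.MP391708.QPA
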