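import Pool.Agent.Lib.MP_391708_nt.QPA.Defs

/-!
# Statements of the modules of the project QPA

`z = N^ε₀`, `Y = (N/2)^(2/3)`, `ρ_a(k) = rho a k`, `[δ,δ'] = lcm`, `e(x) = exp(2πix)`.
`rough` means: no prime factor `< z`.  Every module file `X.lean` proves
`theorem specX (h₁ : SpecU) (h₂ : SpecV) ... : SpecX`, the lemmas in the namespace `...QPA.X`.
-/

set_option autoImplicit false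

namespace Pool.Agent.Lib.MP391708.QPA

open Finset Filter Topology
open scoped Classical

noncomputable section

/-! ## Group P: primes -/

/-- WI (Wiener-Ikehara with a Chebyshev hypothesis). Proof. `A(x) = ∑_{n≤x} f n ≤ C x`,
`B(u) = A(e^u) e^(-u)` is bounded, `F(s) = ∑ f(n) n^(-s) - c/(s-1)`, so for `Re s > 1`
`H(s) := ∫_0^∞ (B(u) - c) e^(-(s-1)u) du = (F(s) + c/(s-1))/s - c/(s-1) = (F(s) - c)/s`, continuous on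
`Re s ≥ 1`.  For `λ > 0`, `v > 0`, `δ > 0` (Fubini, then `δ → 0` by dominated convergence on the
right and uniform continuity on the left):
`∫_{-λ}^{λ} (1-|t|/λ) H(1+it) e^(ivt) dt = ∫_0^∞ (B(u)-c) λ k(λ(v-u)) du`, `k(x) = (sin(x/2)/(x/2))²`.
`v → ∞`: the left side tends to `0` (Riemann-Lebesgue), so
`∫_{-∞}^{λv} B(v - x/λ) k(x) dx → c ∫ k = 2πc`.  As `A` is nondecreasing,
`B(v - x/λ) ≥ B(v - 1/√λ) e^(-2/√λ)` for `|x| ≤ √λ`: gives `limsup B ≤ c`; likewise `liminf B ≥ c`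
(use that `B` is bounded for the part `|x| > √λ`). -/
def SpecWI : Prop := ∀ (f : ℕ → ℝ) (c C : ℝ) (F : ℂ → ℂ), (∀ n, 0 ≤ f n) →
  (∀ x : ℕ, ∑ n ∈ Icc 1 x, f n ≤ C * x) →
  (∀ s : ℂ, 1 < s.re → F s = LSeries (fun n => (f n : ℂ)) s - (c : ℂ) / (s - 1)) →
  ContinuousOn F {s | 1 ≤ s.re} →
  Tendsto (fun x : ℕ => (∑ n ∈ Icc 1 x, f n) / (x : ℝ)) atTop (𝓝 c)

/-- PNTAP (from WI): Mathlib has `continuousOn_LFunctionResidueClassAux`,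
`eqOn_LFunctionResidueClassAux` (file `NumberTheory/LSeries/PrimesInAP`), and the Chebyshev bound
`Chebyshev.psi_le_const_mul_self`. -/
def SpecPNTAP : Prop := ∀ (q : ℕ) [NeZero q] (a : ZMod q), IsUnit a →
  Tendsto (fun x : ℕ => (∑ n ∈ Icc 1 x, ArithmeticFunction.vonMangoldt.residueClass a n) / (x : ℝ))
    atTop (𝓝 ((q.totient : ℝ)⁻¹))

/-- CHI (from PNTAP): `∑_{n≤x} χ(n) Λ(n) = o(x)` as `∑_a χ(a) = 0`; prime powers cost `O(√x log x)`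
(`Chebyshev.abs_psi_sub_theta_le_sqrt_mul_log`); then partial summation. -/
def SpecCHI : Prop := ∀ (q : ℕ) [NeZero q] (χ : DirichletCharacter ℂ q), χ ≠ 1 →
  ∀ κ : ℝ, 0 < κ → ∃ X₀ : ℝ, ∀ x : ℝ, X₀ ≤ x →
    ‖∑ p ∈ (Icc 1 ⌊x⌋₊).filter Nat.Prime, χ (p : ZMod q)‖ ≤ κ * x / Real.log x

/-- PNT (from PNTAP with `q = 1`): `π(x) ~ x/log x`. -/
def SpecPNT : Prop := ∀ κ : ℝ, 0 < κ → ∃ X₀ : ℝ, ∀ x : ℝ, X₀ ≤ x →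
  |(((Icc 1 ⌊x⌋₊).filter Nat.Prime).card : ℝ) - x / Real.log x| ≤ κ * x / Real.log x

/-- MODP (from PNT): `∑_{N²<p≤4N²} 1/(2√p) ~ N/(2 log N)`. Cut `(N², 4N²]` into boundedly many
intervals `(x, (1+δ)x]`. -/
def SpecMODP : Prop := ∀ κ : ℝ, 0 < κ → ∃ N₀ : ℕ, ∀ N : ℕ, N₀ ≤ N →
  |model N primeInd - N / (2 * Real.log N)| ≤ κ * N / Real.log N

/-- LI: `∫_2^N dt/log t ~ N/log N`. -/
def SpecLI : Prop := ∀ κ : ℝ, 0 < κ → ∃ N₀ : ℕ, ∀ N : ℕ, N₀ ≤ N →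
  |(∫ t in (2 : ℝ)..(N : ℝ), 1 / Real.log t) - N / Real.log N| ≤ κ * N / Real.log N

/-! ## Group S: sieves -/

/-- SELB: Selberg's weights for the integers coprime to `m`.
`λ_δ = μ(δ) (δ/φ(δ)) (1/S) ∑_{r ≤ y/δ, (r, δm)=1} μ²(r)/φ(r)`,
`S = ∑_{r≤y,(r,m)=1} μ²(r)/φ(r) ≥ (φ(m)/m) log y`, and the quadratic form equals `1/S`. -/
def SpecSELB : Prop := ∃ C : ℝ, 0 < C ∧ ∀ (y : ℝ) (m : ℕ), 2 ≤ y → 1 ≤ m → ∃ lam : ℕ → ℝ,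
  lam 1 = 1 ∧ (∀ d, |lam d| ≤ 1) ∧
  (∀ d, lam d ≠ 0 → 1 ≤ d ∧ (d : ℝ) ≤ y ∧ Squarefree d ∧ Nat.Coprime d m) ∧
  0 ≤ QF y lam ∧ QF y lam ≤ C * ((m : ℝ) / (m.totient : ℝ)) / Real.log y

/-- BT (from SELB with `m = q`): `Th lam u = 1` for `z`-rough `u`, as `y < z`. -/
def SpecBT : Prop := ∃ C : ℝ, 0 < C ∧ ∀ (y z : ℝ) (q c x H : ℕ), 2 ≤ y → y < z → 1 ≤ q →
  (((Ioc x (x + H)).filter (fun u => u % q = c ∧ Rough z u)).card : ℝ)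
    ≤ C * H / ((q.totient : ℝ) * Real.log y) + C * y ^ 2

/-- RSUM (from BT with `q = 1`, partial summation, `y = z^(1/3)`). -/
def SpecRSUM : Prop := ∃ C : ℝ, 0 < C ∧ ∀ (z X₁ X₂ : ℝ), 2 ≤ z → z ≤ X₁ → X₁ ≤ X₂ →
  ∑ k ∈ Icc ⌈X₁⌉₊ ⌊X₂⌋₊, rInd z k / (k : ℝ) ≤ C * (Real.log (X₂ / X₁) + 1) / Real.log z

/-- WMER: `∏_{p<z} (1-1/p) ≤ C/log z` (from `∑_{n<z} 1/n ≤ ∏_{p<z} (1-1/p)⁻¹`). -/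
def SpecWMER : Prop := ∃ C : ℝ, 0 < C ∧ ∀ z : ℝ, 2 ≤ z → Wp z ≤ C / Real.log z

/-- FL (fundamental lemma, Brun-Hooley). Intervals `I_j = [z^(2^(-j-1)), z^(2^(-j)))`,
`P_j = ∏_{p∈I_j} p`, `b_j = b + j`.  Upper bound: `1_{(m,P_j)=1} ≤ ∑_{δ∣(m,P_j), ω(δ)≤2b_j} μ(δ) =: y_j`.
Lower bound: for `0 ≤ x_j ≤ y_j`: `∏ x_j ≥ ∏ y_j - ∑_l (y_l - x_l) ∏_{j≠l} y_j` and
`y_l - x_l ≤ ∑_{δ∣(m,P_l), ω(δ)=2b_l+1} 1`.  `∑_{p∈I_j} g(p) ≤ B₀` (absolute constant, Chebyshev), so the relative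
error of the `j`-th factor is `≤ e^(B₁) B₀^(2b_j+1)/(2b_j+1)!`, and the sum of these over `j` is `≤ C e^(-b)`.
All `δ` that occur are `≤ z^(4b+6)`, each `δ` occurs at most once for each `l` (and once for the
upper bound), and there are `≤ C (1 + log z)` values of `l`. -/
def SpecFL : Prop := ∃ C : ℝ, 0 < C ∧ ∀ (b : ℕ) (z : ℝ), 2 ≤ z →
  ∀ (S : Finset ℕ) (v : ℕ → ℕ) (om : ℕ → ℝ) (X : ℝ) (g : ℕ → ℝ), 0 ≤ X → (∀ i ∈ S, 0 ≤ om i) →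
  (∀ p : ℕ, p.Prime → 0 ≤ g p ∧ g p ≤ 2 / (p : ℝ) ∧ g p ≤ 2 / 3) →
  |(∑ i ∈ S, om i * rInd z (v i)) - X * ∏ p ∈ PB z, (1 - g p)|
    ≤ C * Real.exp (-(b : ℝ)) * X * (∏ p ∈ PB z, (1 - g p))
      + C * (1 + Real.log z) *
        ∑ δ ∈ (Icc 1 ⌊z ^ (8 * b + 16)⌋₊).filter
          (fun δ => Squarefree δ ∧ ∀ p : ℕ, p.Prime → p ∣ δ → (p : ℝ) < z),
          |(∑ i ∈ S.filter (fun i => δ ∣ v i), om i) - X * ∏ p ∈ δ.primeFactors, g p|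

/-! ## Group R: the function `rho` -/

def SpecRHO1 : Prop := ∀ a : ℤ, rho a 1 = 1
def SpecRHOM : Prop := ∀ (a : ℤ) (j k : ℕ), Nat.Coprime j k → 1 ≤ j → 1 ≤ k →
  rho a (j * k) = rho a j * rho a k
def SpecRHOP : Prop := ∀ (a : ℤ) (p : ℕ), p.Prime → p ≠ 2 → (rho a p : ℤ) = 1 + jacobiSym (-a) p
def SpecRHO2 : Prop := ∀ a : ℤ, rho a 2 = 1
def SpecRHOS : Prop := ∀ (a : ℤ) (k : ℕ), Squarefree k → rho a k ≤ 2 ^ k.primeFactors.card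
def SpecRHOD : Prop := ∀ (a : ℤ) (k : ℕ), Odd k → Squarefree k →
  (rho a k : ℤ) = ∑ e ∈ k.divisors, jacobiSym (-a) e
def SpecRHOC : Prop := ∀ (a : ℤ) (k x H : ℕ), 1 ≤ k →
  |(((Ioc x (x + H)).filter (fun n => k ∣ val a n)).card : ℝ) - (rho a k : ℝ) * H / k| ≤ rho a k

/-! ## Group C: characters -/

/-- PVA: Pólya-Vinogradov for `a ↦ (a|m)`.  `Pool.Agent.Lib.MP_cb27ba_nt.H71.polya_vinogradov` (file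
`Pool/Agent/Lib/MP_cb27ba_nt/H71/PV.lean`) and the divisor bound
`Pool.Agent.Lib.MP_391708_nt.Div.card_divisors_le_rpow`. -/
def SpecPVA : Prop := ∀ e : ℝ, 0 < e → ∃ C : ℝ, 0 < C ∧ ∀ m : ℕ, Odd m → ¬ IsSquare m → ∀ A : ℕ,
  |∑ a ∈ IA A, (jacobiSym (-a) m : ℝ)| ≤ C * (m : ℝ) ^ (1 / 2 + e)

/-- PVE: Pólya-Vinogradov for `k ↦ (n|k)`; use `jacChar`, `jacChar_ne_one` of `H71/Jac.lean`. -/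
def SpecPVE : Prop := ∀ e : ℝ, 0 < e → ∃ C : ℝ, 0 < C ∧ ∀ n : ℤ, n ≠ 0 → ¬ IsSquare n → ∀ x y : ℕ,
  |∑ k ∈ (Ioc x y).filter Odd, (jacobiSym n k : ℝ)| ≤ C * (n.natAbs : ℝ) ^ (1 / 2 + e)

/-- SML (from PVA): `k k'` is not a square for squarefree `k ≠ k'`. -/
def SpecSML : Prop := ∀ e : ℝ, 0 < e → ∃ C : ℝ, 0 < C ∧ ∀ (A E : ℕ) (c : ℕ → ℝ), 1 ≤ A → 1 ≤ E →
  (∀ k, c k ≠ 0 → Odd k ∧ Squarefree k) →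
  ∑ a ∈ IA A, (∑ k ∈ Ioc E (2 * E), c k * (jacobiSym (-a) k : ℝ)) ^ 2
    ≤ C * (A * (∑ k ∈ Ioc E (2 * E), (c k) ^ 2)
      + (E : ℝ) ^ (1 + e) * (∑ k ∈ Ioc E (2 * E), |c k|) ^ 2)

/-- LRG (from PVE, duality): `∑_k |∑_a t_a (-a|k)|² = ∑_{a,a'} t_a t_a' ∑_{k odd} (aa'|k)`; if `aa'` is a
nonzero square the inner sum is `≤ E`, and for given `a ≠ 0` there are `≤ 2√A` such `a'`; `aa' = 0`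
gives `0` (as `k ≥ 2`); otherwise PVE. -/
def SpecLRG : Prop := ∀ e : ℝ, 0 < e → ∃ C : ℝ, 0 < C ∧ ∀ (A E : ℕ) (c : ℕ → ℝ), 1 ≤ A → 1 ≤ E →
  (∀ k, c k ≠ 0 → Odd k) →
  ∑ a ∈ IA A, (∑ k ∈ Ioc E (2 * E), c k * (jacobiSym (-a) k : ℝ)) ^ 2
    ≤ C * (E * √(A : ℝ) + (A : ℝ) ^ (2 + e)) * ∑ k ∈ Ioc E (2 * E), (c k) ^ 2

/-- GMAX: the factor at `2` is `1`, the factor at an odd `p` lies in `[(p-2)/(p-1), p/(p-1)]`. -/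
def SpecGMAX : Prop := ∀ w : ℕ, 2 ≤ w → ∃ c : ℝ, 0 < c ∧ ∀ a : ℤ, c ≤ Gw w a ∧ Gw w a ≤ w

/-- GMEAN: the mean of `G_w` over a period `∏_{p≤w} p` is `1` (CRT, `∑_{a mod p} ρ_a(p) = p`). -/
def SpecGMEAN : Prop := ∀ w : ℕ, ∃ A₀ : ℕ, ∀ A : ℕ, A₀ ≤ A → ∑ a ∈ IA A, Gw w a ≤ 3 * A

/-- PROD: `W_a(z) ≈ G_w(a) W(z)` for almost all `a`. The ratio is `∏_{w<p<z} (1 - χ_a(p)/(p-1))`,
`χ_a(p) = (-a|p) = ρ_a(p) - 1`; second moment of `∑_{w<p<z} χ_a(p)/p`: diagonal `≤ CA/w`, off-diagonal: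
trivial bound `pq` for `∑_{|a|≤A} (-a|pq)` (complete sums vanish), `z² ≤ N^(1/5)`. -/
def SpecPROD : Prop := ∀ δ : ℝ, 0 < δ → ∃ w₀ : ℕ, ∀ w : ℕ, w₀ ≤ w → ∀ e0 : ℝ, 0 < e0 → e0 ≤ 1 / 10 →
  ∃ N₀ : ℕ, ∀ N A : ℕ, N₀ ≤ N → (N : ℝ) ^ (3 / 4 : ℝ) ≤ A →
    (((IA A).filter (fun a => ¬ |Wa ((N : ℝ) ^ e0) a - Gw w a * Wp ((N : ℝ) ^ e0)|
      ≤ δ * (Gw w a * Wp ((N : ℝ) ^ e0)))).card : ℝ) ≤ δ * A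

/-- MOB (from SML, RHOD): `∑_{k≤Y rough} μ(k)(ρ_a(k)-1)/k = ∑_{e>1} μ(e)χ_a(e)/e ∑_{g≤Y/e,(g,e)=1} μ(g)/g`,
dyadic in `e`: second moment `≤ C log² (A/z + Y^(1+ε))`. Here `Y ≤ N^(2/3)`, `A ≥ N^θ`. -/
def SpecMOB : Prop := ∀ θ e0 δ : ℝ, 5 / 6 < θ → 0 < e0 → e0 ≤ 1 / 10 → 0 < δ →
  ∃ N₀ : ℕ, ∀ N A : ℕ, N₀ ≤ N → Adm θ N A →
    (((IA A).filter (fun a => ¬ |∑ k ∈ (Icc 1 ⌊YY N⌋₊).filter (fun k => Rough ((N : ℝ) ^ e0) k),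
      (ArithmeticFunction.moebius k : ℝ) * ((rho a k : ℝ) - 1) / k| ≤ δ)).card : ℝ) ≤ δ * A

/-! ## Group Q: quadratic congruences -/

/-- QG: pairs `(n,a)` with `q ∣ n² + a`. `1_{q∣n²+a} = (1/q)∑_h e(h(n²+a)/q)`; Weyl:
`|∑_{n∈I} e(hn²/q)|² ≤ H + 2∑_{1≤j≤H} min(H, 1/(2‖2hj/q‖)) ≤ C (H²/q' + H + q')(1+log q)`, `q' = q/gcd(2h,q)`;
`|∑_{|a|≤A} e(ha/q)| ≤ q/min(h,q-h)`; `∑_h √gcd(h,q)/h ≤ τ(q)(1+log q)`. -/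
def SpecQG : Prop := ∀ e : ℝ, 0 < e → ∃ C : ℝ, 0 < C ∧ ∀ q x H A : ℕ, 1 ≤ q →
  |((((Ioc x (x + H)) ×ˢ (IA A)).filter (fun t => q ∣ val t.2 t.1)).card : ℝ)
      - (2 * A + 1) * H / (q : ℝ)| ≤ C * (q : ℝ) ^ e * (H / √(q : ℝ) + √(q : ℝ))

/-- RAV (from QG with `x = 0`, `H = k`). -/
def SpecRAV : Prop := ∀ e : ℝ, 0 < e → ∃ C : ℝ, 0 < C ∧ ∀ k A : ℕ, 1 ≤ k →
  |∑ a ∈ IA A, (rho a k : ℝ) - (2 * A + 1)| ≤ C * (k : ℝ) ^ (1 / 2 + e)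

/-- RHOMEAN (from RAV, RSUM). -/
def SpecRHOMEAN : Prop := ∃ C : ℝ, 0 < C ∧ ∀ e0 : ℝ, 0 < e0 → e0 ≤ 1 / 10 → ∃ N₀ : ℕ,
  ∀ N A : ℕ, N₀ ≤ N → (N : ℝ) ^ (3 / 4 : ℝ) ≤ A →
    ∑ a ∈ IA A, ∑ k ∈ (Icc 1 N).filter (fun k => Rough ((N : ℝ) ^ e0) k), (rho a k : ℝ) / k
      ≤ C * A / e0

/-- FIRST (from RAV, SELB, or BT): `∑_{|a|≤A} ρ_a(k) = 2A + 1 + O(k^(1/2+ε))` and there are `≤ CK/log N`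
rough `k`. -/
def SpecFIRST : Prop := ∀ e0 : ℝ, 0 < e0 → ∃ C : ℝ, 0 < C ∧ ∃ N₀ : ℕ, ∀ N A : ℕ, N₀ ≤ N →
  (N : ℝ) ^ (3 / 4 : ℝ) ≤ A → ∀ K : ℝ, (N : ℝ) ^ (1 / 2 : ℝ) ≤ K → K ≤ N →
    ∑ a ∈ IA A, ∑ k ∈ Ioc ⌊K⌋₊ ⌊5 / 4 * K⌋₊, rInd ((N : ℝ) ^ e0) k * (rho a k : ℝ)
      ≤ C * A * K / Real.log N

/-- NSF: values divisible by the square of a prime `≥ z`. `p ≤ N^0.91`: QG with `q = p²`
(`N^(1.82+ε) ≤ A N^(1-c)`).  `p > N^0.91`: `n²+a = m p²`, `m ≤ 5N^0.18`, `a ≠ 0`; for given `m` and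
`P < p ≤ 2P` the reduced fractions `n/p` lie within `CA/(P²√m)` of `√m` (or of `-√m`) and are `1/(4P²)`-separated:
at most `CA/√m + 1` of them.  (If `p ∣ n` then `p² ∣ a`, so `a = 0`.)  `a = 0` costs `N`. -/
def SpecNSF : Prop := ∀ θ e0 κ : ℝ, 5 / 6 < θ → 0 < e0 → 0 < κ → ∃ N₀ : ℕ, ∀ N A : ℕ, N₀ ≤ N →
  Adm θ N A → ∑ a ∈ IA A, cnt N a (fun m => if NSq ((N : ℝ) ^ e0) m then 1 else 0)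
    ≤ κ * A * N / Real.log N

/-- WIN: values with a divisor in a window. One of `k, m/k` is `≤ 3N`; so (for `N` large) `m` has a divisor
`j ≤ 3N` with `j ∈ [N^(x-e), N^(x+e)]` or `j ∈ [N^(2-x-e)/5, 5N^(2-x+e)]`; both `j` and `l = m/j` are rough.
For given `j`: `∑_{n,a} Th lam (m/j)` with SELB (`m = 1`, `y = N^small < z`), QG for `q = j[δ,δ']`: gives
`C A N/(j log y)` + errors of total size `N^(3/2+small)`; then RSUM for the sum over rough `j`. -/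
def SpecWIN : Prop := ∀ θ : ℝ, 5 / 6 < θ → ∃ C : ℝ, 0 < C ∧ ∀ e0 e : ℝ, 0 < e0 → e0 ≤ 1 / 10 →
  0 < e → e ≤ 1 / 10 → ∃ N₀ : ℕ, ∀ N A : ℕ, N₀ ≤ N → Adm θ N A → ∀ x : ℝ, 1 / 2 ≤ x → x ≤ 3 / 2 →
    ∑ a ∈ IA A, cnt N a (fun m => if Rough ((N : ℝ) ^ e0) m ∧ Win N x e m then 1 else 0)
      ≤ C * (e / e0 ^ 2) * A * N / Real.log N

/-- WINM: the same for the model (BT for the larger factor, RSUM for the smaller). -/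
def SpecWINM : Prop := ∃ C : ℝ, 0 < C ∧ ∀ e0 e : ℝ, 0 < e0 → e0 ≤ 1 / 10 → 0 < e → e ≤ 1 / 10 →
  ∃ N₀ : ℕ, ∀ N : ℕ, N₀ ≤ N → ∀ x : ℝ, 1 / 2 ≤ x → x ≤ 3 / 2 →
    model N (fun m => if Rough ((N : ℝ) ^ e0) m ∧ Win N x e m then 1 else 0)
      ≤ C * (e / e0 ^ 2) * N / Real.log N

/-- NSFM: trivial. -/
def SpecNSFM : Prop := ∀ e0 κ : ℝ, 0 < e0 → 0 < κ → ∃ N₀ : ℕ, ∀ N : ℕ, N₀ ≤ N →
  model N (fun m => if NSq ((N : ℝ) ^ e0) m then 1 else 0) ≤ κ * N / Real.log N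

/-- EDGE (from BT): for each `n` the values `n² + a`, `|a| ≤ A`, lie in an interval of length `2A`. -/
def SpecEDGE : Prop := ∃ C : ℝ, 0 < C ∧ ∀ (z : ℝ) (A n : ℕ), 2 ≤ z → z ^ 4 ≤ A →
  ∑ a ∈ IA A, rInd z (val a n) ≤ C * A / Real.log z

/-! ## Group K: the fans -/

/-- DLS, the double large sieve of Bombieri and Iwaniec. -/
def SpecDLS : Prop := ∃ C : ℝ, 0 < C ∧ ∀ (S T : Finset ℕ) (x y : ℕ → ℝ) (b c : ℕ → ℂ) (X Y : ℝ),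
  0 < X → 0 < Y → (∀ i ∈ S, |x i| ≤ X) → (∀ j ∈ T, |y j| ≤ Y) → (∀ i, ‖b i‖ ≤ 1) → (∀ j, ‖c j‖ ≤ 1) →
  ‖∑ i ∈ S, ∑ j ∈ T, b i * c j * Complex.exp (2 * Real.pi * Complex.I * ((x i * y j : ℝ) : ℂ))‖ ^ 2
    ≤ C * (1 + X * Y) * (((S ×ˢ S).filter (fun t => |x t.1 - x t.2| ≤ 1 / Y)).card : ℝ)
      * (((T ×ˢ T).filter (fun t => |y t.1 - y t.2| ≤ 1 / X)).card : ℝ)

/-- BIL (from DLS; the sum over `h` is inside the large sieve, idea of helper36). `(√v-√u)² = u + v - 2√u√v`.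
Fix the class `c` of `u, v` modulo `4d` and the class `h₀` of `h` modulo `q = 2Dd`: with `u = c + 4d u₁` the factor
`e(hu/(8Dd²)) = e(hc/(8Dd²)) e(h₀u₁/(2Dd))`, so the coefficient of `u` does not depend on `h`; the second variable is the
pair `(h,v)`, `y = h√v/(4Dd²)` (index the pairs by a finset of naturals, e.g. `Nat.pair`). `X = √(2L)`, `Y = C H√L/(Dd²)`.
`B₁ ≤ C (L/d)(1 + Dd/H)`.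
`B₂ = #{(h,v),(h',v') : |h²v - h'²v'| ≤ R = C Dd²H}`: `h = h'`: `≤ (H/q+1)(L/d)(1+CDd/H)`. `h ≠ h'`: `g = gcd(h,h')`, `h = gα`,
`h' = gα'`, `v = c+4dx`, `v' = c+4dx'`: `α²x - α'²x'` takes at most `R/(2dg²) + 1` values, for each of them `x` lies in a class modulo
`α'²`: at most `L/(4dα'²) + 1` values; `α ≠ α'` lie in one class modulo `q_g = q/gcd(g,q)`, so `H/g ≥ q_g` and there are `≤ 4(H/(g q_g))²`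
pairs. `∑_g gcd(g,q)²/g² ≤ 2τ(q)`, and `∑_{g ≤ H gcd(g,q)/q} gcd(g,q)² ≤ C Hq`. So `B₂ ≤ C D (HL)^e (HL/d² + H³/d + L/H)`, the
middle term only if `H ≥ d`. The number of classes is `≤ min(q, H+1)·4d`.  For `H ≥ d` the total is
`≤ C D³ (HL)^e L (H√(L/d) + H²)`, for `H < d` it is `≤ C D³ (HL)^e L √(HL)`. -/
def SpecBIL : Prop := ∀ e : ℝ, 0 < e → ∃ C : ℝ, 0 < C ∧
  ∀ (L : ℝ) (d D H : ℕ) (S T : Finset ℕ) (b c w : ℕ → ℂ),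
  1 ≤ L → 1 ≤ d → 1 ≤ D → 1 ≤ H → (4 * d : ℝ) ≤ √L →
  (∀ u ∈ S, L ≤ (u : ℝ) ∧ (u : ℝ) ≤ 2 * L) → (∀ v ∈ T, L ≤ (v : ℝ) ∧ (v : ℝ) ≤ 2 * L) →
  (∀ u, ‖b u‖ ≤ 1) → (∀ v, ‖c v‖ ≤ 1) → (∀ h, ‖w h‖ ≤ 1) →
  ‖∑ h ∈ Ioc H (2 * H), ∑ u ∈ S, ∑ v ∈ T.filter (fun v => v % (4 * d) = u % (4 * d)),
      w h * b u * c v * Complex.exp (2 * Real.pi * Complex.I *
        (((h : ℝ) * (√(v : ℝ) - √(u : ℝ)) ^ 2 / (8 * D * (d : ℝ) ^ 2) : ℝ) : ℂ))‖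
    ≤ C * (D : ℝ) ^ 3 * (H * L) ^ e * L * (√(H * L) + H * √(L / d) + (H : ℝ) ^ 2)

/-- POI: Poisson summation for `gB` on the odd multiples of `D`, with the tail
(`|gh ξ| ≤ C_j |ξ|^(-j-2)`). -/
def SpecPOI : Prop := ∀ j : ℕ, ∃ C : ℝ, 0 < C ∧ ∀ (lam t : ℝ) (D H : ℕ), 0 < lam → 1 ≤ D → 1 ≤ H →
  |(∑' i : ℤ, gB (lam * (D * (2 * i + 1) - t)))
      - 1 / (2 * D * lam) * (gI + 2 * ∑ h ∈ Icc 1 H,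
        gh (h / (2 * D * lam)) * (-1) ^ h * Real.cos (Real.pi * h * t / D))|
    ≤ C * (2 * D * lam) ^ (j + 1) / (H : ℝ) ^ (j + 1)

/-- COUNT. With `s = (v-u)/(4d)`, `w = (u+v)/2 - kd² > 0`, `a = kw - s²`: `s ≤ 3√(KL)`, and
`kw = s² + a` leaves `O((KL)^e)` choices of `(k,w)`; `(s,a,k)` determines `(u,v,k)`. -/
def SpecCOUNT : Prop := ∀ e : ℝ, 0 < e → ∃ C : ℝ, 0 < C ∧ ∀ (K L A : ℝ) (d : ℕ), 1 ≤ K → K ≤ L →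
  1 ≤ A → A ≤ K * L / 100 → 1 ≤ d → (d : ℝ) ≤ √(L / K) / 4 →
  ((((Icc 1 ⌊4 * K⌋₊) ×ˢ (prs L d)).filter (fun t => Odd t.2.1 ∧ Odd t.2.2 ∧
    |aq d t.1 t.2.1 t.2.2| ≤ 4 * A)).card : ℝ) ≤ C * (K * L) ^ e * A * √(K * L)

/-- KER (from BIL, POI, COUNT), for `√(L/K)(KL)^(-σ) ≤ d ≤ √(L/K)/4`.
(i) `aq = -d²(k-k₀)(k-k₁)`, `k₁ = (√v+√u)²/(4d²) ≥ 16K`; if `|aq| ≤ 2A` and `k ≤ 5K/2` then `|k-k₀| ≤ 3A/L` and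
`aq = √(uv)(k-k₀) + O(d²A²/L²)`, `d²A²/L² ≤ A (KL)^(-1/4)`.  (ii) Cut `(L,5L/4]` into boxes of relative size
`(KL)^(-σ₁)`; on a pair of boxes replace `kB(k/K)` by `kB(k₀/K)` at the centres and `gB(aq/A)` by
`gB(λ(k-k₀(u,v)))`, `λ = √(u_i v_j)/A`: costs `(KL)^(-σ₁+2σ)·COUNT`.  (iii) POI for the sum over the odd multiples `k` of
`D`; the frequencies `h ≤ H = D(L/A)(KL)^σ₂ + 1`; dyadic blocks of `h` and BIL (coefficients `w h = (-1)^h gh(h/(2Dλ))/sup`; if the box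
of `v` is to the right of the box of `u` the condition `u < v` is automatic, if the boxes are equal or adjacent the factor
`kB(k₀/K)` vanishes):
`(A/(DL)) L (√(HL)+H√(L/d)+H²) ≤ (KL)^small (L√A + L√(L/d) + L²/A + A√L)`, all `≤ A√(KL)(KL)^(-τ/4)`
(`L√A = √(L/K)√A√(KL)`; `L√(L/d) ≤ √(KL) √(L√(L/K)) (KL)^σ`; `L²/A = √(KL) L√(L/K)/A`; `K ≥ (KL)^(1/8)`).
(iv) In the main term go back from the centres to `(u,v)` (trivially, there are `≤ C L√(KL)` pairs with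
`kB(k₀/K) ≠ 0`). -/
def SpecKER : Prop := ∀ τ : ℝ, 0 < τ → ∃ σ : ℝ, 0 < σ ∧ σ < τ ∧ ∃ X₀ : ℝ,
  ∀ (K L A : ℝ) (d D : ℕ) (b : ℕ → ℝ), X₀ ≤ K * L → 1 ≤ K → K ≤ L → 1 ≤ A →
  A ≤ (K * L) ^ (3 / 4 : ℝ) → L * √(L / K) ≤ A ^ 2 * (K * L) ^ (-τ) →
  √(L / K) ≤ √A * (K * L) ^ (-τ) → Odd D → (D : ℝ) ≤ (K * L) ^ σ →
  √(L / K) * (K * L) ^ (-σ) ≤ d → (d : ℝ) ≤ √(L / K) / 4 → 1 ≤ d →
  (∀ u, |b u| ≤ 1) → (∀ u, b u ≠ 0 → Odd u) →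
  |Sd K L A d D b - A * gI / (2 * D) * Wd K L d b| ≤ A * √(K * L) * (K * L) ^ (-σ)

/-- SEC (from KER, COUNT): expansion of the squares of the fans. For `n < n'` in one class modulo `k`
(`k` odd, `u = (n²+a)/k`, `v = (n'²+a)/k` odd): `n' - n = 2kd`, `4d ∣ v-u`, `s = (n+n')/2 = (v-u)/(4d)`,
`a = aq d k u v`, `d ≤ √(L/K)/4`; conversely `n = s - kd`, `n' = s + kd` are positive when `|aq| ≤ 2A`.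
Expand `Th lam k`. `d ≥ √(L/K)(KL)^(-σ)`: KER; smaller `d`: COUNT, and trivially for `Wd`
(there are `≤ CL√(KL)` pairs with `kB(k₀/K) ≠ 0`). Diagonal `n = n'`: `≤ (KL)^small A√(KL)`. -/
def SpecSEC : Prop := ∀ τ : ℝ, 0 < τ → ∃ σ : ℝ, 0 < σ ∧ ∃ X₀ : ℝ,
  ∀ (K L A y : ℝ) (b lam : ℕ → ℝ) (X : ℕ), X₀ ≤ K * L → 1 ≤ K → K ≤ L → 1 ≤ A →
  A ≤ (K * L) ^ (3 / 4 : ℝ) → L * √(L / K) ≤ A ^ 2 * (K * L) ^ (-τ) →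
  √(L / K) ≤ √A * (K * L) ^ (-τ) → (K * L) ^ τ ≤ √(L / K) → 2 * √(K * L) ≤ X →
  1 ≤ y → y ≤ (K * L) ^ σ → (∀ d, |lam d| ≤ 1) →
  (∀ d, lam d ≠ 0 → 1 ≤ d ∧ (d : ℝ) ≤ y ∧ Odd d) →
  (∀ u, |b u| ≤ 1) → (∀ u, b u ≠ 0 → Odd u ∧ L < (u : ℝ) ∧ (u : ℝ) ≤ 5 / 4 * L) →
  |Q2 X K A lam b - A * gI * QF y lam * Wsum K L b| ≤ A * L * (K * L) ^ (-σ)

/-- TWO (from SEC, FIRST, SELB with `m = 2`): Cauchy-Schwarz over `(a, k, ν)`. -/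
def SpecTWO : Prop := ∀ θ e e0 B : ℝ, 5 / 6 < θ → 0 < e → 0 < e0 → 0 < B → ∃ C : ℝ, 0 < C ∧
  ∀ κ : ℝ, 0 < κ → ∃ N₀ : ℕ, ∀ N A : ℕ, N₀ ≤ N → Adm θ N A → ∀ K L : ℝ,
  (N : ℝ) ^ (2 / 3 : ℝ) ≤ K → K ≤ (N : ℝ) ^ (1 - e) → (N : ℝ) ^ 2 / 2 ≤ K * L → K * L ≤ 5 * (N : ℝ) ^ 2 →
  ∀ α b : ℕ → ℝ, (∀ k, |α k| ≤ B * rInd ((N : ℝ) ^ e0) k) →
  (∀ k, α k ≠ 0 → K < (k : ℝ) ∧ (k : ℝ) ≤ 5 / 4 * K) →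
  (∀ u, |b u| ≤ B) → (∀ u, b u ≠ 0 → Odd u ∧ L < (u : ℝ) ∧ (u : ℝ) ≤ 5 / 4 * L) →
  (∑ a ∈ IA A, |bil (8 * N) a α b|) ^ 2
    ≤ C * ((A : ℝ) ^ 2 * K / (Real.log N) ^ 2) * (|Wsum K L b| + κ * L / (Real.log N) ^ 2)

/-! ## Group L: the Barban-Davenport-Halberstam theorem -/

/-- LS: the multiplicative large sieve (from `H71.large_sieve` and Gauss sums of primitive characters). -/
def SpecLS : Prop := ∃ C : ℝ, 0 < C ∧ ∀ (R X : ℕ) (b : ℕ → ℝ), 1 ≤ R → 1 ≤ X →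
  ∑ r ∈ range R, ((r : ℝ) + 1) / ((r + 1).totient : ℝ) * csum r b X
    ≤ C * ((X : ℝ) + (R : ℝ) ^ 2) * ∑ u ∈ Icc 1 X, (b u) ^ 2

/-- LR: large sieve for coefficients on rough numbers (duality, SELB with `m = 1`; for different primitive
characters `ψ, ψ'` the product `ψ ψ'⁻` is nonprincipal modulo the product of the moduli, so its sum over an
interval is at most `R²` in absolute value). -/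
def SpecLR : Prop := ∃ C : ℝ, 0 < C ∧ ∀ (R X : ℕ) (y z : ℝ) (b : ℕ → ℝ), 1 ≤ R → 1 ≤ X → 2 ≤ y → y < z →
  (∀ u, b u ≠ 0 → Rough z u) →
  ∑ r ∈ range R, csum r b X
    ≤ C * ((X : ℝ) / Real.log y + (R : ℝ) ^ 4 * y ^ 2) * ∑ u ∈ Icc 1 X, (b u) ^ 2

/-- EQ (from CHI, RSUM): fix all prime factors but one. -/
def SpecEQ : Prop := ∀ (e0 κ : ℝ) (Q R : ℕ) (c : Multiset ℕ), 0 < e0 → 1 ≤ Q → 0 < κ → c ≠ 0 →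
  (∀ i ∈ c, Q ≤ i) → ∃ N₀ : ℕ, ∀ N : ℕ, N₀ ≤ N → ∀ r : ℕ, r < R →
  ∀ ψ : DirichletCharacter ℂ (r + 1), ψ ≠ 1 → ∀ x₁ x₂ : ℝ, (N : ℝ) ≤ x₂ → x₂ ≤ (N : ℝ) ^ 3 →
    ‖∑ l ∈ Icc 1 ⌊x₂⌋₊, (cut x₁ x₂ (fun m => FF N (e0 / Q) c m) l : ℂ) * ψ (l : ZMod (r + 1))‖
      ≤ κ * x₂ / Real.log N

/-- BDH (from LS, LR, BT). Orthogonality of the characters modulo `4d`, reduction to primitive characters `ψ` modulo `r ∣ 4d`,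
`r > 1` (the `u` with `(u,4d) > 1` are negligible: they are divisible by a prime `≥ L^e0`);
`∑_{D₀<d≤2D₀, r∣4d} 1/φ(4d) ≤ C/φ(r)`. So the sum is `≤ C ∑_{1<r≤8D₀} φ(r)⁻¹ ∑_ψ |∑ b ψ|²` + negligible.
`r ≤ R`: hypothesis. `R < r ≤ L^c`: LR on dyadic blocks (`φ(r) ≥ c r/log log r` or `φ(r) ≥ c r^(9/10)`).
`r > L^c`: LS on dyadic blocks. -/
def SpecBDH : Prop := ∀ B e0 ϖ : ℝ, 0 < B → 0 < e0 → 0 < ϖ → ∃ R : ℕ, ∃ κ : ℝ, 0 < κ ∧ ∃ L₀ : ℝ,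
  ∀ (L : ℝ) (b : ℕ → ℝ), L₀ ≤ L → (∀ u, |b u| ≤ B * rInd (L ^ e0) u) →
  (∀ u, b u ≠ 0 → L < (u : ℝ) ∧ (u : ℝ) ≤ 2 * L) →
  (∀ r : ℕ, r < R → ∀ ψ : DirichletCharacter ℂ (r + 1), ψ ≠ 1 →
    ‖∑ u ∈ Icc 1 ⌊2 * L⌋₊, (b u : ℂ) * ψ (u : ZMod (r + 1))‖ ≤ κ * L / Real.log L) →
  ∀ D₀ : ℕ, 1 ≤ D₀ → (D₀ : ℝ) ≤ L ^ (1 / 3 : ℝ) →
    ∑ d ∈ Ioc D₀ (2 * D₀), ∑ c ∈ (range (4 * d)).filter (fun c => Nat.Coprime c (4 * d)),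
      ((∑ u ∈ (Icc 1 ⌊2 * L⌋₊).filter (fun u => u % (4 * d) = c), b u)
        - (∑ u ∈ Icc 1 ⌊2 * L⌋₊, b u) / ((4 * d).totient : ℝ)) ^ 2
      ≤ ϖ * L ^ 2 / (Real.log L) ^ 2

/-- BDHP (from BDH, BT): the dispersion of `b - b^♯` on an interval `(x, x+hL]`. The model
`b^♯ = (∑b/(hL)) V_w 1_{(u,P_w)=1}` has in the class `c` mod `4d`, `(c,4d)=1`, the sum
`(∑b) (1/4d) ∏_{p≤w,p∣4d}(1-1/p)⁻¹ + O_w(1)`, which differs from `∑b/φ(4d)` by a factor `1+O(∑_{p∣d,p>w} 1/p)`;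
for `(c,4d) > 1` the sum of `b` is negligible and the sum of `b^♯` is nonzero only if some `p > w` divides
`(c,d)`. Use `∑_{d~D₀} φ(4d)⁻¹ ∑_{p∣d,p>w} 1/p ≤ C/w` and `|∑b| ≤ CB hL/(e0 log L)` (BT). -/
def SpecBDHP : Prop := ∃ C₁ : ℝ, 0 < C₁ ∧ ∀ (B e0 : ℝ) (w : ℕ) (ϖ h : ℝ), 0 < B → 0 < e0 → e0 ≤ 1 / 10 →
  2 ≤ w → 0 < ϖ → 0 < h → h ≤ 1 → ∃ R : ℕ, ∃ κ : ℝ, 0 < κ ∧ ∃ L₀ : ℝ,
  ∀ (L x : ℝ) (b : ℕ → ℝ), L₀ ≤ L → L ≤ x → x + h * L ≤ 2 * L → (∀ u, |b u| ≤ B * rInd (L ^ e0) u) →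
  (∀ u, b u ≠ 0 → u ∈ Ioc ⌊x⌋₊ ⌊x + h * L⌋₊) →
  (∀ r : ℕ, r < R → ∀ ψ : DirichletCharacter ℂ (r + 1), ψ ≠ 1 →
    ‖∑ u ∈ Icc 1 ⌊2 * L⌋₊, (b u : ℂ) * ψ (u : ZMod (r + 1))‖ ≤ κ * L / Real.log L) →
  ∀ D₀ : ℕ, 1 ≤ D₀ → (D₀ : ℝ) ≤ L ^ (1 / 3 : ℝ) →
    Vd (Ioc ⌊x⌋₊ ⌊x + h * L⌋₊) (fun u => b u
        - (∑ u ∈ Ioc ⌊x⌋₊ ⌊x + h * L⌋₊, b u) / (h * L) * Vw w * rInd ((w : ℝ) + 1) u) D₀
      ≤ ϖ * L ^ 2 / (Real.log L) ^ 2 + C₁ * B ^ 2 / (e0 ^ 2 * w) * (h * L) ^ 2 / (Real.log L) ^ 2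

/-- WB: the bound for `Wsum`. `kB(k₀/K) ≠ 0` forces `v - u ≍ d√(KL)`. `d ≤ ϖ₁√(L/K)`: absolute values and the
hypothesis on `s` (twice): `≤ C B² ϖ₁ L/log²`. `d > ϖ₁√(L/K)`: on `pc_i × pc_j` replace the kernel
`kB(k₀/K)/√(uv)` by its value at the endpoints, error `≤ C/(Jϖ₁)` times the absolute sum; then group by the
classes modulo `4d`, Cauchy-Schwarz, and the hypothesis on `Vd` for the dyadic blocks of `d`. -/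
def SpecWB : Prop := ∀ B ϖ e : ℝ, 0 < B → 0 < ϖ → 0 < e → ∃ ϖ₃ : ℝ, 0 < ϖ₃ ∧ ∃ J₀ : ℕ, 1 ≤ J₀ ∧
  ∀ J : ℕ, J₀ ≤ J → ∃ N₀ : ℕ, ∀ (N : ℕ) (K L η : ℝ) (b s : ℕ → ℝ), N₀ ≤ N → 0 < η → η ≤ 1 / 4 →
  1 ≤ K → K ≤ L → (N : ℝ) ^ 2 / 2 ≤ K * L → K * L ≤ 5 * (N : ℝ) ^ 2 → (N : ℝ) ^ e ≤ √(L / K) →
  √(L / K) ≤ (N : ℝ) ^ (2 / 5 : ℝ) → (∀ u, |b u| ≤ s u) →
  (∀ u, b u ≠ 0 → L < (u : ℝ) ∧ (u : ℝ) ≤ (1 + η) * L) →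
  (∀ d c x H : ℕ, 1 ≤ d → (d : ℝ) ≤ (N : ℝ) ^ (2 / 5 : ℝ) → d * √(N : ℝ) ≤ H →
    ∑ u ∈ (Ioc x (x + H)).filter (fun u => u % (4 * d) = c), s u
      ≤ B * H / ((d.totient : ℝ) * Real.log N)) →
  (∀ i : ℕ, i < J → ∀ D₀ : ℕ, 1 ≤ D₀ → (D₀ : ℝ) ≤ √(L / K) →
    Vd (pc L η J i) b D₀ ≤ ϖ₃ / (J : ℝ) ^ 2 * L ^ 2 / (Real.log N) ^ 2) →
  |Wsum K L b| ≤ ϖ * L / (Real.log N) ^ 2

/-! ## Group M: main terms and assembly of Type II -/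

/-- SHM: `(√x' - √x)/(x'-x)` is within a relative error `η/J` of `1/(2√l)` for `l` in the piece. -/
def SpecSHM : Prop := ∃ C : ℝ, 0 < C ∧ ∀ (L η : ℝ) (J : ℕ) (β : ℕ → ℝ), 1 ≤ L → 0 < η → η ≤ 1 / 4 →
  1 ≤ J → (∀ l, 0 ≤ β l) →
  |(∑ i ∈ range J, Dav L η J β i * (√(L * (1 + η * (i + 1) / J)) - √(L * (1 + η * i / J))))
      - ∑ l ∈ Ioc ⌊L⌋₊ ⌊(1 + η) * L⌋₊, β l / (2 * √(l : ℝ))|
    ≤ C / J * (∑ l ∈ Ioc ⌊L⌋₊ ⌊(1 + η) * L⌋₊, β l) / √L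

/-- MTA: main term for `α * β^♯`. For rough `k` (odd, coprime to all `p ≤ w`) the number of `n ≥ 1` with
`k ∣ n²+a`, `x < (n²+a)/k ≤ x'`, `((n²+a)/k, P_w) = 1` is
`ρ_a(k) ∏_{p≤w}(1-ρ_a(p)/p) (√(kx')-√(kx))/k + O_w(ρ_a(k)(1+A/N))` (classes modulo `k P_w`). Sum over `a` with RAV. -/
def SpecMTA : Prop := ∀ (θ e e0 B κ η : ℝ) (w J : ℕ), 5 / 6 < θ → 0 < e → 0 < e0 → 0 < B → 0 < κ →
  0 < η → η ≤ 1 / 4 → 2 ≤ w → 1 ≤ J → ∃ N₀ : ℕ, ∀ N A : ℕ, N₀ ≤ N → Adm θ N A → ∀ K L : ℝ,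
  (N : ℝ) ^ (1 / 2 : ℝ) ≤ K → K ≤ (N : ℝ) ^ (1 - e) → (N : ℝ) ^ 2 / 2 ≤ K * L →
  K * L ≤ 5 * (N : ℝ) ^ 2 → ∀ α β : ℕ → ℝ, (∀ k, |α k| ≤ B * rInd ((N : ℝ) ^ e0) k) →
  (∀ k, α k ≠ 0 → K < (k : ℝ) ∧ (k : ℝ) ≤ 5 / 4 * K) → (∀ l, |β l| ≤ B) →
  ∑ a ∈ IA A, |bil (8 * N) a α (sharp w L η J β)
      - Gw w a * ∑ i ∈ range J, Dav L η J β i * ∑ k ∈ Ioc ⌊K⌋₊ ⌊5 / 4 * K⌋₊, α k * ((rho a k : ℝ) / k)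
        * (√(k * (L * (1 + η * (i + 1) / J))) - √(k * (L * (1 + η * i / J))))|
    ≤ κ * A * N / (Real.log N) ^ 2

/-- NearA: no nonempty subtype of `c` has its size interval within `e` of `log A/log N` -/
def NearA (N A : ℕ) (e2 e : ℝ) (c : Multiset ℕ) : Prop :=
  ∀ s : Multiset ℕ, s ≤ c → s ≠ 0 → (Real.logb N A + e < e2 * (s.sum : ℝ)) ∨
    (e2 * ((s.sum : ℝ) + (Multiset.card s : ℝ)) < Real.logb N A - e)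

/-- FFB: `0 ≤ FF ≤ (card c)!`; support. -/
def SpecFFB : Prop := ∀ (N : ℕ) (e : ℝ) (c : Multiset ℕ) (m : ℕ), 2 ≤ N → 0 < e →
  0 ≤ FF N e c m ∧ FF N e c m ≤ (Multiset.card c).factorial ∧
  (FF N e c m ≠ 0 → 1 ≤ m ∧ (N : ℝ) ^ (e * (c.sum : ℝ)) ≤ m ∧
    (m : ℝ) ≤ (N : ℝ) ^ (e * ((c.sum : ℝ) + (Multiset.card c : ℝ))) ∧
    (m.primeFactorsList.length = Multiset.card c) ∧
    ∀ q : ℕ, (∀ i ∈ c, q ≤ i) → Rough ((N : ℝ) ^ (e * q)) m)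

/-- MTB (from SML, LRG, RAV, RSUM, FFB, RHOD). Nonsquarefree `k` are negligible (RAV). For squarefree `k`:
`ρ_a(k) - 1 = ∑_{e∣k,e>1} χ_a(e)`; for each nonempty subtype `s ≤ c` (`e` of type `s`, `g = k/e` of type `c - s`):
coefficients `c_e`, `|c_e| ≤ C√K/e`, supported on sizes far from `A`: dyadic blocks, SML below `A N^(-e)`,
LRG above `A N^e`.  (`FF N e2 c` is `∑ FF N e2 s * FF N e2 (c-s)` over subtypes up to combinatorial factors; or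
work with lists.) -/
def SpecMTB : Prop := ∀ (θ e e0 κ η : ℝ) (Q : ℕ) (c : Multiset ℕ), 5 / 6 < θ → 0 < e → 0 < e0 →
  e0 ≤ 1 / 10 → 0 < κ → 0 < η → η ≤ 1 / 4 → 1 ≤ Q → (∀ i ∈ c, Q ≤ i) → ∃ N₀ : ℕ, ∀ N A : ℕ, N₀ ≤ N →
  Adm θ N A → NearA N A (e0 / Q) e c → ∀ K : ℝ, (N : ℝ) ^ (1 / 2 : ℝ) ≤ K → K ≤ (N : ℝ) ^ (1 - e) →
    ∑ a ∈ IA A, |∑ k ∈ Ioc ⌊K⌋₊ ⌊(1 + η) * K⌋₊, FF N (e0 / Q) c k * ((rho a k : ℝ) - 1) / √(k : ℝ)|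
      ≤ κ * A * √K / (Real.log N) ^ 2

/-- BLK2 (from TWO, WB, BDHP, EQ, MTA, MTB, SHM, BT, FFB, GMAX, GMEAN): one block. With
`α = cut K ((1+η)K) FF(c₁)`, `β = cut L ((1+η)L) FF(c₂)`, `β' = β - sharp`: choose `J` (WB, SHM), then `w₀` (the `1/w` term of
BDHP against `ϖ₃`), then `R`, `κ` (BDHP, EQ), then `N₀`.  `s = C(rInd z + V_w rInd(w+1)/log N)` for WB. -/
def SpecBLK2 : Prop := ∀ (θ e e0 η ϖ : ℝ) (Q : ℕ) (c₁ c₂ : Multiset ℕ), 5 / 6 < θ → 0 < e → 0 < e0 →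
  e0 ≤ 1 / 10 → 0 < η → η ≤ 1 / 4 → 0 < ϖ → 1 ≤ Q → (∀ i ∈ c₁, Q ≤ i) → (∀ i ∈ c₂, Q ≤ i) → c₂ ≠ 0 →
  ∃ w₀ : ℕ, ∀ w : ℕ, w₀ ≤ w → ∃ N₀ : ℕ, ∀ N A : ℕ, N₀ ≤ N → Adm θ N A → NearA N A (e0 / Q) e c₁ →
  ∀ K L : ℝ, (N : ℝ) ^ (2 / 3 : ℝ) ≤ K → K ≤ (N : ℝ) ^ (1 - e) → (N : ℝ) ^ 2 / 2 ≤ K * L →
  K * L ≤ 5 * (N : ℝ) ^ 2 →
  ∑ a ∈ IA A, |bil (8 * N) a (cut K ((1 + η) * K) (fun m => FF N (e0 / Q) c₁ m))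
        (cut L ((1 + η) * L) (fun m => FF N (e0 / Q) c₂ m))
      - Gw w a * ∑ k ∈ Ioc ⌊K⌋₊ ⌊(1 + η) * K⌋₊, ∑ l ∈ Ioc ⌊L⌋₊ ⌊(1 + η) * L⌋₊,
          FF N (e0 / Q) c₁ k * FF N (e0 / Q) c₂ l / (2 * √((k : ℝ) * l))|
    ≤ ϖ * A * N / (Real.log N) ^ 2

/-- TII (from BLK2, EDGE, BT, FFB, GMEAN): sum over the blocks `K_i = N^(x₁)(1+η)^i`, `L_j = (1+η)^j`. Interior blocks:
`N² + A < K_i L_j`, `(1+η)² K_i L_j + A ≤ 4N²` (then `n ∈ (N,2N]` is automatic); `O(log N/η²)` of them. The others: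
`n ≤ (1+3η)N` or `n ≥ (1-3η)2N` and `n²+a` rough (EDGE); in the model `m` near `N²` or `4N²` (BT). -/
def SpecTII : Prop := ∀ (θ e e0 ϖ : ℝ) (Q : ℕ) (c₁ c₂ : Multiset ℕ), 5 / 6 < θ → 0 < e → 0 < e0 →
  e0 ≤ 1 / 10 → 0 < ϖ → 1 ≤ Q → (∀ i ∈ c₁, Q ≤ i) → (∀ i ∈ c₂, Q ≤ i) → Mid (e0 / Q) e c₁ →
  ∃ w₀ : ℕ, ∀ w : ℕ, w₀ ≤ w → ∃ N₀ : ℕ, ∀ N A : ℕ, N₀ ≤ N → Adm θ N A → NearA N A (e0 / Q) e c₁ →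
  ∑ a ∈ IA A, |cnt N a (fun m => FF N (e0 / Q) (c₁ + c₂) m)
      - Gw w a * model N (fun m => FF N (e0 / Q) (c₁ + c₂) m)| ≤ ϖ * A * N / Real.log N

/-! ## Group I: Type I -/

/-- FLA (from FL, RHOC, RHOM, RHOS). -/
def SpecFLA : Prop := ∃ C : ℝ, 0 < C ∧ ∀ (b : ℕ) (e0 : ℝ), 0 < e0 → e0 * (8 * b + 16) ≤ 1 / 5 →
  ∃ N₀ : ℕ, ∀ N : ℕ, N₀ ≤ N → ∀ (a : ℤ) (k : ℕ), Squarefree k → Rough ((N : ℝ) ^ e0) k →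
  (k : ℝ) ≤ (N : ℝ) ^ (2 / 3 : ℝ) →
    |(∑ n ∈ Ioc N (2 * N), if k ∣ val a n then rInd ((N : ℝ) ^ e0) (val a n) else 0)
        - N * ((rho a k : ℝ) / k) * Wa ((N : ℝ) ^ e0) a|
      ≤ C * Real.exp (-(b : ℝ)) * N * ((rho a k : ℝ) / k) * Wa ((N : ℝ) ^ e0) a
        + (N : ℝ) ^ (1 / 4 : ℝ)

/-- FLB (from FL): the same for the model. -/
def SpecFLB : Prop := ∃ C : ℝ, 0 < C ∧ ∀ (b : ℕ) (e0 : ℝ), 0 < e0 → e0 * (8 * b + 16) ≤ 1 / 5 →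
  ∃ N₀ : ℕ, ∀ N : ℕ, N₀ ≤ N → ∀ k : ℕ, Squarefree k → Rough ((N : ℝ) ^ e0) k →
  (k : ℝ) ≤ (N : ℝ) ^ (2 / 3 : ℝ) →
    |(model N (fun m => if k ∣ m then rInd ((N : ℝ) ^ e0) m else 0))
        - N / (k : ℝ) * Wp ((N : ℝ) ^ e0)|
      ≤ C * Real.exp (-(b : ℝ)) * (N / (k : ℝ)) * Wp ((N : ℝ) ^ e0) + 1

/-- TI (from FLA, FLB, PROD, MOB, RHOMEAN, GMEAN, GMAX, WMER, RSUM): Type I. `b = ⌊1/(100 e0)⌋` or so. -/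
def SpecTI : Prop := ∀ θ ε : ℝ, 5 / 6 < θ → 0 < ε → ∃ e1 : ℝ, 0 < e1 ∧ ∀ e0 : ℝ, 0 < e0 → e0 ≤ e1 →
  ∃ w₀ : ℕ, ∀ w : ℕ, w₀ ≤ w → ∃ N₀ : ℕ, ∀ N A : ℕ, N₀ ≤ N → Adm θ N A →
    (((IA A).filter (fun a => ε * N / Real.log N <
      |cnt N a (psiM N e0) - Gw w a * model N (psiM N e0)|)).card : ℝ) ≤ ε * A

/-! ## Group T: the combinatorial identity -/

/-- T1: if `m` has no divisor in `(Y, m/Y]` then the divisors `≤ Y` are those of `k₀ = ∏_{p∣m,p≤Y} p ≤ Y`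
(products of two divisors `≤ Y` are `≤ Y² ≤ m/Y`, hence `≤ Y`), and `m/k₀` is a prime `> m/Y`. -/
def SpecT1 : Prop := ∀ (m : ℕ) (Y : ℝ), Squarefree m → 2 ≤ m → 1 ≤ Y → Y ^ 3 ≤ m →
  (∀ k : ℕ, k ∣ m → Y < (k : ℝ) → (m : ℝ) / Y < k) →
  ∑ k ∈ m.divisors.filter (fun k : ℕ => (k : ℝ) ≤ Y), (ArithmeticFunction.moebius k : ℝ) = primeInd m

/-- T2 (from T1, FFB): `T(m) = 1_P(m) - ψ(m)` is constant on good cubes.  For a type `c` (multiset of indices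
`Q ≤ i ≤ 3Q/e0`, at most `3/e0` of them) put `T_c = 1_{|c|=1} - ∑_{S ⊆ c, (e0/Q)ΣS < 2/3} (-1)^{|S|}` (subsets with
multiplicity) and `t c = T_c/∏_i (count i c)!` if `c` has a subtype `c₁` with `Mid (e0/Q) e c₁`, else `0`. `Q` is
so large that `(3/e0)(e0/Q) ≤ e/2`. For squarefree rough `m` of good type `c`: `FF c m = ∏ (count)!`, and if `T(m) ≠ 0` then by
T1 `m` has a divisor in `(Y,m/Y]`; it or its complement is of a type `c₁` as in `Mid`. For a bad type `m` has a divisor in a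
window. `C` depends only on `e0`. -/
def SpecT2 : Prop := ∀ e0 : ℝ, 0 < e0 → e0 ≤ 1 / 10 → ∃ C : ℝ, 0 < C ∧ ∀ e : ℝ, 0 < e → e ≤ 1 / 40 →
  ∃ Q : ℕ, 1 ≤ Q ∧ ∃ (T : Finset (Multiset ℕ)) (t : Multiset ℕ → ℝ), (∀ c ∈ T, ∀ i ∈ c, Q ≤ i) ∧
  (∀ c ∈ T, |t c| ≤ C) ∧ ∃ N₀ : ℕ, ∀ N : ℕ, N₀ ≤ N → ∀ α : ℝ, 3 / 4 ≤ α → α ≤ 5 / 4 →
  (∀ m : ℕ, (N : ℝ) ^ 2 / 2 ≤ m → (m : ℝ) ≤ 5 * (N : ℝ) ^ 2 →
    |primeInd m - psiM N e0 m - ∑ c ∈ T.filter (fun c => Good (e0 / Q) e α c), t c * FF N (e0 / Q) c m|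
      ≤ C * ((if Rough ((N : ℝ) ^ e0) m ∧ NSq ((N : ℝ) ^ e0) m then 1 else 0)
        + ∑ x ∈ crit α, if Rough ((N : ℝ) ^ e0) m ∧ Win N x (2 * e) m then 1 else 0)) ∧
  (∀ c ∈ T, Good (e0 / Q) e α c → t c ≠ 0 → ∃ c₁ : Multiset ℕ, c₁ ≤ c ∧ Mid (e0 / Q) e c₁)

/-! ## Group H: the constant -/

/-- EUL: for `-a` not a square, `∑ χ(n)/n` and `∏ (1-χ(p)/p)⁻¹` converge to the same nonzero limit, `χ = (-a|·)` on odd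
numbers. (`∑_{n≤x} χ(n)Λ(n)/n = O(1)` from `L(1,χ) ≠ 0`; hence `∑ χ(p)/p` converges; then let `s → 1+` in the Euler
product.) -/
def SpecEUL : Prop := ∀ a : ℤ, ¬ IsSquare (-a) → ∃ l : ℝ, 0 < l ∧
  Tendsto (fun X : ℕ => ∑ n ∈ (Icc 1 X).filter Odd, (jacobiSym (-a) n : ℝ) / n) atTop (𝓝 l) ∧
  Tendsto (fun X : ℕ => ∏ p ∈ (range (X + 1)).filter (fun p => Nat.Prime p ∧ p ≠ 2),
    (1 - (jacobiSym (-a) p : ℝ) / p)⁻¹) atTop (𝓝 l)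

/-- CONV (from EUL, RHOP, RHO2): existence of `h_a > 0`. -/
def SpecCONV : Prop := ∀ a : ℤ, ¬ IsSquare (-a) → ∃ h : ℝ, 0 < h ∧
  Tendsto (fun w : ℕ => Gw w a) atTop (𝓝 h)

/-- F6 (from EUL, CONV, PVA, PVE, RHOP): `h_a/G_w(a) = (1+O(1/w))/L_w(a)`, `L_w(a) = ∑_{n w-rough} χ_a(n)/n`; the part
`n > y = A^0.7` is small for every `a` (PVE and inclusion-exclusion over the divisors of `P_w`), the second moment over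
`a` of the part `1 < n ≤ y` is `≤ CA/w + y^(1+ε)` (PVA; `n n'` a square costs `C/w`). -/
def SpecF6 : Prop := ∀ δ : ℝ, 0 < δ → ∃ w₀ : ℕ, ∀ w : ℕ, w₀ ≤ w → ∃ A₀ : ℕ, ∀ A : ℕ, A₀ ≤ A →
  (((IA A).filter (fun a => ¬ ∃ h : ℝ, 0 < h ∧ Tendsto (fun v : ℕ => Gw v a) atTop (𝓝 h) ∧
    |Gw w a - h| ≤ δ * h)).card : ℝ) ≤ δ * A

/-! ## Assembly -/

/-- BLK (from TI, T2, TII, WIN, WINM, NSF, NSFM, GMEAN, GMAX). -/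
def SpecBLK : Prop := ∀ θ ε : ℝ, 5 / 6 < θ → 0 < ε → ∃ w₀ : ℕ, ∀ w : ℕ, w₀ ≤ w → ∃ N₀ : ℕ,
  ∀ N A : ℕ, N₀ ≤ N → Adm θ N A →
    (((IA A).filter (fun a => ε * N / Real.log N <
      |cnt N a primeInd - Gw w a * model N primeInd|)).card : ℝ) ≤ ε * A

/-- TAIL (from EDGE or BT). -/
def SpecTAIL : Prop := ∃ C : ℝ, 0 < C ∧ ∃ A₀ : ℕ, ∀ A X : ℕ, A₀ ≤ A →
  ∑ a ∈ IA A, (((Icc 1 X).filter (fun n => (val a n).Prime)).card : ℝ) ≤ C * A * X / Real.log A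

/-- FIN (from BLK, F6, MODP, LI, TAIL, RHOP, RHO2). Blocks `(N_{i+1}, 2N_{i+1}]`, `N_i = ⌊N/2^i⌋`, `i < I(ε)`; the remaining
`n ≤ N/2^I`: TAIL. `h_a ≥ c(ε)` for almost all `a`: F6 for one fixed `w` and `G_w(a) ≥ c(w) > 0`. -/
def SpecFIN : Prop := ∀ θ ε : ℝ, 5 / 6 < θ → 0 < ε → ∃ N₀ : ℕ, ∀ N A : ℕ, N₀ ≤ N →
  (N : ℝ) ^ θ ≤ A → A ≤ N →
  (((Icc (-(A : ℤ)) A).filter (fun a : ℤ => ¬ ∃ h : ℝ, 0 < h ∧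
    Tendsto (fun X : ℕ => ∏ w ∈ (range (X + 1)).filter (fun w => Nat.Prime w ∧ w ≠ 2),
      (1 - (jacobiSym (-a) w : ℝ) / ((w : ℝ) - 1))) atTop (𝓝 h) ∧
    |(((Icc 1 N).filter (fun n : ℕ => Nat.Prime ((n : ℤ) ^ 2 + a).natAbs)).card : ℝ)
      - 1 / 2 * h * ∫ t in (2 : ℝ)..(N : ℝ), 1 / Real.log t|
      ≤ ε * (h * ∫ t in (2 : ℝ)..(N : ℝ), 1 / Real.log t))).card : ℝ) ≤ ε * A

end

end Pool.Agent.Lib.MP391708.QPA
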