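import Pool.Agent.Lib.MP_391708_nt.QPA.BDHRough

/-!
# Module BDH: the Barban-Davenport-Halberstam theorem for rough coefficients
-/

set_option autoImplicit false

namespace Pool.Agent.Lib.MP391708.QPA

open Finset Filter Topology
open scoped Classical

namespace BDH

/-- `c log L ≤ L^s` for large `L` -/
lemma ev (c s : ℝ) (hs : 0 < s) : ∃ L₀ : ℝ, 1 ≤ L₀ ∧ ∀ L : ℝ, L₀ ≤ L → c * Real.log L ≤ L ^ s := by
  have h := (isLittleO_log_rpow_atTop hs).def (c := 1 / (|c| + 1)) (by positivity)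
  rw [Filter.eventually_atTop] at h
  obtain ⟨a, ha⟩ := h
  refine ⟨max a 1, le_max_right _ _, fun L hL => ?_⟩
  have hL1 : 1 ≤ L := le_trans (le_max_right _ _) hL
  have h1 := ha L (le_trans (le_max_left _ _) hL)
  have hlog : 0 ≤ Real.log L := Real.log_nonneg hL1
  have hpow : 0 ≤ L ^ s := Real.rpow_nonneg (by linarith) _
  rw [Real.norm_of_nonneg hlog, Real.norm_of_nonneg hpow] at h1
  have h2 : (|c| + 1) * Real.log L ≤ L ^ s := by
    have h3 : 0 < |c| + 1 := by positivity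
    calc (|c| + 1) * Real.log L ≤ (|c| + 1) * (1 / (|c| + 1) * L ^ s) :=
          mul_le_mul_of_nonneg_left h1 h3.le
      _ = _ := by field_simp
  have h3 : c * Real.log L ≤ (|c| + 1) * Real.log L := by
    apply mul_le_mul_of_nonneg_right _ hlog
    have := le_abs_self c
    linarith
  linarith

/-- `c ≤ L^s` for large `L` -/
lemma ev' (c s : ℝ) (hs : 0 < s) : ∃ L₀ : ℝ, 1 ≤ L₀ ∧ ∀ L : ℝ, L₀ ≤ L → c ≤ L ^ s := by
  have h := (tendsto_rpow_atTop hs).eventually_ge_atTop c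
  rw [Filter.eventually_atTop] at h
  obtain ⟨a, ha⟩ := h
  exact ⟨max a 1, le_max_right _ _, fun L hL => ha L (le_trans (le_max_left _ _) hL)⟩

/-- the number of primes `p ≥ L^e0` dividing `n ≤ L` is at most `1/e0` -/
lemma omega_le {L e0 : ℝ} (hL : 1 < L) (he : 0 < e0) {n : ℕ} (hn : 0 < n) (hnL : (n : ℝ) ≤ L) :
    ((n.primeFactors.filter (fun p : ℕ => L ^ e0 ≤ (p : ℝ))).card : ℝ) ≤ 1 / e0 := by
  set P := n.primeFactors.filter (fun p : ℕ => L ^ e0 ≤ (p : ℝ)) with hP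
  have h1 : (∏ p ∈ P, p) ∣ n :=
    (Finset.prod_dvd_prod_of_subset _ _ _ (Finset.filter_subset _ _)).trans
      (Nat.prod_primeFactors_dvd n)
  have h2 : ∏ p ∈ P, p ≤ n := Nat.le_of_dvd hn h1
  have h3 : (L ^ e0) ^ P.card ≤ ((∏ p ∈ P, p : ℕ) : ℝ) := by
    push_cast
    rw [← Finset.prod_const]
    apply Finset.prod_le_prod
    · intro _ _; positivity
    · intro p hp
      exact (Finset.mem_filter.mp hp).2
  have h4 : (L ^ e0) ^ P.card ≤ L := by
    refine h3.trans (le_trans ?_ hnL)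
    exact_mod_cast h2
  have h5 : L ^ (e0 * P.card) ≤ L ^ (1 : ℝ) := by
    rw [Real.rpow_mul (by linarith), Real.rpow_natCast, Real.rpow_one]
    exact h4
  have h6 := (Real.rpow_le_rpow_left_iff hL).mp h5
  rw [le_div_iff₀ he]
  linarith

/-- rough numbers not coprime to `n` -/
lemma badcount {L e0 : ℝ} (hL : 1 < L) (he : 0 < e0) {n : ℕ} (hn : 0 < n) (hnL : (n : ℝ) ≤ L) :
    (((Icc 1 ⌊2 * L⌋₊).filter (fun u => Rough (L ^ e0) u ∧ ¬ Nat.Coprime u n)).card : ℝ)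
      ≤ 2 / e0 * L ^ (1 - e0) := by
  have hL0 : 0 < L := by linarith
  set P := n.primeFactors.filter (fun p : ℕ => L ^ e0 ≤ (p : ℝ)) with hP
  have hz : 0 < L ^ e0 := Real.rpow_pos_of_pos hL0 _
  have hsub : (Icc 1 ⌊2 * L⌋₊).filter (fun u => Rough (L ^ e0) u ∧ ¬ Nat.Coprime u n) ⊆
      P.biUnion (fun p => (Icc 1 ⌊2 * L⌋₊).filter (fun u => p ∣ u)) := by
    intro u hu
    rw [Finset.mem_filter] at hu
    obtain ⟨hu1, hu2, hu3⟩ := hu
    rw [Nat.Prime.not_coprime_iff_dvd] at hu3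
    obtain ⟨p, hp, h1, h2⟩ := hu3
    rw [Finset.mem_biUnion]
    refine ⟨p, ?_, ?_⟩
    · rw [hP, Finset.mem_filter, Nat.mem_primeFactors]
      exact ⟨⟨hp, h2, hn.ne'⟩, hu2 p hp h1⟩
    · rw [Finset.mem_filter]
      exact ⟨hu1, h1⟩
  have hcard : ∀ p ∈ P, (((Icc 1 ⌊2 * L⌋₊).filter (fun u => p ∣ u)).card : ℝ) ≤
      2 * L / L ^ e0 := by
    intro p hp
    have hpz : L ^ e0 ≤ (p : ℝ) := (Finset.mem_filter.mp hp).2
    have hp0 : (0 : ℝ) < p := lt_of_lt_of_le hz hpz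
    have h1 : (Icc 1 ⌊2 * L⌋₊).filter (fun u => p ∣ u) = (Ioc 0 ⌊2 * L⌋₊).filter (fun u => p ∣ u) := by
      congr 1
    rw [h1, Nat.Ioc_filter_dvd_card_eq_div]
    calc ((⌊2 * L⌋₊ / p : ℕ) : ℝ) ≤ (⌊2 * L⌋₊ : ℝ) / p := Nat.cast_div_le
      _ ≤ 2 * L / p := by
          apply div_le_div_of_nonneg_right (Nat.floor_le (by linarith)) hp0.le
      _ ≤ 2 * L / L ^ e0 := by
          apply div_le_div_of_nonneg_left (by linarith) hz hpz
  have h1 : (((Icc 1 ⌊2 * L⌋₊).filter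
      (fun u => Rough (L ^ e0) u ∧ ¬ Nat.Coprime u n)).card : ℝ) ≤
      ∑ p ∈ P, (((Icc 1 ⌊2 * L⌋₊).filter (fun u => p ∣ u)).card : ℝ) := by
    have := (Finset.card_le_card hsub).trans Finset.card_biUnion_le
    exact_mod_cast this
  refine h1.trans ((Finset.sum_le_sum hcard).trans ?_)
  rw [Finset.sum_const, nsmul_eq_mul]
  have h2 := omega_le hL he hn hnL
  have h3 : L ^ (1 - e0) = L / L ^ e0 := by rw [Real.rpow_sub hL0, Real.rpow_one]
  rw [h3]
  calc (P.card : ℝ) * (2 * L / L ^ e0) ≤ 1 / e0 * (2 * L / L ^ e0) :=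
        mul_le_mul_of_nonneg_right h2 (by positivity)
    _ = _ := by ring

/-- sum over the rough moduli -/
lemma sumG (hRSUM : SpecRSUM) (e0 : ℝ) (he : 0 < e0) : ∃ K : ℝ, 0 < K ∧ ∃ L₀ : ℝ, ∀ L : ℝ, L₀ ≤ L →
    ∀ D₀ : ℕ, (D₀ : ℝ) ≤ L ^ (1 / 3 : ℝ) →
      ∑ g ∈ (Icc 1 (2 * D₀)).filter (fun g => Rough (L ^ e0) g), 1 / (g.totient : ℝ) ≤ K := by
  obtain ⟨C, hC, hR⟩ := hRSUM
  obtain ⟨L1, hL1, h1⟩ := ev' 2 e0 he
  obtain ⟨L2, hL2, h2⟩ := ev' 2 (2 / 3) (by norm_num)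
  refine ⟨1 + 2 ^ (1 / e0) * (C * (2 / e0)), by positivity, max (max L1 L2) 3, fun L hL D₀ hD => ?_⟩
  have hLL1 : L1 ≤ L := le_trans (le_trans (le_max_left _ _) (le_max_left _ _)) hL
  have hLL2 : L2 ≤ L := le_trans (le_trans (le_max_right _ _) (le_max_left _ _)) hL
  have hL3 : 3 ≤ L := le_trans (le_max_right _ _) hL
  have hL0 : 0 < L := by linarith
  have hLgt : 1 < L := by linarith
  have hlog : 1 ≤ Real.log L := by
    rw [Real.le_log_iff_exp_le hL0]
    exact (Real.exp_one_lt_d9.le.trans (by norm_num)).trans hL3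
  obtain ⟨z, hz⟩ : ∃ z : ℝ, z = L ^ e0 := ⟨_, rfl⟩
  rw [← hz]
  have hz2 : 2 ≤ z := by rw [hz]; exact h1 L hLL1
  have hlogz : Real.log z = e0 * Real.log L := by rw [hz, Real.log_rpow hL0]
  have h2D : ((2 * D₀ : ℕ) : ℝ) ≤ L := by
    have h3 := h2 L hLL2
    have h4 : L = L ^ (2 / 3 : ℝ) * L ^ (1 / 3 : ℝ) := by
      rw [← Real.rpow_add hL0]; norm_num
    have h5 : (0 : ℝ) ≤ D₀ := Nat.cast_nonneg _
    push_cast
    calc (2 : ℝ) * D₀ ≤ L ^ (2 / 3 : ℝ) * L ^ (1 / 3 : ℝ) :=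
          mul_le_mul h3 hD h5 (by positivity)
      _ = L := h4.symm
  -- pointwise bound
  have hpt : ∀ g ∈ (Icc 1 (2 * D₀)).filter (fun g => Rough z g), 1 / (g.totient : ℝ) ≤
      (if g = 1 then 1 else 0) + 2 ^ (1 / e0) * (if z ≤ g then rInd z g / (g : ℝ) else 0) := by
    intro g hg
    rw [Finset.mem_filter, Finset.mem_Icc] at hg
    obtain ⟨⟨hg1, hg2⟩, hgr⟩ := hg
    by_cases h : g = 1
    · rw [if_pos h, h]
      simp only [Nat.totient_one, Nat.cast_one, div_one]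
      have : 0 ≤ (2 : ℝ) ^ (1 / e0) * (if z ≤ 1 then rInd z 1 else 0) := by
        apply mul_nonneg (by positivity)
        split_ifs
        · unfold rInd; split_ifs <;> norm_num
        · exact le_refl _
      linarith
    · rw [if_neg h, zero_add]
      obtain ⟨p, hp, hpg⟩ := Nat.exists_prime_and_dvd h
      have hzp := hgr p hp hpg
      have hpg' : (p : ℝ) ≤ g := by exact_mod_cast Nat.le_of_dvd (by omega) hpg
      have hzg : z ≤ g := hzp.trans hpg'
      have hg0 : (0 : ℝ) < g := by exact_mod_cast (by omega : 0 < g)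
      rw [if_pos hzg]
      have hri : rInd z g = 1 := by unfold rInd; rw [if_pos hgr]
      rw [hri]
      have hgL : (g : ℝ) ≤ L := le_trans (by exact_mod_cast hg2) h2D
      have hom := omega_le hLgt he (by omega : 0 < g) hgL
      have hall : g.primeFactors.filter (fun p : ℕ => L ^ e0 ≤ (p : ℝ)) = g.primeFactors := by
        apply Finset.filter_true_of_mem
        intro q hq
        rw [← hz]
        exact hgr q (Nat.prime_of_mem_primeFactors hq) (Nat.dvd_of_mem_primeFactors hq)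
      rw [hall] at hom
      have hφ : (0 : ℝ) < g.totient := by exact_mod_cast Nat.totient_pos.2 (by omega)
      have htot : (g.totient : ℝ) = g * ∏ p ∈ g.primeFactors, (1 - (p : ℝ)⁻¹) := by
        have := Nat.totient_eq_mul_prod_factors g
        have h3 : ((g.totient : ℚ) : ℝ) =
            ((g * ∏ p ∈ g.primeFactors, (1 - (p : ℚ)⁻¹) : ℚ) : ℝ) := by rw [this]
        push_cast at h3
        exact h3
      have hprod : (1 / 2 : ℝ) ^ g.primeFactors.card ≤ ∏ p ∈ g.primeFactors, (1 - (p : ℝ)⁻¹) := by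
        rw [← Finset.prod_const]
        apply Finset.prod_le_prod
        · intro _ _; norm_num
        · intro q hq
          have hq2 : (2 : ℝ) ≤ q := by exact_mod_cast (Nat.prime_of_mem_primeFactors hq).two_le
          have : (q : ℝ)⁻¹ ≤ 2⁻¹ := inv_anti₀ (by norm_num) hq2
          linarith
      have hpow : (2 : ℝ) ^ g.primeFactors.card ≤ 2 ^ (1 / e0) := by
        rw [← Real.rpow_natCast]
        exact Real.rpow_le_rpow_of_exponent_le (by norm_num) hom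
      have h4 : (g : ℝ) ≤ 2 ^ (1 / e0) * g.totient := by
        have h5 : (g : ℝ) * (1 / 2 : ℝ) ^ g.primeFactors.card ≤ g.totient := by
          rw [htot]; exact mul_le_mul_of_nonneg_left hprod hg0.le
        have h6 : (2 : ℝ) ^ g.primeFactors.card * ((g : ℝ) * (1 / 2 : ℝ) ^ g.primeFactors.card) = g := by
          rw [one_div, inv_pow]; field_simp
        calc (g : ℝ) = (2 : ℝ) ^ g.primeFactors.card * ((g : ℝ) * (1 / 2 : ℝ) ^ g.primeFactors.card) :=
              h6.symm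
          _ ≤ (2 : ℝ) ^ g.primeFactors.card * g.totient :=
              mul_le_mul_of_nonneg_left h5 (by positivity)
          _ ≤ _ := mul_le_mul_of_nonneg_right hpow hφ.le
      rw [mul_one_div, div_le_div_iff₀ hφ hg0]
      linarith
  calc ∑ g ∈ (Icc 1 (2 * D₀)).filter (fun g => Rough z g), 1 / (g.totient : ℝ)
      ≤ ∑ g ∈ (Icc 1 (2 * D₀)).filter (fun g => Rough z g), ((if g = 1 then 1 else 0) +
        2 ^ (1 / e0) * (if z ≤ g then rInd z g / (g : ℝ) else 0)) := Finset.sum_le_sum hpt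
    _ = (∑ g ∈ (Icc 1 (2 * D₀)).filter (fun g => Rough z g), (if g = 1 then (1 : ℝ) else 0)) +
        2 ^ (1 / e0) * ∑ g ∈ (Icc 1 (2 * D₀)).filter (fun g => Rough z g),
          (if z ≤ g then rInd z g / (g : ℝ) else 0) := by
        rw [Finset.sum_add_distrib, ← Finset.mul_sum]
    _ ≤ 1 + 2 ^ (1 / e0) * (C * (2 / e0)) := by
        apply add_le_add
        · rw [Finset.sum_ite_eq']
          split_ifs <;> norm_num
        · apply mul_le_mul_of_nonneg_left _ (by positivity)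
          by_cases hX : z ≤ ((2 * D₀ : ℕ) : ℝ)
          · have h3 := hR z z ((2 * D₀ : ℕ) : ℝ) hz2 le_rfl hX
            have h4 : ∑ g ∈ (Icc 1 (2 * D₀)).filter (fun g => Rough z g),
                (if z ≤ g then rInd z g / (g : ℝ) else 0) ≤
                ∑ k ∈ Icc ⌈z⌉₊ ⌊((2 * D₀ : ℕ) : ℝ)⌋₊, rInd z k / (k : ℝ) := by
              rw [← Finset.sum_filter]
              apply Finset.sum_le_sum_of_subset_of_nonneg
              · intro g hg
                rw [Finset.mem_filter, Finset.mem_filter, Finset.mem_Icc] at hg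
                rw [Finset.mem_Icc, Nat.floor_natCast]
                exact ⟨Nat.ceil_le.mpr hg.2, hg.1.1.2⟩
              · intro k _ _
                unfold rInd
                split_ifs <;> positivity
            refine h4.trans (h3.trans ?_)
            rw [hlogz]
            have h5 : Real.log (((2 * D₀ : ℕ) : ℝ) / z) ≤ Real.log L := by
              apply Real.log_le_log
              · have : (0 : ℝ) < ((2 * D₀ : ℕ) : ℝ) := by linarith
                positivity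
              · rw [div_le_iff₀ (by linarith)]
                nlinarith
            rw [div_le_iff₀ (by positivity)]
            have h6 : C * (Real.log (((2 * D₀ : ℕ) : ℝ) / z) + 1) ≤ C * (2 * Real.log L) :=
              mul_le_mul_of_nonneg_left (by linarith) hC.le
            calc _ ≤ C * (2 * Real.log L) := h6
              _ = C * (2 / e0) * (e0 * Real.log L) := by field_simp
          · push Not at hX
            have h4 : ∑ g ∈ (Icc 1 (2 * D₀)).filter (fun g => Rough z g),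
                (if z ≤ g then rInd z g / (g : ℝ) else 0) = 0 := by
              apply Finset.sum_eq_zero
              intro g hg
              rw [Finset.mem_filter, Finset.mem_Icc] at hg
              rw [if_neg]
              push Not
              have : (g : ℝ) ≤ ((2 * D₀ : ℕ) : ℝ) := by exact_mod_cast hg.1.2
              linarith
            rw [h4]
            positivity

/-- characters to small moduli -/
lemma csum_le {r : ℕ} (hr : 1 ≤ r) {b : ℕ → ℝ} {X : ℕ} {t : ℝ}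
    (h : ∀ ψ : DirichletCharacter ℂ (r + 1), ψ ≠ 1 →
      ‖∑ u ∈ Icc 1 X, (b u : ℂ) * ψ (u : ZMod (r + 1))‖ ≤ t) :
    csum r b X ≤ ((r + 1).totient : ℝ) * t ^ 2 := by
  have hcard : ((univ : Finset (DirichletCharacter ℂ (r + 1))).card : ℝ) = (r + 1).totient := by
    rw [Finset.card_univ, ← Nat.card_eq_fintype_card]
    exact_mod_cast DirichletCharacter.card_eq_totient_of_hasEnoughRootsOfUnity ℂ (r + 1)
  unfold csum
  have h1 : ∑ ψ ∈ (univ : Finset (DirichletCharacter ℂ (r + 1))).filter (fun ψ => ψ.IsPrimitive),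
      ‖∑ u ∈ Icc 1 X, (b u : ℂ) * ψ (u : ZMod (r + 1))‖ ^ 2 ≤
      ∑ _ψ ∈ (univ : Finset (DirichletCharacter ℂ (r + 1))).filter (fun ψ => ψ.IsPrimitive),
        t ^ 2 := by
    apply Finset.sum_le_sum
    intro ψ hψ
    have hp : ψ.IsPrimitive := (Finset.mem_filter.mp hψ).2
    have hne : ψ ≠ 1 := by
      intro h1
      rw [h1, DirichletCharacter.isPrimitive_def, DirichletCharacter.conductor_one] at hp
      omega
    exact pow_le_pow_left₀ (norm_nonneg _) (h ψ hne) 2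
  refine h1.trans ?_
  rw [Finset.sum_const, nsmul_eq_mul, ← hcard]
  apply mul_le_mul_of_nonneg_right _ (by positivity)
  exact_mod_cast Finset.card_le_card (Finset.filter_subset _ _)

lemma analytic (hLS : SpecLS) (hLR : SpecLR) (hBT : SpecBT) (B e0 V : ℝ) (hB : 0 < B)
    (he : 0 < e0) (hV : 0 < V) : ∃ R : ℕ, ∃ κ : ℝ, 0 < κ ∧ ∃ L₀ : ℝ, ∀ (L : ℝ) (b : ℕ → ℝ),
    L₀ ≤ L → (∀ u, |b u| ≤ B * rInd (L ^ e0) u) →
    (∀ r : ℕ, r < R → ∀ ψ : DirichletCharacter ℂ (r + 1), ψ ≠ 1 →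
      ‖∑ u ∈ Icc 1 ⌊2 * L⌋₊, (b u : ℂ) * ψ (u : ZMod (r + 1))‖ ≤ κ * L / Real.log L) →
    ∀ D₀ : ℕ, (D₀ : ℝ) ≤ L ^ (1 / 3 : ℝ) →
      ∑ r ∈ Ico 1 (8 * D₀), 1 / ((r + 1).totient : ℝ) * csum r b ⌊2 * L⌋₊
        ≤ V * (L / Real.log L) ^ 2 := by
  obtain ⟨CS, hCS, hLS⟩ := hLS
  obtain ⟨CR, hCR, hLR⟩ := hLR
  obtain ⟨CB, hCB, hBT⟩ := hBT
  obtain ⟨Cφ, hCφ, hφ⟩ := totient_lower
  obtain ⟨e', he'⟩ : ∃ e' : ℝ, e' = min (e0 / 2) (1 / 16) := ⟨_, rfl⟩
  have he'0 : 0 < e' := by rw [he']; exact lt_min (by linarith) (by norm_num)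
  have he'1 : e' < e0 := by rw [he']; exact lt_of_le_of_lt (min_le_left _ _) (by linarith)
  have he'2 : e' ≤ 1 / 16 := by rw [he']; exact min_le_right _ _
  obtain ⟨C₂, hC₂⟩ : ∃ C : ℝ, C = B ^ 2 * (CB * (2 / e' + 1)) := ⟨_, rfl⟩
  have hC₂0 : 0 < C₂ := by rw [hC₂]; positivity
  obtain ⟨C₃, hC₃⟩ : ∃ C : ℝ, C = CR * (2 / e' + 1) * C₂ := ⟨_, rfl⟩
  have hC₃0 : 0 < C₃ := by rw [hC₃]; positivity
  obtain ⟨R₀, hR₀1, hR₀⟩ := ev' (3 * Cφ * C₃ / V) (3 / 4) (by norm_num)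
  obtain ⟨R, hR⟩ : ∃ R : ℕ, R = ⌈R₀⌉₊ := ⟨_, rfl⟩
  have hRR : R₀ ≤ R := by rw [hR]; exact Nat.le_ceil _
  have hR1 : (1 : ℝ) ≤ R := hR₀1.trans hRR
  have hR2 := hR₀ R hRR
  obtain ⟨κ, hκ⟩ : ∃ κ : ℝ, κ = √(V / (3 * R)) := ⟨_, rfl⟩
  have hκ0 : 0 < κ := by rw [hκ]; apply Real.sqrt_pos.mpr; positivity
  have hκ2 : κ ^ 2 = V / (3 * R) := by rw [hκ]; exact Real.sq_sqrt (by positivity)
  obtain ⟨La, hLa1, hLa⟩ := ev 1 (1 / 16) (by norm_num)
  obtain ⟨Lb, hLb1, hLb⟩ := ev' 2 e' he'0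
  obtain ⟨Lc, hLc1, hLc⟩ := ev' 81 (1 / 3) (by norm_num)
  obtain ⟨Ld, hLd1, hLd⟩ := ev (9 * CS * C₂ / V) (1 / 16) (by norm_num)
  refine ⟨R, κ, hκ0, La + Lb + Lc + Ld + 3, ?_⟩
  intro L b hL hb hψ D₀ hD
  have hL3 : 3 ≤ L := by linarith
  have hL0 : 0 < L := by linarith
  have hL1 : 1 ≤ L := by linarith
  have ha := hLa L (by linarith)
  have hb2 := hLb L (by linarith)
  have hc := hLc L (by linarith)
  have hd := hLd L (by linarith)
  rw [one_mul] at ha
  have hlog : 1 ≤ Real.log L := by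
    rw [Real.le_log_iff_exp_le hL0]
    exact (Real.exp_one_lt_d9.le.trans (by norm_num)).trans hL3
  have hlog0 : 0 < Real.log L := by linarith
  obtain ⟨X, hX⟩ : ∃ X : ℕ, X = ⌊2 * L⌋₊ := ⟨_, rfl⟩
  rw [← hX] at hψ ⊢
  have hX2 : (X : ℝ) ≤ 2 * L := by rw [hX]; exact Nat.floor_le (by linarith)
  have hX1 : 1 ≤ X := by rw [hX]; exact Nat.le_floor (by push_cast; linarith)
  obtain ⟨Λ, hΛ⟩ : ∃ Λ : ℝ, Λ = L / Real.log L := ⟨_, rfl⟩
  have hΛ0 : 0 < Λ := by rw [hΛ]; positivity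
  -- powers of `L`
  have hpow : ∀ s : ℝ, s ≤ 15 / 16 → L ^ s ≤ Λ := by
    intro s hs
    rw [hΛ, le_div_iff₀ hlog0]
    have h0 : 0 ≤ L ^ s := by positivity
    calc L ^ s * Real.log L ≤ L ^ s * L ^ (1 / 16 : ℝ) := mul_le_mul_of_nonneg_left ha h0
      _ = L ^ (s + 1 / 16) := (Real.rpow_add hL0 _ _).symm
      _ ≤ L ^ (1 : ℝ) := Real.rpow_le_rpow_of_exponent_le hL1 (by linarith)
      _ = L := Real.rpow_one _
  obtain ⟨y, hy⟩ : ∃ y : ℝ, y = L ^ e' := ⟨_, rfl⟩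
  have hy2 : 2 ≤ y := by rw [hy]; exact hb2
  have hyz : y < L ^ e0 := by
    rw [hy]; exact Real.rpow_lt_rpow_of_exponent_lt (by linarith) he'1
  have hlogy : Real.log y = e' * Real.log L := by rw [hy, Real.log_rpow hL0]
  have hlogy0 : 0 < Real.log y := by rw [hlogy]; positivity
  have hyy : y ^ 2 ≤ L ^ (1 / 8 : ℝ) := by
    have h1 : y ^ 2 = L ^ (2 * e') := by
      rw [hy, ← Real.rpow_natCast, ← Real.rpow_mul hL0.le]; norm_num [mul_comm]
    rw [h1]
    exact Real.rpow_le_rpow_of_exponent_le hL1 (by linarith)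
  have hXy : (X : ℝ) / Real.log y ≤ 2 / e' * Λ := by
    rw [div_le_iff₀ hlogy0, hlogy, hΛ]
    calc (X : ℝ) ≤ 2 * L := hX2
      _ = 2 / e' * (L / Real.log L) * (e' * Real.log L) := by field_simp
  -- the sum of squares
  have hS2 : ∑ u ∈ Icc 1 X, (b u) ^ 2 ≤ C₂ * Λ := by
    have h1 : ∀ u ∈ Icc 1 X, (b u) ^ 2 ≤ B ^ 2 * (if Rough (L ^ e0) u then 1 else 0) := by
      intro u _
      have h2 := hb u
      unfold rInd at h2
      split_ifs at h2 ⊢ with h3
      · rw [mul_one] at h2 ⊢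
        rw [← sq_abs]
        exact pow_le_pow_left₀ (abs_nonneg _) h2 2
      · rw [mul_zero] at h2 ⊢
        have : b u = 0 := abs_eq_zero.mp (le_antisymm h2 (abs_nonneg _))
        rw [this]; norm_num
    have h4 := hBT y (L ^ e0) 1 0 0 X hy2 hyz le_rfl
    have h5 : (Ioc 0 (0 + X)).filter (fun u => u % 1 = 0 ∧ Rough (L ^ e0) u) =
        (Icc 1 X).filter (fun u => Rough (L ^ e0) u) := by
      ext u
      simp only [Finset.mem_filter, Finset.mem_Ioc, Finset.mem_Icc, Nat.mod_one, true_and,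
        Nat.zero_add]
      constructor <;> rintro ⟨⟨h6, h7⟩, h8⟩ <;> exact ⟨⟨by omega, h7⟩, h8⟩
    rw [h5] at h4
    simp only [Nat.totient_one, Nat.cast_one, one_mul] at h4
    calc ∑ u ∈ Icc 1 X, (b u) ^ 2 ≤ ∑ u ∈ Icc 1 X, B ^ 2 * (if Rough (L ^ e0) u then 1 else 0) :=
          Finset.sum_le_sum h1
      _ = B ^ 2 * (((Icc 1 X).filter (fun u => Rough (L ^ e0) u)).card : ℝ) := by
          rw [← Finset.mul_sum, Finset.sum_boole]
      _ ≤ B ^ 2 * (CB * (2 / e' + 1) * Λ) := by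
          apply mul_le_mul_of_nonneg_left _ (by positivity)
          refine h4.trans ?_
          have h6 : CB * X / Real.log y = CB * (X / Real.log y) := by ring
          rw [h6]
          have h7 : CB * (X / Real.log y) ≤ CB * (2 / e' * Λ) :=
            mul_le_mul_of_nonneg_left hXy hCB.le
          have h8 : CB * y ^ 2 ≤ CB * Λ :=
            mul_le_mul_of_nonneg_left (hyy.trans (hpow _ (by norm_num))) hCB.le
          linarith
      _ = C₂ * Λ := by rw [hC₂]; ring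
  have hS20 : 0 ≤ ∑ u ∈ Icc 1 X, (b u) ^ 2 := Finset.sum_nonneg (fun _ _ => by positivity)
  have hrough : ∀ u, b u ≠ 0 → Rough (L ^ e0) u := by
    intro u hu
    by_contra hc
    have h2 := hb u
    unfold rInd at h2
    rw [if_neg hc, mul_zero] at h2
    exact hu (abs_eq_zero.mp (le_antisymm h2 (abs_nonneg _)))
  -- LR
  obtain ⟨M, hM⟩ : ∃ M : ℕ, M = ⌊L ^ (1 / 16 : ℝ)⌋₊ := ⟨_, rfl⟩
  have hM1 : 1 ≤ M := by
    rw [hM]; apply Nat.le_floor; push_cast
    exact hlog.trans ha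
  have hM2 : (M : ℝ) ≤ L ^ (1 / 16 : ℝ) := by rw [hM]; exact Nat.floor_le (by positivity)
  have hM3 : L ^ (1 / 16 : ℝ) < (M : ℝ) + 1 := by rw [hM]; exact Nat.lt_floor_add_one _
  have hLRM : ∑ r ∈ range M, csum r b X ≤ C₃ * Λ ^ 2 := by
    have h1 := hLR M X y (L ^ e0) b hM1 hX1 hy2 hyz hrough
    have h2 : (M : ℝ) ^ 4 * y ^ 2 ≤ Λ := by
      have h3 : (M : ℝ) ^ 4 ≤ L ^ (1 / 4 : ℝ) := by
        calc (M : ℝ) ^ 4 ≤ (L ^ (1 / 16 : ℝ)) ^ 4 := pow_le_pow_left₀ (Nat.cast_nonneg _) hM2 4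
          _ = L ^ (1 / 4 : ℝ) := by
              rw [← Real.rpow_natCast, ← Real.rpow_mul hL0.le]; norm_num
      calc (M : ℝ) ^ 4 * y ^ 2 ≤ L ^ (1 / 4 : ℝ) * L ^ (1 / 8 : ℝ) :=
            mul_le_mul h3 hyy (by positivity) (by positivity)
        _ = L ^ (1 / 4 + 1 / 8 : ℝ) := (Real.rpow_add hL0 _ _).symm
        _ ≤ Λ := hpow _ (by norm_num)
    refine h1.trans ?_
    calc CR * ((X : ℝ) / Real.log y + (M : ℝ) ^ 4 * y ^ 2) * ∑ u ∈ Icc 1 X, (b u) ^ 2
        ≤ CR * (2 / e' * Λ + Λ) * (C₂ * Λ) := by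
          apply mul_le_mul _ hS2 hS20 (by positivity)
          exact mul_le_mul_of_nonneg_left (add_le_add hXy h2) hCR.le
      _ = C₃ * Λ ^ 2 := by rw [hC₃]; ring
  -- LS
  have hLSM : ∑ r ∈ range (8 * D₀ + 1), ((r : ℝ) + 1) / ((r + 1).totient : ℝ) * csum r b X ≤
      CS * (3 * L) * (C₂ * Λ) := by
    have h1 := hLS (8 * D₀ + 1) X b (by omega) hX1
    have h2 : (((8 * D₀ + 1 : ℕ) : ℝ)) ^ 2 ≤ L := by
      have h3 : (((8 * D₀ + 1 : ℕ) : ℝ)) ≤ 9 * L ^ (1 / 3 : ℝ) := by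
        push_cast
        linarith
      calc (((8 * D₀ + 1 : ℕ) : ℝ)) ^ 2 ≤ (9 * L ^ (1 / 3 : ℝ)) ^ 2 :=
            pow_le_pow_left₀ (Nat.cast_nonneg _) h3 2
        _ = 81 * (L ^ (1 / 3 : ℝ) * L ^ (1 / 3 : ℝ)) := by ring
        _ ≤ L ^ (1 / 3 : ℝ) * (L ^ (1 / 3 : ℝ) * L ^ (1 / 3 : ℝ)) :=
            mul_le_mul_of_nonneg_right hc (by positivity)
        _ = L := by
            rw [← Real.rpow_add hL0, ← Real.rpow_add hL0]
            norm_num
    refine h1.trans ?_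
    apply mul_le_mul _ hS2 hS20 (by positivity)
    exact mul_le_mul_of_nonneg_left (by linarith) hCS.le
  -- the three ranges
  have hnn : ∀ r : ℕ, 0 ≤ 1 / ((r + 1).totient : ℝ) * csum r b X := fun r =>
    mul_nonneg (by positivity) (csum_nonneg r b X)
  have hsplit : ∑ r ∈ Ico 1 (8 * D₀), 1 / ((r + 1).totient : ℝ) * csum r b X ≤
      (∑ r ∈ (Ico 1 (8 * D₀)).filter (fun r => r < R), 1 / ((r + 1).totient : ℝ) * csum r b X)
      + ((∑ r ∈ (Ico 1 (8 * D₀)).filter (fun r => R ≤ r ∧ r < M),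
          1 / ((r + 1).totient : ℝ) * csum r b X)
      + (∑ r ∈ (Ico 1 (8 * D₀)).filter (fun r => M ≤ r),
          1 / ((r + 1).totient : ℝ) * csum r b X)) := by
    rw [Finset.sum_filter, Finset.sum_filter, Finset.sum_filter, ← Finset.sum_add_distrib,
      ← Finset.sum_add_distrib]
    apply Finset.sum_le_sum
    intro r _
    have h0 := hnn r
    by_cases h1 : r < R
    · rw [if_pos h1]
      have h2 : 0 ≤ (if R ≤ r ∧ r < M then 1 / ((r + 1).totient : ℝ) * csum r b X else 0) := by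
        split_ifs <;> [exact h0; exact le_rfl]
      have h3 : 0 ≤ (if M ≤ r then 1 / ((r + 1).totient : ℝ) * csum r b X else 0) := by
        split_ifs <;> [exact h0; exact le_rfl]
      linarith
    · rw [if_neg h1, zero_add]
      by_cases h2 : r < M
      · rw [if_pos ⟨by omega, h2⟩]
        have h3 : 0 ≤ (if M ≤ r then 1 / ((r + 1).totient : ℝ) * csum r b X else 0) := by
          split_ifs <;> [exact h0; exact le_rfl]
        linarith
      · rw [if_neg (fun h => h2 h.2), if_pos (by omega), zero_add]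
  have hT1 : ∑ r ∈ (Ico 1 (8 * D₀)).filter (fun r => r < R),
      1 / ((r + 1).totient : ℝ) * csum r b X ≤ V / 3 * Λ ^ 2 := by
    have h1 : ∀ r ∈ (Ico 1 (8 * D₀)).filter (fun r => r < R),
        1 / ((r + 1).totient : ℝ) * csum r b X ≤ (κ * Λ) ^ 2 := by
      intro r hr
      rw [Finset.mem_filter, Finset.mem_Ico] at hr
      have hφr : (0 : ℝ) < (r + 1).totient := by exact_mod_cast Nat.totient_pos.2 (by omega)
      have h2 := csum_le hr.1.1 (b := b) (X := X) (t := κ * Λ) (fun ψ hψ1 => by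
        have := hψ r hr.2 ψ hψ1
        rw [hΛ]
        calc _ ≤ κ * L / Real.log L := this
          _ = _ := by ring)
      calc 1 / ((r + 1).totient : ℝ) * csum r b X ≤
            1 / ((r + 1).totient : ℝ) * (((r + 1).totient : ℝ) * (κ * Λ) ^ 2) :=
            mul_le_mul_of_nonneg_left h2 (by positivity)
        _ = _ := by field_simp
    refine (Finset.sum_le_sum h1).trans ?_
    rw [Finset.sum_const, nsmul_eq_mul]
    have h2 : (((Ico 1 (8 * D₀)).filter (fun r => r < R)).card : ℝ) ≤ R := by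
      have h3 : (Ico 1 (8 * D₀)).filter (fun r => r < R) ⊆ range R := by
        intro r hr
        exact Finset.mem_range.mpr (Finset.mem_filter.mp hr).2
      have h4 := Finset.card_le_card h3
      rw [Finset.card_range] at h4
      exact_mod_cast h4
    calc (((Ico 1 (8 * D₀)).filter (fun r => r < R)).card : ℝ) * (κ * Λ) ^ 2 ≤
          R * (κ * Λ) ^ 2 := mul_le_mul_of_nonneg_right h2 (by positivity)
      _ = R * κ ^ 2 * Λ ^ 2 := by ring
      _ = V / 3 * Λ ^ 2 := by rw [hκ2]; field_simp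
  have hR0' : (0 : ℝ) < R := by linarith
  have hR34 : (0 : ℝ) < (R : ℝ) ^ (3 / 4 : ℝ) := Real.rpow_pos_of_pos hR0' _
  have hT2 : ∑ r ∈ (Ico 1 (8 * D₀)).filter (fun r => R ≤ r ∧ r < M),
      1 / ((r + 1).totient : ℝ) * csum r b X ≤ V / 3 * Λ ^ 2 := by
    have h1 : ∀ r ∈ (Ico 1 (8 * D₀)).filter (fun r => R ≤ r ∧ r < M),
        1 / ((r + 1).totient : ℝ) * csum r b X ≤ Cφ / (R : ℝ) ^ (3 / 4 : ℝ) * csum r b X := by
      intro r hr
      rw [Finset.mem_filter, Finset.mem_Ico] at hr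
      have hφr : (0 : ℝ) < (r + 1).totient := by exact_mod_cast Nat.totient_pos.2 (by omega)
      apply mul_le_mul_of_nonneg_right _ (csum_nonneg r b X)
      rw [div_le_div_iff₀ hφr hR34, one_mul]
      have h2 := hφ (r + 1) (by omega)
      have h3 : (R : ℝ) ^ (3 / 4 : ℝ) ≤ ((r + 1 : ℕ) : ℝ) ^ (3 / 4 : ℝ) := by
        apply Real.rpow_le_rpow hR0'.le _ (by norm_num)
        have : R ≤ r + 1 := by omega
        exact_mod_cast this
      exact h3.trans h2
    refine (Finset.sum_le_sum h1).trans ?_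
    rw [← Finset.mul_sum]
    have h2 : ∑ r ∈ (Ico 1 (8 * D₀)).filter (fun r => R ≤ r ∧ r < M), csum r b X ≤
        ∑ r ∈ range M, csum r b X := by
      apply Finset.sum_le_sum_of_subset_of_nonneg
      · intro r hr
        exact Finset.mem_range.mpr (Finset.mem_filter.mp hr).2.2
      · intro r _ _
        exact csum_nonneg r b X
    calc Cφ / (R : ℝ) ^ (3 / 4 : ℝ) *
          ∑ r ∈ (Ico 1 (8 * D₀)).filter (fun r => R ≤ r ∧ r < M), csum r b X
        ≤ Cφ / (R : ℝ) ^ (3 / 4 : ℝ) * (C₃ * Λ ^ 2) :=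
          mul_le_mul_of_nonneg_left (h2.trans hLRM) (by positivity)
      _ = (Cφ * C₃ / (R : ℝ) ^ (3 / 4 : ℝ)) * Λ ^ 2 := by ring
      _ ≤ V / 3 * Λ ^ 2 := by
          apply mul_le_mul_of_nonneg_right _ (by positivity)
          rw [div_le_iff₀ hR34]
          rw [div_le_iff₀ hV] at hR2
          linarith
  have hT3 : ∑ r ∈ (Ico 1 (8 * D₀)).filter (fun r => M ≤ r),
      1 / ((r + 1).totient : ℝ) * csum r b X ≤ V / 3 * Λ ^ 2 := by
    have hLp : 0 < L ^ (1 / 16 : ℝ) := by positivity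
    have h1 : ∀ r ∈ (Ico 1 (8 * D₀)).filter (fun r => M ≤ r),
        1 / ((r + 1).totient : ℝ) * csum r b X ≤
        1 / L ^ (1 / 16 : ℝ) * (((r : ℝ) + 1) / ((r + 1).totient : ℝ) * csum r b X) := by
      intro r hr
      rw [Finset.mem_filter, Finset.mem_Ico] at hr
      have hφr : (0 : ℝ) < (r + 1).totient := by exact_mod_cast Nat.totient_pos.2 (by omega)
      rw [← mul_assoc]
      apply mul_le_mul_of_nonneg_right _ (csum_nonneg r b X)
      rw [one_div_mul_eq_div, div_div, div_le_div_iff₀ hφr (by positivity), one_mul]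
      have h2 : (M : ℝ) ≤ r := by exact_mod_cast hr.2
      have h3 : L ^ (1 / 16 : ℝ) ≤ (r : ℝ) + 1 := by linarith
      nlinarith
    refine (Finset.sum_le_sum h1).trans ?_
    rw [← Finset.mul_sum]
    have h2 : ∑ r ∈ (Ico 1 (8 * D₀)).filter (fun r => M ≤ r),
        ((r : ℝ) + 1) / ((r + 1).totient : ℝ) * csum r b X ≤
        ∑ r ∈ range (8 * D₀ + 1), ((r : ℝ) + 1) / ((r + 1).totient : ℝ) * csum r b X := by
      apply Finset.sum_le_sum_of_subset_of_nonneg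
      · intro r hr
        rw [Finset.mem_filter, Finset.mem_Ico] at hr
        exact Finset.mem_range.mpr (by omega)
      · intro r _ _
        exact mul_nonneg (by positivity) (csum_nonneg r b X)
    calc 1 / L ^ (1 / 16 : ℝ) * ∑ r ∈ (Ico 1 (8 * D₀)).filter (fun r => M ≤ r),
          ((r : ℝ) + 1) / ((r + 1).totient : ℝ) * csum r b X
        ≤ 1 / L ^ (1 / 16 : ℝ) * (CS * (3 * L) * (C₂ * Λ)) :=
          mul_le_mul_of_nonneg_left (h2.trans hLSM) (by positivity)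
      _ = 3 * CS * C₂ * Real.log L / L ^ (1 / 16 : ℝ) * Λ ^ 2 := by
          have h3 : L = Λ * Real.log L := by rw [hΛ]; field_simp
          have h4 : CS * (3 * L) * (C₂ * Λ) = 3 * CS * C₂ * Real.log L * Λ ^ 2 := by
            calc CS * (3 * L) * (C₂ * Λ) = CS * (3 * (Λ * Real.log L)) * (C₂ * Λ) := by rw [← h3]
              _ = _ := by ring
          rw [h4]; ring
      _ ≤ V / 3 * Λ ^ 2 := by
          apply mul_le_mul_of_nonneg_right _ (by positivity)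
          rw [div_le_iff₀ hLp]
          have h5 : 9 * CS * C₂ / V * Real.log L * V ≤ L ^ (1 / 16 : ℝ) * V :=
            mul_le_mul_of_nonneg_right hd hV.le
          have h6 : 9 * CS * C₂ / V * Real.log L * V = 9 * CS * C₂ * Real.log L := by field_simp
          rw [h6] at h5
          linarith
  rw [← hΛ]
  linarith

lemma bq_le {L e0 B : ℝ} {b : ℕ → ℝ} (hb : ∀ u, |b u| ≤ B * rInd (L ^ e0) u) (g u : ℕ) :
    |bq g b u| ≤ B * rInd (L ^ e0) u := by
  unfold bq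
  split_ifs
  · exact hb u
  · rw [abs_zero]; exact (abs_nonneg _).trans (hb u)

/-- the coefficients at integers not coprime to `n` are negligible -/
lemma badsum {L e0 B : ℝ} (hL : 1 < L) (he : 0 < e0) (hB : 0 < B) {b : ℕ → ℝ}
    (hb : ∀ u, |b u| ≤ B * rInd (L ^ e0) u) {n : ℕ} (hn : 0 < n) (hnL : (n : ℝ) ≤ L) :
    ∑ u ∈ (Icc 1 ⌊2 * L⌋₊).filter (fun u => ¬ Nat.Coprime u n), |b u|
      ≤ B * (2 / e0 * L ^ (1 - e0)) := by
  have h1 : ∑ u ∈ (Icc 1 ⌊2 * L⌋₊).filter (fun u => ¬ Nat.Coprime u n), |b u| ≤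
      ∑ u ∈ (Icc 1 ⌊2 * L⌋₊).filter (fun u => ¬ Nat.Coprime u n),
        B * (if Rough (L ^ e0) u then 1 else 0) := by
    apply Finset.sum_le_sum
    intro u _
    exact hb u
  refine h1.trans ?_
  rw [← Finset.mul_sum, Finset.sum_boole, Finset.filter_filter]
  apply mul_le_mul_of_nonneg_left _ hB.le
  have h2 := badcount hL he hn hnL
  have h3 : (Icc 1 ⌊2 * L⌋₊).filter (fun u => ¬ Nat.Coprime u n ∧ Rough (L ^ e0) u) =
      (Icc 1 ⌊2 * L⌋₊).filter (fun u => Rough (L ^ e0) u ∧ ¬ Nat.Coprime u n) := by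
    apply Finset.filter_congr
    intro u _
    exact and_comm
  rw [h3]
  exact h2

end BDH

open BDH in
theorem specBDH (hLS : SpecLS) (hLR : SpecLR) (hBT : SpecBT) (hRSUM : SpecRSUM) : SpecBDH := by
  intro B e0 ϖ hB he hϖ
  obtain ⟨Cs, hCs, hsp⟩ := sumphi
  obtain ⟨K, hK, L1, hG⟩ := sumG hRSUM e0 he
  obtain ⟨R, κ, hκ, L2, hA⟩ := analytic hLS hLR hBT B e0 (ϖ / (2 * Cs * K)) hB he (by positivity)
  obtain ⟨L3, hL31, hL3⟩ := ev (B * (2 / e0) * (2 / κ)) e0 he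
  obtain ⟨L4, hL41, hL4⟩ := ev (B * (2 / e0) * √(2 * Cs / ϖ)) e0 he
  obtain ⟨L5, hL51, hL5⟩ := ev' 8 (2 / 3) (by norm_num)
  obtain ⟨L6, hL61, hL6⟩ := ev' 3 e0 he
  refine ⟨R, κ / 2, half_pos hκ, max (max L1 L2) (L3 + L4 + L5 + L6 + 3), ?_⟩
  intro L b hL hb hsupp hψ D₀ hD1 hD
  have hLa : L1 ≤ L := le_trans (le_trans (le_max_left _ _) (le_max_left _ _)) hL
  have hLb : L2 ≤ L := le_trans (le_trans (le_max_right _ _) (le_max_left _ _)) hL
  have hLc : L3 + L4 + L5 + L6 + 3 ≤ L := le_trans (le_max_right _ _) hL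
  have hLge : 3 ≤ L := by linarith
  have hL0 : 0 < L := by linarith
  have hLgt : 1 < L := by linarith
  have h3 := hL3 L (by linarith)
  have h4 := hL4 L (by linarith)
  have h5 := hL5 L (by linarith)
  have h6 := hL6 L (by linarith)
  have hlog0 : 0 < Real.log L := Real.log_pos hLgt
  obtain ⟨Λ, hΛ⟩ : ∃ Λ : ℝ, Λ = L / Real.log L := ⟨_, rfl⟩
  have hΛ0 : 0 < Λ := by rw [hΛ]; positivity
  obtain ⟨W, hW⟩ : ∃ W : ℝ, W = B * (2 / e0 * L ^ (1 - e0)) := ⟨_, rfl⟩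
  have hW0 : 0 < W := by rw [hW]; positivity
  have hLL : L ^ (1 - e0) * L ^ e0 = L := by
    rw [← Real.rpow_add hL0]; simp
  have hW1 : W ≤ κ / 2 * Λ := by
    have h7 : L ^ (1 - e0) * (B * (2 / e0) * (2 / κ) * Real.log L) ≤ L ^ (1 - e0) * L ^ e0 :=
      mul_le_mul_of_nonneg_left h3 (by positivity)
    rw [hLL] at h7
    have h8 : L ^ (1 - e0) * (B * (2 / e0) * (2 / κ) * Real.log L) = W * (2 / κ) * Real.log L := by
      rw [hW]; ring
    rw [h8] at h7
    have h9 : W * (2 / κ) ≤ Λ := by rw [hΛ, le_div_iff₀ hlog0]; exact h7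
    have h10 : W * (2 / κ) * (κ / 2) = W := by field_simp
    calc W = W * (2 / κ) * (κ / 2) := h10.symm
      _ ≤ Λ * (κ / 2) := mul_le_mul_of_nonneg_right h9 (by positivity)
      _ = _ := by ring
  have hW2 : W ^ 2 * Cs ≤ ϖ / 2 * Λ ^ 2 := by
    have h7 : L ^ (1 - e0) * (B * (2 / e0) * √(2 * Cs / ϖ) * Real.log L) ≤
        L ^ (1 - e0) * L ^ e0 := mul_le_mul_of_nonneg_left h4 (by positivity)
    rw [hLL] at h7
    have h8 : L ^ (1 - e0) * (B * (2 / e0) * √(2 * Cs / ϖ) * Real.log L) =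
        W * √(2 * Cs / ϖ) * Real.log L := by
      rw [hW]; ring
    rw [h8] at h7
    have h9 : W * √(2 * Cs / ϖ) ≤ Λ := by rw [hΛ, le_div_iff₀ hlog0]; exact h7
    have h10 : (W * √(2 * Cs / ϖ)) ^ 2 ≤ Λ ^ 2 := pow_le_pow_left₀ (by positivity) h9 2
    rw [mul_pow, Real.sq_sqrt (by positivity)] at h10
    have h11 : W ^ 2 * Cs = ϖ / 2 * (W ^ 2 * (2 * Cs / ϖ)) := by field_simp
    rw [h11]
    exact mul_le_mul_of_nonneg_left h10 (by positivity)
  have h8D : 8 * (D₀ : ℝ) ≤ L := by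
    have h7 : L = L ^ (2 / 3 : ℝ) * L ^ (1 / 3 : ℝ) := by
      rw [← Real.rpow_add hL0]; norm_num
    calc 8 * (D₀ : ℝ) ≤ L ^ (2 / 3 : ℝ) * L ^ (1 / 3 : ℝ) :=
          mul_le_mul h5 hD (Nat.cast_nonneg _) (by positivity)
      _ = L := h7.symm
  have hrough : ∀ u, b u ≠ 0 → Rough (L ^ e0) u := by
    intro u hu
    by_contra hc
    have h2 := hb u
    unfold rInd at h2
    rw [if_neg hc, mul_zero] at h2
    exact hu (abs_eq_zero.mp (le_antisymm h2 (abs_nonneg _)))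
  obtain ⟨X, hX⟩ : ∃ X : ℕ, X = ⌊2 * L⌋₊ := ⟨_, rfl⟩
  -- the sum over `g`
  have hAg : ∀ g ∈ (Icc 1 (2 * D₀)).filter (fun g => Rough (L ^ e0) g),
      ∑ r ∈ Ico 1 (8 * D₀), 1 / ((r + 1).totient : ℝ) * csum r (bq g b) X ≤
        ϖ / (2 * Cs * K) * Λ ^ 2 := by
    intro g hg
    rw [Finset.mem_filter, Finset.mem_Icc] at hg
    have hgL : (g : ℝ) ≤ L := by
      have h7 : (g : ℝ) ≤ 2 * D₀ := by exact_mod_cast hg.1.2
      have h8 : (0 : ℝ) ≤ D₀ := Nat.cast_nonneg _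
      linarith
    have h7 := hA L (bq g b) hLb (bq_le hb g) (by
      intro r hr ψ hψ1
      have h8 := hψ r hr ψ hψ1
      have h9 : ∑ u ∈ Icc 1 ⌊2 * L⌋₊, ((bq g b u : ℝ) : ℂ) * ψ (u : ZMod (r + 1)) =
          (∑ u ∈ Icc 1 ⌊2 * L⌋₊, (b u : ℂ) * ψ (u : ZMod (r + 1))) -
          ∑ u ∈ (Icc 1 ⌊2 * L⌋₊).filter (fun u => ¬ Nat.Coprime u g),
            (b u : ℂ) * ψ (u : ZMod (r + 1)) := by
        rw [Finset.sum_filter, ← Finset.sum_sub_distrib]
        apply Finset.sum_congr rfl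
        intro u _
        unfold bq
        by_cases h : Nat.Coprime u g
        · rw [if_pos h, if_neg (not_not.mpr h), sub_zero]
        · rw [if_neg h, if_pos h]; simp
      have h10 : ‖∑ u ∈ (Icc 1 ⌊2 * L⌋₊).filter (fun u => ¬ Nat.Coprime u g),
            (b u : ℂ) * ψ (u : ZMod (r + 1))‖ ≤ W := by
        rw [hW]
        refine le_trans (norm_sum_le _ _) (le_trans ?_ (badsum hLgt he hB hb hg.1.1 hgL))
        apply Finset.sum_le_sum
        intro u _
        rw [norm_mul, Complex.norm_real, Real.norm_eq_abs]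
        calc |b u| * ‖ψ (u : ZMod (r + 1))‖ ≤ |b u| * 1 :=
              mul_le_mul_of_nonneg_left (ψ.norm_le_one _) (abs_nonneg _)
          _ = _ := mul_one _
      rw [h9]
      have h11 := norm_sub_le (∑ u ∈ Icc 1 ⌊2 * L⌋₊, (b u : ℂ) * ψ (u : ZMod (r + 1)))
        (∑ u ∈ (Icc 1 ⌊2 * L⌋₊).filter (fun u => ¬ Nat.Coprime u g),
            (b u : ℂ) * ψ (u : ZMod (r + 1)))
      have h12 : κ / 2 * L / Real.log L = κ / 2 * Λ := by rw [hΛ]; ring
      have h13 : κ * L / Real.log L = κ / 2 * Λ + κ / 2 * Λ := by rw [hΛ]; ring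
      rw [h12] at h8
      rw [h13]
      linarith) D₀ hD
    rw [← hX, ← hΛ] at h7
    exact h7
  have hmain := reduction hsp (z := L ^ e0) (by linarith) hrough X D₀ hD1
  have hmain2 : Cs * ∑ g ∈ (Icc 1 (2 * D₀)).filter (fun g => Rough (L ^ e0) g),
      1 / (g.totient : ℝ) * ∑ r ∈ Ico 1 (8 * D₀), 1 / ((r + 1).totient : ℝ) * csum r (bq g b) X ≤
      ϖ / 2 * Λ ^ 2 := by
    have h7 : ∑ g ∈ (Icc 1 (2 * D₀)).filter (fun g => Rough (L ^ e0) g),
      1 / (g.totient : ℝ) * ∑ r ∈ Ico 1 (8 * D₀), 1 / ((r + 1).totient : ℝ) * csum r (bq g b) X ≤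
      ∑ g ∈ (Icc 1 (2 * D₀)).filter (fun g => Rough (L ^ e0) g),
        1 / (g.totient : ℝ) * (ϖ / (2 * Cs * K) * Λ ^ 2) := by
      apply Finset.sum_le_sum
      intro g hg
      exact mul_le_mul_of_nonneg_left (hAg g hg) (by positivity)
    rw [← Finset.sum_mul] at h7
    have h8 := hG L hLa D₀ hD
    calc _ ≤ Cs * (K * (ϖ / (2 * Cs * K) * Λ ^ 2)) := by
          apply mul_le_mul_of_nonneg_left _ hCs.le
          exact h7.trans (mul_le_mul_of_nonneg_right h8 (by positivity))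
      _ = ϖ / 2 * Λ ^ 2 := by field_simp
  -- the sum over `d`
  have hd : ∀ d ∈ Ioc D₀ (2 * D₀),
      ∑ c ∈ (range (4 * d)).filter (fun c => Nat.Coprime c (4 * d)),
      ((∑ u ∈ (Icc 1 ⌊2 * L⌋₊).filter (fun u => u % (4 * d) = c), b u)
        - (∑ u ∈ Icc 1 ⌊2 * L⌋₊, b u) / ((4 * d).totient : ℝ)) ^ 2 ≤
      1 / ((4 * d).totient : ℝ) *
        (∑ r ∈ (range (4 * d)).filter (fun r => 1 ≤ r ∧ r + 1 ∣ 4 * d), csum r (bq (4 * d) b) X)
      + 1 / ((4 * d).totient : ℝ) * W ^ 2 := by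
    intro d hd
    rw [Finset.mem_Ioc] at hd
    have : NeZero (4 * d) := ⟨by omega⟩
    have hdL : ((4 * d : ℕ) : ℝ) ≤ L := by
      have h7 : ((4 * d : ℕ) : ℝ) ≤ 8 * D₀ := by
        have : 4 * d ≤ 8 * D₀ := by omega
        exact_mod_cast this
      linarith
    rw [← hX, variance (4 * d) b X, ← mul_add]
    apply mul_le_mul_of_nonneg_left _ (by positivity)
    apply add_le_add (char_split (4 * d) b X)
    rw [← sq_abs]
    apply pow_le_pow_left₀ (abs_nonneg _)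
    rw [hW, hX]
    exact (Finset.abs_sum_le_sum_abs _ _).trans (badsum hLgt he hB hb (by omega) hdL)
  have hE : ∑ d ∈ Ioc D₀ (2 * D₀), 1 / ((4 * d).totient : ℝ) * W ^ 2 ≤ ϖ / 2 * Λ ^ 2 := by
    rw [← Finset.sum_mul]
    have h7 := hsp D₀ 1 hD1 le_rfl
    have h8 : (Ioc D₀ (2 * D₀)).filter (fun d => 1 ∣ 4 * d) = Ioc D₀ (2 * D₀) := by
      apply Finset.filter_true_of_mem
      intro d _
      exact one_dvd _
    rw [h8, Nat.totient_one, Nat.cast_one, div_one] at h7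
    calc (∑ d ∈ Ioc D₀ (2 * D₀), 1 / ((4 * d).totient : ℝ)) * W ^ 2 ≤ Cs * W ^ 2 :=
          mul_le_mul_of_nonneg_right h7 (by positivity)
      _ = W ^ 2 * Cs := mul_comm _ _
      _ ≤ _ := hW2
  have hfin := (Finset.sum_le_sum hd)
  rw [Finset.sum_add_distrib] at hfin
  have hgoal : ϖ * L ^ 2 / (Real.log L) ^ 2 = ϖ / 2 * Λ ^ 2 + ϖ / 2 * Λ ^ 2 := by
    rw [hΛ]; field_simp; ring
  rw [hgoal]
  linarith [hmain.trans hmain2]

end Pool.Agent.Lib.MP391708.QPA
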