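import Pool.Agent.Lib.MP_391708_nt.QPA.Spec

set_option autoImplicit false

namespace Pool.Agent.Lib.MP391708.QPA.BDHP

open Finset Filter Topology
open scoped Classical

/-- number of `u ≡ c (mod q)` in `(x, y]` without prime factors `≤ w`, when no prime `≤ w` divides both `q` and `c`.
Proof: the primes `p ≤ w`, `p ∣ q` do not divide `u` automatically. For a finite set `S` of primes not dividing `q`, by induction on `S`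
(for all `q`, `c`): `|#{u ∈ (x,y] : u ≡ c (q), no p ∈ S divides u} - ((y-x)/q) ∏_{p∈S} (1-1/p)| ≤ 2^|S|`, since
`N(S ∪ {p}; q, c) = N(S; q, c) - N(S; pq, c')`, `c' ≡ c (q)`, `c' ≡ 0 (p)`. Base: `|#{u ∈ (x,y] : u ≡ c (q)} - (y-x)/q| ≤ 1`. -/
def SpecCls : Prop := ∀ (w q c x y : ℕ), 1 ≤ q → c < q → (∀ p : ℕ, p.Prime → p ≤ w → p ∣ q → ¬ p ∣ c) → x ≤ y →
  |(((Ioc x y).filter (fun u => u % q = c ∧ Rough ((w : ℝ) + 1) u)).card : ℝ)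
      - ((y : ℝ) - x) / q * ∏ p ∈ (PB ((w : ℝ) + 1)).filter (fun p => ¬ p ∣ q), (1 - 1 / (p : ℝ))|
    ≤ 2 ^ (w + 1)

/-- averages of `1/φ`. `d/φ(d) = ∏_{p∣d} (1 + 1/(p-1)) ≤ 2 ∑_{m∣d} m^(-1/2)`, hence `∑_{D<d≤2D} 1/φ(4d) ≤ C`; and
`φ(4pd') ≥ φ(p) φ(4d')`: for the second sum `≤ ∑_{p>w} (1/(p(p-1))) · C ≤ C'/w`. -/
def SpecTot : Prop := ∃ C : ℝ, 0 < C ∧ ∀ D w : ℕ, 1 ≤ D → 1 ≤ w →
  ∑ d ∈ Ioc D (2 * D), 1 / ((4 * d).totient : ℝ) ≤ C ∧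
  ∑ d ∈ Ioc D (2 * D), 1 / ((4 * d).totient : ℝ) *
    ∑ p ∈ d.primeFactors.filter (fun p => w < p), 1 / (p : ℝ) ≤ C / w

end Pool.Agent.Lib.MP391708.QPA.BDHP
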