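import Mathlib
import Pool.Agent.Lib.MP_391708_nt.QPA.BDHPdefs

/-!
# Rough numbers in residue classes (for the module BDHP of the project QPA)
-/

set_option autoImplicit false

namespace Pool.Agent.Lib.MP391708.QPA.BDHPCls

open Finset Filter Topology
open scoped Classical

lemma base (q c x y : ℕ) (hq : 1 ≤ q) (hc : c < q) (hxy : x ≤ y) :
    |(((Ioc x y).filter (fun u => u % q = c)).card : ℝ) - ((y : ℝ) - x) / q| ≤ 1 := by
  have hqR : (0 : ℝ) < q := by exact_mod_cast hq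
  have h1 : (Ioc x y).filter (fun u => u % q = c) = (Ioc x y).filter (fun u => u ≡ c [MOD q]) := by
    refine Finset.filter_congr (fun u _ => ?_)
    unfold Nat.ModEq
    rw [Nat.mod_eq_of_lt hc]
  have h2 := Nat.Ioc_filter_modEq_card x y (show 0 < q by omega) c
  rw [h1]
  have h3 : ((((Ioc x y).filter (fun u => u ≡ c [MOD q])).card : ℤ) : ℝ)
      = max (((⌊((y : ℚ) - c) / q⌋ - ⌊((x : ℚ) - c) / q⌋ : ℤ)) : ℝ) 0 := by
    rw [h2]
    push_cast
    rfl
  have h4 : (((Ioc x y).filter (fun u => u ≡ c [MOD q])).card : ℝ)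
      = ((((Ioc x y).filter (fun u => u ≡ c [MOD q])).card : ℤ) : ℝ) := by push_cast; rfl
  rw [h4, h3]
  set A : ℤ := ⌊((y : ℚ) - c) / q⌋ with hA
  set B : ℤ := ⌊((x : ℚ) - c) / q⌋ with hB
  have hqQ : (0 : ℚ) < q := by exact_mod_cast hq
  have hBA : B ≤ A := by
    refine Int.floor_le_floor ?_
    refine div_le_div_of_nonneg_right ?_ hqQ.le
    have : (x : ℚ) ≤ y := by exact_mod_cast hxy
    linarith
  have hBAR : (B : ℝ) ≤ A := by exact_mod_cast hBA
  have h5 : max (((A - B : ℤ)) : ℝ) 0 = (A : ℝ) - B := by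
    push_cast
    exact max_eq_left (by linarith)
  rw [h5]
  have e1 : (A : ℝ) ≤ ((y : ℝ) - c) / q := by
    have := Int.floor_le (((y : ℚ) - c) / q)
    rw [← hA] at this
    have h6 : ((A : ℚ) : ℝ) ≤ ((((y : ℚ) - c) / q : ℚ) : ℝ) := by exact_mod_cast this
    push_cast at h6
    exact h6
  have e2 : ((y : ℝ) - c) / q < A + 1 := by
    have := Int.lt_floor_add_one (((y : ℚ) - c) / q)
    rw [← hA] at this
    have h6 : ((((y : ℚ) - c) / q : ℚ) : ℝ) < (((A : ℚ) + 1 : ℚ) : ℝ) := by exact_mod_cast this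
    push_cast at h6
    exact h6
  have e3 : (B : ℝ) ≤ ((x : ℝ) - c) / q := by
    have := Int.floor_le (((x : ℚ) - c) / q)
    rw [← hB] at this
    have h6 : ((B : ℚ) : ℝ) ≤ ((((x : ℚ) - c) / q : ℚ) : ℝ) := by exact_mod_cast this
    push_cast at h6
    exact h6
  have e4 : ((x : ℝ) - c) / q < B + 1 := by
    have := Int.lt_floor_add_one (((x : ℚ) - c) / q)
    rw [← hB] at this
    have h6 : ((((x : ℚ) - c) / q : ℚ) : ℝ) < (((B : ℚ) + 1 : ℚ) : ℝ) := by exact_mod_cast this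
    push_cast at h6
    exact h6
  have e5 : ((y : ℝ) - x) / q = ((y : ℝ) - c) / q - ((x : ℝ) - c) / q := by
    rw [← sub_div]
    ring
  rw [e5, abs_le]
  constructor <;> linarith

lemma sieve (x y : ℕ) (hxy : x ≤ y) (S : Finset ℕ) : ∀ q c : ℕ, 1 ≤ q → c < q →
    (∀ p ∈ S, p.Prime ∧ ¬ p ∣ q) →
    |(((Ioc x y).filter (fun u => u % q = c ∧ ∀ p ∈ S, ¬ p ∣ u)).card : ℝ)
      - ((y : ℝ) - x) / q * ∏ p ∈ S, (1 - 1 / (p : ℝ))| ≤ 2 ^ S.card := by
  induction S using Finset.induction_on with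
  | empty =>
    intro q c hq hc _
    simpa using base q c x y hq hc hxy
  | insert p S hpS ih =>
    intro q c hq hc hS
    obtain ⟨hp, hpq⟩ := hS p (Finset.mem_insert_self p S)
    have hS' : ∀ r ∈ S, r.Prime ∧ ¬ r ∣ q := fun r hr => hS r (Finset.mem_insert_of_mem hr)
    have hco : Nat.Coprime q p := ((Nat.Prime.coprime_iff_not_dvd hp).mpr hpq).symm
    have hppos : 0 < p := hp.pos
    have hqpos : 0 < q := hq
    set c' : ℕ := (Nat.chineseRemainder hco c 0 : ℕ) with hc'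
    have hc1 : c' ≡ c [MOD q] := (Nat.chineseRemainder hco c 0).2.1
    have hc2 : c' ≡ 0 [MOD p] := (Nat.chineseRemainder hco c 0).2.2
    have hclt : c' < q * p := Nat.chineseRemainder_lt_mul hco c 0 (by omega) (by omega)
    have h1 := ih q c hq hc hS'
    have h2 := ih (q * p) c' (Nat.mul_pos hqpos hppos) hclt (by
      intro r hr
      obtain ⟨hr1, hr2⟩ := hS' r hr
      refine ⟨hr1, ?_⟩
      intro h
      rcases (Nat.Prime.dvd_mul hr1).mp h with h3 | h3
      · exact hr2 h3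
      · have : r = p := (Nat.prime_dvd_prime_iff_eq hr1 hp).mp h3
        rw [this] at hr
        exact hpS hr)
    have hiff : ∀ u : ℕ, (u % (q * p) = c') ↔ (u % q = c ∧ p ∣ u) := by
      intro u
      have e1 : u % (q * p) = c' ↔ u ≡ c' [MOD q * p] := by
        unfold Nat.ModEq
        rw [Nat.mod_eq_of_lt hclt]
      have e2 : u % q = c ↔ u ≡ c [MOD q] := by
        unfold Nat.ModEq
        rw [Nat.mod_eq_of_lt hc]
      have e3 : p ∣ u ↔ u ≡ 0 [MOD p] := (Nat.modEq_zero_iff_dvd).symm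
      rw [e1, e2, e3, ← Nat.modEq_and_modEq_iff_modEq_mul hco]
      constructor
      · rintro ⟨a, b⟩
        exact ⟨a.trans hc1, b.trans hc2⟩
      · rintro ⟨a, b⟩
        exact ⟨a.trans hc1.symm, b.trans hc2.symm⟩
    have hcard : ((Ioc x y).filter (fun u => u % q = c ∧ ∀ r ∈ S, ¬ r ∣ u)).card
        = ((Ioc x y).filter (fun u => u % q = c ∧ ∀ r ∈ insert p S, ¬ r ∣ u)).card
          + ((Ioc x y).filter (fun u => u % (q * p) = c' ∧ ∀ r ∈ S, ¬ r ∣ u)).card := by
      have hd : Disjoint ((Ioc x y).filter (fun u => u % q = c ∧ ∀ r ∈ insert p S, ¬ r ∣ u))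
          ((Ioc x y).filter (fun u => u % (q * p) = c' ∧ ∀ r ∈ S, ¬ r ∣ u)) := by
        rw [Finset.disjoint_left]
        intro u hu hu'
        rw [Finset.mem_filter] at hu hu'
        exact hu.2.2 p (Finset.mem_insert_self p S) ((hiff u).mp hu'.2.1).2
      rw [← Finset.card_union_of_disjoint hd]
      congr 1
      ext u
      simp only [Finset.mem_union, Finset.mem_filter]
      rw [hiff u]
      constructor
      · rintro ⟨a, b, d⟩
        by_cases hpu : p ∣ u
        · exact Or.inr ⟨a, ⟨b, hpu⟩, d⟩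
        · left
          refine ⟨a, b, ?_⟩
          intro r hr
          rcases Finset.mem_insert.mp hr with h | h
          · rw [h]; exact hpu
          · exact d r h
      · rintro (⟨a, b, d⟩ | ⟨a, ⟨b, -⟩, d⟩)
        · exact ⟨a, b, fun r hr => d r (Finset.mem_insert_of_mem hr)⟩
        · exact ⟨a, b, d⟩
    have hcardR : (((Ioc x y).filter (fun u => u % q = c ∧ ∀ r ∈ S, ¬ r ∣ u)).card : ℝ)
        = (((Ioc x y).filter (fun u => u % q = c ∧ ∀ r ∈ insert p S, ¬ r ∣ u)).card : ℝ)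
          + (((Ioc x y).filter (fun u => u % (q * p) = c' ∧ ∀ r ∈ S, ¬ r ∣ u)).card : ℝ) := by
      exact_mod_cast hcard
    rw [Finset.prod_insert hpS, Finset.card_insert_of_notMem hpS, pow_succ]
    have hpR : (0 : ℝ) < p := by exact_mod_cast hppos
    have hqR : (0 : ℝ) < q := by exact_mod_cast hqpos
    have hmain : ((y : ℝ) - x) / q * ((1 - 1 / (p : ℝ)) * ∏ r ∈ S, (1 - 1 / (r : ℝ)))
        = ((y : ℝ) - x) / q * ∏ r ∈ S, (1 - 1 / (r : ℝ))
          - ((y : ℝ) - x) / ((q * p : ℕ) : ℝ) * ∏ r ∈ S, (1 - 1 / (r : ℝ)) := by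
      push_cast
      field_simp
    rw [hmain]
    rw [abs_le] at h1 h2 ⊢
    constructor <;> linarith [h1.1, h1.2, h2.1, h2.2]

end Pool.Agent.Lib.MP391708.QPA.BDHPCls

namespace Pool.Agent.Lib.MP391708.QPA.BDHP

open Finset Filter Topology
open scoped Classical

/-- **The counting lemma of BDHP.** -/
theorem specCls : SpecCls := by
  intro w q c x y hq hc hp hxy
  set S : Finset ℕ := (PB ((w : ℝ) + 1)).filter (fun p => ¬ p ∣ q) with hS
  have hmemS : ∀ p : ℕ, p ∈ S ↔ (p.Prime ∧ p ≤ w) ∧ ¬ p ∣ q := by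
    intro p
    have hceil : ⌈(w : ℝ) + 1⌉₊ = w + 1 := by
      rw [show ((w : ℝ) + 1) = ((w + 1 : ℕ) : ℝ) by push_cast; ring]
      exact Nat.ceil_natCast _
    rw [hS, PB, Finset.mem_filter, Finset.mem_filter, Finset.mem_range, hceil, Nat.lt_succ_iff]
    tauto
  have h1 := BDHPCls.sieve x y hxy S q c hq hc (fun p hpS => by
    obtain ⟨⟨a, -⟩, b⟩ := (hmemS p).mp hpS
    exact ⟨a, b⟩)
  have h2 : (Ioc x y).filter (fun u => u % q = c ∧ Rough ((w : ℝ) + 1) u)
      = (Ioc x y).filter (fun u => u % q = c ∧ ∀ p ∈ S, ¬ p ∣ u) := by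
    refine Finset.filter_congr (fun u _ => ?_)
    constructor
    · rintro ⟨a, b⟩
      refine ⟨a, ?_⟩
      intro p hpS hpu
      obtain ⟨⟨hpp, hpw⟩, -⟩ := (hmemS p).mp hpS
      have h3 := b p hpp hpu
      have h4 : (p : ℝ) ≤ w := by exact_mod_cast hpw
      linarith
    · rintro ⟨a, b⟩
      refine ⟨a, ?_⟩
      intro p hpp hpu
      by_contra hcon
      have h3 : p ≤ w := by
        have h4 : (p : ℝ) < ((w + 1 : ℕ) : ℝ) := by
          push_cast
          exact not_le.mp hcon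
        have h5 : p < w + 1 := by exact_mod_cast h4
        omega
      by_cases hpq : p ∣ q
      · have h5 : p ∣ c := by
          rw [← a]
          exact (Nat.dvd_mod_iff hpq).mpr hpu
        exact hp p hpp h3 hpq h5
      · exact b p ((hmemS p).mpr ⟨⟨hpp, h3⟩, hpq⟩) hpu
  rw [h2]
  refine h1.trans ?_
  refine pow_le_pow_right₀ (by norm_num) ?_
  have h3 : S ⊆ Finset.range (w + 1) := by
    intro p hpS
    have := ((hmemS p).mp hpS).1.2
    exact Finset.mem_range.mpr (by omega)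
  have h4 := Finset.card_le_card h3
  rwa [Finset.card_range] at h4

end Pool.Agent.Lib.MP391708.QPA.BDHP
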