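import Mathlib
import Pool.Agent.Lib.MP_391708_nt.Div

/-!
# Sums with Euler's function (for the module BDH)
-/

set_option autoImplicit false

namespace Pool.Agent.Lib.MP391708.QPA

open Finset Filter Topology
open scoped Classical

namespace BDH

lemma le_card_mul_totient {n : ℕ} (hn : 0 < n) : n ≤ n.divisors.card * n.totient := by
  calc n = ∑ d ∈ n.divisors, d.totient := (Nat.sum_totient n).symm
    _ ≤ ∑ _d ∈ n.divisors, n.totient := by
        refine Finset.sum_le_sum fun d hd => ?_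
        exact Nat.le_of_dvd (Nat.totient_pos.2 hn)
          (Nat.totient_dvd_of_dvd (Nat.dvd_of_mem_divisors hd))
    _ = n.divisors.card * n.totient := by rw [Finset.sum_const, smul_eq_mul]

/-- `φ(n) ≥ c n^(3/4)` -/
lemma totient_lower : ∃ C : ℝ, 0 < C ∧ ∀ n : ℕ, 0 < n →
    (n : ℝ) ^ (3 / 4 : ℝ) ≤ C * (n.totient : ℝ) := by
  obtain ⟨C, hC, h⟩ := Pool.Agent.Lib.MP_391708_nt.Div.card_divisors_le_rpow (1 / 4) (by norm_num)
  refine ⟨C, hC, fun n hn => ?_⟩
  have h1 : (n : ℝ) ≤ n.divisors.card * n.totient := by exact_mod_cast le_card_mul_totient hn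
  have h2 := h n hn
  have hn0 : (0 : ℝ) < n := by exact_mod_cast hn
  have h3 : (n : ℝ) = (n : ℝ) ^ (3 / 4 : ℝ) * (n : ℝ) ^ (1 / 4 : ℝ) := by
    rw [← Real.rpow_add hn0]; norm_num
  have h4 : (0 : ℝ) < (n : ℝ) ^ (1 / 4 : ℝ) := Real.rpow_pos_of_pos hn0 _
  have h5 : (n : ℝ) ^ (3 / 4 : ℝ) * (n : ℝ) ^ (1 / 4 : ℝ) ≤
      (C * (n.totient : ℝ)) * (n : ℝ) ^ (1 / 4 : ℝ) := by
    rw [← h3]
    calc (n : ℝ) ≤ n.divisors.card * n.totient := h1
      _ ≤ (C * (n : ℝ) ^ (1 / 4 : ℝ)) * n.totient :=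
          mul_le_mul_of_nonneg_right h2 (Nat.cast_nonneg _)
      _ = _ := by ring
  exact le_of_mul_le_mul_right h5 h4

/-- `n/φ(n) ≤ ∑_{e ∣ n} 1/φ(e)` -/
lemma div_totient_le {n : ℕ} (hn : 0 < n) :
    (n : ℝ) / (n.totient : ℝ) ≤ ∑ e ∈ n.divisors, 1 / (e.totient : ℝ) := by
  have hφ : (0 : ℝ) < n.totient := by exact_mod_cast Nat.totient_pos.2 hn
  have h1 : (n : ℝ) = ∑ d ∈ n.divisors, ((n / d).totient : ℝ) := by
    have := Nat.sum_totient n
    rw [← Nat.sum_div_divisors n (fun d => d.totient)] at this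
    exact_mod_cast this.symm
  rw [div_le_iff₀ hφ]
  calc (n : ℝ) = ∑ d ∈ n.divisors, ((n / d).totient : ℝ) := h1
    _ ≤ ∑ d ∈ n.divisors, 1 / (d.totient : ℝ) * (n.totient : ℝ) := by
        apply Finset.sum_le_sum
        intro d hd
        have hd' := Nat.dvd_of_mem_divisors hd
        have hd0 : 0 < d := Nat.pos_of_mem_divisors hd
        have hdφ : (0 : ℝ) < d.totient := by exact_mod_cast Nat.totient_pos.2 hd0
        have h2 : d.totient * (n / d).totient ≤ n.totient := by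
          have := Nat.totient_super_multiplicative d (n / d)
          rwa [Nat.mul_div_cancel' hd'] at this
        have h3 : (d.totient : ℝ) * ((n / d).totient : ℝ) ≤ n.totient := by exact_mod_cast h2
        rw [one_div, ← div_eq_inv_mul, le_div_iff₀ hdφ]
        linarith
    _ = _ := by rw [Finset.sum_mul]

/-- `∑ 1/(e φ(e))` is bounded -/
lemma sum_inv : ∃ C : ℝ, 0 < C ∧ ∀ M : ℕ,
    ∑ e ∈ Icc 1 M, 1 / ((e : ℝ) * (e.totient : ℝ)) ≤ C := by
  obtain ⟨C, hC, h⟩ := totient_lower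
  have hs : Summable (fun n : ℕ => 1 / (n : ℝ) ^ (7 / 4 : ℝ)) :=
    Real.summable_one_div_nat_rpow.mpr (by norm_num)
  have hnn : ∀ n : ℕ, 0 ≤ 1 / (n : ℝ) ^ (7 / 4 : ℝ) := fun n => by positivity
  refine ⟨C * (∑' n : ℕ, 1 / (n : ℝ) ^ (7 / 4 : ℝ)) + 1, ?_, fun M => ?_⟩
  · have : 0 ≤ ∑' n : ℕ, 1 / (n : ℝ) ^ (7 / 4 : ℝ) := tsum_nonneg hnn
    positivity
  · calc ∑ e ∈ Icc 1 M, 1 / ((e : ℝ) * (e.totient : ℝ))
        ≤ ∑ e ∈ Icc 1 M, C * (1 / (e : ℝ) ^ (7 / 4 : ℝ)) := by
          apply Finset.sum_le_sum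
          intro e he
          have he1 : 0 < e := (Finset.mem_Icc.mp he).1
          have he0 : (0 : ℝ) < e := by exact_mod_cast he1
          have hφ : (0 : ℝ) < e.totient := by exact_mod_cast Nat.totient_pos.2 he1
          have h2 := h e he1
          have h3 : (e : ℝ) ^ (7 / 4 : ℝ) = (e : ℝ) * (e : ℝ) ^ (3 / 4 : ℝ) := by
            have : (7 / 4 : ℝ) = 1 + 3 / 4 := by norm_num
            rw [this, Real.rpow_add he0, Real.rpow_one]
          have h4 : (0 : ℝ) < (e : ℝ) ^ (3 / 4 : ℝ) := Real.rpow_pos_of_pos he0 _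
          rw [h3, mul_one_div, div_le_div_iff₀ (by positivity) (by positivity)]
          nlinarith
      _ = C * ∑ e ∈ Icc 1 M, 1 / (e : ℝ) ^ (7 / 4 : ℝ) := by rw [Finset.mul_sum]
      _ ≤ C * (∑' n : ℕ, 1 / (n : ℝ) ^ (7 / 4 : ℝ)) :=
          mul_le_mul_of_nonneg_left (hs.sum_le_tsum _ (fun n _ => hnn n)) hC.le
      _ ≤ _ := by linarith

lemma count_mult {D₀ M : ℕ} (hM : 0 < M) :
    (((Ioc D₀ (2 * D₀)).filter (fun d => M ∣ 4 * d)).card : ℝ) ≤ 8 * D₀ / M := by
  have h1 : ((Ioc D₀ (2 * D₀)).filter (fun d => M ∣ 4 * d)).card ≤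
      (Icc 1 (8 * D₀ / M)).card := by
    apply Finset.card_le_card_of_injOn (fun d => 4 * d / M)
    · intro d hd
      rw [Finset.mem_coe, Finset.mem_filter, Finset.mem_Ioc] at hd
      obtain ⟨⟨h1, h2⟩, k, hk⟩ := hd
      rw [Finset.mem_coe, Finset.mem_Icc]
      simp only
      rw [hk, Nat.mul_div_cancel_left _ hM]
      constructor
      · rcases Nat.eq_zero_or_pos k with h0 | h0
        · rw [h0] at hk; omega
        · exact h0
      · rw [Nat.le_div_iff_mul_le hM]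
        calc k * M = M * k := mul_comm _ _
          _ = 4 * d := hk.symm
          _ ≤ _ := by omega
    · intro d hd d' hd' heq
      rw [Finset.mem_coe, Finset.mem_filter] at hd hd'
      obtain ⟨k, hk⟩ := hd.2
      obtain ⟨k', hk'⟩ := hd'.2
      simp only at heq
      rw [hk, hk', Nat.mul_div_cancel_left _ hM, Nat.mul_div_cancel_left _ hM] at heq
      rw [heq] at hk
      omega
  rw [Nat.card_Icc, Nat.add_sub_cancel] at h1
  calc (((Ioc D₀ (2 * D₀)).filter (fun d => M ∣ 4 * d)).card : ℝ) ≤ ((8 * D₀ / M : ℕ) : ℝ) := by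
        exact_mod_cast h1
    _ ≤ ((8 * D₀ : ℕ) : ℝ) / M := Nat.cast_div_le
    _ = _ := by push_cast; ring

/-- `∑_{D₀ < d ≤ 2D₀, m ∣ 4d} 1/φ(4d) ≤ C/φ(m)` -/
lemma sumphi : ∃ C : ℝ, 0 < C ∧ ∀ D₀ m : ℕ, 1 ≤ D₀ → 1 ≤ m →
    ∑ d ∈ (Ioc D₀ (2 * D₀)).filter (fun d => m ∣ 4 * d), 1 / ((4 * d).totient : ℝ)
      ≤ C / (m.totient : ℝ) := by
  obtain ⟨C, hC, h⟩ := sum_inv
  refine ⟨2 * C, by positivity, fun D₀ m hD hm => ?_⟩
  have hD0 : (0 : ℝ) < D₀ := by exact_mod_cast hD
  have hm0 : (0 : ℝ) < m := by exact_mod_cast hm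
  have hφm : (0 : ℝ) < m.totient := by exact_mod_cast Nat.totient_pos.2 hm
  set s := (Ioc D₀ (2 * D₀)).filter (fun d => m ∣ 4 * d) with hs
  have hterm : ∀ d ∈ s, 1 / ((4 * d).totient : ℝ) ≤
      m / (4 * D₀ * m.totient) * ∑ e ∈ (Icc 1 (8 * D₀)).filter (fun e => m * e ∣ 4 * d),
        1 / (e.totient : ℝ) := by
    intro d hd
    rw [hs, Finset.mem_filter, Finset.mem_Ioc] at hd
    obtain ⟨⟨h1, h2⟩, k, hk⟩ := hd
    have hk0 : 0 < k := by
      rcases Nat.eq_zero_or_pos k with h0 | h0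
      · rw [h0] at hk; omega
      · exact h0
    have hk0' : (0 : ℝ) < k := by exact_mod_cast hk0
    have hφk : (0 : ℝ) < k.totient := by exact_mod_cast Nat.totient_pos.2 hk0
    have h3 : (m.totient : ℝ) * k.totient ≤ (4 * d).totient := by
      have := Nat.totient_super_multiplicative m k
      rw [← hk] at this
      exact_mod_cast this
    have h4 : (4 * D₀ : ℝ) ≤ m * k := by
      have : 4 * D₀ ≤ m * k := by rw [← hk]; omega
      exact_mod_cast this
    have hdiv : k.divisors ⊆ (Icc 1 (8 * D₀)).filter (fun e => m * e ∣ 4 * d) := by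
      intro e he
      have he1 := Nat.dvd_of_mem_divisors he
      have he2 := Nat.pos_of_mem_divisors he
      rw [Finset.mem_filter, Finset.mem_Icc]
      refine ⟨⟨he2, ?_⟩, ?_⟩
      · have h5 : e ≤ k := Nat.le_of_dvd hk0 he1
        have h6 : k ≤ m * k := Nat.le_mul_of_pos_left k hm
        omega
      · rw [hk]; exact Nat.mul_dvd_mul_left m he1
    have h5 : (k : ℝ) / k.totient ≤
        ∑ e ∈ (Icc 1 (8 * D₀)).filter (fun e => m * e ∣ 4 * d), 1 / (e.totient : ℝ) :=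
      (div_totient_le hk0).trans (Finset.sum_le_sum_of_subset_of_nonneg hdiv
        (fun _ _ _ => by positivity))
    calc 1 / ((4 * d).totient : ℝ) ≤ 1 / ((m.totient : ℝ) * k.totient) :=
          one_div_le_one_div_of_le (by positivity) h3
      _ = 1 / (k * m.totient) * (k / k.totient) := by field_simp
      _ ≤ m / (4 * D₀ * m.totient) * (k / k.totient) := by
          apply mul_le_mul_of_nonneg_right _ (by positivity)
          rw [div_le_div_iff₀ (by positivity) (by positivity)]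
          nlinarith
      _ ≤ _ := mul_le_mul_of_nonneg_left h5 (by positivity)
  calc ∑ d ∈ s, 1 / ((4 * d).totient : ℝ)
      ≤ ∑ d ∈ s, m / (4 * D₀ * m.totient) *
        ∑ e ∈ (Icc 1 (8 * D₀)).filter (fun e => m * e ∣ 4 * d), 1 / (e.totient : ℝ) :=
        Finset.sum_le_sum hterm
    _ = m / (4 * D₀ * m.totient) * ∑ d ∈ s,
        ∑ e ∈ (Icc 1 (8 * D₀)), if m * e ∣ 4 * d then 1 / (e.totient : ℝ) else 0 := by
        rw [← Finset.mul_sum]
        congr 1
        apply Finset.sum_congr rfl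
        intro d _
        rw [Finset.sum_filter]
    _ = m / (4 * D₀ * m.totient) * ∑ e ∈ (Icc 1 (8 * D₀)),
        ∑ d ∈ s, if m * e ∣ 4 * d then 1 / (e.totient : ℝ) else 0 := by
        rw [Finset.sum_comm]
    _ ≤ m / (4 * D₀ * m.totient) * ∑ e ∈ (Icc 1 (8 * D₀)),
        8 * D₀ / m * (1 / ((e : ℝ) * (e.totient : ℝ))) := by
        apply mul_le_mul_of_nonneg_left _ (by positivity)
        apply Finset.sum_le_sum
        intro e he
        have he1 : 0 < e := (Finset.mem_Icc.mp he).1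
        have he0 : (0 : ℝ) < e := by exact_mod_cast he1
        have hφe : (0 : ℝ) < e.totient := by exact_mod_cast Nat.totient_pos.2 he1
        rw [← Finset.sum_filter, Finset.sum_const, nsmul_eq_mul]
        have h1 : ((s.filter (fun d => m * e ∣ 4 * d)).card : ℝ) ≤ 8 * D₀ / ((m * e : ℕ) : ℝ) := by
          refine le_trans ?_ (count_mult (Nat.mul_pos hm he1))
          have : s.filter (fun d => m * e ∣ 4 * d) ⊆
              (Ioc D₀ (2 * D₀)).filter (fun d => m * e ∣ 4 * d) := by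
            apply Finset.filter_subset_filter
            exact Finset.filter_subset _ _
          exact_mod_cast Finset.card_le_card this
        calc ((s.filter (fun d => m * e ∣ 4 * d)).card : ℝ) * (1 / (e.totient : ℝ))
            ≤ 8 * D₀ / ((m * e : ℕ) : ℝ) * (1 / (e.totient : ℝ)) :=
              mul_le_mul_of_nonneg_right h1 (by positivity)
          _ = _ := by push_cast; field_simp
    _ = m / (4 * D₀ * m.totient) * (8 * D₀ / m *
        ∑ e ∈ (Icc 1 (8 * D₀)), (1 / ((e : ℝ) * (e.totient : ℝ)))) := by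
        rw [← Finset.mul_sum]
    _ ≤ m / (4 * D₀ * m.totient) * (8 * D₀ / m * C) := by
        apply mul_le_mul_of_nonneg_left _ (by positivity)
        exact mul_le_mul_of_nonneg_left (h _) (by positivity)
    _ = 2 * C / (m.totient : ℝ) := by field_simp; ring

end BDH

end Pool.Agent.Lib.MP391708.QPA
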