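import Pool.Agent.Lib.MP_391708_nt.QPA.BDHPdefs
import Pool.Agent.Lib.MP_391708_nt.QPA.BDHTot

/-!
# QPA module BDHP: averages of `1/φ`
-/

set_option autoImplicit false

namespace Pool.Agent.Lib.MP391708.QPA.BDHP

open Finset Filter Topology
open scoped Classical

theorem sum_tail (w M : ℕ) (hw : 1 ≤ w) :
    ∑ p ∈ (Ioc w M).filter Nat.Prime, 1 / ((p : ℝ) * (p.totient : ℝ)) ≤ 2 / w := by
  have hw0 : (0 : ℝ) < w := by exact_mod_cast hw
  have h1 : ∀ p ∈ (Ioc w M).filter Nat.Prime,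
      1 / ((p : ℝ) * (p.totient : ℝ)) ≤ 2 * ((p : ℝ) ^ 2)⁻¹ := by
    intro p hp
    have hpp := (Finset.mem_filter.mp hp).2
    have h2 : (2 : ℝ) ≤ p := by exact_mod_cast hpp.two_le
    rw [Nat.totient_prime hpp, Nat.cast_sub hpp.one_lt.le, Nat.cast_one, ← div_eq_mul_inv,
      div_le_div_iff₀ (by nlinarith) (by positivity)]
    nlinarith
  refine (Finset.sum_le_sum h1).trans ?_
  refine (Finset.sum_le_sum_of_subset_of_nonneg (Finset.filter_subset _ _)
    (fun _ _ _ => by positivity)).trans ?_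
  rw [← Finset.mul_sum]
  by_cases h : w ≤ M
  · have h3 := sum_Ioc_inv_sq_le_sub (α := ℝ) (by omega : w ≠ 0) h
    have h4 : (0 : ℝ) ≤ (M : ℝ)⁻¹ := by positivity
    rw [div_eq_mul_inv]
    linarith
  · rw [Finset.Ioc_eq_empty (by omega), Finset.sum_empty, mul_zero]
    positivity

theorem specTot : SpecTot := by
  obtain ⟨C, hC, h1⟩ := BDH.sumphi
  refine ⟨2 * C, by positivity, ?_⟩
  intro D w hD hw
  constructor
  · have h2 := h1 D 1 hD (le_refl _)
    rw [Nat.totient_one, Nat.cast_one, div_one] at h2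
    have h3 : (Ioc D (2 * D)).filter (fun d => 1 ∣ 4 * d) = Ioc D (2 * D) :=
      Finset.filter_true_of_mem (fun d _ => one_dvd _)
    rw [h3] at h2
    linarith
  · have h4 : ∀ d ∈ Ioc D (2 * D), 1 / ((4 * d).totient : ℝ) *
        ∑ p ∈ d.primeFactors.filter (fun p => w < p), 1 / (p : ℝ)
        ≤ ∑ p ∈ (Ioc w (2 * D)).filter Nat.Prime,
          if p ∣ 4 * d then 1 / (p : ℝ) * (1 / ((4 * d).totient : ℝ)) else 0 := by
      intro d hd
      have hd' := Finset.mem_Ioc.mp hd
      rw [Finset.mul_sum, ← Finset.sum_filter]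
      refine le_trans (le_of_eq ?_) (Finset.sum_le_sum_of_subset_of_nonneg
        (s := d.primeFactors.filter (fun p => w < p)) ?_ (fun _ _ _ => by positivity))
      · exact Finset.sum_congr rfl (fun p _ => mul_comm _ _)
      · intro p hp
        obtain ⟨h5, h6⟩ := Finset.mem_filter.mp hp
        obtain ⟨h7, h8, h9⟩ := Nat.mem_primeFactors.mp h5
        have h10 : p ≤ d := Nat.le_of_dvd (by omega) h8
        refine Finset.mem_filter.mpr ⟨Finset.mem_filter.mpr ⟨Finset.mem_Ioc.mpr ⟨h6, by omega⟩,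
          h7⟩, Dvd.dvd.mul_left h8 4⟩
    refine (Finset.sum_le_sum h4).trans ?_
    rw [Finset.sum_comm]
    calc ∑ p ∈ (Ioc w (2 * D)).filter Nat.Prime, ∑ d ∈ Ioc D (2 * D),
          (if p ∣ 4 * d then 1 / (p : ℝ) * (1 / ((4 * d).totient : ℝ)) else 0)
        ≤ ∑ p ∈ (Ioc w (2 * D)).filter Nat.Prime, 1 / (p : ℝ) * (C / (p.totient : ℝ)) := by
          apply Finset.sum_le_sum
          intro p hp
          have hpp := (Finset.mem_filter.mp hp).2
          rw [← Finset.sum_filter, ← Finset.mul_sum]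
          exact mul_le_mul_of_nonneg_left (h1 D p hD hpp.one_lt.le) (by positivity)
      _ = C * ∑ p ∈ (Ioc w (2 * D)).filter Nat.Prime, 1 / ((p : ℝ) * (p.totient : ℝ)) := by
          rw [Finset.mul_sum]
          apply Finset.sum_congr rfl
          intro p _
          rw [div_mul_div_comm, one_mul, mul_one_div]
      _ ≤ C * (2 / w) := mul_le_mul_of_nonneg_left (sum_tail w (2 * D) hw) hC.le
      _ = 2 * C / w := by ring

end Pool.Agent.Lib.MP391708.QPA.BDHP
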