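import Pool.Agent.Lib.MP_391708_nt.QPA.BDHPa
import Pool.Agent.Lib.MP_391708_nt.QPA.BDHPCls
import Pool.Agent.Lib.MP_391708_nt.QPA.BDHPTot

/-!
# QPA module BDHP: the dispersion of `b - b♯` in residue classes
-/

set_option autoImplicit false

namespace Pool.Agent.Lib.MP391708.QPA.BDHP

open Finset Filter Topology
open scoped Classical

noncomputable section

/-- one modulus -/
theorem modulus (hC : SpecCls) (w q X Y : ℕ) (l T B z : ℝ) (b : ℕ → ℝ) (hq : 1 ≤ q) (hXY : X ≤ Y)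
    (hl : 0 < l) (hYX : |(Y : ℝ) - X - l| ≤ 1) (hB : 0 ≤ B) (hz : 1 ≤ z)
    (hb : ∀ u, |b u| ≤ B * rInd z u) :
    ∑ c ∈ range q, (∑ u ∈ (Ioc X Y).filter (fun u => u % q = c),
        (b u - T / l * Vw w * rInd ((w : ℝ) + 1) u)) ^ 2
      ≤ 3 * (∑ c ∈ (range q).filter (fun c => Nat.Coprime c q),
          ((∑ u ∈ (Ioc X Y).filter (fun u => u % q = c), b u) - T / (q.totient : ℝ)) ^ 2)
        + 3 * (T ^ 2 * (1 / (q.totient : ℝ) * th w q))
        + 3 * (q * (|T| / l * Vw w * (2 ^ (w + 1) + 1)) ^ 2)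
        + 2 * ((B * (((Y : ℝ) - X) / q + 2))
          * ((q.primeFactors.card : ℝ) * (B * (((Y : ℝ) - X) / z + 2))))
        + 2 * ((|T| / (q.totient : ℝ) + |T| / l * Vw w * (2 ^ (w + 1) + 1))
        * (|T| * th w q + |T| / l * Vw w * (2 ^ (w + 1) + 1) * q.primeFactors.card)) := by
  have hV := Vw_pos w
  rw [← Finset.sum_filter_add_sum_filter_not (range q) (fun c => Nat.Coprime c q)]
  have hcard : (((range q).filter (fun c => Nat.Coprime c q)).card : ℝ) = (q.totient : ℝ) := by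
    rw [Nat.totient_eq_card_coprime]
    congr 2
    ext c
    rw [Finset.mem_filter, Finset.mem_filter, Nat.coprime_comm]
  have hphi : (0 : ℝ) < (q.totient : ℝ) := by
    exact_mod_cast Nat.totient_pos.mpr hq
  have hphiq : (q.totient : ℝ) ≤ q := by exact_mod_cast Nat.totient_le q
  have h1 : ∑ c ∈ (range q).filter (fun c => Nat.Coprime c q),
      (∑ u ∈ (Ioc X Y).filter (fun u => u % q = c),
        (b u - T / l * Vw w * rInd ((w : ℝ) + 1) u)) ^ 2
      ≤ 3 * (∑ c ∈ (range q).filter (fun c => Nat.Coprime c q),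
          ((∑ u ∈ (Ioc X Y).filter (fun u => u % q = c), b u) - T / (q.totient : ℝ)) ^ 2)
        + 3 * (T ^ 2 * (1 / (q.totient : ℝ) * th w q))
        + 3 * (q * (|T| / l * Vw w * (2 ^ (w + 1) + 1)) ^ 2) := by
    refine (Finset.sum_le_sum (fun c hc => cop hC w q c X Y l T b hq hXY hl hYX
      (Finset.mem_range.mp (Finset.mem_filter.mp hc).1) (Finset.mem_filter.mp hc).2)).trans ?_
    rw [Finset.sum_add_distrib, Finset.sum_add_distrib, ← Finset.mul_sum, Finset.sum_const,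
      Finset.sum_const, nsmul_eq_mul, nsmul_eq_mul, hcard]
    have h2 : (q.totient : ℝ) * (3 * ((T / (q.totient : ℝ)) ^ 2 * th w q))
        = 3 * (T ^ 2 * (1 / (q.totient : ℝ) * th w q)) := by
      field_simp
    have h3 : (T / l * Vw w * (2 ^ (w + 1) + 1)) ^ 2 = (|T| / l * Vw w * (2 ^ (w + 1) + 1)) ^ 2 := by
      rw [mul_pow, mul_pow, div_pow, ← sq_abs T, mul_pow, mul_pow, div_pow]
    have h4 : (q.totient : ℝ) * (3 * (T / l * Vw w * (2 ^ (w + 1) + 1)) ^ 2)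
        ≤ 3 * (q * (|T| / l * Vw w * (2 ^ (w + 1) + 1)) ^ 2) := by
      rw [h3]
      have := mul_le_mul_of_nonneg_right hphiq
        (sq_nonneg (|T| / l * Vw w * (2 ^ (w + 1) + 1)))
      linarith
    linarith
  have h5 : ∑ c ∈ (range q).filter (fun c => ¬ Nat.Coprime c q),
      (∑ u ∈ (Ioc X Y).filter (fun u => u % q = c),
        (b u - T / l * Vw w * rInd ((w : ℝ) + 1) u)) ^ 2
      ≤ 2 * ((B * (((Y : ℝ) - X) / q + 2))
          * ((q.primeFactors.card : ℝ) * (B * (((Y : ℝ) - X) / z + 2))))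
        + 2 * ((|T| / (q.totient : ℝ) + |T| / l * Vw w * (2 ^ (w + 1) + 1))
        * (|T| * th w q + |T| / l * Vw w * (2 ^ (w + 1) + 1) * q.primeFactors.card)) := by
    have h6 := noncop_b hC q X Y B z b hq hXY hB hz hb
    have h7 := noncop_m hC w q X Y l T hq hXY hl hYX
    have h8 : ∑ c ∈ (range q).filter (fun c => ¬ Nat.Coprime c q),
      (∑ u ∈ (Ioc X Y).filter (fun u => u % q = c),
        (b u - T / l * Vw w * rInd ((w : ℝ) + 1) u)) ^ 2
      ≤ ∑ c ∈ (range q).filter (fun c => ¬ Nat.Coprime c q),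
        (2 * (∑ u ∈ (Ioc X Y).filter (fun u => u % q = c), b u) ^ 2
        + 2 * (T / l * Vw w * (((Ioc X Y).filter
          (fun u => u % q = c ∧ Rough ((w : ℝ) + 1) u)).card : ℝ)) ^ 2) := by
      apply Finset.sum_le_sum
      intro c _
      rw [cls_sum]
      nlinarith [sq_nonneg ((∑ u ∈ (Ioc X Y).filter (fun u => u % q = c), b u)
        + T / l * Vw w * (((Ioc X Y).filter
          (fun u => u % q = c ∧ Rough ((w : ℝ) + 1) u)).card : ℝ))]
    refine h8.trans ?_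
    rw [Finset.sum_add_distrib, ← Finset.mul_sum, ← Finset.mul_sum]
    linarith
  linarith

theorem smallR (C σ κ : ℝ) (k : ℕ) (hσ : 0 < σ) (hκ : 0 < κ) : ∃ L₀ : ℝ, ∀ L : ℝ, L₀ ≤ L →
    C * (Real.log L) ^ k * L ^ (-σ) ≤ κ := by
  have h1 : Tendsto (fun x : ℝ => Real.log x ^ (k : ℝ) / x ^ σ) atTop (𝓝 0) :=
    (isLittleO_log_rpow_rpow_atTop (k : ℝ) hσ).tendsto_div_nhds_zero
  have h2 : Tendsto (fun x : ℝ => C * (Real.log x ^ (k : ℝ) / x ^ σ)) atTop (𝓝 (C * 0)) :=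
    h1.const_mul C
  rw [mul_zero] at h2
  have h3 := h2.eventually (gt_mem_nhds hκ)
  obtain ⟨L₀, hL₀⟩ := eventually_atTop.mp h3
  refine ⟨max L₀ 1, fun L hL => ?_⟩
  have h4 := hL₀ L (le_trans (le_max_left _ _) hL)
  have hL1 : 1 ≤ L := le_trans (le_max_right _ _) hL
  rw [Real.rpow_natCast] at h4
  rw [Real.rpow_neg (by linarith), mul_assoc, ← div_eq_mul_inv]
  exact h4.le

/-- the size of the total sum -/
theorem T_bound (hBT : SpecBT) : ∃ C : ℝ, 0 < C ∧ ∀ B e0 h : ℝ, 0 < B → 0 < e0 → e0 ≤ 1 / 10 →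
    0 < h → h ≤ 1 → ∃ L₀ : ℝ, ∀ (L x : ℝ) (b : ℕ → ℝ), L₀ ≤ L → L ≤ x →
    (∀ u, |b u| ≤ B * rInd (L ^ e0) u) →
    |∑ u ∈ Ioc ⌊x⌋₊ ⌊x + h * L⌋₊, b u| ≤ 5 * C * B / e0 * (h * L) / Real.log L := by
  obtain ⟨C, hC, h1⟩ := hBT
  refine ⟨C, hC, ?_⟩
  intro B e0 h hB he0 he1 hh hh1
  obtain ⟨L₁, hL₁⟩ := smallR 2 (e0 / 2) 1 0 (by positivity) one_pos
  obtain ⟨L₂, hL₂⟩ := smallR e0 (9 / 10) h 1 (by norm_num) hh
  refine ⟨max 2 (max (1 / h) (max L₁ L₂)), ?_⟩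
  intro L x b hL hx hb
  have hL2 : 2 ≤ L := le_trans (le_max_left _ _) hL
  have hLh : 1 / h ≤ L := le_trans ((le_max_left _ _).trans (le_max_right _ _)) hL
  have g1 := hL₁ L (le_trans ((le_max_left _ _).trans ((le_max_right _ _).trans
    (le_max_right _ _))) hL)
  have g2 := hL₂ L (le_trans ((le_max_right _ _).trans ((le_max_right _ _).trans
    (le_max_right _ _))) hL)
  have hL0 : 0 < L := by linarith
  have hL1 : 1 ≤ L := by linarith
  have hlog : 0 < Real.log L := Real.log_pos (by linarith)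
  have hhL : 1 ≤ h * L := by
    rw [div_le_iff₀ hh] at hLh
    linarith
  have hx0 : 0 ≤ x := by linarith
  set X := ⌊x⌋₊ with hX
  set Y := ⌊x + h * L⌋₊ with hY
  have hXY : X ≤ Y := Nat.floor_le_floor (by linarith)
  have hYX : (Y : ℝ) - X ≤ h * L + 1 := by
    have h2 : (Y : ℝ) ≤ x + h * L := Nat.floor_le (by linarith)
    have h3 : x < X + 1 := Nat.lt_floor_add_one x
    linarith
  have hy2 : 2 ≤ L ^ (e0 / 2) := by
    rw [pow_zero, mul_one, Real.rpow_neg hL0.le, ← div_eq_mul_inv,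
      div_le_one (Real.rpow_pos_of_pos hL0 _)] at g1
    exact g1
  have hyz : L ^ (e0 / 2) < L ^ e0 := Real.rpow_lt_rpow_of_exponent_lt (by linarith) (by linarith)
  have h4 := h1 (L ^ (e0 / 2)) (L ^ e0) 1 0 X (Y - X) hy2 hyz (le_refl _)
  have h5 : X + (Y - X) = Y := by omega
  rw [h5] at h4
  have h6 : (((Ioc X Y).filter (fun u => u % 1 = 0 ∧ Rough (L ^ e0) u)).card : ℝ)
      = ∑ u ∈ Ioc X Y, rInd (L ^ e0) u := by
    simp only [rInd]
    rw [Finset.sum_boole]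
    congr 2
    apply Finset.filter_congr
    intro u _
    simp [Nat.mod_one]
  rw [h6, Real.log_rpow hL0, Nat.totient_one, Nat.cast_sub hXY] at h4
  have h7 : |∑ u ∈ Ioc X Y, b u| ≤ B * ∑ u ∈ Ioc X Y, rInd (L ^ e0) u := by
    rw [Finset.mul_sum]
    exact (Finset.abs_sum_le_sum_abs _ _).trans (Finset.sum_le_sum (fun u _ => hb u))
  refine h7.trans ?_
  have h8 : (L ^ (e0 / 2)) ^ 2 = L ^ e0 := by
    rw [← Real.rpow_natCast, ← Real.rpow_mul hL0.le]
    congr 1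
    push_cast
    ring
  rw [h8] at h4
  have h9 : L ^ e0 ≤ h * L / (e0 * Real.log L) := by
    rw [le_div_iff₀ (by positivity)]
    have h10 : L ^ e0 ≤ L ^ (1 / 10 : ℝ) := Real.rpow_le_rpow_of_exponent_le hL1 he1
    have h11 : L * L ^ (-(9 / 10) : ℝ) = L ^ (1 / 10 : ℝ) := by
      nth_rewrite 1 [← Real.rpow_one L]
      rw [← Real.rpow_add hL0]
      norm_num
    rw [pow_one] at g2
    calc L ^ e0 * (e0 * Real.log L) ≤ L ^ (1 / 10 : ℝ) * (e0 * Real.log L) :=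
          mul_le_mul_of_nonneg_right h10 (by positivity)
      _ = (e0 * Real.log L * L ^ (-(9 / 10) : ℝ)) * L := by rw [← h11]; ring
      _ ≤ h * L := mul_le_mul_of_nonneg_right g2 hL0.le
  have h12 : C * ((Y : ℝ) - X) / (((1 : ℕ) : ℝ) * (e0 / 2 * Real.log L))
      ≤ 4 * C * (h * L) / (e0 * Real.log L) := by
    rw [div_le_div_iff₀ (by positivity) (by positivity)]
    have h13 : (Y : ℝ) - X ≤ 2 * (h * L) := by linarith
    have h14 := mul_le_mul_of_nonneg_left h13 (by positivity : 0 ≤ C * (e0 * Real.log L))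
    push_cast
    nlinarith
  calc B * ∑ u ∈ Ioc X Y, rInd (L ^ e0) u
      ≤ B * (4 * C * (h * L) / (e0 * Real.log L) + C * (h * L / (e0 * Real.log L))) := by
        apply mul_le_mul_of_nonneg_left _ hB.le
        exact h4.trans (add_le_add h12 (mul_le_mul_of_nonneg_left h9 hC.le))
    _ = 5 * C * B / e0 * (h * L) / Real.log L := by
        field_simp
        ring

theorem omega_le (q : ℕ) (hq : 1 ≤ q) : (q.primeFactors.card : ℝ) * Real.log 2 ≤ Real.log q := by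
  have h1 : 2 ^ q.primeFactors.card ≤ ∏ p ∈ q.primeFactors, p :=
    Finset.pow_card_le_prod _ _ _ (fun p hp => (Nat.prime_of_mem_primeFactors hp).two_le)
  have h2 : 2 ^ q.primeFactors.card ≤ q := h1.trans (Nat.le_of_dvd hq (Nat.prod_primeFactors_dvd q))
  have h3 : (2 : ℝ) ^ q.primeFactors.card ≤ q := by exact_mod_cast h2
  rw [← Real.log_pow]
  exact Real.log_le_log (by positivity) h3

theorem omega_le' (q : ℕ) (hq : 1 ≤ q) : q.primeFactors.card ≤ q := by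
  have h1 : 2 ^ q.primeFactors.card ≤ ∏ p ∈ q.primeFactors, p :=
    Finset.pow_card_le_prod _ _ _ (fun p hp => (Nat.prime_of_mem_primeFactors hp).two_le)
  have h2 : 2 ^ q.primeFactors.card ≤ q := h1.trans (Nat.le_of_dvd hq (Nat.prod_primeFactors_dvd q))
  exact (Nat.lt_two_pow_self).le.trans h2

theorem th_le (w q : ℕ) : th w q ≤ q.primeFactors.card := by
  calc th w q ≤ ∑ p ∈ q.primeFactors.filter (fun p => w < p), (1 : ℝ) :=
        Finset.sum_le_sum (fun p _ => (inv_mem p).2)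
    _ = ((q.primeFactors.filter (fun p => w < p)).card : ℝ) := by
        rw [Finset.sum_const, nsmul_eq_mul, mul_one]
    _ ≤ q.primeFactors.card := by exact_mod_cast Finset.card_le_card (Finset.filter_subset _ _)

theorem th_four (w d : ℕ) (hw : 2 ≤ w) (hd : 1 ≤ d) :
    th w (4 * d) ≤ ∑ p ∈ d.primeFactors.filter (fun p => w < p), 1 / (p : ℝ) := by
  apply Finset.sum_le_sum_of_subset_of_nonneg
  · intro p hp
    obtain ⟨h1, h2⟩ := Finset.mem_filter.mp hp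
    obtain ⟨h3, h4, _⟩ := Nat.mem_primeFactors.mp h1
    refine Finset.mem_filter.mpr ⟨Nat.mem_primeFactors.mpr ⟨h3, ?_, by omega⟩, h2⟩
    rcases (Nat.Prime.dvd_mul h3).mp h4 with h5 | h5
    · have h6 : p ∣ 2 ^ 2 := by norm_num; exact h5
      have h7 := Nat.le_of_dvd (by norm_num) (h3.dvd_of_dvd_pow h6)
      omega
    · exact h5
  · intro _ _ _
    positivity

theorem L13 (L : ℝ) (hL8 : 8 ≤ L) : (4 : ℝ) * L ^ (1 / 3 : ℝ) ≤ L := by
  have hL0 : 0 < L := by linarith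
  have h2 : (L ^ (1 / 3 : ℝ)) ^ 3 = L := by
    rw [← Real.rpow_natCast, ← Real.rpow_mul hL0.le]
    norm_num
  have h3 : 2 ≤ L ^ (1 / 3 : ℝ) := by
    have h4 : (8 : ℝ) ^ (1 / 3 : ℝ) ≤ L ^ (1 / 3 : ℝ) :=
      Real.rpow_le_rpow (by norm_num) hL8 (by norm_num)
    have h5 : (8 : ℝ) ^ (1 / 3 : ℝ) = 2 := by
      rw [show (8 : ℝ) = 2 ^ (3 : ℝ) by norm_num, ← Real.rpow_mul (by norm_num)]
      norm_num
    linarith
  have h6 : 4 ≤ (L ^ (1 / 3 : ℝ)) ^ 2 := by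
    calc (4 : ℝ) = 2 ^ 2 := by norm_num
      _ ≤ (L ^ (1 / 3 : ℝ)) ^ 2 := pow_le_pow_left₀ (by norm_num) h3 2
  calc (4 : ℝ) * L ^ (1 / 3 : ℝ) ≤ (L ^ (1 / 3 : ℝ)) ^ 2 * L ^ (1 / 3 : ℝ) :=
        mul_le_mul_of_nonneg_right h6 (by positivity)
    _ = (L ^ (1 / 3 : ℝ)) ^ 3 := by ring
    _ = L := h2

theorem omega_log (q : ℕ) (L : ℝ) (hq : 1 ≤ q) (hL : 8 ≤ L) (hqL : (q : ℝ) ≤ L ^ 2) :
    (q.primeFactors.card : ℝ) ≤ 3 * Real.log L := by
  have hlog : 0 < Real.log L := Real.log_pos (by linarith)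
  have h3 := omega_le q hq
  have h4 : Real.log (q : ℝ) ≤ 2 * Real.log L := by
    rw [show 2 * Real.log L = Real.log (L ^ 2) by rw [Real.log_pow]; norm_num]
    exact Real.log_le_log (by exact_mod_cast hq) hqL
  have h5 := Real.log_two_gt_d9
  have h6 : (0 : ℝ) ≤ (q.primeFactors.card : ℝ) := Nat.cast_nonneg _
  by_contra hcon
  push Not at hcon
  have h7 : 3 * Real.log L * Real.log 2 < (q.primeFactors.card : ℝ) * Real.log 2 :=
    mul_lt_mul_of_pos_right hcon (by linarith)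
  nlinarith

theorem four_term (L e0 B D₀ d om YX : ℝ) (hL8 : 8 ≤ L) (he0 : 0 < e0) (he1 : e0 ≤ 1 / 10)
    (hB : 0 < B) (hD0 : 0 < D₀) (h4D : 4 * D₀ ≤ L) (hd : 4 * D₀ ≤ d) (hYX0 : 0 ≤ YX)
    (hYX2 : YX ≤ 2 * L) (hom0 : 0 ≤ om) (hom : om ≤ 3 * Real.log L) :
    (B * (YX / d + 2)) * (om * (B * (YX / (L ^ e0) + 2)))
      ≤ 12 * B ^ 2 * Real.log L * L ^ (2 - e0) / D₀ := by
  have hL1 : 1 ≤ L := by linarith
  have hL0 : 0 < L := by linarith
  have hlog : 0 < Real.log L := Real.log_pos (by linarith)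
  have hz0 : 0 < L ^ e0 := Real.rpow_pos_of_pos hL0 _
  have hd0 : 0 < d := by linarith
  have h3 : YX / d + 2 ≤ L / D₀ := by
    have h4 : YX / d ≤ 2 * L / (4 * D₀) := div_le_div₀ (by positivity) hYX2 (by positivity) hd
    have h5 : 2 ≤ L / (2 * D₀) := by
      rw [le_div_iff₀ (by positivity)]
      linarith
    have h6 : 2 * L / (4 * D₀) + L / (2 * D₀) = L / D₀ := by
      field_simp
      norm_num
    linarith
  have h7 : YX / (L ^ e0) + 2 ≤ 4 * L ^ (1 - e0) := by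
    have h8 : L ^ (1 - e0) = L / L ^ e0 := by
      rw [Real.rpow_sub hL0, Real.rpow_one]
    have h9 : 1 ≤ L ^ (1 - e0) := Real.one_le_rpow hL1 (by linarith)
    have h10 : YX / (L ^ e0) ≤ 2 * (L / L ^ e0) := by
      rw [← mul_div_assoc]
      exact div_le_div_of_nonneg_right hYX2 hz0.le
    rw [← h8] at h10
    linarith
  have h11 : L ^ (2 - e0) = L * L ^ (1 - e0) := by
    rw [show 2 - e0 = 1 + (1 - e0) by ring, Real.rpow_add hL0, Real.rpow_one]
  have h12 : 0 ≤ YX / (L ^ e0) + 2 := by positivity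
  calc (B * (YX / d + 2)) * (om * (B * (YX / (L ^ e0) + 2)))
      ≤ (B * (L / D₀)) * ((3 * Real.log L) * (B * (4 * L ^ (1 - e0)))) := by
        apply mul_le_mul (mul_le_mul_of_nonneg_left h3 hB.le) _ (by positivity) (by positivity)
        exact mul_le_mul hom (mul_le_mul_of_nonneg_left h7 hB.le) (by positivity)
          (by positivity)
    _ = 12 * B ^ 2 * Real.log L * L ^ (2 - e0) / D₀ := by
        rw [h11]
        ring

theorem five_term (aT T G ph th om D8 : ℝ) (haT : aT ^ 2 = T ^ 2) (hT0 : 0 ≤ aT) (hG0 : 0 ≤ G)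
    (hph : 1 ≤ ph) (hth : th ≤ D8) (hom0 : 0 ≤ om) (hom : om ≤ D8) :
    (aT / ph + G) * (aT * th + G * om)
      ≤ T ^ 2 * (1 / ph * th) + 2 * D8 * (aT * G) + D8 * G ^ 2 := by
  have h3 : aT / ph ≤ aT := div_le_self hT0 hph
  have h4 : aT / ph * (G * om) ≤ aT * (G * D8) :=
    mul_le_mul h3 (mul_le_mul_of_nonneg_left hom hG0) (by positivity) hT0
  have h5 : G * (aT * th) ≤ G * (aT * D8) :=
    mul_le_mul_of_nonneg_left (mul_le_mul_of_nonneg_left hth hT0) hG0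
  have h6 : G * (G * om) ≤ G * (G * D8) :=
    mul_le_mul_of_nonneg_left (mul_le_mul_of_nonneg_left hom hG0) hG0
  have h7 : aT / ph * (aT * th) = T ^ 2 * (1 / ph * th) := by
    rw [← haT]
    ring
  calc (aT / ph + G) * (aT * th + G * om)
      = aT / ph * (aT * th) + aT / ph * (G * om) + G * (aT * th) + G * (G * om) := by ring
    _ ≤ T ^ 2 * (1 / ph * th) + aT * (G * D8) + G * (aT * D8) + G * (G * D8) := by
        rw [h7]
        linarith
    _ = _ := by ring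

theorem one_d (hC : SpecCls) (w d D₀ X Y : ℕ) (L e0 h T B : ℝ) (b : ℕ → ℝ) (hL8 : 8 ≤ L)
    (he0 : 0 < e0) (he1 : e0 ≤ 1 / 10) (hh : 0 < h) (hB : 0 < B) (hw : 2 ≤ w) (hXY : X ≤ Y)
    (hYX : |(Y : ℝ) - X - h * L| ≤ 1) (hYX2 : (Y : ℝ) - X ≤ 2 * L) (h4D : 4 * (D₀ : ℝ) ≤ L)
    (hd : d ∈ Ioc D₀ (2 * D₀)) (hb : ∀ u, |b u| ≤ B * rInd (L ^ e0) u) :
    ∑ c ∈ range (4 * d), (∑ u ∈ (Ioc X Y).filter (fun u => u % (4 * d) = c),
        (b u - T / (h * L) * Vw w * rInd ((w : ℝ) + 1) u)) ^ 2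
      ≤ 3 * (∑ c ∈ (range (4 * d)).filter (fun c => Nat.Coprime c (4 * d)),
          ((∑ u ∈ (Ioc X Y).filter (fun u => u % (4 * d) = c), b u)
            - T / ((4 * d).totient : ℝ)) ^ 2)
        + 5 * T ^ 2 * (1 / ((4 * d).totient : ℝ) *
            ∑ p ∈ d.primeFactors.filter (fun p => w < p), 1 / (p : ℝ))
        + (40 * D₀ * (|T| / (h * L) * Vw w * (2 ^ (w + 1) + 1)) ^ 2
          + 32 * D₀ * (|T| * (|T| / (h * L) * Vw w * (2 ^ (w + 1) + 1))))
        + 24 * B ^ 2 * Real.log L * L ^ (2 - e0) / D₀ := by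
  obtain ⟨hd1, hd2⟩ := Finset.mem_Ioc.mp hd
  have hL0 : 0 < L := by linarith
  have hl : 0 < h * L := by positivity
  have hD0 : (0 : ℝ) < D₀ := by exact_mod_cast (by omega : 0 < D₀)
  have hdr1 : (D₀ : ℝ) ≤ d := by exact_mod_cast hd1.le
  have hdr2 : (d : ℝ) ≤ 2 * D₀ := by exact_mod_cast hd2
  have hq : 1 ≤ 4 * d := by omega
  have hz1 : 1 ≤ L ^ e0 := Real.one_le_rpow (by linarith) he0.le
  have hYX0 : (0 : ℝ) ≤ (Y : ℝ) - X := by
    have : (X : ℝ) ≤ Y := by exact_mod_cast hXY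
    linarith
  have h2 := modulus hC w (4 * d) X Y (h * L) T B (L ^ e0) b hq hXY hl hYX hB.le hz1 hb
  have hV0 : 0 < Vw w := Vw_pos w
  set G : ℝ := |T| / (h * L) * Vw w * (2 ^ (w + 1) + 1) with hG
  have hG0 : 0 ≤ G := by positivity
  have hom : ((4 * d).primeFactors.card : ℝ) ≤ 8 * D₀ := by
    have h3 : ((4 * d).primeFactors.card : ℝ) ≤ ((4 * d : ℕ) : ℝ) := by
      exact_mod_cast omega_le' (4 * d) hq
    push_cast at h3
    linarith
  have hqL : ((4 * d : ℕ) : ℝ) ≤ L ^ 2 := by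
    push_cast
    have : 4 * (d : ℝ) ≤ 2 * L := by linarith
    nlinarith
  have hom2 := omega_log (4 * d) L hq hL8 hqL
  have hphi1 : (1 : ℝ) ≤ ((4 * d).totient : ℝ) := by
    exact_mod_cast Nat.totient_pos.mpr hq
  have hth1 : th w (4 * d) ≤ 8 * D₀ := (th_le w (4 * d)).trans hom
  have hth2 := th_four w d hw (by omega)
  have hom0 : (0 : ℝ) ≤ ((4 * d).primeFactors.card : ℝ) := Nat.cast_nonneg _
  have hT0 : 0 ≤ |T| := abs_nonneg _
  have hq4 : 4 * (D₀ : ℝ) ≤ ((4 * d : ℕ) : ℝ) := by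
    push_cast
    linarith
  have t3 : (((4 * d : ℕ) : ℝ)) * G ^ 2 ≤ 8 * D₀ * G ^ 2 := by
    apply mul_le_mul_of_nonneg_right _ (sq_nonneg _)
    push_cast
    linarith
  have t4 := four_term L e0 B D₀ ((4 * d : ℕ) : ℝ) ((4 * d).primeFactors.card : ℝ)
    ((Y : ℝ) - X) hL8 he0 he1 hB hD0 h4D hq4 hYX0 hYX2 hom0 hom2
  have t5 := five_term |T| T G ((4 * d).totient : ℝ) (th w (4 * d)) ((4 * d).primeFactors.card : ℝ)
    (8 * D₀) (sq_abs T) hT0 hG0 hphi1 hth1 hom0 hom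
  have t6 : T ^ 2 * (1 / ((4 * d).totient : ℝ) * th w (4 * d))
      ≤ T ^ 2 * (1 / ((4 * d).totient : ℝ) *
          ∑ p ∈ d.primeFactors.filter (fun p => w < p), 1 / (p : ℝ)) := by
    apply mul_le_mul_of_nonneg_left _ (sq_nonneg _)
    exact mul_le_mul_of_nonneg_left hth2 (by positivity)
  have t7 : 24 * B ^ 2 * Real.log L * L ^ (2 - e0) / D₀
      = 2 * (12 * B ^ 2 * Real.log L * L ^ (2 - e0) / D₀) := by ring
  rw [t7]
  linarith

end

end Pool.Agent.Lib.MP391708.QPA.BDHP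

namespace Pool.Agent.Lib.MP391708.QPA

open Finset Filter Topology BDHP
open scoped Classical

theorem BDHP.main (hC : SpecCls) (hTot : SpecTot) (hBDH : SpecBDH) (hBT : SpecBT) : SpecBDHP := by
  obtain ⟨Ct, hCt, hT1⟩ := hTot
  obtain ⟨C, hC0, hT2⟩ := T_bound hBT
  refine ⟨125 * C ^ 2 * Ct, by positivity, ?_⟩
  intro B e0 w ϖ h hB he0 he1 hw hϖ hh hh1
  obtain ⟨R, κ, hκ, L₁, hL₁⟩ := hBDH B e0 (ϖ / 6) hB he0 (by positivity)
  obtain ⟨L₂, hL₂⟩ := hT2 B e0 h hB he0 he1 hh hh1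
  set V : ℝ := Vw w with hV
  have hV0 : 0 < V := Vw_pos w
  set E : ℝ := 2 ^ (w + 1) + 1 with hE
  have hE0 : 0 < E := by positivity
  set Δ : ℝ := 5 * C * B / e0 with hΔ
  have hΔ0 : 0 < Δ := by positivity
  obtain ⟨L₃, hL₃⟩ := smallR (40 * (Δ * V * E) ^ 2 + 32 * Δ * (Δ * V * E)) (1 / 3) (ϖ / 4) 0
    (by norm_num) (by positivity)
  obtain ⟨L₄, hL₄⟩ := smallR (24 * B ^ 2) e0 (ϖ / 4) 3 he0 (by positivity)
  refine ⟨R, κ, hκ, max 8 (max L₁ (max L₂ (max L₃ L₄))), ?_⟩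
  intro L x b hL hLx hxL hb hsupp hchar D₀ hD₀ hD₀L
  have hL8 : 8 ≤ L := le_trans (le_max_left _ _) hL
  have hLL₁ : L₁ ≤ L := le_trans ((le_max_left _ _).trans (le_max_right _ _)) hL
  have hLL₂ : L₂ ≤ L := le_trans ((le_max_left _ _).trans ((le_max_right _ _).trans
    (le_max_right _ _))) hL
  have hLL₃ : L₃ ≤ L := le_trans ((le_max_left _ _).trans ((le_max_right _ _).trans
    ((le_max_right _ _).trans (le_max_right _ _)))) hL
  have hLL₄ : L₄ ≤ L := le_trans ((le_max_right _ _).trans ((le_max_right _ _).trans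
    ((le_max_right _ _).trans (le_max_right _ _)))) hL
  have g3 := hL₃ L hLL₃
  have g4 := hL₄ L hLL₄
  have hL1 : 1 ≤ L := by linarith
  have hL0 : 0 < L := by linarith
  have hlog : 0 < Real.log L := Real.log_pos (by linarith)
  have hl : 0 < h * L := by positivity
  have hx0 : 0 ≤ x := by linarith
  have hD0 : (0 : ℝ) < D₀ := by exact_mod_cast hD₀
  set X := ⌊x⌋₊ with hX
  set Y := ⌊x + h * L⌋₊ with hY
  have hXY : X ≤ Y := Nat.floor_le_floor (by linarith)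
  have hYX : |(Y : ℝ) - X - h * L| ≤ 1 := by
    have h2 : (Y : ℝ) ≤ x + h * L := Nat.floor_le (by linarith)
    have h3 : x < X + 1 := Nat.lt_floor_add_one x
    have h4 : (X : ℝ) ≤ x := Nat.floor_le hx0
    have h5 : x + h * L < Y + 1 := Nat.lt_floor_add_one _
    rw [abs_le]
    constructor <;> linarith
  have hYX2 : (Y : ℝ) - X ≤ 2 * L := by
    have := (abs_le.mp hYX).2
    nlinarith
  have hYX0 : (0 : ℝ) ≤ (Y : ℝ) - X := by
    have : (X : ℝ) ≤ Y := by exact_mod_cast hXY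
    linarith
  set T := ∑ u ∈ Ioc X Y, b u with hT
  have hTb : |T| ≤ Δ * (h * L) / Real.log L := hL₂ L x b hLL₂ hLx hb
  have hTL : |T| ≤ Δ * L / Real.log L := by
    refine hTb.trans (div_le_div_of_nonneg_right ?_ hlog.le)
    nlinarith
  have hsub : Ioc X Y ⊆ Icc 1 ⌊2 * L⌋₊ := by
    intro u hu
    have hu' := Finset.mem_Ioc.mp hu
    exact Finset.mem_Icc.mpr ⟨by omega, hu'.2.trans (Nat.floor_le_floor hxL)⟩
  have hzero : ∀ u, u ∉ Ioc X Y → b u = 0 := by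
    intro u hu
    by_contra hne
    exact hu (hsupp u hne)
  have hsum1 : ∑ u ∈ Icc 1 ⌊2 * L⌋₊, b u = T :=
    (Finset.sum_subset hsub (fun u _ hu => hzero u hu)).symm
  have hsum2 : ∀ d c : ℕ, ∑ u ∈ (Icc 1 ⌊2 * L⌋₊).filter (fun u => u % (4 * d) = c), b u
      = ∑ u ∈ (Ioc X Y).filter (fun u => u % (4 * d) = c), b u := by
    intro d c
    symm
    apply Finset.sum_subset (Finset.filter_subset_filter _ hsub)
    intro u hu hu2
    apply hzero
    intro hu3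
    exact hu2 (Finset.mem_filter.mpr ⟨hu3, (Finset.mem_filter.mp hu).2⟩)
  have hb2 : ∀ u, b u ≠ 0 → L < (u : ℝ) ∧ (u : ℝ) ≤ 2 * L := by
    intro u hu
    have hu' := Finset.mem_Ioc.mp (hsupp u hu)
    have h2 : x < u := (Nat.floor_lt hx0).mp hu'.1
    have h3 : (u : ℝ) ≤ Y := by exact_mod_cast hu'.2
    have h4 : (Y : ℝ) ≤ x + h * L := Nat.floor_le (by linarith)
    exact ⟨by linarith, by linarith⟩
  have hmain := hL₁ L b hLL₁ hb hb2 hchar D₀ hD₀ hD₀L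
  rw [hsum1] at hmain
  simp only [hsum2] at hmain
  -- the parameters
  set G : ℝ := |T| / (h * L) * V * E with hG
  have hG0 : 0 ≤ G := by positivity
  have hGle : G ≤ Δ * V * E / Real.log L := by
    have h2 : |T| / (h * L) ≤ Δ / Real.log L := by
      rw [div_le_iff₀ hl]
      calc |T| ≤ Δ * (h * L) / Real.log L := hTb
        _ = Δ / Real.log L * (h * L) := by ring
    calc G ≤ Δ / Real.log L * V * E := by
          apply mul_le_mul_of_nonneg_right _ hE0.le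
          exact mul_le_mul_of_nonneg_right h2 hV0.le
      _ = Δ * V * E / Real.log L := by ring
  have hz1 : 1 ≤ L ^ e0 := Real.one_le_rpow hL1 he0.le
  have hz0 : 0 < L ^ e0 := by linarith
  have hL13 := L13 L hL8
  have h4D : 4 * (D₀ : ℝ) ≤ L := by linarith
  -- bound for one d
  have hone : ∀ d ∈ Ioc D₀ (2 * D₀), _ := fun d hd => one_d hC w d D₀ X Y L e0 h T B b hL8 he0 he1 hh
    hB hw hXY hYX hYX2 h4D hd hb
  -- summation over d
  rw [Vd]
  refine (Finset.sum_le_sum hone).trans ?_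
  rw [Finset.sum_add_distrib, Finset.sum_add_distrib, Finset.sum_add_distrib, ← Finset.mul_sum,
    ← Finset.mul_sum, Finset.sum_const, Finset.sum_const, nsmul_eq_mul, nsmul_eq_mul]
  have hcard : ((Ioc D₀ (2 * D₀)).card : ℝ) = D₀ := by
    rw [Nat.card_Ioc]
    congr 1
    omega
  rw [hcard]
  obtain ⟨_, hT3⟩ := hT1 D₀ w hD₀ (by omega)
  have hw0 : (0 : ℝ) < w := by exact_mod_cast (by omega : 0 < w)
  have hTsq : T ^ 2 ≤ Δ ^ 2 * (h * L) ^ 2 / (Real.log L) ^ 2 := by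
    rw [← sq_abs]
    calc |T| ^ 2 ≤ (Δ * (h * L) / Real.log L) ^ 2 := pow_le_pow_left₀ (abs_nonneg _) hTb 2
      _ = _ := by rw [div_pow, mul_pow]
  have s2 : 5 * T ^ 2 * ∑ d ∈ Ioc D₀ (2 * D₀), (1 / ((4 * d).totient : ℝ) *
      ∑ p ∈ d.primeFactors.filter (fun p => w < p), 1 / (p : ℝ))
      ≤ 125 * C ^ 2 * Ct * B ^ 2 / (e0 ^ 2 * w) * (h * L) ^ 2 / (Real.log L) ^ 2 := by
    calc 5 * T ^ 2 * ∑ d ∈ Ioc D₀ (2 * D₀), (1 / ((4 * d).totient : ℝ) *
        ∑ p ∈ d.primeFactors.filter (fun p => w < p), 1 / (p : ℝ))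
        ≤ 5 * (Δ ^ 2 * (h * L) ^ 2 / (Real.log L) ^ 2) * (Ct / w) := by
          apply mul_le_mul _ hT3
          · apply Finset.sum_nonneg
            intro d _
            apply mul_nonneg (by positivity)
            exact Finset.sum_nonneg (fun _ _ => by positivity)
          · positivity
          · linarith
      _ = 125 * C ^ 2 * Ct * B ^ 2 / (e0 ^ 2 * w) * (h * L) ^ 2 / (Real.log L) ^ 2 := by
          rw [hΔ]
          field_simp
          norm_num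
  have s3 : (D₀ : ℝ) * (40 * D₀ * G ^ 2 + 32 * D₀ * (|T| * G))
      ≤ ϖ / 4 * L ^ 2 / (Real.log L) ^ 2 := by
    have hD2 : (D₀ : ℝ) ^ 2 ≤ L ^ (2 / 3 : ℝ) := by
      calc (D₀ : ℝ) ^ 2 ≤ (L ^ (1 / 3 : ℝ)) ^ 2 := pow_le_pow_left₀ hD0.le hD₀L 2
        _ = L ^ (2 / 3 : ℝ) := by
            rw [← Real.rpow_natCast, ← Real.rpow_mul hL0.le]
            norm_num
    have h2 : G ^ 2 ≤ (Δ * V * E) ^ 2 * L / (Real.log L) ^ 2 := by
      calc G ^ 2 ≤ (Δ * V * E / Real.log L) ^ 2 := pow_le_pow_left₀ hG0 hGle 2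
        _ = (Δ * V * E) ^ 2 * 1 / (Real.log L) ^ 2 := by rw [div_pow, mul_one]
        _ ≤ (Δ * V * E) ^ 2 * L / (Real.log L) ^ 2 := by
            apply div_le_div_of_nonneg_right _ (by positivity)
            exact mul_le_mul_of_nonneg_left hL1 (sq_nonneg _)
    have h3 : |T| * G ≤ Δ * (Δ * V * E) * L / (Real.log L) ^ 2 := by
      calc |T| * G ≤ (Δ * L / Real.log L) * (Δ * V * E / Real.log L) :=
            mul_le_mul hTL hGle hG0 (by positivity)
        _ = _ := by ring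
    rw [pow_zero, mul_one] at g3
    have h4 : L ^ (2 / 3 : ℝ) * L = L ^ 2 * L ^ (-(1 / 3) : ℝ) := by
      have h5 : L ^ (2 : ℕ) = L ^ (2 : ℝ) := (Real.rpow_two L).symm
      rw [h5, ← Real.rpow_add hL0]
      nth_rewrite 2 [← Real.rpow_one L]
      rw [← Real.rpow_add hL0]
      norm_num
    calc (D₀ : ℝ) * (40 * D₀ * G ^ 2 + 32 * D₀ * (|T| * G))
        = (D₀ : ℝ) ^ 2 * (40 * G ^ 2 + 32 * (|T| * G)) := by ring
      _ ≤ L ^ (2 / 3 : ℝ) * (40 * ((Δ * V * E) ^ 2 * L / (Real.log L) ^ 2)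
          + 32 * (Δ * (Δ * V * E) * L / (Real.log L) ^ 2)) := by
          apply mul_le_mul hD2 (by linarith) (by positivity) (by positivity)
      _ = (L ^ (2 / 3 : ℝ) * L) * (40 * (Δ * V * E) ^ 2 + 32 * Δ * (Δ * V * E))
          / (Real.log L) ^ 2 := by ring
      _ = ((40 * (Δ * V * E) ^ 2 + 32 * Δ * (Δ * V * E)) * L ^ (-(1 / 3) : ℝ)) * L ^ 2
          / (Real.log L) ^ 2 := by rw [h4]; ring
      _ ≤ ϖ / 4 * L ^ 2 / (Real.log L) ^ 2 := by
          apply div_le_div_of_nonneg_right _ (by positivity)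
          exact mul_le_mul_of_nonneg_right g3 (by positivity)
  have s4 : (D₀ : ℝ) * (24 * B ^ 2 * Real.log L * L ^ (2 - e0) / D₀)
      ≤ ϖ / 4 * L ^ 2 / (Real.log L) ^ 2 := by
    have h4 : L ^ (2 - e0) = L ^ 2 * L ^ (-e0) := by
      have h5 : L ^ (2 : ℕ) = L ^ (2 : ℝ) := (Real.rpow_two L).symm
      rw [h5, ← Real.rpow_add hL0]
      congr 1
    calc (D₀ : ℝ) * (24 * B ^ 2 * Real.log L * L ^ (2 - e0) / D₀)
        = (24 * B ^ 2 * (Real.log L) ^ 3 * L ^ (-e0)) * L ^ 2 / (Real.log L) ^ 2 := by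
          rw [h4]
          field_simp
      _ ≤ ϖ / 4 * L ^ 2 / (Real.log L) ^ 2 := by
          apply div_le_div_of_nonneg_right _ (by positivity)
          exact mul_le_mul_of_nonneg_right g4 (by positivity)
  have s1 : 3 * ∑ d ∈ Ioc D₀ (2 * D₀), ∑ c ∈ (range (4 * d)).filter
      (fun c => Nat.Coprime c (4 * d)),
      ((∑ u ∈ (Ioc X Y).filter (fun u => u % (4 * d) = c), b u)
        - T / ((4 * d).totient : ℝ)) ^ 2 ≤ ϖ / 2 * L ^ 2 / (Real.log L) ^ 2 := by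
    calc _ ≤ 3 * (ϖ / 6 * L ^ 2 / (Real.log L) ^ 2) := by linarith
      _ = _ := by ring
  calc _ ≤ ϖ / 2 * L ^ 2 / (Real.log L) ^ 2
        + 125 * C ^ 2 * Ct * B ^ 2 / (e0 ^ 2 * w) * (h * L) ^ 2 / (Real.log L) ^ 2
        + ϖ / 4 * L ^ 2 / (Real.log L) ^ 2 + ϖ / 4 * L ^ 2 / (Real.log L) ^ 2 := by
        linarith
    _ = ϖ * L ^ 2 / (Real.log L) ^ 2
        + 125 * C ^ 2 * Ct * B ^ 2 / (e0 ^ 2 * w) * (h * L) ^ 2 / (Real.log L) ^ 2 := by ring

theorem specBDHP (hBDH : SpecBDH) (hBT : SpecBT) : SpecBDHP :=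
  BDHP.main BDHP.specCls BDHP.specTot hBDH hBT

end Pool.Agent.Lib.MP391708.QPA
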