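import Pool.Agent.Lib.MP_391708_nt.QPA.Spec

/-!
# EDGE: the values `n² + a`, `|a| ≤ A`, for one `n`
-/

set_option autoImplicit false

namespace Pool.Agent.Lib.MP391708.QPA

open Finset Filter Topology
open scoped Classical

namespace EDGE

theorem sum_inj_le (S : Finset ℤ) (T : Finset ℕ) (g : ℤ → ℕ) (f : ℕ → ℝ) (hf : ∀ m, 0 ≤ f m)
    (hmap : ∀ a ∈ S, g a ∈ T) (hinj : ∀ a ∈ S, ∀ b ∈ S, g a = g b → a = b) :
    ∑ a ∈ S, f (g a) ≤ ∑ u ∈ T, f u := by
  classical
  rw [← Finset.sum_image (f := f) (g := g) (s := S) (fun a ha b hb h => hinj a ha b hb h)]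
  apply Finset.sum_le_sum_of_subset_of_nonneg
  · intro u hu
    obtain ⟨a, ha, rfl⟩ := Finset.mem_image.1 hu
    exact hmap a ha
  · intro u _ _
    exact hf u

/-- the sum of a nonnegative function over the values `|n² + a|`, `|a| ≤ A` -/
theorem sum_val_le (A n : ℕ) (f : ℕ → ℝ) (hf : ∀ m, 0 ≤ f m) :
    ∑ a ∈ IA A, f (val a n) ≤
      (∑ u ∈ Ioc (n ^ 2 - (A + 1)) (n ^ 2 - (A + 1) + (2 * A + 1)), f u)
        + (∑ u ∈ Ioc 0 (0 + (2 * A + 1)), f u) + f 0 := by
  classical
  set g : ℤ → ℕ := fun a => val a n with hg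
  have hv : ∀ a : ℤ, ((g a : ℕ) : ℤ) = |(n : ℤ) ^ 2 + a| := by
    intro a
    simp [hg, val]
  have hmem : ∀ a ∈ IA A, -(A : ℤ) ≤ a ∧ a ≤ A := by
    intro a ha
    simpa [IA] using ha
  have h1 := sum_inj_le ((IA A).filter (fun a => 1 ≤ (n : ℤ) ^ 2 + a))
    (Ioc (n ^ 2 - (A + 1)) (n ^ 2 - (A + 1) + (2 * A + 1))) g f hf
    (by
      intro a ha
      rw [Finset.mem_filter] at ha
      obtain ⟨h1, h2⟩ := hmem a ha.1
      have h3 := hv a
      rw [abs_of_nonneg (by linarith [ha.2])] at h3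
      rw [Finset.mem_Ioc]
      zify at *
      rcases le_total (A + 1) (n ^ 2) with h | h
      · push_cast [Nat.cast_sub h]
        constructor <;> omega
      · rw [Nat.sub_eq_zero_of_le h]
        push_cast
        have : ((n : ℤ)) ^ 2 ≤ A + 1 := by exact_mod_cast h
        constructor <;> omega)
    (by
      intro a ha b hb h
      rw [Finset.mem_filter] at ha hb
      have h3 := hv a
      have h4 := hv b
      rw [abs_of_nonneg (by linarith [ha.2])] at h3
      rw [abs_of_nonneg (by linarith [hb.2])] at h4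
      rw [h] at h3
      linarith)
  have h2 := sum_inj_le ((IA A).filter (fun a => (n : ℤ) ^ 2 + a ≤ -1))
    (Ioc 0 (0 + (2 * A + 1))) g f hf
    (by
      intro a ha
      rw [Finset.mem_filter] at ha
      obtain ⟨h1, h2⟩ := hmem a ha.1
      have h3 := hv a
      rw [abs_of_nonpos (by linarith [ha.2])] at h3
      rw [Finset.mem_Ioc]
      have h5 : (0 : ℤ) ≤ (n : ℤ) ^ 2 := sq_nonneg _
      have := ha.2
      constructor <;> omega)
    (by
      intro a ha b hb h
      rw [Finset.mem_filter] at ha hb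
      have h3 := hv a
      have h4 := hv b
      rw [abs_of_nonpos (by linarith [ha.2])] at h3
      rw [abs_of_nonpos (by linarith [hb.2])] at h4
      rw [h] at h3
      linarith)
  have h3 : ∑ a ∈ (IA A).filter (fun a => (n : ℤ) ^ 2 + a = 0), f (g a) ≤ f 0 := by
    have hsub : ((IA A).filter (fun a => (n : ℤ) ^ 2 + a = 0)) ⊆ {-(n : ℤ) ^ 2} := by
      intro a ha
      rw [Finset.mem_filter] at ha
      rw [Finset.mem_singleton]
      linarith [ha.2]
    calc ∑ a ∈ (IA A).filter (fun a => (n : ℤ) ^ 2 + a = 0), f (g a)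
        ≤ ∑ a ∈ ({-(n : ℤ) ^ 2} : Finset ℤ), f (g a) :=
          Finset.sum_le_sum_of_subset_of_nonneg hsub (fun _ _ _ => hf _)
      _ = f 0 := by
          rw [Finset.sum_singleton]
          congr 1
          simp [hg, val]
  have hsplit : ∑ a ∈ IA A, f (val a n)
      = (∑ a ∈ (IA A).filter (fun a => 1 ≤ (n : ℤ) ^ 2 + a), f (g a))
        + (∑ a ∈ (IA A).filter (fun a => (n : ℤ) ^ 2 + a ≤ -1), f (g a))
        + ∑ a ∈ (IA A).filter (fun a => (n : ℤ) ^ 2 + a = 0), f (g a) := by
    rw [Finset.sum_filter, Finset.sum_filter, Finset.sum_filter, ← Finset.sum_add_distrib,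
      ← Finset.sum_add_distrib]
    apply Finset.sum_congr rfl
    intro a _
    rcases lt_trichotomy ((n : ℤ) ^ 2 + a) 0 with h | h | h
    · rw [if_neg (by omega), if_pos (by omega), if_neg (by omega)]
      simp [hg]
    · rw [if_neg (by omega), if_neg (by omega), if_pos h]
      simp [hg]
    · rw [if_pos (by omega), if_neg (by omega), if_neg (by omega)]
      simp [hg]
  rw [hsplit]
  linarith

theorem card_IA (A : ℕ) : ((IA A).card : ℝ) = 2 * A + 1 := by
  have : (IA A).card = 2 * A + 1 := by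
    simp [IA]
    omega
  rw [this]
  push_cast
  ring

theorem rInd_nonneg (z : ℝ) (m : ℕ) : 0 ≤ rInd z m := by
  unfold rInd
  split_ifs <;> norm_num

theorem rInd_le_one (z : ℝ) (m : ℕ) : rInd z m ≤ 1 := by
  unfold rInd
  split_ifs <;> norm_num

theorem sum_rInd (z : ℝ) (x H : ℕ) :
    ∑ u ∈ Ioc x (x + H), rInd z u
      = (((Ioc x (x + H)).filter (fun u => u % 1 = 0 ∧ Rough z u)).card : ℝ) := by
  classical
  unfold rInd
  rw [← Finset.sum_filter, Finset.sum_const, nsmul_eq_mul, mul_one]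
  congr 2
  ext u
  simp [Nat.mod_one]

end EDGE

open EDGE in
theorem specEDGE (hBT : SpecBT) : SpecEDGE := by
  obtain ⟨C, hC, hBT⟩ := hBT
  refine ⟨20 * C + 20, by positivity, ?_⟩
  intro z A n hz hA
  have hz0 : (0 : ℝ) < z := by linarith
  have hA16 : (16 : ℝ) ≤ A := by
    have : (2 : ℝ) ^ 4 ≤ z ^ 4 := pow_le_pow_left₀ (by norm_num) hz 4
    linarith
  have hlogz : 0 < Real.log z := Real.log_pos (by linarith)
  have hlz : Real.log z ≤ z := (Real.log_le_sub_one_of_pos hz0).trans (by linarith)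
  rcases le_or_gt z 4 with h4 | h4
  · -- trivial bound
    have h1 : ∑ a ∈ IA A, rInd z (val a n) ≤ 2 * A + 1 := by
      calc ∑ a ∈ IA A, rInd z (val a n) ≤ ∑ a ∈ IA A, (1 : ℝ) :=
            Finset.sum_le_sum (fun a _ => rInd_le_one z _)
        _ = 2 * A + 1 := by
            rw [Finset.sum_const, nsmul_eq_mul, mul_one, card_IA]
    refine h1.trans ?_
    rw [le_div_iff₀ hlogz]
    have h5 : Real.log z ≤ 4 := hlz.trans h4
    nlinarith [mul_nonneg hC.le (by linarith : (0 : ℝ) ≤ A)]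
  · have hsq : (2 : ℝ) < √z := by
      rw [show (2 : ℝ) = √4 by
        rw [show (4 : ℝ) = 2 ^ 2 by norm_num, Real.sqrt_sq (by norm_num)]]
      exact Real.sqrt_lt_sqrt (by norm_num) h4
    have hsqz : √z < z := by
      have := Real.mul_self_sqrt hz0.le
      nlinarith
    have hlsq : Real.log (√z) = Real.log z / 2 := Real.log_sqrt hz0.le
    have key : ∀ x : ℕ, ∑ u ∈ Ioc x (x + (2 * A + 1)), rInd z u
        ≤ C * (2 * A + 1) / (Real.log z / 2) + C * z := by
      intro x
      rw [sum_rInd]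
      have := hBT (√z) z 1 0 x (2 * A + 1) hsq.le hsqz le_rfl
      rw [Nat.totient_one, Nat.cast_one, one_mul, hlsq, Real.sq_sqrt hz0.le] at this
      push_cast at this
      exact this
    have h1 := sum_val_le A n (rInd z) (rInd_nonneg z)
    have h2 := key (n ^ 2 - (A + 1))
    have h3 := key 0
    have h5 := rInd_le_one z 0
    have h6 : ∑ a ∈ IA A, rInd z (val a n)
        ≤ 2 * (C * (2 * A + 1) / (Real.log z / 2) + C * z) + 1 := by linarith
    refine h6.trans ?_
    rw [le_div_iff₀ hlogz]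
    have h7 : C * (2 * A + 1) / (Real.log z / 2) * Real.log z = 2 * C * (2 * A + 1) := by
      field_simp
    have hz4 : z * Real.log z ≤ A := by
      have : z * Real.log z ≤ z * z := mul_le_mul_of_nonneg_left hlz hz0.le
      have : z * z ≤ z ^ 4 := by
        have h9 : z ^ 2 ≤ z ^ 4 := pow_le_pow_right₀ (by linarith) (by norm_num)
        nlinarith
      linarith
    have hl1 : Real.log z ≤ A := by nlinarith
    have h8 : (2 * (C * (2 * A + 1) / (Real.log z / 2) + C * z) + 1) * Real.log z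
        = 2 * (C * (2 * A + 1) / (Real.log z / 2) * Real.log z) + 2 * C * (z * Real.log z)
          + Real.log z := by ring
    rw [h8, h7]
    nlinarith [mul_le_mul_of_nonneg_left hz4 hC.le, mul_nonneg hC.le (by linarith : (0 : ℝ) ≤ A)]

end Pool.Agent.Lib.MP391708.QPA
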