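import Pool.Agent.Lib.MP_391708_nt.QPA.Spec
import Pool.Agent.Lib.MP_391708_nt.QPA.EDGE

/-!
# BLK: the block theorem
-/

set_option autoImplicit false

namespace Pool.Agent.Lib.MP391708.QPA

open Finset Filter Topology
open scoped Classical

namespace BLK

/-! ### linearity -/

theorem cnt_add (N : ℕ) (a : ℤ) (f g : ℕ → ℝ) :
    cnt N a (fun m => f m + g m) = cnt N a f + cnt N a g := by
  unfold cnt
  rw [← Finset.sum_add_distrib]

theorem cnt_smul (N : ℕ) (a : ℤ) (c : ℝ) (f : ℕ → ℝ) :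
    cnt N a (fun m => c * f m) = c * cnt N a f := by
  unfold cnt
  rw [Finset.mul_sum]

theorem cnt_sum {ι : Type*} (N : ℕ) (a : ℤ) (S : Finset ι) (f : ι → ℕ → ℝ) :
    cnt N a (fun m => ∑ i ∈ S, f i m) = ∑ i ∈ S, cnt N a (f i) := by
  unfold cnt
  rw [Finset.sum_comm]

theorem model_add (N : ℕ) (f g : ℕ → ℝ) :
    model N (fun m => f m + g m) = model N f + model N g := by
  unfold model
  rw [← Finset.sum_add_distrib]
  exact Finset.sum_congr rfl (fun m _ => by ring)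

theorem model_smul (N : ℕ) (c : ℝ) (f : ℕ → ℝ) :
    model N (fun m => c * f m) = c * model N f := by
  unfold model
  rw [Finset.mul_sum]
  exact Finset.sum_congr rfl (fun m _ => by ring)

theorem model_sum {ι : Type*} (N : ℕ) (S : Finset ι) (f : ι → ℕ → ℝ) :
    model N (fun m => ∑ i ∈ S, f i m) = ∑ i ∈ S, model N (f i) := by
  unfold model
  rw [Finset.sum_comm]
  exact Finset.sum_congr rfl (fun m _ => by rw [Finset.sum_div])

/-! ### range of the values -/

theorem val_range {N A : ℕ} {a : ℤ} {n : ℕ} (ha : a ∈ IA A) (hA : (A : ℝ) ≤ (N : ℝ) ^ 2 / 2)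
    (hn : n ∈ Ioc N (2 * N)) :
    (N : ℝ) ^ 2 / 2 ≤ (val a n : ℕ) ∧ ((val a n : ℕ) : ℝ) ≤ 5 * (N : ℝ) ^ 2 := by
  have ha' : -(A : ℤ) ≤ a ∧ a ≤ A := by simpa [IA] using ha
  have h1 : -(A : ℝ) ≤ (a : ℝ) := by exact_mod_cast ha'.1
  have h2 : (a : ℝ) ≤ A := by exact_mod_cast ha'.2
  rw [Finset.mem_Ioc] at hn
  have hn1 : (N : ℝ) ≤ n := by exact_mod_cast hn.1.le
  have hn2 : (n : ℝ) ≤ 2 * N := by exact_mod_cast hn.2
  have hN0 : (0 : ℝ) ≤ N := Nat.cast_nonneg N
  have h3 : (N : ℝ) ^ 2 ≤ (n : ℝ) ^ 2 := by nlinarith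
  have h4 : (n : ℝ) ^ 2 ≤ 4 * (N : ℝ) ^ 2 := by nlinarith
  have hv : ((val a n : ℕ) : ℝ) = |(n : ℝ) ^ 2 + a| := by
    have : ((val a n : ℕ) : ℤ) = |(n : ℤ) ^ 2 + a| := by simp [val]
    have h5 : (((val a n : ℕ) : ℤ) : ℝ) = ((|(n : ℤ) ^ 2 + a| : ℤ) : ℝ) := by rw [this]
    push_cast at h5
    exact h5
  have h6 : 0 ≤ (n : ℝ) ^ 2 + a := by nlinarith
  rw [hv, abs_of_nonneg h6]
  constructor <;> linarith

theorem cnt_abs_le {N A : ℕ} {a : ℤ} (ha : a ∈ IA A) (hA : (A : ℝ) ≤ (N : ℝ) ^ 2 / 2)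
    (R B : ℕ → ℝ) (h : ∀ m : ℕ, (N : ℝ) ^ 2 / 2 ≤ m → (m : ℝ) ≤ 5 * (N : ℝ) ^ 2 → |R m| ≤ B m) :
    |cnt N a R| ≤ cnt N a B := by
  unfold cnt
  refine (Finset.abs_sum_le_sum_abs _ _).trans (Finset.sum_le_sum (fun n hn => ?_))
  obtain ⟨h1, h2⟩ := val_range ha hA hn
  exact h _ h1 h2

theorem model_abs_le {N : ℕ} (R B : ℕ → ℝ)
    (h : ∀ m : ℕ, (N : ℝ) ^ 2 / 2 ≤ m → (m : ℝ) ≤ 5 * (N : ℝ) ^ 2 → |R m| ≤ B m) :
    |model N R| ≤ model N B := by
  unfold model
  refine (Finset.abs_sum_le_sum_abs _ _).trans (Finset.sum_le_sum (fun m hm => ?_))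
  rw [Finset.mem_Ioc] at hm
  have h1 : ((N : ℝ)) ^ 2 ≤ m := by exact_mod_cast hm.1.le
  have h2 : (m : ℝ) ≤ 4 * (N : ℝ) ^ 2 := by exact_mod_cast hm.2
  have h3 : (0 : ℝ) ≤ (N : ℝ) ^ 2 := by positivity
  rw [abs_div, abs_of_nonneg (by positivity : (0 : ℝ) ≤ 2 * √(m : ℝ))]
  exact div_le_div_of_nonneg_right (h m (by linarith) (by linarith)) (by positivity)

theorem cnt_nonneg {N : ℕ} {a : ℤ} {f : ℕ → ℝ} (hf : ∀ m, 0 ≤ f m) : 0 ≤ cnt N a f := by
  unfold cnt
  exact Finset.sum_nonneg (fun _ _ => hf _)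

theorem model_nonneg {N : ℕ} {f : ℕ → ℝ} (hf : ∀ m, 0 ≤ f m) : 0 ≤ model N f := by
  unfold model
  exact Finset.sum_nonneg (fun m _ => div_nonneg (hf _) (by positivity))

theorem cnt_mono {N : ℕ} {a : ℤ} {f g : ℕ → ℝ} (hf : ∀ m, f m ≤ g m) : cnt N a f ≤ cnt N a g := by
  unfold cnt
  exact Finset.sum_le_sum (fun _ _ => hf _)

theorem model_mono {N : ℕ} {f g : ℕ → ℝ} (hf : ∀ m, f m ≤ g m) : model N f ≤ model N g := by
  unfold model
  exact Finset.sum_le_sum (fun m _ => div_le_div_of_nonneg_right (hf _) (by positivity))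

/-! ### Markov's inequality -/

theorem markov (S : Finset ℤ) (f : ℤ → ℝ) (hf : ∀ a ∈ S, 0 ≤ f a) (t M : ℝ) (_ht : 0 < t)
    (hM : ∑ a ∈ S, f a ≤ M) : ((S.filter (fun a => t < f a)).card : ℝ) * t ≤ M := by
  classical
  calc ((S.filter (fun a => t < f a)).card : ℝ) * t
      = ∑ a ∈ S.filter (fun a => t < f a), t := by
        rw [Finset.sum_const, nsmul_eq_mul]
    _ ≤ ∑ a ∈ S.filter (fun a => t < f a), f a :=
        Finset.sum_le_sum (fun a ha => (Finset.mem_filter.1 ha).2.le)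
    _ ≤ ∑ a ∈ S, f a :=
        Finset.sum_le_sum_of_subset_of_nonneg (Finset.filter_subset _ _) (fun a ha _ => hf a ha)
    _ ≤ M := hM

/-! ### critical exponents -/

theorem sum_crit_le (α : ℝ) (f : ℝ → ℝ) (M : ℝ) (hM0 : 0 ≤ M) (h : ∀ x ∈ crit α, f x ≤ M) :
    ∑ x ∈ crit α, f x ≤ 5 * M := by
  calc ∑ x ∈ crit α, f x ≤ ∑ x ∈ crit α, M := Finset.sum_le_sum h
    _ = (crit α).card * M := by rw [Finset.sum_const, nsmul_eq_mul]
    _ ≤ 5 * M := by
        apply mul_le_mul_of_nonneg_right _ hM0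
        have : (crit α).card ≤ 5 := by
          unfold crit
          exact (Finset.card_le_five)
        exact_mod_cast this

theorem crit_range {α : ℝ} (h1 : 3 / 4 ≤ α) (h2 : α ≤ 5 / 4) {x : ℝ} (hx : x ∈ crit α) :
    1 / 2 ≤ x ∧ x ≤ 3 / 2 := by
  unfold crit at hx
  simp only [Finset.mem_insert, Finset.mem_singleton] at hx
  rcases hx with rfl | rfl | rfl | rfl | rfl <;> constructor <;> linarith

theorem mem_crit (α : ℝ) : α ∈ crit α := by
  unfold crit
  simp

theorem nearA_of_good {N A : ℕ} {e2 e : ℝ} {c c₁ : Multiset ℕ} (h : Good e2 e (Real.logb N A) c)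
    (hc : c₁ ≤ c) : NearA N A e2 e c₁ := by
  intro s hs hs0
  exact h s (hs.trans hc) hs0 _ (mem_crit _)

/-! ### the range of `A` -/

theorem adm_ev (θ : ℝ) (hθ : 5 / 6 < θ) : ∀ᶠ N : ℕ in atTop, ∀ A : ℕ, Adm θ N A →
    2 ≤ N ∧ 3 / 4 ≤ Real.logb N A ∧ Real.logb N A ≤ 5 / 4 ∧ (A : ℝ) ≤ (N : ℝ) ^ 2 / 2 ∧
      (N : ℝ) ^ (3 / 4 : ℝ) ≤ A := by
  have h1 : ∀ᶠ x : ℝ in atTop, Real.log x ≤ x ^ (1 / 4 : ℝ) := by
    have := (isLittleO_log_rpow_atTop (by norm_num : (0 : ℝ) < 1 / 4)).bound one_pos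
    filter_upwards [this, eventually_ge_atTop (1 : ℝ)] with x hx hx1
    rw [one_mul, Real.norm_of_nonneg (Real.log_nonneg hx1),
      Real.norm_of_nonneg (Real.rpow_nonneg (by linarith) _)] at hx
    exact hx
  have h2 := tendsto_natCast_atTop_atTop (R := ℝ).eventually h1
  filter_upwards [h2, eventually_ge_atTop 16] with N hN hN16 A hA
  have hN2 : (16 : ℝ) ≤ N := by exact_mod_cast hN16
  have hN0 : (0 : ℝ) < N := by linarith
  have hN1 : (1 : ℝ) < N := by linarith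
  obtain ⟨hA1, hA2⟩ := hA
  have hA0 : (0 : ℝ) < A := (Real.rpow_pos_of_pos hN0 _).trans_le hA1
  have hlog : 0 < Real.log N := Real.log_pos hN1
  refine ⟨by omega, ?_, ?_, ?_, ?_⟩
  · rw [Real.le_logb_iff_rpow_le hN1 hA0]
    exact (Real.rpow_le_rpow_of_exponent_le hN1.le (by linarith)).trans hA1
  · rw [Real.logb_le_iff_le_rpow hN1 hA0]
    refine hA2.trans ?_
    calc (N : ℝ) * Real.log N ≤ N * (N : ℝ) ^ (1 / 4 : ℝ) :=
          mul_le_mul_of_nonneg_left hN hN0.le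
      _ = (N : ℝ) ^ (5 / 4 : ℝ) := by
          nth_rewrite 1 [← Real.rpow_one (N : ℝ)]
          rw [← Real.rpow_add hN0]
          norm_num
  · refine hA2.trans ?_
    have h3 : (N : ℝ) ^ (1 / 4 : ℝ) ≤ N / 2 := by
      have h4 : (N : ℝ) ^ (1 / 4 : ℝ) ≤ (N : ℝ) ^ (1 / 2 : ℝ) :=
        Real.rpow_le_rpow_of_exponent_le hN1.le (by norm_num)
      rw [← Real.sqrt_eq_rpow] at h4
      have h5 : √(N : ℝ) ≤ N / 2 := by
        rw [Real.sqrt_le_left (by linarith)]
        nlinarith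
      linarith
    nlinarith
  · exact (Real.rpow_le_rpow_of_exponent_le hN1.le (by linarith)).trans hA1

theorem adm_large (θ : ℝ) (hθ : 5 / 6 < θ) (M : ℕ) : ∀ᶠ N : ℕ in atTop, ∀ A : ℕ, Adm θ N A →
    M ≤ A := by
  have h1 : Tendsto (fun N : ℕ => (N : ℝ) ^ θ) atTop atTop :=
    (tendsto_rpow_atTop (by linarith)).comp tendsto_natCast_atTop_atTop
  filter_upwards [h1.eventually_ge_atTop (M : ℝ)] with N hN A hA
  exact_mod_cast hN.trans hA.1

/-! ### the pointwise inequality -/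

noncomputable section

/-- indicator of `NSq` -/
def nsq (N : ℕ) (e0 : ℝ) (m : ℕ) : ℝ := if NSq ((N : ℝ) ^ e0) m then 1 else 0

/-- indicator of a divisor in the window -/
def win (N : ℕ) (e0 x e : ℝ) (m : ℕ) : ℝ :=
  if Rough ((N : ℝ) ^ e0) m ∧ Win N x e m then 1 else 0

/-- the error function -/
def errB (N : ℕ) (e0 e C α : ℝ) (m : ℕ) : ℝ :=
  C * (nsq N e0 m + ∑ x ∈ crit α, win N e0 x (2 * e) m)

theorem cnt_errB (N : ℕ) (a : ℤ) (e0 e C α : ℝ) :
    cnt N a (errB N e0 e C α)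
      = C * (cnt N a (nsq N e0) + ∑ x ∈ crit α, cnt N a (win N e0 x (2 * e))) := by
  unfold errB
  rw [cnt_smul, cnt_add, cnt_sum]

theorem model_errB (N : ℕ) (e0 e C α : ℝ) :
    model N (errB N e0 e C α)
      = C * (model N (nsq N e0) + ∑ x ∈ crit α, model N (win N e0 x (2 * e))) := by
  unfold errB
  rw [model_smul, model_add, model_sum]

theorem pointwise {N A : ℕ} {a : ℤ} {e0 e e2 C α : ℝ} {w : ℕ} (T' : Finset (Multiset ℕ))
    (t : Multiset ℕ → ℝ) (ha : a ∈ IA A) (hA : (A : ℝ) ≤ (N : ℝ) ^ 2 / 2) (hG : 0 ≤ Gw w a)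
    (hT2 : ∀ m : ℕ, (N : ℝ) ^ 2 / 2 ≤ m → (m : ℝ) ≤ 5 * (N : ℝ) ^ 2 →
      |primeInd m - psiM N e0 m - ∑ c ∈ T', t c * FF N e2 c m| ≤ errB N e0 e C α m) :
    |cnt N a primeInd - Gw w a * model N primeInd| ≤
      |cnt N a (psiM N e0) - Gw w a * model N (psiM N e0)|
      + (∑ c ∈ T', |t c| * |cnt N a (fun m => FF N e2 c m) - Gw w a * model N (fun m => FF N e2 c m)|
      + cnt N a (errB N e0 e C α) + Gw w a * model N (errB N e0 e C α)) := by
  set R : ℕ → ℝ := fun m => primeInd m - psiM N e0 m - ∑ c ∈ T', t c * FF N e2 c m with hR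
  have hdec : primeInd = fun m => (psiM N e0 m + ∑ c ∈ T', t c * FF N e2 c m) + R m := by
    funext m
    simp only [hR]
    ring
  have h1 : cnt N a primeInd = cnt N a (psiM N e0)
      + ∑ c ∈ T', t c * cnt N a (fun m => FF N e2 c m) + cnt N a R := by
    conv_lhs => rw [hdec]
    rw [cnt_add N a (fun m => psiM N e0 m + ∑ c ∈ T', t c * FF N e2 c m) R,
      cnt_add N a (psiM N e0), cnt_sum N a T' (fun c m => t c * FF N e2 c m)]
    congr 2
    exact Finset.sum_congr rfl (fun c _ => cnt_smul N a (t c) _)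
  have h2 : model N primeInd = model N (psiM N e0)
      + ∑ c ∈ T', t c * model N (fun m => FF N e2 c m) + model N R := by
    conv_lhs => rw [hdec]
    rw [model_add N (fun m => psiM N e0 m + ∑ c ∈ T', t c * FF N e2 c m) R,
      model_add N (psiM N e0), model_sum N T' (fun c m => t c * FF N e2 c m)]
    congr 2
    exact Finset.sum_congr rfl (fun c _ => model_smul N (t c) _)
  have h3 : |cnt N a R| ≤ cnt N a (errB N e0 e C α) := cnt_abs_le ha hA R _ hT2
  have h4 : |model N R| ≤ model N (errB N e0 e C α) := model_abs_le R _ hT2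
  have h5 : cnt N a primeInd - Gw w a * model N primeInd
      = (cnt N a (psiM N e0) - Gw w a * model N (psiM N e0))
        + ∑ c ∈ T', t c * (cnt N a (fun m => FF N e2 c m)
            - Gw w a * model N (fun m => FF N e2 c m))
        + cnt N a R - Gw w a * model N R := by
    rw [h1, h2]
    have : ∑ c ∈ T', t c * (cnt N a (fun m => FF N e2 c m)
            - Gw w a * model N (fun m => FF N e2 c m))
        = ∑ c ∈ T', t c * cnt N a (fun m => FF N e2 c m)
          - Gw w a * ∑ c ∈ T', t c * model N (fun m => FF N e2 c m) := by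
      rw [Finset.mul_sum, ← Finset.sum_sub_distrib]
      exact Finset.sum_congr rfl (fun c _ => by ring)
    rw [this]
    ring
  have h6 : |∑ c ∈ T', t c * (cnt N a (fun m => FF N e2 c m)
            - Gw w a * model N (fun m => FF N e2 c m))|
      ≤ ∑ c ∈ T', |t c| * |cnt N a (fun m => FF N e2 c m)
            - Gw w a * model N (fun m => FF N e2 c m)| := by
    refine (Finset.abs_sum_le_sum_abs _ _).trans (Finset.sum_le_sum (fun c _ => ?_))
    rw [abs_mul]
  have h7 : |Gw w a * model N R| ≤ Gw w a * model N (errB N e0 e C α) := by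
    rw [abs_mul, abs_of_nonneg hG]
    exact mul_le_mul_of_nonneg_left h4 hG
  rw [h5]
  set x1 := cnt N a (psiM N e0) - Gw w a * model N (psiM N e0)
  set x2 := ∑ c ∈ T', t c * (cnt N a (fun m => FF N e2 c m)
            - Gw w a * model N (fun m => FF N e2 c m))
  set x3 := cnt N a R
  set x4 := Gw w a * model N R
  calc |x1 + x2 + x3 - x4| ≤ |x1 + x2 + x3| + |x4| := abs_sub _ _
    _ ≤ |x1 + x2| + |x3| + |x4| := by linarith [abs_add_le (x1 + x2) x3]
    _ ≤ |x1| + |x2| + |x3| + |x4| := by linarith [abs_add_le x1 x2]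
    _ ≤ _ := by linarith

end

end BLK

open BLK in
theorem specBLK (hTI : SpecTI) (hT2 : SpecT2) (hTII : SpecTII) (hWIN : SpecWIN)
    (hWINM : SpecWINM) (hNSF : SpecNSF) (hNSFM : SpecNSFM) (hGmean : SpecGMEAN)
    (hGmax : SpecGMAX) : SpecBLK := by
  intro θ ε hθ hε
  obtain ⟨e1, he1, hTI⟩ := hTI θ (ε / 2) hθ (by positivity)
  set e0 : ℝ := min e1 (1 / 10) with he0
  have he0p : 0 < e0 := lt_min he1 (by norm_num)
  have he0u : e0 ≤ 1 / 10 := min_le_right _ _
  obtain ⟨w1, hTI⟩ := hTI e0 he0p (min_le_left _ _)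
  obtain ⟨C, hC, hT2⟩ := hT2 e0 he0p he0u
  obtain ⟨CW, hCW, hWIN⟩ := hWIN θ hθ
  obtain ⟨CM, hCM, hWINM⟩ := hWINM
  set D : ℝ := C * 5 * (CW + 3 * CM) * 2 / e0 ^ 2 with hD
  have hD0 : 0 < D := by positivity
  set e : ℝ := min (1 / 40) (ε ^ 2 / (24 * D)) with he
  have hep : 0 < e := lt_min (by norm_num) (by positivity)
  have heu : e ≤ 1 / 40 := min_le_left _ _
  have heD : D * e ≤ ε ^ 2 / 24 := by
    calc D * e ≤ D * (ε ^ 2 / (24 * D)) := mul_le_mul_of_nonneg_left (min_le_right _ _) hD0.le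
      _ = ε ^ 2 / 24 := by field_simp
  set κ : ℝ := ε ^ 2 / (96 * C) with hκ
  have hκ0 : 0 < κ := by positivity
  obtain ⟨Q, hQ, T, t, hTQ, htC, N2, hT2⟩ := hT2 e hep heu
  set ϖ : ℝ := ε ^ 2 / (12 * (T.card + 1) * C) with hϖ
  have hϖ0 : 0 < ϖ := by positivity
  -- the Type II sums
  have hII : ∀ c ∈ T, ∀ᶠ w : ℕ in atTop, ∀ᶠ N : ℕ in atTop, ∀ A : ℕ, Adm θ N A →
      Good (e0 / Q) e (Real.logb N A) c → (∃ c₁ : Multiset ℕ, c₁ ≤ c ∧ Mid (e0 / Q) e c₁) →
      ∑ a ∈ IA A, |cnt N a (fun m => FF N (e0 / Q) c m)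
        - Gw w a * model N (fun m => FF N (e0 / Q) c m)| ≤ ϖ * A * N / Real.log N := by
    intro c hc
    by_cases H : ∃ c₁ : Multiset ℕ, c₁ ≤ c ∧ Mid (e0 / Q) e c₁
    · obtain ⟨c₁, hc1, hmid⟩ := H
      have hq1 : ∀ i ∈ c₁, Q ≤ i := fun i hi => hTQ c hc i (Multiset.mem_of_le hc1 hi)
      have hq2 : ∀ i ∈ c - c₁, Q ≤ i := fun i hi =>
        hTQ c hc i (Multiset.mem_of_le (Multiset.sub_le_self c c₁) hi)
      obtain ⟨w₀, hw⟩ := hTII θ e e0 ϖ Q c₁ (c - c₁) hθ hep he0p he0u hϖ0 hQ hq1 hq2 hmid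
      have hcc : c₁ + (c - c₁) = c := by
        rw [add_comm]
        exact Multiset.sub_add_cancel hc1
      rw [hcc] at hw
      refine eventually_atTop.2 ⟨w₀, fun w hww => ?_⟩
      obtain ⟨N₀, hN⟩ := hw w hww
      refine eventually_atTop.2 ⟨N₀, fun N hNN A hA hgood _ => ?_⟩
      exact hN N A hNN hA (nearA_of_good hgood hc1)
    · exact Eventually.of_forall (fun w => Eventually.of_forall (fun N A _ _ h => absurd h H))
  have hII' : ∀ᶠ w : ℕ in atTop, ∀ᶠ N : ℕ in atTop, ∀ c ∈ T, ∀ A : ℕ, Adm θ N A →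
      Good (e0 / Q) e (Real.logb N A) c → (∃ c₁ : Multiset ℕ, c₁ ≤ c ∧ Mid (e0 / Q) e c₁) →
      ∑ a ∈ IA A, |cnt N a (fun m => FF N (e0 / Q) c m)
        - Gw w a * model N (fun m => FF N (e0 / Q) c m)| ≤ ϖ * A * N / Real.log N := by
    have h1 := (Filter.eventually_all_finset T).2 hII
    filter_upwards [h1] with w hw
    exact (Filter.eventually_all_finset T).2 hw
  have hTI' : ∀ᶠ w : ℕ in atTop, ∀ᶠ N : ℕ in atTop, ∀ A : ℕ, Adm θ N A →
      (((IA A).filter (fun a => ε / 2 * N / Real.log N <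
        |cnt N a (psiM N e0) - Gw w a * model N (psiM N e0)|)).card : ℝ) ≤ ε / 2 * A := by
    refine eventually_atTop.2 ⟨w1, fun w hw => ?_⟩
    obtain ⟨N₀, hN⟩ := hTI w hw
    exact eventually_atTop.2 ⟨N₀, fun N hNN A hA => hN N A hNN hA⟩
  -- windows and squares
  obtain ⟨N3, hWIN⟩ := hWIN e0 (2 * e) he0p he0u (by positivity) (by linarith)
  obtain ⟨N4, hWINM⟩ := hWINM e0 (2 * e) he0p he0u (by positivity) (by linarith)
  obtain ⟨N5, hNSF⟩ := hNSF θ e0 κ hθ he0p hκ0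
  obtain ⟨N6, hNSFM⟩ := hNSFM e0 κ he0p hκ0
  -- conclusion
  obtain ⟨w₀, hw₀⟩ := eventually_atTop.1 (hII'.and (hTI'.and (eventually_ge_atTop 2)))
  refine ⟨w₀, fun w hw => ?_⟩
  obtain ⟨hA2, hA1, hw2⟩ := hw₀ w hw
  obtain ⟨A₀, hGm⟩ := hGmean w
  obtain ⟨cG, hcG, hGx⟩ := hGmax w hw2
  have hG0 : ∀ a : ℤ, 0 ≤ Gw w a := fun a => hcG.le.trans (hGx a).1
  obtain ⟨N₀, hN₀⟩ := eventually_atTop.1 (hA2.and (hA1.and ((adm_ev θ hθ).and
    ((adm_large θ hθ A₀).and ((eventually_ge_atTop N2).and ((eventually_ge_atTop N3).and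
      ((eventually_ge_atTop N4).and ((eventually_ge_atTop N5).and (eventually_ge_atTop N6)))))))))
  refine ⟨N₀, fun N A hN hA => ?_⟩
  obtain ⟨hE2, hE1, hadm, hlarge, hN2, hN3, hN4, hN5, hN6⟩ := hN₀ N hN
  obtain ⟨hNN, hα1, hα2, hAN, _⟩ := hadm A hA
  have hE1 := hE1 A hA
  have hGm := hGm A (hlarge A hA)
  have hlog : 0 < Real.log N := Real.log_pos (by exact_mod_cast (by omega : 1 < N))
  have hN0 : (0 : ℝ) < N := by exact_mod_cast (by omega : 0 < N)
  obtain ⟨hT2a, hT2b⟩ := hT2 N hN2 (Real.logb N A) hα1 hα2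
  set α : ℝ := Real.logb N A with hα
  set T' : Finset (Multiset ℕ) := T.filter (fun c => Good (e0 / Q) e α c) with hT'
  have hT2c : ∀ m : ℕ, (N : ℝ) ^ 2 / 2 ≤ m → (m : ℝ) ≤ 5 * (N : ℝ) ^ 2 →
      |primeInd m - psiM N e0 m - ∑ c ∈ T', t c * FF N (e0 / Q) c m| ≤ errB N e0 e C α m := by
    intro m hm1 hm2
    refine (hT2a m hm1 hm2).trans ?_
    unfold errB nsq win
    apply mul_le_mul_of_nonneg_left _ hC.le
    apply add_le_add _ le_rfl
    by_cases h : NSq ((N : ℝ) ^ e0) m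
    · rw [if_pos h]
      split_ifs <;> norm_num
    · rw [if_neg h, if_neg (fun h' => h h'.2)]
  set U : ℝ := A * N / Real.log N with hU
  have hU0 : 0 ≤ U := by positivity
  set f : ℤ → ℝ := fun a =>
    ∑ c ∈ T', |t c| * |cnt N a (fun m => FF N (e0 / Q) c m)
        - Gw w a * model N (fun m => FF N (e0 / Q) c m)|
      + cnt N a (errB N e0 e C α) + Gw w a * model N (errB N e0 e C α) with hf
  have hnsq0 : ∀ m, 0 ≤ nsq N e0 m := fun m => by unfold nsq; split_ifs <;> norm_num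
  have hwin0 : ∀ x y m, 0 ≤ win N e0 x y m := fun x y m => by unfold win; split_ifs <;> norm_num
  have herr0 : ∀ m, 0 ≤ errB N e0 e C α m := fun m => by
    unfold errB
    exact mul_nonneg hC.le (add_nonneg (hnsq0 m) (Finset.sum_nonneg (fun x _ => hwin0 x _ m)))
  have hf0 : ∀ a ∈ IA A, 0 ≤ f a := by
    intro a _
    simp only [hf]
    have h1 := cnt_nonneg (N := N) (a := a) herr0
    have h2 := mul_nonneg (hG0 a) (model_nonneg (N := N) herr0)
    have h3 : 0 ≤ ∑ c ∈ T', |t c| * |cnt N a (fun m => FF N (e0 / Q) c m)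
        - Gw w a * model N (fun m => FF N (e0 / Q) c m)| :=
      Finset.sum_nonneg (fun c _ => by positivity)
    linarith
  -- the three sums
  have hS1 : ∑ a ∈ IA A, ∑ c ∈ T', |t c| * |cnt N a (fun m => FF N (e0 / Q) c m)
        - Gw w a * model N (fun m => FF N (e0 / Q) c m)| ≤ ε ^ 2 / 12 * U := by
    rw [Finset.sum_comm]
    calc ∑ c ∈ T', ∑ a ∈ IA A, |t c| * |cnt N a (fun m => FF N (e0 / Q) c m)
        - Gw w a * model N (fun m => FF N (e0 / Q) c m)|
        ≤ ∑ c ∈ T', C * (ϖ * U) := by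
          apply Finset.sum_le_sum
          intro c hc
          rw [hT', Finset.mem_filter] at hc
          rw [← Finset.mul_sum]
          by_cases ht0 : t c = 0
          · rw [ht0, abs_zero, zero_mul]
            positivity
          · have h1 := hE2 c hc.1 A hA hc.2 (hT2b c hc.1 hc.2 ht0)
            have h2 : ϖ * A * N / Real.log N = ϖ * U := by rw [hU]; ring
            rw [h2] at h1
            exact mul_le_mul (htC c hc.1) h1 (Finset.sum_nonneg (fun _ _ => abs_nonneg _)) hC.le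
      _ = T'.card * (C * (ϖ * U)) := by rw [Finset.sum_const, nsmul_eq_mul]
      _ ≤ (T.card + 1) * (C * (ϖ * U)) := by
          apply mul_le_mul_of_nonneg_right _ (by positivity)
          have : T'.card ≤ T.card := Finset.card_filter_le _ _
          have : (T'.card : ℝ) ≤ T.card := by exact_mod_cast this
          linarith
      _ = ε ^ 2 / 12 * U := by
          rw [hϖ]
          field_simp
  have hw1 : ∀ x ∈ crit α, ∑ a ∈ IA A, cnt N a (win N e0 x (2 * e))
      ≤ CW * (2 * e / e0 ^ 2) * U := by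
    intro x hx
    obtain ⟨hx1, hx2⟩ := crit_range hα1 hα2 hx
    have h1 := hWIN N A hN3 hA x hx1 hx2
    have h2 : CW * (2 * e / e0 ^ 2) * A * N / Real.log N = CW * (2 * e / e0 ^ 2) * U := by
      rw [hU]; ring
    rw [h2] at h1
    exact h1
  have hw2 : ∀ x ∈ crit α, model N (win N e0 x (2 * e))
      ≤ CM * (2 * e / e0 ^ 2) * (N / Real.log N) := by
    intro x hx
    obtain ⟨hx1, hx2⟩ := crit_range hα1 hα2 hx
    have h1 := hWINM N hN4 x hx1 hx2
    have h2 : CM * (2 * e / e0 ^ 2) * N / Real.log N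
        = CM * (2 * e / e0 ^ 2) * (N / Real.log N) := by ring
    rw [h2] at h1
    exact h1
  have hS2 : ∑ a ∈ IA A, cnt N a (errB N e0 e C α)
      ≤ C * (κ * U + 5 * (CW * (2 * e / e0 ^ 2) * U)) := by
    calc ∑ a ∈ IA A, cnt N a (errB N e0 e C α)
        = C * (∑ a ∈ IA A, cnt N a (nsq N e0)
            + ∑ x ∈ crit α, ∑ a ∈ IA A, cnt N a (win N e0 x (2 * e))) := by
          rw [Finset.sum_comm, ← Finset.sum_add_distrib, Finset.mul_sum]
          exact Finset.sum_congr rfl (fun a _ => cnt_errB N a e0 e C α)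
      _ ≤ C * (κ * U + 5 * (CW * (2 * e / e0 ^ 2) * U)) := by
          apply mul_le_mul_of_nonneg_left _ hC.le
          apply add_le_add
          · have h1 := hNSF N A hN5 hA
            have h2 : κ * A * N / Real.log N = κ * U := by rw [hU]; ring
            rw [h2] at h1
            exact h1
          · exact sum_crit_le α _ _ (by positivity) hw1
  have hS3 : ∑ a ∈ IA A, Gw w a * model N (errB N e0 e C α)
      ≤ C * (3 * κ * U + 5 * (3 * CM * (2 * e / e0 ^ 2) * U)) := by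
    rw [← Finset.sum_mul]
    have h1 : model N (errB N e0 e C α)
        ≤ C * (κ * (N / Real.log N) + 5 * (CM * (2 * e / e0 ^ 2) * (N / Real.log N))) := by
      rw [model_errB]
      apply mul_le_mul_of_nonneg_left _ hC.le
      apply add_le_add
      · have h1 := hNSFM N hN6
        have h2 : κ * N / Real.log N = κ * (N / Real.log N) := by ring
        rw [h2] at h1
        exact h1
      · exact sum_crit_le α _ _ (by positivity) hw2
    calc (∑ a ∈ IA A, Gw w a) * model N (errB N e0 e C α)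
        ≤ (3 * A) * (C * (κ * (N / Real.log N)
            + 5 * (CM * (2 * e / e0 ^ 2) * (N / Real.log N)))) :=
          mul_le_mul hGm h1 (model_nonneg herr0) (by positivity)
      _ = C * (3 * κ * U + 5 * (3 * CM * (2 * e / e0 ^ 2) * U)) := by
          rw [hU]
          ring
  have hSum : ∑ a ∈ IA A, f a ≤ ε ^ 2 / 6 * U := by
    have h1 : ∑ a ∈ IA A, f a
        = ∑ a ∈ IA A, ∑ c ∈ T', |t c| * |cnt N a (fun m => FF N (e0 / Q) c m)
            - Gw w a * model N (fun m => FF N (e0 / Q) c m)|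
          + ∑ a ∈ IA A, cnt N a (errB N e0 e C α)
          + ∑ a ∈ IA A, Gw w a * model N (errB N e0 e C α) := by
      simp only [hf]
      rw [Finset.sum_add_distrib, Finset.sum_add_distrib]
    rw [h1]
    have h2 : C * (κ * U + 5 * (CW * (2 * e / e0 ^ 2) * U))
          + C * (3 * κ * U + 5 * (3 * CM * (2 * e / e0 ^ 2) * U))
        = (4 * (C * κ) + D * e) * U := by
      rw [hD]
      ring
    have h3 : 4 * (C * κ) = ε ^ 2 / 24 := by
      rw [hκ]
      field_simp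
      norm_num
    have h4 : (4 * (C * κ) + D * e) * U ≤ (ε ^ 2 / 24 + ε ^ 2 / 24) * U := by
      rw [h3]
      exact mul_le_mul_of_nonneg_right (by linarith) hU0
    linarith
  have hMk := markov (IA A) f hf0 (ε / 2 * (N / Real.log N)) (ε ^ 2 / 6 * U)
    (by positivity) hSum
  have hcard2 : (((IA A).filter (fun a => ε / 2 * (N / Real.log N) < f a)).card : ℝ)
      ≤ ε / 2 * A := by
    have hpos : 0 < ε / 2 * (N / Real.log N) := by positivity
    rw [← div_le_div_iff_of_pos_right (c := 1) one_pos, div_one, div_one]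
    have h1 : (((IA A).filter (fun a => ε / 2 * (N / Real.log N) < f a)).card : ℝ)
        ≤ ε ^ 2 / 6 * U / (ε / 2 * (N / Real.log N)) := by
      rw [le_div_iff₀ hpos]
      exact hMk
    have h2 : ε ^ 2 / 6 * U / (ε / 2 * (N / Real.log N)) = ε / 3 * A := by
      rw [hU]
      field_simp
      ring
    rw [h2] at h1
    refine h1.trans ?_
    apply mul_le_mul_of_nonneg_right _ (Nat.cast_nonneg A)
    linarith
  have hsub : (IA A).filter (fun a => ε * N / Real.log N <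
      |cnt N a primeInd - Gw w a * model N primeInd|)
      ⊆ (IA A).filter (fun a => ε / 2 * N / Real.log N <
        |cnt N a (psiM N e0) - Gw w a * model N (psiM N e0)|)
        ∪ (IA A).filter (fun a => ε / 2 * (N / Real.log N) < f a) := by
    intro a ha
    rw [Finset.mem_filter] at ha
    rw [Finset.mem_union, Finset.mem_filter, Finset.mem_filter]
    by_contra hcon
    push Not at hcon
    have h1 := hcon.1 ha.1
    have h2 := hcon.2 ha.1
    have h3 := pointwise (w := w) T' t ha.1 hAN (hG0 a) hT2c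
    have h4 : ε * N / Real.log N = ε / 2 * N / Real.log N + ε / 2 * (N / Real.log N) := by ring
    have h5 := ha.2
    simp only [hf] at h2
    linarith
  calc (((IA A).filter (fun a => ε * N / Real.log N <
      |cnt N a primeInd - Gw w a * model N primeInd|)).card : ℝ)
      ≤ (((IA A).filter (fun a => ε / 2 * N / Real.log N <
        |cnt N a (psiM N e0) - Gw w a * model N (psiM N e0)|)
        ∪ (IA A).filter (fun a => ε / 2 * (N / Real.log N) < f a)).card : ℝ) := by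
        exact_mod_cast Finset.card_le_card hsub
    _ ≤ (((IA A).filter (fun a => ε / 2 * N / Real.log N <
        |cnt N a (psiM N e0) - Gw w a * model N (psiM N e0)|)).card : ℝ)
        + (((IA A).filter (fun a => ε / 2 * (N / Real.log N) < f a)).card : ℝ) := by
        exact_mod_cast Finset.card_union_le _ _
    _ ≤ ε / 2 * A + ε / 2 * A := add_le_add hE1 hcard2
    _ = ε * A := by ring

end Pool.Agent.Lib.MP391708.QPA
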