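import Pool.Agent.Lib.MP_391708_nt.QPA.Spec

/-!
# Project QPA, phase 2: the range `N^θ ≤ A`, `7/10 < θ ≤ 5/6`

General versions of the Specs with a parameter `κ ∈ [2/3, 4/5]`, `θ + κ > 3/2`: Type II is available for
`N^κ ≤ K ≤ N^(1-e)`.  With `Y = (N/2)^κ` the identity is `1_P = ψ + T + 2·1_{P3}`, where `P3` is the set of the products of three
primes, all `≤ Y`.  This gives lower bounds for the number of primes for almost all `a`, and for `κ = 2/3` the asymptotic formula.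
-/

set_option autoImplicit false

namespace Pool.Agent.Lib.MP391708.QPA

open Finset Filter Topology
open scoped Classical

noncomputable section

/-- `Y = (N/2)^κ` -/
def YK (N : ℕ) (κ : ℝ) : ℝ := ((N : ℝ) / 2) ^ κ

/-- the truncated Möbius sum on `z`-rough numbers, `z = N^ε₀`, level `(N/2)^κ` -/
def psiK (N : ℕ) (e0 κ : ℝ) (m : ℕ) : ℝ :=
  rInd ((N : ℝ) ^ e0) m * ∑ k ∈ m.divisors.filter (fun k : ℕ => (k : ℝ) ≤ YK N κ),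
    (ArithmeticFunction.moebius k : ℝ)

/-- squarefree products of three primes `≤ Y` -/
def p3Ind (Y : ℝ) (m : ℕ) : ℝ :=
  if Squarefree m ∧ m.primeFactors.card = 3 ∧ ∀ p ∈ m.primeFactors, (p : ℝ) ≤ Y then 1 else 0

/-- the critical exponents -/
def critK (κ α : ℝ) : Finset ℝ := {κ, 2 - κ, 1, α, 2 - α}

/-- the type `c` is good -/
def GoodK (κ e2 e α : ℝ) (c : Multiset ℕ) : Prop :=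
  ∀ s : Multiset ℕ, s ≤ c → s ≠ 0 → ∀ x ∈ critK κ α,
    (x + e < e2 * (s.sum : ℝ)) ∨ (e2 * ((s.sum : ℝ) + (Multiset.card s : ℝ)) < x - e)

/-- the subtype `c₁` gives products in `[N^(κ+e), N^(1-e)]` -/
def MidK (κ e2 e : ℝ) (c1 : Multiset ℕ) : Prop :=
  κ + e ≤ e2 * (c1.sum : ℝ) ∧ e2 * ((c1.sum : ℝ) + (Multiset.card c1 : ℝ)) ≤ 1 - e

/-- PRODK: PROD with `3/5` in place of `3/4` (same proof). -/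
def SpecPRODK : Prop := ∀ δ : ℝ, 0 < δ → ∃ w₀ : ℕ, ∀ w : ℕ, w₀ ≤ w → ∀ e0 : ℝ, 0 < e0 → e0 ≤ 1 / 10 →
  ∃ N₀ : ℕ, ∀ N A : ℕ, N₀ ≤ N → (N : ℝ) ^ (3 / 5 : ℝ) ≤ A →
    (((IA A).filter (fun a => ¬ |Wa ((N : ℝ) ^ e0) a - Gw w a * Wp ((N : ℝ) ^ e0)|
      ≤ δ * (Gw w a * Wp ((N : ℝ) ^ e0)))).card : ℝ) ≤ δ * A

/-- MOBK (from SML, LRG, RHOD, RSUM): as MOB; the divisors `e ≤ A N^(-ε')` by SML, `e ≥ A N^(ε')` by LRG, those in between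
trivially for every `a`: `∑_{e rough, between} (1/e) ∑_{g rough ≤ N} 1/g ≤ C ε'/e0²` (RSUM), and `ε'` is chosen in terms of `δ, e0`. -/
def SpecMOBK : Prop := ∀ θ κ e0 δ : ℝ, 3 / 5 < θ → 2 / 3 ≤ κ → κ ≤ 4 / 5 → 0 < e0 → e0 ≤ 1 / 10 → 0 < δ →
  ∃ N₀ : ℕ, ∀ N A : ℕ, N₀ ≤ N → Adm θ N A →
    (((IA A).filter (fun a => ¬ |∑ k ∈ (Icc 1 ⌊YK N κ⌋₊).filter (fun k => Rough ((N : ℝ) ^ e0) k),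
      (ArithmeticFunction.moebius k : ℝ) * ((rho a k : ℝ) - 1) / k| ≤ δ)).card : ℝ) ≤ δ * A

/-- RHOMEANK: RHOMEAN with `3/5` (same proof). -/
def SpecRHOMEANK : Prop := ∃ C : ℝ, 0 < C ∧ ∀ e0 : ℝ, 0 < e0 → e0 ≤ 1 / 10 → ∃ N₀ : ℕ,
  ∀ N A : ℕ, N₀ ≤ N → (N : ℝ) ^ (3 / 5 : ℝ) ≤ A →
    ∑ a ∈ IA A, ∑ k ∈ (Icc 1 N).filter (fun k => Rough ((N : ℝ) ^ e0) k), (rho a k : ℝ) / k
      ≤ C * A / e0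

/-- FIRSTK: FIRST with `3/5` (same proof). -/
def SpecFIRSTK : Prop := ∀ e0 : ℝ, 0 < e0 → ∃ C : ℝ, 0 < C ∧ ∃ N₀ : ℕ, ∀ N A : ℕ, N₀ ≤ N →
  (N : ℝ) ^ (3 / 5 : ℝ) ≤ A → ∀ K : ℝ, (N : ℝ) ^ (1 / 2 : ℝ) ≤ K → K ≤ N →
    ∑ a ∈ IA A, ∑ k ∈ Ioc ⌊K⌋₊ ⌊5 / 4 * K⌋₊, rInd ((N : ℝ) ^ e0) k * (rho a k : ℝ)
      ≤ C * A * K / Real.log N

/-- NSFK: NSF for all `θ > 3/5`. `p² ≤ P² = N^(1+θ-c)`: QG; `p > P`: `m ≤ 5N^(1-θ+c)`, at most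
`C A/√m + 1` pairs `(n,p)` for each `m` and dyadic block of `p`, in total `≤ C A N^((1-θ+c)/2) + N^(1-θ+c)`. -/
def SpecNSFK : Prop := ∀ θ e0 δ : ℝ, 3 / 5 < θ → 0 < e0 → 0 < δ → ∃ N₀ : ℕ, ∀ N A : ℕ, N₀ ≤ N →
  Adm θ N A → ∑ a ∈ IA A, cnt N a (fun m => if NSq ((N : ℝ) ^ e0) m then 1 else 0)
    ≤ δ * A * N / Real.log N

/-- WINK: WIN for all `θ > 3/5` (same proof: only `A N ≥ N^(3/2+small)` is used). -/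
def SpecWINK : Prop := ∀ θ : ℝ, 3 / 5 < θ → ∃ C : ℝ, 0 < C ∧ ∀ e0 e : ℝ, 0 < e0 → e0 ≤ 1 / 10 →
  0 < e → e ≤ 1 / 10 → ∃ N₀ : ℕ, ∀ N A : ℕ, N₀ ≤ N → Adm θ N A → ∀ x : ℝ, 1 / 2 ≤ x → x ≤ 3 / 2 →
    ∑ a ∈ IA A, cnt N a (fun m => if Rough ((N : ℝ) ^ e0) m ∧ Win N x e m then 1 else 0)
      ≤ C * (e / e0 ^ 2) * A * N / Real.log N

/-- TWOK (from SEC, FIRSTK, SELB with `m = 2`): as TWO. `L√(L/K) = (KL)^(3/2)/K² ≤ C N^(3-2κ)` and `A² ≥ N^(2θ)`. -/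
def SpecTWOK : Prop := ∀ θ κ e e0 B : ℝ, 3 / 5 < θ → 2 / 3 ≤ κ → 3 / 2 < θ + κ → 0 < e → 0 < e0 → 0 < B →
  ∃ C : ℝ, 0 < C ∧ ∀ δ : ℝ, 0 < δ → ∃ N₀ : ℕ, ∀ N A : ℕ, N₀ ≤ N → Adm θ N A → ∀ K L : ℝ,
  (N : ℝ) ^ κ ≤ K → K ≤ (N : ℝ) ^ (1 - e) → (N : ℝ) ^ 2 / 2 ≤ K * L → K * L ≤ 5 * (N : ℝ) ^ 2 →
  ∀ α b : ℕ → ℝ, (∀ k, |α k| ≤ B * rInd ((N : ℝ) ^ e0) k) →
  (∀ k, α k ≠ 0 → K < (k : ℝ) ∧ (k : ℝ) ≤ 5 / 4 * K) →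
  (∀ u, |b u| ≤ B) → (∀ u, b u ≠ 0 → Odd u ∧ L < (u : ℝ) ∧ (u : ℝ) ≤ 5 / 4 * L) →
  (∑ a ∈ IA A, |bil (8 * N) a α b|) ^ 2
    ≤ C * ((A : ℝ) ^ 2 * K / (Real.log N) ^ 2) * (|Wsum K L b| + δ * L / (Real.log N) ^ 2)

/-- MTAK: MTA for `θ > 3/5` (same proof). -/
def SpecMTAK : Prop := ∀ (θ e e0 B δ η : ℝ) (w J : ℕ), 3 / 5 < θ → 0 < e → 0 < e0 → 0 < B → 0 < δ →
  0 < η → η ≤ 1 / 4 → 2 ≤ w → 1 ≤ J → ∃ N₀ : ℕ, ∀ N A : ℕ, N₀ ≤ N → Adm θ N A → ∀ K L : ℝ,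
  (N : ℝ) ^ (1 / 2 : ℝ) ≤ K → K ≤ (N : ℝ) ^ (1 - e) → (N : ℝ) ^ 2 / 2 ≤ K * L →
  K * L ≤ 5 * (N : ℝ) ^ 2 → ∀ α β : ℕ → ℝ, (∀ k, |α k| ≤ B * rInd ((N : ℝ) ^ e0) k) →
  (∀ k, α k ≠ 0 → K < (k : ℝ) ∧ (k : ℝ) ≤ 5 / 4 * K) → (∀ l, |β l| ≤ B) →
  ∑ a ∈ IA A, |bil (8 * N) a α (sharp w L η J β)
      - Gw w a * ∑ i ∈ range J, Dav L η J β i * ∑ k ∈ Ioc ⌊K⌋₊ ⌊5 / 4 * K⌋₊, α k * ((rho a k : ℝ) / k)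
        * (√(k * (L * (1 + η * (i + 1) / J))) - √(k * (L * (1 + η * i / J))))|
    ≤ δ * A * N / (Real.log N) ^ 2

/-- MTBK: MTB for `θ > 3/5` (same proof). -/
def SpecMTBK : Prop := ∀ (θ e e0 δ η : ℝ) (Q : ℕ) (c : Multiset ℕ), 3 / 5 < θ → 0 < e → 0 < e0 →
  e0 ≤ 1 / 10 → 0 < δ → 0 < η → η ≤ 1 / 4 → 1 ≤ Q → (∀ i ∈ c, Q ≤ i) → ∃ N₀ : ℕ, ∀ N A : ℕ, N₀ ≤ N →
  Adm θ N A → NearA N A (e0 / Q) e c → ∀ K : ℝ, (N : ℝ) ^ (1 / 2 : ℝ) ≤ K → K ≤ (N : ℝ) ^ (1 - e) →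
    ∑ a ∈ IA A, |∑ k ∈ Ioc ⌊K⌋₊ ⌊(1 + η) * K⌋₊, FF N (e0 / Q) c k * ((rho a k : ℝ) - 1) / √(k : ℝ)|
      ≤ δ * A * √K / (Real.log N) ^ 2

/-- BLK2K (from TWOK, WB, BDHP, EQ, MTAK, MTBK, SHM, BT, FFB, GMAX, GMEAN): as BLK2, with `N^κ ≤ K`. -/
def SpecBLK2K : Prop := ∀ (θ κ e e0 η ϖ : ℝ) (Q : ℕ) (c₁ c₂ : Multiset ℕ), 3 / 5 < θ → 2 / 3 ≤ κ →
  3 / 2 < θ + κ → 0 < e → 0 < e0 →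
  e0 ≤ 1 / 10 → 0 < η → η ≤ 1 / 4 → 0 < ϖ → 1 ≤ Q → (∀ i ∈ c₁, Q ≤ i) → (∀ i ∈ c₂, Q ≤ i) → c₂ ≠ 0 →
  ∃ w₀ : ℕ, ∀ w : ℕ, w₀ ≤ w → ∃ N₀ : ℕ, ∀ N A : ℕ, N₀ ≤ N → Adm θ N A → NearA N A (e0 / Q) e c₁ →
  ∀ K L : ℝ, (N : ℝ) ^ κ ≤ K → K ≤ (N : ℝ) ^ (1 - e) → (N : ℝ) ^ 2 / 2 ≤ K * L →
  K * L ≤ 5 * (N : ℝ) ^ 2 →
  ∑ a ∈ IA A, |bil (8 * N) a (cut K ((1 + η) * K) (fun m => FF N (e0 / Q) c₁ m))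
        (cut L ((1 + η) * L) (fun m => FF N (e0 / Q) c₂ m))
      - Gw w a * ∑ k ∈ Ioc ⌊K⌋₊ ⌊(1 + η) * K⌋₊, ∑ l ∈ Ioc ⌊L⌋₊ ⌊(1 + η) * L⌋₊,
          FF N (e0 / Q) c₁ k * FF N (e0 / Q) c₂ l / (2 * √((k : ℝ) * l))|
    ≤ ϖ * A * N / (Real.log N) ^ 2

/-- TIIK (from BLK2K, EDGE, BT, FFB, GMEAN): as TII, with `MidK κ`. -/
def SpecTIIK : Prop := ∀ (θ κ e e0 ϖ : ℝ) (Q : ℕ) (c₁ c₂ : Multiset ℕ), 3 / 5 < θ → 2 / 3 ≤ κ →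
  3 / 2 < θ + κ → 0 < e → 0 < e0 → e0 ≤ 1 / 10 → 0 < ϖ → 1 ≤ Q → (∀ i ∈ c₁, Q ≤ i) →
  (∀ i ∈ c₂, Q ≤ i) → MidK κ (e0 / Q) e c₁ →
  ∃ w₀ : ℕ, ∀ w : ℕ, w₀ ≤ w → ∃ N₀ : ℕ, ∀ N A : ℕ, N₀ ≤ N → Adm θ N A → NearA N A (e0 / Q) e c₁ →
  ∑ a ∈ IA A, |cnt N a (fun m => FF N (e0 / Q) (c₁ + c₂) m)
      - Gw w a * model N (fun m => FF N (e0 / Q) (c₁ + c₂) m)| ≤ ϖ * A * N / Real.log N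

/-- FLAK (from FL, RHOC, RHOM, RHOS): as FLA, `k ≤ N^(4/5)`, level `N^(1/10)`. -/
def SpecFLAK : Prop := ∃ C : ℝ, 0 < C ∧ ∀ (b : ℕ) (e0 : ℝ), 0 < e0 → e0 * (8 * b + 16) ≤ 1 / 10 →
  ∃ N₀ : ℕ, ∀ N : ℕ, N₀ ≤ N → ∀ (a : ℤ) (k : ℕ), Squarefree k → Rough ((N : ℝ) ^ e0) k →
  (k : ℝ) ≤ (N : ℝ) ^ (4 / 5 : ℝ) →
    |(∑ n ∈ Ioc N (2 * N), if k ∣ val a n then rInd ((N : ℝ) ^ e0) (val a n) else 0)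
        - N * ((rho a k : ℝ) / k) * Wa ((N : ℝ) ^ e0) a|
      ≤ C * Real.exp (-(b : ℝ)) * N * ((rho a k : ℝ) / k) * Wa ((N : ℝ) ^ e0) a
        + (N : ℝ) ^ (1 / 8 : ℝ)

/-- FLBK (from FL): as FLB, `k ≤ N^(4/5)`, level `N^(1/10)`. -/
def SpecFLBK : Prop := ∃ C : ℝ, 0 < C ∧ ∀ (b : ℕ) (e0 : ℝ), 0 < e0 → e0 * (8 * b + 16) ≤ 1 / 10 →
  ∃ N₀ : ℕ, ∀ N : ℕ, N₀ ≤ N → ∀ k : ℕ, Squarefree k → Rough ((N : ℝ) ^ e0) k →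
  (k : ℝ) ≤ (N : ℝ) ^ (4 / 5 : ℝ) →
    |(model N (fun m => if k ∣ m then rInd ((N : ℝ) ^ e0) m else 0))
        - N / (k : ℝ) * Wp ((N : ℝ) ^ e0)|
      ≤ C * Real.exp (-(b : ℝ)) * (N / (k : ℝ)) * Wp ((N : ℝ) ^ e0) + 1

/-- TIK (from FLAK, FLBK, PRODK, MOBK, RHOMEANK, GMEAN, GMAX, WMER, RSUM): as TI, for `psiK`. -/
def SpecTIK : Prop := ∀ θ κ ε : ℝ, 3 / 5 < θ → 2 / 3 ≤ κ → κ ≤ 4 / 5 → 0 < ε →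
  ∃ e1 : ℝ, 0 < e1 ∧ ∀ e0 : ℝ, 0 < e0 → e0 ≤ e1 →
  ∃ w₀ : ℕ, ∀ w : ℕ, w₀ ≤ w → ∃ N₀ : ℕ, ∀ N A : ℕ, N₀ ≤ N → Adm θ N A →
    (((IA A).filter (fun a => ε * N / Real.log N <
      |cnt N a (psiK N e0 κ) - Gw w a * model N (psiK N e0 κ)|)).card : ℝ) ≤ ε * A

/-- T1K. Case A: a prime `q > Y` divides `m`; then `q > m/Y`, the divisors `≤ Y` are those of `m/q < Y`. Case B: all primes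
are `≤ Y` (so `m` is not a prime). B1: some prime `s ≤ m/Y²`: `k ≤ Y` implies `ks ≤ m/Y`, hence `ks ≤ Y`, so the sum is
`0`; and `m` is not a product of three primes `≤ Y` (`p₁ = m/(p₂p₃) > m/Y²`). B2: all primes are `> m/Y² > √Y`: the product of two of
them is `> Y`, hence `> m/Y`; four primes would give `m > (m/Y)²`; two primes give `m ≤ Y²`; so there are three of them and the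
divisors `≤ Y` are `1, p₁, p₂, p₃`. -/
def SpecT1K : Prop := ∀ (m : ℕ) (Y : ℝ), Squarefree m → 2 ≤ m → 1 ≤ Y → Y ^ (5 / 2 : ℝ) < m →
  (∀ k : ℕ, k ∣ m → Y < (k : ℝ) → (m : ℝ) / Y < k) →
  ∑ k ∈ m.divisors.filter (fun k : ℕ => (k : ℝ) ≤ Y), (ArithmeticFunction.moebius k : ℝ)
    = primeInd m - 2 * p3Ind Y m

/-- T2K (from T1K, FFB): as T2 with the level `(N/2)^κ` and the term `2·p3Ind`. For a good type with a subtype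
`MidK` the number `m` has a divisor in `(Y, m/Y]`, so `p3Ind Y m = 0`. -/
def SpecT2K : Prop := ∀ κ e0 : ℝ, 2 / 3 ≤ κ → κ ≤ 4 / 5 → 0 < e0 → e0 ≤ 1 / 10 → ∃ C : ℝ, 0 < C ∧
  ∀ e : ℝ, 0 < e → e ≤ 1 / 40 →
  ∃ Q : ℕ, 1 ≤ Q ∧ ∃ (T : Finset (Multiset ℕ)) (t : Multiset ℕ → ℝ), (∀ c ∈ T, ∀ i ∈ c, Q ≤ i) ∧
  (∀ c ∈ T, |t c| ≤ C) ∧ ∃ N₀ : ℕ, ∀ N : ℕ, N₀ ≤ N → ∀ α : ℝ, 3 / 5 ≤ α → α ≤ 5 / 4 →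
  (∀ m : ℕ, (N : ℝ) ^ 2 / 2 ≤ m → (m : ℝ) ≤ 5 * (N : ℝ) ^ 2 →
    |primeInd m - 2 * p3Ind (YK N κ) m - psiK N e0 κ m
        - ∑ c ∈ T.filter (fun c => GoodK κ (e0 / Q) e α c), t c * FF N (e0 / Q) c m|
      ≤ C * ((if Rough ((N : ℝ) ^ e0) m ∧ NSq ((N : ℝ) ^ e0) m then 1 else 0)
        + ∑ x ∈ critK κ α, if Rough ((N : ℝ) ^ e0) m ∧ Win N x (2 * e) m then 1 else 0)) ∧
  (∀ c ∈ T, GoodK κ (e0 / Q) e α c → t c ≠ 0 → ∃ c₁ : Multiset ℕ, c₁ ≤ c ∧ MidK κ (e0 / Q) e c₁)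

/-- BLKK (from TIK, T2K, TIIK, WINK, WINM, NSFK, NSFM, GMEAN, GMAX): as BLK, for `primeInd - 2·p3Ind`. -/
def SpecBLKK : Prop := ∀ θ κ ε : ℝ, 3 / 5 < θ → 2 / 3 ≤ κ → κ ≤ 4 / 5 → 3 / 2 < θ + κ → 0 < ε →
  ∃ w₀ : ℕ, ∀ w : ℕ, w₀ ≤ w → ∃ N₀ : ℕ, ∀ N A : ℕ, N₀ ≤ N → Adm θ N A →
    (((IA A).filter (fun a => ε * N / Real.log N <
      |cnt N a (fun m => primeInd m - 2 * p3Ind (YK N κ) m)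
        - Gw w a * model N (fun m => primeInd m - 2 * p3Ind (YK N κ) m)|)).card : ℝ) ≤ ε * A

/-- P3M: upper bound for the three-prime products in the model. For ordered `(p₁,p₂)`, `x = N²/(p₁p₂) ≥ N^(2-2κ)`:
`∑_{x<p₃≤4x} 1/(2√(p₁p₂p₃)) ≤ (1+o(1)) N/(p₁p₂ log x)`; with `p_i = N^(x_i)` the sum over `p₁, p₂` is
`(N/log N) ∬ dx₁dx₂/(x₁x₂x₃)` over the triangle `x_i ≤ κ`, `∑ x_i = 2`, of area `(3κ-2)²/2`, the integrand is at most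
`1/(κ²(2-2κ))` (convexity; or: `x₁x₂x₃ ≥ κ²(2-2κ)` on the triangle), and each `m` is counted six times. (Mertens for
primes in `[N^s, N^t]`: `Lib/PntAP` or `Ind/MertA.lean`.) -/
def SpecP3M : Prop := ∀ κ ε : ℝ, 2 / 3 ≤ κ → κ ≤ 4 / 5 → 0 < ε → ∃ N₀ : ℕ, ∀ N : ℕ, N₀ ≤ N →
  2 * model N (p3Ind (YK N κ))
    ≤ ((3 * κ - 2) ^ 2 / (6 * κ ^ 2 * (1 - κ)) + ε) * (N / (2 * Real.log N))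

/-- FINK (from BLKK, P3M, F6, MODP, LI, TAIL, GMAX, RHOP, RHO2): lower bound for `7/10 < θ ≤ 5/6`. As FIN, with
`κ = 3/2 - θ + (small)`; `cnt 1_P ≥ cnt (1_P - 2·p3Ind)`. -/
def SpecFINK : Prop := ∀ θ ε : ℝ, 7 / 10 < θ → θ ≤ 5 / 6 → 0 < ε → ∃ N₀ : ℕ, ∀ N A : ℕ, N₀ ≤ N →
  (N : ℝ) ^ θ ≤ A → A ≤ N →
  (((Icc (-(A : ℤ)) A).filter (fun a : ℤ => ¬ ∃ h : ℝ, 0 < h ∧
    Tendsto (fun X : ℕ => ∏ w ∈ (range (X + 1)).filter (fun w => Nat.Prime w ∧ w ≠ 2),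
      (1 - (jacobiSym (-a) w : ℝ) / ((w : ℝ) - 1))) atTop (𝓝 h) ∧
    (1 - (5 / 2 - 3 * θ) ^ 2 / (6 * (3 / 2 - θ) ^ 2 * (θ - 1 / 2)) - ε)
        * (1 / 2 * h * ∫ t in (2 : ℝ)..(N : ℝ), 1 / Real.log t)
      ≤ (((Icc 1 N).filter (fun n : ℕ => Nat.Prime ((n : ℤ) ^ 2 + a).natAbs)).card : ℝ))).card : ℝ)
    ≤ ε * A

end

end Pool.Agent.Lib.MP391708.QPA
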