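import Pool.Agent.Lib.MP_391708_nt.QPA.BasM
import Pool.Agent.Lib.MP_391708_nt.QPA.Spec2

/-!
# QPA, module BLK2: one block of the Type II sums
-/

set_option autoImplicit false

namespace Pool.Agent.Lib.MP391708.QPA

open Finset Filter Topology
open scoped Classical

namespace BLK2

open BasM SHM

/-- the conclusion of TWO for given parameters -/
def TwoH (θ κ e e0 B : ℝ) : Prop := ∃ C : ℝ, 0 < C ∧
  ∀ δ : ℝ, 0 < δ → ∃ N₀ : ℕ, ∀ N A : ℕ, N₀ ≤ N → Adm θ N A → ∀ K L : ℝ,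
  (N : ℝ) ^ κ ≤ K → K ≤ (N : ℝ) ^ (1 - e) → (N : ℝ) ^ 2 / 2 ≤ K * L → K * L ≤ 5 * (N : ℝ) ^ 2 →
  ∀ α b : ℕ → ℝ, (∀ k, |α k| ≤ B * rInd ((N : ℝ) ^ e0) k) →
  (∀ k, α k ≠ 0 → K < (k : ℝ) ∧ (k : ℝ) ≤ 5 / 4 * K) →
  (∀ u, |b u| ≤ B) → (∀ u, b u ≠ 0 → Odd u ∧ L < (u : ℝ) ∧ (u : ℝ) ≤ 5 / 4 * L) →
  (∑ a ∈ IA A, |bil (8 * N) a α b|) ^ 2
    ≤ C * ((A : ℝ) ^ 2 * K / (Real.log N) ^ 2) * (|Wsum K L b| + δ * L / (Real.log N) ^ 2)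

/-- the conclusion of MTA for given parameters -/
def MtaH (θ e e0 B η : ℝ) (w J : ℕ) : Prop := ∀ δ : ℝ, 0 < δ → ∃ N₀ : ℕ, ∀ N A : ℕ, N₀ ≤ N →
  Adm θ N A → ∀ K L : ℝ,
  (N : ℝ) ^ (1 / 2 : ℝ) ≤ K → K ≤ (N : ℝ) ^ (1 - e) → (N : ℝ) ^ 2 / 2 ≤ K * L →
  K * L ≤ 5 * (N : ℝ) ^ 2 → ∀ α β : ℕ → ℝ, (∀ k, |α k| ≤ B * rInd ((N : ℝ) ^ e0) k) →
  (∀ k, α k ≠ 0 → K < (k : ℝ) ∧ (k : ℝ) ≤ 5 / 4 * K) → (∀ l, |β l| ≤ B) →
  ∑ a ∈ IA A, |bil (8 * N) a α (sharp w L η J β)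
      - Gw w a * ∑ i ∈ range J, Dav L η J β i * ∑ k ∈ Ioc ⌊K⌋₊ ⌊5 / 4 * K⌋₊, α k * ((rho a k : ℝ) / k)
        * (√(k * (L * (1 + η * (i + 1) / J))) - √(k * (L * (1 + η * i / J))))|
    ≤ δ * A * N / (Real.log N) ^ 2

/-- the conclusion of MTB for given parameters -/
def MtbH (θ e e0 η : ℝ) (Q : ℕ) (c : Multiset ℕ) : Prop := ∀ δ : ℝ, 0 < δ → ∃ N₀ : ℕ,
  ∀ N A : ℕ, N₀ ≤ N →
  Adm θ N A → NearA N A (e0 / Q) e c → ∀ K : ℝ, (N : ℝ) ^ (1 / 2 : ℝ) ≤ K → K ≤ (N : ℝ) ^ (1 - e) →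
    ∑ a ∈ IA A, |∑ k ∈ Ioc ⌊K⌋₊ ⌊(1 + η) * K⌋₊, FF N (e0 / Q) c k * ((rho a k : ℝ) - 1) / √(k : ℝ)|
      ≤ δ * A * √K / (Real.log N) ^ 2

/-! ## the sizes -/

lemma geo {e κ : ℝ} (he : 0 < e) (hκ : 2 / 3 ≤ κ) : ∀ᶠ N : ℕ in atTop, ∀ K L : ℝ, (N : ℝ) ^ κ ≤ K →
    K ≤ (N : ℝ) ^ (1 - e) → (N : ℝ) ^ 2 / 2 ≤ K * L → K * L ≤ 5 * (N : ℝ) ^ 2 →
    1 ≤ K ∧ K ≤ L ∧ (N : ℝ) ≤ L ∧ L ≤ (N : ℝ) ^ (3 / 2 : ℝ) ∧ (N : ℝ) ^ (e / 2) ≤ √(L / K) ∧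
      √(L / K) ≤ (N : ℝ) ^ (2 / 5 : ℝ) ∧ √(L / K) ≤ L ^ (1 / 3 : ℝ) := by
  filter_upwards [eventually_ge_atTop 2, ev_const (half_pos he) 2,
    ev_pow (show (4 / 3 : ℝ) < 3 / 2 by norm_num) 5,
    ev_pow (show (1 / 3 : ℝ) < 2 / 5 by norm_num) 3,
    ev_pow (show (1 / 3 : ℝ) < (1 + e / 2) / 3 by linarith) 3] with N hN2 h1 h2 h3 h4 K L hK1' hK2 hl1 hl2
  have hN1 : (1 : ℝ) < N := by exact_mod_cast (by omega : 1 < N)
  have hK1 : (N : ℝ) ^ (2 / 3 : ℝ) ≤ K := (Real.rpow_le_rpow_of_exponent_le hN1.le hκ).trans hK1'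
  have hN0 : (0 : ℝ) < N := by linarith
  have hK : 1 ≤ K := (Real.one_le_rpow hN1.le (by norm_num)).trans hK1
  have hK0 : 0 < K := by linarith
  have hKN : K ≤ N := hK2.trans (by
    calc (N : ℝ) ^ (1 - e) ≤ (N : ℝ) ^ (1 : ℝ) := Real.rpow_le_rpow_of_exponent_le hN1.le (by linarith)
      _ = N := Real.rpow_one _)
  have hsq : (N : ℝ) ^ 2 = (N : ℝ) ^ (1 - e) * (N : ℝ) ^ (1 + e) := by
    rw [← Real.rpow_add hN0, ← Real.rpow_natCast]; congr 1; push_cast; ring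
  have hLbig : (N : ℝ) ^ (1 + e) / 2 ≤ L := by
    have h5 : (N : ℝ) ^ (1 - e) * ((N : ℝ) ^ (1 + e) / 2) ≤ (N : ℝ) ^ (1 - e) * L := by
      have h6 : (N : ℝ) ^ (1 - e) * ((N : ℝ) ^ (1 + e) / 2) = (N : ℝ) ^ 2 / 2 := by rw [hsq]; ring
      rw [h6]
      refine hl1.trans (mul_le_mul_of_nonneg_right hK2 ?_)
      have : 0 < K * L := lt_of_lt_of_le (by positivity) hl1
      exact (pos_of_mul_pos_right this hK0.le).le
    exact le_of_mul_le_mul_left h5 (by positivity)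
  have hsplit : (N : ℝ) ^ (1 + e) = (N : ℝ) ^ (e / 2) * (N : ℝ) ^ (1 + e / 2) := by
    rw [← Real.rpow_add hN0]; congr 1; ring
  have hL2 : (N : ℝ) ^ (1 + e / 2) ≤ L := by
    refine le_trans ?_ hLbig
    rw [hsplit]
    nlinarith [Real.rpow_pos_of_pos hN0 (1 + e / 2)]
  have hLN : (N : ℝ) ≤ L := by
    refine le_trans ?_ hL2
    calc (N : ℝ) = (N : ℝ) ^ (1 : ℝ) := (Real.rpow_one _).symm
      _ ≤ _ := Real.rpow_le_rpow_of_exponent_le hN1.le (by linarith)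
  have hL0 : 0 < L := by linarith
  have hLup : L ≤ 5 * (N : ℝ) ^ (4 / 3 : ℝ) := by
    have h5 : (N : ℝ) ^ (2 / 3 : ℝ) * L ≤ (N : ℝ) ^ (2 / 3 : ℝ) * (5 * (N : ℝ) ^ (4 / 3 : ℝ)) := by
      calc (N : ℝ) ^ (2 / 3 : ℝ) * L ≤ K * L := by gcongr
        _ ≤ 5 * (N : ℝ) ^ 2 := hl2
        _ = (N : ℝ) ^ (2 / 3 : ℝ) * (5 * (N : ℝ) ^ (4 / 3 : ℝ)) := by
            have : (N : ℝ) ^ 2 = (N : ℝ) ^ (2 / 3 : ℝ) * (N : ℝ) ^ (4 / 3 : ℝ) := by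
              rw [← Real.rpow_add hN0, ← Real.rpow_natCast]; norm_num
            rw [this]; ring
    exact le_of_mul_le_mul_left h5 (by positivity)
  have hq1 : √(L / K) ≤ 3 * (N : ℝ) ^ (1 / 3 : ℝ) := by
    rw [Real.sqrt_le_left (by positivity), div_le_iff₀ hK0]
    have h5 : (3 * (N : ℝ) ^ (1 / 3 : ℝ)) ^ 2 = 9 * (N : ℝ) ^ (2 / 3 : ℝ) := by
      rw [mul_pow, ← Real.rpow_natCast ((N : ℝ) ^ (1 / 3 : ℝ)), ← Real.rpow_mul hN0.le]; norm_num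
    rw [h5]
    have h6 : (N : ℝ) ^ (4 / 3 : ℝ) = (N : ℝ) ^ (2 / 3 : ℝ) * (N : ℝ) ^ (2 / 3 : ℝ) := by
      rw [← Real.rpow_add hN0]; norm_num
    rw [h6] at hLup
    have h7 : 0 < (N : ℝ) ^ (2 / 3 : ℝ) := by positivity
    nlinarith [mul_le_mul_of_nonneg_left hK1 h7.le]
  refine ⟨hK, hKN.trans hLN, hLN, hLup.trans h2, ?_, hq1.trans h3, ?_⟩
  · rw [Real.le_sqrt (by positivity) (by positivity), le_div_iff₀ hK0]
    have h5 : ((N : ℝ) ^ (e / 2)) ^ 2 = (N : ℝ) ^ e := by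
      rw [← Real.rpow_natCast, ← Real.rpow_mul hN0.le]; congr 1; push_cast; ring
    rw [h5]
    calc (N : ℝ) ^ e * K ≤ (N : ℝ) ^ e * (N : ℝ) ^ (1 - e) := by gcongr
      _ = N := by rw [← Real.rpow_add hN0]; norm_num
      _ ≤ L := hLN
  · refine (hq1.trans h4).trans ?_
    have h5 : (N : ℝ) ^ ((1 + e / 2) / 3) = ((N : ℝ) ^ (1 + e / 2)) ^ (1 / 3 : ℝ) := by
      rw [← Real.rpow_mul hN0.le]; congr 1; ring
    rw [h5]
    exact Real.rpow_le_rpow (by positivity) hL2 (by norm_num)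

/-! ## the model `sharp` -/

section
variable {L η : ℝ} {J w : ℕ} {β : ℕ → ℝ}

lemma pc_unique (hL : 0 ≤ L) (hη : 0 ≤ η) {i j l : ℕ} (hi : l ∈ pc L η J i) (hj : l ∈ pc L η J j) :
    i = j := by
  rw [pc_eq, mem_Ioc] at hi hj
  rcases lt_trichotomy i j with h | h | h
  · have := Nat.floor_mono (xx_mono (J := J) hL hη (show i + 1 ≤ j by omega))
    omega
  · exact h
  · have := Nat.floor_mono (xx_mono (J := J) hL hη (show j + 1 ≤ i by omega))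
    omega

lemma sharp_eq (hL : 0 ≤ L) (hη : 0 ≤ η) {i l : ℕ} (hi : i < J) (hl : l ∈ pc L η J i) :
    sharp w L η J β l = Dav L η J β i * Vw w * rInd ((w : ℝ) + 1) l := by
  unfold sharp
  rw [sum_eq_single_of_mem i (mem_range.2 hi), if_pos hl]
  intro j _ hij
  rw [if_neg]
  exact fun h => hij (pc_unique hL hη h hl)

lemma sharp_zero {l : ℕ} (h : ∀ i < J, l ∉ pc L η J i) : sharp w L η J β l = 0 := by
  unfold sharp
  exact sum_eq_zero fun i hi => if_neg (h i (mem_range.1 hi))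

lemma pc_range (hL : 0 ≤ L) (hη : 0 ≤ η) {i l : ℕ} (hJ : 1 ≤ J) (hi : i < J) (hl : l ∈ pc L η J i) :
    L < l ∧ (l : ℝ) ≤ (1 + η) * L := by
  obtain ⟨h1, h2⟩ := mem_pc hL hη hl
  have h3 := xx_mono (J := J) hL hη (Nat.zero_le i)
  have h4 := xx_mono (J := J) hL hη (show i + 1 ≤ J by omega)
  rw [xx_zero] at h3
  rw [xx_last hJ] at h4
  exact ⟨by linarith, by linarith⟩

lemma xx_bounds (hL : 0 ≤ L) (hη : 0 ≤ η) {i : ℕ} (hJ : 1 ≤ J) (hi : i < J) :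
    L ≤ xx L η J i ∧ xx L η J (i + 1) ≤ (1 + η) * L := by
  have h3 := xx_mono (J := J) hL hη (Nat.zero_le i)
  have h4 := xx_mono (J := J) hL hη (show i + 1 ≤ J by omega)
  rw [xx_zero] at h3
  rw [xx_last hJ] at h4
  exact ⟨h3, h4⟩

end

/-! ## the cut functions -/

lemma cut_of {x y : ℝ} {f : ℕ → ℝ} {m : ℕ} (h1 : x < m) (h2 : (m : ℝ) ≤ y) : cut x y f m = f m :=
  if_pos ⟨h1, h2⟩

lemma cut_ne {x y : ℝ} {f : ℕ → ℝ} {m : ℕ} (h : cut x y f m ≠ 0) : x < m ∧ (m : ℝ) ≤ y := by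
  unfold cut at h
  by_contra h2
  rw [if_neg h2] at h
  exact h rfl

lemma cut_nonneg {x y : ℝ} {f : ℕ → ℝ} (hf : ∀ m, 0 ≤ f m) (m : ℕ) : 0 ≤ cut x y f m := by
  unfold cut; split_ifs
  · exact hf m
  · exact le_rfl

lemma cut_le {x y : ℝ} {f g : ℕ → ℝ} (hf : ∀ m, f m ≤ g m) (hg : ∀ m, 0 ≤ g m) (m : ℕ) :
    cut x y f m ≤ g m := by
  unfold cut; split_ifs
  · exact hf m
  · exact hg m

/-- the mean on a piece is small -/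
lemma Dav_le {F z η CS N L : ℝ} {J i : ℕ} {β : ℕ → ℝ} (hL : 0 < L) (hη : 0 < η) (hJ : 1 ≤ J)
    (hβ0 : ∀ l, 0 ≤ β l) (hβ : ∀ l, β l ≤ F * rInd z l) (hF : 0 ≤ F)
    (hs : ∑ u ∈ pc L η J i, rInd z u ≤ CS * (η * L / J) / Real.log N) :
    0 ≤ Dav L η J β i ∧ Dav L η J β i ≤ F * CS / Real.log N := by
  have hJ0 : (0 : ℝ) < J := by exact_mod_cast hJ
  have h0 : 0 < η * L / J := by positivity
  unfold Dav
  refine ⟨div_nonneg (sum_nonneg fun l _ => hβ0 l) h0.le, ?_⟩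
  rw [div_le_iff₀ h0]
  calc ∑ l ∈ pc L η J i, β l ≤ ∑ l ∈ pc L η J i, F * rInd z l := sum_le_sum fun l _ => hβ l
    _ = F * ∑ l ∈ pc L η J i, rInd z l := by rw [mul_sum]
    _ ≤ F * (CS * (η * L / J) / Real.log N) := mul_le_mul_of_nonneg_left hs hF
    _ = F * CS / Real.log N * (η * L / J) := by ring

/-- the majorant of `b = β - sharp` -/
noncomputable def sM (F F₂ z lg : ℝ) (w u : ℕ) : ℝ := F * rInd z u + F₂ / lg * (Vw w * rInd ((w : ℝ) + 1) u)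

lemma sharp_bound {F₂ lg L η : ℝ} {J w : ℕ} {β : ℕ → ℝ} (hL : 0 ≤ L) (hη : 0 ≤ η)
    (hD : ∀ i < J, 0 ≤ Dav L η J β i ∧ Dav L η J β i ≤ F₂ / lg) (hF : 0 ≤ F₂ / lg) (u : ℕ) :
    0 ≤ sharp w L η J β u ∧ sharp w L η J β u ≤ F₂ / lg * (Vw w * rInd ((w : ℝ) + 1) u) := by
  have hV := Vw_pos w
  have hr := rInd_nonneg ((w : ℝ) + 1) u
  by_cases h : ∃ i < J, u ∈ pc L η J i
  · obtain ⟨i, hi, hu⟩ := h
    obtain ⟨h1, h2⟩ := hD i hi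
    rw [sharp_eq hL hη hi hu, mul_assoc]
    exact ⟨by positivity, mul_le_mul_of_nonneg_right h2 (by positivity)⟩
  · rw [sharp_zero (by push Not at h; exact h)]
    exact ⟨le_rfl, by positivity⟩

lemma log_rpow_bounds {N : ℕ} {L : ℝ} (hN : 1 < (N : ℝ)) (h1 : (N : ℝ) ≤ L)
    (h2 : L ≤ (N : ℝ) ^ (3 / 2 : ℝ)) : Real.log N ≤ Real.log L ∧ Real.log L ≤ 3 / 2 * Real.log N := by
  have hN0 : (0 : ℝ) < N := by linarith
  refine ⟨Real.log_le_log hN0 h1, ?_⟩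
  rw [← Real.log_rpow hN0]
  exact Real.log_le_log (by linarith) h2

/-- the dispersion of `b` on the pieces -/
lemma disp (hBDHP : SpecBDHP) (hEQ : SpecEQ) (hFFB : SpecFFB) {e0 η F ϖ₃ : ℝ} {Q J : ℕ}
    {c₂ : Multiset ℕ} (he0 : 0 < e0) (he1 : e0 ≤ 1 / 10) (hη : 0 < η) (hη4 : η ≤ 1 / 4)
    (hQ : 1 ≤ Q) (hc₂ : ∀ i ∈ c₂, Q ≤ i) (hc0 : c₂ ≠ 0) (hF : 0 < F)
    (hF2 : ((Multiset.card c₂).factorial : ℝ) ≤ F) (hJ : 1 ≤ J) (hϖ : 0 < ϖ₃) :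
    ∃ w₀ : ℕ, ∀ w : ℕ, w₀ ≤ w → 2 ≤ w → ∀ᶠ N : ℕ in atTop, ∀ L : ℝ, (N : ℝ) ≤ L →
      L ≤ (N : ℝ) ^ (3 / 2 : ℝ) → ∀ i < J, ∀ D₀ : ℕ, 1 ≤ D₀ → (D₀ : ℝ) ≤ L ^ (1 / 3 : ℝ) →
      Vd (pc L η J i) (fun u => cut L ((1 + η) * L) (fun m => FF N (e0 / Q) c₂ m) u
        - sharp w L η J (cut L ((1 + η) * L) (fun m => FF N (e0 / Q) c₂ m)) u) D₀
        ≤ ϖ₃ / (J : ℝ) ^ 2 * L ^ 2 / (Real.log N) ^ 2 := by
  have hJ0 : (0 : ℝ) < J := by exact_mod_cast hJ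
  have hJ1 : (1 : ℝ) ≤ J := by exact_mod_cast hJ
  have hQ0 : (0 : ℝ) < Q := by exact_mod_cast hQ
  obtain ⟨C₁, hC₁, hB⟩ := hBDHP
  obtain ⟨w₀, hw₀⟩ := exists_nat_ge (8 * C₁ * F ^ 2 / (e0 ^ 2 * ϖ₃))
  refine ⟨w₀, fun w hw hw2 => ?_⟩
  obtain ⟨R, κ, hκ, L₀, hB2⟩ := hB F (e0 / 2) w (ϖ₃ / (2 * (J : ℝ) ^ 2)) (η / J) hF (by positivity)
    (by linarith) hw2 (by positivity) (by positivity) (by rw [div_le_one hJ0]; linarith)
  obtain ⟨N₁, hN₁⟩ := hEQ e0 (κ / 3) Q R c₂ he0 hQ (by positivity) hc0 hc₂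
  obtain ⟨N₂, hN₂⟩ := exists_nat_ge L₀
  filter_upwards [eventually_ge_atTop 3, eventually_ge_atTop N₁, eventually_ge_atTop N₂,
    ev_pow (show (3 / 2 : ℝ) < 3 by norm_num) 2] with N hN3 hNN₁ hNN₂ hNp L hL1 hL2 i hi D₀ hD1 hD2
  have hN1 : (1 : ℝ) < N := by exact_mod_cast (by omega : 1 < N)
  have hN0 : (0 : ℝ) < N := by linarith
  have hlog : 0 < Real.log N := Real.log_pos hN1
  have hL0 : 0 < L := by linarith
  obtain ⟨hll1, hll2⟩ := log_rpow_bounds hN1 hL1 hL2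
  have hlogL : 0 < Real.log L := by linarith
  obtain ⟨hx1, hx2⟩ := xx_bounds (J := J) hL0.le hη.le hJ hi
  have hxs := xx_succ L η J i hJ
  have hxx : xx L η J i + η / J * L = xx L η J (i + 1) := by rw [hxs]; ring
  have hstep : 0 < η * L / J := by positivity
  set f : ℕ → ℝ := fun m => FF N (e0 / Q) c₂ m with hf
  set b' : ℕ → ℝ := cut (xx L η J i) (xx L η J (i + 1)) f with hb'
  have hff : ∀ m, 0 ≤ f m ∧ f m ≤ F * rInd ((N : ℝ) ^ e0) m := fun m => by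
    obtain ⟨h1, h2⟩ := FF_facts hFFB he0 hQ hc₂ (by omega : 2 ≤ N) m
    exact ⟨h1, h2.trans (mul_le_mul_of_nonneg_right hF2 (rInd_nonneg _ _))⟩
  have hpc : pc L η J i = Ioc ⌊xx L η J i⌋₊ ⌊xx L η J i + η / J * L⌋₊ := by rw [hxx, pc_eq]
  -- the function on the piece
  have hLe : L ^ (e0 / 2) ≤ (N : ℝ) ^ e0 := by
    calc L ^ (e0 / 2) ≤ ((N : ℝ) ^ (3 / 2 : ℝ)) ^ (e0 / 2) := by gcongr
      _ = (N : ℝ) ^ (3 / 2 * (e0 / 2)) := by rw [← Real.rpow_mul hN0.le]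
      _ ≤ (N : ℝ) ^ e0 := Real.rpow_le_rpow_of_exponent_le hN1.le (by linarith)
  have hbabs : ∀ u, |b' u| ≤ F * rInd (L ^ (e0 / 2)) u := fun u => by
    rw [abs_of_nonneg (cut_nonneg (fun m => (hff m).1) u)]
    refine cut_le (g := fun m => F * rInd (L ^ (e0 / 2)) m) (fun m => (hff m).2.trans ?_)
      (fun m => mul_nonneg hF.le (rInd_nonneg _ _)) u
    exact mul_le_mul_of_nonneg_left (rInd_mono hLe m) hF.le
  have hbsupp : ∀ u, b' u ≠ 0 → u ∈ Ioc ⌊xx L η J i⌋₊ ⌊xx L η J i + η / J * L⌋₊ := fun u hu => by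
    obtain ⟨h1, h2⟩ := cut_ne hu
    rw [mem_Ioc, hxx]
    refine ⟨(Nat.floor_lt (by linarith)).2 h1, Nat.le_floor h2⟩
  have hchar : ∀ r : ℕ, r < R → ∀ ψ : DirichletCharacter ℂ (r + 1), ψ ≠ 1 →
      ‖∑ u ∈ Icc 1 ⌊2 * L⌋₊, (b' u : ℂ) * ψ (u : ZMod (r + 1))‖ ≤ κ * L / Real.log L := by
    intro r hr ψ hψ
    have hup : xx L η J (i + 1) ≤ (N : ℝ) ^ 3 := by
      have : (N : ℝ) ^ (3 : ℝ) = (N : ℝ) ^ 3 := by
        rw [← Real.rpow_natCast]; norm_num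
      rw [← this]
      nlinarith
    have h1 := hN₁ N hNN₁ r hr ψ hψ (xx L η J i) (xx L η J (i + 1)) (by linarith) hup
    have h2 : ∑ u ∈ Icc 1 ⌊2 * L⌋₊, (b' u : ℂ) * ψ (u : ZMod (r + 1))
        = ∑ u ∈ Icc 1 ⌊xx L η J (i + 1)⌋₊, (b' u : ℂ) * ψ (u : ZMod (r + 1)) := by
      symm
      refine sum_subset ?_ ?_
      · intro u hu
        rw [mem_Icc] at hu ⊢
        exact ⟨hu.1, hu.2.trans (Nat.floor_mono (by nlinarith))⟩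
      · intro u hu hu2
        have : b' u = 0 := by
          by_contra h
          obtain ⟨h3, h4⟩ := cut_ne h
          apply hu2
          rw [mem_Icc] at hu ⊢
          exact ⟨hu.1, Nat.le_floor h4⟩
        rw [this]; simp
    rw [h2]
    refine h1.trans ?_
    rw [div_le_div_iff₀ hlog hlogL]
    have h3 : xx L η J (i + 1) ≤ 5 / 4 * L := by nlinarith
    have h4 : κ / 3 * xx L η J (i + 1) * Real.log L ≤ κ / 3 * (5 / 4 * L) * (3 / 2 * Real.log N) := by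
      gcongr
    refine h4.trans ?_
    have : 0 < κ * L * Real.log N := by positivity
    nlinarith
  have hmain := hB2 L (xx L η J i) b' (hN₂.trans (by
      have : (N₂ : ℝ) ≤ N := by exact_mod_cast hNN₂
      linarith)) hx1 (by rw [hxx]; nlinarith) hbabs hbsupp hchar D₀ hD1 hD2
  -- the two functions agree on the piece
  have hVd : Vd (pc L η J i) (fun u => cut L ((1 + η) * L) f u - sharp w L η J (cut L ((1 + η) * L) f) u) D₀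
      = Vd (Ioc ⌊xx L η J i⌋₊ ⌊xx L η J i + η / J * L⌋₊) (fun u => b' u
        - (∑ u ∈ Ioc ⌊xx L η J i⌋₊ ⌊xx L η J i + η / J * L⌋₊, b' u) / (η / J * L) * Vw w
          * rInd ((w : ℝ) + 1) u) D₀ := by
    rw [← hpc]
    have hb : ∀ u ∈ pc L η J i, cut L ((1 + η) * L) f u = b' u := fun u hu => by
      obtain ⟨h1, h2⟩ := mem_pc hL0.le hη.le hu
      obtain ⟨h3, h4⟩ := pc_range hL0.le hη.le hJ hi hu
      rw [cut_of h3 h4, hb', cut_of h1 h2]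
    unfold Vd
    refine sum_congr rfl fun d _ => sum_congr rfl fun c _ => ?_
    congr 1
    refine sum_congr rfl fun u hu => ?_
    have hu' := (mem_filter.1 hu).1
    beta_reduce
    rw [sharp_eq hL0.le hη.le hi hu', hb u hu']
    have : Dav L η J (cut L ((1 + η) * L) f) i = (∑ u ∈ pc L η J i, b' u) / (η / J * L) := by
      unfold Dav
      rw [sum_congr rfl hb]
      congr 1
      ring
    rw [this]
  rw [hVd]
  refine hmain.trans ?_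
  have hw0 : (0 : ℝ) < w := by positivity
  have hww : (w₀ : ℝ) ≤ w := by exact_mod_cast hw
  have h5 : C₁ * F ^ 2 / ((e0 / 2) ^ 2 * w) ≤ ϖ₃ / 2 := by
    rw [div_le_iff₀ (by positivity)]
    have h6 := hw₀.trans hww
    rw [div_le_iff₀ (by positivity)] at h6
    nlinarith
  have h7 : C₁ * F ^ 2 / ((e0 / 2) ^ 2 * w) * (η / J * L) ^ 2 / (Real.log L) ^ 2
      ≤ ϖ₃ / 2 * (1 / (J : ℝ) ^ 2 * L ^ 2) / (Real.log N) ^ 2 := by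
    have h8 : (η / J * L) ^ 2 ≤ 1 / (J : ℝ) ^ 2 * L ^ 2 := by
      have : (η / J * L) ^ 2 = η ^ 2 * (1 / (J : ℝ) ^ 2 * L ^ 2) := by ring
      rw [this]
      have h9 : η ^ 2 ≤ 1 := by nlinarith
      have h10 : 0 ≤ 1 / (J : ℝ) ^ 2 * L ^ 2 := by positivity
      nlinarith
    gcongr
  have h11 : ϖ₃ / (2 * (J : ℝ) ^ 2) * L ^ 2 / (Real.log L) ^ 2
      ≤ ϖ₃ / (2 * (J : ℝ) ^ 2) * L ^ 2 / (Real.log N) ^ 2 := by
    gcongr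
  refine (add_le_add h11 h7).trans (le_of_eq ?_)
  field_simp
  ring

lemma sM_class {F F₂ z lg CR CW : ℝ} {w d c x H : ℕ} (hF : 0 ≤ F) (hF₂ : 0 ≤ F₂) (hlg : 0 < lg)
    (hd : 1 ≤ d)
    (hCR0 : 0 ≤ CR)
    (hCR : (((Ioc x (x + H)).filter (fun u => u % (4 * d) = c ∧ Rough z u)).card : ℝ)
      ≤ CR * H / (((4 * d).totient : ℝ) * lg))
    (hCW : Vw w * ∑ u ∈ (Ioc x (x + H)).filter (fun u => u % (4 * d) = c), rInd ((w : ℝ) + 1) u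
      ≤ CW * H / (d.totient : ℝ)) :
    ∑ u ∈ (Ioc x (x + H)).filter (fun u => u % (4 * d) = c), sM F F₂ z lg w u
      ≤ (F * CR + F₂ * CW) * H / ((d.totient : ℝ) * lg) := by
  have hφ : 0 < (d.totient : ℝ) := by exact_mod_cast Nat.totient_pos.2 hd
  have hφ4 : (d.totient : ℝ) ≤ ((4 * d).totient : ℝ) := by
    exact_mod_cast Nat.le_of_dvd (Nat.totient_pos.2 (by omega)) (Nat.totient_dvd_of_dvd ⟨4, by ring⟩)
  unfold sM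
  rw [sum_add_distrib, ← mul_sum, ← mul_sum, ← mul_sum, sum_rInd z, filter_filter]
  have h1 : CR * H / (((4 * d).totient : ℝ) * lg) ≤ CR * H / ((d.totient : ℝ) * lg) := by
    gcongr
  calc F * (((Ioc x (x + H)).filter (fun u => u % (4 * d) = c ∧ Rough z u)).card : ℝ)
      + F₂ / lg * (Vw w * ∑ u ∈ (Ioc x (x + H)).filter (fun u => u % (4 * d) = c), rInd ((w : ℝ) + 1) u)
      ≤ F * (CR * H / ((d.totient : ℝ) * lg)) + F₂ / lg * (CW * H / (d.totient : ℝ)) := by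
        refine add_le_add (mul_le_mul_of_nonneg_left (hCR.trans h1) hF)
          (mul_le_mul_of_nonneg_left hCW (by positivity))
    _ = _ := by field_simp

/-- the sum for `b = β - sharp` is small -/
lemma part1 {θ κ e e0 η ϖ F : ℝ} (hTWO : TwoH θ κ e e0 (F + 1)) (hWB : SpecWB) (hBDHP : SpecBDHP)
    (hEQ : SpecEQ) (hBT : SpecBT)
    (hFFB : SpecFFB) {Q : ℕ} {c₁ c₂ : Multiset ℕ} (hκ : 2 / 3 ≤ κ) (he : 0 < e)
    (he0 : 0 < e0) (he1 : e0 ≤ 1 / 10) (hη : 0 < η) (hη4 : η ≤ 1 / 4) (hϖ : 0 < ϖ) (hQ : 1 ≤ Q)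
    (hc₁ : ∀ i ∈ c₁, Q ≤ i) (hc₂ : ∀ i ∈ c₂, Q ≤ i) (hc0 : c₂ ≠ 0) (hF : 0 < F)
    (hF1 : ((Multiset.card c₁).factorial : ℝ) ≤ F) (hF2 : ((Multiset.card c₂).factorial : ℝ) ≤ F) :
    ∃ J₁ : ℕ, ∀ J : ℕ, J₁ ≤ J → 1 ≤ J → ∃ w₀ : ℕ, ∀ w : ℕ, w₀ ≤ w → ∀ᶠ N : ℕ in atTop, ∀ A : ℕ,
      Adm θ N A → ∀ K L : ℝ, (N : ℝ) ^ κ ≤ K → K ≤ (N : ℝ) ^ (1 - e) →
      (N : ℝ) ^ 2 / 2 ≤ K * L → K * L ≤ 5 * (N : ℝ) ^ 2 →
      ∑ a ∈ IA A, |bil (8 * N) a (cut K ((1 + η) * K) (fun m => FF N (e0 / Q) c₁ m))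
        (fun u => cut L ((1 + η) * L) (fun m => FF N (e0 / Q) c₂ m) u
          - sharp w L η J (cut L ((1 + η) * L) (fun m => FF N (e0 / Q) c₂ m)) u)|
        ≤ ϖ * A * N / (Real.log N) ^ 2 := by
  obtain ⟨CR, hCR, hCR'⟩ := rough_count hBT he0 he1
  obtain ⟨CS, hCS, hCS'⟩ := rough_sum hBT he0 he1
  obtain ⟨CW, hCW, hCW'⟩ := wrough_count hBT
  obtain ⟨C, hC, hTWO'⟩ := hTWO
  obtain ⟨N₁, hN₁⟩ := hTWO' (ϖ ^ 2 / (10 * C)) (by positivity)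
  obtain ⟨ϖ₃, hϖ₃, J₀, hJ₀, hWB'⟩ := hWB (F * CR + F * CS * CW) (ϖ ^ 2 / (10 * C)) (e / 2)
    (by positivity) (by positivity) (by positivity)
  refine ⟨J₀, fun J hJ hJ1 => ?_⟩
  obtain ⟨N₂, hN₂⟩ := hWB' J hJ
  obtain ⟨w₁, hw₁⟩ := disp hBDHP hEQ hFFB he0 he1 hη hη4 hQ hc₂ hc0 hF hF2 hJ1 hϖ₃
  refine ⟨max w₁ 3, fun w hw => ?_⟩
  have hw1 : w₁ ≤ w := (le_max_left _ _).trans hw
  have hw3 : 3 ≤ w := (le_max_right _ _).trans hw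
  have hJ0 : (0 : ℝ) < J := by exact_mod_cast hJ1
  filter_upwards [eventually_ge_atTop 3, eventually_ge_atTop N₁, eventually_ge_atTop N₂, geo he hκ,
    hCR', hCS', hCW' w hw3, hw₁ w hw1 (by omega), ev_log (F * CS * Vw w),
    ev_pow (show (1 / 5 : ℝ) < 1 by norm_num) (2 * J / η), ev_const he0 3,
    ev_pow (show (1 / 5 : ℝ) < 1 / 2 by norm_num) 4] with N hN3 hNN₁ hNN₂ hgeo hcr hcs hcw hdis hlF hsz
    hz3 h45 A hA K L hK1 hK2 hKL1 hKL2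
  obtain ⟨hK, hKL, hLN, hLN2, hg1, hg2, hg3⟩ := hgeo K L hK1 hK2 hKL1 hKL2
  have hN1 : (1 : ℝ) < N := by exact_mod_cast (by omega : 1 < N)
  have hN0 : (0 : ℝ) < N := by linarith
  have hlog : 0 < Real.log N := Real.log_pos hN1
  have hL0 : 0 < L := by linarith
  have hK0 : 0 < K := by linarith
  have hV := Vw_pos w
  rw [Real.rpow_one] at hsz
  set f : ℕ → ℝ := fun m => FF N (e0 / Q) c₂ m with hf
  set β : ℕ → ℝ := cut L ((1 + η) * L) f with hβ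
  set g : ℕ → ℝ := fun m => FF N (e0 / Q) c₁ m with hg
  set b : ℕ → ℝ := fun u => β u - sharp w L η J β u with hb
  have hff : ∀ m, 0 ≤ f m ∧ f m ≤ F * rInd ((N : ℝ) ^ e0) m := fun m => by
    obtain ⟨h1, h2⟩ := FF_facts hFFB he0 hQ hc₂ (by omega : 2 ≤ N) m
    exact ⟨h1, h2.trans (mul_le_mul_of_nonneg_right hF2 (rInd_nonneg _ _))⟩
  have hgg : ∀ m, 0 ≤ g m ∧ g m ≤ F * rInd ((N : ℝ) ^ e0) m := fun m => by
    obtain ⟨h1, h2⟩ := FF_facts hFFB he0 hQ hc₁ (by omega : 2 ≤ N) m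
    exact ⟨h1, h2.trans (mul_le_mul_of_nonneg_right hF1 (rInd_nonneg _ _))⟩
  have hFr : ∀ m, 0 ≤ F * rInd ((N : ℝ) ^ e0) m := fun m => mul_nonneg hF.le (rInd_nonneg _ _)
  have hβ0 : ∀ u, 0 ≤ β u := fun u => cut_nonneg (fun m => (hff m).1) u
  have hβ1 : ∀ u, β u ≤ F * rInd ((N : ℝ) ^ e0) u := fun u => cut_le (fun m => (hff m).2) hFr u
  have hstep : 2 * (N : ℝ) ^ (1 / 5 : ℝ) ≤ η * L / J := by
    rw [le_div_iff₀ hJ0]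
    have h1 : 2 * (N : ℝ) ^ (1 / 5 : ℝ) * J ≤ η * N := by
      have h2 : 2 * J / η * (N : ℝ) ^ (1 / 5 : ℝ) = (2 * (N : ℝ) ^ (1 / 5 : ℝ) * J) / η := by ring
      rw [h2, div_le_iff₀ hη] at hsz
      linarith
    nlinarith
  have hD : ∀ i < J, 0 ≤ Dav L η J β i ∧ Dav L η J β i ≤ F * CS / Real.log N := by
    intro i hi
    refine Dav_le hL0 hη hJ1 hβ0 hβ1 hF.le ?_
    obtain ⟨hx1, hx2⟩ := xx_bounds (J := J) hL0.le hη.le hJ1 hi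
    have hxs := xx_succ L η J i hJ1
    have h1 := hcs (xx L η J i) (xx L η J (i + 1)) (by linarith) (by linarith)
    rw [pc_eq]
    refine h1.trans (le_of_eq ?_)
    rw [hxs]
    ring
  have hsh : ∀ u, 0 ≤ sharp w L η J β u ∧
      sharp w L η J β u ≤ F * CS / Real.log N * (Vw w * rInd ((w : ℝ) + 1) u) :=
    fun u => sharp_bound hL0.le hη.le hD (by positivity) u
  have hbs : ∀ u, |b u| ≤ sM F (F * CS) ((N : ℝ) ^ e0) (Real.log N) w u := by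
    intro u
    obtain ⟨h1, h2⟩ := hsh u
    have h3 := hβ0 u
    have h4 := hβ1 u
    unfold sM
    rw [abs_le]
    constructor <;> simp only [hb] <;> linarith [hFr u]
  have hbF : ∀ u, |b u| ≤ F + 1 := by
    intro u
    refine (hbs u).trans ?_
    unfold sM
    have h1 := rInd_le_one ((N : ℝ) ^ e0) u
    have h2 := rInd_le_one ((w : ℝ) + 1) u
    have h3 : F * CS / Real.log N * (Vw w * rInd ((w : ℝ) + 1) u) ≤ 1 := by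
      calc F * CS / Real.log N * (Vw w * rInd ((w : ℝ) + 1) u) ≤ F * CS / Real.log N * (Vw w * 1) := by
            gcongr
        _ = F * CS * Vw w / Real.log N := by ring
        _ ≤ 1 := by rw [div_le_one hlog]; exact hlF
    nlinarith
  have hbsupp : ∀ u, b u ≠ 0 → Odd u ∧ L < (u : ℝ) ∧ (u : ℝ) ≤ (1 + η) * L := by
    intro u hu
    by_cases h : β u = 0
    · have h2 : sharp w L η J β u ≠ 0 := by
        intro h3; apply hu; simp only [hb]; rw [h, h3, sub_zero]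
      have h3 : ∃ i < J, u ∈ pc L η J i := by
        by_contra h4
        push Not at h4
        exact h2 (sharp_zero h4)
      obtain ⟨i, hi, hui⟩ := h3
      refine ⟨?_, pc_range hL0.le hη.le hJ1 hi hui⟩
      rw [sharp_eq hL0.le hη.le hi hui] at h2
      have h4 : rInd ((w : ℝ) + 1) u ≠ 0 := fun h5 => h2 (by rw [h5, mul_zero])
      have h5 : Rough ((w : ℝ) + 1) u := by
        by_contra h6; exact h4 (if_neg h6)
      have : (3 : ℝ) ≤ w := by exact_mod_cast hw3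
      exact odd_of_rough (by linarith) h5
    · refine ⟨?_, cut_ne h⟩
      have h5 : Rough ((N : ℝ) ^ e0) u := by
        by_contra h6
        have h7 : rInd ((N : ℝ) ^ e0) u = 0 := if_neg h6
        have h8 := hβ1 u
        rw [h7, mul_zero] at h8
        exact h (le_antisymm h8 (hβ0 u))
      exact odd_of_rough (by linarith) h5
  -- the bound for `Wsum`
  have hW : |Wsum K L b| ≤ ϖ ^ 2 / (10 * C) * L / (Real.log N) ^ 2 := by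
    refine hN₂ N K L η b (sM F (F * CS) ((N : ℝ) ^ e0) (Real.log N) w) hNN₂ hη hη4 hK hKL hKL1 hKL2 hg1
      hg2 hbs (fun u hu => (hbsupp u hu).2) ?_ ?_
    · intro d c x H hd hd2 hH
      have hd0 : (0 : ℝ) < d := by exact_mod_cast hd
      refine sM_class hF.le (by positivity) hlog hd hCR.le (hcr (4 * d) c x H (by omega) ?_)
        (hcw d c x H hd hH)
      have h1 : (((4 * d).totient : ℕ) : ℝ) ≤ 4 * d := by exact_mod_cast Nat.totient_le (4 * d)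
      calc (((4 * d).totient : ℕ) : ℝ) * (N : ℝ) ^ (1 / 5 : ℝ) ≤ 4 * d * (N : ℝ) ^ (1 / 5 : ℝ) := by gcongr
        _ = d * (4 * (N : ℝ) ^ (1 / 5 : ℝ)) := by ring
        _ ≤ d * (N : ℝ) ^ (1 / 2 : ℝ) := by gcongr
        _ ≤ H := by rw [← Real.sqrt_eq_rpow]; exact hH
    · intro i hi D₀ hD1 hD2
      exact hdis L hLN hLN2 i hi D₀ hD1 (hD2.trans hg3)
  -- Cauchy-Schwarz
  have hfin := hN₁ N A hNN₁ hA K L hK1 hK2 hKL1 hKL2 (cut K ((1 + η) * K) g) b ?_ ?_ hbF ?_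
  · have h1 : |Wsum K L b| + ϖ ^ 2 / (10 * C) * L / (Real.log N) ^ 2
        ≤ 2 * (ϖ ^ 2 / (10 * C) * L / (Real.log N) ^ 2) := by linarith
    have h2 : (∑ a ∈ IA A, |bil (8 * N) a (cut K ((1 + η) * K) g) b|) ^ 2
        ≤ (ϖ * A * N / (Real.log N) ^ 2) ^ 2 := by
      refine hfin.trans ?_
      calc C * ((A : ℝ) ^ 2 * K / (Real.log N) ^ 2) * (|Wsum K L b| + ϖ ^ 2 / (10 * C) * L / (Real.log N) ^ 2)
          ≤ C * ((A : ℝ) ^ 2 * K / (Real.log N) ^ 2) * (2 * (ϖ ^ 2 / (10 * C) * L / (Real.log N) ^ 2)) := by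
            gcongr
        _ = ϖ ^ 2 * (A : ℝ) ^ 2 / 5 / (Real.log N) ^ 4 * (K * L) := by field_simp; ring
        _ ≤ ϖ ^ 2 * (A : ℝ) ^ 2 / 5 / (Real.log N) ^ 4 * (5 * (N : ℝ) ^ 2) := by gcongr
        _ = (ϖ * A * N / (Real.log N) ^ 2) ^ 2 := by field_simp
    exact (pow_le_pow_iff_left₀ (sum_nonneg fun _ _ => abs_nonneg _) (by positivity) (by norm_num)).1 h2
  · intro k
    rw [abs_of_nonneg (cut_nonneg (fun m => (hgg m).1) k)]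
    refine (cut_le (g := fun m => F * rInd ((N : ℝ) ^ e0) m) (fun m => (hgg m).2) hFr k).trans ?_
    exact mul_le_mul_of_nonneg_right (by linarith) (rInd_nonneg _ _)
  · intro k hk
    obtain ⟨h1, h2⟩ := cut_ne hk
    exact ⟨h1, h2.trans (by nlinarith)⟩
  · intro u hu
    obtain ⟨h1, h2, h3⟩ := hbsupp u hu
    exact ⟨h1, h2, h3.trans (by nlinarith)⟩

lemma mem_blk {L η : ℝ} (hL : 0 ≤ L) (hη : 0 ≤ η) {l : ℕ} (hl : l ∈ Ioc ⌊L⌋₊ ⌊(1 + η) * L⌋₊) :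
    L < l ∧ (l : ℝ) ≤ (1 + η) * L := by
  rw [mem_Ioc] at hl
  exact ⟨(Nat.floor_lt hL).1 hl.1, (Nat.le_floor_iff (by positivity)).1 hl.2⟩

/-- separation of the variables in the main term -/
lemma main_eq {K L η : ℝ} {J : ℕ} {g f : ℕ → ℝ} {a : ℤ} (hK : 0 < K) (hη : 0 ≤ η)
    (hη4 : η ≤ 1 / 4) (β : ℕ → ℝ) :
    ∑ i ∈ range J, Dav L η J β i * ∑ k ∈ Ioc ⌊K⌋₊ ⌊5 / 4 * K⌋₊, cut K ((1 + η) * K) g k
        * ((rho a k : ℝ) / k) * (√(k * (L * (1 + η * (i + 1) / J))) - √(k * (L * (1 + η * i / J))))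
      = (∑ i ∈ range J, Dav L η J β i * (√(L * (1 + η * (i + 1) / J)) - √(L * (1 + η * i / J))))
        * ∑ k ∈ Ioc ⌊K⌋₊ ⌊(1 + η) * K⌋₊, g k * (rho a k : ℝ) / √(k : ℝ) := by
  have h1 : ∑ k ∈ Ioc ⌊K⌋₊ ⌊(1 + η) * K⌋₊, g k * (rho a k : ℝ) / √(k : ℝ)
      = ∑ k ∈ Ioc ⌊K⌋₊ ⌊5 / 4 * K⌋₊, cut K ((1 + η) * K) g k * (rho a k : ℝ) / √(k : ℝ) := by
    have h2 : ∑ k ∈ Ioc ⌊K⌋₊ ⌊(1 + η) * K⌋₊, g k * (rho a k : ℝ) / √(k : ℝ)
        = ∑ k ∈ Ioc ⌊K⌋₊ ⌊(1 + η) * K⌋₊, cut K ((1 + η) * K) g k * (rho a k : ℝ) / √(k : ℝ) := by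
      refine sum_congr rfl fun k hk => ?_
      obtain ⟨h3, h4⟩ := mem_blk hK.le hη hk
      rw [cut_of h3 h4]
    rw [h2]
    refine sum_subset ?_ ?_
    · exact Ioc_subset_Ioc_right (Nat.floor_mono (by nlinarith))
    · intro k hk hk2
      have : cut K ((1 + η) * K) g k = 0 := by
        by_contra h
        obtain ⟨h3, h4⟩ := cut_ne h
        apply hk2
        rw [mem_Ioc] at hk ⊢
        exact ⟨hk.1, Nat.le_floor h4⟩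
      rw [this]; simp
  rw [h1, sum_mul]
  refine sum_congr rfl fun i _ => ?_
  rw [mul_assoc, mul_sum (s := Ioc ⌊K⌋₊ ⌊5 / 4 * K⌋₊) (a := √(L * (1 + η * (i + 1) / J)) - √(L * (1 + η * i / J)))]
  congr 1
  refine sum_congr rfl fun k hk => ?_
  have hk1 : 1 ≤ k := by rw [mem_Ioc] at hk; omega
  have hk0 : (0 : ℝ) < k := by exact_mod_cast hk1
  rw [Real.sqrt_mul hk0.le, Real.sqrt_mul hk0.le, ← mul_sub]
  have h5 : (k : ℝ) = √(k : ℝ) * √(k : ℝ) := (Real.mul_self_sqrt hk0.le).symm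
  have h6 : √(k : ℝ) ≠ 0 := (Real.sqrt_pos.2 hk0).ne'
  have h7 : (rho a k : ℝ) / k * √(k : ℝ) = (rho a k : ℝ) / √(k : ℝ) := by
    rw [div_mul_eq_mul_div, div_eq_div_iff hk0.ne' h6, mul_assoc, ← h5]
  calc cut K ((1 + η) * K) g k * ((rho a k : ℝ) / k)
        * (√(k : ℝ) * (√(L * (1 + η * (i + 1) / J)) - √(L * (1 + η * i / J))))
      = cut K ((1 + η) * K) g k * ((rho a k : ℝ) / k * √(k : ℝ))
        * (√(L * (1 + η * (i + 1) / J)) - √(L * (1 + η * i / J))) := by ring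
    _ = _ := by rw [h7]; ring

lemma main_eq2 {K L η : ℝ} {g f : ℕ → ℝ} :
    ∑ k ∈ Ioc ⌊K⌋₊ ⌊(1 + η) * K⌋₊, ∑ l ∈ Ioc ⌊L⌋₊ ⌊(1 + η) * L⌋₊, g k * f l / (2 * √((k : ℝ) * l))
      = (∑ l ∈ Ioc ⌊L⌋₊ ⌊(1 + η) * L⌋₊, f l / (2 * √(l : ℝ)))
        * ∑ k ∈ Ioc ⌊K⌋₊ ⌊(1 + η) * K⌋₊, g k / √(k : ℝ) := by
  rw [sum_mul_sum, sum_comm]
  refine sum_congr rfl fun l _ => sum_congr rfl fun k _ => ?_
  rw [Real.sqrt_mul (Nat.cast_nonneg k)]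
  rw [div_mul_div_comm]
  congr 1
  · ring
  · ring

/-- the main term -/
lemma part3 {θ κ e e0 η ϖ F : ℝ} {Q : ℕ} {c₁ c₂ : Multiset ℕ} (hMTB : MtbH θ e e0 η Q c₁)
    (hSHM : SpecSHM) (hBT : SpecBT) (hFFB : SpecFFB) (hGMAX : SpecGMAX)
    (hGMEAN : SpecGMEAN) (hκ : 2 / 3 ≤ κ) (hθ : 0 < θ) (he : 0 < e)
    (he0 : 0 < e0) (he1 : e0 ≤ 1 / 10) (hη : 0 < η) (hη4 : η ≤ 1 / 4) (hϖ : 0 < ϖ) (hQ : 1 ≤ Q)
    (hc₁ : ∀ i ∈ c₁, Q ≤ i) (hc₂ : ∀ i ∈ c₂, Q ≤ i) (hF : 0 < F)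
    (hF1 : ((Multiset.card c₁).factorial : ℝ) ≤ F) (hF2 : ((Multiset.card c₂).factorial : ℝ) ≤ F) :
    ∃ J₁ : ℕ, ∀ J : ℕ, J₁ ≤ J → 1 ≤ J → ∀ w : ℕ, 2 ≤ w → ∀ᶠ N : ℕ in atTop, ∀ A : ℕ,
      Adm θ N A → NearA N A (e0 / Q) e c₁ → ∀ K L : ℝ, (N : ℝ) ^ κ ≤ K →
      K ≤ (N : ℝ) ^ (1 - e) → (N : ℝ) ^ 2 / 2 ≤ K * L → K * L ≤ 5 * (N : ℝ) ^ 2 →
      ∑ a ∈ IA A, |Gw w a * ∑ i ∈ range J,
          Dav L η J (cut L ((1 + η) * L) (fun m => FF N (e0 / Q) c₂ m)) i *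
          ∑ k ∈ Ioc ⌊K⌋₊ ⌊5 / 4 * K⌋₊, cut K ((1 + η) * K) (fun m => FF N (e0 / Q) c₁ m) k
            * ((rho a k : ℝ) / k)
            * (√(k * (L * (1 + η * (i + 1) / J))) - √(k * (L * (1 + η * i / J))))
        - Gw w a * ∑ k ∈ Ioc ⌊K⌋₊ ⌊(1 + η) * K⌋₊, ∑ l ∈ Ioc ⌊L⌋₊ ⌊(1 + η) * L⌋₊,
            FF N (e0 / Q) c₁ k * FF N (e0 / Q) c₂ l / (2 * √((k : ℝ) * l))|
        ≤ ϖ * A * N / (Real.log N) ^ 2 := by
  obtain ⟨CH, hCH, hCH'⟩ := hSHM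
  obtain ⟨CS, hCS, hCS'⟩ := rough_sum hBT he0 he1
  obtain ⟨J₁, hJ₁⟩ := exists_nat_ge (18 * CH * (F * CS) ^ 2 / ϖ)
  refine ⟨J₁, fun J hJ hJ1 w hw => ?_⟩
  have hJ0 : (0 : ℝ) < J := by exact_mod_cast hJ1
  have hw0 : (0 : ℝ) < w := by positivity
  set M : ℝ := (CH + 1) * (F * CS) with hM
  have hM0 : 0 < M := by positivity
  obtain ⟨N₁, hN₁⟩ := hMTB (ϖ / (6 * M * w)) (by positivity)
  obtain ⟨cG, hcG, hG⟩ := hGMAX w hw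
  obtain ⟨A₀, hA₀⟩ := hGMEAN w
  filter_upwards [eventually_ge_atTop 3, eventually_ge_atTop N₁, geo he hκ, hCS', ev_log 1,
    ev_const hθ A₀,
    ev_pow (show (1 / 5 : ℝ) < 2 / 3 by norm_num) (2 / η)] with N hN3 hNN₁ hgeo hcs hl1 hNA hsz
    A hA hnear K L hK1' hK2 hKL1 hKL2
  obtain ⟨hK, hKL, hLN, hLN2, hg1, hg2, hg3⟩ := hgeo K L hK1' hK2 hKL1 hKL2
  have hN1 : (1 : ℝ) < N := by exact_mod_cast (by omega : 1 < N)
  have hK1 : (N : ℝ) ^ (2 / 3 : ℝ) ≤ K := (Real.rpow_le_rpow_of_exponent_le hN1.le hκ).trans hK1'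
  have hN0 : (0 : ℝ) < N := by linarith
  have hlog : 0 < Real.log N := by linarith
  have hL0 : 0 < L := by linarith
  have hK0 : 0 < K := by linarith
  have hsK : 0 < √K := Real.sqrt_pos.2 hK0
  have hsL : 0 < √L := Real.sqrt_pos.2 hL0
  have hsK2 : √K * √K = K := Real.mul_self_sqrt hK0.le
  have hsL2 : √L * √L = L := Real.mul_self_sqrt hL0.le
  have hAA : A₀ ≤ A := by
    have := hNA.trans hA.1
    exact_mod_cast this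
  have hGm := hA₀ A hAA
  have hG0 : ∀ a, 0 ≤ Gw w a := fun a => hcG.le.trans (hG a).1
  set f : ℕ → ℝ := fun m => FF N (e0 / Q) c₂ m with hf
  set β : ℕ → ℝ := cut L ((1 + η) * L) f with hβ
  set g : ℕ → ℝ := fun m => FF N (e0 / Q) c₁ m with hg
  have hff : ∀ m, 0 ≤ f m ∧ f m ≤ F * rInd ((N : ℝ) ^ e0) m := fun m => by
    obtain ⟨h1, h2⟩ := FF_facts hFFB he0 hQ hc₂ (by omega : 2 ≤ N) m
    exact ⟨h1, h2.trans (mul_le_mul_of_nonneg_right hF2 (rInd_nonneg _ _))⟩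
  have hgg : ∀ m, 0 ≤ g m ∧ g m ≤ F * rInd ((N : ℝ) ^ e0) m := fun m => by
    obtain ⟨h1, h2⟩ := FF_facts hFFB he0 hQ hc₁ (by omega : 2 ≤ N) m
    exact ⟨h1, h2.trans (mul_le_mul_of_nonneg_right hF1 (rInd_nonneg _ _))⟩
  have hβ0 : ∀ u, 0 ≤ β u := fun u => cut_nonneg (fun m => (hff m).1) u
  have hsz' : 2 * (N : ℝ) ^ (1 / 5 : ℝ) ≤ η * (N : ℝ) ^ (2 / 3 : ℝ) := by
    have h2 : 2 / η * (N : ℝ) ^ (1 / 5 : ℝ) = (2 * (N : ℝ) ^ (1 / 5 : ℝ)) / η := by ring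
    rw [h2, div_le_iff₀ hη] at hsz
    linarith
  -- the sums
  set S' : ℝ := ∑ i ∈ range J, Dav L η J β i
    * (√(L * (1 + η * (i + 1) / J)) - √(L * (1 + η * i / J))) with hS'
  set S : ℝ := ∑ l ∈ Ioc ⌊L⌋₊ ⌊(1 + η) * L⌋₊, f l / (2 * √(l : ℝ)) with hS
  set R₁ : ℝ := ∑ k ∈ Ioc ⌊K⌋₊ ⌊(1 + η) * K⌋₊, g k / √(k : ℝ) with hR₁
  set R : ℤ → ℝ := fun a => ∑ k ∈ Ioc ⌊K⌋₊ ⌊(1 + η) * K⌋₊, g k * (rho a k : ℝ) / √(k : ℝ) with hR
  have hsumβ : ∑ l ∈ Ioc ⌊L⌋₊ ⌊(1 + η) * L⌋₊, f l ≤ F * CS * L / Real.log N := by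
    calc ∑ l ∈ Ioc ⌊L⌋₊ ⌊(1 + η) * L⌋₊, f l
        ≤ ∑ l ∈ Ioc ⌊L⌋₊ ⌊(1 + η) * L⌋₊, F * rInd ((N : ℝ) ^ e0) l := sum_le_sum fun l _ => (hff l).2
      _ = F * ∑ l ∈ Ioc ⌊L⌋₊ ⌊(1 + η) * L⌋₊, rInd ((N : ℝ) ^ e0) l := by rw [mul_sum]
      _ ≤ F * (CS * ((1 + η) * L - L) / Real.log N) := by
          refine mul_le_mul_of_nonneg_left (hcs L ((1 + η) * L) hL0.le ?_) hF.le
          have : (N : ℝ) ^ (2 / 3 : ℝ) ≤ L := hK1.trans hKL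
          nlinarith
      _ ≤ F * (CS * L / Real.log N) := by
          gcongr
          nlinarith
      _ = _ := by ring
  have hsumg : ∑ k ∈ Ioc ⌊K⌋₊ ⌊(1 + η) * K⌋₊, g k ≤ F * CS * K / Real.log N := by
    calc ∑ l ∈ Ioc ⌊K⌋₊ ⌊(1 + η) * K⌋₊, g l
        ≤ ∑ l ∈ Ioc ⌊K⌋₊ ⌊(1 + η) * K⌋₊, F * rInd ((N : ℝ) ^ e0) l := sum_le_sum fun l _ => (hgg l).2
      _ = F * ∑ l ∈ Ioc ⌊K⌋₊ ⌊(1 + η) * K⌋₊, rInd ((N : ℝ) ^ e0) l := by rw [mul_sum]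
      _ ≤ F * (CS * ((1 + η) * K - K) / Real.log N) := by
          refine mul_le_mul_of_nonneg_left (hcs K ((1 + η) * K) hK0.le ?_) hF.le
          nlinarith
      _ ≤ F * (CS * K / Real.log N) := by
          gcongr
          nlinarith
      _ = _ := by ring
  have hR1 : 0 ≤ R₁ ∧ R₁ ≤ F * CS * √K / Real.log N := by
    refine ⟨sum_nonneg fun k _ => div_nonneg (hgg k).1 (Real.sqrt_nonneg _), ?_⟩
    have h1 : R₁ ≤ (∑ k ∈ Ioc ⌊K⌋₊ ⌊(1 + η) * K⌋₊, g k) / √K := by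
      rw [hR₁, sum_div]
      refine sum_le_sum fun k hk => ?_
      obtain ⟨h3, h4⟩ := mem_blk hK0.le hη.le hk
      exact div_le_div_of_nonneg_left (hgg k).1 hsK (Real.sqrt_le_sqrt h3.le)
    refine h1.trans ?_
    rw [div_le_iff₀ hsK]
    refine hsumg.trans (le_of_eq ?_)
    rw [div_mul_eq_mul_div, mul_assoc (F * CS) √K √K, hsK2]
  have hSS : 0 ≤ S ∧ S ≤ F * CS * √L / Real.log N := by
    refine ⟨sum_nonneg fun k _ => div_nonneg (hff k).1 (by positivity), ?_⟩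
    have h1 : S ≤ (∑ k ∈ Ioc ⌊L⌋₊ ⌊(1 + η) * L⌋₊, f k) / √L := by
      rw [hS, sum_div]
      refine sum_le_sum fun k hk => ?_
      obtain ⟨h3, h4⟩ := mem_blk hL0.le hη.le hk
      have h5 : √L ≤ √(k : ℝ) := Real.sqrt_le_sqrt h3.le
      exact div_le_div_of_nonneg_left (hff k).1 hsL (by linarith)
    refine h1.trans ?_
    rw [div_le_iff₀ hsL]
    refine hsumβ.trans (le_of_eq ?_)
    rw [div_mul_eq_mul_div, mul_assoc (F * CS) √L √L, hsL2]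
  have hdiff : |S' - S| ≤ CH * (F * CS) * √L / (J * Real.log N) := by
    have h1 := hCH' L η J β (by linarith) hη hη4 hJ1 hβ0
    have h2 : ∑ l ∈ Ioc ⌊L⌋₊ ⌊(1 + η) * L⌋₊, β l / (2 * √(l : ℝ)) = S := by
      refine sum_congr rfl fun l hl => ?_
      obtain ⟨h3, h4⟩ := mem_blk hL0.le hη.le hl
      rw [hβ, cut_of h3 h4]
    have h3 : ∑ l ∈ Ioc ⌊L⌋₊ ⌊(1 + η) * L⌋₊, β l = ∑ l ∈ Ioc ⌊L⌋₊ ⌊(1 + η) * L⌋₊, f l := by
      refine sum_congr rfl fun l hl => ?_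
      obtain ⟨h3, h4⟩ := mem_blk hL0.le hη.le hl
      rw [hβ, cut_of h3 h4]
    rw [h2, h3] at h1
    refine h1.trans ?_
    calc CH / J * (∑ l ∈ Ioc ⌊L⌋₊ ⌊(1 + η) * L⌋₊, f l) / √L
        ≤ CH / J * (F * CS * L / Real.log N) / √L := by gcongr
      _ = CH / J * (F * CS * (√L * √L) / Real.log N) / √L := by rw [hsL2]
      _ = CH * (F * CS) * √L / (J * Real.log N) := by field_simp
  have hS'b : |S'| ≤ M * √L := by
    have h1 : |S'| ≤ |S' - S| + |S| := by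
      have := abs_add_le (S' - S) S
      rwa [sub_add_cancel] at this
    rw [abs_of_nonneg hSS.1] at h1
    have h2 : CH * (F * CS) * √L / (J * Real.log N) ≤ CH * (F * CS) * √L := by
      apply div_le_self (by positivity)
      have : (1 : ℝ) ≤ J := by exact_mod_cast hJ1
      nlinarith
    have h3 : F * CS * √L / Real.log N ≤ F * CS * √L := div_le_self (by positivity) hl1
    have h4 : M * √L = CH * (F * CS) * √L + F * CS * √L := by rw [hM]; ring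
    linarith [hSS.2]
  have hRR : ∑ a ∈ IA A, |R a - R₁| ≤ ϖ / (6 * M * w) * A * √K / (Real.log N) ^ 2 := by
    have h1 := hN₁ N A hNN₁ hA hnear K ?_ hK2
    · refine le_trans (le_of_eq ?_) h1
      refine sum_congr rfl fun a _ => ?_
      congr 1
      rw [hR, hR₁]
      simp only
      rw [← sum_sub_distrib]
      refine sum_congr rfl fun k _ => ?_
      rw [hg]
      ring
    · refine le_trans ?_ hK1
      exact Real.rpow_le_rpow_of_exponent_le hN1.le (by norm_num)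
  have hsq : √K * √L ≤ 3 * N := by
    rw [← Real.sqrt_mul hK0.le]
    rw [Real.sqrt_le_left (by positivity)]
    nlinarith
  -- assembly
  have hterm : ∀ a, |Gw w a * ∑ i ∈ range J, Dav L η J β i *
          ∑ k ∈ Ioc ⌊K⌋₊ ⌊5 / 4 * K⌋₊, cut K ((1 + η) * K) g k * ((rho a k : ℝ) / k)
            * (√(k * (L * (1 + η * (i + 1) / J))) - √(k * (L * (1 + η * i / J))))
        - Gw w a * ∑ k ∈ Ioc ⌊K⌋₊ ⌊(1 + η) * K⌋₊, ∑ l ∈ Ioc ⌊L⌋₊ ⌊(1 + η) * L⌋₊,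
            g k * f l / (2 * √((k : ℝ) * l))|
      ≤ w * (M * √L) * |R a - R₁| + |S' - S| * R₁ * Gw w a := by
    intro a
    rw [main_eq (g := g) hK0 hη.le hη4 β (f := f), main_eq2, ← hS', ← hS, ← hR₁]
    have e1 : (∑ k ∈ Ioc ⌊K⌋₊ ⌊(1 + η) * K⌋₊, g k * (rho a k : ℝ) / √(k : ℝ)) = R a := rfl
    rw [e1]
    have e2 : Gw w a * (S' * R a) - Gw w a * (S * R₁)
        = Gw w a * S' * (R a - R₁) + (S' - S) * R₁ * Gw w a := by ring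
    rw [e2]
    refine (abs_add_le _ _).trans (add_le_add ?_ (le_of_eq ?_))
    · rw [abs_mul, abs_mul, abs_of_nonneg (hG0 a)]
      exact mul_le_mul_of_nonneg_right (mul_le_mul (hG a).2 hS'b (abs_nonneg _) hw0.le) (abs_nonneg _)
    · rw [abs_mul, abs_mul, abs_of_nonneg hR1.1, abs_of_nonneg (hG0 a)]
  refine (sum_le_sum fun a _ => hterm a).trans ?_
  rw [sum_add_distrib, ← mul_sum, ← mul_sum]
  have hA0 : (0 : ℝ) ≤ A := Nat.cast_nonneg A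
  have h1 : w * (M * √L) * ∑ a ∈ IA A, |R a - R₁| ≤ ϖ / 2 * A * N / (Real.log N) ^ 2 := by
    calc w * (M * √L) * ∑ a ∈ IA A, |R a - R₁|
        ≤ w * (M * √L) * (ϖ / (6 * M * w) * A * √K / (Real.log N) ^ 2) := by gcongr
      _ = ϖ / 6 * A / (Real.log N) ^ 2 * (√K * √L) := by field_simp
      _ ≤ ϖ / 6 * A / (Real.log N) ^ 2 * (3 * N) := by gcongr
      _ = _ := by ring
  have h2 : |S' - S| * R₁ * ∑ a ∈ IA A, Gw w a ≤ ϖ / 2 * A * N / (Real.log N) ^ 2 := by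
    have h3 : 9 * CH * (F * CS) ^ 2 / J ≤ ϖ / 2 := by
      rw [div_le_iff₀ hJ0]
      have h4 : 18 * CH * (F * CS) ^ 2 / ϖ ≤ J := hJ₁.trans (by exact_mod_cast hJ)
      rw [div_le_iff₀ hϖ] at h4
      nlinarith
    calc |S' - S| * R₁ * ∑ a ∈ IA A, Gw w a
        ≤ (CH * (F * CS) * √L / (J * Real.log N)) * (F * CS * √K / Real.log N) * (3 * A) := by
          have := hR1.1
          have h4 : 0 ≤ ∑ a ∈ IA A, Gw w a := sum_nonneg fun a _ => hG0 a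
          gcongr
          exact hR1.2
      _ = 3 * (CH * (F * CS) ^ 2 / J) * A / (Real.log N) ^ 2 * (√K * √L) := by field_simp
      _ ≤ 3 * (CH * (F * CS) ^ 2 / J) * A / (Real.log N) ^ 2 * (3 * N) := by gcongr
      _ = (9 * CH * (F * CS) ^ 2 / J) * A * N / (Real.log N) ^ 2 := by ring
      _ ≤ _ := by gcongr
  refine (add_le_add h1 h2).trans (le_of_eq ?_)
  ring

/-- one block, all the input in abstract form -/
theorem core {θ κ e e0 η ϖ : ℝ} {Q : ℕ} {c₁ c₂ : Multiset ℕ} (hκ : 2 / 3 ≤ κ) (hθ : 0 < θ)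
    (he : 0 < e) (he0 : 0 < e0) (he1 : e0 ≤ 1 / 10) (hη : 0 < η) (hη4 : η ≤ 1 / 4) (hϖ : 0 < ϖ)
    (hQ : 1 ≤ Q) (hc₁ : ∀ i ∈ c₁, Q ≤ i) (hc₂ : ∀ i ∈ c₂, Q ≤ i) (hc0 : c₂ ≠ 0)
    (hTWO : ∀ B : ℝ, 0 < B → TwoH θ κ e e0 B) (hWB : SpecWB) (hBDHP : SpecBDHP)
    (hEQ : SpecEQ) (hMTA : ∀ (B : ℝ) (w J : ℕ), 0 < B → 2 ≤ w → 1 ≤ J → MtaH θ e e0 B η w J)
    (hMTB : MtbH θ e e0 η Q c₁) (hSHM : SpecSHM) (hBT : SpecBT) (hFFB : SpecFFB)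
    (hGMAX : SpecGMAX) (hGMEAN : SpecGMEAN) :
    ∃ w₀ : ℕ, ∀ w : ℕ, w₀ ≤ w → ∃ N₀ : ℕ, ∀ N A : ℕ, N₀ ≤ N → Adm θ N A → NearA N A (e0 / Q) e c₁ →
    ∀ K L : ℝ, (N : ℝ) ^ κ ≤ K → K ≤ (N : ℝ) ^ (1 - e) → (N : ℝ) ^ 2 / 2 ≤ K * L →
    K * L ≤ 5 * (N : ℝ) ^ 2 →
    ∑ a ∈ IA A, |bil (8 * N) a (cut K ((1 + η) * K) (fun m => FF N (e0 / Q) c₁ m))
          (cut L ((1 + η) * L) (fun m => FF N (e0 / Q) c₂ m))
        - Gw w a * ∑ k ∈ Ioc ⌊K⌋₊ ⌊(1 + η) * K⌋₊, ∑ l ∈ Ioc ⌊L⌋₊ ⌊(1 + η) * L⌋₊,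
            FF N (e0 / Q) c₁ k * FF N (e0 / Q) c₂ l / (2 * √((k : ℝ) * l))|
      ≤ ϖ * A * N / (Real.log N) ^ 2 := by
  set F : ℝ := ((Multiset.card c₁).factorial : ℝ) + ((Multiset.card c₂).factorial : ℝ) with hF
  have hF0 : 0 < F := by positivity
  have hF1 : ((Multiset.card c₁).factorial : ℝ) ≤ F := by
    rw [hF]; linarith [Nat.cast_nonneg (α := ℝ) (Multiset.card c₂).factorial]
  have hF2 : ((Multiset.card c₂).factorial : ℝ) ≤ F := by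
    rw [hF]; linarith [Nat.cast_nonneg (α := ℝ) (Multiset.card c₁).factorial]
  obtain ⟨J₁, hJ₁⟩ := part1 (hTWO (F + 1) (by linarith)) hWB hBDHP hEQ hBT hFFB (ϖ := ϖ / 3) hκ he he0
    he1 hη hη4 (by positivity) hQ hc₁ hc₂ hc0 hF0 hF1 hF2
  obtain ⟨J₂, hJ₂⟩ := part3 hMTB hSHM hBT hFFB hGMAX hGMEAN (ϖ := ϖ / 3) hκ hθ he he0 he1 hη hη4
    (by positivity) hQ hc₁ hc₂ hF0 hF1 hF2
  set J : ℕ := max (max J₁ J₂) 1 with hJ
  have hJ1 : 1 ≤ J := le_max_right _ _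
  have hJa : J₁ ≤ J := (le_max_left _ _).trans (le_max_left _ _)
  have hJb : J₂ ≤ J := (le_max_right _ _).trans (le_max_left _ _)
  obtain ⟨w₁, hw₁⟩ := hJ₁ J hJa hJ1
  refine ⟨max w₁ 2, fun w hw => ?_⟩
  have hwa : w₁ ≤ w := (le_max_left _ _).trans hw
  have hwb : 2 ≤ w := (le_max_right _ _).trans hw
  obtain ⟨N₃, hN₃⟩ := hMTA F w J hF0 hwb hJ1 (ϖ / 3) (by positivity)
  have hev : ∀ᶠ N : ℕ in atTop, ∀ A : ℕ, Adm θ N A → NearA N A (e0 / Q) e c₁ → ∀ K L : ℝ,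
      (N : ℝ) ^ κ ≤ K → K ≤ (N : ℝ) ^ (1 - e) → (N : ℝ) ^ 2 / 2 ≤ K * L →
      K * L ≤ 5 * (N : ℝ) ^ 2 →
      ∑ a ∈ IA A, |bil (8 * N) a (cut K ((1 + η) * K) (fun m => FF N (e0 / Q) c₁ m))
            (cut L ((1 + η) * L) (fun m => FF N (e0 / Q) c₂ m))
          - Gw w a * ∑ k ∈ Ioc ⌊K⌋₊ ⌊(1 + η) * K⌋₊, ∑ l ∈ Ioc ⌊L⌋₊ ⌊(1 + η) * L⌋₊,
              FF N (e0 / Q) c₁ k * FF N (e0 / Q) c₂ l / (2 * √((k : ℝ) * l))|
        ≤ ϖ * A * N / (Real.log N) ^ 2 := by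
    filter_upwards [hw₁ w hwa, hJ₂ J hJb hJ1 w hwb, eventually_ge_atTop N₃, eventually_ge_atTop 3] with
      N hp1 hp3 hNN₃ hN3 A hA hnear K L hK1 hK2 hKL1 hKL2
    have hN1 : (1 : ℝ) < N := by exact_mod_cast (by omega : 1 < N)
    have hK0 : 0 < K := lt_of_lt_of_le (by positivity) hK1
    have hfac : ∀ (c : Multiset ℕ), (∀ i ∈ c, Q ≤ i) → ((Multiset.card c).factorial : ℝ) ≤ F →
        ∀ m, 0 ≤ FF N (e0 / Q) c m ∧ FF N (e0 / Q) c m ≤ F * rInd ((N : ℝ) ^ e0) m := fun c hc hcF m => by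
      obtain ⟨h1, h2⟩ := FF_facts hFFB he0 hQ hc (by omega : 2 ≤ N) m
      exact ⟨h1, h2.trans (mul_le_mul_of_nonneg_right hcF (rInd_nonneg _ _))⟩
    have hFr : ∀ m, 0 ≤ F * rInd ((N : ℝ) ^ e0) m := fun m => mul_nonneg hF0.le (rInd_nonneg _ _)
    set α : ℕ → ℝ := cut K ((1 + η) * K) (fun m => FF N (e0 / Q) c₁ m) with hα
    set β : ℕ → ℝ := cut L ((1 + η) * L) (fun m => FF N (e0 / Q) c₂ m) with hβ
    have h1 := hp1 A hA K L hK1 hK2 hKL1 hKL2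
    have h3 := hp3 A hA hnear K L hK1 hK2 hKL1 hKL2
    have h2 := hN₃ N A hNN₃ hA K L
      ((Real.rpow_le_rpow_of_exponent_le hN1.le (by linarith)).trans hK1) hK2 hKL1 hKL2 α β
      (fun k => by
        rw [abs_of_nonneg (cut_nonneg (fun m => (hfac c₁ hc₁ hF1 m).1) k)]
        exact cut_le (g := fun m => F * rInd ((N : ℝ) ^ e0) m) (fun m => (hfac c₁ hc₁ hF1 m).2) hFr k)
      (fun k hk => by
        obtain ⟨h1, h2⟩ := cut_ne hk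
        exact ⟨h1, h2.trans (by nlinarith)⟩)
      (fun l => by
        rw [abs_of_nonneg (cut_nonneg (fun m => (hfac c₂ hc₂ hF2 m).1) l)]
        refine (cut_le (g := fun m => F * rInd ((N : ℝ) ^ e0) m) (fun m => (hfac c₂ hc₂ hF2 m).2)
          hFr l).trans ?_
        have := rInd_le_one ((N : ℝ) ^ e0) l
        nlinarith)
    have hsplit : ∀ a, bil (8 * N) a α β = bil (8 * N) a α (fun u => β u - sharp w L η J β u)
        + bil (8 * N) a α (sharp w L η J β) := by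
      intro a
      rw [← bil_add]
      congr 1
      funext l
      ring
    have hsum := add_le_add (add_le_add h1 h2) h3
    rw [← sum_add_distrib, ← sum_add_distrib] at hsum
    have htot : ϖ / 3 * A * N / (Real.log N) ^ 2 + ϖ / 3 * A * N / (Real.log N) ^ 2
        + ϖ / 3 * A * N / (Real.log N) ^ 2 = ϖ * A * N / (Real.log N) ^ 2 := by ring
    rw [htot] at hsum
    refine le_trans (sum_le_sum fun a _ => ?_) hsum
    rw [hsplit a]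
    refine le_trans (le_of_eq ?_) ((abs_add_le _ _).trans (add_le_add_left (abs_add_le _ _) _))
    congr 1
    ring
  obtain ⟨N₀, hN₀⟩ := eventually_atTop.1 hev
  exact ⟨N₀, fun N A hN hA hnear K L h1 h2 h3 h4 => hN₀ N hN A hA hnear K L h1 h2 h3 h4⟩

end BLK2

open BLK2 in
theorem specBLK2 (hTWO : SpecTWO) (hWB : SpecWB) (hBDHP : SpecBDHP) (hEQ : SpecEQ) (hMTA : SpecMTA)
    (hMTB : SpecMTB) (hSHM : SpecSHM) (hBT : SpecBT) (hFFB : SpecFFB) (hGMAX : SpecGMAX)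
    (hGMEAN : SpecGMEAN) : SpecBLK2 := by
  intro θ e e0 η ϖ Q c₁ c₂ hθ he he0 he1 hη hη4 hϖ hQ hc₁ hc₂ hc0
  exact core le_rfl (by linarith) he he0 he1 hη hη4 hϖ hQ hc₁ hc₂ hc0
    (fun B hB => hTWO θ e e0 B hθ he he0 hB) hWB hBDHP hEQ
    (fun B w J hB hw hJ δ hδ => hMTA θ e e0 B δ η w J hθ he he0 hB hδ hη hη4 hw hJ)
    (fun δ hδ => hMTB θ e e0 δ η Q c₁ hθ he he0 he1 hδ hη hη4 hQ hc₁) hSHM hBT hFFB hGMAX hGMEAN

open BLK2 in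
theorem specBLK2K (hTWO : SpecTWOK) (hWB : SpecWB) (hBDHP : SpecBDHP) (hEQ : SpecEQ)
    (hMTA : SpecMTAK) (hMTB : SpecMTBK) (hSHM : SpecSHM) (hBT : SpecBT) (hFFB : SpecFFB)
    (hGMAX : SpecGMAX) (hGMEAN : SpecGMEAN) : SpecBLK2K := by
  intro θ κ e e0 η ϖ Q c₁ c₂ hθ hκ hθκ he he0 he1 hη hη4 hϖ hQ hc₁ hc₂ hc0
  exact core hκ (by linarith) he he0 he1 hη hη4 hϖ hQ hc₁ hc₂ hc0
    (fun B hB => hTWO θ κ e e0 B hθ hκ hθκ he he0 hB) hWB hBDHP hEQ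
    (fun B w J hB hw hJ δ hδ => hMTA θ e e0 B δ η w J hθ he he0 hB hδ hη hη4 hw hJ)
    (fun δ hδ => hMTB θ e e0 δ η Q c₁ hθ he he0 he1 hδ hη hη4 hQ hc₁) hSHM hBT hFFB hGMAX hGMEAN

end Pool.Agent.Lib.MP391708.QPA
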