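import Pool.Agent.Lib.MP_391708_nt.QPA.Spec
import Pool.Agent.Lib.MP_391708_nt.Div

set_option autoImplicit false

namespace Pool.Agent.Lib.MP391708.QPA.BilH

open Finset
open scoped Classical

noncomputable section

/-- elements of one residue class in an interval of length `b - a` -/
lemma card_class (m : ℕ) (hm : 1 ≤ m) (S : Finset ℤ) (a b : ℝ) (hab : a ≤ b)
    (h1 : ∀ s ∈ S, ∀ t ∈ S, (m : ℤ) ∣ s - t) (h2 : ∀ s ∈ S, a ≤ (s : ℝ) ∧ (s : ℝ) ≤ b) :
    (S.card : ℝ) ≤ (b - a) / m + 1 := by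
  have hm0 : (0 : ℝ) < m := by exact_mod_cast hm
  rcases S.eq_empty_or_nonempty with rfl | hne
  · simp only [card_empty, Nat.cast_zero]
    have : 0 ≤ (b - a) / m := div_nonneg (by linarith) hm0.le
    linarith
  · set s0 := S.min' hne with hs0
    have hs0m : s0 ∈ S := S.min'_mem hne
    have hmap : ∀ s ∈ S, ((s - s0) / m).toNat ∈ range (⌊(b - a) / m⌋₊ + 1) := by
      intro s hs
      have hle : s0 ≤ s := S.min'_le s hs
      obtain ⟨k, hk⟩ := h1 s hs s0 hs0m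
      have hmz : (m : ℤ) ≠ 0 := by exact_mod_cast (by omega : m ≠ 0)
      rw [hk, Int.mul_ediv_cancel_left _ hmz, mem_range, Nat.lt_succ_iff]
      have hk0 : 0 ≤ k := by
        by_contra hneg
        push Not at hneg
        have : (m : ℤ) * k < 0 := mul_neg_of_pos_of_neg (by exact_mod_cast hm) hneg
        omega
      apply Nat.le_floor
      have hcast : ((k.toNat : ℕ) : ℝ) = (k : ℝ) := by
        have : ((k.toNat : ℕ) : ℤ) = k := Int.toNat_of_nonneg hk0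
        exact_mod_cast this
      rw [hcast, le_div_iff₀ hm0]
      have e : ((s : ℝ) - s0) = m * k := by exact_mod_cast hk
      have := (h2 s hs).2
      have := (h2 s0 hs0m).1
      nlinarith
    have hinj : Set.InjOn (fun s : ℤ => ((s - s0) / m).toNat) S := by
      intro s hs t ht hst
      have hle : s0 ≤ s := S.min'_le s hs
      have hle' : s0 ≤ t := S.min'_le t ht
      obtain ⟨k, hk⟩ := h1 s hs s0 hs0m
      obtain ⟨l, hl⟩ := h1 t ht s0 hs0m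
      have hmz : (m : ℤ) ≠ 0 := by exact_mod_cast (by omega : m ≠ 0)
      have hmp : (0 : ℤ) < m := by exact_mod_cast hm
      simp only at hst
      rw [hk, hl, Int.mul_ediv_cancel_left _ hmz, Int.mul_ediv_cancel_left _ hmz] at hst
      have hk0 : 0 ≤ k := by
        by_contra hneg
        push Not at hneg
        have : (m : ℤ) * k < 0 := mul_neg_of_pos_of_neg hmp hneg
        omega
      have hl0 : 0 ≤ l := by
        by_contra hneg
        push Not at hneg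
        have : (m : ℤ) * l < 0 := mul_neg_of_pos_of_neg hmp hneg
        omega
      have : k = l := by
        have e1 := Int.toNat_of_nonneg hk0
        have e2 := Int.toNat_of_nonneg hl0
        omega
      subst this
      omega
    have hc := Finset.card_le_card_of_injOn _ hmap hinj
    rw [card_range] at hc
    have : (S.card : ℝ) ≤ (⌊(b - a) / m⌋₊ : ℝ) + 1 := by exact_mod_cast hc
    have hf : (⌊(b - a) / m⌋₊ : ℝ) ≤ (b - a) / m :=
      Nat.floor_le (div_nonneg (by linarith) hm0.le)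
    linarith

/-- the same for natural numbers -/
lemma card_class_nat (m : ℕ) (hm : 1 ≤ m) (S : Finset ℕ) (a b : ℝ) (hab : a ≤ b) (c : ℕ)
    (h1 : ∀ s ∈ S, s % m = c) (h2 : ∀ s ∈ S, a ≤ (s : ℝ) ∧ (s : ℝ) ≤ b) :
    (S.card : ℝ) ≤ (b - a) / m + 1 := by
  have h := card_class m hm (S.map ⟨fun n : ℕ => (n : ℤ), Nat.cast_injective⟩) a b hab ?_ ?_
  · rwa [card_map] at h
  · intro s hs t ht
    simp only [mem_map, Function.Embedding.coeFn_mk] at hs ht
    obtain ⟨s, hs, rfl⟩ := hs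
    obtain ⟨t, ht, rfl⟩ := ht
    have e1 := h1 s hs
    have e2 := h1 t ht
    have : s ≡ t [MOD m] := by
      unfold Nat.ModEq; omega
    exact (Nat.modEq_iff_dvd.mp this.symm)
  · intro s hs
    simp only [mem_map, Function.Embedding.coeFn_mk] at hs
    obtain ⟨s, hs, rfl⟩ := hs
    simpa using h2 s hs

/-- pairs `(v,v')` of one residue class with `α²v - β²v'` small, `α, β` coprime -/
lemma pair_count (m : ℕ) (hm : 1 ≤ m) (α β c : ℕ) (hcop : Nat.Coprime α β) (hβ : 1 ≤ β)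
    (T : Finset ℕ) (L : ℝ) (hL : 0 ≤ L) (R : ℝ) (hR : 0 ≤ R)
    (h1 : ∀ v ∈ T, v % m = c) (h2 : ∀ v ∈ T, L ≤ (v : ℝ) ∧ (v : ℝ) ≤ 2 * L) :
    ((((T ×ˢ T).filter (fun t => |(α : ℝ) ^ 2 * t.1 - (β : ℝ) ^ 2 * t.2| ≤ R)).card : ℕ) : ℝ)
      ≤ (2 * R / m + 1) * (L / (m * (β : ℝ) ^ 2) + 1) := by
  set E := (T ×ˢ T).filter (fun t => |(α : ℝ) ^ 2 * t.1 - (β : ℝ) ^ 2 * t.2| ≤ R) with hE
  set f : ℕ × ℕ → ℤ := fun t => (α : ℤ) ^ 2 * t.1 - (β : ℤ) ^ 2 * t.2 with hf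
  have hm0 : (0 : ℝ) < m := by exact_mod_cast hm
  have hβ0 : (0 : ℝ) < β := by exact_mod_cast hβ
  have hdv : ∀ v ∈ T, ∀ v' ∈ T, (m : ℤ) ∣ (v : ℤ) - v' := by
    intro v hv v' hv'
    have e1 := h1 v hv
    have e2 := h1 v' hv'
    have : v' ≡ v [MOD m] := by
      unfold Nat.ModEq; omega
    exact (Nat.modEq_iff_dvd.mp this)
  have himg : ((E.image f).card : ℝ) ≤ 2 * R / m + 1 := by
    have h := card_class m hm (E.image f) (-R) R (by linarith) ?_ ?_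
    · calc ((E.image f).card : ℝ) ≤ (R - -R) / m + 1 := h
        _ = 2 * R / m + 1 := by ring
    · intro s hs t ht
      obtain ⟨x, hx, rfl⟩ := mem_image.mp hs
      obtain ⟨y, hy, rfl⟩ := mem_image.mp ht
      rw [hE, mem_filter, mem_product] at hx hy
      have a1 := hdv x.1 hx.1.1 y.1 hy.1.1
      have a2 := hdv x.2 hx.1.2 y.2 hy.1.2
      have : f x - f y = (α : ℤ) ^ 2 * ((x.1 : ℤ) - y.1) - (β : ℤ) ^ 2 * ((x.2 : ℤ) - y.2) := by
        simp only [hf]; ring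
      rw [this]
      exact dvd_sub (Dvd.dvd.mul_left a1 _) (Dvd.dvd.mul_left a2 _)
    · intro s hs
      obtain ⟨x, hx, rfl⟩ := mem_image.mp hs
      rw [hE, mem_filter] at hx
      have := abs_le.mp hx.2
      simp only [hf]
      push_cast
      exact this
  have hfib : ∀ t ∈ E.image f, ((E.filter (fun x => f x = t)).card : ℝ) ≤ L / (m * (β : ℝ) ^ 2) + 1 := by
    intro t _
    have hinj : Set.InjOn (fun x : ℕ × ℕ => (x.1 : ℤ)) (E.filter (fun x => f x = t)) := by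
      intro x hx y hy hxy
      simp only [coe_filter, Set.mem_ofPred_eq] at hx hy
      have e : f x = f y := hx.2.trans hy.2.symm
      simp only [hf] at e
      simp only at hxy
      have hβz : (β : ℤ) ^ 2 ≠ 0 := by positivity
      have e2 : (β : ℤ) ^ 2 * (x.2 : ℤ) = (β : ℤ) ^ 2 * y.2 := by rw [hxy] at e; linarith
      have e3 : (x.2 : ℤ) = y.2 := mul_left_cancel₀ hβz e2
      apply Prod.ext
      · exact_mod_cast hxy
      · exact_mod_cast e3
    have hcard := card_image_of_injOn hinj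
    have h := card_class (m * β ^ 2) (Nat.succ_le_of_lt (Nat.mul_pos hm (pow_pos hβ 2)))
      ((E.filter (fun x => f x = t)).image (fun x : ℕ × ℕ => (x.1 : ℤ))) L (2 * L) (by linarith) ?_ ?_
    · rw [hcard] at h
      calc ((E.filter (fun x => f x = t)).card : ℝ) ≤ (2 * L - L) / ((m * β ^ 2 : ℕ) : ℝ) + 1 := h
        _ = L / (m * (β : ℝ) ^ 2) + 1 := by push_cast; ring
    · intro s hs s' hs'
      obtain ⟨x, hx, rfl⟩ := mem_image.mp hs
      obtain ⟨y, hy, rfl⟩ := mem_image.mp hs'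
      rw [mem_filter] at hx hy
      have hxE := hx.1
      have hyE := hy.1
      rw [hE, mem_filter, mem_product] at hxE hyE
      obtain ⟨k, hk⟩ := hdv x.1 hxE.1.1 y.1 hyE.1.1
      obtain ⟨l, hl⟩ := hdv x.2 hxE.1.2 y.2 hyE.1.2
      have e : f x = f y := hx.2.trans hy.2.symm
      simp only [hf] at e
      have hmz : (m : ℤ) ≠ 0 := by exact_mod_cast (by omega : m ≠ 0)
      have e2 : (α : ℤ) ^ 2 * k = (β : ℤ) ^ 2 * l := by
        have : (m : ℤ) * ((α : ℤ) ^ 2 * k) = m * ((β : ℤ) ^ 2 * l) := by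
          calc (m : ℤ) * ((α : ℤ) ^ 2 * k) = (α : ℤ) ^ 2 * (m * k) := by ring
            _ = (α : ℤ) ^ 2 * ((x.1 : ℤ) - y.1) := by rw [hk]
            _ = (β : ℤ) ^ 2 * ((x.2 : ℤ) - y.2) := by linarith
            _ = (β : ℤ) ^ 2 * (m * l) := by rw [hl]
            _ = m * ((β : ℤ) ^ 2 * l) := by ring
        exact mul_left_cancel₀ hmz this
      have hcz : IsCoprime ((β : ℤ) ^ 2) ((α : ℤ) ^ 2) :=
        (Nat.isCoprime_iff_coprime.mpr hcop.symm).pow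
      have : (β : ℤ) ^ 2 ∣ k := hcz.dvd_of_dvd_mul_left (Dvd.intro _ e2.symm)
      obtain ⟨j, hj⟩ := this
      refine ⟨j, ?_⟩
      rw [hk, hj]
      push_cast
      ring
    · intro s hs
      obtain ⟨x, hx, rfl⟩ := mem_image.mp hs
      rw [mem_filter] at hx
      have hxE := hx.1
      rw [hE, mem_filter, mem_product] at hxE
      simpa using h2 x.1 hxE.1.1
  have hE' : (E.card : ℝ) = ∑ t ∈ E.image f, ((E.filter (fun x => f x = t)).card : ℝ) := by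
    have := Finset.card_eq_sum_card_image f E
    exact_mod_cast this
  rw [hE']
  calc ∑ t ∈ E.image f, ((E.filter (fun x => f x = t)).card : ℝ)
      ≤ ∑ t ∈ E.image f, (L / (m * (β : ℝ) ^ 2) + 1) := sum_le_sum hfib
    _ = ((E.image f).card : ℝ) * (L / (m * (β : ℝ) ^ 2) + 1) := by rw [sum_const, nsmul_eq_mul]
    _ ≤ (2 * R / m + 1) * (L / (m * (β : ℝ) ^ 2) + 1) :=
        mul_le_mul_of_nonneg_right himg (by positivity)

/-- `∑ gcd(h,k)²` over `h ∈ (H, 2H]`, `1 ≤ k < H` -/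
lemma gcd_sum (H k : ℕ) (hk : 1 ≤ k) (hkH : k < H) :
    ∑ h ∈ Ioc H (2 * H), (Nat.gcd h k : ℝ) ^ 2 ≤ 2 * (H : ℝ) ^ 2 * (k.divisors.card : ℝ) := by
  have hH0 : (0 : ℝ) < H := by exact_mod_cast (by omega : 0 < H)
  have hstep : ∀ h ∈ Ioc H (2 * H), (Nat.gcd h k : ℝ) ^ 2 ≤
      ∑ g ∈ k.divisors, if g ∣ h then (g : ℝ) ^ 2 else 0 := by
    intro h _
    have hmem : Nat.gcd h k ∈ k.divisors := Nat.mem_divisors.mpr ⟨Nat.gcd_dvd_right h k, by omega⟩
    have := single_le_sum (f := fun g : ℕ => if g ∣ h then (g : ℝ) ^ 2 else 0)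
      (fun g _ => by split_ifs <;> positivity) hmem
    simpa [Nat.gcd_dvd_left h k] using this
  calc ∑ h ∈ Ioc H (2 * H), (Nat.gcd h k : ℝ) ^ 2
      ≤ ∑ h ∈ Ioc H (2 * H), ∑ g ∈ k.divisors, (if g ∣ h then (g : ℝ) ^ 2 else 0) :=
        sum_le_sum hstep
    _ = ∑ g ∈ k.divisors, ∑ h ∈ Ioc H (2 * H), (if g ∣ h then (g : ℝ) ^ 2 else 0) := sum_comm
    _ ≤ ∑ g ∈ k.divisors, 2 * (H : ℝ) ^ 2 := by
        refine sum_le_sum fun g hg => ?_
        have hgk : g ∣ k := Nat.dvd_of_mem_divisors hg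
        have hg1 : 1 ≤ g := Nat.pos_of_dvd_of_pos hgk hk
        have hgle : g ≤ k := Nat.le_of_dvd hk hgk
        have hgH : (g : ℝ) ≤ H := by exact_mod_cast (by omega : g ≤ H)
        have hg0 : (0 : ℝ) < g := by exact_mod_cast hg1
        rw [← sum_filter, sum_const, nsmul_eq_mul]
        have hc := card_class_nat g hg1 ((Ioc H (2 * H)).filter (fun h => g ∣ h)) H (2 * H)
          (by linarith) 0 (fun s hs => by
            rw [mem_filter] at hs; exact Nat.mod_eq_zero_of_dvd hs.2) (fun s hs => by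
            rw [mem_filter, mem_Ioc] at hs
            constructor
            · exact_mod_cast hs.1.1.le
            · exact_mod_cast hs.1.2)
        have e : ((2 * H : ℝ) - H) / g = H / g := by ring
        rw [e] at hc
        calc ((((Ioc H (2 * H)).filter (fun h => g ∣ h)).card : ℕ) : ℝ) * (g : ℝ) ^ 2
            ≤ (H / g + 1) * (g : ℝ) ^ 2 := mul_le_mul_of_nonneg_right hc (by positivity)
          _ = H * g + (g : ℝ) ^ 2 := by field_simp
          _ ≤ 2 * (H : ℝ) ^ 2 := by nlinarith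
    _ = 2 * (H : ℝ) ^ 2 * (k.divisors.card : ℝ) := by rw [sum_const, nsmul_eq_mul]; ring

/-- sum over ordered pairs of different elements of one class in terms of the distance -/
lemma pair_dist (H q : ℕ) (I : Finset ℕ) (h0 : ℕ) (hI : ∀ h ∈ I, h ∈ Ioc H (2 * H) ∧ h % q = h0)
    (F : ℕ → ℕ → ℝ) (hF : ∀ a b, 0 ≤ F a b) :
    ∑ h ∈ I, ∑ h' ∈ I.filter (fun h' => h' ≠ h), F h (Nat.dist h h') ≤
      2 * ∑ h ∈ I, ∑ k ∈ (Ico 1 H).filter (fun k => q ∣ k), F h k := by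
  rw [mul_sum]
  refine sum_le_sum fun h hh => ?_
  have hh' := hI h hh
  rw [mem_Ioc] at hh'
  have hdvd : ∀ h' ∈ I, q ∣ Nat.dist h h' := by
    intro h' hh'm
    have e := (hI h' hh'm).2
    have e2 := hh'.2
    unfold Nat.dist
    rcases le_total h h' with hle | hle
    · have : h ≡ h' [MOD q] := by unfold Nat.ModEq; omega
      have := (Nat.modEq_iff_dvd' hle).mp this
      simpa [Nat.sub_eq_zero_of_le hle] using this
    · have : h' ≡ h [MOD q] := by unfold Nat.ModEq; omega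
      have := (Nat.modEq_iff_dvd' hle).mp this
      simpa [Nat.sub_eq_zero_of_le hle] using this
  have hmain : ∀ J ⊆ I, (∀ a ∈ J, a ≠ h) → Set.InjOn (fun a => Nat.dist h a) J →
      ∑ a ∈ J, F h (Nat.dist h a) ≤ ∑ k ∈ (Ico 1 H).filter (fun k => q ∣ k), F h k := by
    intro J hJ hne hinj
    rw [← sum_image (f := fun k => F h k) hinj]
    refine sum_le_sum_of_subset_of_nonneg ?_ (fun _ _ _ => hF _ _)
    intro k hk
    obtain ⟨a, ha, rfl⟩ := mem_image.mp hk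
    have haI := hI a (hJ ha)
    rw [mem_Ioc] at haI
    rw [mem_filter, mem_Ico]
    refine ⟨⟨?_, ?_⟩, hdvd a (hJ ha)⟩
    · have : Nat.dist h a ≠ 0 := by
        intro h0; exact hne a ha (Nat.eq_of_dist_eq_zero h0).symm
      omega
    · unfold Nat.dist; omega
  have hsplit : ∑ h' ∈ I.filter (fun h' => h' ≠ h), F h (Nat.dist h h') =
      ∑ h' ∈ I.filter (fun h' => h' < h), F h (Nat.dist h h')
        + ∑ h' ∈ I.filter (fun h' => h < h'), F h (Nat.dist h h') := by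
    rw [← sum_union]
    · congr 1
      ext a
      simp only [mem_filter, mem_union]
      constructor
      · rintro ⟨ha, hne⟩
        rcases lt_or_gt_of_ne hne with h1 | h1
        · exact Or.inl ⟨ha, h1⟩
        · exact Or.inr ⟨ha, h1⟩
      · rintro (⟨ha, h1⟩ | ⟨ha, h1⟩)
        · exact ⟨ha, by omega⟩
        · exact ⟨ha, by omega⟩
    · rw [disjoint_left]
      intro a ha hb
      rw [mem_filter] at ha hb
      omega
  rw [hsplit, two_mul]
  refine add_le_add ?_ ?_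
  · refine hmain _ (filter_subset _ _) (fun a ha => by rw [mem_filter] at ha; omega) ?_
    intro a ha b hb hab
    simp only [coe_filter, Set.mem_ofPred_eq] at ha hb
    simp only [Nat.dist] at hab
    omega
  · refine hmain _ (filter_subset _ _) (fun a ha => by rw [mem_filter] at ha; omega) ?_
    intro a ha b hb hab
    simp only [coe_filter, Set.mem_ofPred_eq] at ha hb
    simp only [Nat.dist] at hab
    omega

/-- the double large sieve with pairs as second index -/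
lemma dls2 (hD : SpecDLS) : ∃ C : ℝ, 0 < C ∧ ∀ (S : Finset ℕ) (P : Finset (ℕ × ℕ)) (x : ℕ → ℝ)
    (y : ℕ × ℕ → ℝ) (b : ℕ → ℂ) (c : ℕ × ℕ → ℂ) (X Y : ℝ),
    0 < X → 0 < Y → (∀ i ∈ S, |x i| ≤ X) → (∀ j ∈ P, |y j| ≤ Y) → (∀ i, ‖b i‖ ≤ 1) → (∀ j, ‖c j‖ ≤ 1) →
    ‖∑ i ∈ S, ∑ j ∈ P, b i * c j * Complex.exp (2 * Real.pi * Complex.I * ((x i * y j : ℝ) : ℂ))‖ ^ 2
    ≤ C * (1 + X * Y) * (((S ×ˢ S).filter (fun t => |x t.1 - x t.2| ≤ 1 / Y)).card : ℝ)
      * (((P ×ˢ P).filter (fun t => |y t.1 - y t.2| ≤ 1 / X)).card : ℝ) := by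
  obtain ⟨C, hC, h⟩ := hD
  refine ⟨C, hC, ?_⟩
  intro S P x y b c X Y hX hY hx hy hb hc
  have h1 := h S (P.map Nat.pairEquiv.toEmbedding) x (fun n => y (Nat.unpair n)) b
    (fun n => c (Nat.unpair n)) X Y hX hY hx ?_ hb (fun j => hc _)
  · simp only [sum_map, Equiv.coe_toEmbedding, Nat.pairEquiv_apply, Function.uncurry,
      Nat.unpair_pair] at h1
    refine h1.trans ?_
    apply mul_le_mul_of_nonneg_left _ (by positivity)
    have : (((P.map Nat.pairEquiv.toEmbedding) ×ˢ (P.map Nat.pairEquiv.toEmbedding)).filter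
        (fun t : ℕ × ℕ => |y (Nat.unpair t.1) - y (Nat.unpair t.2)| ≤ 1 / X)).card ≤
        ((P ×ˢ P).filter (fun t => |y t.1 - y t.2| ≤ 1 / X)).card := by
      refine card_le_card_of_injOn (fun t : ℕ × ℕ => (Nat.unpair t.1, Nat.unpair t.2)) ?_ ?_
      · intro t ht
        simp only [coe_filter, mem_product, mem_map, Equiv.coe_toEmbedding, Nat.pairEquiv_apply,
          Function.uncurry, Set.mem_ofPred_eq] at ht ⊢
        obtain ⟨⟨⟨p, hp, e1⟩, ⟨p', hp', e2⟩⟩, h3⟩ := ht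
        rw [← e1, ← e2] at h3 ⊢
        simp only [Nat.unpair_pair] at h3 ⊢
        exact ⟨⟨hp, hp'⟩, h3⟩
      · intro t _ t' _ e
        simp only [Prod.mk.injEq] at e
        have a1 := congrArg (fun z : ℕ × ℕ => Nat.pair z.1 z.2) e.1
        have a2 := congrArg (fun z : ℕ × ℕ => Nat.pair z.1 z.2) e.2
        simp only [Nat.pair_unpair] at a1 a2
        exact Prod.ext a1 a2
    exact_mod_cast this
  · intro j hj
    obtain ⟨p, hp, rfl⟩ := mem_map.mp hj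
    simp only [Equiv.coe_toEmbedding, Nat.pairEquiv_apply, Function.uncurry, Nat.unpair_pair]
    exact hy p hp

/-- the pairs `(h,v)`: reduction of the second count to pairs `(v,v')` for given `(h,h')` -/
lemma card_pairs (I T : Finset ℕ) (y : ℕ × ℕ → ℝ) (X : ℝ) (R : ℝ)
    (hyR : ∀ h ∈ I, ∀ h' ∈ I, ∀ v ∈ T, ∀ v' ∈ T, |y (h, v) - y (h', v')| ≤ 1 / X →
      |(h : ℝ) ^ 2 * v - (h' : ℝ) ^ 2 * v'| ≤ R) :
    ((((I ×ˢ T) ×ˢ (I ×ˢ T)).filter (fun t => |y t.1 - y t.2| ≤ 1 / X)).card : ℝ) ≤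
      ∑ h ∈ I, ∑ h' ∈ I,
        ((((T ×ˢ T).filter (fun t => |(h : ℝ) ^ 2 * t.1 - (h' : ℝ) ^ 2 * t.2| ≤ R)).card : ℕ) : ℝ) := by
  have e : (((I ×ˢ T) ×ˢ (I ×ˢ T)).filter (fun t => |y t.1 - y t.2| ≤ 1 / X)).card ≤
      ∑ p ∈ I ×ˢ I, ((T ×ˢ T).filter
        (fun t => |(p.1 : ℝ) ^ 2 * t.1 - (p.2 : ℝ) ^ 2 * t.2| ≤ R)).card := by
    rw [← card_sigma]
    refine card_le_card_of_injOn (fun t : (ℕ × ℕ) × (ℕ × ℕ) =>
      (⟨(t.1.1, t.2.1), (t.1.2, t.2.2)⟩ : (_ : ℕ × ℕ) × (ℕ × ℕ))) ?_ ?_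
    · intro t ht
      simp only [coe_filter, mem_product, Set.mem_ofPred_eq] at ht
      simp only [coe_sigma, Set.mem_sigma_iff, mem_coe, mem_product, mem_filter]
      exact ⟨⟨ht.1.1.1, ht.1.2.1⟩, ⟨ht.1.1.2, ht.1.2.2⟩,
        hyR _ ht.1.1.1 _ ht.1.2.1 _ ht.1.1.2 _ ht.1.2.2 ht.2⟩
    · rintro ⟨⟨a, b⟩, ⟨a', b'⟩⟩ _ ⟨⟨c, d⟩, ⟨c', d'⟩⟩ _ e
      simp only [Sigma.mk.injEq, Prod.mk.injEq, heq_eq_eq] at e
      obtain ⟨⟨rfl, rfl⟩, rfl, rfl⟩ := e
      rfl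
  rw [sum_product] at e
  exact_mod_cast e

/-- the number of pairs of a class at distance at most `W` -/
lemma close_pairs (m : ℕ) (hm : 1 ≤ m) (S : Finset ℕ) (c : ℕ) (L W : ℝ) (hL : 0 ≤ L) (hW : 0 ≤ W)
    (h1 : ∀ v ∈ S, v % m = c) (h2 : ∀ v ∈ S, L ≤ (v : ℝ) ∧ (v : ℝ) ≤ 2 * L) :
    ((((S ×ˢ S).filter (fun t => |(t.1 : ℝ) - t.2| ≤ W)).card : ℕ) : ℝ) ≤
      (L / m + 1) * (2 * W / m + 1) := by
  have hS := card_class_nat m hm S L (2 * L) (by linarith) c h1 h2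
  have e : (((S ×ˢ S).filter (fun t => |(t.1 : ℝ) - t.2| ≤ W)).card : ℝ) =
      ∑ v ∈ S, (((S.filter (fun v' : ℕ => |(v : ℝ) - v'| ≤ W)).card : ℕ) : ℝ) := by
    rw [card_filter, Nat.cast_sum, sum_product]
    refine sum_congr rfl fun v _ => ?_
    rw [card_filter, Nat.cast_sum]
  rw [e]
  calc ∑ v ∈ S, (((S.filter (fun v' : ℕ => |(v : ℝ) - v'| ≤ W)).card : ℕ) : ℝ)
      ≤ ∑ v ∈ S, (2 * W / m + 1) := by
        refine sum_le_sum fun v _ => ?_
        have := card_class_nat m hm (S.filter (fun v' : ℕ => |(v : ℝ) - v'| ≤ W)) (v - W) (v + W)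
          (by linarith) c (fun s hs => h1 s (mem_of_mem_filter s hs)) (fun s hs => by
            rw [mem_filter] at hs
            have := abs_le.mp hs.2
            constructor <;> linarith)
        calc (((S.filter (fun v' : ℕ => |(v : ℝ) - v'| ≤ W)).card : ℕ) : ℝ)
            ≤ (v + W - (v - W)) / m + 1 := this
          _ = 2 * W / m + 1 := by ring
    _ = (S.card : ℝ) * (2 * W / m + 1) := by rw [sum_const, nsmul_eq_mul]
    _ ≤ (L / m + 1) * (2 * W / m + 1) := by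
        apply mul_le_mul_of_nonneg_right _ (by positivity)
        calc (S.card : ℝ) ≤ (2 * L - L) / m + 1 := hS
          _ = L / m + 1 := by ring

/-- the count of `(v,v')` for one pair `h ≠ h'` -/
lemma off_one (d D H : ℕ) (hd : 1 ≤ d) (hH : 1 ≤ H) (h h' : ℕ) (hh : H < h) (hh' : H < h')
    (T : Finset ℕ) (c : ℕ) (L : ℝ) (hL : 0 ≤ L)
    (h1 : ∀ v ∈ T, v % (4 * d) = c) (h2 : ∀ v ∈ T, L ≤ (v : ℝ) ∧ (v : ℝ) ≤ 2 * L) :
    ((((T ×ˢ T).filter (fun t : ℕ × ℕ => |(h : ℝ) ^ 2 * t.1 - (h' : ℝ) ^ 2 * t.2|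
      ≤ 16 * D * d ^ 2 * H)).card : ℕ) : ℝ) ≤ 2 * D * L / H + 8 * D * d * H + L / (4 * d * (H : ℝ) ^ 2) * (Nat.gcd h h' : ℝ) ^ 2 + 1 := by
  set g := Nat.gcd h h' with hg
  have hg1 : 1 ≤ g := Nat.gcd_pos_of_pos_left _ (by omega)
  have hg0 : (0 : ℝ) < g := by exact_mod_cast hg1
  have hg1' : (1 : ℝ) ≤ g := by exact_mod_cast hg1
  have hd0 : (0 : ℝ) < d := by exact_mod_cast hd
  have hH0 : (0 : ℝ) < H := by exact_mod_cast hH
  have hD0 : (0 : ℝ) ≤ D := Nat.cast_nonneg D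
  obtain ⟨α, hα⟩ : g ∣ h := Nat.gcd_dvd_left h h'
  obtain ⟨β, hβ⟩ : g ∣ h' := Nat.gcd_dvd_right h h'
  have hcop : Nat.Coprime α β := by
    have : g * Nat.gcd α β = g := by
      rw [← Nat.gcd_mul_left, ← hα, ← hβ]
    have := Nat.eq_of_mul_eq_mul_left hg1 (this.trans (mul_one g).symm)
    exact this
  have hβ1 : 1 ≤ β := by
    rcases Nat.eq_zero_or_pos β with h0 | h0
    · rw [h0, mul_zero] at hβ; omega
    · exact h0
  have hβ0 : (0 : ℝ) < β := by exact_mod_cast hβ1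
  have hpc := pair_count (4 * d) (by omega) α β c hcop hβ1 T L hL (16 * D * d ^ 2 * H / (g : ℝ) ^ 2)
    (by positivity) h1 h2
  have hsub : ((T ×ˢ T).filter (fun t : ℕ × ℕ =>
        |(h : ℝ) ^ 2 * t.1 - (h' : ℝ) ^ 2 * t.2| ≤ 16 * D * d ^ 2 * H)).card ≤
      ((T ×ˢ T).filter (fun t : ℕ × ℕ => |(α : ℝ) ^ 2 * t.1 - (β : ℝ) ^ 2 * t.2| ≤
        16 * D * d ^ 2 * H / (g : ℝ) ^ 2)).card := by
    apply card_le_card
    intro t ht
    rw [mem_filter] at ht ⊢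
    refine ⟨ht.1, ?_⟩
    rw [le_div_iff₀ (by positivity)]
    have e : (h : ℝ) ^ 2 * t.1 - (h' : ℝ) ^ 2 * t.2 =
        ((α : ℝ) ^ 2 * t.1 - (β : ℝ) ^ 2 * t.2) * (g : ℝ) ^ 2 := by
      rw [hα, hβ]; push_cast; ring
    have := ht.2
    rw [e, abs_mul, abs_of_nonneg (by positivity : (0 : ℝ) ≤ (g : ℝ) ^ 2)] at this
    exact this
  have hbound : (2 * (16 * D * d ^ 2 * H / (g : ℝ) ^ 2) / ((4 * d : ℕ) : ℝ) + 1) *
      (L / (((4 * d : ℕ) : ℝ) * (β : ℝ) ^ 2) + 1) ≤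
      2 * D * L / H + 8 * D * d * H + L / (4 * d * (H : ℝ) ^ 2) * (g : ℝ) ^ 2 + 1 := by
    have hHβ : (H : ℝ) ≤ g * β := by
      have : H ≤ g * β := by omega
      exact_mod_cast this
    have e1 : 2 * (16 * D * (d : ℝ) ^ 2 * H / (g : ℝ) ^ 2) / ((4 * d : ℕ) : ℝ) =
        8 * D * d * H / (g : ℝ) ^ 2 := by push_cast; field_simp; ring
    have e2 : L / (((4 * d : ℕ) : ℝ) * (β : ℝ) ^ 2) ≤ L / (4 * d * (H : ℝ) ^ 2) * (g : ℝ) ^ 2 := by
      push_cast
      rw [div_mul_eq_mul_div, div_le_div_iff₀ (by positivity) (by positivity)]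
      have : (H : ℝ) ^ 2 ≤ (g * β) ^ 2 := pow_le_pow_left₀ hH0.le hHβ 2
      have h3 : 0 ≤ L * (4 * d) := by positivity
      nlinarith [mul_le_mul_of_nonneg_left this h3]
    have e3 : 8 * D * d * H / (g : ℝ) ^ 2 ≤ 8 * D * d * H := by
      apply div_le_self (by positivity)
      nlinarith
    have e4 : 8 * D * d * H / (g : ℝ) ^ 2 * (L / (4 * d * (H : ℝ) ^ 2) * (g : ℝ) ^ 2) = 2 * D * L / H := by
      field_simp; ring
    rw [e1]
    calc (8 * D * d * H / (g : ℝ) ^ 2 + 1) * (L / (((4 * d : ℕ) : ℝ) * (β : ℝ) ^ 2) + 1)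
        ≤ (8 * D * d * H / (g : ℝ) ^ 2 + 1) * (L / (4 * d * (H : ℝ) ^ 2) * (g : ℝ) ^ 2 + 1) := by
          apply mul_le_mul_of_nonneg_left _ (by positivity); linarith
      _ = 8 * D * d * H / (g : ℝ) ^ 2 * (L / (4 * d * (H : ℝ) ^ 2) * (g : ℝ) ^ 2)
          + 8 * D * d * H / (g : ℝ) ^ 2 + L / (4 * d * (H : ℝ) ^ 2) * (g : ℝ) ^ 2 + 1 := by ring
      _ ≤ _ := by rw [e4]; linarith
  calc ((((T ×ˢ T).filter (fun t : ℕ × ℕ =>
        |(h : ℝ) ^ 2 * t.1 - (h' : ℝ) ^ 2 * t.2| ≤ 16 * D * d ^ 2 * H)).card : ℕ) : ℝ)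
      ≤ (((T ×ˢ T).filter (fun t : ℕ × ℕ => |(α : ℝ) ^ 2 * t.1 - (β : ℝ) ^ 2 * t.2| ≤
        16 * D * d ^ 2 * H / (g : ℝ) ^ 2)).card : ℝ) := by exact_mod_cast hsub
    _ ≤ _ := hpc
    _ ≤ _ := hbound

/-- the count of `(v,v')` for `h = h'` -/
lemma diag_one (d D H : ℕ) (hd : 1 ≤ d) (hH : 1 ≤ H) (h : ℕ) (hh : H < h)
    (T : Finset ℕ) (c : ℕ) (L : ℝ) (hL : (4 * d : ℝ) ≤ L)
    (h1 : ∀ v ∈ T, v % (4 * d) = c) (h2 : ∀ v ∈ T, L ≤ (v : ℝ) ∧ (v : ℝ) ≤ 2 * L) :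
    ((((T ×ˢ T).filter (fun t : ℕ × ℕ => |(h : ℝ) ^ 2 * t.1 - (h : ℝ) ^ 2 * t.2|
      ≤ 16 * D * d ^ 2 * H)).card : ℕ) : ℝ) ≤ L / (2 * d) * (8 * D * d / H + 1) := by
  have hd0 : (0 : ℝ) < d := by exact_mod_cast hd
  have hH0 : (0 : ℝ) < H := by exact_mod_cast hH
  have hL0 : 0 ≤ L := by linarith
  have hcp := close_pairs (4 * d) (by omega) T c L (16 * D * d ^ 2 / H) hL0 (by positivity) h1 h2
  have hsub : ((T ×ˢ T).filter (fun t : ℕ × ℕ =>
        |(h : ℝ) ^ 2 * t.1 - (h : ℝ) ^ 2 * t.2| ≤ 16 * D * d ^ 2 * H)).card ≤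
      ((T ×ˢ T).filter (fun t : ℕ × ℕ => |(t.1 : ℝ) - t.2| ≤ 16 * D * d ^ 2 / H)).card := by
    apply card_le_card
    intro t ht
    rw [mem_filter] at ht ⊢
    refine ⟨ht.1, ?_⟩
    rw [le_div_iff₀ hH0]
    have e : (h : ℝ) ^ 2 * t.1 - (h : ℝ) ^ 2 * t.2 = ((t.1 : ℝ) - t.2) * (h : ℝ) ^ 2 := by ring
    have h3 := ht.2
    rw [e, abs_mul, abs_of_nonneg (by positivity : (0 : ℝ) ≤ (h : ℝ) ^ 2)] at h3
    have hHh : (H : ℝ) ≤ h := by exact_mod_cast hh.le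
    have h4 : (H : ℝ) ^ 2 ≤ (h : ℝ) ^ 2 := pow_le_pow_left₀ hH0.le hHh 2
    have h5 : |(t.1 : ℝ) - t.2| * (H : ℝ) ^ 2 ≤ 16 * D * d ^ 2 * H :=
      (mul_le_mul_of_nonneg_left h4 (abs_nonneg _)).trans h3
    have h6 : |(t.1 : ℝ) - t.2| * H * H ≤ 16 * D * d ^ 2 * H := by nlinarith
    exact le_of_mul_le_mul_right h6 hH0
  calc ((((T ×ˢ T).filter (fun t : ℕ × ℕ =>
        |(h : ℝ) ^ 2 * t.1 - (h : ℝ) ^ 2 * t.2| ≤ 16 * D * d ^ 2 * H)).card : ℕ) : ℝ)
      ≤ (((T ×ˢ T).filter (fun t : ℕ × ℕ => |(t.1 : ℝ) - t.2| ≤ 16 * D * d ^ 2 / H)).card : ℝ) := by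
        exact_mod_cast hsub
    _ ≤ (L / ((4 * d : ℕ) : ℝ) + 1) * (2 * (16 * D * d ^ 2 / H) / ((4 * d : ℕ) : ℝ) + 1) := hcp
    _ ≤ L / (2 * d) * (8 * D * d / H + 1) := by
        have e1 : 2 * (16 * D * (d : ℝ) ^ 2 / H) / ((4 * d : ℕ) : ℝ) = 8 * D * d / H := by
          push_cast; field_simp; ring
        have e2 : L / ((4 * d : ℕ) : ℝ) + 1 ≤ L / (2 * d) := by
          push_cast
          have : 1 ≤ L / (4 * d) := by rw [le_div_iff₀ (by positivity)]; linarith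
          have e3 : L / (2 * d) = L / (4 * d) + L / (4 * d) := by field_simp; ring
          linarith
        rw [e1]
        exact mul_le_mul_of_nonneg_right e2 (by positivity)

/-- sum of `gcd(h,h')²` over pairs of different elements of a class modulo `q` -/
lemma gcd_pairs (H q : ℕ) (hq : 1 ≤ q) (hqH : q < H) (I : Finset ℕ) (h0 : ℕ)
    (hI : ∀ h ∈ I, h ∈ Ioc H (2 * H) ∧ h % q = h0) (τ : ℝ) (hτ : ∀ k : ℕ, 1 ≤ k → k < H →
      (k.divisors.card : ℝ) ≤ τ) :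
    ∑ h ∈ I, ∑ h' ∈ I.filter (fun h' => h' ≠ h), (Nat.gcd h h' : ℝ) ^ 2 ≤ 4 * (H : ℝ) ^ 3 * τ / q := by
  have hq0 : (0 : ℝ) < q := by exact_mod_cast hq
  have hH0 : (0 : ℝ) < H := by exact_mod_cast (by omega : 0 < H)
  have hτ0 : 0 ≤ τ := le_trans (Nat.cast_nonneg _) (hτ 1 le_rfl (by omega))
  have hgd : ∀ h ∈ I, ∀ h' ∈ I, Nat.gcd h h' = Nat.gcd h (Nat.dist h h') := by
    intro h _ h' _
    unfold Nat.dist
    rcases le_total h h' with hle | hle
    · rw [Nat.sub_eq_zero_of_le hle, zero_add]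
      conv_lhs => rw [← Nat.sub_add_cancel hle]
      simp
    · rw [Nat.sub_eq_zero_of_le hle, add_zero, Nat.gcd_comm h h', Nat.gcd_comm h (h - h')]
      obtain ⟨j, rfl⟩ := Nat.exists_eq_add_of_le hle
      have e1 : h' + j - h' = j := by omega
      rw [e1]
      rw [Nat.gcd_self_add_right, Nat.gcd_comm h' j, Nat.gcd_add_self_right]
  have h1 : ∑ h ∈ I, ∑ h' ∈ I.filter (fun h' => h' ≠ h), (Nat.gcd h h' : ℝ) ^ 2 =
      ∑ h ∈ I, ∑ h' ∈ I.filter (fun h' => h' ≠ h), (fun a k : ℕ => (Nat.gcd a k : ℝ) ^ 2) h (Nat.dist h h') := by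
    refine sum_congr rfl fun h hh => sum_congr rfl fun h' hh' => ?_
    rw [hgd h hh h' (mem_of_mem_filter h' hh')]
  rw [h1]
  refine (pair_dist H q I h0 hI (fun a k : ℕ => (Nat.gcd a k : ℝ) ^ 2) (fun _ _ => by positivity)).trans ?_
  rw [sum_comm]
  have h2 : ∀ k ∈ (Ico 1 H).filter (fun k => q ∣ k), ∑ h ∈ I, (Nat.gcd h k : ℝ) ^ 2 ≤ 2 * (H : ℝ) ^ 2 * τ := by
    intro k hk
    rw [mem_filter, mem_Ico] at hk
    calc ∑ h ∈ I, (Nat.gcd h k : ℝ) ^ 2 ≤ ∑ h ∈ Ioc H (2 * H), (Nat.gcd h k : ℝ) ^ 2 :=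
          sum_le_sum_of_subset_of_nonneg (fun h hh => (hI h hh).1) (fun _ _ _ => by positivity)
      _ ≤ 2 * (H : ℝ) ^ 2 * (k.divisors.card : ℝ) := gcd_sum H k hk.1.1 hk.1.2
      _ ≤ 2 * (H : ℝ) ^ 2 * τ := mul_le_mul_of_nonneg_left (hτ k hk.1.1 hk.1.2) (by positivity)
  have h3 : (((Ico 1 H).filter (fun k => q ∣ k)).card : ℝ) ≤ H / q := by
    have := card_class_nat q hq ((Ico 1 H).filter (fun k => q ∣ k)) q H (by exact_mod_cast hqH.le) 0
      (fun s hs => by rw [mem_filter] at hs; exact Nat.mod_eq_zero_of_dvd hs.2) (fun s hs => by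
        rw [mem_filter, mem_Ico] at hs
        constructor
        · exact_mod_cast Nat.le_of_dvd (by omega) hs.2
        · exact_mod_cast hs.1.2.le)
    calc _ ≤ ((H : ℝ) - q) / q + 1 := this
      _ = H / q := by field_simp; ring
  calc 2 * ∑ k ∈ (Ico 1 H).filter (fun k => q ∣ k), ∑ h ∈ I, (Nat.gcd h k : ℝ) ^ 2
      ≤ 2 * ∑ k ∈ (Ico 1 H).filter (fun k => q ∣ k), 2 * (H : ℝ) ^ 2 * τ :=
        mul_le_mul_of_nonneg_left (sum_le_sum h2) (by norm_num)
    _ = 4 * (H : ℝ) ^ 2 * τ * (((Ico 1 H).filter (fun k => q ∣ k)).card : ℝ) := by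
        rw [sum_const, nsmul_eq_mul]; ring
    _ ≤ 4 * (H : ℝ) ^ 2 * τ * (H / q) := mul_le_mul_of_nonneg_left h3 (by positivity)
    _ = 4 * (H : ℝ) ^ 3 * τ / q := by ring

/-- the second count for `q = 2Dd < H` -/
lemma count_large (d D H : ℕ) (hd : 1 ≤ d) (hD : 1 ≤ D) (hqH : 2 * D * d < H) (I : Finset ℕ) (h0 : ℕ)
    (hI : ∀ h ∈ I, h ∈ Ioc H (2 * H) ∧ h % (2 * D * d) = h0) (T : Finset ℕ) (c : ℕ) (L : ℝ)
    (hL : (4 * d : ℝ) ≤ L)
    (h1 : ∀ v ∈ T, v % (4 * d) = c) (h2 : ∀ v ∈ T, L ≤ (v : ℝ) ∧ (v : ℝ) ≤ 2 * L) (τ : ℝ)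
    (hτ1 : 1 ≤ τ) (hτ : ∀ k : ℕ, 1 ≤ k → k < H → (k.divisors.card : ℝ) ≤ τ) :
    ∑ h ∈ I, ∑ h' ∈ I, ((((T ×ˢ T).filter (fun t : ℕ × ℕ =>
      |(h : ℝ) ^ 2 * t.1 - (h' : ℝ) ^ 2 * t.2| ≤ 16 * D * d ^ 2 * H)).card : ℕ) : ℝ)
    ≤ 9 * τ * (L * H / d ^ 2 + (H : ℝ) ^ 3 / d) := by
  have hd0 : (0 : ℝ) < d := by exact_mod_cast hd
  have hd1 : (1 : ℝ) ≤ d := by exact_mod_cast hd
  have hD0 : (0 : ℝ) < D := by exact_mod_cast hD
  have hD1 : (1 : ℝ) ≤ D := by exact_mod_cast hD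
  have hH1 : 1 ≤ H := by omega
  have hH0 : (0 : ℝ) < H := by exact_mod_cast hH1
  have hH1' : (1 : ℝ) ≤ H := by exact_mod_cast hH1
  have hL0 : 0 < L := by linarith
  have hqr : (2 * D * d : ℝ) ≤ H := by exact_mod_cast hqH.le
  have hq1 : 1 ≤ 2 * D * d := Nat.mul_pos (Nat.mul_pos two_pos hD) hd
  have hIc : (I.card : ℝ) ≤ H / (D * d) := by
    have := card_class_nat (2 * D * d) hq1 I H (2 * H) (by linarith) h0 (fun s hs => (hI s hs).2)
      (fun s hs => by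
        have := (hI s hs).1
        rw [mem_Ioc] at this
        constructor
        · exact_mod_cast this.1.le
        · exact_mod_cast this.2)
    have e : ((2 * H : ℝ) - H) / ((2 * D * d : ℕ) : ℝ) = H / (2 * D * d) := by push_cast; ring
    rw [e] at this
    have h3 : (1 : ℝ) ≤ H / (2 * D * d) := by rw [le_div_iff₀ (by positivity)]; linarith
    have h4 : H / (D * d : ℝ) = H / (2 * D * d) + H / (2 * D * d) := by field_simp; ring
    linarith
  set N : ℕ → ℕ → ℝ := fun h h' => ((((T ×ˢ T).filter (fun t : ℕ × ℕ =>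
      |(h : ℝ) ^ 2 * t.1 - (h' : ℝ) ^ 2 * t.2| ≤ 16 * D * d ^ 2 * H)).card : ℕ) : ℝ) with hN
  have hsplit : ∑ h ∈ I, ∑ h' ∈ I, N h h' =
      ∑ h ∈ I, N h h + ∑ h ∈ I, ∑ h' ∈ I.filter (fun h' => h' ≠ h), N h h' := by
    rw [← sum_add_distrib]
    refine sum_congr rfl fun h hh => ?_
    rw [filter_ne', add_sum_erase _ _ hh]
  have hdiag : ∑ h ∈ I, N h h ≤ 3 * (L * H / d ^ 2) := by
    calc ∑ h ∈ I, N h h ≤ ∑ h ∈ I, L / (2 * d) * (8 * D * d / H + 1) := by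
          refine sum_le_sum fun h hh => ?_
          have := (hI h hh).1
          rw [mem_Ioc] at this
          exact diag_one d D H hd hH1 h this.1 T c L hL h1 h2
      _ = (I.card : ℝ) * (L / (2 * d) * (8 * D * d / H + 1)) := by rw [sum_const, nsmul_eq_mul]
      _ ≤ H / (D * d) * (L / (2 * d) * 5) := by
          have h3 : 8 * D * d / H ≤ (4 : ℝ) := by rw [div_le_iff₀ hH0]; linarith
          apply mul_le_mul hIc _ (by positivity) (by positivity)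
          apply mul_le_mul_of_nonneg_left _ (by positivity)
          linarith
      _ ≤ 3 * (L * H / d ^ 2) := by
          have : H / (D * d) * (L / (2 * d) * 5) = (5 / 2 : ℝ) / D * (L * H / d ^ 2) := by
            field_simp
          rw [this]
          apply mul_le_mul_of_nonneg_right _ (by positivity)
          rw [div_le_iff₀ hD0]; linarith
  have hoff : ∑ h ∈ I, ∑ h' ∈ I.filter (fun h' => h' ≠ h), N h h' ≤
      (H / (D * d)) ^ 2 * (2 * D * L / H + 8 * D * d * H + 1) +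
        L / (4 * d * (H : ℝ) ^ 2) * (4 * (H : ℝ) ^ 3 * τ / (2 * D * d)) := by
    have h3 : ∑ h ∈ I, ∑ h' ∈ I.filter (fun h' => h' ≠ h), N h h' ≤
        ∑ h ∈ I, ∑ h' ∈ I.filter (fun h' => h' ≠ h), ((2 * D * L / H + 8 * D * d * H + 1)
          + L / (4 * d * (H : ℝ) ^ 2) * (Nat.gcd h h' : ℝ) ^ 2) := by
      refine sum_le_sum fun h hh => sum_le_sum fun h' hh' => ?_
      have a1 := (hI h hh).1
      have a2 := (hI h' (mem_of_mem_filter h' hh')).1
      rw [mem_Ioc] at a1 a2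
      have := off_one d D H hd hH1 h h' a1.1 a2.1 T c L hL0.le h1 h2
      simp only [hN]
      linarith
    refine h3.trans ?_
    have hg := gcd_pairs H (2 * D * d) hq1 hqH I h0 hI τ hτ
    have e : ((2 * D * d : ℕ) : ℝ) = 2 * D * d := by push_cast; ring
    rw [e] at hg
    have hK0 : 0 ≤ 2 * D * L / H + 8 * D * d * H + 1 := by positivity
    generalize 2 * (D : ℝ) * L / H + 8 * D * d * H + 1 = K at hK0 ⊢
    have hM0 : 0 ≤ L / (4 * d * (H : ℝ) ^ 2) := by positivity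
    generalize L / (4 * d * (H : ℝ) ^ 2) = M at hM0 ⊢
    have e2 : ∑ h ∈ I, ∑ h' ∈ I.filter (fun h' => h' ≠ h), (K + M * (Nat.gcd h h' : ℝ) ^ 2) =
        ∑ h ∈ I, ∑ h' ∈ I.filter (fun h' => h' ≠ h), K
          + M * ∑ h ∈ I, ∑ h' ∈ I.filter (fun h' => h' ≠ h), (Nat.gcd h h' : ℝ) ^ 2 := by
      rw [mul_sum, ← sum_add_distrib]
      refine sum_congr rfl fun h _ => ?_
      rw [sum_add_distrib, mul_sum]
    rw [e2]
    apply add_le_add
    · calc ∑ h ∈ I, ∑ h' ∈ I.filter (fun h' => h' ≠ h), K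
          ≤ ∑ h ∈ I, ∑ h' ∈ I, K :=
            sum_le_sum fun h _ => sum_le_sum_of_subset_of_nonneg (filter_subset _ _)
              (fun _ _ _ => hK0)
        _ = (I.card : ℝ) ^ 2 * K := by
            rw [sum_const, sum_const, nsmul_eq_mul, nsmul_eq_mul]; ring
        _ ≤ (H / (D * d)) ^ 2 * K :=
            mul_le_mul_of_nonneg_right (pow_le_pow_left₀ (Nat.cast_nonneg _) hIc 2) hK0
    · exact mul_le_mul_of_nonneg_left hg hM0
  have hLH : 0 ≤ L * H / d ^ 2 := by positivity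
  have hHd : 0 ≤ (H : ℝ) ^ 3 / d := by positivity
  have hfin : (H / (D * d)) ^ 2 * (2 * D * L / H + 8 * D * d * H + 1) +
        L / (4 * d * (H : ℝ) ^ 2) * (4 * (H : ℝ) ^ 3 * τ / (2 * D * d)) ≤
      2 * (L * H / d ^ 2) + 9 * ((H : ℝ) ^ 3 / d) + τ * (L * H / d ^ 2) := by
    have b1 : (H / (D * d : ℝ)) ^ 2 * (2 * D * L / H) = 2 / D * (L * H / d ^ 2) := by field_simp
    have b2 : (H / (D * d : ℝ)) ^ 2 * (8 * D * d * H) = 8 / D * ((H : ℝ) ^ 3 / d) := by field_simp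
    have b3 : (H / (D * d : ℝ)) ^ 2 * 1 ≤ (H : ℝ) ^ 3 / d := by
      rw [mul_one, div_pow, div_le_div_iff₀ (by positivity) hd0]
      have c1 : (H : ℝ) ^ 2 * d ≤ (H : ℝ) ^ 3 * (d : ℝ) ^ 2 := by
        have : (H : ℝ) ^ 2 * d * 1 ≤ (H : ℝ) ^ 2 * d * (H * d) := by
          apply mul_le_mul_of_nonneg_left _ (by positivity)
          nlinarith
        nlinarith
      have c2 : (H : ℝ) ^ 3 * (d : ℝ) ^ 2 ≤ (H : ℝ) ^ 3 * (D * d) ^ 2 := by
        apply mul_le_mul_of_nonneg_left _ (by positivity)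
        apply pow_le_pow_left₀ hd0.le
        nlinarith
      linarith
    have b4 : L / (4 * d * (H : ℝ) ^ 2) * (4 * (H : ℝ) ^ 3 * τ / (2 * D * d)) =
        1 / (2 * D) * (τ * (L * H / d ^ 2)) := by field_simp
    have b5 : (2 : ℝ) / D * (L * H / d ^ 2) ≤ 2 * (L * H / d ^ 2) := by
      apply mul_le_mul_of_nonneg_right _ hLH
      rw [div_le_iff₀ hD0]; linarith
    have b6 : (8 : ℝ) / D * ((H : ℝ) ^ 3 / d) ≤ 8 * ((H : ℝ) ^ 3 / d) := by
      apply mul_le_mul_of_nonneg_right _ hHd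
      rw [div_le_iff₀ hD0]; linarith
    have b7 : 1 / (2 * D : ℝ) * (τ * (L * H / d ^ 2)) ≤ 1 * (τ * (L * H / d ^ 2)) := by
      apply mul_le_mul_of_nonneg_right _ (by positivity)
      rw [div_le_iff₀ (by positivity)]; linarith
    rw [mul_add, mul_add, b1, b2, b4]
    linarith
  have hτLH : L * H / d ^ 2 ≤ τ * (L * H / d ^ 2) := by nlinarith
  have hτHd : (H : ℝ) ^ 3 / d ≤ τ * ((H : ℝ) ^ 3 / d) := by nlinarith
  calc ∑ h ∈ I, ∑ h' ∈ I, N h h' ≤ 3 * (L * H / d ^ 2)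
      + (2 * (L * H / d ^ 2) + 9 * ((H : ℝ) ^ 3 / d) + τ * (L * H / d ^ 2)) := by
        rw [hsplit]; linarith
    _ ≤ 9 * τ * (L * H / d ^ 2 + (H : ℝ) ^ 3 / d) := by nlinarith

/-- the second count for `H ≤ q = 2Dd` -/
lemma count_small (d D H : ℕ) (hd : 1 ≤ d) (hH : 1 ≤ H) (hqH : H ≤ 2 * D * d) (I : Finset ℕ) (h0 : ℕ)
    (hI : ∀ h ∈ I, h ∈ Ioc H (2 * H) ∧ h % (2 * D * d) = h0) (T : Finset ℕ) (c : ℕ) (L : ℝ)
    (hL : (4 * d : ℝ) ≤ L)
    (h1 : ∀ v ∈ T, v % (4 * d) = c) (h2 : ∀ v ∈ T, L ≤ (v : ℝ) ∧ (v : ℝ) ≤ 2 * L) :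
    ∑ h ∈ I, ∑ h' ∈ I, ((((T ×ˢ T).filter (fun t : ℕ × ℕ =>
      |(h : ℝ) ^ 2 * t.1 - (h' : ℝ) ^ 2 * t.2| ≤ 16 * D * d ^ 2 * H)).card : ℕ) : ℝ)
    ≤ 5 * D * L / H := by
  have hd0 : (0 : ℝ) < d := by exact_mod_cast hd
  have hH0 : (0 : ℝ) < H := by exact_mod_cast hH
  have hL0 : 0 < L := by linarith
  have huniq : ∀ a ∈ I, ∀ b ∈ I, a = b := by
    intro a ha b hb
    have a1 := hI a ha
    have b1 := hI b hb
    rw [mem_Ioc] at a1 b1
    by_contra hne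
    rcases lt_or_gt_of_ne hne with h3 | h3
    · have : a ≡ b [MOD (2 * D * d)] := by unfold Nat.ModEq; omega
      have := (Nat.modEq_iff_dvd' h3.le).mp this
      have := Nat.le_of_dvd (by omega) this
      omega
    · have : b ≡ a [MOD (2 * D * d)] := by unfold Nat.ModEq; omega
      have := (Nat.modEq_iff_dvd' h3.le).mp this
      have := Nat.le_of_dvd (by omega) this
      omega
  rcases I.eq_empty_or_nonempty with rfl | ⟨a, ha⟩
  · simp only [sum_empty]; positivity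
  · have hIa : I = {a} := by
      ext b
      rw [mem_singleton]
      exact ⟨fun hb => huniq b hb a ha, fun hb => hb ▸ ha⟩
    rw [hIa]
    simp only [sum_singleton]
    have a1 := (hI a ha).1
    rw [mem_Ioc] at a1
    refine (diag_one d D H hd hH a a1.1 T c L hL h1 h2).trans ?_
    have hqr : (H : ℝ) ≤ 2 * D * d := by exact_mod_cast hqH
    have h3 : (1 : ℝ) ≤ 2 * D * d / H := by rw [le_div_iff₀ hH0]; linarith
    have h4 : 5 * D * L / H = L / (2 * d) * (8 * D * d / H + 2 * D * d / H) := by field_simp; ring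
    rw [h4]
    apply mul_le_mul_of_nonneg_left _ (by positivity)
    linarith

/-- the exponential splits -/
lemma exp_split (d D h u v cc h0 : ℕ) (hd : 1 ≤ d) (hD : 1 ≤ D) (hu : u % (4 * d) = cc)
    (hh : h % (2 * D * d) = h0) :
    Complex.exp (2 * Real.pi * Complex.I *
        (((h : ℝ) * (√(v : ℝ) - √(u : ℝ)) ^ 2 / (8 * D * (d : ℝ) ^ 2) : ℝ) : ℂ)) =
      Complex.exp (2 * Real.pi * Complex.I * (((h0 : ℝ) * (u / (4 * d) : ℕ) / (2 * D * d) : ℝ) : ℂ)) *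
      Complex.exp (2 * Real.pi * Complex.I * (((h : ℝ) * ((cc : ℝ) + v) / (8 * D * (d : ℝ) ^ 2) : ℝ) : ℂ)) *
      Complex.exp (2 * Real.pi * Complex.I *
        ((√(u : ℝ) * (-((h : ℝ) * √(v : ℝ) / (4 * D * (d : ℝ) ^ 2))) : ℝ) : ℂ)) := by
  have hd0 : (0 : ℝ) < d := by exact_mod_cast hd
  have hD0 : (0 : ℝ) < D := by exact_mod_cast hD
  rw [← Complex.exp_add, ← Complex.exp_add, ← mul_add, ← mul_add]
  have key : ((h : ℝ) * (√(v : ℝ) - √(u : ℝ)) ^ 2 / (8 * D * (d : ℝ) ^ 2)) =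
      ((h0 : ℝ) * (u / (4 * d) : ℕ) / (2 * D * d) + (h : ℝ) * ((cc : ℝ) + v) / (8 * D * (d : ℝ) ^ 2)
        + √(u : ℝ) * (-((h : ℝ) * √(v : ℝ) / (4 * D * (d : ℝ) ^ 2))))
        + (((h / (2 * D * d)) * (u / (4 * d)) : ℕ) : ℝ) := by
    have e1 : (√(v : ℝ) - √(u : ℝ)) ^ 2 = v + u - 2 * (√(v : ℝ) * √(u : ℝ)) := by
      have a1 := Real.sq_sqrt (Nat.cast_nonneg (α := ℝ) v)
      have a2 := Real.sq_sqrt (Nat.cast_nonneg (α := ℝ) u)
      nlinarith
    have e2 : (u : ℝ) = cc + 4 * d * ((u / (4 * d) : ℕ) : ℝ) := by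
      have := Nat.mod_add_div u (4 * d)
      rw [hu] at this
      have h3 : ((cc + 4 * d * (u / (4 * d)) : ℕ) : ℝ) = (u : ℝ) := by exact_mod_cast this
      push_cast at h3 ⊢
      linarith
    have e3 : (h : ℝ) = h0 + 2 * D * d * ((h / (2 * D * d) : ℕ) : ℝ) := by
      have := Nat.mod_add_div h (2 * D * d)
      rw [hh] at this
      have h3 : ((h0 + 2 * D * d * (h / (2 * D * d)) : ℕ) : ℝ) = (h : ℝ) := by exact_mod_cast this
      push_cast at h3 ⊢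
      linarith
    rw [e1]
    generalize √(v : ℝ) = sv
    generalize √(u : ℝ) = su
    generalize hu1 : ((u / (4 * d) : ℕ) : ℝ) = u1 at e2 ⊢
    generalize hh1 : ((h / (2 * D * d) : ℕ) : ℝ) = h1 at e3
    push_cast
    rw [hu1, hh1]
    have e4 : (h0 : ℝ) = h - 2 * D * d * h1 := by linarith
    have e5 : (cc : ℝ) = u - 4 * d * u1 := by linarith
    rw [e4, e5]
    field_simp
    ring
  rw [key]
  push_cast
  rw [mul_add (2 * (Real.pi : ℂ) * Complex.I), Complex.exp_add]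
  have hint : Complex.exp (2 * (Real.pi : ℂ) * Complex.I *
      (((h / (2 * D * d) : ℕ) : ℂ) * ((u / (4 * d) : ℕ) : ℂ))) = 1 := by
    have := Complex.exp_nat_mul_two_pi_mul_I ((h / (2 * D * d)) * (u / (4 * d)))
    rw [← this]
    congr 1
    push_cast
    ring
  rw [hint, mul_one]

lemma norm_e (t : ℝ) : ‖Complex.exp (2 * Real.pi * Complex.I * (t : ℂ))‖ = 1 := by
  have : 2 * (Real.pi : ℂ) * Complex.I * (t : ℂ) = ((2 * Real.pi * t : ℝ) : ℂ) * Complex.I := by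
    push_cast; ring
  rw [this, Complex.norm_exp_ofReal_mul_I]

lemma block (C0 : ℝ) (hC0 : 0 < C0) (hdls : ∀ (S : Finset ℕ) (P : Finset (ℕ × ℕ)) (x : ℕ → ℝ)
    (y : ℕ × ℕ → ℝ) (b : ℕ → ℂ) (c : ℕ × ℕ → ℂ) (X Y : ℝ),
    0 < X → 0 < Y → (∀ i ∈ S, |x i| ≤ X) → (∀ j ∈ P, |y j| ≤ Y) → (∀ i, ‖b i‖ ≤ 1) → (∀ j, ‖c j‖ ≤ 1) →
    ‖∑ i ∈ S, ∑ j ∈ P, b i * c j * Complex.exp (2 * Real.pi * Complex.I * ((x i * y j : ℝ) : ℂ))‖ ^ 2
    ≤ C0 * (1 + X * Y) * (((S ×ˢ S).filter (fun t => |x t.1 - x t.2| ≤ 1 / Y)).card : ℝ)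
      * (((P ×ˢ P).filter (fun t => |y t.1 - y t.2| ≤ 1 / X)).card : ℝ))
    (L : ℝ) (d D H : ℕ) (S T I : Finset ℕ) (b c w : ℕ → ℂ) (cc h0 : ℕ)
    (hd : 1 ≤ d) (hD : 1 ≤ D) (hH : 1 ≤ H) (hL : (16 * d ^ 2 : ℝ) ≤ L)
    (hS : ∀ u ∈ S, L ≤ (u : ℝ) ∧ (u : ℝ) ≤ 2 * L) (hT : ∀ v ∈ T, L ≤ (v : ℝ) ∧ (v : ℝ) ≤ 2 * L)
    (hSc : ∀ u ∈ S, u % (4 * d) = cc) (hI : ∀ h ∈ I, h ∈ Ioc H (2 * H) ∧ h % (2 * D * d) = h0)
    (hb : ∀ u, ‖b u‖ ≤ 1) (hc : ∀ v, ‖c v‖ ≤ 1) (hw : ∀ h, ‖w h‖ ≤ 1) :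
    ‖∑ h ∈ I, ∑ u ∈ S, ∑ v ∈ T, w h * b u * c v * Complex.exp (2 * Real.pi * Complex.I *
        (((h : ℝ) * (√(v : ℝ) - √(u : ℝ)) ^ 2 / (8 * D * (d : ℝ) ^ 2) : ℝ) : ℂ))‖ ^ 2 ≤
      C0 * (2 * H * L / d ^ 2) * (L / (2 * d) * (2 * D * d / H + 1)) *
      ∑ h ∈ I, ∑ h' ∈ I, ((((T ×ˢ T).filter (fun t : ℕ × ℕ =>
        |(h : ℝ) ^ 2 * t.1 - (h' : ℝ) ^ 2 * t.2| ≤ 16 * D * d ^ 2 * H)).card : ℕ) : ℝ) := by
  have hd0 : (0 : ℝ) < d := by exact_mod_cast hd
  have hd1 : (1 : ℝ) ≤ d := by exact_mod_cast hd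
  have hD0 : (0 : ℝ) < D := by exact_mod_cast hD
  have hD1 : (1 : ℝ) ≤ D := by exact_mod_cast hD
  have hH0 : (0 : ℝ) < H := by exact_mod_cast hH
  have hH1 : (1 : ℝ) ≤ H := by exact_mod_cast hH
  have hL4 : (4 * d : ℝ) ≤ L := by nlinarith
  have hL0 : 0 < L := by linarith
  have hsq2 : √(2 * L) ^ 2 = 2 * L := Real.sq_sqrt (by linarith)
  have hs0 : 0 < √(2 * L) := Real.sqrt_pos.mpr (by linarith)
  set X : ℝ := √(2 * L) with hX
  set Y : ℝ := H * X / (2 * D * d ^ 2) with hY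
  have hY0 : 0 < Y := by positivity
  set y : ℕ × ℕ → ℝ := fun p => -((p.1 : ℝ) * √(p.2 : ℝ) / (4 * D * (d : ℝ) ^ 2)) with hy
  have hsqle : ∀ v : ℕ, (v : ℝ) ≤ 2 * L → √(v : ℝ) ≤ X := fun v hv => Real.sqrt_le_sqrt hv
  have hkey := hdls S (I ×ˢ T) (fun u => √(u : ℝ)) y
    (fun u => b u * Complex.exp (2 * Real.pi * Complex.I * (((h0 : ℝ) * (u / (4 * d) : ℕ) / (2 * D * d) : ℝ) : ℂ)))
    (fun p => w p.1 * c p.2 *
      Complex.exp (2 * Real.pi * Complex.I * (((p.1 : ℝ) * ((cc : ℝ) + p.2) / (8 * D * (d : ℝ) ^ 2) : ℝ) : ℂ)))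
    X Y hs0 hY0 ?_ ?_ ?_ ?_
  · have hLHS : ∑ h ∈ I, ∑ u ∈ S, ∑ v ∈ T, w h * b u * c v * Complex.exp (2 * Real.pi * Complex.I *
        (((h : ℝ) * (√(v : ℝ) - √(u : ℝ)) ^ 2 / (8 * D * (d : ℝ) ^ 2) : ℝ) : ℂ)) =
        ∑ i ∈ S, ∑ j ∈ I ×ˢ T, (b i * Complex.exp (2 * Real.pi * Complex.I *
          (((h0 : ℝ) * (i / (4 * d) : ℕ) / (2 * D * d) : ℝ) : ℂ))) *
          (w j.1 * c j.2 * Complex.exp (2 * Real.pi * Complex.I *
            (((j.1 : ℝ) * ((cc : ℝ) + j.2) / (8 * D * (d : ℝ) ^ 2) : ℝ) : ℂ))) *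
          Complex.exp (2 * Real.pi * Complex.I * ((√(i : ℝ) * y j : ℝ) : ℂ)) := by
      rw [sum_comm]
      refine sum_congr rfl fun u hu => ?_
      rw [sum_product]
      refine sum_congr rfl fun h hh => sum_congr rfl fun v _ => ?_
      rw [exp_split d D h u v cc h0 hd hD (hSc u hu) (hI h hh).2]
      simp only [hy]
      ring
    rw [hLHS]
    refine hkey.trans ?_
    have hB1 : (((S ×ˢ S).filter (fun t : ℕ × ℕ => |√(t.1 : ℝ) - √(t.2 : ℝ)| ≤ 1 / Y)).card : ℝ) ≤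
        L / (2 * d) * (2 * D * d / H + 1) := by
      have hcp := close_pairs (4 * d) (by omega) S cc L (4 * D * d ^ 2 / H) hL0.le (by positivity) hSc hS
      have hsub : ((S ×ˢ S).filter (fun t : ℕ × ℕ => |√(t.1 : ℝ) - √(t.2 : ℝ)| ≤ 1 / Y)).card ≤
          ((S ×ˢ S).filter (fun t : ℕ × ℕ => |(t.1 : ℝ) - t.2| ≤ 4 * D * d ^ 2 / H)).card := by
        apply card_le_card
        intro t ht
        rw [mem_filter, mem_product] at ht
        rw [mem_filter, mem_product]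
        refine ⟨ht.1, ?_⟩
        have a1 := hsqle t.1 (hS t.1 ht.1.1).2
        have a2 := hsqle t.2 (hS t.2 ht.1.2).2
        have a3 := Real.sqrt_nonneg (t.1 : ℝ)
        have a4 := Real.sqrt_nonneg (t.2 : ℝ)
        have e : (t.1 : ℝ) - t.2 = (√(t.1 : ℝ) - √(t.2 : ℝ)) * (√(t.1 : ℝ) + √(t.2 : ℝ)) := by
          have b1 := Real.sq_sqrt (Nat.cast_nonneg (α := ℝ) t.1)
          have b2 := Real.sq_sqrt (Nat.cast_nonneg (α := ℝ) t.2)
          nlinarith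
        rw [e, abs_mul, abs_of_nonneg (by linarith : 0 ≤ √(t.1 : ℝ) + √(t.2 : ℝ))]
        calc |√(t.1 : ℝ) - √(t.2 : ℝ)| * (√(t.1 : ℝ) + √(t.2 : ℝ)) ≤ 1 / Y * (2 * X) :=
              mul_le_mul ht.2 (by linarith) (by linarith) (by positivity)
          _ = 4 * D * d ^ 2 / H := by rw [hY]; field_simp; ring
      calc (((S ×ˢ S).filter (fun t : ℕ × ℕ => |√(t.1 : ℝ) - √(t.2 : ℝ)| ≤ 1 / Y)).card : ℝ)
          ≤ (((S ×ˢ S).filter (fun t : ℕ × ℕ => |(t.1 : ℝ) - t.2| ≤ 4 * D * d ^ 2 / H)).card : ℝ) := by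
            exact_mod_cast hsub
        _ ≤ (L / ((4 * d : ℕ) : ℝ) + 1) * (2 * (4 * D * d ^ 2 / H) / ((4 * d : ℕ) : ℝ) + 1) := hcp
        _ ≤ L / (2 * d) * (2 * D * d / H + 1) := by
            have e1 : 2 * (4 * D * (d : ℝ) ^ 2 / H) / ((4 * d : ℕ) : ℝ) = 2 * D * d / H := by
              push_cast; field_simp
            have e2 : L / ((4 * d : ℕ) : ℝ) + 1 ≤ L / (2 * d) := by
              push_cast
              have : 1 ≤ L / (4 * d) := by rw [le_div_iff₀ (by positivity)]; linarith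
              have e3 : L / (2 * d) = L / (4 * d) + L / (4 * d) := by field_simp; ring
              linarith
            rw [e1]
            exact mul_le_mul_of_nonneg_right e2 (by positivity)
    have hB2 := card_pairs I T y X (16 * D * d ^ 2 * H) (by
      intro h hh h' hh' v hv v' hv' hle
      have b1 := (hI h hh).1
      have b2 := (hI h' hh').1
      rw [mem_Ioc] at b1 b2
      have c1 : (h : ℝ) ≤ 2 * H := by exact_mod_cast b1.2
      have c2 : (h' : ℝ) ≤ 2 * H := by exact_mod_cast b2.2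
      have a1 := hsqle v (hT v hv).2
      have a2 := hsqle v' (hT v' hv').2
      have a3 := Real.sqrt_nonneg (v : ℝ)
      have a4 := Real.sqrt_nonneg (v' : ℝ)
      have e : (h : ℝ) ^ 2 * v - (h' : ℝ) ^ 2 * v' =
          (h * √(v : ℝ) - h' * √(v' : ℝ)) * (h * √(v : ℝ) + h' * √(v' : ℝ)) := by
        have b1 := Real.sq_sqrt (Nat.cast_nonneg (α := ℝ) v)
        have b2 := Real.sq_sqrt (Nat.cast_nonneg (α := ℝ) v')
        calc (h : ℝ) ^ 2 * v - (h' : ℝ) ^ 2 * v' = h ^ 2 * √(v : ℝ) ^ 2 - h' ^ 2 * √(v' : ℝ) ^ 2 := by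
              rw [b1, b2]
          _ = _ := by ring
      have e2 : |(h : ℝ) * √(v : ℝ) - h' * √(v' : ℝ)| ≤ 4 * D * d ^ 2 / X := by
        have e3 : y (h, v) - y (h', v') = -(((h : ℝ) * √(v : ℝ) - h' * √(v' : ℝ)) / (4 * D * (d : ℝ) ^ 2)) := by
          simp only [hy]; ring
        rw [e3, abs_neg, abs_div, abs_of_pos (by positivity : (0 : ℝ) < 4 * D * (d : ℝ) ^ 2),
          div_le_div_iff₀ (by positivity) hs0] at hle
        rw [le_div_iff₀ hs0]
        linarith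
      have p1 : 0 ≤ (h : ℝ) * √(v : ℝ) := by positivity
      have p2 : 0 ≤ (h' : ℝ) * √(v' : ℝ) := by positivity
      have q1 : (h : ℝ) * √(v : ℝ) ≤ 2 * H * X := mul_le_mul c1 a1 a3 (by positivity)
      have q2 : (h' : ℝ) * √(v' : ℝ) ≤ 2 * H * X := mul_le_mul c2 a2 a4 (by positivity)
      rw [e, abs_mul, abs_of_nonneg (by linarith : 0 ≤ (h : ℝ) * √(v : ℝ) + h' * √(v' : ℝ))]
      calc |(h : ℝ) * √(v : ℝ) - h' * √(v' : ℝ)| * (h * √(v : ℝ) + h' * √(v' : ℝ))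
          ≤ 4 * D * d ^ 2 / X * (4 * H * X) := mul_le_mul e2 (by linarith) (by linarith) (by positivity)
        _ = 16 * D * d ^ 2 * H := by field_simp; ring)
    have hXY : C0 * (1 + X * Y) ≤ C0 * (2 * H * L / d ^ 2) := by
      apply mul_le_mul_of_nonneg_left _ hC0.le
      have e1 : X * Y = H * L / (D * d ^ 2) := by
        rw [hY]
        have : X * (H * X / (2 * D * (d : ℝ) ^ 2)) = H * X ^ 2 / (2 * D * d ^ 2) := by ring
        rw [this, hsq2]
        field_simp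
      have e2 : H * L / (D * d ^ 2) ≤ H * L / d ^ 2 := by
        apply div_le_div_of_nonneg_left (by positivity) (by positivity)
        nlinarith [sq_nonneg (d : ℝ)]
      have e3 : 1 ≤ H * L / (d : ℝ) ^ 2 := by
        rw [le_div_iff₀ (by positivity)]
        nlinarith
      have e4 : 2 * H * L / (d : ℝ) ^ 2 = H * L / d ^ 2 + H * L / d ^ 2 := by ring
      rw [e1, e4]
      linarith
    have hcard0 : (0 : ℝ) ≤ (((S ×ˢ S).filter (fun t : ℕ × ℕ => |√(t.1 : ℝ) - √(t.2 : ℝ)| ≤ 1 / Y)).card : ℝ) :=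
      Nat.cast_nonneg _
    have hcard1 : (0 : ℝ) ≤ ((((I ×ˢ T) ×ˢ (I ×ˢ T)).filter (fun t => |y t.1 - y t.2| ≤ 1 / X)).card : ℝ) :=
      Nat.cast_nonneg _
    refine mul_le_mul (mul_le_mul hXY hB1 hcard0 (by positivity)) hB2 hcard1 (by positivity)
  · intro u hu
    rw [abs_of_nonneg (Real.sqrt_nonneg _)]
    exact hsqle u (hS u hu).2
  · intro p hp
    rw [mem_product] at hp
    have b1 := (hI p.1 hp.1).1
    rw [mem_Ioc] at b1
    have c1 : (p.1 : ℝ) ≤ 2 * H := by exact_mod_cast b1.2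
    have a1 := hsqle p.2 (hT p.2 hp.2).2
    simp only [hy]
    rw [abs_neg, abs_of_nonneg (by positivity), hY, div_le_div_iff₀ (by positivity) (by positivity)]
    have q1 : (p.1 : ℝ) * √(p.2 : ℝ) ≤ 2 * H * X := mul_le_mul c1 a1 (Real.sqrt_nonneg _) (by positivity)
    have : 0 ≤ (2 * D * (d : ℝ) ^ 2) := by positivity
    nlinarith [mul_le_mul_of_nonneg_right q1 this]
  · intro u
    rw [norm_mul]
    rw [norm_e, mul_one]
    exact hb u
  · intro p
    rw [norm_mul, norm_mul]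
    rw [norm_e, mul_one]
    calc ‖w p.1‖ * ‖c p.2‖ ≤ 1 * 1 := mul_le_mul (hw _) (hc _) (norm_nonneg _) zero_le_one
      _ = 1 := one_mul 1

lemma le_of_sq_le (a b : ℝ) (hb : 0 ≤ b) (h : a ^ 2 ≤ b ^ 2) : a ≤ b :=
  (le_abs_self a).trans (abs_le_of_sq_le_sq h hb)

/-- decomposition into classes -/
lemma decomp (m q H : ℕ) (hm : 1 ≤ m) (S T : Finset ℕ) (f : ℕ → ℕ → ℕ → ℂ) :
    ∑ h ∈ Ioc H (2 * H), ∑ u ∈ S, ∑ v ∈ T.filter (fun v => v % m = u % m), f h u v =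
      ∑ c ∈ range m, ∑ h0 ∈ (Ioc H (2 * H)).image (fun h => h % q),
        ∑ h ∈ (Ioc H (2 * H)).filter (fun h => h % q = h0), ∑ u ∈ S.filter (fun u => u % m = c),
          ∑ v ∈ T.filter (fun v => v % m = c), f h u v := by
  have h1 : ∀ h, ∑ u ∈ S, ∑ v ∈ T.filter (fun v => v % m = u % m), f h u v =
      ∑ c ∈ range m, ∑ u ∈ S.filter (fun u => u % m = c), ∑ v ∈ T.filter (fun v => v % m = c), f h u v := by
    intro h
    rw [← sum_fiberwise_of_maps_to (s := S) (t := range m) (g := fun u => u % m)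
      (fun u _ => mem_range.mpr (Nat.mod_lt u hm))]
    refine sum_congr rfl fun c _ => sum_congr rfl fun u hu => ?_
    rw [mem_filter] at hu
    rw [hu.2]
  simp_rw [h1]
  rw [sum_comm]
  refine sum_congr rfl fun c _ => ?_
  rw [← sum_fiberwise_of_maps_to (s := Ioc H (2 * H)) (t := (Ioc H (2 * H)).image (fun h => h % q))
    (g := fun h => h % q) (fun h hh => mem_image_of_mem _ hh)]

end

end Pool.Agent.Lib.MP391708.QPA.BilH

namespace Pool.Agent.Lib.MP391708.QPA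

open Finset
open scoped Classical

theorem specBIL (hDLS : SpecDLS) : SpecBIL := by
  intro e he
  obtain ⟨C0, hC0, hdls⟩ := BilH.dls2 hDLS
  obtain ⟨C1, hC1, hdiv⟩ := Pool.Agent.Lib.MP_391708_nt.Div.card_divisors_le_rpow (2 * e) (by linarith)
  refine ⟨8 * √(20 * C0 * (1 + C1)), by positivity, ?_⟩
  intro L d D H S T b c w hL1 hd hD hH h4d hS hT hb hc hw
  have hd0 : (0 : ℝ) < d := by exact_mod_cast hd
  have hd1 : (1 : ℝ) ≤ d := by exact_mod_cast hd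
  have hD0 : (0 : ℝ) < D := by exact_mod_cast hD
  have hD1 : (1 : ℝ) ≤ D := by exact_mod_cast hD
  have hH0 : (0 : ℝ) < H := by exact_mod_cast hH
  have hH1 : (1 : ℝ) ≤ H := by exact_mod_cast hH
  have hL0 : 0 < L := by linarith
  have h16 : (16 * d ^ 2 : ℝ) ≤ L := by
    have h3 := pow_le_pow_left₀ (by positivity) h4d 2
    rw [Real.sq_sqrt hL0.le] at h3
    nlinarith
  have hHL1 : 1 ≤ (H : ℝ) * L := by nlinarith
  set τ : ℝ := (1 + C1) * ((H * L : ℝ)) ^ (2 * e) with hτ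
  have hp1 : 1 ≤ ((H * L : ℝ)) ^ (2 * e) := Real.one_le_rpow hHL1 (by linarith)
  have hτ1 : 1 ≤ τ := by nlinarith
  have hτ0 : 0 ≤ τ := by linarith
  have hτd : ∀ k : ℕ, 1 ≤ k → k < H → (k.divisors.card : ℝ) ≤ τ := by
    intro k hk hkH
    have h3 : (k : ℝ) ≤ H * L := by
      have : (k : ℝ) ≤ H := by exact_mod_cast hkH.le
      nlinarith
    calc (k.divisors.card : ℝ) ≤ C1 * (k : ℝ) ^ (2 * e) := hdiv k (by omega)
      _ ≤ C1 * (H * L) ^ (2 * e) := by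
          apply mul_le_mul_of_nonneg_left _ hC1.le
          exact Real.rpow_le_rpow (by positivity) h3 (by linarith)
      _ ≤ τ := by rw [hτ]; nlinarith
  have hsqτ : √τ = √(1 + C1) * ((H * L : ℝ)) ^ e := by
    rw [hτ, Real.sqrt_mul (by linarith)]
    congr 1
    have : ((H * L : ℝ)) ^ (2 * e) = (((H * L : ℝ)) ^ e) ^ 2 := by
      rw [← Real.rpow_natCast, ← Real.rpow_mul (by positivity)]
      congr 1
      push_cast; ring
    rw [this, Real.sqrt_sq (by positivity)]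
  set q := 2 * D * d with hq
  have hq1 : 1 ≤ q := Nat.mul_pos (Nat.mul_pos two_pos hD) hd
  set img := (Ioc H (2 * H)).image (fun h => h % q) with himg
  have himgq : (img.card : ℝ) ≤ 2 * D * d := by
    have : img ⊆ range q := by
      intro x hx
      obtain ⟨h, _, rfl⟩ := mem_image.mp hx
      exact mem_range.mpr (Nat.mod_lt h hq1)
    have := card_le_card this
    rw [card_range] at this
    have h3 : (img.card : ℝ) ≤ (q : ℝ) := by exact_mod_cast this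
    rw [hq] at h3
    push_cast at h3
    exact h3
  have himgH : (img.card : ℝ) ≤ H := by
    have : img.card ≤ (Ioc H (2 * H)).card := card_image_le
    rw [Nat.card_Ioc] at this
    have : img.card ≤ H := by omega
    exact_mod_cast this
  rw [BilH.decomp (4 * d) q H (by omega) S T (fun h u v => w h * b u * c v *
    Complex.exp (2 * Real.pi * Complex.I *
      (((h : ℝ) * (√(v : ℝ) - √(u : ℝ)) ^ 2 / (8 * D * (d : ℝ) ^ 2) : ℝ) : ℂ)))]
  -- the bound for one class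
  have hfinal : ∀ M : ℝ, 0 ≤ M → (∀ cc h0 : ℕ, ‖∑ h ∈ (Ioc H (2 * H)).filter (fun h => h % q = h0),
      ∑ u ∈ S.filter (fun u => u % (4 * d) = cc), ∑ v ∈ T.filter (fun v => v % (4 * d) = cc),
        w h * b u * c v * Complex.exp (2 * Real.pi * Complex.I *
          (((h : ℝ) * (√(v : ℝ) - √(u : ℝ)) ^ 2 / (8 * D * (d : ℝ) ^ 2) : ℝ) : ℂ))‖ ≤ M) →
      ‖∑ cc ∈ range (4 * d), ∑ h0 ∈ img, ∑ h ∈ (Ioc H (2 * H)).filter (fun h => h % q = h0),
      ∑ u ∈ S.filter (fun u => u % (4 * d) = cc), ∑ v ∈ T.filter (fun v => v % (4 * d) = cc),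
        w h * b u * c v * Complex.exp (2 * Real.pi * Complex.I *
          (((h : ℝ) * (√(v : ℝ) - √(u : ℝ)) ^ 2 / (8 * D * (d : ℝ) ^ 2) : ℝ) : ℂ))‖ ≤
        4 * d * (img.card : ℝ) * M := by
    intro M hM hall
    calc _ ≤ ∑ cc ∈ range (4 * d), ∑ h0 ∈ img, M := by
          refine (norm_sum_le _ _).trans (sum_le_sum fun cc _ => ?_)
          exact (norm_sum_le _ _).trans (sum_le_sum fun h0 _ => hall cc h0)
      _ = 4 * d * (img.card : ℝ) * M := by
          rw [sum_const, sum_const, nsmul_eq_mul, nsmul_eq_mul, card_range]; push_cast; ring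
  have hblk : ∀ cc h0 : ℕ, ‖∑ h ∈ (Ioc H (2 * H)).filter (fun h => h % q = h0),
      ∑ u ∈ S.filter (fun u => u % (4 * d) = cc), ∑ v ∈ T.filter (fun v => v % (4 * d) = cc),
        w h * b u * c v * Complex.exp (2 * Real.pi * Complex.I *
          (((h : ℝ) * (√(v : ℝ) - √(u : ℝ)) ^ 2 / (8 * D * (d : ℝ) ^ 2) : ℝ) : ℂ))‖ ^ 2 ≤
      C0 * (2 * H * L / d ^ 2) * (L / (2 * d) * (2 * D * d / H + 1)) *
      ∑ h ∈ (Ioc H (2 * H)).filter (fun h => h % q = h0),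
        ∑ h' ∈ (Ioc H (2 * H)).filter (fun h => h % q = h0),
        (((((T.filter (fun v => v % (4 * d) = cc)) ×ˢ (T.filter (fun v => v % (4 * d) = cc))).filter
          (fun t : ℕ × ℕ =>
        |(h : ℝ) ^ 2 * t.1 - (h' : ℝ) ^ 2 * t.2| ≤ 16 * D * d ^ 2 * H)).card : ℕ) : ℝ) := by
    intro cc h0
    exact BilH.block C0 hC0 hdls L d D H _ _ _ b c w cc h0 hd hD hH h16
      (fun u hu => hS u (mem_of_mem_filter u hu)) (fun v hv => hT v (mem_of_mem_filter v hv))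
      (fun u hu => (mem_filter.mp hu).2) (fun h hh => mem_filter.mp hh) hb hc hw
  have hL4 : (4 * d : ℝ) ≤ L := by nlinarith
  have hD3 : (D : ℝ) ≤ (D : ℝ) ^ 3 := by nlinarith [mul_self_nonneg ((D : ℝ) - 1)]
  have hse : 0 ≤ √(1 + C1) * ((H * L : ℝ)) ^ e := by positivity
  have h20 : √(20 * C0 * (1 + C1)) = √(20 * C0) * √(1 + C1) := Real.sqrt_mul (by positivity) _
  have he1 : 1 ≤ ((H * L : ℝ)) ^ e := Real.one_le_rpow hHL1 he.le
  have hs1 : 1 ≤ √(1 + C1) := by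
    rw [show (1 : ℝ) = √1 by simp]
    exact Real.sqrt_le_sqrt (by simpa using hC1.le)
  by_cases hcase : q < H
  · -- H > q
    have hqH : (2 * D * d : ℝ) ≤ H := by exact_mod_cast hcase.le
    have hM : ∀ cc h0 : ℕ, ‖∑ h ∈ (Ioc H (2 * H)).filter (fun h => h % q = h0),
      ∑ u ∈ S.filter (fun u => u % (4 * d) = cc), ∑ v ∈ T.filter (fun v => v % (4 * d) = cc),
        w h * b u * c v * Complex.exp (2 * Real.pi * Complex.I *
          (((h : ℝ) * (√(v : ℝ) - √(u : ℝ)) ^ 2 / (8 * D * (d : ℝ) ^ 2) : ℝ) : ℂ))‖ ≤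
        √(18 * C0) * √τ * (L / d ^ 2 * (H * √(L / d) + (H : ℝ) ^ 2)) := by
      intro cc h0
      apply BilH.le_of_sq_le _ _ (by positivity)
      refine (hblk cc h0).trans ?_
      have h3 := BilH.count_large d D H hd hD hcase ((Ioc H (2 * H)).filter (fun h => h % q = h0)) h0
        (fun h hh => mem_filter.mp hh) (T.filter (fun v => v % (4 * d) = cc)) cc L hL4
        (fun v hv => (mem_filter.mp hv).2) (fun v hv => hT v (mem_of_mem_filter v hv)) τ hτ1 hτd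
      have h4 : L / (2 * d) * (2 * D * d / H + 1) ≤ L / d := by
        have : 2 * D * d / H ≤ (1 : ℝ) := by rw [div_le_iff₀ hH0]; linarith
        calc L / (2 * d) * (2 * D * d / H + 1) ≤ L / (2 * d) * 2 :=
              mul_le_mul_of_nonneg_left (by linarith) (by positivity)
          _ = L / d := by field_simp
      have hsum0 : (0 : ℝ) ≤ ∑ h ∈ (Ioc H (2 * H)).filter (fun h => h % q = h0),
        ∑ h' ∈ (Ioc H (2 * H)).filter (fun h => h % q = h0),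
        (((((T.filter (fun v => v % (4 * d) = cc)) ×ˢ (T.filter (fun v => v % (4 * d) = cc))).filter
          (fun t : ℕ × ℕ =>
        |(h : ℝ) ^ 2 * t.1 - (h' : ℝ) ^ 2 * t.2| ≤ 16 * D * d ^ 2 * H)).card : ℕ) : ℝ) :=
        sum_nonneg fun _ _ => sum_nonneg fun _ _ => Nat.cast_nonneg _
      calc C0 * (2 * H * L / d ^ 2) * (L / (2 * d) * (2 * D * d / H + 1)) * _
          ≤ C0 * (2 * H * L / d ^ 2) * (L / d) * (9 * τ * (L * H / d ^ 2 + (H : ℝ) ^ 3 / d)) :=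
            mul_le_mul (mul_le_mul_of_nonneg_left h4 (by positivity)) h3 hsum0 (by positivity)
        _ = 18 * C0 * τ * ((L / d ^ 2 * (H * √(L / d))) ^ 2 + (L / d ^ 2 * (H : ℝ) ^ 2) ^ 2) := by
            have a1 := Real.sq_sqrt (by positivity : 0 ≤ L / d)
            have : (L / d ^ 2 * (H * √(L / d))) ^ 2 = (L / d ^ 2 * H) ^ 2 * (L / d) := by
              rw [← mul_assoc, mul_pow, a1]
            rw [this]
            field_simp
            ring
        _ ≤ 18 * C0 * τ * (L / d ^ 2 * (H * √(L / d)) + L / d ^ 2 * (H : ℝ) ^ 2) ^ 2 := by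
            apply mul_le_mul_of_nonneg_left _ (by positivity)
            have a1 : 0 ≤ L / d ^ 2 * (H * √(L / d)) := by positivity
            have a2 : 0 ≤ L / d ^ 2 * (H : ℝ) ^ 2 := by positivity
            nlinarith [mul_nonneg a1 a2]
        _ = (√(18 * C0) * √τ * (L / d ^ 2 * (H * √(L / d) + (H : ℝ) ^ 2))) ^ 2 := by
            have a1 := Real.sq_sqrt (by positivity : 0 ≤ 18 * C0)
            have a2 := Real.sq_sqrt hτ0
            rw [mul_pow, mul_pow, a1, a2]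
            ring
    refine (hfinal _ (by positivity) hM).trans ?_
    have h18 : √(18 * C0) ≤ √(20 * C0) := Real.sqrt_le_sqrt (by linarith)
    calc 4 * d * (img.card : ℝ) * (√(18 * C0) * √τ * (L / d ^ 2 * (H * √(L / d) + (H : ℝ) ^ 2)))
        ≤ 4 * d * (2 * D * d) * (√(20 * C0) * √τ * (L / d ^ 2 * (H * √(L / d) + (H : ℝ) ^ 2))) := by
          apply mul_le_mul _ _ (by positivity) (by positivity)
          · exact mul_le_mul_of_nonneg_left himgq (by positivity)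
          · apply mul_le_mul_of_nonneg_right _ (by positivity)
            exact mul_le_mul_of_nonneg_right h18 (by positivity)
      _ = 8 * √(20 * C0 * (1 + C1)) * D * (H * L) ^ e * L * (H * √(L / d) + (H : ℝ) ^ 2) := by
          rw [hsqτ, h20]
          field_simp
          ring
      _ ≤ 8 * √(20 * C0 * (1 + C1)) * (D : ℝ) ^ 3 * (H * L) ^ e * L *
          (√(H * L) + H * √(L / d) + (H : ℝ) ^ 2) := by
          have a0 : 0 ≤ √((H : ℝ) * L) := Real.sqrt_nonneg _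
          have a1 : 8 * √(20 * C0 * (1 + C1)) * (D : ℝ) * (H * L) ^ e * L ≤
              8 * √(20 * C0 * (1 + C1)) * (D : ℝ) ^ 3 * (H * L) ^ e * L := by
            apply mul_le_mul_of_nonneg_right _ hL0.le
            apply mul_le_mul_of_nonneg_right _ (by positivity)
            exact mul_le_mul_of_nonneg_left hD3 (by positivity)
          exact mul_le_mul a1 (by linarith) (by positivity) (by positivity)
  · -- H ≤ q
    push Not at hcase
    have hqH : (H : ℝ) ≤ 2 * D * d := by exact_mod_cast hcase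
    have hM : ∀ cc h0 : ℕ, ‖∑ h ∈ (Ioc H (2 * H)).filter (fun h => h % q = h0),
      ∑ u ∈ S.filter (fun u => u % (4 * d) = cc), ∑ v ∈ T.filter (fun v => v % (4 * d) = cc),
        w h * b u * c v * Complex.exp (2 * Real.pi * Complex.I *
          (((h : ℝ) * (√(v : ℝ) - √(u : ℝ)) ^ 2 / (8 * D * (d : ℝ) ^ 2) : ℝ) : ℂ))‖ ≤
        √(20 * C0) * (D * L * √(H * L) / (H * d)) := by
      intro cc h0
      apply BilH.le_of_sq_le _ _ (by positivity)
      refine (hblk cc h0).trans ?_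
      have h3 := BilH.count_small d D H hd hH hcase ((Ioc H (2 * H)).filter (fun h => h % q = h0)) h0
        (fun h hh => mem_filter.mp hh) (T.filter (fun v => v % (4 * d) = cc)) cc L hL4
        (fun v hv => (mem_filter.mp hv).2) (fun v hv => hT v (mem_of_mem_filter v hv))
      have h4 : L / (2 * d) * (2 * D * d / H + 1) ≤ 2 * D * L / H := by
        have : (1 : ℝ) ≤ 2 * D * d / H := by rw [le_div_iff₀ hH0]; linarith
        calc L / (2 * d) * (2 * D * d / H + 1) ≤ L / (2 * d) * (2 * D * d / H + 2 * D * d / H) :=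
              mul_le_mul_of_nonneg_left (by linarith) (by positivity)
          _ = 2 * D * L / H := by field_simp; ring
      have hsum0 : (0 : ℝ) ≤ ∑ h ∈ (Ioc H (2 * H)).filter (fun h => h % q = h0),
        ∑ h' ∈ (Ioc H (2 * H)).filter (fun h => h % q = h0),
        (((((T.filter (fun v => v % (4 * d) = cc)) ×ˢ (T.filter (fun v => v % (4 * d) = cc))).filter
          (fun t : ℕ × ℕ =>
        |(h : ℝ) ^ 2 * t.1 - (h' : ℝ) ^ 2 * t.2| ≤ 16 * D * d ^ 2 * H)).card : ℕ) : ℝ) :=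
        sum_nonneg fun _ _ => sum_nonneg fun _ _ => Nat.cast_nonneg _
      calc C0 * (2 * H * L / d ^ 2) * (L / (2 * d) * (2 * D * d / H + 1)) * _
          ≤ C0 * (2 * H * L / d ^ 2) * (2 * D * L / H) * (5 * D * L / H) :=
            mul_le_mul (mul_le_mul_of_nonneg_left h4 (by positivity)) h3 hsum0 (by positivity)
        _ = (√(20 * C0) * (D * L * √(H * L) / (H * d))) ^ 2 := by
            have a1 := Real.sq_sqrt (by positivity : 0 ≤ 20 * C0)
            have a2 := Real.sq_sqrt (by positivity : 0 ≤ (H : ℝ) * L)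
            rw [mul_pow, a1, div_pow, mul_pow, a2]
            field_simp
            ring
    refine (hfinal _ (by positivity) hM).trans ?_
    calc 4 * d * (img.card : ℝ) * (√(20 * C0) * (D * L * √(H * L) / (H * d)))
        ≤ 4 * d * H * (√(20 * C0) * (D * L * √(H * L) / (H * d))) := by
          apply mul_le_mul_of_nonneg_right _ (by positivity)
          exact mul_le_mul_of_nonneg_left himgH (by positivity)
      _ = 4 * √(20 * C0) * D * L * √(H * L) := by field_simp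
      _ ≤ 8 * √(20 * C0 * (1 + C1)) * (D : ℝ) ^ 3 * (H * L) ^ e * L *
          (√(H * L) + H * √(L / d) + (H : ℝ) ^ 2) := by
          have a0 : 0 ≤ √((H : ℝ) * L) := Real.sqrt_nonneg _
          have a1 : 4 * √(20 * C0) * D * L ≤ 8 * √(20 * C0 * (1 + C1)) * (D : ℝ) ^ 3 * (H * L) ^ e * L := by
            apply mul_le_mul_of_nonneg_right _ hL0.le
            have b1 : 4 * √(20 * C0) * D ≤ 8 * √(20 * C0 * (1 + C1)) * (D : ℝ) ^ 3 := by
              apply mul_le_mul _ hD3 hD0.le (by positivity)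
              rw [h20]
              have : 0 ≤ √(20 * C0) := Real.sqrt_nonneg _
              nlinarith
            have b2 : 0 ≤ 8 * √(20 * C0 * (1 + C1)) * (D : ℝ) ^ 3 := by positivity
            nlinarith
          have a2 : √((H : ℝ) * L) ≤ √(H * L) + H * √(L / d) + (H : ℝ) ^ 2 := by
            have : 0 ≤ H * √(L / d) := by positivity
            have : 0 ≤ (H : ℝ) ^ 2 := by positivity
            linarith
          exact mul_le_mul a1 a2 a0 (by positivity)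

end Pool.Agent.Lib.MP391708.QPA
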