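import Pool.Agent.Lib.MP_391708_nt.QPA.PNT

/-! # CHI: prime sums of nonprincipal characters -/

set_option autoImplicit false

namespace Pool.Agent.Lib.MP391708.QPA.CHI

open Filter Asymptotics Topology Finset

variable {q : ℕ} [NeZero q] (χ : DirichletCharacter ℂ q)

/-- `∑_{n ≤ N} χ(n) Λ(n)` split into classes. -/
theorem split (N : ℕ) : ∑ n ∈ Icc 1 N, χ (n : ZMod q) * (ArithmeticFunction.vonMangoldt n : ℂ) =
    ∑ a : ZMod q, χ a *
      ((∑ n ∈ Icc 1 N, ArithmeticFunction.vonMangoldt.residueClass a n : ℝ) : ℂ) := by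
  have h1 : ∀ a : ZMod q, χ a *
      ((∑ n ∈ Icc 1 N, ArithmeticFunction.vonMangoldt.residueClass a n : ℝ) : ℂ) =
      ∑ n ∈ Icc 1 N, χ a * ((ArithmeticFunction.vonMangoldt.residueClass a n : ℝ) : ℂ) := by
    intro a
    rw [Complex.ofReal_sum, Finset.mul_sum]
  rw [Finset.sum_congr rfl (fun a _ => h1 a), Finset.sum_comm]
  refine Finset.sum_congr rfl fun n _ => ?_
  rw [Finset.sum_eq_single (n : ZMod q)]
  · unfold ArithmeticFunction.vonMangoldt.residueClass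
    rw [Set.indicator_of_mem]
    rfl
  · intro b _ hb
    unfold ArithmeticFunction.vonMangoldt.residueClass
    rw [Set.indicator_of_notMem]
    · simp
    · intro h
      exact hb h.symm
  · intro h; exact absurd (Finset.mem_univ _) h

theorem psi_chi (h : SpecPNTAP) (hχ : χ ≠ 1) : Tendsto (fun N : ℕ =>
    (∑ n ∈ Icc 1 N, χ (n : ZMod q) * (ArithmeticFunction.vonMangoldt n : ℂ)) / (N : ℂ))
    atTop (𝓝 0) := by
  have h0 : ∑ a : ZMod q, χ a * (((q.totient : ℝ)⁻¹ : ℝ) : ℂ) = 0 := by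
    rw [← Finset.sum_mul, MulChar.sum_eq_zero_of_ne_one hχ, zero_mul]
  have h1 : Tendsto (fun N : ℕ => ∑ a : ZMod q, χ a *
      (((∑ n ∈ Icc 1 N, ArithmeticFunction.vonMangoldt.residueClass a n) / (N : ℝ) : ℝ) : ℂ))
      atTop (𝓝 (∑ a : ZMod q, χ a * (((q.totient : ℝ)⁻¹ : ℝ) : ℂ))) := by
    refine tendsto_finsetSum _ fun a _ => ?_
    by_cases ha : IsUnit a
    · exact ((Complex.continuous_ofReal.tendsto _).comp (h q a ha)).const_mul _
    · simp [MulChar.map_nonunit χ ha]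
  rw [h0] at h1
  refine h1.congr fun N => ?_
  rw [split, Finset.sum_div]
  refine Finset.sum_congr rfl fun a _ => ?_
  push_cast
  ring

/-- `∑_{p ≤ x} χ(p) log p`. -/
noncomputable def th (x : ℝ) : ℂ :=
  ∑ p ∈ (Icc 1 ⌊x⌋₊).filter Nat.Prime, χ (p : ZMod q) * (Real.log p : ℂ)

theorem psi_sub_th (x : ℝ) :
    ‖(∑ n ∈ Icc 1 ⌊x⌋₊, χ (n : ZMod q) * (ArithmeticFunction.vonMangoldt n : ℂ)) - th χ x‖ ≤
      Chebyshev.psi x - Chebyshev.theta x := by
  rw [Chebyshev.psi_sub_theta_eq_sum_not_prime]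
  have e1 : (∑ n ∈ Icc 1 ⌊x⌋₊, χ (n : ZMod q) * (ArithmeticFunction.vonMangoldt n : ℂ)) - th χ x =
      ∑ n ∈ (Icc 1 ⌊x⌋₊).filter (fun n => ¬ n.Prime),
        χ (n : ZMod q) * (ArithmeticFunction.vonMangoldt n : ℂ) := by
    rw [← Finset.sum_filter_add_sum_filter_not (Icc 1 ⌊x⌋₊) Nat.Prime, th]
    have : ∑ p ∈ (Icc 1 ⌊x⌋₊).filter Nat.Prime,
        χ (p : ZMod q) * (ArithmeticFunction.vonMangoldt p : ℂ) =
        ∑ p ∈ (Icc 1 ⌊x⌋₊).filter Nat.Prime, χ (p : ZMod q) * (Real.log p : ℂ) := by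
      refine Finset.sum_congr rfl fun p hp => ?_
      rw [ArithmeticFunction.vonMangoldt_apply_prime (Finset.mem_filter.mp hp).2]
    rw [this]; ring
  rw [e1]
  have e2 : (Finset.Ioc 0 ⌊x⌋₊) = Icc 1 ⌊x⌋₊ := by
    ext n; simp only [Finset.mem_Ioc, Finset.mem_Icc]; omega
  rw [e2]
  refine (norm_sum_le _ _).trans (Finset.sum_le_sum fun n _ => ?_)
  rw [norm_mul, Complex.norm_real, Real.norm_eq_abs,
    abs_of_nonneg ArithmeticFunction.vonMangoldt_nonneg]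
  have := DirichletCharacter.norm_le_one χ (n : ZMod q)
  have h2 : 0 ≤ ArithmeticFunction.vonMangoldt n := ArithmeticFunction.vonMangoldt_nonneg
  nlinarith

theorem th_div (h : SpecPNTAP) (hχ : χ ≠ 1) :
    Tendsto (fun x : ℝ => ‖th χ x‖ / x) atTop (𝓝 0) := by
  have h1 := (psi_chi χ h hχ).norm.comp (tendsto_nat_floor_atTop (α := ℝ))
  rw [norm_zero] at h1
  have h2 := tendsto_nat_floor_div_atTop (R := ℝ)
  have h3 := (h1.mul h2).add PNT.psi_sub_theta_div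
  rw [zero_mul, zero_add] at h3
  refine squeeze_zero' ?_ ?_ h3
  · filter_upwards [eventually_gt_atTop (0 : ℝ)] with x hx
    positivity
  · filter_upwards [eventually_ge_atTop (1 : ℝ)] with x hx
    have hf : (0 : ℝ) < (⌊x⌋₊ : ℝ) := by exact_mod_cast Nat.floor_pos.mpr hx
    have hx0 : 0 < x := by linarith
    have h4 := psi_sub_th χ x
    have h5 : ‖th χ x‖ ≤ ‖∑ n ∈ Icc 1 ⌊x⌋₊, χ (n : ZMod q) *
        (ArithmeticFunction.vonMangoldt n : ℂ)‖ +
        (Chebyshev.psi x - Chebyshev.theta x) := by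
      have h6 := norm_sub_norm_le (th χ x) (∑ n ∈ Icc 1 ⌊x⌋₊, χ (n : ZMod q) *
        (ArithmeticFunction.vonMangoldt n : ℂ))
      rw [norm_sub_rev] at h6
      linarith
    simp only [Function.comp]
    rw [norm_div, Complex.norm_natCast]
    have e : ‖∑ n ∈ Icc 1 ⌊x⌋₊, χ (n : ZMod q) * (ArithmeticFunction.vonMangoldt n : ℂ)‖ /
        (⌊x⌋₊ : ℝ) * ((⌊x⌋₊ : ℝ) / x) + (Chebyshev.psi x - Chebyshev.theta x) / x =
        (‖∑ n ∈ Icc 1 ⌊x⌋₊, χ (n : ZMod q) * (ArithmeticFunction.vonMangoldt n : ℂ)‖ +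
        (Chebyshev.psi x - Chebyshev.theta x)) / x := by
      field_simp
    rw [e]
    gcongr

theorem theta_eq (x : ℝ) : Chebyshev.theta x =
    ∑ p ∈ (Icc 1 ⌊x⌋₊).filter Nat.Prime, Real.log p := by
  rw [Chebyshev.theta_eq_sum_Icc]
  refine Finset.sum_congr ?_ fun _ _ => rfl
  ext p
  simp only [Finset.mem_filter, Finset.mem_Icc]
  constructor
  · rintro ⟨⟨_, h1⟩, h2⟩; exact ⟨⟨h2.one_le, h1⟩, h2⟩
  · rintro ⟨⟨_, h1⟩, h2⟩; exact ⟨⟨Nat.zero_le _, h1⟩, h2⟩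

theorem main_le {x : ℝ} (hx : 2 ≤ x) :
    ‖∑ p ∈ (Icc 1 ⌊x⌋₊).filter Nat.Prime, χ (p : ZMod q)‖ ≤ ‖th χ x‖ / Real.log x +
      ((Nat.primeCounting ⌊x⌋₊ : ℝ) - Chebyshev.theta x / Real.log x) := by
  have hl : 0 < Real.log x := Real.log_pos (by linarith)
  have e1 : ∑ p ∈ (Icc 1 ⌊x⌋₊).filter Nat.Prime, χ (p : ZMod q) = th χ x / (Real.log x : ℂ) +
      ∑ p ∈ (Icc 1 ⌊x⌋₊).filter Nat.Prime,
        χ (p : ZMod q) * ((1 - Real.log p / Real.log x : ℝ) : ℂ) := by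
    rw [th, Finset.sum_div, ← Finset.sum_add_distrib]
    refine Finset.sum_congr rfl fun p _ => ?_
    push_cast
    ring
  rw [e1]
  refine (norm_add_le _ _).trans (add_le_add ?_ ?_)
  · rw [norm_div, Complex.norm_real, Real.norm_eq_abs, abs_of_pos hl]
  · refine (norm_sum_le _ _).trans ?_
    rw [theta_eq, ← PNT.card_eq, Finset.sum_div]
    have e2 : ((((Icc 1 ⌊x⌋₊).filter Nat.Prime).card : ℕ) : ℝ) =
        ∑ p ∈ (Icc 1 ⌊x⌋₊).filter Nat.Prime, (1 : ℝ) := by simp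
    rw [e2, ← Finset.sum_sub_distrib]
    refine Finset.sum_le_sum fun p hp => ?_
    obtain ⟨hp1, hp2⟩ := Finset.mem_filter.mp hp
    have hpx : (p : ℝ) ≤ x := by
      have := (Finset.mem_Icc.mp hp1).2
      exact (Nat.le_floor_iff (by linarith)).mp this
    have hp0 : (0 : ℝ) < p := by exact_mod_cast hp2.pos
    have h3 : 0 ≤ 1 - Real.log p / Real.log x := by
      rw [sub_nonneg, div_le_one hl]
      exact Real.log_le_log hp0 hpx
    rw [norm_mul, Complex.norm_real, Real.norm_eq_abs, abs_of_nonneg h3]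
    have := DirichletCharacter.norm_le_one χ (p : ZMod q)
    nlinarith

end Pool.Agent.Lib.MP391708.QPA.CHI

namespace Pool.Agent.Lib.MP391708.QPA

open Filter Asymptotics Topology Finset

theorem specCHI (h : SpecPNTAP) : SpecCHI := by
  intro q _ χ hχ κ hκ
  have h1 := CHI.th_div χ h hχ
  have h2 := PNT.pi_sub
  rw [Metric.tendsto_atTop] at h1 h2
  obtain ⟨X₁, hX₁⟩ := h1 (κ / 2) (by positivity)
  obtain ⟨X₂, hX₂⟩ := h2 (κ / 2) (by positivity)
  refine ⟨max (max X₁ X₂) 2, fun x hx => ?_⟩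
  have hx2 : 2 ≤ x := (le_max_right _ _).trans hx
  have hx1 : X₁ ≤ x := (le_max_left _ _).trans ((le_max_left _ _).trans hx)
  have hx3 : X₂ ≤ x := (le_max_right _ _).trans ((le_max_left _ _).trans hx)
  have hl : 0 < Real.log x := Real.log_pos (by linarith)
  have hx0 : 0 < x := by linarith
  have a1 := hX₁ x hx1
  have a2 := hX₂ x hx3
  rw [Real.dist_eq, sub_zero] at a1 a2
  have b1 : ‖CHI.th χ x‖ ≤ κ / 2 * x := by
    have := (le_abs_self _).trans a1.le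
    rwa [div_le_iff₀ hx0] at this
  have b2 : (Nat.primeCounting ⌊x⌋₊ : ℝ) - Chebyshev.theta x / Real.log x ≤
      κ / 2 * (x / Real.log x) := by
    have := (le_abs_self _).trans a2.le
    rwa [div_le_iff₀ (by positivity)] at this
  have c := CHI.main_le χ hx2
  have c1 : ‖CHI.th χ x‖ / Real.log x ≤ κ / 2 * (x / Real.log x) := by
    rw [← mul_div_assoc]
    gcongr
  have c2 : κ * x / Real.log x = κ / 2 * (x / Real.log x) + κ / 2 * (x / Real.log x) := by ring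
  rw [c2]
  refine le_trans (le_of_eq ?_) (c.trans (add_le_add c1 b2))
  congr!

end Pool.Agent.Lib.MP391708.QPA
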