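import Pool.Agent.Lib.MP_391708_nt.QPA.Spec

/-!
# CONV: convergence of the Hardy-Littlewood constant
-/

set_option autoImplicit false

namespace Pool.Agent.Lib.MP391708.QPA.CONV

open Finset Filter Topology
open scoped Classical

noncomputable section

/-- the factor of `G_w` at an odd prime -/
lemma Gw_eq (hP : SpecRHOP) (h2 : SpecRHO2) (X : ℕ) (a : ℤ) :
    Gw X a = ∏ w ∈ (range (X + 1)).filter (fun w => Nat.Prime w ∧ w ≠ 2),
      (1 - (jacobiSym (-a) w : ℝ) / ((w : ℝ) - 1)) := by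
  unfold Gw PB
  have hc : ⌈(X : ℝ) + 1⌉₊ = X + 1 := by
    have := Nat.ceil_natCast (R := ℝ) (X + 1)
    push_cast at this
    exact this
  rw [hc]
  symm
  apply Finset.prod_subset_one_on_sdiff
  · intro w hw
    rw [Finset.mem_filter] at hw ⊢
    exact ⟨hw.1, hw.2.1⟩
  · intro w hw
    rw [Finset.mem_sdiff, Finset.mem_filter, Finset.mem_filter] at hw
    have hw2 : w = 2 := by
      by_contra h
      exact hw.2 ⟨hw.1.1, hw.1.2, h⟩
    subst hw2
    rw [h2 a]
    norm_num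
  · intro w hw
    rw [Finset.mem_filter] at hw
    obtain ⟨_, hp, hp2⟩ := hw
    have h1 : (rho a w : ℝ) = 1 + (jacobiSym (-a) w : ℝ) := by
      have := hP a w hp hp2
      have h3 : ((rho a w : ℤ) : ℝ) = ((1 + jacobiSym (-a) w : ℤ) : ℝ) := by rw [this]
      push_cast at h3
      exact h3
    have hw1 : (2 : ℝ) < w := by
      have := hp.two_le
      exact_mod_cast (by omega : 2 < w)
    rw [h1]
    have hw0 : (w : ℝ) ≠ 0 := by positivity
    have hw2 : (w : ℝ) - 1 ≠ 0 := by linarith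
    have hw3 : 1 - 1 / (w : ℝ) ≠ 0 := by
      rw [sub_ne_zero]
      intro h
      field_simp at h
      linarith
    field_simp
    ring

/-- comparison of the two kinds of factors -/
lemma ratio (J : ℝ) (hJ : |J| ≤ 1) (p : ℝ) (hp : 3 ≤ p) : 0 < 1 - J / (p - 1) ∧ 0 < 1 - J / p ∧
    |Real.log (1 - J / (p - 1)) - Real.log (1 - J / p)| ≤ 8 / p ^ 2 := by
  obtain ⟨hJ1, hJ2⟩ := abs_le.1 hJ
  have hp1 : 0 < p - 1 := by linarith
  have hp0 : 0 < p := by linarith
  have hpJ : 0 < p - J := by linarith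
  have hA : 0 < 1 - J / (p - 1) := by
    rw [sub_pos, div_lt_one hp1]; linarith
  have hB : 0 < 1 - J / p := by
    rw [sub_pos, div_lt_one hp0]; linarith
  refine ⟨hA, hB, ?_⟩
  rw [← Real.log_div hA.ne' hB.ne']
  set t : ℝ := J / ((p - 1) * (p - J)) with ht
  have e : (1 - J / (p - 1)) / (1 - J / p) = 1 - t := by
    rw [ht]
    field_simp
    ring
  rw [e]
  have ht1 : |t| ≤ 1 / (p - 1) ^ 2 := by
    rw [ht, abs_div, abs_of_pos (mul_pos hp1 hpJ)]
    apply div_le_div₀ (by norm_num) hJ (by positivity)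
    nlinarith
  have ht2 : 1 / (p - 1) ^ 2 ≤ 4 / p ^ 2 := by
    rw [div_le_div_iff₀ (by positivity) (by positivity)]
    nlinarith
  have ht3 : 1 / (p - 1) ^ 2 ≤ 1 / 4 := by
    apply one_div_le_one_div_of_le (by norm_num)
    nlinarith
  have h := Real.abs_log_sub_add_sum_range_le (show |t| < 1 by linarith) 0
  simp only [range_zero, sum_empty, zero_add, pow_one] at h
  refine h.trans ?_
  rw [div_le_iff₀ (by linarith)]
  have h4 : |t| ≤ 4 / p ^ 2 := ht1.trans ht2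
  have h5 : (8 : ℝ) / p ^ 2 = 2 * (4 / p ^ 2) := by ring
  rw [h5]
  have h6 : (0 : ℝ) ≤ 4 / p ^ 2 := by positivity
  nlinarith

/-- the logarithm of the ratio of the factors at `n` -/
def hs (a : ℤ) (n : ℕ) : ℝ := if n.Prime ∧ n ≠ 2 then
  Real.log (1 - (jacobiSym (-a) n : ℝ) / ((n : ℝ) - 1)) -
    Real.log (1 - (jacobiSym (-a) n : ℝ) / n) else 0

lemma abs_J_le (a : ℤ) (n : ℕ) : |(jacobiSym (-a) n : ℝ)| ≤ 1 := by
  rcases jacobiSym.trichotomy (-a) n with h | h | h <;> rw [h] <;> simp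

lemma three_le {n : ℕ} (h : n.Prime ∧ n ≠ 2) : (3 : ℝ) ≤ n := by
  have := h.1.two_le
  exact_mod_cast (show 3 ≤ n by have := h.2; omega)

lemma abs_hs_le (a : ℤ) (n : ℕ) : |hs a n| ≤ 8 * (1 / (n : ℝ) ^ 2) := by
  unfold hs
  split_ifs with h
  · refine (ratio _ (abs_J_le a n) n (three_le h)).2.2.trans (le_of_eq (by ring))
  · simp only [abs_zero]; positivity

lemma summable_hs (a : ℤ) : Summable (hs a) :=
  Summable.of_norm_bounded ((Real.summable_one_div_nat_pow.2 (by norm_num : 1 < 2)).mul_left 8)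
    (fun n => by rw [Real.norm_eq_abs]; exact abs_hs_le a n)

/-- `G_w = ∏ (1 - χ(p)/p) · exp (∑ hs)` -/
lemma Gw_eq' (hP : SpecRHOP) (h2 : SpecRHO2) (X : ℕ) (a : ℤ) :
    Gw X a = (∏ p ∈ (range (X + 1)).filter (fun p => Nat.Prime p ∧ p ≠ 2),
      (1 - (jacobiSym (-a) p : ℝ) / p)⁻¹)⁻¹ * Real.exp (∑ n ∈ range (X + 1), hs a n) := by
  rw [Gw_eq hP h2, ← prod_inv_distrib, Real.exp_sum, prod_filter, prod_filter, ← prod_mul_distrib]
  refine prod_congr rfl fun n _ => ?_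
  unfold hs
  split_ifs with h
  · obtain ⟨hA, hB, -⟩ := ratio _ (abs_J_le a n) n (three_le h)
    rw [Real.exp_sub, Real.exp_log hA, Real.exp_log hB, inv_inv]
    field_simp
  · simp

lemma limit (hP : SpecRHOP) (h2 : SpecRHO2) {a : ℤ} {l : ℝ} (hl : 0 < l)
    (h : Tendsto (fun X : ℕ => ∏ p ∈ (range (X + 1)).filter (fun p => Nat.Prime p ∧ p ≠ 2),
      (1 - (jacobiSym (-a) p : ℝ) / p)⁻¹) atTop (𝓝 l)) :
    Tendsto (fun w : ℕ => Gw w a) atTop (𝓝 (l⁻¹ * Real.exp (∑' n, hs a n))) := by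
  have h1 : Tendsto (fun w : ℕ => Real.exp (∑ n ∈ range (w + 1), hs a n)) atTop
      (𝓝 (Real.exp (∑' n, hs a n))) :=
    (Real.continuous_exp.tendsto _).comp
      ((tendsto_add_atTop_iff_nat 1).2 (summable_hs a).hasSum.tendsto_sum_nat)
  refine ((h.inv₀ hl.ne').mul h1).congr fun w => ?_
  rw [Gw_eq' hP h2]

end

end Pool.Agent.Lib.MP391708.QPA.CONV

namespace Pool.Agent.Lib.MP391708.QPA

theorem specCONV (hE : SpecEUL) (hP : SpecRHOP) (h2 : SpecRHO2) : SpecCONV := by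
  intro a ha
  obtain ⟨l, hl, -, h⟩ := hE a ha
  exact ⟨_, by positivity, CONV.limit hP h2 hl h⟩

end Pool.Agent.Lib.MP391708.QPA
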