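import Pool.Agent.Lib.MP_391708_nt.QPA.Spec
import Pool.Agent.Lib.MP_391708_nt.Div

/-!
# Module COUNT of the project QPA
-/

set_option autoImplicit false

namespace Pool.Agent.Lib.MP391708.QPA.Count

open Finset
open Pool.Agent.Lib.MP391708.QPA

/-- the parameter `s` -/
def sOf (d : ℕ) (t : ℕ × (ℕ × ℕ)) : ℕ := (t.2.2 - t.2.1) / (4 * d)

/-- the parameter `w` -/
def wOf (d : ℕ) (t : ℕ × (ℕ × ℕ)) : ℕ := (t.2.1 + t.2.2) / 2 - t.1 * d ^ 2

/-- the key -/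
def key (d : ℕ) (t : ℕ × (ℕ × ℕ)) : Sigma (fun _ : ℕ × ℤ => ℕ) :=
  ⟨(sOf d t, (t.1 : ℤ) * (wOf d t : ℤ) - (sOf d t : ℤ) ^ 2), t.1⟩

/-- the basic facts on a triple -/
lemma facts {K L : ℝ} {d k u v : ℕ} (hK : 1 ≤ K) (hKL : K ≤ L) (hd : 1 ≤ d)
    (hdM : (d : ℝ) ≤ √(L / K) / 4) (hk : k ∈ Icc 1 ⌊4 * K⌋₊)
    (hp : (u, v) ∈ prs L d) (hu : Odd u) (hv : Odd v) :
    ∃ s w : ℕ, v = u + 4 * d * s ∧ u + v = 2 * (w + k * d ^ 2) ∧ 1 ≤ s ∧ 1 ≤ w ∧
      sOf d (k, (u, v)) = s ∧ wOf d (k, (u, v)) = w ∧ (w : ℝ) ≤ 5 / 4 * L ∧ (k : ℝ) ≤ 4 * K ∧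
      aq d k u v = (k : ℝ) * w - (s : ℝ) ^ 2 := by
  have hK0 : 0 < K := by linarith
  have hL0 : 0 < L := by linarith
  have hd0 : (0 : ℝ) < d := by exact_mod_cast hd
  simp only [prs, mem_filter, mem_product, mem_Ioc] at hp
  obtain ⟨⟨⟨hu1, hu2⟩, hv1, hv2⟩, huv, hdv⟩ := hp
  obtain ⟨s, hs⟩ := hdv
  have hvs : v = u + 4 * d * s := by omega
  have hk1 : 1 ≤ k := (mem_Icc.mp hk).1
  have hk4 : (k : ℝ) ≤ 4 * K := by
    have := (mem_Icc.mp hk).2
    exact (Nat.le_floor_iff (by positivity)).mp this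
  have huL : L < u := (Nat.floor_lt hL0.le).mp hu1
  have hvL : L < v := (Nat.floor_lt hL0.le).mp hv1
  have huL2 : (u : ℝ) ≤ 5 / 4 * L := (Nat.le_floor_iff (by positivity)).mp hu2
  have hvL2 : (v : ℝ) ≤ 5 / 4 * L := (Nat.le_floor_iff (by positivity)).mp hv2
  have hdd : (d : ℝ) ^ 2 ≤ L / K / 16 := by
    have h1 : (d : ℝ) ^ 2 ≤ (√(L / K) / 4) ^ 2 := by
      apply pow_le_pow_left₀ hd0.le hdM
    have h2 : (√(L / K)) ^ 2 = L / K := Real.sq_sqrt (by positivity)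
    have h3 : (√(L / K) / 4) ^ 2 = L / K / 16 := by rw [div_pow, h2]; norm_num
    linarith
  have hkd : (k : ℝ) * (d : ℝ) ^ 2 ≤ L / 4 := by
    calc (k : ℝ) * (d : ℝ) ^ 2 ≤ (4 * K) * (L / K / 16) := by
          apply mul_le_mul hk4 hdd (by positivity) (by positivity)
      _ = L / 4 := by field_simp; ring
  -- parity
  obtain ⟨u', hu'⟩ := hu
  obtain ⟨v', hv'⟩ := hv
  have hhalf : (u + v) / 2 = u' + v' + 1 := by omega
  have hsum : u + v = 2 * (u' + v' + 1) := by omega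
  have hsumR : ((u' + v' + 1 : ℕ) : ℝ) = ((u : ℝ) + v) / 2 := by
    have : ((u + v : ℕ) : ℝ) = ((2 * (u' + v' + 1) : ℕ) : ℝ) := by rw [hsum]
    push_cast at this ⊢
    linarith
  have hlt : k * d ^ 2 < u' + v' + 1 := by
    have : ((k * d ^ 2 : ℕ) : ℝ) < ((u' + v' + 1 : ℕ) : ℝ) := by
      rw [hsumR]
      push_cast
      linarith
    exact_mod_cast this
  refine ⟨s, (u' + v' + 1) - k * d ^ 2, hvs, by omega, ?_, by omega, ?_, ?_, ?_, hk4, ?_⟩
  · rcases Nat.eq_zero_or_pos s with h | h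
    · subst h
      simp at hvs
      omega
    · exact h
  · simp only [sOf]
    rw [hs]
    exact Nat.mul_div_cancel_left s (by omega)
  · simp only [wOf]
    rw [hhalf]
  · rw [Nat.cast_sub hlt.le, hsumR]
    have : (0 : ℝ) ≤ ((k * d ^ 2 : ℕ) : ℝ) := by positivity
    linarith
  · rw [Nat.cast_sub hlt.le, hsumR]
    unfold aq
    have h4 : (((v : ℝ) - u) / (4 * d)) = s := by
      rw [hvs]
      push_cast
      field_simp
      ring
    rw [h4]
    push_cast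
    ring

end Pool.Agent.Lib.MP391708.QPA.Count

namespace Pool.Agent.Lib.MP391708.QPA

open Finset
open scoped Classical

theorem specCOUNT : SpecCOUNT := by
  intro e he
  obtain ⟨C₀, hC₀, hdiv⟩ := Pool.Agent.Lib.MP_391708_nt.Div.card_divisors_le_rpow e he
  refine ⟨27 * C₀ * 10 ^ e, by positivity, ?_⟩
  intro K L A d hK hKL hA hAKL hd hdM
  have hK0 : 0 < K := by linarith
  have hL0 : 0 < L := by linarith
  have hKL1 : 1 ≤ K * L := by nlinarith
  have hKL0 : 0 < K * L := by linarith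
  set R : ℝ := √(K * L) with hR
  have hR2 : R ^ 2 = K * L := Real.sq_sqrt hKL0.le
  have hR0 : 0 ≤ R := Real.sqrt_nonneg _
  have hR1 : 1 ≤ R := by
    rw [hR]
    exact Real.one_le_sqrt.mpr hKL1
  set box : Finset (ℕ × ℤ) := (Icc 1 ⌊3 * R⌋₊) ×ˢ (Icc (-(⌊4 * A⌋₊ : ℤ)) (⌊4 * A⌋₊ : ℤ)) with hbox
  set tgt : Finset (Sigma (fun _ : ℕ × ℤ => ℕ)) :=
    box.sigma (fun x => (((x.1 : ℤ) ^ 2 + x.2).toNat).divisors) with htgt
  have hmaps : ∀ t ∈ ((Icc 1 ⌊4 * K⌋₊) ×ˢ (prs L d)).filter (fun t => Odd t.2.1 ∧ Odd t.2.2 ∧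
      |aq d t.1 t.2.1 t.2.2| ≤ 4 * A), Count.key d t ∈ tgt := by
    rintro ⟨k, u, v⟩ ht
    rw [mem_filter, mem_product] at ht
    obtain ⟨⟨hk, hp⟩, hu, hv, ha⟩ := ht
    obtain ⟨s, w, h1, h2, hs1, hw1, hs, hw, hwL, hk4, haq⟩ :=
      Count.facts (k := k) (u := u) (v := v) hK hKL hd hdM hk hp hu hv
    have hkey : Count.key d (k, (u, v)) = ⟨(s, (k : ℤ) * (w : ℤ) - (s : ℤ) ^ 2), k⟩ := by
      simp only [Count.key, hs, hw]
    rw [hkey, htgt, mem_sigma]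
    simp only [] at ha
    rw [haq] at ha
    have hab := abs_le.mp ha
    have hkw : (k : ℝ) * w ≤ 5 * (K * L) := by
      calc (k : ℝ) * w ≤ (4 * K) * (5 / 4 * L) := by
            apply mul_le_mul hk4 hwL (by positivity) (by positivity)
        _ = 5 * (K * L) := by ring
    have hk1 : 1 ≤ k := (mem_Icc.mp hk).1
    constructor
    · rw [hbox, mem_product]
      constructor
      · rw [mem_Icc]
        refine ⟨hs1, ?_⟩
        apply Nat.le_floor
        have : (s : ℝ) ^ 2 ≤ (3 * R) ^ 2 := by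
          rw [mul_pow, hR2]
          nlinarith [hab.1]
        exact (abs_le_of_sq_le_sq' this (by positivity)).2
      · rw [mem_Icc]
        have hfl : ∀ z : ℤ, |(z : ℝ)| ≤ 4 * A → -(⌊4 * A⌋₊ : ℤ) ≤ z ∧ z ≤ (⌊4 * A⌋₊ : ℤ) := by
          intro z hz
          have : (z.natAbs : ℝ) ≤ 4 * A := by
            rw [Nat.cast_natAbs]
            exact_mod_cast hz
          have h5 : z.natAbs ≤ ⌊4 * A⌋₊ := Nat.le_floor this
          omega
        apply hfl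
        push_cast
        exact ha
    · simp only []
      have h6 : ((s : ℤ) ^ 2 + ((k : ℤ) * (w : ℤ) - (s : ℤ) ^ 2)).toNat = k * w := by
        have : ((s : ℤ) ^ 2 + ((k : ℤ) * (w : ℤ) - (s : ℤ) ^ 2)) = ((k * w : ℕ) : ℤ) := by
          push_cast; ring
        rw [this, Int.toNat_natCast]
      rw [h6, Nat.mem_divisors]
      refine ⟨Dvd.intro _ rfl, ?_⟩
      have : 0 < k * w := Nat.mul_pos hk1 hw1
      omega
  have hinj : Set.InjOn (Count.key d) (((Icc 1 ⌊4 * K⌋₊) ×ˢ (prs L d)).filter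
      (fun t => Odd t.2.1 ∧ Odd t.2.2 ∧ |aq d t.1 t.2.1 t.2.2| ≤ 4 * A) : Finset (ℕ × (ℕ × ℕ))) := by
    rintro ⟨k, u, v⟩ ht ⟨k', u', v'⟩ ht' hkk
    rw [mem_coe, mem_filter, mem_product] at ht ht'
    obtain ⟨⟨hk, hp⟩, hu, hv, ha⟩ := ht
    obtain ⟨⟨hk', hp'⟩, hu', hv', ha'⟩ := ht'
    obtain ⟨s, w, h1, h2, hs1, hw1, hs, hw, hwL, hk4, haq⟩ :=
      Count.facts (k := k) (u := u) (v := v) hK hKL hd hdM hk hp hu hv
    obtain ⟨s', w', h1', h2', hs1', hw1', hs', hw', hwL', hk4', haq'⟩ :=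
      Count.facts (k := k') (u := u') (v := v') hK hKL hd hdM hk' hp' hu' hv'
    simp only [Count.key, hs, hw, hs', hw'] at hkk
    simp only [Sigma.mk.injEq, Prod.mk.injEq, heq_eq_eq] at hkk
    obtain ⟨⟨e1, e2⟩, e3⟩ := hkk
    subst e3
    subst e1
    have hk1 : 1 ≤ k := (mem_Icc.mp hk).1
    have hk1Z : (0 : ℤ) < k := by exact_mod_cast hk1
    have e4 : (k : ℤ) * w = (k : ℤ) * w' := by linarith
    have e5 : (w : ℤ) = w' := mul_left_cancel₀ hk1Z.ne' e4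
    have e6 : w = w' := by exact_mod_cast e5
    subst e6
    have e7 : u = u' := by omega
    have e8 : v = v' := by omega
    subst e7 e8
    rfl
  have hcard := Finset.card_le_card_of_injOn (Count.key d) hmaps hinj
  have hcardR : ((((Icc 1 ⌊4 * K⌋₊) ×ˢ (prs L d)).filter (fun t => Odd t.2.1 ∧ Odd t.2.2 ∧
      |aq d t.1 t.2.1 t.2.2| ≤ 4 * A)).card : ℝ) ≤ (tgt.card : ℝ) := by exact_mod_cast hcard
  refine hcardR.trans ?_
  rw [htgt, card_sigma]
  push_cast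
  have hbound : ∀ x ∈ box, ((((x.1 : ℤ) ^ 2 + x.2).toNat).divisors.card : ℝ) ≤
      C₀ * (10 * (K * L)) ^ e := by
    rintro ⟨s, a⟩ hx
    rw [hbox, mem_product, mem_Icc, mem_Icc] at hx
    obtain ⟨⟨hs1, hs2⟩, ha1, ha2⟩ := hx
    simp only [] at hs1 hs2 ha1 ha2 ⊢
    rcases Nat.eq_zero_or_pos ((s : ℤ) ^ 2 + a).toNat with h0 | hpos
    · rw [h0]
      simp
      positivity
    · refine (hdiv _ hpos).trans ?_
      apply mul_le_mul_of_nonneg_left _ hC₀.le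
      apply Real.rpow_le_rpow (by positivity) _ he.le
      have hs3 : (s : ℝ) ≤ 3 * R := (Nat.le_floor_iff (by positivity)).mp hs2
      have ha3 : (a : ℝ) ≤ 4 * A := by
        have h7 : (a : ℝ) ≤ ((⌊4 * A⌋₊ : ℤ) : ℝ) := by exact_mod_cast ha2
        have h8 : ((⌊4 * A⌋₊ : ℤ) : ℝ) ≤ 4 * A := by
          rw [Int.cast_natCast]
          exact Nat.floor_le (by positivity)
        linarith
      have h9 : ((((s : ℤ) ^ 2 + a).toNat : ℕ) : ℝ) = (s : ℝ) ^ 2 + a := by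
        have : ((((s : ℤ) ^ 2 + a).toNat : ℕ) : ℤ) = (s : ℤ) ^ 2 + a :=
          Int.toNat_of_nonneg (by omega)
        have h10 := congrArg (fun z : ℤ => (z : ℝ)) this
        push_cast at h10
        exact h10
      rw [h9]
      have h11 : (s : ℝ) ^ 2 ≤ (3 * R) ^ 2 := pow_le_pow_left₀ (by positivity) hs3 2
      rw [mul_pow, hR2] at h11
      nlinarith
  calc ∑ x ∈ box, ((((x.1 : ℤ) ^ 2 + x.2).toNat).divisors.card : ℝ)
      ≤ ∑ x ∈ box, C₀ * (10 * (K * L)) ^ e := sum_le_sum hbound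
    _ = (box.card : ℝ) * (C₀ * (10 * (K * L)) ^ e) := by rw [sum_const, nsmul_eq_mul]
    _ ≤ (3 * R * (9 * A)) * (C₀ * (10 * (K * L)) ^ e) := by
        apply mul_le_mul_of_nonneg_right _ (by positivity)
        rw [hbox, card_product]
        push_cast
        apply mul_le_mul _ _ (by positivity) (by positivity)
        · rw [Nat.card_Icc]
          simp only [Nat.add_sub_cancel]
          exact Nat.floor_le (by positivity)
        · rw [Int.card_Icc]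
          have h12 : ((⌊4 * A⌋₊ : ℤ) + 1 - (-(⌊4 * A⌋₊ : ℤ))).toNat = 2 * ⌊4 * A⌋₊ + 1 := by omega
          rw [h12]
          push_cast
          have := Nat.floor_le (show (0 : ℝ) ≤ 4 * A by positivity)
          linarith
    _ = 27 * C₀ * 10 ^ e * (K * L) ^ e * A * R := by
        rw [Real.mul_rpow (by norm_num) hKL0.le]
        ring

end Pool.Agent.Lib.MP391708.QPA
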