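import Pool.Agent.Lib.MP_391708_nt.QPA.Spec3

/-!
# DENS: the density version
-/

set_option autoImplicit false

namespace Pool.Agent.Lib.MP391708.QPA

open Finset Filter Topology
open scoped Classical

namespace DENS

theorem li_ratio (hLI : SpecLI) : ∃ N₀ : ℕ, 2 ≤ N₀ ∧ ∀ M N : ℕ, N₀ ≤ M → M ≤ N → ∀ K : ℝ,
    (N : ℝ) ≤ K * M →
    (∫ t in (2 : ℝ)..(N : ℝ), 1 / Real.log t)
      ≤ 3 * K * ∫ t in (2 : ℝ)..(M : ℝ), 1 / Real.log t := by
  obtain ⟨N₀, h0⟩ := hLI (1 / 2) (by norm_num)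
  refine ⟨max N₀ 2, le_max_right _ _, ?_⟩
  intro M N hM hMN K hK
  have hM2 : (2 : ℝ) ≤ M := by exact_mod_cast (le_max_right N₀ 2).trans hM
  have hMN' : (M : ℝ) ≤ N := by exact_mod_cast hMN
  have hlM : 0 < Real.log M := Real.log_pos (by linarith)
  have hlMN : Real.log M ≤ Real.log N := Real.log_le_log (by linarith) hMN'
  have h1 := (abs_le.mp (h0 M ((le_max_left _ _).trans hM))).1
  have h2 := (abs_le.mp (h0 N ((le_max_left _ _).trans (hM.trans hMN)))).2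
  set LM := ∫ t in (2 : ℝ)..(M : ℝ), 1 / Real.log t
  set LN := ∫ t in (2 : ℝ)..(N : ℝ), 1 / Real.log t
  have h3 : (M : ℝ) / Real.log M ≤ 2 * LM := by
    have : 1 / 2 * (M : ℝ) / Real.log M = 1 / 2 * ((M : ℝ) / Real.log M) := by ring
    linarith
  have h4 : LN ≤ 3 / 2 * ((N : ℝ) / Real.log N) := by
    have : 1 / 2 * (N : ℝ) / Real.log N = 1 / 2 * ((N : ℝ) / Real.log N) := by ring
    linarith
  have h5 : (N : ℝ) / Real.log N ≤ N / Real.log M :=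
    div_le_div_of_nonneg_left (by linarith) hlM hlMN
  have h6 : (N : ℝ) / Real.log M ≤ K * M / Real.log M := div_le_div_of_nonneg_right hK hlM.le
  have hK0 : 0 ≤ K := by
    by_contra hneg
    push Not at hneg
    nlinarith
  calc LN ≤ 3 / 2 * (K * (M / Real.log M)) := by
        rw [← mul_div_assoc]; linarith
    _ ≤ 3 / 2 * (K * (2 * LM)) := by gcongr
    _ = 3 * K * LM := by ring

end DENS

theorem specDENS (hF : SpecFINU) (hLI : SpecLI) : SpecDENS := by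
  intro B ε hB1 hB2 hε
  have hB0 : 0 < B := by linarith
  set δ : ℝ := ε / 8 with hδdef
  have hδ : 0 < δ := by positivity
  obtain ⟨N₁, hN₁2, hN₁⟩ := DENS.li_ratio hLI
  set K : ℝ := 2 * (δ ^ B)⁻¹ with hKdef
  have hδB : 0 < δ ^ B := Real.rpow_pos_of_pos hδ B
  have hK : 0 < K := by positivity
  set ε' : ℝ := min (ε / 2) (ε / (3 * K)) with hε'def
  have hε' : 0 < ε' := lt_min (by positivity) (by positivity)
  obtain ⟨N₀, hN₀⟩ := hF (1 / B) ε' (by rw [lt_div_iff₀ hB0]; linarith) hε'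
  have e1 : Tendsto (fun X : ℕ => (X : ℝ) ^ B) atTop atTop :=
    (tendsto_rpow_atTop hB0).comp tendsto_natCast_atTop_atTop
  have e2 : Tendsto (fun X : ℕ => (δ * (X : ℝ)) ^ B) atTop atTop :=
    (tendsto_rpow_atTop hB0).comp (tendsto_natCast_atTop_atTop.const_mul_atTop hδ)
  have E : ∀ᶠ X : ℕ in atTop, (N₀ : ℝ) + 1 ≤ (X : ℝ) ^ B ∧ (N₁ : ℝ) + 2 ≤ (δ * X) ^ B ∧
      4 / ε ≤ (X : ℝ) ∧ 1 ≤ X := by
    filter_upwards [e1.eventually_ge_atTop ((N₀ : ℝ) + 1), e2.eventually_ge_atTop ((N₁ : ℝ) + 2),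
      tendsto_natCast_atTop_atTop.eventually_ge_atTop (4 / ε), eventually_ge_atTop 1] with X a b c d
    exact ⟨a, b, c, d⟩
  obtain ⟨X₀, hX₀⟩ := eventually_atTop.mp E
  refine ⟨X₀, fun X hX => ?_⟩
  obtain ⟨c1, c2, c3, c4⟩ := hX₀ X hX
  have hXr : (1 : ℝ) ≤ X := by exact_mod_cast c4
  have hX0 : (0 : ℝ) < X := by linarith
  set N : ℕ := ⌊(X : ℝ) ^ B⌋₊ with hNdef
  have hN0 : N₀ ≤ N := Nat.le_floor (by linarith)
  have hXN : X ≤ N := Nat.le_floor (Real.self_le_rpow_of_one_le hXr hB1)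
  have hNle : (N : ℝ) ≤ (X : ℝ) ^ B := Nat.floor_le (by positivity)
  have hNθ : (N : ℝ) ^ (1 / B) ≤ X := by
    calc (N : ℝ) ^ (1 / B) ≤ ((X : ℝ) ^ B) ^ (1 / B) :=
          Real.rpow_le_rpow (by positivity) hNle (by positivity)
      _ = X := by rw [← Real.rpow_mul hX0.le, mul_one_div_cancel hB0.ne', Real.rpow_one]
  have key := hN₀ N X hN0 hNθ hXN
  have hsub : ((Icc (-(X : ℤ)) X).filter (fun a : ℤ => ¬ ∃ h : ℝ, 0 < h ∧
    Tendsto (fun X : ℕ => ∏ w ∈ (range (X + 1)).filter (fun w => Nat.Prime w ∧ w ≠ 2),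
      (1 - (jacobiSym (-a) w : ℝ) / ((w : ℝ) - 1))) atTop (𝓝 h) ∧
    |(((Icc 1 ⌊(a.natAbs : ℝ) ^ B⌋₊).filter
          (fun n : ℕ => Nat.Prime ((n : ℤ) ^ 2 + a).natAbs)).card : ℝ)
        - 1 / 2 * h * ∫ t in (2 : ℝ)..(⌊(a.natAbs : ℝ) ^ B⌋₊ : ℝ), 1 / Real.log t|
      ≤ ε * (h * ∫ t in (2 : ℝ)..(⌊(a.natAbs : ℝ) ^ B⌋₊ : ℝ), 1 / Real.log t))) ⊆
      ((Icc (-(X : ℤ)) X).filter (fun a : ℤ => ¬ ∃ h : ℝ, 0 < h ∧
        Tendsto (fun X : ℕ => ∏ w ∈ (range (X + 1)).filter (fun w => Nat.Prime w ∧ w ≠ 2),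
          (1 - (jacobiSym (-a) w : ℝ) / ((w : ℝ) - 1))) atTop (𝓝 h) ∧
        ∀ M : ℕ, 2 ≤ M → M ≤ N →
          |(((Icc 1 M).filter (fun n : ℕ => Nat.Prime ((n : ℤ) ^ 2 + a).natAbs)).card : ℝ)
            - 1 / 2 * h * ∫ t in (2 : ℝ)..(M : ℝ), 1 / Real.log t|
            ≤ ε' * (h * ∫ t in (2 : ℝ)..(N : ℝ), 1 / Real.log t))) ∪
      Icc (-(⌊δ * X⌋₊ : ℤ)) (⌊δ * X⌋₊ : ℤ) := by
    intro a ha
    rw [mem_filter] at ha
    obtain ⟨haX, hna⟩ := ha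
    rw [mem_union]
    by_cases hsmall : (a.natAbs : ℝ) < δ * X
    · right
      have : a.natAbs ≤ ⌊δ * X⌋₊ := Nat.le_floor hsmall.le
      rw [mem_Icc]
      omega
    · left
      push Not at hsmall
      rw [mem_filter]
      refine ⟨haX, fun hex => hna ?_⟩
      obtain ⟨h, hh, hlim, hall⟩ := hex
      refine ⟨h, hh, hlim, ?_⟩
      have haX' : (a.natAbs : ℝ) ≤ X := by
        rw [mem_Icc] at haX
        exact_mod_cast (by omega : a.natAbs ≤ X)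
      set M : ℕ := ⌊(a.natAbs : ℝ) ^ B⌋₊ with hMdef
      have hpow : (δ * X) ^ B ≤ (a.natAbs : ℝ) ^ B :=
        Real.rpow_le_rpow (by positivity) hsmall hB0.le
      have hMN : M ≤ N := Nat.floor_mono (Real.rpow_le_rpow (by positivity) haX' hB0.le)
      have hMlt : (a.natAbs : ℝ) ^ B < M + 1 := Nat.lt_floor_add_one _
      have hM1 : N₁ ≤ M := by
        have : (N₁ : ℝ) ≤ M := by linarith
        exact_mod_cast this
      have hM1r : (N₁ : ℝ) ≤ M := by exact_mod_cast hM1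
      have hN1r : (2 : ℝ) ≤ N₁ := by exact_mod_cast hN₁2
      have hNK : (N : ℝ) ≤ K * M := by
        have h1 : (δ * X) ^ B = δ ^ B * (X : ℝ) ^ B := Real.mul_rpow hδ.le hX0.le
        have h2 : (δ * X) ^ B ≤ 2 * M := by linarith
        rw [h1] at h2
        calc (N : ℝ) ≤ (X : ℝ) ^ B := hNle
          _ = (δ ^ B)⁻¹ * (δ ^ B * (X : ℝ) ^ B) := by field_simp
          _ ≤ (δ ^ B)⁻¹ * (2 * M) := by gcongr
          _ = K * M := by rw [hKdef]; ring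
      have hLi := hN₁ M N hM1 hMN K hNK
      have hLM0 : 0 ≤ ∫ t in (2 : ℝ)..(M : ℝ), 1 / Real.log t :=
        FINU.li_nonneg (hN₁2.trans hM1)
      have hb := hall M (hN₁2.trans hM1) hMN
      refine hb.trans ?_
      have hε3 : ε' * (3 * K) ≤ ε := by
        have := min_le_right (ε / 2) (ε / (3 * K))
        rw [← hε'def] at this
        rwa [le_div_iff₀ (by positivity)] at this
      set LM := ∫ t in (2 : ℝ)..(M : ℝ), 1 / Real.log t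
      set LN := ∫ t in (2 : ℝ)..(N : ℝ), 1 / Real.log t
      calc ε' * (h * LN) ≤ ε' * (h * (3 * K * LM)) := by gcongr
        _ = (ε' * (3 * K)) * (h * LM) := by ring
        _ ≤ ε * (h * LM) := by gcongr
  have hcard := (card_le_card hsub).trans (card_union_le _ _)
  have hcardr : ((((Icc (-(X : ℤ)) X).filter (fun a : ℤ => ¬ ∃ h : ℝ, 0 < h ∧
    Tendsto (fun X : ℕ => ∏ w ∈ (range (X + 1)).filter (fun w => Nat.Prime w ∧ w ≠ 2),
      (1 - (jacobiSym (-a) w : ℝ) / ((w : ℝ) - 1))) atTop (𝓝 h) ∧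
    |(((Icc 1 ⌊(a.natAbs : ℝ) ^ B⌋₊).filter
          (fun n : ℕ => Nat.Prime ((n : ℤ) ^ 2 + a).natAbs)).card : ℝ)
        - 1 / 2 * h * ∫ t in (2 : ℝ)..(⌊(a.natAbs : ℝ) ^ B⌋₊ : ℝ), 1 / Real.log t|
      ≤ ε * (h * ∫ t in (2 : ℝ)..(⌊(a.natAbs : ℝ) ^ B⌋₊ : ℝ), 1 / Real.log t))).card : ℕ) : ℝ)
      ≤ _ := (Nat.cast_le (α := ℝ)).mpr hcard
  rw [Nat.cast_add] at hcardr
  have hIcc : (((Icc (-(⌊δ * X⌋₊ : ℤ)) (⌊δ * X⌋₊ : ℤ)).card : ℕ) : ℝ) ≤ 2 * (δ * X) + 1 := by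
    rw [Int.card_Icc]
    have : ((⌊δ * X⌋₊ : ℤ) + 1 - -(⌊δ * X⌋₊ : ℤ)).toNat = 2 * ⌊δ * X⌋₊ + 1 := by omega
    rw [this]
    push_cast
    have := Nat.floor_le (show 0 ≤ δ * X by positivity)
    linarith
  refine hcardr.trans ((add_le_add key hIcc).trans ?_)
  have h1 : ε' ≤ ε / 2 := min_le_left _ _
  have h2 : ε' * X ≤ ε / 2 * X := by gcongr
  have h3 : 4 ≤ ε * X := by
    rw [div_le_iff₀ hε] at c3
    linarith
  have h4 : δ * X = ε * X / 8 := by rw [hδdef]; ring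
  rw [h4]
  linarith

end Pool.Agent.Lib.MP391708.QPA
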