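import Pool.Agent.Lib.MP_391708_nt.QPA.FFB

/-!
# QPA module EQ: character sums over the functions `FF`

`FF N e (i ::ₘ c') l = ∑_{p ∣ l} PJ(p) FF(c')(l/p)`; for fixed `m = l/p` the sum over `p` is a difference of
two initial sums of `ψ` over the primes, of heights between `N^e0 - 1` and `x₂/m`.
-/

set_option autoImplicit false

namespace Pool.Agent.Lib.MP391708.QPA.EQ

open Finset Filter Topology
open scoped Classical

/-- swap: `l = m p` -/
theorem swap (X : ℕ) (h : ℕ → ℕ → ℂ) :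
    ∑ l ∈ Icc 1 X, ∑ p ∈ l.primeFactors, h (l / p) p
      = ∑ m ∈ Icc 1 X, ∑ p ∈ (Icc 1 X).filter (fun p => p.Prime ∧ m * p ≤ X), h m p := by
  rw [Finset.sum_sigma', Finset.sum_sigma']
  refine Finset.sum_nbij' (fun x => ⟨x.1 / x.2, x.2⟩) (fun x => ⟨x.1 * x.2, x.2⟩) ?_ ?_ ?_ ?_ ?_
  · rintro ⟨l, p⟩ hx
    simp only [Finset.mem_sigma, Finset.mem_Icc, Nat.mem_primeFactors, Finset.mem_filter] at hx ⊢
    obtain ⟨⟨hl1, hlX⟩, hp, hpl, hl0⟩ := hx
    have h1 : l / p * p = l := Nat.div_mul_cancel hpl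
    have h2 : p ≤ l := Nat.le_of_dvd (by omega) hpl
    have h3 : 1 ≤ l / p := (Nat.one_le_div_iff hp.pos).mpr h2
    refine ⟨⟨h3, le_trans (Nat.div_le_self _ _) hlX⟩, ⟨hp.one_lt.le, le_trans h2 hlX⟩, hp, ?_⟩
    rw [h1]; exact hlX
  · rintro ⟨m, p⟩ hx
    simp only [Finset.mem_sigma, Finset.mem_Icc, Nat.mem_primeFactors, Finset.mem_filter] at hx ⊢
    obtain ⟨⟨hm1, hmX⟩, ⟨hp1, hpX⟩, hp, hmp⟩ := hx
    have : 1 ≤ m * p := Nat.mul_pos hm1 hp1
    exact ⟨⟨this, hmp⟩, hp, Dvd.intro_left m rfl, by omega⟩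
  · rintro ⟨l, p⟩ hx
    simp only [Finset.mem_sigma, Finset.mem_Icc, Nat.mem_primeFactors] at hx
    have h1 : l / p * p = l := Nat.div_mul_cancel hx.2.2.1
    simp only [h1]
  · rintro ⟨m, p⟩ hx
    simp only [Finset.mem_sigma, Finset.mem_Icc, Finset.mem_filter] at hx
    have h1 : m * p / p = m := Nat.mul_div_cancel _ hx.2.2.1.pos
    simp only [h1]
  · rintro ⟨l, p⟩ _
    rfl

/-- the inner sum is over an interval -/
theorem inner (N : ℕ) (e : ℝ) (i m : ℕ) (hm : 1 ≤ m) (x₁ x₂ : ℝ) (hx₂ : 0 ≤ x₂) (g : ℕ → ℂ) :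
    ∑ p ∈ (Icc 1 ⌊x₂⌋₊).filter (fun p => p.Prime ∧ m * p ≤ ⌊x₂⌋₊),
      (if x₁ < ((m * p : ℕ) : ℝ) ∧ ((m * p : ℕ) : ℝ) ≤ x₂ then ((PJ N e i p : ℝ) : ℂ) else 0) * g p
    = ∑ p ∈ (Ioc (max (⌈(N : ℝ) ^ ((i : ℝ) * e)⌉₊ - 1) ⌊x₁ / m⌋₊)
        (min (⌈(N : ℝ) ^ (((i : ℝ) + 1) * e)⌉₊ - 1) ⌊x₂ / m⌋₊)).filter Nat.Prime, g p := by
  have hm0 : (0 : ℝ) < m := by exact_mod_cast hm
  rw [Finset.sum_filter, Finset.sum_filter]
  have hN1 : (0 : ℝ) ≤ (N : ℝ) ^ ((i : ℝ) * e) := by positivity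
  have key : ∀ p : ℕ, (p.Prime ∧ x₁ < ((m * p : ℕ) : ℝ) ∧ ((m * p : ℕ) : ℝ) ≤ x₂ ∧
      (N : ℝ) ^ ((i : ℝ) * e) ≤ p ∧ (p : ℝ) < (N : ℝ) ^ (((i : ℝ) + 1) * e)) ↔
      (p.Prime ∧ p ∈ Ioc (max (⌈(N : ℝ) ^ ((i : ℝ) * e)⌉₊ - 1) ⌊x₁ / m⌋₊)
        (min (⌈(N : ℝ) ^ (((i : ℝ) + 1) * e)⌉₊ - 1) ⌊x₂ / m⌋₊)) := by
    intro p
    constructor
    · rintro ⟨hp, h1, h2, h3, h4⟩
      refine ⟨hp, Finset.mem_Ioc.mpr ⟨max_lt ?_ ?_, le_min ?_ ?_⟩⟩
      · have := Nat.ceil_le.mpr h3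
        have := hp.pos
        omega
      · rw [Nat.floor_lt' hp.ne_zero, div_lt_iff₀ hm0]
        push_cast at h1
        linarith [mul_comm (m : ℝ) p]
      · have := Nat.lt_ceil.mpr h4
        omega
      · apply Nat.le_floor
        rw [le_div_iff₀ hm0]
        push_cast at h2
        linarith [mul_comm (m : ℝ) p]
    · rintro ⟨hp, h⟩
      obtain ⟨h5, h6⟩ := Finset.mem_Ioc.mp h
      obtain ⟨h7, h8⟩ := max_lt_iff.mp h5
      obtain ⟨h9, h10⟩ := le_min_iff.mp h6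
      have hpp := hp.pos
      refine ⟨hp, ?_, ?_, ?_, ?_⟩
      · rw [Nat.floor_lt' hp.ne_zero, div_lt_iff₀ hm0] at h8
        push_cast
        linarith [mul_comm (m : ℝ) p]
      · have h11 : (p : ℝ) ≤ x₂ / m := (Nat.le_floor_iff (by positivity)).mp h10
        rw [le_div_iff₀ hm0] at h11
        push_cast
        linarith [mul_comm (m : ℝ) p]
      · exact Nat.ceil_le.mp (by omega)
      · exact Nat.lt_ceil.mp (by omega)
  have e1 : ∀ p ∈ Icc 1 ⌊x₂⌋₊, (if p.Prime ∧ m * p ≤ ⌊x₂⌋₊ then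
      (if x₁ < ((m * p : ℕ) : ℝ) ∧ ((m * p : ℕ) : ℝ) ≤ x₂ then ((PJ N e i p : ℝ) : ℂ) else 0) * g p else 0)
      = if (p.Prime ∧ p ∈ Ioc (max (⌈(N : ℝ) ^ ((i : ℝ) * e)⌉₊ - 1) ⌊x₁ / m⌋₊)
        (min (⌈(N : ℝ) ^ (((i : ℝ) + 1) * e)⌉₊ - 1) ⌊x₂ / m⌋₊)) then g p else 0 := by
    intro p _
    by_cases h : (p.Prime ∧ p ∈ Ioc (max (⌈(N : ℝ) ^ ((i : ℝ) * e)⌉₊ - 1) ⌊x₁ / m⌋₊)
        (min (⌈(N : ℝ) ^ (((i : ℝ) + 1) * e)⌉₊ - 1) ⌊x₂ / m⌋₊))
    · rw [if_pos h]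
      obtain ⟨hp, h1, h2, h3, h4⟩ := (key p).mpr h
      rw [if_pos ⟨hp, Nat.le_floor h2⟩, if_pos ⟨h1, h2⟩, FFB.PJ_apply, if_pos ⟨hp, h3, h4⟩]
      simp
    · rw [if_neg h]
      split_ifs with h1 h2
      · have h3 : ¬ (p.Prime ∧ (N : ℝ) ^ ((i : ℝ) * e) ≤ p ∧ (p : ℝ) < (N : ℝ) ^ (((i : ℝ) + 1) * e)) :=
          fun h4 => h ((key p).mp ⟨h1.1, h2.1, h2.2, h4.2.1, h4.2.2⟩)
        rw [FFB.PJ_apply, if_neg h3]
        simp
      · simp
      · rfl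
  rw [Finset.sum_congr rfl e1, ← Finset.sum_filter, ← Finset.sum_filter]
  apply Finset.sum_congr _ (fun _ _ => rfl)
  ext p
  simp only [Finset.mem_filter]
  constructor
  · rintro ⟨_, h1, h2⟩
    exact ⟨h2, h1⟩
  · rintro ⟨h1, h2⟩
    obtain ⟨hp, h3, h4, h5, h6⟩ := (key p).mpr ⟨h2, h1⟩
    refine ⟨Finset.mem_Icc.mpr ⟨hp.pos, ?_⟩, h2, h1⟩
    apply Nat.le_floor
    refine le_trans ?_ h4
    exact_mod_cast Nat.le_mul_of_pos_left p hm

/-- a sum over an interval as a difference of two initial sums -/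
theorem diff (u v : ℕ) (huv : u ≤ v) (g : ℕ → ℂ) :
    ∑ p ∈ (Ioc u v).filter Nat.Prime, g p
      = ∑ p ∈ (Icc 1 v).filter Nat.Prime, g p - ∑ p ∈ (Icc 1 u).filter Nat.Prime, g p := by
  rw [eq_sub_iff_add_eq, ← Finset.sum_union]
  · apply Finset.sum_congr _ (fun _ _ => rfl)
    ext p
    simp only [Finset.mem_union, Finset.mem_filter, Finset.mem_Ioc, Finset.mem_Icc]
    constructor
    · rintro (⟨⟨h1, h2⟩, h3⟩ | ⟨⟨h1, h2⟩, h3⟩)
      · exact ⟨⟨by omega, h2⟩, h3⟩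
      · exact ⟨⟨h1, by omega⟩, h3⟩
    · rintro ⟨⟨h1, h2⟩, h3⟩
      by_cases h : p ≤ u
      · exact Or.inr ⟨⟨h1, h⟩, h3⟩
      · exact Or.inl ⟨⟨by omega, h2⟩, h3⟩
  · rw [Finset.disjoint_left]
    intro p hp hp'
    simp only [Finset.mem_filter, Finset.mem_Ioc, Finset.mem_Icc] at hp hp'
    omega

/-- the sum over `l` as a sum over `m` -/
theorem total (N : ℕ) (e : ℝ) (i : ℕ) (c : Multiset ℕ) (x₁ x₂ : ℝ) (hx₂ : 0 ≤ x₂) (g : ℕ → ℂ)
    (hg : ∀ m p, g (m * p) = g m * g p) :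
    ∑ l ∈ Icc 1 ⌊x₂⌋₊, ((cut x₁ x₂ (fun m => FF N e (i ::ₘ c) m) l : ℝ) : ℂ) * g l
    = ∑ m ∈ Icc 1 ⌊x₂⌋₊, ((FF N e c m : ℝ) : ℂ) * g m *
        ∑ p ∈ (Ioc (max (⌈(N : ℝ) ^ ((i : ℝ) * e)⌉₊ - 1) ⌊x₁ / m⌋₊)
        (min (⌈(N : ℝ) ^ (((i : ℝ) + 1) * e)⌉₊ - 1) ⌊x₂ / m⌋₊)).filter Nat.Prime, g p := by
  have h1 : ∀ l ∈ Icc 1 ⌊x₂⌋₊, ((cut x₁ x₂ (fun m => FF N e (i ::ₘ c) m) l : ℝ) : ℂ) * g l
      = ∑ p ∈ l.primeFactors, ((((if x₁ < ((l / p * p : ℕ) : ℝ) ∧ ((l / p * p : ℕ) : ℝ) ≤ x₂ then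
        ((PJ N e i p : ℝ) : ℂ) else 0) * g p) * (((FF N e c (l / p) : ℝ) : ℂ) * g (l / p)))) := by
    intro l _
    rw [cut]
    have h2 : ∀ p ∈ l.primeFactors, l / p * p = l := fun p hp =>
      Nat.div_mul_cancel (Nat.mem_primeFactors.mp hp).2.1
    by_cases h : x₁ < (l : ℝ) ∧ (l : ℝ) ≤ x₂
    · rw [if_pos h, FFB.FF_cons_apply]
      push_cast
      rw [Finset.sum_mul]
      apply Finset.sum_congr rfl
      intro p hp
      have h3 := h2 p hp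
      have h4 : ((l / p * p : ℕ) : ℝ) = l := by rw [h3]
      have h5 : x₁ < ((l / p * p : ℕ) : ℝ) ∧ ((l / p * p : ℕ) : ℝ) ≤ x₂ := by rw [h4]; exact h
      have h6 : g l = g (l / p) * g p := by rw [← hg, h3]
      push_cast at h5
      rw [if_pos h5, h6]
      ring
    · rw [if_neg h]
      symm
      rw [Complex.ofReal_zero, zero_mul]
      apply Finset.sum_eq_zero
      intro p hp
      have h3 := h2 p hp
      have h4 : ((l / p * p : ℕ) : ℝ) = l := by rw [h3]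
      rw [if_neg (by rw [h4]; exact h)]
      simp
  rw [Finset.sum_congr rfl h1, swap ⌊x₂⌋₊ (fun m p =>
    ((if x₁ < ((m * p : ℕ) : ℝ) ∧ ((m * p : ℕ) : ℝ) ≤ x₂ then
        ((PJ N e i p : ℝ) : ℂ) else 0) * g p) * (((FF N e c m : ℝ) : ℂ) * g m))]
  apply Finset.sum_congr rfl
  intro m hm
  rw [← Finset.sum_mul, inner N e i m (Finset.mem_Icc.mp hm).1 x₁ x₂ hx₂ g]
  ring

end Pool.Agent.Lib.MP391708.QPA.EQ

namespace Pool.Agent.Lib.MP391708.QPA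

open Finset Filter Topology
open scoped Classical

theorem specEQ (hCHI : SpecCHI) (hRSUM : SpecRSUM) : SpecEQ := by
  intro e0 κ Q R c he0 hQ hκ hc hci
  obtain ⟨C, hC, hR⟩ := hRSUM
  obtain ⟨i, c', rfl⟩ : ∃ i c', c = i ::ₘ c' := by
    obtain ⟨i, hi⟩ := Multiset.exists_mem_of_ne_zero hc
    obtain ⟨c', h⟩ := Multiset.exists_cons_of_mem hi
    exact ⟨i, c', h⟩
  have hQ0 : (0 : ℝ) < Q := by exact_mod_cast hQ
  have hFp : (0 : ℝ) < ((Multiset.card c').factorial : ℝ) := by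
    exact_mod_cast Nat.factorial_pos _
  set F : ℝ := ((Multiset.card c').factorial : ℝ) with hFdef
  have hDp : 0 < F * (1 + C * (4 / e0)) := by positivity
  set D : ℝ := F * (1 + C * (4 / e0)) with hD
  have hκ' : 0 < κ * e0 / (4 * D) := by positivity
  set κ' : ℝ := κ * e0 / (4 * D) with hκd
  have hev : ∀ᶠ x : ℝ in atTop, ∀ r ∈ Finset.range R, ∀ ψ : DirichletCharacter ℂ (r + 1), ψ ≠ 1 →
      ‖∑ p ∈ (Icc 1 ⌊x⌋₊).filter Nat.Prime, ψ (p : ZMod (r + 1))‖ ≤ κ' * x / Real.log x := by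
    rw [Filter.eventually_all_finset]
    intro r _
    rw [Filter.eventually_all]
    intro ψ
    by_cases h : ψ = 1
    · exact Eventually.of_forall (fun _ h' => absurd h h')
    · obtain ⟨X₀, hX⟩ := hCHI (r + 1) ψ h κ' hκ'
      filter_upwards [eventually_ge_atTop X₀] with x hx _ using hX x hx
  obtain ⟨X₀, hX₀⟩ := eventually_atTop.mp hev
  have hN : ∀ᶠ N : ℕ in atTop, (max X₀ 4) ≤ (N : ℝ) ^ (e0 / 2) ∧ 3 ≤ N := by
    refine Filter.Eventually.and ?_ (eventually_ge_atTop 3)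
    exact ((tendsto_rpow_atTop (by positivity : 0 < e0 / 2)).comp
      tendsto_natCast_atTop_atTop).eventually_ge_atTop (max X₀ 4)
  obtain ⟨N₀, hN₀⟩ := eventually_atTop.mp hN
  refine ⟨N₀, fun N hNN r hr ψ hψ x₁ x₂ hx hx' => ?_⟩
  obtain ⟨ht, hN3⟩ := hN₀ N hNN
  have hN3' : (3 : ℝ) ≤ N := by exact_mod_cast hN3
  have hNp : (0 : ℝ) < N := by linarith
  have hN1 : (1 : ℝ) ≤ N := by linarith
  have hlog : 1 ≤ Real.log N := by
    rw [Real.le_log_iff_exp_le hNp]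
    linarith [Real.exp_one_lt_d9]
  have hx20 : 0 ≤ x₂ := by linarith
  set t : ℝ := (N : ℝ) ^ (e0 / 2) with htd
  have ht4 : 4 ≤ t := le_trans (le_max_right _ _) ht
  have htX : X₀ ≤ t := le_trans (le_max_left _ _) ht
  set z : ℝ := (N : ℝ) ^ e0 with hzd
  have hzt : z = t ^ 2 := by
    rw [hzd, htd, ← Real.rpow_natCast, ← Real.rpow_mul hNp.le]
    norm_num
  have hzt1 : t ≤ z - 1 := by rw [hzt]; nlinarith
  have hlogt : Real.log t = e0 / 2 * Real.log N := by rw [htd, Real.log_rpow hNp]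
  have hlogz : Real.log z = e0 * Real.log N := by rw [hzd, Real.log_rpow hNp]
  have hQi : Q ≤ i := hci i (Multiset.mem_cons_self i c')
  have hzi : z ≤ (N : ℝ) ^ ((i : ℝ) * (e0 / Q)) := by
    rw [hzd]
    apply Real.rpow_le_rpow_of_exponent_le hN1
    have h1 : (Q : ℝ) ≤ i := by exact_mod_cast hQi
    have h2 : e0 = Q * (e0 / Q) := by field_simp
    calc e0 = Q * (e0 / Q) := h2
      _ ≤ i * (e0 / Q) := mul_le_mul_of_nonneg_right h1 (by positivity)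
  -- the inner sums
  have hin : ∀ m : ℕ, 1 ≤ m →
      ‖∑ p ∈ (Ioc (max (⌈(N : ℝ) ^ ((i : ℝ) * (e0 / Q))⌉₊ - 1) ⌊x₁ / m⌋₊)
        (min (⌈(N : ℝ) ^ (((i : ℝ) + 1) * (e0 / Q))⌉₊ - 1) ⌊x₂ / m⌋₊)).filter Nat.Prime,
          ψ (p : ZMod (r + 1))‖ ≤ 4 * κ' * x₂ / (e0 * Real.log N) / m := by
    intro m hm
    have hm0 : (0 : ℝ) < m := by exact_mod_cast hm
    set u := max (⌈(N : ℝ) ^ ((i : ℝ) * (e0 / Q))⌉₊ - 1) ⌊x₁ / m⌋₊ with hu
    set v := min (⌈(N : ℝ) ^ (((i : ℝ) + 1) * (e0 / Q))⌉₊ - 1) ⌊x₂ / m⌋₊ with hv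
    by_cases huv : u ≤ v
    · have hut : t ≤ u := by
        have h1 : ⌈(N : ℝ) ^ ((i : ℝ) * (e0 / Q))⌉₊ ≤ u + 1 := by
          have := le_max_left (⌈(N : ℝ) ^ ((i : ℝ) * (e0 / Q))⌉₊ - 1) ⌊x₁ / m⌋₊
          omega
        have h2 : (N : ℝ) ^ ((i : ℝ) * (e0 / Q)) ≤ (u : ℝ) + 1 := by
          have := Nat.le_of_ceil_le h1
          push_cast at this
          exact this
        linarith
      have hvx : (v : ℝ) ≤ x₂ / m :=
        (Nat.le_floor_iff (by positivity)).mp (min_le_right _ _)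
      have hone : ∀ w : ℕ, t ≤ (w : ℝ) → (w : ℝ) ≤ x₂ / m →
          ‖∑ p ∈ (Icc 1 w).filter Nat.Prime, ψ (p : ZMod (r + 1))‖
            ≤ 2 * κ' * x₂ / (e0 * Real.log N) / m := by
        intro w h1 h2
        have h3 := hX₀ (w : ℝ) (le_trans htX h1) r (Finset.mem_range.mpr hr) ψ hψ
        rw [Nat.floor_natCast] at h3
        have h4 : e0 / 2 * Real.log N ≤ Real.log w := by
          rw [← hlogt]
          exact Real.log_le_log (by linarith) h1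
        calc _ ≤ κ' * w / Real.log w := h3
          _ ≤ κ' * (x₂ / m) / (e0 / 2 * Real.log N) := by
            apply div_le_div₀ (by positivity) (mul_le_mul_of_nonneg_left h2 hκ'.le)
              (by positivity) h4
          _ = _ := by field_simp
      have huv' : (u : ℝ) ≤ v := by exact_mod_cast huv
      rw [EQ.diff u v huv (fun p => ψ (p : ZMod (r + 1)))]
      calc _ ≤ ‖∑ p ∈ (Icc 1 v).filter Nat.Prime, ψ (p : ZMod (r + 1))‖
            + ‖∑ p ∈ (Icc 1 u).filter Nat.Prime, ψ (p : ZMod (r + 1))‖ := norm_sub_le _ _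
        _ ≤ 2 * κ' * x₂ / (e0 * Real.log N) / m + 2 * κ' * x₂ / (e0 * Real.log N) / m :=
          add_le_add (hone v (by linarith) hvx) (hone u hut (by linarith))
        _ = _ := by ring
    · have : Ioc u v = ∅ := Finset.Ioc_eq_empty (fun h => huv h.le)
      rw [this, Finset.filter_empty, Finset.sum_empty, norm_zero]
      positivity
  -- the sum over `m`
  have hFF : ∑ m ∈ Icc 1 ⌊x₂⌋₊, FF N (e0 / Q) c' m / (m : ℝ) ≤ D := by
    set X₂ : ℝ := max ((N : ℝ) ^ 3) z with hX2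
    have hterm : ∀ m ∈ Icc 1 ⌊x₂⌋₊, FF N (e0 / Q) c' m / (m : ℝ)
        ≤ (if m = 1 then F else 0)
          + (if m ∈ Icc ⌈z⌉₊ ⌊X₂⌋₊ then F * (rInd z m / (m : ℝ)) else 0) := by
      intro m hm
      obtain ⟨hm1, hmx⟩ := Finset.mem_Icc.mp hm
      have hm0 : (0 : ℝ) < m := by exact_mod_cast hm1
      have hle : FF N (e0 / Q) c' m ≤ F := FFB.FF_le N (e0 / Q) (by omega) c' m
      have hr0 : 0 ≤ (if m ∈ Icc ⌈z⌉₊ ⌊X₂⌋₊ then F * (rInd z m / (m : ℝ)) else 0) := by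
        split_ifs
        · have : 0 ≤ rInd z m := by unfold rInd; split_ifs <;> norm_num
          positivity
        · exact le_refl _
      by_cases h1 : m = 1
      · rw [if_pos h1]
        have : FF N (e0 / Q) c' m / (m : ℝ) ≤ F := by
          rw [h1]
          rw [h1] at hle
          simpa using hle
        linarith
      · rw [if_neg h1, zero_add]
        by_cases h2 : FF N (e0 / Q) c' m = 0
        · rw [h2, zero_div]; exact hr0
        · have h3 := (FFB.FF_support N (e0 / Q) (by omega) c' m h2).2.2.2.2 (by positivity) Q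
            (fun j hj => hci j (Multiset.mem_cons_of_mem hj))
          have h4 : e0 / Q * (Q : ℝ) = e0 := by field_simp
          rw [h4, ← hzd] at h3
          have h5 : z ≤ m := by
            have hpf := Nat.minFac_prime h1
            have := h3 _ hpf (Nat.minFac_dvd m)
            have h6 : (m.minFac : ℝ) ≤ m := by exact_mod_cast Nat.minFac_le hm1
            linarith
          have h6 : m ∈ Icc ⌈z⌉₊ ⌊X₂⌋₊ := by
            refine Finset.mem_Icc.mpr ⟨Nat.ceil_le.mpr h5, Nat.le_floor ?_⟩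
            have h7 : (m : ℝ) ≤ x₂ := (Nat.le_floor_iff hx20).mp hmx
            exact le_trans h7 (le_trans hx' (le_max_left _ _))
          rw [if_pos h6]
          have h7 : rInd z m = 1 := by unfold rInd; rw [if_pos h3]
          rw [h7]
          calc FF N (e0 / Q) c' m / (m : ℝ) ≤ F / m := by gcongr
            _ = _ := by ring
    have hX2N : X₂ / z ≤ (N : ℝ) ^ 3 := by
      have hz1 : 1 ≤ z := by linarith
      rw [div_le_iff₀ (by linarith)]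
      apply max_le
      · nlinarith [pow_pos hNp 3]
      · have : (1 : ℝ) ≤ (N : ℝ) ^ 3 := one_le_pow₀ hN1
        nlinarith
    have hz1 : 0 < z := by linarith
    have hX2z : z ≤ X₂ := le_max_right _ _
    have hR' := hR z z X₂ (by linarith) (le_refl _) hX2z
    have hl2 : Real.log (X₂ / z) ≤ 3 * Real.log N := by
      calc Real.log (X₂ / z) ≤ Real.log ((N : ℝ) ^ 3) :=
            Real.log_le_log (by positivity) hX2N
        _ = 3 * Real.log N := by rw [Real.log_pow]; norm_num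
    have hR'' : ∑ k ∈ Icc ⌈z⌉₊ ⌊X₂⌋₊, rInd z k / (k : ℝ) ≤ C * (4 / e0) := by
      refine le_trans hR' ?_
      rw [hlogz, div_le_iff₀ (by positivity)]
      have : C * (4 / e0) * (e0 * Real.log N) = C * (4 * Real.log N) := by field_simp
      rw [this]
      apply mul_le_mul_of_nonneg_left _ hC.le
      linarith
    calc ∑ m ∈ Icc 1 ⌊x₂⌋₊, FF N (e0 / Q) c' m / (m : ℝ)
        ≤ ∑ m ∈ Icc 1 ⌊x₂⌋₊, ((if m = 1 then F else 0)
          + (if m ∈ Icc ⌈z⌉₊ ⌊X₂⌋₊ then F * (rInd z m / (m : ℝ)) else 0)) :=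
          Finset.sum_le_sum hterm
      _ = ∑ m ∈ Icc 1 ⌊x₂⌋₊, (if m = 1 then F else 0)
          + ∑ m ∈ Icc 1 ⌊x₂⌋₊, (if m ∈ Icc ⌈z⌉₊ ⌊X₂⌋₊ then F * (rInd z m / (m : ℝ)) else 0) :=
          Finset.sum_add_distrib
      _ ≤ F + ∑ m ∈ Icc ⌈z⌉₊ ⌊X₂⌋₊, F * (rInd z m / (m : ℝ)) := by
          apply add_le_add
          · rw [← Finset.sum_filter]
            calc ∑ m ∈ (Icc 1 ⌊x₂⌋₊).filter (fun m => m = 1), F
                ≤ ∑ m ∈ ({1} : Finset ℕ), F := by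
                  apply Finset.sum_le_sum_of_subset_of_nonneg
                  · intro m hm
                    simp only [Finset.mem_filter] at hm
                    simp [hm.2]
                  · intros; exact hFp.le
              _ = F := by simp
          · rw [← Finset.sum_filter]
            apply Finset.sum_le_sum_of_subset_of_nonneg
            · intro m hm
              exact (Finset.mem_filter.mp hm).2
            · intro m _ _
              have : 0 ≤ rInd z m := by unfold rInd; split_ifs <;> norm_num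
              positivity
      _ = F * (1 + ∑ m ∈ Icc ⌈z⌉₊ ⌊X₂⌋₊, rInd z m / (m : ℝ)) := by
          rw [mul_add, mul_one, Finset.mul_sum]
      _ ≤ F * (1 + C * (4 / e0)) := by
          apply mul_le_mul_of_nonneg_left _ hFp.le
          linarith
  -- the end
  have htot := EQ.total N (e0 / Q) i c' x₁ x₂ hx20 (fun l => ψ (l : ZMod (r + 1)))
    (by intro m p; simp)
  rw [htot]
  calc _ ≤ ∑ m ∈ Icc 1 ⌊x₂⌋₊, ‖((FF N (e0 / Q) c' m : ℝ) : ℂ) * ψ (m : ZMod (r + 1)) *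
        ∑ p ∈ (Ioc (max (⌈(N : ℝ) ^ ((i : ℝ) * (e0 / Q))⌉₊ - 1) ⌊x₁ / m⌋₊)
        (min (⌈(N : ℝ) ^ (((i : ℝ) + 1) * (e0 / Q))⌉₊ - 1) ⌊x₂ / m⌋₊)).filter Nat.Prime,
          ψ (p : ZMod (r + 1))‖ := norm_sum_le _ _
    _ ≤ ∑ m ∈ Icc 1 ⌊x₂⌋₊, 4 * κ' * x₂ / (e0 * Real.log N) *
        (FF N (e0 / Q) c' m / (m : ℝ)) := by
        apply Finset.sum_le_sum
        intro m hm
        have hm1 := (Finset.mem_Icc.mp hm).1
        have h1 := hin m hm1
        have h2 : 0 ≤ FF N (e0 / Q) c' m := FFB.FF_nonneg _ _ _ _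
        rw [norm_mul, norm_mul, Complex.norm_real, Real.norm_of_nonneg h2]
        have h3 : ‖ψ (m : ZMod (r + 1))‖ ≤ 1 := DirichletCharacter.norm_le_one ψ _
        calc FF N (e0 / Q) c' m * ‖ψ (m : ZMod (r + 1))‖ * _
            ≤ FF N (e0 / Q) c' m * 1 * (4 * κ' * x₂ / (e0 * Real.log N) / m) := by
              gcongr
          _ = _ := by ring
    _ = 4 * κ' * x₂ / (e0 * Real.log N) * ∑ m ∈ Icc 1 ⌊x₂⌋₊, FF N (e0 / Q) c' m / (m : ℝ) := by
        rw [Finset.mul_sum]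
    _ ≤ 4 * κ' * x₂ / (e0 * Real.log N) * D := mul_le_mul_of_nonneg_left hFF (by positivity)
    _ = κ * x₂ / Real.log N := by
        rw [hκd]
        field_simp

end Pool.Agent.Lib.MP391708.QPA
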