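import Pool.Agent.Lib.MP_391708_nt.QPA.Spec
import Pool.Agent.Lib.MP_cb27ba_nt.H71.Jac
import Pool.Agent.Lib.MP_cb27ba_nt.H71.PV

set_option autoImplicit false

namespace Pool.Agent.Lib.MP391708.QPA.EUL

open Finset Filter Topology
open scoped Classical

noncomputable section

/-- Abel's inequality. -/
lemma abel_range (w f : ℕ → ℝ) (B : ℝ) (N : ℕ) (hw : ∀ i, i + 1 < N → w (i + 1) ≤ w i)
    (hw0 : ∀ i, i < N → 0 ≤ w i)
    (hB : ∀ m, m ≤ N → |∑ i ∈ range m, f i| ≤ B) (hN : 0 < N) :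
    |∑ i ∈ range N, w i * f i| ≤ w 0 * B := by
  have h := Finset.sum_range_by_parts w f N
  simp only [smul_eq_mul] at h
  rw [h]
  have hB0 : 0 ≤ B := (abs_nonneg _).trans (hB 0 (Nat.zero_le _))
  have h1 : |w (N - 1) * ∑ i ∈ range N, f i| ≤ w (N - 1) * B := by
    rw [abs_mul, abs_of_nonneg (hw0 _ (by omega))]
    exact mul_le_mul_of_nonneg_left (hB N le_rfl) (hw0 _ (by omega))
  have h2 : |∑ i ∈ range (N - 1), (w (i + 1) - w i) * ∑ j ∈ range (i + 1), f j|
      ≤ ∑ i ∈ range (N - 1), (w i - w (i + 1)) * B := by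
    refine (abs_sum_le_sum_abs _ _).trans (sum_le_sum fun i hi => ?_)
    rw [mem_range] at hi
    have h3 := hw i (by omega)
    rw [abs_mul, abs_of_nonpos (by linarith), neg_sub]
    exact mul_le_mul_of_nonneg_left (hB (i + 1) (by omega)) (by linarith)
  have h3 : ∑ i ∈ range (N - 1), (w i - w (i + 1)) * B = (w 0 - w (N - 1)) * B := by
    rw [← sum_mul, sum_range_sub']
  calc |w (N - 1) * ∑ i ∈ range N, f i - ∑ i ∈ range (N - 1), (w (i + 1) - w i) *
        ∑ j ∈ range (i + 1), f j|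
      ≤ |w (N - 1) * ∑ i ∈ range N, f i| + |∑ i ∈ range (N - 1), (w (i + 1) - w i) *
        ∑ j ∈ range (i + 1), f j| := abs_sub _ _
    _ ≤ w (N - 1) * B + (w 0 - w (N - 1)) * B := by linarith
    _ = w 0 * B := by ring

lemma sum_Ioc_range (g : ℕ → ℝ) (x m : ℕ) :
    ∑ i ∈ Ioc x (x + m), g i = ∑ i ∈ range m, g (x + 1 + i) := by
  have h : Ioc x (x + m) = Ico (x + 1) (x + 1 + m) := by ext i; simp; omega
  rw [h, sum_Ico_eq_sum_range]
  congr 2
  omega

/-- Abel's inequality on `Ioc x y`. -/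
lemma abel_Ioc (w f : ℕ → ℝ) (B : ℝ) (x y : ℕ)
    (hw : ∀ i, x < i → i + 1 ≤ y → w (i + 1) ≤ w i) (hw0 : ∀ i, x < i → i ≤ y → 0 ≤ w i)
    (hB : ∀ m, x ≤ m → m ≤ y → |∑ i ∈ Ioc x m, f i| ≤ B) (hW : 0 ≤ w (x + 1)) (hB0 : 0 ≤ B) :
    |∑ i ∈ Ioc x y, w i * f i| ≤ w (x + 1) * B := by
  rcases Nat.lt_or_ge x y with h | h
  · obtain ⟨N, rfl⟩ := Nat.exists_eq_add_of_lt h
    have e : x + N + 1 = x + (N + 1) := by ring
    rw [e] at hB hw hw0 ⊢
    rw [sum_Ioc_range]
    refine abel_range (fun i => w (x + 1 + i)) (fun i => f (x + 1 + i)) B (N + 1) ?_ ?_ ?_ (by omega)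
    · intro i hi
      exact hw (x + 1 + i) (by omega) (by omega)
    · intro i hi
      exact hw0 (x + 1 + i) (by omega) (by omega)
    · intro m hm
      rw [← sum_Ioc_range]
      exact hB (x + m) (by omega) (by omega)
  · rw [Ioc_eq_empty (by omega)]
    simp only [sum_empty, abs_zero]
    positivity

/-- the real character `(-a|n)` on odd `n`, `0` on even `n` -/
def ch (a : ℤ) (n : ℕ) : ℝ := if Odd n then (jacobiSym (-a) n : ℝ) else 0

lemma ch_one (a : ℤ) : ch a 1 = 1 := by simp [ch]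

lemma ch_zero (a : ℤ) : ch a 0 = 0 := by simp [ch]

lemma ch_mul (a : ℤ) (m n : ℕ) : ch a (m * n) = ch a m * ch a n := by
  unfold ch
  by_cases h1 : Odd m
  · by_cases h2 : Odd n
    · rw [if_pos (h1.mul h2), if_pos h1, if_pos h2,
        jacobiSym.mul_right' (-a) (by rintro rfl; simp at h1) (by rintro rfl; simp at h2)]
      push_cast; rfl
    · rw [if_neg (fun h => h2 (Nat.odd_mul.mp h).2), if_neg h2, mul_zero]
  · rw [if_neg (fun h => h1 (Nat.odd_mul.mp h).1), if_neg h1, zero_mul]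

lemma abs_ch_le (a : ℤ) (n : ℕ) : |ch a n| ≤ 1 := by
  unfold ch
  split_ifs
  · rcases jacobiSym.trichotomy (-a) n with h | h | h <;> rw [h] <;> simp
  · simp

variable {a : ℤ} (ha : ¬ IsSquare (-a))

include ha

lemma a_ne : -a ≠ 0 := by
  intro h; apply ha; rw [h]; exact ⟨0, by simp⟩

lemma ch_eq (n : ℕ) : ((ch a n : ℝ) : ℂ)
    = Pool.Agent.Lib.MP_cb27ba_nt.H71.jacChar (a_ne ha) (n : ZMod (4 * (-a).natAbs)) := by
  unfold ch
  split_ifs with h
  · rw [Pool.Agent.Lib.MP_cb27ba_nt.H71.jacChar_natCast_odd (a_ne ha) h]; push_cast; rfl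
  · rw [Pool.Agent.Lib.MP_cb27ba_nt.H71.jacChar_natCast_even (a_ne ha) h]; simp

lemma ch_sum_bound : ∃ B : ℝ, 0 ≤ B ∧ ∀ x y : ℕ, |∑ n ∈ Ioc x y, ch a n| ≤ B := by
  have hne : NeZero (4 * (-a).natAbs) := ⟨by have := Int.natAbs_pos.2 (a_ne ha); omega⟩
  set B := Real.sqrt ((4 * (-a).natAbs : ℕ) : ℝ) * ((Nat.divisors (4 * (-a).natAbs)).card *
    (1 + Real.log ((4 * (-a).natAbs : ℕ) : ℝ))) with hBdef
  have hB : ∀ x y : ℕ, |∑ n ∈ Ioc x y, ch a n| ≤ B := by
    intro x y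
    rcases Nat.lt_or_ge x y with h | h
    · obtain ⟨N, rfl⟩ := Nat.exists_eq_add_of_lt h
      have e : x + N + 1 = x + (N + 1) := by ring
      rw [e, sum_Ioc_range]
      have h1 := Pool.Agent.Lib.MP_cb27ba_nt.H71.polya_vinogradov
        (Pool.Agent.Lib.MP_cb27ba_nt.H71.jacChar_ne_one (a_ne ha) ha) ((x : ℤ) + 1) (N + 1)
      have h2 : ((∑ i ∈ range (N + 1), ch a (x + 1 + i) : ℝ) : ℂ)
          = ∑ i ∈ range (N + 1), Pool.Agent.Lib.MP_cb27ba_nt.H71.jacChar (a_ne ha)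
            ((((x : ℤ) + 1) + i : ℤ) : ZMod (4 * (-a).natAbs)) := by
        push_cast
        refine sum_congr rfl fun i _ => ?_
        rw [ch_eq ha]
        push_cast
        rfl
      rw [← h2, Complex.norm_real, Real.norm_eq_abs] at h1
      exact h1
    · rw [Ioc_eq_empty (by omega)]
      simp only [sum_empty, abs_zero]
      have : 0 ≤ Real.log ((4 * (-a).natAbs : ℕ) : ℝ) := Real.log_natCast_nonneg _
      positivity
  exact ⟨B, (abs_nonneg _).trans (hB 0 0), hB⟩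

/-- convergence of `∑ χ(n)/n` with an error term -/
lemma exists_l : ∃ l B : ℝ, 0 ≤ B ∧
    Tendsto (fun X : ℕ => ∑ n ∈ Ioc 0 X, ch a n / n) atTop (𝓝 l) ∧
    ∀ X : ℕ, |∑ n ∈ Ioc 0 X, ch a n / n - l| ≤ B / (X + 1) := by
  obtain ⟨B, hB0, hB⟩ := ch_sum_bound ha
  have key : ∀ X Y : ℕ, X ≤ Y → |∑ n ∈ Ioc 0 Y, ch a n / n - ∑ n ∈ Ioc 0 X, ch a n / n|
      ≤ B / (X + 1) := by
    intro X Y hXY
    have h1 : ∑ n ∈ Ioc 0 Y, ch a n / n - ∑ n ∈ Ioc 0 X, ch a n / n
        = ∑ n ∈ Ioc X Y, (1 / (n : ℝ)) * ch a n := by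
      have := Finset.sum_Ioc_consecutive (fun n : ℕ => ch a n / (n : ℝ)) (Nat.zero_le X) hXY
      rw [← this, add_sub_cancel_left]
      refine sum_congr rfl fun n _ => ?_
      ring
    rw [h1]
    have h2 := abel_Ioc (fun n : ℕ => 1 / (n : ℝ)) (ch a) B X Y ?_ ?_ ?_ ?_ hB0
    · refine h2.trans (le_of_eq ?_)
      push_cast
      ring
    · intro i hi _
      apply one_div_le_one_div_of_le
      · exact_mod_cast (by omega : 0 < i)
      · push_cast; linarith
    · intro i _ _; positivity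
    · intro m _ _; exact hB X m
    · positivity
  have hc : CauchySeq (fun X : ℕ => ∑ n ∈ Ioc 0 X, ch a n / n) := by
    refine cauchySeq_of_le_tendsto_0' (fun X : ℕ => B / ((X : ℝ) + 1)) (fun X Y hXY => ?_) ?_
    · rw [dist_comm, Real.dist_eq]; exact key X Y hXY
    · have : Tendsto (fun X : ℕ => B * (1 / ((X : ℝ) + 1))) atTop (𝓝 (B * 0)) :=
        tendsto_one_div_add_atTop_nhds_zero_nat.const_mul B
      rw [mul_zero] at this
      refine this.congr fun X => ?_
      ring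
  obtain ⟨l, hl⟩ := cauchySeq_tendsto_of_complete hc
  refine ⟨l, B, hB0, hl, fun X => ?_⟩
  have h1 : Tendsto (fun Y : ℕ => |∑ n ∈ Ioc 0 X, ch a n / n - ∑ n ∈ Ioc 0 Y, ch a n / n|) atTop
      (𝓝 |∑ n ∈ Ioc 0 X, ch a n / n - l|) := (tendsto_const_nhds.sub hl).abs
  refine le_of_tendsto h1 ?_
  filter_upwards [eventually_ge_atTop X] with Y hY
  rw [abs_sub_comm]
  exact key X Y hY


lemma U_bound : ∃ C : ℝ, ∀ x : ℕ, |∑ n ∈ Ioc 0 x, ch a n * Real.log n / n| ≤ C := by
  obtain ⟨B, hB0, hB⟩ := ch_sum_bound ha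
  have h3 : ∀ x : ℕ, x ≤ 3 → |∑ n ∈ Ioc 0 x, ch a n * Real.log n / n|
      ≤ ∑ n ∈ Ioc (0:ℕ) 3, Real.log (n:ℝ) / (n:ℝ) := by
    intro x hx
    refine (abs_sum_le_sum_abs _ _).trans ?_
    refine (sum_le_sum (g := fun n : ℕ => Real.log n / n) fun n _ => ?_).trans ?_
    · rw [abs_div, abs_mul, abs_of_nonneg (Real.log_natCast_nonneg n), Nat.abs_cast]
      have := abs_ch_le a n
      have h4 := Real.log_natCast_nonneg n
      apply div_le_div_of_nonneg_right _ (Nat.cast_nonneg n)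
      nlinarith
    · apply sum_le_sum_of_subset_of_nonneg (Ioc_subset_Ioc_right hx)
      intro n _ _
      exact div_nonneg (Real.log_natCast_nonneg n) (Nat.cast_nonneg n)
  refine ⟨∑ n ∈ Ioc (0:ℕ) 3, Real.log (n:ℝ) / (n:ℝ) + B, fun x => ?_⟩
  rcases le_total x 3 with hx | hx
  · exact (h3 x hx).trans (by linarith)
  · have := Finset.sum_Ioc_consecutive (fun n : ℕ => ch a n * Real.log n / (n : ℝ))
      (Nat.zero_le 3) hx
    rw [← this]
    refine (abs_add_le _ _).trans (add_le_add (h3 3 le_rfl) ?_)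
    have e : ∑ n ∈ Ioc 3 x, ch a n * Real.log n / (n : ℝ)
        = ∑ n ∈ Ioc 3 x, (Real.log n / n) * ch a n := sum_congr rfl fun n _ => by ring
    rw [e]
    have hexp : Real.exp 1 ≤ 3 := by linarith [Real.exp_one_lt_d9]
    have h2 := abel_Ioc (fun n : ℕ => Real.log n / (n : ℝ)) (ch a) B 3 x ?_ ?_ ?_ ?_ hB0
    · refine h2.trans ?_
      have h4 : Real.log ((3 + 1 : ℕ) : ℝ) ≤ ((3 + 1 : ℕ) : ℝ) - 1 :=
        Real.log_le_sub_one_of_pos (by norm_num)
      have h5 : Real.log ((3 + 1 : ℕ) : ℝ) / ((3 + 1 : ℕ) : ℝ) ≤ 1 := by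
        rw [div_le_one (by norm_num)]
        linarith
      calc Real.log ((3 + 1 : ℕ) : ℝ) / ((3 + 1 : ℕ) : ℝ) * B ≤ 1 * B :=
            mul_le_mul_of_nonneg_right h5 hB0
        _ = B := one_mul B
    · intro i hi _
      apply Real.log_div_self_antitoneOn
      · simp only [Set.mem_Ici]
        have : (3 : ℝ) < i := by exact_mod_cast hi
        linarith
      · simp only [Set.mem_Ici]
        have : (3 : ℝ) < i := by exact_mod_cast hi
        push_cast
        linarith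
      · push_cast; linarith
    · intro i _ _
      exact div_nonneg (Real.log_natCast_nonneg i) (Nat.cast_nonneg i)
    · intro m _ _; exact hB 3 m
    · exact div_nonneg (Real.log_natCast_nonneg _) (Nat.cast_nonneg _)

/-- the arithmetic function `χ(n)Λ(n)/n` -/
def fL (a : ℤ) : ArithmeticFunction ℝ :=
  ⟨fun n => ch a n * ArithmeticFunction.vonMangoldt n / n, by simp⟩

/-- the arithmetic function `χ(n)/n` -/
def fC (a : ℤ) : ArithmeticFunction ℝ := ⟨fun n => ch a n / n, by simp⟩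

omit ha in
lemma conv_eq (n : ℕ) : (fL a * fC a) n = ch a n * Real.log n / n := by
  rw [ArithmeticFunction.mul_apply]
  have h : ∀ x ∈ n.divisorsAntidiagonal, fL a x.1 * fC a x.2
      = ch a n / n * ArithmeticFunction.vonMangoldt x.1 := by
    intro x hx
    rw [Nat.mem_divisorsAntidiagonal] at hx
    obtain ⟨h1, h2⟩ := hx
    show ch a x.1 * ArithmeticFunction.vonMangoldt x.1 / x.1 * (ch a x.2 / x.2) = _
    rw [← h1, ch_mul]
    push_cast
    have hx1 : (x.1 : ℝ) ≠ 0 := by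
      intro h; apply h2; rw [← h1]; simp only [Nat.cast_eq_zero] at h; rw [h, zero_mul]
    have hx2 : (x.2 : ℝ) ≠ 0 := by
      intro h; apply h2; rw [← h1]; simp only [Nat.cast_eq_zero] at h; rw [h, mul_zero]
    field_simp
  rw [sum_congr rfl h, ← mul_sum,
    Nat.sum_divisorsAntidiagonal (fun i _ => ArithmeticFunction.vonMangoldt i),
    ArithmeticFunction.vonMangoldt_sum]
  ring

lemma T_bound {l : ℝ} (hl0 : l ≠ 0)
    (hl : Tendsto (fun X : ℕ => ∑ n ∈ Ioc 0 X, ch a n / n) atTop (𝓝 l)) :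
    ∃ C : ℝ, ∀ x : ℕ, |∑ n ∈ Ioc 0 x, ch a n * ArithmeticFunction.vonMangoldt n / n| ≤ C := by
  obtain ⟨l', B, hB0, hl', hB⟩ := exists_l ha
  have hll : l' = l := tendsto_nhds_unique hl' hl
  rw [hll] at hB
  obtain ⟨U, hU⟩ := U_bound ha
  have hpsi : ∀ x : ℕ, ∑ n ∈ Ioc 0 x, ArithmeticFunction.vonMangoldt n
      ≤ (Real.log 4 + 4) * x := by
    intro x
    have := Chebyshev.psi_le_const_mul_self (x := (x : ℝ)) (Nat.cast_nonneg x)
    unfold Chebyshev.psi at this
    rwa [Nat.floor_natCast] at this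
  have hUx : ∀ x : ℕ, ∑ n ∈ Ioc 0 x, ch a n * Real.log n / n
      = ∑ d ∈ Ioc 0 x, (ch a d * ArithmeticFunction.vonMangoldt d / d)
        * ∑ m ∈ Ioc 0 (x / d), ch a m / m := by
    intro x
    have := ArithmeticFunction.sum_Ioc_mul_eq_sum_sum (fL a) (fC a) x
    rw [sum_congr rfl (fun n _ => conv_eq n)] at this
    exact this
  refine ⟨(U + B * (Real.log 4 + 4)) / |l|, fun x => ?_⟩
  have hlpos : 0 < |l| := abs_pos.2 hl0
  rw [le_div_iff₀ hlpos, ← abs_mul]
  have h1 : (∑ n ∈ Ioc 0 x, ch a n * ArithmeticFunction.vonMangoldt n / n) * l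
      = ∑ n ∈ Ioc 0 x, ch a n * Real.log n / n
        - ∑ d ∈ Ioc 0 x, (ch a d * ArithmeticFunction.vonMangoldt d / d)
        * (∑ m ∈ Ioc 0 (x / d), ch a m / m - l) := by
    rw [hUx x, sum_mul, ← sum_sub_distrib]
    refine sum_congr rfl fun d _ => ?_
    ring
  rw [h1]
  refine (abs_sub _ _).trans (add_le_add (hU x) ?_)
  rcases Nat.eq_zero_or_pos x with hx0 | hx0
  · rw [hx0]
    simp only [Ioc_self, sum_empty, abs_zero]
    have : 0 ≤ Real.log 4 := Real.log_nonneg (by norm_num)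
    positivity
  have hx : (0 : ℝ) < x := by exact_mod_cast hx0
  calc |∑ d ∈ Ioc 0 x, (ch a d * ArithmeticFunction.vonMangoldt d / d)
        * (∑ m ∈ Ioc 0 (x / d), ch a m / m - l)|
      ≤ ∑ d ∈ Ioc 0 x, ArithmeticFunction.vonMangoldt d * (B / x) := by
        refine (abs_sum_le_sum_abs _ _).trans (sum_le_sum fun d hd => ?_)
        rw [mem_Ioc] at hd
        have hd0 : (0 : ℝ) < d := by exact_mod_cast hd.1
        have hL : 0 ≤ ArithmeticFunction.vonMangoldt d := ArithmeticFunction.vonMangoldt_nonneg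
        rw [abs_mul, abs_div, abs_mul, abs_of_nonneg hL, Nat.abs_cast]
        have h2 : |∑ m ∈ Ioc 0 (x / d), ch a m / m - l| ≤ B * (d / x) := by
          refine (hB (x / d)).trans ?_
          rw [div_eq_mul_inv]
          apply mul_le_mul_of_nonneg_left _ hB0
          rw [inv_le_comm₀ (by positivity) (by positivity), inv_div]
          rw [div_le_iff₀ hd0]
          have h3 : x < (x / d + 1) * d := by
            have := Nat.lt_mul_div_succ x (show 0 < d from hd.1)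
            rw [mul_comm]
            exact this
          exact_mod_cast h3.le
        calc |ch a d| * ArithmeticFunction.vonMangoldt d / d * |∑ m ∈ Ioc 0 (x / d), ch a m / m - l|
            ≤ 1 * ArithmeticFunction.vonMangoldt d / d * (B * (d / x)) := by
              apply mul_le_mul _ h2 (abs_nonneg _) (by positivity)
              apply div_le_div_of_nonneg_right _ hd0.le
              exact mul_le_mul_of_nonneg_right (abs_ch_le a d) hL
          _ = ArithmeticFunction.vonMangoldt d * (B / x) := by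
              field_simp
    _ = (∑ d ∈ Ioc 0 x, ArithmeticFunction.vonMangoldt d) * (B / x) := by rw [sum_mul]
    _ ≤ ((Real.log 4 + 4) * x) * (B / x) := by
        apply mul_le_mul_of_nonneg_right (hpsi x); positivity
    _ = B * (Real.log 4 + 4) := by field_simp


omit ha in
lemma sum_Ioc_eq_range (g : ℕ → ℝ) (h0 : g 0 = 0) (x : ℕ) :
    ∑ n ∈ Ioc 0 x, g n = ∑ n ∈ range (x + 1), g n := by
  have h := sum_Ioc_range g 0 x
  rw [zero_add] at h
  rw [h, sum_range_succ', h0, add_zero]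
  refine sum_congr rfl fun i _ => ?_
  congr 1
  omega

/-- `χ(p) log p / p` on primes -/
def pl (a : ℤ) (n : ℕ) : ℝ := if n.Prime then ch a n * Real.log n / n else 0

/-- `χ(p)/p` on primes -/
def pc' (a : ℤ) (n : ℕ) : ℝ := if n.Prime then ch a n / n else 0

lemma pl_bound {l : ℝ} (hl0 : l ≠ 0)
    (hl : Tendsto (fun X : ℕ => ∑ n ∈ Ioc 0 X, ch a n / n) atTop (𝓝 l)) :
    ∃ C : ℝ, ∀ x : ℕ, |∑ n ∈ Ioc 0 x, pl a n| ≤ C := by
  obtain ⟨C, hC⟩ := T_bound ha hl0 hl
  have hs := ArithmeticFunction.vonMangoldt.summable_residueClass_non_primes_div (0 : ZMod 1)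
  set np : ℕ → ℝ := fun n => (if Nat.Prime n then 0 else
    ArithmeticFunction.vonMangoldt.residueClass (0 : ZMod 1) n) / n with hnp
  have hnp0 : ∀ n, 0 ≤ np n := by
    intro n
    rw [hnp]
    simp only
    split_ifs
    · simp
    · exact div_nonneg (ArithmeticFunction.vonMangoldt.residueClass_nonneg _ n) (Nat.cast_nonneg n)
  have hres : ∀ n : ℕ, ArithmeticFunction.vonMangoldt.residueClass (0 : ZMod 1) n
      = ArithmeticFunction.vonMangoldt n := by
    intro n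
    unfold ArithmeticFunction.vonMangoldt.residueClass
    rw [Set.indicator_of_mem]
    simp only [Set.mem_ofPred_eq]
    exact Subsingleton.elim _ _
  refine ⟨C + ∑' n, np n, fun x => ?_⟩
  have h1 : ∑ n ∈ Ioc 0 x, pl a n = ∑ n ∈ Ioc 0 x, ch a n * ArithmeticFunction.vonMangoldt n / n
      - ∑ n ∈ Ioc 0 x, ch a n * np n := by
    rw [← sum_sub_distrib]
    refine sum_congr rfl fun n _ => ?_
    rw [hnp]
    simp only
    unfold pl
    split_ifs with h
    · rw [ArithmeticFunction.vonMangoldt_apply_prime h]; ring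
    · rw [hres]; ring
  rw [h1]
  refine (abs_sub _ _).trans (add_le_add (hC x) ?_)
  refine (abs_sum_le_sum_abs _ _).trans ?_
  refine le_trans (sum_le_sum (g := np) fun n _ => ?_) (hs.sum_le_tsum _ (fun n _ => hnp0 n))
  rw [abs_mul, abs_of_nonneg (hnp0 n)]
  have := abs_ch_le a n
  have := hnp0 n
  nlinarith

lemma pc_conv {l : ℝ} (hl0 : l ≠ 0)
    (hl : Tendsto (fun X : ℕ => ∑ n ∈ Ioc 0 X, ch a n / n) atTop (𝓝 l)) :
    ∃ P : ℝ, Tendsto (fun N : ℕ => ∑ n ∈ range N, pc' a n) atTop (𝓝 P) := by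
  obtain ⟨C, hC⟩ := pl_bound ha hl0 hl
  have hlog : ∀ i : ℕ, 0 < Real.log ((i : ℝ) + 2) := fun i =>
    Real.log_pos (by have : (0 : ℝ) ≤ i := Nat.cast_nonneg i; linarith)
  have hanti : Antitone (fun i : ℕ => 1 / Real.log ((i : ℝ) + 2)) := by
    intro i j hij
    apply one_div_le_one_div_of_le (hlog i)
    apply Real.log_le_log
    · have : (0 : ℝ) ≤ i := Nat.cast_nonneg i; linarith
    · have : (i : ℝ) ≤ j := by exact_mod_cast hij
      linarith
  have hlim : Tendsto (fun i : ℕ => 1 / Real.log ((i : ℝ) + 2)) atTop (𝓝 0) := by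
    simp_rw [one_div]
    refine tendsto_inv_atTop_zero.comp (Real.tendsto_log_atTop.comp ?_)
    exact tendsto_atTop_add_const_right _ _ tendsto_natCast_atTop_atTop
  have hb : ∀ n : ℕ, ‖∑ i ∈ range n, pl a (i + 2)‖ ≤ C := by
    intro n
    have h1 : ∑ i ∈ range n, pl a (i + 2) = ∑ i ∈ Ioc 0 (n + 1), pl a i := by
      rw [sum_Ioc_eq_range (pl a) (by simp [pl]), sum_range_succ', sum_range_succ']
      simp only [pl, Nat.not_prime_zero, Nat.not_prime_one, if_false, add_zero, zero_add]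
    rw [h1, Real.norm_eq_abs]
    exact hC (n + 1)
  have hc := hanti.cauchySeq_series_mul_of_tendsto_zero_of_bounded hlim hb
  obtain ⟨P, hP⟩ := cauchySeq_tendsto_of_complete hc
  refine ⟨P, ?_⟩
  rw [← tendsto_add_atTop_iff_nat 2]
  refine hP.congr fun n => ?_
  rw [sum_range_succ', sum_range_succ']
  simp only [pc', Nat.not_prime_zero, Nat.not_prime_one, if_false, add_zero, zero_add]
  refine sum_congr rfl fun i _ => ?_
  unfold pl
  split_ifs with h
  · have := hlog i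
    rw [smul_eq_mul]
    push_cast
    rw [show (i : ℝ) + 1 + 1 = (i : ℝ) + 2 by ring]
    field_simp
  · simp

omit ha in
lemma log_taylor {u : ℝ} (hu : |u| ≤ 1 / 2) : |-Real.log (1 - u) - u| ≤ 2 * u ^ 2 := by
  have h := Real.abs_log_sub_add_sum_range_le (show |u| < 1 by linarith) 1
  simp only [range_one, sum_singleton, Nat.cast_zero, zero_add, pow_one, div_one] at h
  have h1 : |-Real.log (1 - u) - u| = |u + Real.log (1 - u)| := by
    rw [← abs_neg]; congr 1; ring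
  rw [h1]
  refine h.trans ?_
  rw [div_le_iff₀ (by linarith)]
  rw [show (1 + 1 : ℕ) = 2 from rfl, sq_abs]
  nlinarith [sq_nonneg u]

omit ha in
/-- Abel's theorem for Dirichlet series -/
lemma abel_limit (f : ℕ → ℝ) (L : ℝ)
    (hf : Tendsto (fun N => ∑ n ∈ Ioc 0 N, f n) atTop (𝓝 L)) (h0 : f 0 = 0)
    (hs : ∀ σ : ℝ, 0 < σ → Summable (fun n : ℕ => f n * (n : ℝ) ^ (-σ))) :
    Tendsto (fun σ : ℝ => ∑' n : ℕ, f n * (n : ℝ) ^ (-σ)) (𝓝[>] 0) (𝓝 L) := by
  rw [Metric.tendsto_nhds]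
  intro ε hε
  obtain ⟨M, hM⟩ := Metric.tendsto_atTop.1 hf (ε / 5) (by positivity)
  have hM' : ∀ N, M ≤ N → |∑ n ∈ Ioc 0 N, f n - L| ≤ ε / 5 := fun N hN => by
    have := hM N hN; rw [Real.dist_eq] at this; exact this.le
  -- the finite part
  have hfin : Tendsto (fun σ : ℝ => ∑ n ∈ Ioc 0 M, f n * (n : ℝ) ^ (-σ)) (𝓝[>] 0)
      (𝓝 (∑ n ∈ Ioc 0 M, f n)) := by
    have : Tendsto (fun σ : ℝ => ∑ n ∈ Ioc 0 M, f n * (n : ℝ) ^ (-σ)) (𝓝 0)
        (𝓝 (∑ n ∈ Ioc 0 M, f n * (n : ℝ) ^ (-(0 : ℝ)))) := by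
      refine tendsto_finsetSum _ fun n hn => ?_
      rw [mem_Ioc] at hn
      have hn0 : (0 : ℝ) < n := by exact_mod_cast hn.1
      refine Tendsto.const_mul _ ?_
      have hc : Continuous (fun σ : ℝ => (n : ℝ) ^ (-σ)) :=
        continuous_const.rpow continuous_neg (fun _ => Or.inl hn0.ne')
      exact hc.tendsto 0
    simp only [neg_zero, Real.rpow_zero, mul_one] at this
    exact this.mono_left nhdsWithin_le_nhds
  have htail : ∀ σ : ℝ, 0 < σ → |∑' n : ℕ, f n * (n : ℝ) ^ (-σ)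
      - ∑ n ∈ Ioc 0 M, f n * (n : ℝ) ^ (-σ)| ≤ 2 * ε / 5 := by
    intro σ hσ
    have h1 : Tendsto (fun N : ℕ => ∑ n ∈ Ioc 0 N, f n * (n : ℝ) ^ (-σ)) atTop
        (𝓝 (∑' n : ℕ, f n * (n : ℝ) ^ (-σ))) := by
      have h2 := (hs σ hσ).hasSum.tendsto_sum_nat
      rw [← tendsto_add_atTop_iff_nat 1] at h2
      refine h2.congr fun N => ?_
      rw [sum_Ioc_eq_range (fun n : ℕ => f n * (n : ℝ) ^ (-σ)) (by simp [h0])]
    have h3 : Tendsto (fun N : ℕ => |∑ n ∈ Ioc 0 N, f n * (n : ℝ) ^ (-σ)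
        - ∑ n ∈ Ioc 0 M, f n * (n : ℝ) ^ (-σ)|) atTop
        (𝓝 |∑' n : ℕ, f n * (n : ℝ) ^ (-σ) - ∑ n ∈ Ioc 0 M, f n * (n : ℝ) ^ (-σ)|) :=
      (h1.sub tendsto_const_nhds).abs
    refine le_of_tendsto h3 ?_
    filter_upwards [eventually_ge_atTop M] with N hN
    have h4 := Finset.sum_Ioc_consecutive (fun n : ℕ => f n * (n : ℝ) ^ (-σ)) (Nat.zero_le M) hN
    rw [← h4, add_sub_cancel_left]
    have h5 := abel_Ioc (fun n : ℕ => (n : ℝ) ^ (-σ)) f (2 * ε / 5) M N ?_ ?_ ?_ ?_ (by positivity)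
    · rw [sum_congr rfl (fun n _ => mul_comm (f n) ((n : ℝ) ^ (-σ)))]
      refine h5.trans ?_
      have h6 : (((M + 1 : ℕ) : ℝ)) ^ (-σ) ≤ 1 := by
        apply Real.rpow_le_one_of_one_le_of_nonpos
        · push_cast; linarith [Nat.cast_nonneg (α := ℝ) M]
        · linarith
      calc (((M + 1 : ℕ) : ℝ)) ^ (-σ) * (2 * ε / 5) ≤ 1 * (2 * ε / 5) :=
            mul_le_mul_of_nonneg_right h6 (by positivity)
        _ = _ := one_mul _
    · intro i hi _
      apply Real.rpow_le_rpow_of_nonpos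
      · exact_mod_cast (by omega : 0 < i)
      · push_cast; linarith
      · linarith
    · intro i _ _; positivity
    · intro m hm _
      have h7 := Finset.sum_Ioc_consecutive f (Nat.zero_le M) hm
      have h8 : ∑ i ∈ Ioc M m, f i = (∑ n ∈ Ioc 0 m, f n - L) - (∑ n ∈ Ioc 0 M, f n - L) := by
        rw [← h7]; ring
      rw [h8]
      refine (abs_sub _ _).trans ?_
      have := hM' m hm
      have := hM' M le_rfl
      linarith
    · positivity
  have hfin' := Metric.tendsto_nhds.1 hfin (ε / 5) (by positivity)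
  filter_upwards [hfin', self_mem_nhdsWithin] with σ h1 hσ
  rw [Real.dist_eq] at h1 ⊢
  have h2 := htail σ hσ
  have h3 := hM' M le_rfl
  calc |∑' n : ℕ, f n * (n : ℝ) ^ (-σ) - L|
      = |(∑' n : ℕ, f n * (n : ℝ) ^ (-σ) - ∑ n ∈ Ioc 0 M, f n * (n : ℝ) ^ (-σ))
        + ((∑ n ∈ Ioc 0 M, f n * (n : ℝ) ^ (-σ) - ∑ n ∈ Ioc 0 M, f n)
        + (∑ n ∈ Ioc 0 M, f n - L))| := by congr 1; ring
    _ ≤ 2 * ε / 5 + (ε / 5 + ε / 5) := by
        refine (abs_add_le _ _).trans (add_le_add h2 ((abs_add_le _ _).trans (add_le_add h1.le h3)))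
    _ < ε := by linarith


/-- `χ(n) n^(-1-σ)` -/
def us (a : ℤ) (σ : ℝ) (n : ℕ) : ℝ := ch a n / n * (n : ℝ) ^ (-σ)

omit ha in
lemma abs_us_le {σ : ℝ} (hσ : 0 ≤ σ) (n : ℕ) : |us a σ n| ≤ 1 / n := by
  unfold us
  rcases Nat.eq_zero_or_pos n with rfl | hn
  · simp
  have hn1 : (1 : ℝ) ≤ n := by exact_mod_cast hn
  rw [abs_mul, abs_div, Nat.abs_cast, abs_of_nonneg (show (0 : ℝ) ≤ (n : ℝ) ^ (-σ) by positivity)]
  have h1 : (n : ℝ) ^ (-σ) ≤ 1 := Real.rpow_le_one_of_one_le_of_nonpos hn1 (by linarith)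
  calc |ch a n| / n * (n : ℝ) ^ (-σ) ≤ 1 / n * 1 := by
        apply mul_le_mul _ h1 (by positivity) (by positivity)
        exact div_le_div_of_nonneg_right (abs_ch_le a n) (by linarith)
    _ = 1 / n := mul_one _

omit ha in
lemma summable_us {σ : ℝ} (hσ : 0 < σ) : Summable (fun n : ℕ => |us a σ n|) := by
  have h : Summable (fun n : ℕ => (n : ℝ) ^ (-(1 + σ))) :=
    Real.summable_nat_rpow.2 (by linarith)
  refine Summable.of_nonneg_of_le (fun _ => abs_nonneg _) (fun n => ?_) h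
  unfold us
  rcases Nat.eq_zero_or_pos n with rfl | hn
  · simp
    positivity
  have hn0 : (0 : ℝ) < n := by exact_mod_cast hn
  rw [abs_mul, abs_div, Nat.abs_cast, abs_of_nonneg (show (0 : ℝ) ≤ (n : ℝ) ^ (-σ) by positivity)]
  have h1 : (n : ℝ) ^ (-(1 + σ)) = 1 / n * (n : ℝ) ^ (-σ) := by
    rw [neg_add, Real.rpow_add hn0, Real.rpow_neg_one, one_div]
  rw [h1]
  apply mul_le_mul_of_nonneg_right _ (by positivity)
  exact div_le_div_of_nonneg_right (abs_ch_le a n) hn0.le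

/-- `χ(n) n^(-1-σ)` as a homomorphism -/
def uh (a : ℤ) (σ : ℝ) : ℕ →*₀ ℝ where
  toFun := us a σ
  map_zero' := by simp [us, ch_zero]
  map_one' := by simp [us, ch_one]
  map_mul' m n := by
    unfold us
    rw [ch_mul]
    push_cast
    rw [Real.mul_rpow (Nat.cast_nonneg m) (Nat.cast_nonneg n)]
    rw [div_mul_div_comm (ch a m) (m : ℝ) (ch a n) (n : ℝ) |>.symm]
    ring

/-- `-log(1 - u)` on primes -/
def gs (a : ℤ) (σ : ℝ) (n : ℕ) : ℝ := if n.Prime then -Real.log (1 - us a σ n) else 0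

/-- `u` on primes -/
def ps (a : ℤ) (σ : ℝ) (n : ℕ) : ℝ := if n.Prime then us a σ n else 0

omit ha in
lemma abs_us_le_half {σ : ℝ} (hσ : 0 ≤ σ) {n : ℕ} (hn : n.Prime) : |us a σ n| ≤ 1 / 2 := by
  refine (abs_us_le hσ n).trans ?_
  apply one_div_le_one_div_of_le (by norm_num)
  exact_mod_cast hn.two_le

omit ha in
lemma gs_sub_ps_le {σ : ℝ} (hσ : 0 ≤ σ) (n : ℕ) : |gs a σ n - ps a σ n| ≤ 2 * (1 / (n : ℝ) ^ 2) := by
  unfold gs ps
  split_ifs with h
  · refine (log_taylor (abs_us_le_half hσ h)).trans ?_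
    have h1 := abs_us_le (a := a) hσ n
    have h2 : us a σ n ^ 2 ≤ (1 / (n : ℝ)) ^ 2 := by
      rw [← sq_abs]
      exact pow_le_pow_left₀ (abs_nonneg _) h1 2
    rw [one_div, inv_pow, ← one_div] at h2
    linarith
  · simp

omit ha in
lemma summable_sq : Summable (fun n : ℕ => 2 * (1 / (n : ℝ) ^ 2)) :=
  (Real.summable_one_div_nat_pow.2 (by norm_num)).mul_left 2

omit ha in
lemma summable_diff {σ : ℝ} (hσ : 0 ≤ σ) : Summable (fun n => gs a σ n - ps a σ n) :=
  Summable.of_norm_bounded summable_sq (fun n => by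
    rw [Real.norm_eq_abs]; exact gs_sub_ps_le hσ n)

omit ha in
lemma prod_eq_exp {σ : ℝ} (hσ : 0 ≤ σ) (N : ℕ) :
    ∏ p ∈ N.primesBelow, (1 - us a σ p)⁻¹ = Real.exp (∑ n ∈ range N, gs a σ n) := by
  rw [Real.exp_sum, Nat.primesBelow, prod_filter]
  refine prod_congr rfl fun n _ => ?_
  unfold gs
  split_ifs with h
  · have h1 := abs_us_le_half (a := a) hσ h
    have h2 := (abs_le.1 h1).2
    rw [Real.exp_neg, Real.exp_log (by linarith)]
  · simp

omit ha in
lemma summable_ps {σ : ℝ} (hσ : 0 < σ) : Summable (ps a σ) := by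
  refine Summable.of_norm_bounded (summable_us (a := a) hσ) (fun n => ?_)
  unfold ps
  split_ifs
  · exact le_of_eq (Real.norm_eq_abs _)
  · simp

omit ha in
lemma D_eq {σ : ℝ} (hσ : 0 < σ) :
    ∑' n, us a σ n = Real.exp (∑' n, ps a σ n + ∑' n, (gs a σ n - ps a σ n)) := by
  have h1 := EulerProduct.eulerProduct_completely_multiplicative (f := uh a σ) (by
    refine (summable_us (a := a) hσ).congr fun n => ?_
    rw [Real.norm_eq_abs]; rfl)
  have h2 : Tendsto (fun N : ℕ => ∏ p ∈ N.primesBelow, (1 - us a σ p)⁻¹) atTop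
      (𝓝 (∑' n, us a σ n)) := h1
  have h3 : HasSum (fun n => ps a σ n + (gs a σ n - ps a σ n))
      (∑' n, ps a σ n + ∑' n, (gs a σ n - ps a σ n)) :=
    (summable_ps hσ).hasSum.add (summable_diff hσ.le).hasSum
  have h4 : Tendsto (fun N : ℕ => ∑ n ∈ range N, gs a σ n) atTop
      (𝓝 (∑' n, ps a σ n + ∑' n, (gs a σ n - ps a σ n))) := by
    refine h3.tendsto_sum_nat.congr fun N => ?_
    refine sum_congr rfl fun n _ => ?_
    ring
  have h5 := (Real.continuous_exp.tendsto _).comp h4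
  refine tendsto_nhds_unique h2 (h5.congr fun N => ?_)
  rw [Function.comp_apply, prod_eq_exp hσ.le]

omit ha in
lemma diff_tendsto : Tendsto (fun σ : ℝ => ∑' n, (gs a σ n - ps a σ n)) (𝓝[>] 0)
    (𝓝 (∑' n, (gs a 0 n - ps a 0 n))) := by
  refine tendsto_tsum_of_dominated_convergence summable_sq (fun n => ?_) ?_
  · have hu : Tendsto (fun σ : ℝ => us a σ n) (𝓝[>] 0) (𝓝 (us a 0 n)) := by
      unfold us
      rcases Nat.eq_zero_or_pos n with rfl | hn
      · simp only [ch_zero, zero_div, zero_mul]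
        exact tendsto_const_nhds
      · refine Tendsto.const_mul _ ?_
        have hn0 : (0 : ℝ) < n := by exact_mod_cast hn
        have hc : Continuous (fun σ : ℝ => (n : ℝ) ^ (-σ)) :=
          continuous_const.rpow continuous_neg (fun _ => Or.inl hn0.ne')
        exact (hc.tendsto 0).mono_left nhdsWithin_le_nhds
    by_cases hp : n.Prime
    · simp only [gs, ps, if_pos hp]
      refine Tendsto.sub (Tendsto.neg ?_) hu
      have h1 := abs_us_le_half (a := a) le_rfl hp (σ := 0)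
      have h2 := (abs_le.1 h1).2
      exact (tendsto_const_nhds.sub hu).log (by linarith)
    · simp only [gs, ps, if_neg hp]
      exact tendsto_const_nhds
  · filter_upwards [self_mem_nhdsWithin] with σ hσ n
    rw [Real.norm_eq_abs]
    exact gs_sub_ps_le (le_of_lt hσ) n


lemma D_LFunction [NeZero (4 * (-a).natAbs)] {σ : ℝ} (hσ : 0 < σ) :
    ((∑' n, us a σ n : ℝ) : ℂ)
    = DirichletCharacter.LFunction (Pool.Agent.Lib.MP_cb27ba_nt.H71.jacChar (a_ne ha))
      (((1 + σ : ℝ)) : ℂ) := by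
  rw [DirichletCharacter.LFunction_eq_LSeries _ (by rw [Complex.ofReal_re]; linarith),
    Complex.ofReal_tsum]
  unfold LSeries
  refine tsum_congr fun n => ?_
  rcases Nat.eq_zero_or_pos n with rfl | hn
  · simp [us, ch_zero]
  rw [LSeries.term_of_ne_zero hn.ne']
  have hn0 : (0 : ℝ) < n := by exact_mod_cast hn
  rw [← ch_eq ha]
  have h1 : us a σ n = ch a n / (n : ℝ) ^ (1 + σ) := by
    unfold us
    rw [Real.rpow_add hn0, Real.rpow_one, Real.rpow_neg hn0.le]
    field_simp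
  rw [h1]
  push_cast
  rw [Complex.ofReal_cpow hn0.le]
  push_cast
  rfl

omit ha in
lemma us_limit {l : ℝ} (hl : Tendsto (fun X : ℕ => ∑ n ∈ Ioc 0 X, ch a n / n) atTop (𝓝 l)) :
    Tendsto (fun σ : ℝ => ∑' n, us a σ n) (𝓝[>] 0) (𝓝 l) :=
  abel_limit (fun n => ch a n / n) l hl (by simp [ch_zero]) (fun σ hσ =>
    (summable_us (a := a) hσ).of_abs)

lemma l_ne_zero {l : ℝ} (hl : Tendsto (fun X : ℕ => ∑ n ∈ Ioc 0 X, ch a n / n) atTop (𝓝 l)) :
    l ≠ 0 := by
  have hne : NeZero (4 * (-a).natAbs) := ⟨by have := Int.natAbs_pos.2 (a_ne ha); omega⟩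
  have hχ := Pool.Agent.Lib.MP_cb27ba_nt.H71.jacChar_ne_one (a_ne ha) ha
  have h1 := DirichletCharacter.LFunction_apply_one_ne_zero hχ
  have h2 := (DirichletCharacter.differentiable_LFunction hχ).continuous
  have h3 : Tendsto (fun σ : ℝ => ((∑' n, us a σ n : ℝ) : ℂ)) (𝓝[>] 0) (𝓝 (l : ℂ)) :=
    (Complex.continuous_ofReal.tendsto l).comp (us_limit hl)
  have h4 : Tendsto (fun σ : ℝ => DirichletCharacter.LFunction
      (Pool.Agent.Lib.MP_cb27ba_nt.H71.jacChar (a_ne ha)) (((1 + σ : ℝ)) : ℂ)) (𝓝[>] 0)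
      (𝓝 (DirichletCharacter.LFunction
      (Pool.Agent.Lib.MP_cb27ba_nt.H71.jacChar (a_ne ha)) 1)) := by
    have h5 : Continuous (fun σ : ℝ => DirichletCharacter.LFunction
      (Pool.Agent.Lib.MP_cb27ba_nt.H71.jacChar (a_ne ha)) (((1 + σ : ℝ)) : ℂ)) :=
      h2.comp (Complex.continuous_ofReal.comp (continuous_const.add continuous_id))
    have h6 := h5.tendsto 0
    simp only [add_zero, Complex.ofReal_one] at h6
    exact h6.mono_left nhdsWithin_le_nhds
  have h7 : (l : ℂ) = DirichletCharacter.LFunction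
      (Pool.Agent.Lib.MP_cb27ba_nt.H71.jacChar (a_ne ha)) 1 := by
    refine tendsto_nhds_unique (h3.congr' ?_) h4
    filter_upwards [self_mem_nhdsWithin] with σ hσ
    exact D_LFunction ha hσ
  intro h
  rw [h] at h7
  exact h1 (by rw [← h7]; simp)

end

end Pool.Agent.Lib.MP391708.QPA.EUL

namespace Pool.Agent.Lib.MP391708.QPA

open Finset Filter Topology EUL

theorem specEUL : SpecEUL := by
  intro a ha
  obtain ⟨l, B, hB0, hl, -⟩ := exists_l ha
  have hl0 := l_ne_zero ha hl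
  obtain ⟨P, hP⟩ := pc_conv ha hl0 hl
  set R : ℝ := ∑' n, (gs a 0 n - ps a 0 n) with hR
  have hps0 : ∀ n, ps a 0 n = pc' a n := by
    intro n
    unfold ps pc' us
    simp
  -- limit of the prime sums as `σ → 0+`
  have h1 : Tendsto (fun σ : ℝ => ∑' n, ps a σ n) (𝓝[>] 0) (𝓝 P) := by
    have h2 : Tendsto (fun N : ℕ => ∑ n ∈ Ioc 0 N, pc' a n) atTop (𝓝 P) := by
      have := (tendsto_add_atTop_iff_nat 1).2 hP
      refine this.congr fun N => ?_
      rw [sum_Ioc_eq_range (pc' a) (by simp [pc', Nat.not_prime_zero])]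
    have h3 : ∀ σ : ℝ, ∀ n : ℕ, ps a σ n = pc' a n * (n : ℝ) ^ (-σ) := by
      intro σ n
      unfold ps pc' us
      split_ifs <;> simp
    have h4 := abel_limit (pc' a) P h2 (by simp [pc', Nat.not_prime_zero]) (fun σ hσ => by
      refine (summable_ps (a := a) hσ).congr fun n => ?_
      rw [h3])
    refine h4.congr fun σ => ?_
    exact tsum_congr fun n => (h3 σ n).symm
  have hlexp : l = Real.exp (P + R) := by
    have h5 := (Real.continuous_exp.tendsto (P + R)).comp (h1.add (diff_tendsto (a := a)))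
    refine tendsto_nhds_unique (us_limit hl) (h5.congr' ?_)
    filter_upwards [self_mem_nhdsWithin] with σ hσ
    rw [Function.comp_apply, D_eq hσ]
  refine ⟨l, by rw [hlexp]; exact Real.exp_pos _, ?_, ?_⟩
  · refine hl.congr fun X => ?_
    rw [sum_filter]
    have : Ioc 0 X = Icc 1 X := rfl
    rw [this]
    refine sum_congr rfl fun n _ => ?_
    unfold ch
    split_ifs <;> simp
  · have h6 : Tendsto (fun N : ℕ => Real.exp (∑ n ∈ range (N + 1), gs a 0 n)) atTop (𝓝 l) := by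
      rw [hlexp]
      refine (Real.continuous_exp.tendsto _).comp ?_
      have h7 : Tendsto (fun N : ℕ => ∑ n ∈ range N, gs a 0 n) atTop (𝓝 (P + R)) := by
        have h8 := hP.add (summable_diff (a := a) le_rfl).hasSum.tendsto_sum_nat
        refine h8.congr fun N => ?_
        rw [← sum_add_distrib]
        refine sum_congr rfl fun n _ => ?_
        rw [← hps0]; ring
      exact (tendsto_add_atTop_iff_nat 1).2 h7
    refine h6.congr fun X => ?_
    rw [← prod_eq_exp le_rfl, Nat.primesBelow, prod_filter, prod_filter]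
    refine prod_congr rfl fun p _ => ?_
    by_cases hp : p.Prime
    · by_cases h2 : p = 2
      · rw [if_pos hp, if_neg (fun h => h.2 h2), h2]
        have : ch a 2 = 0 := by unfold ch; rw [if_neg (by decide)]
        simp [us, this]
      · rw [if_pos hp, if_pos ⟨hp, h2⟩]
        have hodd : Odd p := hp.odd_of_ne_two h2
        simp [us, ch, if_pos hodd]
    · rw [if_neg hp, if_neg (fun h => hp h.1)]

end Pool.Agent.Lib.MP391708.QPA
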