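import Pool.Agent.Lib.MP_391708_nt.QPA.Spec
import Pool.Agent.Lib.MP_391708_nt.QPA.BLK

/-!
# FIN: from the blocks to all `n ≤ N`
-/

set_option autoImplicit false

namespace Pool.Agent.Lib.MP391708.QPA

open Finset Filter Topology
open scoped Classical

namespace FIN

/-! ### the product -/

theorem Gw_eq (hP : SpecRHOP) (h2 : SpecRHO2) (X : ℕ) (a : ℤ) :
    Gw X a = ∏ w ∈ (range (X + 1)).filter (fun w => Nat.Prime w ∧ w ≠ 2),
      (1 - (jacobiSym (-a) w : ℝ) / ((w : ℝ) - 1)) := by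
  unfold Gw PB
  have hc : ⌈(X : ℝ) + 1⌉₊ = X + 1 := by
    have := Nat.ceil_natCast (R := ℝ) (X + 1)
    push_cast at this
    exact this
  rw [hc]
  symm
  apply Finset.prod_subset_one_on_sdiff
  · intro w hw
    rw [Finset.mem_filter] at hw ⊢
    exact ⟨hw.1, hw.2.1⟩
  · intro w hw
    rw [Finset.mem_sdiff, Finset.mem_filter, Finset.mem_filter] at hw
    have hw2 : w = 2 := by
      by_contra h
      exact hw.2 ⟨hw.1.1, hw.1.2, h⟩
    subst hw2
    rw [h2 a]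
    norm_num
  · intro w hw
    rw [Finset.mem_filter] at hw
    obtain ⟨_, hp, hp2⟩ := hw
    have h1 : (rho a w : ℝ) = 1 + (jacobiSym (-a) w : ℝ) := by
      have := hP a w hp hp2
      have h3 : ((rho a w : ℤ) : ℝ) = ((1 + jacobiSym (-a) w : ℤ) : ℝ) := by rw [this]
      push_cast at h3
      exact h3
    have hw1 : (2 : ℝ) < w := by
      have : 2 < w := lt_of_le_of_ne hp.two_le (Ne.symm hp2)
      exact_mod_cast this
    have hw0 : (w : ℝ) ≠ 0 := by linarith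
    have hwm : (w : ℝ) - 1 ≠ 0 := by linarith
    rw [h1]
    field_simp
    ring

/-! ### limits -/

theorem tendsto_div (k : ℕ) :
    Tendsto (fun N : ℕ => ((N / 2 ^ k : ℕ) : ℝ) / (N : ℝ)) atTop (𝓝 (1 / 2 ^ k)) := by
  have hlim : Tendsto (fun N : ℕ => 1 / 2 ^ k - 1 / (N : ℝ)) atTop (𝓝 (1 / 2 ^ k)) := by
    have := (tendsto_const_nhds (x := (1 : ℝ) / 2 ^ k)).sub (tendsto_one_div_atTop_nhds_zero_nat (𝕜 := ℝ))
    simpa using this
  refine tendsto_of_tendsto_of_tendsto_of_le_of_le' hlim tendsto_const_nhds ?_ ?_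
  · filter_upwards [eventually_gt_atTop 0] with N hN
    have hN0 : (0 : ℝ) < N := by exact_mod_cast hN
    have h1 : (N : ℝ) < 2 ^ k * (((N / 2 ^ k : ℕ) : ℝ) + 1) := by
      have h2 : N < 2 ^ k * (N / 2 ^ k + 1) := Nat.lt_mul_div_succ N (by positivity)
      exact_mod_cast h2
    rw [le_div_iff₀ hN0, sub_mul, one_div_mul_cancel hN0.ne', one_div, ← div_eq_inv_mul,
      sub_le_iff_le_add, div_le_iff₀ (by positivity)]
    linarith
  · filter_upwards [eventually_gt_atTop 0] with N hN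
    have hN0 : (0 : ℝ) < N := by exact_mod_cast hN
    rw [div_le_iff₀ hN0, one_div, ← div_eq_inv_mul, le_div_iff₀ (by positivity)]
    exact_mod_cast Nat.div_mul_le_self N (2 ^ k)

theorem tendsto_Nk (k : ℕ) : Tendsto (fun N : ℕ => N / 2 ^ k) atTop atTop :=
  Nat.tendsto_div_const_atTop (by positivity)

theorem tendsto_log_ratio (k : ℕ) :
    Tendsto (fun N : ℕ => Real.log ((N / 2 ^ k : ℕ) : ℝ) / Real.log N) atTop (𝓝 1) := by
  have hlogN : Tendsto (fun N : ℕ => Real.log (N : ℝ)) atTop atTop :=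
    Real.tendsto_log_atTop.comp tendsto_natCast_atTop_atTop
  have h1 : Tendsto (fun N : ℕ => Real.log (((N / 2 ^ k : ℕ) : ℝ) / (N : ℝ))) atTop
      (𝓝 (Real.log (1 / 2 ^ k))) :=
    (Real.continuousAt_log (by positivity)).tendsto.comp (tendsto_div k)
  have h2 : Tendsto (fun N : ℕ => 1 + Real.log (((N / 2 ^ k : ℕ) : ℝ) / (N : ℝ)) / Real.log N)
      atTop (𝓝 (1 + 0)) :=
    tendsto_const_nhds.add (h1.div_atTop hlogN)
  rw [add_zero] at h2
  refine h2.congr' ?_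
  filter_upwards [(tendsto_Nk k).eventually_gt_atTop 0, eventually_gt_atTop 1] with N hN hN1
  have h3 : (0 : ℝ) < ((N / 2 ^ k : ℕ) : ℝ) := by exact_mod_cast hN
  have h4 : (1 : ℝ) < N := by exact_mod_cast hN1
  have h5 : 0 < Real.log N := Real.log_pos h4
  rw [Real.log_div h3.ne' (by linarith)]
  field_simp
  ring

theorem tendsto_L (k : ℕ) :
    Tendsto (fun N : ℕ => ((N / 2 ^ k : ℕ) : ℝ) / Real.log ((N / 2 ^ k : ℕ) : ℝ)
      / ((N : ℝ) / Real.log N)) atTop (𝓝 (1 / 2 ^ k)) := by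
  have h1 := (tendsto_div k).mul ((tendsto_log_ratio k).inv₀ one_ne_zero)
  rw [inv_one, mul_one] at h1
  refine h1.congr' ?_
  filter_upwards with N
  rw [inv_div, div_div_div_eq, div_mul_div_comm]
  congr 1
  ring

theorem tendsto_model (hM : SpecMODP) (k : ℕ) :
    Tendsto (fun N : ℕ => model (N / 2 ^ k) primeInd / ((N : ℝ) / Real.log N)) atTop
      (𝓝 (1 / 2 ^ k / 2)) := by
  have h1 : Tendsto (fun N : ℕ => model N primeInd / ((N : ℝ) / Real.log N)) atTop (𝓝 (1 / 2)) := by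
    rw [Metric.tendsto_atTop]
    intro κ hκ
    obtain ⟨N₀, hN₀⟩ := hM (κ / 2) (by positivity)
    refine ⟨max N₀ 2, fun N hN => ?_⟩
    have h2 := hN₀ N (le_trans (le_max_left _ _) hN)
    have hN2 : 2 ≤ N := le_trans (le_max_right _ _) hN
    have hN1 : (1 : ℝ) < N := by exact_mod_cast hN2
    have hlog : 0 < Real.log N := Real.log_pos hN1
    have hL : 0 < (N : ℝ) / Real.log N := by positivity
    rw [Real.dist_eq]
    have h3 : model N primeInd / ((N : ℝ) / Real.log N) - 1 / 2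
        = (model N primeInd - N / (2 * Real.log N)) / ((N : ℝ) / Real.log N) := by
      field_simp
    rw [h3, abs_div, abs_of_pos hL, div_lt_iff₀ hL]
    refine h2.trans_lt ?_
    have h4 : κ / 2 * N / Real.log N = κ / 2 * ((N : ℝ) / Real.log N) := by ring
    rw [h4]
    nlinarith
  have h2 := (h1.comp (tendsto_Nk k)).mul (tendsto_L k)
  have h3 : (1 / 2 : ℝ) * (1 / 2 ^ k) = 1 / 2 ^ k / 2 := by ring
  rw [h3] at h2
  refine h2.congr' ?_
  filter_upwards [(tendsto_Nk k).eventually_gt_atTop 1] with N hN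
  have h4 : (1 : ℝ) < ((N / 2 ^ k : ℕ) : ℝ) := by exact_mod_cast hN
  have h5 : 0 < Real.log ((N / 2 ^ k : ℕ) : ℝ) := Real.log_pos h4
  have h6 : ((N / 2 ^ k : ℕ) : ℝ) / Real.log ((N / 2 ^ k : ℕ) : ℝ) ≠ 0 := by positivity
  simp only [Function.comp]
  rw [div_mul_div_cancel₀ h6]

theorem geom (I : ℕ) : ∑ i ∈ range I, (1 / 2 ^ (i + 1) / 2 : ℝ) = (1 - 1 / 2 ^ I) / 2 := by
  induction I with
  | zero => simp
  | succ n ih =>
    rw [Finset.sum_range_succ, ih]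
    field_simp
    ring

theorem tendsto_modelsum (hM : SpecMODP) (I : ℕ) :
    Tendsto (fun N : ℕ => (∑ i ∈ range I, model (N / 2 ^ (i + 1)) primeInd)
      / ((N : ℝ) / Real.log N)) atTop (𝓝 ((1 - 1 / 2 ^ I) / 2)) := by
  rw [← geom I]
  have h := tendsto_finsetSum (range I) (fun i _ => tendsto_model hM (i + 1))
  refine h.congr' ?_
  filter_upwards with N
  rw [Finset.sum_div]

/-! ### decomposition into blocks -/

theorem primeInd_nonneg (m : ℕ) : 0 ≤ primeInd m := by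
  unfold primeInd
  split_ifs <;> norm_num

theorem primeInd_le (m : ℕ) : primeInd m ≤ 1 := by
  unfold primeInd
  split_ifs <;> norm_num

theorem blocks (a : ℤ) (N I : ℕ) :
    |(∑ n ∈ Ioc 0 N, primeInd (val a n)) - (∑ n ∈ Ioc 0 (N / 2 ^ I), primeInd (val a n))
      - ∑ i ∈ range I, cnt (N / 2 ^ (i + 1)) a primeInd| ≤ I := by
  induction I with
  | zero => simp
  | succ I ih =>
    rw [Finset.sum_range_succ]
    set M := N / 2 ^ I with hMdef
    have hM2 : N / 2 ^ (I + 1) = M / 2 := by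
      rw [hMdef, Nat.div_div_eq_div_mul, pow_succ]
    rw [hM2]
    have h1 : ∑ n ∈ Ioc 0 M, primeInd (val a n)
        = ∑ n ∈ Ioc 0 (M / 2), primeInd (val a n) + cnt (M / 2) a primeInd
          + ∑ n ∈ Ioc (2 * (M / 2)) M, primeInd (val a n) := by
      unfold cnt
      rw [Finset.sum_Ioc_consecutive _ (Nat.zero_le _) (by omega),
        Finset.sum_Ioc_consecutive _ (Nat.zero_le _) (by omega)]
    have h2 : 0 ≤ ∑ n ∈ Ioc (2 * (M / 2)) M, primeInd (val a n) :=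
      Finset.sum_nonneg (fun _ _ => primeInd_nonneg _)
    have h3 : ∑ n ∈ Ioc (2 * (M / 2)) M, primeInd (val a n) ≤ 1 := by
      calc ∑ n ∈ Ioc (2 * (M / 2)) M, primeInd (val a n)
          ≤ ∑ n ∈ Ioc (2 * (M / 2)) M, (1 : ℝ) := Finset.sum_le_sum (fun _ _ => primeInd_le _)
        _ = ((M - 2 * (M / 2) : ℕ) : ℝ) := by
            rw [Finset.sum_const, nsmul_eq_mul, mul_one, Nat.card_Ioc]
        _ ≤ 1 := by
            have : M - 2 * (M / 2) ≤ 1 := by omega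
            exact_mod_cast this
    rw [h1] at ih
    rw [abs_le] at ih ⊢
    push_cast
    constructor <;> linarith [ih.1, ih.2]

theorem count_eq (a : ℤ) (N : ℕ) :
    (((Icc 1 N).filter (fun n : ℕ => Nat.Prime ((n : ℤ) ^ 2 + a).natAbs)).card : ℝ)
      = ∑ n ∈ Ioc 0 N, primeInd (val a n) := by
  have h : Icc 1 N = Ioc 0 N := by
    ext n
    simp only [Finset.mem_Icc, Finset.mem_Ioc]
    omega
  rw [h]
  unfold primeInd val
  rw [← Finset.sum_filter, Finset.sum_const, nsmul_eq_mul, mul_one]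

/-! ### eventual facts -/

theorem ev_large (θ : ℝ) (hθ : 0 < θ) (M : ℕ) : ∀ᶠ N : ℕ in atTop, ∀ A : ℕ,
    (N : ℝ) ^ θ ≤ A → M ≤ A := by
  have h1 : Tendsto (fun N : ℕ => (N : ℝ) ^ θ) atTop atTop :=
    (tendsto_rpow_atTop hθ).comp tendsto_natCast_atTop_atTop
  filter_upwards [h1.eventually_ge_atTop (M : ℝ)] with N hN A hA
  exact_mod_cast hN.trans hA

theorem ev_block (k : ℕ) : ∀ᶠ N : ℕ in atTop,
    (N : ℝ) ≤ ((N / 2 ^ k : ℕ) : ℝ) * Real.log ((N / 2 ^ k : ℕ) : ℝ) := by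
  have hlog : Tendsto (fun N : ℕ => Real.log ((N / 2 ^ k : ℕ) : ℝ)) atTop atTop :=
    Real.tendsto_log_atTop.comp (tendsto_natCast_atTop_atTop.comp (tendsto_Nk k))
  have h1 : Tendsto (fun N : ℕ => ((N / 2 ^ k : ℕ) : ℝ) / (N : ℝ)
      * Real.log ((N / 2 ^ k : ℕ) : ℝ)) atTop atTop :=
    (tendsto_div k).pos_mul_atTop (by positivity) hlog
  filter_upwards [h1.eventually_ge_atTop 1, eventually_gt_atTop 0] with N hN hN0
  have hN1 : (0 : ℝ) < N := by exact_mod_cast hN0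
  rw [div_mul_eq_mul_div, le_div_iff₀ hN1] at hN
  linarith

theorem ev_blockC (k : ℕ) (C : ℝ) : ∀ᶠ N : ℕ in atTop,
    C * (N : ℝ) ≤ ((N / 2 ^ k : ℕ) : ℝ) * Real.log ((N / 2 ^ k : ℕ) : ℝ) := by
  have hlog : Tendsto (fun N : ℕ => Real.log ((N / 2 ^ k : ℕ) : ℝ)) atTop atTop :=
    Real.tendsto_log_atTop.comp (tendsto_natCast_atTop_atTop.comp (tendsto_Nk k))
  have h1 : Tendsto (fun N : ℕ => ((N / 2 ^ k : ℕ) : ℝ) / (N : ℝ)
      * Real.log ((N / 2 ^ k : ℕ) : ℝ)) atTop atTop :=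
    (tendsto_div k).pos_mul_atTop (by positivity) hlog
  filter_upwards [h1.eventually_ge_atTop C, eventually_gt_atTop 0] with N hN hN0
  have hN1 : (0 : ℝ) < N := by exact_mod_cast hN0
  rw [div_mul_eq_mul_div, le_div_iff₀ hN1] at hN
  exact hN

theorem ev_L (k : ℕ) : ∀ᶠ N : ℕ in atTop,
    ((N / 2 ^ (k + 1) : ℕ) : ℝ) / Real.log ((N / 2 ^ (k + 1) : ℕ) : ℝ)
      ≤ (N : ℝ) / Real.log N := by
  have h1 : (1 : ℝ) / 2 ^ (k + 1) < 1 := by
    rw [div_lt_one (by positivity)]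
    exact one_lt_pow₀ (by norm_num) (by omega)
  filter_upwards [(tendsto_L (k + 1)).eventually_lt_const h1, eventually_gt_atTop 1] with N hN hN1
  have hN2 : (1 : ℝ) < N := by exact_mod_cast hN1
  have hlog : 0 < Real.log N := Real.log_pos hN2
  have hL : 0 < (N : ℝ) / Real.log N := by positivity
  rw [div_lt_one hL] at hN
  exact hN.le

theorem ev_I (I : ℕ) (τ : ℝ) (hτ : 0 < τ) : ∀ᶠ N : ℕ in atTop,
    (I : ℝ) ≤ τ * ((N : ℝ) / Real.log N) := by
  have h1 : Tendsto (fun x : ℝ => Real.log x / x) atTop (𝓝 0) := by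
    have := Real.isLittleO_log_id_atTop.tendsto_div_nhds_zero
    simpa using this
  have h2 := h1.comp (tendsto_natCast_atTop_atTop (R := ℝ))
  have h3 : (0 : ℝ) < τ / (I + 1) := by positivity
  filter_upwards [h2.eventually_lt_const h3, eventually_gt_atTop 1] with N hN hN1
  have hN2 : (1 : ℝ) < N := by exact_mod_cast hN1
  have hlog : 0 < Real.log N := Real.log_pos hN2
  simp only [Function.comp] at hN
  rw [div_lt_div_iff₀ (by linarith) (by positivity)] at hN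
  rw [← mul_div_assoc, le_div_iff₀ hlog]
  nlinarith

theorem ev_model (hM : SpecMODP) (I : ℕ) (τ : ℝ) (hτ : 0 < τ) : ∀ᶠ N : ℕ in atTop,
    |(∑ i ∈ range I, model (N / 2 ^ (i + 1)) primeInd)
      - (1 - 1 / 2 ^ I) / 2 * ((N : ℝ) / Real.log N)| ≤ τ * ((N : ℝ) / Real.log N) := by
  have h1 := (Metric.tendsto_nhds.1 (tendsto_modelsum hM I)) τ hτ
  filter_upwards [h1, eventually_gt_atTop 1] with N hN hN1
  have hN2 : (1 : ℝ) < N := by exact_mod_cast hN1
  have hlog : 0 < Real.log N := Real.log_pos hN2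
  have hL : 0 < (N : ℝ) / Real.log N := by positivity
  rw [Real.dist_eq] at hN
  set M := ∑ i ∈ range I, model (N / 2 ^ (i + 1)) primeInd
  have h3 : M - (1 - 1 / 2 ^ I) / 2 * ((N : ℝ) / Real.log N)
      = (M / ((N : ℝ) / Real.log N) - (1 - 1 / 2 ^ I) / 2) * ((N : ℝ) / Real.log N) := by
    field_simp
  rw [h3, abs_mul, abs_of_pos hL]
  exact mul_le_mul_of_nonneg_right hN.le hL.le

theorem ev_li (hLI : SpecLI) (τ : ℝ) (hτ : 0 < τ) : ∀ᶠ N : ℕ in atTop,
    |(∫ t in (2 : ℝ)..(N : ℝ), 1 / Real.log t) - (N : ℝ) / Real.log N|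
      ≤ τ * ((N : ℝ) / Real.log N) := by
  obtain ⟨N₀, h⟩ := hLI τ hτ
  filter_upwards [eventually_ge_atTop N₀] with N hN
  have := h N hN
  rwa [mul_div_assoc] at this

/-! ### the final inequality -/

theorem final_ineq {S SI Cn G h M L Li ε c ε₂ τ ε₁ q I : ℝ} (hε : 0 < ε) (hc : 0 < c)
    (hL : 0 < L) (hh : c ≤ h) (hSI0 : 0 ≤ SI) (hSI : SI ≤ ε₂ * L)
    (hb : |S - SI - Cn| ≤ τ * L) (hCn : |Cn - G * M| ≤ I * ε₁ * L)
    (hG : |G - h| ≤ ε / 20 * h) (hM : |M - (1 - q) / 2 * L| ≤ τ * L) (hM0 : 0 ≤ M)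
    (hLi : |Li - L| ≤ τ * L) (hε₂ : ε₂ = ε * c / 20) (hτ1 : τ ≤ ε * c / 40) (hτ2 : τ ≤ ε / 40)
    (hε1 : ε ≤ 1) (hI : I * ε₁ ≤ ε * c / 20) (hq0 : 0 ≤ q) (hq : q ≤ ε / 20) :
    |S - 1 / 2 * h * Li| ≤ ε * (h * Li) := by
  have hh0 : 0 < h := hc.trans_le hh
  have hhL : 0 < h * L := by positivity
  have hcL : c * L ≤ h * L := mul_le_mul_of_nonneg_right hh hL.le
  have hεc : ε * c * L ≤ ε * (h * L) := by nlinarith
  -- M ≤ L
  have hML : M ≤ L := by
    have h1 := (abs_le.1 hM).2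
    nlinarith
  have e1 : |(G - h) * M| ≤ ε / 20 * (h * L) := by
    rw [abs_mul, abs_of_nonneg hM0]
    calc |G - h| * M ≤ (ε / 20 * h) * L := mul_le_mul hG hML hM0 (by positivity)
      _ = ε / 20 * (h * L) := by ring
  have e2 : |h * (M - (1 - q) / 2 * L)| ≤ ε / 40 * (h * L) := by
    rw [abs_mul, abs_of_pos hh0]
    calc h * |M - (1 - q) / 2 * L| ≤ h * (τ * L) := mul_le_mul_of_nonneg_left hM hh0.le
      _ = τ * (h * L) := by ring
      _ ≤ ε / 40 * (h * L) := mul_le_mul_of_nonneg_right hτ2 hhL.le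
  have e3 : |h * (L - Li)| ≤ ε / 40 * (h * L) := by
    rw [abs_mul, abs_of_pos hh0, abs_sub_comm]
    calc h * |Li - L| ≤ h * (τ * L) := mul_le_mul_of_nonneg_left hLi hh0.le
      _ = τ * (h * L) := by ring
      _ ≤ ε / 40 * (h * L) := mul_le_mul_of_nonneg_right hτ2 hhL.le
  have e4 : q * (h * L) ≤ ε / 20 * (h * L) := mul_le_mul_of_nonneg_right hq hhL.le
  have e4' : 0 ≤ q * (h * L) := by positivity
  have e5 : τ * L ≤ ε / 40 * (h * L) := by
    calc τ * L ≤ ε * c / 40 * L := mul_le_mul_of_nonneg_right hτ1 hL.le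
      _ ≤ ε / 40 * (h * L) := by linarith
  have e6 : I * ε₁ * L ≤ ε / 20 * (h * L) := by
    calc I * ε₁ * L ≤ ε * c / 20 * L := mul_le_mul_of_nonneg_right hI hL.le
      _ ≤ ε / 20 * (h * L) := by linarith
  have e7 : SI ≤ ε / 20 * (h * L) := by
    rw [hε₂] at hSI
    linarith
  have e8 : S - 1 / 2 * h * Li = (S - SI - Cn) + SI + (Cn - G * M) + (G - h) * M
      + h * (M - (1 - q) / 2 * L) - q * (h * L) / 2 + h * (L - Li) / 2 := by ring
  have e9 : h * L / 2 ≤ h * Li := by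
    have h1 := (abs_le.1 hLi).1
    have h2 : L / 2 ≤ Li := by nlinarith
    nlinarith
  have e10 : ε * (h * L / 2) ≤ ε * (h * Li) := mul_le_mul_of_nonneg_left e9 hε.le
  have hεhL : 0 < ε * (h * L) := by positivity
  obtain ⟨a1, a2⟩ := abs_le.1 hb
  obtain ⟨b1, b2⟩ := abs_le.1 hCn
  obtain ⟨c1, c2⟩ := abs_le.1 e1
  obtain ⟨d1, d2⟩ := abs_le.1 e2
  obtain ⟨f1, f2⟩ := abs_le.1 e3
  rw [abs_le, e8]
  constructor <;> linarith

end FIN

/-- FIN with `A ≤ C N` -/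
def SpecFINC : Prop := ∀ θ ε C : ℝ, 5 / 6 < θ → 0 < ε → 0 < C → ∃ N₀ : ℕ, ∀ N A : ℕ, N₀ ≤ N →
  (N : ℝ) ^ θ ≤ A → (A : ℝ) ≤ C * N →
  (((Icc (-(A : ℤ)) A).filter (fun a : ℤ => ¬ ∃ h : ℝ, 0 < h ∧
    Tendsto (fun X : ℕ => ∏ w ∈ (range (X + 1)).filter (fun w => Nat.Prime w ∧ w ≠ 2),
      (1 - (jacobiSym (-a) w : ℝ) / ((w : ℝ) - 1))) atTop (𝓝 h) ∧
    |(((Icc 1 N).filter (fun n : ℕ => Nat.Prime ((n : ℤ) ^ 2 + a).natAbs)).card : ℝ)
      - 1 / 2 * h * ∫ t in (2 : ℝ)..(N : ℝ), 1 / Real.log t|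
      ≤ ε * (h * ∫ t in (2 : ℝ)..(N : ℝ), 1 / Real.log t))).card : ℝ) ≤ ε * A

open FIN in
theorem specFINC (hBLK : SpecBLK) (hF6 : SpecF6) (hMODP : SpecMODP) (hLI : SpecLI)
    (hTAIL : SpecTAIL) (hP : SpecRHOP) (h2 : SpecRHO2) (hGmax : SpecGMAX) : SpecFINC := by
  intro θ ε' CA hθ hε' hCA
  set ε : ℝ := min ε' 1 with hε_def
  have hε : 0 < ε := lt_min hε' one_pos
  have hε1 : ε ≤ 1 := min_le_right _ _
  have hεε : ε ≤ ε' := min_le_left _ _
  -- a lower bound for `h`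
  obtain ⟨w1', hF1⟩ := hF6 (min (1 / 2) (ε / 8)) (lt_min (by norm_num) (by positivity))
  set w1 : ℕ := max w1' 2 with hw1
  obtain ⟨A1, hF1⟩ := hF1 w1 (le_max_left _ _)
  obtain ⟨c1, hc1, hG1⟩ := hGmax w1 (le_max_right _ _)
  set c : ℝ := 2 / 3 * c1 with hc_def
  have hc : 0 < c := by positivity
  obtain ⟨CT, hCT, AT, hTAIL⟩ := hTAIL
  set ε₂ : ℝ := ε * c / 20 with hε₂
  have hε₂0 : 0 < ε₂ := by positivity
  -- the number of blocks
  obtain ⟨I, hI⟩ : ∃ I : ℕ, (1 / 2 : ℝ) ^ I < min (ε / 20) (ε * ε₂ / (16 * CT)) :=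
    exists_pow_lt_of_lt_one (lt_min (by positivity) (by positivity)) (by norm_num)
  have hI' : (1 : ℝ) / 2 ^ I < min (ε / 20) (ε * ε₂ / (16 * CT)) := by
    rwa [one_div_pow] at hI
  have hq1 : (1 : ℝ) / 2 ^ I ≤ ε / 20 := (hI'.trans_le (min_le_left _ _)).le
  have hq2 : (1 : ℝ) / 2 ^ I ≤ ε * ε₂ / (16 * CT) := (hI'.trans_le (min_le_right _ _)).le
  set ε₁ : ℝ := ε * min c 1 / (20 * (I + 1)) with hε₁
  have hmc : 0 < min c 1 := lt_min hc one_pos
  have hε₁0 : 0 < ε₁ := by positivity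
  have hIε₁ : (I : ℝ) * ε₁ ≤ ε * min c 1 / 20 := by
    rw [hε₁]
    have h3 : (I : ℝ) * (ε * min c 1 / (20 * (I + 1))) = ε * min c 1 / 20 * (I / (I + 1)) := by
      field_simp
    rw [h3]
    have h4 : (I : ℝ) / (I + 1) ≤ 1 := by
      rw [div_le_one (by positivity)]
      linarith
    nlinarith [show 0 ≤ ε * min c 1 / 20 by positivity]
  have hIε₁c : (I : ℝ) * ε₁ ≤ ε * c / 20 := by
    refine hIε₁.trans ?_
    have := min_le_left c 1
    have : ε * min c 1 ≤ ε * c := mul_le_mul_of_nonneg_left this hε.le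
    linarith
  have hIε₁1 : (I : ℝ) * ε₁ ≤ ε / 20 := by
    refine hIε₁.trans ?_
    have := min_le_right c 1
    have : ε * min c 1 ≤ ε * 1 := mul_le_mul_of_nonneg_left this hε.le
    linarith
  -- the parameter `w`
  obtain ⟨w2', hF2⟩ := hF6 (ε / 20) (by positivity)
  obtain ⟨wB, hB⟩ := hBLK θ ε₁ hθ hε₁0
  set w : ℕ := max w2' wB with hw
  obtain ⟨A2, hF2⟩ := hF2 w (le_max_left _ _)
  obtain ⟨NB, hB⟩ := hB w (le_max_right _ _)
  set τ : ℝ := ε * min c 1 / 40 with hτ_def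
  have hτ : 0 < τ := by positivity
  have hτ1 : τ ≤ ε * c / 40 := by
    have := min_le_left c 1
    have : ε * min c 1 ≤ ε * c := mul_le_mul_of_nonneg_left this hε.le
    rw [hτ_def]
    linarith
  have hτ2 : τ ≤ ε / 40 := by
    have := min_le_right c 1
    have : ε * min c 1 ≤ ε * 1 := mul_le_mul_of_nonneg_left this hε.le
    rw [hτ_def]
    linarith
  -- eventual facts
  have hevB : ∀ᶠ N : ℕ in atTop, ∀ i ∈ range I,
      NB ≤ N / 2 ^ (i + 1) ∧
      CA * (N : ℝ) ≤ ((N / 2 ^ (i + 1) : ℕ) : ℝ) * Real.log ((N / 2 ^ (i + 1) : ℕ) : ℝ) ∧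
      ((N / 2 ^ (i + 1) : ℕ) : ℝ) / Real.log ((N / 2 ^ (i + 1) : ℕ) : ℝ)
        ≤ (N : ℝ) / Real.log N := by
    rw [Filter.eventually_all_finset]
    intro i _
    exact ((tendsto_Nk (i + 1)).eventually_ge_atTop NB).and ((ev_blockC (i + 1) CA).and (ev_L i))
  obtain ⟨N₀, hN₀⟩ := eventually_atTop.1 (hevB.and ((ev_large θ (by linarith) A1).and
    ((ev_large θ (by linarith) A2).and ((ev_large θ (by linarith) AT).and
    ((ev_I I τ hτ).and ((ev_model hMODP I τ hτ).and ((ev_li hLI τ hτ).and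
      (eventually_ge_atTop 3))))))))
  refine ⟨N₀, fun N A hN hA1 hA2 => ?_⟩
  obtain ⟨hblk, hlA1, hlA2, hlAT, hevI, hevM, hevLi, hN3⟩ := hN₀ N hN
  have hN1 : (1 : ℝ) < N := by exact_mod_cast (by omega : 1 < N)
  have hN0 : (0 : ℝ) < N := by linarith
  have hlog : 0 < Real.log N := Real.log_pos hN1
  set L : ℝ := (N : ℝ) / Real.log N with hL_def
  have hL : 0 < L := by positivity
  have hApos : (0 : ℝ) < A := (Real.rpow_pos_of_pos hN0 _).trans_le hA1
  set S : ℤ → ℕ → ℝ := fun a X => ∑ n ∈ Ioc 0 X, primeInd (val a n) with hS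
  -- the four exceptional sets
  set B1 := (IA A).filter (fun a => ¬ ∃ h : ℝ, 0 < h ∧
    Tendsto (fun v : ℕ => Gw v a) atTop (𝓝 h) ∧ |Gw w1 a - h| ≤ min (1 / 2) (ε / 8) * h) with hB1
  set B2 := (IA A).filter (fun a => ¬ ∃ h : ℝ, 0 < h ∧
    Tendsto (fun v : ℕ => Gw v a) atTop (𝓝 h) ∧ |Gw w a - h| ≤ ε / 20 * h) with hB2
  set B3 := (range I).biUnion (fun i => (IA A).filter (fun a =>
    ε₁ * ((N / 2 ^ (i + 1) : ℕ) : ℝ) / Real.log ((N / 2 ^ (i + 1) : ℕ) : ℝ) <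
      |cnt (N / 2 ^ (i + 1)) a primeInd - Gw w a * model (N / 2 ^ (i + 1)) primeInd|)) with hB3
  set B4 := (IA A).filter (fun a => ε₂ * L < S a (N / 2 ^ I)) with hB4
  have hc1' : (B1.card : ℝ) ≤ ε / 8 * A :=
    (hF1 A (hlA1 A hA1)).trans (mul_le_mul_of_nonneg_right (min_le_right _ _) hApos.le)
  have hc2' : (B2.card : ℝ) ≤ ε / 20 * A := hF2 A (hlA2 A hA1)
  have hAdm : ∀ i ∈ range I, Adm θ (N / 2 ^ (i + 1)) A := by
    intro i hi
    refine ⟨le_trans ?_ hA1, hA2.trans (hblk i hi).2.1⟩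
    apply Real.rpow_le_rpow (Nat.cast_nonneg _) _ (by linarith)
    exact_mod_cast Nat.div_le_self N _
  have hc3' : (B3.card : ℝ) ≤ ε / 20 * A := by
    calc (B3.card : ℝ) ≤ ∑ i ∈ range I, (((IA A).filter (fun a =>
          ε₁ * ((N / 2 ^ (i + 1) : ℕ) : ℝ) / Real.log ((N / 2 ^ (i + 1) : ℕ) : ℝ) <
            |cnt (N / 2 ^ (i + 1)) a primeInd
              - Gw w a * model (N / 2 ^ (i + 1)) primeInd|)).card : ℝ) := by
          exact_mod_cast Finset.card_biUnion_le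
      _ ≤ ∑ i ∈ range I, ε₁ * A := by
          apply Finset.sum_le_sum
          intro i hi
          exact hB (N / 2 ^ (i + 1)) A (hblk i hi).1 (hAdm i hi)
      _ = (I * ε₁) * A := by rw [Finset.sum_const, nsmul_eq_mul, Finset.card_range]; ring
      _ ≤ ε / 20 * A := mul_le_mul_of_nonneg_right hIε₁1 hApos.le
  have hS0 : ∀ a X, 0 ≤ S a X := fun a X => Finset.sum_nonneg (fun _ _ => primeInd_nonneg _)
  have hc4' : (B4.card : ℝ) ≤ ε / 8 * A := by
    have hsum : ∑ a ∈ IA A, S a (N / 2 ^ I) ≤ CT * A * ((N / 2 ^ I : ℕ) : ℝ) / Real.log A := by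
      have h3 := hTAIL A (N / 2 ^ I) (hlAT A hA1)
      refine le_trans (le_of_eq ?_) h3
      apply Finset.sum_congr rfl
      intro a _
      exact (count_eq a (N / 2 ^ I)).symm
    have hlA : Real.log N / 2 ≤ Real.log A := by
      have h3 : Real.log ((N : ℝ) ^ θ) ≤ Real.log A :=
        Real.log_le_log (Real.rpow_pos_of_pos hN0 _) hA1
      rw [Real.log_rpow hN0] at h3
      nlinarith
    have hbd : CT * A * ((N / 2 ^ I : ℕ) : ℝ) / Real.log A ≤ ε / 8 * A * (ε₂ * L) := by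
      have h4 : ((N / 2 ^ I : ℕ) : ℝ) ≤ N * (1 / 2 ^ I) := by
        rw [mul_one_div, le_div_iff₀ (by positivity)]
        exact_mod_cast Nat.div_mul_le_self N (2 ^ I)
      have h5 : ((N / 2 ^ I : ℕ) : ℝ) ≤ N * (ε * ε₂ / (16 * CT)) :=
        h4.trans (mul_le_mul_of_nonneg_left hq2 hN0.le)
      have hlA0 : 0 < Real.log A := by linarith
      rw [div_le_iff₀ hlA0]
      calc CT * A * ((N / 2 ^ I : ℕ) : ℝ) ≤ CT * A * (N * (ε * ε₂ / (16 * CT))) :=
            mul_le_mul_of_nonneg_left h5 (by positivity)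
        _ = ε / 8 * A * (ε₂ * L) * (Real.log N / 2) := by
            rw [hL_def]
            field_simp
            ring
        _ ≤ ε / 8 * A * (ε₂ * L) * Real.log A :=
            mul_le_mul_of_nonneg_left hlA (by positivity)
    have hm := BLK.markov (IA A) (fun a => S a (N / 2 ^ I)) (fun a _ => hS0 a _) (ε₂ * L)
      (ε / 8 * A * (ε₂ * L)) (by positivity) (hsum.trans hbd)
    exact le_of_mul_le_mul_right hm (by positivity)
  -- the inclusion
  have hsub : (Icc (-(A : ℤ)) A).filter (fun a : ℤ => ¬ ∃ h : ℝ, 0 < h ∧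
      Tendsto (fun X : ℕ => ∏ w ∈ (range (X + 1)).filter (fun w => Nat.Prime w ∧ w ≠ 2),
        (1 - (jacobiSym (-a) w : ℝ) / ((w : ℝ) - 1))) atTop (𝓝 h) ∧
      |(((Icc 1 N).filter (fun n : ℕ => Nat.Prime ((n : ℤ) ^ 2 + a).natAbs)).card : ℝ)
        - 1 / 2 * h * ∫ t in (2 : ℝ)..(N : ℝ), 1 / Real.log t|
        ≤ ε' * (h * ∫ t in (2 : ℝ)..(N : ℝ), 1 / Real.log t))
      ⊆ B1 ∪ (B2 ∪ (B3 ∪ B4)) := by
    intro a ha
    rw [Finset.mem_filter] at ha
    obtain ⟨haI, hno⟩ := ha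
    have haI' : a ∈ IA A := haI
    by_contra hcon
    rw [Finset.mem_union, Finset.mem_union, Finset.mem_union] at hcon
    push Not at hcon
    obtain ⟨n1, n2, n3, n4⟩ := hcon
    rw [hB1, Finset.mem_filter] at n1
    rw [hB2, Finset.mem_filter] at n2
    rw [hB3, Finset.mem_biUnion] at n3
    rw [hB4, Finset.mem_filter] at n4
    push Not at n1 n2 n3 n4
    obtain ⟨h, hh0, hht, hh1⟩ := n1 haI'
    obtain ⟨h', hh0', hht', hh2⟩ := n2 haI'
    have heq : h' = h := tendsto_nhds_unique hht' hht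
    rw [heq] at hh2
    have n4 := n4 haI'
    apply hno
    refine ⟨h, hh0, ?_, ?_⟩
    · refine hht.congr ?_
      intro X
      exact Gw_eq hP h2 X a
    · rw [count_eq]
      have hch : c ≤ h := by
        have h3 : |Gw w1 a - h| ≤ 1 / 2 * h :=
          hh1.trans (mul_le_mul_of_nonneg_right (min_le_left _ _) hh0.le)
        have h4 := (abs_le.1 h3).2
        have h5 := (hG1 a).1
        rw [hc_def]
        linarith
      have hCn : |(∑ i ∈ range I, cnt (N / 2 ^ (i + 1)) a primeInd)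
          - Gw w a * ∑ i ∈ range I, model (N / 2 ^ (i + 1)) primeInd| ≤ I * ε₁ * L := by
        rw [Finset.mul_sum, ← Finset.sum_sub_distrib]
        calc |∑ i ∈ range I, (cnt (N / 2 ^ (i + 1)) a primeInd
              - Gw w a * model (N / 2 ^ (i + 1)) primeInd)|
            ≤ ∑ i ∈ range I, |cnt (N / 2 ^ (i + 1)) a primeInd
              - Gw w a * model (N / 2 ^ (i + 1)) primeInd| := Finset.abs_sum_le_sum_abs _ _
          _ ≤ ∑ i ∈ range I, ε₁ * L := by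
              apply Finset.sum_le_sum
              intro i hi
              have h3 := n3 i hi
              rw [Finset.mem_filter] at h3
              push Not at h3
              refine (h3 haI').trans ?_
              rw [mul_div_assoc]
              exact mul_le_mul_of_nonneg_left (hblk i hi).2.2 hε₁0.le
          _ = I * ε₁ * L := by
              rw [Finset.sum_const, nsmul_eq_mul, Finset.card_range]; ring
      have hM0 : 0 ≤ ∑ i ∈ range I, model (N / 2 ^ (i + 1)) primeInd :=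
        Finset.sum_nonneg (fun i _ => BLK.model_nonneg primeInd_nonneg)
      have hbk := (blocks a N I).trans hevI
      have hfin := final_ineq (S := S a N) (SI := S a (N / 2 ^ I)) hε hc hL hch
        (hS0 a _) n4 hbk hCn hh2 hevM hM0 hevLi hε₂ hτ1 hτ2 hε1 hIε₁c (by positivity) hq1
      refine hfin.trans ?_
      apply mul_le_mul_of_nonneg_right hεε
      have h3 : 0 ≤ ∫ t in (2 : ℝ)..(N : ℝ), 1 / Real.log t := by
        have h4 := (abs_le.1 hevLi).1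
        nlinarith
      positivity
  calc (((Icc (-(A : ℤ)) A).filter (fun a : ℤ => ¬ ∃ h : ℝ, 0 < h ∧
      Tendsto (fun X : ℕ => ∏ w ∈ (range (X + 1)).filter (fun w => Nat.Prime w ∧ w ≠ 2),
        (1 - (jacobiSym (-a) w : ℝ) / ((w : ℝ) - 1))) atTop (𝓝 h) ∧
      |(((Icc 1 N).filter (fun n : ℕ => Nat.Prime ((n : ℤ) ^ 2 + a).natAbs)).card : ℝ)
        - 1 / 2 * h * ∫ t in (2 : ℝ)..(N : ℝ), 1 / Real.log t|
        ≤ ε' * (h * ∫ t in (2 : ℝ)..(N : ℝ), 1 / Real.log t))).card : ℝ)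
      ≤ ((B1 ∪ (B2 ∪ (B3 ∪ B4))).card : ℝ) := by exact_mod_cast Finset.card_le_card hsub
    _ ≤ (B1.card : ℝ) + ((B2.card : ℝ) + ((B3.card : ℝ) + (B4.card : ℝ))) := by
        have h3 := Finset.card_union_le B1 (B2 ∪ (B3 ∪ B4))
        have h4 := Finset.card_union_le B2 (B3 ∪ B4)
        have h5 := Finset.card_union_le B3 B4
        exact_mod_cast (by omega :
          (B1 ∪ (B2 ∪ (B3 ∪ B4))).card ≤ B1.card + (B2.card + (B3.card + B4.card)))
    _ ≤ ε / 8 * A + (ε / 20 * A + (ε / 20 * A + ε / 8 * A)) := by linarith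
    _ ≤ ε' * A := by nlinarith

theorem specFIN (hBLK : SpecBLK) (hF6 : SpecF6) (hMODP : SpecMODP) (hLI : SpecLI)
    (hTAIL : SpecTAIL) (hP : SpecRHOP) (h2 : SpecRHO2) (hGmax : SpecGMAX) : SpecFIN := by
  intro θ ε hθ hε
  obtain ⟨N₀, h⟩ := specFINC hBLK hF6 hMODP hLI hTAIL hP h2 hGmax θ ε 1 hθ hε one_pos
  refine ⟨N₀, fun N A hN hA1 hA2 => h N A hN hA1 ?_⟩
  rw [one_mul]
  exact_mod_cast hA2

end Pool.Agent.Lib.MP391708.QPA
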