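import Pool.Agent.Lib.MP_391708_nt.QPA.Spec2
import Pool.Agent.Lib.MP_391708_nt.QPA.FIN

/-!
# FINK: lower bound in the shorter range
-/

set_option autoImplicit false

namespace Pool.Agent.Lib.MP391708.QPA

open Finset Filter Topology
open scoped Classical

namespace FINK

open FIN BLK

theorem p3Ind_nonneg (Y : ℝ) (m : ℕ) : 0 ≤ p3Ind Y m := by
  unfold p3Ind
  split_ifs <;> norm_num

/-- the constant -/
noncomputable def cK (κ : ℝ) : ℝ := (3 * κ - 2) ^ 2 / (6 * κ ^ 2 * (1 - κ))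

/-- choice of `κ` -/
theorem exists_kappa (θ δ : ℝ) (h1 : 7 / 10 < θ) (h2 : θ ≤ 5 / 6) (hδ : 0 < δ) :
    ∃ κ : ℝ, 2 / 3 ≤ κ ∧ κ ≤ 4 / 5 ∧ 3 / 2 < θ + κ ∧
      cK κ ≤ (5 / 2 - 3 * θ) ^ 2 / (6 * (3 / 2 - θ) ^ 2 * (θ - 1 / 2)) + δ := by
  have hc : ContinuousAt cK (3 / 2 - θ) := by
    unfold cK
    apply ContinuousAt.div
    · fun_prop
    · fun_prop
    · have h3 : (0 : ℝ) < 3 / 2 - θ := by linarith
      have h4 : (0 : ℝ) < 1 - (3 / 2 - θ) := by linarith
      positivity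
  have hval : cK (3 / 2 - θ) = (5 / 2 - 3 * θ) ^ 2 / (6 * (3 / 2 - θ) ^ 2 * (θ - 1 / 2)) := by
    unfold cK
    congr 1
    · ring
    · ring
  obtain ⟨r, hr, hball⟩ := Metric.continuousAt_iff.1 hc δ hδ
  set s : ℝ := min (r / 2) ((θ - 7 / 10) / 2) with hs
  have hs0 : 0 < s := lt_min (by positivity) (by linarith)
  have hs1 : s ≤ r / 2 := min_le_left _ _
  have hs2 : s ≤ (θ - 7 / 10) / 2 := min_le_right _ _
  refine ⟨3 / 2 - θ + s, by linarith, by linarith, by linarith, ?_⟩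
  have hd : dist (3 / 2 - θ + s) (3 / 2 - θ) < r := by
    rw [Real.dist_eq]
    have : 3 / 2 - θ + s - (3 / 2 - θ) = s := by ring
    rw [this, abs_of_pos hs0]
    linarith
  have h5 := hball hd
  rw [Real.dist_eq, hval] at h5
  have := (abs_lt.1 h5).2
  linarith

theorem tendsto_Lsum (I : ℕ) :
    Tendsto (fun N : ℕ => (∑ i ∈ range I, ((N / 2 ^ (i + 1) : ℕ) : ℝ)
      / (2 * Real.log ((N / 2 ^ (i + 1) : ℕ) : ℝ)))
      / ((N : ℝ) / Real.log N)) atTop (𝓝 ((1 - 1 / 2 ^ I) / 2)) := by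
  rw [← geom I]
  have h := tendsto_finsetSum (range I) (fun i _ => (tendsto_L (i + 1)).div_const 2)
  refine h.congr' ?_
  filter_upwards with N
  rw [Finset.sum_div]
  apply Finset.sum_congr rfl
  intro i _
  have key : ∀ a b L : ℝ, a / b / L / 2 = a / (2 * b) / L := by
    intro a b L
    rw [mul_comm 2 b, ← div_div a b 2, div_right_comm (a / b) 2 L]
  exact key _ _ _

theorem ev_Lsum (I : ℕ) (τ : ℝ) (hτ : 0 < τ) : ∀ᶠ N : ℕ in atTop,
    (∑ i ∈ range I, ((N / 2 ^ (i + 1) : ℕ) : ℝ)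
      / (2 * Real.log ((N / 2 ^ (i + 1) : ℕ) : ℝ)))
      ≤ (1 / 2 + τ) * ((N : ℝ) / Real.log N) := by
  have h1 := (Metric.tendsto_nhds.1 (tendsto_Lsum I)) τ hτ
  filter_upwards [h1, eventually_gt_atTop 1] with N hN hN1
  have hN2 : (1 : ℝ) < N := by exact_mod_cast hN1
  have hlog : 0 < Real.log N := Real.log_pos hN2
  have hL : 0 < (N : ℝ) / Real.log N := by positivity
  rw [Real.dist_eq] at hN
  have h3 := (abs_lt.1 hN).2
  have h4 : (0 : ℝ) ≤ 1 / 2 ^ I := by positivity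
  rw [← div_le_iff₀ hL]
  linarith

/-- the final inequality -/
theorem final_ineq {S Cn G h M L Li ε c τ ε₁ q I c₀ c' M' Ls : ℝ} (hε : 0 < ε) (hc : 0 < c)
    (hL : 0 < L) (hh : c ≤ h) (hS : Cn ≤ S) (hS0 : 0 ≤ S)
    (hCn : |Cn - G * M'| ≤ I * ε₁ * L)
    (hG : |G - h| ≤ ε / 20 * h) (hM : |M - (1 - q) / 2 * L| ≤ τ * L)
    (hM' : M - c' * Ls ≤ M') (hLs : Ls ≤ (1 / 2 + τ) * L) (hc'0 : 0 ≤ c')
    (hLi : |Li - L| ≤ τ * L) (hc' : c' ≤ c₀ + ε / 4) (hτ2 : τ ≤ ε / 40) (hτ0 : 0 ≤ τ)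
    (hε1 : ε ≤ 1) (hI : I * ε₁ ≤ ε * c / 20) (hq : q ≤ ε / 20) (hc₀ : 0 ≤ c₀) :
    (1 - c₀ - ε) * (1 / 2 * h * Li) ≤ S := by
  have hh0 : 0 < h := hc.trans_le hh
  have hLi0 : 0 ≤ Li := by
    have := (abs_le.1 hLi).1
    nlinarith
  have hhL : 0 < h * L := by positivity
  rcases le_or_gt (1 - c₀ - ε) 0 with hneg | hpos
  · have : (1 - c₀ - ε) * (1 / 2 * h * Li) ≤ 0 :=
      mul_nonpos_of_nonpos_of_nonneg hneg (by positivity)
    linarith
  · set R := 1 - c₀ - ε with hR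
    have hc'1 : c' ≤ 1 := by linarith
    have hG1 : (1 - ε / 20) * h ≤ G := by
      have := (abs_le.1 hG).1
      linarith
    -- lower bound for `M'`
    have hM1 : (1 / 2) * (R + ε / 2) * L ≤ M' := by
      have h1 := (abs_le.1 hM).1
      have h2 : c' * Ls ≤ c' * ((1 / 2 + τ) * L) := mul_le_mul_of_nonneg_left hLs hc'0
      have h3 : (1 / 2) * (R + ε / 2) * L ≤ ((1 - q) / 2 - τ - c' * (1 / 2 + τ)) * L := by
        apply mul_le_mul_of_nonneg_right _ hL.le
        have h4 : c' * τ ≤ 1 * τ := mul_le_mul_of_nonneg_right hc'1 hτ0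
        rw [hR]
        linarith
      have h5 : ((1 - q) / 2 - τ - c' * (1 / 2 + τ)) * L
          = (1 - q) / 2 * L - τ * L - c' * ((1 / 2 + τ) * L) := by ring
      linarith
    have hM0 : 0 ≤ (1 / 2) * (R + ε / 2) * L := by positivity
    have hR1 : R ≤ 1 := by linarith
    have e1 : (1 - ε / 20) * h * ((1 / 2) * (R + ε / 2) * L) ≤ G * M' := by
      apply mul_le_mul hG1 hM1 hM0
      have : 0 ≤ (1 - ε / 20) * h := by
        apply mul_nonneg _ hh0.le
        linarith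
      linarith
    have e2 := (abs_le.1 hCn).1
    have e3 : I * ε₁ * L ≤ ε / 20 * (h * L) := by
      calc I * ε₁ * L ≤ ε * c / 20 * L := mul_le_mul_of_nonneg_right hI hL.le
        _ = ε / 20 * (c * L) := by ring
        _ ≤ ε / 20 * (h * L) :=
            mul_le_mul_of_nonneg_left (mul_le_mul_of_nonneg_right hh hL.le) (by positivity)
    have e4 : Li ≤ (1 + τ) * L := by
      have := (abs_le.1 hLi).2
      linarith
    have e5 : R * (1 / 2 * h * Li) ≤ R * (1 / 2 * h * ((1 + τ) * L)) :=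
      mul_le_mul_of_nonneg_left (mul_le_mul_of_nonneg_left e4 (by positivity)) hpos.le
    have e6 : R * (1 / 2 * h * ((1 + τ) * L)) = (R + R * τ) / 2 * (h * L) := by ring
    have e7 : (1 - ε / 20) * h * ((1 / 2) * (R + ε / 2) * L)
        = (1 - ε / 20) * (R + ε / 2) / 2 * (h * L) := by ring
    have e8 : (R + R * τ) / 2 + ε / 20 ≤ (1 - ε / 20) * (R + ε / 2) / 2 := by
      have h1 : R * τ ≤ 1 * τ := mul_le_mul_of_nonneg_right hR1 hτ0
      have h2 : ε / 20 * (R + ε / 2) ≤ ε / 20 * (3 / 2) :=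
        mul_le_mul_of_nonneg_left (by linarith) (by positivity)
      nlinarith
    have e9 := mul_le_mul_of_nonneg_right e8 hhL.le
    rw [add_mul] at e9
    rw [e6] at e5
    rw [e7] at e1
    linarith

end FINK

open FIN BLK FINK in
theorem specFINK (hBLK : SpecBLKK) (hP3 : SpecP3M) (hF6 : SpecF6) (hMODP : SpecMODP)
    (hLI : SpecLI) (hP : SpecRHOP) (h2 : SpecRHO2) (hGmax : SpecGMAX) : SpecFINK := by
  intro θ ε' hθ1 hθ2 hε'
  set ε : ℝ := min ε' 1 with hε_def
  have hε : 0 < ε := lt_min hε' one_pos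
  have hε1 : ε ≤ 1 := min_le_right _ _
  have hεε : ε ≤ ε' := min_le_left _ _
  -- the parameter `κ`
  set c₀ : ℝ := (5 / 2 - 3 * θ) ^ 2 / (6 * (3 / 2 - θ) ^ 2 * (θ - 1 / 2)) with hc₀
  have hc₀0 : 0 ≤ c₀ := by
    have h3 : (0 : ℝ) < θ - 1 / 2 := by linarith
    positivity
  obtain ⟨κ, hκ1, hκ2, hκ3, hκ4⟩ := exists_kappa θ (ε / 8) hθ1 hθ2 (by positivity)
  have hcK0 : 0 ≤ cK κ := by
    unfold cK
    have h3 : (0 : ℝ) < 1 - κ := by linarith
    positivity
  -- a lower bound for `h`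
  obtain ⟨w1', hF1⟩ := hF6 (min (1 / 2) (ε / 8)) (lt_min (by norm_num) (by positivity))
  set w1 : ℕ := max w1' 2 with hw1
  obtain ⟨A1, hF1⟩ := hF1 w1 (le_max_left _ _)
  obtain ⟨c1, hc1, hG1⟩ := hGmax w1 (le_max_right _ _)
  set c : ℝ := 2 / 3 * c1 with hc_def
  have hc : 0 < c := by positivity
  -- the number of blocks
  obtain ⟨I, hI⟩ : ∃ I : ℕ, (1 / 2 : ℝ) ^ I < ε / 20 :=
    exists_pow_lt_of_lt_one (by positivity) (by norm_num)
  have hq1 : (1 : ℝ) / 2 ^ I ≤ ε / 20 := by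
    rw [one_div_pow] at hI
    exact hI.le
  set ε₁ : ℝ := ε * min c 1 / (20 * (I + 1)) with hε₁
  have hmc : 0 < min c 1 := lt_min hc one_pos
  have hε₁0 : 0 < ε₁ := by positivity
  have hIε₁ : (I : ℝ) * ε₁ ≤ ε * min c 1 / 20 := by
    rw [hε₁]
    have h3 : (I : ℝ) * (ε * min c 1 / (20 * (I + 1))) = ε * min c 1 / 20 * (I / (I + 1)) := by
      field_simp
    rw [h3]
    have h4 : (I : ℝ) / (I + 1) ≤ 1 := by
      rw [div_le_one (by positivity)]
      linarith
    nlinarith [show 0 ≤ ε * min c 1 / 20 by positivity]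
  have hIε₁c : (I : ℝ) * ε₁ ≤ ε * c / 20 := by
    refine hIε₁.trans ?_
    have := min_le_left c 1
    have : ε * min c 1 ≤ ε * c := mul_le_mul_of_nonneg_left this hε.le
    linarith
  have hIε₁1 : (I : ℝ) * ε₁ ≤ ε / 20 := by
    refine hIε₁.trans ?_
    have := min_le_right c 1
    have : ε * min c 1 ≤ ε * 1 := mul_le_mul_of_nonneg_left this hε.le
    linarith
  -- the parameter `w`
  obtain ⟨w2', hF2⟩ := hF6 (ε / 20) (by positivity)
  obtain ⟨wB, hB⟩ := hBLK θ κ ε₁ (by linarith) hκ1 hκ2 hκ3 hε₁0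
  set w : ℕ := max w2' wB with hw
  obtain ⟨A2, hF2⟩ := hF2 w (le_max_left _ _)
  obtain ⟨NB, hB⟩ := hB w (le_max_right _ _)
  obtain ⟨NP, hP3⟩ := hP3 κ (ε / 8) hκ1 hκ2 (by positivity)
  set τ : ℝ := ε / 40 with hτ_def
  have hτ : 0 < τ := by positivity
  -- eventual facts
  have hevB : ∀ᶠ N : ℕ in atTop, ∀ i ∈ range I,
      (NB ≤ N / 2 ^ (i + 1) ∧ NP ≤ N / 2 ^ (i + 1)) ∧
      (N : ℝ) ≤ ((N / 2 ^ (i + 1) : ℕ) : ℝ) * Real.log ((N / 2 ^ (i + 1) : ℕ) : ℝ) ∧
      ((N / 2 ^ (i + 1) : ℕ) : ℝ) / Real.log ((N / 2 ^ (i + 1) : ℕ) : ℝ)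
        ≤ (N : ℝ) / Real.log N := by
    rw [Filter.eventually_all_finset]
    intro i _
    exact (((tendsto_Nk (i + 1)).eventually_ge_atTop NB).and
      ((tendsto_Nk (i + 1)).eventually_ge_atTop NP)).and ((ev_block (i + 1)).and (ev_L i))
  obtain ⟨N₀, hN₀⟩ := eventually_atTop.1 (hevB.and ((ev_large θ (by linarith) A1).and
    ((ev_large θ (by linarith) A2).and
    ((ev_Lsum I τ hτ).and ((ev_model hMODP I τ hτ).and ((ev_li hLI τ hτ).and
      (eventually_ge_atTop 3)))))))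
  refine ⟨N₀, fun N A hN hA1 hA2 => ?_⟩
  obtain ⟨hblk, hlA1, hlA2, hevLs, hevM, hevLi, hN3⟩ := hN₀ N hN
  have hN1 : (1 : ℝ) < N := by exact_mod_cast (by omega : 1 < N)
  have hN0 : (0 : ℝ) < N := by linarith
  have hlog : 0 < Real.log N := Real.log_pos hN1
  set L : ℝ := (N : ℝ) / Real.log N with hL_def
  have hL : 0 < L := by positivity
  have hApos : (0 : ℝ) < A := (Real.rpow_pos_of_pos hN0 _).trans_le hA1
  have hA2' : (A : ℝ) ≤ N := by exact_mod_cast hA2
  set S : ℤ → ℕ → ℝ := fun a X => ∑ n ∈ Ioc 0 X, primeInd (val a n) with hS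
  have hS0 : ∀ a X, 0 ≤ S a X := fun a X => Finset.sum_nonneg (fun _ _ => primeInd_nonneg _)
  set F : ℕ → ℕ → ℝ := fun i m => primeInd m - 2 * p3Ind (YK (N / 2 ^ (i + 1)) κ) m with hF
  -- the exceptional sets
  set B1 := (IA A).filter (fun a => ¬ ∃ h : ℝ, 0 < h ∧
    Tendsto (fun v : ℕ => Gw v a) atTop (𝓝 h) ∧ |Gw w1 a - h| ≤ min (1 / 2) (ε / 8) * h) with hB1
  set B2 := (IA A).filter (fun a => ¬ ∃ h : ℝ, 0 < h ∧
    Tendsto (fun v : ℕ => Gw v a) atTop (𝓝 h) ∧ |Gw w a - h| ≤ ε / 20 * h) with hB2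
  set B3 := (range I).biUnion (fun i => (IA A).filter (fun a =>
    ε₁ * ((N / 2 ^ (i + 1) : ℕ) : ℝ) / Real.log ((N / 2 ^ (i + 1) : ℕ) : ℝ) <
      |cnt (N / 2 ^ (i + 1)) a (F i) - Gw w a * model (N / 2 ^ (i + 1)) (F i)|)) with hB3
  have hc1' : (B1.card : ℝ) ≤ ε / 8 * A :=
    (hF1 A (hlA1 A hA1)).trans (mul_le_mul_of_nonneg_right (min_le_right _ _) hApos.le)
  have hc2' : (B2.card : ℝ) ≤ ε / 20 * A := hF2 A (hlA2 A hA1)
  have hAdm : ∀ i ∈ range I, Adm θ (N / 2 ^ (i + 1)) A := by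
    intro i hi
    refine ⟨le_trans ?_ hA1, hA2'.trans (hblk i hi).2.1⟩
    apply Real.rpow_le_rpow (Nat.cast_nonneg _) _ (by linarith)
    exact_mod_cast Nat.div_le_self N _
  have hc3' : (B3.card : ℝ) ≤ ε / 20 * A := by
    calc (B3.card : ℝ) ≤ ∑ i ∈ range I, (((IA A).filter (fun a =>
          ε₁ * ((N / 2 ^ (i + 1) : ℕ) : ℝ) / Real.log ((N / 2 ^ (i + 1) : ℕ) : ℝ) <
            |cnt (N / 2 ^ (i + 1)) a (F i)
              - Gw w a * model (N / 2 ^ (i + 1)) (F i)|)).card : ℝ) := by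
          exact_mod_cast Finset.card_biUnion_le
      _ ≤ ∑ i ∈ range I, ε₁ * A := by
          apply Finset.sum_le_sum
          intro i hi
          exact hB (N / 2 ^ (i + 1)) A (hblk i hi).1.1 (hAdm i hi)
      _ = (I * ε₁) * A := by rw [Finset.sum_const, nsmul_eq_mul, Finset.card_range]; ring
      _ ≤ ε / 20 * A := mul_le_mul_of_nonneg_right hIε₁1 hApos.le
  -- the inclusion
  have hsub : (Icc (-(A : ℤ)) A).filter (fun a : ℤ => ¬ ∃ h : ℝ, 0 < h ∧
      Tendsto (fun X : ℕ => ∏ w ∈ (range (X + 1)).filter (fun w => Nat.Prime w ∧ w ≠ 2),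
        (1 - (jacobiSym (-a) w : ℝ) / ((w : ℝ) - 1))) atTop (𝓝 h) ∧
      (1 - c₀ - ε') * (1 / 2 * h * ∫ t in (2 : ℝ)..(N : ℝ), 1 / Real.log t)
        ≤ (((Icc 1 N).filter (fun n : ℕ => Nat.Prime ((n : ℤ) ^ 2 + a).natAbs)).card : ℝ))
      ⊆ B1 ∪ (B2 ∪ B3) := by
    intro a ha
    rw [Finset.mem_filter] at ha
    obtain ⟨haI, hno⟩ := ha
    have haI' : a ∈ IA A := haI
    by_contra hcon
    rw [Finset.mem_union, Finset.mem_union] at hcon
    push Not at hcon
    obtain ⟨n1, n2, n3⟩ := hcon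
    rw [hB1, Finset.mem_filter] at n1
    rw [hB2, Finset.mem_filter] at n2
    rw [hB3, Finset.mem_biUnion] at n3
    push Not at n1 n2 n3
    obtain ⟨h, hh0, hht, hh1⟩ := n1 haI'
    obtain ⟨h', hh0', hht', hh2⟩ := n2 haI'
    have heq : h' = h := tendsto_nhds_unique hht' hht
    rw [heq] at hh2
    apply hno
    refine ⟨h, hh0, ?_, ?_⟩
    · refine hht.congr ?_
      intro X
      exact Gw_eq hP h2 X a
    · rw [count_eq]
      have hch : c ≤ h := by
        have h3 : |Gw w1 a - h| ≤ 1 / 2 * h :=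
          hh1.trans (mul_le_mul_of_nonneg_right (min_le_left _ _) hh0.le)
        have h4 := (abs_le.1 h3).2
        have h5 := (hG1 a).1
        rw [hc_def]
        linarith
      have hCn : |(∑ i ∈ range I, cnt (N / 2 ^ (i + 1)) a (F i))
          - Gw w a * ∑ i ∈ range I, model (N / 2 ^ (i + 1)) (F i)| ≤ I * ε₁ * L := by
        rw [Finset.mul_sum, ← Finset.sum_sub_distrib]
        calc |∑ i ∈ range I, (cnt (N / 2 ^ (i + 1)) a (F i)
              - Gw w a * model (N / 2 ^ (i + 1)) (F i))|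
            ≤ ∑ i ∈ range I, |cnt (N / 2 ^ (i + 1)) a (F i)
              - Gw w a * model (N / 2 ^ (i + 1)) (F i)| := Finset.abs_sum_le_sum_abs _ _
          _ ≤ ∑ i ∈ range I, ε₁ * L := by
              apply Finset.sum_le_sum
              intro i hi
              have h3 := n3 i hi
              rw [Finset.mem_filter] at h3
              push Not at h3
              refine (h3 haI').trans ?_
              rw [mul_div_assoc]
              exact mul_le_mul_of_nonneg_left (hblk i hi).2.2 hε₁0.le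
          _ = I * ε₁ * L := by
              rw [Finset.sum_const, nsmul_eq_mul, Finset.card_range]; ring
      -- lower bound of the count by the blocks
      have hSlow : ∑ i ∈ range I, cnt (N / 2 ^ (i + 1)) a (F i) ≤ S a N := by
        have h3 : ∀ J : ℕ, ∑ i ∈ range J, cnt (N / 2 ^ (i + 1)) a primeInd
            + S a (N / 2 ^ J) ≤ S a N := by
          intro J
          induction J with
          | zero => simp
          | succ J ih =>
            rw [Finset.sum_range_succ]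
            have hM2 : N / 2 ^ (J + 1) = (N / 2 ^ J) / 2 := by
              rw [Nat.div_div_eq_div_mul, pow_succ]
            have h4 : cnt (N / 2 ^ (J + 1)) a primeInd + S a (N / 2 ^ (J + 1))
                ≤ S a (N / 2 ^ J) := by
              rw [hM2]
              set M := N / 2 ^ J
              have h5 : S a M = S a (M / 2) + cnt (M / 2) a primeInd
                  + ∑ n ∈ Ioc (2 * (M / 2)) M, primeInd (val a n) := by
                simp only [hS]
                unfold cnt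
                rw [Finset.sum_Ioc_consecutive _ (Nat.zero_le _) (by omega),
                  Finset.sum_Ioc_consecutive _ (Nat.zero_le _) (by omega)]
              have h6 : 0 ≤ ∑ n ∈ Ioc (2 * (M / 2)) M, primeInd (val a n) :=
                Finset.sum_nonneg (fun _ _ => primeInd_nonneg _)
              linarith
            linarith
        have h4 := h3 I
        have h5 : ∑ i ∈ range I, cnt (N / 2 ^ (i + 1)) a (F i)
            ≤ ∑ i ∈ range I, cnt (N / 2 ^ (i + 1)) a primeInd := by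
          apply Finset.sum_le_sum
          intro i _
          apply cnt_mono
          intro m
          simp only [hF]
          linarith [p3Ind_nonneg (YK (N / 2 ^ (i + 1)) κ) m]
        have h6 := hS0 a (N / 2 ^ I)
        linarith
      -- the model
      have hM' : (∑ i ∈ range I, model (N / 2 ^ (i + 1)) primeInd)
          - (cK κ + ε / 8) * (∑ i ∈ range I, ((N / 2 ^ (i + 1) : ℕ) : ℝ)
            / (2 * Real.log ((N / 2 ^ (i + 1) : ℕ) : ℝ)))
          ≤ ∑ i ∈ range I, model (N / 2 ^ (i + 1)) (F i) := by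
        rw [Finset.mul_sum, ← Finset.sum_sub_distrib]
        apply Finset.sum_le_sum
        intro i hi
        have h3 := hP3 (N / 2 ^ (i + 1)) (hblk i hi).1.2
        have h4 : model (N / 2 ^ (i + 1)) (F i) = model (N / 2 ^ (i + 1)) primeInd
            - 2 * model (N / 2 ^ (i + 1)) (p3Ind (YK (N / 2 ^ (i + 1)) κ)) := by
          have h5 : F i = fun m => primeInd m
              + (-2) * p3Ind (YK (N / 2 ^ (i + 1)) κ) m := by
            funext m
            simp only [hF]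
            ring
          rw [h5, model_add, model_smul]
          ring
        rw [h4]
        unfold cK
        linarith
      have hfin := FINK.final_ineq (S := S a N) (c₀ := c₀) (c' := cK κ + ε / 8) (τ := τ)
        hε hc hL hch hSlow (hS0 a N) hCn hh2 hevM hM' hevLs (by positivity) hevLi
        (by linarith) le_rfl hτ.le hε1 hIε₁c hq1 hc₀0
      refine le_trans ?_ hfin
      apply mul_le_mul_of_nonneg_right (by linarith)
      have h3 : 0 ≤ ∫ t in (2 : ℝ)..(N : ℝ), 1 / Real.log t := by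
        have h4 := (abs_le.1 hevLi).1
        have h5 : τ ≤ 1 := by rw [hτ_def]; linarith
        nlinarith
      positivity
  calc (((Icc (-(A : ℤ)) A).filter (fun a : ℤ => ¬ ∃ h : ℝ, 0 < h ∧
      Tendsto (fun X : ℕ => ∏ w ∈ (range (X + 1)).filter (fun w => Nat.Prime w ∧ w ≠ 2),
        (1 - (jacobiSym (-a) w : ℝ) / ((w : ℝ) - 1))) atTop (𝓝 h) ∧
      (1 - c₀ - ε') * (1 / 2 * h * ∫ t in (2 : ℝ)..(N : ℝ), 1 / Real.log t)
        ≤ (((Icc 1 N).filter (fun n : ℕ => Nat.Prime ((n : ℤ) ^ 2 + a).natAbs)).card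
          : ℝ))).card : ℝ)
      ≤ ((B1 ∪ (B2 ∪ B3)).card : ℝ) := by exact_mod_cast Finset.card_le_card hsub
    _ ≤ (B1.card : ℝ) + ((B2.card : ℝ) + (B3.card : ℝ)) := by
        have h3 := Finset.card_union_le B1 (B2 ∪ B3)
        have h4 := Finset.card_union_le B2 B3
        exact_mod_cast (by omega : (B1 ∪ (B2 ∪ B3)).card ≤ B1.card + (B2.card + B3.card))
    _ ≤ ε / 8 * A + (ε / 20 * A + ε / 20 * A) := by linarith
    _ ≤ ε' * A := by nlinarith

end Pool.Agent.Lib.MP391708.QPA
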