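import Pool.Agent.Lib.MP_391708_nt.QPA.FIN

/-!
# FINU: the asymptotic formula uniformly in the length
-/

set_option autoImplicit false

namespace Pool.Agent.Lib.MP391708.QPA

open Finset Filter Topology
open scoped Classical

/-- FIN for all lengths `M ≤ N` at once -/
def SpecFINU : Prop := ∀ θ ε : ℝ, 5 / 6 < θ → 0 < ε → ∃ N₀ : ℕ, ∀ N A : ℕ, N₀ ≤ N →
  (N : ℝ) ^ θ ≤ A → A ≤ N →
  (((Icc (-(A : ℤ)) A).filter (fun a : ℤ => ¬ ∃ h : ℝ, 0 < h ∧
    Tendsto (fun X : ℕ => ∏ w ∈ (range (X + 1)).filter (fun w => Nat.Prime w ∧ w ≠ 2),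
      (1 - (jacobiSym (-a) w : ℝ) / ((w : ℝ) - 1))) atTop (𝓝 h) ∧
    ∀ M : ℕ, 2 ≤ M → M ≤ N →
      |(((Icc 1 M).filter (fun n : ℕ => Nat.Prime ((n : ℤ) ^ 2 + a).natAbs)).card : ℝ)
        - 1 / 2 * h * ∫ t in (2 : ℝ)..(M : ℝ), 1 / Real.log t|
        ≤ ε * (h * ∫ t in (2 : ℝ)..(N : ℝ), 1 / Real.log t))).card : ℝ) ≤ ε * A

namespace FINU

open FIN BLK

noncomputable section

/-- the logarithmic integral -/
def Li (M : ℕ) : ℝ := ∫ t in (2 : ℝ)..(M : ℝ), 1 / Real.log t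

theorem li_sub {M M' : ℕ} (h2 : 2 ≤ M) (hM : M ≤ M') :
    0 ≤ Li M' - Li M := by
  have hM2 : (2 : ℝ) ≤ M := by exact_mod_cast h2
  have hMM : (M : ℝ) ≤ M' := by exact_mod_cast hM
  have hcont : ContinuousOn (fun t : ℝ => 1 / Real.log t) (Set.Ioi 1) := by
    apply ContinuousOn.div continuousOn_const
    · exact Real.continuousOn_log.mono (fun t ht => by
        have : (1 : ℝ) < t := ht
        simp only [Set.mem_compl_iff, Set.mem_singleton_iff]
        linarith)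
    · intro t ht
      exact (Real.log_pos ht).ne'
  have hint : ∀ x y : ℝ, 2 ≤ x → x ≤ y →
      IntervalIntegrable (fun t : ℝ => 1 / Real.log t) MeasureTheory.volume x y := by
    intro x y hx hxy
    apply ContinuousOn.intervalIntegrable
    rw [Set.uIcc_of_le hxy]
    exact hcont.mono (fun t ht => by
      have := ht.1
      simp only [Set.mem_Ioi]
      linarith)
  unfold Li
  rw [intervalIntegral.integral_interval_sub_left (hint 2 M' le_rfl (hM2.trans hMM))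
    (hint 2 M le_rfl hM2)]
  apply intervalIntegral.integral_nonneg hMM
  intro t ht
  have h1 : (1 : ℝ) ≤ t := by linarith [ht.1]
  exact div_nonneg zero_le_one (Real.log_nonneg h1)

theorem li_two : Li 2 = 0 := by
  unfold Li
  norm_num

theorem li_mono {M M' : ℕ} (h2 : 2 ≤ M) (hM : M ≤ M') : Li M ≤ Li M' := by
  linarith [li_sub h2 hM]

theorem li_nonneg {M : ℕ} (h2 : 2 ≤ M) : 0 ≤ Li M := by
  have := li_mono le_rfl h2
  rwa [li_two] at this

theorem tendsto_li (hLI : SpecLI) :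
    Tendsto (fun N : ℕ => Li N / ((N : ℝ) / Real.log N)) atTop (𝓝 1) := by
  rw [Metric.tendsto_atTop]
  intro κ hκ
  obtain ⟨N₀, hN₀⟩ := hLI (κ / 2) (by positivity)
  refine ⟨max N₀ 2, fun N hN => ?_⟩
  have h2 := hN₀ N (le_trans (le_max_left _ _) hN)
  have hN2 : 2 ≤ N := le_trans (le_max_right _ _) hN
  have hN1 : (1 : ℝ) < N := by exact_mod_cast hN2
  have hlog : 0 < Real.log N := Real.log_pos hN1
  have hL : 0 < (N : ℝ) / Real.log N := by positivity
  rw [Real.dist_eq]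
  have h3 : Li N / ((N : ℝ) / Real.log N) - 1
      = (Li N - N / Real.log N) / ((N : ℝ) / Real.log N) := by
    field_simp
  rw [h3, abs_div, abs_of_pos hL, div_lt_iff₀ hL]
  refine (h2 : |Li N - _| ≤ _).trans_lt ?_
  have h4 : κ / 2 * N / Real.log N = κ / 2 * ((N : ℝ) / Real.log N) := by ring
  rw [h4]
  nlinarith

theorem tendsto_li_comp (hLI : SpecLI) (φ : ℕ → ℕ) (c : ℝ) (hc : 0 < c)
    (hφ : Tendsto (fun N : ℕ => (φ N : ℝ) / (N : ℝ)) atTop (𝓝 c)) :
    Tendsto (fun N : ℕ => Li (φ N) / ((N : ℝ) / Real.log N)) atTop (𝓝 c) := by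
  have hN : Tendsto (fun N : ℕ => (N : ℝ)) atTop atTop := tendsto_natCast_atTop_atTop
  have hφr : Tendsto (fun N : ℕ => (φ N : ℝ)) atTop atTop := by
    have h1 := hφ.pos_mul_atTop hc hN
    refine h1.congr' ?_
    filter_upwards [eventually_gt_atTop 0] with N hN0
    have : (N : ℝ) ≠ 0 := by exact_mod_cast hN0.ne'
    field_simp
  have hφn : Tendsto φ atTop atTop := tendsto_natCast_atTop_iff.1 hφr
  have hlogN : Tendsto (fun N : ℕ => Real.log (N : ℝ)) atTop atTop :=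
    Real.tendsto_log_atTop.comp tendsto_natCast_atTop_atTop
  have hlr : Tendsto (fun N : ℕ => Real.log (φ N : ℝ) / Real.log N) atTop (𝓝 1) := by
    have h1 : Tendsto (fun N : ℕ => Real.log ((φ N : ℝ) / (N : ℝ))) atTop (𝓝 (Real.log c)) :=
      (Real.continuousAt_log hc.ne').tendsto.comp hφ
    have h2 : Tendsto (fun N : ℕ => 1 + Real.log ((φ N : ℝ) / (N : ℝ)) / Real.log N)
        atTop (𝓝 (1 + 0)) :=
      tendsto_const_nhds.add (h1.div_atTop hlogN)
    rw [add_zero] at h2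
    refine h2.congr' ?_
    filter_upwards [hφr.eventually_gt_atTop 0, eventually_gt_atTop 1] with N h3 hN1
    have h4 : (1 : ℝ) < N := by exact_mod_cast hN1
    have h5 : 0 < Real.log N := Real.log_pos h4
    rw [Real.log_div h3.ne' (by linarith)]
    field_simp
    ring
  have hL : Tendsto (fun N : ℕ => (φ N : ℝ) / Real.log (φ N : ℝ) / ((N : ℝ) / Real.log N))
      atTop (𝓝 c) := by
    have h1 := hφ.mul (hlr.inv₀ one_ne_zero)
    rw [inv_one, mul_one] at h1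
    refine h1.congr' ?_
    filter_upwards with N
    rw [inv_div, div_div_div_eq, div_mul_div_comm]
    congr 1
    ring
  have h2 := ((tendsto_li hLI).comp hφn).mul hL
  rw [one_mul] at h2
  refine h2.congr' ?_
  filter_upwards [hφr.eventually_gt_atTop 1] with N h4
  have h5 : 0 < Real.log (φ N : ℝ) := Real.log_pos h4
  have h6 : (φ N : ℝ) / Real.log (φ N : ℝ) ≠ 0 := by positivity
  simp only [Function.comp]
  rw [div_mul_div_cancel₀ h6]

/-- the points `j N / J` -/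
def pt (J j N : ℕ) : ℕ := j * N / J

theorem tendsto_pt (J j : ℕ) (hJ : 1 ≤ J) :
    Tendsto (fun N : ℕ => (pt J j N : ℝ) / (N : ℝ)) atTop (𝓝 ((j : ℝ) / J)) := by
  have hJ0 : (0 : ℝ) < J := by exact_mod_cast hJ
  have hlim : Tendsto (fun N : ℕ => (j : ℝ) / J - 1 / (N : ℝ)) atTop (𝓝 ((j : ℝ) / J)) := by
    have := (tendsto_const_nhds (x := (j : ℝ) / J)).sub
      (tendsto_one_div_atTop_nhds_zero_nat (𝕜 := ℝ))
    simpa using this
  refine tendsto_of_tendsto_of_tendsto_of_le_of_le' hlim tendsto_const_nhds ?_ ?_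
  · filter_upwards [eventually_gt_atTop 0] with N hN
    have hN0 : (0 : ℝ) < N := by exact_mod_cast hN
    have h1 : (j : ℝ) * N < J * ((pt J j N : ℝ) + 1) := by
      have h2 : j * N < J * (j * N / J + 1) := Nat.lt_mul_div_succ _ (by omega)
      unfold pt
      exact_mod_cast h2
    rw [le_div_iff₀ hN0, sub_mul, one_div_mul_cancel hN0.ne', sub_le_iff_le_add,
      div_mul_eq_mul_div, div_le_iff₀ hJ0]
    linarith
  · filter_upwards [eventually_gt_atTop 0] with N hN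
    have hN0 : (0 : ℝ) < N := by exact_mod_cast hN
    rw [div_le_iff₀ hN0, div_mul_eq_mul_div, le_div_iff₀ hJ0]
    unfold pt
    exact_mod_cast Nat.div_mul_le_self (j * N) J

theorem pt_le {J j N : ℕ} (hJ : 1 ≤ J) (hj : j ≤ J) : pt J j N ≤ N := by
  unfold pt
  calc j * N / J ≤ J * N / J := Nat.div_le_div_right (Nat.mul_le_mul_right N hj)
    _ = N := Nat.mul_div_cancel_left N (by omega)

theorem pt_self {J N : ℕ} (hJ : 1 ≤ J) : pt J J N = N := by
  unfold pt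
  exact Nat.mul_div_cancel_left N (by omega)

/-- the values at the points, `0` for `j = 0` -/
def ell (J j N : ℕ) : ℝ := if j = 0 then 0 else Li (pt J j N)

theorem ev_ell (hLI : SpecLI) (J j : ℕ) (hJ : 1 ≤ J) (τ : ℝ) (hτ : 0 < τ) : ∀ᶠ N : ℕ in atTop,
    |ell J j N - (j : ℝ) / J * ((N : ℝ) / Real.log N)| ≤ τ * ((N : ℝ) / Real.log N) := by
  have hJ0 : (0 : ℝ) < J := by exact_mod_cast hJ
  by_cases hj : j = 0
  · filter_upwards [eventually_gt_atTop 1] with N hN1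
    have hN2 : (1 : ℝ) < N := by exact_mod_cast hN1
    have hlog : 0 < Real.log N := Real.log_pos hN2
    subst hj
    unfold ell
    simp only [if_true, Nat.cast_zero, zero_div, zero_mul, sub_self, abs_zero]
    positivity
  · have hj0 : (0 : ℝ) < j := by exact_mod_cast Nat.pos_of_ne_zero hj
    have h1 := tendsto_li_comp hLI (pt J j) ((j : ℝ) / J) (by positivity) (tendsto_pt J j hJ)
    filter_upwards [(Metric.tendsto_nhds.1 h1) τ hτ, eventually_gt_atTop 1] with N hN hN1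
    have hN2 : (1 : ℝ) < N := by exact_mod_cast hN1
    have hlog : 0 < Real.log N := Real.log_pos hN2
    have hL : 0 < (N : ℝ) / Real.log N := by positivity
    rw [Real.dist_eq] at hN
    unfold ell
    rw [if_neg hj]
    have h3 : Li (pt J j N) - (j : ℝ) / J * ((N : ℝ) / Real.log N)
        = (Li (pt J j N) / ((N : ℝ) / Real.log N) - (j : ℝ) / J) * ((N : ℝ) / Real.log N) := by
      field_simp
    rw [h3, abs_mul, abs_of_pos hL]
    exact mul_le_mul_of_nonneg_right hN.le hL.le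

theorem ev_pt (J j : ℕ) (hJ : 1 ≤ J) (hj : 1 ≤ j) (M : ℕ) : ∀ᶠ N : ℕ in atTop, M ≤ pt J j N := by
  filter_upwards [eventually_ge_atTop (J * M)] with N hN
  unfold pt
  rw [Nat.le_div_iff_mul_le (by omega)]
  calc M * J = J * M := mul_comm _ _
    _ ≤ N := hN
    _ = 1 * N := (one_mul N).symm
    _ ≤ j * N := Nat.mul_le_mul_right N hj

theorem ev_C (J j : ℕ) (hJ : 1 ≤ J) (hj : 1 ≤ j) : ∀ᶠ N : ℕ in atTop,
    (N : ℝ) ≤ (2 * J : ℝ) * (pt J j N : ℝ) := by
  filter_upwards [eventually_ge_atTop (2 * J)] with N hN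
  have h1 : N < J * (pt J j N + 1) := by
    have h2 : j * N < J * (j * N / J + 1) := Nat.lt_mul_div_succ _ (by omega)
    unfold pt
    calc N = 1 * N := (one_mul N).symm
      _ ≤ j * N := Nat.mul_le_mul_right N hj
      _ < _ := h2
  have h3 : N ≤ 2 * J * pt J j N := by
    have h4 : J * (pt J j N + 1) = J * pt J j N + J := by ring
    have h5 : 2 * J * pt J j N = 2 * (J * pt J j N) := by ring
    omega
  exact_mod_cast h3

theorem final_ineq {PM P₀ P₁ LM L₀ L₁ LN L h ε ε₁ τ δ x : ℝ} (hε : 0 < ε) (hh : 0 < h)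
    (hL : 0 < L) (h1 : P₀ ≤ PM) (h2 : PM ≤ P₁) (h3 : L₀ ≤ LM) (h4 : LM ≤ L₁)
    (hP₁ : |P₁ - 1 / 2 * h * L₁| ≤ ε₁ * (h * L₁)) (hP₀ : 1 / 2 * h * L₀ - ε₁ * (h * L₀) ≤ P₀)
    (hL₀ : |L₀ - x * L| ≤ τ * L) (hL₁ : |L₁ - (x + δ) * L| ≤ τ * L) (hL₀0 : 0 ≤ L₀)
    (hL₁0 : L₁ ≤ 2 * L)
    (hLN : L / 2 ≤ LN) (hδ : δ ≤ ε / 8) (hτ : τ ≤ ε / 32) (hε₁ : ε₁ ≤ ε / 8) (hε₁0 : 0 ≤ ε₁) :
    |PM - 1 / 2 * h * LM| ≤ ε * (h * LN) := by
  have hhL : 0 < h * L := by positivity
  have e1 : L₁ - L₀ ≤ (ε / 8 + ε / 16) * L := by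
    have a1 := (abs_le.1 hL₀).1
    have a2 := (abs_le.1 hL₁).2
    have a3 : δ * L ≤ ε / 8 * L := mul_le_mul_of_nonneg_right hδ hL.le
    have a4 : τ * L ≤ ε / 32 * L := mul_le_mul_of_nonneg_right hτ hL.le
    linarith
  have e2 : h * (L₁ - L₀) ≤ h * ((ε / 8 + ε / 16) * L) := mul_le_mul_of_nonneg_left e1 hh.le
  have e3 : ε₁ * (h * L₁) ≤ ε / 8 * (h * (2 * L)) := by
    have hL10 : 0 ≤ L₁ := hL₀0.trans (h3.trans h4)
    calc ε₁ * (h * L₁) ≤ ε₁ * (h * (2 * L)) :=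
          mul_le_mul_of_nonneg_left (mul_le_mul_of_nonneg_left hL₁0 hh.le) hε₁0
      _ ≤ ε / 8 * (h * (2 * L)) := mul_le_mul_of_nonneg_right hε₁ (by positivity)
  have e4 : ε₁ * (h * L₀) ≤ ε₁ * (h * L₁) :=
    mul_le_mul_of_nonneg_left (mul_le_mul_of_nonneg_left (h3.trans h4) hh.le) hε₁0
  have e5 : ε * (h * (L / 2)) ≤ ε * (h * LN) :=
    mul_le_mul_of_nonneg_left (mul_le_mul_of_nonneg_left hLN hh.le) hε.le
  have e6 : h * LM ≤ h * L₁ := mul_le_mul_of_nonneg_left h4 hh.le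
  have e7 : h * L₀ ≤ h * LM := mul_le_mul_of_nonneg_left h3 hh.le
  obtain ⟨b1, b2⟩ := abs_le.1 hP₁
  have hεhL : 0 < ε * (h * L) := by positivity
  rw [abs_le]
  constructor <;> nlinarith

end

end FINU

open FIN FINU in
theorem specFINU (hC : SpecFINC) (hLI : SpecLI) : SpecFINU := by
  intro θ ε' hθ hε'
  set ε : ℝ := min ε' 1 with hε_def
  have hε : 0 < ε := lt_min hε' one_pos
  have hε1 : ε ≤ 1 := min_le_right _ _
  have hεε : ε ≤ ε' := min_le_left _ _
  obtain ⟨J, hJ⟩ := exists_nat_ge (8 / ε)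
  have hJ0 : (0 : ℝ) < J := lt_of_lt_of_le (by positivity) hJ
  have hJ1 : 1 ≤ J := by exact_mod_cast (Nat.cast_pos.1 hJ0)
  have hJδ : 1 / (J : ℝ) ≤ ε / 8 := by
    rw [div_le_iff₀ hJ0]
    rw [div_le_iff₀ hε] at hJ
    linarith
  set ε₁ : ℝ := ε / (8 * J) with hε₁
  have hε₁0 : 0 < ε₁ := by positivity
  have hJε₁ : (J : ℝ) * ε₁ = ε / 8 := by
    rw [hε₁]
    field_simp
  have hε₁8 : ε₁ ≤ ε / 8 := by
    have h1 : (1 : ℝ) ≤ J := by exact_mod_cast hJ1
    nlinarith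
  obtain ⟨N₁, hN₁⟩ := hC θ ε₁ (2 * J) hθ hε₁0 (by positivity)
  set τ : ℝ := ε / 32 with hτdef
  have hτ : 0 < τ := by positivity
  have hev : ∀ᶠ N : ℕ in atTop, ∀ j ∈ Icc 1 J, (N₁ ≤ pt J j N ∧ 2 ≤ pt J j N) ∧
      (N : ℝ) ≤ (2 * J : ℝ) * (pt J j N : ℝ) := by
    rw [Filter.eventually_all_finset]
    intro j hj
    have hj1 : 1 ≤ j := (Finset.mem_Icc.1 hj).1
    exact ((ev_pt J j hJ1 hj1 N₁).and (ev_pt J j hJ1 hj1 2)).and (ev_C J j hJ1 hj1)
  have hev2 : ∀ᶠ N : ℕ in atTop, ∀ j ∈ range (J + 1),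
      |ell J j N - (j : ℝ) / J * ((N : ℝ) / Real.log N)| ≤ τ * ((N : ℝ) / Real.log N) := by
    rw [Filter.eventually_all_finset]
    intro j _
    exact ev_ell hLI J j hJ1 τ hτ
  obtain ⟨N₀, hN₀⟩ := eventually_atTop.1 (hev.and (hev2.and (eventually_ge_atTop 3)))
  refine ⟨N₀, fun N A hN hA1 hA2 => ?_⟩
  obtain ⟨hpt, hell, hN3⟩ := hN₀ N hN
  have hN1 : (1 : ℝ) < N := by exact_mod_cast (by omega : 1 < N)
  have hN0 : (0 : ℝ) < N := by linarith
  have hlog : 0 < Real.log N := Real.log_pos hN1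
  set L : ℝ := (N : ℝ) / Real.log N with hL_def
  have hL : 0 < L := by positivity
  have hA2' : (A : ℝ) ≤ N := by exact_mod_cast hA2
  have hA0 : (0 : ℝ) ≤ A := Nat.cast_nonneg A
  -- the count
  set P : ℤ → ℕ → ℝ := fun a M =>
    (((Icc 1 M).filter (fun n : ℕ => Nat.Prime ((n : ℤ) ^ 2 + a).natAbs)).card : ℝ) with hP
  have hPmono : ∀ a M M', M ≤ M' → P a M ≤ P a M' := by
    intro a M M' h
    simp only [hP]
    exact_mod_cast Finset.card_le_card
      (Finset.filter_subset_filter _ (Finset.Icc_subset_Icc_right h))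
  have hP0 : ∀ a M, 0 ≤ P a M := fun a M => Nat.cast_nonneg _
  -- the exceptional sets
  set B : ℕ → Finset ℤ := fun j => (Icc (-(A : ℤ)) A).filter (fun a : ℤ => ¬ ∃ h : ℝ, 0 < h ∧
    Tendsto (fun X : ℕ => ∏ w ∈ (range (X + 1)).filter (fun w => Nat.Prime w ∧ w ≠ 2),
      (1 - (jacobiSym (-a) w : ℝ) / ((w : ℝ) - 1))) atTop (𝓝 h) ∧
    |P a (pt J j N) - 1 / 2 * h * ∫ t in (2 : ℝ)..(pt J j N : ℝ), 1 / Real.log t|
      ≤ ε₁ * (h * ∫ t in (2 : ℝ)..(pt J j N : ℝ), 1 / Real.log t)) with hB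
  have hBcard : ∀ j ∈ Icc 1 J, ((B j).card : ℝ) ≤ ε₁ * A := by
    intro j hj
    obtain ⟨⟨h1, h2⟩, h3⟩ := hpt j hj
    apply hN₁ (pt J j N) A h1
    · refine le_trans ?_ hA1
      apply Real.rpow_le_rpow (Nat.cast_nonneg _) _ (by linarith)
      exact_mod_cast pt_le hJ1 (Finset.mem_Icc.1 hj).2
    · exact hA2'.trans h3
  have hsub : (Icc (-(A : ℤ)) A).filter (fun a : ℤ => ¬ ∃ h : ℝ, 0 < h ∧
    Tendsto (fun X : ℕ => ∏ w ∈ (range (X + 1)).filter (fun w => Nat.Prime w ∧ w ≠ 2),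
      (1 - (jacobiSym (-a) w : ℝ) / ((w : ℝ) - 1))) atTop (𝓝 h) ∧
    ∀ M : ℕ, 2 ≤ M → M ≤ N →
      |(((Icc 1 M).filter (fun n : ℕ => Nat.Prime ((n : ℤ) ^ 2 + a).natAbs)).card : ℝ)
        - 1 / 2 * h * ∫ t in (2 : ℝ)..(M : ℝ), 1 / Real.log t|
        ≤ ε' * (h * ∫ t in (2 : ℝ)..(N : ℝ), 1 / Real.log t))
      ⊆ (Icc 1 J).biUnion B := by
    intro a ha
    rw [Finset.mem_filter] at ha
    obtain ⟨haI, hno⟩ := ha
    by_contra hcon
    rw [Finset.mem_biUnion] at hcon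
    push Not at hcon
    have hgood : ∀ j ∈ Icc 1 J, ∃ h : ℝ, 0 < h ∧
        Tendsto (fun X : ℕ => ∏ w ∈ (range (X + 1)).filter (fun w => Nat.Prime w ∧ w ≠ 2),
          (1 - (jacobiSym (-a) w : ℝ) / ((w : ℝ) - 1))) atTop (𝓝 h) ∧
        |P a (pt J j N) - 1 / 2 * h * Li (pt J j N)| ≤ ε₁ * (h * Li (pt J j N)) := by
      intro j hj
      have h1 := hcon j hj
      simp only [hB] at h1
      rw [Finset.mem_filter] at h1
      by_contra h2
      exact h1 ⟨haI, h2⟩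
    obtain ⟨h, hh0, hht, hhJ⟩ := hgood J (Finset.mem_Icc.2 ⟨hJ1, le_rfl⟩)
    have hall : ∀ j ∈ Icc 1 J,
        |P a (pt J j N) - 1 / 2 * h * Li (pt J j N)| ≤ ε₁ * (h * Li (pt J j N)) := by
      intro j hj
      obtain ⟨h', _, hht', hh'⟩ := hgood j hj
      have : h' = h := tendsto_nhds_unique hht' hht
      rw [this] at hh'
      exact hh'
    apply hno
    refine ⟨h, hh0, hht, ?_⟩
    intro M hM2 hMN
    -- the index
    have hex : ∃ j, M ≤ pt J j N := ⟨J, by rw [pt_self hJ1]; exact hMN⟩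
    obtain ⟨j, hj, hjmin⟩ : ∃ j, M ≤ pt J j N ∧ ∀ i < j, pt J i N < M :=
      ⟨Nat.find hex, Nat.find_spec hex, fun i hi => not_le.1 (Nat.find_min hex hi)⟩
    have hjJ : j ≤ J := by
      by_contra hcon'
      have h1 := hjmin J (by omega)
      rw [pt_self hJ1] at h1
      omega
    have hj0 : j ≠ 0 := by
      intro h0
      rw [h0] at hj
      unfold pt at hj
      rw [zero_mul, Nat.zero_div] at hj
      omega
    obtain ⟨i, rfl⟩ : ∃ i, j = i + 1 := ⟨j - 1, by omega⟩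
    have hmemj : i + 1 ∈ Icc 1 J := Finset.mem_Icc.2 ⟨by omega, hjJ⟩
    have hell1 := hell (i + 1) (Finset.mem_range.2 (by omega))
    have hell0 := hell i (Finset.mem_range.2 (by omega))
    have hellN := hell J (Finset.mem_range.2 (by omega))
    have hL1 : ell J (i + 1) N = Li (pt J (i + 1) N) := by
      unfold ell
      rw [if_neg (by omega)]
    have hLN : ell J J N = Li N := by
      unfold ell
      rw [if_neg (by omega), pt_self hJ1]
    rw [hL1] at hell1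
    rw [hLN] at hellN
    have hJJ : (J : ℝ) / J = 1 := div_self hJ0.ne'
    rw [hJJ, one_mul] at hellN
    have hLN2 : L / 2 ≤ Li N := by
      have h1 := (abs_le.1 hellN).1
      have h2 : τ * L ≤ 1 / 2 * L := mul_le_mul_of_nonneg_right (by rw [hτdef]; linarith) hL.le
      linarith
    have hL12 : Li (pt J (i + 1) N) ≤ 2 * L := by
      have h1 := (abs_le.1 hell1).2
      have h2 : τ * L ≤ 1 * L := mul_le_mul_of_nonneg_right (by rw [hτdef]; linarith) hL.le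
      have h3 : ((i + 1 : ℕ) : ℝ) / J ≤ 1 := by
        rw [div_le_one hJ0]
        exact_mod_cast hjJ
      have h4 : ((i + 1 : ℕ) : ℝ) / J * L ≤ 1 * L := mul_le_mul_of_nonneg_right h3 hL.le
      linarith
    have hfin : |P a M - 1 / 2 * h * Li M| ≤ ε * (h * Li N) := by
      by_cases hi0 : i = 0
      · subst hi0
        have hell00 : ell J 0 N = 0 := by
          unfold ell
          rw [if_pos rfl]
        rw [hell00] at hell0
        refine FINU.final_ineq (P₀ := 0) (P₁ := P a (pt J (0 + 1) N)) (L₀ := 0)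
          (L₁ := Li (pt J (0 + 1) N)) (L := L) (ε₁ := ε₁) (τ := τ) (δ := 1 / J)
          (x := ((0 : ℕ) : ℝ) / J) hε hh0 hL (hP0 a M) (hPmono a _ _ hj) (li_nonneg hM2)
          (li_mono hM2 hj) (hall _ hmemj) (by simp) hell0 ?_ le_rfl hL12 hLN2 hJδ le_rfl
          hε₁8 hε₁0.le
        have h1 : ((0 : ℕ) : ℝ) / J + 1 / J = ((0 + 1 : ℕ) : ℝ) / J := by
          push_cast
          ring
        rw [h1]
        exact hell1
      · have hmemi : i ∈ Icc 1 J := Finset.mem_Icc.2 ⟨by omega, by omega⟩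
        have hL0 : ell J i N = Li (pt J i N) := by
          unfold ell
          rw [if_neg hi0]
        rw [hL0] at hell0
        obtain ⟨⟨_, hpi2⟩, _⟩ := hpt i hmemi
        have hiM := (hjmin i (by omega)).le
        refine FINU.final_ineq (P₀ := P a (pt J i N)) (P₁ := P a (pt J (i + 1) N))
          (L₀ := Li (pt J i N))
          (L₁ := Li (pt J (i + 1) N)) (L := L) (ε₁ := ε₁) (τ := τ) (δ := 1 / J)
          (x := (i : ℝ) / J) hε hh0 hL (hPmono a _ _ hiM) (hPmono a _ _ hj)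
          (li_mono hpi2 hiM)
          (li_mono hM2 hj) (hall _ hmemj) ?_ hell0 ?_ (li_nonneg hpi2) hL12 hLN2 hJδ le_rfl
          hε₁8 hε₁0.le
        · have h1 := (abs_le.1 (hall i hmemi)).1
          linarith
        · have h1 : (i : ℝ) / J + 1 / J = ((i + 1 : ℕ) : ℝ) / J := by
            push_cast
            ring
          rw [h1]
          exact hell1
    refine hfin.trans ?_
    apply mul_le_mul_of_nonneg_right hεε
    have : 0 ≤ Li N := by linarith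
    positivity
  calc (((Icc (-(A : ℤ)) A).filter (fun a : ℤ => ¬ ∃ h : ℝ, 0 < h ∧
    Tendsto (fun X : ℕ => ∏ w ∈ (range (X + 1)).filter (fun w => Nat.Prime w ∧ w ≠ 2),
      (1 - (jacobiSym (-a) w : ℝ) / ((w : ℝ) - 1))) atTop (𝓝 h) ∧
    ∀ M : ℕ, 2 ≤ M → M ≤ N →
      |(((Icc 1 M).filter (fun n : ℕ => Nat.Prime ((n : ℤ) ^ 2 + a).natAbs)).card : ℝ)
        - 1 / 2 * h * ∫ t in (2 : ℝ)..(M : ℝ), 1 / Real.log t|
        ≤ ε' * (h * ∫ t in (2 : ℝ)..(N : ℝ), 1 / Real.log t))).card : ℝ)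
      ≤ (((Icc 1 J).biUnion B).card : ℝ) := by exact_mod_cast Finset.card_le_card hsub
    _ ≤ ∑ j ∈ Icc 1 J, ((B j).card : ℝ) := by exact_mod_cast Finset.card_biUnion_le
    _ ≤ ∑ j ∈ Icc 1 J, ε₁ * A := Finset.sum_le_sum hBcard
    _ = (J * ε₁) * A := by
        rw [Finset.sum_const, nsmul_eq_mul, Nat.card_Icc]
        simp
        ring
    _ = ε / 8 * A := by rw [hJε₁]
    _ ≤ ε' * A := by nlinarith

end Pool.Agent.Lib.MP391708.QPA
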