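import Mathlib
import Pool.Agent.Lib.MP_391708_nt.QPA.Spec

/-!
# Module RHOMEAN of the project QPA
-/

set_option autoImplicit false

namespace Pool.Agent.Lib.MP391708.QPA.RHOMEAN

open Finset Filter Topology
open scoped Classical

lemma ev_rpow (e : ℝ) (he : 0 < e) (c : ℝ) : ∀ᶠ N : ℕ in atTop, c ≤ (N : ℝ) ^ e :=
  ((tendsto_rpow_atTop he).comp tendsto_natCast_atTop_atTop).eventually_ge_atTop c

lemma ev_log (c : ℝ) : ∀ᶠ N : ℕ in atTop, c ≤ Real.log N :=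
  (Real.tendsto_log_atTop.comp tendsto_natCast_atTop_atTop).eventually_ge_atTop c

/-- `C (1 + log N) ≤ N ^ e` for large `N` -/
lemma ev_log_rpow (e : ℝ) (he : 0 < e) (c : ℝ) (hc : 0 ≤ c) :
    ∀ᶠ N : ℕ in atTop, c * (1 + Real.log N) ≤ (N : ℝ) ^ e := by
  have h1 : (fun x : ℝ => Real.log x) =o[atTop] fun x => x ^ e := isLittleO_log_rpow_atTop he
  have h2 := h1.def (show (0 : ℝ) < 1 / (2 * (c + 1)) by positivity)
  have h3 := tendsto_natCast_atTop_atTop (R := ℝ) |>.eventually h2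
  filter_upwards [h3, ev_rpow e he (2 * c), ev_log 0, eventually_ge_atTop 1] with N hN h4 h5 h6
  have hpos : (0 : ℝ) ≤ (N : ℝ) ^ e := by positivity
  rw [Real.norm_eq_abs, Real.norm_eq_abs, abs_of_nonneg h5, abs_of_nonneg hpos] at hN
  have h7 : c * Real.log N ≤ (N : ℝ) ^ e / 2 := by
    have h8 : c * Real.log N ≤ c * (1 / (2 * (c + 1)) * (N : ℝ) ^ e) :=
      mul_le_mul_of_nonneg_left hN hc
    refine h8.trans ?_
    have h9 : c * (1 / (2 * (c + 1)) * (N : ℝ) ^ e) = c / (c + 1) * ((N : ℝ) ^ e / 2) := by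
      field_simp
    rw [h9]
    have h10 : c / (c + 1) ≤ 1 := by
      rw [div_le_one (by positivity)]
      linarith
    have h11 : (0 : ℝ) ≤ (N : ℝ) ^ e / 2 := by positivity
    calc c / (c + 1) * ((N : ℝ) ^ e / 2) ≤ 1 * ((N : ℝ) ^ e / 2) :=
          mul_le_mul_of_nonneg_right h10 h11
      _ = _ := one_mul _
  linarith

lemma le_of_rough {z : ℝ} {k : ℕ} (hk : 2 ≤ k) (h : Rough z k) : z ≤ k := by
  have hp := Nat.minFac_prime (n := k) (by omega)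
  have h1 := h _ hp (Nat.minFac_dvd k)
  have h2 : k.minFac ≤ k := Nat.minFac_le (by omega)
  exact h1.trans (by exact_mod_cast h2)

lemma sum_inv_rough_le {C : ℝ} (hC : 0 < C)
    (hR : ∀ (z X₁ X₂ : ℝ), 2 ≤ z → z ≤ X₁ → X₁ ≤ X₂ →
      ∑ k ∈ Icc ⌈X₁⌉₊ ⌊X₂⌋₊, rInd z k / (k : ℝ) ≤ C * (Real.log (X₂ / X₁) + 1) / Real.log z)
    {z : ℝ} {N : ℕ} (hz : 2 ≤ z) (hzN : z ≤ N) :
    ∑ k ∈ (Icc 1 N).filter (fun k => Rough z k), 1 / (k : ℝ)
      ≤ 1 + C * (Real.log N + 1) / Real.log z := by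
  have hlogz : 0 < Real.log z := Real.log_pos (by linarith)
  have hNpos : (0 : ℝ) < N := by linarith
  have h1 : (Icc 1 N).filter (fun k => Rough z k)
      ⊆ insert 1 ((Icc ⌈z⌉₊ ⌊(N : ℝ)⌋₊).filter (fun k => Rough z k)) := by
    intro k hk
    simp only [Finset.mem_filter, Finset.mem_Icc, Finset.mem_insert, Nat.floor_natCast] at hk ⊢
    rcases Nat.lt_or_ge k 2 with h | h
    · left; omega
    · right
      exact ⟨⟨Nat.ceil_le.mpr (le_of_rough h hk.2), hk.1.2⟩, hk.2⟩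
  have h2 : ∑ k ∈ (Icc 1 N).filter (fun k => Rough z k), 1 / (k : ℝ)
      ≤ ∑ k ∈ insert 1 ((Icc ⌈z⌉₊ ⌊(N : ℝ)⌋₊).filter (fun k => Rough z k)), 1 / (k : ℝ) :=
    Finset.sum_le_sum_of_subset_of_nonneg h1 (fun i _ _ => by positivity)
  have h3 : ∑ k ∈ insert 1 ((Icc ⌈z⌉₊ ⌊(N : ℝ)⌋₊).filter (fun k => Rough z k)), 1 / (k : ℝ)
      = 1 + ∑ k ∈ (Icc ⌈z⌉₊ ⌊(N : ℝ)⌋₊).filter (fun k => Rough z k), 1 / (k : ℝ) := by
    rw [Finset.sum_insert]
    · norm_num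
    · intro h
      simp only [Finset.mem_filter, Finset.mem_Icc] at h
      have := Nat.ceil_le.mp h.1.1
      norm_num at this
      linarith
  have h4 : ∑ k ∈ (Icc ⌈z⌉₊ ⌊(N : ℝ)⌋₊).filter (fun k => Rough z k), 1 / (k : ℝ)
      = ∑ k ∈ Icc ⌈z⌉₊ ⌊(N : ℝ)⌋₊, rInd z k / (k : ℝ) := by
    rw [Finset.sum_filter]
    refine Finset.sum_congr rfl (fun k _ => ?_)
    unfold rInd
    split_ifs <;> simp
  have h5 := hR z z N hz le_rfl hzN
  have h6 : Real.log (N / z) ≤ Real.log N := by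
    refine Real.log_le_log (by positivity) ?_
    rw [div_le_iff₀ (by linarith)]
    nlinarith
  have h7 : C * (Real.log (N / z) + 1) / Real.log z ≤ C * (Real.log N + 1) / Real.log z := by
    refine div_le_div_of_nonneg_right ?_ hlogz.le
    exact mul_le_mul_of_nonneg_left (by linarith) hC.le
  linarith

end Pool.Agent.Lib.MP391708.QPA.RHOMEAN

namespace Pool.Agent.Lib.MP391708.QPA

open Finset Filter Topology
open scoped Classical

/-- **Module RHOMEAN.** -/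
theorem specRHOMEAN (hRAV : SpecRAV) (hRSUM : SpecRSUM) : SpecRHOMEAN := by
  obtain ⟨C₁, hC₁, hR⟩ := hRAV (1 / 8) (by norm_num)
  obtain ⟨C₂, hC₂, hS⟩ := hRSUM
  refine ⟨3 * (1 + 2 * C₂) + C₁, by positivity, ?_⟩
  intro e0 he0 he1
  have hev : ∀ᶠ N : ℕ in atTop, 2 ≤ (N : ℝ) ^ e0 ∧ 1 ≤ Real.log N ∧
      1 * (1 + Real.log N) ≤ (N : ℝ) ^ (1 / 8 : ℝ) ∧ 1 ≤ N :=
    (RHOMEAN.ev_rpow e0 he0 2).and ((RHOMEAN.ev_log 1).and
      ((RHOMEAN.ev_log_rpow (1 / 8) (by norm_num) 1 zero_le_one).and (eventually_ge_atTop 1)))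
  obtain ⟨N₀, hN₀⟩ := eventually_atTop.mp hev
  refine ⟨N₀, ?_⟩
  intro N A hN hA
  obtain ⟨hz, hlog, hlr, hN1⟩ := hN₀ N hN
  have hNR : (0 : ℝ) < N := by exact_mod_cast hN1
  have hNR1 : (1 : ℝ) ≤ N := by exact_mod_cast hN1
  have hA1 : (1 : ℝ) ≤ A := (Real.one_le_rpow hNR1 (by norm_num)).trans hA
  set z : ℝ := (N : ℝ) ^ e0 with hzdef
  have hzN : z ≤ N := by
    calc z ≤ (N : ℝ) ^ (1 : ℝ) := Real.rpow_le_rpow_of_exponent_le hNR1 (by linarith)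
      _ = N := Real.rpow_one _
  have hlogz : Real.log z = e0 * Real.log N := Real.log_rpow hNR e0
  rw [Finset.sum_comm]
  have h1 : ∀ k ∈ (Icc 1 N).filter (fun k => Rough z k), ∑ a ∈ IA A, (rho a k : ℝ) / k
      ≤ (2 * A + 1) * (1 / (k : ℝ)) + C₁ * (N : ℝ) ^ (5 / 8 : ℝ) * (1 / (k : ℝ)) := by
    intro k hk
    simp only [Finset.mem_filter, Finset.mem_Icc] at hk
    have hk1 : (1 : ℝ) ≤ k := by exact_mod_cast hk.1.1
    have hkN : (k : ℝ) ≤ N := by exact_mod_cast hk.1.2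
    have h2 := hR k A hk.1.1
    have h3 := (abs_le.mp h2).2
    have h4 : (k : ℝ) ^ (1 / 2 + 1 / 8 : ℝ) ≤ (N : ℝ) ^ (5 / 8 : ℝ) := by
      rw [show (1 / 2 + 1 / 8 : ℝ) = 5 / 8 by norm_num]
      exact Real.rpow_le_rpow (by linarith) hkN (by norm_num)
    rw [← Finset.sum_div, ← add_mul, div_eq_mul_one_div]
    refine mul_le_mul_of_nonneg_right ?_ (by positivity)
    have h5 : C₁ * (k : ℝ) ^ (1 / 2 + 1 / 8 : ℝ) ≤ C₁ * (N : ℝ) ^ (5 / 8 : ℝ) :=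
      mul_le_mul_of_nonneg_left h4 hC₁.le
    linarith
  refine (Finset.sum_le_sum h1).trans ?_
  rw [Finset.sum_add_distrib, ← Finset.mul_sum, ← Finset.mul_sum]
  have h2 := RHOMEAN.sum_inv_rough_le hC₂ hS hz hzN
  have h3 : 1 + C₂ * (Real.log N + 1) / Real.log z ≤ (1 + 2 * C₂) / e0 := by
    rw [hlogz]
    have e1 : (1 : ℝ) ≤ 1 / e0 := by
      rw [le_div_iff₀ he0]; linarith
    have e2 : C₂ * (Real.log N + 1) / (e0 * Real.log N) ≤ 2 * C₂ / e0 := by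
      rw [div_le_div_iff₀ (by positivity) he0]
      have : C₂ * e0 * (Real.log N + 1) ≤ C₂ * e0 * (2 * Real.log N) :=
        mul_le_mul_of_nonneg_left (by linarith) (by positivity)
      nlinarith
    have e3 : (1 + 2 * C₂) / e0 = 1 / e0 + 2 * C₂ / e0 := by ring
    rw [e3]
    linarith
  have h4 : ∑ k ∈ (Icc 1 N).filter (fun k => Rough z k), 1 / (k : ℝ) ≤ 1 + Real.log N := by
    have e1 : ∑ k ∈ (Icc 1 N).filter (fun k => Rough z k), 1 / (k : ℝ)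
        ≤ ∑ k ∈ Icc 1 N, 1 / (k : ℝ) :=
      Finset.sum_le_sum_of_subset_of_nonneg (Finset.filter_subset _ _) (fun i _ _ => by positivity)
    refine e1.trans ?_
    have h := harmonic_le_one_add_log N
    rw [harmonic_eq_sum_Icc] at h
    push_cast at h
    simpa using h
  have h5 : (N : ℝ) ^ (5 / 8 : ℝ) * ∑ k ∈ (Icc 1 N).filter (fun k => Rough z k), 1 / (k : ℝ)
      ≤ A := by
    have e1 : (N : ℝ) ^ (5 / 8 : ℝ) * ∑ k ∈ (Icc 1 N).filter (fun k => Rough z k), 1 / (k : ℝ)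
        ≤ (N : ℝ) ^ (5 / 8 : ℝ) * (N : ℝ) ^ (1 / 8 : ℝ) :=
      mul_le_mul_of_nonneg_left (by linarith) (by positivity)
    refine e1.trans (le_trans (le_of_eq ?_) hA)
    rw [← Real.rpow_add hNR]
    norm_num
  have h6 : (2 * (A : ℝ) + 1) * ∑ k ∈ (Icc 1 N).filter (fun k => Rough z k), 1 / (k : ℝ)
      ≤ 3 * A * ((1 + 2 * C₂) / e0) := by
    refine mul_le_mul (by linarith) (h2.trans h3) ?_ (by positivity)
    exact Finset.sum_nonneg (fun i _ => by positivity)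
  have h7 : C₁ * (N : ℝ) ^ (5 / 8 : ℝ) * ∑ k ∈ (Icc 1 N).filter (fun k => Rough z k), 1 / (k : ℝ)
      ≤ C₁ * A / e0 := by
    rw [mul_assoc]
    have e1 : C₁ * ((N : ℝ) ^ (5 / 8 : ℝ) *
        ∑ k ∈ (Icc 1 N).filter (fun k => Rough z k), 1 / (k : ℝ)) ≤ C₁ * A :=
      mul_le_mul_of_nonneg_left h5 hC₁.le
    refine e1.trans ?_
    rw [le_div_iff₀ he0]
    have : 0 ≤ C₁ * A := by positivity
    nlinarith
  have h8 : (3 * (1 + 2 * C₂) + C₁) * A / e0 = 3 * A * ((1 + 2 * C₂) / e0) + C₁ * A / e0 := by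
    ring
  rw [h8]
  linarith

end Pool.Agent.Lib.MP391708.QPA
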