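import Pool.Agent.Lib.MP_391708_nt.QPA.Spec

/-!
# Module FL: the fundamental lemma (Brun-Hooley sieve)
-/

set_option autoImplicit false

namespace Pool.Agent.Lib.MP391708.QPA.FL

open Finset

/-- sums over the subsets with a coefficient depending on the cardinality -/
noncomputable def S (κ : ℕ → ℝ) (a : ℕ → ℝ) (P : Finset ℕ) : ℝ :=
  ∑ t ∈ P.powerset, κ t.card * ∏ p ∈ t, a p

lemma S_insert {κ : ℕ → ℝ} {a : ℕ → ℝ} {P : Finset ℕ} {q : ℕ} (hq : q ∉ P) :
    S κ a (insert q P) = S κ a P + a q * S (fun n => κ (n + 1)) a P := by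
  unfold S
  rw [Finset.sum_powerset_insert hq, Finset.mul_sum]
  congr 1
  refine Finset.sum_congr rfl fun t ht => ?_
  have hqt : q ∉ t := fun h => hq (Finset.mem_powerset.1 ht h)
  rw [Finset.card_insert_of_notMem hqt, Finset.prod_insert hqt]
  ring

lemma S_empty (κ : ℕ → ℝ) (a : ℕ → ℝ) : S κ a ∅ = κ 0 := by
  simp [S]

/-- the coefficients of the truncated inclusion-exclusion -/
noncomputable def kap (k n : ℕ) : ℝ := if n ≤ k then (-1) ^ n else 0

/-- the coefficients of the elementary symmetric functions -/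
noncomputable def del (k n : ℕ) : ℝ := if n = k then 1 else 0

lemma kap_succ (k : ℕ) : (fun n => kap (k + 1) (n + 1)) = fun n => - kap k n := by
  funext n
  unfold kap
  by_cases h : n ≤ k
  · rw [if_pos (by omega), if_pos h, pow_succ]; ring
  · rw [if_neg (by omega), if_neg h]; ring

lemma kap_zero : (fun n => kap 0 (n + 1)) = fun _ => 0 := by
  funext n
  unfold kap
  rw [if_neg (by omega)]

lemma del_succ (k : ℕ) : (fun n => del (k + 1) (n + 1)) = fun n => del k n := by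
  funext n
  unfold del
  by_cases h : n = k
  · rw [if_pos (by omega), if_pos h]
  · rw [if_neg (by omega), if_neg h]

lemma S_neg (κ : ℕ → ℝ) (a : ℕ → ℝ) (P : Finset ℕ) :
    S (fun n => - κ n) a P = - S κ a P := by
  unfold S
  rw [← Finset.sum_neg_distrib]
  exact Finset.sum_congr rfl fun t _ => by ring

lemma S_zero (a : ℕ → ℝ) (P : Finset ℕ) : S (fun _ => 0) a P = 0 := by
  unfold S
  simp

lemma S_kap_zero (a : ℕ → ℝ) (P : Finset ℕ) : S (kap 0) a P = 1 := by
  induction P using Finset.induction_on with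
  | empty => rw [S_empty]; simp [kap]
  | insert q P hq ih => rw [S_insert hq, ih, kap_zero, S_zero]; ring

lemma S_del_zero (a : ℕ → ℝ) (P : Finset ℕ) : S (del 0) a P = 1 := by
  have h0 : (fun n => del 0 (n + 1)) = fun _ => 0 := by
    funext n; unfold del; rw [if_neg (by omega)]
  induction P using Finset.induction_on with
  | empty => rw [S_empty]; simp [del]
  | insert q P hq ih => rw [S_insert hq, ih, h0, S_zero]; ring

lemma prod_one_sub_mem {a : ℕ → ℝ} {P : Finset ℕ} (ha : ∀ p ∈ P, 0 ≤ a p ∧ a p ≤ 1) :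
    0 ≤ ∏ p ∈ P, (1 - a p) ∧ ∏ p ∈ P, (1 - a p) ≤ 1 :=
  ⟨Finset.prod_nonneg fun p hp => by linarith [(ha p hp).2],
    Finset.prod_le_one (fun p hp => by linarith [(ha p hp).2])
      (fun p hp => by linarith [(ha p hp).1])⟩

/-- Bonferroni inequalities with weights -/
lemma bonf {a : ℕ → ℝ} {P : Finset ℕ} (ha : ∀ p ∈ P, 0 ≤ a p ∧ a p ≤ 1) : ∀ k : ℕ,
    0 ≤ (-1) ^ k * (S (kap k) a P - ∏ p ∈ P, (1 - a p)) ∧
      (-1) ^ k * (S (kap k) a P - ∏ p ∈ P, (1 - a p)) ≤ S (del (k + 1)) a P := by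
  induction P using Finset.induction_on with
  | empty =>
    intro k
    rw [S_empty, S_empty]
    simp [kap, del]
  | insert q P hq ih =>
    have haP : ∀ p ∈ P, 0 ≤ a p ∧ a p ≤ 1 := fun p hp => ha p (Finset.mem_insert_of_mem hp)
    have haq := ha q (Finset.mem_insert_self q P)
    have hP := prod_one_sub_mem haP
    intro k
    rcases k with _ | k
    · have h0 := ih haP 0
      rw [S_kap_zero] at h0 ⊢
      rw [S_insert hq, Finset.prod_insert hq]
      have hd : (fun n => del (0 + 1) (n + 1)) = fun n => del 0 n := del_succ 0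
      rw [hd, S_del_zero]
      simp only [pow_zero, one_mul] at h0 ⊢
      have h1 : 0 ≤ a q * ∏ p ∈ P, (1 - a p) := mul_nonneg haq.1 hP.1
      have h2 : a q * ∏ p ∈ P, (1 - a p) ≤ a q * 1 := mul_le_mul_of_nonneg_left hP.2 haq.1
      constructor
      · nlinarith [h0.1]
      · nlinarith [h0.2]
    · have h1 := ih haP (k + 1)
      have h2 := ih haP k
      rw [S_insert hq, S_insert hq, Finset.prod_insert hq, kap_succ, del_succ (k + 1), S_neg]
      have e : (-1 : ℝ) ^ (k + 1) * (S (kap (k + 1)) a P + a q * -S (kap k) a P -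
          (1 - a q) * ∏ p ∈ P, (1 - a p)) =
          (-1) ^ (k + 1) * (S (kap (k + 1)) a P - ∏ p ∈ P, (1 - a p)) +
            a q * ((-1) ^ k * (S (kap k) a P - ∏ p ∈ P, (1 - a p))) := by
        rw [pow_succ]; ring
      rw [e]
      constructor
      · exact add_nonneg h1.1 (mul_nonneg haq.1 h2.1)
      · exact add_le_add h1.2 (mul_le_mul_of_nonneg_left h2.2 haq.1)

lemma pow_ge {x G : ℝ} (hx : 0 ≤ x) (hG : 0 ≤ G) : ∀ n : ℕ,
    G ^ (n + 1) + (n + 1) * x * G ^ n ≤ (x + G) ^ (n + 1) := by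
  intro n
  induction n with
  | zero => simp; linarith
  | succ n ih =>
    have h1 : 0 ≤ x + G := by linarith
    have h2 := mul_le_mul_of_nonneg_right ih h1
    have h3 : 0 ≤ ((n : ℝ) + 1) * x * G ^ n * x := by positivity
    rw [pow_succ (x + G) (n + 1)]
    refine le_trans ?_ h2
    push_cast
    ring_nf
    ring_nf at h3
    nlinarith

/-- the elementary symmetric function is at most `(∑ a)^n / n!` -/
lemma S_del_le {a : ℕ → ℝ} {P : Finset ℕ} (ha : ∀ p ∈ P, 0 ≤ a p) : ∀ n : ℕ,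
    0 ≤ S (del n) a P ∧ S (del n) a P ≤ (∑ p ∈ P, a p) ^ n / n.factorial := by
  induction P using Finset.induction_on with
  | empty =>
    intro n
    rw [S_empty]
    rcases n with _ | n
    · simp [del]
    · simp [del]
  | insert q P hq ih =>
    have haP : ∀ p ∈ P, 0 ≤ a p := fun p hp => ha p (Finset.mem_insert_of_mem hp)
    have haq := ha q (Finset.mem_insert_self q P)
    intro n
    rcases n with _ | n
    · rw [S_del_zero]; simp
    · rw [S_insert hq, del_succ, Finset.sum_insert hq]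
      have h1 := ih haP (n + 1)
      have h2 := ih haP n
      have hG : 0 ≤ ∑ p ∈ P, a p := Finset.sum_nonneg haP
      set G := ∑ p ∈ P, a p with hGd
      refine ⟨add_nonneg h1.1 (mul_nonneg haq h2.1), ?_⟩
      have h3 : a q * S (del n) a P ≤ a q * (G ^ n / n.factorial) :=
        mul_le_mul_of_nonneg_left h2.2 haq
      have h4 : G ^ (n + 1) + (n + 1) * a q * G ^ n ≤ (a q + G) ^ (n + 1) := by
        exact pow_ge haq hG n
      have hf : (0 : ℝ) < (n.factorial : ℝ) := by exact_mod_cast n.factorial_pos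
      have hn1 : (0 : ℝ) < (n : ℝ) + 1 := by positivity
      rw [Nat.factorial_succ]
      push_cast
      rw [le_div_iff₀ (by positivity)]
      rw [Nat.factorial_succ] at h1
      push_cast at h1
      have h5 := h1.2
      rw [le_div_iff₀ (by positivity)] at h5
      have h6 : a q * S (del n) a P * ((n + 1) * n.factorial) ≤ (n + 1) * a q * G ^ n := by
        have := mul_le_mul_of_nonneg_right h3 (show (0 : ℝ) ≤ (n + 1) * n.factorial by positivity)
        refine this.trans (le_of_eq ?_)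
        field_simp
      nlinarith

lemma sum_powerset_union {A B : Finset ℕ} (h : Disjoint A B) (f : Finset ℕ → ℝ) :
    ∑ s ∈ (A ∪ B).powerset, f s = ∑ s ∈ A.powerset, ∑ t ∈ B.powerset, f (s ∪ t) := by
  induction B using Finset.induction_on generalizing f with
  | empty => simp
  | insert q B hq ih =>
    rw [Finset.disjoint_insert_right] at h
    have hqA : q ∉ A ∪ B := by
      rw [Finset.mem_union]; rintro (h1 | h1)
      · exact h.1 h1
      · exact hq h1
    rw [Finset.union_insert, Finset.sum_powerset_insert hqA, ih h.2, ih h.2,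
      ← Finset.sum_add_distrib]
    refine Finset.sum_congr rfl fun s _ => ?_
    rw [Finset.sum_powerset_insert hq]
    congr 1
    refine Finset.sum_congr rfl fun t _ => ?_
    rw [Finset.union_insert]

/-- the product over the blocks -/
lemma prod_blocks (P : ℕ → Finset ℕ) (hd : ∀ i j, i ≠ j → Disjoint (P i) (P j))
    (κ : ℕ → ℕ → ℝ) (a : ℕ → ℝ) (J : ℕ) :
    ∏ j ∈ range J, S (κ j) a (P j) =
      ∑ s ∈ ((range J).biUnion P).powerset,
        (∏ j ∈ range J, κ j (s ∩ P j).card) * ∏ p ∈ s, a p := by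
  induction J with
  | zero => simp
  | succ J ih =>
    have hdis : Disjoint ((range J).biUnion P) (P J) := by
      rw [Finset.disjoint_biUnion_left]
      intro i hi
      exact hd i J (by have := Finset.mem_range.1 hi; omega)
    rw [Finset.prod_range_succ, ih, Finset.range_add_one, Finset.biUnion_insert,
      Finset.union_comm (P J), sum_powerset_union hdis, Finset.sum_mul]
    refine Finset.sum_congr rfl fun s hs => ?_
    rw [Finset.mem_powerset] at hs
    unfold S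
    rw [Finset.mul_sum]
    refine Finset.sum_congr rfl fun t ht => ?_
    rw [Finset.mem_powerset] at ht
    have hst : Disjoint s t := Finset.disjoint_of_subset_left hs
      (Finset.disjoint_of_subset_right ht hdis)
    have h1 : (s ∪ t) ∩ P J = t := by
      rw [Finset.union_inter_distrib_right]
      have : s ∩ P J = ∅ := Finset.disjoint_iff_inter_eq_empty.1
        (Finset.disjoint_of_subset_left hs hdis)
      rw [this, Finset.empty_union, Finset.inter_eq_left.2 ht]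
    have h2 : ∀ j ∈ range J, κ j ((s ∪ t) ∩ P j).card = κ j (s ∩ P j).card := by
      intro j hj
      have hj' := Finset.mem_range.1 hj
      have : t ∩ P j = ∅ := Finset.disjoint_iff_inter_eq_empty.1
        (Finset.disjoint_of_subset_left ht (hd J j (by omega)))
      rw [Finset.union_inter_distrib_right, this, Finset.union_empty]
    rw [Finset.prod_insert Finset.notMem_range_self, h1, Finset.prod_congr rfl h2,
      Finset.prod_union hst]
    ring

lemma prod_ind {s : Finset ℕ} (hs : ∀ p ∈ s, p.Prime) (m : ℕ) :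
    ∏ p ∈ s, (if p ∣ m then (1 : ℝ) else 0) = if (∏ p ∈ s, p) ∣ m then 1 else 0 := by
  by_cases h : ∀ p ∈ s, p ∣ m
  · rw [if_pos (Finset.prod_primes_dvd m (fun p hp => (hs p hp).prime) h),
      Finset.prod_congr rfl (fun p hp => if_pos (h p hp)), Finset.prod_const_one]
  · rw [if_neg (fun h2 => h fun p hp => (Finset.dvd_prod_of_mem _ hp).trans h2)]
    push Not at h
    obtain ⟨p, hp, hpm⟩ := h
    exact Finset.prod_eq_zero hp (if_neg hpm)

/-- replacing the divisibility sums by the model costs the sum of the remainders -/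
lemma rem_le (P : ℕ → Finset ℕ) (hd : ∀ i j, i ≠ j → Disjoint (P i) (P j))
    (hP : ∀ j, ∀ p ∈ P j, p.Prime) (J : ℕ) (κ : ℕ → ℕ → ℝ) (hκ : ∀ j n, |κ j n| ≤ 1)
    (D : Finset ℕ) (hD : ∀ s : Finset ℕ, s ⊆ (range J).biUnion P →
      (∏ j ∈ range J, κ j (s ∩ P j).card) ≠ 0 → (∏ p ∈ s, p) ∈ D)
    (T : Finset ℕ) (v : ℕ → ℕ) (om : ℕ → ℝ) (X : ℝ) (g : ℕ → ℝ) :
    |(∑ i ∈ T, om i * ∏ j ∈ range J, S (κ j) (fun p => if p ∣ v i then 1 else 0) (P j))
      - X * ∏ j ∈ range J, S (κ j) g (P j)| ≤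
    ∑ δ ∈ D, |(∑ i ∈ T.filter (fun i => δ ∣ v i), om i) - X * ∏ p ∈ δ.primeFactors, g p| := by
  set PP := (range J).biUnion P with hPP
  have hprime : ∀ s ∈ PP.powerset, ∀ p ∈ s, p.Prime := by
    intro s hs p hp
    obtain ⟨j, _, hj⟩ := Finset.mem_biUnion.1 (Finset.mem_powerset.1 hs hp)
    exact hP j p hj
  set c : Finset ℕ → ℝ := fun s => ∏ j ∈ range J, κ j (s ∩ P j).card with hc
  have hc1 : ∀ s, |c s| ≤ 1 := by
    intro s
    rw [hc]
    simp only
    rw [Finset.abs_prod]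
    exact Finset.prod_le_one (fun _ _ => abs_nonneg _) (fun j _ => hκ j _)
  have e1 : (∑ i ∈ T, om i * ∏ j ∈ range J, S (κ j) (fun p => if p ∣ v i then 1 else 0) (P j))
      - X * ∏ j ∈ range J, S (κ j) g (P j) =
      ∑ s ∈ PP.powerset, c s * ((∑ i ∈ T.filter (fun i => (∏ p ∈ s, p) ∣ v i), om i)
        - X * ∏ p ∈ (∏ p ∈ s, p).primeFactors, g p) := by
    rw [prod_blocks P hd κ g J, Finset.mul_sum]
    have e2 : ∑ i ∈ T, om i * ∏ j ∈ range J, S (κ j) (fun p => if p ∣ v i then 1 else 0) (P j) =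
        ∑ s ∈ PP.powerset, c s * ∑ i ∈ T.filter (fun i => (∏ p ∈ s, p) ∣ v i), om i := by
      have e3 : ∀ i ∈ T, om i * ∏ j ∈ range J,
          S (κ j) (fun p => if p ∣ v i then 1 else 0) (P j) =
          ∑ s ∈ PP.powerset, c s * (if (∏ p ∈ s, p) ∣ v i then om i else 0) := by
        intro i _
        rw [prod_blocks P hd κ _ J, Finset.mul_sum]
        refine Finset.sum_congr rfl fun s hs => ?_
        rw [prod_ind (hprime s hs)]
        split_ifs
        · ring
        · ring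
      rw [Finset.sum_congr rfl e3, Finset.sum_comm]
      refine Finset.sum_congr rfl fun s _ => ?_
      rw [← Finset.mul_sum, Finset.sum_filter]
    rw [e2, ← Finset.sum_sub_distrib]
    refine Finset.sum_congr rfl fun s hs => ?_
    rw [Nat.primeFactors_prod (hprime s hs)]
    ring
  rw [e1]
  refine (Finset.abs_sum_le_sum_abs _ _).trans ?_
  rw [← Finset.sum_filter_add_sum_filter_not PP.powerset (fun s => c s ≠ 0)]
  have e4 : ∑ s ∈ PP.powerset.filter (fun s => ¬ c s ≠ 0),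
      |c s * ((∑ i ∈ T.filter (fun i => (∏ p ∈ s, p) ∣ v i), om i)
        - X * ∏ p ∈ (∏ p ∈ s, p).primeFactors, g p)| = 0 := by
    refine Finset.sum_eq_zero fun s hs => ?_
    have := (Finset.mem_filter.1 hs).2
    push Not at this
    rw [this]; simp
  rw [e4, add_zero]
  have hinj : Set.InjOn (fun s : Finset ℕ => ∏ p ∈ s, p)
      (PP.powerset.filter (fun s => c s ≠ 0) : Finset (Finset ℕ)) := by
    intro s hs t ht hst
    have hs' := hprime s (Finset.mem_filter.1 (Finset.mem_coe.1 hs)).1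
    have ht' := hprime t (Finset.mem_filter.1 (Finset.mem_coe.1 ht)).1
    simp only at hst
    rw [← Nat.primeFactors_prod hs', ← Nat.primeFactors_prod ht', hst]
  calc ∑ s ∈ PP.powerset.filter (fun s => c s ≠ 0),
      |c s * ((∑ i ∈ T.filter (fun i => (∏ p ∈ s, p) ∣ v i), om i)
        - X * ∏ p ∈ (∏ p ∈ s, p).primeFactors, g p)|
      ≤ ∑ s ∈ PP.powerset.filter (fun s => c s ≠ 0),
        (fun δ => |(∑ i ∈ T.filter (fun i => δ ∣ v i), om i)
          - X * ∏ p ∈ δ.primeFactors, g p|) (∏ p ∈ s, p) := by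
        refine Finset.sum_le_sum fun s _ => ?_
        rw [abs_mul]
        simp only
        calc _ ≤ 1 * _ := mul_le_mul_of_nonneg_right (hc1 s) (abs_nonneg _)
          _ = _ := one_mul _
    _ = ∑ δ ∈ (PP.powerset.filter (fun s => c s ≠ 0)).image (fun s => ∏ p ∈ s, p),
        |(∑ i ∈ T.filter (fun i => δ ∣ v i), om i) - X * ∏ p ∈ δ.primeFactors, g p| := by
        rw [Finset.sum_image hinj]
    _ ≤ _ := by
        refine Finset.sum_le_sum_of_subset_of_nonneg ?_ (fun _ _ _ => abs_nonneg _)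
        intro δ hδ
        obtain ⟨s, hs, rfl⟩ := Finset.mem_image.1 hδ
        have hs' := Finset.mem_filter.1 hs
        exact hD s (Finset.mem_powerset.1 hs'.1) hs'.2

/-- product inequality: `∏ y - ∑_l (e_l in place of y_l) ≤ ∏ x` -/
lemma prod_low (x y e : ℕ → ℝ) (hx : ∀ j, 0 ≤ x j) (hxy : ∀ j, x j ≤ y j)
    (hye : ∀ j, y j ≤ x j + e j) (he : ∀ j, 0 ≤ e j) (J : ℕ) :
    ∏ j ∈ range J, y j - ∑ l ∈ range J, ∏ j ∈ range J, (if j = l then e j else y j)
      ≤ ∏ j ∈ range J, x j := by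
  induction J with
  | zero => simp
  | succ J ih =>
    have hy : ∀ j, 0 ≤ y j := fun j => (hx j).trans (hxy j)
    have hX : 0 ≤ ∏ j ∈ range J, x j := Finset.prod_nonneg fun j _ => hx j
    have hY : 0 ≤ ∏ j ∈ range J, y j := Finset.prod_nonneg fun j _ => hy j
    have hXY : ∏ j ∈ range J, x j ≤ ∏ j ∈ range J, y j :=
      Finset.prod_le_prod (fun j _ => hx j) (fun j _ => hxy j)
    rw [Finset.prod_range_succ, Finset.prod_range_succ, Finset.sum_range_succ]
    have e1 : ∑ l ∈ range J, ∏ j ∈ range (J + 1), (if j = l then e j else y j) =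
        (∑ l ∈ range J, ∏ j ∈ range J, (if j = l then e j else y j)) * y J := by
      rw [Finset.sum_mul]
      refine Finset.sum_congr rfl fun l hl => ?_
      rw [Finset.prod_range_succ, if_neg (by have := Finset.mem_range.1 hl; omega)]
    have e2 : ∏ j ∈ range (J + 1), (if j = J then e j else y j) =
        (∏ j ∈ range J, y j) * e J := by
      rw [Finset.prod_range_succ, if_pos rfl]
      congr 1
      refine Finset.prod_congr rfl fun j hj => ?_
      rw [if_neg (by have := Finset.mem_range.1 hj; omega)]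
    rw [e1, e2]
    have hW : 0 ≤ ∑ l ∈ range J, ∏ j ∈ range J, (if j = l then e j else y j) :=
      Finset.sum_nonneg fun l _ => Finset.prod_nonneg fun j _ => by
        split_ifs
        · exact he j
        · exact hy j
    set A := ∏ j ∈ range J, y j
    set B := ∏ j ∈ range J, x j
    set W := ∑ l ∈ range J, ∏ j ∈ range J, (if j = l then e j else y j)
    have h1 := hye J
    have h2 := hxy J
    have h3 := hx J
    have h4 : A * (y J - x J) ≤ A * e J := mul_le_mul_of_nonneg_left (by linarith) hY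
    have h5 : (A - B) * x J ≤ W * x J := mul_le_mul_of_nonneg_right (by linarith) h3
    have h6 : W * x J ≤ W * y J := mul_le_mul_of_nonneg_left h2 hW
    nlinarith

/-! ### The blocks -/

/-- the primes `p < z` in `[2^(2^k), 2^(2^(k+1)))` -/
noncomputable def Blk (z : ℝ) (k : ℕ) : Finset ℕ :=
  (PB z).filter (fun p => 2 ^ 2 ^ k ≤ p ∧ p < 2 ^ 2 ^ (k + 1))

lemma mem_PB {z : ℝ} {p : ℕ} : p ∈ PB z ↔ p.Prime ∧ (p : ℝ) < z := by
  unfold PB
  rw [Finset.mem_filter, Finset.mem_range, Nat.lt_ceil, and_comm]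

lemma mem_Blk {z : ℝ} {k p : ℕ} : p ∈ Blk z k ↔
    p.Prime ∧ (p : ℝ) < z ∧ 2 ^ 2 ^ k ≤ p ∧ p < 2 ^ 2 ^ (k + 1) := by
  unfold Blk
  rw [Finset.mem_filter, mem_PB]
  tauto

lemma pow_pow_mono {i j : ℕ} (h : i ≤ j) : 2 ^ 2 ^ i ≤ 2 ^ 2 ^ j :=
  Nat.pow_le_pow_right two_pos (Nat.pow_le_pow_right two_pos h)

lemma Blk_disjoint (z : ℝ) : ∀ i j, i ≠ j → Disjoint (Blk z i) (Blk z j) := by
  have key : ∀ i j, i < j → Disjoint (Blk z i) (Blk z j) := by
    intro i j hij
    rw [Finset.disjoint_left]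
    intro p hp hp'
    have h1 := (mem_Blk.1 hp).2.2.2
    have h2 := (mem_Blk.1 hp').2.2.1
    have h3 := pow_pow_mono (Nat.succ_le_of_lt hij)
    rw [Nat.succ_eq_add_one] at h3
    omega
  intro i j hij
  rcases lt_or_gt_of_ne hij with h | h
  · exact key i j h
  · exact (key j i h).symm

/-- the index of the block -/
lemma exists_block {n : ℕ} (hn : 2 ≤ n) : ∃ k : ℕ, 2 ^ 2 ^ k ≤ n ∧ n < 2 ^ 2 ^ (k + 1) := by
  have h1 : Nat.log 2 n ≠ 0 := by
    have := Nat.log_pos one_lt_two hn; omega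
  refine ⟨Nat.log 2 (Nat.log 2 n), ?_, ?_⟩
  · calc 2 ^ 2 ^ (Nat.log 2 (Nat.log 2 n)) ≤ 2 ^ Nat.log 2 n :=
        Nat.pow_le_pow_right two_pos (Nat.pow_log_le_self 2 h1)
      _ ≤ n := Nat.pow_log_le_self 2 (by omega)
  · calc n < 2 ^ (Nat.log 2 n + 1) := Nat.lt_pow_succ_log_self one_lt_two n
      _ ≤ 2 ^ 2 ^ (Nat.log 2 (Nat.log 2 n) + 1) :=
        Nat.pow_le_pow_right two_pos (Nat.succ_le_of_lt (Nat.lt_pow_succ_log_self one_lt_two _))

lemma biUnion_Blk {z : ℝ} {K : ℕ} (hK : z ≤ (2 : ℝ) ^ 2 ^ (K + 1)) :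
    (range (K + 1)).biUnion (Blk z) = PB z := by
  ext p
  rw [Finset.mem_biUnion]
  constructor
  · rintro ⟨j, _, hj⟩
    have := mem_Blk.1 hj
    exact mem_PB.2 ⟨this.1, this.2.1⟩
  · intro hp
    have h := mem_PB.1 hp
    obtain ⟨k, hk1, hk2⟩ := exists_block h.1.two_le
    refine ⟨k, ?_, mem_Blk.2 ⟨h.1, h.2, hk1, hk2⟩⟩
    rw [Finset.mem_range]
    by_contra hcon
    have h3 : 2 ^ 2 ^ (K + 1) ≤ p := (pow_pow_mono (by omega)).trans hk1
    have h4 : (2 : ℝ) ^ 2 ^ (K + 1) ≤ (p : ℝ) := by exact_mod_cast h3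
    linarith [h.2]

lemma exists_K {z : ℝ} (hz : 2 ≤ z) : ∃ K : ℕ, (2 : ℝ) ^ 2 ^ K ≤ z ∧ z ≤ (2 : ℝ) ^ 2 ^ (K + 1) := by
  have h2 : 2 ≤ ⌊z⌋₊ := Nat.le_floor (by exact_mod_cast hz)
  obtain ⟨K, h3, h4⟩ := exists_block h2
  refine ⟨K, ?_, ?_⟩
  · have : ((2 ^ 2 ^ K : ℕ) : ℝ) ≤ (⌊z⌋₊ : ℝ) := by exact_mod_cast h3
    push_cast at this
    exact this.trans (Nat.floor_le (by linarith))
  · have : ((⌊z⌋₊ + 1 : ℕ) : ℝ) ≤ ((2 ^ 2 ^ (K + 1) : ℕ) : ℝ) := by exact_mod_cast h4
    push_cast at this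
    exact (Nat.lt_floor_add_one z).le.trans this

/-- the number of primes in `[2^i, 2^(i+1))` -/
lemma card_dyadic (i : ℕ) (s : Finset ℕ) (hs : ∀ p ∈ s, p.Prime ∧ 2 ^ i ≤ p ∧ p < 2 ^ (i + 1)) :
    i * s.card ≤ 4 * 2 ^ i := by
  have h1 : (2 ^ i) ^ s.card ≤ ∏ p ∈ s, p :=
    Finset.pow_card_le_prod _ _ _ (fun p hp => (hs p hp).2.1)
  have h2 : ∏ p ∈ s, p ≤ primorial (2 ^ (i + 1)) := by
    unfold primorial
    refine Finset.prod_le_prod_of_subset_of_one_le' ?_ ?_
    · intro p hp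
      rw [Finset.mem_filter, Finset.mem_range]
      have := hs p hp
      exact ⟨by omega, this.1⟩
    · intro p hp _
      exact (Finset.mem_filter.1 hp).2.one_lt.le
  have h3 := (h1.trans h2).trans (primorial_le_four_pow _)
  rw [← pow_mul, show (4 : ℕ) = 2 ^ 2 by norm_num, ← pow_mul] at h3
  have h4 := (Nat.pow_le_pow_iff_right one_lt_two).1 h3
  calc i * s.card ≤ 2 * 2 ^ (i + 1) := h4
    _ = 4 * 2 ^ i := by ring

lemma sum_Blk_le (z : ℝ) (k : ℕ) : ∑ p ∈ Blk z k, 2 / (p : ℝ) ≤ 8 := by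
  have hmap : ∀ p ∈ Blk z k, Nat.log 2 p ∈ Ico (2 ^ k) (2 ^ (k + 1)) := by
    intro p hp
    have h := mem_Blk.1 hp
    have hp0 : p ≠ 0 := h.1.ne_zero
    rw [Finset.mem_Ico]
    constructor
    · exact Nat.le_log_of_pow_le one_lt_two h.2.2.1
    · exact Nat.log_lt_of_lt_pow hp0 h.2.2.2
  rw [← Finset.sum_fiberwise_of_maps_to hmap]
  have hb : ∀ i ∈ Ico (2 ^ k) (2 ^ (k + 1)),
      ∑ p ∈ (Blk z k).filter (fun p => Nat.log 2 p = i), 2 / (p : ℝ) ≤ 8 / 2 ^ k := by
    intro i hi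
    have hi' := Finset.mem_Ico.1 hi
    have hk0 : 0 < 2 ^ k := by positivity
    have hi0 : 0 < i := by omega
    set s := (Blk z k).filter (fun p => Nat.log 2 p = i) with hs
    have hs' : ∀ p ∈ s, p.Prime ∧ 2 ^ i ≤ p ∧ p < 2 ^ (i + 1) := by
      intro p hp
      have h1 := Finset.mem_filter.1 hp
      have h2 := mem_Blk.1 h1.1
      refine ⟨h2.1, ?_, ?_⟩
      · rw [← h1.2]; exact Nat.pow_log_le_self 2 h2.1.ne_zero
      · rw [← h1.2]; exact Nat.lt_pow_succ_log_self one_lt_two p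
    have hc := card_dyadic i s hs'
    have hc' : (i : ℝ) * s.card ≤ 4 * 2 ^ i := by exact_mod_cast hc
    have h3 : ∑ p ∈ s, 2 / (p : ℝ) ≤ ∑ _p ∈ s, 2 / (2 : ℝ) ^ i := by
      refine Finset.sum_le_sum fun p hp => ?_
      have : ((2 ^ i : ℕ) : ℝ) ≤ p := by exact_mod_cast (hs' p hp).2.1
      push_cast at this
      exact div_le_div_of_nonneg_left (by norm_num) (by positivity) this
    rw [Finset.sum_const, nsmul_eq_mul] at h3
    have hiR : (0 : ℝ) < i := by exact_mod_cast hi0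
    have h4 : (s.card : ℝ) * (2 / 2 ^ i) ≤ 8 / i := by
      rw [le_div_iff₀ hiR, mul_div_assoc', div_mul_eq_mul_div, div_le_iff₀ (by positivity)]
      nlinarith
    have h5 : (8 : ℝ) / i ≤ 8 / 2 ^ k := by
      have : ((2 ^ k : ℕ) : ℝ) ≤ i := by exact_mod_cast hi'.1
      push_cast at this
      exact div_le_div_of_nonneg_left (by norm_num) (by positivity) this
    exact (h3.trans h4).trans h5
  refine (Finset.sum_le_sum hb).trans ?_
  rw [Finset.sum_const, Nat.card_Ico, nsmul_eq_mul]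
  have : 2 ^ (k + 1) - 2 ^ k = 2 ^ k := by rw [pow_succ]; omega
  rw [this]
  push_cast
  rw [mul_div_cancel₀]
  positivity

lemma half_sum (α : ℝ) (n : ℕ) : ∑ i ∈ range n, (1 / 2 : ℝ) ^ i * (α + 2 * i) =
    2 * α + 4 - (1 / 2) ^ n * (2 * α + 4 + 4 * n) := by
  induction n with
  | zero => simp
  | succ n ih => rw [Finset.sum_range_succ, ih]; push_cast; ring

/-- the size of the products -/
lemma size_le {z : ℝ} {K b : ℕ} (hz : 2 ≤ z) (hK : (2 : ℝ) ^ 2 ^ K ≤ z) (s : Finset ℕ)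
    (hs : s ⊆ (range (K + 1)).biUnion (Blk z))
    (hc : ∀ j ∈ range (K + 1), (s ∩ Blk z j).card ≤ 2 * (b + (K - j)) + 1) :
    ((∏ p ∈ s, p : ℕ) : ℝ) ≤ z ^ (8 * b + 16) := by
  have hz0 : 0 < z := by linarith
  have hz1 : 1 ≤ z := by linarith
  have hsU : s = (range (K + 1)).biUnion (fun j => s ∩ Blk z j) := by
    ext p
    rw [Finset.mem_biUnion]
    constructor
    · intro hp
      obtain ⟨j, hj, hpj⟩ := Finset.mem_biUnion.1 (hs hp)
      exact ⟨j, hj, Finset.mem_inter.2 ⟨hp, hpj⟩⟩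
    · rintro ⟨j, _, hpj⟩
      exact (Finset.mem_inter.1 hpj).1
  have e1 : ∏ p ∈ s, (p : ℝ) = ∏ j ∈ range (K + 1), ∏ p ∈ s ∩ Blk z j, (p : ℝ) := by
    conv_lhs => rw [hsU]
    rw [Finset.prod_biUnion]
    intro i _ j _ hij
    exact Finset.disjoint_of_subset_left Finset.inter_subset_right
      (Finset.disjoint_of_subset_right Finset.inter_subset_right (Blk_disjoint z i j hij))
  push_cast
  rw [e1]
  have hE : ∀ j ∈ range (K + 1), ∏ p ∈ s ∩ Blk z j, (p : ℝ) ≤
      z ^ ((2 * (1 / 2 : ℝ) ^ (K - j)) * ((2 * b + 1 : ℝ) + 2 * ((K - j : ℕ) : ℝ))) := by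
    intro j hj
    have hjK : j ≤ K := by have := Finset.mem_range.1 hj; omega
    have hp : ∀ p ∈ s ∩ Blk z j, (p : ℝ) ≤ z ^ (2 * (1 / 2 : ℝ) ^ (K - j)) := by
      intro p hp
      have h := mem_Blk.1 (Finset.mem_inter.1 hp).2
      have h1 : (p : ℝ) ≤ (2 : ℝ) ^ 2 ^ (j + 1) := by exact_mod_cast h.2.2.2.le
      refine h1.trans ?_
      rcases Nat.lt_or_ge j K with hjlt | hge
      · have h2 : ((2 : ℝ) ^ 2 ^ K) ^ (2 * (1 / 2 : ℝ) ^ (K - j)) = (2 : ℝ) ^ 2 ^ (j + 1) := by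
          rw [← Real.rpow_natCast 2 (2 ^ K), ← Real.rpow_mul (by norm_num),
            ← Real.rpow_natCast 2 (2 ^ (j + 1))]
          congr 1
          push_cast
          have h3 : (2 : ℝ) ^ K = 2 ^ j * 2 ^ (K - j) := by
            rw [← pow_add]; congr 1; omega
          rw [h3, one_div, inv_pow, pow_succ]
          field_simp
        rw [← h2]
        exact Real.rpow_le_rpow (by positivity) hK (by positivity)
      · have : j = K := le_antisymm hjK hge
        subst this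
        have h2 : (2 : ℝ) ^ 2 ^ (j + 1) = ((2 : ℝ) ^ 2 ^ j) ^ 2 := by
          rw [← pow_mul, pow_succ]
        rw [h2, Nat.sub_self, pow_zero, mul_one]
        rw [show (2 : ℝ) = ((2 : ℕ) : ℝ) by norm_num, Real.rpow_natCast]
        exact pow_le_pow_left₀ (by positivity) (by exact_mod_cast hK) 2
    calc ∏ p ∈ s ∩ Blk z j, (p : ℝ) ≤ ∏ _p ∈ s ∩ Blk z j, z ^ (2 * (1 / 2 : ℝ) ^ (K - j)) :=
          Finset.prod_le_prod (fun _ _ => Nat.cast_nonneg _) hp
      _ = (z ^ (2 * (1 / 2 : ℝ) ^ (K - j))) ^ (s ∩ Blk z j).card := Finset.prod_const _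
      _ = z ^ ((2 * (1 / 2 : ℝ) ^ (K - j)) * (s ∩ Blk z j).card) := by
          rw [← Real.rpow_natCast, ← Real.rpow_mul hz0.le]
      _ ≤ _ := by
          refine Real.rpow_le_rpow_of_exponent_le hz1 ?_
          refine mul_le_mul_of_nonneg_left ?_ (by positivity)
          have : ((s ∩ Blk z j).card : ℝ) ≤ ((2 * (b + (K - j)) + 1 : ℕ) : ℝ) := by
            exact_mod_cast hc j hj
          push_cast at this
          rw [Nat.cast_sub hjK] at this ⊢
          linarith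
  refine (Finset.prod_le_prod (fun j _ => Finset.prod_nonneg fun p _ => Nat.cast_nonneg _)
    hE).trans ?_
  rw [← Real.rpow_sum_of_pos hz0]
  have e2 : ∑ j ∈ range (K + 1), (2 * (1 / 2 : ℝ) ^ (K - j)) *
      ((2 * b + 1 : ℝ) + 2 * ((K - j : ℕ) : ℝ)) =
      2 * ∑ i ∈ range (K + 1), (1 / 2 : ℝ) ^ i * ((2 * b + 1 : ℝ) + 2 * (i : ℝ)) := by
    rw [← Finset.sum_range_reflect, Finset.mul_sum]
    refine Finset.sum_congr rfl fun i hi => ?_
    have : i ≤ K := by have := Finset.mem_range.1 hi; omega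
    rw [show K - (K + 1 - 1 - i) = i by omega]
    ring
  rw [e2, half_sum]
  have h5 : 2 * (2 * (2 * (b : ℝ) + 1) + 4 - (1 / 2) ^ (K + 1) *
      (2 * (2 * (b : ℝ) + 1) + 4 + 4 * ((K + 1 : ℕ) : ℝ))) ≤ ((8 * b + 16 : ℕ) : ℝ) := by
    have : 0 ≤ (1 / 2 : ℝ) ^ (K + 1) * (2 * (2 * (b : ℝ) + 1) + 4 + 4 * ((K + 1 : ℕ) : ℝ)) := by
      positivity
    push_cast at this ⊢
    linarith
  calc _ ≤ z ^ (((8 * b + 16 : ℕ) : ℝ)) := Real.rpow_le_rpow_of_exponent_le hz1 h5
    _ = _ := Real.rpow_natCast _ _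

/-! ### Assembly -/

lemma rInd_eq (z : ℝ) (m : ℕ) : rInd z m = ∏ p ∈ PB z, (1 - (if p ∣ m then (1 : ℝ) else 0)) := by
  unfold rInd
  by_cases h : Rough z m
  · rw [if_pos h]
    symm
    refine Finset.prod_eq_one fun p hp => ?_
    have h1 := mem_PB.1 hp
    rw [if_neg (fun hd => absurd (h p h1.1 hd) (not_le.2 h1.2)), sub_zero]
  · rw [if_neg h]
    unfold Rough at h
    push Not at h
    obtain ⟨p, hp, hd, hz⟩ := h
    symm
    refine Finset.prod_eq_zero (mem_PB.2 ⟨hp, hz⟩) ?_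
    rw [if_pos hd, sub_self]

lemma one_sub_ge {g : ℝ} (h0 : 0 ≤ g) (h1 : g ≤ 2 / 3) : Real.exp (-(2 * g)) ≤ 1 - g := by
  rw [Real.exp_neg, inv_le_comm₀ (Real.exp_pos _) (by linarith)]
  have h2 := Real.quadratic_le_exp_of_nonneg (show 0 ≤ 2 * g by linarith)
  refine le_trans ?_ h2
  rw [inv_le_iff_one_le_mul₀ (by linarith)]
  nlinarith [mul_nonneg h0 h0, mul_nonneg (mul_nonneg h0 h0) h0,
    mul_nonneg h0 (sub_nonneg.2 h1)]

/-- the constant -/
noncomputable def Mc : ℝ := Real.exp (8 * Real.exp 1 + 16)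

lemma block_bounds {z : ℝ} {g : ℕ → ℝ}
    (hg : ∀ p : ℕ, p.Prime → 0 ≤ g p ∧ g p ≤ 2 / (p : ℝ) ∧ g p ≤ 2 / 3) (j n : ℕ) :
    Real.exp (-16) ≤ ∏ p ∈ Blk z j, (1 - g p) ∧
    S (del n) g (Blk z j) ≤ Mc * Real.exp (-(n : ℝ)) * ∏ p ∈ Blk z j, (1 - g p) := by
  have hgB : ∀ p ∈ Blk z j, 0 ≤ g p ∧ g p ≤ 2 / (p : ℝ) ∧ g p ≤ 2 / 3 :=
    fun p hp => hg p (mem_Blk.1 hp).1
  have hG : ∑ p ∈ Blk z j, g p ≤ 8 :=
    (Finset.sum_le_sum fun p hp => (hgB p hp).2.1).trans (sum_Blk_le z j)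
  have hG0 : 0 ≤ ∑ p ∈ Blk z j, g p := Finset.sum_nonneg fun p hp => (hgB p hp).1
  have h1 : Real.exp (-16) ≤ ∏ p ∈ Blk z j, (1 - g p) := by
    calc Real.exp (-16) ≤ Real.exp (∑ p ∈ Blk z j, -(2 * g p)) := by
          rw [Finset.sum_neg_distrib, ← Finset.mul_sum]
          exact Real.exp_le_exp.2 (by linarith)
      _ = ∏ p ∈ Blk z j, Real.exp (-(2 * g p)) := Real.exp_sum _ _
      _ ≤ _ := Finset.prod_le_prod (fun _ _ => (Real.exp_pos _).le)
          (fun p hp => one_sub_ge (hgB p hp).1 (hgB p hp).2.2)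
  refine ⟨h1, ?_⟩
  have h2 := (S_del_le (fun p hp => (hgB p hp).1) n).2
  have h3 : (∑ p ∈ Blk z j, g p) ^ n / n.factorial ≤ 8 ^ n / n.factorial :=
    div_le_div_of_nonneg_right (pow_le_pow_left₀ hG0 hG n) (by positivity)
  have h4 : (8 : ℝ) ^ n / n.factorial ≤ Real.exp (8 * Real.exp 1) * Real.exp (-(n : ℝ)) := by
    have h5 := Real.pow_div_factorial_le_exp (8 * Real.exp 1) (by positivity) n
    have h6 : (8 : ℝ) ^ n / n.factorial =
        ((8 * Real.exp 1) ^ n / n.factorial) * Real.exp (-(n : ℝ)) := by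
      rw [mul_pow, ← Real.exp_nat_mul, mul_one, div_mul_eq_mul_div, mul_assoc, ← Real.exp_add,
        add_neg_cancel, Real.exp_zero, mul_one]
    rw [h6]
    exact mul_le_mul_of_nonneg_right h5 (Real.exp_pos _).le
  refine (h2.trans (h3.trans h4)).trans ?_
  have h7 : Real.exp (8 * Real.exp 1) = Mc * Real.exp (-16) := by
    unfold Mc; rw [← Real.exp_add]; congr 1; ring
  rw [h7]
  calc Mc * Real.exp (-16) * Real.exp (-(n : ℝ)) = Mc * Real.exp (-(n : ℝ)) * Real.exp (-16) := by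
        ring
    _ ≤ _ := mul_le_mul_of_nonneg_left h1 (mul_nonneg (Real.exp_pos _).le (Real.exp_pos _).le)

lemma sum_rho_le (b K : ℕ) :
    ∑ j ∈ range (K + 1), Mc * Real.exp (-((2 * (b + (K - j)) + 1 : ℕ) : ℝ)) ≤
      Mc * Real.exp (-(b : ℝ)) := by
  have hM : 0 < Mc := Real.exp_pos _
  have h1 : ∀ j ∈ range (K + 1), Mc * Real.exp (-((2 * (b + (K - j)) + 1 : ℕ) : ℝ)) ≤
      Mc * Real.exp (-(b : ℝ)) * (1 / 2) ^ (K - j + 1) := by
    intro j _
    rw [mul_assoc]
    refine mul_le_mul_of_nonneg_left ?_ hM.le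
    have h2 : Real.exp (-1) ≤ 1 / 2 := by
      rw [Real.exp_neg, one_div]
      refine inv_anti₀ (by norm_num) ?_
      have := Real.add_one_le_exp 1
      linarith
    have h3 : Real.exp (-((K - j + 1 : ℕ) : ℝ)) ≤ (1 / 2) ^ (K - j + 1) := by
      rw [show -((K - j + 1 : ℕ) : ℝ) = ((K - j + 1 : ℕ) : ℝ) * (-1) by ring, Real.exp_nat_mul]
      exact pow_le_pow_left₀ (Real.exp_pos _).le h2 _
    calc Real.exp (-((2 * (b + (K - j)) + 1 : ℕ) : ℝ)) ≤
          Real.exp (-(b : ℝ) + -((K - j + 1 : ℕ) : ℝ)) := by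
          refine Real.exp_le_exp.2 ?_
          push_cast
          have : (0 : ℝ) ≤ b := Nat.cast_nonneg _
          have h4 : (0 : ℝ) ≤ ((K - j : ℕ) : ℝ) := Nat.cast_nonneg _
          linarith
      _ = Real.exp (-(b : ℝ)) * Real.exp (-((K - j + 1 : ℕ) : ℝ)) := Real.exp_add _ _
      _ ≤ _ := mul_le_mul_of_nonneg_left h3 (Real.exp_pos _).le
  refine (Finset.sum_le_sum h1).trans ?_
  rw [← Finset.mul_sum]
  have h5 : ∑ j ∈ range (K + 1), (1 / 2 : ℝ) ^ (K - j + 1) ≤ 1 := by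
    rw [← Finset.sum_range_reflect]
    have h6 : ∀ n : ℕ, ∑ i ∈ range n, (1 / 2 : ℝ) ^ (i + 1) ≤ 1 - (1 / 2) ^ n := by
      intro n
      induction n with
      | zero => simp
      | succ n ih => rw [Finset.sum_range_succ]; rw [pow_succ (1 / 2 : ℝ) n]; linarith
    have h7 : ∑ j ∈ range (K + 1), (1 / 2 : ℝ) ^ (K - (K + 1 - 1 - j) + 1) =
        ∑ i ∈ range (K + 1), (1 / 2 : ℝ) ^ (i + 1) := by
      refine Finset.sum_congr rfl fun i hi => ?_
      have := Finset.mem_range.1 hi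
      rw [show K - (K + 1 - 1 - i) = i by omega]
    rw [h7]
    have := h6 (K + 1)
    have h8 : (0 : ℝ) < (1 / 2) ^ (K + 1) := by positivity
    linarith
  calc _ ≤ Mc * Real.exp (-(b : ℝ)) * 1 :=
        mul_le_mul_of_nonneg_left h5 (mul_nonneg hM.le (Real.exp_pos _).le)
    _ = _ := mul_one _

lemma abs_kap_le (k n : ℕ) : |kap k n| ≤ 1 := by
  unfold kap
  split_ifs
  · rw [abs_pow, abs_neg, abs_one, one_pow]
  · simp

lemma abs_del_le (k n : ℕ) : |del k n| ≤ 1 := by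
  unfold del
  split_ifs
  · simp
  · simp

lemma K_le {z : ℝ} {K : ℕ} (hK : (2 : ℝ) ^ 2 ^ K ≤ z) : ((K : ℝ) + 2) ≤ 2 * (1 + Real.log z) := by
  have h1 : K + 1 ≤ 2 ^ K := Nat.lt_two_pow_self
  have h2 : Real.log ((2 : ℝ) ^ 2 ^ K) ≤ Real.log z := Real.log_le_log (by positivity) hK
  rw [Real.log_pow] at h2
  have h3 : ((K + 1 : ℕ) : ℝ) ≤ ((2 ^ K : ℕ) : ℝ) := by exact_mod_cast h1
  have h4 := Real.log_two_gt_d9
  have h5 : ((K + 1 : ℕ) : ℝ) * (1 / 2) ≤ ((2 ^ K : ℕ) : ℝ) * Real.log 2 :=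
    mul_le_mul h3 (by linarith) (by norm_num) (Nat.cast_nonneg _)
  push_cast at h5 h2
  linarith

end Pool.Agent.Lib.MP391708.QPA.FL

namespace Pool.Agent.Lib.MP391708.QPA

open Finset FL

theorem specFL : SpecFL := by
  classical
  have hM : 0 < Mc := Real.exp_pos _
  refine ⟨Mc * Real.exp Mc + 2, by positivity, ?_⟩
  intro b z hz T v om X g hX hom hg
  obtain ⟨K, hK1, hK2⟩ := exists_K hz
  have hU := biUnion_Blk hK2
  have hdis := Blk_disjoint z
  have hprime : ∀ j, ∀ p ∈ Blk z j, p.Prime := fun j p hp => (mem_Blk.1 hp).1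
  set D := (Icc 1 ⌊z ^ (8 * b + 16)⌋₊).filter
      (fun δ => Squarefree δ ∧ ∀ p : ℕ, p.Prime → p ∣ δ → (p : ℝ) < z) with hDdef
  set R := ∑ δ ∈ D, |(∑ i ∈ T.filter (fun i => δ ∣ v i), om i)
    - X * ∏ p ∈ δ.primeFactors, g p| with hR
  have hR0 : 0 ≤ R := Finset.sum_nonneg fun _ _ => abs_nonneg _
  -- membership in `D`
  have hDmem : ∀ s : Finset ℕ, s ⊆ (range (K + 1)).biUnion (Blk z) →
      (∀ j ∈ range (K + 1), (s ∩ Blk z j).card ≤ 2 * (b + (K - j)) + 1) →
      (∏ p ∈ s, p) ∈ D := by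
    intro s hs hc
    have hsp : ∀ p ∈ s, p.Prime ∧ (p : ℝ) < z := by
      intro p hp
      have := hs hp
      rw [hU] at this
      exact mem_PB.1 this
    have hpf : (∏ p ∈ s, p).primeFactors = s := Nat.primeFactors_prod fun p hp => (hsp p hp).1
    have hne : (∏ p ∈ s, p) ≠ 0 := Finset.prod_ne_zero_iff.2 fun p hp => (hsp p hp).1.ne_zero
    rw [hDdef, Finset.mem_filter, Finset.mem_Icc]
    refine ⟨⟨Nat.pos_of_ne_zero hne, Nat.le_floor ?_⟩, ?_, ?_⟩
    · exact size_le hz hK1 s hs hc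
    · refine Finset.squarefree_prod_of_pairwise_isCoprime ?_ ?_
      · intro p hp q hq hpq
        exact Nat.coprime_iff_isRelPrime.1 ((Nat.coprime_primes (hsp p hp).1 (hsp q hq).1).2 hpq)
      · intro p hp; exact (hsp p hp).1.squarefree
    · intro p hp hd
      have : p ∈ (∏ p ∈ s, p).primeFactors := Nat.mem_primeFactors.2 ⟨hp, hd, hne⟩
      rw [hpf] at this
      exact (hsp p this).2
  set κ : ℕ → ℕ → ℝ := fun j => kap (2 * (b + (K - j))) with hκ
  set w : ℕ → ℕ → ℕ → ℝ := fun l j =>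
    if j = l then del (2 * (b + (K - j)) + 1) else kap (2 * (b + (K - j))) with hw
  have hremκ := rem_le (Blk z) hdis hprime (K + 1) κ (fun j n => abs_kap_le _ _) D
    (by
      intro s hs hne
      refine hDmem s hs fun j hj => ?_
      have h1 := Finset.prod_ne_zero_iff.1 hne j hj
      by_contra hcon
      refine h1 ?_
      rw [hκ]
      simp only
      unfold kap
      rw [if_neg (by omega)]) T v om X g
  have hremw : ∀ l, _ := fun l => rem_le (Blk z) hdis hprime (K + 1) (w l)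
    (fun j n => by
      rw [hw]; simp only
      split_ifs
      · exact abs_del_le _ _
      · exact abs_kap_le _ _) D
    (by
      intro s hs hne
      refine hDmem s hs fun j hj => ?_
      have h1 := Finset.prod_ne_zero_iff.1 hne j hj
      by_contra hcon
      refine h1 ?_
      rw [hw]
      simp only
      split_ifs
      · unfold del
        rw [if_neg (by omega)]
      · unfold kap
        rw [if_neg (by omega)]) T v om X g
  -- the inequalities for each `i`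
  have hprodPB : ∀ a : ℕ → ℝ, ∏ p ∈ PB z, (1 - a p) =
      ∏ j ∈ range (K + 1), ∏ p ∈ Blk z j, (1 - a p) := by
    intro a
    rw [← hU, Finset.prod_biUnion]
    intro i _ j _ hij
    exact hdis i j hij
  have hbonf : ∀ (a : ℕ → ℝ), (∀ p, p.Prime → 0 ≤ a p ∧ a p ≤ 1) → ∀ j,
      0 ≤ ∏ p ∈ Blk z j, (1 - a p) ∧
      ∏ p ∈ Blk z j, (1 - a p) ≤ S (κ j) a (Blk z j) ∧
      S (κ j) a (Blk z j) ≤ ∏ p ∈ Blk z j, (1 - a p) +
        S (del (2 * (b + (K - j)) + 1)) a (Blk z j) ∧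
      0 ≤ S (del (2 * (b + (K - j)) + 1)) a (Blk z j) := by
    intro a ha j
    have haB : ∀ p ∈ Blk z j, 0 ≤ a p ∧ a p ≤ 1 := fun p hp => ha p (hprime j p hp)
    have h1 := bonf haB (2 * (b + (K - j)))
    have h2 : ((-1 : ℝ)) ^ (2 * (b + (K - j))) = 1 := by rw [pow_mul]; norm_num
    rw [h2, one_mul] at h1
    refine ⟨(prod_one_sub_mem haB).1, ?_, ?_, (S_del_le (fun p hp => (haB p hp).1) _).1⟩
    · linarith [h1.1]
    · linarith [h1.2]
  have hlow : ∀ (a : ℕ → ℝ), (∀ p, p.Prime → 0 ≤ a p ∧ a p ≤ 1) →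
      ∏ j ∈ range (K + 1), S (κ j) a (Blk z j) -
        ∑ l ∈ range (K + 1), ∏ j ∈ range (K + 1), S (w l j) a (Blk z j)
      ≤ ∏ j ∈ range (K + 1), ∏ p ∈ Blk z j, (1 - a p) := by
    intro a ha
    have h1 := prod_low (fun j => ∏ p ∈ Blk z j, (1 - a p)) (fun j => S (κ j) a (Blk z j))
      (fun j => S (del (2 * (b + (K - j)) + 1)) a (Blk z j))
      (fun j => (hbonf a ha j).1) (fun j => (hbonf a ha j).2.1)
      (fun j => (hbonf a ha j).2.2.1) (fun j => (hbonf a ha j).2.2.2) (K + 1)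
    have h2 : ∑ l ∈ range (K + 1), ∏ j ∈ range (K + 1), S (w l j) a (Blk z j) =
        ∑ l ∈ range (K + 1), ∏ j ∈ range (K + 1),
          (if j = l then S (del (2 * (b + (K - j)) + 1)) a (Blk z j) else
            S (κ j) a (Blk z j)) := by
      refine Finset.sum_congr rfl fun l _ => Finset.prod_congr rfl fun j _ => ?_
      rw [hw, hκ]
      simp only
      split_ifs <;> rfl
    rw [h2]
    exact h1
  have hupp : ∀ (a : ℕ → ℝ), (∀ p, p.Prime → 0 ≤ a p ∧ a p ≤ 1) →
      ∏ j ∈ range (K + 1), ∏ p ∈ Blk z j, (1 - a p) ≤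
        ∏ j ∈ range (K + 1), S (κ j) a (Blk z j) := by
    intro a ha
    exact Finset.prod_le_prod (fun j _ => (hbonf a ha j).1) (fun j _ => (hbonf a ha j).2.1)
  have hind : ∀ i, ∀ p : ℕ, p.Prime → 0 ≤ (if p ∣ v i then (1 : ℝ) else 0) ∧
      (if p ∣ v i then (1 : ℝ) else 0) ≤ 1 := by
    intro i p _
    split_ifs <;> norm_num
  have hg1 : ∀ p, p.Prime → 0 ≤ g p ∧ g p ≤ 1 := fun p hp =>
    ⟨(hg p hp).1, (hg p hp).2.2.trans (by norm_num)⟩
  set A := ∑ i ∈ T, om i * rInd z (v i) with hA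
  set Y := ∏ j ∈ range (K + 1), S (κ j) g (Blk z j) with hY
  set W := ∑ l ∈ range (K + 1), ∏ j ∈ range (K + 1), S (w l j) g (Blk z j) with hW
  set PG := ∏ p ∈ PB z, (1 - g p) with hPG
  have hPG' : PG = ∏ j ∈ range (K + 1), ∏ p ∈ Blk z j, (1 - g p) := hprodPB g
  have hPG0 : 0 ≤ PG := by
    rw [hPG']; exact Finset.prod_nonneg fun j _ => (hbonf g hg1 j).1
  have hAup : A ≤ X * Y + R := by
    have h1 : A ≤ ∑ i ∈ T, om i * ∏ j ∈ range (K + 1),
        S (κ j) (fun p => if p ∣ v i then 1 else 0) (Blk z j) := by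
      refine Finset.sum_le_sum fun i hi => mul_le_mul_of_nonneg_left ?_ (hom i hi)
      rw [rInd_eq, hprodPB (fun p => if p ∣ v i then 1 else 0)]
      exact hupp _ (hind i)
    have h2 := (abs_le.1 hremκ).2
    linarith
  have hAlow : X * Y - X * W - (K + 2) * R ≤ A := by
    have h1 : ∑ i ∈ T, om i * (∏ j ∈ range (K + 1),
        S (κ j) (fun p => if p ∣ v i then 1 else 0) (Blk z j) -
        ∑ l ∈ range (K + 1), ∏ j ∈ range (K + 1),
          S (w l j) (fun p => if p ∣ v i then 1 else 0) (Blk z j)) ≤ A := by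
      refine Finset.sum_le_sum fun i hi => mul_le_mul_of_nonneg_left ?_ (hom i hi)
      rw [rInd_eq, hprodPB (fun p => if p ∣ v i then 1 else 0)]
      exact hlow _ (hind i)
    have h2 : ∑ i ∈ T, om i * (∏ j ∈ range (K + 1),
        S (κ j) (fun p => if p ∣ v i then 1 else 0) (Blk z j) -
        ∑ l ∈ range (K + 1), ∏ j ∈ range (K + 1),
          S (w l j) (fun p => if p ∣ v i then 1 else 0) (Blk z j)) =
        (∑ i ∈ T, om i * ∏ j ∈ range (K + 1),
          S (κ j) (fun p => if p ∣ v i then 1 else 0) (Blk z j)) -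
        ∑ l ∈ range (K + 1), ∑ i ∈ T, om i * ∏ j ∈ range (K + 1),
          S (w l j) (fun p => if p ∣ v i then 1 else 0) (Blk z j) := by
      rw [Finset.sum_comm, ← Finset.sum_sub_distrib]
      refine Finset.sum_congr rfl fun i _ => ?_
      rw [mul_sub, Finset.mul_sum]
    rw [h2] at h1
    have h3 := (abs_le.1 hremκ).1
    have h4 : ∑ l ∈ range (K + 1), ∑ i ∈ T, om i * ∏ j ∈ range (K + 1),
          S (w l j) (fun p => if p ∣ v i then 1 else 0) (Blk z j) ≤
        ∑ l ∈ range (K + 1), (X * ∏ j ∈ range (K + 1), S (w l j) g (Blk z j) + R) := by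
      refine Finset.sum_le_sum fun l _ => ?_
      have := (abs_le.1 (hremw l)).2
      linarith
    rw [Finset.sum_add_distrib, ← Finset.mul_sum, Finset.sum_const, Finset.card_range,
      nsmul_eq_mul] at h4
    push_cast at h4
    linarith
  -- real analysis
  set ρ : ℕ → ℝ := fun j => Mc * Real.exp (-((2 * (b + (K - j)) + 1 : ℕ) : ℝ)) with hρ
  have hρ0 : ∀ j, 0 ≤ ρ j := fun j => mul_nonneg hM.le (Real.exp_pos _).le
  set η := ∑ j ∈ range (K + 1), ρ j with hη
  have hη0 : 0 ≤ η := Finset.sum_nonneg fun j _ => hρ0 j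
  have hη1 : η ≤ Mc * Real.exp (-(b : ℝ)) := sum_rho_le b K
  have hη2 : η ≤ Mc := by
    refine hη1.trans ?_
    have : Real.exp (-(b : ℝ)) ≤ 1 := Real.exp_le_one_iff.2 (by
      have : (0 : ℝ) ≤ b := Nat.cast_nonneg _
      linarith)
    nlinarith
  have hYnn : ∀ j, 0 ≤ S (κ j) g (Blk z j) := fun j =>
    (hbonf g hg1 j).1.trans (hbonf g hg1 j).2.1
  have hYup : Y ≤ PG * Real.exp η := by
    rw [hη, Real.exp_sum, hPG', ← Finset.prod_mul_distrib]
    refine Finset.prod_le_prod (fun j _ => hYnn j) (fun j _ => ?_)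
    have h1 := (hbonf g hg1 j).2.2.1
    have h2 := (block_bounds hg (z := z) j (2 * (b + (K - j)) + 1)).2
    have h3 : 1 + ρ j ≤ Real.exp (ρ j) := by linarith [Real.add_one_le_exp (ρ j)]
    have h4 := (hbonf g hg1 j).1
    calc S (κ j) g (Blk z j) ≤ (∏ p ∈ Blk z j, (1 - g p)) * (1 + ρ j) := by
          rw [hρ]; simp only; linarith
      _ ≤ _ := mul_le_mul_of_nonneg_left h3 h4
  have hYlow : PG ≤ Y := by rw [hPG']; exact hupp g hg1
  have hY0 : 0 ≤ Y := hPG0.trans hYlow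
  have hWup : W ≤ η * Y := by
    rw [hW, hη, Finset.sum_mul]
    refine Finset.sum_le_sum fun l hl => ?_
    rw [hY, ← Finset.mul_prod_erase _ _ hl, ← Finset.mul_prod_erase _ _ hl, ← mul_assoc]
    have e1 : ∏ j ∈ (range (K + 1)).erase l, S (w l j) g (Blk z j) =
        ∏ j ∈ (range (K + 1)).erase l, S (κ j) g (Blk z j) := by
      refine Finset.prod_congr rfl fun j hj => ?_
      rw [hw]; simp only
      rw [if_neg (Finset.ne_of_mem_erase hj)]
    rw [e1]
    refine mul_le_mul_of_nonneg_right ?_ (Finset.prod_nonneg fun j _ => hYnn j)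
    have e2 : w l l = del (2 * (b + (K - l)) + 1) := by
      rw [hw]
      exact if_pos rfl
    rw [e2]
    refine (block_bounds hg (z := z) l (2 * (b + (K - l)) + 1)).2.trans ?_
    exact mul_le_mul_of_nonneg_left (hbonf g hg1 l).2.1 (hρ0 l)
  have hexpη : Real.exp η ≤ Real.exp Mc := Real.exp_le_exp.2 hη2
  have hexp1 : Real.exp η - 1 ≤ η * Real.exp η := by
    have h1 := Real.add_one_le_exp (-η)
    have h2 := Real.exp_pos η
    have h3 : Real.exp (-η) * Real.exp η = 1 := by rw [← Real.exp_add]; simp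
    nlinarith
  have hmain : η * Real.exp η ≤ Mc * Real.exp (-(b : ℝ)) * Real.exp Mc :=
    mul_le_mul hη1 hexpη (Real.exp_pos _).le (mul_nonneg hM.le (Real.exp_pos _).le)
  have hK3 := K_le hK1
  have hlogz : 0 ≤ Real.log z := Real.log_nonneg (by linarith)
  have hXPG : 0 ≤ X * PG := mul_nonneg hX hPG0
  have hKR : ((K : ℝ) + 2) * R ≤ 2 * (1 + Real.log z) * R := mul_le_mul_of_nonneg_right hK3 hR0
  have hbig : X * PG * (η * Real.exp η) ≤ X * PG * (Mc * Real.exp (-(b : ℝ)) * Real.exp Mc) :=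
    mul_le_mul_of_nonneg_left hmain hXPG
  have hK0 : (0 : ℝ) ≤ K := Nat.cast_nonneg _
  have hexpb : 0 < Real.exp (-(b : ℝ)) := Real.exp_pos _
  have hCR : 2 * (1 + Real.log z) * R ≤ (Mc * Real.exp Mc + 2) * (1 + Real.log z) * R := by
    refine mul_le_mul_of_nonneg_right (mul_le_mul_of_nonneg_right ?_ (by linarith)) hR0
    have := mul_pos hM (Real.exp_pos Mc)
    linarith
  have hCX : X * PG * (Mc * Real.exp (-(b : ℝ)) * Real.exp Mc) ≤
      (Mc * Real.exp Mc + 2) * Real.exp (-(b : ℝ)) * X * PG := by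
    have : 0 ≤ 2 * Real.exp (-(b : ℝ)) * (X * PG) := by positivity
    nlinarith
  rw [abs_le]
  constructor
  · have h1 : X * W ≤ X * PG * (η * Real.exp η) := by
      have h2 : W ≤ η * (PG * Real.exp η) := hWup.trans (mul_le_mul_of_nonneg_left hYup hη0)
      calc X * W ≤ X * (η * (PG * Real.exp η)) := mul_le_mul_of_nonneg_left h2 hX
        _ = _ := by ring
    have h3 : X * PG ≤ X * Y := mul_le_mul_of_nonneg_left hYlow hX
    linarith
  · have h1 : X * Y - X * PG ≤ X * PG * (η * Real.exp η) := by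
      calc X * Y - X * PG ≤ X * (PG * Real.exp η) - X * PG :=
            sub_le_sub_right (mul_le_mul_of_nonneg_left hYup hX) _
        _ = X * PG * (Real.exp η - 1) := by ring
        _ ≤ _ := mul_le_mul_of_nonneg_left hexp1 hXPG
    have h2 : R ≤ ((K : ℝ) + 2) * R := by nlinarith
    linarith

end Pool.Agent.Lib.MP391708.QPA
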