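import Pool.Agent.Lib.MP_391708_nt.QPA.Spec
import Pool.Agent.Lib.MP_391708_nt.Div

/-!
# Module FLA: the fundamental lemma in a residue class, for the values `n ^ 2 + a`
-/

set_option autoImplicit false

namespace Pool.Agent.Lib.MP391708.QPA.FLA

open Finset Filter Topology
open scoped Classical

noncomputable section

/-- `c (1 + log N) N^u ≤ N^v` for `u < v` and large `N` -/
lemma log_le (c u v : ℝ) (huv : u < v) :
    ∃ N₀ : ℕ, 2 ≤ N₀ ∧ ∀ N : ℕ, N₀ ≤ N → c * (1 + Real.log N) * (N : ℝ) ^ u ≤ (N : ℝ) ^ v := by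
  have h1 : (fun x : ℝ => 1 + Real.log x) =o[atTop] fun x => x ^ (v - u) := by
    refine Asymptotics.IsLittleO.add ?_ (isLittleO_log_rpow_atTop (sub_pos.2 huv))
    refine Asymptotics.isLittleO_const_left.2 (Or.inr ?_)
    exact tendsto_norm_atTop_atTop.comp (tendsto_rpow_atTop (sub_pos.2 huv))
  have h2 := (h1.comp_tendsto tendsto_natCast_atTop_atTop).def
    (show (0 : ℝ) < 1 / (|c| + 1) by positivity)
  obtain ⟨N₀, hN₀⟩ := eventually_atTop.1 h2
  refine ⟨max N₀ 2, le_max_right _ _, fun N hN => ?_⟩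
  have h3 : ‖1 + Real.log (N : ℝ)‖ ≤ 1 / (|c| + 1) * ‖(N : ℝ) ^ (v - u)‖ :=
    hN₀ N (le_trans (le_max_left _ _) hN)
  have hN2 : 2 ≤ N := le_trans (le_max_right _ _) hN
  have hNpos : (0 : ℝ) < N := by positivity
  have hlog : 0 ≤ Real.log N := Real.log_nonneg (by exact_mod_cast (by omega : 1 ≤ N))
  rw [Real.norm_of_nonneg (by positivity), Real.norm_of_nonneg (by positivity)] at h3
  have h4 : (|c| + 1) * (1 + Real.log N) ≤ (N : ℝ) ^ (v - u) := by
    have := mul_le_mul_of_nonneg_left h3 (show (0 : ℝ) ≤ |c| + 1 by positivity)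
    calc (|c| + 1) * (1 + Real.log N) ≤ (|c| + 1) * (1 / (|c| + 1) * (N : ℝ) ^ (v - u)) := this
      _ = (N : ℝ) ^ (v - u) := by field_simp
  have h5 : c * (1 + Real.log N) ≤ (N : ℝ) ^ (v - u) := by
    refine le_trans ?_ h4
    have : c ≤ |c| + 1 := by linarith [le_abs_self c]
    exact mul_le_mul_of_nonneg_right this (by positivity)
  calc c * (1 + Real.log N) * (N : ℝ) ^ u ≤ (N : ℝ) ^ (v - u) * (N : ℝ) ^ u :=
        mul_le_mul_of_nonneg_right h5 (by positivity)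
    _ = (N : ℝ) ^ v := by rw [← Real.rpow_add hNpos]; congr 1; ring

/-- `rho` as an arithmetic function -/
def rF (a : ℤ) : ArithmeticFunction ℝ := ⟨fun k => (rho a k : ℝ), by simp [rho]⟩

lemma rF_mul (h1 : SpecRHO1) (hM : SpecRHOM) (a : ℤ) : (rF a).IsMultiplicative := by
  rw [ArithmeticFunction.IsMultiplicative.iff_ne_zero]
  refine ⟨by simp [rF, h1 a], ?_⟩
  intro m n hm hn hmn
  have := hM a m n hmn (Nat.pos_of_ne_zero hm) (Nat.pos_of_ne_zero hn)
  simp only [rF, ArithmeticFunction.coe_mk]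
  rw [this]
  push_cast
  ring

/-- multiplicativity of `rho` on squarefree numbers -/
lemma prod_rho (h1 : SpecRHO1) (hM : SpecRHOM) (a : ℤ) (d : ℕ) (hd : Squarefree d) :
    ∏ p ∈ d.primeFactors, ((rho a p : ℝ) / p) = (rho a d : ℝ) / d := by
  have h2 := (rF_mul h1 hM a).map_prod_of_prime d.primeFactors
    (fun p hp => Nat.prime_of_mem_primeFactors hp)
  rw [Nat.prod_primeFactors_of_squarefree hd] at h2
  simp only [rF, ArithmeticFunction.coe_mk] at h2
  rw [Finset.prod_div_distrib, ← h2]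
  congr 1
  have h3 := Nat.prod_primeFactors_of_squarefree hd
  calc ∏ p ∈ d.primeFactors, (p : ℝ) = ((∏ p ∈ d.primeFactors, p : ℕ) : ℝ) := by push_cast; rfl
    _ = d := by rw [h3]

/-- `2 ^ ω(d) ≤ τ(d)` -/
lemma two_pow_le (d : ℕ) (hd : d ≠ 0) : 2 ^ d.primeFactors.card ≤ d.divisors.card := by
  rw [Nat.card_divisors hd]
  refine Finset.pow_card_le_prod _ _ _ (fun p hp => ?_)
  have := (Nat.prime_of_mem_primeFactors hp).factorization_pos_of_dvd hd
    (Nat.dvd_of_mem_primeFactors hp)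
  omega

/-- a rough number has few prime factors -/
lemma card_primeFactors_le {N k : ℕ} {e0 x : ℝ} (hN : 2 ≤ N) (he0 : 0 < e0) (hk : k ≠ 0)
    (hr : Rough ((N : ℝ) ^ e0) k) (hkx : (k : ℝ) ≤ (N : ℝ) ^ x) :
    (k.primeFactors.card : ℝ) * e0 ≤ x := by
  have hN1 : (1 : ℝ) < N := by exact_mod_cast (by omega : 1 < N)
  have h1 : ((N : ℝ) ^ e0) ^ k.primeFactors.card ≤ ∏ p ∈ k.primeFactors, (p : ℝ) := by
    rw [← Finset.prod_const]
    exact Finset.prod_le_prod (fun _ _ => by positivity) (fun p hp =>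
      hr p (Nat.prime_of_mem_primeFactors hp) (Nat.dvd_of_mem_primeFactors hp))
  have h2 : ∏ p ∈ k.primeFactors, (p : ℝ) ≤ k := by
    have h : ∏ p ∈ k.primeFactors, p ≤ k :=
      Nat.le_of_dvd (Nat.pos_of_ne_zero hk) (Nat.prod_primeFactors_dvd k)
    calc ∏ p ∈ k.primeFactors, (p : ℝ) = ((∏ p ∈ k.primeFactors, p : ℕ) : ℝ) := by push_cast; rfl
      _ ≤ k := by exact_mod_cast h
  have h3 : (N : ℝ) ^ ((k.primeFactors.card : ℝ) * e0) ≤ (N : ℝ) ^ x := by
    refine le_trans (le_of_eq ?_) (h1.trans (h2.trans hkx))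
    rw [mul_comm, Real.rpow_mul (by positivity), Real.rpow_natCast]
  exact (Real.rpow_le_rpow_left_iff hN1).1 h3

end

end Pool.Agent.Lib.MP391708.QPA.FLA

namespace Pool.Agent.Lib.MP391708.QPA

open Finset Filter Topology
open scoped Classical
open FLA

theorem specFLA (hFL : SpecFL) (h1 : SpecRHO1) (hM : SpecRHOM) (hP : SpecRHOP) (h2 : SpecRHO2)
    (hS : SpecRHOS) (hC : SpecRHOC) : SpecFLA := by
  obtain ⟨C, hC0, hFL⟩ := hFL
  refine ⟨C, hC0, ?_⟩
  intro b e0 he0 heb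
  obtain ⟨Cd, hCd, hdiv⟩ := Pool.Agent.Lib.MP_391708_nt.Div.card_divisors_le_rpow (1 / 100) (by norm_num)
  obtain ⟨N₁, hN₁, hlog⟩ := log_le (C * Cd * (2 : ℝ) ^ (1 / e0)) (21 / 100) (1 / 4) (by norm_num)
  obtain ⟨N₂, hN₂⟩ := eventually_atTop.1
    (((tendsto_rpow_atTop he0).comp tendsto_natCast_atTop_atTop).eventually_ge_atTop (2 : ℝ))
  refine ⟨max N₁ N₂, ?_⟩
  intro N hN a k hk hkr hkN
  have hNN₁ : N₁ ≤ N := le_trans (le_max_left _ _) hN
  have hz2 : (2 : ℝ) ≤ (N : ℝ) ^ e0 := hN₂ N (le_trans (le_max_right _ _) hN)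
  have hlogN := hlog N hNN₁
  have hN2 : 2 ≤ N := le_trans hN₁ hNN₁
  have hN1 : (1 : ℝ) < N := by exact_mod_cast (by omega : 1 < N)
  have hN0 : (0 : ℝ) < N := by linarith
  set z : ℝ := (N : ℝ) ^ e0 with hz
  have hk0 : k ≠ 0 := hk.ne_zero
  have hkpos : (0 : ℝ) < k := by exact_mod_cast Nat.pos_of_ne_zero hk0
  -- the local densities
  have hg : ∀ p : ℕ, p.Prime → 0 ≤ (rho a p : ℝ) / p ∧ (rho a p : ℝ) / p ≤ 2 / (p : ℝ) ∧
      (rho a p : ℝ) / p ≤ 2 / 3 := by
    intro p hp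
    have hp0 : (0 : ℝ) < p := by exact_mod_cast hp.pos
    by_cases hp2 : p = 2
    · subst hp2
      rw [h2 a]
      norm_num
    · have hp3 : (3 : ℝ) ≤ p := by
        have := hp.two_le
        exact_mod_cast (by omega : 3 ≤ p)
      have hle : rho a p ≤ 2 := by
        have h3 := hP a p hp hp2
        have h4 : jacobiSym (-a) p ≤ 1 := by
          rcases jacobiSym.trichotomy (-a) p with h | h | h <;> rw [h] <;> norm_num
        omega
      have hle' : (rho a p : ℝ) ≤ 2 := by exact_mod_cast hle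
      refine ⟨by positivity, ?_, ?_⟩
      · exact div_le_div_of_nonneg_right hle' hp0.le
      · rw [div_le_div_iff₀ hp0 (by norm_num)]
        nlinarith
  have key := hFL b z hz2 ((Ioc N (2 * N)).filter (fun n => k ∣ val a n)) (val a) (fun _ => 1)
    (N * ((rho a k : ℝ) / k)) (fun p => (rho a p : ℝ) / p) (by positivity) (fun _ _ => zero_le_one) hg
  have e1 : ∑ i ∈ (Ioc N (2 * N)).filter (fun n => k ∣ val a n), (1 : ℝ) * rInd z (val a i)
      = ∑ n ∈ Ioc N (2 * N), if k ∣ val a n then rInd z (val a n) else 0 := by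
    rw [Finset.sum_filter]
    refine Finset.sum_congr rfl fun n _ => ?_
    rw [one_mul]
  have e2 : ∏ p ∈ PB z, (1 - (rho a p : ℝ) / p) = Wa z a := rfl
  rw [e1, e2] at key
  refine key.trans ?_
  have e3 : C * Real.exp (-(b : ℝ)) * (N * ((rho a k : ℝ) / k)) * Wa z a
      = C * Real.exp (-(b : ℝ)) * N * ((rho a k : ℝ) / k) * Wa z a := by ring
  rw [e3]
  refine add_le_add le_rfl ?_
  refine le_trans ?_ hlogN
  -- the number of prime factors of k
  have hωk : (rho a k : ℝ) ≤ (2 : ℝ) ^ (1 / e0) := by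
    have h3 := card_primeFactors_le hN2 he0 hk0 hkr hkN
    have h4 : (k.primeFactors.card : ℝ) ≤ 1 / e0 := by
      rw [le_div_iff₀ he0]
      linarith
    have h5 : (rho a k : ℝ) ≤ (2 : ℝ) ^ k.primeFactors.card := by exact_mod_cast hS a k hk
    refine h5.trans ?_
    rw [← Real.rpow_natCast]
    exact Real.rpow_le_rpow_of_exponent_le (by norm_num) h4
  -- the level
  have hlev : z ^ (8 * b + 16) ≤ (N : ℝ) ^ (1 / 5 : ℝ) := by
    rw [hz, ← Real.rpow_natCast, ← Real.rpow_mul hN0.le]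
    refine Real.rpow_le_rpow_of_exponent_le hN1.le ?_
    push_cast
    linarith
  -- each term
  have hterm : ∀ δ ∈ (Icc 1 ⌊z ^ (8 * b + 16)⌋₊).filter
      (fun δ => Squarefree δ ∧ ∀ p : ℕ, p.Prime → p ∣ δ → (p : ℝ) < z),
      |(∑ i ∈ ((Ioc N (2 * N)).filter (fun n => k ∣ val a n)).filter (fun i => δ ∣ val a i), (1 : ℝ))
        - (N * ((rho a k : ℝ) / k)) * ∏ p ∈ δ.primeFactors, ((rho a p : ℝ) / p)|
      ≤ (2 : ℝ) ^ (1 / e0) * (Cd * (N : ℝ) ^ (1 / 100 : ℝ)) := by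
    intro δ hδ
    rw [Finset.mem_filter, Finset.mem_Icc] at hδ
    obtain ⟨⟨hδ1, hδ2⟩, hδs, hδz⟩ := hδ
    have hδ0 : δ ≠ 0 := by omega
    have hδpos : (0 : ℝ) < δ := by exact_mod_cast Nat.pos_of_ne_zero hδ0
    have hcop : Nat.Coprime k δ := by
      refine Nat.coprime_of_dvd fun p hp hpk hpδ => ?_
      have := hkr p hp hpk
      have := hδz p hp hpδ
      linarith
    rw [prod_rho h1 hM a δ hδs]
    have h3 := hC a (k * δ) N N (Nat.mul_pos (Nat.pos_of_ne_zero hk0) hδ1)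
    have h4 : ((Ioc N (2 * N)).filter (fun n => k ∣ val a n)).filter (fun i => δ ∣ val a i)
        = (Ioc N (N + N)).filter (fun n => k * δ ∣ val a n) := by
      rw [Finset.filter_filter, two_mul]
      refine Finset.filter_congr fun n _ => ?_
      constructor
      · rintro ⟨u, v⟩
        exact hcop.mul_dvd_of_dvd_of_dvd u v
      · intro u
        exact ⟨(Dvd.intro _ rfl).trans u, (Dvd.intro_left _ rfl).trans u⟩
    rw [h4, Finset.sum_const, nsmul_eq_mul, mul_one]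
    have h5 : (rho a (k * δ) : ℝ) = (rho a k : ℝ) * rho a δ := by
      exact_mod_cast hM a k δ hcop (Nat.pos_of_ne_zero hk0) hδ1
    rw [h5] at h3
    have h6 : (rho a k : ℝ) * (rho a δ : ℝ) * N / ((k * δ : ℕ) : ℝ)
        = N * ((rho a k : ℝ) / k) * ((rho a δ : ℝ) / δ) := by
      push_cast
      field_simp
    rw [h6] at h3
    refine h3.trans ?_
    refine mul_le_mul hωk ?_ (by positivity) (by positivity)
    have h7 : (rho a δ : ℝ) ≤ (2 : ℝ) ^ δ.primeFactors.card := by exact_mod_cast hS a δ hδs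
    have h8 : ((2 : ℝ) ^ δ.primeFactors.card) ≤ δ.divisors.card := by exact_mod_cast two_pow_le δ hδ0
    refine h7.trans (h8.trans ((hdiv δ (Nat.pos_of_ne_zero hδ0)).trans ?_))
    refine mul_le_mul_of_nonneg_left ?_ hCd.le
    refine Real.rpow_le_rpow hδpos.le ?_ (by norm_num)
    have h9 : (δ : ℝ) ≤ z ^ (8 * b + 16) := by
      refine le_trans (by exact_mod_cast hδ2) (Nat.floor_le (by positivity))
    refine h9.trans (hlev.trans ?_)
    calc (N : ℝ) ^ (1 / 5 : ℝ) ≤ (N : ℝ) ^ (1 : ℝ) :=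
          Real.rpow_le_rpow_of_exponent_le hN1.le (by norm_num)
      _ = N := Real.rpow_one _
  have hsum := Finset.sum_le_sum hterm
  rw [Finset.sum_const, nsmul_eq_mul] at hsum
  have hcard : ((((Icc 1 ⌊z ^ (8 * b + 16)⌋₊).filter
      (fun δ => Squarefree δ ∧ ∀ p : ℕ, p.Prime → p ∣ δ → (p : ℝ) < z)).card : ℕ) : ℝ)
      ≤ (N : ℝ) ^ (1 / 5 : ℝ) := by
    refine le_trans (Nat.cast_le.2 (Finset.card_filter_le _ _)) ?_
    rw [Nat.card_Icc, Nat.add_sub_cancel]
    exact (Nat.floor_le (by positivity)).trans hlev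
  have hlogz : Real.log z ≤ Real.log N := by
    rw [hz, Real.log_rpow hN0]
    have : e0 ≤ 1 := by
      have hb0 : (0 : ℝ) ≤ b := by positivity
      nlinarith
    have hl : 0 ≤ Real.log N := Real.log_nonneg hN1.le
    nlinarith
  have hlogz0 : 0 ≤ Real.log z := Real.log_nonneg (by linarith)
  calc C * (1 + Real.log z) * _ ≤ C * (1 + Real.log N) * ((N : ℝ) ^ (1 / 5 : ℝ)
        * ((2 : ℝ) ^ (1 / e0) * (Cd * (N : ℝ) ^ (1 / 100 : ℝ)))) := by
        refine mul_le_mul ?_ (hsum.trans ?_) (Finset.sum_nonneg fun _ _ => abs_nonneg _) ?_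
        · exact mul_le_mul_of_nonneg_left (by linarith) hC0.le
        · exact mul_le_mul_of_nonneg_right hcard (by positivity)
        · have hl : 0 ≤ Real.log N := Real.log_nonneg hN1.le
          positivity
    _ = C * Cd * (2 : ℝ) ^ (1 / e0) * (1 + Real.log N) *
        ((N : ℝ) ^ (1 / 5 : ℝ) * (N : ℝ) ^ (1 / 100 : ℝ)) := by ring
    _ = C * Cd * (2 : ℝ) ^ (1 / e0) * (1 + Real.log N) * (N : ℝ) ^ (21 / 100 : ℝ) := by
        rw [← Real.rpow_add hN0]
        norm_num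

end Pool.Agent.Lib.MP391708.QPA
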