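import Pool.Agent.Lib.MP_391708_nt.QPA.FLA

/-!
# Module FLB: the fundamental lemma in the multiples of `k`, for the model
-/

set_option autoImplicit false

namespace Pool.Agent.Lib.MP391708.QPA.FLB

open Finset Filter Topology
open scoped Classical

noncomputable section

/-- `1/(2√(qj)) ≤ (√(qj) - √(q(j-1)))/q` and the reverse one step further -/
lemma step_up (q j : ℕ) (hq : 1 ≤ q) :
    1 / (2 * √((q : ℝ) * (j + 1 : ℕ))) ≤ (√((q : ℝ) * (j + 1 : ℕ)) - √((q : ℝ) * (j : ℕ))) / q := by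
  have hq0 : (0 : ℝ) < q := by exact_mod_cast hq
  set s := √((q : ℝ) * (j + 1 : ℕ)) with hs
  set t := √((q : ℝ) * (j : ℕ)) with ht
  have hs0 : 0 < s := Real.sqrt_pos.2 (by positivity)
  have ht0 : 0 ≤ t := Real.sqrt_nonneg _
  have hs2 : s * s = (q : ℝ) * (j + 1 : ℕ) := Real.mul_self_sqrt (by positivity)
  have ht2 : t * t = (q : ℝ) * (j : ℕ) := Real.mul_self_sqrt (by positivity)
  have hst : (s - t) * (s + t) = q := by
    have : (s - t) * (s + t) = s * s - t * t := by ring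
    rw [this, hs2, ht2]
    push_cast
    ring
  have hts : t ≤ s := Real.sqrt_le_sqrt (by
    refine mul_le_mul_of_nonneg_left ?_ hq0.le
    exact_mod_cast Nat.le_succ j)
  rw [div_le_div_iff₀ (by positivity) hq0]
  nlinarith

lemma step_down (q j : ℕ) (hq : 1 ≤ q) (hj : 1 ≤ j) :
    (√((q : ℝ) * (j + 1 : ℕ)) - √((q : ℝ) * (j : ℕ))) / q ≤ 1 / (2 * √((q : ℝ) * (j : ℕ))) := by
  have hq0 : (0 : ℝ) < q := by exact_mod_cast hq
  have hj0 : (0 : ℝ) < j := by exact_mod_cast hj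
  set s := √((q : ℝ) * (j + 1 : ℕ)) with hs
  set t := √((q : ℝ) * (j : ℕ)) with ht
  have hs0 : 0 < s := Real.sqrt_pos.2 (by positivity)
  have ht0 : 0 < t := Real.sqrt_pos.2 (by positivity)
  have hs2 : s * s = (q : ℝ) * (j + 1 : ℕ) := Real.mul_self_sqrt (by positivity)
  have ht2 : t * t = (q : ℝ) * (j : ℕ) := Real.mul_self_sqrt (by positivity)
  have hst : (s - t) * (s + t) = q := by
    have : (s - t) * (s + t) = s * s - t * t := by ring
    rw [this, hs2, ht2]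
    push_cast
    ring
  have hts : t ≤ s := Real.sqrt_le_sqrt (by
    refine mul_le_mul_of_nonneg_left ?_ hq0.le
    exact_mod_cast Nat.le_succ j)
  rw [div_le_div_iff₀ hq0 (by positivity)]
  nlinarith

/-- sum over `j₀ < j ≤ j₁` -/
lemma sum_bounds (q j₀ j₁ : ℕ) (hq : 1 ≤ q) (h : j₀ ≤ j₁) :
    (∑ j ∈ Ioc j₀ j₁, 1 / (2 * √((q : ℝ) * (j : ℕ))))
        ≤ (√((q : ℝ) * (j₁ : ℕ)) - √((q : ℝ) * (j₀ : ℕ))) / q ∧
      (√((q : ℝ) * (j₁ + 1 : ℕ)) - √((q : ℝ) * (j₀ + 1 : ℕ))) / q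
        ≤ ∑ j ∈ Ioc j₀ j₁, 1 / (2 * √((q : ℝ) * (j : ℕ))) := by
  induction j₁, h using Nat.le_induction with
  | base => simp
  | succ n hn ih =>
    have e : Ioc j₀ (n + 1) = insert (n + 1) (Ioc j₀ n) := by
      ext x
      simp only [Finset.mem_Ioc, Finset.mem_insert]
      omega
    rw [e, Finset.sum_insert (by simp)]
    have h1 := step_up q n hq
    have h2 := step_down q (n + 1) hq (by omega)
    obtain ⟨h3, h4⟩ := ih
    constructor
    · have : (√((q : ℝ) * (n + 1 : ℕ)) - √((q : ℝ) * (j₀ : ℕ))) / q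
          = (√((q : ℝ) * (n + 1 : ℕ)) - √((q : ℝ) * (n : ℕ))) / q
            + (√((q : ℝ) * (n : ℕ)) - √((q : ℝ) * (j₀ : ℕ))) / q := by ring
      rw [this]
      exact add_le_add h1 h3
    · have : (√((q : ℝ) * (n + 1 + 1 : ℕ)) - √((q : ℝ) * (j₀ + 1 : ℕ))) / q
          = (√((q : ℝ) * (n + 1 + 1 : ℕ)) - √((q : ℝ) * (n + 1 : ℕ))) / q
            + (√((q : ℝ) * (n + 1 : ℕ)) - √((q : ℝ) * (j₀ + 1 : ℕ))) / q := by ring
      rw [this]
      exact add_le_add h2 h4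

/-- the multiples of `q` in the model -/
lemma mult_sum (q N : ℕ) (hq : 1 ≤ q) (hN : 1 ≤ N) :
    |(∑ m ∈ (Ioc (N ^ 2) (4 * N ^ 2)).filter (fun m => q ∣ m), 1 / (2 * √(m : ℝ))) - N / (q : ℝ)|
      ≤ 1 / N := by
  have hq0 : (0 : ℝ) < q := by exact_mod_cast hq
  have hN0 : (0 : ℝ) < N := by exact_mod_cast hN
  set j₀ := N ^ 2 / q with hj₀
  set j₁ := 4 * N ^ 2 / q with hj₁
  have h01 : j₀ ≤ j₁ := Nat.div_le_div_right (by omega)
  have e1 : ∑ m ∈ (Ioc (N ^ 2) (4 * N ^ 2)).filter (fun m => q ∣ m), 1 / (2 * √(m : ℝ))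
      = ∑ j ∈ Ioc j₀ j₁, 1 / (2 * √((q : ℝ) * (j : ℕ))) := by
    symm
    refine Finset.sum_nbij (fun j => q * j) ?_ ?_ ?_ ?_
    · intro j hj
      rw [Finset.mem_Ioc] at hj
      rw [Finset.mem_filter, Finset.mem_Ioc]
      refine ⟨⟨?_, ?_⟩, Dvd.intro _ rfl⟩
      · have := (Nat.div_lt_iff_lt_mul hq).1 hj.1
        linarith [Nat.mul_comm j q]
      · have := (Nat.le_div_iff_mul_le hq).1 hj.2
        linarith [Nat.mul_comm j q]
    · intro j _ j' _ h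
      exact Nat.eq_of_mul_eq_mul_left hq h
    · intro m hm
      simp only [Finset.coe_filter, Set.mem_ofPred_eq, Finset.mem_Ioc] at hm
      obtain ⟨⟨h1, h2⟩, j, rfl⟩ := hm
      refine ⟨j, ?_, rfl⟩
      simp only [Finset.coe_Ioc, Set.mem_Ioc]
      exact ⟨(Nat.div_lt_iff_lt_mul hq).2 (by linarith [Nat.mul_comm j q]),
        (Nat.le_div_iff_mul_le hq).2 (by linarith [Nat.mul_comm j q])⟩
    · intro j _
      push_cast
      rfl
  rw [e1]
  obtain ⟨hU, hL⟩ := sum_bounds q j₀ j₁ hq h01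
  -- sizes
  have a1 : (q : ℝ) * (j₁ : ℕ) ≤ (2 * N) ^ 2 := by
    have : q * j₁ ≤ 4 * N ^ 2 := Nat.mul_div_le _ _
    calc (q : ℝ) * (j₁ : ℕ) = ((q * j₁ : ℕ) : ℝ) := by push_cast; rfl
      _ ≤ ((4 * N ^ 2 : ℕ) : ℝ) := by exact_mod_cast this
      _ = (2 * N) ^ 2 := by push_cast; ring
  have a2 : (2 * N : ℝ) ^ 2 ≤ (q : ℝ) * (j₁ + 1 : ℕ) := by
    have : 4 * N ^ 2 ≤ q * (j₁ + 1) := (Nat.lt_mul_div_succ _ hq).le
    calc (2 * N : ℝ) ^ 2 = ((4 * N ^ 2 : ℕ) : ℝ) := by push_cast; ring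
      _ ≤ ((q * (j₁ + 1) : ℕ) : ℝ) := by exact_mod_cast this
      _ = _ := by push_cast; ring
  have a3 : (q : ℝ) * (j₀ : ℕ) ≤ (N : ℝ) ^ 2 := by
    have : q * j₀ ≤ N ^ 2 := Nat.mul_div_le _ _
    calc (q : ℝ) * (j₀ : ℕ) = ((q * j₀ : ℕ) : ℝ) := by push_cast; rfl
      _ ≤ ((N ^ 2 : ℕ) : ℝ) := by exact_mod_cast this
      _ = (N : ℝ) ^ 2 := by push_cast; ring
  have a4 : (N : ℝ) ^ 2 ≤ (q : ℝ) * (j₀ + 1 : ℕ) := by
    have : N ^ 2 ≤ q * (j₀ + 1) := (Nat.lt_mul_div_succ _ hq).le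
    calc (N : ℝ) ^ 2 = ((N ^ 2 : ℕ) : ℝ) := by push_cast; ring
      _ ≤ ((q * (j₀ + 1) : ℕ) : ℝ) := by exact_mod_cast this
      _ = _ := by push_cast; ring
  have b1 : √((q : ℝ) * (j₁ : ℕ)) ≤ 2 * N := Real.sqrt_le_iff.2 ⟨by positivity, a1⟩
  have b2 : 2 * N ≤ √((q : ℝ) * (j₁ + 1 : ℕ)) := Real.le_sqrt_of_sq_le a2
  -- the lower end
  have b3 : (N : ℝ) - q / N ≤ √((q : ℝ) * (j₀ : ℕ)) := by
    by_cases h : (N : ℝ) - q / N ≤ 0
    · exact h.trans (Real.sqrt_nonneg _)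
    · push Not at h
      refine Real.le_sqrt_of_sq_le ?_
      have h1 : (q : ℝ) / N < N := by linarith
      have h2 : ((N : ℝ) - q / N) ^ 2 = N ^ 2 - 2 * q + (q / N) ^ 2 := by
        field_simp
        ring
      have h3 : ((q : ℝ) / N) ^ 2 ≤ q := by
        have : ((q : ℝ) / N) ^ 2 = (q / N) * (q / N) := by ring
        rw [this]
        calc (q : ℝ) / N * (q / N) ≤ N * (q / N) :=
              mul_le_mul_of_nonneg_right h1.le (by positivity)
          _ = q := by field_simp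
      rw [h2]
      have h4 : (q : ℝ) * (j₀ + 1 : ℕ) = (q : ℝ) * (j₀ : ℕ) + q := by push_cast; ring
      rw [h4] at a4
      linarith
  have b4 : √((q : ℝ) * (j₀ + 1 : ℕ)) ≤ N + q / N := by
    refine Real.sqrt_le_iff.2 ⟨by positivity, ?_⟩
    have h2 : ((N : ℝ) + q / N) ^ 2 = N ^ 2 + 2 * q + (q / N) ^ 2 := by
      field_simp
      ring
    have h4 : (q : ℝ) * (j₀ + 1 : ℕ) = (q : ℝ) * (j₀ : ℕ) + q := by push_cast; ring
    rw [h4, h2]
    have : 0 ≤ ((q : ℝ) / N) ^ 2 := by positivity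
    linarith
  have c1 : (√((q : ℝ) * (j₁ : ℕ)) - √((q : ℝ) * (j₀ : ℕ))) / q ≤ N / (q : ℝ) + 1 / N := by
    rw [div_le_iff₀ hq0]
    have : ((N : ℝ) / q + 1 / N) * q = N + q / N := by field_simp
    rw [this]
    linarith
  have c2 : N / (q : ℝ) - 1 / N ≤ (√((q : ℝ) * (j₁ + 1 : ℕ)) - √((q : ℝ) * (j₀ + 1 : ℕ))) / q := by
    rw [le_div_iff₀ hq0]
    have : ((N : ℝ) / q - 1 / N) * q = N - q / N := by field_simp
    rw [this]
    linarith
  rw [abs_le]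
  constructor <;> linarith

lemma prod_inv (d : ℕ) (hd : Squarefree d) :
    ∏ p ∈ d.primeFactors, (1 / (p : ℝ)) = 1 / d := by
  rw [Finset.prod_div_distrib, Finset.prod_const_one]
  congr 1
  have h3 := Nat.prod_primeFactors_of_squarefree hd
  calc ∏ p ∈ d.primeFactors, (p : ℝ) = ((∏ p ∈ d.primeFactors, p : ℕ) : ℝ) := by push_cast; rfl
    _ = d := by rw [h3]

end

end Pool.Agent.Lib.MP391708.QPA.FLB

namespace Pool.Agent.Lib.MP391708.QPA

open Finset Filter Topology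
open scoped Classical
open FLB

theorem specFLB (hFL : SpecFL) : SpecFLB := by
  obtain ⟨C, hC0, hFL⟩ := hFL
  refine ⟨C, hC0, ?_⟩
  intro b e0 he0 heb
  obtain ⟨N₁, hN₁, hlog⟩ := FLA.log_le C (-4 / 5) 0 (by norm_num)
  obtain ⟨N₂, hN₂⟩ := eventually_atTop.1
    (((tendsto_rpow_atTop he0).comp tendsto_natCast_atTop_atTop).eventually_ge_atTop (2 : ℝ))
  refine ⟨max N₁ N₂, ?_⟩
  intro N hN k hk hkr hkN
  have hNN₁ : N₁ ≤ N := le_trans (le_max_left _ _) hN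
  have hz2 : (2 : ℝ) ≤ (N : ℝ) ^ e0 := hN₂ N (le_trans (le_max_right _ _) hN)
  have hlogN := hlog N hNN₁
  rw [Real.rpow_zero] at hlogN
  have hN2 : 2 ≤ N := le_trans hN₁ hNN₁
  have hN1 : (1 : ℝ) < N := by exact_mod_cast (by omega : 1 < N)
  have hN0 : (0 : ℝ) < N := by linarith
  set z : ℝ := (N : ℝ) ^ e0 with hz
  have hk0 : k ≠ 0 := hk.ne_zero
  have hkpos : (0 : ℝ) < k := by exact_mod_cast Nat.pos_of_ne_zero hk0
  have hg : ∀ p : ℕ, p.Prime → 0 ≤ 1 / (p : ℝ) ∧ 1 / (p : ℝ) ≤ 2 / (p : ℝ) ∧ 1 / (p : ℝ) ≤ 2 / 3 := by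
    intro p hp
    have hp0 : (2 : ℝ) ≤ p := by exact_mod_cast hp.two_le
    refine ⟨by positivity, ?_, ?_⟩
    · exact div_le_div_of_nonneg_right (by norm_num) (by linarith)
    · rw [div_le_div_iff₀ (by linarith) (by norm_num)]
      linarith
  have key := hFL b z hz2 ((Ioc (N ^ 2) (4 * N ^ 2)).filter (fun m => k ∣ m)) (fun m => m)
    (fun m => 1 / (2 * √(m : ℝ))) (N / (k : ℝ)) (fun p => 1 / (p : ℝ)) (by positivity)
    (fun _ _ => by positivity) hg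
  have e1 : ∑ i ∈ (Ioc (N ^ 2) (4 * N ^ 2)).filter (fun m => k ∣ m), 1 / (2 * √(i : ℝ)) * rInd z i
      = model N (fun m => if k ∣ m then rInd z m else 0) := by
    rw [model, Finset.sum_filter]
    refine Finset.sum_congr rfl fun n _ => ?_
    split_ifs <;> ring
  have e2 : ∏ p ∈ PB z, (1 - 1 / (p : ℝ)) = Wp z := rfl
  rw [e1, e2] at key
  refine key.trans ?_
  have e3 : C * Real.exp (-(b : ℝ)) * (N / (k : ℝ)) * Wp z
      = C * Real.exp (-(b : ℝ)) * (N / (k : ℝ)) * Wp z := by ring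
  refine add_le_add e3.le ?_
  refine le_trans ?_ hlogN
  -- the level
  have hlev : z ^ (8 * b + 16) ≤ (N : ℝ) ^ (1 / 5 : ℝ) := by
    rw [hz, ← Real.rpow_natCast, ← Real.rpow_mul hN0.le]
    refine Real.rpow_le_rpow_of_exponent_le hN1.le ?_
    push_cast
    linarith
  -- each term
  have hterm : ∀ δ ∈ (Icc 1 ⌊z ^ (8 * b + 16)⌋₊).filter
      (fun δ => Squarefree δ ∧ ∀ p : ℕ, p.Prime → p ∣ δ → (p : ℝ) < z),
      |(∑ i ∈ ((Ioc (N ^ 2) (4 * N ^ 2)).filter (fun m => k ∣ m)).filter (fun i => δ ∣ i),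
          1 / (2 * √(i : ℝ)))
        - (N / (k : ℝ)) * ∏ p ∈ δ.primeFactors, (1 / (p : ℝ))| ≤ 1 / N := by
    intro δ hδ
    rw [Finset.mem_filter, Finset.mem_Icc] at hδ
    obtain ⟨⟨hδ1, hδ2⟩, hδs, hδz⟩ := hδ
    have hδ0 : δ ≠ 0 := by omega
    have hδpos : (0 : ℝ) < δ := by exact_mod_cast Nat.pos_of_ne_zero hδ0
    have hcop : Nat.Coprime k δ := by
      refine Nat.coprime_of_dvd fun p hp hpk hpδ => ?_
      have := hkr p hp hpk
      have := hδz p hp hpδ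
      linarith
    rw [prod_inv δ hδs]
    have h3 := mult_sum (k * δ) N (Nat.mul_pos (Nat.pos_of_ne_zero hk0) hδ1) (by omega)
    have h4 : ((Ioc (N ^ 2) (4 * N ^ 2)).filter (fun m => k ∣ m)).filter (fun i => δ ∣ i)
        = (Ioc (N ^ 2) (4 * N ^ 2)).filter (fun n => k * δ ∣ n) := by
      rw [Finset.filter_filter]
      refine Finset.filter_congr fun n _ => ?_
      constructor
      · rintro ⟨u, v⟩
        exact hcop.mul_dvd_of_dvd_of_dvd u v
      · intro u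
        exact ⟨(Dvd.intro _ rfl).trans u, (Dvd.intro_left _ rfl).trans u⟩
    rw [h4]
    have h6 : (N : ℝ) / ((k * δ : ℕ) : ℝ) = N / (k : ℝ) * (1 / (δ : ℝ)) := by
      push_cast
      field_simp
    rw [h6] at h3
    exact h3
  have hsum := Finset.sum_le_sum hterm
  rw [Finset.sum_const, nsmul_eq_mul] at hsum
  have hcard : ((((Icc 1 ⌊z ^ (8 * b + 16)⌋₊).filter
      (fun δ => Squarefree δ ∧ ∀ p : ℕ, p.Prime → p ∣ δ → (p : ℝ) < z)).card : ℕ) : ℝ)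
      ≤ (N : ℝ) ^ (1 / 5 : ℝ) := by
    refine le_trans (Nat.cast_le.2 (Finset.card_filter_le _ _)) ?_
    rw [Nat.card_Icc, Nat.add_sub_cancel]
    exact (Nat.floor_le (by positivity)).trans hlev
  have hlogz : Real.log z ≤ Real.log N := by
    rw [hz, Real.log_rpow hN0]
    have : e0 ≤ 1 := by
      have hb0 : (0 : ℝ) ≤ b := by positivity
      nlinarith
    have hl : 0 ≤ Real.log N := Real.log_nonneg hN1.le
    nlinarith
  have hlogz0 : 0 ≤ Real.log z := Real.log_nonneg (by linarith)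
  calc C * (1 + Real.log z) * _ ≤ C * (1 + Real.log N) * ((N : ℝ) ^ (1 / 5 : ℝ) * (1 / N)) := by
        refine mul_le_mul ?_ (hsum.trans ?_) (Finset.sum_nonneg fun _ _ => abs_nonneg _) ?_
        · exact mul_le_mul_of_nonneg_left (by linarith) hC0.le
        · exact mul_le_mul_of_nonneg_right hcard (by positivity)
        · have hl : 0 ≤ Real.log N := Real.log_nonneg hN1.le
          positivity
    _ = C * (1 + Real.log N) * (N : ℝ) ^ (-4 / 5 : ℝ) := by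
        have h7 : (1 : ℝ) / N = (N : ℝ) ^ (-1 : ℝ) := by rw [Real.rpow_neg_one, one_div]
        rw [h7, ← Real.rpow_add hN0]
        norm_num

end Pool.Agent.Lib.MP391708.QPA
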