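import Pool.Agent.Lib.MP_391708_nt.QPA.Spec2
import Pool.Agent.Lib.MP_391708_nt.QPA.FLB

/-!
# Module FLBK: the fundamental lemma for the model, moduli up to `N^(4/5)`
-/

set_option autoImplicit false

namespace Pool.Agent.Lib.MP391708.QPA

open Finset Filter Topology
open scoped Classical
open FLB

theorem specFLBK (hFL : SpecFL) : SpecFLBK := by
  obtain ⟨C, hC0, hFL⟩ := hFL
  refine ⟨C, hC0, ?_⟩
  intro b e0 he0 heb
  obtain ⟨N₁, hN₁, hlog⟩ := FLA.log_le C (-9 / 10) 0 (by norm_num)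
  obtain ⟨N₂, hN₂⟩ := eventually_atTop.1
    (((tendsto_rpow_atTop he0).comp tendsto_natCast_atTop_atTop).eventually_ge_atTop (2 : ℝ))
  refine ⟨max N₁ N₂, ?_⟩
  intro N hN k hk hkr hkN
  have hNN₁ : N₁ ≤ N := le_trans (le_max_left _ _) hN
  have hz2 : (2 : ℝ) ≤ (N : ℝ) ^ e0 := hN₂ N (le_trans (le_max_right _ _) hN)
  have hlogN := hlog N hNN₁
  rw [Real.rpow_zero] at hlogN
  have hN2 : 2 ≤ N := le_trans hN₁ hNN₁
  have hN1 : (1 : ℝ) < N := by exact_mod_cast (by omega : 1 < N)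
  have hN0 : (0 : ℝ) < N := by linarith
  set z : ℝ := (N : ℝ) ^ e0 with hz
  have hk0 : k ≠ 0 := hk.ne_zero
  have hkpos : (0 : ℝ) < k := by exact_mod_cast Nat.pos_of_ne_zero hk0
  have hg : ∀ p : ℕ, p.Prime → 0 ≤ 1 / (p : ℝ) ∧ 1 / (p : ℝ) ≤ 2 / (p : ℝ) ∧ 1 / (p : ℝ) ≤ 2 / 3 := by
    intro p hp
    have hp0 : (2 : ℝ) ≤ p := by exact_mod_cast hp.two_le
    refine ⟨by positivity, ?_, ?_⟩
    · exact div_le_div_of_nonneg_right (by norm_num) (by linarith)
    · rw [div_le_div_iff₀ (by linarith) (by norm_num)]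
      linarith
  have key := hFL b z hz2 ((Ioc (N ^ 2) (4 * N ^ 2)).filter (fun m => k ∣ m)) (fun m => m)
    (fun m => 1 / (2 * √(m : ℝ))) (N / (k : ℝ)) (fun p => 1 / (p : ℝ)) (by positivity)
    (fun _ _ => by positivity) hg
  have e1 : ∑ i ∈ (Ioc (N ^ 2) (4 * N ^ 2)).filter (fun m => k ∣ m), 1 / (2 * √(i : ℝ)) * rInd z i
      = model N (fun m => if k ∣ m then rInd z m else 0) := by
    rw [model, Finset.sum_filter]
    refine Finset.sum_congr rfl fun n _ => ?_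
    split_ifs <;> ring
  have e2 : ∏ p ∈ PB z, (1 - 1 / (p : ℝ)) = Wp z := rfl
  rw [e1, e2] at key
  refine key.trans ?_
  have e3 : C * Real.exp (-(b : ℝ)) * (N / (k : ℝ)) * Wp z
      = C * Real.exp (-(b : ℝ)) * (N / (k : ℝ)) * Wp z := by ring
  refine add_le_add e3.le ?_
  refine le_trans ?_ hlogN
  -- the level
  have hlev : z ^ (8 * b + 16) ≤ (N : ℝ) ^ (1 / 10 : ℝ) := by
    rw [hz, ← Real.rpow_natCast, ← Real.rpow_mul hN0.le]
    refine Real.rpow_le_rpow_of_exponent_le hN1.le ?_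
    push_cast
    linarith
  -- each term
  have hterm : ∀ δ ∈ (Icc 1 ⌊z ^ (8 * b + 16)⌋₊).filter
      (fun δ => Squarefree δ ∧ ∀ p : ℕ, p.Prime → p ∣ δ → (p : ℝ) < z),
      |(∑ i ∈ ((Ioc (N ^ 2) (4 * N ^ 2)).filter (fun m => k ∣ m)).filter (fun i => δ ∣ i),
          1 / (2 * √(i : ℝ)))
        - (N / (k : ℝ)) * ∏ p ∈ δ.primeFactors, (1 / (p : ℝ))| ≤ 1 / N := by
    intro δ hδ
    rw [Finset.mem_filter, Finset.mem_Icc] at hδ
    obtain ⟨⟨hδ1, hδ2⟩, hδs, hδz⟩ := hδ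
    have hδ0 : δ ≠ 0 := by omega
    have hδpos : (0 : ℝ) < δ := by exact_mod_cast Nat.pos_of_ne_zero hδ0
    have hcop : Nat.Coprime k δ := by
      refine Nat.coprime_of_dvd fun p hp hpk hpδ => ?_
      have := hkr p hp hpk
      have := hδz p hp hpδ
      linarith
    rw [prod_inv δ hδs]
    have h3 := mult_sum (k * δ) N (Nat.mul_pos (Nat.pos_of_ne_zero hk0) hδ1) (by omega)
    have h4 : ((Ioc (N ^ 2) (4 * N ^ 2)).filter (fun m => k ∣ m)).filter (fun i => δ ∣ i)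
        = (Ioc (N ^ 2) (4 * N ^ 2)).filter (fun n => k * δ ∣ n) := by
      rw [Finset.filter_filter]
      refine Finset.filter_congr fun n _ => ?_
      constructor
      · rintro ⟨u, v⟩
        exact hcop.mul_dvd_of_dvd_of_dvd u v
      · intro u
        exact ⟨(Dvd.intro _ rfl).trans u, (Dvd.intro_left _ rfl).trans u⟩
    rw [h4]
    have h6 : (N : ℝ) / ((k * δ : ℕ) : ℝ) = N / (k : ℝ) * (1 / (δ : ℝ)) := by
      push_cast
      field_simp
    rw [h6] at h3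
    exact h3
  have hsum := Finset.sum_le_sum hterm
  rw [Finset.sum_const, nsmul_eq_mul] at hsum
  have hcard : ((((Icc 1 ⌊z ^ (8 * b + 16)⌋₊).filter
      (fun δ => Squarefree δ ∧ ∀ p : ℕ, p.Prime → p ∣ δ → (p : ℝ) < z)).card : ℕ) : ℝ)
      ≤ (N : ℝ) ^ (1 / 10 : ℝ) := by
    refine le_trans (Nat.cast_le.2 (Finset.card_filter_le _ _)) ?_
    rw [Nat.card_Icc, Nat.add_sub_cancel]
    exact (Nat.floor_le (by positivity)).trans hlev
  have hlogz : Real.log z ≤ Real.log N := by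
    rw [hz, Real.log_rpow hN0]
    have : e0 ≤ 1 := by
      have hb0 : (0 : ℝ) ≤ b := by positivity
      nlinarith
    have hl : 0 ≤ Real.log N := Real.log_nonneg hN1.le
    nlinarith
  have hlogz0 : 0 ≤ Real.log z := Real.log_nonneg (by linarith)
  calc C * (1 + Real.log z) * _ ≤ C * (1 + Real.log N) * ((N : ℝ) ^ (1 / 10 : ℝ) * (1 / N)) := by
        refine mul_le_mul ?_ (hsum.trans ?_) (Finset.sum_nonneg fun _ _ => abs_nonneg _) ?_
        · exact mul_le_mul_of_nonneg_left (by linarith) hC0.le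
        · exact mul_le_mul_of_nonneg_right hcard (by positivity)
        · have hl : 0 ≤ Real.log N := Real.log_nonneg hN1.le
          positivity
    _ = C * (1 + Real.log N) * (N : ℝ) ^ (-9 / 10 : ℝ) := by
        have h7 : (1 : ℝ) / N = (N : ℝ) ^ (-1 : ℝ) := by rw [Real.rpow_neg_one, one_div]
        rw [h7, ← Real.rpow_add hN0]
        norm_num

end Pool.Agent.Lib.MP391708.QPA
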