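import Pool.Agent.Lib.MP_391708_nt.QPA.Spec

/-!
# Bounds for the partial product `Gw`
-/

set_option autoImplicit false

namespace Pool.Agent.Lib.MP391708.QPA

open Finset

namespace GMAX

/-- the primes `≤ w` -/
lemma mem_PB (w p : ℕ) : p ∈ PB ((w : ℝ) + 1) ↔ p.Prime ∧ p ≤ w := by
  unfold PB
  have h : ⌈(w : ℝ) + 1⌉₊ = w + 1 := by
    have : ((w : ℝ) + 1) = ((w + 1 : ℕ) : ℝ) := by push_cast; rfl
    rw [this, Nat.ceil_natCast]
  rw [h, mem_filter, mem_range]
  constructor
  · rintro ⟨h1, h2⟩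
    exact ⟨h2, by omega⟩
  · rintro ⟨h1, h2⟩
    exact ⟨by omega, h1⟩

/-- one factor of `Gw` -/
noncomputable def fac (a : ℤ) (p : ℕ) : ℝ := (1 - (rho a p : ℝ) / p) / (1 - 1 / (p : ℝ))

lemma fac_two (h2 : SpecRHO2) (a : ℤ) : fac a 2 = 1 := by
  unfold fac
  rw [h2 a]
  norm_num

lemma fac_odd (hP : SpecRHOP) (a : ℤ) (p : ℕ) (hp : p.Prime) (h2 : p ≠ 2) :
    (1 : ℝ) / 2 ≤ fac a p ∧ fac a p ≤ p / (p - 1) := by
  have hp3 : 3 ≤ p := by
    have := hp.two_le
    omega
  have hpr : (3 : ℝ) ≤ p := by exact_mod_cast hp3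
  have h := hP a p hp h2
  have hj : (rho a p : ℤ) ≤ 2 ∧ 0 ≤ (rho a p : ℤ) := by
    rw [h]
    rcases jacobiSym.trichotomy (-a) p with h | h | h <;> rw [h] <;> norm_num
  have hr1 : (rho a p : ℝ) ≤ 2 := by exact_mod_cast hj.1
  have hr0 : (0 : ℝ) ≤ rho a p := by positivity
  have e1 : 1 - 1 / (p : ℝ) = (p - 1) / p := by field_simp
  have e2 : 1 - (rho a p : ℝ) / p = (p - rho a p) / p := by field_simp
  have e3 : fac a p = (p - rho a p) / (p - 1) := by
    unfold fac
    rw [e1, e2]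
    field_simp
  rw [e3]
  constructor
  · rw [le_div_iff₀ (by linarith)]
    linarith
  · apply div_le_div_of_nonneg_right _ (by linarith)
    linarith

lemma fac_pos (h2 : SpecRHO2) (hP : SpecRHOP) (a : ℤ) (p : ℕ) (hp : p.Prime) : (1 : ℝ) / 2 ≤ fac a p := by
  by_cases h : p = 2
  · subst h
    rw [fac_two h2]
    norm_num
  · exact (fac_odd hP a p hp h).1

/-- `∏_{3≤m≤w} m/(m-1) = w/2` -/
lemma prod_Icc (w : ℕ) (hw : 2 ≤ w) : ∏ m ∈ Icc 3 w, ((m : ℝ) / ((m : ℝ) - 1)) = w / 2 := by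
  induction w, hw using Nat.le_induction with
  | base => simp
  | succ w hw ih =>
    rw [prod_Icc_succ_top (by omega), ih]
    have h0 : (w : ℝ) ≠ 0 := by
      have : (2 : ℝ) ≤ w := by exact_mod_cast hw
      linarith
    push_cast
    rw [add_sub_cancel_right, div_mul_div_comm, mul_comm (2 : ℝ), mul_div_mul_left _ _ h0]

end GMAX

open GMAX in
theorem specGMAX (h2 : SpecRHO2) (hP : SpecRHOP) : SpecGMAX := by
  intro w hw
  refine ⟨∏ p ∈ PB ((w : ℝ) + 1), (1 / 2 : ℝ), prod_pos fun _ _ => by norm_num, ?_⟩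
  intro a
  have hG : Gw w a = ∏ p ∈ PB ((w : ℝ) + 1), fac a p := rfl
  rw [hG]
  constructor
  · apply prod_le_prod
    · intro p _
      norm_num
    · intro p hp
      exact fac_pos h2 hP a p ((mem_PB w p).1 hp).1
  · have h3 : ∏ p ∈ PB ((w : ℝ) + 1), fac a p = ∏ p ∈ (PB ((w : ℝ) + 1)).erase 2, fac a p := by
      have hmem : 2 ∈ PB ((w : ℝ) + 1) := (mem_PB w 2).2 ⟨Nat.prime_two, hw⟩
      rw [← mul_prod_erase _ _ hmem, fac_two h2, one_mul]
    rw [h3]
    have hsub : (PB ((w : ℝ) + 1)).erase 2 ⊆ Icc 3 w := by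
      intro p hp
      rw [mem_erase, mem_PB] at hp
      rw [mem_Icc]
      have := hp.2.1.two_le
      omega
    calc ∏ p ∈ (PB ((w : ℝ) + 1)).erase 2, fac a p
        ≤ ∏ p ∈ (PB ((w : ℝ) + 1)).erase 2, ((p : ℝ) / ((p : ℝ) - 1)) := by
          apply prod_le_prod
          · intro p hp
            rw [mem_erase, mem_PB] at hp
            have := (fac_odd hP a p hp.2.1 hp.1).1
            linarith
          · intro p hp
            rw [mem_erase, mem_PB] at hp
            exact (fac_odd hP a p hp.2.1 hp.1).2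
      _ ≤ ∏ m ∈ Icc 3 w, ((m : ℝ) / ((m : ℝ) - 1)) := by
          apply prod_le_prod_of_subset_of_one_le hsub
          · intro m hm
            rw [mem_erase, mem_PB] at hm
            have h5 : (3 : ℝ) ≤ m := by
              have := hm.2.1.two_le
              have : 3 ≤ m := by omega
              exact_mod_cast this
            apply div_nonneg <;> linarith
          · intro m hm _
            rw [mem_Icc] at hm
            have h5 : (3 : ℝ) ≤ m := by exact_mod_cast hm.1
            rw [one_le_div (by linarith)]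
            linarith
      _ = w / 2 := prod_Icc w hw
      _ ≤ w := by
          have : (0 : ℝ) ≤ w := by positivity
          linarith

end Pool.Agent.Lib.MP391708.QPA
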