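import Pool.Agent.Lib.MP_391708_nt.QPA.Gmax

/-!
# The mean value of `Gw`
-/

set_option autoImplicit false

namespace Pool.Agent.Lib.MP391708.QPA

open Finset

namespace GMEAN

open GMAX

/-- Chinese remainder theorem for sums over one period -/
lemma sum_crt (m n : ℕ) (hm : 0 < m) (hn : 0 < n) (h : Nat.Coprime m n) (f g : ℕ → ℝ)
    (hf : ∀ x, f x = f (x % m)) (hg : ∀ x, g x = g (x % n)) :
    ∑ x ∈ range (m * n), f x * g x = (∑ x ∈ range m, f x) * ∑ y ∈ range n, g y := by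
  rw [sum_mul_sum, ← sum_product']
  refine sum_bij' (fun x _ => (x % m, x % n)) (fun y _ => (Nat.chineseRemainder h y.1 y.2 : ℕ)) ?_ ?_ ?_ ?_ ?_
  · intro x _
    rw [mem_product, mem_range, mem_range]
    exact ⟨Nat.mod_lt _ hm, Nat.mod_lt _ hn⟩
  · intro y _
    rw [mem_range]
    exact Nat.chineseRemainder_lt_mul h y.1 y.2 hm.ne' hn.ne'
  · intro x hx
    rw [mem_range] at hx
    have h1 := (Nat.chineseRemainder h (x % m) (x % n)).2
    have h2 : (Nat.chineseRemainder h (x % m) (x % n) : ℕ) ≡ x [MOD m * n] := by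
      rw [← Nat.modEq_and_modEq_iff_modEq_mul h]
      exact ⟨h1.1.trans (Nat.mod_modEq x m), h1.2.trans (Nat.mod_modEq x n)⟩
    have h3 := Nat.chineseRemainder_lt_mul h (x % m) (x % n) hm.ne' hn.ne'
    exact Nat.ModEq.eq_of_lt_of_lt h2 h3 hx
  · intro y hy
    rw [mem_product, mem_range, mem_range] at hy
    have h1 := (Nat.chineseRemainder h y.1 y.2).2
    ext
    · show (Nat.chineseRemainder h y.1 y.2 : ℕ) % m = y.1
      rw [h1.1, Nat.mod_eq_of_lt hy.1]
    · show (Nat.chineseRemainder h y.1 y.2 : ℕ) % n = y.2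
      rw [h1.2, Nat.mod_eq_of_lt hy.2]
  · intro x _
    show f x * g x = f (x % m) * g (x % n)
    rw [← hf, ← hg]

/-- the product of the primes of `S` -/
lemma sum_period (S : Finset ℕ) (hS : ∀ p ∈ S, p.Prime) (f : ℕ → ℕ → ℝ)
    (hf : ∀ p ∈ S, ∀ x, f p x = f p (x % p)) (hsum : ∀ p ∈ S, ∑ x ∈ range p, f p x = p) :
    (∀ x, ∏ p ∈ S, f p x = ∏ p ∈ S, f p (x % ∏ p ∈ S, p)) ∧
    ∑ x ∈ range (∏ p ∈ S, p), ∏ p ∈ S, f p x = ((∏ p ∈ S, p : ℕ) : ℝ) := by
  constructor
  · intro x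
    apply prod_congr rfl
    intro p hp
    rw [hf p hp x, hf p hp (x % ∏ p ∈ S, p), Nat.mod_mod_of_dvd x (dvd_prod_of_mem _ hp)]
  induction S using Finset.induction_on with
  | empty => simp
  | insert q S hq ih =>
    have hS' : ∀ p ∈ S, p.Prime := fun p hp => hS p (mem_insert_of_mem hp)
    have hqp : q.Prime := hS q (mem_insert_self _ _)
    have hcop : Nat.Coprime q (∏ p ∈ S, p) := by
      apply Nat.Coprime.prod_right
      intro p hp
      rw [Nat.coprime_primes hqp (hS' p hp)]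
      rintro rfl
      exact hq hp
    have hpos : 0 < ∏ p ∈ S, p := prod_pos fun p hp => (hS' p hp).pos
    have ih' := ih hS' (fun p hp => hf p (mem_insert_of_mem hp))
      (fun p hp => hsum p (mem_insert_of_mem hp))
    rw [prod_insert hq]
    have h1 : ∀ x, ∏ p ∈ insert q S, f p x = f q x * ∏ p ∈ S, f p x := fun x => prod_insert hq
    rw [sum_congr rfl fun x _ => h1 x, sum_crt q _ hqp.pos hpos hcop (f q) (fun x => ∏ p ∈ S, f p x)
      (hf q (mem_insert_self _ _)) ?_, hsum q (mem_insert_self _ _), ih']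
    · push_cast
      rfl
    · intro x
      apply prod_congr rfl
      intro p hp
      rw [hf p (mem_insert_of_mem hp) x, hf p (mem_insert_of_mem hp) (x % ∏ p ∈ S, p),
        Nat.mod_mod_of_dvd x (dvd_prod_of_mem _ hp)]

/-- periodicity of `rho` -/
lemma rho_congr (a b : ℤ) (k : ℕ) (h : (k : ℤ) ∣ a - b) : rho a k = rho b k := by
  unfold rho
  congr 1
  apply filter_congr
  intro ν _
  have e : (ν : ℤ) ^ 2 + a = ((ν : ℤ) ^ 2 + b) + (a - b) := by ring
  rw [e]
  exact (dvd_add_left h)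

lemma fac_congr (a b : ℤ) (k : ℕ) (h : (k : ℤ) ∣ a - b) : fac a k = fac b k := by
  unfold fac
  rw [rho_congr a b k h]

/-- `∑_{a mod k} ρ_a(k) = k` -/
lemma sum_rho (k : ℕ) (hk : 0 < k) : ∑ x ∈ range k, (rho (x : ℤ) k : ℝ) = k := by
  have h1 : ∀ x : ℕ, (rho (x : ℤ) k : ℝ)
      = ∑ ν ∈ range k, if (k : ℤ) ∣ (ν : ℤ) ^ 2 + (x : ℤ) then (1 : ℝ) else 0 := by
    intro x
    unfold rho
    rw [card_filter]
    push_cast
    rfl
  rw [sum_congr rfl fun x _ => h1 x, sum_comm]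
  have h2 : ∀ ν ∈ range k, ∑ x ∈ range k, (if (k : ℤ) ∣ (ν : ℤ) ^ 2 + (x : ℤ) then (1 : ℝ) else 0) = 1 := by
    intro ν _
    set r : ℕ := ((-((ν : ℤ) ^ 2)) % (k : ℤ)).toNat with hr
    have hk0 : (k : ℤ) ≠ 0 := by positivity
    have hr0 : 0 ≤ (-((ν : ℤ) ^ 2)) % (k : ℤ) := Int.emod_nonneg _ hk0
    have hrk : (r : ℤ) = (-((ν : ℤ) ^ 2)) % (k : ℤ) := Int.toNat_of_nonneg hr0
    have hrlt : r < k := by
      have := Int.emod_lt_of_pos (-((ν : ℤ) ^ 2)) (by positivity : (0 : ℤ) < k)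
      omega
    have hdiv : (k : ℤ) ∣ (ν : ℤ) ^ 2 + (r : ℤ) := by
      rw [hrk]
      have := Int.dvd_self_sub_emod (x := -((ν : ℤ) ^ 2)) (m := (k : ℤ))
      have h3 : (ν : ℤ) ^ 2 + (-((ν : ℤ) ^ 2)) % (k : ℤ) = -(-((ν : ℤ) ^ 2) - (-((ν : ℤ) ^ 2)) % (k : ℤ)) := by ring
      rw [h3]
      exact (dvd_neg.2 this)
    rw [sum_eq_single r]
    · rw [if_pos hdiv]
    · intro x hx hne
      rw [if_neg]
      intro hx2
      have h4 : (k : ℤ) ∣ (x : ℤ) - r := by
        have := dvd_sub hx2 hdiv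
        rwa [add_sub_add_left_eq_sub] at this
      apply hne
      rw [mem_range] at hx
      have h5 : (x : ℤ) ≡ r [ZMOD k] := (Int.modEq_iff_dvd.2 h4).symm
      have h6 : x ≡ r [MOD k] := Int.natCast_modEq_iff.1 h5
      exact Nat.ModEq.eq_of_lt_of_lt h6 hx hrlt
    · intro hr'
      exact absurd (mem_range.2 hrlt) hr'
  rw [sum_congr rfl h2, sum_const, card_range, nsmul_eq_mul, mul_one]

lemma sum_fac (p : ℕ) (hp : p.Prime) : ∑ x ∈ range p, fac (x : ℤ) p = p := by
  unfold fac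
  have hp1 : (1 : ℝ) < p := by exact_mod_cast hp.one_lt
  rw [← sum_div, sum_sub_distrib, ← sum_div, sum_rho p hp.pos, sum_const, card_range, nsmul_eq_mul,
    mul_one]
  have h0 : (p : ℝ) ≠ 0 := by positivity
  have h1 : (p : ℝ) - 1 ≠ 0 := by linarith
  have h2 : 1 - 1 / (p : ℝ) = (p - 1) / p := by field_simp
  rw [h2, div_self h0]
  field_simp

/-- a function of period `P` with sum `P` over the period, nonnegative: sums over intervals -/
lemma sum_shift (P : ℕ) (hP : 0 < P) (g : ℤ → ℝ) (hg : ∀ x y : ℤ, (P : ℤ) ∣ x - y → g x = g y) (b : ℤ) :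
    ∑ x ∈ range P, g (b + x) = ∑ x ∈ range P, g x := by
  have hP0 : (P : ℤ) ≠ 0 := by positivity
  have hlt : ∀ z : ℤ, (z % (P : ℤ)).toNat < P := by
    intro z
    have h1 := Int.emod_lt_of_pos z (by positivity : (0 : ℤ) < P)
    have h2 := Int.emod_nonneg z hP0
    omega
  have hcast : ∀ z : ℤ, (((z % (P : ℤ)).toNat : ℕ) : ℤ) = z % P := fun z =>
    Int.toNat_of_nonneg (Int.emod_nonneg z hP0)
  refine sum_bij' (fun x _ => ((b + x) % (P : ℤ)).toNat) (fun y _ => (((y : ℤ) - b) % (P : ℤ)).toNat)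
    ?_ ?_ ?_ ?_ ?_
  · intro x _
    exact mem_range.2 (hlt _)
  · intro y _
    exact mem_range.2 (hlt _)
  · intro x hx
    rw [mem_range] at hx
    have : ((((b + x) % (P : ℤ)).toNat : ℤ) - b) % (P : ℤ) = x := by
      rw [hcast, Int.emod_sub_emod, add_sub_cancel_left]
      exact Int.emod_eq_of_lt (by positivity) (by exact_mod_cast hx)
    rw [this]
    simp
  · intro y hy
    rw [mem_range] at hy
    have : (b + (((y : ℤ) - b) % (P : ℤ)).toNat) % (P : ℤ) = y := by
      rw [hcast, Int.add_emod_emod, add_sub_cancel]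
      exact Int.emod_eq_of_lt (by positivity) (by exact_mod_cast hy)
    rw [this]
    simp
  · intro x _
    apply hg
    rw [hcast]
    exact Int.dvd_self_sub_emod

lemma sum_blocks (P : ℕ) (hP : 0 < P) (g : ℤ → ℝ) (hg : ∀ x y : ℤ, (P : ℤ) ∣ x - y → g x = g y)
    (hs : ∑ x ∈ range P, g x = P) (b : ℤ) (j : ℕ) :
    ∑ x ∈ range (j * P), g (b + x) = j * P := by
  induction j with
  | zero => simp
  | succ j ih =>
    rw [Nat.succ_mul, sum_range_add, ih]
    have h1 : ∑ x ∈ range P, g (b + ((j * P + x : ℕ) : ℤ)) = ∑ x ∈ range P, g ((b + (j * P : ℕ)) + x) := by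
      apply sum_congr rfl
      intro x _
      congr 1
      push_cast
      ring
    rw [h1, sum_shift P hP g hg, hs]
    push_cast
    ring

end GMEAN

open GMEAN GMAX in
theorem specGMEAN (h2 : SpecRHO2) (hP : SpecRHOP) : SpecGMEAN := by
  intro w
  set S := PB ((w : ℝ) + 1) with hS
  have hSp : ∀ p ∈ S, p.Prime := fun p hp => ((mem_PB w p).1 hp).1
  set P := ∏ p ∈ S, p with hPdef
  have hP0 : 0 < P := prod_pos fun p hp => (hSp p hp).pos
  have hper : ∀ x y : ℤ, (P : ℤ) ∣ x - y → Gw w x = Gw w y := by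
    intro x y h
    show ∏ p ∈ S, fac x p = ∏ p ∈ S, fac y p
    apply prod_congr rfl
    intro p hp
    apply fac_congr
    exact (Int.natCast_dvd_natCast.2 (dvd_prod_of_mem _ hp)).trans h
  have hsum : ∑ x ∈ range P, Gw w x = P := by
    have h3 := (sum_period S hSp (fun p x => fac (x : ℤ) p) ?_ ?_).2
    · exact h3
    · intro p hp x
      apply fac_congr
      have : (((x % p : ℕ)) : ℤ) = (x : ℤ) % p := Int.natCast_mod x p
      rw [this]
      exact Int.dvd_self_sub_emod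
    · intro p hp
      exact sum_fac p (hSp p hp)
  have hpos : ∀ a, 0 ≤ Gw w a := by
    intro a
    apply prod_nonneg
    intro p hp
    have := fac_pos h2 hP a p (hSp p hp)
    unfold fac at this
    linarith
  refine ⟨P + 1, fun A hA => ?_⟩
  set j := (2 * A + 1) / P + 1 with hj
  have hjP : 2 * A + 1 ≤ j * P := by
    rw [hj, Nat.succ_mul ((2 * A + 1) / P) P]
    have := Nat.lt_div_mul_add (a := 2 * A + 1) hP0
    omega
  have hjP2 : j * P ≤ 2 * A + 1 + P := by
    rw [hj, Nat.succ_mul ((2 * A + 1) / P) P]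
    have := Nat.div_mul_le_self (2 * A + 1) P
    omega
  calc ∑ a ∈ IA A, Gw w a ≤ ∑ x ∈ range (j * P), Gw w (-(A : ℤ) + x) := by
        have e : (range (j * P)).map ⟨fun x : ℕ => -(A : ℤ) + x, fun x y h => by simpa using h⟩
            ⊇ IA A := by
          intro a ha
          unfold IA at ha
          rw [mem_Icc] at ha
          rw [mem_map]
          refine ⟨(a + A).toNat, ?_, ?_⟩
          · rw [mem_range]
            omega
          · show -(A : ℤ) + ((a + A).toNat : ℤ) = a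
            omega
        have e2 := sum_map (range (j * P)) ⟨fun x : ℕ => -(A : ℤ) + x, fun x y h => by simpa using h⟩
          (fun a => Gw w a)
        calc ∑ a ∈ IA A, Gw w a ≤ _ := sum_le_sum_of_subset_of_nonneg e (fun a _ _ => hpos a)
          _ = _ := e2
    _ = j * P := sum_blocks P hP0 (Gw w) hper hsum (-(A : ℤ)) j
    _ ≤ 2 * A + 1 + P := by exact_mod_cast hjP2
    _ ≤ 3 * A := by
        have : (P : ℝ) + 1 ≤ A := by exact_mod_cast hA
        linarith

end Pool.Agent.Lib.MP391708.QPA
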