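import Pool.Agent.Lib.MP_391708_nt.QPA.Spec

/-! # LI: the logarithmic integral -/

set_option autoImplicit false

namespace Pool.Agent.Lib.MP391708.QPA.LI

open Filter Asymptotics Topology

theorem li_eq {x : ℝ} (hx : 2 ≤ x) :
    ∫ t in (2 : ℝ)..x, 1 / Real.log t =
      x / Real.log x - 2 / Real.log 2 + ∫ t in (2 : ℝ)..x, 1 / Real.log t ^ 2 := by
  have hpos : ∀ t ∈ Set.uIcc (2 : ℝ) x, 0 < t ∧ 0 < Real.log t := by
    intro t ht
    rw [Set.uIcc_of_le hx] at ht
    exact ⟨by linarith [ht.1], Real.log_pos (by linarith [ht.1])⟩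
  have hd : ∀ t ∈ Set.uIcc (2 : ℝ) x, HasDerivAt (fun t => t / Real.log t)
      (1 / Real.log t - 1 / Real.log t ^ 2) t := by
    intro t ht
    obtain ⟨h0, h1⟩ := hpos t ht
    have h := (hasDerivAt_id' t).fun_div (Real.hasDerivAt_log h0.ne') h1.ne'
    have e : (1 * Real.log t - t * t⁻¹) / Real.log t ^ 2 =
        1 / Real.log t - 1 / Real.log t ^ 2 := by
      field_simp
    rw [← e]
    exact h
  have hi2 : IntervalIntegrable (fun t : ℝ => 1 / Real.log t ^ 2) MeasureTheory.volume 2 x :=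
    Chebyshev.intervalIntegrable_one_div_log_sq (by norm_num) (by linarith)
  have hi1 : IntervalIntegrable (fun t : ℝ => 1 / Real.log t) MeasureTheory.volume 2 x := by
    refine ContinuousOn.intervalIntegrable fun t ht => ContinuousAt.continuousWithinAt ?_
    obtain ⟨h0, h1⟩ := hpos t ht
    have h0' := h0.ne'
    have h1' := h1.ne'
    fun_prop
  have h := intervalIntegral.integral_eq_sub_of_hasDerivAt hd (hi1.sub hi2)
  rw [intervalIntegral.integral_sub hi1 hi2] at h
  linarith

theorem log_tendsto {κ : ℝ} (hκ : 0 < κ) : ∀ᶠ x : ℝ in atTop, 1 ≤ κ * Real.log x := by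
  have := Real.tendsto_log_atTop.const_mul_atTop hκ
  exact this.eventually_ge_atTop 1

end Pool.Agent.Lib.MP391708.QPA.LI

namespace Pool.Agent.Lib.MP391708.QPA

open Filter Asymptotics Topology

theorem specLI : SpecLI := by
  intro κ hκ
  obtain ⟨C, hC⟩ := Chebyshev.integral_one_div_log_sq_isBigO.bound
  have e1 := (LI.log_tendsto (κ := κ / (2 * (|C| + 1))) (by positivity))
  have e2 : ∀ᶠ x : ℝ in atTop, 2 / Real.log 2 ≤ κ / 2 * (x / Real.log x) := by
    have h1 : Tendsto (fun x : ℝ => x / Real.log x) atTop atTop := by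
      have h := (Real.isLittleO_log_id_atTop)
      have h2 := h.tendsto_div_nhds_zero
      have h3 : ∀ᶠ x : ℝ in atTop, 0 < Real.log x / x := by
        filter_upwards [eventually_gt_atTop (1 : ℝ)] with x hx
        have := Real.log_pos hx
        positivity
      have h4 : Tendsto (fun x : ℝ => Real.log x / x) atTop (𝓝[>] 0) :=
        tendsto_nhdsWithin_iff.mpr ⟨h2, h3⟩
      have h5 := h4.inv_tendsto_nhdsGT_zero
      refine h5.congr fun x => ?_
      simp
    exact (h1.const_mul_atTop (by positivity : (0 : ℝ) < κ / 2)).eventually_ge_atTop _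
  have hall := (hC.and (e1.and (e2.and (eventually_ge_atTop (2 : ℝ))))).and
    (eventually_gt_atTop (1 : ℝ))
  obtain ⟨X, hX⟩ := eventually_atTop.mp hall
  refine ⟨⌈X⌉₊, fun N hN => ?_⟩
  have hNX : X ≤ (N : ℝ) := (Nat.le_ceil X).trans (by exact_mod_cast hN)
  obtain ⟨⟨h1, h2, h3, h4⟩, h5⟩ := hX N hNX
  rw [LI.li_eq h4]
  have hlog : 0 < Real.log N := Real.log_pos h5
  have hN0 : (0 : ℝ) < N := by linarith
  have hI : |∫ t in (2 : ℝ)..(N : ℝ), 1 / Real.log t ^ 2| ≤ κ / 2 * ((N : ℝ) / Real.log N) := by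
    rw [Real.norm_eq_abs, Real.norm_eq_abs] at h1
    refine h1.trans ?_
    rw [abs_of_nonneg (by positivity)]
    have hC1 : C ≤ |C| + 1 := (le_abs_self C).trans (by linarith)
    have hpos : (0 : ℝ) < |C| + 1 := by positivity
    have h2' : 2 * (|C| + 1) ≤ κ * Real.log N := by
      have : κ / (2 * (|C| + 1)) * Real.log N = κ * Real.log N / (2 * (|C| + 1)) := by ring
      rw [this, le_div_iff₀ (by positivity)] at h2
      linarith
    have e : C * ((N : ℝ) / Real.log N ^ 2) ≤ (|C| + 1) * ((N : ℝ) / Real.log N ^ 2) := by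
      gcongr
    refine e.trans ?_
    have : κ / 2 * ((N : ℝ) / Real.log N) = (κ * Real.log N / 2) * ((N : ℝ) / Real.log N ^ 2) := by
      field_simp
    rw [this]
    gcongr
    linarith
  have h6 : 0 ≤ 2 / Real.log 2 := by positivity
  have h7 : κ * (N : ℝ) / Real.log N = κ / 2 * ((N : ℝ) / Real.log N) +
      κ / 2 * ((N : ℝ) / Real.log N) := by ring
  rw [h7]
  rw [abs_le] at hI ⊢
  constructor <;> linarith [hI.1, hI.2]

end Pool.Agent.Lib.MP391708.QPA
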