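import Pool.Agent.Lib.MP_391708_nt.QPA.Spec

/-!
# Module LR: large sieve for coefficients on rough numbers
-/

set_option autoImplicit false
set_option linter.unusedSectionVars false

namespace Pool.Agent.Lib.MP391708.QPA

open Finset Filter Topology
open scoped Classical

namespace LR

theorem sum_range_zmod {N : ℕ} [NeZero N] (f : ZMod N → ℂ) :
    ∑ j ∈ range N, f (j : ZMod N) = ∑ x, f x := by
  refine Finset.sum_nbij' (fun j => (j : ZMod N)) (fun x => x.val) ?_ ?_ ?_ ?_ ?_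
  · intro j _; exact Finset.mem_univ _
  · intro x _; exact Finset.mem_range.mpr (ZMod.val_lt x)
  · intro j hj; exact ZMod.val_cast_of_lt (Finset.mem_range.mp hj)
  · intro x _; rw [ZMod.natCast_val, ZMod.cast_id', id]
  · intro j _; rfl

theorem sum_period {N : ℕ} [NeZero N] {χ : DirichletCharacter ℂ N} (hχ : χ ≠ 1) (Y : ℕ) :
    ∑ j ∈ range N, χ ((Y + j : ℕ) : ZMod N) = 0 := by
  have h1 : ∀ j : ℕ, χ ((Y + j : ℕ) : ZMod N) = (fun x : ZMod N => χ ((Y : ZMod N) + x)) j := by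
    intro j; simp
  have h2 := Equiv.sum_comp (Equiv.addLeft (Y : ZMod N)) (fun x => χ x)
  calc ∑ j ∈ range N, χ ((Y + j : ℕ) : ZMod N) =
        ∑ j ∈ range N, (fun x : ZMod N => χ ((Y : ZMod N) + x)) j :=
        Finset.sum_congr rfl (fun j _ => h1 j)
    _ = ∑ x, (fun x : ZMod N => χ ((Y : ZMod N) + x)) x :=
        sum_range_zmod (fun x : ZMod N => χ ((Y : ZMod N) + x))
    _ = ∑ x, χ x := h2
    _ = 0 := MulChar.sum_eq_zero_of_ne_one hχ

theorem norm_char_le {N : ℕ} (χ : DirichletCharacter ℂ N) (x : ZMod N) : ‖χ x‖ ≤ 1 :=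
  DirichletCharacter.norm_le_one χ x

theorem sum_range_le {N : ℕ} [NeZero N] {χ : DirichletCharacter ℂ N} (hχ : χ ≠ 1) :
    ∀ Y : ℕ, ‖∑ v ∈ range Y, χ (v : ZMod N)‖ ≤ N := by
  intro Y
  induction Y using Nat.strong_induction_on with
  | _ Y ih =>
    rcases Nat.lt_or_ge Y N with h | h
    · refine (norm_sum_le _ _).trans ?_
      calc ∑ v ∈ range Y, ‖χ (v : ZMod N)‖ ≤ ∑ v ∈ range Y, (1 : ℝ) :=
            Finset.sum_le_sum (fun v _ => norm_char_le χ _)
        _ = Y := by simp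
        _ ≤ N := by exact_mod_cast h.le
    · have hN : 0 < N := Nat.pos_of_ne_zero (NeZero.ne N)
      obtain ⟨Z, rfl⟩ : ∃ Z, Y = Z + N := ⟨Y - N, by omega⟩
      rw [Finset.sum_range_add, sum_period hχ, add_zero]
      exact ih Z (by omega)

theorem sum_Icc_le {N : ℕ} [NeZero N] {χ : DirichletCharacter ℂ N} (hχ : χ ≠ 1) (Y : ℕ) :
    ‖∑ v ∈ Icc 1 Y, χ (v : ZMod N)‖ ≤ N := by
  have h1 : ∑ v ∈ Icc 1 Y, χ (v : ZMod N) = ∑ v ∈ range (Y + 1), χ (v : ZMod N) - χ (0 : ZMod N) := by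
    have : range (Y + 1) = insert 0 (Icc 1 Y) := by
      ext v
      simp only [Finset.mem_range, Finset.mem_insert, Finset.mem_Icc]
      omega
    rw [this, Finset.sum_insert (by simp)]
    simp
  by_cases hN1 : N = 1
  · subst hN1
    exact absurd (DirichletCharacter.level_one χ) hχ
  · rw [h1, DirichletCharacter.map_zero' χ hN1, sub_zero]
    exact sum_range_le hχ _

/-- multiples of `D` -/
theorem sum_dvd_le {N : ℕ} [NeZero N] {χ : DirichletCharacter ℂ N} (hχ : χ ≠ 1) (X D : ℕ)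
    (hD : 1 ≤ D) : ‖∑ v ∈ (Icc 1 X).filter (fun v => D ∣ v), χ (v : ZMod N)‖ ≤ N := by
  have h1 : ∑ v ∈ (Icc 1 X).filter (fun v => D ∣ v), χ (v : ZMod N) =
      χ (D : ZMod N) * ∑ v ∈ Icc 1 (X / D), χ (v : ZMod N) := by
    rw [Finset.mul_sum]
    refine Finset.sum_nbij' (fun v => v / D) (fun v => D * v) ?_ ?_ ?_ ?_ ?_
    · intro v hv
      rw [Finset.mem_filter, Finset.mem_Icc] at hv
      rw [Finset.mem_Icc]
      obtain ⟨⟨h1, h2⟩, k, rfl⟩ := hv
      rw [Nat.mul_div_cancel_left _ (by omega)]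
      constructor
      · by_contra h
        have : k = 0 := by omega
        rw [this] at h1
        omega
      · rw [Nat.le_div_iff_mul_le (by omega)]
        rw [mul_comm]; exact h2
    · intro v hv
      rw [Finset.mem_Icc] at hv
      rw [Finset.mem_filter, Finset.mem_Icc]
      refine ⟨⟨?_, ?_⟩, dvd_mul_right _ _⟩
      · exact Nat.mul_pos (by omega) (by omega)
      · have := (Nat.le_div_iff_mul_le (by omega : 0 < D)).mp hv.2
        rw [mul_comm]; exact this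
    · intro v hv
      rw [Finset.mem_filter] at hv
      exact Nat.mul_div_cancel' hv.2
    · intro v _
      exact Nat.mul_div_cancel_left _ (by omega)
    · intro v hv
      rw [Finset.mem_filter] at hv
      rw [← map_mul]
      congr 1
      rw [← Nat.cast_mul, Nat.mul_div_cancel' hv.2]
  rw [h1, norm_mul]
  calc ‖χ (D : ZMod N)‖ * ‖∑ v ∈ Icc 1 (X / D), χ (v : ZMod N)‖ ≤ 1 * N :=
        mul_le_mul (norm_char_le χ _) (sum_Icc_le hχ _) (norm_nonneg _) zero_le_one
    _ = N := one_mul _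

/-- the product of a primitive character and the conjugate of another one -/
theorem exists_prod {q q' : ℕ} [NeZero q] [NeZero q'] {ψ : DirichletCharacter ℂ q}
    {ψ' : DirichletCharacter ℂ q'} (h : ψ.IsPrimitive) (h' : ψ'.IsPrimitive)
    (hne : ∀ e : q = q', e ▸ ψ ≠ ψ') :
    ∃ χ : DirichletCharacter ℂ (q * q'), χ ≠ 1 ∧ ∀ u : ℕ,
      ψ (u : ZMod q) * (starRingEnd ℂ) (ψ' (u : ZMod q')) = χ (u : ZMod (q * q')) := by
  have : NeZero (q * q') := ⟨Nat.mul_ne_zero (NeZero.ne q) (NeZero.ne q')⟩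
  set A := DirichletCharacter.changeLevel (Nat.dvd_mul_right q q') ψ with hA
  set B := DirichletCharacter.changeLevel (Nat.dvd_mul_left q' q) ψ' with hB
  refine ⟨A * B⁻¹, ?_, ?_⟩
  · intro h1
    have h2 : A = B := mul_inv_eq_one.mp h1
    have c1 : A.conductor = q := by
      rw [hA, DirichletCharacter.conductor_changeLevel]; exact h
    have c2 : B.conductor = q' := by
      rw [hB, DirichletCharacter.conductor_changeLevel]; exact h'
    have e : q = q' := c1.symm.trans ((congrArg DirichletCharacter.conductor h2).trans c2)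
    subst e
    apply hne rfl
    exact DirichletCharacter.changeLevel_injective (Nat.dvd_mul_right q q) h2
  · intro u
    by_cases hu : Nat.Coprime u (q * q')
    · have hq : Nat.Coprime u q := Nat.Coprime.coprime_mul_right_right hu
      have hq' : Nat.Coprime u q' := Nat.Coprime.coprime_mul_left_right hu
      have e1 : A (u : ZMod (q * q')) = ψ (u : ZMod q) := by
        have := DirichletCharacter.changeLevel_eq_cast_of_dvd' ψ (Nat.dvd_mul_right q q')
          (a := (u : ℤ)) (by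
            rw [Nat.isCoprime_iff_coprime]; exact hu)
        simpa using this
      have e2 : B (u : ZMod (q * q')) = ψ' (u : ZMod q') := by
        have := DirichletCharacter.changeLevel_eq_cast_of_dvd' ψ' (Nat.dvd_mul_left q' q)
          (a := (u : ℤ)) (by
            rw [Nat.isCoprime_iff_coprime]; exact hu)
        simpa using this
      have hunit : IsUnit (u : ZMod (q * q')) := (ZMod.isUnit_iff_coprime u _).mpr hu
      have e3 : B⁻¹ (u : ZMod (q * q')) = (starRingEnd ℂ) (ψ' (u : ZMod q')) := by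
        have h3 : B (u : ZMod (q * q')) * B⁻¹ (u : ZMod (q * q')) = 1 := by
          rw [← MulChar.mul_apply, mul_inv_cancel, MulChar.one_apply hunit]
        have h4 : ψ' (u : ZMod q') * (starRingEnd ℂ) (ψ' (u : ZMod q')) = 1 := by
          obtain ⟨w, hw⟩ := (ZMod.isUnit_iff_coprime u _).mpr hq'
          rw [Complex.mul_conj', ← hw, ψ'.unit_norm_eq_one]
          norm_num
        rw [e2] at h3
        have h5 : ψ' (u : ZMod q') ≠ 0 := by
          intro h0
          rw [h0, zero_mul] at h4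
          exact zero_ne_one h4
        exact mul_left_cancel₀ h5 (h3.trans h4.symm)
      rw [MulChar.mul_apply, e1, e3]
    · rw [MulChar.map_nonunit _ (fun h3 => hu ((ZMod.isUnit_iff_coprime u _).mp h3))]
      by_cases hq : Nat.Coprime u q
      · have hq' : ¬ Nat.Coprime u q' := fun h3 => hu (Nat.Coprime.mul_right hq h3)
        rw [MulChar.map_nonunit ψ' (fun h3 => hq' ((ZMod.isUnit_iff_coprime u _).mp h3))]
        simp
      · rw [MulChar.map_nonunit ψ (fun h3 => hq ((ZMod.isUnit_iff_coprime u _).mp h3))]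
        simp

/-- the index type of the characters -/
abbrev I : Type := (r : ℕ) × DirichletCharacter ℂ (r + 1)

/-- evaluation -/
noncomputable def ev (x : I) (u : ℕ) : ℂ := x.2 (u : ZMod (x.1 + 1))

/-- the primitive characters of modulus at most `R` -/
noncomputable def PR (R : ℕ) : Finset I :=
  (range R).sigma (fun r => (univ : Finset (DirichletCharacter ℂ (r + 1))).filter
    (fun ψ => ψ.IsPrimitive))

theorem norm_ev_le (x : I) (u : ℕ) : ‖ev x u‖ ≤ 1 := norm_char_le _ _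

theorem csum_eq (R X : ℕ) (b : ℕ → ℝ) :
    ∑ r ∈ range R, csum r b X = ∑ x ∈ PR R, ‖∑ u ∈ Icc 1 X, (b u : ℂ) * ev x u‖ ^ 2 := by
  unfold PR csum ev
  rw [Finset.sum_sigma]

theorem card_PR (R : ℕ) : (PR R).card ≤ R * R := by
  unfold PR
  rw [Finset.card_sigma]
  calc ∑ r ∈ range R, ((univ : Finset (DirichletCharacter ℂ (r + 1))).filter
      (fun ψ => ψ.IsPrimitive)).card ≤ ∑ r ∈ range R, R := by
        apply Finset.sum_le_sum
        intro r hr
        rw [Finset.mem_range] at hr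
        have h1 : Fintype.card (DirichletCharacter ℂ (r + 1)) = (r + 1).totient := by
          rw [← Nat.card_eq_fintype_card]
          exact DirichletCharacter.card_eq_totient_of_hasEnoughRootsOfUnity ℂ (r + 1)
        calc _ ≤ (univ : Finset (DirichletCharacter ℂ (r + 1))).card := Finset.card_filter_le _ _
          _ = (r + 1).totient := by rw [Finset.card_univ, h1]
          _ ≤ r + 1 := Nat.totient_le _
          _ ≤ R := hr
    _ = R * R := by simp

theorem ev_prod {R : ℕ} {x x' : I} (hx : x ∈ PR R) (hx' : x' ∈ PR R) (hne : x ≠ x') (X D : ℕ)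
    (hD : 1 ≤ D) :
    ‖∑ u ∈ (Icc 1 X).filter (fun u => D ∣ u), ev x u * (starRingEnd ℂ) (ev x' u)‖ ≤
      (R : ℝ) ^ 2 := by
  unfold PR at hx hx'
  rw [Finset.mem_sigma, Finset.mem_range, Finset.mem_filter] at hx hx'
  obtain ⟨r, ψ⟩ := x
  obtain ⟨r', ψ'⟩ := x'
  simp only at hx hx'
  obtain ⟨χ, hχ, hχu⟩ := exists_prod (q := r + 1) (q' := r' + 1) hx.2.2 hx'.2.2 (by
    intro e h
    have e' : r = r' := by omega
    subst e'
    apply hne
    rw [← h])
  have : NeZero ((r + 1) * (r' + 1)) := ⟨by positivity⟩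
  have h1 : ∑ u ∈ (Icc 1 X).filter (fun u => D ∣ u), ev ⟨r, ψ⟩ u * (starRingEnd ℂ) (ev ⟨r', ψ'⟩ u) =
      ∑ u ∈ (Icc 1 X).filter (fun u => D ∣ u), χ (u : ZMod ((r + 1) * (r' + 1))) :=
    Finset.sum_congr rfl (fun u _ => hχu u)
  rw [h1]
  refine (sum_dvd_le hχ X D hD).trans ?_
  have a1 : r + 1 ≤ R := hx.1
  have a2 : r' + 1 ≤ R := hx'.1
  have : (r + 1) * (r' + 1) ≤ R ^ 2 := by
    rw [pow_two]; exact Nat.mul_le_mul a1 a2
  exact_mod_cast this

/-- the majorant expanded -/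
theorem Th_eq {lam : ℕ → ℝ} {y : ℝ} (hlam : ∀ d, lam d ≠ 0 → 1 ≤ d ∧ (d : ℝ) ≤ y) {u : ℕ}
    (hu : 1 ≤ u) : Th lam u = ∑ d ∈ Icc 1 ⌊y⌋₊, ∑ e ∈ Icc 1 ⌊y⌋₊,
      if Nat.lcm d e ∣ u then lam d * lam e else 0 := by
  have h1 : ∑ d ∈ u.divisors, lam d = ∑ d ∈ Icc 1 ⌊y⌋₊, if d ∣ u then lam d else 0 := by
    rw [← Finset.sum_filter]
    have h2 : ∑ d ∈ (Icc 1 ⌊y⌋₊).filter (fun d => d ∣ u), lam d = ∑ d ∈ u.divisors, lam d := by
      apply Finset.sum_subset
      · intro d hd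
        rw [Finset.mem_filter] at hd
        rw [Nat.mem_divisors]
        exact ⟨hd.2, by omega⟩
      · intro d hd hd2
        by_contra h0
        apply hd2
        obtain ⟨a1, a2⟩ := hlam d h0
        rw [Finset.mem_filter, Finset.mem_Icc]
        exact ⟨⟨a1, Nat.le_floor a2⟩, (Nat.mem_divisors.mp hd).1⟩
    exact h2.symm
  unfold Th
  rw [h1, pow_two, Finset.sum_mul_sum]
  apply Finset.sum_congr rfl
  intro d _
  apply Finset.sum_congr rfl
  intro e _
  by_cases hd : d ∣ u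
  · by_cases he : e ∣ u
    · rw [if_pos hd, if_pos he, if_pos (Nat.lcm_dvd hd he)]
    · rw [if_neg he, if_neg (fun h => he ((Nat.dvd_lcm_right d e).trans h)), mul_zero]
  · rw [if_neg hd, if_neg (fun h => hd ((Nat.dvd_lcm_left d e).trans h)), zero_mul]

theorem Th_rough {lam : ℕ → ℝ} {y z : ℝ} (h1 : lam 1 = 1)
    (hlam : ∀ d, lam d ≠ 0 → 1 ≤ d ∧ (d : ℝ) ≤ y) (hyz : y < z) {u : ℕ} (hu : 1 ≤ u)
    (hr : Rough z u) : Th lam u = 1 := by
  unfold Th
  have : ∑ d ∈ u.divisors, lam d = lam 1 := by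
    apply Finset.sum_eq_single
    · intro d hd hd1
      by_contra h0
      obtain ⟨a1, a2⟩ := hlam d h0
      obtain ⟨p, hp, hpd⟩ := Nat.exists_prime_and_dvd hd1
      have a3 := hr p hp (hpd.trans (Nat.mem_divisors.mp hd).1)
      have a4 : (p : ℝ) ≤ d := by exact_mod_cast Nat.le_of_dvd (by omega) hpd
      linarith
    · intro h
      exfalso
      apply h
      rw [Nat.mem_divisors]
      exact ⟨one_dvd _, by omega⟩
  rw [this, h1]
  norm_num

end LR

open LR in
theorem specLR (hSelb : SpecSELB) : SpecLR := by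
  obtain ⟨C, hC, hS⟩ := hSelb
  refine ⟨C + 3, by positivity, ?_⟩
  intro R X y z b hR hX hy hyz hb
  obtain ⟨lam, hl1, hlb, hls, hQ0, hQ⟩ := hS y 1 hy le_rfl
  have hls' : ∀ d, lam d ≠ 0 → 1 ≤ d ∧ (d : ℝ) ≤ y := fun d hd => ⟨(hls d hd).1, (hls d hd).2.1⟩
  have hlog : 0 < Real.log y := Real.log_pos (by linarith)
  have hQ' : QF y lam ≤ C / Real.log y := by
    refine hQ.trans (le_of_eq ?_)
    simp
  rw [csum_eq]
  set s := PR R with hs
  set Y := ⌊y⌋₊ with hY
  have hYy : (Y : ℝ) ≤ y := Nat.floor_le (by linarith)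
  set T : I → ℂ := fun x => ∑ u ∈ Icc 1 X, (b u : ℂ) * ev x u with hT
  have hRR : (1 : ℝ) ≤ R := by exact_mod_cast hR
  -- the kernel
  set K : I → I → ℂ := fun x x' =>
    ∑ u ∈ Icc 1 X, (Th lam u : ℂ) * (ev x u * (starRingEnd ℂ) (ev x' u)) with hK
  have hexp : ∀ x x' : I, K x x' = ∑ d ∈ Icc 1 Y, ∑ e ∈ Icc 1 Y, ((lam d * lam e : ℝ) : ℂ) *
      ∑ u ∈ (Icc 1 X).filter (fun u => Nat.lcm d e ∣ u),
        ev x u * (starRingEnd ℂ) (ev x' u) := by
    intro x x'
    simp only [hK]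
    have h1 : ∀ u ∈ Icc 1 X, (Th lam u : ℂ) * (ev x u * (starRingEnd ℂ) (ev x' u)) =
        ∑ d ∈ Icc 1 Y, ∑ e ∈ Icc 1 Y, (if Nat.lcm d e ∣ u then
          ((lam d * lam e : ℝ) : ℂ) * (ev x u * (starRingEnd ℂ) (ev x' u)) else 0) := by
      intro u hu
      rw [Th_eq hls' (Finset.mem_Icc.mp hu).1, Complex.ofReal_sum, Finset.sum_mul]
      apply Finset.sum_congr rfl
      intro d _
      rw [Complex.ofReal_sum, Finset.sum_mul]
      apply Finset.sum_congr rfl
      intro e _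
      split_ifs
      · rfl
      · rw [Complex.ofReal_zero, zero_mul]
    rw [Finset.sum_congr rfl h1, Finset.sum_comm]
    apply Finset.sum_congr rfl
    intro d _
    rw [Finset.sum_comm]
    apply Finset.sum_congr rfl
    intro e _
    rw [← Finset.sum_filter, Finset.mul_sum]
  have hoff : ∀ x ∈ s, ∀ x' ∈ s, x ≠ x' → ‖K x x'‖ ≤ y ^ 2 * (R : ℝ) ^ 2 := by
    intro x hx x' hx' hne
    rw [hexp]
    refine (norm_sum_le _ _).trans ?_
    have h1 : ∀ d ∈ Icc 1 Y, ‖∑ e ∈ Icc 1 Y, ((lam d * lam e : ℝ) : ℂ) *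
        ∑ u ∈ (Icc 1 X).filter (fun u => Nat.lcm d e ∣ u),
        ev x u * (starRingEnd ℂ) (ev x' u)‖ ≤ Y * (R : ℝ) ^ 2 := by
      intro d hd
      rw [Finset.mem_Icc] at hd
      refine (norm_sum_le _ _).trans ?_
      have h2 : ∀ e ∈ Icc 1 Y, ‖((lam d * lam e : ℝ) : ℂ) *
          ∑ u ∈ (Icc 1 X).filter (fun u => Nat.lcm d e ∣ u),
          ev x u * (starRingEnd ℂ) (ev x' u)‖ ≤ (R : ℝ) ^ 2 := by
        intro e he
        rw [Finset.mem_Icc] at he
        rw [norm_mul, Complex.norm_real, Real.norm_eq_abs, abs_mul]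
        have a1 := ev_prod hx hx' hne X (Nat.lcm d e)
          (Nat.pos_of_ne_zero (Nat.lcm_ne_zero (by omega) (by omega)))
        have a2 : |lam d| * |lam e| ≤ 1 := by
          calc |lam d| * |lam e| ≤ 1 * 1 :=
                mul_le_mul (hlb d) (hlb e) (abs_nonneg _) zero_le_one
            _ = 1 := one_mul _
        calc |lam d| * |lam e| * _ ≤ 1 * (R : ℝ) ^ 2 :=
              mul_le_mul a2 a1 (norm_nonneg _) zero_le_one
          _ = (R : ℝ) ^ 2 := one_mul _
      refine (Finset.sum_le_sum h2).trans ?_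
      rw [Finset.sum_const, Nat.card_Icc, nsmul_eq_mul]
      simp
    refine (Finset.sum_le_sum h1).trans ?_
    rw [Finset.sum_const, Nat.card_Icc, nsmul_eq_mul]
    have : ((Y + 1 - 1 : ℕ) : ℝ) = Y := by simp
    rw [this, ← mul_assoc]
    apply mul_le_mul_of_nonneg_right _ (by positivity)
    have : (0 : ℝ) ≤ Y := by positivity
    nlinarith
  have hdiag : ∀ x ∈ s, ‖K x x‖ ≤ C * X / Real.log y + y ^ 2 := by
    intro x _
    have h1 : ‖K x x‖ ≤ ∑ u ∈ Icc 1 X, Th lam u := by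
      refine (norm_sum_le _ _).trans (Finset.sum_le_sum (fun u _ => ?_))
      have h0 : 0 ≤ Th lam u := by unfold Th; positivity
      rw [norm_mul, Complex.norm_real, Real.norm_eq_abs, abs_of_nonneg h0]
      have h2 : ‖ev x u * (starRingEnd ℂ) (ev x u)‖ ≤ 1 := by
        rw [norm_mul, Complex.norm_conj]
        have := norm_ev_le x u
        have := norm_nonneg (ev x u)
        nlinarith
      nlinarith
    refine h1.trans ?_
    have h2 : ∑ u ∈ Icc 1 X, Th lam u = ∑ d ∈ Icc 1 Y, ∑ e ∈ Icc 1 Y, lam d * lam e *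
        (((Icc 1 X).filter (fun u => Nat.lcm d e ∣ u)).card : ℝ) := by
      rw [Finset.sum_congr rfl (fun u hu => Th_eq hls' (Finset.mem_Icc.mp hu).1), Finset.sum_comm]
      apply Finset.sum_congr rfl
      intro d _
      rw [Finset.sum_comm]
      apply Finset.sum_congr rfl
      intro e _
      rw [← Finset.sum_filter, Finset.sum_const, nsmul_eq_mul, mul_comm]
    have h3 : ∀ d ∈ Icc 1 Y, ∀ e ∈ Icc 1 Y, lam d * lam e *
        (((Icc 1 X).filter (fun u => Nat.lcm d e ∣ u)).card : ℝ) ≤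
        X * (lam d * lam e / (Nat.lcm d e : ℝ)) + 1 := by
      intro d hd e he
      rw [Finset.mem_Icc] at hd he
      set D := Nat.lcm d e with hD
      have hD0 : 0 < D := Nat.pos_of_ne_zero (Nat.lcm_ne_zero (by omega) (by omega))
      have hcard : ((Icc 1 X).filter (fun u => D ∣ u)).card = X / D := by
        have := Nat.Ioc_filter_dvd_card_eq_div X D
        rw [← this]
        congr 1
      rw [hcard]
      have hDR : (0 : ℝ) < D := by exact_mod_cast hD0
      have a1 : ((X / D : ℕ) : ℝ) ≤ X / D := Nat.cast_div_le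
      have a2 : (X : ℝ) / D - 1 ≤ ((X / D : ℕ) : ℝ) := by
        have := Nat.lt_floor_add_one ((X : ℝ) / D)
        rw [Nat.floor_div_eq_div] at this
        linarith
      have a3 : |lam d * lam e| ≤ 1 := by
        rw [abs_mul]
        calc |lam d| * |lam e| ≤ 1 * 1 :=
              mul_le_mul (hlb d) (hlb e) (abs_nonneg _) zero_le_one
          _ = 1 := one_mul _
      have a4 : lam d * lam e * ((X / D : ℕ) : ℝ) - lam d * lam e * ((X : ℝ) / D) ≤ 1 := by
        have e1 : lam d * lam e * ((X / D : ℕ) : ℝ) - lam d * lam e * ((X : ℝ) / D) =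
            (lam d * lam e) * (((X / D : ℕ) : ℝ) - (X : ℝ) / D) := by ring
        rw [e1]
        refine (le_abs_self _).trans ?_
        rw [abs_mul]
        have a5 : |((X / D : ℕ) : ℝ) - (X : ℝ) / D| ≤ 1 := by
          rw [abs_le]; constructor <;> linarith
        calc |lam d * lam e| * |((X / D : ℕ) : ℝ) - (X : ℝ) / D| ≤ 1 * 1 :=
              mul_le_mul a3 a5 (abs_nonneg _) zero_le_one
          _ = 1 := one_mul _
      have e2 : (X : ℝ) * (lam d * lam e / (D : ℝ)) = lam d * lam e * ((X : ℝ) / D) := by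
        ring
      rw [e2]
      linarith
    rw [h2]
    have h4 : ∑ d ∈ Icc 1 Y, ∑ e ∈ Icc 1 Y, lam d * lam e *
        (((Icc 1 X).filter (fun u => Nat.lcm d e ∣ u)).card : ℝ) ≤
        ∑ d ∈ Icc 1 Y, ∑ e ∈ Icc 1 Y, (X * (lam d * lam e / (Nat.lcm d e : ℝ)) + 1) :=
      Finset.sum_le_sum (fun d hd => Finset.sum_le_sum (fun e he => h3 d hd e he))
    refine h4.trans ?_
    have h5 : ∑ d ∈ Icc 1 Y, ∑ e ∈ Icc 1 Y, ((X : ℝ) * (lam d * lam e / (Nat.lcm d e : ℝ)) + 1) =
        X * QF y lam + (Y : ℝ) ^ 2 := by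
      unfold QF
      simp only [Finset.sum_add_distrib, Finset.sum_const, Nat.card_Icc, Finset.mul_sum]
      simp
      ring
    rw [h5]
    have h6 : (X : ℝ) * QF y lam ≤ X * (C / Real.log y) :=
      mul_le_mul_of_nonneg_left hQ' (by positivity)
    have h7 : (Y : ℝ) ^ 2 ≤ y ^ 2 := pow_le_pow_left₀ (by positivity) hYy 2
    have h8 : (X : ℝ) * (C / Real.log y) = C * X / Real.log y := by ring
    linarith
  -- the dual inequality
  set Δ : ℝ := (C * X / Real.log y + y ^ 2) + y ^ 2 * (R : ℝ) ^ 2 * (R : ℝ) ^ 2 with hΔ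
  have hΔ0 : 0 ≤ Δ := by
    have : 0 ≤ C * X / Real.log y := by positivity
    positivity
  have hdual : ∀ γ : I → ℂ, ∑ u ∈ Icc 1 X, Th lam u * ‖∑ x ∈ s, γ x * ev x u‖ ^ 2 ≤
      Δ * ∑ x ∈ s, ‖γ x‖ ^ 2 := by
    intro γ
    have h1 : ((∑ u ∈ Icc 1 X, Th lam u * ‖∑ x ∈ s, γ x * ev x u‖ ^ 2 : ℝ) : ℂ) =
        ∑ x ∈ s, ∑ x' ∈ s, γ x * (starRingEnd ℂ) (γ x') * K x x' := by
      push_cast
      have h2 : ∀ u ∈ Icc 1 X, (Th lam u : ℂ) * ((‖∑ x ∈ s, γ x * ev x u‖ : ℂ)) ^ 2 =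
          ∑ x ∈ s, ∑ x' ∈ s, γ x * (starRingEnd ℂ) (γ x') *
            ((Th lam u : ℂ) * (ev x u * (starRingEnd ℂ) (ev x' u))) := by
        intro u _
        rw [← Complex.mul_conj', map_sum, Finset.sum_mul_sum, Finset.mul_sum]
        apply Finset.sum_congr rfl
        intro x _
        rw [Finset.mul_sum]
        apply Finset.sum_congr rfl
        intro x' _
        rw [map_mul]
        ring
      rw [Finset.sum_congr rfl h2, Finset.sum_comm]
      apply Finset.sum_congr rfl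
      intro x _
      rw [Finset.sum_comm]
      apply Finset.sum_congr rfl
      intro x' _
      simp only [hK]
      rw [Finset.mul_sum]
    have h3 : ∑ u ∈ Icc 1 X, Th lam u * ‖∑ x ∈ s, γ x * ev x u‖ ^ 2 ≤
        ∑ x ∈ s, ∑ x' ∈ s, ‖γ x‖ * ‖γ x'‖ * ‖K x x'‖ := by
      have h4 : 0 ≤ ∑ u ∈ Icc 1 X, Th lam u * ‖∑ x ∈ s, γ x * ev x u‖ ^ 2 :=
        Finset.sum_nonneg (fun u _ => mul_nonneg (by unfold Th; positivity) (by positivity))
      have h5 : ∑ u ∈ Icc 1 X, Th lam u * ‖∑ x ∈ s, γ x * ev x u‖ ^ 2 =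
          ‖((∑ u ∈ Icc 1 X, Th lam u * ‖∑ x ∈ s, γ x * ev x u‖ ^ 2 : ℝ) : ℂ)‖ := by
        rw [Complex.norm_real, Real.norm_eq_abs, abs_of_nonneg h4]
      rw [h5, h1]
      refine (norm_sum_le _ _).trans (Finset.sum_le_sum (fun x _ => ?_))
      refine (norm_sum_le _ _).trans (Finset.sum_le_sum (fun x' _ => ?_))
      rw [norm_mul, norm_mul, Complex.norm_conj]
    refine h3.trans ?_
    have h6 : ∀ x ∈ s, ∑ x' ∈ s, ‖γ x‖ * ‖γ x'‖ * ‖K x x'‖ ≤
        ‖γ x‖ ^ 2 * (C * X / Real.log y + y ^ 2) +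
          ‖γ x‖ * (y ^ 2 * (R : ℝ) ^ 2) * ∑ x' ∈ s, ‖γ x'‖ := by
      intro x hx
      rw [← Finset.add_sum_erase s _ hx]
      have a1 : ‖γ x‖ * ‖γ x‖ * ‖K x x‖ ≤ ‖γ x‖ ^ 2 * (C * X / Real.log y + y ^ 2) := by
        rw [← pow_two]
        exact mul_le_mul_of_nonneg_left (hdiag x hx) (by positivity)
      have a2 : ∑ x' ∈ s.erase x, ‖γ x‖ * ‖γ x'‖ * ‖K x x'‖ ≤
          ∑ x' ∈ s, ‖γ x‖ * (y ^ 2 * (R : ℝ) ^ 2) * ‖γ x'‖ := by
        calc ∑ x' ∈ s.erase x, ‖γ x‖ * ‖γ x'‖ * ‖K x x'‖ ≤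
              ∑ x' ∈ s.erase x, ‖γ x‖ * (y ^ 2 * (R : ℝ) ^ 2) * ‖γ x'‖ := by
                apply Finset.sum_le_sum
                intro x' hx'
                have b1 := hoff x hx x' (Finset.mem_of_mem_erase hx')
                  (Finset.ne_of_mem_erase hx').symm
                have b2 : 0 ≤ ‖γ x‖ * ‖γ x'‖ := by positivity
                calc ‖γ x‖ * ‖γ x'‖ * ‖K x x'‖ ≤ ‖γ x‖ * ‖γ x'‖ * (y ^ 2 * (R : ℝ) ^ 2) :=
                      mul_le_mul_of_nonneg_left b1 b2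
                  _ = _ := by ring
          _ ≤ _ := Finset.sum_le_sum_of_subset_of_nonneg (Finset.erase_subset _ _)
              (fun _ _ _ => by positivity)
      rw [← Finset.mul_sum] at a2
      linarith
    refine (Finset.sum_le_sum h6).trans ?_
    rw [Finset.sum_add_distrib, ← Finset.sum_mul]
    have h7 : ∑ x ∈ s, ‖γ x‖ * (y ^ 2 * (R : ℝ) ^ 2) * ∑ x' ∈ s, ‖γ x'‖ =
        (y ^ 2 * (R : ℝ) ^ 2) * (∑ x ∈ s, ‖γ x‖) ^ 2 := by
      rw [← Finset.sum_mul, ← Finset.sum_mul]; ring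
    rw [h7]
    have h8 : (∑ x ∈ s, ‖γ x‖) ^ 2 ≤ (R : ℝ) ^ 2 * ∑ x ∈ s, ‖γ x‖ ^ 2 := by
      refine (sq_sum_le_card_mul_sum_sq).trans ?_
      apply mul_le_mul_of_nonneg_right _ (Finset.sum_nonneg (fun _ _ => by positivity))
      have := card_PR R
      rw [← hs] at this
      rw [pow_two]
      exact_mod_cast this
    have h9 : 0 ≤ y ^ 2 * (R : ℝ) ^ 2 := by positivity
    have h10 := mul_le_mul_of_nonneg_left h8 h9
    rw [hΔ, add_mul]
    linarith
  -- duality
  set Sb : ℝ := ∑ u ∈ Icc 1 X, (b u) ^ 2 with hSb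
  have hSb0 : 0 ≤ Sb := Finset.sum_nonneg (fun _ _ => sq_nonneg _)
  set ST : ℝ := ∑ x ∈ s, ‖T x‖ ^ 2 with hST
  have hST0 : 0 ≤ ST := Finset.sum_nonneg (fun _ _ => by positivity)
  have hprimal : ST ≤ Δ * Sb := by
    set γ : I → ℂ := fun x => (starRingEnd ℂ) (T x) with hγ
    have h1 := hdual γ
    have h2 : ∑ x ∈ s, ‖γ x‖ ^ 2 = ST := by
      rw [hST]
      apply Finset.sum_congr rfl
      intro x _
      rw [hγ, Complex.norm_conj]
    rw [h2] at h1
    have h3 : ((ST : ℝ) : ℂ) = ∑ u ∈ Icc 1 X, (b u : ℂ) * ∑ x ∈ s, γ x * ev x u := by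
      rw [hST]
      push_cast
      have h4 : ∀ x ∈ s, ((‖T x‖ : ℂ)) ^ 2 = ∑ u ∈ Icc 1 X, (b u : ℂ) * (γ x * ev x u) := by
        intro x _
        rw [← Complex.mul_conj']
        simp only [hγ]
        rw [mul_comm]
        nth_rewrite 2 [hT]
        simp only
        rw [Finset.mul_sum]
        apply Finset.sum_congr rfl
        intro u _
        ring
      rw [Finset.sum_congr rfl h4, Finset.sum_comm]
      apply Finset.sum_congr rfl
      intro u _
      rw [Finset.mul_sum]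
    have h5 : ST ≤ ∑ u ∈ Icc 1 X, |b u| * ‖∑ x ∈ s, γ x * ev x u‖ := by
      have h6 : ST = ‖((ST : ℝ) : ℂ)‖ := by
        rw [Complex.norm_real, Real.norm_eq_abs, abs_of_nonneg hST0]
      rw [h6, h3]
      refine (norm_sum_le _ _).trans (Finset.sum_le_sum (fun u _ => ?_))
      rw [norm_mul, Complex.norm_real, Real.norm_eq_abs]
    have h7 : ST ^ 2 ≤ Sb * (Δ * ST) := by
      have h8 : (∑ u ∈ Icc 1 X, |b u| * ‖∑ x ∈ s, γ x * ev x u‖) ^ 2 ≤
          Sb * ∑ u ∈ Icc 1 X, Th lam u * ‖∑ x ∈ s, γ x * ev x u‖ ^ 2 := by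
        have h9 : ∑ u ∈ Icc 1 X, |b u| * ‖∑ x ∈ s, γ x * ev x u‖ =
            ∑ u ∈ Icc 1 X, |b u| * (Real.sqrt (Th lam u) * ‖∑ x ∈ s, γ x * ev x u‖) := by
          apply Finset.sum_congr rfl
          intro u hu
          by_cases hbu : b u = 0
          · rw [hbu]; simp
          · rw [Th_rough hl1 hls' hyz (Finset.mem_Icc.mp hu).1 (hb u hbu)]
            simp
        rw [h9]
        refine (Finset.sum_mul_sq_le_sq_mul_sq _ _ _).trans (le_of_eq ?_)
        congr 1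
        · rw [hSb]
          apply Finset.sum_congr rfl
          intro u _
          rw [sq_abs]
        · apply Finset.sum_congr rfl
          intro u _
          rw [mul_pow, Real.sq_sqrt (by unfold Th; positivity)]
      calc ST ^ 2 ≤ (∑ u ∈ Icc 1 X, |b u| * ‖∑ x ∈ s, γ x * ev x u‖) ^ 2 :=
            pow_le_pow_left₀ hST0 h5 2
        _ ≤ _ := h8
        _ ≤ Sb * (Δ * ST) := mul_le_mul_of_nonneg_left h1 hSb0
    rcases hST0.eq_or_lt with h | h
    · rw [← h]; positivity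
    · have h8 : ST * ST ≤ (Δ * Sb) * ST := by nlinarith
      exact le_of_mul_le_mul_right h8 h
  refine hprimal.trans ?_
  apply mul_le_mul_of_nonneg_right _ hSb0
  rw [hΔ]
  have g1 : (1 : ℝ) ≤ (R : ℝ) ^ 4 := one_le_pow₀ hRR
  have g2 : 0 ≤ y ^ 2 := by positivity
  have g3 : y ^ 2 ≤ (R : ℝ) ^ 4 * y ^ 2 := by nlinarith
  have g4 : 0 ≤ (X : ℝ) / Real.log y := by positivity
  have g5 : C * X / Real.log y = C * (X / Real.log y) := by ring
  have g6 : 0 ≤ (R : ℝ) ^ 4 * y ^ 2 := by positivity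
  rw [g5]
  have g7 : y ^ 2 * (R : ℝ) ^ 2 * (R : ℝ) ^ 2 = (R : ℝ) ^ 4 * y ^ 2 := by ring
  rw [g7]
  nlinarith

end Pool.Agent.Lib.MP391708.QPA
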