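import Pool.Agent.Lib.MP_391708_nt.QPA.Spec

/-!
# The quadratic large sieve on average over `a` (large moduli, duality)
-/

set_option autoImplicit false

namespace Pool.Agent.Lib.MP391708.QPA

open Finset
open scoped NumberTheorySymbols

namespace LRG

/-- for `a ≠ 0` the number of `b`, `|b| ≤ A`, such that `a b` is a nonzero square is `≤ √A` -/
lemma card_sq {A : ℕ} {a : ℤ} (ha : a ≠ 0) :
    (((IA A).filter (fun b => a * b ≠ 0 ∧ IsSquare (a * b))).card : ℝ) ≤ √(A : ℝ) := by
  obtain ⟨t, s, hst, ht⟩ := Nat.sq_mul_squarefree a.natAbs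
  have ha0 : 0 < a.natAbs := Int.natAbs_pos.mpr ha
  have ht0 : 0 < t := Nat.pos_of_ne_zero ht.ne_zero
  have hs0 : 0 < s := by
    rcases Nat.eq_zero_or_pos s with h | h
    · exfalso
      subst h
      simp at hst
      omega
    · exact h
  -- every such `b` is `sign a * t * v ^ 2`
  have key : ∀ b : ℤ, a * b ≠ 0 → IsSquare (a * b) → ∃ v : ℕ, 0 < v ∧ b = a.sign * (t * v ^ 2) := by
    intro b hb0 hb
    obtain ⟨r, hr⟩ := hb
    have hr0 : r ≠ 0 := by
      rintro rfl
      exact hb0 (by simpa using hr)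
    have hpos : 0 < a * b := by
      rw [hr]
      exact mul_self_pos.mpr hr0
    have hb1 : b ≠ 0 := right_ne_zero_of_mul hb0
    have hnat : s ^ 2 * t * b.natAbs = r.natAbs ^ 2 := by
      rw [hst, ← Int.natAbs_mul, hr, Int.natAbs_mul, sq]
    have h1 : s ∣ r.natAbs := by
      have : s ^ 2 ∣ r.natAbs ^ 2 := ⟨t * b.natAbs, by rw [← hnat]; ring⟩
      exact (Nat.pow_dvd_pow_iff (by norm_num)).mp this
    obtain ⟨u, hu⟩ := h1
    have h2 : t * b.natAbs = u ^ 2 := by
      have h3 : s ^ 2 * (t * b.natAbs) = s ^ 2 * u ^ 2 := by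
        rw [← mul_assoc, hnat, hu]
        ring
      exact Nat.eq_of_mul_eq_mul_left (by positivity) h3
    have h3 : t ∣ u := by
      have : t ∣ u ^ 2 := ⟨b.natAbs, h2.symm⟩
      exact (ht.dvd_pow_iff_dvd (by norm_num)).mp this
    obtain ⟨v, hv⟩ := h3
    have h4 : b.natAbs = t * v ^ 2 := by
      have h5 : t * b.natAbs = t * (t * v ^ 2) := by
        rw [h2, hv]
        ring
      exact Nat.eq_of_mul_eq_mul_left ht0 h5
    refine ⟨v, ?_, ?_⟩
    · rcases Nat.eq_zero_or_pos v with h | h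
      · exfalso
        subst h
        simp at h4
        exact hb1 h4
      · exact h
    · have h5 : b = b.sign * b.natAbs := (Int.sign_mul_natAbs b).symm
      have h6 : b.sign = a.sign := by
        rcases lt_trichotomy a 0 with h | h | h
        · have : b < 0 := by
            by_contra hh
            push Not at hh
            have := mul_nonpos_of_nonpos_of_nonneg h.le hh
            omega
          rw [Int.sign_eq_neg_one_of_neg h, Int.sign_eq_neg_one_of_neg this]
        · exact absurd h ha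
        · have : 0 < b := by
            by_contra hh
            push Not at hh
            have := mul_nonpos_of_nonneg_of_nonpos h.le hh
            omega
          rw [Int.sign_eq_one_of_pos h, Int.sign_eq_one_of_pos this]
      rw [h5, h6, h4]
      push_cast
      rfl
  have hsub : ((IA A).filter (fun b => a * b ≠ 0 ∧ IsSquare (a * b)))
      ⊆ (Icc 1 (Nat.sqrt A)).image (fun v : ℕ => a.sign * ((t : ℤ) * (v : ℤ) ^ 2)) := by
    intro b hb
    rw [Finset.mem_filter] at hb
    obtain ⟨hbA, hb0, hbs⟩ := hb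
    obtain ⟨v, hv0, hv⟩ := key b hb0 hbs
    rw [Finset.mem_image]
    refine ⟨v, ?_, hv.symm⟩
    rw [Finset.mem_Icc]
    refine ⟨hv0, ?_⟩
    rw [Nat.le_sqrt]
    have h1 : b.natAbs ≤ A := by
      simp only [IA, Finset.mem_Icc] at hbA
      omega
    have h2 : b.natAbs = t * v ^ 2 := by
      rw [hv, Int.natAbs_mul, Int.natAbs_sign_of_ne_zero ha, one_mul, Int.natAbs_mul,
        Int.natAbs_natCast, Int.natAbs_pow, Int.natAbs_natCast]
    calc v * v ≤ t * v ^ 2 := by
          rw [← sq]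
          exact Nat.le_mul_of_pos_left _ ht0
      _ ≤ A := by rw [← h2]; exact h1
  have hcard : ((IA A).filter (fun b => a * b ≠ 0 ∧ IsSquare (a * b))).card ≤ Nat.sqrt A := by
    refine (Finset.card_le_card hsub).trans (Finset.card_image_le.trans ?_)
    simp
  calc (((IA A).filter (fun b => a * b ≠ 0 ∧ IsSquare (a * b))).card : ℝ)
      ≤ (Nat.sqrt A : ℝ) := by exact_mod_cast hcard
    _ ≤ √(A : ℝ) := Real.nat_sqrt_le_real_sqrt

lemma card_IA (A : ℕ) : (IA A).card = 2 * A + 1 := by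
  unfold IA
  rw [Int.card_Icc]
  omega

/-- duality: a bound for the kernel implies a bound for the quadratic form -/
lemma dual {ι κ : Type*} (S : Finset ι) (T : Finset κ) (x : ι → κ → ℝ) (c : κ → ℝ) (M : ℝ)
    (hM : 0 ≤ M)
    (h : ∀ a ∈ S, ∑ b ∈ S, |∑ k ∈ T, x a k * x b k| ≤ M) :
    ∑ a ∈ S, (∑ k ∈ T, c k * x a k) ^ 2 ≤ M * ∑ k ∈ T, (c k) ^ 2 := by
  set s : ι → ℝ := fun a => ∑ k ∈ T, c k * x a k with hs
  set Q : ℝ := ∑ a ∈ S, (s a) ^ 2 with hQ
  have hQ0 : 0 ≤ Q := Finset.sum_nonneg (fun a _ => sq_nonneg _)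
  have h1 : Q = ∑ k ∈ T, c k * ∑ a ∈ S, s a * x a k := by
    rw [hQ]
    have : ∀ a, (s a) ^ 2 = ∑ k ∈ T, c k * (s a * x a k) := by
      intro a
      rw [sq]
      nth_rewrite 2 [hs]
      rw [Finset.mul_sum]
      refine Finset.sum_congr rfl (fun k _ => by ring)
    rw [Finset.sum_congr rfl (fun a _ => this a), Finset.sum_comm]
    refine Finset.sum_congr rfl (fun k _ => ?_)
    rw [Finset.mul_sum]
  have h2 : Q ^ 2 ≤ (∑ k ∈ T, (c k) ^ 2) * ∑ k ∈ T, (∑ a ∈ S, s a * x a k) ^ 2 := by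
    rw [h1]
    exact Finset.sum_mul_sq_le_sq_mul_sq _ _ _
  have h3 : ∑ k ∈ T, (∑ a ∈ S, s a * x a k) ^ 2
      = ∑ a ∈ S, ∑ b ∈ S, s a * s b * ∑ k ∈ T, x a k * x b k := by
    have : ∀ k, (∑ a ∈ S, s a * x a k) ^ 2
        = ∑ a ∈ S, ∑ b ∈ S, s a * s b * (x a k * x b k) := by
      intro k
      rw [sq, Finset.sum_mul_sum]
      refine Finset.sum_congr rfl (fun a _ => Finset.sum_congr rfl (fun b _ => by ring))
    rw [Finset.sum_congr rfl (fun k _ => this k), Finset.sum_comm]
    refine Finset.sum_congr rfl (fun a _ => ?_)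
    rw [Finset.sum_comm]
    refine Finset.sum_congr rfl (fun b _ => ?_)
    exact (Finset.mul_sum _ _ _).symm
  have hsym : ∀ a b, |∑ k ∈ T, x a k * x b k| = |∑ k ∈ T, x b k * x a k| := by
    intro a b
    congr 1
    exact Finset.sum_congr rfl (fun k _ => mul_comm _ _)
  have h4 : ∑ k ∈ T, (∑ a ∈ S, s a * x a k) ^ 2 ≤ M * Q := by
    rw [h3]
    have h5 : ∀ a ∈ S, ∀ b ∈ S, s a * s b * ∑ k ∈ T, x a k * x b k
        ≤ (s a) ^ 2 / 2 * |∑ k ∈ T, x a k * x b k| + (s b) ^ 2 / 2 * |∑ k ∈ T, x b k * x a k| := by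
      intro a _ b _
      rw [hsym b a]
      have h6 : s a * s b * ∑ k ∈ T, x a k * x b k ≤ |s a * s b| * |∑ k ∈ T, x a k * x b k| := by
        rw [← abs_mul]
        exact le_abs_self _
      have h7 : |s a * s b| ≤ (s a) ^ 2 / 2 + (s b) ^ 2 / 2 := by
        rw [abs_le]
        constructor
        · nlinarith [sq_nonneg (s a + s b)]
        · nlinarith [sq_nonneg (s a - s b)]
      nlinarith [abs_nonneg (∑ k ∈ T, x a k * x b k)]
    refine (Finset.sum_le_sum (fun a ha => Finset.sum_le_sum (fun b hb => h5 a ha b hb))).trans ?_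
    simp only [Finset.sum_add_distrib]
    have h8 : ∑ a ∈ S, ∑ b ∈ S, (s b) ^ 2 / 2 * |∑ k ∈ T, x b k * x a k|
        = ∑ a ∈ S, ∑ b ∈ S, (s a) ^ 2 / 2 * |∑ k ∈ T, x a k * x b k| := Finset.sum_comm
    rw [h8]
    have h9 : ∑ a ∈ S, ∑ b ∈ S, (s a) ^ 2 / 2 * |∑ k ∈ T, x a k * x b k| ≤ M * Q / 2 := by
      rw [hQ, Finset.mul_sum, Finset.sum_div]
      refine Finset.sum_le_sum (fun a ha => ?_)
      rw [← Finset.mul_sum]
      have := mul_le_mul_of_nonneg_left (h a ha) (show 0 ≤ (s a) ^ 2 / 2 by positivity)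
      linarith
    linarith
  rcases hQ0.eq_or_lt with h5 | h5
  · rw [← h5]
    have : 0 ≤ ∑ k ∈ T, (c k) ^ 2 := Finset.sum_nonneg (fun k _ => sq_nonneg _)
    positivity
  · have h6 : 0 ≤ ∑ k ∈ T, (c k) ^ 2 := Finset.sum_nonneg (fun k _ => sq_nonneg _)
    have h7 : Q ^ 2 ≤ (∑ k ∈ T, (c k) ^ 2) * (M * Q) :=
      h2.trans (mul_le_mul_of_nonneg_left h4 h6)
    have h8 : Q * Q ≤ (M * ∑ k ∈ T, (c k) ^ 2) * Q := by nlinarith
    exact le_of_mul_le_mul_right h8 h5

end LRG

theorem specLRG (hP : SpecPVE) : SpecLRG := by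
  intro e he
  obtain ⟨C, hC, hPV⟩ := hP (e / 2) (by positivity)
  refine ⟨1 + 3 * C, by positivity, fun A E c hA hE hc => ?_⟩
  set K := Ioc E (2 * E) with hK
  have hA1 : (1 : ℝ) ≤ A := by exact_mod_cast hA
  have hA0 : (0 : ℝ) < A := by linarith
  have hE1 : (1 : ℝ) ≤ E := by exact_mod_cast hE
  set T := K.filter Odd with hT
  have h1 : ∀ a : ℤ, ∑ k ∈ K, c k * (jacobiSym (-a) k : ℝ)
      = ∑ k ∈ T, c k * (jacobiSym (-a) k : ℝ) := by
    intro a
    rw [hT, Finset.sum_filter]
    refine Finset.sum_congr rfl (fun k _ => ?_)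
    split_ifs with hk
    · rfl
    · have : c k = 0 := by
        by_contra h
        exact hk (hc k h)
      rw [this, zero_mul]
  have h2 : ∑ k ∈ T, (c k) ^ 2 = ∑ k ∈ K, (c k) ^ 2 := by
    rw [hT, Finset.sum_filter]
    refine Finset.sum_congr rfl (fun k _ => ?_)
    split_ifs with hk
    · rfl
    · have : c k = 0 := by
        by_contra h
        exact hk (hc k h)
      rw [this]
      norm_num
  rw [Finset.sum_congr rfl (fun a _ => by rw [h1 a] : ∀ a ∈ IA A,
    (∑ k ∈ K, c k * (jacobiSym (-a) k : ℝ)) ^ 2 = (∑ k ∈ T, c k * (jacobiSym (-a) k : ℝ)) ^ 2),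
    ← h2]
  set D : ℝ := C * (A : ℝ) ^ (1 + e) with hD
  have hD0 : 0 ≤ D := by positivity
  have hM : ∀ a ∈ IA A, ∑ b ∈ IA A, |∑ k ∈ T, (jacobiSym (-a) k : ℝ) * (jacobiSym (-b) k : ℝ)|
      ≤ E * √(A : ℝ) + (2 * A + 1) * D := by
    intro a ha
    have hker : ∀ b : ℤ, ∑ k ∈ T, (jacobiSym (-a) k : ℝ) * (jacobiSym (-b) k : ℝ)
        = ∑ k ∈ T, (jacobiSym (a * b) k : ℝ) := by
      intro b
      refine Finset.sum_congr rfl (fun k _ => ?_)
      rw [← Int.cast_mul, ← jacobiSym.mul_left]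
      congr 2
      ring
    have hzero : ∀ b : ℤ, a * b = 0 → ∑ k ∈ T, (jacobiSym (a * b) k : ℝ) = 0 := by
      intro b hb
      rw [hb]
      refine Finset.sum_eq_zero (fun k hk => ?_)
      have hk1 : 1 < k := by
        rw [hT, Finset.mem_filter, hK, Finset.mem_Ioc] at hk
        omega
      rw [jacobiSym.zero_left hk1]
      simp
    have hE' : ∀ b : ℤ, |∑ k ∈ T, (jacobiSym (a * b) k : ℝ)| ≤ E := by
      intro b
      refine (Finset.abs_sum_le_sum_abs _ _).trans ?_
      have h3 : ∀ k ∈ T, |(jacobiSym (a * b) k : ℝ)| ≤ 1 := by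
        intro k _
        rcases jacobiSym.trichotomy (a * b) k with h | h | h <;> rw [h] <;> norm_num
      refine (Finset.sum_le_sum h3).trans ?_
      rw [Finset.sum_const, nsmul_eq_mul, mul_one]
      have h4 : T.card ≤ E := by
        refine (Finset.card_filter_le _ _).trans ?_
        rw [hK, Nat.card_Ioc]
        omega
      exact_mod_cast h4
    by_cases ha0 : a = 0
    · have : ∀ b ∈ IA A, |∑ k ∈ T, (jacobiSym (-a) k : ℝ) * (jacobiSym (-b) k : ℝ)| = 0 := by
        intro b _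
        rw [hker b, hzero b (by rw [ha0, zero_mul]), abs_zero]
      rw [Finset.sum_eq_zero this]
      positivity
    · have h5 : ∀ b ∈ IA A, |∑ k ∈ T, (jacobiSym (-a) k : ℝ) * (jacobiSym (-b) k : ℝ)|
          ≤ (if a * b ≠ 0 ∧ IsSquare (a * b) then (E : ℝ) else 0) + D := by
        intro b hb
        rw [hker b]
        by_cases hab : a * b = 0
        · rw [hzero b hab, abs_zero]
          split_ifs <;> positivity
        · by_cases hsq : IsSquare (a * b)
          · rw [if_pos ⟨hab, hsq⟩]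
            linarith [hE' b]
          · rw [if_neg (fun h => hsq h.2), zero_add]
            have h6 := hPV (a * b) hab hsq E (2 * E)
            refine h6.trans ?_
            rw [hD]
            apply mul_le_mul_of_nonneg_left _ hC.le
            have h7 : (((a * b).natAbs : ℕ) : ℝ) ≤ (A : ℝ) ^ 2 := by
              have h8 : a.natAbs ≤ A := by
                simp only [IA, Finset.mem_Icc] at ha
                omega
              have h9 : b.natAbs ≤ A := by
                simp only [IA, Finset.mem_Icc] at hb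
                omega
              have h10 : (a * b).natAbs ≤ A ^ 2 := by
                rw [Int.natAbs_mul, sq]
                exact Nat.mul_le_mul h8 h9
              exact_mod_cast h10
            calc (((a * b).natAbs : ℕ) : ℝ) ^ (1 / 2 + e / 2)
                ≤ ((A : ℝ) ^ 2) ^ (1 / 2 + e / 2) :=
                  Real.rpow_le_rpow (by positivity) h7 (by positivity)
              _ = (A : ℝ) ^ (1 + e) := by
                  rw [← Real.rpow_natCast (A : ℝ) 2, ← Real.rpow_mul (by positivity)]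
                  congr 1
                  push_cast
                  ring
      refine (Finset.sum_le_sum h5).trans ?_
      rw [Finset.sum_add_distrib, ← Finset.sum_filter, Finset.sum_const, Finset.sum_const,
        nsmul_eq_mul, nsmul_eq_mul, LRG.card_IA]
      have h6 := LRG.card_sq (A := A) ha0
      push_cast
      have h7 := mul_le_mul_of_nonneg_right h6 (show (0 : ℝ) ≤ E by positivity)
      linarith
  have h3 := LRG.dual (IA A) T (fun a k => (jacobiSym (-a) k : ℝ)) c
    (E * √(A : ℝ) + (2 * A + 1) * D) (by positivity) hM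
  refine h3.trans ?_
  have h4 : 0 ≤ ∑ k ∈ T, (c k) ^ 2 := Finset.sum_nonneg (fun k _ => sq_nonneg _)
  apply mul_le_mul_of_nonneg_right _ h4
  have h5 : (A : ℝ) ^ (2 + e) = A * (A : ℝ) ^ (1 + e) := by
    rw [show (2 : ℝ) + e = 1 + (1 + e) by ring, Real.rpow_add hA0, Real.rpow_one]
  rw [h5, hD]
  have h6 : 0 ≤ (A : ℝ) ^ (1 + e) := by positivity
  have h7 : 0 ≤ (E : ℝ) * √(A : ℝ) := by positivity
  have h8 : 0 ≤ C * ((E : ℝ) * √(A : ℝ)) := by positivity
  have h9 : 0 ≤ C * (A : ℝ) ^ (1 + e) := by positivity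
  have h10 : C * (A : ℝ) ^ (1 + e) ≤ A * (C * (A : ℝ) ^ (1 + e)) := by nlinarith
  nlinarith [mul_nonneg hA0.le h6]

end Pool.Agent.Lib.MP391708.QPA
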