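import Pool.Agent.Lib.MP_391708_nt.QPA.Spec

/-! # MODP: the model sum of the primes -/

set_option autoImplicit false

namespace Pool.Agent.Lib.MP391708.QPA.MODP

open Filter Topology Finset

/-- `π(x)` with the real argument. -/
noncomputable def pr (x : ℝ) : ℝ := (((Icc 1 ⌊x⌋₊).filter Nat.Prime).card : ℝ)

theorem log_large (c : ℝ) : ∃ N₀ : ℕ, ∀ N : ℕ, N₀ ≤ N → c ≤ Real.log N := by
  have h := (Real.tendsto_log_atTop.comp (tendsto_natCast_atTop_atTop (R := ℝ))).eventually_ge_atTop c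
  obtain ⟨N₀, h⟩ := eventually_atTop.mp h
  exact ⟨N₀, h⟩

theorem pi_near (h : SpecPNT) {κ : ℝ} (hκ : 0 < κ) : ∃ N₀ : ℕ, ∀ N : ℕ, N₀ ≤ N → ∀ x : ℝ,
    (N : ℝ) ^ 2 ≤ x → x ≤ 4 * (N : ℝ) ^ 2 →
      |pr x - x / (2 * Real.log N)| ≤ κ * ((N : ℝ) ^ 2 / Real.log N) := by
  obtain ⟨X₀, hX⟩ := h (κ / 4) (by positivity)
  obtain ⟨N₁, hN₁⟩ := log_large (max 1 (4 / κ))
  refine ⟨max (max N₁ 2) ⌈X₀⌉₊, fun N hN x hx1 hx2 => ?_⟩
  have hN2 : 2 ≤ N := (le_max_right _ _).trans ((le_max_left _ _).trans hN)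
  have hNX : X₀ ≤ (N : ℝ) := (Nat.le_ceil X₀).trans (by
    exact_mod_cast (le_max_right _ _).trans hN)
  have hl := hN₁ N ((le_max_left _ _).trans ((le_max_left _ _).trans hN))
  have hl1 : 1 ≤ Real.log N := (le_max_left _ _).trans hl
  have hl2 : 4 / κ ≤ Real.log N := (le_max_right _ _).trans hl
  have hl0 : 0 < Real.log N := by linarith
  have hN1 : (2 : ℝ) ≤ N := by exact_mod_cast hN2
  have hNN : (N : ℝ) ≤ (N : ℝ) ^ 2 := by nlinarith
  have hx0 : 0 < x := by nlinarith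
  have a1 := hX x (by linarith)
  have hlx1 : 2 * Real.log N ≤ Real.log x := by
    have : Real.log ((N : ℝ) ^ 2) ≤ Real.log x := Real.log_le_log (by positivity) hx1
    rw [Real.log_pow] at this
    push_cast at this
    exact this
  have hlx2 : Real.log x ≤ 2 * Real.log N + 2 := by
    have h1 : Real.log x ≤ Real.log (4 * (N : ℝ) ^ 2) := Real.log_le_log hx0 hx2
    rw [Real.log_mul (by norm_num) (by positivity), Real.log_pow] at h1
    have h2 : Real.log 4 ≤ 2 := by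
      have : Real.log 4 = 2 * Real.log 2 := by
        rw [show (4 : ℝ) = 2 ^ 2 by norm_num, Real.log_pow]; norm_num
      rw [this]
      linarith [Real.log_two_lt_d9]
    push_cast at h1
    linarith
  have hlx0 : 0 < Real.log x := by linarith
  have a2 : |x / Real.log x - x / (2 * Real.log N)| ≤ κ / 2 * ((N : ℝ) ^ 2 / Real.log N) := by
    have e : x / Real.log x - x / (2 * Real.log N) =
        -(x * (Real.log x - 2 * Real.log N) / (Real.log x * (2 * Real.log N))) := by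
      field_simp
      ring
    rw [e, abs_neg, abs_of_nonneg (by
      apply div_nonneg
      · exact mul_nonneg hx0.le (by linarith)
      · positivity)]
    rw [div_le_iff₀ (by positivity)]
    have e2 : κ / 2 * ((N : ℝ) ^ 2 / Real.log N) * (Real.log x * (2 * Real.log N)) =
        κ * (N : ℝ) ^ 2 * Real.log x := by field_simp
    rw [e2]
    have h3 : 8 ≤ κ * Real.log x := by
      have : 4 ≤ κ * Real.log N := by
        rw [div_le_iff₀ hκ] at hl2
        linarith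
      nlinarith
    calc x * (Real.log x - 2 * Real.log N) ≤ 4 * (N : ℝ) ^ 2 * 2 := by
          apply mul_le_mul hx2 (by linarith) (by linarith) (by positivity)
      _ = (N : ℝ) ^ 2 * 8 := by ring
      _ ≤ (N : ℝ) ^ 2 * (κ * Real.log x) := by gcongr
      _ = κ * (N : ℝ) ^ 2 * Real.log x := by ring
  have a3 : |pr x - x / Real.log x| ≤ κ / 2 * ((N : ℝ) ^ 2 / Real.log N) := by
    have e : ((((Icc 1 ⌊x⌋₊).filter Nat.Prime).card : ℕ) : ℝ) = pr x := by
      unfold pr; congr!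
    rw [e] at a1
    refine a1.trans ?_
    rw [mul_div_assoc]
    have : x / Real.log x ≤ 4 * (N : ℝ) ^ 2 / (2 * Real.log N) := by
      apply div_le_div₀ (by positivity) hx2 (by positivity) hlx1
    calc κ / 4 * (x / Real.log x) ≤ κ / 4 * (4 * (N : ℝ) ^ 2 / (2 * Real.log N)) := by gcongr
      _ = κ / 2 * ((N : ℝ) ^ 2 / Real.log N) := by field_simp
  calc |pr x - x / (2 * Real.log N)| = |(pr x - x / Real.log x) +
        (x / Real.log x - x / (2 * Real.log N))| := by ring_nf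
    _ ≤ _ := abs_add_le _ _
    _ ≤ κ / 2 * ((N : ℝ) ^ 2 / Real.log N) + κ / 2 * ((N : ℝ) ^ 2 / Real.log N) :=
        add_le_add a3 a2
    _ = κ * ((N : ℝ) ^ 2 / Real.log N) := by ring

/-- partition of an interval -/
theorem sum_parts (X : ℕ → ℕ) (hX : Monotone X) (f : ℕ → ℝ) (J : ℕ) :
    ∑ m ∈ Ioc (X 0) (X J), f m = ∑ j ∈ range J, ∑ m ∈ Ioc (X j) (X (j + 1)), f m := by
  induction J with
  | zero => simp
  | succ J ih =>
    rw [Finset.sum_range_succ, ← ih, Finset.sum_Ioc_consecutive _ (hX (Nat.zero_le _))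
      (hX (Nat.le_succ _))]

theorem sqrt_step {s δ : ℝ} (hs : 1 ≤ s) (hδ : 0 < δ) :
    δ / (2 * √(s + δ)) ≤ √(s + δ) - √s ∧ √(s + δ) - √s ≤ δ / (2 * √s) := by
  have h0 : 0 < √s := Real.sqrt_pos.mpr (by linarith)
  have h1 : 0 < √(s + δ) := Real.sqrt_pos.mpr (by linarith)
  have h2 : √s ≤ √(s + δ) := Real.sqrt_le_sqrt (by linarith)
  have e1 : √s ^ 2 = s := Real.sq_sqrt (by linarith)
  have e2 : √(s + δ) ^ 2 = s + δ := Real.sq_sqrt (by linarith)
  constructor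
  · rw [div_le_iff₀ (by positivity)]
    nlinarith
  · rw [le_div_iff₀ (by positivity)]
    nlinarith

theorem riemann (J : ℕ) (hJ : 1 ≤ J) :
    ∑ j ∈ range J, (3 / J : ℝ) / (2 * √(1 + 3 / J * ((j : ℝ) + 1))) ≤ 1 ∧
    1 ≤ ∑ j ∈ range J, (3 / J : ℝ) / (2 * √(1 + 3 / J * (j : ℝ))) ∧
    ∑ j ∈ range J, (3 / J : ℝ) / (2 * √(1 + 3 / J * (j : ℝ))) -
      ∑ j ∈ range J, (3 / J : ℝ) / (2 * √(1 + 3 / J * ((j : ℝ) + 1))) ≤ 3 / J := by
  have hJ0 : (0 : ℝ) < J := by exact_mod_cast hJ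
  have hδ : (0 : ℝ) < 3 / J := by positivity
  have htel : ∑ j ∈ range J, (√(1 + 3 / J * ((j : ℝ) + 1)) - √(1 + 3 / J * (j : ℝ))) = 1 := by
    have := Finset.sum_range_sub (fun j : ℕ => √(1 + 3 / J * (j : ℝ))) J
    simp only [Nat.cast_add, Nat.cast_one] at this
    rw [this]
    have e : (1 : ℝ) + 3 / J * J = 2 ^ 2 := by field_simp; norm_num
    rw [e, Real.sqrt_sq (by norm_num)]
    simp
    norm_num
  have hst : ∀ j : ℕ, (3 / J : ℝ) / (2 * √(1 + 3 / J * ((j : ℝ) + 1))) ≤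
      √(1 + 3 / J * ((j : ℝ) + 1)) - √(1 + 3 / J * (j : ℝ)) ∧
      √(1 + 3 / J * ((j : ℝ) + 1)) - √(1 + 3 / J * (j : ℝ)) ≤
      (3 / J : ℝ) / (2 * √(1 + 3 / J * (j : ℝ))) := by
    intro j
    have h := sqrt_step (s := 1 + 3 / J * (j : ℝ)) (δ := 3 / J) (by
      have : (0 : ℝ) ≤ 3 / J * j := by positivity
      linarith) hδ
    have e : 1 + 3 / (J : ℝ) * (j : ℝ) + 3 / J = 1 + 3 / J * ((j : ℝ) + 1) := by ring
    rw [e] at h
    exact h
  refine ⟨?_, ?_, ?_⟩
  · exact (Finset.sum_le_sum fun j _ => (hst j).1).trans (le_of_eq htel)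
  · exact (le_of_eq htel.symm).trans (Finset.sum_le_sum fun j _ => (hst j).2)
  · have h := Finset.sum_range_sub' (fun j : ℕ => (3 / J : ℝ) / (2 * √(1 + 3 / J * (j : ℝ)))) J
    simp only [Nat.cast_add, Nat.cast_one] at h
    rw [← Finset.sum_sub_distrib, h]
    have h1 : (0 : ℝ) ≤ (3 / J : ℝ) / (2 * √(1 + 3 / J * (J : ℝ))) := by positivity
    have h2 : (3 / J : ℝ) / (2 * √(1 + 3 / J * ((0 : ℕ) : ℝ))) = 3 / J / 2 := by simp
    rw [h2]
    linarith

/-- the division points -/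
noncomputable def pt (N J j : ℕ) : ℝ := (N : ℝ) ^ 2 * (1 + 3 / J * (j : ℝ))

theorem main (h : SpecPNT) {κ : ℝ} (hκ : 0 < κ) : ∃ N₀ : ℕ, ∀ N : ℕ, N₀ ≤ N →
    |model N primeInd - N / (2 * Real.log N)| ≤ κ * N / Real.log N := by
  -- choose J
  obtain ⟨J, hJ⟩ := exists_nat_ge (3 / κ + 1)
  have hJ1 : 1 ≤ J := by
    have : (1 : ℝ) ≤ J := by
      have : 0 < 3 / κ := by positivity
      linarith
    exact_mod_cast this
  have hJ0 : (0 : ℝ) < J := by exact_mod_cast hJ1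
  have hδκ : 3 / (J : ℝ) ≤ κ := by
    rw [div_le_iff₀ hJ0]
    have : 3 / κ ≤ J := by linarith
    rw [div_le_iff₀ hκ] at this
    linarith
  obtain ⟨N₀, hN₀⟩ := pi_near h (κ := κ / (4 * J)) (by positivity)
  obtain ⟨N₁, hN₁⟩ := log_large 1
  refine ⟨max (max N₀ N₁) 1, fun N hN => ?_⟩
  have hNpos : 1 ≤ N := (le_max_right _ _).trans hN
  have hA := hN₀ N ((le_max_left _ _).trans ((le_max_left _ _).trans hN))
  have hl := hN₁ N ((le_max_right _ _).trans ((le_max_left _ _).trans hN))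
  have hl0 : 0 < Real.log N := by linarith
  have hN0 : (0 : ℝ) < N := by exact_mod_cast hNpos
  have hptmono : Monotone (fun j : ℕ => ⌊pt N J j⌋₊) := by
    intro i j hij
    apply Nat.floor_mono
    unfold pt
    gcongr
  have hpt0 : ⌊pt N J 0⌋₊ = N ^ 2 := by
    have : pt N J 0 = ((N ^ 2 : ℕ) : ℝ) := by unfold pt; push_cast; ring
    rw [this, Nat.floor_natCast]
  have hptJ : ⌊pt N J J⌋₊ = 4 * N ^ 2 := by
    have : pt N J J = ((4 * N ^ 2 : ℕ) : ℝ) := by
      unfold pt; push_cast; field_simp; ring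
    rw [this, Nat.floor_natCast]
  have hpt1 : ∀ j : ℕ, (N : ℝ) ^ 2 ≤ pt N J j := by
    intro j; unfold pt
    have : (0 : ℝ) ≤ 3 / J * j := by positivity
    nlinarith [sq_nonneg (N : ℝ)]
  have hpt2 : ∀ j : ℕ, j ≤ J → pt N J j ≤ 4 * (N : ℝ) ^ 2 := by
    intro j hj; unfold pt
    have h1 : (3 : ℝ) / J * j ≤ 3 := by
      have : (j : ℝ) ≤ J := by exact_mod_cast hj
      calc (3 : ℝ) / J * j ≤ 3 / J * J := by gcongr
        _ = 3 := by field_simp
    nlinarith [sq_nonneg (N : ℝ)]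
  have hmodel : model N primeInd = ∑ j ∈ range J,
      ∑ m ∈ Ioc ⌊pt N J j⌋₊ ⌊pt N J (j + 1)⌋₊, primeInd m / (2 * √(m : ℝ)) := by
    unfold model
    rw [← sum_parts (fun j => ⌊pt N J j⌋₊) hptmono]
    simp only [hpt0, hptJ]
  -- the count of primes in a piece
  have hcount : ∀ j ∈ range J, |(∑ m ∈ Ioc ⌊pt N J j⌋₊ ⌊pt N J (j + 1)⌋₊, primeInd m) -
      3 / J * ((N : ℝ) ^ 2 / (2 * Real.log N))| ≤ κ / (2 * J) * ((N : ℝ) ^ 2 / Real.log N) := by
    intro j hj
    have hj' : j < J := Finset.mem_range.mp hj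
    have e1 : ∑ m ∈ Ioc ⌊pt N J j⌋₊ ⌊pt N J (j + 1)⌋₊, primeInd m =
        pr (pt N J (j + 1)) - pr (pt N J j) := by
      have hpr : ∀ x : ℝ, pr x = ∑ m ∈ Ioc 0 ⌊x⌋₊, primeInd m := by
        intro x
        unfold pr primeInd
        rw [← Finset.sum_filter]
        simp
        congr 1
      rw [hpr, hpr, ← Finset.sum_Ioc_consecutive _ (Nat.zero_le _) (hptmono (Nat.le_succ j))]
      ring
    rw [e1]
    have a1 := hA _ (hpt1 (j + 1)) (hpt2 (j + 1) hj')
    have a2 := hA _ (hpt1 j) (hpt2 j hj'.le)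
    have e2 : pr (pt N J (j + 1)) - pr (pt N J j) - 3 / J * ((N : ℝ) ^ 2 / (2 * Real.log N)) =
        (pr (pt N J (j + 1)) - pt N J (j + 1) / (2 * Real.log N)) -
        (pr (pt N J j) - pt N J j / (2 * Real.log N)) := by
      unfold pt; push_cast; ring
    rw [e2]
    refine (abs_sub _ _).trans ?_
    have e3 : κ / (2 * J) * ((N : ℝ) ^ 2 / Real.log N) =
        κ / (4 * J) * ((N : ℝ) ^ 2 / Real.log N) + κ / (4 * J) * ((N : ℝ) ^ 2 / Real.log N) := by
      ring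
    rw [e3]
    exact add_le_add a1 a2
  have hsq : ∀ j : ℕ, √(pt N J j) = N * √(1 + 3 / J * (j : ℝ)) := by
    intro j
    unfold pt
    rw [Real.sqrt_mul (by positivity), Real.sqrt_sq hN0.le]
  have hpi : ∀ m, 0 ≤ primeInd m := by
    intro m; unfold primeInd; split_ifs <;> norm_num
  -- bounds for each piece
  have hup : ∀ j ∈ range J, ∑ m ∈ Ioc ⌊pt N J j⌋₊ ⌊pt N J (j + 1)⌋₊, primeInd m / (2 * √(m : ℝ)) ≤
      N / (2 * Real.log N) * ((3 / J : ℝ) / (2 * √(1 + 3 / J * (j : ℝ)))) +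
      κ / (4 * J) * (N / Real.log N) := by
    intro j hj
    have hpos : 0 < pt N J j := lt_of_lt_of_le (by positivity) (hpt1 j)
    have h1 : ∑ m ∈ Ioc ⌊pt N J j⌋₊ ⌊pt N J (j + 1)⌋₊, primeInd m / (2 * √(m : ℝ)) ≤
        (∑ m ∈ Ioc ⌊pt N J j⌋₊ ⌊pt N J (j + 1)⌋₊, primeInd m) / (2 * √(pt N J j)) := by
      rw [Finset.sum_div]
      refine Finset.sum_le_sum fun m hm => ?_
      have hm1 : pt N J j ≤ m := (Nat.lt_of_floor_lt (Finset.mem_Ioc.mp hm).1).le
      have : 0 < √(pt N J j) := Real.sqrt_pos.mpr hpos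
      exact div_le_div_of_nonneg_left (hpi m) (by positivity)
        (by gcongr)
    refine h1.trans ?_
    have h2 := (abs_le.mp (hcount j hj)).2
    have hs : 0 < √(1 + 3 / J * (j : ℝ)) := by positivity
    have hs1 : 1 ≤ √(1 + 3 / J * (j : ℝ)) := by
      rw [Real.one_le_sqrt]
      have : (0 : ℝ) ≤ 3 / J * j := by positivity
      linarith
    rw [hsq]
    calc (∑ m ∈ Ioc ⌊pt N J j⌋₊ ⌊pt N J (j + 1)⌋₊, primeInd m) /
          (2 * (N * √(1 + 3 / J * (j : ℝ))))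
        ≤ (3 / J * ((N : ℝ) ^ 2 / (2 * Real.log N)) + κ / (2 * J) * ((N : ℝ) ^ 2 / Real.log N)) /
          (2 * (N * √(1 + 3 / J * (j : ℝ)))) := by
          gcongr; linarith
      _ = N / (2 * Real.log N) * ((3 / J : ℝ) / (2 * √(1 + 3 / J * (j : ℝ)))) +
          κ / (4 * J) * (N / Real.log N) / √(1 + 3 / J * (j : ℝ)) := by
          field_simp
          ring
      _ ≤ _ := by
          gcongr
          exact div_le_self (by positivity) hs1
  have hlo : ∀ j ∈ range J, N / (2 * Real.log N) *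
      ((3 / J : ℝ) / (2 * √(1 + 3 / J * ((j : ℝ) + 1)))) - κ / (4 * J) * (N / Real.log N) ≤
      ∑ m ∈ Ioc ⌊pt N J j⌋₊ ⌊pt N J (j + 1)⌋₊, primeInd m / (2 * √(m : ℝ)) := by
    intro j hj
    have hpos : 0 < pt N J (j + 1) := lt_of_lt_of_le (by positivity) (hpt1 (j + 1))
    have h1 : (∑ m ∈ Ioc ⌊pt N J j⌋₊ ⌊pt N J (j + 1)⌋₊, primeInd m) / (2 * √(pt N J (j + 1))) ≤
        ∑ m ∈ Ioc ⌊pt N J j⌋₊ ⌊pt N J (j + 1)⌋₊, primeInd m / (2 * √(m : ℝ)) := by
      rw [Finset.sum_div]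
      refine Finset.sum_le_sum fun m hm => ?_
      have hm1 : (m : ℝ) ≤ pt N J (j + 1) :=
        (Nat.le_floor_iff hpos.le).mp (Finset.mem_Ioc.mp hm).2
      have hm0 : (0 : ℝ) < m := by
        have := (Finset.mem_Ioc.mp hm).1
        exact_mod_cast lt_of_le_of_lt (Nat.zero_le _) this
      exact div_le_div_of_nonneg_left (hpi m) (by positivity) (by gcongr)
    refine le_trans ?_ h1
    have h2 := (abs_le.mp (hcount j hj)).1
    have hs : 0 < √(1 + 3 / J * ((j : ℝ) + 1)) := by positivity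
    have hs1 : 1 ≤ √(1 + 3 / J * ((j : ℝ) + 1)) := by
      rw [Real.one_le_sqrt]
      have : (0 : ℝ) ≤ 3 / J * (j + 1) := by positivity
      linarith
    rw [hsq]
    push_cast
    calc N / (2 * Real.log N) * ((3 / J : ℝ) / (2 * √(1 + 3 / J * ((j : ℝ) + 1)))) -
          κ / (4 * J) * (N / Real.log N)
        ≤ N / (2 * Real.log N) * ((3 / J : ℝ) / (2 * √(1 + 3 / J * ((j : ℝ) + 1)))) -
          κ / (4 * J) * (N / Real.log N) / √(1 + 3 / J * ((j : ℝ) + 1)) := by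
          gcongr
          exact div_le_self (by positivity) hs1
      _ = (3 / J * ((N : ℝ) ^ 2 / (2 * Real.log N)) - κ / (2 * J) * ((N : ℝ) ^ 2 / Real.log N)) /
          (2 * (N * √(1 + 3 / J * ((j : ℝ) + 1)))) := by
          field_simp
          ring
      _ ≤ _ := by
          gcongr
          linarith
  have hU := Finset.sum_le_sum hup
  have hL := Finset.sum_le_sum hlo
  rw [← hmodel] at hU hL
  rw [Finset.sum_add_distrib, ← Finset.mul_sum, Finset.sum_const, Finset.card_range,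
    nsmul_eq_mul] at hU
  rw [Finset.sum_sub_distrib, ← Finset.mul_sum, Finset.sum_const, Finset.card_range,
    nsmul_eq_mul] at hL
  obtain ⟨r1, r2, r3⟩ := riemann J hJ1
  have hP : 0 < (N : ℝ) / (2 * Real.log N) := by positivity
  have e5 : (J : ℝ) * (κ / (4 * J) * (N / Real.log N)) = κ / 4 * (N / Real.log N) := by
    field_simp
  rw [e5] at hU hL
  have e6 : κ * (N : ℝ) / Real.log N = κ / 4 * (N / Real.log N) +
      3 / 2 * κ * (N / (2 * Real.log N)) := by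
    field_simp; ring
  rw [e6, abs_le]
  have hu : (N : ℝ) / (2 * Real.log N) *
      ∑ j ∈ range J, (3 / J : ℝ) / (2 * √(1 + 3 / J * (j : ℝ))) ≤
      N / (2 * Real.log N) * (1 + κ) := by
    apply mul_le_mul_of_nonneg_left _ hP.le
    linarith
  have hd : (N : ℝ) / (2 * Real.log N) * (1 - κ) ≤ (N : ℝ) / (2 * Real.log N) *
      ∑ j ∈ range J, (3 / J : ℝ) / (2 * √(1 + 3 / J * ((j : ℝ) + 1))) := by
    apply mul_le_mul_of_nonneg_left _ hP.le
    linarith
  have hκP : 0 < κ * ((N : ℝ) / (2 * Real.log N)) := by positivity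
  constructor <;> nlinarith

end Pool.Agent.Lib.MP391708.QPA.MODP

namespace Pool.Agent.Lib.MP391708.QPA

theorem specMODP (h : SpecPNT) : SpecMODP := fun _ hκ => MODP.main h hκ

end Pool.Agent.Lib.MP391708.QPA
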