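import Pool.Agent.Lib.MP_391708_nt.QPA.MTBa
import Pool.Agent.Lib.MP_391708_nt.QPA.Spec2

/-!
# QPA module MTB: assembly
-/

set_option autoImplicit false

namespace Pool.Agent.Lib.MP391708.QPA.MTB

open Finset Filter Topology
open scoped Classical

/-- the sum over squarefree `k` in terms of the characters -/
theorem expand (hD : SpecRHOD) (N : ℕ) (e2 : ℝ) (c : Multiset ℕ) (I : Finset ℕ) (J : ℕ)
    (hI : ∀ k ∈ I, k ≤ 2 ^ J) (hodd : ∀ k ∈ I, FF N e2 c k ≠ 0 → Odd k) (a : ℤ) :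
    ∑ k ∈ I.filter Squarefree, FF N e2 c k * ((rho a k : ℝ) - 1) / √(k : ℝ)
      = ∑ j ∈ range J, ∑ f ∈ Ioc (2 ^ j) (2 * 2 ^ j), cf N e2 c I f * (jacobiSym (-a) f : ℝ) := by
  rw [← dyad (fun f => cf N e2 c I f * (jacobiSym (-a) f : ℝ)) J]
  have h1 : ∀ f, cf N e2 c I f * (jacobiSym (-a) f : ℝ)
      = ∑ k ∈ I.filter Squarefree, if f ∣ k then
        FF N e2 c k / √(k : ℝ) * (jacobiSym (-a) f : ℝ) else 0 := by
    intro f
    rw [cf, Finset.sum_mul, ← Finset.sum_filter, Finset.filter_filter]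
  rw [Finset.sum_congr rfl (fun f _ => h1 f), Finset.sum_comm]
  apply Finset.sum_congr rfl
  intro k hk
  have hk' := Finset.mem_filter.mp hk
  by_cases h0 : FF N e2 c k = 0
  · rw [h0]
    simp
  · have hko := hodd k hk'.1 h0
    have hk1 : k ≠ 0 := hk'.2.ne_zero
    have h2 := hD a k hko hk'.2
    have h3 : (rho a k : ℝ) - 1 = ∑ f ∈ (Ioc 1 (2 ^ J)).filter (fun f => f ∣ k),
        (jacobiSym (-a) f : ℝ) := by
      have h4 : (rho a k : ℝ) = ∑ f ∈ k.divisors, (jacobiSym (-a) f : ℝ) := by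
        exact_mod_cast h2
      have h5 : k.divisors = insert 1 ((Ioc 1 (2 ^ J)).filter (fun f => f ∣ k)) := by
        ext f
        simp only [Nat.mem_divisors, Finset.mem_insert, Finset.mem_filter, Finset.mem_Ioc]
        constructor
        · rintro ⟨h6, h7⟩
          have h8 : f ≤ k := Nat.le_of_dvd (Nat.pos_of_ne_zero h7) h6
          have h9 : 0 < f := Nat.pos_of_dvd_of_pos h6 (Nat.pos_of_ne_zero h7)
          by_cases h10 : f = 1
          · exact Or.inl h10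
          · exact Or.inr ⟨⟨by omega, h8.trans (hI k hk'.1)⟩, h6⟩
        · rintro (h6 | ⟨_, h6⟩)
          · exact ⟨h6 ▸ one_dvd k, hk1⟩
          · exact ⟨h6, hk1⟩
      rw [h4, h5, Finset.sum_insert (by simp), jacobiSym.one_right]
      push_cast
      ring
    rw [h3, Finset.mul_sum, Finset.sum_div, Finset.sum_filter]
    apply Finset.sum_congr rfl
    intro f _
    split_ifs
    · ring
    · rfl

/-- few rough numbers are not squarefree -/
theorem nsf_card (z : ℝ) (hz : 2 ≤ z) (M : ℕ) (S : Finset ℕ)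
    (hS : ∀ k ∈ S, 1 ≤ k ∧ k ≤ M ∧ ¬ Squarefree k ∧ Rough z k) :
    (S.card : ℝ) ≤ 2 * M / z := by
  set m0 : ℕ := ⌈z⌉₊ - 1 with hm0
  have hc : z ≤ ⌈z⌉₊ := Nat.le_ceil z
  have hc2 : (⌈z⌉₊ : ℝ) < z + 1 := Nat.ceil_lt_add_one (by linarith)
  have hc3 : 2 ≤ ⌈z⌉₊ := by
    have : (2 : ℝ) ≤ (⌈z⌉₊ : ℝ) := hz.trans hc
    exact_mod_cast this
  have hm1 : 1 ≤ m0 := by omega
  have hm2 : z / 2 ≤ m0 := by
    have : (m0 : ℝ) = (⌈z⌉₊ : ℝ) - 1 := by
      rw [hm0, Nat.cast_sub (by omega)]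
      norm_num
    rw [this]
    linarith
  have hm3 : (m0 : ℝ) < z := by
    have : (m0 : ℝ) = (⌈z⌉₊ : ℝ) - 1 := by
      rw [hm0, Nat.cast_sub (by omega)]
      norm_num
    rw [this]
    linarith
  have hsub : S ⊆ (Ioc m0 M).biUnion (fun n => (Ioc 0 M).filter (fun k => n ^ 2 ∣ k)) := by
    intro k hk
    obtain ⟨h1, h2, h3, h4⟩ := hS k hk
    rw [Nat.squarefree_iff_prime_squarefree] at h3
    push Not at h3
    obtain ⟨p, hp, hpk⟩ := h3
    have hpz : z ≤ p := h4 p hp (dvd_trans (dvd_mul_right p p) hpk)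
    have hpm : m0 < p := by
      have : (m0 : ℝ) < p := lt_of_lt_of_le hm3 hpz
      exact_mod_cast this
    have hpM : p ≤ M := by
      have h5 : p * p ≤ k := Nat.le_of_dvd (by omega) hpk
      have h6 : p ≤ p * p := Nat.le_mul_self p
      omega
    rw [Finset.mem_biUnion]
    refine ⟨p, Finset.mem_Ioc.mpr ⟨hpm, hpM⟩, Finset.mem_filter.mpr
      ⟨Finset.mem_Ioc.mpr ⟨by omega, h2⟩, ?_⟩⟩
    rw [sq]
    exact hpk
  have hc4 : (S.card : ℝ) ≤ ∑ n ∈ Ioc m0 M, (M : ℝ) * ((n : ℝ) ^ 2)⁻¹ := by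
    calc (S.card : ℝ) ≤ (((Ioc m0 M).biUnion
          (fun n => (Ioc 0 M).filter (fun k => n ^ 2 ∣ k))).card : ℝ) := by
            exact_mod_cast Finset.card_le_card hsub
      _ ≤ ((∑ n ∈ Ioc m0 M, ((Ioc 0 M).filter (fun k => n ^ 2 ∣ k)).card : ℕ) : ℝ) := by
            exact_mod_cast Finset.card_biUnion_le
      _ = ∑ n ∈ Ioc m0 M, (((Ioc 0 M).filter (fun k => n ^ 2 ∣ k)).card : ℝ) := by push_cast; rfl
      _ ≤ ∑ n ∈ Ioc m0 M, (M : ℝ) * ((n : ℝ) ^ 2)⁻¹ := by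
            apply Finset.sum_le_sum
            intro n _
            have := card_mult M (n ^ 2)
            push_cast at this
            rw [div_eq_mul_inv] at this
            exact this
  by_cases hMm : m0 ≤ M
  · rw [← Finset.mul_sum] at hc4
    have h7 := sum_Ioc_inv_sq_le_sub (α := ℝ) (by omega : m0 ≠ 0) hMm
    have h8 : (∑ n ∈ Ioc m0 M, ((n : ℝ) ^ 2)⁻¹) ≤ 2 / z := by
      have h9 : (0 : ℝ) ≤ (M : ℝ)⁻¹ := by positivity
      have h10 : (m0 : ℝ)⁻¹ ≤ 2 / z := by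
        rw [inv_le_comm₀ (by positivity) (by positivity), inv_div]
        exact hm2
      linarith
    calc (S.card : ℝ) ≤ M * ∑ n ∈ Ioc m0 M, ((n : ℝ) ^ 2)⁻¹ := hc4
      _ ≤ M * (2 / z) := mul_le_mul_of_nonneg_left h8 (Nat.cast_nonneg _)
      _ = 2 * M / z := by ring
  · rw [Finset.Ioc_eq_empty (by omega), Finset.sum_empty] at hc4
    refine hc4.trans (by positivity)

/-- the nonsquarefree part -/
theorem nonsqf (hR : SpecRAV) : ∃ C : ℝ, 0 < C ∧ ∀ (N A : ℕ) (e2 z K η : ℝ) (c : Multiset ℕ),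
    2 ≤ N → (N : ℝ) ^ (3 / 5 : ℝ) ≤ A → 2 ≤ z → 1 ≤ K → K ≤ N → 0 < η → η ≤ 1 / 4 →
    (∀ k, FF N e2 c k ≠ 0 → Rough z k) →
    ∑ a ∈ IA A, |∑ k ∈ (Ioc ⌊K⌋₊ ⌊(1 + η) * K⌋₊).filter (fun k => ¬ Squarefree k),
        FF N e2 c k * ((rho a k : ℝ) - 1) / √(k : ℝ)|
      ≤ C * ((Multiset.card c).factorial : ℝ) * A * √K / z := by
  obtain ⟨C, hC, h1⟩ := hR (1 / 10) (by norm_num)
  refine ⟨3 * (6 + 2 * C), by positivity, ?_⟩
  intro N A e2 z K η c hN hA hz hK hKN hη hη4 hF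
  set B : ℝ := ((Multiset.card c).factorial : ℝ) with hB
  have hB0 : 0 ≤ B := Nat.cast_nonneg _
  have hK0 : 0 < K := by linarith
  have hsK : 0 < √K := Real.sqrt_pos.mpr hK0
  have hz0 : 0 < z := by linarith
  have hN1 : (1 : ℝ) ≤ N := by exact_mod_cast (by omega : 1 ≤ N)
  have hN0 : (0 : ℝ) < N := by linarith
  have hA1 : (1 : ℝ) ≤ A := (Real.one_le_rpow hN1 (by norm_num)).trans hA
  set I := Ioc ⌊K⌋₊ ⌊(1 + η) * K⌋₊ with hI
  set M := ⌊(1 + η) * K⌋₊ with hM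
  have hMK : (M : ℝ) ≤ 5 / 4 * K := (Nat.floor_le (by positivity)).trans (by nlinarith)
  set S := I.filter (fun k => ¬ Squarefree k ∧ FF N e2 c k ≠ 0) with hS
  have hSc : (S.card : ℝ) ≤ 2 * M / z := by
    apply nsf_card z hz M S
    intro k hk
    have hk' := Finset.mem_filter.mp hk
    have hk2 := Finset.mem_Ioc.mp hk'.1
    exact ⟨by omega, hk2.2, hk'.2.1, hF k hk'.2.2⟩
  have h2 : ∀ a : ℤ, |∑ k ∈ I.filter (fun k => ¬ Squarefree k),
        FF N e2 c k * ((rho a k : ℝ) - 1) / √(k : ℝ)|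
      ≤ ∑ k ∈ S, B / √K * ((rho a k : ℝ) + 1) := by
    intro a
    refine (Finset.abs_sum_le_sum_abs _ _).trans ?_
    have h3 : ∑ k ∈ I.filter (fun k => ¬ Squarefree k),
        |FF N e2 c k * ((rho a k : ℝ) - 1) / √(k : ℝ)|
        = ∑ k ∈ S, |FF N e2 c k * ((rho a k : ℝ) - 1) / √(k : ℝ)| := by
      symm
      apply Finset.sum_subset
      · intro k hk
        have hk' := Finset.mem_filter.mp hk
        exact Finset.mem_filter.mpr ⟨hk'.1, hk'.2.1⟩
      · intro k hk hnk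
        have hk' := Finset.mem_filter.mp hk
        have h0 : FF N e2 c k = 0 := by
          by_contra hne
          exact hnk (Finset.mem_filter.mpr ⟨hk'.1, hk'.2, hne⟩)
        rw [h0]
        simp
    rw [h3]
    apply Finset.sum_le_sum
    intro k hk
    have hk' := Finset.mem_filter.mp hk
    have hk2 := Finset.mem_Ioc.mp hk'.1
    have hk3 : K < k := (Nat.floor_lt hK0.le).mp hk2.1
    have h4 : |(rho a k : ℝ) - 1| ≤ (rho a k : ℝ) + 1 := by
      rw [abs_le]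
      have : (0 : ℝ) ≤ (rho a k : ℝ) := Nat.cast_nonneg _
      constructor <;> linarith
    rw [abs_div, abs_mul, abs_of_nonneg (FFB.FF_nonneg N e2 c k), abs_of_nonneg (Real.sqrt_nonneg _)]
    calc FF N e2 c k * |(rho a k : ℝ) - 1| / √(k : ℝ)
        ≤ (B * ((rho a k : ℝ) + 1)) / √K := by
          apply div_le_div₀ (by positivity) _ hsK (Real.sqrt_le_sqrt hk3.le)
          exact mul_le_mul (FFB.FF_le N e2 hN c k) h4 (abs_nonneg _) hB0
      _ = B / √K * ((rho a k : ℝ) + 1) := by ring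
  have h5 : ∀ k ∈ S, ∑ a ∈ IA A, ((rho a k : ℝ) + 1) ≤ (6 + 2 * C) * A := by
    intro k hk
    have hk' := Finset.mem_filter.mp hk
    have hk2 := Finset.mem_Ioc.mp hk'.1
    have hk1 : 1 ≤ k := by omega
    have h6 := h1 k A hk1
    have h7 := (abs_le.mp h6).2
    have hcard : ((IA A).card : ℝ) = 2 * A + 1 := by
      rw [IA, Int.card_Icc]
      have : ((A : ℤ) + 1 - -(A : ℤ)).toNat = 2 * A + 1 := by omega
      rw [this]
      push_cast
      ring
    rw [Finset.sum_add_distrib, Finset.sum_const, nsmul_eq_mul, hcard]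
    have hkN : (k : ℝ) ≤ 2 * N := by
      have : (k : ℝ) ≤ M := by exact_mod_cast hk2.2
      linarith
    have h8 : (k : ℝ) ^ (1 / 2 + 1 / 10 : ℝ) ≤ 2 * A := by
      have hk0 : (0 : ℝ) ≤ k := Nat.cast_nonneg _
      calc (k : ℝ) ^ (1 / 2 + 1 / 10 : ℝ) ≤ (2 * N : ℝ) ^ (1 / 2 + 1 / 10 : ℝ) :=
            Real.rpow_le_rpow hk0 hkN (by norm_num)
        _ = 2 ^ (1 / 2 + 1 / 10 : ℝ) * (N : ℝ) ^ (1 / 2 + 1 / 10 : ℝ) :=
            Real.mul_rpow (by norm_num) hN0.le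
        _ ≤ 2 * A := by
            apply mul_le_mul _ _ (by positivity) (by norm_num)
            · calc (2 : ℝ) ^ (1 / 2 + 1 / 10 : ℝ) ≤ 2 ^ (1 : ℝ) :=
                    Real.rpow_le_rpow_of_exponent_le (by norm_num) (by norm_num)
                _ = 2 := Real.rpow_one 2
            · exact (Real.rpow_le_rpow_of_exponent_le hN1 (by norm_num)).trans hA
    have h9 : C * (k : ℝ) ^ (1 / 2 + 1 / 10 : ℝ) ≤ C * (2 * A) := mul_le_mul_of_nonneg_left h8 hC.le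
    linarith
  calc ∑ a ∈ IA A, |∑ k ∈ I.filter (fun k => ¬ Squarefree k),
        FF N e2 c k * ((rho a k : ℝ) - 1) / √(k : ℝ)|
      ≤ ∑ a ∈ IA A, ∑ k ∈ S, B / √K * ((rho a k : ℝ) + 1) := Finset.sum_le_sum (fun a _ => h2 a)
    _ = ∑ k ∈ S, B / √K * ∑ a ∈ IA A, ((rho a k : ℝ) + 1) := by
        rw [Finset.sum_comm]
        exact Finset.sum_congr rfl (fun k _ => (Finset.mul_sum _ _ _).symm)
    _ ≤ ∑ k ∈ S, B / √K * ((6 + 2 * C) * A) :=
        Finset.sum_le_sum (fun k hk => mul_le_mul_of_nonneg_left (h5 k hk) (by positivity))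
    _ = S.card * (B / √K * ((6 + 2 * C) * A)) := by rw [Finset.sum_const, nsmul_eq_mul]
    _ ≤ (2 * (5 / 4 * K) / z) * (B / √K * ((6 + 2 * C) * A)) := by
        apply mul_le_mul_of_nonneg_right _ (by positivity)
        refine hSc.trans ?_
        apply div_le_div_of_nonneg_right _ hz0.le
        linarith
    _ = 5 / 2 * (6 + 2 * C) * B * A * (K / √K) / z := by ring
    _ ≤ 3 * (6 + 2 * C) * B * A * √K / z := by
        rw [Real.div_sqrt]
        apply div_le_div_of_nonneg_right _ hz0.le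
        have : 0 ≤ (6 + 2 * C) * B * A * √K := by positivity
        nlinarith

/-- sizes of the divisors -/
theorem divisor_size (N A : ℕ) (hN : 2 ≤ N) (hA : 0 < A) (e0 e2 t : ℝ) (Q : ℕ) (he2 : 0 < e2)
    (hQ : e2 * Q = e0) (c : Multiset ℕ) (hc : ∀ i ∈ c, Q ≤ i) (hnear : NearA N A e2 t c) (f k : ℕ)
    (hf : 1 < f) (hk : FF N e2 c k ≠ 0) (hfk : f ∣ k) :
    (N : ℝ) ^ e0 ≤ f ∧ ((A : ℝ) * (N : ℝ) ^ t ≤ f ∨ (f : ℝ) ≤ A * (N : ℝ) ^ (-t)) := by
  obtain ⟨s, hs, hsf⟩ := divisor_type N e2 c k f hk hfk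
  obtain ⟨h1, h2, h3, h4, h5⟩ := FFB.FF_support N e2 hN s f hsf
  have hN1 : (1 : ℝ) < N := by exact_mod_cast (by omega : 1 < N)
  have hN0 : (0 : ℝ) < N := by linarith
  have hA0 : (0 : ℝ) < A := by exact_mod_cast hA
  have h6 : Rough ((N : ℝ) ^ e0) f := by
    rw [← hQ]
    exact h5 he2 Q (fun i hi => hc i (Multiset.mem_of_le hs hi))
  constructor
  · obtain ⟨p, hp, hpf⟩ := Nat.exists_prime_and_dvd (by omega : f ≠ 1)
    have h7 : (p : ℝ) ≤ f := by exact_mod_cast Nat.le_of_dvd (by omega) hpf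
    exact (h6 p hp hpf).trans h7
  · have hs0 : s ≠ 0 := by
      rintro rfl
      rw [FFB.FF_zero, ArithmeticFunction.one_apply] at hsf
      split_ifs at hsf with h
      · omega
      · exact hsf rfl
    have hlog : (N : ℝ) ^ (Real.logb N A) = A := Real.rpow_logb hN0 hN1.ne' hA0
    rcases hnear s hs hs0 with h | h
    · left
      calc (A : ℝ) * (N : ℝ) ^ t = (N : ℝ) ^ (Real.logb N A + t) := by
            rw [Real.rpow_add hN0, hlog]
        _ ≤ (N : ℝ) ^ (e2 * (s.sum : ℝ)) := Real.rpow_le_rpow_of_exponent_le hN1.le h.le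
        _ ≤ f := h2
    · right
      calc (f : ℝ) ≤ (N : ℝ) ^ (e2 * ((s.sum : ℝ) + (Multiset.card s : ℝ))) := h3
        _ ≤ (N : ℝ) ^ (Real.logb N A + -t) :=
            Real.rpow_le_rpow_of_exponent_le hN1.le (by linarith)
        _ = A * (N : ℝ) ^ (-t) := by rw [Real.rpow_add hN0, hlog]

theorem pow_large (N : ℕ) (hN : 2 ≤ N) : 2 * N ≤ 2 ^ ⌈4 * Real.log N⌉₊ := by
  have hN2 : (2 : ℝ) ≤ N := by exact_mod_cast hN
  have hN0 : (0 : ℝ) < N := by linarith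
  have hlog : 0 < Real.log N := Real.log_pos (by linarith)
  have h1 : (2 * N : ℝ) ≤ (N : ℝ) ^ 2 := by nlinarith
  have h2 : (N : ℝ) ^ 2 ≤ 2 ^ (4 * Real.log N) := by
    rw [← Real.exp_log hN0, ← Real.exp_nat_mul, Real.exp_log hN0,
      Real.rpow_def_of_pos (by norm_num : (0 : ℝ) < 2)]
    apply Real.exp_le_exp.mpr
    have := Real.log_two_gt_d9
    push_cast
    nlinarith
  have h3 : (2 : ℝ) ^ (4 * Real.log N) ≤ 2 ^ (⌈4 * Real.log N⌉₊ : ℝ) :=
    Real.rpow_le_rpow_of_exponent_le (by norm_num) (Nat.le_ceil _)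
  rw [Real.rpow_natCast] at h3
  have h4 : (2 * N : ℝ) ≤ 2 ^ ⌈4 * Real.log N⌉₊ := h1.trans (h2.trans h3)
  exact_mod_cast h4

end Pool.Agent.Lib.MP391708.QPA.MTB

namespace Pool.Agent.Lib.MP391708.QPA

open Finset Filter Topology MTB
open scoped Classical

theorem specMTBK (hS : SpecSML) (hL : SpecLRG) (hR : SpecRAV) (hD : SpecRHOD) : SpecMTBK := by
  intro θ t e0 κ η Q c hθ ht he0 _ hκ hη hη4 hQ hc
  obtain ⟨C₁, hC₁, h1⟩ := block hS hL e0 t he0 ht
  obtain ⟨C₂, hC₂, h2⟩ := nonsqf hR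
  set B : ℝ := ((Multiset.card c).factorial : ℝ) with hB
  have hB0 : 0 ≤ B := Nat.cast_nonneg _
  set σ := min e0 (min (t / 2) (3 / 10)) with hσ
  have hσ0 : 0 < σ := lt_min he0 (lt_min (by linarith) (by norm_num))
  obtain ⟨N₁, hN₁⟩ := small (15 / 2 * B * √(3 * C₁)) (σ / 2) (κ / 2) 3 (by positivity) (by positivity)
  obtain ⟨N₂, hN₂⟩ := small (C₂ * B) e0 (κ / 2) 2 he0 (by positivity)
  obtain ⟨N₃, hN₃⟩ := small 3 e0 1 0 he0 one_pos
  refine ⟨max 2 (max N₁ (max N₂ N₃)), ?_⟩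
  intro N A hN hAdm hnear K hK1 hK2
  have hN2 : 2 ≤ N := le_trans (le_max_left _ _) hN
  have g1 := hN₁ N (le_trans ((le_max_left _ _).trans (le_max_right _ _)) hN)
  have g2 := hN₂ N (le_trans ((le_max_left _ _).trans ((le_max_right _ _).trans
    (le_max_right _ _))) hN)
  have g3 := hN₃ N (le_trans ((le_max_right _ _).trans ((le_max_right _ _).trans
    (le_max_right _ _))) hN)
  have hN2' : (2 : ℝ) ≤ N := by exact_mod_cast hN2
  have hN1 : (1 : ℝ) ≤ N := by linarith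
  have hN0 : (0 : ℝ) < N := by linarith
  have hlog : 0 < Real.log N := Real.log_pos (by linarith)
  have hz : 3 ≤ (N : ℝ) ^ e0 := by
    rw [pow_zero, mul_one, Real.rpow_neg hN0.le, ← div_eq_mul_inv,
      div_le_one (Real.rpow_pos_of_pos hN0 _)] at g3
    exact g3
  have hA1 : (N : ℝ) ^ (3 / 5 : ℝ) ≤ A :=
    (Real.rpow_le_rpow_of_exponent_le hN1 hθ.le).trans hAdm.1
  have hA2 : (A : ℝ) ≤ (N : ℝ) ^ 2 := by
    refine hAdm.2.trans ?_
    have : Real.log N ≤ N := (Real.log_le_sub_one_of_pos hN0).trans (by linarith)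
    nlinarith
  have hA3 : (1 : ℝ) ≤ A := (Real.one_le_rpow hN1 (by norm_num)).trans hA1
  have hA0 : (0 : ℝ) < A := by linarith
  have hAn : 0 < A := by exact_mod_cast hA0
  have hKK : 1 ≤ K := (Real.one_le_rpow hN1 (by norm_num)).trans hK1
  have hKN : K ≤ N := by
    refine hK2.trans ?_
    calc (N : ℝ) ^ (1 - t) ≤ (N : ℝ) ^ (1 : ℝ) :=
          Real.rpow_le_rpow_of_exponent_le hN1 (by linarith)
      _ = N := Real.rpow_one _
  have hK0 : 0 < K := by linarith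
  have hsK : 0 < √K := Real.sqrt_pos.mpr hK0
  set e2 : ℝ := e0 / Q with he2
  have hQ0 : (0 : ℝ) < Q := by exact_mod_cast hQ
  have he2p : 0 < e2 := by positivity
  have he2Q : e2 * Q = e0 := by rw [he2]; field_simp
  have hrough : ∀ k, FF N e2 c k ≠ 0 → Rough ((N : ℝ) ^ e0) k := by
    intro k hk
    have := (FFB.FF_support N e2 hN2 c k hk).2.2.2.2 he2p Q hc
    rwa [he2Q] at this
  set I := Ioc ⌊K⌋₊ ⌊(1 + η) * K⌋₊ with hI
  set J := ⌈4 * Real.log N⌉₊ with hJ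
  have hIJ : ∀ k ∈ I, k ≤ 2 ^ J := by
    intro k hk
    have hk2 := Finset.mem_Ioc.mp hk
    have h3 : (k : ℝ) ≤ 2 * N := by
      have h4 : (k : ℝ) ≤ (⌊(1 + η) * K⌋₊ : ℝ) := by exact_mod_cast hk2.2
      have h5 : (⌊(1 + η) * K⌋₊ : ℝ) ≤ (1 + η) * K := Nat.floor_le (by positivity)
      nlinarith
    have h6 : k ≤ 2 * N := by exact_mod_cast h3
    exact h6.trans (pow_large N hN2)
  have hodd : ∀ k ∈ I, FF N e2 c k ≠ 0 → Odd k := by
    intro k _ hk
    by_contra hno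
    have h3 : 2 ∣ k := even_iff_two_dvd.mp (Nat.not_odd_iff_even.mp hno)
    have h4 := hrough k hk 2 Nat.prime_two h3
    push_cast at h4
    linarith
  have hexp := expand hD N e2 c I J hIJ hodd
  -- the block estimate
  have hblk : ∀ j ∈ range J, ∑ a ∈ IA A, |∑ f ∈ Ioc (2 ^ j) (2 * 2 ^ j),
      cf N e2 c I f * (jacobiSym (-a) f : ℝ)| ≤ 5 / 4 * B * √(3 * C₁) * A * √K
        * (N : ℝ) ^ (-(σ / 2)) := by
    intro j _
    have hcard : ((IA A).card : ℝ) ≤ 3 * A := by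
      rw [IA, Int.card_Icc]
      have : ((A : ℤ) + 1 - -(A : ℤ)).toNat = 2 * A + 1 := by omega
      rw [this]
      push_cast
      linarith
    have h3 := h1 N A (2 ^ j) (cf N e2 c I) (5 / 4 * B * √K) hN2 Nat.one_le_two_pow
      (by positivity) hA1 hA2 (cf_nonneg N e2 c I)
      (fun f hf => cf_le N hN2 e2 c K η hKK hη4 hη f hf)
      (fun f hf => by
        obtain ⟨k, hkI, hks, hfk, hk⟩ := cf_ne N e2 c I f hf
        exact ⟨Odd.of_dvd_nat (hodd k hkI hk) hfk, hks.squarefree_of_dvd hfk⟩)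
      (fun f hf hf1 => by
        obtain ⟨k, hkI, hks, hfk, hk⟩ := cf_ne N e2 c I f hf
        exact divisor_size N A hN2 hAn e0 e2 t Q he2p he2Q c hc hnear f k hf1 hk hfk)
    refine (cs (IA A) _ _ _ hcard h3).trans (le_of_eq ?_)
    have h4 : 3 * (A : ℝ) * (C₁ * (5 / 4 * B * √K) ^ 2 * A * (N : ℝ) ^ (-σ))
        = (5 / 4 * B * √K * A * (N : ℝ) ^ (-(σ / 2))) ^ 2 * (3 * C₁) := by
      have h5 : (N : ℝ) ^ (-σ) = ((N : ℝ) ^ (-(σ / 2))) ^ 2 := by
        rw [← Real.rpow_natCast, ← Real.rpow_mul hN0.le]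
        congr 1
        push_cast
        ring
      rw [h5]
      ring
    rw [h4, Real.sqrt_mul (sq_nonneg _), Real.sqrt_sq (by positivity)]
    ring
  have hJ6 : (J : ℝ) ≤ 6 * Real.log N := by
    have h3 : (J : ℝ) < 4 * Real.log N + 1 := Nat.ceil_lt_add_one (by positivity)
    have h4 : Real.log 2 ≤ Real.log N := Real.log_le_log (by norm_num) hN2'
    have h5 := Real.log_two_gt_d9
    linarith
  have hpart1 : ∑ a ∈ IA A, |∑ k ∈ I.filter Squarefree,
      FF N e2 c k * ((rho a k : ℝ) - 1) / √(k : ℝ)|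
      ≤ 15 / 2 * B * √(3 * C₁) * Real.log N * A * √K * (N : ℝ) ^ (-(σ / 2)) := by
    calc ∑ a ∈ IA A, |∑ k ∈ I.filter Squarefree, FF N e2 c k * ((rho a k : ℝ) - 1) / √(k : ℝ)|
        ≤ ∑ a ∈ IA A, ∑ j ∈ range J, |∑ f ∈ Ioc (2 ^ j) (2 * 2 ^ j),
            cf N e2 c I f * (jacobiSym (-a) f : ℝ)| := by
          apply Finset.sum_le_sum
          intro a _
          rw [hexp a]
          exact Finset.abs_sum_le_sum_abs _ _
      _ = ∑ j ∈ range J, ∑ a ∈ IA A, |∑ f ∈ Ioc (2 ^ j) (2 * 2 ^ j),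
            cf N e2 c I f * (jacobiSym (-a) f : ℝ)| := Finset.sum_comm
      _ ≤ ∑ j ∈ range J, 5 / 4 * B * √(3 * C₁) * A * √K * (N : ℝ) ^ (-(σ / 2)) :=
          Finset.sum_le_sum hblk
      _ = J * (5 / 4 * B * √(3 * C₁) * A * √K * (N : ℝ) ^ (-(σ / 2))) := by
          rw [Finset.sum_const, nsmul_eq_mul, Finset.card_range]
      _ ≤ (6 * Real.log N) * (5 / 4 * B * √(3 * C₁) * A * √K * (N : ℝ) ^ (-(σ / 2))) :=
          mul_le_mul_of_nonneg_right hJ6 (by positivity)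
      _ = _ := by ring
  have hpart2 := h2 N A e2 ((N : ℝ) ^ e0) K η c hN2 hA1 (by linarith) hKK hKN hη hη4 hrough
  have hsplit : ∀ a : ℤ, |∑ k ∈ I, FF N e2 c k * ((rho a k : ℝ) - 1) / √(k : ℝ)|
      ≤ |∑ k ∈ I.filter Squarefree, FF N e2 c k * ((rho a k : ℝ) - 1) / √(k : ℝ)|
        + |∑ k ∈ I.filter (fun k => ¬ Squarefree k),
            FF N e2 c k * ((rho a k : ℝ) - 1) / √(k : ℝ)| := by
    intro a
    rw [← Finset.sum_filter_add_sum_filter_not I Squarefree]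
    exact abs_add_le _ _
  have hL2 : 0 < (Real.log N) ^ 2 := by positivity
  calc ∑ a ∈ IA A, |∑ k ∈ I, FF N e2 c k * ((rho a k : ℝ) - 1) / √(k : ℝ)|
      ≤ 15 / 2 * B * √(3 * C₁) * Real.log N * A * √K * (N : ℝ) ^ (-(σ / 2))
        + C₂ * B * A * √K / (N : ℝ) ^ e0 := by
        refine (Finset.sum_le_sum (fun a _ => hsplit a)).trans ?_
        rw [Finset.sum_add_distrib]
        exact add_le_add hpart1 hpart2
    _ = (15 / 2 * B * √(3 * C₁) * (Real.log N) ^ 3 * (N : ℝ) ^ (-(σ / 2))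
        + C₂ * B * (Real.log N) ^ 2 * (N : ℝ) ^ (-e0)) * (A * √K) / (Real.log N) ^ 2 := by
        rw [Real.rpow_neg hN0.le e0]
        field_simp
    _ ≤ (κ / 2 + κ / 2) * (A * √K) / (Real.log N) ^ 2 := by
        apply div_le_div_of_nonneg_right _ hL2.le
        exact mul_le_mul_of_nonneg_right (add_le_add g1 g2) (by positivity)
    _ = κ * A * √K / (Real.log N) ^ 2 := by ring

theorem specMTB (hS : SpecSML) (hL : SpecLRG) (hR : SpecRAV) (hD : SpecRHOD) : SpecMTB :=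
  fun θ t e0 κ η Q c hθ => specMTBK hS hL hR hD θ t e0 κ η Q c (by linarith)

end Pool.Agent.Lib.MP391708.QPA
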