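import Pool.Agent.Lib.MP_391708_nt.QPA.Mob
import Pool.Agent.Lib.MP_391708_nt.QPA.Spec2

/-!
# MOBK: MOB for `θ > 3/5`
-/

set_option autoImplicit false

namespace Pool.Agent.Lib.MP391708.QPA

namespace MobK

open Finset Filter Topology
open scoped Classical

noncomputable section

/-- one dyadic block of the sum -/
def Fj (z : ℝ) (Y j : ℕ) (a : ℤ) : ℝ :=
  ∑ e ∈ Ioc (2 ^ j) (2 * 2 ^ j), Mob.cf z Y e * (jacobiSym (-a) e : ℝ)

/-- the mean of the rough numbers -/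
def G (z : ℝ) (Y : ℕ) : ℝ := ∑ g ∈ Icc 1 Y, rInd z g / (g : ℝ)

lemma rough_of_dvd {z : ℝ} {e k : ℕ} (h : Rough z k) (hd : e ∣ k) : Rough z e :=
  fun p hp hpe => h p hp (hpe.trans hd)

lemma rInd_nonneg (z : ℝ) (m : ℕ) : 0 ≤ rInd z m := by
  unfold rInd
  split_ifs <;> norm_num

lemma abs_cf_le' {z : ℝ} {Y e : ℕ} (he : 1 ≤ e) : |Mob.cf z Y e| ≤ G z Y * (rInd z e / e) := by
  unfold Mob.cf
  have he0 : (0 : ℝ) < e := by exact_mod_cast he
  calc _ ≤ ∑ k ∈ (Icc 1 Y).filter (fun k => Rough z k),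
        |if e ∣ k then (ArithmeticFunction.moebius k : ℝ) / k else 0| := abs_sum_le_sum_abs _ _
    _ ≤ ∑ k ∈ (Icc 1 Y).filter (fun k => Rough z k),
          if e ∣ k then rInd z e * (rInd z (k / e) / (k : ℝ)) else 0 := by
        refine sum_le_sum fun k hk => ?_
        split_ifs with h
        · rw [mem_filter] at hk
          have h1 : rInd z e = 1 := by rw [rInd, if_pos (rough_of_dvd hk.2 h)]
          have h2 : rInd z (k / e) = 1 := by
            rw [rInd, if_pos (rough_of_dvd hk.2 (Nat.div_dvd_of_dvd h))]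
          rw [h1, h2, one_mul, abs_div, Nat.abs_cast]
          apply div_le_div_of_nonneg_right _ (Nat.cast_nonneg k)
          have := ArithmeticFunction.abs_moebius_le_one (n := k)
          exact_mod_cast this
        · simp
    _ ≤ ∑ k ∈ Icc 1 Y, if e ∣ k then rInd z e * (rInd z (k / e) / (k : ℝ)) else 0 := by
        apply sum_le_sum_of_subset_of_nonneg (filter_subset _ _)
        intro k _ _
        have h1 := rInd_nonneg z e
        have h2 := rInd_nonneg z (k / e)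
        split_ifs <;> positivity
    _ = ∑ k ∈ (Icc 1 Y).filter (fun k => e ∣ k), rInd z e * (rInd z (k / e) / (k : ℝ)) := by
        rw [sum_filter]
    _ ≤ ∑ k ∈ (Icc 1 Y).image (fun g => e * g), rInd z e * (rInd z (k / e) / (k : ℝ)) := by
        apply sum_le_sum_of_subset_of_nonneg
        · intro k hk
          rw [mem_filter, mem_Icc] at hk
          obtain ⟨g, rfl⟩ := hk.2
          rw [mem_image]
          refine ⟨g, ?_, rfl⟩
          rw [mem_Icc]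
          constructor
          · by_contra hcon
            have : g = 0 := by omega
            subst this
            simp at hk
          · nlinarith [hk.1.2]
        · intro k _ _
          have h1 := rInd_nonneg z e
          have h2 := rInd_nonneg z (k / e)
          positivity
    _ = ∑ g ∈ Icc 1 Y, rInd z e * (rInd z g / ((e : ℝ) * g)) := by
        rw [sum_image]
        · refine sum_congr rfl fun g _ => ?_
          rw [Nat.mul_div_cancel_left _ (by omega)]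
          push_cast
          rfl
        · intro x _ y _ h
          exact Nat.eq_of_mul_eq_mul_left (by omega) h
    _ = _ := by
        unfold G
        rw [sum_mul]
        refine sum_congr rfl fun g _ => ?_
        rw [mul_comm (e : ℝ), ← div_div]
        ring

lemma blk_sq {z : ℝ} {Y : ℕ} (hY : 1 ≤ Y) (j : ℕ) :
    ∑ k ∈ Ioc (2 ^ j) (2 * 2 ^ j), (Mob.cf z Y k) ^ 2 ≤ (1 + Real.log Y) ^ 2 / 2 ^ j ∧
    ∑ k ∈ Ioc (2 ^ j) (2 * 2 ^ j), |Mob.cf z Y k| ≤ 1 + Real.log Y := by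
  have hY1 : (1 : ℝ) ≤ Y := by exact_mod_cast hY
  have hlog : 0 ≤ Real.log Y := Real.log_nonneg hY1
  have hEpos : (0 : ℝ) < (2 : ℝ) ^ j := by positivity
  have hcb : ∀ k ∈ Ioc (2 ^ j) (2 * 2 ^ j), |Mob.cf z Y k| ≤ (1 + Real.log Y) / 2 ^ j := by
    intro k hk
    rw [mem_Ioc] at hk
    refine (Mob.abs_cf_le (by omega)).trans ?_
    apply div_le_div_of_nonneg_left (by linarith) hEpos
    have : 2 ^ j ≤ k := hk.1.le
    exact_mod_cast this
  have hcard : ((Ioc (2 ^ j) (2 * 2 ^ j)).card : ℝ) = 2 ^ j := by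
    rw [Nat.card_Ioc, show 2 * 2 ^ j - 2 ^ j = 2 ^ j by omega]
    push_cast
    rfl
  constructor
  · calc _ ≤ ∑ k ∈ Ioc (2 ^ j) (2 * 2 ^ j), ((1 + Real.log Y) / 2 ^ j) ^ 2 := by
          refine sum_le_sum fun k hk => ?_
          rw [← sq_abs (Mob.cf z Y k)]
          exact pow_le_pow_left₀ (abs_nonneg _) (hcb k hk) 2
      _ = _ := by
          rw [sum_const, nsmul_eq_mul, hcard]
          field_simp
  · calc _ ≤ ∑ k ∈ Ioc (2 ^ j) (2 * 2 ^ j), (1 + Real.log Y) / 2 ^ j := sum_le_sum hcb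
      _ = _ := by
          rw [sum_const, nsmul_eq_mul, hcard]
          field_simp

/-- the low blocks -/
lemma low {ε C : ℝ} (hε : 0 ≤ ε) (hC0 : 0 < C) (hC : ∀ (A E : ℕ) (c : ℕ → ℝ), 1 ≤ A → 1 ≤ E →
    (∀ k, c k ≠ 0 → Odd k ∧ Squarefree k) →
    ∑ a ∈ IA A, (∑ k ∈ Ioc E (2 * E), c k * (jacobiSym (-a) k : ℝ)) ^ 2
      ≤ C * (A * (∑ k ∈ Ioc E (2 * E), (c k) ^ 2)
        + (E : ℝ) ^ (1 + ε) * (∑ k ∈ Ioc E (2 * E), |c k|) ^ 2))
    {z : ℝ} {Y A : ℕ} (hz : 2 < z) (hY : 1 ≤ Y) (hA : 1 ≤ A) {X : ℝ} (j : ℕ)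
    (hj : (2 : ℝ) ^ j ≤ X) :
    ∑ a ∈ IA A, (Fj z Y j a) ^ 2 ≤ C * (1 + Real.log Y) ^ 2 * (2 * A / z + X ^ (1 + ε)) := by
  have hA0 : (0 : ℝ) ≤ A := Nat.cast_nonneg A
  have hX : 0 ≤ X := le_trans (by positivity) hj
  by_cases hz0 : ∃ e ∈ Ioc (2 ^ j) (2 * 2 ^ j), Mob.cf z Y e ≠ 0
  · obtain ⟨e₀, he₀, hne⟩ := hz0
    rw [mem_Ioc] at he₀
    have hE1 : 1 ≤ 2 ^ j := Nat.one_le_two_pow
    obtain ⟨_, _, h3, h4⟩ := Mob.cf_ne hz hne
    have h5 : z ≤ 2 * (2 : ℝ) ^ j := by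
      have h6 := h3 (by omega)
      have h7 : (e₀ : ℝ) ≤ 2 * (2 : ℝ) ^ j := by exact_mod_cast he₀.2
      linarith
    have hEpos : (0 : ℝ) < (2 : ℝ) ^ j := by positivity
    obtain ⟨h8, h9⟩ := blk_sq (z := z) hY j
    refine (hC A (2 ^ j) (Mob.cf z Y) hA hE1 (fun k hk =>
      ⟨(Mob.cf_ne hz hk).1, (Mob.cf_ne hz hk).2.1⟩)).trans ?_
    rw [mul_assoc C]
    apply mul_le_mul_of_nonneg_left _ hC0.le
    have h11 : (A : ℝ) * ∑ k ∈ Ioc (2 ^ j) (2 * 2 ^ j), (Mob.cf z Y k) ^ 2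
        ≤ (1 + Real.log Y) ^ 2 * (2 * A / z) := by
      calc _ ≤ (A : ℝ) * ((1 + Real.log Y) ^ 2 / 2 ^ j) := mul_le_mul_of_nonneg_left h8 hA0
        _ ≤ (A : ℝ) * ((1 + Real.log Y) ^ 2 / (z / 2)) := by
            apply mul_le_mul_of_nonneg_left _ hA0
            apply div_le_div_of_nonneg_left (by positivity) (by linarith)
            linarith
        _ = _ := by
            field_simp
    have h12 : (((2 ^ j : ℕ)) : ℝ) ^ (1 + ε)
        * (∑ k ∈ Ioc (2 ^ j) (2 * 2 ^ j), |Mob.cf z Y k|) ^ 2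
        ≤ (1 + Real.log Y) ^ 2 * X ^ (1 + ε) := by
      rw [mul_comm]
      apply mul_le_mul
      · exact pow_le_pow_left₀ (sum_nonneg fun k _ => abs_nonneg _) h9 2
      · apply Real.rpow_le_rpow (Nat.cast_nonneg _)
        · push_cast
          exact hj
        · linarith
      · positivity
      · positivity
    rw [mul_add]
    exact add_le_add h11 h12
  · push Not at hz0
    have : ∑ a ∈ IA A, (Fj z Y j a) ^ 2 = 0 := by
      apply sum_eq_zero
      intro a _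
      unfold Fj
      rw [sum_eq_zero]
      · simp
      · intro e he
        rw [hz0 e he, zero_mul]
    rw [this]
    have : 0 ≤ 2 * (A : ℝ) / z := div_nonneg (by linarith) (by linarith)
    have : 0 ≤ X ^ (1 + ε) := by positivity
    positivity

/-- the high blocks -/
lemma high {ε C : ℝ} (hC0 : 0 < C) (hC : ∀ (A E : ℕ) (c : ℕ → ℝ), 1 ≤ A → 1 ≤ E →
    (∀ k, c k ≠ 0 → Odd k) →
    ∑ a ∈ IA A, (∑ k ∈ Ioc E (2 * E), c k * (jacobiSym (-a) k : ℝ)) ^ 2
      ≤ C * (E * √(A : ℝ) + (A : ℝ) ^ (2 + ε)) * ∑ k ∈ Ioc E (2 * E), (c k) ^ 2)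
    {z : ℝ} {Y A : ℕ} (hz : 2 < z) (hY : 1 ≤ Y) (hA : 1 ≤ A) {X : ℝ} (hX : 0 < X) (j : ℕ)
    (hj : X ≤ (2 : ℝ) ^ j) :
    ∑ a ∈ IA A, (Fj z Y j a) ^ 2 ≤ C * (1 + Real.log Y) ^ 2 * (√(A : ℝ) + (A : ℝ) ^ (2 + ε) / X) := by
  have hEpos : (0 : ℝ) < (2 : ℝ) ^ j := by positivity
  obtain ⟨h8, -⟩ := blk_sq (z := z) hY j
  refine (hC A (2 ^ j) (Mob.cf z Y) hA Nat.one_le_two_pow (fun k hk => (Mob.cf_ne hz hk).1)).trans ?_
  push_cast
  calc C * ((2 : ℝ) ^ j * √(A : ℝ) + (A : ℝ) ^ (2 + ε)) *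
        ∑ k ∈ Ioc (2 ^ j) (2 * 2 ^ j), (Mob.cf z Y k) ^ 2
      ≤ C * ((2 : ℝ) ^ j * √(A : ℝ) + (A : ℝ) ^ (2 + ε)) * ((1 + Real.log Y) ^ 2 / 2 ^ j) :=
        mul_le_mul_of_nonneg_left h8 (by positivity)
    _ = C * (1 + Real.log Y) ^ 2 * (√(A : ℝ) + (A : ℝ) ^ (2 + ε) / 2 ^ j) := by
        field_simp
    _ ≤ _ := by
        apply mul_le_mul_of_nonneg_left _ (by positivity)
        have : (A : ℝ) ^ (2 + ε) / 2 ^ j ≤ (A : ℝ) ^ (2 + ε) / X :=
          div_le_div_of_nonneg_left (by positivity) hX hj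
        linarith

/-- square of a sum over some blocks -/
lemma sq_sum {z : ℝ} {Y A : ℕ} (s : Finset ℕ) {J : ℕ} (hs : s ⊆ range J) {B : ℝ} (hB : 0 ≤ B)
    (h : ∀ j ∈ s, ∑ a ∈ IA A, (Fj z Y j a) ^ 2 ≤ B) :
    ∑ a ∈ IA A, (∑ j ∈ s, Fj z Y j a) ^ 2 ≤ (J : ℝ) ^ 2 * B := by
  have hcard : (s.card : ℝ) ≤ J := by
    have := card_le_card hs
    rw [card_range] at this
    exact_mod_cast this
  calc _ ≤ ∑ a ∈ IA A, s.card * ∑ j ∈ s, (Fj z Y j a) ^ 2 :=
        sum_le_sum fun a _ => sq_sum_le_card_mul_sum_sq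
    _ = s.card * ∑ j ∈ s, ∑ a ∈ IA A, (Fj z Y j a) ^ 2 := by rw [← mul_sum, sum_comm]
    _ ≤ s.card * ∑ j ∈ s, B := mul_le_mul_of_nonneg_left (sum_le_sum h) (Nat.cast_nonneg _)
    _ = (s.card : ℝ) ^ 2 * B := by
        rw [sum_const, nsmul_eq_mul]
        ring
    _ ≤ _ := mul_le_mul_of_nonneg_right (pow_le_pow_left₀ (Nat.cast_nonneg _) hcard 2) hB

/-- the middle blocks -/
lemma mid {z : ℝ} {Y J : ℕ} {E₁ E₂ : ℝ} (hE1 : 0 < E₁) (s : Finset ℕ) (hsJ : s ⊆ range J)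
    (hs : ∀ j ∈ s, E₁ < (2 : ℝ) ^ j ∧ (2 : ℝ) ^ j < E₂) (a : ℤ) :
    |∑ j ∈ s, Fj z Y j a| ≤ G z Y * ∑ e ∈ Icc ⌈E₁⌉₊ ⌊2 * E₂⌋₊, rInd z e / (e : ℝ) := by
  have hG : 0 ≤ G z Y := by
    unfold G
    apply sum_nonneg
    intro g _
    have := rInd_nonneg z g
    positivity
  set f : ℕ → ℝ := fun e => if e ∈ Icc ⌈E₁⌉₊ ⌊2 * E₂⌋₊ then |Mob.cf z Y e| else 0 with hf
  have hf0 : ∀ e, 0 ≤ f e := by
    intro e
    rw [hf]
    simp only
    split_ifs
    · exact abs_nonneg _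
    · exact le_rfl
  have h1 : ∀ j ∈ s, |Fj z Y j a| ≤ ∑ e ∈ Ioc (2 ^ j) (2 * 2 ^ j), f e := by
    intro j hj
    unfold Fj
    refine (abs_sum_le_sum_abs _ _).trans (sum_le_sum fun e he => ?_)
    rw [mem_Ioc] at he
    obtain ⟨h2, h3⟩ := hs j hj
    have h4 : e ∈ Icc ⌈E₁⌉₊ ⌊2 * E₂⌋₊ := by
      rw [mem_Icc, Nat.ceil_le]
      have h5 : ((2 : ℝ) ^ j) < e := by exact_mod_cast he.1
      have h6 : (e : ℝ) ≤ 2 * (2 : ℝ) ^ j := by exact_mod_cast he.2
      refine ⟨by linarith, Nat.le_floor (by linarith)⟩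
    rw [hf]
    simp only
    rw [if_pos h4, abs_mul]
    have h5 : |(jacobiSym (-a) e : ℝ)| ≤ 1 := by
      rcases jacobiSym.trichotomy (-a) e with h | h | h <;> rw [h] <;> norm_num
    calc _ ≤ |Mob.cf z Y e| * 1 := mul_le_mul_of_nonneg_left h5 (abs_nonneg _)
      _ = _ := mul_one _
  calc |∑ j ∈ s, Fj z Y j a| ≤ ∑ j ∈ s, |Fj z Y j a| := abs_sum_le_sum_abs _ _
    _ ≤ ∑ j ∈ s, ∑ e ∈ Ioc (2 ^ j) (2 * 2 ^ j), f e := sum_le_sum h1
    _ ≤ ∑ j ∈ range J, ∑ e ∈ Ioc (2 ^ j) (2 * 2 ^ j), f e :=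
        sum_le_sum_of_subset_of_nonneg hsJ fun j _ _ => sum_nonneg fun e _ => hf0 e
    _ = ∑ e ∈ Ioc 1 (2 ^ J), f e := (Mob.dyadic f J).symm
    _ = ∑ e ∈ (Ioc 1 (2 ^ J)).filter (fun e => e ∈ Icc ⌈E₁⌉₊ ⌊2 * E₂⌋₊), |Mob.cf z Y e| := by
        rw [sum_filter]
    _ ≤ ∑ e ∈ Icc ⌈E₁⌉₊ ⌊2 * E₂⌋₊, |Mob.cf z Y e| := by
        apply sum_le_sum_of_subset_of_nonneg
        · intro e he
          exact (mem_filter.1 he).2
        · intro e _ _
          exact abs_nonneg _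
    _ ≤ ∑ e ∈ Icc ⌈E₁⌉₊ ⌊2 * E₂⌋₊, G z Y * (rInd z e / e) := by
        refine sum_le_sum fun e he => abs_cf_le' ?_
        rw [mem_Icc, Nat.ceil_le] at he
        have : (0 : ℝ) < e := lt_of_lt_of_le hE1 he.1
        exact_mod_cast this
    _ = _ := by rw [mul_sum]

lemma G_le {C z : ℝ} (hC : ∀ (z X₁ X₂ : ℝ), 2 ≤ z → z ≤ X₁ → X₁ ≤ X₂ →
    ∑ k ∈ Icc ⌈X₁⌉₊ ⌊X₂⌋₊, rInd z k / (k : ℝ) ≤ C * (Real.log (X₂ / X₁) + 1) / Real.log z)
    {Y N : ℕ} (hz : 2 ≤ z) (hzN : z ≤ N) (hYN : Y ≤ N) :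
    G z Y ≤ 1 + C * (Real.log (N / z) + 1) / Real.log z := by
  have h1 := hC z z N hz le_rfl hzN
  rw [Nat.floor_natCast] at h1
  unfold G
  calc ∑ g ∈ Icc 1 Y, rInd z g / (g : ℝ) ≤ ∑ g ∈ insert 1 (Icc ⌈z⌉₊ N), rInd z g / (g : ℝ) := by
        have h2 : ∑ g ∈ Icc 1 Y, rInd z g / (g : ℝ) =
            ∑ g ∈ (Icc 1 Y).filter (fun g => Rough z g), rInd z g / (g : ℝ) := by
          rw [sum_filter]
          refine sum_congr rfl fun g _ => ?_
          by_cases h : Rough z g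
          · rw [if_pos h]
          · rw [if_neg h, rInd, if_neg h, zero_div]
        rw [h2]
        apply sum_le_sum_of_subset_of_nonneg
        · intro g hg
          rw [mem_filter, mem_Icc] at hg
          rw [mem_insert, mem_Icc, Nat.ceil_le]
          by_cases hg1 : g = 1
          · exact Or.inl hg1
          · right
            obtain ⟨p, hp, hpg⟩ := Nat.exists_prime_and_dvd hg1
            have h3 := hg.2 p hp hpg
            have h4 : p ≤ g := Nat.le_of_dvd (by omega) hpg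
            have h5 : (p : ℝ) ≤ g := by exact_mod_cast h4
            exact ⟨by linarith, by omega⟩
        · intro g _ _
          have := rInd_nonneg z g
          positivity
    _ ≤ 1 + ∑ g ∈ Icc ⌈z⌉₊ N, rInd z g / (g : ℝ) := by
        rw [sum_insert]
        · have : rInd z 1 ≤ 1 := by
            unfold rInd
            split_ifs <;> norm_num
          have h3 : rInd z 1 / ((1 : ℕ) : ℝ) ≤ 1 := by
            rw [Nat.cast_one, div_one]
            exact this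
          linarith
        · rw [mem_Icc, Nat.ceil_le]
          rintro ⟨h, _⟩
          push_cast at h
          linarith
    _ ≤ _ := by linarith

end

end MobK

open Finset Filter Topology
open scoped Classical

theorem specMOBK (hS : SpecSML) (hLr : SpecLRG) (hD : SpecRHOD) (hR : SpecRSUM) : SpecMOBK := by
  intro θ κ e0 δ hθ hκ1 hκ2 he0 he1 hδ
  obtain ⟨CR, hCR0, hCR⟩ := hR
  -- the width of the middle range
  obtain ⟨ε, hε0, hε1, hεδ⟩ : ∃ ε : ℝ, 0 < ε ∧ ε ≤ 1 / 20 ∧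
      ε * (8 * ((1 + 2 * CR) * CR)) ≤ δ * e0 ^ 2 := by
    refine ⟨min (1 / 20) (δ * e0 ^ 2 / (8 * ((1 + 2 * CR) * CR))), lt_min (by norm_num)
      (by positivity), min_le_left _ _, ?_⟩
    have h1 : (0 : ℝ) < 8 * ((1 + 2 * CR) * CR) := by positivity
    calc _ ≤ δ * e0 ^ 2 / (8 * ((1 + 2 * CR) * CR)) * (8 * ((1 + 2 * CR) * CR)) :=
          mul_le_mul_of_nonneg_right (min_le_right _ _) h1.le
      _ = _ := div_mul_cancel₀ _ h1.ne'
  obtain ⟨C₁, hC₁0, hC₁⟩ := hS (ε / 4) (by positivity)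
  obtain ⟨C₂, hC₂0, hC₂⟩ := hLr (ε / 4) (by positivity)
  set M : ℝ := 4 * (C₁ + C₂) with hM
  have hM0 : 0 < M := by positivity
  set η : ℝ := δ ^ 3 / (96 * M) with hη
  have hη0 : 0 < η := by positivity
  have lim1 : Tendsto (fun N : ℕ => (N : ℝ) ^ e0) atTop atTop :=
    (tendsto_rpow_atTop he0).comp tendsto_natCast_atTop_atTop
  have lim2 : Tendsto (fun N : ℕ => Real.log (N : ℝ)) atTop atTop :=
    Real.tendsto_log_atTop.comp tendsto_natCast_atTop_atTop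
  obtain ⟨N₀, hN₀⟩ := eventually_atTop.1 (((((((lim1.eventually_ge_atTop 4).and
    (Mob.log_pow_small he0 hη0)).and (Mob.log_pow_small (show 0 < ε / 2 by positivity) hη0)).and
    (Mob.log_pow_small (show (0 : ℝ) < 3 / 10 by norm_num) hη0)).and
    (lim2.eventually_ge_atTop (1 / ε)))).and (eventually_ge_atTop 2))
  refine ⟨N₀, fun N A hN hA => ?_⟩
  obtain ⟨⟨⟨⟨⟨hz, hs1⟩, hs2⟩, hs3⟩, hlog⟩, hN2⟩ := hN₀ N hN
  have hNr : (2 : ℝ) ≤ N := by exact_mod_cast hN2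
  have hN1 : (1 : ℝ) ≤ N := by linarith
  have hN0 : (0 : ℝ) < N := by linarith
  set z : ℝ := (N : ℝ) ^ e0 with hzdef
  have hlogz : Real.log z = e0 * Real.log N := by rw [hzdef, Real.log_rpow hN0]
  have hlog20 : 20 ≤ Real.log N := by
    refine le_trans ?_ hlog
    rw [le_div_iff₀ hε0]
    linarith
  have hlogN0 : 0 < Real.log N := by linarith
  have hAA : (N : ℝ) ^ (3 / 5 : ℝ) ≤ A :=
    (Real.rpow_le_rpow_of_exponent_le hN1 hθ.le).trans hA.1
  have hA1 : (1 : ℝ) ≤ A := (Real.one_le_rpow hN1 (by norm_num)).trans hAA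
  have hA0 : (0 : ℝ) < A := by linarith
  have hA1' : 1 ≤ A := by exact_mod_cast hA1
  have hAN2 : (A : ℝ) ≤ (N : ℝ) ^ (2 : ℝ) := by
    refine hA.2.trans ?_
    have h1 : Real.log N ≤ N := (Real.log_le_sub_one_of_pos hN0).trans (by linarith)
    rw [Real.rpow_two, sq]
    exact mul_le_mul_of_nonneg_left h1 hN0.le
  -- the size of Y
  have hYY1 : 1 ≤ YK N κ := Real.one_le_rpow (by linarith) (by linarith)
  set Y : ℕ := ⌊YK N κ⌋₊ with hY
  have hY1 : 1 ≤ Y := Nat.le_floor (by exact_mod_cast hYY1)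
  have hYN' : (Y : ℝ) ≤ N := by
    refine (Nat.floor_le (by linarith)).trans ?_
    unfold YK
    calc ((N : ℝ) / 2) ^ κ ≤ (N : ℝ) ^ κ := Real.rpow_le_rpow (by linarith) (by linarith) (by linarith)
      _ ≤ (N : ℝ) ^ (1 : ℝ) := Real.rpow_le_rpow_of_exponent_le hN1 (by linarith)
      _ = N := Real.rpow_one _
  have hYNn : Y ≤ N := by exact_mod_cast hYN'
  have hYr1 : (1 : ℝ) ≤ Y := by exact_mod_cast hY1
  have hLL : 1 + Real.log Y ≤ 1 + Real.log N := by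
    have := Real.log_le_log (by linarith) hYN'
    linarith
  have hL0 : 0 ≤ 1 + Real.log Y := by
    have := Real.log_nonneg hYr1
    linarith
  set J : ℕ := Nat.log 2 Y + 1 with hJ
  have hJY : Y ≤ 2 ^ J := (Nat.lt_pow_succ_log_self (by norm_num) Y).le
  have hJL : (J : ℝ) ≤ 2 * (1 + Real.log N) := by
    have h1 : 2 ^ Nat.log 2 Y ≤ Y := Nat.pow_log_le_self 2 (by omega)
    have h2 : ((2 : ℝ) ^ Nat.log 2 Y) ≤ Y := by exact_mod_cast h1
    have h3 := Real.log_le_log (by positivity) h2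
    rw [Real.log_pow] at h3
    have h4 : (1 : ℝ) / 2 ≤ Real.log 2 := by
      have := Real.log_two_gt_d9
      linarith
    have h5 : (Nat.log 2 Y : ℝ) * (1 / 2) ≤ Nat.log 2 Y * Real.log 2 :=
      mul_le_mul_of_nonneg_left h4 (Nat.cast_nonneg _)
    rw [hJ]
    push_cast
    linarith
  -- the ranges
  set E₁ : ℝ := A * (N : ℝ) ^ (-ε) with hE₁
  set E₂ : ℝ := A * (N : ℝ) ^ ε with hE₂
  have hE₁0 : 0 < E₁ := by positivity
  have hE₂0 : 0 < E₂ := by positivity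
  have hzE₁ : z ≤ E₁ := by
    calc z ≤ (N : ℝ) ^ (1 / 10 : ℝ) := Real.rpow_le_rpow_of_exponent_le hN1 he1
      _ ≤ (N : ℝ) ^ (3 / 5 : ℝ) * (N : ℝ) ^ (-ε) := by
          rw [← Real.rpow_add hN0]
          exact Real.rpow_le_rpow_of_exponent_le hN1 (by linarith)
      _ ≤ _ := mul_le_mul_of_nonneg_right hAA (by positivity)
  have hE12 : E₁ ≤ 2 * E₂ := by
    have h1 : (N : ℝ) ^ (-ε) ≤ (N : ℝ) ^ ε := Real.rpow_le_rpow_of_exponent_le hN1 (by linarith)
    have h2 := mul_le_mul_of_nonneg_left h1 hA0.le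
    rw [hE₁, hE₂]
    have : 0 ≤ A * (N : ℝ) ^ ε := by positivity
    linarith
  set sl := (range J).filter (fun j => (2 : ℝ) ^ j ≤ E₁) with hsl
  set sh := (range J).filter (fun j => E₂ ≤ (2 : ℝ) ^ j) with hsh
  set sm := (range J).filter (fun j => E₁ < (2 : ℝ) ^ j ∧ (2 : ℝ) ^ j < E₂) with hsm
  have hE12' : E₁ < E₂ := by
    rw [hE₁, hE₂]
    apply mul_lt_mul_of_pos_left _ hA0
    exact Real.rpow_lt_rpow_of_exponent_lt (by linarith) (by linarith)
  have hsplit : ∀ a : ℤ, Mob.FS z Y a = (∑ j ∈ sl, MobK.Fj z Y j a) + (∑ j ∈ sm, MobK.Fj z Y j a)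
      + ∑ j ∈ sh, MobK.Fj z Y j a := by
    intro a
    rw [Mob.FS_eq hD (by linarith) hJY, Mob.dyadic, hsl, hsm, hsh, sum_filter, sum_filter,
      sum_filter, ← sum_add_distrib, ← sum_add_distrib]
    refine sum_congr rfl fun j _ => ?_
    change MobK.Fj z Y j a = _
    rcases le_or_gt ((2 : ℝ) ^ j) E₁ with h1 | h1
    · rw [if_pos h1, if_neg (fun h => absurd h.1 (not_lt.2 h1)),
        if_neg (not_le.2 (lt_of_le_of_lt h1 hE12'))]
      ring
    · rcases le_or_gt E₂ ((2 : ℝ) ^ j) with h2 | h2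
      · rw [if_neg (not_le.2 h1), if_neg (fun h => absurd h.2 (not_lt.2 h2)), if_pos h2]
        ring
      · rw [if_neg (not_le.2 h1), if_pos ⟨h1, h2⟩, if_neg (not_le.2 h2)]
        ring
  -- the middle part
  have hmid : ∀ a : ℤ, |∑ j ∈ sm, MobK.Fj z Y j a| ≤ δ / 2 := by
    intro a
    refine (MobK.mid hE₁0 sm (filter_subset _ _) (fun j hj => (mem_filter.1 hj).2) a).trans ?_
    have hzN : z ≤ N := by
      calc z ≤ (N : ℝ) ^ (1 : ℝ) := Real.rpow_le_rpow_of_exponent_le hN1 (by linarith)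
        _ = N := Real.rpow_one _
    have h1 := MobK.G_le hCR (z := z) (Y := Y) (N := N) (by linarith) hzN hYNn
    have h2 : MobK.G z Y ≤ (1 + 2 * CR) / e0 := by
      refine h1.trans ?_
      have h3 : Real.log (N / z) ≤ Real.log N := by
        apply Real.log_le_log (by positivity)
        exact div_le_self hN0.le (by linarith)
      have h4 : CR * (Real.log (N / z) + 1) / Real.log z ≤ 2 * CR / e0 := by
        rw [hlogz, div_le_div_iff₀ (by positivity) he0]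
        have : CR * (Real.log (N / z) + 1) * e0 ≤ CR * (2 * Real.log N) * e0 := by
          apply mul_le_mul_of_nonneg_right _ he0.le
          apply mul_le_mul_of_nonneg_left _ hCR0.le
          linarith
        linarith
      have h5 : 1 ≤ 1 / e0 := by
        rw [le_div_iff₀ he0]
        linarith
      have h6 : (1 + 2 * CR) / e0 = 1 / e0 + 2 * CR / e0 := by ring
      rw [h6]
      linarith
    have h3 := hCR z E₁ (2 * E₂) (by linarith) hzE₁ hE12
    have h4 : Real.log (2 * E₂ / E₁) = Real.log 2 + 2 * ε * Real.log N := by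
      have h5 : 2 * E₂ / E₁ = 2 * (N : ℝ) ^ (2 * ε) := by
        rw [hE₁, hE₂, Real.rpow_neg hN0.le, two_mul ε, Real.rpow_add hN0]
        field_simp
      rw [h5, Real.log_mul (by norm_num) (by positivity), Real.log_rpow hN0]
    have h5 : CR * (Real.log (2 * E₂ / E₁) + 1) / Real.log z ≤ 4 * ε * CR / e0 := by
      rw [h4, hlogz, div_le_div_iff₀ (by positivity) he0]
      have h6 : Real.log 2 ≤ 1 := by
        have := Real.log_two_lt_d9
        linarith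
      have h7 : 1 ≤ ε * Real.log N := by
        rw [div_le_iff₀ hε0] at hlog
        linarith
      have h8 : Real.log 2 + 2 * ε * Real.log N + 1 ≤ 4 * ε * Real.log N := by linarith
      calc CR * (Real.log 2 + 2 * ε * Real.log N + 1) * e0 ≤ CR * (4 * ε * Real.log N) * e0 := by
            apply mul_le_mul_of_nonneg_right _ he0.le
            exact mul_le_mul_of_nonneg_left h8 hCR0.le
        _ = _ := by ring
    have hsum0 : 0 ≤ ∑ e ∈ Icc ⌈E₁⌉₊ ⌊2 * E₂⌋₊, rInd z e / (e : ℝ) := by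
      apply sum_nonneg
      intro g _
      have := MobK.rInd_nonneg z g
      positivity
    calc MobK.G z Y * ∑ e ∈ Icc ⌈E₁⌉₊ ⌊2 * E₂⌋₊, rInd z e / (e : ℝ)
        ≤ (1 + 2 * CR) / e0 * (4 * ε * CR / e0) :=
          mul_le_mul h2 (h3.trans h5) hsum0 (by positivity)
      _ = ε * (8 * ((1 + 2 * CR) * CR)) / (2 * e0 ^ 2) := by
          field_simp
          ring
      _ ≤ δ * e0 ^ 2 / (2 * e0 ^ 2) := div_le_div_of_nonneg_right hεδ (by positivity)
      _ = δ / 2 := by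
          field_simp
  -- second moments
  have hAε : (A : ℝ) ^ (ε / 4) ≤ (N : ℝ) ^ (ε / 2) := by
    calc (A : ℝ) ^ (ε / 4) ≤ ((N : ℝ) ^ (2 : ℝ)) ^ (ε / 4) :=
          Real.rpow_le_rpow hA0.le hAN2 (by positivity)
      _ = _ := by
          rw [← Real.rpow_mul hN0.le]
          congr 1
          ring
  have hLp : (1 + Real.log Y) ^ 2 ≤ (1 + Real.log N) ^ 2 := pow_le_pow_left₀ hL0 hLL 2
  have hl0 : 0 < 1 + Real.log N := by linarith
  have hlow : ∑ a ∈ IA A, (∑ j ∈ sl, MobK.Fj z Y j a) ^ 2 ≤ δ ^ 3 / 32 * A := by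
    have hB : ∀ j ∈ sl, ∑ a ∈ IA A, (MobK.Fj z Y j a) ^ 2 ≤
        C₁ * (1 + Real.log Y) ^ 2 * (2 * A / z + E₁ ^ (1 + ε / 4)) := by
      intro j hj
      exact MobK.low (by positivity) hC₁0 hC₁ (by linarith) hY1 hA1' j (mem_filter.1 hj).2
    refine (MobK.sq_sum sl (filter_subset _ _) (by positivity) hB).trans ?_
    have h1 : 2 * (A : ℝ) / z = A * (2 * (N : ℝ) ^ (-e0)) := by
      rw [Real.rpow_neg hN0.le, ← hzdef]
      ring
    have h2 : E₁ ^ (1 + ε / 4) ≤ A * (N : ℝ) ^ (-(ε / 2)) := by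
      have h3 : (N : ℝ) ^ (-ε * (1 + ε / 4)) ≤ (N : ℝ) ^ (-ε) :=
        Real.rpow_le_rpow_of_exponent_le hN1 (by nlinarith)
      calc E₁ ^ (1 + ε / 4) = (A : ℝ) ^ (1 + ε / 4) * (N : ℝ) ^ (-ε * (1 + ε / 4)) := by
            rw [hE₁, Real.mul_rpow hA0.le (by positivity), ← Real.rpow_mul hN0.le]
        _ ≤ (A : ℝ) ^ (1 + ε / 4) * (N : ℝ) ^ (-ε) :=
            mul_le_mul_of_nonneg_left h3 (by positivity)
        _ = A * ((A : ℝ) ^ (ε / 4) * (N : ℝ) ^ (-ε)) := by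
            rw [Real.rpow_add hA0, Real.rpow_one]
            ring
        _ ≤ A * ((N : ℝ) ^ (ε / 2) * (N : ℝ) ^ (-ε)) := by
            apply mul_le_mul_of_nonneg_left _ hA0.le
            exact mul_le_mul_of_nonneg_right hAε (by positivity)
        _ = _ := by
            rw [← Real.rpow_add hN0]
            congr 2
            ring
    calc (J : ℝ) ^ 2 * (C₁ * (1 + Real.log Y) ^ 2 * (2 * A / z + E₁ ^ (1 + ε / 4)))
        ≤ (2 * (1 + Real.log N)) ^ 2 * (C₁ * (1 + Real.log N) ^ 2 *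
          (A * (2 * (N : ℝ) ^ (-e0)) + A * (N : ℝ) ^ (-(ε / 2)))) := by
          apply mul_le_mul
          · exact pow_le_pow_left₀ (Nat.cast_nonneg _) hJL 2
          · apply mul_le_mul (mul_le_mul_of_nonneg_left hLp hC₁0.le) _ (by positivity)
              (by positivity)
            rw [h1]
            linarith
          · positivity
          · positivity
      _ = 4 * C₁ * A * (2 * ((1 + Real.log N) ^ 4 * (N : ℝ) ^ (-e0))
          + (1 + Real.log N) ^ 4 * (N : ℝ) ^ (-(ε / 2))) := by ring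
      _ ≤ 4 * C₁ * A * (2 * η + η) := by
          apply mul_le_mul_of_nonneg_left _ (by positivity)
          linarith
      _ ≤ M * A * (3 * η) := by
          have : 4 * C₁ ≤ M := by rw [hM]; linarith
          have h4 : 0 ≤ A * (3 * η) := by positivity
          calc 4 * C₁ * A * (2 * η + η) = (4 * C₁) * (A * (3 * η)) := by ring
            _ ≤ M * (A * (3 * η)) := mul_le_mul_of_nonneg_right this h4
            _ = _ := by ring
      _ = _ := by
          rw [hη]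
          field_simp
          ring
  have hhigh : ∑ a ∈ IA A, (∑ j ∈ sh, MobK.Fj z Y j a) ^ 2 ≤ δ ^ 3 / 32 * A := by
    have hB : ∀ j ∈ sh, ∑ a ∈ IA A, (MobK.Fj z Y j a) ^ 2 ≤
        C₂ * (1 + Real.log Y) ^ 2 * (√(A : ℝ) + (A : ℝ) ^ (2 + ε / 4) / E₂) := by
      intro j hj
      exact MobK.high hC₂0 hC₂ (by linarith) hY1 hA1' hE₂0 j (mem_filter.1 hj).2
    refine (MobK.sq_sum sh (filter_subset _ _) (by positivity) hB).trans ?_
    have h1 : √(A : ℝ) ≤ A * (N : ℝ) ^ (-(3 / 10) : ℝ) := by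
      have h3 : (N : ℝ) ^ (3 / 10 : ℝ) ≤ √(A : ℝ) := by
        rw [Real.sqrt_eq_rpow]
        calc (N : ℝ) ^ (3 / 10 : ℝ) = ((N : ℝ) ^ (3 / 5 : ℝ)) ^ (1 / 2 : ℝ) := by
              rw [← Real.rpow_mul hN0.le]
              norm_num
          _ ≤ _ := Real.rpow_le_rpow (by positivity) hAA (by norm_num)
      have h4 : 0 < (N : ℝ) ^ (3 / 10 : ℝ) := by positivity
      rw [Real.rpow_neg hN0.le, ← div_eq_mul_inv, le_div_iff₀ h4]
      calc √(A : ℝ) * (N : ℝ) ^ (3 / 10 : ℝ) ≤ √(A : ℝ) * √(A : ℝ) :=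
            mul_le_mul_of_nonneg_left h3 (Real.sqrt_nonneg _)
        _ = A := Real.mul_self_sqrt hA0.le
    have h2 : (A : ℝ) ^ (2 + ε / 4) / E₂ ≤ A * (N : ℝ) ^ (-(ε / 2)) := by
      rw [div_le_iff₀ hE₂0, hE₂]
      calc (A : ℝ) ^ (2 + ε / 4) = A ^ (2 : ℝ) * (A : ℝ) ^ (ε / 4) := Real.rpow_add hA0 _ _
        _ ≤ A ^ (2 : ℝ) * (N : ℝ) ^ (ε / 2) := mul_le_mul_of_nonneg_left hAε (by positivity)
        _ = A * (N : ℝ) ^ (-(ε / 2)) * (A * (N : ℝ) ^ ε) := by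
            have h5 : (N : ℝ) ^ (ε / 2) = (N : ℝ) ^ (-(ε / 2)) * (N : ℝ) ^ ε := by
              rw [← Real.rpow_add hN0]
              congr 1
              ring
            rw [h5, Real.rpow_two]
            ring
    calc (J : ℝ) ^ 2 * (C₂ * (1 + Real.log Y) ^ 2 * (√(A : ℝ) + (A : ℝ) ^ (2 + ε / 4) / E₂))
        ≤ (2 * (1 + Real.log N)) ^ 2 * (C₂ * (1 + Real.log N) ^ 2 *
          (A * (N : ℝ) ^ (-(3 / 10) : ℝ) + A * (N : ℝ) ^ (-(ε / 2)))) := by
          apply mul_le_mul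
          · exact pow_le_pow_left₀ (Nat.cast_nonneg _) hJL 2
          · apply mul_le_mul (mul_le_mul_of_nonneg_left hLp hC₂0.le) _ (by positivity)
              (by positivity)
            linarith
          · positivity
          · positivity
      _ = 4 * C₂ * A * ((1 + Real.log N) ^ 4 * (N : ℝ) ^ (-(3 / 10) : ℝ)
          + (1 + Real.log N) ^ 4 * (N : ℝ) ^ (-(ε / 2))) := by ring
      _ ≤ 4 * C₂ * A * (η + η) := by
          apply mul_le_mul_of_nonneg_left _ (by positivity)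
          linarith
      _ ≤ M * A * (3 * η) := by
          have : 4 * C₂ ≤ M := by rw [hM]; linarith
          have h4 : 0 ≤ A * (3 * η) := by positivity
          calc 4 * C₂ * A * (η + η) ≤ (4 * C₂) * (A * (3 * η)) := by
                have : 0 ≤ 4 * C₂ * A * η := by positivity
                nlinarith
            _ ≤ M * (A * (3 * η)) := mul_le_mul_of_nonneg_right this h4
            _ = _ := by ring
      _ = _ := by
          rw [hη]
          field_simp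
          ring
  -- Chebyshev
  have hδ4 : 0 < δ / 4 := by positivity
  have cheb : ∀ s : Finset ℕ, (((IA A).filter (fun a => δ / 4 < |∑ j ∈ s, MobK.Fj z Y j a|)).card : ℝ)
      * (δ / 4) ^ 2 ≤ ∑ a ∈ IA A, (∑ j ∈ s, MobK.Fj z Y j a) ^ 2 := by
    intro s
    calc _ = ∑ a ∈ (IA A).filter (fun a => δ / 4 < |∑ j ∈ s, MobK.Fj z Y j a|), (δ / 4) ^ 2 := by
          rw [sum_const, nsmul_eq_mul]
      _ ≤ ∑ a ∈ (IA A).filter (fun a => δ / 4 < |∑ j ∈ s, MobK.Fj z Y j a|),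
            (∑ j ∈ s, MobK.Fj z Y j a) ^ 2 := by
          refine sum_le_sum fun a ha => ?_
          rw [← sq_abs (∑ j ∈ s, MobK.Fj z Y j a)]
          exact pow_le_pow_left₀ hδ4.le (mem_filter.1 ha).2.le 2
      _ ≤ _ := sum_le_sum_of_subset_of_nonneg (filter_subset _ _) fun a _ _ => sq_nonneg _
  have hcard : ∀ s : Finset ℕ, ∑ a ∈ IA A, (∑ j ∈ s, MobK.Fj z Y j a) ^ 2 ≤ δ ^ 3 / 32 * A →
      (((IA A).filter (fun a => δ / 4 < |∑ j ∈ s, MobK.Fj z Y j a|)).card : ℝ) ≤ δ / 2 * A := by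
    intro s hs
    have h1 := (cheb s).trans hs
    have h2 : δ ^ 3 / 32 * (A : ℝ) = (δ / 2 * A) * (δ / 4) ^ 2 := by ring
    rw [h2] at h1
    exact le_of_mul_le_mul_right h1 (by positivity)
  have hsub : (IA A).filter (fun a => ¬ |∑ k ∈ (Icc 1 ⌊YK N κ⌋₊).filter
      (fun k => Rough ((N : ℝ) ^ e0) k),
      (ArithmeticFunction.moebius k : ℝ) * ((rho a k : ℝ) - 1) / k| ≤ δ) ⊆
      (IA A).filter (fun a => δ / 4 < |∑ j ∈ sl, MobK.Fj z Y j a|) ∪
      (IA A).filter (fun a => δ / 4 < |∑ j ∈ sh, MobK.Fj z Y j a|) := by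
    intro a ha
    rw [mem_filter] at ha
    rw [mem_union, mem_filter, mem_filter]
    by_contra hcon
    rw [not_or] at hcon
    have h1 : |∑ j ∈ sl, MobK.Fj z Y j a| ≤ δ / 4 := by
      by_contra h
      exact hcon.1 ⟨ha.1, not_le.1 h⟩
    have h2 : |∑ j ∈ sh, MobK.Fj z Y j a| ≤ δ / 4 := by
      by_contra h
      exact hcon.2 ⟨ha.1, not_le.1 h⟩
    apply ha.2
    change |Mob.FS z Y a| ≤ δ
    rw [hsplit]
    have h3 := abs_add_le ((∑ j ∈ sl, MobK.Fj z Y j a) + (∑ j ∈ sm, MobK.Fj z Y j a))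
      (∑ j ∈ sh, MobK.Fj z Y j a)
    have h4 := abs_add_le (∑ j ∈ sl, MobK.Fj z Y j a) (∑ j ∈ sm, MobK.Fj z Y j a)
    have h5 := hmid a
    linarith
  calc _ ≤ ((((IA A).filter (fun a => δ / 4 < |∑ j ∈ sl, MobK.Fj z Y j a|)) ∪
        ((IA A).filter (fun a => δ / 4 < |∑ j ∈ sh, MobK.Fj z Y j a|))).card : ℝ) := by
        exact_mod_cast card_le_card hsub
    _ ≤ (((IA A).filter (fun a => δ / 4 < |∑ j ∈ sl, MobK.Fj z Y j a|)).card : ℝ) +
        (((IA A).filter (fun a => δ / 4 < |∑ j ∈ sh, MobK.Fj z Y j a|)).card : ℝ) := by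
        exact_mod_cast card_union_le _ _
    _ ≤ δ / 2 * A + δ / 2 * A := add_le_add (hcard sl hlow) (hcard sh hhigh)
    _ = δ * A := by ring

end Pool.Agent.Lib.MP391708.QPA
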