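import Pool.Agent.Lib.MP_391708_nt.QPA.Mob

/-!
# MTA: the main term for `α * β^♯`
-/

set_option autoImplicit false

namespace Pool.Agent.Lib.MP391708.QPA

namespace Mta

open Finset Filter Topology
open scoped Classical

noncomputable section

/-- the primes `≤ w` -/
def S (w : ℕ) : Finset ℕ := PB ((w : ℝ) + 1)

lemma mem_S {w p : ℕ} : p ∈ S w ↔ p.Prime ∧ p ≤ w := by
  unfold S PB
  rw [mem_filter, mem_range, Nat.lt_ceil]
  constructor
  · rintro ⟨h1, h2⟩
    have : p < w + 1 := by exact_mod_cast h1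
    exact ⟨h2, by omega⟩
  · rintro ⟨h1, h2⟩
    refine ⟨?_, h1⟩
    have : p < w + 1 := by omega
    exact_mod_cast this

lemma rInd_eq (w m : ℕ) :
    rInd ((w : ℝ) + 1) m = ∏ p ∈ S w, (1 + -(if p ∣ m then (1 : ℝ) else 0)) := by
  unfold rInd
  split_ifs with h
  · symm
    apply prod_eq_one
    intro p hp
    have hp' := mem_S.1 hp
    rw [if_neg]
    · simp
    · intro hd
      have h1 := h p hp'.1 hd
      have h2 : (p : ℝ) ≤ w := by exact_mod_cast hp'.2
      linarith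
  · unfold Rough at h
    push Not at h
    obtain ⟨p, hp, hd, hlt⟩ := h
    symm
    apply prod_eq_zero (i := p)
    · rw [mem_S]
      refine ⟨hp, ?_⟩
      have : p < w + 1 := by exact_mod_cast hlt
      omega
    · rw [if_pos hd]
      norm_num

lemma prod_dvd_iff {t : Finset ℕ} (ht : ∀ p ∈ t, p.Prime) (m : ℕ) :
    (∏ p ∈ t, p) ∣ m ↔ ∀ p ∈ t, p ∣ m := by
  constructor
  · intro h p hp
    exact (dvd_prod_of_mem _ hp).trans h
  · intro h
    exact Finset.prod_primes_dvd m (fun p hp => (ht p hp).prime) h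

lemma coprime_prod {w k : ℕ} (hk : ∀ p ∈ S w, Nat.Coprime p k) {t : Finset ℕ} (ht : t ⊆ S w) :
    Nat.Coprime k (∏ p ∈ t, p) :=
  Nat.Coprime.prod_right fun p hp => (hk p (ht hp)).symm

lemma ident {w k : ℕ} (hk1 : 1 ≤ k) (hk : ∀ p ∈ S w, Nat.Coprime p k) (m : ℕ) :
    (if k ∣ m then rInd ((w : ℝ) + 1) (m / k) else 0) =
      ∑ t ∈ (S w).powerset, (-1 : ℝ) ^ t.card * (if k * ∏ p ∈ t, p ∣ m then 1 else 0) := by
  by_cases hkm : k ∣ m
  · rw [if_pos hkm, rInd_eq]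
    have h1 : ∏ p ∈ S w, (1 + -(if p ∣ m / k then (1 : ℝ) else 0)) =
        ∏ p ∈ S w, (1 + -(if p ∣ m then (1 : ℝ) else 0)) := by
      refine prod_congr rfl fun p hp => ?_
      have h2 : p ∣ m / k ↔ p ∣ m := by
        constructor
        · intro h
          exact h.trans (Nat.div_dvd_of_dvd hkm)
        · intro h
          obtain ⟨r, rfl⟩ := hkm
          rw [Nat.mul_div_cancel_left _ (by omega)]
          exact (hk p hp).dvd_of_dvd_mul_left h
      simp only [h2]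
    rw [h1, prod_one_add]
    refine sum_congr rfl fun t ht => ?_
    have ht' := mem_powerset.1 ht
    rw [prod_neg]
    congr 1
    have h2 : k * ∏ p ∈ t, p ∣ m ↔ ∀ p ∈ t, p ∣ m := by
      rw [← prod_dvd_iff (fun p hp => (mem_S.1 (ht' hp)).1)]
      constructor
      · intro h
        exact (dvd_mul_left _ _).trans h
      · intro h
        exact (coprime_prod hk ht').mul_dvd_of_dvd_of_dvd hkm h
    by_cases h3 : ∀ p ∈ t, p ∣ m
    · rw [if_pos (h2.2 h3)]
      exact prod_eq_one fun p hp => by rw [if_pos (h3 p hp)]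
    · rw [if_neg (fun h => h3 (h2.1 h))]
      push Not at h3
      obtain ⟨p, hp, hd⟩ := h3
      exact prod_eq_zero hp (by rw [if_neg hd])
  · rw [if_neg hkm]
    symm
    apply sum_eq_zero
    intro t _
    rw [if_neg, mul_zero]
    intro h
    exact hkm ((dvd_mul_right _ _).trans h)

lemma rho_mul_prod (hM : SpecRHOM) (a : ℤ) {w k : ℕ} (hk1 : 1 ≤ k)
    (hk : ∀ p ∈ S w, Nat.Coprime p k) {t : Finset ℕ} (ht : t ⊆ S w) :
    rho a (k * ∏ p ∈ t, p) = rho a k * ∏ p ∈ t, rho a p := by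
  induction t using Finset.induction_on with
  | empty => simp
  | insert p t hp ih =>
    have ht1 : t ⊆ S w := (subset_insert _ _).trans ht
    have hpS : p ∈ S w := ht (mem_insert_self _ _)
    have hpp : p.Prime := (mem_S.1 hpS).1
    rw [prod_insert hp, prod_insert hp, show k * (p * ∏ q ∈ t, q) = (k * ∏ q ∈ t, q) * p by ring,
      hM a _ p, ih ht1]
    · ring
    · apply Nat.Coprime.mul_left (hk p hpS).symm
      apply Nat.Coprime.prod_left
      intro q hq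
      rw [Nat.coprime_primes (mem_S.1 (ht1 hq)).1 hpp]
      rintro rfl
      exact hp hq
    · have : ∏ q ∈ t, q ≠ 0 := prod_ne_zero_iff.2 fun q hq => (mem_S.1 (ht1 hq)).1.ne_zero
      have := Nat.mul_pos (by omega : 0 < k) (Nat.pos_of_ne_zero this)
      omega
    · exact hpp.one_le

lemma rho_le (a : ℤ) (k : ℕ) : rho a k ≤ k := by
  unfold rho
  exact (card_filter_le _ _).trans (card_range k).le

/-- `∏_{p ≤ w} (1-ρ_a(p)/p)` -/
def R (w : ℕ) (a : ℤ) : ℝ := ∏ p ∈ S w, (1 - (rho a p : ℝ) / p)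

/-- `∏_{p ≤ w} (1+p)` -/
def E (w : ℕ) : ℝ := ∏ p ∈ S w, (1 + (p : ℝ))

lemma E_one_le (w : ℕ) : 1 ≤ E w := by
  unfold E
  calc (1 : ℝ) = ∏ p ∈ S w, (1 : ℝ) := by simp
    _ ≤ _ := prod_le_prod (fun p _ => zero_le_one) fun p _ => by
      have : (0 : ℝ) ≤ p := Nat.cast_nonneg p
      linarith

lemma R_nonneg (w : ℕ) (a : ℤ) : 0 ≤ R w a ∧ R w a ≤ 1 := by
  unfold R
  have h : ∀ p ∈ S w, 0 ≤ 1 - (rho a p : ℝ) / p ∧ 1 - (rho a p : ℝ) / p ≤ 1 := by
    intro p hp
    have h0 : (0 : ℝ) < p := by exact_mod_cast (mem_S.1 hp).1.pos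
    constructor
    · rw [sub_nonneg, div_le_one h0]
      exact_mod_cast rho_le a p
    · have : (0 : ℝ) ≤ (rho a p : ℝ) / p := by positivity
      linarith
  exact ⟨prod_nonneg fun p hp => (h p hp).1, prod_le_one (fun p hp => (h p hp).1) fun p hp => (h p hp).2⟩

lemma Vw_R (w : ℕ) (a : ℤ) : Vw w * R w a = Gw w a := by
  unfold Vw R Gw S
  rw [← prod_mul_distrib]
  refine prod_congr rfl fun p _ => ?_
  rw [div_eq_mul_inv _ (1 - 1 / (p : ℝ)), mul_comm]

lemma Vw_pos (w : ℕ) : 0 < Vw w := by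
  unfold Vw
  apply prod_pos
  intro p hp
  apply inv_pos.2
  have hp2 : (2 : ℝ) ≤ p := by exact_mod_cast (mem_filter.1 hp).2.two_le
  have h : 1 / (p : ℝ) ≤ 1 / 2 := one_div_le_one_div_of_le (by norm_num) hp2
  linarith

/-- the count in an interval -/
lemma count_Ioc (hC : SpecRHOC) (hM : SpecRHOM) (a : ℤ) {w k : ℕ} (hk1 : 1 ≤ k)
    (hk : ∀ p ∈ S w, Nat.Coprime p k) (u H : ℕ) :
    |(∑ n ∈ Ioc u (u + H), if k ∣ val a n then rInd ((w : ℝ) + 1) (val a n / k) else 0)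
      - R w a * ((rho a k : ℝ) / k) * H| ≤ rho a k * E w := by
  have e1 : (∑ n ∈ Ioc u (u + H), if k ∣ val a n then rInd ((w : ℝ) + 1) (val a n / k) else 0)
      = ∑ t ∈ (S w).powerset, (-1 : ℝ) ^ t.card *
        (((Ioc u (u + H)).filter (fun n => k * ∏ p ∈ t, p ∣ val a n)).card : ℝ) := by
    rw [sum_congr rfl (fun n _ => ident hk1 hk (val a n)), sum_comm]
    refine sum_congr rfl fun t _ => ?_
    rw [← mul_sum]
    congr 1
    rw [← sum_filter, sum_const, nsmul_eq_mul, mul_one]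
  have e2 : R w a * ((rho a k : ℝ) / k) * H = ∑ t ∈ (S w).powerset, (-1 : ℝ) ^ t.card *
      ((rho a (k * ∏ p ∈ t, p) : ℝ) * H / ((k * ∏ p ∈ t, p : ℕ) : ℝ)) := by
    have : R w a = ∑ t ∈ (S w).powerset, (-1 : ℝ) ^ t.card * ∏ p ∈ t, ((rho a p : ℝ) / p) := by
      unfold R
      simp only [sub_eq_add_neg]
      rw [prod_one_add]
      refine sum_congr rfl fun t _ => ?_
      rw [prod_neg]
    rw [this, sum_mul, sum_mul]
    refine sum_congr rfl fun t ht => ?_
    have ht' := mem_powerset.1 ht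
    rw [rho_mul_prod hM a hk1 hk ht', prod_div_distrib]
    push_cast
    have h0 : (∏ p ∈ t, (p : ℝ)) ≠ 0 := prod_ne_zero_iff.2 fun q hq => by
      have := (mem_S.1 (ht' hq)).1.ne_zero
      exact_mod_cast this
    have hk0 : (k : ℝ) ≠ 0 := by
      have : k ≠ 0 := by omega
      exact_mod_cast this
    field_simp
  rw [e1, e2, ← sum_sub_distrib]
  refine (abs_sum_le_sum_abs _ _).trans ?_
  have e3 : (rho a k : ℝ) * E w ≥ ∑ t ∈ (S w).powerset, (rho a (k * ∏ p ∈ t, p) : ℝ) := by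
    unfold E
    rw [prod_one_add, mul_sum]
    refine sum_le_sum fun t ht => ?_
    rw [rho_mul_prod hM a hk1 hk (mem_powerset.1 ht)]
    push_cast
    apply mul_le_mul_of_nonneg_left _ (Nat.cast_nonneg _)
    apply prod_le_prod (fun p _ => Nat.cast_nonneg _)
    intro p _
    exact_mod_cast rho_le a p
  refine le_trans (sum_le_sum fun t ht => ?_) e3
  rw [← mul_sub, abs_mul, abs_pow, abs_neg, abs_one, one_pow, one_mul]
  apply hC
  have ht' := mem_powerset.1 ht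
  have : ∏ q ∈ t, q ≠ 0 := prod_ne_zero_iff.2 fun q hq => (mem_S.1 (ht' hq)).1.ne_zero
  have := Nat.mul_pos (by omega : 0 < k) (Nat.pos_of_ne_zero this)
  omega

lemma sqrt_shift {y a : ℝ} {Nr : ℝ} (hN : 0 < Nr) (hy : Nr ^ 2 / 4 ≤ y) (hya : 0 ≤ y - a) :
    |√(y - a) - √y| ≤ 2 * |a| / Nr := by
  have hy0 : 0 ≤ y := le_trans (by positivity) hy
  have h1 : Nr / 2 ≤ √y := by
    apply Real.le_sqrt_of_sq_le
    calc (Nr / 2) ^ 2 = Nr ^ 2 / 4 := by ring
      _ ≤ y := hy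
  have h2 : (√(y - a) - √y) * (√(y - a) + √y) = -a := by
    have e1 := Real.mul_self_sqrt hya
    have e2 := Real.mul_self_sqrt hy0
    nlinarith
  have h3 : 0 < √(y - a) + √y := by
    have := Real.sqrt_nonneg (y - a)
    have : 0 < Nr / 2 := by positivity
    linarith
  have h4 : |√(y - a) - √y| * (√(y - a) + √y) = |a| := by
    calc |√(y - a) - √y| * (√(y - a) + √y) = |√(y - a) - √y| * |√(y - a) + √y| := by
          rw [abs_of_pos h3]
      _ = |(√(y - a) - √y) * (√(y - a) + √y)| := (abs_mul _ _).symm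
      _ = |a| := by rw [h2, abs_neg]
  have h5 : |√(y - a) - √y| * (Nr / 2) ≤ |a| := by
    rw [← h4]
    apply mul_le_mul_of_nonneg_left _ (abs_nonneg _)
    have := Real.sqrt_nonneg (y - a)
    linarith
  rw [le_div_iff₀ hN]
  linarith

/-- the count for one piece -/
lemma count_piece (hC : SpecRHOC) (hM : SpecRHOM) {N A : ℕ} {a : ℤ} (hN : 1 ≤ N)
    (ha : |(a : ℝ)| ≤ A) (hA : (A : ℝ) ≤ (N : ℝ) ^ 2 / 8) {w k : ℕ} (hk1 : 1 ≤ k)
    (hk : ∀ p ∈ S w, Nat.Coprime p k) {x x' : ℝ} (hx : (N : ℝ) ^ 2 / 2 ≤ k * x) (hxx : x ≤ x')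
    (hx' : k * x' ≤ 32 * (N : ℝ) ^ 2) :
    |(∑ n ∈ Icc 1 (8 * N), if k ∣ val a n ∧ x < ((val a n / k : ℕ) : ℝ) ∧
          ((val a n / k : ℕ) : ℝ) ≤ x' then rInd ((w : ℝ) + 1) (val a n / k) else 0)
      - R w a * ((rho a k : ℝ) / k) * (√(k * x') - √(k * x))| ≤
      rho a k * (E w + 1 + 4 * A / N) := by
  have hN0 : (0 : ℝ) < N := by exact_mod_cast hN
  have hk0 : (0 : ℝ) < k := by exact_mod_cast hk1
  have habs := abs_le.1 ha
  have hN2 : 0 < (N : ℝ) ^ 2 := by positivity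
  have hp1 : 0 < k * x - a := by linarith
  have hxx' : k * x ≤ k * x' := mul_le_mul_of_nonneg_left hxx hk0.le
  have hp2 : 0 < k * x' - a := by linarith
  set u : ℕ := ⌊√(k * x - a)⌋₊ with hu
  set v : ℕ := ⌊√(k * x' - a)⌋₊ with hv
  have huv : u ≤ v := Nat.floor_le_floor (Real.sqrt_le_sqrt (by linarith))
  obtain ⟨H, hH⟩ := Nat.exists_eq_add_of_le huv
  have hv8 : v ≤ 8 * N := by
    have h1 : √(k * x' - a) ≤ ((8 * N : ℕ) : ℝ) := by
      apply Real.sqrt_le_iff.2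
      refine ⟨Nat.cast_nonneg _, ?_⟩
      push_cast
      nlinarith
    have := Nat.floor_le_floor h1
    rwa [Nat.floor_natCast] at this
  have hcond : ∀ n : ℕ, k ∣ val a n →
      ((x < ((val a n / k : ℕ) : ℝ) ∧ ((val a n / k : ℕ) : ℝ) ≤ x') ↔ n ∈ Ioc u v) := by
    intro n hd
    have hdiv : ((val a n / k : ℕ) : ℝ) = (val a n : ℝ) / k := by
      rw [Nat.cast_div hd hk0.ne']
    have hval : (val a n : ℝ) = |(n : ℝ) ^ 2 + a| := by
      unfold val
      rw [Nat.cast_natAbs]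
      push_cast
      rfl
    rw [hdiv, hval, mem_Ioc, lt_div_iff₀ hk0, div_le_iff₀ hk0, mul_comm x, mul_comm x',
      hu, hv, Nat.floor_lt (Real.sqrt_nonneg _), Nat.le_floor_iff (Real.sqrt_nonneg _)]
    have hn0 : (0 : ℝ) ≤ n := Nat.cast_nonneg n
    constructor
    · rintro ⟨h1, h2⟩
      have h3 : 0 < (n : ℝ) ^ 2 + a := by
        by_contra hcon
        rw [not_lt] at hcon
        rw [abs_of_nonpos hcon] at h1
        have : 0 ≤ (n : ℝ) ^ 2 := sq_nonneg _
        linarith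
      rw [abs_of_pos h3] at h1 h2
      refine ⟨?_, ?_⟩
      · apply (Real.sqrt_lt_sqrt hp1.le (show k * x - a < (n : ℝ) ^ 2 by linarith)).trans_le
        rw [Real.sqrt_sq hn0]
      · apply Real.le_sqrt_of_sq_le
        linarith
    · rintro ⟨h1, h2⟩
      have h3 : k * x - a < (n : ℝ) ^ 2 := by
        have := Real.sq_sqrt hp1.le
        have h4 := Real.sqrt_nonneg (k * x - a)
        nlinarith
      have h5 : (n : ℝ) ^ 2 ≤ k * x' - a := by
        have := Real.sq_sqrt hp2.le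
        have h4 := Real.sqrt_nonneg (k * x' - a)
        nlinarith
      have h6 : 0 < (n : ℝ) ^ 2 + a := by linarith
      rw [abs_of_pos h6]
      exact ⟨by linarith, by linarith⟩
  have e1 : (∑ n ∈ Icc 1 (8 * N), if k ∣ val a n ∧ x < ((val a n / k : ℕ) : ℝ) ∧
          ((val a n / k : ℕ) : ℝ) ≤ x' then rInd ((w : ℝ) + 1) (val a n / k) else 0) =
      ∑ n ∈ Ioc u (u + H), if k ∣ val a n then rInd ((w : ℝ) + 1) (val a n / k) else 0 := by
    rw [← hH]
    have hsub : Ioc u v ⊆ Icc 1 (8 * N) := by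
      intro n hn
      rw [mem_Ioc] at hn
      rw [mem_Icc]
      omega
    rw [← sum_subset hsub]
    · refine sum_congr rfl fun n hn => ?_
      by_cases hd : k ∣ val a n
      · rw [if_pos ⟨hd, (hcond n hd).2 hn⟩, if_pos hd]
      · rw [if_neg (fun h => hd h.1), if_neg hd]
    · intro n _ hn
      rw [if_neg]
      rintro ⟨hd, h2⟩
      exact hn ((hcond n hd).1 h2)
  rw [e1]
  have h1 := count_Ioc hC hM a hk1 hk u H
  have hHr : |(H : ℝ) - (√(k * x' - a) - √(k * x - a))| ≤ 1 := by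
    have a1 : (u : ℝ) ≤ √(k * x - a) := Nat.floor_le (Real.sqrt_nonneg _)
    have a2 : √(k * x - a) < u + 1 := Nat.lt_floor_add_one _
    have a3 : (v : ℝ) ≤ √(k * x' - a) := Nat.floor_le (Real.sqrt_nonneg _)
    have a4 : √(k * x' - a) < v + 1 := Nat.lt_floor_add_one _
    have a5 : (v : ℝ) = u + H := by exact_mod_cast hH
    rw [abs_le]
    constructor <;> linarith
  have s1 := sqrt_shift (y := k * x) (a := a) hN0 (by linarith) hp1.le
  have s2 := sqrt_shift (y := k * x') (a := a) hN0 (by linarith) hp2.le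
  have s3 : 2 * |(a : ℝ)| / N ≤ 2 * A / N := div_le_div_of_nonneg_right (by linarith) hN0.le
  have h2 : |(H : ℝ) - (√(k * x') - √(k * x))| ≤ 1 + 4 * A / N := by
    have e : (H : ℝ) - (√(k * x') - √(k * x)) = ((H : ℝ) - (√(k * x' - a) - √(k * x - a)))
      + (√(k * x' - a) - √(k * x')) - (√(k * x - a) - √(k * x)) := by ring
    rw [e]
    have b1 := abs_sub ((H : ℝ) - (√(k * x' - a) - √(k * x - a)) + (√(k * x' - a) - √(k * x')))
      (√(k * x - a) - √(k * x))
    have b2 := abs_add_le ((H : ℝ) - (√(k * x' - a) - √(k * x - a))) (√(k * x' - a) - √(k * x'))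
    have b3 : 4 * (A : ℝ) / N = 2 * A / N + 2 * A / N := by ring
    linarith
  obtain ⟨hR0, hR1⟩ := R_nonneg w a
  have hrho : 0 ≤ (rho a k : ℝ) := Nat.cast_nonneg _
  have h3 : |R w a * ((rho a k : ℝ) / k) * H
      - R w a * ((rho a k : ℝ) / k) * (√(k * x') - √(k * x))| ≤ rho a k * (1 + 4 * A / N) := by
    rw [← mul_sub, abs_mul, abs_of_nonneg (by positivity : 0 ≤ R w a * ((rho a k : ℝ) / k))]
    apply mul_le_mul _ h2 (abs_nonneg _) hrho
    have hk1' : (1 : ℝ) ≤ k := by exact_mod_cast hk1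
    have h4 : (rho a k : ℝ) / k ≤ rho a k := div_le_self hrho hk1'
    calc R w a * ((rho a k : ℝ) / k) ≤ 1 * ((rho a k : ℝ) / k) :=
          mul_le_mul_of_nonneg_right hR1 (by positivity)
      _ ≤ _ := by rw [one_mul]; exact h4
  have h4 := abs_sub_le (∑ n ∈ Ioc u (u + H), if k ∣ val a n then rInd ((w : ℝ) + 1) (val a n / k) else 0)
    (R w a * ((rho a k : ℝ) / k) * H) (R w a * ((rho a k : ℝ) / k) * (√(k * x') - √(k * x)))
  calc _ ≤ _ := h4
    _ ≤ rho a k * E w + rho a k * (1 + 4 * A / N) := add_le_add h1 h3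
    _ = _ := by ring

/-- the count of one piece -/
def Cn (N : ℕ) (a : ℤ) (w k : ℕ) (x x' : ℝ) : ℝ :=
  ∑ n ∈ Icc 1 (8 * N), if k ∣ val a n ∧ x < ((val a n / k : ℕ) : ℝ) ∧
    ((val a n / k : ℕ) : ℝ) ≤ x' then rInd ((w : ℝ) + 1) (val a n / k) else 0

/-- the left endpoint of the `i`-th piece -/
def xl (L η : ℝ) (J i : ℕ) : ℝ := L * (1 + η * i / J)

/-- the right endpoint of the `i`-th piece -/
def xr (L η : ℝ) (J i : ℕ) : ℝ := L * (1 + η * (i + 1) / J)

lemma mem_pc {L η : ℝ} (hL : 0 ≤ L) (hη : 0 ≤ η) {J i l : ℕ} :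
    l ∈ pc L η J i ↔ xl L η J i < l ∧ (l : ℝ) ≤ xr L η J i := by
  unfold pc xl xr
  have h1 : 0 ≤ L * (1 + η * i / J) := by positivity
  have h2 : 0 ≤ L * (1 + η * (i + 1) / J) := by positivity
  rw [mem_Ioc, Nat.floor_lt h1, Nat.le_floor_iff h2]

lemma sharp_eq {L η : ℝ} (hL : 0 ≤ L) (hη : 0 ≤ η) (w J : ℕ) (β : ℕ → ℝ) (l : ℕ) :
    sharp w L η J β l = ∑ i ∈ range J, Dav L η J β i * (Vw w *
      (if xl L η J i < l ∧ (l : ℝ) ≤ xr L η J i then rInd ((w : ℝ) + 1) l else 0)) := by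
  unfold sharp
  refine sum_congr rfl fun i _ => ?_
  by_cases h : l ∈ pc L η J i
  · rw [if_pos h, if_pos ((mem_pc hL hη).1 h)]
    ring
  · rw [if_neg h, if_neg (fun h' => h ((mem_pc hL hη).2 h'))]
    ring

lemma bil_eq {L η K : ℝ} (hL : 0 ≤ L) (hη : 0 ≤ η) (hK : 0 ≤ K) (N : ℕ) (a : ℤ) (w J : ℕ)
    (α β : ℕ → ℝ) (hα : ∀ k, α k ≠ 0 → K < (k : ℝ) ∧ (k : ℝ) ≤ 5 / 4 * K) :
    bil (8 * N) a α (sharp w L η J β) = ∑ i ∈ range J, Dav L η J β i *
      ∑ k ∈ Ioc ⌊K⌋₊ ⌊5 / 4 * K⌋₊, α k * (Vw w * Cn N a w k (xl L η J i) (xr L η J i)) := by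
  have hmem : ∀ k, α k ≠ 0 → k ∈ Ioc ⌊K⌋₊ ⌊5 / 4 * K⌋₊ := by
    intro k hk
    rw [mem_Ioc, Nat.floor_lt hK, Nat.le_floor_iff (by positivity)]
    exact hα k hk
  have h0 : sharp w L η J β 0 = 0 := by
    rw [sharp_eq hL hη]
    apply sum_eq_zero
    intro i _
    rw [if_neg]
    · ring
    · rintro ⟨h, _⟩
      have : 0 ≤ xl L η J i := by
        unfold xl
        positivity
      push_cast at h
      linarith
  have hn : ∀ n : ℕ, conv α (sharp w L η J β) (val a n) =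
      ∑ k ∈ Ioc ⌊K⌋₊ ⌊5 / 4 * K⌋₊,
        if k ∣ val a n then α k * sharp w L η J β (val a n / k) else 0 := by
    intro n
    unfold conv
    by_cases hv : val a n = 0
    · rw [hv]
      simp only [Nat.divisors_zero, dvd_zero, if_true, Nat.zero_div, h0, mul_zero,
        sum_const_zero]
    · rw [← sum_filter]
      have e1 : ∑ k ∈ (val a n).divisors, α k * sharp w L η J β (val a n / k) =
          ∑ k ∈ (val a n).divisors.filter (fun k => k ∈ Ioc ⌊K⌋₊ ⌊5 / 4 * K⌋₊),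
            α k * sharp w L η J β (val a n / k) := by
        rw [sum_filter]
        refine sum_congr rfl fun k _ => ?_
        split_ifs with h
        · rfl
        · have : α k = 0 := by
            by_contra hcon
            exact h (hmem k hcon)
          rw [this, zero_mul]
      rw [e1]
      refine sum_congr ?_ fun _ _ => rfl
      ext k
      rw [mem_filter, mem_filter, Nat.mem_divisors]
      tauto
  unfold bil
  rw [sum_congr rfl fun n _ => hn n, sum_comm]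
  have hk : ∀ k ∈ Ioc ⌊K⌋₊ ⌊5 / 4 * K⌋₊,
      (∑ n ∈ Icc 1 (8 * N), if k ∣ val a n then α k * sharp w L η J β (val a n / k) else 0) =
        ∑ i ∈ range J, Dav L η J β i * (α k * (Vw w * Cn N a w k (xl L η J i) (xr L η J i))) := by
    intro k _
    have e2 : ∀ n ∈ Icc 1 (8 * N),
        (if k ∣ val a n then α k * sharp w L η J β (val a n / k) else 0) =
          ∑ i ∈ range J, Dav L η J β i * (α k * (Vw w *
            (if k ∣ val a n ∧ xl L η J i < ((val a n / k : ℕ) : ℝ) ∧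
              ((val a n / k : ℕ) : ℝ) ≤ xr L η J i
              then rInd ((w : ℝ) + 1) (val a n / k) else 0))) := by
      intro n _
      by_cases hd : k ∣ val a n
      · rw [if_pos hd, sharp_eq hL hη, mul_sum]
        refine sum_congr rfl fun i _ => ?_
        simp only [hd, true_and]
        ring
      · rw [if_neg hd]
        symm
        apply sum_eq_zero
        intro i _
        rw [if_neg (fun h => hd h.1)]
        ring
    rw [sum_congr rfl e2, sum_comm]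
    refine sum_congr rfl fun i _ => ?_
    unfold Cn
    rw [mul_sum, mul_sum, mul_sum]
  rw [sum_congr rfl hk, sum_comm]
  refine sum_congr rfl fun i _ => ?_
  rw [mul_sum]

/-- the error for one `k` -/
lemma hone (hC : SpecRHOC) (hM : SpecRHOM) {e0 B η K L : ℝ} {w J N A : ℕ} (hη : 0 < η)
    (hη4 : η ≤ 1 / 4) (hB : 0 < B) (hJ : 1 ≤ J)
    (hz : (w : ℝ) + 1 ≤ (N : ℝ) ^ e0) (hNr : (2 : ℝ) ≤ N) (hK0 : 0 < K) (hL0 : 0 < L)
    (hKL1 : (N : ℝ) ^ 2 / 2 ≤ K * L) (hKL2 : K * L ≤ 5 * (N : ℝ) ^ 2)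
    (hA8 : (A : ℝ) ≤ (N : ℝ) ^ 2 / 8) (hAN : 4 * (A : ℝ) / N ≤ 4 * Real.log N)
    (α : ℕ → ℝ) (hα : ∀ k, |α k| ≤ B * rInd ((N : ℝ) ^ e0) k)
    (hαs : ∀ k, α k ≠ 0 → K < (k : ℝ) ∧ (k : ℝ) ≤ 5 / 4 * K) :
    ∀ a ∈ IA A, ∀ i ∈ range J, ∀ k ∈ Ioc ⌊K⌋₊ ⌊5 / 4 * K⌋₊,
      |α k * (Vw w * Mta.Cn N a w k (Mta.xl L η J i) (Mta.xr L η J i))
        - Gw w a * (α k * ((rho a k : ℝ) / k) * (√(k * (L * (1 + η * (i + 1) / J)))
          - √(k * (L * (1 + η * i / J)))))|
      ≤ B * Vw w * (Mta.E w + 5) * (1 + Real.log N) * rho a k := by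
  have hV := Mta.Vw_pos w
  have hE := Mta.E_one_le w
  have hJ0 : (0 : ℝ) < J := by exact_mod_cast hJ
  have hN0 : (0 : ℝ) < N := by linarith
  have hN1 : 1 ≤ N := by exact_mod_cast (show (1 : ℝ) ≤ N by linarith)
  have hlog0 : 0 < Real.log N := Real.log_pos (by linarith)
  intro a ha i hi k hk
  have hrhs : 0 ≤ B * Vw w * (Mta.E w + 5) * (1 + Real.log N) * rho a k := by positivity
  by_cases hak : α k = 0
  · rw [hak]
    simpa using hrhs
  · have hks := hαs k hak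
    have hk1 : 1 ≤ k := by
      have : (0 : ℝ) < k := hK0.trans hks.1
      exact_mod_cast this
    have hk0 : (0 : ℝ) < k := by exact_mod_cast hk1
    have hrough : Rough ((N : ℝ) ^ e0) k := by
      by_contra hcon
      have h1 := hα k
      rw [rInd, if_neg hcon, mul_zero] at h1
      exact hak (abs_nonpos_iff.1 h1)
    have hαB : |α k| ≤ B := by
      have h1 := hα k
      rwa [rInd, if_pos hrough, mul_one] at h1
    have hcop : ∀ p ∈ Mta.S w, Nat.Coprime p k := by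
      intro p hp
      have hp' := Mta.mem_S.1 hp
      rw [Nat.Prime.coprime_iff_not_dvd hp'.1]
      intro hd
      have h1 := hrough p hp'.1 hd
      have h2 : (p : ℝ) ≤ w := by exact_mod_cast hp'.2
      linarith
    have hiJ : (i : ℝ) + 1 ≤ J := by
      have := mem_range.1 hi
      exact_mod_cast this
    have hi0 : (0 : ℝ) ≤ i := Nat.cast_nonneg i
    have hxl : L ≤ Mta.xl L η J i := by
      unfold Mta.xl
      have : 0 ≤ η * i / J := by positivity
      nlinarith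
    have hxr : Mta.xr L η J i ≤ 5 / 4 * L := by
      unfold Mta.xr
      have h1 : η * (i + 1) / J ≤ 1 / 4 := by
        rw [div_le_iff₀ hJ0]
        nlinarith
      nlinarith
    have hxx : Mta.xl L η J i ≤ Mta.xr L η J i := by
      unfold Mta.xl Mta.xr
      apply mul_le_mul_of_nonneg_left _ hL0.le
      have : η * i / J ≤ η * (i + 1) / J := by
        apply div_le_div_of_nonneg_right _ hJ0.le
        nlinarith
      linarith
    have h1 := Mta.count_piece hC hM (N := N) (A := A) (a := a) hN1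
      (by
        unfold IA at ha
        rw [mem_Icc] at ha
        rw [abs_le]
        constructor
        · have := ha.1
          have h2 : (-(A : ℤ) : ℤ) ≤ a := this
          have h3 : ((-(A : ℤ) : ℤ) : ℝ) ≤ a := by exact_mod_cast h2
          push_cast at h3
          exact h3
        · exact_mod_cast ha.2)
      hA8 hk1 hcop (x := Mta.xl L η J i) (x' := Mta.xr L η J i)
      (by
        calc (N : ℝ) ^ 2 / 2 ≤ K * L := hKL1
          _ ≤ k * Mta.xl L η J i := mul_le_mul hks.1.le hxl hL0.le hk0.le)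
      hxx
      (by
        calc k * Mta.xr L η J i ≤ (5 / 4 * K) * (5 / 4 * L) :=
              mul_le_mul hks.2 hxr (by linarith) (by linarith)
          _ = 25 / 16 * (K * L) := by ring
          _ ≤ 25 / 16 * (5 * (N : ℝ) ^ 2) := by linarith
          _ ≤ _ := by nlinarith [sq_nonneg (N : ℝ)])
    have h2 : α k * (Vw w * Mta.Cn N a w k (Mta.xl L η J i) (Mta.xr L η J i))
      - Gw w a * (α k * ((rho a k : ℝ) / k) * (√(k * (L * (1 + η * (i + 1) / J)))
        - √(k * (L * (1 + η * i / J))))) = α k * Vw w * (Mta.Cn N a w k (Mta.xl L η J i) (Mta.xr L η J i)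
        - Mta.R w a * ((rho a k : ℝ) / k) * (√(k * Mta.xr L η J i) - √(k * Mta.xl L η J i))) := by
      rw [← Mta.Vw_R]
      unfold Mta.xl Mta.xr
      ring
    rw [h2, abs_mul, abs_mul, abs_of_pos hV]
    have h3 : (Mta.E w + 1 + 4 * A / N) ≤ (Mta.E w + 5) * (1 + Real.log N) := by
      have e5 : (Mta.E w + 5) * (1 + Real.log N) =
          Mta.E w + 5 + (Mta.E w + 1) * Real.log N + 4 * Real.log N := by ring
      have e6 : 0 ≤ (Mta.E w + 1) * Real.log N := by positivity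
      rw [e5]
      linarith
    have hrho : 0 ≤ (rho a k : ℝ) := Nat.cast_nonneg _
    calc |α k| * Vw w * _ ≤ B * Vw w * (rho a k * (Mta.E w + 1 + 4 * A / N)) := by
          apply mul_le_mul (mul_le_mul_of_nonneg_right hαB hV.le) h1 (abs_nonneg _) (by positivity)
      _ ≤ B * Vw w * (rho a k * ((Mta.E w + 5) * (1 + Real.log N))) := by
          apply mul_le_mul_of_nonneg_left _ (by positivity)
          exact mul_le_mul_of_nonneg_left h3 hrho
      _ = _ := by ring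

lemma abs_Dav_le {L η B : ℝ} (hL : 0 < L) (hη : 0 < η) (hB : 0 ≤ B) {J : ℕ} (hJ : 1 ≤ J)
    (hLJ : 1 ≤ η * L / J) (β : ℕ → ℝ) (hβ : ∀ l, |β l| ≤ B) (i : ℕ) :
    |Dav L η J β i| ≤ 2 * B := by
  unfold Dav
  have hpos : 0 < η * L / J := by linarith
  rw [abs_div, abs_of_pos hpos, div_le_iff₀ hpos]
  have hJ0 : (0 : ℝ) < J := by exact_mod_cast hJ
  have hcard : ((pc L η J i).card : ℝ) ≤ 2 * (η * L / J) := by
    unfold pc
    rw [Nat.card_Ioc]
    have h1 : 0 ≤ L * (1 + η * i / J) := by positivity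
    have h2 : 0 ≤ L * (1 + η * (i + 1) / J) := by positivity
    have h3 : L * (1 + η * (i + 1) / J) = L * (1 + η * i / J) + η * L / J := by
      field_simp
      ring
    have h4 : ⌊L * (1 + η * i / J)⌋₊ ≤ ⌊L * (1 + η * (i + 1) / J)⌋₊ :=
      Nat.floor_le_floor (by linarith)
    rw [Nat.cast_sub h4]
    have h5 := Nat.floor_le h2
    have h6 := Nat.lt_floor_add_one (L * (1 + η * i / J))
    linarith
  calc |∑ l ∈ pc L η J i, β l| ≤ ∑ l ∈ pc L η J i, |β l| := abs_sum_le_sum_abs _ _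
    _ ≤ ∑ l ∈ pc L η J i, B := sum_le_sum fun l _ => hβ l
    _ = (pc L η J i).card * B := by rw [sum_const, nsmul_eq_mul]
    _ ≤ 2 * (η * L / J) * B := mul_le_mul_of_nonneg_right hcard hB
    _ = _ := by ring

end

end Mta

open Finset Filter Topology
open scoped Classical

theorem specMTA (hC : SpecRHOC) (hM : SpecRHOM) (hA : SpecRAV) : SpecMTA := by
  intro θ e e0 B κ η w J hθ he he0 hB hκ hη hη4 hw hJ
  obtain ⟨C, hC0, hCr⟩ := hA (1 / 10) (by norm_num)
  have hV := Mta.Vw_pos w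
  have hE := Mta.E_one_le w
  have hJ0 : (0 : ℝ) < J := by exact_mod_cast hJ
  set M : ℝ := 2 * B ^ 2 * Vw w * (Mta.E w + 5) * J * (3 + 2 * C) * (5 / 4) with hMdef
  have hM0 : 0 < M := by positivity
  have lim1 : Tendsto (fun N : ℕ => (N : ℝ) ^ e0) atTop atTop :=
    (tendsto_rpow_atTop he0).comp tendsto_natCast_atTop_atTop
  have lim2 : ∀ᶠ N : ℕ in atTop, Real.log N ≤ (N : ℝ) / 8 := by
    have h1 := (isLittleO_log_rpow_atTop (r := 1) one_pos).bound
      (show (0 : ℝ) < 1 / 8 by norm_num)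
    have h2 : ∀ᶠ x : ℝ in atTop, Real.log x ≤ x / 8 := by
      filter_upwards [h1, eventually_ge_atTop 1] with x a1 a2
      rw [Real.norm_of_nonneg (Real.log_nonneg a2), Real.rpow_one, Real.norm_of_nonneg (by linarith)]
        at a1
      linarith
    exact tendsto_natCast_atTop_atTop.eventually h2
  obtain ⟨N₀, hN₀⟩ := eventually_atTop.1 (((((lim1.eventually_ge_atTop ((w : ℝ) + 1)).and
    lim2).and (Mob.log_pow_small he (show 0 < κ / M by positivity))).and
    (tendsto_natCast_atTop_atTop.eventually_ge_atTop (2 * J / η : ℝ))).and (eventually_ge_atTop 2))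
  refine ⟨N₀, fun N A hN hAdm K L hK1 hK2 hKL1 hKL2 α β hα hαs hβ => ?_⟩
  obtain ⟨⟨⟨⟨hz, hlog⟩, hsmall⟩, hNJ⟩, hN2⟩ := hN₀ N hN
  have hNr : (2 : ℝ) ≤ N := by exact_mod_cast hN2
  have hN0 : (0 : ℝ) < N := by linarith
  have hlog0 : 0 < Real.log N := Real.log_pos (by linarith)
  have hK0 : 0 < K := lt_of_lt_of_le (by positivity) hK1
  have hL0 : 0 < L := by
    by_contra hcon
    rw [not_lt] at hcon
    have : K * L ≤ 0 := mul_nonpos_of_nonneg_of_nonpos hK0.le hcon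
    have : 0 < (N : ℝ) ^ 2 / 2 := by positivity
    linarith
  have hKN : K ≤ N := by
    refine hK2.trans ?_
    calc (N : ℝ) ^ (1 - e) ≤ (N : ℝ) ^ (1 : ℝ) :=
          Real.rpow_le_rpow_of_exponent_le (by linarith) (by linarith)
      _ = N := Real.rpow_one _
  have hLN : (N : ℝ) / 2 ≤ L := by
    have h1 : (N : ℝ) ^ 2 / 2 ≤ N * L := hKL1.trans (mul_le_mul_of_nonneg_right hKN hL0.le)
    nlinarith
  have hLJ : 1 ≤ η * L / J := by
    rw [le_div_iff₀ hJ0, one_mul]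
    rw [div_le_iff₀ hη] at hNJ
    nlinarith
  have hA1 : (1 : ℝ) ≤ A := (Real.one_le_rpow (by linarith) (by linarith)).trans hAdm.1
  have hA8 : (A : ℝ) ≤ (N : ℝ) ^ 2 / 8 := by
    refine hAdm.2.trans ?_
    nlinarith
  have hAN : 4 * (A : ℝ) / N ≤ 4 * Real.log N := by
    rw [div_le_iff₀ hN0]
    have := hAdm.2
    linarith
  have hA06 : (N : ℝ) ^ (1 / 2 + 1 / 10 : ℝ) ≤ A :=
    (Real.rpow_le_rpow_of_exponent_le (by linarith) (by linarith)).trans hAdm.1
  have hone := Mta.hone hC hM hη hη4 hB hJ hz hNr hK0 hL0 hKL1 hKL2 hA8 hAN α hα hαs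
  have hDav : ∀ i, |Dav L η J β i| ≤ 2 * B := Mta.abs_Dav_le hL0 hη hB.le hJ hLJ β hβ
  have ha1 : ∀ a ∈ IA A, |bil (8 * N) a α (sharp w L η J β)
      - Gw w a * ∑ i ∈ range J, Dav L η J β i * ∑ k ∈ Ioc ⌊K⌋₊ ⌊5 / 4 * K⌋₊, α k * ((rho a k : ℝ) / k)
        * (√(k * (L * (1 + η * (i + 1) / J))) - √(k * (L * (1 + η * i / J))))|
      ≤ ∑ k ∈ Ioc ⌊K⌋₊ ⌊5 / 4 * K⌋₊,
        2 * B * J * (B * Vw w * (Mta.E w + 5) * (1 + Real.log N)) * (rho a k : ℝ) := by
    intro a ha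
    rw [Mta.bil_eq hL0.le hη.le hK0.le N a w J α β hαs]
    have e1 : Gw w a * ∑ i ∈ range J, Dav L η J β i * ∑ k ∈ Ioc ⌊K⌋₊ ⌊5 / 4 * K⌋₊,
        α k * ((rho a k : ℝ) / k)
          * (√(k * (L * (1 + η * (i + 1) / J))) - √(k * (L * (1 + η * i / J)))) =
        ∑ i ∈ range J, Dav L η J β i * ∑ k ∈ Ioc ⌊K⌋₊ ⌊5 / 4 * K⌋₊, Gw w a * (α k * ((rho a k : ℝ) / k)
          * (√(k * (L * (1 + η * (i + 1) / J))) - √(k * (L * (1 + η * i / J))))) := by
      rw [mul_sum]
      refine sum_congr rfl fun i _ => ?_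
      rw [← mul_sum]
      ring
    rw [e1, ← sum_sub_distrib]
    have e2 : ∀ i ∈ range J, |Dav L η J β i * ∑ k ∈ Ioc ⌊K⌋₊ ⌊5 / 4 * K⌋₊, α k *
          (Vw w * Mta.Cn N a w k (Mta.xl L η J i) (Mta.xr L η J i)) -
        Dav L η J β i * ∑ k ∈ Ioc ⌊K⌋₊ ⌊5 / 4 * K⌋₊, Gw w a * (α k * ((rho a k : ℝ) / k)
          * (√(k * (L * (1 + η * (i + 1) / J))) - √(k * (L * (1 + η * i / J)))))| ≤
        2 * B * ∑ k ∈ Ioc ⌊K⌋₊ ⌊5 / 4 * K⌋₊,
          B * Vw w * (Mta.E w + 5) * (1 + Real.log N) * rho a k := by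
      intro i hi
      rw [← mul_sub, ← sum_sub_distrib, abs_mul]
      apply mul_le_mul (hDav i) _ (abs_nonneg _) (by positivity)
      exact (abs_sum_le_sum_abs _ _).trans (sum_le_sum fun k hk => hone a ha i hi k hk)
    refine (abs_sum_le_sum_abs _ _).trans ((sum_le_sum e2).trans (le_of_eq ?_))
    rw [sum_const, card_range, nsmul_eq_mul, mul_sum, mul_sum]
    refine sum_congr rfl fun k _ => ?_
    ring
  refine (sum_le_sum ha1).trans ?_
  rw [sum_comm]
  have hk2 : ∀ k ∈ Ioc ⌊K⌋₊ ⌊5 / 4 * K⌋₊, ∑ a ∈ IA A,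
      2 * B * J * (B * Vw w * (Mta.E w + 5) * (1 + Real.log N)) * (rho a k : ℝ) ≤
      2 * B * J * (B * Vw w * (Mta.E w + 5) * (1 + Real.log N)) * ((3 + 2 * C) * A) := by
    intro k hk
    rw [mem_Ioc] at hk
    rw [← mul_sum]
    apply mul_le_mul_of_nonneg_left _ (by positivity)
    have hk1 : 1 ≤ k := by omega
    have h1 := (abs_le.1 (hCr k A hk1)).2
    have hkK : (k : ℝ) ≤ 5 / 4 * K := (Nat.le_floor_iff (by positivity)).1 hk.2
    have h2 : (k : ℝ) ^ (1 / 2 + 1 / 10 : ℝ) ≤ 2 * A := by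
      calc (k : ℝ) ^ (1 / 2 + 1 / 10 : ℝ) ≤ (2 * N : ℝ) ^ (1 / 2 + 1 / 10 : ℝ) :=
            Real.rpow_le_rpow (Nat.cast_nonneg _) (by linarith) (by norm_num)
        _ = (2 : ℝ) ^ (1 / 2 + 1 / 10 : ℝ) * (N : ℝ) ^ (1 / 2 + 1 / 10 : ℝ) :=
            Real.mul_rpow (by norm_num) hN0.le
        _ ≤ 2 * A := by
            apply mul_le_mul _ hA06 (by positivity) (by norm_num)
            calc (2 : ℝ) ^ (1 / 2 + 1 / 10 : ℝ) ≤ (2 : ℝ) ^ (1 : ℝ) :=
                  Real.rpow_le_rpow_of_exponent_le (by norm_num) (by norm_num)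
              _ = 2 := Real.rpow_one _
    have h3 := mul_le_mul_of_nonneg_left h2 hC0.le
    linarith
  refine (sum_le_sum hk2).trans ?_
  rw [sum_const, nsmul_eq_mul]
  have hcard : ((Ioc ⌊K⌋₊ ⌊5 / 4 * K⌋₊).card : ℝ) ≤ 5 / 4 * K := by
    rw [Nat.card_Ioc]
    calc ((⌊5 / 4 * K⌋₊ - ⌊K⌋₊ : ℕ) : ℝ) ≤ (⌊5 / 4 * K⌋₊ : ℝ) := by
          exact_mod_cast Nat.sub_le _ _
      _ ≤ _ := Nat.floor_le (by positivity)
  have hNe : (N : ℝ) ^ (1 - e) = N * (N : ℝ) ^ (-e) := by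
    rw [sub_eq_add_neg, Real.rpow_add hN0, Real.rpow_one]
  have hNe0 : 0 < (N : ℝ) ^ (-e) := by positivity
  calc ((Ioc ⌊K⌋₊ ⌊5 / 4 * K⌋₊).card : ℝ) *
        (2 * B * J * (B * Vw w * (Mta.E w + 5) * (1 + Real.log N)) * ((3 + 2 * C) * A))
      ≤ (5 / 4 * (N * (N : ℝ) ^ (-e))) *
        (2 * B * J * (B * Vw w * (Mta.E w + 5) * (1 + Real.log N)) * ((3 + 2 * C) * A)) := by
        apply mul_le_mul_of_nonneg_right _ (by positivity)
        rw [← hNe]
        linarith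
    _ = M * (1 + Real.log N) * (N : ℝ) ^ (-e) * (A * N) := by
        rw [hMdef]
        ring
    _ ≤ κ / (Real.log N) ^ 2 * (A * N) := by
        apply mul_le_mul_of_nonneg_right _ (by positivity)
        rw [le_div_iff₀ (by positivity)]
        have h1 : (1 + Real.log N) * (Real.log N) ^ 2 ≤ (1 + Real.log N) ^ 4 := by
          have h2 : (Real.log N) ^ 2 ≤ (1 + Real.log N) ^ 2 :=
            pow_le_pow_left₀ hlog0.le (by linarith) 2
          have h3 : (1 + Real.log N) ≤ (1 + Real.log N) ^ 2 := by nlinarith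
          calc (1 + Real.log N) * (Real.log N) ^ 2 ≤ (1 + Real.log N) ^ 2 * (1 + Real.log N) ^ 2 :=
                mul_le_mul h3 h2 (by positivity) (by positivity)
            _ = _ := by ring
        calc M * (1 + Real.log N) * (N : ℝ) ^ (-e) * (Real.log N) ^ 2
            = M * (((1 + Real.log N) * (Real.log N) ^ 2) * (N : ℝ) ^ (-e)) := by ring
          _ ≤ M * ((1 + Real.log N) ^ 4 * (N : ℝ) ^ (-e)) := by
              apply mul_le_mul_of_nonneg_left _ hM0.le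
              exact mul_le_mul_of_nonneg_right h1 hNe0.le
          _ ≤ M * (κ / M) := mul_le_mul_of_nonneg_left hsmall hM0.le
          _ = κ := by field_simp
    _ = _ := by ring

end Pool.Agent.Lib.MP391708.QPA
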