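import Mathlib
import Pool.Agent.Lib.MP_391708_nt.QPA.Spec
import Pool.Agent.Lib.MP_391708_nt.QPA.RHOMEAN

/-!
# Module NSF of the project QPA: values divisible by the square of a large prime
-/

set_option autoImplicit false

namespace Pool.Agent.Lib.MP391708.QPA.NSF

open Finset Filter Topology
open scoped Classical

noncomputable section

/-- the condition of the large part -/
def LC (B : ℝ) (t : ℕ × ℤ) : Prop := t.2 ≠ 0 ∧ ∃ p : ℕ, p.Prime ∧ B ≤ p ∧ p ^ 2 ∣ val t.2 t.1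

/-- the chosen prime -/
def pf (B : ℝ) (t : ℕ × ℤ) : ℕ := if h : LC B t then Classical.choose h.2 else 0

lemma pf_spec {B : ℝ} {t : ℕ × ℤ} (h : LC B t) :
    (pf B t).Prime ∧ B ≤ (pf B t : ℝ) ∧ (pf B t) ^ 2 ∣ val t.2 t.1 := by
  unfold pf
  rw [dif_pos h]
  exact Classical.choose_spec h.2

/-- the cofactor -/
def mf (B : ℝ) (t : ℕ × ℤ) : ℕ := val t.2 t.1 / (pf B t) ^ 2

/-- the floor -/
def ff (c B : ℝ) (t : ℕ × ℤ) : ℤ :=
  ⌊c * ((t.1 : ℝ) / (pf B t : ℝ))⌋ - ⌊c * √(mf B t : ℝ)⌋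

lemma facts {N A : ℕ} {B : ℝ} (hN : 1 ≤ N) (hA : (A : ℝ) ≤ (N : ℝ) ^ 2) (hAB : (A : ℝ) < B ^ 2)
    (hB : 0 < B) {t : ℕ × ℤ} (h1 : N < t.1) (h2 : t.1 ≤ 2 * N) (h3 : |t.2| ≤ A) (h : LC B t) :
    (0 : ℝ) < pf B t ∧ (mf B t : ℤ) * (pf B t : ℤ) ^ 2 = (t.1 : ℤ) ^ 2 + t.2 ∧ 1 ≤ mf B t ∧
      (pf B t : ℝ) ^ 2 ≤ 5 * (N : ℝ) ^ 2 ∧ (mf B t : ℝ) ≤ 5 * (N : ℝ) ^ 2 / B ^ 2 ∧
      Nat.Coprime (pf B t) t.1 ∧ |(t.1 : ℝ) / (pf B t : ℝ) - √(mf B t : ℝ)| ≤ A / B ^ 2 := by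
  obtain ⟨hp, hBp, hdvd⟩ := pf_spec h
  set p := pf B t with hpdef
  have hNR : (1 : ℝ) ≤ N := by exact_mod_cast hN
  have hppos : (0 : ℝ) < p := by exact_mod_cast hp.pos
  have hB2 : B ^ 2 ≤ (p : ℝ) ^ 2 := pow_le_pow_left₀ hB.le hBp 2
  have hB2pos : 0 < B ^ 2 := by positivity
  have hp2pos : (0 : ℝ) < (p : ℝ) ^ 2 := by positivity
  have h3R : |(t.2 : ℝ)| ≤ A := by
    have : ((|t.2| : ℤ) : ℝ) ≤ ((A : ℤ) : ℝ) := by exact_mod_cast h3
    simpa using this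
  have hnR1 : (N : ℝ) < t.1 := by exact_mod_cast h1
  have hnR2 : (t.1 : ℝ) ≤ 2 * N := by exact_mod_cast h2
  have hposR : (0 : ℝ) < (t.1 : ℝ) ^ 2 + t.2 := by
    have := (abs_le.mp h3R).1
    nlinarith
  have hpos : 0 < (t.1 : ℤ) ^ 2 + t.2 := by exact_mod_cast hposR
  have hval : ((val t.2 t.1 : ℕ) : ℤ) = (t.1 : ℤ) ^ 2 + t.2 := by
    unfold val
    rw [Int.natCast_natAbs, abs_of_pos hpos]
  have hm : mf B t * p ^ 2 = val t.2 t.1 := Nat.div_mul_cancel hdvd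
  have hmZ : (mf B t : ℤ) * (p : ℤ) ^ 2 = (t.1 : ℤ) ^ 2 + t.2 := by
    rw [← hval, ← hm]
    push_cast
    ring
  have hmR : (mf B t : ℝ) * (p : ℝ) ^ 2 = (t.1 : ℝ) ^ 2 + t.2 := by exact_mod_cast hmZ
  have hm1 : 1 ≤ mf B t := by
    rcases Nat.eq_zero_or_pos (mf B t) with h0 | h0
    · rw [h0] at hmZ
      simp only [Nat.cast_zero, zero_mul] at hmZ
      omega
    · exact h0
  have hm1R : (1 : ℝ) ≤ mf B t := by exact_mod_cast hm1
  have h5 : (mf B t : ℝ) * (p : ℝ) ^ 2 ≤ 5 * (N : ℝ) ^ 2 := by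
    rw [hmR]
    have := (abs_le.mp h3R).2
    nlinarith
  refine ⟨hppos, hmZ, hm1, ?_, ?_, ?_, ?_⟩
  · nlinarith
  · rw [le_div_iff₀ hB2pos]
    have : (mf B t : ℝ) * B ^ 2 ≤ (mf B t : ℝ) * (p : ℝ) ^ 2 :=
      mul_le_mul_of_nonneg_left hB2 (by linarith)
    linarith
  · rw [Nat.Prime.coprime_iff_not_dvd hp]
    intro hpn
    have h6 : (p : ℤ) ^ 2 ∣ (t.1 : ℤ) ^ 2 := pow_dvd_pow_of_dvd (Int.natCast_dvd_natCast.mpr hpn) 2
    have h7 : (p : ℤ) ^ 2 ∣ t.2 := by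
      have h8 : (p : ℤ) ^ 2 ∣ (t.1 : ℤ) ^ 2 + t.2 := ⟨mf B t, by rw [← hmZ]; ring⟩
      exact (dvd_add_right h6).mp h8
    have h9 : (p : ℤ) ^ 2 ≤ |t.2| := by
      have := Int.le_of_dvd (abs_pos.mpr h.1) ((dvd_abs _ _).mpr h7)
      exact this
    have h10 : (p : ℝ) ^ 2 ≤ |(t.2 : ℝ)| := by
      have : (((p : ℤ) ^ 2 : ℤ) : ℝ) ≤ ((|t.2| : ℤ) : ℝ) := by exact_mod_cast h9
      simpa using this
    linarith
  · have hs : √(mf B t : ℝ) * √(mf B t : ℝ) = mf B t := Real.mul_self_sqrt (by linarith)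
    have hs1 : 1 ≤ √(mf B t : ℝ) := by
      rw [Real.one_le_sqrt]
      exact hm1R
    have hx0 : 0 ≤ (t.1 : ℝ) / p := by positivity
    have h6 : ((t.1 : ℝ) / p) ^ 2 - mf B t = -(t.2 : ℝ) / (p : ℝ) ^ 2 := by
      rw [eq_div_iff hp2pos.ne', sub_mul, hmR]
      field_simp
      ring
    have h7 : |(t.1 : ℝ) / p - √(mf B t : ℝ)| * ((t.1 : ℝ) / p + √(mf B t : ℝ)) ≤ A / B ^ 2 := by
      have h8 : |(t.1 : ℝ) / p - √(mf B t : ℝ)| * ((t.1 : ℝ) / p + √(mf B t : ℝ))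
          = |((t.1 : ℝ) / p) ^ 2 - mf B t| := by
        rw [← abs_of_nonneg (show 0 ≤ (t.1 : ℝ) / p + √(mf B t : ℝ) by positivity), ← abs_mul]
        congr 1
        nlinarith
      rw [h8, h6, abs_div, abs_neg, abs_of_pos hp2pos]
      exact div_le_div₀ (by positivity) h3R hB2pos hB2
    have h9 : |(t.1 : ℝ) / p - √(mf B t : ℝ)| * 1
        ≤ |(t.1 : ℝ) / p - √(mf B t : ℝ)| * ((t.1 : ℝ) / p + √(mf B t : ℝ)) :=
      mul_le_mul_of_nonneg_left (by linarith) (abs_nonneg _)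
    linarith

lemma card_large {N A : ℕ} {B : ℝ} (hN : 1 ≤ N) (hA : (A : ℝ) ≤ (N : ℝ) ^ 2)
    (hAB : (A : ℝ) < B ^ 2) (hB : 0 < B) :
    (((Ioc N (2 * N)) ×ˢ (IA A)).filter (fun t => LC B t)).card
      ≤ ⌊5 * (N : ℝ) ^ 2 / B ^ 2⌋₊ * (2 * (⌊9 * (N : ℝ) ^ 2 * (A / B ^ 2)⌋₊ + 1) + 1) := by
  set M : ℕ := ⌊5 * (N : ℝ) ^ 2 / B ^ 2⌋₊ with hM
  set c : ℝ := 9 * (N : ℝ) ^ 2 with hc
  set R : ℕ := ⌊c * (A / B ^ 2)⌋₊ + 1 with hR
  have hNR : (1 : ℝ) ≤ N := by exact_mod_cast hN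
  have hcpos : 0 < c := by rw [hc]; positivity
  have hmem : ∀ t ∈ ((Ioc N (2 * N)) ×ˢ (IA A)).filter (fun t => LC B t),
      N < t.1 ∧ t.1 ≤ 2 * N ∧ |t.2| ≤ A ∧ LC B t := by
    intro t ht
    simp only [IA, Finset.mem_filter, Finset.mem_product, Finset.mem_Ioc, Finset.mem_Icc] at ht
    exact ⟨ht.1.1.1, ht.1.1.2, abs_le.mpr ht.1.2, ht.2⟩
  have hcard : (Icc 1 M ×ˢ (Icc (-(R : ℤ)) R)).card = M * (2 * R + 1) := by
    rw [Finset.card_product, Nat.card_Icc, Int.card_Icc]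
    have h1 : M + 1 - 1 = M := by omega
    have h2 : ((R : ℤ) + 1 - -(R : ℤ)).toNat = 2 * R + 1 := by omega
    rw [h1, h2]
  rw [← hcard]
  refine Finset.card_le_card_of_injOn (fun t => (mf B t, ff c B t)) ?_ ?_
  · intro t ht
    obtain ⟨h1, h2, h3, h4⟩ := hmem t ht
    obtain ⟨hp, hm, hm1, hp5, hmM, hco, hd⟩ := facts hN hA hAB hB h1 h2 h3 h4
    simp only [Finset.coe_product, Set.mem_prod, Finset.coe_Icc, Set.mem_Icc]
    refine ⟨⟨hm1, Nat.le_floor hmM⟩, ?_⟩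
    rw [← abs_le]
    unfold ff
    set u : ℝ := c * ((t.1 : ℝ) / (pf B t : ℝ)) with hu
    set v : ℝ := c * √(mf B t : ℝ) with hv
    have h5 : |u - v| ≤ c * (A / B ^ 2) := by
      rw [hu, hv, ← mul_sub, abs_mul, abs_of_pos hcpos]
      exact mul_le_mul_of_nonneg_left hd hcpos.le
    have h6 : |((⌊u⌋ - ⌊v⌋ : ℤ) : ℝ)| < |u - v| + 1 := by
      push_cast
      have e1 := Int.floor_le u
      have e2 := Int.lt_floor_add_one u
      have e3 := Int.floor_le v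
      have e4 := Int.lt_floor_add_one v
      rw [abs_lt]
      constructor
      · have := neg_abs_le (u - v)
        linarith
      · have := le_abs_self (u - v)
        linarith
    have h7 : c * (A / B ^ 2) < (⌊c * (A / B ^ 2)⌋₊ : ℝ) + 1 := Nat.lt_floor_add_one _
    have h8 : ((|⌊u⌋ - ⌊v⌋| : ℤ) : ℝ) < ((R : ℤ) : ℝ) + 1 := by
      rw [hR]
      push_cast at h6 ⊢
      linarith
    have h9 : |⌊u⌋ - ⌊v⌋| < (R : ℤ) + 1 := by exact_mod_cast h8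
    omega
  · intro t ht t' ht' heq
    obtain ⟨h1, h2, h3, h4⟩ := hmem t ht
    obtain ⟨hp, hm, hm1, hp5, hmM, hco, hd⟩ := facts hN hA hAB hB h1 h2 h3 h4
    obtain ⟨h1', h2', h3', h4'⟩ := hmem t' ht'
    obtain ⟨hp', hm', hm1', hp5', hmM', hco', hd'⟩ := facts hN hA hAB hB h1' h2' h3' h4'
    simp only [Prod.mk.injEq] at heq
    obtain ⟨heq1, heq2⟩ := heq
    unfold ff at heq2
    rw [heq1] at heq2
    have hfl : ⌊c * ((t.1 : ℝ) / (pf B t : ℝ))⌋ = ⌊c * ((t'.1 : ℝ) / (pf B t' : ℝ))⌋ := by omega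
    have hlt : |c * ((t.1 : ℝ) / (pf B t : ℝ)) - c * ((t'.1 : ℝ) / (pf B t' : ℝ))| < 1 :=
      Int.abs_sub_lt_one_of_floor_eq_floor hfl
    have hpp : (pf B t : ℝ) * pf B t' ≤ 5 * (N : ℝ) ^ 2 := by
      have := sq_nonneg ((pf B t : ℝ) - pf B t')
      nlinarith
    have hkey : |(t.1 : ℝ) * pf B t' - t'.1 * pf B t| < 1 := by
      have e1 : (t.1 : ℝ) * pf B t' - t'.1 * pf B t
          = (pf B t : ℝ) * pf B t' * ((t.1 : ℝ) / (pf B t : ℝ) - (t'.1 : ℝ) / (pf B t' : ℝ)) := by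
        field_simp
      have e2 : |(t.1 : ℝ) / (pf B t : ℝ) - (t'.1 : ℝ) / (pf B t' : ℝ)| < 1 / c := by
        rw [← mul_sub, abs_mul, abs_of_pos hcpos] at hlt
        rw [lt_div_iff₀ hcpos, mul_comm]
        exact hlt
      rw [e1, abs_mul, abs_of_pos (mul_pos hp hp')]
      calc (pf B t : ℝ) * pf B t' * |(t.1 : ℝ) / (pf B t : ℝ) - (t'.1 : ℝ) / (pf B t' : ℝ)|
          ≤ (5 * (N : ℝ) ^ 2) * (1 / c) :=
            mul_le_mul hpp e2.le (abs_nonneg _) (by positivity)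
        _ = 5 / 9 := by
            rw [hc]
            field_simp
        _ < 1 := by norm_num
    have hZ : (t.1 : ℤ) * pf B t' - t'.1 * pf B t = 0 := by
      have : |(t.1 : ℤ) * pf B t' - t'.1 * pf B t| < 1 := by
        have h5 : (((|(t.1 : ℤ) * pf B t' - t'.1 * pf B t|) : ℤ) : ℝ) < ((1 : ℤ) : ℝ) := by
          push_cast
          exact hkey
        exact_mod_cast h5
      exact Int.abs_lt_one_iff.mp this
    have hNat : t.1 * pf B t' = t'.1 * pf B t := by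
      have : ((t.1 * pf B t' : ℕ) : ℤ) = ((t'.1 * pf B t : ℕ) : ℤ) := by
        push_cast
        linarith
      exact_mod_cast this
    have hprime := (pf_spec h4).1
    have hprime' := (pf_spec h4').1
    have hdvd : pf B t ∣ pf B t' := by
      have : pf B t ∣ t.1 * pf B t' := ⟨t'.1, by rw [hNat]; ring⟩
      exact hco.dvd_of_dvd_mul_left this
    have hpeq : pf B t = pf B t' := (Nat.prime_dvd_prime_iff_eq hprime hprime').mp hdvd
    have hn : t.1 = t'.1 := by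
      rw [hpeq] at hNat
      exact Nat.eq_of_mul_eq_mul_right hprime'.pos hNat
    have ha : t.2 = t'.2 := by
      rw [heq1, hpeq] at hm
      rw [hn] at hm
      linarith
    exact Prod.ext hn ha

/-- the sum over the moduli `p²` -/
lemma sum_small {C e : ℝ} (hC : 0 < C) (he : 0 < e)
    (hQ : ∀ q x H A : ℕ, 1 ≤ q →
      |((((Ioc x (x + H)) ×ˢ (IA A)).filter (fun t => q ∣ val t.2 t.1)).card : ℝ)
      - (2 * A + 1) * H / (q : ℝ)| ≤ C * (q : ℝ) ^ e * (H / √(q : ℝ) + √(q : ℝ)))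
    {N A : ℕ} (hN : 1 ≤ N) {z : ℝ} (hz : 1 ≤ z) {P : ℕ} (hP : P ≤ N) :
    ∑ p ∈ Icc ⌈z⌉₊ P, ((((Ioc N (2 * N)) ×ˢ (IA A)).filter (fun t => p ^ 2 ∣ val t.2 t.1)).card : ℝ)
      ≤ 2 * (2 * A + 1) * N / z
        + C * (N : ℝ) ^ (2 * e) * (N * (1 + Real.log N) + (P : ℝ) ^ 2) := by
  have hNR : (1 : ℝ) ≤ N := by exact_mod_cast hN
  have hz1 : 1 ≤ ⌈z⌉₊ := Nat.one_le_ceil_iff.mpr (by linarith)
  have hterm : ∀ p ∈ Icc ⌈z⌉₊ P,
      ((((Ioc N (2 * N)) ×ˢ (IA A)).filter (fun t => p ^ 2 ∣ val t.2 t.1)).card : ℝ)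
      ≤ (2 * A + 1) * N * ((p : ℝ) ^ 2)⁻¹ + C * (N : ℝ) ^ (2 * e) * (N * (1 / (p : ℝ)) + p) := by
    intro p hp
    simp only [Finset.mem_Icc] at hp
    have hp1 : 1 ≤ p := hz1.trans hp.1
    have hpR : (1 : ℝ) ≤ p := by exact_mod_cast hp1
    have hpN : (p : ℝ) ≤ N := by exact_mod_cast hp.2.trans hP
    have h := hQ (p ^ 2) N N A (Nat.one_le_pow _ _ hp1)
    have h2 : N + N = 2 * N := by ring
    rw [h2] at h
    have h3 := (abs_le.mp h).2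
    push_cast at h3
    rw [Real.sqrt_sq (by linarith)] at h3
    have h4 : ((p : ℝ) ^ 2) ^ e ≤ (N : ℝ) ^ (2 * e) := by
      rw [← Real.rpow_natCast, ← Real.rpow_mul (by linarith)]
      push_cast
      exact Real.rpow_le_rpow (by linarith) hpN (by positivity)
    have h5 : C * ((p : ℝ) ^ 2) ^ e * (N / p + p) ≤ C * (N : ℝ) ^ (2 * e) * (N * (1 / (p : ℝ)) + p) := by
      rw [mul_one_div]
      refine mul_le_mul_of_nonneg_right ?_ (by positivity)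
      exact mul_le_mul_of_nonneg_left h4 hC.le
    have h6 : (2 * (A : ℝ) + 1) * N / (p : ℝ) ^ 2 = (2 * A + 1) * N * ((p : ℝ) ^ 2)⁻¹ := by
      rw [div_eq_mul_inv]
    linarith
  refine (Finset.sum_le_sum hterm).trans ?_
  rw [Finset.sum_add_distrib, ← Finset.mul_sum, ← Finset.mul_sum, Finset.sum_add_distrib,
    ← Finset.mul_sum]
  have h1 : ∑ p ∈ Icc ⌈z⌉₊ P, ((p : ℝ) ^ 2)⁻¹ ≤ 2 / z := by
    have e1 := sum_Ioo_inv_sq_le (α := ℝ) (⌈z⌉₊ - 1) (P + 1)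
    have e2 : Ioo (⌈z⌉₊ - 1) (P + 1) = Icc ⌈z⌉₊ P := by
      ext p
      simp only [Finset.mem_Ioo, Finset.mem_Icc]
      omega
    rw [e2] at e1
    refine e1.trans ?_
    have e3 : (((⌈z⌉₊ - 1 : ℕ) : ℝ) + 1) = ⌈z⌉₊ := by
      rw [Nat.cast_sub hz1]
      push_cast
      ring
    rw [e3]
    exact div_le_div_of_nonneg_left (by norm_num) (by linarith) (Nat.le_ceil z)
  have h2 : ∑ p ∈ Icc ⌈z⌉₊ P, (1 : ℝ) / p ≤ 1 + Real.log N := by
    have e1 : ∑ p ∈ Icc ⌈z⌉₊ P, (1 : ℝ) / p ≤ ∑ p ∈ Icc 1 N, (1 : ℝ) / p :=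
      Finset.sum_le_sum_of_subset_of_nonneg (Finset.Icc_subset_Icc hz1 hP)
        (fun i _ _ => by positivity)
    refine e1.trans ?_
    have h := harmonic_le_one_add_log N
    rw [harmonic_eq_sum_Icc] at h
    push_cast at h
    simpa using h
  have h3 : ∑ p ∈ Icc ⌈z⌉₊ P, (p : ℝ) ≤ (P : ℝ) ^ 2 := by
    have e1 : ∀ p ∈ Icc 1 P, (p : ℝ) ≤ P := by
      intro p hp
      simp only [Finset.mem_Icc] at hp
      exact_mod_cast hp.2
    calc ∑ p ∈ Icc ⌈z⌉₊ P, (p : ℝ) ≤ ∑ p ∈ Icc 1 P, (p : ℝ) :=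
          Finset.sum_le_sum_of_subset_of_nonneg (Finset.Icc_subset_Icc hz1 le_rfl)
            (fun i _ _ => by positivity)
      _ ≤ ∑ p ∈ Icc 1 P, (P : ℝ) := Finset.sum_le_sum e1
      _ = (P : ℝ) ^ 2 := by
          rw [Finset.sum_const, Nat.card_Icc, nsmul_eq_mul]
          simp
          ring
  have h4 : (2 * (A : ℝ) + 1) * N * ∑ p ∈ Icc ⌈z⌉₊ P, ((p : ℝ) ^ 2)⁻¹
      ≤ (2 * A + 1) * N * (2 / z) := mul_le_mul_of_nonneg_left h1 (by positivity)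
  have h5 : (2 * (A : ℝ) + 1) * N * (2 / z) = 2 * (2 * A + 1) * N / z := by ring
  have h6 : C * (N : ℝ) ^ (2 * e) * (N * ∑ p ∈ Icc ⌈z⌉₊ P, (1 : ℝ) / p + ∑ p ∈ Icc ⌈z⌉₊ P, (p : ℝ))
      ≤ C * (N : ℝ) ^ (2 * e) * (N * (1 + Real.log N) + (P : ℝ) ^ 2) := by
    refine mul_le_mul_of_nonneg_left ?_ (by positivity)
    exact add_le_add (mul_le_mul_of_nonneg_left h2 (by positivity)) h3
  linarith

/-- the cover of the bad pairs -/
lemma cover (N A : ℕ) (z B : ℝ) :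
    ((((Ioc N (2 * N)) ×ˢ (IA A)).filter (fun t => NSq z (val t.2 t.1))).card : ℝ)
      ≤ N + ∑ p ∈ Icc ⌈z⌉₊ ⌊B⌋₊,
          ((((Ioc N (2 * N)) ×ˢ (IA A)).filter (fun t => p ^ 2 ∣ val t.2 t.1)).card : ℝ)
        + ((((Ioc N (2 * N)) ×ˢ (IA A)).filter (fun t => LC B t)).card : ℝ) := by
  have h1 : ((Ioc N (2 * N)) ×ˢ (IA A)).filter (fun t => NSq z (val t.2 t.1))
      ⊆ ((Ioc N (2 * N)) ×ˢ ({0} : Finset ℤ)) ∪ ((Icc ⌈z⌉₊ ⌊B⌋₊).biUnion (fun p =>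
          ((Ioc N (2 * N)) ×ˢ (IA A)).filter (fun t => p ^ 2 ∣ val t.2 t.1)))
        ∪ ((Ioc N (2 * N)) ×ˢ (IA A)).filter (fun t => LC B t) := by
    intro t ht
    rw [Finset.mem_filter] at ht
    obtain ⟨ht1, p, hp, hzp, hd⟩ := ht
    rw [Finset.mem_union, Finset.mem_union]
    by_cases ha : t.2 = 0
    · left; left
      rw [Finset.mem_product] at ht1 ⊢
      exact ⟨ht1.1, by rw [ha]; exact Finset.mem_singleton_self _⟩
    · by_cases hpB : (p : ℝ) ≤ B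
      · left; right
        rw [Finset.mem_biUnion]
        exact ⟨p, Finset.mem_Icc.mpr ⟨Nat.ceil_le.mpr hzp, Nat.le_floor hpB⟩,
          Finset.mem_filter.mpr ⟨ht1, hd⟩⟩
      · right
        exact Finset.mem_filter.mpr ⟨ht1, ha, p, hp, (not_le.mp hpB).le, hd⟩
  have h2 := Finset.card_le_card h1
  have h3 := h2.trans ((Finset.card_union_le _ _).trans
    (Nat.add_le_add_right (Finset.card_union_le _ _) _))
  have h4 : ((Ioc N (2 * N)) ×ˢ ({0} : Finset ℤ)).card = N := by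
    rw [Finset.card_product, Nat.card_Ioc, Finset.card_singleton]
    omega
  have h5 : ((Icc ⌈z⌉₊ ⌊B⌋₊).biUnion (fun p =>
          ((Ioc N (2 * N)) ×ˢ (IA A)).filter (fun t => p ^ 2 ∣ val t.2 t.1))).card
      ≤ ∑ p ∈ Icc ⌈z⌉₊ ⌊B⌋₊,
          (((Ioc N (2 * N)) ×ˢ (IA A)).filter (fun t => p ^ 2 ∣ val t.2 t.1)).card :=
    Finset.card_biUnion_le
  rw [h4] at h3
  have h6 := h3.trans (Nat.add_le_add_right (Nat.add_le_add_left h5 _) _)
  exact_mod_cast h6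

lemma sum_eq_card (N A : ℕ) (z : ℝ) :
    ∑ a ∈ IA A, cnt N a (fun m => if NSq z m then 1 else 0)
      = ((((Ioc N (2 * N)) ×ˢ (IA A)).filter (fun t => NSq z (val t.2 t.1))).card : ℝ) := by
  unfold cnt
  rw [Finset.card_filter, Finset.sum_product_right]
  push_cast
  rfl

end

end Pool.Agent.Lib.MP391708.QPA.NSF

namespace Pool.Agent.Lib.MP391708.QPA

open Finset Filter Topology
open scoped Classical

/-- **Module NSF.** -/
theorem specNSF (hQG : SpecQG) : SpecNSF := by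
  intro θ e0 κ hθ he0 hκ
  obtain ⟨C, hC, hQ⟩ := hQG (1 / 1000) (by norm_num)
  have hev : ∀ᶠ N : ℕ in atTop, (4 / κ) * (1 + Real.log N) ≤ (N : ℝ) ^ (5 / 6 : ℝ) ∧
      (24 / κ) * (1 + Real.log N) ≤ (N : ℝ) ^ e0 ∧
      (8 * C / κ) * (1 + Real.log N) ≤ (N : ℝ) ^ (1 / 100 : ℝ) ∧
      1 * (1 + Real.log N) ≤ (N : ℝ) ^ (82 / 100 : ℝ) ∧
      (420 / κ) * (1 + Real.log N) ≤ (N : ℝ) ^ (64 / 100 : ℝ) ∧ 1 ≤ Real.log N ∧ 1 ≤ N ∧
      1 ≤ (N : ℝ) ^ e0 :=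
    (RHOMEAN.ev_log_rpow _ (by norm_num) _ (by positivity)).and
      ((RHOMEAN.ev_log_rpow _ he0 _ (by positivity)).and
      ((RHOMEAN.ev_log_rpow _ (by norm_num) _ (by positivity)).and
      ((RHOMEAN.ev_log_rpow _ (by norm_num) _ (by positivity)).and
      ((RHOMEAN.ev_log_rpow _ (by norm_num) _ (by positivity)).and
      ((RHOMEAN.ev_log 1).and ((eventually_ge_atTop 1).and (RHOMEAN.ev_rpow e0 he0 1)))))))
  obtain ⟨N₀, hN₀⟩ := eventually_atTop.mp hev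
  refine ⟨N₀, ?_⟩
  intro N A hN hAdm
  obtain ⟨ha, hb, hc, hd, hf, hL, hN1, hz1⟩ := hN₀ N hN
  obtain ⟨hA1, hA2⟩ := hAdm
  have hNR : (1 : ℝ) ≤ N := by exact_mod_cast hN1
  have hNpos : (0 : ℝ) < N := by linarith
  set L : ℝ := Real.log N with hLdef
  set z : ℝ := (N : ℝ) ^ e0 with hzdef
  set B : ℝ := (N : ℝ) ^ (91 / 100 : ℝ) with hBdef
  have hLpos : 0 < L := by linarith
  have hzpos : 0 < z := by linarith
  have hBpos : 0 < B := by rw [hBdef]; positivity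
  have hA56 : (N : ℝ) ^ (5 / 6 : ℝ) ≤ A :=
    (Real.rpow_le_rpow_of_exponent_le hNR hθ.le).trans hA1
  have hA0 : (1 : ℝ) ≤ A := (Real.one_le_rpow hNR (by norm_num)).trans hA56
  have hB2 : B ^ 2 = (N : ℝ) ^ (182 / 100 : ℝ) := by
    rw [hBdef, ← Real.rpow_natCast, ← Real.rpow_mul hNpos.le]
    norm_num
  have hpw : ∀ r s : ℝ, (N : ℝ) ^ r * (N : ℝ) ^ s = (N : ℝ) ^ (r + s) := fun r s =>
    (Real.rpow_add hNpos r s).symm
  have hN1' : (N : ℝ) ^ (1 : ℝ) = N := Real.rpow_one _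
  have hN2' : (N : ℝ) ^ (2 : ℝ) = (N : ℝ) ^ 2 := by
    rw [← Real.rpow_natCast]
    norm_num
  have hLN : L < (N : ℝ) ^ (82 / 100 : ℝ) := by linarith
  have hAB : (A : ℝ) < B ^ 2 := by
    rw [hB2]
    calc (A : ℝ) ≤ N * L := hA2
      _ < N * (N : ℝ) ^ (82 / 100 : ℝ) := mul_lt_mul_of_pos_left hLN hNpos
      _ = (N : ℝ) ^ (182 / 100 : ℝ) := by
        nth_rewrite 1 [← hN1']
        rw [hpw]
        norm_num
  have hAN : (A : ℝ) ≤ (N : ℝ) ^ 2 := by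
    refine hAB.le.trans ?_
    rw [hB2, ← hN2']
    exact Real.rpow_le_rpow_of_exponent_le hNR (by norm_num)
  rw [NSF.sum_eq_card]
  refine (NSF.cover N A z B).trans ?_
  have hBN : B ≤ N := by
    calc B ≤ (N : ℝ) ^ (1 : ℝ) := Real.rpow_le_rpow_of_exponent_le hNR (by norm_num)
      _ = N := hN1'
  have hPN : ⌊B⌋₊ ≤ N := Nat.floor_le_of_le hBN
  have hs := NSF.sum_small (A := A) hC (by norm_num) hQ hN1 hz1 hPN
  have hl := NSF.card_large hN1 hAN hAB hBpos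
  have hT : κ * A * N / L = 4 * (κ / 4 * A * N / L) := by ring
  have h1 : (N : ℝ) ≤ κ / 4 * A * N / L := by
    rw [le_div_iff₀ hLpos]
    have e1 : L ≤ κ / 4 * A := by
      have e2 : 4 / κ * L ≤ A := by
        have e3 : 4 / κ * L ≤ 4 / κ * (1 + L) := mul_le_mul_of_nonneg_left (by linarith) (by positivity)
        linarith
      rw [div_mul_eq_mul_div, div_le_iff₀ hκ] at e2
      linarith
    calc (N : ℝ) * L ≤ N * (κ / 4 * A) := mul_le_mul_of_nonneg_left e1 hNpos.le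
      _ = κ / 4 * A * N := by ring
  have h2 : 2 * (2 * (A : ℝ) + 1) * N / z ≤ κ / 4 * A * N / L := by
    rw [div_le_div_iff₀ hzpos hLpos]
    have e1 : 6 * L ≤ κ / 4 * z := by
      have e2 : 24 / κ * L ≤ z := by
        have e3 : 24 / κ * L ≤ 24 / κ * (1 + L) := mul_le_mul_of_nonneg_left (by linarith) (by positivity)
        linarith
      rw [div_mul_eq_mul_div, div_le_iff₀ hκ] at e2
      linarith
    have e2 : 2 * (2 * (A : ℝ) + 1) ≤ 6 * A := by linarith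
    calc 2 * (2 * (A : ℝ) + 1) * N * L ≤ 6 * A * N * L := by
          refine mul_le_mul_of_nonneg_right ?_ hLpos.le
          exact mul_le_mul_of_nonneg_right e2 hNpos.le
      _ = (A * N) * (6 * L) := by ring
      _ ≤ (A * N) * (κ / 4 * z) := mul_le_mul_of_nonneg_left e1 (by positivity)
      _ = κ / 4 * A * N * z := by ring
  have h3 : C * (N : ℝ) ^ (2 * (1 / 1000) : ℝ) * (N * (1 + L) + (⌊B⌋₊ : ℝ) ^ 2)
      ≤ κ / 4 * A * N / L := by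
    rw [le_div_iff₀ hLpos]
    have e1 : (N : ℝ) * (1 + L) ≤ (N : ℝ) ^ (182 / 100 : ℝ) := by
      calc (N : ℝ) * (1 + L) ≤ N * (N : ℝ) ^ (82 / 100 : ℝ) :=
            mul_le_mul_of_nonneg_left (by linarith) hNpos.le
        _ = (N : ℝ) ^ (182 / 100 : ℝ) := by
            nth_rewrite 1 [← hN1']
            rw [hpw]
            norm_num
    have e2 : (⌊B⌋₊ : ℝ) ^ 2 ≤ (N : ℝ) ^ (182 / 100 : ℝ) := by
      rw [← hB2]
      exact pow_le_pow_left₀ (by positivity) (Nat.floor_le hBpos.le) 2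
    have e3 : 2 * C * L ≤ κ / 4 * (N : ℝ) ^ (1 / 100 : ℝ) := by
      have e4 : 8 * C / κ * L ≤ (N : ℝ) ^ (1 / 100 : ℝ) := by
        have e3 : 8 * C / κ * L ≤ 8 * C / κ * (1 + L) :=
          mul_le_mul_of_nonneg_left (by linarith) (by positivity)
        linarith
      rw [div_mul_eq_mul_div, div_le_iff₀ hκ] at e4
      linarith
    have e5 : (N : ℝ) ^ (1832 / 1000 : ℝ) ≤ A * N := by
      calc (N : ℝ) ^ (1832 / 1000 : ℝ) ≤ (N : ℝ) ^ (11 / 6 : ℝ) :=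
            Real.rpow_le_rpow_of_exponent_le hNR (by norm_num)
        _ = (N : ℝ) ^ (5 / 6 : ℝ) * (N : ℝ) ^ (1 : ℝ) := by
            rw [hpw]
            norm_num
        _ ≤ A * N := by
            rw [hN1']
            exact mul_le_mul_of_nonneg_right hA56 hNpos.le
    calc C * (N : ℝ) ^ (2 * (1 / 1000) : ℝ) * (N * (1 + L) + (⌊B⌋₊ : ℝ) ^ 2) * L
        ≤ C * (N : ℝ) ^ (2 * (1 / 1000) : ℝ) *
            ((N : ℝ) ^ (182 / 100 : ℝ) + (N : ℝ) ^ (182 / 100 : ℝ)) * L := by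
          refine mul_le_mul_of_nonneg_right ?_ hLpos.le
          exact mul_le_mul_of_nonneg_left (add_le_add e1 e2) (by positivity)
      _ = ((N : ℝ) ^ (2 * (1 / 1000) : ℝ) * (N : ℝ) ^ (182 / 100 : ℝ)) * (2 * C * L) := by ring
      _ ≤ ((N : ℝ) ^ (2 * (1 / 1000) : ℝ) * (N : ℝ) ^ (182 / 100 : ℝ)) *
            (κ / 4 * (N : ℝ) ^ (1 / 100 : ℝ)) := mul_le_mul_of_nonneg_left e3 (by positivity)
      _ = κ / 4 * (((N : ℝ) ^ (2 * (1 / 1000) : ℝ) * (N : ℝ) ^ (182 / 100 : ℝ)) *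
            (N : ℝ) ^ (1 / 100 : ℝ)) := by ring
      _ = κ / 4 * (N : ℝ) ^ (1832 / 1000 : ℝ) := by
          rw [hpw, hpw]
          norm_num
      _ ≤ κ / 4 * (A * N) := mul_le_mul_of_nonneg_left e5 (by positivity)
      _ = κ / 4 * A * N := by ring
  have h4 : ((((Ioc N (2 * N)) ×ˢ (IA A)).filter (fun t => NSF.LC B t)).card : ℝ)
      ≤ κ / 4 * A * N / L := by
    have e0' : 5 * (N : ℝ) ^ 2 / B ^ 2 = 5 * (N : ℝ) ^ (18 / 100 : ℝ) := by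
      rw [hB2, ← hN2', div_eq_iff (by positivity), mul_assoc, hpw]
      norm_num
    have e1 : 9 * (N : ℝ) ^ 2 * (A / B ^ 2) = 9 * A * (N : ℝ) ^ (18 / 100 : ℝ) := by
      have : 9 * (N : ℝ) ^ 2 * (A / B ^ 2) = 9 / 5 * A * (5 * (N : ℝ) ^ 2 / B ^ 2) := by ring
      rw [this, e0']
      ring
    set x : ℝ := (N : ℝ) ^ (18 / 100 : ℝ) with hx
    have hx1 : 1 ≤ x := Real.one_le_rpow hNR (by norm_num)
    rw [e0', e1] at hl
    have e2 : ((((Ioc N (2 * N)) ×ˢ (IA A)).filter (fun t => NSF.LC B t)).card : ℝ)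
        ≤ (⌊5 * x⌋₊ : ℝ) * (2 * ((⌊9 * A * x⌋₊ : ℝ) + 1) + 1) := by exact_mod_cast hl
    have e3 : (⌊5 * x⌋₊ : ℝ) ≤ 5 * x := Nat.floor_le (by positivity)
    have e4 : (⌊9 * (A : ℝ) * x⌋₊ : ℝ) ≤ 9 * A * x := Nat.floor_le (by positivity)
    have hAx : 1 ≤ (A : ℝ) * x := by nlinarith
    have e5 : (⌊5 * x⌋₊ : ℝ) * (2 * ((⌊9 * A * x⌋₊ : ℝ) + 1) + 1) ≤ (5 * x) * (21 * (A * x)) :=
      mul_le_mul e3 (by nlinarith) (by positivity) (by positivity)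
    rw [le_div_iff₀ hLpos]
    have e6 : 105 * L ≤ κ / 4 * (N : ℝ) ^ (64 / 100 : ℝ) := by
      have e4 : 420 / κ * L ≤ (N : ℝ) ^ (64 / 100 : ℝ) := by
        have e3 : 420 / κ * L ≤ 420 / κ * (1 + L) :=
          mul_le_mul_of_nonneg_left (by linarith) (by positivity)
        linarith
      rw [div_mul_eq_mul_div, div_le_iff₀ hκ] at e4
      linarith
    have e7 : x * x * (N : ℝ) ^ (64 / 100 : ℝ) = N := by
      rw [hx, hpw, hpw]
      norm_num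
    calc ((((Ioc N (2 * N)) ×ˢ (IA A)).filter (fun t => NSF.LC B t)).card : ℝ) * L
        ≤ ((5 * x) * (21 * (A * x))) * L := mul_le_mul_of_nonneg_right (e2.trans e5) hLpos.le
      _ = (A * (x * x)) * (105 * L) := by ring
      _ ≤ (A * (x * x)) * (κ / 4 * (N : ℝ) ^ (64 / 100 : ℝ)) :=
          mul_le_mul_of_nonneg_left e6 (by positivity)
      _ = κ / 4 * A * (x * x * (N : ℝ) ^ (64 / 100 : ℝ)) := by ring
      _ = κ / 4 * A * N := by rw [e7]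
  rw [hT]
  linarith

end Pool.Agent.Lib.MP391708.QPA
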