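import Pool.Agent.Lib.MP_391708_nt.QPA.Spec

/-!
# NSFM: the model sum over the integers divisible by the square of a large prime
-/

set_option autoImplicit false

namespace Pool.Agent.Lib.MP391708.QPA

open Finset Filter Topology
open scoped Classical

noncomputable section

namespace NSFM

/-- number of multiples of `q` in `(a, b]` -/
theorem card_dvd_le (q a b : ℕ) : (((Ioc a b).filter (fun m => q ∣ m)).card : ℝ) ≤ (b : ℝ) / q := by
  have h1 : ((Ioc a b).filter (fun m => q ∣ m)).card ≤ ((Ioc 0 b).filter (fun m => q ∣ m)).card := by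
    refine card_le_card (filter_subset_filter _ ?_)
    intro x hx
    simp only [mem_Ioc] at hx ⊢
    omega
  rw [Nat.Ioc_filter_dvd_card_eq_div] at h1
  exact (Nat.cast_le.2 h1).trans Nat.cast_div_le

theorem sum_nsq (z : ℝ) (hz : 1 ≤ z) (a b : ℕ) :
    (((Ioc a b).filter (fun m => NSq z m)).card : ℝ) ≤ 2 * b / z := by
  have hz0 : 0 < z := by linarith
  have hcz : 1 ≤ ⌈z⌉₊ := Nat.one_le_iff_ne_zero.2 (by
    intro h
    rw [Nat.ceil_eq_zero] at h
    linarith)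
  have h1 : ((Ioc a b).filter (fun m => NSq z m)).card
      ≤ ∑ p ∈ Ioo (⌈z⌉₊ - 1) (b + 1), ((Ioc a b).filter (fun m => p ^ 2 ∣ m)).card := by
    refine le_trans (card_le_card ?_) card_biUnion_le
    intro m hm
    simp only [mem_filter, mem_Ioc, mem_biUnion, mem_Ioo] at hm ⊢
    obtain ⟨⟨hm1, hm2⟩, p, hp, hzp, hpm⟩ := hm
    refine ⟨p, ⟨?_, ?_⟩, ⟨hm1, hm2⟩, hpm⟩
    · have : ⌈z⌉₊ ≤ p := Nat.ceil_le.2 hzp
      omega
    · have h2 : p ^ 2 ≤ m := Nat.le_of_dvd (by omega) hpm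
      have h3 : p ≤ p ^ 2 := Nat.le_self_pow two_ne_zero p
      omega
  calc (((Ioc a b).filter (fun m => NSq z m)).card : ℝ)
      ≤ ∑ p ∈ Ioo (⌈z⌉₊ - 1) (b + 1), (((Ioc a b).filter (fun m => p ^ 2 ∣ m)).card : ℝ) := by
        exact_mod_cast h1
    _ ≤ ∑ p ∈ Ioo (⌈z⌉₊ - 1) (b + 1), (b : ℝ) * ((p : ℝ) ^ 2)⁻¹ := by
        refine sum_le_sum fun p _ => ?_
        have := card_dvd_le (p ^ 2) a b
        push_cast at this
        rwa [div_eq_mul_inv] at this
    _ = b * ∑ p ∈ Ioo (⌈z⌉₊ - 1) (b + 1), ((p : ℝ) ^ 2)⁻¹ := by rw [mul_sum]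
    _ ≤ b * (2 / z) := by
        have h2 := sum_Ioo_inv_sq_le (α := ℝ) (⌈z⌉₊ - 1) (b + 1)
        have h3 : ((⌈z⌉₊ - 1 : ℕ) : ℝ) + 1 = ⌈z⌉₊ := by
          rw [Nat.cast_sub hcz]; simp
        rw [h3] at h2
        have h4 : (2 : ℝ) / ⌈z⌉₊ ≤ 2 / z := by
          have := Nat.le_ceil z
          gcongr
        gcongr
        exact h2.trans h4
    _ = 2 * b / z := by ring

/-- the model sum of an indicator is at most the number of `m` divided by `2N` -/
theorem model_le (N : ℕ) (hN : 1 ≤ N) (P : ℕ → Prop) :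
    model N (fun m => if P m then 1 else 0)
      ≤ (((Ioc (N ^ 2) (4 * N ^ 2)).filter P).card : ℝ) / (2 * N) := by
  unfold model
  have hN' : (0 : ℝ) < N := by exact_mod_cast hN
  calc ∑ m ∈ Ioc (N ^ 2) (4 * N ^ 2), (if P m then (1 : ℝ) else 0) / (2 * √(m : ℝ))
      ≤ ∑ m ∈ Ioc (N ^ 2) (4 * N ^ 2), (if P m then (1 : ℝ) else 0) / (2 * N) := by
        refine sum_le_sum fun m hm => ?_
        have h1 : (N : ℝ) ≤ √(m : ℝ) := by
          refine Real.le_sqrt_of_sq_le ?_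
          have := (mem_Ioc.1 hm).1.le
          exact_mod_cast this
        have h2 : (0 : ℝ) ≤ if P m then (1 : ℝ) else 0 := by split_ifs <;> norm_num
        gcongr
    _ = _ := by
        rw [← sum_div, sum_boole]

/-- `N^(-c) log N → 0` in the form needed here -/
theorem eventually_rpow (c κ : ℝ) (hc : 0 < c) (hκ : 0 < κ) :
    ∃ N₀ : ℕ, ∀ N : ℕ, N₀ ≤ N → Real.log N ≤ κ * (N : ℝ) ^ c := by
  have h := (isLittleO_log_rpow_atTop hc).bound hκ
  have h2 := (tendsto_natCast_atTop_atTop (R := ℝ)).eventually h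
  obtain ⟨N₀, hN₀⟩ := eventually_atTop.1 h2
  refine ⟨max N₀ 1, fun N hN => ?_⟩
  have h3 := hN₀ N ((le_max_left _ _).trans hN)
  have hN1 : (1 : ℝ) ≤ N := by
    have := (le_max_right N₀ 1).trans hN
    exact_mod_cast this
  rw [Real.norm_eq_abs, Real.norm_eq_abs, abs_of_nonneg (Real.log_nonneg hN1),
    abs_of_nonneg (by positivity)] at h3
  exact h3

end NSFM

theorem specNSFM : SpecNSFM := by
  intro e0 κ he hκ
  obtain ⟨N₀, hN₀⟩ := NSFM.eventually_rpow e0 (κ / 4) he (by positivity)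
  refine ⟨max N₀ 3, fun N hN => ?_⟩
  have hN1 : N₀ ≤ N := (le_max_left _ _).trans hN
  have hN3 : 3 ≤ N := (le_max_right _ _).trans hN
  have hN3' : (3 : ℝ) ≤ N := by exact_mod_cast hN3
  have hNp : (0 : ℝ) < N := by linarith
  have hz : (1 : ℝ) ≤ (N : ℝ) ^ e0 := Real.one_le_rpow (by linarith) he.le
  have hlog : 0 < Real.log N := Real.log_pos (by linarith)
  have h1 := NSFM.model_le N (by omega) (fun m => NSq ((N : ℝ) ^ e0) m)
  have h2 := NSFM.sum_nsq ((N : ℝ) ^ e0) hz (N ^ 2) (4 * N ^ 2)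
  have h3 := hN₀ N hN1
  calc model N (fun m => if NSq ((N : ℝ) ^ e0) m then 1 else 0)
      ≤ (2 * ((4 * N ^ 2 : ℕ) : ℝ) / (N : ℝ) ^ e0) / (2 * N) := by
        refine h1.trans ?_
        gcongr
    _ = 4 * N / (N : ℝ) ^ e0 := by
        push_cast
        field_simp
    _ ≤ κ * N / Real.log N := by
        rw [div_le_div_iff₀ (by positivity) hlog]
        calc 4 * N * Real.log N ≤ 4 * N * (κ / 4 * (N : ℝ) ^ e0) := by gcongr
          _ = κ * N * (N : ℝ) ^ e0 := by ring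

end

end Pool.Agent.Lib.MP391708.QPA
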