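import Pool.Agent.Lib.MP_391708_nt.QPA.Spec2
import Pool.Agent.Lib.MP_391708_nt.QPA.MODP

/-! # P3M: products of three primes in the model -/

set_option autoImplicit false

namespace Pool.Agent.Lib.MP391708.QPA.P3M

open Finset Filter Topology

/-- `∑_{m ≤ n} log m = ∑_{d ≤ n} Λ(d) ⌊n/d⌋` -/
theorem sum_log_eq (n : ℕ) : ∑ m ∈ Ioc 0 n, Real.log m
    = ∑ d ∈ Ioc 0 n, ArithmeticFunction.vonMangoldt d * ((n / d : ℕ) : ℝ) := by
  have h1 : ∀ m ∈ Ioc 0 n, Real.log m =
      ∑ d ∈ Ioc 0 n, if d ∣ m then ArithmeticFunction.vonMangoldt d else 0 := by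
    intro m hm
    rw [← ArithmeticFunction.vonMangoldt_sum (n := m), ← Finset.sum_filter]
    apply Finset.sum_congr _ fun _ _ => rfl
    ext d
    simp only [Nat.mem_divisors, mem_filter, mem_Ioc] at *
    constructor
    · rintro ⟨hd, hm0⟩
      exact ⟨⟨Nat.pos_of_dvd_of_pos hd hm.1, (Nat.le_of_dvd hm.1 hd).trans hm.2⟩, hd⟩
    · rintro ⟨_, hd⟩
      exact ⟨hd, by omega⟩
  rw [Finset.sum_congr rfl h1, Finset.sum_comm]
  refine Finset.sum_congr rfl fun d _ => ?_
  rw [← Finset.sum_filter, Finset.sum_const, Nat.Ioc_filter_dvd_card_eq_div, nsmul_eq_mul, mul_comm]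

theorem sum_log_le (n : ℕ) : ∑ m ∈ Ioc 0 n, Real.log m ≤ n * Real.log n := by
  have h : ∀ m ∈ Ioc 0 n, Real.log m ≤ Real.log n := by
    intro m hm
    rw [mem_Ioc] at hm
    apply Real.log_le_log
    · exact_mod_cast hm.1
    · exact_mod_cast hm.2
  refine (Finset.sum_le_card_nsmul _ _ _ h).trans ?_
  rw [Nat.card_Ioc, nsmul_eq_mul, Nat.sub_zero]

theorem le_sum_log (n : ℕ) : n * Real.log n - n ≤ ∑ m ∈ Ioc 0 n, Real.log m := by
  induction n with
  | zero => simp
  | succ n ih =>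
    have e : Ioc 0 (n + 1) = insert (n + 1) (Ioc 0 n) := by
      ext m; simp only [mem_Ioc, mem_insert]; omega
    rw [e, Finset.sum_insert (by simp)]
    rcases Nat.eq_zero_or_pos n with h0 | h0
    · subst h0; simp
    · have hn : (0 : ℝ) < n := by exact_mod_cast h0
      have h1 : Real.log (((n : ℝ) + 1) / n) ≤ ((n : ℝ) + 1) / n - 1 :=
        Real.log_le_sub_one_of_pos (by positivity)
      rw [Real.log_div (by positivity) (by positivity)] at h1
      have h2 : (n : ℝ) * (Real.log ((n : ℝ) + 1) - Real.log n) ≤ 1 := by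
        calc (n : ℝ) * (Real.log ((n : ℝ) + 1) - Real.log n)
            ≤ n * (((n : ℝ) + 1) / n - 1) := by gcongr
          _ = 1 := by field_simp; ring
      push_cast
      nlinarith

/-- `∑_{d ≤ n} Λ(d)/d` -/
noncomputable def G (n : ℕ) : ℝ := ∑ d ∈ Ioc 0 n, ArithmeticFunction.vonMangoldt d / (d : ℝ)

theorem G_le (n : ℕ) (hn : 1 ≤ n) : G n ≤ Real.log n + (Real.log 4 + 4) := by
  have hn0 : (0 : ℝ) < n := by exact_mod_cast hn
  have h1 := sum_log_le n
  rw [sum_log_eq] at h1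
  have h2 : ∑ d ∈ Ioc 0 n, (n * (ArithmeticFunction.vonMangoldt d / (d : ℝ)) -
      ArithmeticFunction.vonMangoldt d) ≤
      ∑ d ∈ Ioc 0 n, ArithmeticFunction.vonMangoldt d * ((n / d : ℕ) : ℝ) := by
    refine Finset.sum_le_sum fun d hd => ?_
    have hd0 : (0 : ℝ) < d := by exact_mod_cast (mem_Ioc.mp hd).1
    have h3 : (n : ℝ) / d - 1 ≤ ((n / d : ℕ) : ℝ) := by
      have := Nat.lt_floor_add_one ((n : ℝ) / d)
      rw [Nat.floor_div_natCast, Nat.floor_natCast] at this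
      linarith
    have h4 : (0 : ℝ) ≤ ArithmeticFunction.vonMangoldt d := ArithmeticFunction.vonMangoldt_nonneg
    calc n * (ArithmeticFunction.vonMangoldt d / (d : ℝ)) - ArithmeticFunction.vonMangoldt d
        = ArithmeticFunction.vonMangoldt d * ((n : ℝ) / d - 1) := by ring
      _ ≤ _ := by gcongr
  rw [Finset.sum_sub_distrib, ← Finset.mul_sum] at h2
  have h5 : ∑ d ∈ Ioc 0 n, ArithmeticFunction.vonMangoldt d ≤ (Real.log 4 + 4) * n := by
    have := Chebyshev.psi_le_const_mul_self (x := (n : ℝ)) hn0.le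
    unfold Chebyshev.psi at this
    rwa [Nat.floor_natCast] at this
  have h6 : n * G n ≤ n * (Real.log n + (Real.log 4 + 4)) := by
    unfold G
    linarith
  exact le_of_mul_le_mul_left h6 hn0

theorem le_G (n : ℕ) (hn : 1 ≤ n) : Real.log n - 1 ≤ G n := by
  have hn0 : (0 : ℝ) < n := by exact_mod_cast hn
  have h1 := le_sum_log n
  rw [sum_log_eq] at h1
  have h2 : ∑ d ∈ Ioc 0 n, ArithmeticFunction.vonMangoldt d * ((n / d : ℕ) : ℝ) ≤
      ∑ d ∈ Ioc 0 n, (n * (ArithmeticFunction.vonMangoldt d / (d : ℝ))) := by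
    refine Finset.sum_le_sum fun d hd => ?_
    have h3 : ((n / d : ℕ) : ℝ) ≤ (n : ℝ) / d := Nat.cast_div_le
    have h4 : (0 : ℝ) ≤ ArithmeticFunction.vonMangoldt d := ArithmeticFunction.vonMangoldt_nonneg
    calc ArithmeticFunction.vonMangoldt d * ((n / d : ℕ) : ℝ)
        ≤ ArithmeticFunction.vonMangoldt d * ((n : ℝ) / d) := by gcongr
      _ = _ := by ring
  rw [← Finset.mul_sum] at h2
  have h6 : n * (Real.log n - 1) ≤ n * G n := by
    unfold G
    linarith
  exact le_of_mul_le_mul_left h6 hn0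

/-- Mertens' first theorem, upper bound for intervals -/
theorem mert (a b : ℝ) (ha : 1 ≤ a) (hab : a ≤ b) :
    ∑ p ∈ (Ioc ⌊a⌋₊ ⌊b⌋₊).filter Nat.Prime, Real.log p / (p : ℝ) ≤
      (Real.log b - Real.log a) + 8 := by
  have ha1 : 1 ≤ ⌊a⌋₊ := Nat.le_floor (by simpa using ha)
  have hab' : ⌊a⌋₊ ≤ ⌊b⌋₊ := Nat.floor_mono hab
  have h1 : ∑ p ∈ (Ioc ⌊a⌋₊ ⌊b⌋₊).filter Nat.Prime, Real.log p / (p : ℝ) ≤ G ⌊b⌋₊ - G ⌊a⌋₊ := by
    have e : G ⌊b⌋₊ - G ⌊a⌋₊ = ∑ d ∈ Ioc ⌊a⌋₊ ⌊b⌋₊,
        ArithmeticFunction.vonMangoldt d / (d : ℝ) := by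
      unfold G
      rw [← Finset.sum_Ioc_consecutive _ (Nat.zero_le _) hab']
      ring
    rw [e]
    calc ∑ p ∈ (Ioc ⌊a⌋₊ ⌊b⌋₊).filter Nat.Prime, Real.log p / (p : ℝ)
        = ∑ p ∈ (Ioc ⌊a⌋₊ ⌊b⌋₊).filter Nat.Prime,
            ArithmeticFunction.vonMangoldt p / (p : ℝ) := by
          refine Finset.sum_congr rfl fun p hp => ?_
          rw [ArithmeticFunction.vonMangoldt_apply_prime (Finset.mem_filter.mp hp).2]
      _ ≤ _ := by
          apply Finset.sum_le_sum_of_subset_of_nonneg (Finset.filter_subset _ _)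
          intro d _ _
          exact div_nonneg ArithmeticFunction.vonMangoldt_nonneg (Nat.cast_nonneg _)
  have h2 := G_le ⌊b⌋₊ (ha1.trans hab')
  have h3 := le_G ⌊a⌋₊ ha1
  have h4 : Real.log (⌊b⌋₊ : ℝ) ≤ Real.log b := by
    apply Real.log_le_log
    · exact_mod_cast (ha1.trans hab')
    · exact Nat.floor_le (by linarith)
  have h5 : Real.log a - Real.log 2 ≤ Real.log (⌊a⌋₊ : ℝ) := by
    rw [← Real.log_div (by linarith) (by norm_num)]
    apply Real.log_le_log (by linarith)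
    have h6 := Nat.lt_floor_add_one a
    have h7 : (1 : ℝ) ≤ (⌊a⌋₊ : ℝ) := by exact_mod_cast ha1
    linarith
  have h8 : Real.log 4 = 2 * Real.log 2 := by
    rw [show (4 : ℝ) = 2 ^ 2 by norm_num, Real.log_pow]; norm_num
  have h9 := Real.log_two_lt_d9
  linarith

/-- the sum over the triangle -/
theorem tri (C z Y : ℝ) (J : ℕ) (hJ : 1 ≤ J) (hC : 8 ≤ C) (hz : 1 ≤ z) (hzY : z ≤ Y) :
    ∑ p ∈ (Ioc ⌊z⌋₊ ⌊Y⌋₊).filter Nat.Prime,
      Real.log p / (p : ℝ) * (Real.log p - Real.log z + C) ≤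
    ((Real.log Y - Real.log z) / J + C) *
      ((Real.log Y - Real.log z) * (J + 1) / 2 + C * J) := by
  have hJ0 : (0 : ℝ) < J := by exact_mod_cast hJ
  set l : ℝ := Real.log Y - Real.log z with hl
  have hl0 : 0 ≤ l := by
    have := Real.log_le_log (by linarith) hzY
    linarith
  set X : ℕ → ℝ := fun j => z * Real.exp (j * l / J) with hX
  have hXm : Monotone X := by
    intro i j hij
    have : (i : ℝ) ≤ j := by exact_mod_cast hij
    simp only [hX]
    gcongr
  have hX0 : X 0 = z := by simp [hX]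
  have hXJ : X J = Y := by
    simp only [hX]
    rw [show (J : ℝ) * l / J = l by field_simp, hl, Real.exp_sub, Real.exp_log (by linarith),
      Real.exp_log (by linarith)]
    field_simp
  have hX1 : ∀ j, 1 ≤ X j := fun j => by
    have := hXm (Nat.zero_le j)
    rw [hX0] at this; linarith
  have hlX : ∀ j : ℕ, Real.log (X j) = Real.log z + j * l / J := by
    intro j
    simp only [hX]
    rw [Real.log_mul (by linarith) (Real.exp_pos _).ne', Real.log_exp]
  rw [Finset.sum_filter]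
  have e1 := MODP.sum_parts (fun j => ⌊X j⌋₊) (fun i j h => Nat.floor_mono (hXm h))
    (fun p => if Nat.Prime p then Real.log p / (p : ℝ) * (Real.log p - Real.log z + C) else 0) J
  simp only [hX0, hXJ] at e1
  rw [e1]
  have h1 : ∀ j ∈ range J, ∑ p ∈ Ioc ⌊X j⌋₊ ⌊X (j + 1)⌋₊,
      (if Nat.Prime p then Real.log p / (p : ℝ) * (Real.log p - Real.log z + C) else 0) ≤
      (l / J + C) * (((j : ℝ) + 1) * l / J + C) := by
    intro j _
    rw [← Finset.sum_filter]
    have h2 : ∀ p ∈ (Ioc ⌊X j⌋₊ ⌊X (j + 1)⌋₊).filter Nat.Prime,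
        Real.log p / (p : ℝ) * (Real.log p - Real.log z + C) ≤
        Real.log p / (p : ℝ) * (((j : ℝ) + 1) * l / J + C) := by
      intro p hp
      rw [mem_filter, mem_Ioc] at hp
      have hp1 : (p : ℝ) ≤ X (j + 1) := (Nat.le_floor_iff (by linarith [hX1 (j + 1)])).mp hp.1.2
      have hp0 : (1 : ℝ) ≤ p := by exact_mod_cast hp.2.one_le
      have h3 : Real.log p ≤ Real.log (X (j + 1)) := Real.log_le_log (by linarith) hp1
      rw [hlX] at h3
      push_cast at h3
      apply mul_le_mul_of_nonneg_left _ (div_nonneg (Real.log_nonneg hp0) (by linarith))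
      linarith
    refine (Finset.sum_le_sum h2).trans ?_
    rw [← Finset.sum_mul]
    have h4 := mert (X j) (X (j + 1)) (hX1 j) (hXm (Nat.le_succ j))
    rw [hlX, hlX] at h4
    have h5 : Real.log z + ((j + 1 : ℕ) : ℝ) * l / J - (Real.log z + (j : ℝ) * l / J) + 8 ≤
        l / J + C := by
      push_cast
      have : ((j : ℝ) + 1) * l / J = (j : ℝ) * l / J + l / J := by ring
      rw [this]
      linarith
    apply mul_le_mul_of_nonneg_right (h4.trans h5)
    have : 0 ≤ ((j : ℝ) + 1) * l / J := by positivity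
    linarith
  refine (Finset.sum_le_sum h1).trans ?_
  rw [← Finset.mul_sum]
  apply mul_le_mul_of_nonneg_left _ (by have : 0 ≤ l / J := by positivity
                                        linarith)
  rw [Finset.sum_add_distrib, Finset.sum_const, Finset.card_range, nsmul_eq_mul]
  have h6 : ∀ K : ℕ, ∑ j ∈ range K, ((j : ℝ) + 1) * l / J = l / J * (K * (K + 1) / 2) := by
    intro K
    induction K with
    | zero => simp
    | succ K ih =>
      rw [Finset.sum_range_succ, ih]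
      push_cast
      ring
  rw [h6]
  apply le_of_eq
  field_simp

/-- sums `∑_{x<p≤4x} 1/(2√p)` -/
noncomputable def inn (x : ℝ) : ℝ := ∑ r ∈ (Ioc ⌊x⌋₊ ⌊4 * x⌋₊).filter Nat.Prime, 1 / (2 * √(r : ℝ))

theorem inn_le (h : SpecMODP) {δ : ℝ} (hδ : 0 < δ) : ∃ X₀ : ℝ, 2 ≤ X₀ ∧ ∀ x : ℝ, X₀ ≤ x →
    inn x ≤ (1 + δ) * √x / Real.log x := by
  obtain ⟨N₀, hN₀⟩ := h (δ / 8) (by positivity)
  have hlim : ∀ᶠ x : ℝ in atTop, ‖Real.log x‖ ≤ δ / 12 * ‖x ^ (1 / 2 : ℝ)‖ :=
    (isLittleO_log_rpow_atTop (by norm_num : (0 : ℝ) < 1 / 2)).bound (by positivity)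
  obtain ⟨X₁, hX₁⟩ := eventually_atTop.mp hlim
  refine ⟨max (max X₁ (((N₀ : ℝ) + 1) ^ 2)) 16, (by norm_num : (2 : ℝ) ≤ 16).trans (le_max_right _ _),
    fun x hx => ?_⟩
  have hx16 : 16 ≤ x := (le_max_right _ _).trans hx
  have hxX : X₁ ≤ x := (le_max_left _ _).trans ((le_max_left _ _).trans hx)
  have hxN : ((N₀ : ℝ) + 1) ^ 2 ≤ x := (le_max_right _ _).trans ((le_max_left _ _).trans hx)
  have hx0 : 0 < x := by linarith
  set N : ℕ := ⌊√x⌋₊ with hN
  have hs4 : 4 ≤ √x := by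
    rw [show (4 : ℝ) = √(4 ^ 2) by rw [Real.sqrt_sq]; norm_num]
    exact Real.sqrt_le_sqrt (by linarith)
  have hsN : (N₀ : ℝ) + 1 ≤ √x := by
    rw [← Real.sqrt_sq (by positivity : (0 : ℝ) ≤ (N₀ : ℝ) + 1)]
    exact Real.sqrt_le_sqrt hxN
  have hN1 : (N : ℝ) ≤ √x := Nat.floor_le (by linarith)
  have hN2 : √x < N + 1 := Nat.lt_floor_add_one _
  have hN4 : 4 ≤ N := Nat.le_floor (by exact_mod_cast hs4)
  have hN4' : (4 : ℝ) ≤ N := by exact_mod_cast hN4
  have hNN : N₀ ≤ N := by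
    have : N₀ + 1 ≤ N := Nat.le_floor (by push_cast; exact hsN)
    omega
  have hsx : √x ^ 2 = x := Real.sq_sqrt hx0.le
  have hlow : N ^ 2 ≤ ⌊x⌋₊ := by
    apply Nat.le_floor
    push_cast
    nlinarith
  have hup : ⌊4 * x⌋₊ ≤ 4 * (N + 1) ^ 2 := by
    apply Nat.floor_le_of_le
    push_cast
    nlinarith
  have h1 : inn x ≤ model N primeInd + 3 := by
    have h2 : inn x ≤ ∑ m ∈ Ioc (N ^ 2) (4 * (N + 1) ^ 2), primeInd m / (2 * √(m : ℝ)) := by
      unfold inn primeInd
      rw [Finset.sum_filter]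
      calc ∑ r ∈ Ioc ⌊x⌋₊ ⌊4 * x⌋₊, (if Nat.Prime r then 1 / (2 * √(r : ℝ)) else 0)
          = ∑ r ∈ Ioc ⌊x⌋₊ ⌊4 * x⌋₊, (if Nat.Prime r then (1 : ℝ) else 0) / (2 * √(r : ℝ)) := by
            refine Finset.sum_congr rfl fun r _ => ?_
            split_ifs <;> simp
        _ ≤ _ := by
            refine (Finset.sum_le_sum_of_subset_of_nonneg (Finset.Ioc_subset_Ioc hlow hup) ?_).trans
              (le_of_eq ?_)
            · intro m _ _
              split_ifs <;> positivity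
            · refine Finset.sum_congr rfl fun r _ => ?_
              congr
    have h3 : 4 * N ^ 2 ≤ 4 * (N + 1) ^ 2 := by nlinarith
    rw [← Finset.sum_Ioc_consecutive _ (by nlinarith : N ^ 2 ≤ 4 * N ^ 2) h3] at h2
    refine h2.trans (add_le_add le_rfl ?_)
    have h4 : ∀ m ∈ Ioc (4 * N ^ 2) (4 * (N + 1) ^ 2), primeInd m / (2 * √(m : ℝ)) ≤
        1 / (4 * N) := by
      intro m hm
      rw [mem_Ioc] at hm
      have h5 : (2 * N : ℝ) ≤ √(m : ℝ) := by
        rw [show (2 * N : ℝ) = √((2 * N) ^ 2) by rw [Real.sqrt_sq]; positivity]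
        apply Real.sqrt_le_sqrt
        have : ((4 * N ^ 2 : ℕ) : ℝ) ≤ m := by exact_mod_cast hm.1.le
        push_cast at this
        nlinarith
      have h6 : primeInd m ≤ 1 := by unfold primeInd; split_ifs <;> norm_num
      have h7 : 0 ≤ primeInd m := by unfold primeInd; split_ifs <;> norm_num
      apply div_le_div₀ (by norm_num) h6 (by positivity)
      linarith
    refine (Finset.sum_le_card_nsmul _ _ _ h4).trans ?_
    rw [Nat.card_Ioc, nsmul_eq_mul, Nat.cast_sub h3]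
    push_cast
    rw [← mul_div_assoc, mul_one, div_le_iff₀ (by positivity)]
    nlinarith
  have h8 := (abs_le.mp (hN₀ N hNN)).2
  have hlN : 0 < Real.log N := Real.log_pos (by linarith)
  have hlx : 0 < Real.log √x := Real.log_pos (by linarith)
  have h9 : (N : ℝ) / Real.log N ≤ √x / Real.log √x := by
    have he : Real.exp 1 ≤ 4 := by linarith [Real.exp_one_lt_d9]
    have := Real.log_div_self_antitoneOn (a := (N : ℝ)) (b := √x)
      (by change Real.exp 1 ≤ _; linarith) (by change Real.exp 1 ≤ _; linarith) hN1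
    rw [div_le_div_iff₀ (by linarith) (by linarith)] at this
    rw [div_le_div_iff₀ hlN hlx]
    linarith
  have h10 : Real.log √x = Real.log x / 2 := Real.log_sqrt hx0.le
  have hlx' : 0 < Real.log x := by linarith [h10 ▸ hlx]
  have h11 := hX₁ x hxX
  rw [← Real.sqrt_eq_rpow, Real.norm_of_nonneg hlx'.le, Real.norm_of_nonneg (by positivity)] at h11
  have h12 : 3 ≤ δ / 4 * (√x / Real.log x) := by
    rw [← mul_div_assoc, le_div_iff₀ hlx']
    nlinarith
  have h13 : √x / Real.log √x = 2 * (√x / Real.log x) := by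
    rw [h10]; field_simp
  calc inn x ≤ model N primeInd + 3 := h1
    _ ≤ (N / (2 * Real.log N) + δ / 8 * N / Real.log N) + 3 := by linarith
    _ = (1 / 2 + δ / 8) * (N / Real.log N) + 3 := by field_simp
    _ ≤ (1 / 2 + δ / 8) * (√x / Real.log √x) + δ / 4 * (√x / Real.log x) := by gcongr
    _ ≤ (1 + δ) * √x / Real.log x := by
        rw [h13, mul_div_assoc]
        have : 0 ≤ √x / Real.log x := by positivity
        nlinarith

/-- each `m` is counted six times -/
theorem six (Y : ℝ) (m : ℕ) (P : Finset ℕ) (hP : ∀ p : ℕ, p.Prime → (p : ℝ) ≤ Y → p ∈ P) :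
    6 * p3Ind Y m ≤ ∑ t ∈ P ×ˢ (P ×ˢ P), if t.1 * t.2.1 * t.2.2 = m then (1 : ℝ) else 0 := by
  classical
  unfold p3Ind
  split_ifs with h
  · obtain ⟨hsq, hc, hY⟩ := h
    obtain ⟨a, b, c, hab, hac, hbc, he⟩ := Finset.card_eq_three.mp hc
    have hprod := Nat.prod_primeFactors_of_squarefree hsq
    rw [he, Finset.prod_insert (by simp [hab, hac]), Finset.prod_insert (by simp [hbc]),
      Finset.prod_singleton] at hprod
    have hmem : ∀ x ∈ ({a, b, c} : Finset ℕ), x ∈ P := by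
      intro x hx
      rw [← he] at hx
      exact hP x (Nat.prime_of_mem_primeFactors hx) (hY x hx)
    have ha : a ∈ P := hmem a (by simp)
    have hb : b ∈ P := hmem b (by simp)
    have hc' : c ∈ P := hmem c (by simp)
    set T : Finset (ℕ × ℕ × ℕ) := {(a, b, c), (a, c, b), (b, a, c), (b, c, a), (c, a, b), (c, b, a)}
      with hT
    have hcard : T.card = 6 := by
      rw [hT]
      rw [Finset.card_insert_of_notMem, Finset.card_insert_of_notMem, Finset.card_insert_of_notMem,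
        Finset.card_insert_of_notMem, Finset.card_insert_of_notMem, Finset.card_singleton]
      all_goals
        simp only [mem_insert, mem_singleton, Prod.mk.injEq]
        omega
    have hsub : T ⊆ (P ×ˢ (P ×ˢ P)).filter (fun t => t.1 * t.2.1 * t.2.2 = m) := by
      intro t ht
      rw [hT] at ht
      simp only [mem_insert, mem_singleton] at ht
      rw [mem_filter, mem_product, mem_product]
      rcases ht with rfl | rfl | rfl | rfl | rfl | rfl <;>
        refine ⟨⟨by assumption, by assumption, by assumption⟩, ?_⟩ <;> (rw [← hprod]; ring)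
    rw [← Finset.sum_filter, Finset.sum_const, nsmul_eq_mul, mul_one]
    have := Finset.card_le_card hsub
    rw [hcard] at this
    norm_num
    exact_mod_cast this
  · rw [mul_zero]
    exact Finset.sum_nonneg fun t _ => by split_ifs <;> norm_num

theorem model_le (N : ℕ) (Y : ℝ) (P : Finset ℕ) (hP : ∀ p : ℕ, p.Prime → (p : ℝ) ≤ Y → p ∈ P) :
    6 * model N (p3Ind Y) ≤ ∑ p ∈ P, ∑ q ∈ P,
      ∑ r ∈ P.filter (fun r => N ^ 2 < p * q * r ∧ p * q * r ≤ 4 * N ^ 2),
        1 / (2 * √((p * q * r : ℕ) : ℝ)) := by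
  classical
  unfold model
  rw [Finset.mul_sum]
  calc ∑ m ∈ Ioc (N ^ 2) (4 * N ^ 2), 6 * (p3Ind Y m / (2 * √(m : ℝ)))
      ≤ ∑ m ∈ Ioc (N ^ 2) (4 * N ^ 2), ∑ t ∈ P ×ˢ (P ×ˢ P),
          if t.1 * t.2.1 * t.2.2 = m then 1 / (2 * √(m : ℝ)) else 0 := by
        refine Finset.sum_le_sum fun m _ => ?_
        have h1 := six Y m P hP
        have h2 : (0 : ℝ) ≤ 1 / (2 * √(m : ℝ)) := by positivity
        calc 6 * (p3Ind Y m / (2 * √(m : ℝ))) = (6 * p3Ind Y m) * (1 / (2 * √(m : ℝ))) := by ring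
          _ ≤ (∑ t ∈ P ×ˢ (P ×ˢ P), if t.1 * t.2.1 * t.2.2 = m then (1 : ℝ) else 0) *
              (1 / (2 * √(m : ℝ))) := by gcongr
          _ = _ := by
              rw [Finset.sum_mul]
              refine Finset.sum_congr rfl fun t _ => ?_
              split_ifs <;> simp
    _ = ∑ t ∈ P ×ˢ (P ×ˢ P), if N ^ 2 < t.1 * t.2.1 * t.2.2 ∧ t.1 * t.2.1 * t.2.2 ≤ 4 * N ^ 2 then
          1 / (2 * √((t.1 * t.2.1 * t.2.2 : ℕ) : ℝ)) else 0 := by
        rw [Finset.sum_comm]
        refine Finset.sum_congr rfl fun t _ => ?_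
        rw [Finset.sum_ite_eq]
        simp only [mem_Ioc]
    _ = _ := by
        rw [Finset.sum_product]
        refine Finset.sum_congr rfl fun p _ => ?_
        rw [Finset.sum_product]
        refine Finset.sum_congr rfl fun q _ => ?_
        rw [Finset.sum_filter]

theorem uvw {κ L u v w : ℝ} (hL : 0 < L) (hκ : 0 < κ) (hκ1 : κ ≤ 1) (hu : u ≤ κ * L)
    (hv : v ≤ κ * L) (hw : w ≤ κ * L) (hs : u + v + w = 2 * L) :
    2 * κ ^ 2 * (1 - κ) * L ^ 3 ≤ u * v * w := by
  have hw0 : (2 - 2 * κ) * L ≤ w := by linarith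
  have hw1 : 0 ≤ w := le_trans (mul_nonneg (by linarith) hL.le) hw0
  have h1 : 0 ≤ (κ * L - u) * (κ * L - v) := mul_nonneg (by linarith) (by linarith)
  have h2 : κ * L * ((2 - κ) * L - w) ≤ u * v := by
    have : v = 2 * L - w - u := by linarith
    subst this
    nlinarith
  have h3 : 0 ≤ (κ * L - w) * (w - (2 - 2 * κ) * L) := mul_nonneg (by linarith) (by linarith)
  have h4 : κ * L * ((2 - κ) * L - w) * w ≤ u * v * w := mul_le_mul_of_nonneg_right h2 hw1
  have h5 : 2 * κ * (1 - κ) * L ^ 2 ≤ ((2 - κ) * L - w) * w := by nlinarith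
  have h6 : κ * L * (2 * κ * (1 - κ) * L ^ 2) ≤ κ * L * (((2 - κ) * L - w) * w) :=
    mul_le_mul_of_nonneg_left h5 (by positivity)
  nlinarith

/-- the sum over `r` -/
theorem inner_le {N : ℕ} {Y κ δ X₀ : ℝ} (hN : 2 ≤ N) (hδ : 0 < δ) (hκ : 0 < κ) (hκ1 : κ < 1)
    (hY : 1 ≤ Y) (hYκ : Real.log Y ≤ κ * Real.log N) (hX2 : 2 ≤ X₀)
    (hX : ∀ x : ℝ, X₀ ≤ x → inn x ≤ (1 + δ) * √x / Real.log x)
    (hz : X₀ ≤ (N : ℝ) ^ 2 / Y ^ 2) (P : Finset ℕ) (hP : P = (Icc 1 ⌊Y⌋₊).filter Nat.Prime)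
    (p q : ℕ) (hp : p ∈ P) (hq : q ∈ P) :
    ∑ r ∈ P.filter (fun r => N ^ 2 < p * q * r ∧ p * q * r ≤ 4 * N ^ 2),
        1 / (2 * √((p * q * r : ℕ) : ℝ)) ≤
      if (N : ℝ) ^ 2 < p * q * Y then
        (1 + δ) * N / (2 * κ ^ 2 * (1 - κ) * (Real.log N) ^ 3) *
          ((Real.log p / p) * (Real.log q / q)) else 0 := by
  have hmem : ∀ r ∈ P, r.Prime ∧ (1 : ℝ) ≤ r ∧ (r : ℝ) ≤ Y := by
    intro r hr
    rw [hP, mem_filter, mem_Icc] at hr
    exact ⟨hr.2, by exact_mod_cast hr.1.1, (Nat.le_floor_iff (by linarith)).mp hr.1.2⟩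
  obtain ⟨hpp, hp1, hpY⟩ := hmem p hp
  obtain ⟨hqp, hq1, hqY⟩ := hmem q hq
  have hN2 : (2 : ℝ) ≤ N := by exact_mod_cast hN
  have hL : 0 < Real.log N := Real.log_pos (by linarith)
  have hpq : (0 : ℝ) < p * q := by positivity
  split_ifs with hc
  · set x : ℝ := (N : ℝ) ^ 2 / (p * q) with hx
    have hxY : x < Y := by
      rw [hx, div_lt_iff₀ hpq]; linarith
    have hxX : X₀ ≤ x := by
      refine hz.trans ?_
      rw [hx]
      apply div_le_div_of_nonneg_left (by positivity) hpq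
      rw [sq]
      exact mul_le_mul hpY hqY (by linarith) (by linarith)
    have hx0 : 0 < x := by linarith
    have h1 : ∑ r ∈ P.filter (fun r => N ^ 2 < p * q * r ∧ p * q * r ≤ 4 * N ^ 2),
        1 / (2 * √((p * q * r : ℕ) : ℝ)) ≤ 1 / √((p : ℝ) * q) * inn x := by
      unfold inn
      rw [Finset.mul_sum]
      calc ∑ r ∈ P.filter (fun r => N ^ 2 < p * q * r ∧ p * q * r ≤ 4 * N ^ 2),
            1 / (2 * √((p * q * r : ℕ) : ℝ))
          = ∑ r ∈ P.filter (fun r => N ^ 2 < p * q * r ∧ p * q * r ≤ 4 * N ^ 2),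
            1 / √((p : ℝ) * q) * (1 / (2 * √(r : ℝ))) := by
            refine Finset.sum_congr rfl fun r _ => ?_
            push_cast
            rw [Real.sqrt_mul hpq.le]
            field_simp
        _ ≤ _ := by
            apply Finset.sum_le_sum_of_subset_of_nonneg
            · intro r hr
              rw [mem_filter] at hr
              obtain ⟨hrP, hr1, hr2⟩ := hr
              rw [mem_filter, mem_Ioc]
              refine ⟨⟨?_, ?_⟩, (hmem r hrP).1⟩
              · rw [Nat.floor_lt hx0.le, hx, div_lt_iff₀ hpq]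
                have : ((N ^ 2 : ℕ) : ℝ) < ((p * q * r : ℕ) : ℝ) := by exact_mod_cast hr1
                push_cast at this
                linarith
              · apply Nat.le_floor
                rw [hx, ← mul_div_assoc, le_div_iff₀ hpq]
                have : ((p * q * r : ℕ) : ℝ) ≤ ((4 * N ^ 2 : ℕ) : ℝ) := by exact_mod_cast hr2
                push_cast at this
                linarith
            · intro r _ _
              positivity
    have h2 := hX x hxX
    have hw : Real.log x = 2 * Real.log N - Real.log p - Real.log q := by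
      rw [hx, Real.log_div (by positivity) hpq.ne', Real.log_pow,
        Real.log_mul (by linarith) (by linarith)]
      push_cast; ring
    have hw0 : 0 < Real.log x := Real.log_pos (by linarith)
    have hu : Real.log p ≤ κ * Real.log N := (Real.log_le_log (by linarith) hpY).trans hYκ
    have hv : Real.log q ≤ κ * Real.log N := (Real.log_le_log (by linarith) hqY).trans hYκ
    have hwY : Real.log x ≤ κ * Real.log N := (Real.log_le_log hx0 hxY.le).trans hYκ
    have h3 := uvw hL hκ hκ1.le hu hv hwY (by rw [hw]; ring)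
    have hD : 0 < 2 * κ ^ 2 * (1 - κ) * Real.log N ^ 3 := by
      have : 0 < 1 - κ := by linarith
      positivity
    have h4 : 1 / Real.log x ≤ Real.log p * Real.log q / (2 * κ ^ 2 * (1 - κ) * Real.log N ^ 3) := by
      rw [div_le_div_iff₀ hw0 hD]
      linarith
    have hsx : √x = N / √((p : ℝ) * q) := by
      rw [hx, Real.sqrt_div (by positivity), Real.sqrt_sq (by linarith)]
    have hss : √((p : ℝ) * q) * √((p : ℝ) * q) = p * q := Real.mul_self_sqrt hpq.le
    have hs0 : 0 < √((p : ℝ) * q) := Real.sqrt_pos.mpr hpq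
    refine h1.trans ?_
    calc 1 / √((p : ℝ) * q) * inn x ≤ 1 / √((p : ℝ) * q) * ((1 + δ) * √x / Real.log x) := by gcongr
      _ = (1 + δ) * N / (√((p : ℝ) * q) * √((p : ℝ) * q)) * (1 / Real.log x) := by
          rw [hsx]; field_simp
      _ = (1 + δ) * N / (p * q) * (1 / Real.log x) := by rw [hss]
      _ ≤ (1 + δ) * N / (p * q) *
          (Real.log p * Real.log q / (2 * κ ^ 2 * (1 - κ) * Real.log N ^ 3)) := by gcongr
      _ = _ := by field_simp
  · rw [Finset.filter_false_of_mem, Finset.sum_empty]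
    rintro r hr ⟨h1, _⟩
    apply hc
    have : ((N ^ 2 : ℕ) : ℝ) < ((p * q * r : ℕ) : ℝ) := by exact_mod_cast h1
    push_cast at this
    have h2 : (p : ℝ) * q * r ≤ p * q * Y := by
      apply mul_le_mul_of_nonneg_left (hmem r hr).2.2 hpq.le
    linarith

/-- the double sum over `p, q` -/
theorem double_le {N : ℕ} {Y : ℝ} (hN : 2 ≤ N) (hY : 1 ≤ Y)
    (hz : 1 ≤ (N : ℝ) ^ 2 / Y ^ 2) (P : Finset ℕ) (hP : P = (Icc 1 ⌊Y⌋₊).filter Nat.Prime) :
    ∑ p ∈ P, ∑ q ∈ P, (if (N : ℝ) ^ 2 < p * q * Y then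
        ((Real.log p / p) * (Real.log q / q)) else 0) ≤
    ∑ p ∈ (Ioc ⌊(N : ℝ) ^ 2 / Y ^ 2⌋₊ ⌊Y⌋₊).filter Nat.Prime,
      Real.log p / (p : ℝ) * (Real.log p - Real.log ((N : ℝ) ^ 2 / Y ^ 2) + 8) := by
  have hmem : ∀ r ∈ P, r.Prime ∧ (1 : ℝ) ≤ r ∧ (r : ℝ) ≤ Y := by
    intro r hr
    rw [hP, mem_filter, mem_Icc] at hr
    exact ⟨hr.2, by exact_mod_cast hr.1.1, (Nat.le_floor_iff (by linarith)).mp hr.1.2⟩
  have hY0 : 0 < Y := by linarith
  have hN0 : (0 : ℝ) < N := by
    have : (2 : ℝ) ≤ N := by exact_mod_cast hN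
    linarith
  set z : ℝ := (N : ℝ) ^ 2 / Y ^ 2 with hzd
  have hsub : (Ioc ⌊z⌋₊ ⌊Y⌋₊).filter Nat.Prime ⊆ P := by
    intro p hp
    rw [mem_filter, mem_Ioc] at hp
    rw [hP, mem_filter, mem_Icc]
    exact ⟨⟨by omega, hp.1.2⟩, hp.2⟩
  rw [← Finset.sum_subset hsub]
  · refine Finset.sum_le_sum fun p hp => ?_
    obtain ⟨hpp, hp1, hpY⟩ := hmem p (hsub hp)
    rw [mem_filter, mem_Ioc, Nat.floor_lt (by linarith)] at hp
    rw [← Finset.sum_filter, ← Finset.mul_sum]
    apply mul_le_mul_of_nonneg_left _ (div_nonneg (Real.log_nonneg hp1) (by linarith))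
    have ha1 : 1 ≤ (N : ℝ) ^ 2 / (p * Y) := by
      refine hz.trans ?_
      rw [hzd]
      apply div_le_div_of_nonneg_left (by positivity) (by positivity)
      rw [sq]
      exact mul_le_mul_of_nonneg_right hpY hY0.le
    have hab : (N : ℝ) ^ 2 / (p * Y) ≤ Y := by
      have h1 := hp.1.1
      rw [hzd, div_lt_iff₀ (by positivity)] at h1
      rw [div_le_iff₀ (by positivity)]
      nlinarith
    have hm := mert _ _ ha1 hab
    have hlog : Real.log ((N : ℝ) ^ 2 / (p * Y)) = 2 * Real.log N - Real.log p - Real.log Y := by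
      rw [Real.log_div (by positivity) (by positivity), Real.log_pow,
        Real.log_mul (by linarith) (by linarith)]
      push_cast; ring
    have hlz : Real.log z = 2 * Real.log N - 2 * Real.log Y := by
      rw [hzd, Real.log_div (by positivity) (by positivity), Real.log_pow, Real.log_pow]
      push_cast; ring
    rw [hlog] at hm
    rw [hlz]
    refine (Finset.sum_le_sum_of_subset_of_nonneg ?_ ?_).trans (hm.trans (by linarith))
    · intro q hq
      rw [mem_filter] at hq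
      obtain ⟨hqp, hq1, hqY⟩ := hmem q hq.1
      rw [mem_filter, mem_Ioc, Nat.floor_lt (by linarith)]
      refine ⟨⟨?_, Nat.le_floor hqY⟩, hqp⟩
      rw [div_lt_iff₀ (by positivity)]
      linarith [hq.2]
    · intro q hq _
      rw [mem_filter] at hq
      exact div_nonneg (Real.log_natCast_nonneg q) (Nat.cast_nonneg q)
  · intro p hp hp'
    obtain ⟨hpp, hp1, hpY⟩ := hmem p hp
    have hpz : (p : ℝ) ≤ z := by
      by_contra hcon
      push Not at hcon
      apply hp'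
      rw [mem_filter, mem_Ioc, Nat.floor_lt (by linarith)]
      exact ⟨⟨hcon, Nat.le_floor hpY⟩, hpp⟩
    apply Finset.sum_eq_zero
    intro q hq
    obtain ⟨hqp, hq1, hqY⟩ := hmem q hq
    rw [if_neg]
    rw [not_lt]
    rw [hzd, le_div_iff₀ (by positivity)] at hpz
    calc (p : ℝ) * q * Y ≤ p * Y * Y := by gcongr
      _ = p * Y ^ 2 := by ring
      _ ≤ _ := hpz

theorem main (h : SpecMODP) : SpecP3M := by
  intro κ ε hκ1 hκ2 hε
  have hκ0 : 0 < κ := by linarith
  set δ : ℝ := min 1 ε with hδd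
  have hδ : 0 < δ := lt_min one_pos hε
  have hδ1 : δ ≤ 1 := min_le_left _ _
  have hδε : δ ≤ ε := min_le_right _ _
  obtain ⟨X₀, hX2, hX⟩ := inn_le h hδ
  obtain ⟨J, hJ⟩ := exists_nat_ge (16 / ε + 1)
  have hJ1' : (1 : ℝ) ≤ J := by
    have : 0 < 16 / ε := by positivity
    linarith
  have hJ1 : 1 ≤ J := by exact_mod_cast hJ1'
  have hJ0 : (0 : ℝ) < J := by linarith
  have hJε : 1 / (2 * (J : ℝ)) ≤ ε / 32 := by
    rw [div_le_div_iff₀ (by positivity) (by norm_num)]
    have : 16 / ε ≤ J := by linarith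
    rw [div_le_iff₀ hε] at this
    linarith
  set M : ℝ := 8 * (1 + ((J : ℝ) + 1) / 2) + 64 * J with hM
  have hM0 : 0 < M := by positivity
  obtain ⟨N₁, hN₁⟩ := MODP.log_large (max 1 (32 * M / ε))
  have htend : ∀ᶠ N : ℕ in atTop, X₀ ≤ (N : ℝ) ^ (2 / 5 : ℝ) :=
    ((tendsto_rpow_atTop (by norm_num : (0 : ℝ) < 2 / 5)).comp
      (tendsto_natCast_atTop_atTop (R := ℝ))).eventually_ge_atTop X₀
  obtain ⟨N₂, hN₂⟩ := eventually_atTop.mp htend
  refine ⟨max (max N₁ N₂) 2, fun N hN => ?_⟩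
  have hN2 : 2 ≤ N := (le_max_right _ _).trans hN
  have hlog := hN₁ N ((le_max_left _ _).trans ((le_max_left _ _).trans hN))
  have hX0N := hN₂ N ((le_max_right _ _).trans ((le_max_left _ _).trans hN))
  have hN2' : (2 : ℝ) ≤ N := by exact_mod_cast hN2
  have hN0 : (0 : ℝ) < N := by linarith
  set L : ℝ := Real.log N with hL
  have hL1 : 1 ≤ L := (le_max_left _ _).trans hlog
  have hLM : 32 * M / ε ≤ L := (le_max_right _ _).trans hlog
  have hL0 : 0 < L := by linarith
  set Y : ℝ := YK N κ with hYd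
  have hY1 : 1 ≤ Y := by
    rw [hYd, YK]
    exact Real.one_le_rpow (by linarith) hκ0.le
  have hY0 : 0 < Y := by linarith
  have hlY : Real.log Y ≤ κ * L := by
    rw [hYd, YK, Real.log_rpow (by positivity), Real.log_div (by linarith) (by norm_num)]
    have : 0 < Real.log 2 := Real.log_pos (by norm_num)
    nlinarith
  have hYN : Y ≤ (N : ℝ) ^ (4 / 5 : ℝ) := by
    rw [hYd, YK]
    calc ((N : ℝ) / 2) ^ κ ≤ (N : ℝ) ^ κ := by
          apply Real.rpow_le_rpow (by positivity) (by linarith) hκ0.le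
      _ ≤ _ := Real.rpow_le_rpow_of_exponent_le (by linarith) hκ2
  have hz0 : X₀ ≤ (N : ℝ) ^ 2 / Y ^ 2 := by
    refine hX0N.trans ?_
    rw [le_div_iff₀ (by positivity)]
    calc (N : ℝ) ^ (2 / 5 : ℝ) * Y ^ 2 ≤ (N : ℝ) ^ (2 / 5 : ℝ) * ((N : ℝ) ^ (4 / 5 : ℝ)) ^ 2 := by
          gcongr
      _ = (N : ℝ) ^ 2 := by
          rw [← Real.rpow_natCast ((N : ℝ) ^ (4 / 5 : ℝ)), ← Real.rpow_mul hN0.le,
            ← Real.rpow_add hN0, ← Real.rpow_natCast (N : ℝ)]
          norm_num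
  set z : ℝ := (N : ℝ) ^ 2 / Y ^ 2 with hzd
  have hz1 : 1 ≤ z := by linarith
  have hlz : Real.log z = 2 * L - 2 * Real.log Y := by
    rw [hzd, Real.log_div (by positivity) (by positivity), Real.log_pow, Real.log_pow]
    push_cast; ring
  set P : Finset ℕ := (Icc 1 ⌊Y⌋₊).filter Nat.Prime with hP
  have hPm : ∀ p : ℕ, p.Prime → (p : ℝ) ≤ Y → p ∈ P := by
    intro p hp hpY
    rw [hP, mem_filter, mem_Icc]
    exact ⟨⟨hp.one_le, Nat.le_floor hpY⟩, hp⟩
  set D : ℝ := 2 * κ ^ 2 * (1 - κ) with hD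
  have hD1 : 8 / 45 ≤ D := by
    have h1 : (4 / 9 : ℝ) ≤ κ ^ 2 := by nlinarith
    rw [hD]
    nlinarith
  have hD0 : 0 < D := by linarith
  set g : ℝ := 3 * κ - 2 with hg
  have hg0 : 0 ≤ g := by rw [hg]; linarith
  have hg1 : g ≤ 2 / 5 := by rw [hg]; linarith
  -- the triangle
  have hS : ∑ p ∈ (Ioc ⌊z⌋₊ ⌊Y⌋₊).filter Nat.Prime,
      Real.log p / (p : ℝ) * (Real.log p - Real.log z + 8) ≤ L ^ 2 * (g ^ 2 / 2 + ε / 16) := by
    have hpos : 0 ≤ L ^ 2 * (g ^ 2 / 2 + ε / 16) := by positivity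
    rcases le_total z Y with hzY | hzY
    · have h1 := tri 8 z Y J hJ1 le_rfl hz1 hzY
      refine h1.trans ?_
      have h2 : Real.log Y - Real.log z ≤ g * L := by
        rw [hlz, hg]; linarith
      have h3 : 0 ≤ Real.log Y - Real.log z := by
        have := Real.log_le_log (by linarith) hzY
        linarith
      calc ((Real.log Y - Real.log z) / J + 8) * ((Real.log Y - Real.log z) * (J + 1) / 2 + 8 * J)
          ≤ (g * L / J + 8) * (g * L * (J + 1) / 2 + 8 * J) := by gcongr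
        _ = L ^ 2 * (g ^ 2 / 2) + L ^ 2 * g ^ 2 * (1 / (2 * J)) +
            L * (8 * (g + g * (J + 1) / 2)) + 64 * J := by field_simp; ring
        _ ≤ L ^ 2 * (g ^ 2 / 2) + L ^ 2 * 1 * (ε / 32) +
            L * (8 * (1 + 1 * (J + 1) / 2)) + L * (64 * J) := by
            have hg2 : g ^ 2 ≤ 1 := by nlinarith
            have hg3 : g ≤ 1 := by linarith
            have h64 : (64 : ℝ) * J ≤ L * (64 * J) := by nlinarith
            gcongr
        _ = L ^ 2 * (g ^ 2 / 2) + L ^ 2 * (ε / 32) + L * M := by rw [hM]; ring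
        _ ≤ L ^ 2 * (g ^ 2 / 2) + L ^ 2 * (ε / 32) + L * (L * (ε / 32)) := by
            have : M ≤ L * (ε / 32) := by
              rw [div_le_iff₀ hε] at hLM
              linarith
            gcongr
        _ = _ := by ring
    · rw [Finset.Ioc_eq_empty_of_le (Nat.floor_mono hzY), Finset.filter_empty, Finset.sum_empty]
      exact hpos
  have h1 := model_le N Y P hPm
  have h2 : ∑ p ∈ P, ∑ q ∈ P,
      ∑ r ∈ P.filter (fun r => N ^ 2 < p * q * r ∧ p * q * r ≤ 4 * N ^ 2),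
        1 / (2 * √((p * q * r : ℕ) : ℝ)) ≤
      (1 + δ) * N / (D * L ^ 3) * (L ^ 2 * (g ^ 2 / 2 + ε / 16)) := by
    calc _ ≤ ∑ p ∈ P, ∑ q ∈ P, (if (N : ℝ) ^ 2 < p * q * Y then
          (1 + δ) * N / (2 * κ ^ 2 * (1 - κ) * (Real.log N) ^ 3) *
            ((Real.log p / p) * (Real.log q / q)) else 0) := by
          refine Finset.sum_le_sum fun p hp => Finset.sum_le_sum fun q hq => ?_
          exact inner_le hN2 hδ hκ0 (by linarith) hY1 hlY hX2 hX hz0 P hP p q hp hq
      _ = (1 + δ) * N / (D * L ^ 3) * ∑ p ∈ P, ∑ q ∈ P, (if (N : ℝ) ^ 2 < p * q * Y then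
            ((Real.log p / p) * (Real.log q / q)) else 0) := by
          rw [Finset.mul_sum]
          refine Finset.sum_congr rfl fun p _ => ?_
          rw [Finset.mul_sum]
          refine Finset.sum_congr rfl fun q _ => ?_
          split_ifs
          · rfl
          · rw [mul_zero]
      _ ≤ _ := by
          apply mul_le_mul_of_nonneg_left _ (by positivity)
          exact (double_le hN2 hY1 hz1 P hP).trans hS
  have h3 : (1 + δ) * (g ^ 2 / 2 + ε / 16) ≤ g ^ 2 / 2 + 3 / 2 * ε * D := by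
    have hg2 : g ^ 2 ≤ 4 / 25 := by nlinarith
    have h4 : δ * (g ^ 2 / 2) ≤ ε * (2 / 25) := by
      have : g ^ 2 / 2 ≤ 2 / 25 := by linarith
      exact mul_le_mul hδε this (by positivity) hε.le
    have h5 : (1 + δ) * (ε / 16) ≤ 2 * (ε / 16) := by
      apply mul_le_mul_of_nonneg_right (by linarith) (by positivity)
    have h6 : 3 / 2 * ε * (8 / 45) ≤ 3 / 2 * ε * D := by
      apply mul_le_mul_of_nonneg_left hD1 (by positivity)
    nlinarith
  have h7 : 6 * model N (p3Ind Y) ≤ (g ^ 2 / (2 * D) + 3 / 2 * ε) * (N / L) := by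
    refine (h1.trans h2).trans ?_
    calc (1 + δ) * N / (D * L ^ 3) * (L ^ 2 * (g ^ 2 / 2 + ε / 16))
        = ((1 + δ) * (g ^ 2 / 2 + ε / 16)) * (N / (D * L)) := by field_simp
      _ ≤ (g ^ 2 / 2 + 3 / 2 * ε * D) * (N / (D * L)) := by gcongr
      _ = _ := by field_simp
  have h8 : (g ^ 2 / (6 * κ ^ 2 * (1 - κ)) + ε) * (N / (2 * L)) =
      1 / 3 * ((g ^ 2 / (2 * D) + 3 / 2 * ε) * (N / L)) := by
    have : 0 < 1 - κ := by linarith
    rw [hD]
    field_simp
    ring
  rw [h8]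
  linarith

end Pool.Agent.Lib.MP391708.QPA.P3M

namespace Pool.Agent.Lib.MP391708.QPA

theorem specP3M (h : SpecMODP) : SpecP3M := P3M.main h

end Pool.Agent.Lib.MP391708.QPA
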