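import Pool.Agent.Lib.MP_391708_nt.QPA.Spec

/-!
# POI: Poisson summation for `gB` on the odd multiples of `D`
-/

set_option autoImplicit false

namespace Pool.Agent.Lib.MP391708.QPA

open Finset Filter Topology
open scoped Classical

noncomputable section

namespace POI

open MeasureTheory
open scoped SchwartzMap FourierTransform ContDiff

/-- the complex valued bump -/
def gc (x : ℝ) : ℂ := ((gB x : ℝ) : ℂ)

theorem gc_smooth : ContDiff ℝ ∞ gc :=
  Complex.ofRealCLM.contDiff.comp gB.contDiff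

theorem gc_cs : HasCompactSupport gc :=
  gB.hasCompactSupport.comp_left (g := fun x : ℝ => (x : ℂ)) (by simp)

theorem gc_int (ξ : ℝ) : Integrable (fun v : ℝ => gB v * Real.cos (2 * Real.pi * ξ * v)) ∧
    Integrable (fun v : ℝ => gB v * Real.sin (2 * Real.pi * ξ * v)) := by
  constructor
  · refine Continuous.integrable_of_hasCompactSupport ?_ (gB.hasCompactSupport.mul_right)
    have := gB.contDiff (n := ⊤)
    exact (gB.continuous).mul (by fun_prop)
  · refine Continuous.integrable_of_hasCompactSupport ?_ (gB.hasCompactSupport.mul_right)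
    exact (gB.continuous).mul (by fun_prop)

theorem sin_zero (ξ : ℝ) : ∫ v : ℝ, gB v * Real.sin (2 * Real.pi * ξ * v) = 0 := by
  have h := integral_neg_eq_self (fun v : ℝ => gB v * Real.sin (2 * Real.pi * ξ * v)) volume
  have h2 : ∀ v : ℝ, gB (-v) * Real.sin (2 * Real.pi * ξ * (-v))
      = -(gB v * Real.sin (2 * Real.pi * ξ * v)) := by
    intro v
    rw [gB.neg, mul_neg, Real.sin_neg]
    ring
  simp only [h2] at h
  rw [integral_neg] at h
  linarith

/-- the Fourier transform of the bump is `gh` -/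
theorem four (ξ : ℝ) : 𝓕 gc ξ = ((gh ξ : ℝ) : ℂ) := by
  rw [Real.fourier_real_eq_integral_exp_smul]
  have h1 : ∀ v : ℝ, Complex.exp (↑(-2 * Real.pi * v * ξ) * Complex.I) • gc v
      = ((gB v * Real.cos (2 * Real.pi * ξ * v) : ℝ) : ℂ)
        - Complex.I * ((gB v * Real.sin (2 * Real.pi * ξ * v) : ℝ) : ℂ) := by
    intro v
    have : ((-2 * Real.pi * v * ξ : ℝ) : ℂ) = -((2 * Real.pi * ξ * v : ℝ) : ℂ) := by
      push_cast; ring
    rw [this, Complex.exp_mul_I, Complex.cos_neg, Complex.sin_neg, gc, smul_eq_mul]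
    push_cast
    ring
  simp_rw [h1]
  rw [integral_sub ((gc_int ξ).1.ofReal) (((gc_int ξ).2.ofReal).const_mul _),
    MeasureTheory.integral_const_mul, integral_complex_ofReal, integral_complex_ofReal, sin_zero]
  simp [gh]

/-- the scaled bump -/
def fc (c : ℝ) (hc : c ≠ 0) : 𝓢(ℝ, ℂ) :=
  HasCompactSupport.toSchwartzMap (f := fun x : ℝ => gc (c * x))
    (by simpa [smul_eq_mul] using gc_cs.comp_smul hc)
    (gc_smooth.comp (contDiff_const.mul contDiff_id))

theorem fc_apply (c : ℝ) (hc : c ≠ 0) (x : ℝ) : fc c hc x = gc (c * x) := rfl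

theorem four_fc (c : ℝ) (hc : 0 < c) (ξ : ℝ) :
    𝓕 (fc c hc.ne') ξ = ((1 / c * gh (ξ / c) : ℝ) : ℂ) := by
  have h0 : 𝓕 (fc c hc.ne') ξ = 𝓕 (fun x : ℝ => gc (c * x)) ξ := by
    rw [SchwartzMap.fourier_coe]
    rfl
  rw [h0, Real.fourier_real_eq_integral_exp_smul]
  have h1 : ∀ v : ℝ, Complex.exp (↑(-2 * Real.pi * v * ξ) * Complex.I) • gc (c * v)
      = (fun u : ℝ => Complex.exp (↑(-2 * Real.pi * u * (ξ / c)) * Complex.I) • gc u) (c * v) := by
    intro v
    have : -2 * Real.pi * (c * v) * (ξ / c) = -2 * Real.pi * v * ξ := by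
      field_simp
    simp only [this]
  simp_rw [h1]
  rw [MeasureTheory.Measure.integral_comp_mul_left
    (fun u : ℝ => Complex.exp (↑(-2 * Real.pi * u * (ξ / c)) * Complex.I) • gc u) c,
    ← Real.fourier_real_eq_integral_exp_smul, four, abs_of_pos (inv_pos.2 hc)]
  simp

theorem decay (j : ℕ) : ∃ C : ℝ, 0 < C ∧ ∀ ξ : ℝ, |ξ| ^ j * |gh ξ| ≤ C := by
  obtain ⟨C, hC, h⟩ := (𝓕 (fc 1 one_ne_zero)).decay j 0
  refine ⟨C, hC, fun ξ => ?_⟩
  have h1 := h ξ
  rw [norm_iteratedFDeriv_zero] at h1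
  have h2 := four_fc 1 one_pos ξ
  rw [h2] at h1
  simpa [Complex.norm_real] using h1

theorem gh_neg (ξ : ℝ) : gh (-ξ) = gh ξ := by
  unfold gh
  congr 1
  ext x
  rw [show 2 * Real.pi * (-ξ) * x = -(2 * Real.pi * ξ * x) by ring, Real.cos_neg]

theorem gh_zero : gh 0 = gI := by
  unfold gh gI
  simp

/-- the terms of the dual sum -/
def tm (c x0 : ℝ) (n : ℤ) : ℝ := 1 / c * gh (n / c) * Real.cos (2 * Real.pi * n * x0)

theorem tm_even (c x0 : ℝ) : Function.Even (tm c x0) := by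
  intro n
  unfold tm
  rw [show (((-n : ℤ) : ℝ) / c) = -((n : ℝ) / c) by push_cast; ring, gh_neg,
    show 2 * Real.pi * ((-n : ℤ) : ℝ) * x0 = -(2 * Real.pi * n * x0) by push_cast; ring,
    Real.cos_neg]

theorem summ (c : ℝ) (hc : 0 < c) : Summable fun n : ℤ => 𝓕 (fc c hc.ne') (n : ℝ) :=
  summable_of_isBigO (Real.summable_abs_int_rpow one_lt_two)
    (((𝓕 (fc c hc.ne')).isBigO_cocompact_rpow (-2)).comp_tendsto Int.tendsto_coe_cofinite)

theorem poisson (c x0 : ℝ) (hc : 0 < c) :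
    Summable (tm c x0) ∧ ∑' i : ℤ, gB (c * (x0 + i)) = ∑' n : ℤ, tm c x0 n := by
  have h := SchwartzMap.tsum_eq_tsum_fourier (fc c hc.ne') x0
  have hs : Summable fun n : ℤ => 𝓕 (fc c hc.ne') (n : ℝ) * fourier n (x0 : UnitAddCircle) := by
    refine Summable.of_norm ?_
    have h1 : ∀ n : ℤ, ‖𝓕 (fc c hc.ne') (n : ℝ) * fourier n (x0 : UnitAddCircle)‖
        = ‖𝓕 (fc c hc.ne') (n : ℝ)‖ := by
      intro n
      rw [norm_mul, fourier_apply, Circle.norm_coe, mul_one]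
    simp_rw [h1]
    exact (summ c hc).norm
  have hre : ∀ n : ℤ, (𝓕 (fc c hc.ne') (n : ℝ) * fourier n (x0 : UnitAddCircle)).re
      = tm c x0 n := by
    intro n
    rw [four_fc c hc, fourier_coe_apply, Complex.re_ofReal_mul, tm]
    have : (2 * (Real.pi : ℂ) * Complex.I * (n : ℂ) * (x0 : ℂ) / ((1 : ℝ) : ℂ))
        = ((2 * Real.pi * n * x0 : ℝ) : ℂ) * Complex.I := by
      push_cast; ring
    rw [this, Complex.exp_ofReal_mul_I_re]
  constructor
  · have := Complex.reCLM.summable hs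
    simpa only [Complex.reCLM_apply, hre] using this
  · have h2 : ∑' i : ℤ, fc c hc.ne' (x0 + i) = ((∑' i : ℤ, gB (c * (x0 + i)) : ℝ) : ℂ) := by
      rw [Complex.ofReal_tsum]
      rfl
    rw [h2] at h
    have h3 := congrArg Complex.re h
    rw [Complex.ofReal_re, Complex.re_tsum hs] at h3
    rw [h3]
    exact tsum_congr hre

theorem sum_sq (H k : ℕ) : ∑ n ∈ range k, 1 / ((n + H + 1 : ℕ) : ℝ) ^ 2 ≤ 2 / ((H : ℝ) + 1) := by
  have h := sum_Ioo_inv_sq_le (α := ℝ) H (H + k + 1)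
  refine le_trans (le_of_eq ?_) h
  have : Ioo H (H + k + 1) = (range k).image (fun n => n + H + 1) := by
    ext i
    simp only [mem_Ioo, mem_image, mem_range]
    constructor
    · rintro ⟨h1, h2⟩
      exact ⟨i - H - 1, by omega, by omega⟩
    · rintro ⟨a, ha, rfl⟩
      omega
  rw [this, sum_image (fun a _ b _ hab => by simpa using hab)]
  refine sum_congr rfl fun n _ => ?_
  rw [one_div]

end POI

theorem specPOI : SpecPOI := by
  intro j
  obtain ⟨C, hC, hdec⟩ := POI.decay (j + 2)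
  refine ⟨4 * C, by positivity, ?_⟩
  intro lam t D H hlam hD hH
  have hD' : (0 : ℝ) < D := by exact_mod_cast hD
  have hH' : (0 : ℝ) < H := by exact_mod_cast hH
  set c : ℝ := 2 * D * lam with hcdef
  have hc : 0 < c := by positivity
  set x0 : ℝ := (D - t) / (2 * D) with hx0
  obtain ⟨hsum, hpois⟩ := POI.poisson c x0 hc
  have hL : (∑' i : ℤ, gB (lam * (D * (2 * i + 1) - t))) = ∑' i : ℤ, gB (c * (x0 + i)) := by
    refine tsum_congr fun i => ?_
    congr 1
    rw [hcdef, hx0]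
    field_simp
    ring
  have hcos : ∀ n : ℕ, POI.tm c x0 n
      = 1 / c * (gh (n / c) * (-1) ^ n * Real.cos (Real.pi * n * t / D)) := by
    intro n
    unfold POI.tm
    have : 2 * Real.pi * ((n : ℤ) : ℝ) * x0 = n * Real.pi - Real.pi * n * t / D := by
      rw [hx0]
      push_cast
      field_simp
    rw [this, Real.cos_nat_mul_pi_sub]
    push_cast
    ring
  have hb : ∀ n : ℕ, H < n → |POI.tm c x0 n| ≤ C * c ^ (j + 1) / (H : ℝ) ^ j * (1 / (n : ℝ) ^ 2) := by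
    intro n hn
    have hn' : (0 : ℝ) < n := by
      have : 0 < n := by omega
      exact_mod_cast this
    have h1 := hdec (n / c)
    have h2 : |gh (n / c)| ≤ C * (c / n) ^ (j + 2) := by
      rw [abs_of_pos (div_pos hn' hc)] at h1
      have h3 : 0 < ((n : ℝ) / c) ^ (j + 2) := by positivity
      have h4 : (c / n) ^ (j + 2) = 1 / ((n : ℝ) / c) ^ (j + 2) := by
        rw [div_pow, div_pow]
        field_simp
      rw [h4, mul_one_div, le_div_iff₀ h3, mul_comm]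
      exact h1
    have h5 : |POI.tm c x0 n| ≤ 1 / c * |gh (n / c)| := by
      unfold POI.tm
      rw [abs_mul, abs_mul, abs_of_pos (show 0 < 1 / c by positivity)]
      have := Real.abs_cos_le_one (2 * Real.pi * ((n : ℤ) : ℝ) * x0)
      have h6 : 0 ≤ 1 / c * |gh (((n : ℤ) : ℝ) / c)| := by positivity
      calc 1 / c * |gh (((n : ℤ) : ℝ) / c)| * |Real.cos (2 * Real.pi * ((n : ℤ) : ℝ) * x0)|
          ≤ 1 / c * |gh (((n : ℤ) : ℝ) / c)| * 1 := by gcongr
        _ = 1 / c * |gh (n / c)| := by push_cast; ring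
    have h7 : 1 / c * |gh (n / c)| ≤ 1 / c * (C * (c / n) ^ (j + 2)) := by gcongr
    have h8 : 1 / c * (C * (c / n) ^ (j + 2)) = C * c ^ (j + 1) / (n : ℝ) ^ j * (1 / (n : ℝ) ^ 2) := by
      rw [div_pow]
      field_simp
      ring
    have h9 : C * c ^ (j + 1) / (n : ℝ) ^ j ≤ C * c ^ (j + 1) / (H : ℝ) ^ j := by
      have : (H : ℝ) ≤ n := by exact_mod_cast hn.le
      gcongr
    calc |POI.tm c x0 n| ≤ C * c ^ (j + 1) / (n : ℝ) ^ j * (1 / (n : ℝ) ^ 2) := by
          rw [← h8]; exact h5.trans h7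
      _ ≤ _ := by gcongr
  -- splitting of the dual sum
  have hsN : Summable (fun n : ℕ => POI.tm c x0 n) :=
    hsum.comp_injective Nat.cast_injective
  have hs1 : Summable (fun n : ℕ => POI.tm c x0 ((n + 1 : ℕ) : ℤ)) :=
    (summable_nat_add_iff (f := fun n : ℕ => POI.tm c x0 n) 1).2 hsN
  have hsplit : ∑' n : ℤ, POI.tm c x0 n
      = POI.tm c x0 0 + 2 * ((∑ h ∈ Icc 1 H, POI.tm c x0 (h : ℤ))
        + ∑' n : ℕ, POI.tm c x0 ((n + H + 1 : ℕ) : ℤ)) := by
    have h1 := tsum_int_eq_zero_add_two_mul_tsum_pnat (POI.tm_even c x0) hsum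
    have h2 : ∑' n : ℕ+, POI.tm c x0 ((n : ℕ) : ℤ) = ∑' n : ℕ, POI.tm c x0 ((n + 1 : ℕ) : ℤ) :=
      tsum_pnat_eq_tsum_succ (f := fun n : ℕ => POI.tm c x0 (n : ℤ))
    have h3 := hs1.sum_add_tsum_nat_add H
    have h4 : ∑ h ∈ Icc 1 H, POI.tm c x0 (h : ℤ) = ∑ n ∈ range H, POI.tm c x0 ((n + 1 : ℕ) : ℤ) := by
      have : Icc 1 H = Ico 1 (H + 1) := by ext; simp
      rw [this, sum_Ico_eq_sum_range]
      simp only [Nat.add_sub_cancel]
      exact sum_congr rfl fun n _ => by rw [add_comm 1 n]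
    rw [h4, h3, ← h2]
    simpa using h1
  have htail : |∑' n : ℕ, POI.tm c x0 ((n + H + 1 : ℕ) : ℤ)|
      ≤ C * c ^ (j + 1) / (H : ℝ) ^ j * (2 / (H + 1)) := by
    have hsT : Summable (fun n : ℕ => POI.tm c x0 ((n + H + 1 : ℕ) : ℤ)) := by
      have := (summable_nat_add_iff (f := fun n : ℕ => POI.tm c x0 n) (H + 1)).2 hsN
      simpa [add_assoc] using this
    have h1 : |∑' n : ℕ, POI.tm c x0 ((n + H + 1 : ℕ) : ℤ)|
        ≤ ∑' n : ℕ, |POI.tm c x0 ((n + H + 1 : ℕ) : ℤ)| := by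
      have := norm_tsum_le_tsum_norm hsT.norm
      simpa [Real.norm_eq_abs] using this
    refine h1.trans (Real.tsum_le_of_sum_range_le (fun n => abs_nonneg _) fun k => ?_)
    calc ∑ n ∈ range k, |POI.tm c x0 ((n + H + 1 : ℕ) : ℤ)|
        ≤ ∑ n ∈ range k, C * c ^ (j + 1) / (H : ℝ) ^ j * (1 / ((n + H + 1 : ℕ) : ℝ) ^ 2) :=
          sum_le_sum fun n _ => hb _ (by omega)
      _ = C * c ^ (j + 1) / (H : ℝ) ^ j * ∑ n ∈ range k, 1 / ((n + H + 1 : ℕ) : ℝ) ^ 2 := by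
          rw [mul_sum]
      _ ≤ _ := by
          have := POI.sum_sq H k
          gcongr
  have hmain : 1 / c * (gI + 2 * ∑ h ∈ Icc 1 H,
        gh (h / c) * (-1) ^ h * Real.cos (Real.pi * h * t / D))
      = POI.tm c x0 0 + 2 * ∑ h ∈ Icc 1 H, POI.tm c x0 (h : ℤ) := by
    have h0 : POI.tm c x0 0 = 1 / c * gI := by
      unfold POI.tm
      simp [POI.gh_zero]
    rw [h0, sum_congr rfl (fun h _ => hcos h), ← mul_sum]
    ring
  rw [hL, hpois, hsplit, hmain]
  have e1 : POI.tm c x0 0 + 2 * ((∑ h ∈ Icc 1 H, POI.tm c x0 (h : ℤ))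
        + ∑' n : ℕ, POI.tm c x0 ((n + H + 1 : ℕ) : ℤ))
      - (POI.tm c x0 0 + 2 * ∑ h ∈ Icc 1 H, POI.tm c x0 (h : ℤ))
      = 2 * ∑' n : ℕ, POI.tm c x0 ((n + H + 1 : ℕ) : ℤ) := by ring
  rw [e1, abs_mul, abs_of_pos (by norm_num : (0 : ℝ) < 2)]
  have e2 : (2 : ℝ) / (H + 1) ≤ 2 / H := by gcongr; linarith
  calc 2 * |∑' n : ℕ, POI.tm c x0 ((n + H + 1 : ℕ) : ℤ)|
      ≤ 2 * (C * c ^ (j + 1) / (H : ℝ) ^ j * (2 / (H + 1))) := by gcongr
    _ ≤ 2 * (C * c ^ (j + 1) / (H : ℝ) ^ j * (2 / H)) := by gcongr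
    _ = 4 * C * c ^ (j + 1) / (H : ℝ) ^ (j + 1) := by
        rw [pow_succ (H : ℝ) j]
        field_simp
        ring

end

end Pool.Agent.Lib.MP391708.QPA
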