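import Pool.Agent.Lib.MP_391708_nt.QPA.Spec
import Pool.Agent.Lib.MP_cb27ba_nt.H71.PV
import Pool.Agent.Lib.MP_cb27ba_nt.H71.Jac
import Pool.Agent.Lib.MP_391708_nt.Div

/-!
# Polya-Vinogradov for the Jacobi symbol in the upper variable
-/

set_option autoImplicit false

namespace Pool.Agent.Lib.MP391708.QPA

open Finset
open scoped NumberTheorySymbols

namespace PVA

/-- an odd nonsquare modulus has a nonresidue in the sense of Jacobi -/
lemma exists_neg_one {m : ℕ} (hm : Odd m) (hsq : ¬ IsSquare m) : ∃ a : ℤ, J(a | m) = -1 := by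
  have hm0 : (m : ℤ) ≠ 0 := by
    have := hm.pos
    exact_mod_cast this.ne'
  have hsq' : ¬ IsSquare (m : ℤ) := by
    intro h
    apply hsq
    obtain ⟨r, hr⟩ := h
    refine ⟨r.natAbs, ?_⟩
    have h2 : ((r.natAbs * r.natAbs : ℕ) : ℤ) = m := by
      rw [hr]
      push_cast
      rw [abs_mul_abs_self]
    exact_mod_cast h2.symm
  obtain ⟨b, hb, hJ⟩ := MP_cb27ba_nt.H71.exists_jacobi_neg_one hm0 hsq'
  by_cases h1 : m % 4 = 1
  · refine ⟨b, ?_⟩
    rw [← jacobiSym.quadratic_reciprocity_one_mod_four h1 hb] 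
    exact hJ
  · have h3 : m % 4 = 3 := by
      have := Nat.odd_iff.mp hm
      omega
    by_cases h2 : b % 4 = 1
    · refine ⟨b, ?_⟩
      rw [jacobiSym.quadratic_reciprocity_one_mod_four h2 hm]
      exact hJ
    · have h4 : b % 4 = 3 := by
        have := Nat.odd_iff.mp hb
        omega
      refine ⟨-b, ?_⟩
      rw [jacobiSym.neg _ hm, jacobiSym.quadratic_reciprocity_three_mod_four h4 h3, hJ,
        ZMod.χ₄_nat_three_mod_four h3]
      norm_num

/-- the character `a ↦ (a | m)` -/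
noncomputable def chr {m : ℕ} (hm : 1 < m) : DirichletCharacter ℂ m where
  toFun x := ((J((x.val : ℤ) | m) : ℤ) : ℂ)
  map_one' := by
    have : Fact (1 < m) := ⟨hm⟩
    rw [ZMod.val_one]
    simp
  map_mul' x y := by
    have : NeZero m := ⟨by omega⟩
    rw [ZMod.val_mul]
    push_cast
    rw [← jacobiSym.mod_left, jacobiSym.mul_left]
    push_cast
    ring
  map_nonunit' x hx := by
    have : NeZero m := ⟨by omega⟩
    have h : J((x.val : ℤ) | m) = 0 := by
      rw [jacobiSym.eq_zero_iff_not_coprime]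
      intro hc
      apply hx
      rw [← ZMod.natCast_zmod_val x, ZMod.isUnit_iff_coprime]
      rw [Int.gcd_natCast_natCast] at hc
      exact hc
    rw [h]
    simp

lemma chr_intCast {m : ℕ} (hm : 1 < m) (a : ℤ) : chr hm (a : ZMod m) = ((J(a | m) : ℤ) : ℂ) := by
  have : NeZero m := ⟨by omega⟩
  have h : ((a : ZMod m).val : ℤ) = a % m := ZMod.val_intCast a
  change ((J((((a : ZMod m)).val : ℤ) | m) : ℤ) : ℂ) = _
  rw [h, ← jacobiSym.mod_left]

lemma chr_ne_one {m : ℕ} (hm1 : 1 < m) (hm : Odd m) (hsq : ¬ IsSquare m) : chr hm1 ≠ 1 := by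
  obtain ⟨a, ha⟩ := exists_neg_one hm hsq
  intro h
  have h1 := chr_intCast hm1 a
  rw [h, ha] at h1
  by_cases hu : IsUnit (a : ZMod m)
  · rw [MulChar.one_apply hu] at h1
    norm_num at h1
  · rw [MulChar.map_nonunit _ hu] at h1
    norm_num at h1

/-- the numerical part of Polya-Vinogradov -/
lemma bound (e : ℝ) (he : 0 < e) : ∃ C : ℝ, 0 < C ∧ ∀ q : ℕ, 0 < q →
    Real.sqrt q * ((Nat.divisors q).card * (1 + Real.log q)) ≤ C * (q : ℝ) ^ (1 / 2 + e) := by
  obtain ⟨C, hC, hdiv⟩ := MP_391708_nt.Div.card_divisors_le_rpow (e / 2) (by positivity)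
  refine ⟨C * (1 + 1 / (e / 2)), by positivity, fun q hq => ?_⟩
  have hq1 : (1 : ℝ) ≤ q := by exact_mod_cast hq
  have hq0 : (0 : ℝ) < q := by linarith
  have h1 : 1 + Real.log q ≤ (1 + 1 / (e / 2)) * (q : ℝ) ^ (e / 2) := by
    have h2 := Real.log_le_rpow_div hq0.le (show 0 < e / 2 by positivity)
    have h3 : (1 : ℝ) ≤ (q : ℝ) ^ (e / 2) := Real.one_le_rpow hq1 (by positivity)
    calc 1 + Real.log q ≤ (q : ℝ) ^ (e / 2) + (q : ℝ) ^ (e / 2) / (e / 2) := by linarith
      _ = _ := by ring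
  have h2 := hdiv q hq
  have h3 : (q : ℝ) ^ (1 / 2 + e) = Real.sqrt q * ((q : ℝ) ^ (e / 2) * (q : ℝ) ^ (e / 2)) := by
    rw [Real.sqrt_eq_rpow, ← Real.rpow_add hq0, ← Real.rpow_add hq0]
    congr 1
    ring
  rw [h3]
  have h4 : (0 : ℝ) ≤ 1 + Real.log q := by
    have := Real.log_nonneg hq1
    linarith
  have h5 : 0 ≤ Real.sqrt (q : ℝ) := Real.sqrt_nonneg _
  have h6 : 0 < (q : ℝ) ^ (e / 2) := Real.rpow_pos_of_pos hq0 _
  calc Real.sqrt q * ((Nat.divisors q).card * (1 + Real.log q))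
      ≤ Real.sqrt q * ((C * (q : ℝ) ^ (e / 2)) * ((1 + 1 / (e / 2)) * (q : ℝ) ^ (e / 2))) := by
        apply mul_le_mul_of_nonneg_left _ h5
        exact mul_le_mul h2 h1 h4 (by positivity)
    _ = _ := by ring

lemma sum_IA (A : ℕ) (f : ℤ → ℝ) :
    ∑ a ∈ IA A, f (-a) = ∑ i ∈ range (2 * A + 1), f (-(A : ℤ) + i) := by
  have h1 : ∑ a ∈ IA A, f (-a) = ∑ a ∈ IA A, f a := by
    refine Finset.sum_bij (fun a _ => -a) ?_ ?_ ?_ ?_
    · intro a ha
      simp only [IA, Finset.mem_Icc] at ha ⊢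
      omega
    · intro a _ b _ h
      simpa using h
    · intro b hb
      refine ⟨-b, ?_, by simp⟩
      simp only [IA, Finset.mem_Icc] at hb ⊢
      omega
    · intro a _
      rfl
  rw [h1]
  symm
  refine Finset.sum_bij (fun i _ => -(A : ℤ) + i) ?_ ?_ ?_ ?_
  · intro i hi
    simp only [IA, Finset.mem_Icc, Finset.mem_range] at hi ⊢
    omega
  · intro i _ j _ h
    have : (i : ℤ) = j := by linarith
    exact_mod_cast this
  · intro b hb
    simp only [IA, Finset.mem_Icc] at hb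
    refine ⟨(b + A).toNat, ?_, ?_⟩
    · simp only [Finset.mem_range]
      omega
    · have : (((b + A).toNat : ℕ) : ℤ) = b + A := Int.toNat_of_nonneg (by omega)
      rw [this]
      ring
  · intro i _
    rfl

end PVA

theorem specPVA : SpecPVA := by
  intro e he
  obtain ⟨C, hC, hb⟩ := PVA.bound e he
  refine ⟨C, hC, fun m hm hsq A => ?_⟩
  have hm1 : 1 < m := by
    have h0 := hm.pos
    rcases Nat.lt_or_ge 1 m with h | h
    · exact h
    · exfalso
      have : m = 1 := by omega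
      exact hsq (this ▸ ⟨1, rfl⟩)
  have : NeZero m := ⟨by omega⟩
  have h1 := MP_cb27ba_nt.H71.polya_vinogradov (PVA.chr_ne_one hm1 hm hsq) (-(A : ℤ)) (2 * A + 1)
  have h2 := hb m (by omega)
  rw [PVA.sum_IA A (fun a => (jacobiSym a m : ℝ))]
  have h3 : (∑ i ∈ range (2 * A + 1), PVA.chr hm1 ((-(A : ℤ) + i : ℤ) : ZMod m))
      = ((∑ i ∈ range (2 * A + 1), (jacobiSym (-(A : ℤ) + i) m : ℝ) : ℝ) : ℂ) := by
    push_cast
    refine Finset.sum_congr rfl (fun i _ => ?_)
    have h4 := PVA.chr_intCast hm1 (-(A : ℤ) + i)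
    rw [← h4]
    push_cast
    rfl
  rw [h3, Complex.norm_real, Real.norm_eq_abs] at h1
  exact h1.trans h2

end Pool.Agent.Lib.MP391708.QPA
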