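import Pool.Agent.Lib.MP_391708_nt.QPA.PVA

/-!
# Polya-Vinogradov for the Jacobi symbol in the lower variable
-/

set_option autoImplicit false

namespace Pool.Agent.Lib.MP391708.QPA

open Finset
open scoped NumberTheorySymbols

theorem specPVE : SpecPVE := by
  intro e he
  obtain ⟨C, hC, hb⟩ := PVA.bound e he
  refine ⟨C * (4 : ℝ) ^ (1 / 2 + e), by positivity, fun n hn hsq x y => ?_⟩
  have hn0 : 0 < n.natAbs := Int.natAbs_pos.mpr hn
  have : NeZero (4 * n.natAbs) := ⟨by omega⟩
  have h1 := MP_cb27ba_nt.H71.polya_vinogradov (MP_cb27ba_nt.H71.jacChar_ne_one hn hsq)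
    ((x : ℤ) + 1) (y - x)
  have h2 := hb (4 * n.natAbs) (by omega)
  have h5 : ∀ k : ℕ, (if Odd k then (jacobiSym n k : ℝ) else 0 : ℝ)
      = (MP_cb27ba_nt.H71.jacChar hn ((k : ℕ) : ZMod (4 * n.natAbs))).re := by
    intro k
    by_cases hk : Odd k
    · rw [if_pos hk, MP_cb27ba_nt.H71.jacChar_natCast_odd hn hk]
      simp
    · rw [if_neg hk, MP_cb27ba_nt.H71.jacChar_natCast_even hn hk]
      simp
  have h3 : ∑ k ∈ (Ioc x y).filter Odd, (jacobiSym n k : ℝ)
      = (∑ i ∈ range (y - x), MP_cb27ba_nt.H71.jacChar hn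
          ((((x : ℤ) + 1) + i : ℤ) : ZMod (4 * n.natAbs))).re := by
    rw [Finset.sum_filter, Complex.re_sum]
    rw [Finset.sum_congr rfl (fun k _ => h5 k)]
    symm
    refine Finset.sum_bij (fun i _ => x + 1 + i) ?_ ?_ ?_ ?_
    · intro i hi
      simp only [Finset.mem_Ioc, Finset.mem_range] at hi ⊢
      omega
    · intro i _ j _ h
      omega
    · intro b hb
      simp only [Finset.mem_Ioc] at hb
      refine ⟨b - x - 1, ?_, ?_⟩
      · simp only [Finset.mem_range]
        omega
      · omega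
    · intro i _
      push_cast
      rfl
  rw [h3]
  refine (Complex.abs_re_le_norm _).trans (h1.trans (h2.trans ?_))
  push_cast
  rw [Real.mul_rpow (by norm_num) (by positivity)]
  apply le_of_eq
  ring

end Pool.Agent.Lib.MP391708.QPA
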