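import Pool.Agent.Lib.MP_391708_nt.QPA.Spec

/-!
# PROD: `W_a(z) ≈ G_w(a) W(z)` for almost all `a`
-/

set_option autoImplicit false

namespace Pool.Agent.Lib.MP391708.QPA

namespace Prod

open Finset Filter Topology
open scoped Classical

noncomputable section

/-- the primes `w < p < z` -/
def P (w : ℕ) (z : ℝ) : Finset ℕ := (PB z).filter (fun p => w < p)

lemma mem_PB {z : ℝ} {p : ℕ} : p ∈ PB z ↔ (p : ℝ) < z ∧ p.Prime := by
  unfold PB
  rw [mem_filter, mem_range, Nat.lt_ceil]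

lemma mem_P {w : ℕ} {z : ℝ} {p : ℕ} : p ∈ P w z ↔ (p : ℝ) < z ∧ p.Prime ∧ w < p := by
  unfold P
  rw [mem_filter, mem_PB, and_assoc]

lemma rho_le (a : ℤ) (k : ℕ) : rho a k ≤ k := by
  unfold rho
  exact (card_filter_le _ _).trans (card_range k).le

/-- the factors -/
def fac (a : ℤ) (p : ℕ) : ℝ := (1 - (rho a p : ℝ) / p) / (1 - 1 / (p : ℝ))

lemma one_sub_pos {p : ℕ} (hp : p.Prime) : 0 < 1 - 1 / (p : ℝ) := by
  have : (2 : ℝ) ≤ p := by exact_mod_cast hp.two_le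
  have h : 1 / (p : ℝ) ≤ 1 / 2 := one_div_le_one_div_of_le (by norm_num) this
  linarith

lemma fac_nonneg (a : ℤ) {p : ℕ} (hp : p.Prime) : 0 ≤ fac a p := by
  unfold fac
  apply div_nonneg _ (one_sub_pos hp).le
  have h0 : (0 : ℝ) < p := by exact_mod_cast hp.pos
  rw [sub_nonneg, div_le_one h0]
  exact_mod_cast rho_le a p

lemma Gw_eq (w : ℕ) (a : ℤ) : Gw w a = ∏ p ∈ PB ((w : ℝ) + 1), fac a p := rfl

lemma Gw_nonneg (w : ℕ) (a : ℤ) : 0 ≤ Gw w a := by
  rw [Gw_eq]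
  exact prod_nonneg fun p hp => fac_nonneg a (mem_PB.1 hp).2

lemma Wp_nonneg (z : ℝ) : 0 ≤ Wp z := by
  unfold Wp
  exact prod_nonneg fun p hp => (one_sub_pos (mem_PB.1 hp).2).le

lemma Wa_eq {w : ℕ} {z : ℝ} (hz : (w : ℝ) + 1 ≤ z) (a : ℤ) :
    Wa z a = Gw w a * Wp z * ∏ p ∈ P w z, fac a p := by
  have h1 : (∏ p ∈ PB ((w : ℝ) + 1), fac a p) * ∏ p ∈ P w z, fac a p = ∏ p ∈ PB z, fac a p := by
    have h2 : PB ((w : ℝ) + 1) = (PB z).filter (fun p => ¬ w < p) := by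
      ext p
      rw [mem_filter, mem_PB, mem_PB, not_lt]
      constructor
      · rintro ⟨h1, h2⟩
        exact ⟨⟨h1.trans_le hz, h2⟩, by
          have : p < w + 1 := by exact_mod_cast h1
          omega⟩
      · rintro ⟨⟨h1, h2⟩, h3⟩
        exact ⟨by
          have : p < w + 1 := by omega
          exact_mod_cast this, h2⟩
    rw [h2, mul_comm]
    exact prod_filter_mul_prod_filter_not _ _ _
  rw [Gw_eq, mul_right_comm, h1, Wa, Wp, ← prod_mul_distrib]
  refine prod_congr rfl fun p hp => ?_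
  unfold fac
  rw [div_mul_cancel₀ _ (one_sub_pos (mem_PB.1 hp).2).ne']

lemma chi_sq_le (n : ℤ) (m : ℕ) : |(jacobiSym n m : ℝ)| ≤ 1 := by
  rcases jacobiSym.trichotomy n m with h | h | h <;> rw [h] <;> norm_num

lemma log_fac (hP : SpecRHOP) (a : ℤ) {p : ℕ} (hp : p.Prime) (hp3 : 3 < p) :
    0 < fac a p ∧ |Real.log (fac a p) + (jacobiSym (-a) p : ℝ) / p| ≤ 3 / ((p : ℝ) - 1) ^ 2 := by
  have hr : (rho a p : ℝ) = 1 + jacobiSym (-a) p := by
    have := hP a p hp (by omega)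
    exact_mod_cast this
  have hp0 : (4 : ℝ) ≤ p := by exact_mod_cast hp3
  set c : ℝ := (jacobiSym (-a) p : ℝ) with hc
  have hc1 : |c| ≤ 1 := chi_sq_le _ _
  have hf : fac a p = 1 - c / ((p : ℝ) - 1) := by
    unfold fac
    rw [hr]
    have h1 : (p : ℝ) - 1 ≠ 0 := by linarith
    have h0 : (p : ℝ) ≠ 0 := by linarith
    have h2 : 1 - 1 / (p : ℝ) ≠ 0 := (one_sub_pos hp).ne'
    field_simp
    ring
  have hx : |c / ((p : ℝ) - 1)| ≤ 1 / ((p : ℝ) - 1) := by
    rw [abs_div, abs_of_pos (show (0 : ℝ) < (p : ℝ) - 1 by linarith)]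
    exact div_le_div_of_nonneg_right hc1 (by linarith)
  have hx3 : |c / ((p : ℝ) - 1)| ≤ 1 / 3 := hx.trans (one_div_le_one_div_of_le (by norm_num) (by linarith))
  refine ⟨?_, ?_⟩
  · rw [hf]
    have := (abs_le.1 hx3).2
    linarith
  · have h1 := Real.abs_log_sub_add_sum_range_le (x := c / ((p : ℝ) - 1)) (by linarith) 1
    rw [hf]
    simp only [sum_range_one, zero_add, pow_one, Nat.cast_zero, div_one] at h1
    have h2 : |c / ((p : ℝ) - 1)| ^ (1 + 1) / (1 - |c / ((p : ℝ) - 1)|) ≤ 2 / ((p : ℝ) - 1) ^ 2 := by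
      have h3 : |c / ((p : ℝ) - 1)| ^ (1 + 1) ≤ (1 / ((p : ℝ) - 1)) ^ 2 := by
        exact pow_le_pow_left₀ (abs_nonneg _) hx 2
      have h4 : 1 / 2 ≤ 1 - |c / ((p : ℝ) - 1)| := by linarith
      calc _ ≤ (1 / ((p : ℝ) - 1)) ^ 2 / (1 / 2) := by
            apply div_le_div₀ (by positivity) h3 (by norm_num) h4
        _ = _ := by field_simp
    have h3 : |c / p - c / ((p : ℝ) - 1)| ≤ 1 / ((p : ℝ) - 1) ^ 2 := by
      have e : c / p - c / ((p : ℝ) - 1) = - (c / (p * ((p : ℝ) - 1))) := by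
        have h1 : (p : ℝ) - 1 ≠ 0 := by linarith
        have h0 : (p : ℝ) ≠ 0 := by linarith
        field_simp
        ring
      rw [e, abs_neg, abs_div, abs_of_pos (show (0 : ℝ) < p * ((p : ℝ) - 1) by
        apply mul_pos <;> linarith)]
      apply div_le_div₀ (by norm_num) hc1 (by nlinarith) (by nlinarith)
    calc |Real.log (1 - c / ((p : ℝ) - 1)) + c / p|
        = |(c / ((p : ℝ) - 1) + Real.log (1 - c / ((p : ℝ) - 1))) + (c / p - c / ((p : ℝ) - 1))| := by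
          congr 1; ring
      _ ≤ 2 / ((p : ℝ) - 1) ^ 2 + 1 / ((p : ℝ) - 1) ^ 2 :=
          (abs_add_le _ _).trans (add_le_add (h1.trans h2) h3)
      _ = _ := by ring

lemma sum_sq {w : ℕ} (hw : 2 ≤ w) (s : Finset ℕ) (hs : ∀ p ∈ s, w < p) :
    ∑ p ∈ s, 1 / ((p : ℝ) - 1) ^ 2 ≤ 1 / ((w : ℝ) - 1) := by
  have key : ∀ n : ℕ, ∑ p ∈ Ioc w (w + n), 1 / ((p : ℝ) - 1) ^ 2
      ≤ 1 / ((w : ℝ) - 1) - 1 / ((w : ℝ) + n - 1) := by
    intro n
    induction n with
    | zero => simp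
    | succ n ih =>
      rw [← add_assoc, Finset.sum_Ioc_succ_top (by omega : w ≤ w + n)]
      have hw' : (2 : ℝ) ≤ w := by exact_mod_cast hw
      have h1 : (0 : ℝ) < (w : ℝ) + n - 1 := by
        have : (0 : ℝ) ≤ n := Nat.cast_nonneg n
        linarith
      have e : 1 / ((((w + n + 1 : ℕ) : ℝ)) - 1) ^ 2 ≤
          1 / ((w : ℝ) + n - 1) - 1 / ((w : ℝ) + (n + 1 : ℕ) - 1) := by
        push_cast
        have h2 : (w : ℝ) + n + 1 - 1 = (w : ℝ) + n := by ring
        have h3 : (w : ℝ) + (n + 1) - 1 = (w : ℝ) + n := by ring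
        rw [h2, h3, div_sub_div _ _ h1.ne' (by linarith), div_le_div_iff₀ (by positivity)
          (mul_pos h1 (by linarith))]
        nlinarith
      linarith
  have h1 : ∑ p ∈ s, 1 / ((p : ℝ) - 1) ^ 2 ≤ ∑ p ∈ Ioc w (w + s.sup id), 1 / ((p : ℝ) - 1) ^ 2 := by
    apply sum_le_sum_of_subset_of_nonneg
    · intro p hp
      rw [mem_Ioc]
      refine ⟨hs p hp, ?_⟩
      have := Finset.le_sup (f := id) hp
      simp only [id] at this
      omega
    · intro p _ _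
      positivity
  refine h1.trans ((key _).trans ?_)
  have hw' : (2 : ℝ) ≤ w := by exact_mod_cast hw
  have : (0 : ℝ) ≤ 1 / ((w : ℝ) + (s.sup id : ℕ) - 1) := by
    apply one_div_nonneg.2
    have : (0 : ℝ) ≤ (s.sup id : ℕ) := Nat.cast_nonneg _
    linarith
  linarith

/-- the character sum -/
def S (w : ℕ) (z : ℝ) (a : ℤ) : ℝ := ∑ p ∈ P w z, (jacobiSym (-a) p : ℝ) / p

lemma log_prod (hP : SpecRHOP) {w : ℕ} (hw : 4 ≤ w) (z : ℝ) (a : ℤ) :
    0 < ∏ p ∈ P w z, fac a p ∧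
      |Real.log (∏ p ∈ P w z, fac a p) + S w z a| ≤ 3 / ((w : ℝ) - 1) := by
  have hpos : ∀ p ∈ P w z, 0 < fac a p := fun p hp =>
    (log_fac hP a (mem_P.1 hp).2.1 (by have := (mem_P.1 hp).2.2; omega)).1
  refine ⟨prod_pos hpos, ?_⟩
  rw [Real.log_prod (fun p hp => (hpos p hp).ne'), S, ← sum_add_distrib]
  refine (abs_sum_le_sum_abs _ _).trans ?_
  calc ∑ p ∈ P w z, |Real.log (fac a p) + (jacobiSym (-a) p : ℝ) / p|
      ≤ ∑ p ∈ P w z, 3 * (1 / ((p : ℝ) - 1) ^ 2) := by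
        refine sum_le_sum fun p hp => ?_
        have := (log_fac hP a (mem_P.1 hp).2.1 (by have := (mem_P.1 hp).2.2; omega)).2
        rw [mul_one_div]
        exact this
    _ = 3 * ∑ p ∈ P w z, 1 / ((p : ℝ) - 1) ^ 2 := by rw [mul_sum]
    _ ≤ 3 * (1 / ((w : ℝ) - 1)) :=
        mul_le_mul_of_nonneg_left (sum_sq (by omega) _ fun p hp => (mem_P.1 hp).2.2) (by norm_num)
    _ = _ := by rw [mul_one_div]

lemma card_IA (A : ℕ) : (IA A).card = 2 * A + 1 := by
  unfold IA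
  rw [Int.card_Icc]
  omega

lemma moment {C : ℝ} (hC0 : 0 < C) (hC : ∀ m : ℕ, Odd m → ¬ IsSquare m → ∀ A : ℕ,
    |∑ a ∈ IA A, (jacobiSym (-a) m : ℝ)| ≤ C * (m : ℝ) ^ (1 / 2 + (1 / 2 : ℝ)))
    {w : ℕ} (hw : 4 ≤ w) {z : ℝ} (hz : 0 ≤ z) (A : ℕ) :
    ∑ a ∈ IA A, (S w z a) ^ 2 ≤ (2 * A + 1) / ((w : ℝ) - 1) + C * (z + 1) ^ 2 := by
  have e1 : ∀ a : ℤ, (S w z a) ^ 2 = ∑ p ∈ P w z, ∑ q ∈ P w z,
      1 / ((p : ℝ) * q) * ((jacobiSym (-a) p : ℝ) * jacobiSym (-a) q) := by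
    intro a
    rw [sq, S, sum_mul_sum]
    refine sum_congr rfl fun p _ => sum_congr rfl fun q _ => ?_
    rw [div_mul_div_comm, one_div, inv_mul_eq_div]
  have e2 : ∑ a ∈ IA A, (S w z a) ^ 2 = ∑ p ∈ P w z, ∑ q ∈ P w z,
      1 / ((p : ℝ) * q) * ∑ a ∈ IA A, ((jacobiSym (-a) p : ℝ) * jacobiSym (-a) q) := by
    simp only [e1]
    rw [sum_comm]
    refine sum_congr rfl fun p _ => ?_
    rw [sum_comm]
    refine sum_congr rfl fun q _ => ?_
    rw [mul_sum]
  rw [e2]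
  have hbound : ∀ p ∈ P w z, ∀ q ∈ P w z,
      1 / ((p : ℝ) * q) * ∑ a ∈ IA A, ((jacobiSym (-a) p : ℝ) * jacobiSym (-a) q)
        ≤ (if p = q then (2 * A + 1) * (1 / ((p : ℝ) - 1) ^ 2) else 0) + C := by
    intro p hp q hq
    have hp' := mem_P.1 hp
    have hq' := mem_P.1 hq
    have hp0 : (4 : ℝ) ≤ p := by exact_mod_cast (show 4 ≤ p by omega)
    have hq0 : (4 : ℝ) ≤ q := by exact_mod_cast (show 4 ≤ q by omega)
    split_ifs with h
    · subst h
      have h1 : ∑ a ∈ IA A, ((jacobiSym (-a) p : ℝ) * jacobiSym (-a) p) ≤ 2 * A + 1 := by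
        calc _ ≤ ∑ a ∈ IA A, (1 : ℝ) := by
              refine sum_le_sum fun a _ => ?_
              have := chi_sq_le (-a) p
              have h2 := sq_abs (jacobiSym (-a) p : ℝ)
              nlinarith [abs_nonneg (jacobiSym (-a) p : ℝ)]
          _ = _ := by rw [sum_const, card_IA]; simp
      have h2 : 1 / ((p : ℝ) * p) ≤ 1 / ((p : ℝ) - 1) ^ 2 := by
        apply one_div_le_one_div_of_le
        · have : (0 : ℝ) < (p : ℝ) - 1 := by linarith
          positivity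
        · nlinarith
      have h3 : (0 : ℝ) ≤ 2 * A + 1 := by positivity
      calc _ ≤ 1 / ((p : ℝ) * p) * (2 * A + 1) :=
            mul_le_mul_of_nonneg_left h1 (by positivity)
        _ ≤ (2 * A + 1) * (1 / ((p : ℝ) - 1) ^ 2) := by
            rw [mul_comm]; exact mul_le_mul_of_nonneg_left h2 h3
        _ ≤ _ := by linarith
    · rw [zero_add]
      have hodd : Odd (p * q) := by
        rw [Nat.odd_mul]
        exact ⟨hp'.2.1.odd_of_ne_two (by omega), hq'.2.1.odd_of_ne_two (by omega)⟩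
      have hsq : ¬ IsSquare (p * q) := by
        rintro ⟨r, hr⟩
        have h1 : p ∣ r := by
          have : p ∣ r * r := ⟨q, hr.symm⟩
          rcases (Nat.Prime.dvd_mul hp'.2.1).1 this with h | h <;> exact h
        obtain ⟨t, ht⟩ := h1
        have h2 : p * q = p * (p * (t * t)) := by rw [hr, ht]; ring
        have h3 : q = p * (t * t) := Nat.eq_of_mul_eq_mul_left hp'.2.1.pos h2
        have h4 : p ∣ q := ⟨_, h3⟩
        exact h ((Nat.prime_dvd_prime_iff_eq hp'.2.1 hq'.2.1).1 h4)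
      have h1 := hC (p * q) hodd hsq A
      have h2 : ∑ a ∈ IA A, ((jacobiSym (-a) p : ℝ) * jacobiSym (-a) q) =
          ∑ a ∈ IA A, (jacobiSym (-a) (p * q) : ℝ) := by
        refine sum_congr rfl fun a _ => ?_
        have : NeZero p := ⟨hp'.2.1.ne_zero⟩
        have : NeZero q := ⟨hq'.2.1.ne_zero⟩
        rw [jacobiSym.mul_right]
        push_cast
        rfl
      rw [h2]
      have h3 : (((p * q : ℕ)) : ℝ) ^ (1 / 2 + (1 / 2 : ℝ)) = (p : ℝ) * q := by
        rw [show (1 / 2 + (1 / 2 : ℝ)) = 1 by norm_num, Real.rpow_one]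
        push_cast
        rfl
      rw [h3] at h1
      have h4 : (0 : ℝ) < p * q := by positivity
      calc _ ≤ 1 / ((p : ℝ) * q) * (C * (p * q)) :=
            mul_le_mul_of_nonneg_left ((le_abs_self _).trans h1) (by positivity)
        _ = C := by field_simp
  calc _ ≤ ∑ p ∈ P w z, ∑ q ∈ P w z,
        ((if p = q then (2 * A + 1) * (1 / ((p : ℝ) - 1) ^ 2) else 0) + C) :=
        sum_le_sum fun p hp => sum_le_sum fun q hq => hbound p hp q hq
    _ = (2 * A + 1) * ∑ p ∈ P w z, 1 / ((p : ℝ) - 1) ^ 2 + C * ((P w z).card : ℝ) ^ 2 := by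
        have : ∀ p ∈ P w z, ∑ q ∈ P w z,
            ((if p = q then (2 * A + 1) * (1 / ((p : ℝ) - 1) ^ 2) else 0) + C)
            = (2 * A + 1) * (1 / ((p : ℝ) - 1) ^ 2) + (P w z).card * C := by
          intro p hp
          rw [sum_add_distrib, sum_ite_eq, if_pos hp, sum_const, nsmul_eq_mul]
        rw [sum_congr rfl this, sum_add_distrib, ← mul_sum, sum_const, nsmul_eq_mul]
        ring
    _ ≤ _ := by
        have h1 := sum_sq (w := w) (by omega) (P w z) fun p hp => (mem_P.1 hp).2.2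
        have h2 : ((P w z).card : ℝ) ≤ z + 1 := by
          have h3 : (P w z).card ≤ ⌈z⌉₊ := by
            unfold P PB
            exact (card_filter_le _ _).trans ((card_filter_le _ _).trans (card_range _).le)
          have h4 := Nat.ceil_lt_add_one hz
          have h5 : ((P w z).card : ℝ) ≤ (⌈z⌉₊ : ℝ) := by exact_mod_cast h3
          linarith
        have h3 : ((P w z).card : ℝ) ^ 2 ≤ (z + 1) ^ 2 :=
          pow_le_pow_left₀ (Nat.cast_nonneg _) h2 2
        have h4 : (0 : ℝ) ≤ 2 * A + 1 := by positivity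
        have h5 := mul_le_mul_of_nonneg_left h1 h4
        have h6 := mul_le_mul_of_nonneg_left h3 hC0.le
        rw [mul_one_div] at h5
        linarith

end

end Prod

open Finset Filter Topology
open Pool.Agent.Lib.MP391708.QPA.Prod

theorem specPROD (hP : SpecRHOP) (hV : SpecPVA) : SpecPROD := by
  intro δ hδ
  obtain ⟨C, hC0, hC⟩ := hV (1 / 2) (by norm_num)
  set t : ℝ := min δ 1 / 4 with ht
  have ht0 : 0 < t := by
    rw [ht]
    have : 0 < min δ 1 := lt_min hδ one_pos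
    linarith
  have ht1 : t ≤ 1 / 4 := by
    rw [ht]
    have : min δ 1 ≤ 1 := min_le_right _ _
    linarith
  have htδ : 4 * t ≤ δ := by
    rw [ht]
    have : min δ 1 ≤ δ := min_le_left _ _
    linarith
  obtain ⟨w1, hw1⟩ := exists_nat_ge (3 / t + 6 / (δ * t ^ 2) + 1)
  refine ⟨max 4 w1, fun w hw e0 he0 he1 => ?_⟩
  have hw4 : 4 ≤ w := (le_max_left _ _).trans hw
  have hww : 3 / t + 6 / (δ * t ^ 2) ≤ (w : ℝ) - 1 := by
    have h1 : (w1 : ℝ) ≤ w := by exact_mod_cast (le_max_right _ _).trans hw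
    linarith
  have hwpos : (0 : ℝ) < (w : ℝ) - 1 := by
    have : (4 : ℝ) ≤ w := by exact_mod_cast hw4
    linarith
  have h3t : 3 / ((w : ℝ) - 1) ≤ t := by
    rw [div_le_iff₀ hwpos]
    have : 3 / t ≤ (w : ℝ) - 1 := by
      have : 0 ≤ 6 / (δ * t ^ 2) := by positivity
      linarith
    rw [div_le_iff₀ ht0] at this
    linarith
  have h6 : 3 / ((w : ℝ) - 1) ≤ δ * t ^ 2 / 2 := by
    rw [div_le_iff₀ hwpos]
    have h1 : 6 / (δ * t ^ 2) ≤ (w : ℝ) - 1 := by
      have : 0 ≤ 3 / t := by positivity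
      linarith
    rw [div_le_iff₀ (by positivity)] at h1
    linarith
  -- N large
  have lim1 : Tendsto (fun N : ℕ => (N : ℝ) ^ e0) atTop atTop :=
    (tendsto_rpow_atTop he0).comp tendsto_natCast_atTop_atTop
  have lim2 : Tendsto (fun N : ℕ => (N : ℝ) ^ (3 / 4 - 2 * (1 / 10) : ℝ)) atTop atTop :=
    (tendsto_rpow_atTop (by norm_num)).comp tendsto_natCast_atTop_atTop
  obtain ⟨N₀, hN₀⟩ := eventually_atTop.1 (((lim1.eventually_ge_atTop ((w : ℝ) + 1)).and
    (lim2.eventually_ge_atTop (8 * C / (δ * t ^ 2)))).and (eventually_ge_atTop 1))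
  refine ⟨N₀, fun N A hN hA => ?_⟩
  obtain ⟨⟨hz, hN2⟩, hN1⟩ := hN₀ N hN
  set z : ℝ := (N : ℝ) ^ e0 with hzdef
  have hNr : (1 : ℝ) ≤ N := by exact_mod_cast hN1
  have hz1 : 1 ≤ z := Real.one_le_rpow hNr he0.le
  have hz2 : z ≤ (N : ℝ) ^ (1 / 10 : ℝ) := Real.rpow_le_rpow_of_exponent_le hNr he1
  -- bad set
  have hsub : (IA A).filter (fun a => ¬ |Wa z a - Gw w a * Wp z| ≤ δ * (Gw w a * Wp z)) ⊆
      (IA A).filter (fun a => t < |S w z a|) := by
    intro a ha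
    rw [mem_filter] at ha ⊢
    refine ⟨ha.1, ?_⟩
    by_contra hcon
    rw [not_lt] at hcon
    apply ha.2
    obtain ⟨hpos, hlog⟩ := log_prod hP hw4 z a
    rw [Wa_eq hz a]
    set R := ∏ p ∈ P w z, fac a p with hR
    have h1 : |Real.log R| ≤ 2 * t := by
      have : Real.log R = (Real.log R + S w z a) - S w z a := by ring
      rw [this]
      refine (abs_sub _ _).trans ?_
      linarith
    have h2 : |R - 1| ≤ δ := by
      have h3 : |Real.exp (Real.log R) - 1| ≤ 2 * |Real.log R| :=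
        Real.abs_exp_sub_one_le (by linarith)
      rw [Real.exp_log hpos] at h3
      linarith
    have h3 : 0 ≤ Gw w a * Wp z := mul_nonneg (Gw_nonneg w a) (Wp_nonneg z)
    have h4 : Gw w a * Wp z * R - Gw w a * Wp z = Gw w a * Wp z * (R - 1) := by ring
    rw [h4, abs_mul, abs_of_nonneg h3, mul_comm δ]
    exact mul_le_mul_of_nonneg_left h2 h3
  have hcheb : (((IA A).filter (fun a => t < |S w z a|)).card : ℝ) * t ^ 2
      ≤ ∑ a ∈ IA A, (S w z a) ^ 2 := by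
    calc _ = ∑ a ∈ (IA A).filter (fun a => t < |S w z a|), t ^ 2 := by
          rw [sum_const, nsmul_eq_mul]
      _ ≤ ∑ a ∈ (IA A).filter (fun a => t < |S w z a|), (S w z a) ^ 2 := by
          refine sum_le_sum fun a ha => ?_
          have := (mem_filter.1 ha).2
          rw [← sq_abs (S w z a)]
          exact pow_le_pow_left₀ ht0.le this.le 2
      _ ≤ _ := sum_le_sum_of_subset_of_nonneg (filter_subset _ _) fun a _ _ => sq_nonneg _
  have hmom := moment hC0 hC hw4 (z := z) (by linarith) A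
  have hA1 : (1 : ℝ) ≤ A := le_trans (Real.one_le_rpow hNr (by norm_num)) hA
  have hfin : (2 * (A : ℝ) + 1) / ((w : ℝ) - 1) + C * (z + 1) ^ 2 ≤ δ * A * t ^ 2 := by
    have h1 : (2 * (A : ℝ) + 1) / ((w : ℝ) - 1) ≤ A * (δ * t ^ 2 / 2) := by
      calc _ ≤ 3 * (A : ℝ) / ((w : ℝ) - 1) := div_le_div_of_nonneg_right (by linarith) hwpos.le
        _ = A * (3 / ((w : ℝ) - 1)) := by ring
        _ ≤ _ := mul_le_mul_of_nonneg_left h6 (by linarith)
    have h2 : C * (z + 1) ^ 2 ≤ A * (δ * t ^ 2 / 2) := by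
      have h3 : (z + 1) ^ 2 ≤ 4 * z ^ 2 := by nlinarith
      have h4 : z ^ 2 ≤ (N : ℝ) ^ (2 * (1 / 10) : ℝ) := by
        calc z ^ 2 ≤ ((N : ℝ) ^ (1 / 10 : ℝ)) ^ 2 := pow_le_pow_left₀ (by linarith) hz2 2
          _ = _ := by
            rw [← Real.rpow_natCast, ← Real.rpow_mul (by linarith)]
            norm_num
      have h5 : 8 * C / (δ * t ^ 2) * (N : ℝ) ^ (2 * (1 / 10) : ℝ) ≤ A := by
        refine le_trans ?_ hA
        calc _ ≤ (N : ℝ) ^ (3 / 4 - 2 * (1 / 10) : ℝ) * (N : ℝ) ^ (2 * (1 / 10) : ℝ) :=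
              mul_le_mul_of_nonneg_right hN2 (by positivity)
          _ = _ := by
            rw [← Real.rpow_add (by linarith)]
            norm_num
      have h6' : 8 * C * (N : ℝ) ^ (2 * (1 / 10) : ℝ) ≤ A * (δ * t ^ 2) := by
        rw [div_mul_eq_mul_div, div_le_iff₀ (by positivity)] at h5
        exact h5
      calc C * (z + 1) ^ 2 ≤ C * (4 * (N : ℝ) ^ (2 * (1 / 10) : ℝ)) :=
            mul_le_mul_of_nonneg_left (h3.trans (mul_le_mul_of_nonneg_left h4 (by norm_num))) hC0.le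
        _ = (8 * C * (N : ℝ) ^ (2 * (1 / 10) : ℝ)) / 2 := by ring
        _ ≤ (A * (δ * t ^ 2)) / 2 := div_le_div_of_nonneg_right h6' (by norm_num)
        _ = _ := by ring
    calc _ ≤ A * (δ * t ^ 2 / 2) + A * (δ * t ^ 2 / 2) := add_le_add h1 h2
      _ = _ := by ring
  have hcard : (((IA A).filter (fun a => ¬ |Wa z a - Gw w a * Wp z|
      ≤ δ * (Gw w a * Wp z))).card : ℝ) ≤ (((IA A).filter (fun a => t < |S w z a|)).card : ℝ) := by
    exact_mod_cast card_le_card hsub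
  have h7 : (((IA A).filter (fun a => t < |S w z a|)).card : ℝ) * t ^ 2 ≤ δ * A * t ^ 2 :=
    hcheb.trans (hmom.trans hfin)
  exact hcard.trans (le_of_mul_le_mul_right h7 (by positivity))

end Pool.Agent.Lib.MP391708.QPA
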