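import Pool.Agent.Lib.MP_391708_nt.QPA.Prod
import Pool.Agent.Lib.MP_391708_nt.QPA.Spec2

/-!
# PRODK: PROD with `3/5` in place of `3/4`
-/

set_option autoImplicit false

namespace Pool.Agent.Lib.MP391708.QPA

open Finset Filter Topology
open Pool.Agent.Lib.MP391708.QPA.Prod

theorem specPRODK (hP : SpecRHOP) (hV : SpecPVA) : SpecPRODK := by
  intro δ hδ
  obtain ⟨C, hC0, hC⟩ := hV (1 / 2) (by norm_num)
  set t : ℝ := min δ 1 / 4 with ht
  have ht0 : 0 < t := by
    rw [ht]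
    have : 0 < min δ 1 := lt_min hδ one_pos
    linarith
  have ht1 : t ≤ 1 / 4 := by
    rw [ht]
    have : min δ 1 ≤ 1 := min_le_right _ _
    linarith
  have htδ : 4 * t ≤ δ := by
    rw [ht]
    have : min δ 1 ≤ δ := min_le_left _ _
    linarith
  obtain ⟨w1, hw1⟩ := exists_nat_ge (3 / t + 6 / (δ * t ^ 2) + 1)
  refine ⟨max 4 w1, fun w hw e0 he0 he1 => ?_⟩
  have hw4 : 4 ≤ w := (le_max_left _ _).trans hw
  have hww : 3 / t + 6 / (δ * t ^ 2) ≤ (w : ℝ) - 1 := by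
    have h1 : (w1 : ℝ) ≤ w := by exact_mod_cast (le_max_right _ _).trans hw
    linarith
  have hwpos : (0 : ℝ) < (w : ℝ) - 1 := by
    have : (4 : ℝ) ≤ w := by exact_mod_cast hw4
    linarith
  have h3t : 3 / ((w : ℝ) - 1) ≤ t := by
    rw [div_le_iff₀ hwpos]
    have : 3 / t ≤ (w : ℝ) - 1 := by
      have : 0 ≤ 6 / (δ * t ^ 2) := by positivity
      linarith
    rw [div_le_iff₀ ht0] at this
    linarith
  have h6 : 3 / ((w : ℝ) - 1) ≤ δ * t ^ 2 / 2 := by
    rw [div_le_iff₀ hwpos]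
    have h1 : 6 / (δ * t ^ 2) ≤ (w : ℝ) - 1 := by
      have : 0 ≤ 3 / t := by positivity
      linarith
    rw [div_le_iff₀ (by positivity)] at h1
    linarith
  -- N large
  have lim1 : Tendsto (fun N : ℕ => (N : ℝ) ^ e0) atTop atTop :=
    (tendsto_rpow_atTop he0).comp tendsto_natCast_atTop_atTop
  have lim2 : Tendsto (fun N : ℕ => (N : ℝ) ^ (3 / 5 - 2 * (1 / 10) : ℝ)) atTop atTop :=
    (tendsto_rpow_atTop (by norm_num)).comp tendsto_natCast_atTop_atTop
  obtain ⟨N₀, hN₀⟩ := eventually_atTop.1 (((lim1.eventually_ge_atTop ((w : ℝ) + 1)).and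
    (lim2.eventually_ge_atTop (8 * C / (δ * t ^ 2)))).and (eventually_ge_atTop 1))
  refine ⟨N₀, fun N A hN hA => ?_⟩
  obtain ⟨⟨hz, hN2⟩, hN1⟩ := hN₀ N hN
  set z : ℝ := (N : ℝ) ^ e0 with hzdef
  have hNr : (1 : ℝ) ≤ N := by exact_mod_cast hN1
  have hz1 : 1 ≤ z := Real.one_le_rpow hNr he0.le
  have hz2 : z ≤ (N : ℝ) ^ (1 / 10 : ℝ) := Real.rpow_le_rpow_of_exponent_le hNr he1
  -- bad set
  have hsub : (IA A).filter (fun a => ¬ |Wa z a - Gw w a * Wp z| ≤ δ * (Gw w a * Wp z)) ⊆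
      (IA A).filter (fun a => t < |S w z a|) := by
    intro a ha
    rw [mem_filter] at ha ⊢
    refine ⟨ha.1, ?_⟩
    by_contra hcon
    rw [not_lt] at hcon
    apply ha.2
    obtain ⟨hpos, hlog⟩ := log_prod hP hw4 z a
    rw [Wa_eq hz a]
    set R := ∏ p ∈ P w z, fac a p with hR
    have h1 : |Real.log R| ≤ 2 * t := by
      have : Real.log R = (Real.log R + S w z a) - S w z a := by ring
      rw [this]
      refine (abs_sub _ _).trans ?_
      linarith
    have h2 : |R - 1| ≤ δ := by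
      have h3 : |Real.exp (Real.log R) - 1| ≤ 2 * |Real.log R| :=
        Real.abs_exp_sub_one_le (by linarith)
      rw [Real.exp_log hpos] at h3
      linarith
    have h3 : 0 ≤ Gw w a * Wp z := mul_nonneg (Gw_nonneg w a) (Wp_nonneg z)
    have h4 : Gw w a * Wp z * R - Gw w a * Wp z = Gw w a * Wp z * (R - 1) := by ring
    rw [h4, abs_mul, abs_of_nonneg h3, mul_comm δ]
    exact mul_le_mul_of_nonneg_left h2 h3
  have hcheb : (((IA A).filter (fun a => t < |S w z a|)).card : ℝ) * t ^ 2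
      ≤ ∑ a ∈ IA A, (S w z a) ^ 2 := by
    calc _ = ∑ a ∈ (IA A).filter (fun a => t < |S w z a|), t ^ 2 := by
          rw [sum_const, nsmul_eq_mul]
      _ ≤ ∑ a ∈ (IA A).filter (fun a => t < |S w z a|), (S w z a) ^ 2 := by
          refine sum_le_sum fun a ha => ?_
          have := (mem_filter.1 ha).2
          rw [← sq_abs (S w z a)]
          exact pow_le_pow_left₀ ht0.le this.le 2
      _ ≤ _ := sum_le_sum_of_subset_of_nonneg (filter_subset _ _) fun a _ _ => sq_nonneg _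
  have hmom := moment hC0 hC hw4 (z := z) (by linarith) A
  have hA1 : (1 : ℝ) ≤ A := le_trans (Real.one_le_rpow hNr (by norm_num)) hA
  have hfin : (2 * (A : ℝ) + 1) / ((w : ℝ) - 1) + C * (z + 1) ^ 2 ≤ δ * A * t ^ 2 := by
    have h1 : (2 * (A : ℝ) + 1) / ((w : ℝ) - 1) ≤ A * (δ * t ^ 2 / 2) := by
      calc _ ≤ 3 * (A : ℝ) / ((w : ℝ) - 1) := div_le_div_of_nonneg_right (by linarith) hwpos.le
        _ = A * (3 / ((w : ℝ) - 1)) := by ring
        _ ≤ _ := mul_le_mul_of_nonneg_left h6 (by linarith)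
    have h2 : C * (z + 1) ^ 2 ≤ A * (δ * t ^ 2 / 2) := by
      have h3 : (z + 1) ^ 2 ≤ 4 * z ^ 2 := by nlinarith
      have h4 : z ^ 2 ≤ (N : ℝ) ^ (2 * (1 / 10) : ℝ) := by
        calc z ^ 2 ≤ ((N : ℝ) ^ (1 / 10 : ℝ)) ^ 2 := pow_le_pow_left₀ (by linarith) hz2 2
          _ = _ := by
            rw [← Real.rpow_natCast, ← Real.rpow_mul (by linarith)]
            norm_num
      have h5 : 8 * C / (δ * t ^ 2) * (N : ℝ) ^ (2 * (1 / 10) : ℝ) ≤ A := by
        refine le_trans ?_ hA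
        calc _ ≤ (N : ℝ) ^ (3 / 5 - 2 * (1 / 10) : ℝ) * (N : ℝ) ^ (2 * (1 / 10) : ℝ) :=
              mul_le_mul_of_nonneg_right hN2 (by positivity)
          _ = _ := by
            rw [← Real.rpow_add (by linarith)]
            norm_num
      have h6' : 8 * C * (N : ℝ) ^ (2 * (1 / 10) : ℝ) ≤ A * (δ * t ^ 2) := by
        rw [div_mul_eq_mul_div, div_le_iff₀ (by positivity)] at h5
        exact h5
      calc C * (z + 1) ^ 2 ≤ C * (4 * (N : ℝ) ^ (2 * (1 / 10) : ℝ)) :=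
            mul_le_mul_of_nonneg_left (h3.trans (mul_le_mul_of_nonneg_left h4 (by norm_num))) hC0.le
        _ = (8 * C * (N : ℝ) ^ (2 * (1 / 10) : ℝ)) / 2 := by ring
        _ ≤ (A * (δ * t ^ 2)) / 2 := div_le_div_of_nonneg_right h6' (by norm_num)
        _ = _ := by ring
    calc _ ≤ A * (δ * t ^ 2 / 2) + A * (δ * t ^ 2 / 2) := add_le_add h1 h2
      _ = _ := by ring
  have hcard : (((IA A).filter (fun a => ¬ |Wa z a - Gw w a * Wp z|
      ≤ δ * (Gw w a * Wp z))).card : ℝ) ≤ (((IA A).filter (fun a => t < |S w z a|)).card : ℝ) := by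
    exact_mod_cast card_le_card hsub
  have h7 : (((IA A).filter (fun a => t < |S w z a|)).card : ℝ) * t ^ 2 ≤ δ * A * t ^ 2 :=
    hcheb.trans (hmom.trans hfin)
  exact hcard.trans (le_of_mul_le_mul_right h7 (by positivity))

end Pool.Agent.Lib.MP391708.QPA
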