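import Mathlib
import Pool.Agent.Lib.MP_391708_nt.QPA.Spec
import Pool.Agent.Lib.MP_cb27ba_nt.H71.PV
import Pool.Agent.Lib.MP_391708_nt.Div

/-!
# Module QG of the project QPA: pairs `(n, a)` with `q ∣ n ^ 2 + a`
-/

set_option autoImplicit false

namespace Pool.Agent.Lib.MP391708.QPA.QG

open Finset ZMod
open Pool.Agent.Lib.MP_cb27ba_nt.H71

noncomputable section

variable {q : ℕ} [NeZero q]

/-- the quadratic Gauss sum -/
def GS (k l : ZMod q) : ℂ := ∑ x : ZMod q, stdAddChar (k * x ^ 2 + l * x)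

lemma gcd_two_mul_le (k : ZMod q) : Nat.gcd (2 * k).val q ≤ 2 * Nat.gcd k.val q := by
  have hq : 0 < q := Nat.pos_of_ne_zero (NeZero.ne q)
  have h1 : (2 * k).val = (2 * k.val) % q := by
    have : (2 * k : ZMod q) = ((2 * k.val : ℕ) : ZMod q) := by
      push_cast
      rw [ZMod.natCast_val, ZMod.cast_id', id]
    rw [this, ZMod.val_natCast]
  have h2 : Nat.gcd ((2 * k.val) % q) q = Nat.gcd (2 * k.val) q := by
    rw [← Nat.gcd_rec, Nat.gcd_comm]
  rw [h1, h2]
  have hg : 0 < Nat.gcd k.val q := Nat.gcd_pos_of_pos_right _ hq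
  refine Nat.le_of_dvd (by positivity) ?_
  rw [← Nat.gcd_mul_left]
  exact Nat.dvd_gcd (Nat.gcd_dvd_left _ _) ((Nat.gcd_dvd_right _ _).trans (dvd_mul_left _ _))

lemma norm_add_char (x : ZMod q) : ‖(stdAddChar x : ℂ)‖ = 1 := AddChar.norm_apply _ x

lemma norm_GS_sq_le (k l : ZMod q) : ‖GS k l‖ ^ 2 ≤ q * (2 * Nat.gcd k.val q : ℝ) := by
  classical
  have key : ((‖GS k l‖ ^ 2 : ℝ) : ℂ)
      = ∑ j : ZMod q, stdAddChar (k * j ^ 2 + l * j) * (if j * (2 * k) = 0 then (q : ℂ) else 0) := by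
    push_cast
    rw [← Complex.mul_conj']
    unfold GS
    rw [map_sum, Finset.sum_mul_sum, Finset.sum_comm]
    have h1 : ∀ y : ZMod q, ∑ x : ZMod q, (stdAddChar (k * x ^ 2 + l * x) : ℂ) *
        (starRingEnd ℂ) (stdAddChar (k * y ^ 2 + l * y))
        = ∑ j : ZMod q, stdAddChar (k * j ^ 2 + l * j) * stdAddChar (y * (j * (2 * k))) := by
      intro y
      refine Fintype.sum_equiv (Equiv.subRight y) _ _ (fun x => ?_)
      rw [conj_stdAddChar, ← AddChar.map_add_eq_mul, ← AddChar.map_add_eq_mul]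
      congr 1
      simp only [Equiv.subRight_apply]
      ring
    rw [Finset.sum_congr rfl (fun y _ => h1 y), Finset.sum_comm]
    refine Finset.sum_congr rfl (fun j _ => ?_)
    rw [← Finset.mul_sum]
    congr 1
    have h := AddChar.sum_mulShift (j * (2 * k)) (isPrimitive_stdAddChar q)
    rw [ZMod.card] at h
    rw [h]
    push_cast
    rfl
  have h2 : ‖GS k l‖ ^ 2 = ‖((‖GS k l‖ ^ 2 : ℝ) : ℂ)‖ := by
    rw [Complex.norm_real, Real.norm_eq_abs, abs_of_nonneg (by positivity)]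
  rw [h2, key]
  refine (norm_sum_le _ _).trans ?_
  have h3 : ∀ j : ZMod q, ‖(stdAddChar (k * j ^ 2 + l * j) : ℂ) *
      (if j * (2 * k) = 0 then (q : ℂ) else 0)‖ = if j * (2 * k) = 0 then (q : ℝ) else 0 := by
    intro j
    rw [norm_mul, norm_add_char, one_mul]
    split_ifs <;> simp
  rw [Finset.sum_congr rfl (fun j _ => h3 j), ← Finset.sum_filter, Finset.sum_const, nsmul_eq_mul,
    mul_comm]
  refine mul_le_mul_of_nonneg_left ?_ (by positivity)
  have := (card_ann_le (2 * k)).trans (gcd_two_mul_le k)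
  exact_mod_cast this

lemma norm_GS_le (k l : ZMod q) : ‖GS k l‖ ≤ √(2 * q) * √(Nat.gcd k.val q : ℝ) := by
  rw [← Real.sqrt_mul (by positivity)]
  refine Real.le_sqrt_of_sq_le ((norm_GS_sq_le k l).trans (le_of_eq ?_))
  ring

/-- the symmetric sum over the nonzero residues -/
lemma sum_sym (c : ℕ → ℝ) :
    ∑ k : ZMod q, (if k.val = 0 then 0 else
      c (Nat.gcd k.val q) * ((q : ℝ) / 2 * (1 / (k.val : ℝ) + 1 / ((q : ℝ) - k.val))))
      = q * ∑ j ∈ Icc 1 (q - 1), c (Nat.gcd j q) / j := by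
  have hq : 0 < q := Nat.pos_of_ne_zero (NeZero.ne q)
  rw [sum_val (fun j => if j = 0 then 0 else c (Nat.gcd j q) *
        ((q : ℝ) / 2 * (1 / (j : ℝ) + 1 / ((q : ℝ) - j))))]
  have e3 : ∑ j ∈ Finset.range q, (if j = 0 then 0 else c (Nat.gcd j q) *
        ((q : ℝ) / 2 * (1 / (j : ℝ) + 1 / ((q : ℝ) - j))))
      = ∑ j ∈ Finset.Icc 1 (q - 1), c (Nat.gcd j q) *
        ((q : ℝ) / 2 * (1 / (j : ℝ) + 1 / ((q : ℝ) - j))) := by
    rw [← Finset.sum_filter_add_sum_filter_not (Finset.range q) (fun j => j = 0)]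
    rw [Finset.sum_eq_zero (s := (Finset.range q).filter (fun j => j = 0)), zero_add]
    · refine Finset.sum_congr ?_ (fun j hj => ?_)
      · ext j
        simp only [Finset.mem_filter, Finset.mem_range, Finset.mem_Icc]
        omega
      · simp only [Finset.mem_Icc] at hj
        rw [if_neg (by omega)]
    · intro j hj
      rw [if_pos (Finset.mem_filter.mp hj).2]
  rw [e3]
  have hrefl : ∑ j ∈ Finset.Icc 1 (q - 1), c (Nat.gcd j q) / ((q : ℝ) - j)
      = ∑ j ∈ Finset.Icc 1 (q - 1), c (Nat.gcd j q) / j := by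
    refine Finset.sum_nbij (fun j => q - j) ?_ ?_ ?_ ?_
    · intro j hj
      simp only [Finset.mem_Icc] at hj ⊢
      omega
    · intro a ha b hb hab
      simp only [Finset.coe_Icc, Set.mem_Icc] at ha hb
      dsimp only at hab
      omega
    · intro j hj
      simp only [Finset.coe_Icc, Set.mem_Icc] at hj
      refine ⟨q - j, ?_, ?_⟩
      · simp only [Finset.coe_Icc, Set.mem_Icc]
        omega
      · dsimp only
        omega
    · intro j hj
      simp only [Finset.mem_Icc] at hj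
      have hle : j ≤ q := by omega
      rw [Nat.gcd_self_sub_left hle, Nat.cast_sub hle]
  have : ∀ j ∈ Finset.Icc 1 (q - 1), c (Nat.gcd j q) *
      ((q : ℝ) / 2 * (1 / (j : ℝ) + 1 / ((q : ℝ) - j)))
      = (q / 2) * (c (Nat.gcd j q) / j) + (q / 2) * (c (Nat.gcd j q) / ((q : ℝ) - j)) := by
    intro j _
    ring
  rw [Finset.sum_congr rfl this, Finset.sum_add_distrib, ← Finset.mul_sum, ← Finset.mul_sum,
    hrefl]
  ring

lemma inversion' (f : ZMod q → ℂ) (y : ZMod q) :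
    ∑ l : ZMod q, (∑ x, f x * stdAddChar (l * x)) * stdAddChar (-(l * y)) = q * f y := by
  classical
  simp_rw [Finset.sum_mul]
  rw [Finset.sum_comm]
  have : ∀ x : ZMod q, ∑ k : ZMod q, f x * stdAddChar (k * x) * stdAddChar (-(k * y))
      = f x * (if x - y = 0 then (q : ℂ) else 0) := by
    intro x
    have h := AddChar.sum_mulShift (x - y) (isPrimitive_stdAddChar q)
    rw [ZMod.card] at h
    push_cast at h
    rw [← h, Finset.mul_sum]
    refine Finset.sum_congr rfl (fun k _ => ?_)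
    rw [mul_assoc, ← AddChar.map_add_eq_mul]
    congr 2
    ring
  simp_rw [this]
  rw [Finset.sum_eq_single y]
  · simp [mul_comm]
  · intro b _ hb
    rw [if_neg (sub_ne_zero.mpr hb), mul_zero]
  · simp

lemma completion (f : ZMod q → ℂ) (B : ℝ)
    (hB : ∀ l : ZMod q, ‖∑ x, f x * stdAddChar (l * x)‖ ≤ B) (M : ℤ) (K : ℕ) :
    ‖∑ i ∈ range K, f ((M + i : ℤ) : ZMod q)‖ ≤ B * (K / q + (1 + Real.log q)) := by
  have hq : 0 < q := Nat.pos_of_ne_zero (NeZero.ne q)
  have hqR : (0 : ℝ) < q := by exact_mod_cast hq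
  have hB0 : 0 ≤ B := (norm_nonneg _).trans (hB 0)
  have e1 : (q : ℂ) * ∑ i ∈ range K, f ((M + i : ℤ) : ZMod q)
      = ∑ k : ZMod q, (∑ x, f x * stdAddChar (k * x)) *
        ∑ i ∈ range K, stdAddChar (-(k * ((M + i : ℤ) : ZMod q))) := by
    rw [Finset.mul_sum]
    simp_rw [← inversion' f]
    rw [Finset.sum_comm]
    simp_rw [Finset.mul_sum]
  have e2 : (q : ℝ) * ‖∑ i ∈ range K, f ((M + i : ℤ) : ZMod q)‖
      ≤ ∑ k : ZMod q, ((if k = 0 then B * K else 0) + B * (if k.val = 0 then 0 else (1 : ℝ) *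
        ((q : ℝ) / 2 * (1 / (k.val : ℝ) + 1 / ((q : ℝ) - k.val))))) := by
    have : (q : ℝ) * ‖∑ i ∈ range K, f ((M + i : ℤ) : ZMod q)‖
        = ‖(q : ℂ) * ∑ i ∈ range K, f ((M + i : ℤ) : ZMod q)‖ := by
      rw [norm_mul, Complex.norm_natCast]
    rw [this, e1]
    refine (norm_sum_le _ _).trans (Finset.sum_le_sum (fun k _ => ?_))
    rw [norm_mul]
    by_cases hk : k = 0
    · have hk' : k.val = 0 := by rw [hk]; simp
      rw [if_pos hk, if_pos hk', mul_zero, add_zero]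
      refine mul_le_mul (hB k) ?_ (norm_nonneg _) hB0
      refine (norm_sum_le _ _).trans ?_
      rw [Finset.sum_congr rfl (fun i _ => norm_add_char _)]
      simp
    · have hk' : k.val ≠ 0 := by simpa using hk
      rw [if_neg hk, if_neg hk', zero_add, one_mul]
      exact mul_le_mul (hB k) (norm_geom_le hk M K) (norm_nonneg _) hB0
  rw [Finset.sum_add_distrib, ← Finset.mul_sum, sum_sym (fun _ => 1)] at e2
  have e3 : ∑ k : ZMod q, (if k = 0 then B * K else 0) = B * K := by simp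
  rw [e3] at e2
  have e4 : ∑ j ∈ Icc 1 (q - 1), (1 : ℝ) / j ≤ 1 + Real.log q := by
    refine le_trans ?_ (sum_inv_le (n := q))
    refine Finset.sum_le_sum_of_subset_of_nonneg ?_ (fun i _ _ => by positivity)
    exact Finset.Icc_subset_Icc_right (Nat.sub_le q 1)
  have e5 : (q : ℝ) * ‖∑ i ∈ range K, f ((M + i : ℤ) : ZMod q)‖
      ≤ q * (B * (K / q + (1 + Real.log q))) := by
    refine e2.trans ?_
    have h1 : (q : ℝ) * (B * (K / q + (1 + Real.log q))) = B * K + B * (q * (1 + Real.log q)) := by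
      field_simp
    rw [h1]
    have h2 : B * (q * ∑ j ∈ Icc 1 (q - 1), (1 : ℝ) / j) ≤ B * (q * (1 + Real.log q)) :=
      mul_le_mul_of_nonneg_left (mul_le_mul_of_nonneg_left e4 hqR.le) hB0
    linarith
  exact le_of_mul_le_mul_left e5 hqR

/-- incomplete quadratic Gauss sums -/
lemma quad_sum_le (k : ZMod q) (M : ℤ) (K : ℕ) :
    ‖∑ i ∈ range K, (stdAddChar (k * ((M + i : ℤ) : ZMod q) ^ 2) : ℂ)‖
      ≤ √(2 * q) * √(Nat.gcd k.val q : ℝ) * (K / q + (1 + Real.log q)) := by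
  refine completion (fun y => stdAddChar (k * y ^ 2)) _ (fun l => ?_) M K
  have : ∑ x : ZMod q, (stdAddChar (k * x ^ 2) : ℂ) * stdAddChar (l * x) = GS k l := by
    unfold GS
    refine Finset.sum_congr rfl (fun x _ => ?_)
    rw [← AddChar.map_add_eq_mul]
  rw [this]
  exact norm_GS_le k l

lemma norm_geom_le' {k : ZMod q} (hk : k ≠ 0) (M : ℤ) (K : ℕ) :
    ‖∑ i ∈ range K, (stdAddChar (k * ((M + i : ℤ) : ZMod q)) : ℂ)‖
      ≤ (q : ℝ) / 2 * (1 / (k.val : ℝ) + 1 / ((q : ℝ) - k.val)) := by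
  have h : ‖∑ i ∈ range K, (stdAddChar (k * ((M + i : ℤ) : ZMod q)) : ℂ)‖
      = ‖∑ i ∈ range K, (stdAddChar (-(k * ((M + i : ℤ) : ZMod q))) : ℂ)‖ := by
    rw [← Complex.norm_conj, map_sum]
    simp_rw [conj_stdAddChar]
  rw [h]
  exact norm_geom_le hk M K

/-- the count of pairs -/
lemma card_eq (x H A : ℕ) :
    (q : ℂ) * ((((Ioc x (x + H)) ×ˢ (IA A)).filter (fun t => q ∣ val t.2 t.1)).card : ℂ)
      = ∑ k : ZMod q, (∑ i ∈ range H, (stdAddChar (k * ((((x : ℤ) + 1) + i : ℤ) : ZMod q) ^ 2) : ℂ)) *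
        ∑ i ∈ range (2 * A + 1), (stdAddChar (k * ((-(A : ℤ) + i : ℤ) : ZMod q)) : ℂ) := by
  classical
  rw [Finset.card_filter]
  push_cast
  rw [Finset.sum_product]
  have hI : ∀ f : ℕ → ℂ, ∑ n ∈ Ioc x (x + H), f n = ∑ i ∈ range H, f (x + 1 + i) := by
    intro f
    have : Ioc x (x + H) = Ico (x + 1) (x + 1 + H) := by
      ext n; simp only [Finset.mem_Ioc, Finset.mem_Ico]; omega
    rw [this, Finset.sum_Ico_eq_sum_range]
    simp
  have hA : ∀ f : ℤ → ℂ, ∑ a ∈ IA A, f a = ∑ i ∈ range (2 * A + 1), f (-(A : ℤ) + i) := by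
    intro f
    unfold IA
    symm
    refine Finset.sum_nbij (fun i : ℕ => -(A : ℤ) + i) ?_ ?_ ?_ ?_
    · intro i hi
      simp only [Finset.mem_range, Finset.mem_Icc] at hi ⊢
      omega
    · intro a ha b hb hab
      simp only at hab
      omega
    · intro j hj
      simp only [Finset.coe_Icc, Set.mem_Icc] at hj
      refine ⟨(j + A).toNat, ?_, ?_⟩
      · simp only [Finset.coe_range, Set.mem_Iio]
        omega
      · simp only
        omega
    · intro i _
      rfl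
  rw [hI]
  simp_rw [hA]
  rw [Finset.mul_sum]
  have h1 : ∀ i j : ℕ, (q : ℂ) * (if q ∣ val (-(A : ℤ) + j) (x + 1 + i) then (1 : ℂ) else 0)
      = ∑ k : ZMod q, (stdAddChar (k * ((((x : ℤ) + 1) + i : ℤ) : ZMod q) ^ 2) : ℂ) *
        (stdAddChar (k * ((-(A : ℤ) + j : ℤ) : ZMod q)) : ℂ) := by
    intro i j
    have h := AddChar.sum_mulShift
      ((((((x : ℤ) + 1) + i : ℤ) : ZMod q) ^ 2) + ((-(A : ℤ) + j : ℤ) : ZMod q))
      (isPrimitive_stdAddChar q)
    rw [ZMod.card] at h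
    push_cast at h
    have h2 : ∀ k : ZMod q, (stdAddChar (k * ((((x : ℤ) + 1) + i : ℤ) : ZMod q) ^ 2) : ℂ) *
        (stdAddChar (k * ((-(A : ℤ) + j : ℤ) : ZMod q)) : ℂ)
        = stdAddChar (k * ((((x : ZMod q) + 1) + (i : ZMod q)) ^ 2 + (-(A : ZMod q) + (j : ZMod q)))) := by
      intro k
      rw [← AddChar.map_add_eq_mul]
      congr 1
      push_cast
      ring
    rw [Finset.sum_congr rfl (fun k _ => h2 k), h]
    have h3 : (q ∣ val (-(A : ℤ) + j) (x + 1 + i)) ↔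
        (((x : ZMod q) + 1) + (i : ZMod q)) ^ 2 + (-(A : ZMod q) + (j : ZMod q)) = 0 := by
      unfold val
      rw [← Int.natCast_dvd, ← ZMod.intCast_zmod_eq_zero_iff_dvd]
      push_cast
      rfl
    by_cases h4 : q ∣ val (-(A : ℤ) + j) (x + 1 + i)
    · rw [if_pos h4, if_pos (h3.mp h4), mul_one]
    · rw [if_neg h4, if_neg (fun h5 => h4 (h3.mpr h5)), mul_zero]
  have h5 : ∀ i ∈ range H, (q : ℂ) * ∑ j ∈ range (2 * A + 1),
      (if q ∣ val (-(A : ℤ) + j) (x + 1 + i) then (1 : ℂ) else 0)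
      = ∑ k : ZMod q, (stdAddChar (k * ((((x : ℤ) + 1) + i : ℤ) : ZMod q) ^ 2) : ℂ) *
        ∑ j ∈ range (2 * A + 1), (stdAddChar (k * ((-(A : ℤ) + j : ℤ) : ZMod q)) : ℂ) := by
    intro i _
    rw [Finset.mul_sum, Finset.sum_congr rfl (fun j _ => h1 i j), Finset.sum_comm]
    refine Finset.sum_congr rfl (fun k _ => ?_)
    rw [Finset.mul_sum]
  rw [Finset.sum_congr rfl h5, Finset.sum_comm]
  refine Finset.sum_congr rfl (fun k _ => ?_)
  push_cast
  rw [Finset.sum_mul]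

lemma main_bound (x H A : ℕ) :
    |((((Ioc x (x + H)) ×ˢ (IA A)).filter (fun t => q ∣ val t.2 t.1)).card : ℝ)
      - (2 * A + 1) * H / (q : ℝ)|
      ≤ √(2 * q) * (H / q + (1 + Real.log q)) * ((Nat.divisors q).card * (1 + Real.log q)) := by
  classical
  have hq : 0 < q := Nat.pos_of_ne_zero (NeZero.ne q)
  have hqR : (0 : ℝ) < q := by exact_mod_cast hq
  have hq1 : (1 : ℝ) ≤ q := by exact_mod_cast hq
  have hlog : 0 ≤ Real.log q := Real.log_nonneg hq1
  set c : ℕ := (((Ioc x (x + H)) ×ˢ (IA A)).filter (fun t => q ∣ val t.2 t.1)).card with hc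
  set W : ℝ := √(2 * q) * (H / q + (1 + Real.log q)) with hW
  have hW0 : 0 ≤ W := by rw [hW]; positivity
  have h0 := card_eq (q := q) x H A
  rw [← hc] at h0
  set P : ZMod q → ℂ := fun k =>
    (∑ i ∈ range H, (stdAddChar (k * ((((x : ℤ) + 1) + i : ℤ) : ZMod q) ^ 2) : ℂ)) *
        ∑ i ∈ range (2 * A + 1), (stdAddChar (k * ((-(A : ℤ) + i : ℤ) : ZMod q)) : ℂ) with hP
  have hP0 : P 0 = (H : ℂ) * (2 * A + 1) := by
    rw [hP]; simp
  have h1 : (q : ℂ) * c - (H : ℂ) * (2 * A + 1) = ∑ k : ZMod q, if k.val = 0 then 0 else P k := by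
    rw [h0, ← hP0]
    have h2 : ∀ k : ZMod q, P k = (if k = 0 then P 0 else 0) + (if k.val = 0 then 0 else P k) := by
      intro k
      by_cases hk : k = 0
      · subst hk; simp
      · have hk' : k.val ≠ 0 := by simpa using hk
        rw [if_neg hk, if_neg hk', zero_add]
    rw [Finset.sum_congr rfl (fun k _ => h2 k), Finset.sum_add_distrib]
    simp
  have h2 : (q : ℝ) * |(c : ℝ) - (2 * A + 1) * H / (q : ℝ)| = ‖(q : ℂ) * c - (H : ℂ) * (2 * A + 1)‖ := by
    have e1 : (q : ℂ) * c - (H : ℂ) * (2 * A + 1)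
        = (((q : ℝ) * ((c : ℝ) - (2 * A + 1) * H / (q : ℝ)) : ℝ) : ℂ) := by
      have : (q : ℝ) * ((c : ℝ) - (2 * A + 1) * H / (q : ℝ)) = q * c - H * (2 * A + 1) := by
        field_simp
      rw [this]
      push_cast
      ring
    rw [e1, Complex.norm_real, Real.norm_eq_abs, abs_mul, abs_of_pos hqR]
  have h3 : (q : ℝ) * |(c : ℝ) - (2 * A + 1) * H / (q : ℝ)|
      ≤ W * (q * ((Nat.divisors q).card * (1 + Real.log q))) := by
    rw [h2, h1]
    refine (norm_sum_le _ _).trans ?_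
    have h4 : ∀ k : ZMod q, ‖(if k.val = 0 then 0 else P k)‖
        ≤ W * (if k.val = 0 then 0 else
          √((Nat.gcd k.val q : ℕ) : ℝ) * ((q : ℝ) / 2 * (1 / (k.val : ℝ) + 1 / ((q : ℝ) - k.val)))) := by
      intro k
      by_cases hk : k.val = 0
      · rw [if_pos hk, if_pos hk]; simp
      · rw [if_neg hk, if_neg hk]
        have hk' : k ≠ 0 := by
          intro h; apply hk; rw [h]; simp
        rw [hP]
        simp only
        rw [norm_mul]
        have e1 := quad_sum_le k ((x : ℤ) + 1) H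
        have e2 := norm_geom_le' hk' (-(A : ℤ)) (2 * A + 1)
        calc _ ≤ (√(2 * q) * √(Nat.gcd k.val q : ℝ) * (H / q + (1 + Real.log q))) *
              ((q : ℝ) / 2 * (1 / (k.val : ℝ) + 1 / ((q : ℝ) - k.val))) :=
              mul_le_mul e1 e2 (norm_nonneg _) (by positivity)
          _ = _ := by rw [hW]; ring
    refine (Finset.sum_le_sum (fun k _ => h4 k)).trans ?_
    rw [← Finset.mul_sum, sum_sym (fun g => √(g : ℝ))]
    refine mul_le_mul_of_nonneg_left ?_ hW0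
    exact mul_le_mul_of_nonneg_left sum_gcd_le hqR.le
  have h4 : W * (q * ((Nat.divisors q).card * (1 + Real.log q)))
      = q * (W * ((Nat.divisors q).card * (1 + Real.log q))) := by ring
  rw [h4] at h3
  exact le_of_mul_le_mul_left h3 hqR

end

end Pool.Agent.Lib.MP391708.QPA.QG

namespace Pool.Agent.Lib.MP391708.QPA

open Finset

/-- **Module QG.** -/
theorem specQG : SpecQG := by
  intro e he
  obtain ⟨C, hC, hdiv⟩ := Pool.Agent.Lib.MP_391708_nt.Div.card_divisors_le_rpow (e / 3) (by linarith)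
  refine ⟨√2 * C * (1 + 3 / e) ^ 2, by positivity, ?_⟩
  intro q x H A hq
  have : NeZero q := ⟨by omega⟩
  have hqR : (0 : ℝ) < q := by exact_mod_cast hq
  have hq1 : (1 : ℝ) ≤ q := by exact_mod_cast hq
  have hlog : 0 ≤ Real.log q := Real.log_nonneg hq1
  refine (QG.main_bound x H A).trans ?_
  have h1 := hdiv q hq
  have h2 : 1 + Real.log q ≤ (1 + 3 / e) * (q : ℝ) ^ (e / 3) := by
    have h3 := Real.log_le_rpow_div hqR.le (show 0 < e / 3 by linarith)
    have h4 : (1 : ℝ) ≤ (q : ℝ) ^ (e / 3) := Real.one_le_rpow hq1 (by linarith)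
    have h5 : (q : ℝ) ^ (e / 3) / (e / 3) = 3 / e * (q : ℝ) ^ (e / 3) := by
      field_simp
    rw [h5] at h3
    nlinarith
  have hs : √(q : ℝ) * √(q : ℝ) = q := Real.mul_self_sqrt hqR.le
  have hspos : 0 < √(q : ℝ) := Real.sqrt_pos.mpr hqR
  have h3 : √(2 * q) * (H / q + (1 + Real.log q))
      ≤ √2 * (1 + Real.log q) * (H / √(q : ℝ) + √(q : ℝ)) := by
    rw [Real.sqrt_mul (by norm_num)]
    have e1 : √(q : ℝ) * (H / q) = H / √(q : ℝ) := by
      rw [eq_div_iff hspos.ne']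
      have : √(q : ℝ) * (H / q) * √(q : ℝ) = (√(q : ℝ) * √(q : ℝ)) * (H / q) := by ring
      rw [this, hs]
      field_simp
    have e2 : √(2 : ℝ) * √(q : ℝ) * (H / q + (1 + Real.log q))
        = √2 * (√(q : ℝ) * (H / q) + √(q : ℝ) * (1 + Real.log q)) := by ring
    rw [e2, e1, mul_assoc]
    refine mul_le_mul_of_nonneg_left ?_ (Real.sqrt_nonneg _)
    have e3 : 0 ≤ (H : ℝ) / √(q : ℝ) := by positivity
    nlinarith
  have hE : (0 : ℝ) ≤ (q : ℝ) ^ (e / 3) := by positivity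
  have hS : (0 : ℝ) ≤ H / √(q : ℝ) + √(q : ℝ) := by positivity
  calc √(2 * q) * (H / q + (1 + Real.log q)) * ((Nat.divisors q).card * (1 + Real.log q))
      ≤ (√2 * (1 + Real.log q) * (H / √(q : ℝ) + √(q : ℝ))) *
        ((C * (q : ℝ) ^ (e / 3)) * (1 + Real.log q)) := by
        refine mul_le_mul h3 ?_ (by positivity) (by positivity)
        exact mul_le_mul_of_nonneg_right h1 (by positivity)
    _ = √2 * C * (q : ℝ) ^ (e / 3) * (H / √(q : ℝ) + √(q : ℝ)) * ((1 + Real.log q) * (1 + Real.log q)) := by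
        ring
    _ ≤ √2 * C * (q : ℝ) ^ (e / 3) * (H / √(q : ℝ) + √(q : ℝ)) *
        (((1 + 3 / e) * (q : ℝ) ^ (e / 3)) * ((1 + 3 / e) * (q : ℝ) ^ (e / 3))) := by
        refine mul_le_mul_of_nonneg_left ?_ (by positivity)
        exact mul_le_mul h2 h2 (by positivity) (by positivity)
    _ = √2 * C * (1 + 3 / e) ^ 2 * (q : ℝ) ^ e * (H / √(q : ℝ) + √(q : ℝ)) := by
        have : (q : ℝ) ^ e = (q : ℝ) ^ (e / 3) * ((q : ℝ) ^ (e / 3) * (q : ℝ) ^ (e / 3)) := by
          rw [← Real.rpow_add hqR, ← Real.rpow_add hqR]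
          congr 1
          ring
        rw [this]
        ring

end Pool.Agent.Lib.MP391708.QPA
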