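import Mathlib
import Pool.Agent.Lib.MP_391708_nt.QPA.Spec

/-!
# Module RAV of the project QPA: the average of `ρ_a(k)` over `a`
-/

set_option autoImplicit false

namespace Pool.Agent.Lib.MP391708.QPA.RAV

open Finset
open scoped Classical

lemma dvd_val_iff (a : ℤ) (n k : ℕ) : k ∣ val a n ↔ (k : ℤ) ∣ (n : ℤ) ^ 2 + a := by
  unfold val
  rw [← Int.natCast_dvd]

lemma periodic (a : ℤ) (k : ℕ) : Function.Periodic (fun n : ℕ => (k : ℤ) ∣ (n : ℤ) ^ 2 + a) k := by
  intro n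
  simp only [eq_iff_iff]
  have h : ((n + k : ℕ) : ℤ) ^ 2 + a = ((n : ℤ) ^ 2 + a) + k * (2 * n + k) := by
    push_cast
    ring
  rw [h]
  exact dvd_add_left (dvd_mul_right _ _)

lemma card_window (a : ℤ) (k x : ℕ) :
    ((Ioc x (x + k)).filter (fun n => k ∣ val a n)).card = rho a k := by
  unfold rho
  have h1 : Ioc x (x + k) = Ico (x + 1) (x + 1 + k) := by
    ext n; simp only [Finset.mem_Ioc, Finset.mem_Ico]; omega
  rw [h1]
  have h2 : (Ico (x + 1) (x + 1 + k)).filter (fun n => k ∣ val a n)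
      = (Ico (x + 1) (x + 1 + k)).filter (fun n : ℕ => (k : ℤ) ∣ (n : ℤ) ^ 2 + a) :=
    Finset.filter_congr (fun n _ => dvd_val_iff a n k)
  rw [h2, Nat.filter_Ico_card_eq_of_periodic _ _ _ (periodic a k), Nat.count_eq_card_filter_range]

end Pool.Agent.Lib.MP391708.QPA.RAV

namespace Pool.Agent.Lib.MP391708.QPA

open Finset
open scoped Classical

/-- **Module RAV.** -/
theorem specRAV (hQG : SpecQG) : SpecRAV := by
  intro e he
  obtain ⟨C, hC, hQ⟩ := hQG e he
  refine ⟨2 * C, by positivity, ?_⟩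
  intro k A hk
  have hkR : (0 : ℝ) < k := by exact_mod_cast hk
  have h := hQ k 0 k A hk
  have h1 : ((((Ioc 0 (0 + k)) ×ˢ (IA A)).filter (fun t => k ∣ val t.2 t.1)).card : ℝ)
      = ∑ a ∈ IA A, (rho a k : ℝ) := by
    rw [Finset.card_filter, Finset.sum_product_right]
    push_cast
    refine Finset.sum_congr rfl (fun a _ => ?_)
    rw [← RAV.card_window a k 0, Finset.card_filter]
    push_cast
    rfl
  have h2 : (2 * A + 1) * (k : ℝ) / (k : ℝ) = 2 * A + 1 := by
    field_simp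
  rw [h1, h2] at h
  refine h.trans (le_of_eq ?_)
  have h3 : (k : ℝ) / √(k : ℝ) = √(k : ℝ) := Real.div_sqrt
  rw [h3, Real.sqrt_eq_rpow, add_comm (1 / 2 : ℝ) e, Real.rpow_add hkR]
  ring

end Pool.Agent.Lib.MP391708.QPA
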