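import Pool.Agent.Lib.MP_391708_nt.QPA.Spec2
import Pool.Agent.Lib.MP_391708_nt.QPA.RHOMEAN

/-!
# Module RHOMEANK of the project QPA
-/

set_option autoImplicit false

namespace Pool.Agent.Lib.MP391708.QPA

open Finset Filter Topology
open scoped Classical

/-- **Module RHOMEANK.** -/
theorem specRHOMEANK (hRAV : SpecRAV) (hRSUM : SpecRSUM) : SpecRHOMEANK := by
  obtain ⟨C₁, hC₁, hR⟩ := hRAV (1 / 40) (by norm_num)
  obtain ⟨C₂, hC₂, hS⟩ := hRSUM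
  refine ⟨3 * (1 + 2 * C₂) + C₁, by positivity, ?_⟩
  intro e0 he0 he1
  have hev : ∀ᶠ N : ℕ in atTop, 2 ≤ (N : ℝ) ^ e0 ∧ 1 ≤ Real.log N ∧
      1 * (1 + Real.log N) ≤ (N : ℝ) ^ (3 / 40 : ℝ) ∧ 1 ≤ N :=
    (RHOMEAN.ev_rpow e0 he0 2).and ((RHOMEAN.ev_log 1).and
      ((RHOMEAN.ev_log_rpow (3 / 40) (by norm_num) 1 zero_le_one).and (eventually_ge_atTop 1)))
  obtain ⟨N₀, hN₀⟩ := eventually_atTop.mp hev
  refine ⟨N₀, ?_⟩
  intro N A hN hA
  obtain ⟨hz, hlog, hlr, hN1⟩ := hN₀ N hN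
  have hNR : (0 : ℝ) < N := by exact_mod_cast hN1
  have hNR1 : (1 : ℝ) ≤ N := by exact_mod_cast hN1
  have hA1 : (1 : ℝ) ≤ A := (Real.one_le_rpow hNR1 (by norm_num)).trans hA
  set z : ℝ := (N : ℝ) ^ e0 with hzdef
  have hzN : z ≤ N := by
    calc z ≤ (N : ℝ) ^ (1 : ℝ) := Real.rpow_le_rpow_of_exponent_le hNR1 (by linarith)
      _ = N := Real.rpow_one _
  have hlogz : Real.log z = e0 * Real.log N := Real.log_rpow hNR e0
  rw [Finset.sum_comm]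
  have h1 : ∀ k ∈ (Icc 1 N).filter (fun k => Rough z k), ∑ a ∈ IA A, (rho a k : ℝ) / k
      ≤ (2 * A + 1) * (1 / (k : ℝ)) + C₁ * (N : ℝ) ^ (21 / 40 : ℝ) * (1 / (k : ℝ)) := by
    intro k hk
    simp only [Finset.mem_filter, Finset.mem_Icc] at hk
    have hk1 : (1 : ℝ) ≤ k := by exact_mod_cast hk.1.1
    have hkN : (k : ℝ) ≤ N := by exact_mod_cast hk.1.2
    have h2 := hR k A hk.1.1
    have h3 := (abs_le.mp h2).2
    have h4 : (k : ℝ) ^ (1 / 2 + 1 / 40 : ℝ) ≤ (N : ℝ) ^ (21 / 40 : ℝ) := by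
      rw [show (1 / 2 + 1 / 40 : ℝ) = 21 / 40 by norm_num]
      exact Real.rpow_le_rpow (by linarith) hkN (by norm_num)
    rw [← Finset.sum_div, ← add_mul, div_eq_mul_one_div]
    refine mul_le_mul_of_nonneg_right ?_ (by positivity)
    have h5 : C₁ * (k : ℝ) ^ (1 / 2 + 1 / 40 : ℝ) ≤ C₁ * (N : ℝ) ^ (21 / 40 : ℝ) :=
      mul_le_mul_of_nonneg_left h4 hC₁.le
    linarith
  refine (Finset.sum_le_sum h1).trans ?_
  rw [Finset.sum_add_distrib, ← Finset.mul_sum, ← Finset.mul_sum]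
  have h2 := RHOMEAN.sum_inv_rough_le hC₂ hS hz hzN
  have h3 : 1 + C₂ * (Real.log N + 1) / Real.log z ≤ (1 + 2 * C₂) / e0 := by
    rw [hlogz]
    have e1 : (1 : ℝ) ≤ 1 / e0 := by
      rw [le_div_iff₀ he0]; linarith
    have e2 : C₂ * (Real.log N + 1) / (e0 * Real.log N) ≤ 2 * C₂ / e0 := by
      rw [div_le_div_iff₀ (by positivity) he0]
      have : C₂ * e0 * (Real.log N + 1) ≤ C₂ * e0 * (2 * Real.log N) :=
        mul_le_mul_of_nonneg_left (by linarith) (by positivity)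
      nlinarith
    have e3 : (1 + 2 * C₂) / e0 = 1 / e0 + 2 * C₂ / e0 := by ring
    rw [e3]
    linarith
  have h4 : ∑ k ∈ (Icc 1 N).filter (fun k => Rough z k), 1 / (k : ℝ) ≤ 1 + Real.log N := by
    have e1 : ∑ k ∈ (Icc 1 N).filter (fun k => Rough z k), 1 / (k : ℝ)
        ≤ ∑ k ∈ Icc 1 N, 1 / (k : ℝ) :=
      Finset.sum_le_sum_of_subset_of_nonneg (Finset.filter_subset _ _) (fun i _ _ => by positivity)
    refine e1.trans ?_
    have h := harmonic_le_one_add_log N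
    rw [harmonic_eq_sum_Icc] at h
    push_cast at h
    simpa using h
  have h5 : (N : ℝ) ^ (21 / 40 : ℝ) * ∑ k ∈ (Icc 1 N).filter (fun k => Rough z k), 1 / (k : ℝ)
      ≤ A := by
    have e1 : (N : ℝ) ^ (21 / 40 : ℝ) * ∑ k ∈ (Icc 1 N).filter (fun k => Rough z k), 1 / (k : ℝ)
        ≤ (N : ℝ) ^ (21 / 40 : ℝ) * (N : ℝ) ^ (3 / 40 : ℝ) :=
      mul_le_mul_of_nonneg_left (by linarith) (by positivity)
    refine e1.trans (le_trans (le_of_eq ?_) hA)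
    rw [← Real.rpow_add hNR]
    norm_num
  have h6 : (2 * (A : ℝ) + 1) * ∑ k ∈ (Icc 1 N).filter (fun k => Rough z k), 1 / (k : ℝ)
      ≤ 3 * A * ((1 + 2 * C₂) / e0) := by
    refine mul_le_mul (by linarith) (h2.trans h3) ?_ (by positivity)
    exact Finset.sum_nonneg (fun i _ => by positivity)
  have h7 : C₁ * (N : ℝ) ^ (21 / 40 : ℝ) * ∑ k ∈ (Icc 1 N).filter (fun k => Rough z k), 1 / (k : ℝ)
      ≤ C₁ * A / e0 := by
    rw [mul_assoc]
    have e1 : C₁ * ((N : ℝ) ^ (21 / 40 : ℝ) *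
        ∑ k ∈ (Icc 1 N).filter (fun k => Rough z k), 1 / (k : ℝ)) ≤ C₁ * A :=
      mul_le_mul_of_nonneg_left h5 hC₁.le
    refine e1.trans ?_
    rw [le_div_iff₀ he0]
    have : 0 ≤ C₁ * A := by positivity
    nlinarith
  have h8 : (3 * (1 + 2 * C₂) + C₁) * A / e0 = 3 * A * ((1 + 2 * C₂) / e0) + C₁ * A / e0 := by
    ring
  rw [h8]
  linarith

end Pool.Agent.Lib.MP391708.QPA
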