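import Pool.Agent.Lib.MP_391708_nt.QPA.Spec

/-!
# RSUM: the sum of `1/k` over rough `k`
-/

set_option autoImplicit false

namespace Pool.Agent.Lib.MP391708.QPA

open Finset Filter Topology
open scoped Classical

namespace RSUM

lemma rInd_nonneg (z : ℝ) (k : ℕ) : 0 ≤ rInd z k := by unfold rInd; split_ifs <;> norm_num

lemma rInd_le (z : ℝ) (k : ℕ) : rInd z k ≤ 1 := by unfold rInd; split_ifs <;> norm_num

/-- one block -/
lemma block (C : ℝ) (hC : 0 < C)
    (hBT : ∀ (y z : ℝ) (q c x H : ℕ), 2 ≤ y → y < z → 1 ≤ q →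
      (((Ioc x (x + H)).filter (fun u => u % q = c ∧ Rough z u)).card : ℝ)
        ≤ C * H / ((q.totient : ℝ) * Real.log y) + C * y ^ 2)
    (y z : ℝ) (hy : 2 ≤ y) (hyz : y < z) (b : ℕ) (hb : 1 ≤ b) :
    ∑ k ∈ Ioc b (2 * b), rInd z k / (k : ℝ) ≤ C / Real.log y + C * y ^ 2 / b := by
  have hb0 : (0 : ℝ) < b := by exact_mod_cast hb
  have h1 : ∑ k ∈ Ioc b (2 * b), rInd z k / (k : ℝ)
      ≤ ∑ k ∈ Ioc b (2 * b), rInd z k * (1 / (b : ℝ)) := by
    apply Finset.sum_le_sum
    intro k hk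
    have hk1 := (Finset.mem_Ioc.mp hk).1
    rw [div_eq_mul_one_div]
    apply mul_le_mul_of_nonneg_left _ (rInd_nonneg z k)
    apply one_div_le_one_div_of_le hb0
    exact_mod_cast hk1.le
  have h2 : ∑ k ∈ Ioc b (2 * b), rInd z k
      = (((Ioc b (b + b)).filter (fun u => u % 1 = 0 ∧ Rough z u)).card : ℝ) := by
    rw [two_mul]
    unfold rInd
    rw [Finset.sum_ite]
    simp [Nat.mod_one]
  have h3 := hBT y z 1 0 b b hy hyz le_rfl
  rw [← Finset.sum_mul, h2] at h1
  refine le_trans h1 ?_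
  have h4 : (((Ioc b (b + b)).filter (fun u => u % 1 = 0 ∧ Rough z u)).card : ℝ) * (1 / (b : ℝ))
      ≤ (C * b / (((1 : ℕ).totient : ℝ) * Real.log y) + C * y ^ 2) * (1 / (b : ℝ)) :=
    mul_le_mul_of_nonneg_right h3 (by positivity)
  refine le_trans h4 (le_of_eq ?_)
  simp only [Nat.totient_one, Nat.cast_one, one_mul]
  field_simp

/-- many blocks -/
lemma blocks (z D : ℝ) (b : ℕ) (_hD : 0 ≤ D)
    (h : ∀ j : ℕ, ∑ k ∈ Ioc (b * 2 ^ j) (2 * (b * 2 ^ j)), rInd z k / (k : ℝ) ≤ D) (J : ℕ) :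
    ∑ k ∈ Ioc b (b * 2 ^ J), rInd z k / (k : ℝ) ≤ J * D := by
  induction J with
  | zero => simp
  | succ J ih =>
    have h1 : Ioc b (b * 2 ^ (J + 1)) = Ioc b (b * 2 ^ J) ∪ Ioc (b * 2 ^ J) (2 * (b * 2 ^ J)) := by
      ext k
      simp only [Finset.mem_union, Finset.mem_Ioc]
      have h2 : b * 2 ^ (J + 1) = 2 * (b * 2 ^ J) := by ring
      have h3 : b ≤ b * 2 ^ J := Nat.le_mul_of_pos_right b (by positivity)
      rw [h2]
      omega
    have hdis : Disjoint (Ioc b (b * 2 ^ J)) (Ioc (b * 2 ^ J) (2 * (b * 2 ^ J))) := by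
      rw [Finset.disjoint_left]
      intro k hk1 hk2
      have g1 := (Finset.mem_Ioc.mp hk1).2
      have g2 := (Finset.mem_Ioc.mp hk2).1
      omega
    rw [h1, Finset.sum_union hdis]
    have h2 := h J
    push_cast
    linarith

/-- the block bound in all cases -/
lemma blockD (C : ℝ) (hC : 0 < C)
    (hBT : ∀ (y z : ℝ) (q c x H : ℕ), 2 ≤ y → y < z → 1 ≤ q →
      (((Ioc x (x + H)).filter (fun u => u % q = c ∧ Rough z u)).card : ℝ)
        ≤ C * H / ((q.totient : ℝ) * Real.log y) + C * y ^ 2)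
    (z : ℝ) (hz : 2 ≤ z) (b : ℕ) (hb : z / 2 ≤ b) :
    ∑ k ∈ Ioc b (2 * b), rInd z k / (k : ℝ) ≤ (Real.log 8 + 9 * C) / Real.log z := by
  have hlog : 0 < Real.log z := Real.log_pos (by linarith)
  have hb1 : 1 ≤ b := by
    have : (1 : ℝ) ≤ b := by linarith
    exact_mod_cast this
  have hb0 : (0 : ℝ) < b := by exact_mod_cast hb1
  have h8 : (0 : ℝ) < Real.log 8 := Real.log_pos (by norm_num)
  by_cases hz8 : z < 8
  · have h1 : ∑ k ∈ Ioc b (2 * b), rInd z k / (k : ℝ) ≤ ∑ k ∈ Ioc b (2 * b), (1 / (b : ℝ)) := by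
      apply Finset.sum_le_sum
      intro k hk
      have hk1 := (Finset.mem_Ioc.mp hk).1
      have hk0 : (b : ℝ) ≤ k := by exact_mod_cast hk1.le
      exact div_le_div₀ zero_le_one (rInd_le z k) hb0 hk0
    have h2 : ∑ k ∈ Ioc b (2 * b), (1 / (b : ℝ)) = 1 := by
      rw [Finset.sum_const, Nat.card_Ioc, nsmul_eq_mul]
      have : 2 * b - b = b := by omega
      rw [this]
      field_simp
    rw [h2] at h1
    refine le_trans h1 ?_
    rw [one_le_div hlog]
    have h3 : Real.log z ≤ Real.log 8 := Real.log_le_log (by linarith) hz8.le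
    linarith
  · have hz8' : 8 ≤ z := not_lt.mp hz8
    have hz0 : 0 < z := by linarith
    set y : ℝ := z ^ (1 / 3 : ℝ) with hy
    have hy0 : 0 < y := Real.rpow_pos_of_pos hz0 _
    have hy2 : 2 ≤ y := by
      have h1 : (8 : ℝ) ^ (1 / 3 : ℝ) ≤ z ^ (1 / 3 : ℝ) :=
        Real.rpow_le_rpow (by norm_num) hz8' (by norm_num)
      have h2 : (8 : ℝ) ^ (1 / 3 : ℝ) = 2 := by
        rw [show (8 : ℝ) = 2 ^ (3 : ℝ) by norm_num, ← Real.rpow_mul (by norm_num)]
        norm_num
      rw [h2] at h1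
      exact h1
    have hy3 : y ^ 3 = z := by
      rw [hy, ← Real.rpow_natCast, ← Real.rpow_mul hz0.le]
      norm_num
    have hyz : y < z := by
      rw [← hy3]
      nlinarith [mul_pos hy0 hy0]
    have hlogy : Real.log y = Real.log z / 3 := by
      rw [hy, Real.log_rpow hz0]
      ring
    have h1 := block C hC hBT y z hy2 hyz b hb1
    refine le_trans h1 ?_
    have h2 : C / Real.log y = 3 * C / Real.log z := by
      rw [hlogy]; field_simp
    have h3 : C * y ^ 2 / b ≤ 6 * C / Real.log z := by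
      rw [div_le_div_iff₀ hb0 hlog]
      have h4 : Real.log y ≤ y := by
        have := Real.log_le_sub_one_of_pos hy0
        linarith
      have h5 : Real.log z ≤ 3 * y := by rw [hlogy] at h4; linarith
      calc C * y ^ 2 * Real.log z ≤ C * y ^ 2 * (3 * y) :=
            mul_le_mul_of_nonneg_left h5 (by positivity)
        _ = 3 * C * z := by rw [← hy3]; ring
        _ ≤ 6 * C * b := by nlinarith
    rw [h2]
    have h6 : (Real.log 8 + 9 * C) / Real.log z
        = Real.log 8 / Real.log z + 3 * C / Real.log z + 6 * C / Real.log z := by ring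
    rw [h6]
    have h7 : 0 ≤ Real.log 8 / Real.log z := by positivity
    linarith

end RSUM

open RSUM in
theorem specRSUM (hB : SpecBT) : SpecRSUM := by
  obtain ⟨C, hC, hBT⟩ := hB
  have h8 : (0 : ℝ) < Real.log 8 := Real.log_pos (by norm_num)
  refine ⟨2 * (Real.log 8 + 9 * C), by positivity, fun z X₁ X₂ hz hX₁ hX₂ => ?_⟩
  have hlog : 0 < Real.log z := Real.log_pos (by linarith)
  have hX1 : 0 < X₁ := by linarith
  have hX2 : 0 < X₂ := by linarith
  set a : ℕ := ⌈X₁⌉₊ with ha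
  have ha1 : X₁ ≤ a := Nat.le_ceil X₁
  have ha2 : 2 ≤ a := by
    have : (2 : ℝ) ≤ a := by linarith
    exact_mod_cast this
  set b : ℕ := a - 1 with hb
  have hba : ((b : ℕ) : ℝ) = (a : ℝ) - 1 := by
    rw [hb, Nat.cast_sub (by omega)]; simp
  have hbX : X₁ / 2 ≤ b := by rw [hba]; linarith
  have hb0 : (0 : ℝ) < b := by linarith
  set D : ℝ := (Real.log 8 + 9 * C) / Real.log z with hD
  have hD0 : 0 ≤ D := by positivity
  have hblk : ∀ j : ℕ, ∑ k ∈ Ioc (b * 2 ^ j) (2 * (b * 2 ^ j)), rInd z k / (k : ℝ) ≤ D := by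
    intro j
    apply blockD C hC hBT z hz
    have : (1 : ℝ) ≤ 2 ^ j := one_le_pow₀ (by norm_num)
    push_cast
    nlinarith
  have hq : 0 ≤ Real.log (X₂ / X₁) := Real.log_nonneg (by rw [le_div_iff₀ hX1]; linarith)
  have hl2 : (1 / 2 : ℝ) < Real.log 2 := by have := Real.log_two_gt_d9; linarith
  set J : ℕ := ⌈Real.log (X₂ / b) / Real.log 2⌉₊ with hJ
  have hlogb : Real.log (X₂ / b) ≤ Real.log (X₂ / X₁) + Real.log 2 := by
    rw [← Real.log_mul (by positivity) (by norm_num)]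
    apply Real.log_le_log (by positivity)
    rw [div_mul_eq_mul_div, div_le_div_iff₀ hb0 hX1]
    nlinarith
  have hJle : (J : ℝ) ≤ 2 * (Real.log (X₂ / X₁) + 1) := by
    by_cases hneg : Real.log (X₂ / b) / Real.log 2 ≤ 0
    · have : J = 0 := Nat.ceil_eq_zero.mpr hneg
      rw [this]; simp; linarith
    · have h1 := Nat.ceil_lt_add_one (le_of_lt (not_le.mp hneg))
      rw [← hJ] at h1
      have h2 : Real.log (X₂ / b) / Real.log 2 ≤ Real.log (X₂ / X₁) / Real.log 2 + 1 := by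
        rw [div_add_one (by linarith)]
        exact div_le_div_of_nonneg_right hlogb (by linarith)
      have h3 : Real.log (X₂ / X₁) / Real.log 2 ≤ 2 * Real.log (X₂ / X₁) := by
        rw [div_le_iff₀ (by linarith)]
        nlinarith
      linarith
  have hcover : X₂ ≤ b * 2 ^ J := by
    have h1 : Real.log (X₂ / b) / Real.log 2 ≤ J := Nat.le_ceil _
    rw [div_le_iff₀ (by linarith)] at h1
    have h2 : Real.log (X₂ / b) ≤ Real.log (2 ^ J) := by
      rw [Real.log_pow]; exact h1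
    have h3 : X₂ / b ≤ 2 ^ J := (Real.log_le_log_iff (by positivity) (by positivity)).mp h2
    rw [div_le_iff₀ hb0] at h3
    linarith
  have hsub : Icc a ⌊X₂⌋₊ ⊆ Ioc b (b * 2 ^ J) := by
    intro k hk
    obtain ⟨h1, h2⟩ := Finset.mem_Icc.mp hk
    refine Finset.mem_Ioc.mpr ⟨by omega, ?_⟩
    have h3 : (k : ℝ) ≤ X₂ := le_trans (by exact_mod_cast h2) (Nat.floor_le hX2.le)
    exact_mod_cast le_trans h3 hcover
  calc ∑ k ∈ Icc a ⌊X₂⌋₊, rInd z k / (k : ℝ)
      ≤ ∑ k ∈ Ioc b (b * 2 ^ J), rInd z k / (k : ℝ) := by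
        apply Finset.sum_le_sum_of_subset_of_nonneg hsub
        intro i _ _
        exact div_nonneg (rInd_nonneg z i) (by positivity)
    _ ≤ J * D := blocks z D b hD0 hblk J
    _ ≤ 2 * (Real.log (X₂ / X₁) + 1) * D := mul_le_mul_of_nonneg_right hJle hD0
    _ = 2 * (Real.log 8 + 9 * C) * (Real.log (X₂ / X₁) + 1) / Real.log z := by
        rw [hD]; ring

end Pool.Agent.Lib.MP391708.QPA
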