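import Pool.Agent.Lib.MP_391708_nt.QPA.Spec

/-!
# QPA, module SHM: the model has the right smooth mass
-/

set_option autoImplicit false

namespace Pool.Agent.Lib.MP391708.QPA

open Finset

namespace SHM

/-- sums over consecutive intervals -/
lemma sum_consec (g : ℕ → ℕ) (hg : Monotone g) (f : ℕ → ℝ) (n : ℕ) :
    ∑ i ∈ range n, ∑ l ∈ Ioc (g i) (g (i + 1)), f l = ∑ l ∈ Ioc (g 0) (g n), f l := by
  induction n with
  | zero => simp
  | succ n ih =>
    rw [sum_range_succ, ih]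
    exact sum_Ioc_consecutive f (hg (Nat.zero_le n)) (hg (Nat.le_succ n))

/-- the `i`-th end point -/
noncomputable def xx (L η : ℝ) (J i : ℕ) : ℝ := L * (1 + η * i / J)

lemma xx_mono {L η : ℝ} {J : ℕ} (hL : 0 ≤ L) (hη : 0 ≤ η) : Monotone (xx L η J) := by
  intro i j hij
  unfold xx
  have h : (i : ℝ) ≤ j := by exact_mod_cast hij
  gcongr

lemma xx_zero (L η : ℝ) (J : ℕ) : xx L η J 0 = L := by simp [xx]

lemma xx_last {L η : ℝ} {J : ℕ} (hJ : 1 ≤ J) : xx L η J J = (1 + η) * L := by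
  unfold xx
  have h : (J : ℝ) ≠ 0 := by positivity
  field_simp

lemma xx_succ (L η : ℝ) (J i : ℕ) (hJ : 1 ≤ J) : xx L η J (i + 1) = xx L η J i + η * L / J := by
  unfold xx
  have h : (J : ℝ) ≠ 0 := by positivity
  push_cast
  field_simp
  ring

lemma pc_eq (L η : ℝ) (J i : ℕ) : pc L η J i = Ioc ⌊xx L η J i⌋₊ ⌊xx L η J (i + 1)⌋₊ := by
  unfold pc xx
  push_cast
  rfl

/-- the pieces make up the block -/
lemma sum_pc {L η : ℝ} {J : ℕ} (hL : 0 ≤ L) (hη : 0 ≤ η) (hJ : 1 ≤ J) (f : ℕ → ℝ) :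
    ∑ i ∈ range J, ∑ l ∈ pc L η J i, f l = ∑ l ∈ Ioc ⌊L⌋₊ ⌊(1 + η) * L⌋₊, f l := by
  have hm : Monotone (fun i => ⌊xx L η J i⌋₊) := fun i j hij =>
    Nat.floor_mono (xx_mono hL hη hij)
  have h := sum_consec (fun i => ⌊xx L η J i⌋₊) hm f J
  simp only [xx_zero, xx_last hJ] at h
  rw [← h]
  exact sum_congr rfl fun i _ => by rw [pc_eq]

lemma mem_pc {L η : ℝ} {J i l : ℕ} (hL : 0 ≤ L) (hη : 0 ≤ η) (hl : l ∈ pc L η J i) :
    xx L η J i < l ∧ (l : ℝ) ≤ xx L η J (i + 1) := by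
  rw [pc_eq, mem_Ioc] at hl
  refine ⟨(Nat.floor_lt ?_).1 hl.1, (Nat.le_floor_iff ?_).1 hl.2⟩
  · unfold xx; positivity
  · unfold xx; positivity

end SHM

open SHM in
theorem specSHM : SpecSHM := by
  refine ⟨1, one_pos, fun L η J β hL hη hη4 hJ hβ => ?_⟩
  have hL0 : 0 < L := by linarith
  have hJ0 : (0 : ℝ) < J := by positivity
  rw [← sum_pc hL0.le hη.le hJ, ← sum_pc hL0.le hη.le hJ, ← sum_sub_distrib, mul_sum, sum_div]
  refine (abs_sum_le_sum_abs _ _).trans (sum_le_sum fun i _ => ?_)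
  have hx : L ≤ xx L η J i := by
    unfold xx
    nlinarith [show 0 ≤ η * i / J by positivity]
  have hs := xx_succ L η J i hJ
  set x := xx L η J i with hxdef
  set y := xx L η J (i + 1) with hydef
  have e1 : L * (1 + η * ((i : ℝ) + 1) / J) = y := by
    rw [hydef]; unfold xx; push_cast; rfl
  have e2 : L * (1 + η * (i : ℝ) / J) = x := rfl
  rw [e1, e2]
  have hd : 0 < η * L / J := by positivity
  have hx0 : 0 < x := by linarith
  have hy0 : 0 < y := by linarith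
  have hsx : 0 < √x := Real.sqrt_pos.2 hx0
  have hsy : 0 < √y := Real.sqrt_pos.2 hy0
  have hsL : 0 < √L := Real.sqrt_pos.2 hL0
  have hxy : √x ≤ √y := Real.sqrt_le_sqrt (by linarith)
  have hLx : √L ≤ √x := Real.sqrt_le_sqrt hx
  have hsq : √y ^ 2 - √x ^ 2 = η * L / J := by
    rw [Real.sq_sqrt hx0.le, Real.sq_sqrt hy0.le]; linarith
  have hD : Dav L η J β i * (√y - √x) = ∑ l ∈ pc L η J i, β l * (1 / (√x + √y)) := by
    unfold Dav
    rw [← sum_mul, show √y - √x = (η * L / J) / (√x + √y) by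
      rw [← hsq]; field_simp; ring]
    field_simp
  rw [hD, ← sum_sub_distrib, mul_sum, sum_div]
  refine (abs_sum_le_sum_abs _ _).trans (sum_le_sum fun l hl => ?_)
  obtain ⟨h1, h2⟩ := mem_pc hL0.le hη.le hl
  rw [← hxdef] at h1
  rw [← hydef] at h2
  have hl1 : √x ≤ √(l : ℝ) := Real.sqrt_le_sqrt h1.le
  have hl2 : √(l : ℝ) ≤ √y := Real.sqrt_le_sqrt h2
  have hl0 : 0 < √(l : ℝ) := by linarith
  have hLL : √L ^ 2 = L := Real.sq_sqrt hL0.le
  have hyx : √y - √x ≤ √L / J := by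
    have h3 : (√y - √x) * (2 * √L) ≤ η * L / J := by
      rw [← hsq]
      nlinarith
    have h4 : √y - √x ≤ η * L / J / (2 * √L) := (le_div_iff₀ (by positivity)).2 h3
    refine h4.trans ?_
    rw [div_div, div_le_div_iff₀ (by positivity) hJ0]
    have : η * L * J ≤ √L ^ 2 * J := by rw [hLL]; nlinarith [mul_pos hL0 hJ0]
    nlinarith [mul_pos (mul_pos hsL hsL) hJ0]
  have key : |1 / (√x + √y) - 1 / (2 * √(l : ℝ))| ≤ (√y - √x) / (2 * √L ^ 2) := by
    have e : 1 / (√x + √y) - 1 / (2 * √(l : ℝ))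
        = (2 * √(l : ℝ) - (√x + √y)) / ((√x + √y) * (2 * √(l : ℝ))) := by
      field_simp
    rw [e, abs_div, abs_of_pos (show 0 < (√x + √y) * (2 * √(l : ℝ)) by positivity)]
    have h5 : |2 * √(l : ℝ) - (√x + √y)| ≤ √y - √x := by
      rw [abs_le]; constructor <;> linarith
    refine div_le_div₀ (by linarith) h5 (by positivity) ?_
    nlinarith
  have e3 : β l * (1 / (√x + √y)) - β l / (2 * √(l : ℝ))
      = β l * (1 / (√x + √y) - 1 / (2 * √(l : ℝ))) := by ring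
  rw [e3, abs_mul, abs_of_nonneg (hβ l)]
  have h6 : β l * |1 / (√x + √y) - 1 / (2 * √(l : ℝ))| ≤ β l * (√L / J / (2 * √L ^ 2)) := by
    refine mul_le_mul_of_nonneg_left (key.trans ?_) (hβ l)
    gcongr
  refine h6.trans ?_
  have e4 : β l * (√L / J / (2 * √L ^ 2)) = (1 / 2) * (1 / J * β l / √L) := by
    field_simp
  rw [e4]
  have : 0 ≤ 1 / J * β l / √L := by
    have := hβ l
    positivity
  linarith

end Pool.Agent.Lib.MP391708.QPA
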