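import Pool.Agent.Lib.MP_391708_nt.QPA.Spec

/-!
# The quadratic large sieve on average over `a` (small moduli)
-/

set_option autoImplicit false

namespace Pool.Agent.Lib.MP391708.QPA

open Finset
open scoped NumberTheorySymbols

namespace SML

/-- the product of two different squarefree numbers is not a square -/
lemma not_isSquare {k l : ℕ} (hk : Squarefree k) (hl : Squarefree l) (h : k ≠ l) :
    ¬ IsSquare (k * l) := by
  rintro ⟨r, hr⟩
  apply h
  have hk0 : k ≠ 0 := hk.ne_zero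
  have hl0 : l ≠ 0 := hl.ne_zero
  have hr0 : r ≠ 0 := by
    rintro rfl
    simp at hr
    omega
  refine Nat.eq_of_factorization_eq hk0 hl0 (fun p => ?_)
  have h1 := congrArg (fun n => n.factorization p) hr
  simp only [Nat.factorization_mul hk0 hl0, Nat.factorization_mul hr0 hr0, Finsupp.add_apply] at h1
  have h2 := hk.natFactorization_le_one p
  have h3 := hl.natFactorization_le_one p
  omega

lemma card_IA (A : ℕ) : (IA A).card = 2 * A + 1 := by
  unfold IA
  rw [Int.card_Icc]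
  omega

lemma jac_mul_le (a : ℤ) (k : ℕ) : |(jacobiSym a k : ℝ)| ≤ 1 := by
  rcases jacobiSym.trichotomy a k with h | h | h <;> rw [h] <;> norm_num

end SML

theorem specSML (hP : SpecPVA) : SpecSML := by
  intro e he
  obtain ⟨C, hC, hPV⟩ := hP (e / 2) (by positivity)
  refine ⟨3 + C * (2 : ℝ) ^ (1 + e), by positivity, fun A E c hA hE hc => ?_⟩
  set K := Ioc E (2 * E) with hK
  have hA1 : (1 : ℝ) ≤ A := by exact_mod_cast hA
  have hE1 : (1 : ℝ) ≤ E := by exact_mod_cast hE
  have h1 : ∑ a ∈ IA A, (∑ k ∈ K, c k * (jacobiSym (-a) k : ℝ)) ^ 2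
      = ∑ k ∈ K, ∑ l ∈ K, c k * c l * ∑ a ∈ IA A, (jacobiSym (-a) (k * l) : ℝ) := by
    have : ∀ a : ℤ, (∑ k ∈ K, c k * (jacobiSym (-a) k : ℝ)) ^ 2
        = ∑ k ∈ K, ∑ l ∈ K, c k * c l * (jacobiSym (-a) (k * l) : ℝ) := by
      intro a
      rw [sq, Finset.sum_mul_sum]
      refine Finset.sum_congr rfl (fun k hk => Finset.sum_congr rfl (fun l hl => ?_))
      have hk0 : k ≠ 0 := by
        rw [hK, Finset.mem_Ioc] at hk
        omega
      have hl0 : l ≠ 0 := by
        rw [hK, Finset.mem_Ioc] at hl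
        omega
      have : NeZero k := ⟨hk0⟩
      have : NeZero l := ⟨hl0⟩
      rw [jacobiSym.mul_right]
      push_cast
      ring
    rw [Finset.sum_congr rfl (fun a _ => this a), Finset.sum_comm]
    refine Finset.sum_congr rfl (fun k _ => ?_)
    rw [Finset.sum_comm]
    refine Finset.sum_congr rfl (fun l _ => ?_)
    rw [Finset.mul_sum]
  rw [h1]
  set D : ℝ := C * (2 : ℝ) ^ (1 + e) * (E : ℝ) ^ (1 + e) with hD
  have hD0 : 0 ≤ D := by positivity
  have h2 : ∀ k ∈ K, ∀ l ∈ K, c k * c l * ∑ a ∈ IA A, (jacobiSym (-a) (k * l) : ℝ)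
      ≤ (if k = l then 3 * A * (c k) ^ 2 else 0) + D * (|c k| * |c l|) := by
    intro k hk l hl
    by_cases hck : c k = 0
    · rw [hck]
      simp
    by_cases hcl : c l = 0
    · rw [hcl]
      simp only [mul_zero, zero_mul, abs_zero, add_zero]
      split_ifs
      · positivity
      · exact le_rfl
    obtain ⟨hko, hks⟩ := hc k hck
    obtain ⟨hlo, hls⟩ := hc l hcl
    rw [hK, Finset.mem_Ioc] at hk hl
    by_cases hkl : k = l
    · rw [if_pos hkl]
      have h3 : |∑ a ∈ IA A, (jacobiSym (-a) (k * l) : ℝ)| ≤ 3 * A := by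
        refine (Finset.abs_sum_le_sum_abs _ _).trans ?_
        refine (Finset.sum_le_sum (fun a _ => SML.jac_mul_le (-a) (k * l))).trans ?_
        rw [Finset.sum_const, nsmul_eq_mul, mul_one, SML.card_IA]
        push_cast
        linarith
      have h4 : c k * c l * ∑ a ∈ IA A, (jacobiSym (-a) (k * l) : ℝ) ≤ 3 * A * (c k) ^ 2 := by
        rw [← hkl, ← sq, mul_comm]
        rw [← hkl] at h3
        exact mul_le_mul_of_nonneg_right ((le_abs_self _).trans h3) (sq_nonneg _)
      have h5 : 0 ≤ D * (|c k| * |c l|) := by positivity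
      linarith
    · rw [if_neg hkl, zero_add]
      have h3 := hPV (k * l) (hko.mul hlo) (SML.not_isSquare hks hls hkl) A
      have h4 : (((k * l : ℕ) : ℝ)) ^ (1 / 2 + e / 2) ≤ (2 : ℝ) ^ (1 + e) * (E : ℝ) ^ (1 + e) := by
        have h5 : ((k * l : ℕ) : ℝ) ≤ (2 * E) ^ 2 := by
          have : k * l ≤ (2 * E) * (2 * E) := Nat.mul_le_mul hk.2 hl.2
          calc ((k * l : ℕ) : ℝ) ≤ (((2 * E) * (2 * E) : ℕ) : ℝ) := by exact_mod_cast this
            _ = _ := by push_cast; ring
        calc (((k * l : ℕ) : ℝ)) ^ (1 / 2 + e / 2) ≤ ((2 * (E : ℝ)) ^ 2) ^ (1 / 2 + e / 2) :=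
              Real.rpow_le_rpow (by positivity) h5 (by positivity)
          _ = (2 * (E : ℝ)) ^ (1 + e) := by
              rw [← Real.rpow_natCast (2 * (E : ℝ)) 2, ← Real.rpow_mul (by positivity)]
              congr 1
              push_cast
              ring
          _ = _ := by rw [Real.mul_rpow (by norm_num) (by positivity)]
      have h6 : |∑ a ∈ IA A, (jacobiSym (-a) (k * l) : ℝ)| ≤ D := by
        refine h3.trans ?_
        rw [hD, mul_assoc]
        exact mul_le_mul_of_nonneg_left h4 hC.le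
      calc c k * c l * ∑ a ∈ IA A, (jacobiSym (-a) (k * l) : ℝ)
          ≤ |c k * c l * ∑ a ∈ IA A, (jacobiSym (-a) (k * l) : ℝ)| := le_abs_self _
        _ = |c k| * |c l| * |∑ a ∈ IA A, (jacobiSym (-a) (k * l) : ℝ)| := by
            rw [abs_mul, abs_mul]
        _ ≤ |c k| * |c l| * D := mul_le_mul_of_nonneg_left h6 (by positivity)
        _ = _ := by ring
  refine (Finset.sum_le_sum (fun k hk => Finset.sum_le_sum (fun l hl => h2 k hk l hl))).trans ?_
  have h7 : ∑ k ∈ K, ∑ l ∈ K, ((if k = l then 3 * A * (c k) ^ 2 else 0) + D * (|c k| * |c l|))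
      = 3 * A * ∑ k ∈ K, (c k) ^ 2 + D * (∑ k ∈ K, |c k|) ^ 2 := by
    simp only [Finset.sum_add_distrib]
    congr 1
    · rw [Finset.mul_sum]
      refine Finset.sum_congr rfl (fun k hk => ?_)
      rw [Finset.sum_ite_eq, if_pos hk]
    · rw [sq, Finset.sum_mul_sum, Finset.mul_sum]
      refine Finset.sum_congr rfl (fun k _ => ?_)
      rw [Finset.mul_sum]
  rw [h7]
  have h8 : 0 ≤ ∑ k ∈ K, (c k) ^ 2 := Finset.sum_nonneg (fun k _ => sq_nonneg _)
  have h9 : 0 ≤ (∑ k ∈ K, |c k|) ^ 2 := sq_nonneg _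
  have h10 : 0 ≤ C * (2 : ℝ) ^ (1 + e) := by positivity
  have h11 : 0 ≤ (E : ℝ) ^ (1 + e) := by positivity
  have h12 : 0 ≤ (A : ℝ) * ∑ k ∈ K, (c k) ^ 2 := by positivity
  rw [hD]
  nlinarith [mul_nonneg h10 h12, mul_nonneg h11 h9]

end Pool.Agent.Lib.MP391708.QPA
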