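import Pool.Agent.Lib.MP_391708_nt.QPA.Spec

/-!
# QPA module T1: the Moebius identity
-/

set_option autoImplicit false

namespace Pool.Agent.Lib.MP391708.QPA.T1

open Finset
open scoped Classical

/-- sum of the Moebius function over the divisors -/
theorem sum_mu (n : ℕ) :
    ∑ k ∈ n.divisors, (ArithmeticFunction.moebius k : ℝ) = if n = 1 then 1 else 0 := by
  have h : (ArithmeticFunction.moebius * (ArithmeticFunction.zeta : ArithmeticFunction ℤ)) n
      = (1 : ArithmeticFunction ℤ) n := by rw [ArithmeticFunction.moebius_mul_coe_zeta]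
  rw [ArithmeticFunction.coe_mul_zeta_apply] at h
  have h2 : ((∑ k ∈ n.divisors, ArithmeticFunction.moebius k : ℤ) : ℝ)
      = ∑ k ∈ n.divisors, (ArithmeticFunction.moebius k : ℝ) := by push_cast; rfl
  rw [← h2, h, ArithmeticFunction.one_apply]
  split_ifs <;> simp

/-- the small part of `m` -/
noncomputable def kz (m : ℕ) (Y : ℝ) : ℕ := ∏ p ∈ m.primeFactors.filter (fun p : ℕ => (p : ℝ) ≤ Y), p

theorem prod_dvd (m : ℕ) (hm : Squarefree m) (T : Finset ℕ) (hT : T ⊆ m.primeFactors) :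
    (∏ p ∈ T, p) ∣ m := by
  conv_rhs => rw [← Nat.prod_primeFactors_of_squarefree hm]
  exact Finset.prod_dvd_prod_of_subset _ _ _ hT

theorem small_prod (m : ℕ) (Y : ℝ) (hm : Squarefree m) (hY : 1 ≤ Y) (h3 : Y ^ 3 ≤ m)
    (h : ∀ k : ℕ, k ∣ m → Y < (k : ℝ) → (m : ℝ) / Y < k) (T : Finset ℕ)
    (hT : T ⊆ m.primeFactors.filter (fun p : ℕ => (p : ℝ) ≤ Y)) : ((∏ p ∈ T, p : ℕ) : ℝ) ≤ Y := by
  induction T using Finset.induction_on with
  | empty => simpa using hY
  | insert p T hp ih =>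
    have hT' : T ⊆ m.primeFactors.filter (fun p : ℕ => (p : ℝ) ≤ Y) :=
      fun x hx => hT (mem_insert_of_mem hx)
    have h1 := ih hT'
    have hpm := mem_filter.mp (hT (mem_insert_self p T))
    by_contra hc
    push Not at hc
    have hdvd : (∏ q ∈ insert p T, q) ∣ m :=
      prod_dvd m hm _ (fun x hx => (mem_filter.mp (hT hx)).1)
    have h2 := h _ hdvd hc
    rw [prod_insert hp] at h2
    push_cast at h2 h1
    have h3' : (p : ℝ) * ∏ q ∈ T, (q : ℝ) ≤ Y * Y :=
      mul_le_mul hpm.2 h1 (by positivity) (by linarith)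
    have h4 : Y * Y ≤ (m : ℝ) / Y := by
      rw [le_div_iff₀ (by linarith)]
      calc Y * Y * Y = Y ^ 3 := by ring
        _ ≤ m := h3
    linarith

theorem T1core (m : ℕ) (Y : ℝ) (hm : Squarefree m) (hm2 : 2 ≤ m) (hY : 1 ≤ Y) (h3 : Y ^ 3 ≤ m)
    (h : ∀ k : ℕ, k ∣ m → Y < (k : ℝ) → (m : ℝ) / Y < k) :
    ∑ k ∈ m.divisors.filter (fun k : ℕ => (k : ℝ) ≤ Y), (ArithmeticFunction.moebius k : ℝ)
      = primeInd m := by
  have hm0 : m ≠ 0 := by omega
  have hkz : ((kz m Y : ℕ) : ℝ) ≤ Y := small_prod m Y hm hY h3 h _ (fun x hx => hx)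
  have hkd : kz m Y ∣ m := prod_dvd m hm _ (fun x hx => (mem_filter.mp hx).1)
  have hk0 : kz m Y ≠ 0 := fun h0 => hm0 (by simpa [h0] using hkd)
  have hset : m.divisors.filter (fun k : ℕ => (k : ℝ) ≤ Y) = (kz m Y).divisors := by
    ext k
    simp only [mem_filter, Nat.mem_divisors]
    constructor
    · rintro ⟨⟨hk, _⟩, hkY⟩
      refine ⟨?_, hk0⟩
      have hks : Squarefree k := hm.squarefree_of_dvd hk
      rw [← Nat.prod_primeFactors_of_squarefree hks]
      apply Finset.prod_dvd_prod_of_subset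
      intro p hp
      have hp' := Nat.mem_primeFactors.mp hp
      refine mem_filter.mpr ⟨Nat.mem_primeFactors.mpr ⟨hp'.1, hp'.2.1.trans hk, hm0⟩, ?_⟩
      have : (p : ℝ) ≤ k := by exact_mod_cast Nat.le_of_dvd (Nat.pos_of_ne_zero hp'.2.2) hp'.2.1
      linarith
    · rintro ⟨hk, _⟩
      refine ⟨⟨hk.trans hkd, hm0⟩, ?_⟩
      have : (k : ℝ) ≤ kz m Y := by exact_mod_cast Nat.le_of_dvd (Nat.pos_of_ne_zero hk0) hk
      linarith
  rw [hset, sum_mu _, primeInd]
  have hiff : kz m Y = 1 ↔ m.Prime := by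
    constructor
    · intro h1
      obtain ⟨q, hq, hqm⟩ := Nat.exists_prime_and_dvd (show m ≠ 1 by omega)
      have hbig : ∀ p : ℕ, p.Prime → p ∣ m → Y < (p : ℝ) := by
        intro p hp hpm
        by_contra hc
        push Not at hc
        have hmem : p ∈ m.primeFactors.filter (fun p : ℕ => (p : ℝ) ≤ Y) :=
          mem_filter.mpr ⟨Nat.mem_primeFactors.mpr ⟨hp, hpm, hm0⟩, hc⟩
        have hd : p ∣ kz m Y := Finset.dvd_prod_of_mem _ hmem
        rw [h1] at hd
        exact hp.one_lt.ne' (Nat.dvd_one.mp hd)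
      have h2 := h q hqm (hbig q hq hqm)
      obtain ⟨r, hr⟩ := hqm
      have hr1 : r = 1 := by
        by_contra hne
        obtain ⟨s, hs, hsr⟩ := Nat.exists_prime_and_dvd hne
        have hr0 : 0 < r := by
          rcases Nat.eq_zero_or_pos r with h0 | h0
          · subst h0; omega
          · exact h0
        have h4 := hbig s hs (hr ▸ (hsr.trans (Dvd.intro_left q rfl)))
        have h5 : (s : ℝ) ≤ r := by exact_mod_cast Nat.le_of_dvd hr0 hsr
        have h6 : (m : ℝ) = q * r := by exact_mod_cast hr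
        have hq0 : (0 : ℝ) < q := by exact_mod_cast hq.pos
        rw [div_lt_iff₀ (by linarith), h6] at h2
        have := lt_of_mul_lt_mul_left h2 hq0.le
        linarith
      rw [hr, hr1, mul_one]
      exact hq
    · intro hp
      rw [kz]
      apply Finset.prod_eq_one
      intro p hpm
      exfalso
      have hp1 := mem_filter.mp hpm
      have hp2 := Nat.mem_primeFactors.mp hp1.1
      have hpe : p = m := (Nat.prime_dvd_prime_iff_eq hp2.1 hp).mp hp2.2.1
      have hmY : (m : ℝ) ≤ Y := hpe ▸ hp1.2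
      have h2 : (2 : ℝ) ≤ m := by exact_mod_cast hm2
      nlinarith [mul_nonneg (by linarith : (0:ℝ) ≤ Y) (mul_nonneg (by linarith : (0:ℝ) ≤ Y - 1)
        (by linarith : (0:ℝ) ≤ Y + 1)), mul_pos (by linarith : (0:ℝ) < Y) (by nlinarith : (0:ℝ) < Y * Y - 1)]
  by_cases hp : m.Prime
  · rw [if_pos (hiff.mpr hp), if_pos hp]
  · rw [if_neg (fun h1 => hp (hiff.mp h1)), if_neg hp]

end Pool.Agent.Lib.MP391708.QPA.T1

namespace Pool.Agent.Lib.MP391708.QPA

theorem specT1 : SpecT1 := fun m Y hm hm2 hY h3 h => T1.T1core m Y hm hm2 hY h3 h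

end Pool.Agent.Lib.MP391708.QPA
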