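import Pool.Agent.Lib.MP_391708_nt.QPA.Spec2
import Pool.Agent.Lib.MP_391708_nt.QPA.T1

/-!
# QPA module T1K: the Moebius identity with products of three primes
-/

set_option autoImplicit false

namespace Pool.Agent.Lib.MP391708.QPA

namespace T1K

open Finset
open scoped Classical

lemma moebius_mul_prime {k s : ℕ} (hs : s.Prime) (h : ¬ s ∣ k) :
    (ArithmeticFunction.moebius (k * s) : ℝ) = - (ArithmeticFunction.moebius k : ℝ) := by
  have hc : Nat.Coprime k s := ((Nat.Prime.coprime_iff_not_dvd hs).2 h).symm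
  rw [ArithmeticFunction.isMultiplicative_moebius.map_mul_of_coprime hc,
    ArithmeticFunction.moebius_apply_prime hs]
  push_cast
  ring

/-- Case A: a large prime factor. -/
theorem caseA (m : ℕ) (Y : ℝ) (hm : Squarefree m) (hY : 1 ≤ Y)
    (h : ∀ k : ℕ, k ∣ m → Y < (k : ℝ) → (m : ℝ) / Y < k) (q : ℕ) (hq : q.Prime) (hqm : q ∣ m)
    (hqY : Y < (q : ℝ)) :
    ∑ k ∈ m.divisors.filter (fun k : ℕ => (k : ℝ) ≤ Y), (ArithmeticFunction.moebius k : ℝ)
      = primeInd m - 2 * p3Ind Y m := by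
  have hm0 : m ≠ 0 := hm.ne_zero
  obtain ⟨r, hr⟩ := hqm
  have hr0 : r ≠ 0 := by rintro rfl; simp at hr; exact hm0 hr
  have h1 := h q ⟨r, hr⟩ hqY
  have hq0 : (0 : ℝ) < q := by exact_mod_cast hq.pos
  have hmr : (m : ℝ) = q * r := by rw [hr]; push_cast; ring
  have hrY : (r : ℝ) < Y := by
    rw [div_lt_iff₀ (by linarith), hmr] at h1
    exact lt_of_mul_lt_mul_left h1 hq0.le
  have hqr : ¬ q ∣ r := by
    rintro ⟨t, ht⟩
    have : q * q ∣ m := ⟨t, by rw [hr, ht]; ring⟩
    exact hq.one_lt.ne' (Nat.isUnit_iff.1 (hm q this))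
  have hset : m.divisors.filter (fun k : ℕ => (k : ℝ) ≤ Y) = r.divisors := by
    ext k
    simp only [mem_filter, Nat.mem_divisors]
    constructor
    · rintro ⟨⟨hk, _⟩, hkY⟩
      refine ⟨?_, hr0⟩
      have hqk : ¬ q ∣ k := by
        intro hd
        have hk0 : 0 < k := Nat.pos_of_dvd_of_pos hk (Nat.pos_of_ne_zero hm0)
        have : (q : ℝ) ≤ k := by exact_mod_cast Nat.le_of_dvd hk0 hd
        linarith
      rw [hr] at hk
      exact (Nat.Coprime.dvd_of_dvd_mul_left ((Nat.Prime.coprime_iff_not_dvd hq).2 hqk).symm hk)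
    · rintro ⟨hk, _⟩
      refine ⟨⟨hk.trans (by rw [hr]; exact Dvd.intro_left q rfl), hm0⟩, ?_⟩
      have : (k : ℝ) ≤ r := by exact_mod_cast Nat.le_of_dvd (Nat.pos_of_ne_zero hr0) hk
      linarith
  have hp3 : p3Ind Y m = 0 := by
    unfold p3Ind
    rw [if_neg]
    rintro ⟨_, _, h3⟩
    have := h3 q (Nat.mem_primeFactors.2 ⟨hq, ⟨r, hr⟩, hm0⟩)
    linarith
  rw [hset, T1.sum_mu, hp3, primeInd]
  have hiff : r = 1 ↔ m.Prime := by
    constructor
    · intro h2; rw [hr, h2, mul_one]; exact hq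
    · intro hp
      have h2 : q = m := (Nat.prime_dvd_prime_iff_eq hq hp).1 ⟨r, hr⟩
      have h3 : m * r = m * 1 := by rw [mul_one]; rw [h2] at hr; exact hr.symm
      exact Nat.eq_of_mul_eq_mul_left (Nat.pos_of_ne_zero hm0) h3
  by_cases hp : m.Prime
  · rw [if_pos (hiff.2 hp), if_pos hp]; ring
  · rw [if_neg (fun h2 => hp (hiff.1 h2)), if_neg hp]; ring

/-- the involution -/
theorem caseB1 (m : ℕ) (Y : ℝ) (hm : Squarefree m) (hY : 1 ≤ Y)
    (h : ∀ k : ℕ, k ∣ m → Y < (k : ℝ) → (m : ℝ) / Y < k) (s : ℕ) (hs : s.Prime) (hsm : s ∣ m)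
    (hsY : (s : ℝ) ≤ m / Y ^ 2) :
    ∑ k ∈ m.divisors.filter (fun k : ℕ => (k : ℝ) ≤ Y), (ArithmeticFunction.moebius k : ℝ) = 0 := by
  have hm0 : m ≠ 0 := hm.ne_zero
  have hY0 : 0 < Y := by linarith
  have hs0 : 0 < s := hs.pos
  refine Finset.sum_involution (fun k _ => if s ∣ k then k / s else k * s) ?_ ?_ ?_ ?_
  · intro k hk
    by_cases hd : s ∣ k
    · rw [if_pos hd]
      obtain ⟨t, rfl⟩ := hd
      rw [Nat.mul_div_cancel_left t hs0]
      have hk1 := (Nat.mem_divisors.1 (mem_filter.1 hk).1).1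
      have ht : ¬ s ∣ t := by
        rintro ⟨u, hu⟩
        have : s * s ∣ m := (Dvd.intro u (by rw [hu]; ring) : s * s ∣ s * t).trans hk1
        exact hs.one_lt.ne' (Nat.isUnit_iff.1 (hm s this))
      rw [mul_comm s t, moebius_mul_prime hs ht]
      ring
    · rw [if_neg hd, moebius_mul_prime hs hd]
      ring
  · intro k hk _
    have hk1 := (Nat.mem_divisors.1 (mem_filter.1 hk).1).1
    have hk0 : 0 < k := Nat.pos_of_dvd_of_pos hk1 (Nat.pos_of_ne_zero hm0)
    by_cases hd : s ∣ k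
    · rw [if_pos hd]
      exact (Nat.div_lt_self hk0 hs.one_lt).ne
    · rw [if_neg hd]
      have : k * 1 < k * s := Nat.mul_lt_mul_of_pos_left hs.one_lt hk0
      omega
  · intro k hk
    have hk1 := (Nat.mem_divisors.1 (mem_filter.1 hk).1).1
    have hkY := (mem_filter.1 hk).2
    have hk0 : 0 < k := Nat.pos_of_dvd_of_pos hk1 (Nat.pos_of_ne_zero hm0)
    by_cases hd : s ∣ k
    · rw [if_pos hd, mem_filter, Nat.mem_divisors]
      have h1 : k / s ∣ k := Nat.div_dvd_of_dvd hd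
      refine ⟨⟨h1.trans hk1, hm0⟩, ?_⟩
      have : ((k / s : ℕ) : ℝ) ≤ k := by exact_mod_cast Nat.div_le_self k s
      linarith
    · rw [if_neg hd, mem_filter, Nat.mem_divisors]
      have hc : Nat.Coprime k s := ((Nat.Prime.coprime_iff_not_dvd hs).2 hd).symm
      have hks : k * s ∣ m := hc.mul_dvd_of_dvd_of_dvd hk1 hsm
      refine ⟨⟨hks, hm0⟩, ?_⟩
      by_contra hcon
      push Not at hcon
      have h2 := h _ hks hcon
      push_cast at h2
      have h3 : (k : ℝ) * s ≤ Y * (m / Y ^ 2) :=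
        mul_le_mul hkY hsY (Nat.cast_nonneg s) hY0.le
      have h4 : Y * ((m : ℝ) / Y ^ 2) = m / Y := by field_simp
      linarith
  · intro k hk
    by_cases hd : s ∣ k
    · rw [if_pos hd]
      obtain ⟨t, rfl⟩ := hd
      have hk1 := (Nat.mem_divisors.1 (mem_filter.1 hk).1).1
      have ht : ¬ s ∣ t := by
        rintro ⟨u, hu⟩
        have : s * s ∣ m := (Dvd.intro u (by rw [hu]; ring) : s * s ∣ s * t).trans hk1
        exact hs.one_lt.ne' (Nat.isUnit_iff.1 (hm s this))
      rw [Nat.mul_div_cancel_left t hs0, if_neg ht, mul_comm]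
    · rw [if_neg hd, if_pos (Dvd.intro_left k rfl), Nat.mul_div_cancel _ hs0]

theorem core (m : ℕ) (Y : ℝ) (hm : Squarefree m) (hm2 : 2 ≤ m) (hY : 1 ≤ Y)
    (h5 : Y ^ (5 / 2 : ℝ) < m) (h : ∀ k : ℕ, k ∣ m → Y < (k : ℝ) → (m : ℝ) / Y < k) :
    ∑ k ∈ m.divisors.filter (fun k : ℕ => (k : ℝ) ≤ Y), (ArithmeticFunction.moebius k : ℝ)
      = primeInd m - 2 * p3Ind Y m := by
  have hm0 : m ≠ 0 := hm.ne_zero
  have hY0 : 0 < Y := by linarith
  have hmpos : (0 : ℝ) < m := by exact_mod_cast Nat.pos_of_ne_zero hm0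
  by_cases hA : ∃ q : ℕ, q.Prime ∧ q ∣ m ∧ Y < (q : ℝ)
  · obtain ⟨q, hq, hqm, hqY⟩ := hA
    exact caseA m Y hm hY h q hq hqm hqY
  push Not at hA
  have hsq : √Y * √Y = Y := Real.mul_self_sqrt hY0.le
  have hs1 : 1 ≤ √Y := Real.one_le_sqrt.2 hY
  have h52 : Y ^ (5 / 2 : ℝ) = Y ^ 2 * √Y := by
    rw [Real.sqrt_eq_rpow, ← Real.rpow_natCast, ← Real.rpow_add hY0]
    norm_num
  rw [h52] at h5
  have hY2 : Y ^ 2 < m := lt_of_le_of_lt (le_mul_of_one_le_right (by positivity) hs1) h5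
  have hYm : Y < m := by nlinarith
  have hnp : ¬ m.Prime := by
    intro hp
    have := hA m hp dvd_rfl
    linarith
  have hpi : primeInd m = 0 := if_neg hnp
  rw [hpi]
  by_cases hB : ∃ s : ℕ, s.Prime ∧ s ∣ m ∧ (s : ℝ) ≤ m / Y ^ 2
  · obtain ⟨s, hs, hsm, hsY⟩ := hB
    rw [caseB1 m Y hm hY h s hs hsm hsY]
    have hp3 : p3Ind Y m = 0 := by
      unfold p3Ind
      rw [if_neg]
      rintro ⟨_, h3, h4⟩
      have hsmem : s ∈ m.primeFactors := Nat.mem_primeFactors.2 ⟨hs, hsm, hm0⟩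
      have hcard : (m.primeFactors.erase s).card = 2 := by
        rw [card_erase_of_mem hsmem, h3]
      obtain ⟨a, b, hab, hEq⟩ := card_eq_two.1 hcard
      have hprod : m = s * (a * b) := by
        have h6 := Nat.prod_primeFactors_of_squarefree hm
        rw [← mul_prod_erase _ _ hsmem, hEq, prod_pair hab] at h6
        exact h6.symm
      have ha : a ∈ m.primeFactors := mem_of_mem_erase (hEq ▸ mem_insert_self a _)
      have hb : b ∈ m.primeFactors := mem_of_mem_erase (hEq ▸ mem_insert_of_mem (mem_singleton_self b))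
      have haY := h4 a ha
      have hbY := h4 b hb
      have hm' : (m : ℝ) = s * (a * b) := by exact_mod_cast hprod
      have hab2 : (a : ℝ) * b < Y ^ 2 := by
        have ha0 : (0 : ℝ) < a := by exact_mod_cast (Nat.mem_primeFactors.1 ha).1.pos
        have hb0 : (0 : ℝ) < b := by exact_mod_cast (Nat.mem_primeFactors.1 hb).1.pos
        have hne : (a : ℝ) ≠ b := by exact_mod_cast hab
        rcases lt_or_gt_of_ne hne with h7 | h7 <;> nlinarith
      have hs0 : (0 : ℝ) < s := by exact_mod_cast hs.pos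
      rw [le_div_iff₀ (by positivity), hm'] at hsY
      have := le_of_mul_le_mul_left hsY hs0
      linarith
    rw [hp3]; ring
  push Not at hB
  -- all primes lie in `(m/Y², Y]`
  have hlow : ∀ p ∈ m.primeFactors, √Y < (p : ℝ) ∧ (p : ℝ) ≤ Y := by
    intro p hp
    obtain ⟨hp1, hp2, _⟩ := Nat.mem_primeFactors.1 hp
    refine ⟨lt_trans ?_ (hB p hp1 hp2), hA p hp1 hp2⟩
    rw [lt_div_iff₀ (by positivity)]
    linarith
  have hpair : ∀ p ∈ m.primeFactors, ∀ p' ∈ m.primeFactors, Y < (p : ℝ) * p' := by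
    intro p hp p' hp'
    have h1 := (hlow p hp).1
    have h2 := (hlow p' hp').1
    nlinarith [mul_lt_mul'' h1 h2 (Real.sqrt_nonneg Y) (Real.sqrt_nonneg Y)]
  have hset : m.divisors.filter (fun k : ℕ => (k : ℝ) ≤ Y) = insert 1 m.primeFactors := by
    ext k
    simp only [mem_filter, Nat.mem_divisors, mem_insert]
    constructor
    · rintro ⟨⟨hk, _⟩, hkY⟩
      by_cases hk1 : k = 1
      · exact Or.inl hk1
      right
      obtain ⟨p, hp, hpk⟩ := Nat.exists_prime_and_dvd hk1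
      obtain ⟨r, hr⟩ := hpk
      have hk0 : 0 < k := Nat.pos_of_dvd_of_pos hk (Nat.pos_of_ne_zero hm0)
      have hr1 : r = 1 := by
        by_contra hne
        obtain ⟨p', hp', hp'r⟩ := Nat.exists_prime_and_dvd hne
        have hpm : p ∈ m.primeFactors := Nat.mem_primeFactors.2 ⟨hp, (Dvd.intro r hr.symm).trans hk, hm0⟩
        have hp'm : p' ∈ m.primeFactors := Nat.mem_primeFactors.2
          ⟨hp', (hp'r.trans (by rw [hr]; exact Dvd.intro_left p rfl)).trans hk, hm0⟩
        have h6 := hpair p hpm p' hp'm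
        have h7 : p * p' ≤ k := Nat.le_of_dvd hk0 (by rw [hr]; exact Nat.mul_dvd_mul_left p hp'r)
        have h8 : (p : ℝ) * p' ≤ k := by exact_mod_cast h7
        linarith
      rw [hr, hr1, mul_one]
      exact Nat.mem_primeFactors.2 ⟨hp, (Dvd.intro r hr.symm).trans hk, hm0⟩
    · rintro (rfl | hk)
      · exact ⟨⟨one_dvd _, hm0⟩, by simpa using hY⟩
      · obtain ⟨hk1, hk2, _⟩ := Nat.mem_primeFactors.1 hk
        exact ⟨⟨hk2, hm0⟩, hA k hk1 hk2⟩
  have h1n : (1 : ℕ) ∉ m.primeFactors := fun h1 => Nat.not_prime_one (Nat.mem_primeFactors.1 h1).1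
  have hprod := Nat.prod_primeFactors_of_squarefree hm
  have hprodR : ∏ p ∈ m.primeFactors, (p : ℝ) = m := by
    have := congrArg (fun n : ℕ => (n : ℝ)) hprod
    push_cast at this
    exact this
  have hcard3 : m.primeFactors.card = 3 := by
    apply le_antisymm
    · by_contra hc
      push Not at hc
      obtain ⟨U, hU, hU2⟩ := exists_subset_card_eq (show 2 ≤ m.primeFactors.card by omega)
      have hV' : 2 ≤ (m.primeFactors \ U).card := by
        rw [card_sdiff_of_subset hU]; omega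
      obtain ⟨V, hV, hV2⟩ := exists_subset_card_eq hV'
      have hbig : ∀ W : Finset ℕ, W ⊆ m.primeFactors → W.card = 2 →
          (m : ℝ) / Y < ∏ p ∈ W, (p : ℝ) := by
        intro W hW hW2
        obtain ⟨a, b, hab, hEq⟩ := card_eq_two.1 hW2
        have ha : a ∈ m.primeFactors := hW (hEq ▸ mem_insert_self a _)
        have hb : b ∈ m.primeFactors := hW (hEq ▸ mem_insert_of_mem (mem_singleton_self b))
        have hd : (∏ p ∈ W, p) ∣ m := T1.prod_dvd m hm W hW
        have h6 : Y < ((∏ p ∈ W, p : ℕ) : ℝ) := by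
          rw [hEq, prod_pair hab]; push_cast; exact hpair a ha b hb
        have h7 := h _ hd h6
        push_cast at h7
        exact h7
      have hUb := hbig U hU hU2
      have hVb := hbig V (hV.trans Finset.sdiff_subset) hV2
      have hdisj : Disjoint U V := by
        rw [disjoint_left]
        intro x hx hx2
        exact (Finset.mem_sdiff.1 (hV hx2)).2 hx
      have hUV : (∏ p ∈ U ∪ V, p) ∣ m := T1.prod_dvd m hm _ (union_subset hU (hV.trans Finset.sdiff_subset))
      have h8 : ((∏ p ∈ U ∪ V, p : ℕ) : ℝ) ≤ m := by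
        exact_mod_cast Nat.le_of_dvd (Nat.pos_of_ne_zero hm0) hUV
      rw [prod_union hdisj] at h8
      push_cast at h8
      have h9 : (m : ℝ) / Y * (m / Y) < (∏ p ∈ U, (p : ℝ)) * ∏ p ∈ V, (p : ℝ) :=
        mul_lt_mul'' hUb hVb (by positivity) (by positivity)
      have h10 : (m : ℝ) / Y * (m / Y) < m := lt_of_lt_of_le h9 h8
      rw [div_mul_div_comm, div_lt_iff₀ (by positivity)] at h10
      have h11 := lt_of_mul_lt_mul_left h10 hmpos.le
      nlinarith
    · by_contra hc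
      push Not at hc
      have h6 : ∏ p ∈ m.primeFactors, (p : ℝ) ≤ Y ^ m.primeFactors.card := by
        rw [← prod_const]
        exact prod_le_prod (fun p _ => Nat.cast_nonneg p) (fun p hp => (hlow p hp).2)
      rw [hprodR] at h6
      have h7 : Y ^ m.primeFactors.card ≤ Y ^ 2 := pow_le_pow_right₀ hY (by omega)
      linarith
  have hp3 : p3Ind Y m = 1 := by
    unfold p3Ind
    rw [if_pos]
    exact ⟨hm, hcard3, fun p hp => (hlow p hp).2⟩
  rw [hset, sum_insert h1n, hp3]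
  have hmu : ∑ p ∈ m.primeFactors, (ArithmeticFunction.moebius p : ℝ) = -3 := by
    have : ∑ p ∈ m.primeFactors, (ArithmeticFunction.moebius p : ℝ) = ∑ p ∈ m.primeFactors, (-1 : ℝ) := by
      refine sum_congr rfl fun p hp => ?_
      rw [ArithmeticFunction.moebius_apply_prime (Nat.mem_primeFactors.1 hp).1]
      push_cast; rfl
    rw [this, sum_const, hcard3]
    norm_num
  rw [hmu, ArithmeticFunction.moebius_apply_one]
  push_cast
  ring

end T1K

theorem specT1K : SpecT1K := fun m Y hm hm2 hY h5 h => T1K.core m Y hm hm2 hY h5 h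

end Pool.Agent.Lib.MP391708.QPA
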