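import Pool.Agent.Lib.MP_391708_nt.QPA.FFB
import Pool.Agent.Lib.MP_391708_nt.QPA.T1

/-!
# QPA module T2: the combinatorial identity on cubes
-/

set_option autoImplicit false

namespace Pool.Agent.Lib.MP391708.QPA.T2

open Finset
open scoped Classical

/-! ### multisets -/

theorem powerset_map_eq (s : Multiset ℕ) (f : ℕ → ℕ) :
    (s.map f).powerset = s.powerset.map (Multiset.map f) := by
  induction s using Multiset.induction with
  | empty => simp
  | cons a s ih =>
    rw [Multiset.map_cons, Multiset.powerset_cons, ih, Multiset.powerset_cons, Multiset.map_add,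
      Multiset.map_map, Multiset.map_map]
    congr 1
    apply Multiset.map_congr rfl
    intro x _
    simp

theorem powerset_val_map (P : Finset ℕ) : P.powerset.val.map Finset.val = P.val.powerset := by
  rw [Finset.powerset]
  simp only [Multiset.map_pmap]
  rw [Multiset.pmap_eq_map]
  simp

theorem sum_powerset (P : Finset ℕ) (f : ℕ → ℕ) (F : Multiset ℕ → ℝ) :
    ∑ S ∈ P.powerset, F (S.val.map f) = ((P.val.map f).powerset.map F).sum := by
  rw [powerset_map_eq, ← powerset_val_map, Multiset.map_map, Multiset.map_map]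
  rfl

theorem exists_sub (P : Finset ℕ) (f : ℕ → ℕ) (s : Multiset ℕ) (h : s ≤ P.val.map f) :
    ∃ S ⊆ P, S.val.map f = s := by
  have h1 : s ∈ (P.val.map f).powerset := Multiset.mem_powerset.mpr h
  rw [powerset_map_eq, Multiset.mem_map] at h1
  obtain ⟨u, hu, hus⟩ := h1
  have hu' := Multiset.mem_powerset.mp hu
  exact ⟨⟨u, Multiset.nodup_of_le hu' P.nodup⟩, Finset.val_le_iff.mp hu', hus⟩

/-- the product of the factorials of the multiplicities -/
noncomputable def vf (c : Multiset ℕ) : ℝ := ∏ i ∈ c.toFinset, ((c.count i).factorial : ℝ)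

theorem vf_pos (c : Multiset ℕ) : 1 ≤ vf c := by
  unfold vf
  have : (1 : ℝ) = ∏ i ∈ c.toFinset, (1 : ℝ) := by simp
  rw [this]
  apply Finset.prod_le_prod
  · intro i _; norm_num
  · intro i _; exact_mod_cast (Nat.factorial_pos _)

theorem vf_cons (i : ℕ) (c : Multiset ℕ) : vf (i ::ₘ c) = ((c.count i : ℝ) + 1) * vf c := by
  unfold vf
  have h1 : ∏ j ∈ c.toFinset, ((c.count j).factorial : ℝ)
      = ∏ j ∈ (i ::ₘ c).toFinset, ((c.count j).factorial : ℝ) := by
    apply Finset.prod_subset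
    · intro j hj
      simp only [Multiset.mem_toFinset, Multiset.mem_cons] at hj ⊢
      exact Or.inr hj
    · intro j _ hj
      have : c.count j = 0 := Multiset.count_eq_zero.mpr (by simpa using hj)
      rw [this]; simp
  rw [h1]
  have hi : i ∈ (i ::ₘ c).toFinset := by simp
  rw [← Finset.mul_prod_erase _ _ hi, ← Finset.mul_prod_erase _ _ hi, ← mul_assoc]
  congr 1
  · rw [Multiset.count_cons_self, Nat.factorial_succ]
    push_cast
    ring
  · apply Finset.prod_congr rfl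
    intro j hj
    rw [Multiset.count_cons_of_ne (Finset.ne_of_mem_erase hj)]

/-- the signed indicator of the small subtypes -/
noncomputable def sg (e2 : ℝ) (s : Multiset ℕ) : ℝ :=
  if e2 * (s.sum : ℝ) < 2 / 3 then (-1 : ℝ) ^ Multiset.card s else 0

/-- the value of `T` on a cube -/
noncomputable def Tc (e2 : ℝ) (c : Multiset ℕ) : ℝ :=
  (if Multiset.card c = 1 then 1 else 0) - (c.powerset.map (sg e2)).sum

theorem abs_sum_map_le (s : Multiset (Multiset ℕ)) (f : Multiset ℕ → ℝ) (h : ∀ x, |f x| ≤ 1) :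
    |(s.map f).sum| ≤ Multiset.card s := by
  induction s using Multiset.induction with
  | empty => simp
  | cons a s ih =>
    rw [Multiset.map_cons, Multiset.sum_cons, Multiset.card_cons]
    push_cast
    calc |f a + (s.map f).sum| ≤ |f a| + |(s.map f).sum| := abs_add_le _ _
      _ ≤ _ := by linarith [h a]

theorem abs_Tc_le (e2 : ℝ) (c : Multiset ℕ) (R : ℕ) (hc : Multiset.card c ≤ R) :
    |Tc e2 c| ≤ 1 + 2 ^ R := by
  unfold Tc
  have h1 := abs_sum_map_le c.powerset (sg e2) (fun x => by unfold sg; split_ifs <;> simp)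
  rw [Multiset.card_powerset] at h1
  have h2 : ((2 ^ Multiset.card c : ℕ) : ℝ) ≤ 2 ^ R := by
    push_cast
    exact pow_le_pow_right₀ (by norm_num) hc
  have h3 : |(if Multiset.card c = 1 then (1 : ℝ) else 0)| ≤ 1 := by split_ifs <;> simp
  calc _ ≤ |(if Multiset.card c = 1 then (1 : ℝ) else 0)| + |(c.powerset.map (sg e2)).sum| :=
        abs_sub _ _
    _ ≤ _ := by linarith

/-! ### the index of a prime and the type of a number -/

/-- the index of `p` -/
noncomputable def idx (N : ℕ) (e2 : ℝ) (p : ℕ) : ℕ := ⌊Real.logb N p / e2⌋₊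

theorem idx_spec (N : ℕ) (e2 : ℝ) (hN : 2 ≤ N) (he : 0 < e2) (p : ℕ) (hp : 1 ≤ p) :
    (N : ℝ) ^ ((idx N e2 p : ℝ) * e2) ≤ p ∧ (p : ℝ) < (N : ℝ) ^ (((idx N e2 p : ℝ) + 1) * e2) := by
  have hN1 : (1 : ℝ) < N := by exact_mod_cast (by omega : 1 < N)
  have hp1 : (1 : ℝ) ≤ p := by exact_mod_cast hp
  have hlog : 0 ≤ Real.logb N p := Real.logb_nonneg hN1 hp1
  have hpe : (N : ℝ) ^ (Real.logb N p) = p :=
    Real.rpow_logb (by linarith) hN1.ne' (by linarith)
  constructor
  · conv_rhs => rw [← hpe]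
    apply Real.rpow_le_rpow_of_exponent_le hN1.le
    rw [← le_div_iff₀ he]
    exact Nat.floor_le (div_nonneg hlog he.le)
  · conv_lhs => rw [← hpe]
    apply Real.rpow_lt_rpow_of_exponent_lt hN1
    rw [← div_lt_iff₀ he]
    exact Nat.lt_floor_add_one _

theorem idx_eq (N : ℕ) (e2 : ℝ) (hN : 2 ≤ N) (he : 0 < e2) (p i : ℕ) (hp : 1 ≤ p)
    (h1 : (N : ℝ) ^ ((i : ℝ) * e2) ≤ p) (h2 : (p : ℝ) < (N : ℝ) ^ (((i : ℝ) + 1) * e2)) :
    idx N e2 p = i := by
  have hN1 : (1 : ℝ) < N := by exact_mod_cast (by omega : 1 < N)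
  obtain ⟨h3, h4⟩ := idx_spec N e2 hN he p hp
  have h5 : (idx N e2 p : ℝ) * e2 < ((i : ℝ) + 1) * e2 :=
    (Real.rpow_lt_rpow_left_iff hN1).mp (lt_of_le_of_lt h3 h2)
  have h6 : (i : ℝ) * e2 < ((idx N e2 p : ℝ) + 1) * e2 :=
    (Real.rpow_lt_rpow_left_iff hN1).mp (lt_of_le_of_lt h1 h4)
  have h7 := lt_of_mul_lt_mul_right h5 he.le
  have h8 := lt_of_mul_lt_mul_right h6 he.le
  have h9 : idx N e2 p < i + 1 := by exact_mod_cast h7
  have h10 : i < idx N e2 p + 1 := by exact_mod_cast h8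
  omega

/-- the type of `m` -/
noncomputable def typ (N : ℕ) (e2 : ℝ) (m : ℕ) : Multiset ℕ :=
  (m.primeFactorsList : Multiset ℕ).map (idx N e2)

theorem typ_div (N : ℕ) (e2 : ℝ) (m p : ℕ) (hp : p ∈ m.primeFactors) :
    typ N e2 m = idx N e2 p ::ₘ typ N e2 (m / p) := by
  have h := Nat.mem_primeFactors.mp hp
  obtain ⟨k, hk⟩ := h.2.1
  have hk0 : k ≠ 0 := fun h0 => h.2.2 (by rw [hk, h0, mul_zero])
  have hmk : m / p = k := by rw [hk, Nat.mul_div_cancel_left _ h.1.pos]
  have h1 := Nat.perm_primeFactorsList_mul h.1.ne_zero hk0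
  rw [← hk, Nat.primeFactorsList_prime h.1] at h1
  have h2 : (m.primeFactorsList : Multiset ℕ) = p ::ₘ (k.primeFactorsList : Multiset ℕ) := by
    rw [Multiset.cons_coe]
    exact Multiset.coe_eq_coe.mpr h1
  rw [typ, typ, hmk, h2, Multiset.map_cons]

theorem typ_of_FF (N : ℕ) (e2 : ℝ) (hN : 2 ≤ N) (he : 0 < e2) (c : Multiset ℕ) (m : ℕ)
    (h : FF N e2 c m ≠ 0) : c = typ N e2 m := by
  induction c using Multiset.induction generalizing m with
  | empty =>
    rw [FFB.FF_zero, ArithmeticFunction.one_apply] at h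
    have hm : m = 1 := by
      by_contra hne
      rw [if_neg hne] at h
      exact h rfl
    subst hm
    simp [typ]
  | cons i c ih =>
    obtain ⟨p, hp, hlo, hhi, hne⟩ := FFB.FF_cons_ne N e2 i c m h
    rw [typ_div N e2 m p hp, ← ih _ hne,
      idx_eq N e2 hN he p i (Nat.mem_primeFactors.mp hp).1.one_lt.le hlo hhi]

theorem coe_list (m : ℕ) (hm : Squarefree m) :
    (m.primeFactorsList : Multiset ℕ) = m.primeFactors.val := by
  have h := (Nat.squarefree_iff_nodup_primeFactorsList hm.ne_zero).mp hm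
  change _ = (m.primeFactorsList.toFinset).val
  rw [List.toFinset_val, List.dedup_eq_self.mpr h]

theorem typ_sq (N : ℕ) (e2 : ℝ) (m : ℕ) (hm : Squarefree m) :
    typ N e2 m = m.primeFactors.val.map (idx N e2) := by
  rw [typ, coe_list m hm]

theorem FF_typ (N : ℕ) (e2 : ℝ) (hN : 2 ≤ N) (he : 0 < e2) (c : Multiset ℕ) (m : ℕ)
    (hm : Squarefree m) (hc : typ N e2 m = c) : FF N e2 c m = vf c := by
  induction c using Multiset.induction generalizing m with
  | empty =>
    have h1 : m.primeFactorsList = [] := by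
      have := congrArg Multiset.card hc
      rw [typ, Multiset.card_map, Multiset.coe_card, Multiset.card_zero] at this
      exact List.length_eq_zero_iff.mp this
    rcases (Nat.primeFactorsList_eq_nil m).mp h1 with h2 | h2
    · exact absurd h2 hm.ne_zero
    · subst h2
      rw [FFB.FF_zero]
      simp [vf]
  | cons i c ih =>
    rw [FFB.FF_cons_apply, vf_cons]
    have hterm : ∀ p ∈ m.primeFactors, PJ N e2 i p * FF N e2 c (m / p)
        = if i = idx N e2 p then vf c else 0 := by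
      intro p hp
      have hpp := Nat.mem_primeFactors.mp hp
      obtain ⟨h3, h4⟩ := idx_spec N e2 hN he p hpp.1.one_lt.le
      split_ifs with hi
      · rw [FFB.PJ_apply, if_pos ⟨hpp.1, by rw [hi]; exact h3, by rw [hi]; exact h4⟩, one_mul]
        apply ih (m / p) (hm.squarefree_of_dvd (Nat.div_dvd_of_dvd hpp.2.1))
        have h5 := typ_div N e2 m p hp
        rw [hc, ← hi] at h5
        exact ((Multiset.cons_inj_right i).mp h5).symm
      · rw [FFB.PJ_apply, if_neg, zero_mul]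
        rintro ⟨_, h6, h7⟩
        exact hi (idx_eq N e2 hN he p i hpp.1.one_lt.le h6 h7).symm
    rw [Finset.sum_congr rfl hterm, Finset.sum_ite, Finset.sum_const_zero, add_zero,
      Finset.sum_const, nsmul_eq_mul]
    congr 1
    have h6 : (m.primeFactors.filter (fun p => i = idx N e2 p)).card
        = Multiset.count i (typ N e2 m) := by
      rw [typ_sq N e2 m hm, Multiset.count_map]
      rfl
    rw [h6, hc, Multiset.count_cons_self]
    push_cast
    rfl

/-! ### sizes -/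

theorem prod_bounds (N : ℕ) (e2 : ℝ) (hN : 2 ≤ N) (he : 0 < e2) (S : Finset ℕ)
    (hS : ∀ p ∈ S, 1 ≤ p) :
    (N : ℝ) ^ (e2 * ((S.val.map (idx N e2)).sum : ℝ)) ≤ ((∏ p ∈ S, p : ℕ) : ℝ) ∧
    ((∏ p ∈ S, p : ℕ) : ℝ) ≤ (N : ℝ) ^ (e2 * (((S.val.map (idx N e2)).sum : ℝ)
      + (Multiset.card (S.val.map (idx N e2)) : ℝ))) := by
  have hN0 : (0 : ℝ) < N := by exact_mod_cast (by omega : 0 < N)
  induction S using Finset.induction_on with
  | empty => simp
  | insert p S hp ih =>
    obtain ⟨h1, h2⟩ := ih (fun q hq => hS q (mem_insert_of_mem hq))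
    obtain ⟨h3, h4⟩ := idx_spec N e2 hN he p (hS p (mem_insert_self p S))
    rw [prod_insert hp, Finset.insert_val_of_notMem hp, Multiset.map_cons, Multiset.sum_cons,
      Multiset.card_cons, Nat.cast_mul, Nat.cast_add, Nat.cast_add, Nat.cast_one]
    constructor
    · have : (N : ℝ) ^ (e2 * ((idx N e2 p : ℝ) + ((S.val.map (idx N e2)).sum : ℝ)))
          = (N : ℝ) ^ ((idx N e2 p : ℝ) * e2) * (N : ℝ) ^ (e2 * ((S.val.map (idx N e2)).sum : ℝ)) := by
        rw [← Real.rpow_add hN0]; ring_nf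
      rw [this]
      exact mul_le_mul h3 h1 (by positivity) (by positivity)
    · have : (N : ℝ) ^ (e2 * ((idx N e2 p : ℝ) + ((S.val.map (idx N e2)).sum : ℝ)
            + ((Multiset.card (S.val.map (idx N e2)) : ℝ) + 1)))
          = (N : ℝ) ^ (((idx N e2 p : ℝ) + 1) * e2) * (N : ℝ) ^ (e2 * (((S.val.map (idx N e2)).sum : ℝ)
            + (Multiset.card (S.val.map (idx N e2)) : ℝ))) := by
        rw [← Real.rpow_add hN0]; ring_nf
      rw [this]
      exact mul_le_mul h4.le h2 (by positivity) (by positivity)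

theorem pow_length_le (z : ℝ) (hz : 0 ≤ z) (l : List ℕ) (h : ∀ x ∈ l, z ≤ (x : ℝ)) :
    z ^ l.length ≤ (l.prod : ℝ) := by
  induction l with
  | nil => simp
  | cons a l ih =>
    rw [List.length_cons, List.prod_cons, pow_succ', Nat.cast_mul]
    exact mul_le_mul (h a (List.mem_cons_self)) (ih (fun x hx => h x (List.mem_cons_of_mem a hx)))
      (by positivity) (by positivity)

/-- the number of prime factors of a rough number -/
theorem length_le (N : ℕ) (e0 : ℝ) (he0 : 0 < e0) (hN : 10 ≤ N) (m : ℕ) (hm0 : m ≠ 0)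
    (hm : (m : ℝ) ≤ 5 * (N : ℝ) ^ 2) (hr : Rough ((N : ℝ) ^ e0) m) :
    m.primeFactorsList.length ≤ ⌊3 / e0⌋₊ := by
  have hN1 : (1 : ℝ) < N := by exact_mod_cast (by omega : 1 < N)
  have hN10 : (10 : ℝ) ≤ N := by exact_mod_cast hN
  apply Nat.le_floor
  rw [le_div_iff₀ he0]
  have h1 := pow_length_le ((N : ℝ) ^ e0) (by positivity) m.primeFactorsList (by
    intro p hp
    exact hr p (Nat.prime_of_mem_primeFactorsList hp) (Nat.dvd_of_mem_primeFactorsList hp))
  rw [Nat.prod_primeFactorsList hm0] at h1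
  have h2 : (N : ℝ) ^ (e0 * m.primeFactorsList.length) ≤ (N : ℝ) ^ (3 : ℝ) := by
    rw [Real.rpow_mul (by linarith), Real.rpow_natCast]
    calc ((N : ℝ) ^ e0) ^ m.primeFactorsList.length ≤ m := h1
      _ ≤ 5 * (N : ℝ) ^ 2 := hm
      _ ≤ N * (N : ℝ) ^ 2 := by nlinarith [sq_nonneg (N : ℝ)]
      _ = (N : ℝ) ^ (3 : ℝ) := by
          rw [show (3 : ℝ) = ((3 : ℕ) : ℝ) by norm_num, Real.rpow_natCast]; ring
  have h3 := (Real.rpow_le_rpow_left_iff hN1).mp h2
  linarith

/-! ### the Moebius sum -/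

theorem mu_sum_bound (m R : ℕ) (hR : m.primeFactorsList.length ≤ R) (Y : ℝ) :
    |∑ k ∈ m.divisors.filter (fun k : ℕ => (k : ℝ) ≤ Y), (ArithmeticFunction.moebius k : ℝ)|
      ≤ 2 ^ R := by
  have h1 : |∑ k ∈ m.divisors.filter (fun k : ℕ => (k : ℝ) ≤ Y), (ArithmeticFunction.moebius k : ℝ)|
      ≤ ∑ k ∈ m.divisors.filter (fun k : ℕ => (k : ℝ) ≤ Y), (if Squarefree k then (1 : ℝ) else 0) := by
    refine (Finset.abs_sum_le_sum_abs _ _).trans (Finset.sum_le_sum ?_)
    intro k _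
    split_ifs with h
    · have := ArithmeticFunction.abs_moebius_le_one (n := k)
      exact_mod_cast this
    · rw [ArithmeticFunction.moebius_eq_zero_of_not_squarefree h]; simp
  refine h1.trans ?_
  rw [← Finset.sum_filter, Finset.sum_const, nsmul_eq_mul, mul_one]
  have h2 : ((m.divisors.filter (fun k : ℕ => (k : ℝ) ≤ Y)).filter Squarefree).card
      ≤ m.primeFactors.powerset.card := by
    apply Finset.card_le_card_of_injOn Nat.primeFactors
    · intro k hk
      have hk' := mem_filter.mp hk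
      have hk2 := mem_filter.mp hk'.1
      have hk3 := Nat.mem_divisors.mp hk2.1
      exact Finset.mem_coe.mpr (Finset.mem_powerset.mpr (Nat.primeFactors_mono hk3.1 hk3.2))
    · intro j hj k hk hjk
      have hj' := (mem_filter.mp hj).2
      have hk' := (mem_filter.mp hk).2
      rw [← Nat.prod_primeFactors_of_squarefree hj', ← Nat.prod_primeFactors_of_squarefree hk', hjk]
  rw [Finset.card_powerset] at h2
  calc (((m.divisors.filter (fun k : ℕ => (k : ℝ) ≤ Y)).filter Squarefree).card : ℝ)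
      ≤ ((2 ^ m.primeFactors.card : ℕ) : ℝ) := by exact_mod_cast h2
    _ = 2 ^ m.primeFactors.card := by push_cast; rfl
    _ ≤ 2 ^ R := pow_le_pow_right₀ (by norm_num) ((FFB.card_primeFactors_le m).trans hR)

/-- the Moebius sum over the subsets of the prime factors -/
theorem mu_sum_subsets (m : ℕ) (hm : Squarefree m) (Y : ℝ) :
    ∑ k ∈ m.divisors.filter (fun k : ℕ => (k : ℝ) ≤ Y), (ArithmeticFunction.moebius k : ℝ)
      = ∑ S ∈ m.primeFactors.powerset, if ((∏ p ∈ S, p : ℕ) : ℝ) ≤ Y then (-1 : ℝ) ^ S.card else 0 := by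
  rw [← Finset.sum_filter]
  symm
  apply Finset.sum_nbij' (fun S => ∏ p ∈ S, p) (fun k => k.primeFactors)
  · intro S hS
    have h1 := mem_filter.mp hS
    exact mem_filter.mpr ⟨Nat.mem_divisors.mpr
      ⟨T1.prod_dvd m hm S (Finset.mem_powerset.mp h1.1), hm.ne_zero⟩, h1.2⟩
  · intro k hk
    have h1 := mem_filter.mp hk
    have h2 := Nat.mem_divisors.mp h1.1
    have hks := hm.squarefree_of_dvd h2.1
    refine mem_filter.mpr ⟨Finset.mem_powerset.mpr (Nat.primeFactors_mono h2.1 h2.2), ?_⟩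
    rw [Nat.prod_primeFactors_of_squarefree hks]
    exact h1.2
  · intro S hS
    have h1 := Finset.mem_powerset.mp (mem_filter.mp hS).1
    exact Nat.primeFactors_prod (fun p hp => (Nat.mem_primeFactors.mp (h1 hp)).1)
  · intro k hk
    have h2 := Nat.mem_divisors.mp (mem_filter.mp hk).1
    exact Nat.prod_primeFactors_of_squarefree (hm.squarefree_of_dvd h2.1)
  · intro S hS
    have h1 := Finset.mem_powerset.mp (mem_filter.mp hS).1
    have hsq : Squarefree (∏ p ∈ S, p) := hm.squarefree_of_dvd (T1.prod_dvd m hm S h1)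
    have h3 : (∏ p ∈ S, p).primeFactors = S :=
      Nat.primeFactors_prod (fun p hp => (Nat.mem_primeFactors.mp (h1 hp)).1)
    rw [ArithmeticFunction.moebius_apply_of_squarefree hsq]
    have h4 : ArithmeticFunction.cardFactors (∏ p ∈ S, p) = S.card := by
      rw [ArithmeticFunction.cardFactors_apply, ← Multiset.coe_card, coe_list _ hsq, h3]
      rfl
    rw [h4]
    push_cast
    rfl

/-! ### the family of types -/

/-- all types with indices in `[Q, M]` and at most `R` members -/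
noncomputable def fam (Q M R : ℕ) : Finset (Multiset ℕ) :=
  ((R • (Icc Q M).val).powerset.toFinset).filter (fun c => Multiset.card c ≤ R)

theorem mem_fam (Q M R : ℕ) (c : Multiset ℕ) :
    c ∈ fam Q M R ↔ (∀ i ∈ c, Q ≤ i ∧ i ≤ M) ∧ Multiset.card c ≤ R := by
  rw [fam, mem_filter, Multiset.mem_toFinset, Multiset.mem_powerset]
  constructor
  · rintro ⟨h1, h2⟩
    refine ⟨fun i hi => ?_, h2⟩
    have h3 := Multiset.mem_of_le h1 hi
    rw [Multiset.mem_nsmul] at h3
    exact Finset.mem_Icc.mp h3.2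
  · rintro ⟨h1, h2⟩
    refine ⟨Multiset.le_iff_count.mpr (fun i => ?_), h2⟩
    rw [Multiset.count_nsmul]
    by_cases hi : i ∈ c
    · have h3 : i ∈ (Icc Q M).val := Finset.mem_Icc.mpr (h1 i hi)
      have h4 : Multiset.count i (Icc Q M).val = 1 :=
        Multiset.count_eq_one_of_mem (Icc Q M).nodup h3
      rw [h4, mul_one]
      exact (Multiset.count_le_card i c).trans h2
    · rw [Multiset.count_eq_zero.mpr hi]
      exact Nat.zero_le _

/-- the coefficients -/
noncomputable def tt (e2 e : ℝ) (c : Multiset ℕ) : ℝ :=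
  if ∃ c₁ ≤ c, Mid e2 e c₁ then Tc e2 c / vf c else 0

theorem abs_tt_le (e2 e : ℝ) (c : Multiset ℕ) (R : ℕ) (hc : Multiset.card c ≤ R) :
    |tt e2 e c| ≤ 1 + 2 ^ R := by
  unfold tt
  split_ifs
  · rw [abs_div, abs_of_pos (lt_of_lt_of_le one_pos (vf_pos c))]
    refine (div_le_self (abs_nonneg _) (vf_pos c)).trans (abs_Tc_le e2 c R hc)
  · rw [abs_zero]; positivity

section main

variable (N Q : ℕ) (e0 e α : ℝ)

/-- the type of a rough number lies in the family -/
theorem typ_mem (hN : 10 ≤ N) (he0 : 0 < e0) (hQ : 1 ≤ Q) (m : ℕ) (hm0 : m ≠ 0)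
    (hm : (m : ℝ) ≤ 5 * (N : ℝ) ^ 2) (hr : Rough ((N : ℝ) ^ e0) m) :
    typ N (e0 / Q) m ∈ fam Q ⌊3 * Q / e0⌋₊ ⌊3 / e0⌋₊ := by
  have hN1 : (1 : ℝ) < N := by exact_mod_cast (by omega : 1 < N)
  have hN10 : (10 : ℝ) ≤ N := by exact_mod_cast hN
  have hQ0 : (0 : ℝ) < Q := by exact_mod_cast hQ
  have he2 : 0 < e0 / Q := by positivity
  rw [mem_fam]
  constructor
  · intro i hi
    rw [typ, Multiset.mem_map] at hi
    obtain ⟨p, hp, hpi⟩ := hi
    have hp' : p ∈ m.primeFactorsList := hp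
    have hpp := Nat.prime_of_mem_primeFactorsList hp'
    have hpm := Nat.dvd_of_mem_primeFactorsList hp'
    have hz := hr p hpp hpm
    have hp0 : (0 : ℝ) < p := by exact_mod_cast hpp.pos
    rw [← hpi]
    constructor
    · apply Nat.le_floor
      rw [le_div_iff₀ he2, mul_div_cancel₀ _ hQ0.ne']
      rw [Real.le_logb_iff_rpow_le hN1 hp0]
      exact hz
    · apply Nat.floor_le_floor
      rw [div_div_eq_mul_div, mul_div_right_comm, mul_div_right_comm]
      apply mul_le_mul_of_nonneg_right _ hQ0.le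
      apply div_le_div_of_nonneg_right _ he0.le
      rw [Real.logb_le_iff_le_rpow hN1 hp0]
      have hpm' : (p : ℝ) ≤ m := by exact_mod_cast Nat.le_of_dvd (Nat.pos_of_ne_zero hm0) hpm
      calc (p : ℝ) ≤ 5 * (N : ℝ) ^ 2 := hpm'.trans hm
        _ ≤ N * (N : ℝ) ^ 2 := by nlinarith [sq_nonneg (N : ℝ)]
        _ = (N : ℝ) ^ (3 : ℝ) := by
            rw [show (3 : ℝ) = ((3 : ℕ) : ℝ) by norm_num, Real.rpow_natCast]; ring
  · rw [typ, Multiset.card_map, Multiset.coe_card]
    exact length_le N e0 he0 hN m hm0 hm hr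

/-- the sum over the good types -/
theorem sum_types (hN : 10 ≤ N) (he2 : 0 < e0 / Q) (t : Multiset ℕ → ℝ) (T : Finset (Multiset ℕ))
    (m : ℕ) : ∑ c ∈ T, t c * FF N (e0 / Q) c m
      = if typ N (e0 / Q) m ∈ T then t (typ N (e0 / Q) m) * FF N (e0 / Q) (typ N (e0 / Q) m) m
        else 0 := by
  have hz : ∀ c, c ≠ typ N (e0 / Q) m → t c * FF N (e0 / Q) c m = 0 := by
    intro c hc
    by_contra h
    exact hc (typ_of_FF N _ (by omega) he2 c m (right_ne_zero_of_mul h))
  split_ifs with h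
  · exact Finset.sum_eq_single_of_mem _ h (fun c _ hc => hz c hc)
  · apply Finset.sum_eq_zero
    intro c hc
    exact hz c (fun h1 => h (h1 ▸ hc))

/-- sizes for `N` large: `N^(2/3-e) ≤ Y < N^(2/3+e)` -/
theorem YY_bounds (hN : 10 ≤ N) (he : 0 < e) (hNe : 6 ≤ (N : ℝ) ^ e) :
    (N : ℝ) ^ (2 / 3 - e) ≤ YY N ∧ YY N < (N : ℝ) ^ (2 / 3 + e) ∧ 1 < YY N ∧
      (YY N) ^ 3 ≤ (N : ℝ) ^ 2 / 2 := by
  have hN10 : (10 : ℝ) ≤ N := by exact_mod_cast hN
  have hN0 : (0 : ℝ) < N := by linarith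
  have h2 : (2 : ℝ) ^ (2 / 3 : ℝ) ≤ 2 := by
    calc (2 : ℝ) ^ (2 / 3 : ℝ) ≤ (2 : ℝ) ^ (1 : ℝ) :=
          Real.rpow_le_rpow_of_exponent_le (by norm_num) (by norm_num)
      _ = 2 := Real.rpow_one 2
  have h20 : (0 : ℝ) < (2 : ℝ) ^ (2 / 3 : ℝ) := by positivity
  have hY : YY N = (N : ℝ) ^ (2 / 3 : ℝ) / (2 : ℝ) ^ (2 / 3 : ℝ) := by
    unfold YY
    rw [Real.div_rpow hN0.le (by norm_num)]
  refine ⟨?_, ?_, ?_, ?_⟩
  · rw [hY, Real.rpow_sub hN0]
    apply div_le_div_of_nonneg_left (by positivity) h20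
    linarith
  · have h3 : YY N ≤ (N : ℝ) ^ (2 / 3 : ℝ) := by
      unfold YY
      apply Real.rpow_le_rpow (by positivity) (by linarith) (by norm_num)
    refine lt_of_le_of_lt h3 ?_
    exact Real.rpow_lt_rpow_of_exponent_lt (by linarith) (by linarith)
  · unfold YY
    apply Real.one_lt_rpow (by linarith) (by norm_num)
  · unfold YY
    rw [← Real.rpow_natCast, ← Real.rpow_mul (by positivity)]
    have : (2 / 3 : ℝ) * ((3 : ℕ) : ℝ) = ((2 : ℕ) : ℝ) := by norm_num
    rw [this, Real.rpow_natCast]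
    nlinarith [sq_nonneg (N : ℝ)]

theorem card_typ (m : ℕ) (e2 : ℝ) : Multiset.card (typ N e2 m) = m.primeFactorsList.length := by
  rw [typ, Multiset.card_map, Multiset.coe_card]

theorem prime_iff (m : ℕ) : m.Prime ↔ m.primeFactorsList.length = 1 := by
  rw [← ArithmeticFunction.cardFactors_eq_one_iff_prime, ArithmeticFunction.cardFactors_apply]

/-- the identity on a good cube -/
theorem good_identity (hN : 10 ≤ N) (he : 0 < e) (hNe : 6 ≤ (N : ℝ) ^ e) (e2 : ℝ) (he2 : 0 < e2)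
    (m : ℕ) (hm : Squarefree m) (hg : Good e2 e α (typ N e2 m)) :
    primeInd m - ∑ k ∈ m.divisors.filter (fun k : ℕ => (k : ℝ) ≤ YY N),
      (ArithmeticFunction.moebius k : ℝ) = Tc e2 (typ N e2 m) := by
  have hN1 : (1 : ℝ) < N := by exact_mod_cast (by omega : 1 < N)
  obtain ⟨hY1, hY2, hY3, _⟩ := YY_bounds N e hN he hNe
  have h1 : primeInd m = if Multiset.card (typ N e2 m) = 1 then 1 else 0 := by
    rw [primeInd, card_typ]
    by_cases hp : m.Prime
    · rw [if_pos hp, if_pos ((prime_iff m).mp hp)]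
    · rw [if_neg hp, if_neg (fun h => hp ((prime_iff m).mpr h))]
  rw [Tc, h1, mu_sum_subsets m hm]
  congr 1
  rw [typ_sq N e2 m hm, ← sum_powerset]
  apply Finset.sum_congr rfl
  intro S hS
  have hSP := Finset.mem_powerset.mp hS
  have hb := prod_bounds N e2 (by omega) he2 S
    (fun p hp => (Nat.mem_primeFactors.mp (hSP hp)).1.one_lt.le)
  have hcard : Multiset.card (S.val.map (idx N e2)) = S.card := by
    rw [Multiset.card_map]; rfl
  rw [sg, hcard]
  have hiff : ((∏ p ∈ S, p : ℕ) : ℝ) ≤ YY N ↔ e2 * ((S.val.map (idx N e2)).sum : ℝ) < 2 / 3 := by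
    rcases Finset.eq_empty_or_nonempty S with hS0 | hS0
    · subst hS0
      simp [hY3.le]
    · have hsub : S.val.map (idx N e2) ≤ typ N e2 m := by
        rw [typ_sq N e2 m hm]
        exact Multiset.map_le_map (Finset.val_le_iff.mpr hSP)
      have hne : S.val.map (idx N e2) ≠ 0 := by
        intro h0
        have := congrArg Multiset.card h0
        rw [hcard, Multiset.card_zero] at this
        exact (Finset.card_pos.mpr hS0).ne' this
      rcases hg _ hsub hne (2 / 3) (by simp [crit]) with h2 | h2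
      · have h3 : YY N < ((∏ p ∈ S, p : ℕ) : ℝ) :=
          hY2.trans (lt_of_lt_of_le (Real.rpow_lt_rpow_of_exponent_lt hN1 h2) hb.1)
        constructor
        · intro h4; linarith
        · intro h4; linarith
      · have h3 : ((∏ p ∈ S, p : ℕ) : ℝ) ≤ YY N :=
          (hb.2.trans (Real.rpow_lt_rpow_of_exponent_lt hN1 h2).le).trans hY1
        constructor
        · intro _
          have h5 : 0 ≤ e2 * (Multiset.card (S.val.map (idx N e2)) : ℝ) := by positivity
          nlinarith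
        · intro _; exact h3
  by_cases h : ((∏ p ∈ S, p : ℕ) : ℝ) ≤ YY N
  · rw [if_pos h, if_pos (hiff.mp h)]
  · rw [if_neg h, if_neg (fun h' => h (hiff.mpr h'))]

/-- no divisor in `(Y, m/Y]` if there is no subtype `Mid` -/
theorem no_mid (hN : 10 ≤ N) (he : 0 < e) (hNe : 6 ≤ (N : ℝ) ^ e) (e2 : ℝ) (he2 : 0 < e2)
    (m : ℕ) (hm : Squarefree m) (hm2 : (m : ℝ) ≤ 5 * (N : ℝ) ^ 2) (hg : Good e2 e α (typ N e2 m))
    (hmid : ¬ ∃ c₁ ≤ typ N e2 m, Mid e2 e c₁) (k : ℕ) (hk : k ∣ m) (hkY : YY N < (k : ℝ)) :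
    (m : ℝ) / YY N < k := by
  have hN1 : (1 : ℝ) < N := by exact_mod_cast (by omega : 1 < N)
  obtain ⟨hY1, hY2, hY3, _⟩ := YY_bounds N e hN he hNe
  have hY0 : 0 < YY N := by linarith
  by_contra hcon
  push Not at hcon
  rw [le_div_iff₀ hY0] at hcon
  obtain ⟨l, hl⟩ := hk
  have hml : (m : ℝ) = k * l := by exact_mod_cast hl
  have hk0 : (0 : ℝ) < k := by linarith
  have hl1 : YY N ≤ l := by
    rw [hml] at hcon
    exact le_of_mul_le_mul_left hcon hk0
  -- the smaller one
  have key : ∀ j : ℕ, j ∣ m → YY N ≤ j → (j : ℝ) ^ 2 ≤ m → False := by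
    intro j hj hjY hj2
    have hjs := hm.squarefree_of_dvd hj
    have hSP : j.primeFactors ⊆ m.primeFactors := Nat.primeFactors_mono hj hm.ne_zero
    have hb := prod_bounds N e2 (by omega) he2 j.primeFactors
      (fun p hp => (Nat.mem_primeFactors.mp hp).1.one_lt.le)
    rw [Nat.prod_primeFactors_of_squarefree hjs] at hb
    have hsub : j.primeFactors.val.map (idx N e2) ≤ typ N e2 m := by
      rw [typ_sq N e2 m hm]
      exact Multiset.map_le_map (Finset.val_le_iff.mpr hSP)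
    have hne : j.primeFactors.val.map (idx N e2) ≠ 0 := by
      intro h0
      have h1 := congrArg Multiset.card h0
      rw [Multiset.card_map, Multiset.card_zero] at h1
      have h2 : j.primeFactors = ∅ := Finset.card_eq_zero.mp h1
      have h3 : j = 1 := by
        rw [← Nat.prod_primeFactors_of_squarefree hjs, h2]; simp
      rw [h3] at hjY
      norm_num at hjY
      linarith
    have hA : 2 / 3 + e < e2 * ((j.primeFactors.val.map (idx N e2)).sum : ℝ) := by
      rcases hg _ hsub hne (2 / 3) (by simp [crit]) with h2 | h2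
      · exact h2
      · exfalso
        have h3 := lt_of_le_of_lt hb.2 (Real.rpow_lt_rpow_of_exponent_lt hN1 h2)
        linarith
    have hB : e2 * (((j.primeFactors.val.map (idx N e2)).sum : ℝ)
        + (Multiset.card (j.primeFactors.val.map (idx N e2)) : ℝ)) < 1 - e := by
      rcases hg _ hsub hne 1 (by simp [crit]) with h2 | h2
      · exfalso
        have h3 : (N : ℝ) ^ (1 + e) ≤ j :=
          (Real.rpow_lt_rpow_of_exponent_lt hN1 h2).le.trans hb.1
        rw [Real.rpow_add (by linarith), Real.rpow_one] at h3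
        have h4 : (N : ℝ) * 6 ≤ j :=
          (mul_le_mul_of_nonneg_left hNe (by linarith)).trans h3
        have h5 : ((N : ℝ) * 6) ^ 2 ≤ (j : ℝ) ^ 2 := pow_le_pow_left₀ (by linarith) h4 2
        nlinarith [sq_nonneg (N : ℝ), mul_pos (by linarith : (0:ℝ) < N) (by linarith : (0:ℝ) < N)]
      · exact h2
    exact hmid ⟨_, hsub, hA.le, hB.le⟩
  rcases le_total (k : ℝ) (l : ℝ) with h | h
  · exact key k ⟨l, hl⟩ hkY.le (by rw [hml]; nlinarith)
  · exact key l ⟨k, by rw [hl]; ring⟩ hl1 (by rw [hml]; nlinarith)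

/-- a bad type gives a divisor in a window -/
theorem bad_type (hN : 10 ≤ N) (e2 : ℝ) (he2 : 0 < e2) (R : ℕ)
    (hR : e2 * R ≤ e) (m : ℕ) (hm : Squarefree m) (hmR : m.primeFactorsList.length ≤ R)
    (hg : ¬ Good e2 e α (typ N e2 m)) : ∃ x ∈ crit α, Win N x (2 * e) m := by
  have hN1 : (1 : ℝ) < N := by exact_mod_cast (by omega : 1 < N)
  unfold Good at hg
  push Not at hg
  obtain ⟨s, hs, hs0, x, hx, h1, h2⟩ := hg
  refine ⟨x, hx, ?_⟩
  have hs' := hs
  rw [typ_sq N e2 m hm] at hs'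
  obtain ⟨S, hSP, hSs⟩ := exists_sub m.primeFactors (idx N e2) s hs'
  have hb := prod_bounds N e2 (by omega) he2 S
    (fun p hp => (Nat.mem_primeFactors.mp (hSP hp)).1.one_lt.le)
  rw [hSs] at hb
  have hcard : (Multiset.card s : ℝ) ≤ R := by
    have := Multiset.card_le_card hs
    rw [card_typ] at this
    exact_mod_cast this.trans hmR
  have hcR : e2 * (Multiset.card s : ℝ) ≤ e := (mul_le_mul_of_nonneg_left hcard he2.le).trans hR
  refine ⟨∏ p ∈ S, p, T1.prod_dvd m hm S hSP, ?_, ?_⟩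
  · refine le_trans (Real.rpow_le_rpow_of_exponent_le hN1.le ?_) hb.1
    rw [mul_add] at h2
    linarith
  · refine hb.2.trans (Real.rpow_le_rpow_of_exponent_le hN1.le ?_)
    rw [mul_add]
    linarith

end main

/-- the general bound on rough numbers -/
theorem gen_bound (N Q : ℕ) (e0 e : ℝ) (hN : 10 ≤ N) (he0 : 0 < e0) (hQ : 1 ≤ Q) (m : ℕ)
    (hm0 : m ≠ 0) (hm : (m : ℝ) ≤ 5 * (N : ℝ) ^ 2) (hr : Rough ((N : ℝ) ^ e0) m)
    (T : Finset (Multiset ℕ)) (hT : ∀ c ∈ T, Multiset.card c ≤ ⌊3 / e0⌋₊) :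
    |primeInd m - psiM N e0 m - ∑ c ∈ T, tt (e0 / Q) e c * FF N (e0 / Q) c m|
      ≤ 1 + 2 ^ ⌊3 / e0⌋₊ + (1 + 2 ^ ⌊3 / e0⌋₊) * (⌊3 / e0⌋₊).factorial := by
  have hQ0 : (0 : ℝ) < Q := by exact_mod_cast hQ
  have he2 : 0 < e0 / Q := by positivity
  have h1 : |primeInd m| ≤ 1 := by rw [primeInd]; split_ifs <;> simp
  have h2 : |psiM N e0 m| ≤ 2 ^ ⌊3 / e0⌋₊ := by
    rw [psiM, rInd, if_pos hr, one_mul]
    exact mu_sum_bound m _ (length_le N e0 he0 hN m hm0 hm hr) _
  have h3 : |∑ c ∈ T, tt (e0 / Q) e c * FF N (e0 / Q) c m|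
      ≤ (1 + 2 ^ ⌊3 / e0⌋₊) * (⌊3 / e0⌋₊).factorial := by
    rw [sum_types N Q e0 hN he2]
    split_ifs with h
    · rw [abs_mul]
      apply mul_le_mul (abs_tt_le _ _ _ _ (hT _ h)) _ (abs_nonneg _) (by positivity)
      rw [abs_of_nonneg (FFB.FF_nonneg _ _ _ _)]
      refine (FFB.FF_le N _ (by omega) _ _).trans ?_
      exact_mod_cast Nat.factorial_le (hT _ h)
    · rw [abs_zero]; positivity
  calc _ ≤ |primeInd m - psiM N e0 m| + |∑ c ∈ T, tt (e0 / Q) e c * FF N (e0 / Q) c m| := abs_sub _ _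
    _ ≤ |primeInd m| + |psiM N e0 m| + |∑ c ∈ T, tt (e0 / Q) e c * FF N (e0 / Q) c m| := by
        linarith [abs_sub (primeInd m) (psiM N e0 m)]
    _ ≤ _ := by linarith

end Pool.Agent.Lib.MP391708.QPA.T2

namespace Pool.Agent.Lib.MP391708.QPA

open Finset
open scoped Classical

theorem specT2 : SpecT2 := by
  intro e0 he0 he1
  refine ⟨1 + 2 ^ ⌊3 / e0⌋₊ + (1 + 2 ^ ⌊3 / e0⌋₊) * (⌊3 / e0⌋₊).factorial, by positivity, ?_⟩
  intro e he he'
  have hQ1 : 1 ≤ ⌈3 / e⌉₊ := Nat.one_le_ceil_iff.mpr (by positivity)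
  have hQe : 3 / e ≤ (⌈3 / e⌉₊ : ℝ) := Nat.le_ceil _
  generalize ⌈3 / e⌉₊ = Q at hQ1 hQe
  have hQ0 : (0 : ℝ) < Q := by exact_mod_cast hQ1
  have he2 : 0 < e0 / Q := by positivity
  refine ⟨Q, hQ1, T2.fam Q ⌊3 * Q / e0⌋₊ ⌊3 / e0⌋₊, T2.tt (e0 / Q) e, ?_, ?_,
    max 10 ⌈(6 : ℝ) ^ (1 / e)⌉₊, ?_⟩
  · intro c hc i hi
    exact (((T2.mem_fam _ _ _ _).mp hc).1 i hi).1
  · intro c hc
    refine (T2.abs_tt_le _ _ _ _ ((T2.mem_fam _ _ _ _).mp hc).2).trans ?_
    have : (0 : ℝ) ≤ (1 + 2 ^ ⌊3 / e0⌋₊) * ((⌊3 / e0⌋₊).factorial : ℝ) := by positivity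
    linarith
  intro N hN0 α _ _
  have hN : 10 ≤ N := le_trans (le_max_left _ _) hN0
  have hN10 : (10 : ℝ) ≤ N := by exact_mod_cast hN
  have hN1 : (1 : ℝ) < N := by linarith
  have hNe : 6 ≤ (N : ℝ) ^ e := by
    have h1 : (6 : ℝ) ^ (1 / e) ≤ N := by
      refine (Nat.le_ceil _).trans ?_
      exact_mod_cast le_trans (le_max_right _ _) hN0
    calc (6 : ℝ) = ((6 : ℝ) ^ (1 / e)) ^ e := by
          rw [← Real.rpow_mul (by norm_num), one_div_mul_cancel he.ne', Real.rpow_one]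
      _ ≤ (N : ℝ) ^ e := Real.rpow_le_rpow (by positivity) h1 he.le
  have hR3 : ((⌊3 / e0⌋₊ : ℕ) : ℝ) ≤ 3 / e0 := Nat.floor_le (by positivity)
  have hRe : e0 / Q * (⌊3 / e0⌋₊ : ℝ) ≤ e := by
    calc e0 / Q * (⌊3 / e0⌋₊ : ℝ) ≤ e0 / Q * (3 / e0) := mul_le_mul_of_nonneg_left hR3 he2.le
      _ = 3 / Q := by field_simp
      _ ≤ e := by
          rw [div_le_iff₀ hQ0]
          rw [div_le_iff₀ he] at hQe
          linarith
  refine ⟨?_, ?_⟩
  · intro m hm1 hm2
    have hm0 : m ≠ 0 := by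
      intro h
      rw [h] at hm1
      have : (0 : ℝ) < (N : ℝ) ^ 2 / 2 := by positivity
      simp only [Nat.cast_zero] at hm1
      linarith
    have hzm : (N : ℝ) ^ e0 ≤ m := by
      calc (N : ℝ) ^ e0 ≤ (N : ℝ) ^ (1 : ℝ) := Real.rpow_le_rpow_of_exponent_le hN1.le (by linarith)
        _ = N := Real.rpow_one _
        _ ≤ (N : ℝ) ^ 2 / 2 := by nlinarith
        _ ≤ m := hm1
    have hRHS : ∀ x ∈ crit α, (0 : ℝ) ≤
        (if Rough ((N : ℝ) ^ e0) m ∧ Win N x (2 * e) m then (1 : ℝ) else 0) := by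
      intro x _; split_ifs <;> norm_num
    have hRHS2 : (0 : ℝ) ≤ ∑ x ∈ crit α,
        (if Rough ((N : ℝ) ^ e0) m ∧ Win N x (2 * e) m then (1 : ℝ) else 0) :=
      Finset.sum_nonneg hRHS
    have hRHS3 : (0 : ℝ) ≤ (if Rough ((N : ℝ) ^ e0) m ∧ NSq ((N : ℝ) ^ e0) m then (1 : ℝ) else 0) := by
      split_ifs <;> norm_num
    by_cases hr : Rough ((N : ℝ) ^ e0) m
    · have hlen := T2.length_le N e0 he0 hN m hm0 hm2 hr
      have hgen := T2.gen_bound N Q e0 e hN he0 hQ1 m hm0 hm2 hr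
        ((T2.fam Q ⌊3 * Q / e0⌋₊ ⌊3 / e0⌋₊).filter (fun c => Good (e0 / Q) e α c))
        (fun c hc => ((T2.mem_fam _ _ _ _).mp (mem_filter.mp hc).1).2)
      by_cases hsq : Squarefree m
      · by_cases hg : Good (e0 / Q) e α (T2.typ N (e0 / Q) m)
        · -- good type
          have hid := T2.good_identity N e α hN he hNe (e0 / Q) he2 m hsq hg
          have hmem : T2.typ N (e0 / Q) m ∈
              (T2.fam Q ⌊3 * Q / e0⌋₊ ⌊3 / e0⌋₊).filter (fun c => Good (e0 / Q) e α c) :=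
            mem_filter.mpr ⟨T2.typ_mem N Q e0 hN he0 hQ1 m hm0 hm2 hr, hg⟩
          have hpsi : psiM N e0 m = ∑ k ∈ m.divisors.filter (fun k : ℕ => (k : ℝ) ≤ YY N),
              (ArithmeticFunction.moebius k : ℝ) := by
            rw [psiM, rInd, if_pos hr, one_mul]
          have hzero : primeInd m - psiM N e0 m
              - ∑ c ∈ (T2.fam Q ⌊3 * Q / e0⌋₊ ⌊3 / e0⌋₊).filter (fun c => Good (e0 / Q) e α c),
                T2.tt (e0 / Q) e c * FF N (e0 / Q) c m = 0 := by
            rw [T2.sum_types N Q e0 hN he2, if_pos hmem, hpsi, hid,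
              T2.FF_typ N _ (by omega) he2 _ m hsq rfl, T2.tt]
            split_ifs with hmid
            · rw [div_mul_cancel₀ _ (lt_of_lt_of_le one_pos (T2.vf_pos _)).ne', sub_self]
            · rw [zero_mul, sub_zero, ← hid]
              obtain ⟨_, _, hY3, hY4⟩ := T2.YY_bounds N e hN he hNe
              have hm2' : 2 ≤ m := by
                have : (2 : ℝ) ≤ m := by nlinarith
                exact_mod_cast this
              rw [T1.T1core m (YY N) hsq hm2' hY3.le (hY4.trans hm1)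
                (fun k hk hkY => T2.no_mid N e α hN he hNe (e0 / Q) he2 m hsq hm2 hg hmid k hk hkY),
                sub_self]
          rw [hzero, abs_zero]
          exact mul_nonneg (by positivity) (by linarith)
        · -- bad type
          obtain ⟨x, hx, hW⟩ := T2.bad_type N e α hN (e0 / Q) he2 _ hRe m hsq hlen hg
          refine hgen.trans (le_mul_of_one_le_right (by positivity) ?_)
          have h1 := Finset.single_le_sum hRHS hx
          rw [if_pos ⟨hr, hW⟩] at h1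
          linarith
      · -- not squarefree
        have hns : NSq ((N : ℝ) ^ e0) m := by
          rw [Nat.squarefree_iff_prime_squarefree] at hsq
          push Not at hsq
          obtain ⟨p, hp, hpm⟩ := hsq
          exact ⟨p, hp, hr p hp ((Dvd.intro _ rfl).trans hpm), by rw [pow_two]; exact hpm⟩
        refine hgen.trans (le_mul_of_one_le_right (by positivity) ?_)
        rw [if_pos ⟨hr, hns⟩]
        linarith
    · -- not rough
      have h1 : primeInd m = 0 := by
        rw [primeInd, if_neg]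
        intro hp
        apply hr
        intro p hpp hpm
        rw [(Nat.prime_dvd_prime_iff_eq hpp hp).mp hpm]
        exact hzm
      have h2 : psiM N e0 m = 0 := by rw [psiM, rInd, if_neg hr, zero_mul]
      have h3 : ∑ c ∈ (T2.fam Q ⌊3 * Q / e0⌋₊ ⌊3 / e0⌋₊).filter (fun c => Good (e0 / Q) e α c),
          T2.tt (e0 / Q) e c * FF N (e0 / Q) c m = 0 := by
        apply Finset.sum_eq_zero
        intro c hc
        by_contra hne
        have h4 := right_ne_zero_of_mul hne
        have h5 := (FFB.FF_support N (e0 / Q) (by omega) c m h4).2.2.2.2 he2 Q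
          (fun i hi => (((T2.mem_fam _ _ _ _).mp (mem_filter.mp hc).1).1 i hi).1)
        rw [div_mul_cancel₀ _ hQ0.ne'] at h5
        exact hr h5
      rw [h1, h2, h3, sub_zero, sub_zero, abs_zero]
      exact mul_nonneg (by positivity) (by linarith)
  · intro c _ _ hc
    by_contra hno
    apply hc
    rw [T2.tt, if_neg]
    rintro ⟨c₁, h1, h2⟩
    exact hno ⟨c₁, h1, h2⟩

end Pool.Agent.Lib.MP391708.QPA
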