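import Pool.Agent.Lib.MP_391708_nt.QPA.T2
import Pool.Agent.Lib.MP_391708_nt.QPA.T1K

/-!
# QPA module T2K: the combinatorial identity on cubes, level `(N/2)^κ`

Adapted from the module T2 of helper21.
-/

set_option autoImplicit false

namespace Pool.Agent.Lib.MP391708.QPA.T2K

open Finset
open scoped Classical
open T2

/-- the signed indicator of the small subtypes -/
noncomputable def sg (κ e2 : ℝ) (s : Multiset ℕ) : ℝ :=
  if e2 * (s.sum : ℝ) < κ then (-1 : ℝ) ^ Multiset.card s else 0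

/-- the value of `T` on a cube -/
noncomputable def Tc (κ e2 : ℝ) (c : Multiset ℕ) : ℝ :=
  (if Multiset.card c = 1 then 1 else 0) - (c.powerset.map (sg κ e2)).sum

theorem abs_Tc_le (κ e2 : ℝ) (c : Multiset ℕ) (R : ℕ) (hc : Multiset.card c ≤ R) :
    |Tc κ e2 c| ≤ 1 + 2 ^ R := by
  unfold Tc
  have h1 := abs_sum_map_le c.powerset (sg κ e2) (fun x => by unfold sg; split_ifs <;> simp)
  rw [Multiset.card_powerset] at h1
  have h2 : ((2 ^ Multiset.card c : ℕ) : ℝ) ≤ 2 ^ R := by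
    push_cast
    exact pow_le_pow_right₀ (by norm_num) hc
  have h3 : |(if Multiset.card c = 1 then (1 : ℝ) else 0)| ≤ 1 := by split_ifs <;> simp
  calc _ ≤ |(if Multiset.card c = 1 then (1 : ℝ) else 0)| + |(c.powerset.map (sg κ e2)).sum| :=
        abs_sub _ _
    _ ≤ _ := by linarith

/-- the coefficients -/
noncomputable def tt (κ e2 e : ℝ) (c : Multiset ℕ) : ℝ :=
  if ∃ c₁ ≤ c, MidK κ e2 e c₁ then Tc κ e2 c / vf c else 0

theorem abs_tt_le (κ e2 e : ℝ) (c : Multiset ℕ) (R : ℕ) (hc : Multiset.card c ≤ R) :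
    |tt κ e2 e c| ≤ 1 + 2 ^ R := by
  unfold tt
  split_ifs
  · rw [abs_div, abs_of_pos (lt_of_lt_of_le one_pos (vf_pos c))]
    refine (div_le_self (abs_nonneg _) (vf_pos c)).trans (abs_Tc_le κ e2 c R hc)
  · rw [abs_zero]; positivity

section main

variable (N Q : ℕ) (κ e0 e α : ℝ)

/-- sizes for `N` large: `N^(κ-e) ≤ Y < N^(κ+e)` -/
theorem YK_bounds (hN : 10 ≤ N) (hκ : 2 / 3 ≤ κ) (hκ' : κ ≤ 4 / 5) (he : 0 < e)
    (hNe : 6 ≤ (N : ℝ) ^ e) :
    (N : ℝ) ^ (κ - e) ≤ YK N κ ∧ YK N κ < (N : ℝ) ^ (κ + e) ∧ 1 < YK N κ ∧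
      (YK N κ) ^ (5 / 2 : ℝ) < (N : ℝ) ^ 2 / 2 := by
  have hN10 : (10 : ℝ) ≤ N := by exact_mod_cast hN
  have hN0 : (0 : ℝ) < N := by linarith
  have h2 : (2 : ℝ) ^ κ ≤ 2 := by
    calc (2 : ℝ) ^ κ ≤ (2 : ℝ) ^ (1 : ℝ) :=
          Real.rpow_le_rpow_of_exponent_le (by norm_num) (by linarith)
      _ = 2 := Real.rpow_one 2
  have h20 : (0 : ℝ) < (2 : ℝ) ^ κ := by positivity
  have hY : YK N κ = (N : ℝ) ^ κ / (2 : ℝ) ^ κ := by
    unfold YK
    rw [Real.div_rpow hN0.le (by norm_num)]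
  refine ⟨?_, ?_, ?_, ?_⟩
  · rw [hY, Real.rpow_sub hN0]
    apply div_le_div_of_nonneg_left (by positivity) h20
    linarith
  · have h3 : YK N κ ≤ (N : ℝ) ^ κ := by
      unfold YK
      apply Real.rpow_le_rpow (by positivity) (by linarith) (by linarith)
    refine lt_of_le_of_lt h3 ?_
    exact Real.rpow_lt_rpow_of_exponent_lt (by linarith) (by linarith)
  · unfold YK
    apply Real.one_lt_rpow (by linarith) (by linarith)
  · unfold YK
    rw [← Real.rpow_mul (by positivity)]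
    calc ((N : ℝ) / 2) ^ (κ * (5 / 2)) ≤ ((N : ℝ) / 2) ^ (2 : ℝ) :=
          Real.rpow_le_rpow_of_exponent_le (by linarith) (by linarith)
      _ = ((N : ℝ) / 2) ^ 2 := by
          rw [show (2 : ℝ) = ((2 : ℕ) : ℝ) by norm_num, Real.rpow_natCast]
      _ < (N : ℝ) ^ 2 / 2 := by nlinarith [sq_nonneg (N : ℝ)]

/-- the identity on a good cube -/
theorem good_identity (hN : 10 ≤ N) (hκ : 2 / 3 ≤ κ) (hκ' : κ ≤ 4 / 5) (he : 0 < e) (hNe : 6 ≤ (N : ℝ) ^ e) (e2 : ℝ) (he2 : 0 < e2)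
    (m : ℕ) (hm : Squarefree m) (hg : GoodK κ e2 e α (typ N e2 m)) :
    primeInd m - ∑ k ∈ m.divisors.filter (fun k : ℕ => (k : ℝ) ≤ YK N κ),
      (ArithmeticFunction.moebius k : ℝ) = Tc κ e2 (typ N e2 m) := by
  have hN1 : (1 : ℝ) < N := by exact_mod_cast (by omega : 1 < N)
  obtain ⟨hY1, hY2, hY3, _⟩ := YK_bounds N κ e hN hκ hκ' he hNe
  have h1 : primeInd m = if Multiset.card (typ N e2 m) = 1 then 1 else 0 := by
    rw [primeInd, card_typ]
    by_cases hp : m.Prime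
    · rw [if_pos hp, if_pos ((prime_iff m).mp hp)]
    · rw [if_neg hp, if_neg (fun h => hp ((prime_iff m).mpr h))]
  rw [Tc, h1, mu_sum_subsets m hm]
  congr 1
  rw [typ_sq N e2 m hm, ← sum_powerset]
  apply Finset.sum_congr rfl
  intro S hS
  have hSP := Finset.mem_powerset.mp hS
  have hb := prod_bounds N e2 (by omega) he2 S
    (fun p hp => (Nat.mem_primeFactors.mp (hSP hp)).1.one_lt.le)
  have hcard : Multiset.card (S.val.map (idx N e2)) = S.card := by
    rw [Multiset.card_map]; rfl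
  rw [sg, hcard]
  have hiff : ((∏ p ∈ S, p : ℕ) : ℝ) ≤ YK N κ ↔ e2 * ((S.val.map (idx N e2)).sum : ℝ) < κ := by
    rcases Finset.eq_empty_or_nonempty S with hS0 | hS0
    · subst hS0
      simp [hY3.le, lt_of_lt_of_le (show (0:ℝ) < 2 / 3 by norm_num) hκ]
    · have hsub : S.val.map (idx N e2) ≤ typ N e2 m := by
        rw [typ_sq N e2 m hm]
        exact Multiset.map_le_map (Finset.val_le_iff.mpr hSP)
      have hne : S.val.map (idx N e2) ≠ 0 := by
        intro h0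
        have := congrArg Multiset.card h0
        rw [hcard, Multiset.card_zero] at this
        exact (Finset.card_pos.mpr hS0).ne' this
      rcases hg _ hsub hne κ (by simp [critK]) with h2 | h2
      · have h3 : YK N κ < ((∏ p ∈ S, p : ℕ) : ℝ) :=
          hY2.trans (lt_of_lt_of_le (Real.rpow_lt_rpow_of_exponent_lt hN1 h2) hb.1)
        constructor
        · intro h4; linarith
        · intro h4; linarith
      · have h3 : ((∏ p ∈ S, p : ℕ) : ℝ) ≤ YK N κ :=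
          (hb.2.trans (Real.rpow_lt_rpow_of_exponent_lt hN1 h2).le).trans hY1
        constructor
        · intro _
          have h5 : 0 ≤ e2 * (Multiset.card (S.val.map (idx N e2)) : ℝ) := by positivity
          nlinarith
        · intro _; exact h3
  by_cases h : ((∏ p ∈ S, p : ℕ) : ℝ) ≤ YK N κ
  · rw [if_pos h, if_pos (hiff.mp h)]
  · rw [if_neg h, if_neg (fun h' => h (hiff.mpr h'))]

/-- no divisor in `(Y, m/Y]` if there is no subtype `Mid` -/
theorem no_mid (hN : 10 ≤ N) (hκ : 2 / 3 ≤ κ) (hκ' : κ ≤ 4 / 5) (he : 0 < e) (hNe : 6 ≤ (N : ℝ) ^ e) (e2 : ℝ) (he2 : 0 < e2)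
    (m : ℕ) (hm : Squarefree m) (hm2 : (m : ℝ) ≤ 5 * (N : ℝ) ^ 2) (hg : GoodK κ e2 e α (typ N e2 m))
    (hmid : ¬ ∃ c₁ ≤ typ N e2 m, MidK κ e2 e c₁) (k : ℕ) (hk : k ∣ m) (hkY : YK N κ < (k : ℝ)) :
    (m : ℝ) / YK N κ < k := by
  have hN1 : (1 : ℝ) < N := by exact_mod_cast (by omega : 1 < N)
  obtain ⟨hY1, hY2, hY3, _⟩ := YK_bounds N κ e hN hκ hκ' he hNe
  have hY0 : 0 < YK N κ := by linarith
  by_contra hcon
  push Not at hcon
  rw [le_div_iff₀ hY0] at hcon
  obtain ⟨l, hl⟩ := hk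
  have hml : (m : ℝ) = k * l := by exact_mod_cast hl
  have hk0 : (0 : ℝ) < k := by linarith
  have hl1 : YK N κ ≤ l := by
    rw [hml] at hcon
    exact le_of_mul_le_mul_left hcon hk0
  -- the smaller one
  have key : ∀ j : ℕ, j ∣ m → YK N κ ≤ j → (j : ℝ) ^ 2 ≤ m → False := by
    intro j hj hjY hj2
    have hjs := hm.squarefree_of_dvd hj
    have hSP : j.primeFactors ⊆ m.primeFactors := Nat.primeFactors_mono hj hm.ne_zero
    have hb := prod_bounds N e2 (by omega) he2 j.primeFactors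
      (fun p hp => (Nat.mem_primeFactors.mp hp).1.one_lt.le)
    rw [Nat.prod_primeFactors_of_squarefree hjs] at hb
    have hsub : j.primeFactors.val.map (idx N e2) ≤ typ N e2 m := by
      rw [typ_sq N e2 m hm]
      exact Multiset.map_le_map (Finset.val_le_iff.mpr hSP)
    have hne : j.primeFactors.val.map (idx N e2) ≠ 0 := by
      intro h0
      have h1 := congrArg Multiset.card h0
      rw [Multiset.card_map, Multiset.card_zero] at h1
      have h2 : j.primeFactors = ∅ := Finset.card_eq_zero.mp h1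
      have h3 : j = 1 := by
        rw [← Nat.prod_primeFactors_of_squarefree hjs, h2]; simp
      rw [h3] at hjY
      norm_num at hjY
      linarith
    have hA : κ + e < e2 * ((j.primeFactors.val.map (idx N e2)).sum : ℝ) := by
      rcases hg _ hsub hne κ (by simp [critK]) with h2 | h2
      · exact h2
      · exfalso
        have h3 := lt_of_le_of_lt hb.2 (Real.rpow_lt_rpow_of_exponent_lt hN1 h2)
        linarith
    have hB : e2 * (((j.primeFactors.val.map (idx N e2)).sum : ℝ)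
        + (Multiset.card (j.primeFactors.val.map (idx N e2)) : ℝ)) < 1 - e := by
      rcases hg _ hsub hne 1 (by simp [critK]) with h2 | h2
      · exfalso
        have h3 : (N : ℝ) ^ (1 + e) ≤ j :=
          (Real.rpow_lt_rpow_of_exponent_lt hN1 h2).le.trans hb.1
        rw [Real.rpow_add (by linarith), Real.rpow_one] at h3
        have h4 : (N : ℝ) * 6 ≤ j :=
          (mul_le_mul_of_nonneg_left hNe (by linarith)).trans h3
        have h5 : ((N : ℝ) * 6) ^ 2 ≤ (j : ℝ) ^ 2 := pow_le_pow_left₀ (by linarith) h4 2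
        nlinarith [sq_nonneg (N : ℝ), mul_pos (by linarith : (0:ℝ) < N) (by linarith : (0:ℝ) < N)]
      · exact h2
    exact hmid ⟨_, hsub, hA.le, hB.le⟩
  rcases le_total (k : ℝ) (l : ℝ) with h | h
  · exact key k ⟨l, hl⟩ hkY.le (by rw [hml]; nlinarith)
  · exact key l ⟨k, by rw [hl]; ring⟩ hl1 (by rw [hml]; nlinarith)

/-- a bad type gives a divisor in a window -/
theorem bad_type (hN : 10 ≤ N) (e2 : ℝ) (he2 : 0 < e2) (R : ℕ)
    (hR : e2 * R ≤ e) (m : ℕ) (hm : Squarefree m) (hmR : m.primeFactorsList.length ≤ R)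
    (hg : ¬ GoodK κ e2 e α (typ N e2 m)) : ∃ x ∈ critK κ α, Win N x (2 * e) m := by
  have hN1 : (1 : ℝ) < N := by exact_mod_cast (by omega : 1 < N)
  unfold GoodK at hg
  push Not at hg
  obtain ⟨s, hs, hs0, x, hx, h1, h2⟩ := hg
  refine ⟨x, hx, ?_⟩
  have hs' := hs
  rw [typ_sq N e2 m hm] at hs'
  obtain ⟨S, hSP, hSs⟩ := exists_sub m.primeFactors (idx N e2) s hs'
  have hb := prod_bounds N e2 (by omega) he2 S
    (fun p hp => (Nat.mem_primeFactors.mp (hSP hp)).1.one_lt.le)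
  rw [hSs] at hb
  have hcard : (Multiset.card s : ℝ) ≤ R := by
    have := Multiset.card_le_card hs
    rw [card_typ] at this
    exact_mod_cast this.trans hmR
  have hcR : e2 * (Multiset.card s : ℝ) ≤ e := (mul_le_mul_of_nonneg_left hcard he2.le).trans hR
  refine ⟨∏ p ∈ S, p, T1.prod_dvd m hm S hSP, ?_, ?_⟩
  · refine le_trans (Real.rpow_le_rpow_of_exponent_le hN1.le ?_) hb.1
    rw [mul_add] at h2
    linarith
  · refine hb.2.trans (Real.rpow_le_rpow_of_exponent_le hN1.le ?_)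
    rw [mul_add]
    linarith

end main

/-- the general bound on rough numbers -/
theorem gen_bound (N Q : ℕ) (κ e0 e : ℝ) (hN : 10 ≤ N) (he0 : 0 < e0) (hQ : 1 ≤ Q) (m : ℕ)
    (hm0 : m ≠ 0) (hm : (m : ℝ) ≤ 5 * (N : ℝ) ^ 2) (hr : Rough ((N : ℝ) ^ e0) m)
    (T : Finset (Multiset ℕ)) (hT : ∀ c ∈ T, Multiset.card c ≤ ⌊3 / e0⌋₊) :
    |primeInd m - 2 * p3Ind (YK N κ) m - psiK N e0 κ m
        - ∑ c ∈ T, tt κ (e0 / Q) e c * FF N (e0 / Q) c m|
      ≤ 3 + 2 ^ ⌊3 / e0⌋₊ + (1 + 2 ^ ⌊3 / e0⌋₊) * (⌊3 / e0⌋₊).factorial := by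
  have hQ0 : (0 : ℝ) < Q := by exact_mod_cast hQ
  have he2 : 0 < e0 / Q := by positivity
  have h1 : |primeInd m| ≤ 1 := by rw [primeInd]; split_ifs <;> simp
  have h1' : |p3Ind (YK N κ) m| ≤ 1 := by rw [p3Ind]; split_ifs <;> simp
  have h2 : |psiK N e0 κ m| ≤ 2 ^ ⌊3 / e0⌋₊ := by
    rw [psiK, rInd, if_pos hr, one_mul]
    exact mu_sum_bound m _ (length_le N e0 he0 hN m hm0 hm hr) _
  have h3 : |∑ c ∈ T, tt κ (e0 / Q) e c * FF N (e0 / Q) c m|
      ≤ (1 + 2 ^ ⌊3 / e0⌋₊) * (⌊3 / e0⌋₊).factorial := by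
    rw [sum_types N Q e0 hN he2]
    split_ifs with h
    · rw [abs_mul]
      apply mul_le_mul (abs_tt_le _ _ _ _ _ (hT _ h)) _ (abs_nonneg _) (by positivity)
      rw [abs_of_nonneg (FFB.FF_nonneg _ _ _ _)]
      refine (FFB.FF_le N _ (by omega) _ _).trans ?_
      exact_mod_cast Nat.factorial_le (hT _ h)
    · rw [abs_zero]; positivity
  rw [abs_le] at *
  constructor <;> linarith [h1.1, h1.2, h1'.1, h1'.2, h2.1, h2.2, h3.1, h3.2]

/-- a squarefree number with a divisor in `(Y, m/Y)` is not a product of three primes `≤ Y` -/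
theorem p3_zero (m : ℕ) (Y : ℝ) (hm : Squarefree m) (hY : 1 < Y) (d : ℕ) (hd : d ∣ m)
    (h1 : Y < d) (h2 : Y < ((m / d : ℕ) : ℝ)) : p3Ind Y m = 0 := by
  unfold p3Ind
  rw [if_neg]
  rintro ⟨_, h3, h4⟩
  have hm0 := hm.ne_zero
  have two : ∀ x : ℕ, x ∣ m → Y < (x : ℝ) → 2 ≤ x.primeFactors.card := by
    intro x hx hxY
    have hxs := hm.squarefree_of_dvd hx
    by_contra hc
    push Not at hc
    have h5 : x.primeFactors.card = 0 ∨ x.primeFactors.card = 1 := by omega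
    rcases h5 with h5 | h5
    · have h6 : x = 1 := by
        rw [← Nat.prod_primeFactors_of_squarefree hxs, Finset.card_eq_zero.mp h5]; simp
      rw [h6] at hxY
      norm_num at hxY
      linarith
    · obtain ⟨p, hp⟩ := Finset.card_eq_one.mp h5
      have h6 : x = p := by
        rw [← Nat.prod_primeFactors_of_squarefree hxs, hp]; simp
      have h7 : p ∈ x.primeFactors := by rw [hp]; exact Finset.mem_singleton_self p
      have h8 := h4 p (Nat.primeFactors_mono hx hm0 h7)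
      rw [h6] at hxY
      linarith
  have hmd : m / d ∣ m := Nat.div_dvd_of_dvd hd
  have hprod : d * (m / d) = m := Nat.mul_div_cancel' hd
  have hcop : Nat.Coprime d (m / d) := by
    have h5 : Squarefree (d * (m / d)) := by rw [hprod]; exact hm
    exact Nat.coprime_of_squarefree_mul h5
  have h5 : m.primeFactors.card = d.primeFactors.card + (m / d).primeFactors.card := by
    conv_lhs => rw [← hprod]
    rw [hcop.primeFactors_mul, Finset.card_union_of_disjoint hcop.disjoint_primeFactors]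
  have h6 := two d hd h1
  have h7 := two (m / d) hmd h2
  omega

/-- a product of three primes `≤ Y` of size `N²` is rough -/
theorem p3_rough (N : ℕ) (κ e0 : ℝ) (hN : 10 ≤ N) (hκ : 2 / 3 ≤ κ) (hκ' : κ ≤ 4 / 5)
    (he1 : e0 ≤ 1 / 10) (m : ℕ) (hm1 : (N : ℝ) ^ 2 / 2 ≤ m) (hm : Squarefree m)
    (h3 : m.primeFactors.card = 3) (h4 : ∀ p ∈ m.primeFactors, (p : ℝ) ≤ YK N κ) :
    Rough ((N : ℝ) ^ e0) m := by
  have hN10 : (10 : ℝ) ≤ N := by exact_mod_cast hN
  have hN1 : (1 : ℝ) < N := by linarith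
  have hN0 : (0 : ℝ) < N := by linarith
  intro p hp hpm
  have hpmem : p ∈ m.primeFactors := Nat.mem_primeFactors.2 ⟨hp, hpm, hm.ne_zero⟩
  have hcard : (m.primeFactors.erase p).card = 2 := by
    rw [card_erase_of_mem hpmem, h3]
  obtain ⟨a, b, hab, hEq⟩ := card_eq_two.1 hcard
  have hprod : m = p * (a * b) := by
    have h6 := Nat.prod_primeFactors_of_squarefree hm
    rw [← mul_prod_erase _ _ hpmem, hEq, prod_pair hab] at h6
    exact h6.symm
  have ha := h4 a (mem_of_mem_erase (hEq ▸ mem_insert_self a _))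
  have hb := h4 b (mem_of_mem_erase (hEq ▸ mem_insert_of_mem (mem_singleton_self b)))
  have hm' : (m : ℝ) = p * (a * b) := by exact_mod_cast hprod
  have hx5 : (5 : ℝ) ≤ (N : ℝ) / 2 := by linarith
  have hx1 : (1 : ℝ) ≤ (N : ℝ) / 2 := by linarith
  have hx0 : (0 : ℝ) < (N : ℝ) / 2 := by linarith
  have hY0 : 0 ≤ YK N κ := by unfold YK; positivity
  have hp0 : (0 : ℝ) < p := by exact_mod_cast hp.pos
  have hY : YK N κ * YK N κ ≤ ((N : ℝ) / 2) ^ (8 / 5 : ℝ) := by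
    unfold YK
    rw [← Real.rpow_add hx0]
    exact Real.rpow_le_rpow_of_exponent_le hx1 (by linarith)
  have hab2 : (a : ℝ) * b ≤ ((N : ℝ) / 2) ^ (8 / 5 : ℝ) :=
    (mul_le_mul ha hb (Nat.cast_nonneg b) hY0).trans hY
  have hsplit : (N : ℝ) ^ 2 / 2 = ((N : ℝ) / 2) ^ (8 / 5 : ℝ) * (2 * ((N : ℝ) / 2) ^ (2 / 5 : ℝ)) := by
    have h5 : ((N : ℝ) / 2) ^ (8 / 5 : ℝ) * ((N : ℝ) / 2) ^ (2 / 5 : ℝ) = ((N : ℝ) / 2) ^ 2 := by
      rw [← Real.rpow_add hx0, ← Real.rpow_natCast]; norm_num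
    calc (N : ℝ) ^ 2 / 2 = 2 * ((N : ℝ) / 2) ^ 2 := by ring
      _ = _ := by rw [← h5]; ring
  have h8 : 0 < ((N : ℝ) / 2) ^ (8 / 5 : ℝ) := by positivity
  have hpl : 2 * ((N : ℝ) / 2) ^ (2 / 5 : ℝ) ≤ p := by
    have h9 : ((N : ℝ) / 2) ^ (8 / 5 : ℝ) * (2 * ((N : ℝ) / 2) ^ (2 / 5 : ℝ))
        ≤ ((N : ℝ) / 2) ^ (8 / 5 : ℝ) * p := by
      rw [← hsplit]
      refine hm1.trans ?_
      rw [hm', mul_comm (((N : ℝ) / 2) ^ (8 / 5 : ℝ))]
      exact mul_le_mul_of_nonneg_left hab2 hp0.le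
    exact le_of_mul_le_mul_left h9 h8
  refine le_trans ?_ hpl
  calc (N : ℝ) ^ e0 ≤ (N : ℝ) ^ (1 / 10 : ℝ) := Real.rpow_le_rpow_of_exponent_le hN1.le he1
    _ = (2 * ((N : ℝ) / 2)) ^ (1 / 10 : ℝ) := by congr 1; ring
    _ = (2 : ℝ) ^ (1 / 10 : ℝ) * ((N : ℝ) / 2) ^ (1 / 10 : ℝ) := Real.mul_rpow (by norm_num) hx0.le
    _ ≤ 2 * ((N : ℝ) / 2) ^ (2 / 5 : ℝ) := by
        apply mul_le_mul _ _ (by positivity) (by norm_num)
        · calc (2 : ℝ) ^ (1 / 10 : ℝ) ≤ (2 : ℝ) ^ (1 : ℝ) :=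
                Real.rpow_le_rpow_of_exponent_le (by norm_num) (by norm_num)
            _ = 2 := Real.rpow_one 2
        · exact Real.rpow_le_rpow_of_exponent_le hx1 (by norm_num)

/-- a good cube with a subtype `MidK` contains no product of three primes `≤ Y` -/
theorem p3_mid (N : ℕ) (κ e : ℝ) (hN : 10 ≤ N) (hκ : 2 / 3 ≤ κ) (hκ' : κ ≤ 4 / 5) (he : 0 < e)
    (hNe : 6 ≤ (N : ℝ) ^ e) (e2 : ℝ) (he2 : 0 < e2) (m : ℕ) (hm : Squarefree m)
    (hm1 : (N : ℝ) ^ 2 / 2 ≤ m) (hmid : ∃ c₁ ≤ typ N e2 m, MidK κ e2 e c₁) :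
    p3Ind (YK N κ) m = 0 := by
  have hN10 : (10 : ℝ) ≤ N := by exact_mod_cast hN
  have hN1 : (1 : ℝ) < N := by linarith
  have hN0 : (0 : ℝ) < N := by linarith
  obtain ⟨hY1, hY2, hY3, _⟩ := YK_bounds N κ e hN hκ hκ' he hNe
  obtain ⟨c₁, hc, hmi⟩ := hmid
  rw [typ_sq N e2 m hm] at hc
  obtain ⟨S, hSP, hSs⟩ := exists_sub m.primeFactors (idx N e2) c₁ hc
  have hb := prod_bounds N e2 (by omega) he2 S
    (fun p hp => (Nat.mem_primeFactors.mp (hSP hp)).1.one_lt.le)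
  rw [hSs] at hb
  have hd := T1.prod_dvd m hm S hSP
  set d : ℕ := ∏ p ∈ S, p with hdd
  have hlow : YK N κ < d :=
    hY2.trans_le ((Real.rpow_le_rpow_of_exponent_le hN1.le hmi.1).trans hb.1)
  have hup : (d : ℝ) ≤ (N : ℝ) ^ (1 - e) := hb.2.trans (Real.rpow_le_rpow_of_exponent_le hN1.le hmi.2)
  refine p3_zero m _ hm hY3 d hd hlow ?_
  obtain ⟨l, hl⟩ := hd
  have hd0 : 0 < d := Nat.pos_of_ne_zero (fun h0 => hm.ne_zero (by rw [hl, h0, zero_mul]))
  rw [hl, Nat.mul_div_cancel_left l hd0]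
  have hml : (m : ℝ) = d * l := by exact_mod_cast hl
  have hYN : YK N κ ≤ N := by
    unfold YK
    calc ((N : ℝ) / 2) ^ κ ≤ ((N : ℝ) / 2) ^ (1 : ℝ) :=
          Real.rpow_le_rpow_of_exponent_le (by linarith) (by linarith)
      _ ≤ N := by rw [Real.rpow_one]; linarith
  have h6 : (N : ℝ) ^ (1 - e) * 6 ≤ N := by
    calc (N : ℝ) ^ (1 - e) * 6 ≤ (N : ℝ) ^ (1 - e) * (N : ℝ) ^ e := by gcongr
      _ = N := by rw [← Real.rpow_add hN0]; norm_num
  by_contra hcon
  push Not at hcon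
  have hl0 : (0 : ℝ) ≤ l := Nat.cast_nonneg l
  have h7 : (m : ℝ) ≤ (N : ℝ) ^ (1 - e) * N := by
    rw [hml]
    exact mul_le_mul hup (hcon.trans hYN) hl0 (by positivity)
  nlinarith

end Pool.Agent.Lib.MP391708.QPA.T2K

namespace Pool.Agent.Lib.MP391708.QPA

open Finset
open scoped Classical

theorem specT2K : SpecT2K := by
  intro κ e0 hκ hκ' he0 he1
  refine ⟨3 + 2 ^ ⌊3 / e0⌋₊ + (1 + 2 ^ ⌊3 / e0⌋₊) * (⌊3 / e0⌋₊).factorial, by positivity, ?_⟩
  intro e he he'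
  have hQ1 : 1 ≤ ⌈3 / e⌉₊ := Nat.one_le_ceil_iff.mpr (by positivity)
  have hQe : 3 / e ≤ (⌈3 / e⌉₊ : ℝ) := Nat.le_ceil _
  generalize ⌈3 / e⌉₊ = Q at hQ1 hQe
  have hQ0 : (0 : ℝ) < Q := by exact_mod_cast hQ1
  have he2 : 0 < e0 / Q := by positivity
  refine ⟨Q, hQ1, T2.fam Q ⌊3 * Q / e0⌋₊ ⌊3 / e0⌋₊, T2K.tt κ (e0 / Q) e, ?_, ?_,
    max 10 ⌈(6 : ℝ) ^ (1 / e)⌉₊, ?_⟩
  · intro c hc i hi
    exact (((T2.mem_fam _ _ _ _).mp hc).1 i hi).1
  · intro c hc
    refine (T2K.abs_tt_le _ _ _ _ _ ((T2.mem_fam _ _ _ _).mp hc).2).trans ?_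
    have : (0 : ℝ) ≤ (1 + 2 ^ ⌊3 / e0⌋₊) * ((⌊3 / e0⌋₊).factorial : ℝ) := by positivity
    linarith
  intro N hN0 α _ _
  have hN : 10 ≤ N := le_trans (le_max_left _ _) hN0
  have hN10 : (10 : ℝ) ≤ N := by exact_mod_cast hN
  have hN1 : (1 : ℝ) < N := by linarith
  have hNe : 6 ≤ (N : ℝ) ^ e := by
    have h1 : (6 : ℝ) ^ (1 / e) ≤ N := by
      refine (Nat.le_ceil _).trans ?_
      exact_mod_cast le_trans (le_max_right _ _) hN0
    calc (6 : ℝ) = ((6 : ℝ) ^ (1 / e)) ^ e := by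
          rw [← Real.rpow_mul (by norm_num), one_div_mul_cancel he.ne', Real.rpow_one]
      _ ≤ (N : ℝ) ^ e := Real.rpow_le_rpow (by positivity) h1 he.le
  have hR3 : ((⌊3 / e0⌋₊ : ℕ) : ℝ) ≤ 3 / e0 := Nat.floor_le (by positivity)
  have hRe : e0 / Q * (⌊3 / e0⌋₊ : ℝ) ≤ e := by
    calc e0 / Q * (⌊3 / e0⌋₊ : ℝ) ≤ e0 / Q * (3 / e0) := mul_le_mul_of_nonneg_left hR3 he2.le
      _ = 3 / Q := by field_simp
      _ ≤ e := by
          rw [div_le_iff₀ hQ0]
          rw [div_le_iff₀ he] at hQe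
          linarith
  refine ⟨?_, ?_⟩
  · intro m hm1 hm2
    have hm0 : m ≠ 0 := by
      intro h
      rw [h] at hm1
      have : (0 : ℝ) < (N : ℝ) ^ 2 / 2 := by positivity
      simp only [Nat.cast_zero] at hm1
      linarith
    have hzm : (N : ℝ) ^ e0 ≤ m := by
      calc (N : ℝ) ^ e0 ≤ (N : ℝ) ^ (1 : ℝ) := Real.rpow_le_rpow_of_exponent_le hN1.le (by linarith)
        _ = N := Real.rpow_one _
        _ ≤ (N : ℝ) ^ 2 / 2 := by nlinarith
        _ ≤ m := hm1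
    have hRHS : ∀ x ∈ critK κ α, (0 : ℝ) ≤
        (if Rough ((N : ℝ) ^ e0) m ∧ Win N x (2 * e) m then (1 : ℝ) else 0) := by
      intro x _; split_ifs <;> norm_num
    have hRHS2 : (0 : ℝ) ≤ ∑ x ∈ critK κ α,
        (if Rough ((N : ℝ) ^ e0) m ∧ Win N x (2 * e) m then (1 : ℝ) else 0) :=
      Finset.sum_nonneg hRHS
    have hRHS3 : (0 : ℝ) ≤ (if Rough ((N : ℝ) ^ e0) m ∧ NSq ((N : ℝ) ^ e0) m then (1 : ℝ) else 0) := by
      split_ifs <;> norm_num
    by_cases hr : Rough ((N : ℝ) ^ e0) m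
    · have hlen := T2.length_le N e0 he0 hN m hm0 hm2 hr
      have hgen := T2K.gen_bound N Q κ e0 e hN he0 hQ1 m hm0 hm2 hr
        ((T2.fam Q ⌊3 * Q / e0⌋₊ ⌊3 / e0⌋₊).filter (fun c => GoodK κ (e0 / Q) e α c))
        (fun c hc => ((T2.mem_fam _ _ _ _).mp (mem_filter.mp hc).1).2)
      by_cases hsq : Squarefree m
      · by_cases hg : GoodK κ (e0 / Q) e α (T2.typ N (e0 / Q) m)
        · -- good type
          have hid := T2K.good_identity N κ e α hN hκ hκ' he hNe (e0 / Q) he2 m hsq hg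
          have hmem : T2.typ N (e0 / Q) m ∈
              (T2.fam Q ⌊3 * Q / e0⌋₊ ⌊3 / e0⌋₊).filter (fun c => GoodK κ (e0 / Q) e α c) :=
            mem_filter.mpr ⟨T2.typ_mem N Q e0 hN he0 hQ1 m hm0 hm2 hr, hg⟩
          have hpsi : psiK N e0 κ m = ∑ k ∈ m.divisors.filter (fun k : ℕ => (k : ℝ) ≤ YK N κ),
              (ArithmeticFunction.moebius k : ℝ) := by
            rw [psiK, rInd, if_pos hr, one_mul]
          have hzero : primeInd m - 2 * p3Ind (YK N κ) m - psiK N e0 κ m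
              - ∑ c ∈ (T2.fam Q ⌊3 * Q / e0⌋₊ ⌊3 / e0⌋₊).filter (fun c => GoodK κ (e0 / Q) e α c),
                T2K.tt κ (e0 / Q) e c * FF N (e0 / Q) c m = 0 := by
            rw [T2.sum_types N Q e0 hN he2, if_pos hmem, hpsi,
              T2.FF_typ N _ (by omega) he2 _ m hsq rfl, T2K.tt]
            split_ifs with hmid
            · rw [div_mul_cancel₀ _ (lt_of_lt_of_le one_pos (T2.vf_pos _)).ne', ← hid,
                T2K.p3_mid N κ e hN hκ hκ' he hNe (e0 / Q) he2 m hsq hm1 hmid]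
              ring
            · rw [zero_mul, sub_zero]
              obtain ⟨_, _, hY3, hY4⟩ := T2K.YK_bounds N κ e hN hκ hκ' he hNe
              have hm2' : 2 ≤ m := by
                have : (2 : ℝ) ≤ m := by nlinarith
                exact_mod_cast this
              rw [T1K.core m (YK N κ) hsq hm2' hY3.le (lt_of_lt_of_le hY4 hm1)
                (fun k hk hkY => T2K.no_mid N κ e α hN hκ hκ' he hNe (e0 / Q) he2 m hsq hm2 hg hmid
                  k hk hkY)]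
              ring
          rw [hzero, abs_zero]
          exact mul_nonneg (by positivity) (by linarith)
        · -- bad type
          obtain ⟨x, hx, hW⟩ := T2K.bad_type N κ e α hN (e0 / Q) he2 _ hRe m hsq hlen hg
          refine hgen.trans (le_mul_of_one_le_right (by positivity) ?_)
          have h1 := Finset.single_le_sum hRHS hx
          rw [if_pos ⟨hr, hW⟩] at h1
          linarith
      · -- not squarefree
        have hns : NSq ((N : ℝ) ^ e0) m := by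
          rw [Nat.squarefree_iff_prime_squarefree] at hsq
          push Not at hsq
          obtain ⟨p, hp, hpm⟩ := hsq
          exact ⟨p, hp, hr p hp ((Dvd.intro _ rfl).trans hpm), by rw [pow_two]; exact hpm⟩
        refine hgen.trans (le_mul_of_one_le_right (by positivity) ?_)
        rw [if_pos ⟨hr, hns⟩]
        linarith
    · -- not rough
      have h1 : primeInd m = 0 := by
        rw [primeInd, if_neg]
        intro hp
        apply hr
        intro p hpp hpm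
        rw [(Nat.prime_dvd_prime_iff_eq hpp hp).mp hpm]
        exact hzm
      have h2 : psiK N e0 κ m = 0 := by rw [psiK, rInd, if_neg hr, zero_mul]
      have h3 : ∑ c ∈ (T2.fam Q ⌊3 * Q / e0⌋₊ ⌊3 / e0⌋₊).filter (fun c => GoodK κ (e0 / Q) e α c),
          T2K.tt κ (e0 / Q) e c * FF N (e0 / Q) c m = 0 := by
        apply Finset.sum_eq_zero
        intro c hc
        by_contra hne
        have h4 := right_ne_zero_of_mul hne
        have h5 := (FFB.FF_support N (e0 / Q) (by omega) c m h4).2.2.2.2 he2 Q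
          (fun i hi => (((T2.mem_fam _ _ _ _).mp (mem_filter.mp hc).1).1 i hi).1)
        rw [div_mul_cancel₀ _ hQ0.ne'] at h5
        exact hr h5
      have h0 : p3Ind (YK N κ) m = 0 := by
        rw [p3Ind, if_neg]
        rintro ⟨hsq, h31, h32⟩
        exact hr (T2K.p3_rough N κ e0 hN hκ hκ' he1 m hm1 hsq h31 h32)
      rw [h1, h0, h2, h3, mul_zero, sub_zero, sub_zero, sub_zero, abs_zero]
      exact mul_nonneg (by positivity) (by linarith)
  · intro c _ _ hc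
    by_contra hno
    apply hc
    rw [T2K.tt, if_neg]
    rintro ⟨c₁, h1, h2⟩
    exact hno ⟨c₁, h1, h2⟩

end Pool.Agent.Lib.MP391708.QPA
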