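import Pool.Agent.Lib.MP_391708_nt.QPA.EDGE

/-!
# TAIL: a trivial bound for the number of prime values (mean over `a`)
-/

set_option autoImplicit false

namespace Pool.Agent.Lib.MP391708.QPA

open Finset Filter Topology
open scoped Classical

namespace TAIL

theorem sum_small_le (z : ℝ) (hz : 0 ≤ z) (S : Finset ℕ) :
    ∑ u ∈ S, (if (u : ℝ) < z then (1 : ℝ) else 0) ≤ z + 1 := by
  classical
  rw [← Finset.sum_filter, Finset.sum_const, nsmul_eq_mul, mul_one]
  have hsub : S.filter (fun u : ℕ => (u : ℝ) < z) ⊆ range ⌈z⌉₊ := by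
    intro u hu
    rw [Finset.mem_filter] at hu
    rw [Finset.mem_range]
    exact Nat.lt_ceil.2 hu.2
  have h1 : ((S.filter (fun u : ℕ => (u : ℝ) < z)).card : ℝ) ≤ (⌈z⌉₊ : ℝ) := by
    have := Finset.card_le_card hsub
    rw [Finset.card_range] at this
    exact_mod_cast this
  exact h1.trans (Nat.ceil_lt_add_one hz).le

theorem prime_le (z : ℝ) (m : ℕ) :
    primeInd m ≤ rInd z m + (if (m : ℝ) < z then (1 : ℝ) else 0) := by
  unfold primeInd rInd
  by_cases hp : m.Prime
  · rw [if_pos hp]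
    by_cases hz : (m : ℝ) < z
    · rw [if_pos hz]
      split_ifs <;> norm_num
    · rw [if_neg hz, if_pos]
      · norm_num
      · intro p hpp hdiv
        have := (Nat.prime_dvd_prime_iff_eq hpp hp).1 hdiv
        rw [this]
        exact not_lt.1 hz
  · rw [if_neg hp]
    split_ifs <;> norm_num

end TAIL

open TAIL EDGE in
theorem specTAIL (hE : SpecEDGE) : SpecTAIL := by
  obtain ⟨C, hC, hE⟩ := hE
  refine ⟨4 * C + 20, by positivity, 16, ?_⟩
  intro A X hA
  have hA16 : (16 : ℝ) ≤ A := by exact_mod_cast hA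
  have hA0 : (0 : ℝ) < A := by linarith
  set z : ℝ := (A : ℝ) ^ (1 / 4 : ℝ) with hz
  have hz4 : z ^ 4 = A := by
    rw [hz, ← Real.rpow_natCast, ← Real.rpow_mul hA0.le]
    norm_num
  have hz0 : 0 < z := Real.rpow_pos_of_pos hA0 _
  have hz2 : 2 ≤ z := by
    by_contra h
    have h1 : z ^ 4 < 2 ^ 4 := pow_lt_pow_left₀ (not_le.1 h) hz0.le (by norm_num)
    rw [hz4] at h1
    norm_num at h1
    linarith
  have hlz : Real.log z = Real.log A / 4 := by
    rw [hz, Real.log_rpow hA0]
    ring
  have hlA : 0 < Real.log A := Real.log_pos (by linarith)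
  have hlz' : Real.log z ≤ z := (Real.log_le_sub_one_of_pos hz0).trans (by linarith)
  have hper : ∀ n : ℕ, ∑ a ∈ IA A, primeInd (val a n) ≤ (4 * C + 20) * A / Real.log A := by
    intro n
    have h1 : ∑ a ∈ IA A, primeInd (val a n)
        ≤ ∑ a ∈ IA A, rInd z (val a n)
          + ∑ a ∈ IA A, (if ((val a n : ℕ) : ℝ) < z then (1 : ℝ) else 0) := by
      rw [← Finset.sum_add_distrib]
      exact Finset.sum_le_sum (fun a _ => prime_le z _)
    have h2 := hE z A n hz2 hz4.le
    have h3 := sum_val_le A n (fun m => if (m : ℝ) < z then (1 : ℝ) else 0)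
      (fun m => by split_ifs <;> norm_num)
    have h4 := sum_small_le z hz0.le (Ioc (n ^ 2 - (A + 1)) (n ^ 2 - (A + 1) + (2 * A + 1)))
    have h5 := sum_small_le z hz0.le (Ioc 0 (0 + (2 * A + 1)))
    have h6 : (if ((0 : ℕ) : ℝ) < z then (1 : ℝ) else 0) ≤ 1 := by split_ifs <;> norm_num
    have h7 : ∑ a ∈ IA A, primeInd (val a n) ≤ C * A / Real.log z + 5 * z := by
      have h8 : ∑ a ∈ IA A, (if ((val a n : ℕ) : ℝ) < z then (1 : ℝ) else 0) ≤ 5 * z := by
        refine h3.trans ?_
        linarith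
      linarith
    refine h7.trans ?_
    rw [hlz, le_div_iff₀ hlA]
    have h9 : C * A / (Real.log A / 4) * Real.log A = 4 * C * A := by
      field_simp
    have h10 : z * Real.log A ≤ 4 * A := by
      have h11 : Real.log A = 4 * Real.log z := by rw [hlz]; ring
      have h12 : z ^ 2 ≤ z ^ 4 := pow_le_pow_right₀ (by linarith) (by norm_num)
      rw [h11]
      nlinarith
    have h13 : (C * A / (Real.log A / 4) + 5 * z) * Real.log A
        = C * A / (Real.log A / 4) * Real.log A + 5 * (z * Real.log A) := by ring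
    rw [h13, h9]
    linarith
  have hswap : ∑ a ∈ IA A, (((Icc 1 X).filter (fun n => (val a n).Prime)).card : ℝ)
      = ∑ n ∈ Icc 1 X, ∑ a ∈ IA A, primeInd (val a n) := by
    rw [Finset.sum_comm]
    apply Finset.sum_congr rfl
    intro a _
    unfold primeInd
    rw [← Finset.sum_filter, Finset.sum_const, nsmul_eq_mul, mul_one]
  rw [hswap]
  calc ∑ n ∈ Icc 1 X, ∑ a ∈ IA A, primeInd (val a n)
      ≤ ∑ n ∈ Icc 1 X, (4 * C + 20) * A / Real.log A := Finset.sum_le_sum (fun n _ => hper n)
    _ = (4 * C + 20) * A * X / Real.log A := by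
        rw [Finset.sum_const, nsmul_eq_mul, Nat.card_Icc]
        simp
        ring

end Pool.Agent.Lib.MP391708.QPA
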