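import Pool.Agent.Lib.MP_391708_nt.QPA.FLA

/-!
# Module TI: the Type I part
-/

set_option autoImplicit false

namespace Pool.Agent.Lib.MP391708.QPA.TI

open Finset Filter Topology
open scoped Classical

noncomputable section

/-- termwise comparison of two sums weighted by the Möbius function -/
lemma mobius_diff (K : Finset ℕ) (D F u : ℕ → ℝ) (c e : ℝ) (hc : 0 ≤ c) (he : 0 ≤ e)
    (hu : ∀ k, 0 ≤ u k) (h : ∀ k ∈ K, Squarefree k → |D k - F k| ≤ c * u k + e) :
    |∑ k ∈ K, (ArithmeticFunction.moebius k : ℝ) * D k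
      - ∑ k ∈ K, (ArithmeticFunction.moebius k : ℝ) * F k| ≤ c * ∑ k ∈ K, u k + K.card * e := by
  rw [← Finset.sum_sub_distrib]
  refine (Finset.abs_sum_le_sum_abs _ _).trans ?_
  have h1 : ∀ k ∈ K, |(ArithmeticFunction.moebius k : ℝ) * D k
      - (ArithmeticFunction.moebius k : ℝ) * F k| ≤ c * u k + e := by
    intro k hk
    rw [← mul_sub, abs_mul]
    by_cases hs : Squarefree k
    · have h2 : |(ArithmeticFunction.moebius k : ℝ)| ≤ 1 := by
        exact_mod_cast ArithmeticFunction.abs_moebius_le_one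
      calc |(ArithmeticFunction.moebius k : ℝ)| * |D k - F k| ≤ 1 * (c * u k + e) :=
            mul_le_mul h2 (h k hk hs) (abs_nonneg _) zero_le_one
        _ = c * u k + e := one_mul _
    · rw [ArithmeticFunction.moebius_eq_zero_of_not_squarefree hs]
      have := hu k
      simp only [Int.cast_zero, abs_zero, zero_mul]
      positivity
  refine (Finset.sum_le_sum h1).trans (le_of_eq ?_)
  rw [Finset.sum_add_distrib, Finset.mul_sum, Finset.sum_const, nsmul_eq_mul]

lemma rInd_zero {z : ℝ} (hz : 2 < z) : rInd z 0 = 0 := by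
  rw [rInd, if_neg]
  intro h
  have := h 2 Nat.prime_two (dvd_zero 2)
  norm_num at this
  linarith

/-- the swap of the sums in the truncated Möbius sum -/
lemma psi_swap (z Y : ℝ) (hz : 2 < z) (hY : 0 ≤ Y) (m : ℕ) :
    rInd z m * ∑ k ∈ m.divisors.filter (fun k : ℕ => (k : ℝ) ≤ Y),
      (ArithmeticFunction.moebius k : ℝ)
    = ∑ k ∈ (Icc 1 ⌊Y⌋₊).filter (fun k => Rough z k),
        (ArithmeticFunction.moebius k : ℝ) * (if k ∣ m then rInd z m else 0) := by
  by_cases hm : Rough z m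
  · have h1 : rInd z m = 1 := if_pos hm
    have hm0 : m ≠ 0 := by
      rintro rfl
      have := rInd_zero hz
      rw [h1] at this
      norm_num at this
    rw [h1, one_mul]
    have h2 : ∀ k : ℕ, (ArithmeticFunction.moebius k : ℝ) * (if k ∣ m then (1 : ℝ) else 0)
        = if k ∣ m then (ArithmeticFunction.moebius k : ℝ) else 0 := by
      intro k
      split_ifs <;> simp
    simp_rw [h2]
    rw [← Finset.sum_filter]
    refine Finset.sum_congr ?_ (fun _ _ => rfl)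
    ext k
    simp only [Finset.mem_filter, Nat.mem_divisors, Finset.mem_Icc]
    constructor
    · rintro ⟨⟨h3, _⟩, h4⟩
      refine ⟨⟨⟨Nat.pos_of_dvd_of_pos h3 (Nat.pos_of_ne_zero hm0), Nat.le_floor h4⟩, ?_⟩, h3⟩
      intro p hp hpk
      exact hm p hp (hpk.trans h3)
    · rintro ⟨⟨⟨_, h3⟩, _⟩, h4⟩
      exact ⟨⟨h4, hm0⟩, (Nat.le_floor_iff hY).1 h3⟩
  · have h1 : rInd z m = 0 := if_neg hm
    simp [h1]

lemma cnt_psi (N : ℕ) (a : ℤ) (e0 : ℝ) (hz : 2 < (N : ℝ) ^ e0) :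
    cnt N a (psiM N e0) = ∑ k ∈ (Icc 1 ⌊YY N⌋₊).filter (fun k => Rough ((N : ℝ) ^ e0) k),
      (ArithmeticFunction.moebius k : ℝ) * ∑ n ∈ Ioc N (2 * N),
        (if k ∣ val a n then rInd ((N : ℝ) ^ e0) (val a n) else 0) := by
  have hY : 0 ≤ YY N := by
    rw [YY]
    positivity
  simp only [cnt, psiM]
  simp_rw [psi_swap _ _ hz hY]
  rw [Finset.sum_comm]
  refine Finset.sum_congr rfl fun k _ => ?_
  rw [Finset.mul_sum]

lemma model_psi (N : ℕ) (e0 : ℝ) (hz : 2 < (N : ℝ) ^ e0) :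
    model N (psiM N e0) = ∑ k ∈ (Icc 1 ⌊YY N⌋₊).filter (fun k => Rough ((N : ℝ) ^ e0) k),
      (ArithmeticFunction.moebius k : ℝ) *
        model N (fun m => if k ∣ m then rInd ((N : ℝ) ^ e0) m else 0) := by
  have hY : 0 ≤ YY N := by
    rw [YY]
    positivity
  simp only [model, psiM]
  simp_rw [psi_swap _ _ hz hY, Finset.sum_div]
  rw [Finset.sum_comm]
  refine Finset.sum_congr rfl fun k _ => ?_
  rw [Finset.mul_sum]
  refine Finset.sum_congr rfl fun m _ => ?_
  rw [mul_div_assoc]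

/-- Markov -/
lemma markov (S : Finset ℤ) (f : ℤ → ℝ) (t B : ℝ) (ht : 0 < t) (hf : ∀ a ∈ S, 0 ≤ f a)
    (hB : ∑ a ∈ S, f a ≤ B) : ((S.filter (fun a => t < f a)).card : ℝ) ≤ B / t := by
  rw [le_div_iff₀ ht]
  refine le_trans ?_ hB
  calc ((S.filter (fun a => t < f a)).card : ℝ) * t = ∑ a ∈ S.filter (fun a => t < f a), t := by
        rw [Finset.sum_const, nsmul_eq_mul]
    _ ≤ ∑ a ∈ S.filter (fun a => t < f a), f a :=
        Finset.sum_le_sum fun a ha => (Finset.mem_filter.1 ha).2.le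
    _ ≤ ∑ a ∈ S, f a := Finset.sum_le_sum_of_subset_of_nonneg (Finset.filter_subset _ _)
        (fun a ha _ => hf a ha)

/-- the sum of `1/k` over the rough `k ≤ Y` -/
lemma sum_rough {C : ℝ} (hC : 0 < C) (hRS : ∀ (z X₁ X₂ : ℝ), 2 ≤ z → z ≤ X₁ → X₁ ≤ X₂ →
      ∑ k ∈ Icc ⌈X₁⌉₊ ⌊X₂⌋₊, rInd z k / (k : ℝ) ≤ C * (Real.log (X₂ / X₁) + 1) / Real.log z)
    (N : ℕ) (e0 : ℝ) (he0 : 0 < e0) (he1 : e0 ≤ 1) (hN : 3 ≤ N) (hz : 2 < (N : ℝ) ^ e0) (Y : ℝ)
    (hY : Y ≤ N) :
    ∑ k ∈ (Icc 1 ⌊Y⌋₊).filter (fun k => Rough ((N : ℝ) ^ e0) k), 1 / (k : ℝ)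
      ≤ (1 + 2 * C) / e0 := by
  set z : ℝ := (N : ℝ) ^ e0 with hzdef
  have hN0 : (0 : ℝ) < N := by exact_mod_cast (by omega : 0 < N)
  have hN1 : (1 : ℝ) ≤ N := by exact_mod_cast (by omega : 1 ≤ N)
  have hzN : z ≤ N := by
    calc z ≤ (N : ℝ) ^ (1 : ℝ) := Real.rpow_le_rpow_of_exponent_le hN1 he1
      _ = N := Real.rpow_one _
  have hlog1 : 1 ≤ Real.log N := by
    rw [Real.le_log_iff_exp_le hN0]
    have h3 : (3 : ℝ) ≤ N := by exact_mod_cast hN
    linarith [Real.exp_one_lt_d9]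
  have h1 := hRS z z N (by linarith) le_rfl hzN
  rw [Nat.floor_natCast] at h1
  have h2 : C * (Real.log (N / z) + 1) / Real.log z ≤ 2 * C / e0 := by
    have hlogz : Real.log z = e0 * Real.log N := Real.log_rpow hN0 e0
    rw [hlogz, Real.log_div hN0.ne' (by positivity), hlogz, div_le_div_iff₀ (by positivity) he0]
    have : C * (Real.log N - e0 * Real.log N + 1) * e0 ≤ C * (2 * Real.log N) * e0 := by
      refine mul_le_mul_of_nonneg_right (mul_le_mul_of_nonneg_left ?_ hC.le) he0.le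
      have : 0 ≤ e0 * Real.log N := by positivity
      linarith
    linarith
  have h3 : ∑ k ∈ (Icc 1 ⌊Y⌋₊).filter (fun k => Rough z k), 1 / (k : ℝ)
      ≤ 1 + ∑ k ∈ Icc ⌈z⌉₊ N, rInd z k / (k : ℝ) := by
    have h4 : (Icc 1 ⌊Y⌋₊).filter (fun k => Rough z k)
        ⊆ insert 1 ((Icc ⌈z⌉₊ N).filter (fun k => Rough z k)) := by
      intro k hk
      rw [Finset.mem_filter, Finset.mem_Icc] at hk
      rw [Finset.mem_insert, Finset.mem_filter, Finset.mem_Icc]
      by_cases hk1 : k = 1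
      · exact Or.inl hk1
      · refine Or.inr ⟨⟨?_, ?_⟩, hk.2⟩
        · obtain ⟨p, hp, hpk⟩ := Nat.exists_prime_and_dvd hk1
          have h5 := hk.2 p hp hpk
          have h6 : (p : ℝ) ≤ k := by exact_mod_cast Nat.le_of_dvd (by omega) hpk
          exact Nat.ceil_le.2 (h5.trans h6)
        · exact hk.1.2.trans (Nat.floor_le_of_le hY)
    refine (Finset.sum_le_sum_of_subset_of_nonneg h4 (fun _ _ _ => by positivity)).trans ?_
    have h5 : ∑ k ∈ Icc ⌈z⌉₊ N, rInd z k / (k : ℝ)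
        = ∑ k ∈ (Icc ⌈z⌉₊ N).filter (fun k => Rough z k), 1 / (k : ℝ) := by
      rw [Finset.sum_filter]
      refine Finset.sum_congr rfl fun k _ => ?_
      rw [rInd]
      split_ifs <;> simp
    rw [h5]
    by_cases h6 : 1 ∈ (Icc ⌈z⌉₊ N).filter (fun k => Rough z k)
    · rw [Finset.insert_eq_of_mem h6]
      linarith
    · rw [Finset.sum_insert h6]
      norm_num
  calc _ ≤ 1 + 2 * C / e0 := by linarith
    _ ≤ 1 / e0 + 2 * C / e0 := by
        have : 1 ≤ 1 / e0 := by rw [le_div_iff₀ he0]; linarith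
        linarith
    _ = (1 + 2 * C) / e0 := by ring

/-- the numerical inequality -/
lemma core (N G W V S1 S0 R R0 T E1 E2 cA cB ex δ c m : ℝ) (hN : 0 ≤ N) (hG : 0 ≤ G) (hW : 0 ≤ W)
    (hcA : 0 ≤ cA) (hcB : 0 ≤ cB) (hex : 0 ≤ ex) (hR : 0 ≤ R) (hRR : R ≤ R0) (hT : 0 ≤ T)
    (hδ : 0 ≤ δ) (hδ1 : δ ≤ 1) (h1 : |c - N * V * (S1 + S0)| ≤ cA * ex * N * V * R + E1)
    (h2 : |m - N * W * S0| ≤ cB * ex * N * W * T + E2) (hV : |V - G * W| ≤ δ * (G * W))
    (hS1 : |S1| ≤ δ) (hS0 : |S0| ≤ T) :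
    |c - G * m| ≤ G * W * N * (2 * cA * ex * R0 + cB * ex * T + δ * (2 + T)) + E1 + G * E2 := by
  have hGW : 0 ≤ G * W := mul_nonneg hG hW
  have hV2 := abs_le.1 hV
  have hVle : V ≤ 2 * (G * W) := by nlinarith
  have hV0 : 0 ≤ V := by nlinarith
  have e : c - G * m = (c - N * V * (S1 + S0)) + N * V * S1 + N * (V - G * W) * S0
      + G * (N * W * S0 - m) := by ring
  have a1 : |N * V * S1| ≤ N * (2 * (G * W)) * δ := by
    rw [abs_mul, abs_mul, abs_of_nonneg hN, abs_of_nonneg hV0]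
    exact mul_le_mul (mul_le_mul_of_nonneg_left hVle hN) hS1 (abs_nonneg _) (by positivity)
  have a2 : |N * (V - G * W) * S0| ≤ N * (δ * (G * W)) * T := by
    rw [abs_mul, abs_mul, abs_of_nonneg hN]
    exact mul_le_mul (mul_le_mul_of_nonneg_left hV hN) hS0 (abs_nonneg _) (by positivity)
  have a3 : |G * (N * W * S0 - m)| ≤ G * (cB * ex * N * W * T + E2) := by
    rw [abs_mul, abs_of_nonneg hG, abs_sub_comm]
    exact mul_le_mul_of_nonneg_left h2 hG
  have a4 : cA * ex * N * V * R ≤ cA * ex * N * (2 * (G * W)) * R0 := by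
    refine mul_le_mul (mul_le_mul_of_nonneg_left hVle (by positivity)) hRR hR (by positivity)
  have b1 := abs_add_le ((c - N * V * (S1 + S0)) + N * V * S1 + N * (V - G * W) * S0)
    (G * (N * W * S0 - m))
  have b2 := abs_add_le ((c - N * V * (S1 + S0)) + N * V * S1) (N * (V - G * W) * S0)
  have b3 := abs_add_le (c - N * V * (S1 + S0)) (N * V * S1)
  rw [e]
  have : G * W * N * (2 * cA * ex * R0 + cB * ex * T + δ * (2 + T)) + E1 + G * E2
      = (cA * ex * N * (2 * (G * W)) * R0 + E1) + N * (2 * (G * W)) * δ + N * (δ * (G * W)) * T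
        + G * (cB * ex * N * W * T + E2) := by ring
  rw [this]
  linarith

/-- `e^(-b)/e0²` is small -/
lemma ex_bound (e0 : ℝ) (he0 : 0 < e0) :
    Real.exp (-((⌊1 / (100 * e0)⌋₊ : ℕ) : ℝ)) ≤ 18000000 * e0 * e0 ^ 2 := by
  set y : ℝ := 1 / (100 * e0) with hy
  have hy0 : 0 < y := by positivity
  have h1 : y - 1 ≤ (⌊y⌋₊ : ℕ) := by
    have := Nat.lt_floor_add_one y
    linarith
  have h2 : y ^ 3 / 6 ≤ Real.exp y := by
    have := Real.pow_div_factorial_le_exp y hy0.le 3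
    norm_num [Nat.factorial] at this
    exact this
  have h3 : Real.exp (-((⌊y⌋₊ : ℕ) : ℝ)) ≤ Real.exp (1 - y) := Real.exp_le_exp.2 (by linarith)
  have h4 : Real.exp (1 - y) ≤ 3 * (6 / y ^ 3) := by
    rw [Real.exp_sub, div_le_iff₀ (Real.exp_pos _)]
    have h5 : Real.exp 1 ≤ 3 := by linarith [Real.exp_one_lt_d9]
    have h6 : 1 ≤ 6 / y ^ 3 * Real.exp y := by
      calc (1 : ℝ) = 6 / y ^ 3 * (y ^ 3 / 6) := by field_simp
        _ ≤ 6 / y ^ 3 * Real.exp y := mul_le_mul_of_nonneg_left h2 (by positivity)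
    nlinarith
  have h7 : 3 * (6 / y ^ 3) = 18000000 * e0 * e0 ^ 2 := by
    rw [hy]
    field_simp
    norm_num
  linarith

end

end Pool.Agent.Lib.MP391708.QPA.TI

namespace Pool.Agent.Lib.MP391708.QPA

open Finset Filter Topology
open scoped Classical
open TI

theorem specTI (hFLA : SpecFLA) (hFLB : SpecFLB) (hPROD : SpecPROD) (hMOB : SpecMOB)
    (hRM : SpecRHOMEAN) (hGMEAN : SpecGMEAN) (hGMAX : SpecGMAX) (hWM : SpecWMER)
    (hRS : SpecRSUM) : SpecTI := by
  obtain ⟨cA, hcA, hFLA⟩ := hFLA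
  obtain ⟨cB, hcB, hFLB⟩ := hFLB
  obtain ⟨cR, hcR, hRM⟩ := hRM
  obtain ⟨cW, hcW, hWM⟩ := hWM
  obtain ⟨cS, hcS, hRS⟩ := hRS
  intro θ ε hθ hε
  set G0 : ℝ := 12 / ε with hG0
  set R1 : ℝ := 4 * cR / ε with hR1
  set T1 : ℝ := 1 + 2 * cS with hT1
  have hG0p : 0 < G0 := by positivity
  have hR1p : 0 < R1 := by positivity
  have hT1p : 0 < T1 := by positivity
  set K1 : ℝ := G0 * cW * (2 * cA * R1 + cB * T1) with hK1
  have hK1p : 0 < K1 := by positivity
  refine ⟨min (3 / 400) (ε / 4 / (18000000 * K1)), by positivity, ?_⟩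
  intro e0 he0 he1
  have he0a : e0 ≤ 3 / 400 := le_trans he1 (min_le_left _ _)
  have he0b : e0 ≤ ε / 4 / (18000000 * K1) := le_trans he1 (min_le_right _ _)
  set b : ℕ := ⌊1 / (100 * e0)⌋₊ with hb
  have hbe : e0 * (8 * b + 16) ≤ 1 / 5 := by
    have h1 : (b : ℝ) ≤ 1 / (100 * e0) := Nat.floor_le (by positivity)
    have h2 : e0 * b ≤ 1 / 100 := by
      calc e0 * b ≤ e0 * (1 / (100 * e0)) := mul_le_mul_of_nonneg_left h1 he0.le
        _ = 1 / 100 := by field_simp
    linarith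
  set δ : ℝ := min (min (ε / 4) 1) (ε / 4 / (G0 * cW * (2 + T1 / e0) / e0)) with hδ
  have hδp : 0 < δ := by positivity
  have hδ1 : δ ≤ ε / 4 := le_trans (min_le_left _ _) (min_le_left _ _)
  have hδ2 : δ ≤ 1 := le_trans (min_le_left _ _) (min_le_right _ _)
  have hδ3 : δ * (G0 * cW * (2 + T1 / e0) / e0) ≤ ε / 4 := by
    have : δ ≤ ε / 4 / (G0 * cW * (2 + T1 / e0) / e0) := min_le_right _ _
    rwa [le_div_iff₀ (by positivity)] at this
  obtain ⟨w₀, hPROD⟩ := hPROD δ hδp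
  refine ⟨max w₀ 2, fun w hw => ?_⟩
  have hPROD := hPROD w (le_trans (le_max_left _ _) hw) e0 he0 (by linarith)
  obtain ⟨gc, hgc, hGM⟩ := hGMAX w (le_trans (le_max_right _ _) hw)
  obtain ⟨A₁, hGMEAN⟩ := hGMEAN w
  obtain ⟨N₁, hPROD⟩ := hPROD
  obtain ⟨N₂, hMOB⟩ := hMOB θ e0 δ hθ he0 (by linarith) hδp
  obtain ⟨N₃, hRM⟩ := hRM e0 he0 (by linarith)
  obtain ⟨N₄, hFLA⟩ := hFLA b e0 he0 hbe
  obtain ⟨N₅, hFLB⟩ := hFLB b e0 he0 hbe
  obtain ⟨N₆, hN₆, hlog⟩ := FLA.log_le (2 * (1 + G0) / ε) (11 / 12) 1 (by norm_num)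
  obtain ⟨N₇, hN₇⟩ := eventually_atTop.1
    (((tendsto_rpow_atTop he0).comp tendsto_natCast_atTop_atTop).eventually_gt_atTop (2 : ℝ))
  obtain ⟨N₈, hN₈⟩ := eventually_atTop.1
    (((tendsto_rpow_atTop (show (0 : ℝ) < 3 / 4 by norm_num)).comp
      tendsto_natCast_atTop_atTop).eventually_ge_atTop (A₁ : ℝ))
  refine ⟨N₁ + N₂ + N₃ + N₄ + N₅ + N₆ + N₇ + N₈ + 3, fun N A hN hadm => ?_⟩
  have hN3 : 3 ≤ N := by omega
  have hN0 : (0 : ℝ) < N := by exact_mod_cast (by omega : 0 < N)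
  have hN1 : (1 : ℝ) ≤ N := by exact_mod_cast (by omega : 1 ≤ N)
  have hN1' : (1 : ℝ) < N := by exact_mod_cast (by omega : 1 < N)
  have hlogN : 0 < Real.log N := Real.log_pos hN1'
  have hNA : (N : ℝ) ^ (3 / 4 : ℝ) ≤ A :=
    le_trans (Real.rpow_le_rpow_of_exponent_le hN1 (by linarith)) hadm.1
  have hA₁ : A₁ ≤ A := by
    have h1 : (A₁ : ℝ) ≤ (N : ℝ) ^ (3 / 4 : ℝ) := hN₈ N (by omega)
    exact_mod_cast h1.trans hNA
  have hA0 : (0 : ℝ) ≤ A := by positivity
  have hz2 : 2 < (N : ℝ) ^ e0 := hN₇ N (by omega)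
  have hPROD := hPROD N A (by omega) hNA
  have hMOB := hMOB N A (by omega) hadm
  have hRM := hRM N A (by omega) hNA
  have hGMEAN := hGMEAN A hA₁
  have hlog := hlog N (by omega)
  have hFLA := hFLA N (by omega)
  have hFLB := hFLB N (by omega)
  set z : ℝ := (N : ℝ) ^ e0 with hz
  set K : Finset ℕ := (Icc 1 ⌊YY N⌋₊).filter (fun k => Rough z k) with hK
  have hYY : YY N ≤ (N : ℝ) ^ (2 / 3 : ℝ) := by
    rw [YY]
    exact Real.rpow_le_rpow (by positivity) (by linarith) (by norm_num)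
  have hYY0 : 0 ≤ YY N := by
    rw [YY]
    positivity
  have hYN : YY N ≤ N := by
    refine hYY.trans ?_
    calc (N : ℝ) ^ (2 / 3 : ℝ) ≤ (N : ℝ) ^ (1 : ℝ) :=
          Real.rpow_le_rpow_of_exponent_le hN1 (by norm_num)
      _ = N := Real.rpow_one _
  have hKcard : (K.card : ℝ) ≤ (N : ℝ) ^ (2 / 3 : ℝ) := by
    refine le_trans (Nat.cast_le.2 (Finset.card_filter_le _ _)) ?_
    rw [Nat.card_Icc, Nat.add_sub_cancel]
    exact (Nat.floor_le hYY0).trans hYY
  -- the exceptional sets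
  set E1 := (IA A).filter (fun a => ¬ |Wa z a - Gw w a * Wp z| ≤ δ * (Gw w a * Wp z)) with hE1
  set E2 := (IA A).filter (fun a => ¬ |∑ k ∈ K,
      (ArithmeticFunction.moebius k : ℝ) * ((rho a k : ℝ) - 1) / k| ≤ δ) with hE2
  set E3 := (IA A).filter (fun a => G0 < Gw w a) with hE3
  set E4 := (IA A).filter (fun a => R1 / e0 <
    ∑ k ∈ (Icc 1 N).filter (fun k => Rough z k), (rho a k : ℝ) / k) with hE4
  have hc1 : (E1.card : ℝ) ≤ ε / 4 * A := hPROD.trans (mul_le_mul_of_nonneg_right hδ1 hA0)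
  have hc2 : (E2.card : ℝ) ≤ ε / 4 * A := hMOB.trans (mul_le_mul_of_nonneg_right hδ1 hA0)
  have hGpos : ∀ a : ℤ, 0 ≤ Gw w a := fun a => hgc.le.trans (hGM a).1
  have hc3 : (E3.card : ℝ) ≤ ε / 4 * A := by
    refine (markov (IA A) (fun a => Gw w a) G0 (3 * A) hG0p (fun a _ => hGpos a) hGMEAN).trans ?_
    rw [hG0]
    refine le_of_eq ?_
    field_simp
    ring
  have hc4 : (E4.card : ℝ) ≤ ε / 4 * A := by
    refine (markov (IA A) (fun a => ∑ k ∈ (Icc 1 N).filter (fun k => Rough z k), (rho a k : ℝ) / k)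
      (R1 / e0) (cR * A / e0) (by positivity) (fun a _ => Finset.sum_nonneg fun _ _ => by positivity)
      hRM).trans ?_
    rw [hR1]
    refine le_of_eq ?_
    field_simp
  -- outside
  have hmain : (IA A).filter (fun a => ε * N / Real.log N <
      |cnt N a (psiM N e0) - Gw w a * model N (psiM N e0)|) ⊆ (E1 ∪ E2) ∪ (E3 ∪ E4) := by
    intro a ha
    rw [Finset.mem_filter] at ha
    obtain ⟨haI, ha⟩ := ha
    by_contra hcon
    simp only [Finset.mem_union, not_or, hE1, hE2, hE3, hE4, Finset.mem_filter, not_and, not_not,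
      not_lt] at hcon
    obtain ⟨⟨hc1, hc2⟩, hc3, hc4⟩ := hcon
    have hV := hc1 haI
    have hS1 := hc2 haI
    have hG := hc3 haI
    have hR := hc4 haI
    refine absurd ha (not_lt.2 ?_)
    have hW0 : 0 ≤ Wp z := by
      rw [Wp]
      refine Finset.prod_nonneg fun p hp => ?_
      rw [PB, Finset.mem_filter] at hp
      have : (1 : ℝ) ≤ p := by exact_mod_cast hp.2.one_lt.le
      have : 1 / (p : ℝ) ≤ 1 := by
        rw [div_le_one (by linarith only [this])]
        exact this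
      linarith only [this]
    have hGa := hGpos a
    -- T
    have hT := sum_rough hcS hRS N e0 he0 (by linarith) hN3 hz2 (YY N) hYN
    have hT0 : 0 ≤ ∑ k ∈ K, 1 / (k : ℝ) := Finset.sum_nonneg fun _ _ => by positivity
    -- S0
    have hS0 : |∑ k ∈ K, (ArithmeticFunction.moebius k : ℝ) * (1 / k)| ≤ T1 / e0 := by
      refine (Finset.abs_sum_le_sum_abs _ _).trans (le_trans (Finset.sum_le_sum fun k _ => ?_) hT)
      rw [abs_mul, abs_of_nonneg (show (0 : ℝ) ≤ 1 / (k : ℝ) by positivity)]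
      have h2 : |(ArithmeticFunction.moebius k : ℝ)| ≤ 1 := by
        exact_mod_cast ArithmeticFunction.abs_moebius_le_one
      have h3 : (0 : ℝ) ≤ 1 / (k : ℝ) := by positivity
      nlinarith
    -- cnt
    have hVle : 0 ≤ Wa z a := by
      have h1 := (abs_le.1 hV).1
      have h2 : δ * (Gw w a * Wp z) ≤ 1 * (Gw w a * Wp z) :=
        mul_le_mul_of_nonneg_right hδ2 (mul_nonneg hGa hW0)
      linarith only [h1, h2]
    have h1 := mobius_diff K (fun k => ∑ n ∈ Ioc N (2 * N),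
        (if k ∣ val a n then rInd z (val a n) else 0))
      (fun k => N * ((rho a k : ℝ) / k) * Wa z a) (fun k => (rho a k : ℝ) / k)
      (cA * Real.exp (-(b : ℝ)) * N * Wa z a) ((N : ℝ) ^ (1 / 4 : ℝ)) (by positivity) (by positivity)
      (fun k => by positivity) (by
        intro k hk hks
        rw [hK, Finset.mem_filter, Finset.mem_Icc] at hk
        have h2 := hFLA a k hks hk.2 (le_trans ((Nat.le_floor_iff hYY0).1 hk.1.2) hYY)
        refine h2.trans (le_of_eq ?_)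
        ring)
    rw [← cnt_psi N a e0 hz2] at h1
    have e1 : ∑ k ∈ K, (ArithmeticFunction.moebius k : ℝ) * (N * ((rho a k : ℝ) / k) * Wa z a)
        = N * Wa z a * ((∑ k ∈ K, (ArithmeticFunction.moebius k : ℝ) * ((rho a k : ℝ) - 1) / k)
          + ∑ k ∈ K, (ArithmeticFunction.moebius k : ℝ) * (1 / k)) := by
      rw [← Finset.sum_add_distrib, Finset.mul_sum]
      refine Finset.sum_congr rfl fun k _ => ?_
      ring
    rw [e1] at h1
    -- model
    have h2 := mobius_diff K (fun k => model N (fun m => if k ∣ m then rInd z m else 0))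
      (fun k => N / (k : ℝ) * Wp z) (fun k => 1 / (k : ℝ))
      (cB * Real.exp (-(b : ℝ)) * N * Wp z) 1 (by positivity) (by positivity)
      (fun k => by positivity) (by
        intro k hk hks
        rw [hK, Finset.mem_filter, Finset.mem_Icc] at hk
        have h2 := hFLB k hks hk.2 (le_trans ((Nat.le_floor_iff hYY0).1 hk.1.2) hYY)
        refine h2.trans (le_of_eq ?_)
        ring)
    rw [← model_psi N e0 hz2] at h2
    have e2 : ∑ k ∈ K, (ArithmeticFunction.moebius k : ℝ) * (N / (k : ℝ) * Wp z)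
        = N * Wp z * ∑ k ∈ K, (ArithmeticFunction.moebius k : ℝ) * (1 / k) := by
      rw [Finset.mul_sum]
      refine Finset.sum_congr rfl fun k _ => ?_
      ring
    rw [e2] at h2
    have hRle : ∑ k ∈ K, (rho a k : ℝ) / k ≤ R1 / e0 := by
      refine le_trans ?_ hR
      refine Finset.sum_le_sum_of_subset_of_nonneg ?_ (fun _ _ _ => by positivity)
      intro k hk
      rw [hK, Finset.mem_filter, Finset.mem_Icc] at hk
      rw [Finset.mem_filter, Finset.mem_Icc]
      exact ⟨⟨hk.1.1, hk.1.2.trans (Nat.floor_le_of_le hYN)⟩, hk.2⟩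
    have h2' : |model N (psiM N e0) - N * Wp z * ∑ k ∈ K, (ArithmeticFunction.moebius k : ℝ) * (1 / k)|
        ≤ cB * Real.exp (-(b : ℝ)) * N * Wp z * (T1 / e0) + K.card := by
      refine h2.trans ?_
      rw [mul_one]
      exact add_le_add (mul_le_mul_of_nonneg_left hT (by positivity)) le_rfl
    have h3 := core N (Gw w a) (Wp z) (Wa z a)
      (∑ k ∈ K, (ArithmeticFunction.moebius k : ℝ) * ((rho a k : ℝ) - 1) / k)
      (∑ k ∈ K, (ArithmeticFunction.moebius k : ℝ) * (1 / k))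
      (∑ k ∈ K, (rho a k : ℝ) / k) (R1 / e0) (T1 / e0) (K.card * (N : ℝ) ^ (1 / 4 : ℝ)) K.card
      cA cB (Real.exp (-(b : ℝ))) δ (cnt N a (psiM N e0)) (model N (psiM N e0)) hN0.le hGa hW0
      hcA.le hcB.le (Real.exp_pos _).le (Finset.sum_nonneg fun _ _ => by positivity) hRle
      (by positivity) hδp.le hδ2 h1 h2' hV hS1 hS0
    refine h3.trans ?_
    -- the numbers
    have hWle : Wp z ≤ cW / (e0 * Real.log N) := by
      have := hWM z hz2.le
      rwa [hz, Real.log_rpow hN0, ← hz] at this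
    have hGW : Gw w a * Wp z ≤ G0 * (cW / (e0 * Real.log N)) :=
      mul_le_mul hG hWle hW0 hG0p.le
    have hex := ex_bound e0 he0
    rw [← hb] at hex
    set ex : ℝ := Real.exp (-(b : ℝ)) with hexdef
    have hexp : 0 < ex := Real.exp_pos _
    have m1 : Gw w a * Wp z * N * (2 * cA * ex * (R1 / e0) + cB * ex * (T1 / e0) + δ * (2 + T1 / e0))
        ≤ ε / 2 * (N / Real.log N) := by
      have hb0 : 0 ≤ 2 * cA * ex * (R1 / e0) + cB * ex * (T1 / e0) + δ * (2 + T1 / e0) := by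
        positivity
      calc Gw w a * Wp z * N * (2 * cA * ex * (R1 / e0) + cB * ex * (T1 / e0) + δ * (2 + T1 / e0))
          ≤ G0 * (cW / (e0 * Real.log N)) * N *
            (2 * cA * ex * (R1 / e0) + cB * ex * (T1 / e0) + δ * (2 + T1 / e0)) :=
            mul_le_mul_of_nonneg_right (mul_le_mul_of_nonneg_right hGW hN0.le) hb0
        _ = (K1 * (ex / e0 ^ 2) + δ * (G0 * cW * (2 + T1 / e0) / e0)) * (N / Real.log N) := by
            rw [hK1]
            field_simp
        _ ≤ ε / 2 * (N / Real.log N) := by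
            refine mul_le_mul_of_nonneg_right ?_ (by positivity)
            have h4 : ex / e0 ^ 2 ≤ 18000000 * e0 := by
              rw [div_le_iff₀ (by positivity)]
              exact hex
            have h5 : K1 * (ex / e0 ^ 2) ≤ ε / 4 := by
              calc K1 * (ex / e0 ^ 2) ≤ K1 * (18000000 * e0) :=
                    mul_le_mul_of_nonneg_left h4 hK1p.le
                _ = e0 * (18000000 * K1) := by ring
                _ ≤ ε / 4 := by rwa [le_div_iff₀ (by positivity)] at he0b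
            linarith only [h5, hδ3]
    have m2 : (K.card : ℝ) * (N : ℝ) ^ (1 / 4 : ℝ) + Gw w a * K.card
        ≤ ε / 2 * (N / Real.log N) := by
      have h4 : (K.card : ℝ) * (N : ℝ) ^ (1 / 4 : ℝ) ≤ (N : ℝ) ^ (11 / 12 : ℝ) := by
        calc (K.card : ℝ) * (N : ℝ) ^ (1 / 4 : ℝ) ≤ (N : ℝ) ^ (2 / 3 : ℝ) * (N : ℝ) ^ (1 / 4 : ℝ) :=
              mul_le_mul_of_nonneg_right hKcard (by positivity)
          _ = (N : ℝ) ^ (11 / 12 : ℝ) := by
              rw [← Real.rpow_add hN0]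
              norm_num
      have h5 : Gw w a * K.card ≤ G0 * (N : ℝ) ^ (11 / 12 : ℝ) := by
        refine mul_le_mul hG (hKcard.trans ?_) (by positivity) hG0p.le
        exact Real.rpow_le_rpow_of_exponent_le hN1 (by norm_num)
      have h6 : (1 + G0) * (N : ℝ) ^ (11 / 12 : ℝ) ≤ ε / 2 * (N / Real.log N) := by
        rw [Real.rpow_one] at hlog
        rw [← mul_div_assoc, le_div_iff₀ hlogN]
        have h7 : 2 * (1 + G0) / ε * (1 + Real.log N) * (N : ℝ) ^ (11 / 12 : ℝ) * (ε / 2)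
            ≤ N * (ε / 2) := mul_le_mul_of_nonneg_right hlog (by positivity)
        have h8 : 2 * (1 + G0) / ε * (1 + Real.log N) * (N : ℝ) ^ (11 / 12 : ℝ) * (ε / 2)
            = (1 + G0) * (N : ℝ) ^ (11 / 12 : ℝ) * (1 + Real.log N) := by
          field_simp
        rw [h8] at h7
        have h9 : (1 + G0) * (N : ℝ) ^ (11 / 12 : ℝ) * Real.log N
            ≤ (1 + G0) * (N : ℝ) ^ (11 / 12 : ℝ) * (1 + Real.log N) :=
          mul_le_mul_of_nonneg_left (by linarith only) (by positivity)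
        linarith only [h7, h9]
      linarith only [h4, h5, h6]
    have m3 : ε * N / Real.log N = ε / 2 * (N / Real.log N) + ε / 2 * (N / Real.log N) := by ring
    rw [m3]
    linarith only [m1, m2]
  have hfin : ((((IA A).filter (fun a => ε * N / Real.log N <
      |cnt N a (psiM N e0) - Gw w a * model N (psiM N e0)|)).card : ℕ) : ℝ)
      ≤ E1.card + E2.card + (E3.card + E4.card) := by
    have h1 := Finset.card_le_card hmain
    have h2 := Finset.card_union_le (E1 ∪ E2) (E3 ∪ E4)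
    have h3 := Finset.card_union_le E1 E2
    have h4 := Finset.card_union_le E3 E4
    have : ((IA A).filter (fun a => ε * N / Real.log N <
      |cnt N a (psiM N e0) - Gw w a * model N (psiM N e0)|)).card
      ≤ E1.card + E2.card + (E3.card + E4.card) := by omega
    exact_mod_cast this
  refine hfin.trans ?_
  linarith only [hc1, hc2, hc3, hc4]

end Pool.Agent.Lib.MP391708.QPA
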