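import Pool.Agent.Lib.MP_391708_nt.QPA.BLK2

/-!
# QPA, module TII: the Type II sums, from the blocks
-/

set_option autoImplicit false

namespace Pool.Agent.Lib.MP391708.QPA

open Finset Filter Topology
open scoped Classical

namespace TII

open BasM SHM BLK2

/-! ## convolutions -/

lemma conv_sum (T : ℕ) {g f : ℕ → ℝ} {G H : ℕ → ℕ → ℝ} (hg : ∀ k, g k = ∑ i ∈ range T, G i k)
    (hf : ∀ l, f l = ∑ j ∈ range T, H j l) (m : ℕ) :
    conv g f m = ∑ x ∈ range T ×ˢ range T, conv (G x.1) (H x.2) m := by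
  unfold conv
  rw [sum_comm]
  refine sum_congr rfl fun k _ => ?_
  rw [hg, hf, sum_mul_sum, ← sum_product']

lemma conv_nonneg {g f : ℕ → ℝ} (hg : ∀ k, 0 ≤ g k) (hf : ∀ k, 0 ≤ f k) (m : ℕ) : 0 ≤ conv g f m :=
  sum_nonneg fun k _ => mul_nonneg (hg k) (hf _)

lemma conv_supp {K L q : ℝ} (hK : 0 < K) (hL : 0 < L) (hq : 0 < q) {g f : ℕ → ℝ} {m : ℕ}
    (h : conv (cut K (q * K) g) (cut L (q * L) f) m ≠ 0) :
    K * L < m ∧ (m : ℝ) ≤ q ^ 2 * (K * L) := by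
  unfold conv at h
  obtain ⟨k, hk, hne⟩ := exists_ne_zero_of_sum_ne_zero h
  obtain ⟨a1, a2⟩ := cut_ne (left_ne_zero_of_mul hne)
  obtain ⟨b1, b2⟩ := cut_ne (right_ne_zero_of_mul hne)
  have hkm : k * (m / k) = m := Nat.mul_div_cancel' (Nat.dvd_of_mem_divisors hk)
  have e1 : (m : ℝ) = k * ((m / k : ℕ) : ℝ) := by rw [← Nat.cast_mul, hkm]
  rw [e1]
  constructor
  · exact mul_lt_mul'' a1 b1 hK.le hL.le
  · calc (k : ℝ) * ((m / k : ℕ) : ℝ) ≤ (q * K) * (q * L) := by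
          apply mul_le_mul a2 b2 (Nat.cast_nonneg _) (by positivity)
      _ = _ := by ring

lemma FF_conv (N : ℕ) (e : ℝ) (c₁ c₂ : Multiset ℕ) (m : ℕ) :
    FF N e (c₁ + c₂) m = conv (fun k => FF N e c₁ k) (fun k => FF N e c₂ k) m := by
  have h : FF N e (c₁ + c₂) = FF N e c₁ * FF N e c₂ := by
    unfold FF
    rw [Multiset.map_add, Multiset.prod_add]
  rw [h, ArithmeticFunction.mul_apply]
  unfold conv
  exact Nat.sum_divisorsAntidiagonal (f := fun i j => FF N e c₁ i * FF N e c₂ j)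

/-- decomposition of a function into pieces -/
lemma cut_tele {X q : ℝ} (hX : 0 < X) (hq : 1 < q) (T : ℕ) (g : ℕ → ℝ) (k : ℕ)
    (hk : g k ≠ 0 → X < k ∧ (k : ℝ) ≤ X * q ^ T) :
    g k = ∑ i ∈ range T, cut (X * q ^ i) (q * (X * q ^ i)) g k := by
  by_cases h0 : g k = 0
  · rw [h0]
    symm
    refine sum_eq_zero fun i _ => ?_
    unfold cut
    split_ifs
    · exact h0
    · rfl
  obtain ⟨h1, h2⟩ := hk h0
  set u : ℕ → ℝ := fun i => if (k : ℝ) ≤ X * q ^ i then g k else 0 with hu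
  have h3 : ∀ i, cut (X * q ^ i) (q * (X * q ^ i)) g k = u (i + 1) - u i := by
    intro i
    have e1 : q * (X * q ^ i) = X * q ^ (i + 1) := by ring
    have e2 : X * q ^ i ≤ X * q ^ (i + 1) := by
      apply mul_le_mul_of_nonneg_left _ hX.le
      exact pow_le_pow_right₀ hq.le (Nat.le_succ i)
    rw [e1]
    simp only [hu]
    unfold cut
    by_cases c1 : (k : ℝ) ≤ X * q ^ i
    · rw [if_neg (fun h => absurd h.1 (not_lt.2 c1)), if_pos (c1.trans e2), if_pos c1, sub_self]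
    · by_cases c2 : (k : ℝ) ≤ X * q ^ (i + 1)
      · rw [if_pos ⟨not_le.1 c1, c2⟩, if_pos c2, if_neg c1, sub_zero]
      · rw [if_neg (fun h => c2 h.2), if_neg c2, if_neg c1, sub_zero]
  rw [sum_congr rfl (fun i _ => h3 i), sum_range_sub]
  simp only [hu]
  rw [if_pos h2, if_neg (by rw [pow_zero, mul_one]; exact not_le.2 h1), sub_zero]

/-- a double sum as a sum over the products -/
lemma sum_conv {α β φ : ℕ → ℝ} {SA SB M : Finset ℕ} (hA : ∀ k, α k ≠ 0 → k ∈ SA)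
    (hB : ∀ k, β k ≠ 0 → k ∈ SB) (hM0 : ∀ m ∈ M, m ≠ 0)
    (hM : ∀ k ∈ SA, ∀ l ∈ SB, α k ≠ 0 → β l ≠ 0 → k * l ∈ M) :
    ∑ m ∈ M, conv α β m * φ m = ∑ k ∈ SA, ∑ l ∈ SB, α k * β l * φ (k * l) := by
  rw [← sum_product' SA SB (fun k l => α k * β l * φ (k * l))]
  rw [← sum_filter_add_sum_filter_not (SA ×ˢ SB) (fun x => α x.1 ≠ 0 ∧ β x.2 ≠ 0)
    (fun x => α x.1 * β x.2 * φ (x.1 * x.2))]
  have h0 : ∑ x ∈ (SA ×ˢ SB).filter (fun x => ¬ (α x.1 ≠ 0 ∧ β x.2 ≠ 0)),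
      α x.1 * β x.2 * φ (x.1 * x.2) = 0 := by
    refine sum_eq_zero fun x hx => ?_
    have h := (mem_filter.1 hx).2
    by_cases h1 : α x.1 = 0
    · rw [h1]; ring
    · have h2 : β x.2 = 0 := by
        by_contra h3; exact h ⟨h1, h3⟩
      rw [h2]; ring
  rw [h0, add_zero]
  have hmap : ∀ x ∈ (SA ×ˢ SB).filter (fun x => α x.1 ≠ 0 ∧ β x.2 ≠ 0), x.1 * x.2 ∈ M := by
    intro x hx
    rw [mem_filter, mem_product] at hx
    exact hM x.1 hx.1.1 x.2 hx.1.2 hx.2.1 hx.2.2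
  rw [← sum_fiberwise_of_maps_to hmap]
  refine sum_congr rfl fun m hm => ?_
  have e1 : conv α β m = ∑ x ∈ m.divisorsAntidiagonal, α x.1 * β x.2 :=
    (Nat.sum_divisorsAntidiagonal (f := fun i j => α i * β j)).symm
  rw [e1, sum_mul]
  symm
  have e2 : ∑ x ∈ ((SA ×ˢ SB).filter (fun x => α x.1 ≠ 0 ∧ β x.2 ≠ 0)).filter (fun x => x.1 * x.2 = m),
      α x.1 * β x.2 * φ (x.1 * x.2)
      = ∑ x ∈ ((SA ×ˢ SB).filter (fun x => α x.1 ≠ 0 ∧ β x.2 ≠ 0)).filter (fun x => x.1 * x.2 = m),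
      α x.1 * β x.2 * φ m := by
    refine sum_congr rfl fun x hx => ?_
    rw [(mem_filter.1 hx).2]
  rw [e2]
  refine sum_subset ?_ ?_
  · intro x hx
    rw [mem_filter] at hx
    rw [Nat.mem_divisorsAntidiagonal]
    exact ⟨hx.2, hM0 m hm⟩
  · intro x hx hx2
    rw [Nat.mem_divisorsAntidiagonal] at hx
    by_contra h
    have h1 : α x.1 ≠ 0 := fun h1 => h (by rw [h1]; ring)
    have h2 : β x.2 ≠ 0 := fun h1 => h (by rw [h1]; ring)
    apply hx2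
    rw [mem_filter, mem_filter, mem_product]
    exact ⟨⟨⟨hA _ h1, hB _ h2⟩, h1, h2⟩, hx.1⟩

/-! ## counting the blocks -/

lemma card_j {q x : ℝ} (hq : 1 < q) (hx : 0 < x) {D : ℕ} (hD : 4 ≤ q ^ D) (S : Finset ℕ)
    (hS : ∀ j ∈ S, x < q ^ j ∧ q ^ j ≤ 4 * x) : S.card ≤ D := by
  rcases S.eq_empty_or_nonempty with h | h
  · rw [h]; simp
  · set j₀ := S.min' h with hj
    have hsub : S ⊆ Ico j₀ (j₀ + D) := by
      intro j hjS
      rw [mem_Ico]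
      refine ⟨S.min'_le j hjS, ?_⟩
      by_contra hc
      push Not at hc
      have h1 := (hS j₀ (S.min'_mem h)).1
      have h2 := (hS j hjS).2
      have h3 : q ^ (j₀ + D) ≤ q ^ j := pow_le_pow_right₀ hq.le hc
      rw [pow_add] at h3
      have h4 : x * 4 < q ^ j₀ * q ^ D := by
        calc x * 4 < q ^ j₀ * 4 := by linarith
          _ ≤ q ^ j₀ * q ^ D := by gcongr
      linarith
    calc S.card ≤ (Ico j₀ (j₀ + D)).card := card_le_card hsub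
      _ = D := by simp

lemma val_cast (a : ℤ) (n : ℕ) : ((val a n : ℕ) : ℝ) = |(n : ℝ) ^ 2 + (a : ℝ)| := by
  unfold val
  rw [Nat.cast_natAbs]
  push_cast
  rfl

lemma abs_le_of_mem {A : ℕ} {a : ℤ} (ha : a ∈ IA A) : |(a : ℝ)| ≤ A := by
  unfold IA at ha
  rw [mem_Icc] at ha
  rw [abs_le]
  constructor
  · exact_mod_cast ha.1
  · exact_mod_cast ha.2

lemma val_bounds {A : ℕ} {a : ℤ} (ha : a ∈ IA A) (n : ℕ) :
    (n : ℝ) ^ 2 - A ≤ val a n ∧ ((val a n : ℕ) : ℝ) ≤ (n : ℝ) ^ 2 + A := by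
  have h := abs_le.1 (abs_le_of_mem ha)
  rw [val_cast]
  constructor
  · exact le_trans (by linarith) (le_abs_self _)
  · rw [abs_le]
    constructor
    · nlinarith [sq_nonneg (n : ℝ)]
    · linarith

/-- the set of interior blocks -/
noncomputable def SI (N A T : ℕ) (κ e q : ℝ) : Finset (ℕ × ℕ) :=
  (range T ×ˢ range T).filter (fun x => (N : ℝ) ^ 2 + A < (N : ℝ) ^ κ * q ^ x.1 * (1 * q ^ x.2) ∧
    q ^ 2 * ((N : ℝ) ^ κ * q ^ x.1 * (1 * q ^ x.2)) + A ≤ 4 * (N : ℝ) ^ 2 ∧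
    (N : ℝ) ^ κ * q ^ x.1 ≤ (N : ℝ) ^ (1 - e))

lemma card_SI {N A T D : ℕ} {κ e q : ℝ} (hN : 3 ≤ N) (hκ : 0 ≤ κ) (he : 0 < e) (hq : 1 < q)
    (hD : 4 ≤ q ^ D) (hl : 1 ≤ Real.log N) :
    ((SI N A T κ e q).card : ℝ) ≤ (D + 1) * (1 / Real.log q + 1) * Real.log N := by
  have hN1 : (1 : ℝ) < N := by exact_mod_cast (by omega : 1 < N)
  have hN0 : (0 : ℝ) < N := by linarith
  have hlq : 0 < Real.log q := Real.log_pos hq
  have hK0 : 0 < (N : ℝ) ^ κ := by positivity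
  have hK1 : 1 ≤ (N : ℝ) ^ κ := Real.one_le_rpow hN1.le hκ
  have hq0 : 0 < q := by linarith
  have himg : (SI N A T κ e q).image Prod.fst ⊆ range (⌊Real.log N / Real.log q⌋₊ + 1) := by
    intro i hi
    rw [mem_image] at hi
    obtain ⟨x, hx, rfl⟩ := hi
    have h := (mem_filter.1 hx).2.2.2
    rw [mem_range, Nat.lt_add_one_iff]
    apply Nat.le_floor
    rw [le_div_iff₀ hlq, ← Real.log_pow]
    apply Real.log_le_log (by positivity)
    calc q ^ x.1 ≤ (N : ℝ) ^ κ * q ^ x.1 := le_mul_of_one_le_left (by positivity) hK1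
      _ ≤ (N : ℝ) ^ (1 - e) := h
      _ ≤ (N : ℝ) ^ (1 : ℝ) := Real.rpow_le_rpow_of_exponent_le hN1.le (by linarith)
      _ = N := Real.rpow_one _
  have hfib : ∀ i ∈ (SI N A T κ e q).image Prod.fst,
      ((SI N A T κ e q).filter (fun x => x.1 = i)).card ≤ D := by
    intro i _
    have hinj : Set.InjOn Prod.snd
        (((SI N A T κ e q).filter (fun x => x.1 = i) : Finset (ℕ × ℕ)) : Set (ℕ × ℕ)) := by
      intro x hx y hy hxy
      rw [mem_coe, mem_filter] at hx hy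
      exact Prod.ext (hx.2.trans hy.2.symm) hxy
    rw [← card_image_of_injOn hinj]
    have hki : 0 < (N : ℝ) ^ κ * q ^ i := by positivity
    refine card_j (x := (N : ℝ) ^ 2 / ((N : ℝ) ^ κ * q ^ i)) hq (by positivity) hD _ ?_
    intro j hj
    rw [mem_image] at hj
    obtain ⟨x, hx, rfl⟩ := hj
    rw [mem_filter] at hx
    obtain ⟨hx1, rfl⟩ := hx
    obtain ⟨_, h1, h2, _⟩ := mem_filter.1 hx1
    have hA0 : (0 : ℝ) ≤ A := Nat.cast_nonneg A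
    have hA1 : (0 : ℝ) ≤ (N : ℝ) ^ κ * q ^ x.1 * (1 * q ^ x.2) := by positivity
    have hq2 : 1 ≤ q ^ 2 := one_le_pow₀ hq.le
    constructor
    · rw [div_lt_iff₀ hki]
      nlinarith
    · rw [← mul_div_assoc, le_div_iff₀ hki]
      nlinarith
  have h1 := card_le_mul_card_image (SI N A T κ e q) D hfib
  have h2 : ((SI N A T κ e q).image Prod.fst).card ≤ ⌊Real.log N / Real.log q⌋₊ + 1 := by
    calc _ ≤ (range (⌊Real.log N / Real.log q⌋₊ + 1)).card := card_le_card himg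
      _ = _ := card_range _
  have h3 : ((SI N A T κ e q).card : ℝ) ≤ D * ((⌊Real.log N / Real.log q⌋₊ : ℝ) + 1) := by
    have := h1.trans (Nat.mul_le_mul_left D h2)
    exact_mod_cast this
  have h4 : (⌊Real.log N / Real.log q⌋₊ : ℝ) ≤ Real.log N / Real.log q := Nat.floor_le (by positivity)
  calc ((SI N A T κ e q).card : ℝ) ≤ D * ((⌊Real.log N / Real.log q⌋₊ : ℝ) + 1) := h3
    _ ≤ (D + 1) * (Real.log N / Real.log q + Real.log N) := by gcongr; linarith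
    _ = _ := by ring

/-- the numbers that can come from a block which is not interior -/
def Bd (N A : ℕ) (q : ℝ) (m : ℕ) : Prop :=
  (m : ℝ) ≤ q ^ 2 * ((N : ℝ) ^ 2 + A) ∨ 4 * (N : ℝ) ^ 2 - A < q ^ 2 * m

lemma bd_of {N A T : ℕ} {κ e q : ℝ} (hN : 3 ≤ N) (hq : 1 < q) {g f : ℕ → ℝ}
    (hg : ∀ k, g k ≠ 0 → (k : ℝ) ≤ (N : ℝ) ^ (1 - e)) {x : ℕ × ℕ} (hx : x ∈ range T ×ˢ range T)
    (hxS : x ∉ SI N A T κ e q) {m : ℕ}
    (h : conv (cut ((N : ℝ) ^ κ * q ^ x.1) (q * ((N : ℝ) ^ κ * q ^ x.1)) g)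
      (cut (1 * q ^ x.2) (q * (1 * q ^ x.2)) f) m ≠ 0) : Bd N A q m := by
  have hN0 : (0 : ℝ) < N := by exact_mod_cast (by omega : 0 < N)
  have hq0 : 0 < q := by linarith
  obtain ⟨h1, h2⟩ := conv_supp (by positivity) (by positivity) hq0 h
  have h3 : (N : ℝ) ^ κ * q ^ x.1 ≤ (N : ℝ) ^ (1 - e) := by
    unfold conv at h
    obtain ⟨k, hk, hne⟩ := exists_ne_zero_of_sum_ne_zero h
    have h4 := left_ne_zero_of_mul hne
    obtain ⟨a1, a2⟩ := cut_ne h4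
    have h5 : g k ≠ 0 := by
      intro h6; apply h4; rw [cut_of a1 a2, h6]
    exact a1.le.trans (hg k h5)
  unfold Bd
  by_contra hc
  push Not at hc
  apply hxS
  unfold SI
  rw [mem_filter]
  refine ⟨hx, ?_, ?_, h3⟩
  · by_contra h6
    push Not at h6
    have : q ^ 2 * ((N : ℝ) ^ κ * q ^ x.1 * (1 * q ^ x.2)) ≤ q ^ 2 * ((N : ℝ) ^ 2 + A) := by gcongr
    linarith [hc.1]
  · have : q ^ 2 * ((N : ℝ) ^ κ * q ^ x.1 * (1 * q ^ x.2)) ≤ q ^ 2 * m := by gcongr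
    linarith [hc.2]

/-- the edge of the range of `n` -/
noncomputable def En (N : ℕ) (η : ℝ) : Finset ℕ :=
  (Ioc N (2 * N)).filter (fun n => (n : ℝ) ≤ (1 + 3 * η) * N ∨ (1 - 3 * η) * (2 * N) ≤ n)

lemma card_En {N : ℕ} {η : ℝ} (hη : 0 < η) (hη4 : η ≤ 1 / 4) (h2 : 1 ≤ η * N) :
    ((En N η).card : ℝ) ≤ 10 * η * N := by
  have hN0 : (0 : ℝ) ≤ N := Nat.cast_nonneg N
  have h1 : En N η ⊆ Ioc N ⌊(1 + 3 * η) * N⌋₊ ∪ Icc ⌈(1 - 3 * η) * (2 * N)⌉₊ (2 * N) := by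
    intro n hn
    unfold En at hn
    rw [mem_filter, mem_Ioc] at hn
    rw [mem_union, mem_Ioc, mem_Icc]
    rcases hn.2 with h | h
    · exact Or.inl ⟨hn.1.1, Nat.le_floor h⟩
    · exact Or.inr ⟨Nat.ceil_le.2 h, hn.1.2⟩
  have h3 : ((Ioc N ⌊(1 + 3 * η) * N⌋₊).card : ℝ) ≤ 3 * η * N := by
    rw [Nat.card_Ioc]
    have h4 : N ≤ ⌊(1 + 3 * η) * N⌋₊ := Nat.le_floor (by nlinarith)
    rw [Nat.cast_sub h4]
    have h5 : (⌊(1 + 3 * η) * N⌋₊ : ℝ) ≤ (1 + 3 * η) * N := Nat.floor_le (by positivity)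
    linarith
  have h6 : ((Icc ⌈(1 - 3 * η) * (2 * N)⌉₊ (2 * N)).card : ℝ) ≤ 6 * η * N + 1 := by
    rw [Nat.card_Icc]
    have h7 : ⌈(1 - 3 * η) * (2 * N)⌉₊ ≤ 2 * N := Nat.ceil_le.2 (by push_cast; nlinarith)
    rw [Nat.cast_sub (by omega)]
    have h8 : (1 - 3 * η) * (2 * N) ≤ (⌈(1 - 3 * η) * (2 * N)⌉₊ : ℝ) := Nat.le_ceil _
    push_cast
    linarith
  calc ((En N η).card : ℝ)
      ≤ (((Ioc N ⌊(1 + 3 * η) * N⌋₊ ∪ Icc ⌈(1 - 3 * η) * (2 * N)⌉₊ (2 * N)).card : ℕ) : ℝ) := by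
        exact_mod_cast card_le_card h1
    _ ≤ ((Ioc N ⌊(1 + 3 * η) * N⌋₊).card : ℝ) + ((Icc ⌈(1 - 3 * η) * (2 * N)⌉₊ (2 * N)).card : ℝ) := by
        exact_mod_cast card_union_le _ _
    _ ≤ 3 * η * N + (6 * η * N + 1) := add_le_add h3 h6
    _ ≤ 10 * η * N := by linarith

lemma En_of {N A : ℕ} {η : ℝ} (hη : 0 < η) (hη4 : η ≤ 1 / 4) (hA : 8 * (A : ℝ) ≤ η * (N : ℝ) ^ 2)
    {a : ℤ} (ha : a ∈ IA A) {n : ℕ} (hn : n ∈ Ioc N (2 * N)) (h : Bd N A (1 + η) (val a n)) :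
    n ∈ En N η := by
  obtain ⟨h1, h2⟩ := val_bounds ha n
  have hN0 : (0 : ℝ) ≤ N := Nat.cast_nonneg N
  have hn0 : (0 : ℝ) ≤ n := Nat.cast_nonneg n
  have hA0 : (0 : ℝ) ≤ A := Nat.cast_nonneg A
  unfold En
  rw [mem_filter]
  refine ⟨hn, ?_⟩
  have hq2 : (1 + η) ^ 2 ≤ 2 := by nlinarith
  rcases h with h | h
  · left
    by_contra hc
    push Not at hc
    have h3 : ((1 + 3 * η) * N) ^ 2 < (n : ℝ) ^ 2 := by gcongr
    have h4 : (1 + η) ^ 2 * (A : ℝ) ≤ 2 * A := mul_le_mul_of_nonneg_right hq2 hA0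
    have h5 : ((1 + 3 * η) * N) ^ 2 - (1 + η) ^ 2 * (N : ℝ) ^ 2 = (4 * η + 8 * η ^ 2) * (N : ℝ) ^ 2 := by ring
    have h6 : 0 ≤ η ^ 2 * (N : ℝ) ^ 2 := by positivity
    nlinarith
  · right
    by_contra hc
    push Not at hc
    have h3 : (n : ℝ) ^ 2 ≤ ((1 - 3 * η) * (2 * N)) ^ 2 := by gcongr
    have h4 : (1 + η) ^ 2 * (A : ℝ) ≤ 2 * A := mul_le_mul_of_nonneg_right hq2 hA0
    have h5 : (1 + η) ^ 2 * ((val a n : ℕ) : ℝ) ≤ (1 + η) ^ 2 * ((n : ℝ) ^ 2 + A) := by gcongr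
    have h6 : (1 + η) ^ 2 * (n : ℝ) ^ 2 ≤ (1 + η) ^ 2 * ((1 - 3 * η) * (2 * N)) ^ 2 := by gcongr
    have h7 : (1 + η) ^ 2 * (1 - 3 * η) ≤ 1 := by nlinarith [mul_pos hη hη, mul_pos (mul_pos hη hη) hη]
    have h8 : (1 + η) ^ 2 * ((1 - 3 * η) * (2 * N)) ^ 2 ≤ (1 - 3 * η) * (4 * (N : ℝ) ^ 2) := by
      have e1 : (1 + η) ^ 2 * ((1 - 3 * η) * (2 * N)) ^ 2
          = ((1 + η) ^ 2 * (1 - 3 * η)) * ((1 - 3 * η) * (4 * (N : ℝ) ^ 2)) := by ring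
      rw [e1]
      have : 0 ≤ (1 - 3 * η) * (4 * (N : ℝ) ^ 2) := mul_nonneg (by linarith) (by positivity)
      nlinarith
    nlinarith

lemma Em_of {N A : ℕ} {η : ℝ} (hη : 0 < η) (hη4 : η ≤ 1 / 4) (hA : 8 * (A : ℝ) ≤ η * (N : ℝ) ^ 2)
    {m : ℕ} (hm : m ∈ Ioc (N ^ 2) (4 * N ^ 2)) (h : Bd N A (1 + η) m) :
    m ∈ Ioc ⌊(N : ℝ) ^ 2⌋₊ ⌊(1 + 3 * η) * (N : ℝ) ^ 2⌋₊ ∪
      Ioc ⌊(1 - 3 * η) * (4 * (N : ℝ) ^ 2)⌋₊ ⌊4 * (N : ℝ) ^ 2⌋₊ := by
  have hA0 : (0 : ℝ) ≤ A := Nat.cast_nonneg A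
  have hN0 : (0 : ℝ) ≤ (N : ℝ) ^ 2 := by positivity
  rw [mem_Ioc] at hm
  rw [mem_union, mem_Ioc, mem_Ioc]
  have hq2 : (1 + η) ^ 2 ≤ 2 := by nlinarith
  have h4 : (1 + η) ^ 2 * (A : ℝ) ≤ 2 * A := mul_le_mul_of_nonneg_right hq2 hA0
  rcases h with h | h
  · left
    refine ⟨?_, Nat.le_floor ?_⟩
    · rw [show (N : ℝ) ^ 2 = ((N ^ 2 : ℕ) : ℝ) by push_cast; ring, Nat.floor_natCast]
      exact hm.1
    · nlinarith
  · right
    refine ⟨?_, Nat.le_floor ?_⟩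
    · rw [Nat.floor_lt (mul_nonneg (by linarith) (by positivity))]
      by_contra hc
      push Not at hc
      have h5 : (1 + η) ^ 2 * (m : ℝ) ≤ (1 + η) ^ 2 * ((1 - 3 * η) * (4 * (N : ℝ) ^ 2)) := by gcongr
      have h7 : (1 + η) ^ 2 * (1 - 3 * η) ≤ 1 - η := by
        nlinarith [mul_pos hη hη, mul_pos (mul_pos hη hη) hη]
      have h8 : (1 + η) ^ 2 * ((1 - 3 * η) * (4 * (N : ℝ) ^ 2)) ≤ (1 - η) * (4 * (N : ℝ) ^ 2) := by
        rw [← mul_assoc]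
        exact mul_le_mul_of_nonneg_right h7 (by positivity)
      nlinarith
    · exact_mod_cast hm.2

/-! ## the theorem -/

/-- the conclusion of BLK2 for given parameters -/
def BlkH (θ κ e e0 η : ℝ) (Q : ℕ) (c₁ c₂ : Multiset ℕ) : Prop := ∀ ϖ : ℝ, 0 < ϖ →
  ∃ w₀ : ℕ, ∀ w : ℕ, w₀ ≤ w → ∃ N₀ : ℕ, ∀ N A : ℕ, N₀ ≤ N → Adm θ N A → NearA N A (e0 / Q) e c₁ →
  ∀ K L : ℝ, (N : ℝ) ^ κ ≤ K → K ≤ (N : ℝ) ^ (1 - e) → (N : ℝ) ^ 2 / 2 ≤ K * L →
  K * L ≤ 5 * (N : ℝ) ^ 2 →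
  ∑ a ∈ IA A, |bil (8 * N) a (cut K ((1 + η) * K) (fun m => FF N (e0 / Q) c₁ m))
        (cut L ((1 + η) * L) (fun m => FF N (e0 / Q) c₂ m))
      - Gw w a * ∑ k ∈ Ioc ⌊K⌋₊ ⌊(1 + η) * K⌋₊, ∑ l ∈ Ioc ⌊L⌋₊ ⌊(1 + η) * L⌋₊,
          FF N (e0 / Q) c₁ k * FF N (e0 / Q) c₂ l / (2 * √((k : ℝ) * l))|
    ≤ ϖ * A * N / (Real.log N) ^ 2

lemma cut_nonneg' {x y : ℝ} {f : ℕ → ℝ} (hf : ∀ m, 0 ≤ f m) (m : ℕ) : 0 ≤ cut x y f m :=
  cut_nonneg hf m

/-- interior blocks: the sum over `n` is the full bilinear sum -/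
lemma int_cnt {N A T : ℕ} {κ e η : ℝ} (hN : 3 ≤ N) (hη : 0 < η) {g f : ℕ → ℝ} {x : ℕ × ℕ}
    (hx : x ∈ SI N A T κ e (1 + η)) {a : ℤ} (ha : a ∈ IA A) :
    ∑ n ∈ Ioc N (2 * N), conv (cut ((N : ℝ) ^ κ * (1 + η) ^ x.1)
        ((1 + η) * ((N : ℝ) ^ κ * (1 + η) ^ x.1)) g)
        (cut (1 * (1 + η) ^ x.2) ((1 + η) * (1 * (1 + η) ^ x.2)) f) (val a n)
      = bil (8 * N) a (cut ((N : ℝ) ^ κ * (1 + η) ^ x.1)
        ((1 + η) * ((N : ℝ) ^ κ * (1 + η) ^ x.1)) g)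
        (cut (1 * (1 + η) ^ x.2) ((1 + η) * (1 * (1 + η) ^ x.2)) f) := by
  have hN0 : (0 : ℝ) < N := by exact_mod_cast (by omega : 0 < N)
  unfold bil
  refine sum_subset ?_ ?_
  · intro n hn
    rw [mem_Ioc] at hn
    rw [mem_Icc]
    omega
  · intro n hn hn2
    by_contra hne
    apply hn2
    obtain ⟨h1, h2⟩ := conv_supp (by positivity) (by positivity) (by positivity) hne
    obtain ⟨_, h3, h4, _⟩ := mem_filter.1 hx
    obtain ⟨v1, v2⟩ := val_bounds ha n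
    have h5 : (N : ℝ) ^ 2 < (n : ℝ) ^ 2 := by linarith
    have h6 : (n : ℝ) ^ 2 ≤ (2 * (N : ℝ)) ^ 2 := by nlinarith
    rw [mem_Ioc]
    constructor
    · exact_mod_cast lt_of_pow_lt_pow_left₀ 2 (Nat.cast_nonneg n) h5
    · exact_mod_cast le_of_sq_le_sq h6 (by positivity)

/-- interior blocks: the model sum -/
lemma int_model {N A T : ℕ} {κ e η : ℝ} (hN : 3 ≤ N) (hη : 0 < η) {g f : ℕ → ℝ} {x : ℕ × ℕ}
    (hx : x ∈ SI N A T κ e (1 + η)) {K L : ℝ} (hK : K = (N : ℝ) ^ κ * (1 + η) ^ x.1)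
    (hL : L = 1 * (1 + η) ^ x.2) :
    ∑ m ∈ Ioc (N ^ 2) (4 * N ^ 2), conv (cut K ((1 + η) * K) g) (cut L ((1 + η) * L) f) m
        * (1 / (2 * √(m : ℝ)))
      = ∑ k ∈ Ioc ⌊K⌋₊ ⌊(1 + η) * K⌋₊, ∑ l ∈ Ioc ⌊L⌋₊ ⌊(1 + η) * L⌋₊,
          g k * f l / (2 * √((k : ℝ) * l)) := by
  have hN0 : (0 : ℝ) < N := by exact_mod_cast (by omega : 0 < N)
  have hK0 : 0 < K := by rw [hK]; positivity
  have hL0 : 0 < L := by rw [hL]; positivity
  have hmem : ∀ {X : ℝ} (h : ℕ → ℝ) (k : ℕ), 0 < X → cut X ((1 + η) * X) h k ≠ 0 →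
      k ∈ Ioc ⌊X⌋₊ ⌊(1 + η) * X⌋₊ := by
    intro X h k hX hk
    obtain ⟨h1, h2⟩ := cut_ne hk
    rw [mem_Ioc]
    exact ⟨(Nat.floor_lt hX.le).2 h1, Nat.le_floor h2⟩
  rw [sum_conv (SA := Ioc ⌊K⌋₊ ⌊(1 + η) * K⌋₊) (SB := Ioc ⌊L⌋₊ ⌊(1 + η) * L⌋₊)
    (φ := fun m => 1 / (2 * √(m : ℝ))) (fun k hk => hmem g k hK0 hk) (fun k hk => hmem f k hL0 hk)]
  · refine sum_congr rfl fun k hk => sum_congr rfl fun l hl => ?_
    obtain ⟨a1, a2⟩ := mem_blk hK0.le hη.le hk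
    obtain ⟨b1, b2⟩ := mem_blk hL0.le hη.le hl
    rw [cut_of a1 a2, cut_of b1 b2]
    push_cast
    ring
  · intro m hm
    rw [mem_Ioc] at hm
    omega
  · intro k hk l hl _ _
    obtain ⟨a1, a2⟩ := mem_blk hK0.le hη.le hk
    obtain ⟨b1, b2⟩ := mem_blk hL0.le hη.le hl
    obtain ⟨_, h3, h4, _⟩ := mem_filter.1 hx
    rw [← hK, ← hL] at h3 h4
    have hA0 : (0 : ℝ) ≤ A := Nat.cast_nonneg A
    have h5 : K * L < (k : ℝ) * l := mul_lt_mul'' a1 b1 hK0.le hL0.le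
    have h6 : (k : ℝ) * l ≤ (1 + η) ^ 2 * (K * L) := by
      calc (k : ℝ) * l ≤ ((1 + η) * K) * ((1 + η) * L) := by gcongr
        _ = _ := by ring
    rw [mem_Ioc]
    constructor
    · have : ((N ^ 2 : ℕ) : ℝ) < ((k * l : ℕ) : ℝ) := by push_cast; linarith
      exact_mod_cast this
    · have : ((k * l : ℕ) : ℝ) ≤ ((4 * N ^ 2 : ℕ) : ℝ) := by push_cast; linarith
      exact_mod_cast this

/-- the contribution of the other blocks -/
lemma ext_le {N A T : ℕ} {κ e η : ℝ} (hN : 3 ≤ N) (hη : 0 < η) {g f : ℕ → ℝ} (hg0 : ∀ k, 0 ≤ g k)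
    (hf0 : ∀ k, 0 ≤ f k) (hg : ∀ k, g k ≠ 0 → (k : ℝ) ≤ (N : ℝ) ^ (1 - e))
    (hgd : ∀ k, g k = ∑ i ∈ range T, cut ((N : ℝ) ^ κ * (1 + η) ^ i)
      ((1 + η) * ((N : ℝ) ^ κ * (1 + η) ^ i)) g k)
    (hfd : ∀ k, f k = ∑ i ∈ range T, cut (1 * (1 + η) ^ i) ((1 + η) * (1 * (1 + η) ^ i)) f k)
    (m : ℕ) :
    0 ≤ ∑ x ∈ (range T ×ˢ range T) \ SI N A T κ e (1 + η),
      conv (cut ((N : ℝ) ^ κ * (1 + η) ^ x.1) ((1 + η) * ((N : ℝ) ^ κ * (1 + η) ^ x.1)) g)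
        (cut (1 * (1 + η) ^ x.2) ((1 + η) * (1 * (1 + η) ^ x.2)) f) m ∧
    ∑ x ∈ (range T ×ˢ range T) \ SI N A T κ e (1 + η),
      conv (cut ((N : ℝ) ^ κ * (1 + η) ^ x.1) ((1 + η) * ((N : ℝ) ^ κ * (1 + η) ^ x.1)) g)
        (cut (1 * (1 + η) ^ x.2) ((1 + η) * (1 * (1 + η) ^ x.2)) f) m
      ≤ if Bd N A (1 + η) m then conv g f m else 0 := by
  have hcn : ∀ x : ℕ × ℕ, 0 ≤ conv (cut ((N : ℝ) ^ κ * (1 + η) ^ x.1)
      ((1 + η) * ((N : ℝ) ^ κ * (1 + η) ^ x.1)) g)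
      (cut (1 * (1 + η) ^ x.2) ((1 + η) * (1 * (1 + η) ^ x.2)) f) m := fun x =>
    conv_nonneg (fun k => cut_nonneg hg0 k) (fun k => cut_nonneg hf0 k) m
  refine ⟨sum_nonneg fun x _ => hcn x, ?_⟩
  split_ifs with hb
  · rw [conv_sum T hgd hfd]
    exact sum_le_sum_of_subset_of_nonneg sdiff_subset fun x _ _ => hcn x
  · refine (sum_eq_zero fun x hx => ?_).le
    have hx1 := Finset.mem_sdiff.1 hx
    by_contra hne
    exact hb (bd_of hN (by linarith) hg hx1.1 hx1.2 hne)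

theorem core {θ κ e e0 ϖ : ℝ} {Q : ℕ} {c₁ c₂ : Multiset ℕ} (hκ : 2 / 3 ≤ κ) (hθ : 3 / 5 < θ)
    (he : 0 < e) (he0 : 0 < e0) (he1 : e0 ≤ 1 / 10) (hϖ : 0 < ϖ)
    (hQ : 1 ≤ Q) (hc₁ : ∀ i ∈ c₁, Q ≤ i) (hc₂ : ∀ i ∈ c₂, Q ≤ i) (hc0 : c₂ ≠ 0)
    (hmid : MidK κ (e0 / Q) e c₁)
    (hB : ∀ η : ℝ, 0 < η → η ≤ 1 / 4 → BlkH θ κ e e0 η Q c₁ c₂) (hEDGE : SpecEDGE) (hBT : SpecBT)
    (hFFB : SpecFFB) (hGMAX : SpecGMAX) (hGMEAN : SpecGMEAN) :
    ∃ w₀ : ℕ, ∀ w : ℕ, w₀ ≤ w → ∃ N₀ : ℕ, ∀ N A : ℕ, N₀ ≤ N → Adm θ N A → NearA N A (e0 / Q) e c₁ →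
    ∑ a ∈ IA A, |cnt N a (fun m => FF N (e0 / Q) (c₁ + c₂) m)
        - Gw w a * model N (fun m => FF N (e0 / Q) (c₁ + c₂) m)| ≤ ϖ * A * N / Real.log N := by
  have hQ0 : (0 : ℝ) < Q := by exact_mod_cast hQ
  set F : ℝ := ((Multiset.card (c₁ + c₂)).factorial : ℝ) with hF
  have hF0 : 0 < F := by positivity
  obtain ⟨CE, hCE, hE⟩ := hEDGE
  obtain ⟨CS, hCS, hCS'⟩ := rough_sum hBT he0 he1
  set η : ℝ := min (1 / 4) (min (ϖ * e0 / (40 * F * CE)) (ϖ / (96 * F * CS))) with hηd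
  have hη : 0 < η := by
    rw [hηd]
    exact lt_min (by norm_num) (lt_min (by positivity) (by positivity))
  have hη4 : η ≤ 1 / 4 := min_le_left _ _
  have hη1 : η * (40 * F * CE) ≤ ϖ * e0 := by
    rw [← le_div_iff₀ (by positivity)]
    exact (min_le_right _ _).trans (min_le_left _ _)
  have hη2 : η * (96 * F * CS) ≤ ϖ := by
    rw [← le_div_iff₀ (by positivity)]
    exact (min_le_right _ _).trans (min_le_right _ _)
  have hq : 1 < 1 + η := by linarith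
  have hq0 : 0 < 1 + η := by linarith
  have hlq : 0 < Real.log (1 + η) := Real.log_pos hq
  obtain ⟨D, hD⟩ := pow_unbounded_of_one_lt (4 : ℝ) hq
  set CN : ℝ := ((D : ℝ) + 1) * (1 / Real.log (1 + η) + 1) with hCN
  have hCN0 : 0 < CN := by positivity
  obtain ⟨w₀, hw₀⟩ := hB η hη hη4 (ϖ / (4 * CN)) (by positivity)
  refine ⟨max w₀ 2, fun w hw => ?_⟩
  have hwa : w₀ ≤ w := (le_max_left _ _).trans hw
  have hwb : 2 ≤ w := (le_max_right _ _).trans hw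
  obtain ⟨N₁, hN₁⟩ := hw₀ w hwa
  obtain ⟨cG, hcG, hG⟩ := hGMAX w hwb
  obtain ⟨A₀, hA₀⟩ := hGMEAN w
  have hG0 : ∀ a, 0 ≤ Gw w a := fun a => hcG.le.trans (hG a).1
  have hev : ∀ᶠ N : ℕ in atTop, ∀ A : ℕ, Adm θ N A → NearA N A (e0 / Q) e c₁ →
      ∑ a ∈ IA A, |cnt N a (fun m => FF N (e0 / Q) (c₁ + c₂) m)
        - Gw w a * model N (fun m => FF N (e0 / Q) (c₁ + c₂) m)| ≤ ϖ * A * N / Real.log N := by
    filter_upwards [eventually_ge_atTop 3, eventually_ge_atTop N₁, hCS', ev_log 1,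
      ev_const (show (0 : ℝ) < θ by linarith) A₀, ev_const he0 2,
      ev_logpow (show (0 : ℝ) < 1 by norm_num) (8 / η),
      ev_const (show (0 : ℝ) < 1 by norm_num) (2 / η)] with N hN3 hNN₁ hcs hl1 hNA hz2 hlp hNη
      A hA hnear
    have hN1 : (1 : ℝ) < N := by exact_mod_cast (by omega : 1 < N)
    have hN0 : (0 : ℝ) < N := by linarith
    have hlog : 0 < Real.log N := by linarith
    rw [Real.rpow_one] at hlp hNη
    have hηN : 2 ≤ η * N := by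
      rw [div_le_iff₀ hη] at hNη
      linarith
    have hA0 : (0 : ℝ) ≤ A := Nat.cast_nonneg A
    have h8A : 8 * (A : ℝ) ≤ η * (N : ℝ) ^ 2 := by
      have h1 : 8 / η * Real.log N = (8 * Real.log N) / η := by ring
      rw [h1, div_le_iff₀ hη] at hlp
      nlinarith [hA.2]
    have hAA : A₀ ≤ A := by
      have := hNA.trans hA.1
      exact_mod_cast this
    have hGm := hA₀ A hAA
    -- the functions
    set g : ℕ → ℝ := fun m => FF N (e0 / Q) c₁ m with hg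
    set f : ℕ → ℝ := fun m => FF N (e0 / Q) c₂ m with hf
    set h : ℕ → ℝ := fun m => FF N (e0 / Q) (c₁ + c₂) m with hh
    have hhc : ∀ m, h m = conv g f m := fun m => FF_conv N (e0 / Q) c₁ c₂ m
    have hFg := fun m => hFFB N (e0 / Q) c₁ m (by omega) (by positivity)
    have hFf := fun m => hFFB N (e0 / Q) c₂ m (by omega) (by positivity)
    have hg0 : ∀ m, 0 ≤ g m := fun m => (hFg m).1
    have hf0 : ∀ m, 0 ≤ f m := fun m => (hFf m).1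
    have hh0 : ∀ m, 0 ≤ h m := fun m => by
      rw [hhc]; exact conv_nonneg hg0 hf0 m
    have hhr : ∀ m, h m ≤ F * rInd ((N : ℝ) ^ e0) m := fun m => by
      refine (FF_facts hFFB he0 hQ (c := c₁ + c₂) ?_ (by omega : 2 ≤ N) m).2
      intro i hi
      rcases Multiset.mem_add.1 hi with h1 | h1
      · exact hc₁ i h1
      · exact hc₂ i h1
    have hgs : ∀ k, g k ≠ 0 → (N : ℝ) ^ κ < k ∧ (k : ℝ) ≤ (N : ℝ) ^ (1 - e) := by
      intro k hk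
      obtain ⟨_, h1, h2, _⟩ := (hFg k).2.2 hk
      constructor
      · refine lt_of_lt_of_le (Real.rpow_lt_rpow_of_exponent_lt hN1 (by linarith : κ < κ + e)) ?_
        exact (Real.rpow_le_rpow_of_exponent_le hN1.le hmid.1).trans h1
      · exact h2.trans (Real.rpow_le_rpow_of_exponent_le hN1.le hmid.2)
    have hfs : ∀ k, f k ≠ 0 → (1 : ℝ) < k ∧
        (k : ℝ) ≤ (N : ℝ) ^ (e0 / Q * ((c₂.sum : ℝ) + (Multiset.card c₂ : ℝ))) := by
      intro k hk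
      obtain ⟨_, h1, h2, _⟩ := (hFf k).2.2 hk
      refine ⟨lt_of_lt_of_le ?_ h1, h2⟩
      apply Real.one_lt_rpow hN1
      have h3 : 0 < c₂.sum := by
        obtain ⟨i, hi⟩ := Multiset.exists_mem_of_ne_zero hc0
        have h4 := Multiset.single_le_sum (fun x _ => Nat.zero_le x) i hi
        have := hc₂ i hi
        omega
      have : (0 : ℝ) < c₂.sum := by exact_mod_cast h3
      positivity
    obtain ⟨T, hT⟩ := pow_unbounded_of_one_lt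
      (max (N : ℝ) ((N : ℝ) ^ (e0 / Q * ((c₂.sum : ℝ) + (Multiset.card c₂ : ℝ))))) hq
    have hT1 : (N : ℝ) ≤ (1 + η) ^ T := (le_max_left _ _).trans hT.le
    have hT2 : (N : ℝ) ^ (e0 / Q * ((c₂.sum : ℝ) + (Multiset.card c₂ : ℝ))) ≤ (1 + η) ^ T :=
      (le_max_right _ _).trans hT.le
    have hκ1 : 1 ≤ (N : ℝ) ^ κ := Real.one_le_rpow hN1.le (by linarith)
    have hκ0 : 0 < (N : ℝ) ^ κ := by linarith
    have hgd : ∀ k, g k = ∑ i ∈ range T, cut ((N : ℝ) ^ κ * (1 + η) ^ i)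
        ((1 + η) * ((N : ℝ) ^ κ * (1 + η) ^ i)) g k := fun k => by
      refine cut_tele hκ0 hq T g k fun hk => ?_
      obtain ⟨h1, h2⟩ := hgs k hk
      refine ⟨h1, h2.trans ?_⟩
      calc (N : ℝ) ^ (1 - e) ≤ (N : ℝ) ^ (1 : ℝ) := Real.rpow_le_rpow_of_exponent_le hN1.le (by linarith)
        _ = 1 * N := by rw [Real.rpow_one, one_mul]
        _ ≤ (N : ℝ) ^ κ * (1 + η) ^ T := mul_le_mul hκ1 hT1 hN0.le hκ0.le
    have hfd : ∀ k, f k = ∑ i ∈ range T, cut (1 * (1 + η) ^ i) ((1 + η) * (1 * (1 + η) ^ i)) f k :=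
      fun k => by
      refine cut_tele one_pos hq T f k fun hk => ?_
      obtain ⟨h1, h2⟩ := hfs k hk
      exact ⟨h1, by rw [one_mul]; exact h2.trans hT2⟩
    -- abbreviations
    set G : ℕ → ℕ → ℝ := fun i => cut ((N : ℝ) ^ κ * (1 + η) ^ i)
        ((1 + η) * ((N : ℝ) ^ κ * (1 + η) ^ i)) g with hGd
    set H : ℕ → ℕ → ℝ := fun i => cut (1 * (1 + η) ^ i) ((1 + η) * (1 * (1 + η) ^ i)) f with hHd
    set S := SI N A T κ e (1 + η) with hS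
    have hSsub : S ⊆ range T ×ˢ range T := filter_subset _ _
    have hcn : ∀ (x : ℕ × ℕ) m, 0 ≤ conv (G x.1) (H x.2) m := fun x m =>
      conv_nonneg (fun k => cut_nonneg hg0 k) (fun k => cut_nonneg hf0 k) m
    have hext := ext_le (A := A) (T := T) (κ := κ) (e := e) hN3 hη hg0 hf0 (fun k hk => (hgs k hk).2) hgd hfd
    -- decomposition of the two sums
    have hcnt : ∀ a, cnt N a h = ∑ x ∈ S, ∑ n ∈ Ioc N (2 * N), conv (G x.1) (H x.2) (val a n)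
        + ∑ n ∈ Ioc N (2 * N), ∑ x ∈ (range T ×ˢ range T) \ S, conv (G x.1) (H x.2) (val a n) := by
      intro a
      rw [sum_comm (s := S), ← sum_add_distrib]
      unfold cnt
      refine sum_congr rfl fun n _ => ?_
      rw [hhc, conv_sum T hgd hfd, ← sum_sdiff hSsub, add_comm]
    have hmod : model N h = ∑ x ∈ S, ∑ m ∈ Ioc (N ^ 2) (4 * N ^ 2),
          conv (G x.1) (H x.2) m * (1 / (2 * √(m : ℝ)))
        + ∑ m ∈ Ioc (N ^ 2) (4 * N ^ 2), (∑ x ∈ (range T ×ˢ range T) \ S, conv (G x.1) (H x.2) m)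
          * (1 / (2 * √(m : ℝ))) := by
      rw [sum_comm (s := S), ← sum_add_distrib]
      unfold model
      refine sum_congr rfl fun m _ => ?_
      rw [hhc, conv_sum T hgd hfd, ← sum_sdiff hSsub, ← sum_mul, ← add_mul, add_comm, mul_one_div]
    -- bounds for the exterior parts
    set EC : ℤ → ℝ := fun a => ∑ n ∈ Ioc N (2 * N), ∑ x ∈ (range T ×ˢ range T) \ S,
      conv (G x.1) (H x.2) (val a n) with hEC
    set EM : ℝ := ∑ m ∈ Ioc (N ^ 2) (4 * N ^ 2), (∑ x ∈ (range T ×ˢ range T) \ S,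
      conv (G x.1) (H x.2) m) * (1 / (2 * √(m : ℝ))) with hEM
    have hEC0 : ∀ a, 0 ≤ EC a := fun a => sum_nonneg fun n _ => (hext (val a n)).1
    have hEM0 : 0 ≤ EM := sum_nonneg fun m _ => mul_nonneg (hext m).1 (by positivity)
    have hECs : ∑ a ∈ IA A, EC a ≤ ϖ / 4 * A * N / Real.log N := by
      have h1 : ∀ a ∈ IA A, EC a ≤ ∑ n ∈ En N η, F * rInd ((N : ℝ) ^ e0) (val a n) := by
        intro a ha
        have h2 : ∀ n ∈ Ioc N (2 * N), ∑ x ∈ (range T ×ˢ range T) \ S, conv (G x.1) (H x.2) (val a n)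
            ≤ if n ∈ En N η then F * rInd ((N : ℝ) ^ e0) (val a n) else 0 := by
          intro n hn
          refine (hext (val a n)).2.trans ?_
          by_cases hb : Bd N A (1 + η) (val a n)
          · rw [if_pos hb, if_pos (En_of hη hη4 h8A ha hn hb), ← hhc]
            exact hhr _
          · rw [if_neg hb]
            split_ifs
            · exact mul_nonneg hF0.le (rInd_nonneg _ _)
            · exact le_rfl
        refine (sum_le_sum h2).trans (le_of_eq ?_)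
        rw [← sum_filter]
        congr 1
        ext n
        rw [mem_filter]
        exact ⟨fun h => h.2, fun h => ⟨(mem_filter.1 h).1, h⟩⟩
      refine (sum_le_sum h1).trans ?_
      rw [sum_comm]
      have hz4 : ((N : ℝ) ^ e0) ^ 4 ≤ A := by
        calc ((N : ℝ) ^ e0) ^ 4 = (N : ℝ) ^ (e0 * 4) := by
              rw [← Real.rpow_natCast, ← Real.rpow_mul hN0.le]; norm_num
          _ ≤ (N : ℝ) ^ θ := Real.rpow_le_rpow_of_exponent_le hN1.le (by linarith)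
          _ ≤ A := hA.1
      have h3 : ∀ n ∈ En N η, ∑ a ∈ IA A, F * rInd ((N : ℝ) ^ e0) (val a n)
          ≤ F * (CE * A / (e0 * Real.log N)) := by
        intro n _
        rw [← mul_sum]
        refine mul_le_mul_of_nonneg_left ?_ hF0.le
        have := hE ((N : ℝ) ^ e0) A n hz2 hz4
        rwa [Real.log_rpow hN0] at this
      refine (sum_le_sum h3).trans ?_
      rw [sum_const, nsmul_eq_mul]
      have h4 := card_En hη hη4 (by linarith : 1 ≤ η * N)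
      calc ((En N η).card : ℝ) * (F * (CE * A / (e0 * Real.log N)))
          ≤ (10 * η * N) * (F * (CE * A / (e0 * Real.log N))) := by gcongr
        _ = (η * (40 * F * CE)) * (A * N / (4 * e0 * Real.log N)) := by field_simp; ring
        _ ≤ (ϖ * e0) * (A * N / (4 * e0 * Real.log N)) := by gcongr
        _ = ϖ / 4 * A * N / Real.log N := by field_simp
    have hEMs : EM ≤ ϖ / 12 * N / Real.log N := by
      have h1 : EM ≤ ∑ m ∈ Ioc ⌊(N : ℝ) ^ 2⌋₊ ⌊(1 + 3 * η) * (N : ℝ) ^ 2⌋₊ ∪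
          Ioc ⌊(1 - 3 * η) * (4 * (N : ℝ) ^ 2)⌋₊ ⌊4 * (N : ℝ) ^ 2⌋₊,
          F * rInd ((N : ℝ) ^ e0) m * (1 / (2 * N)) := by
        have h2 : ∀ m ∈ Ioc (N ^ 2) (4 * N ^ 2), (∑ x ∈ (range T ×ˢ range T) \ S,
            conv (G x.1) (H x.2) m) * (1 / (2 * √(m : ℝ)))
            ≤ if m ∈ Ioc ⌊(N : ℝ) ^ 2⌋₊ ⌊(1 + 3 * η) * (N : ℝ) ^ 2⌋₊ ∪
              Ioc ⌊(1 - 3 * η) * (4 * (N : ℝ) ^ 2)⌋₊ ⌊4 * (N : ℝ) ^ 2⌋₊ then
              F * rInd ((N : ℝ) ^ e0) m * (1 / (2 * N)) else 0 := by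
          intro m hm
          have hmN : (N : ℝ) ≤ √(m : ℝ) := by
            rw [Real.le_sqrt hN0.le (Nat.cast_nonneg m)]
            have := (mem_Ioc.1 hm).1
            exact_mod_cast this.le
          have h3 : 1 / (2 * √(m : ℝ)) ≤ 1 / (2 * (N : ℝ)) := by gcongr
          by_cases hb : Bd N A (1 + η) m
          · rw [if_pos (Em_of hη hη4 h8A hm hb)]
            have h4 := (hext m).2
            rw [if_pos hb, ← hhc] at h4
            exact mul_le_mul (h4.trans (hhr m)) h3 (by positivity)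
              (mul_nonneg hF0.le (rInd_nonneg _ _))
          · have h4 := (hext m).2
            rw [if_neg hb] at h4
            have h5 := le_antisymm h4 (hext m).1
            rw [h5, zero_mul]
            split_ifs
            · exact mul_nonneg (mul_nonneg hF0.le (rInd_nonneg _ _)) (by positivity)
            · exact le_rfl
        refine (sum_le_sum h2).trans ?_
        rw [← sum_filter]
        refine sum_le_sum_of_subset_of_nonneg ?_ ?_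
        · intro m hm
          exact (mem_filter.1 hm).2
        · intro m _ _
          exact mul_nonneg (mul_nonneg hF0.le (rInd_nonneg _ _)) (by positivity)
      have hN15 : (N : ℝ) ^ (1 / 5 : ℝ) ≤ N := by
        calc (N : ℝ) ^ (1 / 5 : ℝ) ≤ (N : ℝ) ^ (1 : ℝ) :=
              Real.rpow_le_rpow_of_exponent_le hN1.le (by norm_num)
          _ = N := Real.rpow_one _
      have hη2N : 2 * (N : ℝ) ≤ η * (N : ℝ) ^ 2 := by nlinarith
      have h5 := hcs ((N : ℝ) ^ 2) ((1 + 3 * η) * (N : ℝ) ^ 2) (by positivity) (by nlinarith)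
      have h6 := hcs ((1 - 3 * η) * (4 * (N : ℝ) ^ 2)) (4 * (N : ℝ) ^ 2)
        (mul_nonneg (by linarith) (by positivity)) (by nlinarith)
      refine h1.trans ?_
      rw [← sum_mul, ← mul_sum]
      have h7 : ∑ m ∈ Ioc ⌊(N : ℝ) ^ 2⌋₊ ⌊(1 + 3 * η) * (N : ℝ) ^ 2⌋₊ ∪
          Ioc ⌊(1 - 3 * η) * (4 * (N : ℝ) ^ 2)⌋₊ ⌊4 * (N : ℝ) ^ 2⌋₊, rInd ((N : ℝ) ^ e0) m
          ≤ CS * ((1 + 3 * η) * (N : ℝ) ^ 2 - (N : ℝ) ^ 2) / Real.log N
            + CS * (4 * (N : ℝ) ^ 2 - (1 - 3 * η) * (4 * (N : ℝ) ^ 2)) / Real.log N := by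
        refine le_trans ?_ (add_le_add h5 h6)
        rw [← sum_union_inter]
        exact le_add_of_nonneg_right (sum_nonneg fun m _ => rInd_nonneg _ _)
      calc F * (∑ m ∈ Ioc ⌊(N : ℝ) ^ 2⌋₊ ⌊(1 + 3 * η) * (N : ℝ) ^ 2⌋₊ ∪
          Ioc ⌊(1 - 3 * η) * (4 * (N : ℝ) ^ 2)⌋₊ ⌊4 * (N : ℝ) ^ 2⌋₊, rInd ((N : ℝ) ^ e0) m) * (1 / (2 * N))
          ≤ F * (CS * ((1 + 3 * η) * (N : ℝ) ^ 2 - (N : ℝ) ^ 2) / Real.log N
            + CS * (4 * (N : ℝ) ^ 2 - (1 - 3 * η) * (4 * (N : ℝ) ^ 2)) / Real.log N) * (1 / (2 * N)) := by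
            gcongr
        _ = (η * (96 * F * CS)) * (15 / 192 * N / Real.log N) := by field_simp; ring
        _ ≤ ϖ * (15 / 192 * N / Real.log N) := by gcongr
        _ ≤ ϖ / 12 * N / Real.log N := by
            have : 0 ≤ ϖ * (N / Real.log N) := by positivity
            have e1 : ϖ * (15 / 192 * N / Real.log N) = 15 / 192 * (ϖ * (N / Real.log N)) := by ring
            have e2 : ϖ / 12 * N / Real.log N = 1 / 12 * (ϖ * (N / Real.log N)) := by ring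
            rw [e1, e2]
            nlinarith
    -- the interior blocks
    have hint : ∀ x ∈ S, ∑ a ∈ IA A, |∑ n ∈ Ioc N (2 * N), conv (G x.1) (H x.2) (val a n)
        - Gw w a * ∑ m ∈ Ioc (N ^ 2) (4 * N ^ 2), conv (G x.1) (H x.2) m * (1 / (2 * √(m : ℝ)))|
        ≤ ϖ / (4 * CN) * A * N / (Real.log N) ^ 2 := by
      intro x hx
      obtain ⟨_, h3, h4, h5⟩ := mem_filter.1 hx
      have hqq : 1 ≤ (1 + η) ^ x.1 := one_le_pow₀ hq.le
      have hKL0 : 0 ≤ (N : ℝ) ^ κ * (1 + η) ^ x.1 * (1 * (1 + η) ^ x.2) := by positivity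
      have hq2 : 1 ≤ (1 + η) ^ 2 := one_le_pow₀ hq.le
      have h6 := hN₁ N A hNN₁ hA hnear ((N : ℝ) ^ κ * (1 + η) ^ x.1) (1 * (1 + η) ^ x.2)
        (le_mul_of_one_le_right hκ0.le hqq) h5 (by nlinarith) (by nlinarith)
      refine le_trans (le_of_eq ?_) h6
      refine sum_congr rfl fun a ha => ?_
      rw [int_cnt hN3 hη hx ha, int_model hN3 hη hx rfl rfl]
    have hcard := card_SI (T := T) (A := A) (e := e) hN3 (by linarith : 0 ≤ κ) he hq hD.le hl1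
    rw [← hS, ← hCN] at hcard
    have hsum1 : ∑ a ∈ IA A, ∑ x ∈ S, |∑ n ∈ Ioc N (2 * N), conv (G x.1) (H x.2) (val a n)
        - Gw w a * ∑ m ∈ Ioc (N ^ 2) (4 * N ^ 2), conv (G x.1) (H x.2) m * (1 / (2 * √(m : ℝ)))|
        ≤ ϖ / 4 * A * N / Real.log N := by
      rw [sum_comm]
      refine (sum_le_sum hint).trans ?_
      rw [sum_const, nsmul_eq_mul]
      calc (S.card : ℝ) * (ϖ / (4 * CN) * A * N / (Real.log N) ^ 2)
          ≤ (CN * Real.log N) * (ϖ / (4 * CN) * A * N / (Real.log N) ^ 2) := by gcongr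
        _ = _ := by field_simp
    -- assembly
    have hfin : ∀ a ∈ IA A, |cnt N a h - Gw w a * model N h|
        ≤ ∑ x ∈ S, |∑ n ∈ Ioc N (2 * N), conv (G x.1) (H x.2) (val a n)
        - Gw w a * ∑ m ∈ Ioc (N ^ 2) (4 * N ^ 2), conv (G x.1) (H x.2) m * (1 / (2 * √(m : ℝ)))|
        + EC a + EM * Gw w a := by
      intro a _
      rw [hcnt, hmod]
      have e1 : (∑ x ∈ S, ∑ n ∈ Ioc N (2 * N), conv (G x.1) (H x.2) (val a n) + EC a)
          - Gw w a * (∑ x ∈ S, ∑ m ∈ Ioc (N ^ 2) (4 * N ^ 2),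
            conv (G x.1) (H x.2) m * (1 / (2 * √(m : ℝ))) + EM)
          = ∑ x ∈ S, (∑ n ∈ Ioc N (2 * N), conv (G x.1) (H x.2) (val a n)
            - Gw w a * ∑ m ∈ Ioc (N ^ 2) (4 * N ^ 2), conv (G x.1) (H x.2) m * (1 / (2 * √(m : ℝ))))
            + EC a - EM * Gw w a := by
        rw [sum_sub_distrib, ← mul_sum]
        ring
      rw [e1]
      refine (abs_sub _ _).trans (add_le_add ((abs_add_le _ _).trans (add_le_add
        (abs_sum_le_sum_abs _ _) (abs_of_nonneg (hEC0 a)).le))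
        (abs_of_nonneg (mul_nonneg hEM0 (hG0 a))).le)
    refine (sum_le_sum hfin).trans ?_
    rw [sum_add_distrib, sum_add_distrib, ← mul_sum]
    have hlast : EM * ∑ a ∈ IA A, Gw w a ≤ ϖ / 4 * A * N / Real.log N := by
      calc EM * ∑ a ∈ IA A, Gw w a ≤ (ϖ / 12 * N / Real.log N) * (3 * A) := by
            apply mul_le_mul hEMs hGm (sum_nonneg fun a _ => hG0 a) (by positivity)
        _ = _ := by ring
    calc _ ≤ ϖ / 4 * A * N / Real.log N + ϖ / 4 * A * N / Real.log N + ϖ / 4 * A * N / Real.log N :=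
          add_le_add (add_le_add hsum1 hECs) hlast
      _ ≤ ϖ * A * N / Real.log N := by
          have : 0 ≤ ϖ * A * N / Real.log N := by positivity
          have e1 : ϖ / 4 * A * N / Real.log N = 1 / 4 * (ϖ * A * N / Real.log N) := by ring
          rw [e1]
          linarith
  obtain ⟨N₀, hN₀⟩ := eventually_atTop.1 hev
  exact ⟨N₀, fun N A hN hA hnear => hN₀ N hN A hA hnear⟩

/-- the trivial case `c₂ = 0` -/
theorem core0 {θ κ e e0 ϖ : ℝ} {Q : ℕ} {c₁ : Multiset ℕ}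
    (he : 0 < e) (he0 : 0 < e0) (hϖ : 0 < ϖ)
    (hQ : 1 ≤ Q) (hmid : MidK κ (e0 / Q) e c₁) (hFFB : SpecFFB) :
    ∃ w₀ : ℕ, ∀ w : ℕ, w₀ ≤ w → ∃ N₀ : ℕ, ∀ N A : ℕ, N₀ ≤ N → Adm θ N A → NearA N A (e0 / Q) e c₁ →
    ∑ a ∈ IA A, |cnt N a (fun m => FF N (e0 / Q) (c₁ + 0) m)
        - Gw w a * model N (fun m => FF N (e0 / Q) (c₁ + 0) m)| ≤ ϖ * A * N / Real.log N := by
  have hQ0 : (0 : ℝ) < Q := by exact_mod_cast hQ
  refine ⟨0, fun w _ => ?_⟩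
  have hev : ∀ᶠ N : ℕ in atTop, ∀ A : ℕ, Adm θ N A → NearA N A (e0 / Q) e c₁ →
      ∑ a ∈ IA A, |cnt N a (fun m => FF N (e0 / Q) (c₁ + 0) m)
        - Gw w a * model N (fun m => FF N (e0 / Q) (c₁ + 0) m)| ≤ ϖ * A * N / Real.log N := by
    filter_upwards [eventually_ge_atTop 3, ev_log 1, ev_logpow (show (0 : ℝ) < 1 by norm_num) 4]
      with N hN3 hl1 hlp A hA _
    have hN1 : (1 : ℝ) < N := by exact_mod_cast (by omega : 1 < N)
    have hN0 : (0 : ℝ) < N := lt_trans one_pos hN1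
    have hN3' : (3 : ℝ) ≤ N := by exact_mod_cast hN3
    rw [Real.rpow_one] at hlp
    have hA0 : (0 : ℝ) ≤ A := Nat.cast_nonneg A
    have h4A : 4 * (A : ℝ) ≤ (N : ℝ) ^ 2 := by nlinarith [hA.2]
    have hz : ∀ m : ℕ, (N : ℝ) < m → FF N (e0 / Q) (c₁ + 0) m = 0 := by
      intro m hm
      rw [add_zero]
      by_contra hne
      obtain ⟨_, _, h2, _⟩ := (hFFB N (e0 / Q) c₁ m (by omega) (by positivity)).2.2 hne
      have h3 : (m : ℝ) ≤ (N : ℝ) ^ (1 : ℝ) :=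
        h2.trans (Real.rpow_le_rpow_of_exponent_le hN1.le (hmid.2.trans (by linarith)))
      rw [Real.rpow_one] at h3
      linarith
    have h1 : ∀ a ∈ IA A, |cnt N a (fun m => FF N (e0 / Q) (c₁ + 0) m)
        - Gw w a * model N (fun m => FF N (e0 / Q) (c₁ + 0) m)| = 0 := by
      intro a ha
      have hc : cnt N a (fun m => FF N (e0 / Q) (c₁ + 0) m) = 0 := by
        unfold cnt
        refine sum_eq_zero fun n hn => hz _ ?_
        have h2 := (val_bounds ha n).1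
        have h3 : (N : ℝ) < n := by exact_mod_cast (mem_Ioc.1 hn).1
        nlinarith
      have hm : model N (fun m => FF N (e0 / Q) (c₁ + 0) m) = 0 := by
        unfold model
        refine sum_eq_zero fun m hm => ?_
        have h3 : ((N ^ 2 : ℕ) : ℝ) < m := by exact_mod_cast (mem_Ioc.1 hm).1
        push_cast at h3
        have h4 : (N : ℝ) < m := by nlinarith
        beta_reduce
        rw [hz m h4, zero_div]
      rw [hc, hm, mul_zero, sub_zero, abs_zero]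
    rw [sum_eq_zero h1]
    positivity
  obtain ⟨N₀, hN₀⟩ := eventually_atTop.1 hev
  exact ⟨N₀, fun N A hN hA hnear => hN₀ N hN A hA hnear⟩

end TII

open TII in
theorem specTII (hB : SpecBLK2) (hEDGE : SpecEDGE) (hBT : SpecBT) (hFFB : SpecFFB)
    (hGMAX : SpecGMAX) (hGMEAN : SpecGMEAN) : SpecTII := by
  intro θ e e0 ϖ Q c₁ c₂ hθ he he0 he1 hϖ hQ hc₁ hc₂ hmid
  by_cases hc0 : c₂ = 0
  · subst hc0
    exact core0 (κ := 2 / 3) he he0 hϖ hQ hmid hFFB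
  · exact core (κ := 2 / 3) le_rfl (by linarith) he he0 he1 hϖ hQ hc₁ hc₂ hc0 hmid
      (fun η hη hη4 ϖ' hϖ' => hB θ e e0 η ϖ' Q c₁ c₂ hθ he he0 he1 hη hη4 hϖ' hQ hc₁ hc₂ hc0)
      hEDGE hBT hFFB hGMAX hGMEAN

open TII in
theorem specTIIK (hB : SpecBLK2K) (hEDGE : SpecEDGE) (hBT : SpecBT) (hFFB : SpecFFB)
    (hGMAX : SpecGMAX) (hGMEAN : SpecGMEAN) : SpecTIIK := by
  intro θ κ e e0 ϖ Q c₁ c₂ hθ hκ hθκ he he0 he1 hϖ hQ hc₁ hc₂ hmid
  by_cases hc0 : c₂ = 0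
  · subst hc0
    exact core0 (κ := κ) he he0 hϖ hQ hmid hFFB
  · exact core (κ := κ) hκ hθ he he0 he1 hϖ hQ hc₁ hc₂ hc0 hmid
      (fun η hη hη4 ϖ' hϖ' =>
        hB θ κ e e0 η ϖ' Q c₁ c₂ hθ hκ hθκ he he0 he1 hη hη4 hϖ' hQ hc₁ hc₂ hc0)
      hEDGE hBT hFFB hGMAX hGMEAN

end Pool.Agent.Lib.MP391708.QPA
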