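import Pool.Agent.Lib.MP_391708_nt.QPA.Spec

/-!
# Module TWO of the project QPA
-/

set_option autoImplicit false

namespace Pool.Agent.Lib.MP391708.QPA.Two

open Finset Filter Topology
open Pool.Agent.Lib.MP391708.QPA
open scoped Classical

lemma dvd_val {a : ℤ} {k n : ℕ} : k ∣ val a n ↔ (k : ℤ) ∣ (n : ℤ) ^ 2 + a := by
  unfold val
  rw [Int.natCast_dvd]

lemma dvd_mod {a : ℤ} {k n : ℕ} :
    (k : ℤ) ∣ (((n % k : ℕ) : ℤ)) ^ 2 + a ↔ (k : ℤ) ∣ (n : ℤ) ^ 2 + a := by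
  have h : (k : ℤ) ∣ ((n : ℤ) ^ 2 + a) - ((((n % k : ℕ) : ℤ)) ^ 2 + a) := by
    have h1 : (k : ℤ) ∣ (n : ℤ) - ((n % k : ℕ) : ℤ) := by
      push_cast
      exact Int.dvd_self_sub_emod
    have h2 : ((n : ℤ) ^ 2 + a) - ((((n % k : ℕ) : ℤ)) ^ 2 + a) =
        ((n : ℤ) - ((n % k : ℕ) : ℤ)) * ((n : ℤ) + ((n % k : ℕ) : ℤ)) := by ring
    rw [h2]
    exact Dvd.dvd.mul_right h1 _
  exact (Int.dvd_iff_dvd_of_dvd_sub h).symm

/-- the roots of `ν² ≡ -a` modulo `k` -/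
noncomputable def roots (a : ℤ) (k : ℕ) : Finset ℕ :=
  (range k).filter (fun ν : ℕ => (k : ℤ) ∣ (ν : ℤ) ^ 2 + a)

/-- the sum over the fans -/
lemma sum_fan {X : ℕ} {a : ℤ} {k : ℕ} (hk : 1 ≤ k) (b : ℕ → ℝ) :
    ∑ ν ∈ roots a k, fan X a k ν b = ∑ n ∈ Icc 1 X, if k ∣ val a n then b (val a n / k) else 0 := by
  rw [← sum_filter]
  rw [← Finset.sum_fiberwise_of_maps_to (s := (Icc 1 X).filter (fun n => k ∣ val a n))
    (t := roots a k) (g := fun n => n % k)]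
  · refine sum_congr rfl fun ν hν => ?_
    unfold fan
    congr 1
    ext n
    rw [roots, mem_filter] at hν
    simp only [mem_filter]
    constructor
    · rintro ⟨h1, h2⟩
      refine ⟨⟨h1, ?_⟩, h2⟩
      rw [dvd_val, ← dvd_mod, h2]
      exact hν.2
    · rintro ⟨⟨h1, _⟩, h2⟩
      exact ⟨h1, h2⟩
  · intro n hn
    rw [mem_filter] at hn
    rw [roots, mem_filter, mem_range]
    exact ⟨Nat.mod_lt _ hk, dvd_mod.mpr (dvd_val.mp hn.2)⟩

/-- the bilinear sum as a sum over fans -/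
lemma bil_eq {X : ℕ} {a : ℤ} {K : ℝ} (_hK : 1 ≤ K) {α b : ℕ → ℝ}
    (hα : ∀ k, α k ≠ 0 → K < (k : ℝ) ∧ (k : ℝ) ≤ 5 / 4 * K) (hb0 : b 0 = 0) :
    bil X a α b = ∑ k ∈ Ioc ⌊K⌋₊ ⌊5 / 4 * K⌋₊, α k * ∑ ν ∈ roots a k, fan X a k ν b := by
  have hmem : ∀ k, α k ≠ 0 → k ∈ Ioc ⌊K⌋₊ ⌊5 / 4 * K⌋₊ := by
    intro k hk
    obtain ⟨h1, h2⟩ := hα k hk
    rw [mem_Ioc]
    exact ⟨(Nat.floor_lt (by linarith)).mpr h1, Nat.le_floor h2⟩
  have h1 : ∀ k ∈ Ioc ⌊K⌋₊ ⌊5 / 4 * K⌋₊, α k * ∑ ν ∈ roots a k, fan X a k ν b =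
      ∑ n ∈ Icc 1 X, if k ∣ val a n then α k * b (val a n / k) else 0 := by
    intro k hk
    have hk1 : 1 ≤ k := by
      have := (mem_Ioc.mp hk).1
      omega
    rw [sum_fan hk1, mul_sum]
    refine sum_congr rfl fun n _ => ?_
    split_ifs
    · rfl
    · simp
  rw [sum_congr rfl h1, sum_comm]
  unfold bil
  refine sum_congr rfl fun n _ => ?_
  unfold conv
  rcases Nat.eq_zero_or_pos (val a n) with h0 | hpos
  · rw [h0]
    simp [hb0]
  · rw [← sum_filter]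
    symm
    apply Finset.sum_subset
    · intro k hk
      rw [mem_filter] at hk
      rw [Nat.mem_divisors]
      exact ⟨hk.2, hpos.ne'⟩
    · intro k hk hk'
      rw [Nat.mem_divisors] at hk
      by_cases h : α k = 0
      · rw [h, zero_mul]
      · exact absurd (mem_filter.mpr ⟨hmem k h, hk.1⟩) hk'

/-- the flat index set of all fans -/
noncomputable def JJ (A : ℕ) (K : ℝ) : Finset (Sigma (fun _ : ℤ × ℕ => ℕ)) :=
  ((IA A) ×ˢ (Ioc ⌊K⌋₊ ⌊5 / 4 * K⌋₊)).sigma (fun x => roots x.1 x.2)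

lemma sum_JJ (A : ℕ) (K : ℝ) (f : ℤ → ℕ → ℕ → ℝ) :
    ∑ x ∈ JJ A K, f x.1.1 x.1.2 x.2 =
      ∑ a ∈ IA A, ∑ k ∈ Ioc ⌊K⌋₊ ⌊5 / 4 * K⌋₊, ∑ ν ∈ roots a k, f a k ν := by
  unfold JJ
  rw [sum_sigma, sum_product]

/-- Cauchy-Schwarz with weights -/
lemma cs {ι : Type*} (s : Finset ι) (w x : ι → ℝ) (hw : ∀ i, 0 ≤ w i) :
    (∑ i ∈ s, w i * x i) ^ 2 ≤ (∑ i ∈ s, w i) * ∑ i ∈ s, w i * x i ^ 2 := by
  have h := Finset.sum_mul_sq_le_sq_mul_sq s (fun i => √(w i)) (fun i => √(w i) * x i)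
  have e1 : ∀ i, √(w i) * (√(w i) * x i) = w i * x i := by
    intro i
    rw [← mul_assoc, Real.mul_self_sqrt (hw i)]
  have e2 : ∀ i, √(w i) ^ 2 = w i := fun i => Real.sq_sqrt (hw i)
  have e3 : ∀ i, (√(w i) * x i) ^ 2 = w i * x i ^ 2 := by
    intro i
    rw [mul_pow, e2]
  simp only [e1, e2, e3] at h
  exact h

/-- Cauchy-Schwarz over `(a, k, ν)` -/
lemma cauchy {X A : ℕ} {K : ℝ} (hK : 1 ≤ K) {α b : ℕ → ℝ}
    (hα : ∀ k, α k ≠ 0 → K < (k : ℝ) ∧ (k : ℝ) ≤ 5 / 4 * K) (hb0 : b 0 = 0) :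
    (∑ a ∈ IA A, |bil X a α b|) ^ 2 ≤
      (∑ a ∈ IA A, ∑ k ∈ Ioc ⌊K⌋₊ ⌊5 / 4 * K⌋₊, |α k| * (rho a k : ℝ)) *
      (∑ a ∈ IA A, ∑ k ∈ Ioc ⌊K⌋₊ ⌊5 / 4 * K⌋₊, |α k| * ∑ ν ∈ roots a k, (fan X a k ν b) ^ 2) := by
  have h1 : ∑ a ∈ IA A, |bil X a α b| ≤ ∑ x ∈ JJ A K, |α x.1.2| * |fan X x.1.1 x.1.2 x.2 b| := by
    rw [sum_JJ A K (fun a k ν => |α k| * |fan X a k ν b|)]
    refine sum_le_sum fun a _ => ?_
    rw [bil_eq hK hα hb0]
    refine (abs_sum_le_sum_abs _ _).trans ?_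
    refine sum_le_sum fun k _ => ?_
    rw [abs_mul, ← mul_sum]
    exact mul_le_mul_of_nonneg_left (abs_sum_le_sum_abs _ _) (abs_nonneg _)
  have h0 : 0 ≤ ∑ a ∈ IA A, |bil X a α b| := sum_nonneg fun a _ => abs_nonneg _
  refine (pow_le_pow_left₀ h0 h1 2).trans ?_
  refine (cs (JJ A K) (fun x => |α x.1.2|) (fun x => |fan X x.1.1 x.1.2 x.2 b|)
    (fun _ => abs_nonneg _)).trans (le_of_eq ?_)
  rw [sum_JJ A K (fun a k ν => |α k|), sum_JJ A K (fun a k ν => |α k| * |fan X a k ν b| ^ 2)]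
  congr 1
  · refine sum_congr rfl fun a _ => sum_congr rfl fun k _ => ?_
    rw [sum_const, nsmul_eq_mul, mul_comm]
    rfl
  · refine sum_congr rfl fun a _ => sum_congr rfl fun k _ => ?_
    rw [mul_sum]
    refine sum_congr rfl fun ν _ => ?_
    rw [sq_abs]

/-- `Th lam k = 1` for rough `k` -/
lemma Th_rough {z y : ℝ} {k : ℕ} {lam : ℕ → ℝ} (hk : 1 ≤ k) (hr : Rough z k) (hyz : y < z)
    (hlam1 : lam 1 = 1) (hsupp : ∀ d, lam d ≠ 0 → (d : ℝ) ≤ y) : Th lam k = 1 := by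
  unfold Th
  have h1 : ∑ d ∈ k.divisors, lam d = lam 1 := by
    apply Finset.sum_eq_single_of_mem 1 (Nat.one_mem_divisors.mpr (by omega))
    intro d hd hd1
    by_contra hne
    have hdy := hsupp d hne
    have hdk := Nat.dvd_of_mem_divisors hd
    have hp := Nat.minFac_prime hd1
    have hpd := Nat.minFac_dvd d
    have h2 := hr d.minFac hp (hpd.trans hdk)
    have hd0 : 0 < d := Nat.pos_of_dvd_of_pos hdk hk
    have h3 : (d.minFac : ℝ) ≤ d := by exact_mod_cast Nat.minFac_le hd0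
    linarith
  rw [h1, hlam1]
  norm_num

lemma odd_of_rough {z : ℝ} {k : ℕ} (hz : 2 < z) (hr : Rough z k) : Odd k := by
  by_contra h
  rw [Nat.not_odd_iff_even] at h
  have := hr 2 Nat.prime_two h.two_dvd
  norm_num at this
  linarith

/-- comparison of the second factor with `Q2` -/
lemma second_le {X A : ℕ} {K z y B : ℝ} {α b lam : ℕ → ℝ} (hK : 1 ≤ K) (hA : 1 ≤ A)
    (hz : 2 < z) (hyz : y < z) (hB : 0 ≤ B)
    (hαr : ∀ k, |α k| ≤ B * rInd z k)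
    (hlam1 : lam 1 = 1) (hsupp : ∀ d, lam d ≠ 0 → (d : ℝ) ≤ y) :
    ∑ a ∈ IA A, ∑ k ∈ Ioc ⌊K⌋₊ ⌊5 / 4 * K⌋₊, |α k| * ∑ ν ∈ roots a k, (fan X a k ν b) ^ 2
      ≤ B * Q2 X K A lam b := by
  have hA0 : (0 : ℝ) < A := by exact_mod_cast hA
  have hK0 : 0 < K := by linarith
  unfold Q2
  rw [mul_sum]
  have hnn : ∀ a : ℤ, ∀ k : ℕ, 0 ≤ kB ((k : ℝ) / K) * Th lam k *
      ∑ ν ∈ (range k).filter (fun ν : ℕ => (k : ℤ) ∣ (ν : ℤ) ^ 2 + a), (fan X a k ν b) ^ 2 := by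
    intro a k
    apply mul_nonneg
    · exact mul_nonneg kB.nonneg (sq_nonneg _)
    · exact sum_nonneg fun ν _ => sq_nonneg _
  calc ∑ a ∈ IA A, ∑ k ∈ Ioc ⌊K⌋₊ ⌊5 / 4 * K⌋₊, |α k| * ∑ ν ∈ roots a k, (fan X a k ν b) ^ 2
      ≤ ∑ a ∈ IA A, B * (gB ((a : ℝ) / A) * ∑ k ∈ (Icc 1 ⌊5 / 2 * K⌋₊).filter Odd,
    kB ((k : ℝ) / K) * Th lam k *
      ∑ ν ∈ (range k).filter (fun ν : ℕ => (k : ℤ) ∣ (ν : ℤ) ^ 2 + a), (fan X a k ν b) ^ 2) := by
        refine sum_le_sum fun a ha => ?_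
        have hg : gB ((a : ℝ) / A) = 1 := by
          apply gB.one_of_mem_closedBall
          rw [Metric.mem_closedBall, Real.dist_eq, sub_zero, abs_div, abs_of_pos hA0]
          change |(a : ℝ)| / A ≤ 1
          rw [div_le_one hA0]
          rw [IA, mem_Icc] at ha
          have : |a| ≤ (A : ℤ) := abs_le.mpr ha
          exact_mod_cast this
        rw [hg, one_mul]
        have hsub : ∑ k ∈ (Ioc ⌊K⌋₊ ⌊5 / 4 * K⌋₊).filter (fun k => Rough z k),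
            (kB ((k : ℝ) / K) * Th lam k *
              ∑ ν ∈ (range k).filter (fun ν : ℕ => (k : ℤ) ∣ (ν : ℤ) ^ 2 + a), (fan X a k ν b) ^ 2)
            ≤ ∑ k ∈ (Icc 1 ⌊5 / 2 * K⌋₊).filter Odd, (kB ((k : ℝ) / K) * Th lam k *
              ∑ ν ∈ (range k).filter (fun ν : ℕ => (k : ℤ) ∣ (ν : ℤ) ^ 2 + a), (fan X a k ν b) ^ 2) := by
          apply sum_le_sum_of_subset_of_nonneg
          · intro k hk
            rw [mem_filter, mem_Ioc] at hk
            rw [mem_filter, mem_Icc]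
            refine ⟨⟨by omega, hk.1.2.trans ?_⟩, odd_of_rough hz hk.2⟩
            apply Nat.floor_mono
            linarith
          · intro k _ _
            exact hnn a k
        refine le_trans ?_ (mul_le_mul_of_nonneg_left hsub hB)
        rw [mul_sum, sum_filter]
        refine sum_le_sum fun k hk => ?_
        have hk' := mem_Ioc.mp hk
        have hk1 : 1 ≤ k := by omega
        by_cases hr : Rough z k
        · rw [if_pos hr]
          have hkK : K ≤ k := by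
            have := Nat.lt_of_floor_lt hk'.1
            exact this.le
          have hkK2 : (k : ℝ) ≤ 5 / 4 * K := (Nat.le_floor_iff (by positivity)).mp hk'.2
          have hkB : kB ((k : ℝ) / K) = 1 := by
            apply kB.one_of_mem_closedBall
            rw [Metric.mem_closedBall, Real.dist_eq]
            change |(k : ℝ) / K - 3 / 2| ≤ 1 / 2
            have e1 : 1 ≤ (k : ℝ) / K := by rw [le_div_iff₀ hK0]; linarith
            have e2 : (k : ℝ) / K ≤ 5 / 4 := by rw [div_le_iff₀ hK0]; linarith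
            rw [abs_le]
            constructor <;> linarith
          have hα1 := hαr k
          rw [rInd, if_pos hr, mul_one] at hα1
          rw [hkB, Th_rough hk1 hr hyz hlam1 hsupp, mul_one, one_mul]
          exact mul_le_mul_of_nonneg_right hα1 (sum_nonneg fun ν _ => sq_nonneg _)
        · rw [if_neg hr]
          have hα1 := hαr k
          rw [rInd, if_neg hr, mul_zero] at hα1
          have : |α k| = 0 := le_antisymm hα1 (abs_nonneg _)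
          rw [this, zero_mul]
    _ ≤ ∑ a ∈ IA ⌊2 * (A : ℝ)⌋₊, B * (gB ((a : ℝ) / A) * ∑ k ∈ (Icc 1 ⌊5 / 2 * K⌋₊).filter Odd,
    kB ((k : ℝ) / K) * Th lam k *
      ∑ ν ∈ (range k).filter (fun ν : ℕ => (k : ℤ) ∣ (ν : ℤ) ^ 2 + a), (fan X a k ν b) ^ 2) := by
        apply sum_le_sum_of_subset_of_nonneg
        · intro a ha
          rw [IA, mem_Icc] at ha ⊢
          have h1 : A ≤ ⌊2 * (A : ℝ)⌋₊ := by
            apply Nat.le_floor
            linarith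
          omega
        · intro a _ _
          apply mul_nonneg hB
          apply mul_nonneg gB.nonneg
          exact sum_nonneg fun k _ => hnn a k

lemma fan_div {X : ℕ} {a : ℤ} {k ν : ℕ} {b : ℕ → ℝ} {B : ℝ} (hB : B ≠ 0) :
    fan X a k ν b = B * fan X a k ν (fun u => b u / B) := by
  unfold fan
  rw [mul_sum]
  refine sum_congr rfl fun n _ => ?_
  field_simp

lemma Q2_div {X : ℕ} {K A : ℝ} {lam b : ℕ → ℝ} {B : ℝ} (hB : B ≠ 0) :
    Q2 X K A lam b = B ^ 2 * Q2 X K A lam (fun u => b u / B) := by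
  have hin : ∀ (a : ℤ) (k : ℕ),
      ∑ ν ∈ (range k).filter (fun ν : ℕ => (k : ℤ) ∣ (ν : ℤ) ^ 2 + a), (fan X a k ν b) ^ 2 =
      B ^ 2 * ∑ ν ∈ (range k).filter (fun ν : ℕ => (k : ℤ) ∣ (ν : ℤ) ^ 2 + a),
        (fan X a k ν (fun u => b u / B)) ^ 2 := by
    intro a k
    rw [mul_sum]
    refine sum_congr rfl fun ν _ => ?_
    rw [fan_div (b := b) hB]
    ring
  unfold Q2
  rw [mul_sum]
  refine sum_congr rfl fun a _ => ?_
  rw [mul_left_comm]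
  congr 1
  rw [mul_sum]
  refine sum_congr rfl fun k _ => ?_
  rw [hin]
  ring

lemma Wsum_div {K L : ℝ} {b : ℕ → ℝ} {B : ℝ} (hB : B ≠ 0) :
    Wsum K L b = B ^ 2 * Wsum K L (fun u => b u / B) := by
  unfold Wsum
  rw [mul_sum]
  refine sum_congr rfl fun d _ => ?_
  unfold Wd
  rw [mul_sum]
  refine sum_congr rfl fun x _ => ?_
  field_simp

/-- `N ^ c` is eventually large -/
lemma ev_rpow {c M : ℝ} (hc : 0 < c) : ∀ᶠ N : ℕ in atTop, M ≤ (N : ℝ) ^ c :=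
  ((tendsto_rpow_atTop hc).comp tendsto_natCast_atTop_atTop).eventually_ge_atTop M

/-- powers of the logarithm are small -/
lemma ev_log {c κ M : ℝ} (hc : 0 < c) (hκ : 0 < κ) (hM : 0 < M) (j : ℕ) :
    ∀ᶠ N : ℕ in atTop, M * Real.log N ^ j ≤ κ * (N : ℝ) ^ c := by
  have h := (isLittleO_log_rpow_rpow_atTop (s := c) (j : ℝ) hc).comp_tendsto
    (tendsto_natCast_atTop_atTop (R := ℝ))
  have h2 := h.def (show 0 < κ / M by positivity)
  filter_upwards [h2, eventually_ge_atTop 3] with N hN hN3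
  simp only [Function.comp] at hN
  have hl : 0 ≤ Real.log N := Real.log_nonneg (by exact_mod_cast (by omega : 1 ≤ N))
  rw [Real.norm_of_nonneg (by positivity), Real.norm_of_nonneg (by positivity),
    Real.rpow_natCast] at hN
  have := mul_le_mul_of_nonneg_left hN hM.le
  calc M * Real.log N ^ j ≤ M * (κ / M * (N : ℝ) ^ c) := this
    _ = κ * (N : ℝ) ^ c := by field_simp


/-- the numerical conditions for large `N` -/
lemma params {θ e : ℝ} (hθ : 5 / 6 < θ) (he : 0 < e) : ∃ τ : ℝ, 0 < τ ∧ τ ≤ 1 ∧ 0 < e - 2 * τ ∧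
    0 < 2 * θ - 5 / 3 - 2 * τ ∧ 0 < θ / 2 - 1 / 3 - 2 * τ := by
  refine ⟨min (1 : ℝ) (min (e / 4) (min ((2 * θ - 5 / 3) / 4) ((θ / 2 - 1 / 3) / 4))), ?_, ?_, ?_, ?_, ?_⟩
  · apply lt_min one_pos
    apply lt_min (by linarith)
    apply lt_min (by linarith) (by linarith)
  · exact min_le_left _ _
  · have : min (1 : ℝ) (min (e / 4) (min ((2 * θ - 5 / 3) / 4) ((θ / 2 - 1 / 3) / 4))) ≤ e / 4 :=
      (min_le_right _ _).trans (min_le_left _ _)
    linarith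
  · have : min (1 : ℝ) (min (e / 4) (min ((2 * θ - 5 / 3) / 4) ((θ / 2 - 1 / 3) / 4))) ≤
        (2 * θ - 5 / 3) / 4 := (min_le_right _ _).trans ((min_le_right _ _).trans (min_le_left _ _))
    linarith
  · have : min (1 : ℝ) (min (e / 4) (min ((2 * θ - 5 / 3) / 4) ((θ / 2 - 1 / 3) / 4))) ≤
        (θ / 2 - 1 / 3) / 4 := (min_le_right _ _).trans ((min_le_right _ _).trans (min_le_right _ _))
    linarith

/-- sizes of `K`, `L` -/
lemma sizes {n K L θ e τ A : ℝ} (hn : 3 ≤ n) (hK1 : n ^ (2 / 3 : ℝ) ≤ K) (hK2 : K ≤ n ^ (1 - e))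
    (hKL1 : n ^ 2 / 2 ≤ K * L) (hKL2 : K * L ≤ 5 * n ^ 2) (hτ0 : 0 < τ) (hτ1 : τ ≤ 1)
    (h1 : 2 ≤ n ^ (2 * e)) (h2 : 75 ≤ n ^ (2 * θ - 5 / 3 - 2 * τ))
    (h3 : 15 ≤ n ^ (θ / 2 - 1 / 3 - 2 * τ)) (h4 : 10 ≤ n ^ (e - 2 * τ))
    (h5 : 2 * Real.log n ≤ n ^ (1 / 2 : ℝ)) (hA1 : n ^ θ ≤ A) (hA2 : A ≤ n * Real.log n) :
    1 ≤ K ∧ 0 < L ∧ K ≤ L ∧ A ≤ (K * L) ^ (3 / 4 : ℝ) ∧ L * √(L / K) ≤ A ^ 2 * (K * L) ^ (-τ) ∧
    √(L / K) ≤ √A * (K * L) ^ (-τ) ∧ (K * L) ^ τ ≤ √(L / K) ∧ 2 * √(K * L) ≤ 8 * n := by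
  have hn0 : 0 < n := by linarith
  set p : ℝ := n ^ (1 / 3 : ℝ) with hp
  have hp0 : 0 < p := Real.rpow_pos_of_pos hn0 _
  have e23 : n ^ (2 / 3 : ℝ) = p ^ 2 := by
    rw [hp, ← Real.rpow_natCast, ← Real.rpow_mul hn0.le]; norm_num
  have en : n = p ^ 3 := by
    rw [hp, ← Real.rpow_natCast, ← Real.rpow_mul hn0.le]; norm_num
  have hp1 : 1 ≤ p := by
    rw [hp]; exact Real.one_le_rpow (by linarith) (by norm_num)
  have hKp : p ^ 2 ≤ K := by rw [← e23]; exact hK1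
  have hK1' : 1 ≤ K := by nlinarith
  have hK0 : 0 < K := by linarith
  have hn2 : 0 < n ^ 2 / 2 := by positivity
  have hKL0 : 0 < K * L := by linarith
  have hL0 : 0 < L := by
    by_contra h
    push Not at h
    nlinarith
  have hKLp : K * L ≤ 5 * p ^ 6 := by
    rw [en] at hKL2
    nlinarith
  have hLp : L ≤ 5 * p ^ 4 := by
    have h6 : p ^ 2 * L ≤ 5 * p ^ 6 := (mul_le_mul_of_nonneg_right hKp hL0.le).trans hKLp
    have h7 : p ^ 2 * L ≤ p ^ 2 * (5 * p ^ 4) := by linarith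
    exact le_of_mul_le_mul_left h7 (by positivity)
  have hLK : L / K ≤ 5 * p ^ 2 := by
    rw [div_le_iff₀ hK0]
    nlinarith [mul_le_mul_of_nonneg_left hKp (by positivity : 0 ≤ 5 * p ^ 2)]
  have hs : √(L / K) ≤ 3 * p := by
    apply Real.sqrt_le_iff.mpr
    constructor
    · positivity
    · nlinarith
  have hs0 : 0 ≤ √(L / K) := Real.sqrt_nonneg _
  set t : ℝ := n ^ τ with ht
  have ht0 : 0 < t := Real.rpow_pos_of_pos hn0 _
  have e2t : n ^ (2 * τ) = t ^ 2 := by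
    rw [ht, ← Real.rpow_natCast, ← Real.rpow_mul hn0.le]; congr 1; push_cast; ring
  have hKLt : (K * L) ^ τ ≤ 5 * t ^ 2 := by
    calc (K * L) ^ τ ≤ (5 * n ^ 2) ^ τ := Real.rpow_le_rpow hKL0.le hKL2 hτ0.le
      _ = 5 ^ τ * t ^ 2 := by
        rw [Real.mul_rpow (by norm_num) (by positivity), ← e2t, ← Real.rpow_natCast,
          ← Real.rpow_mul hn0.le]
        norm_num
      _ ≤ 5 * t ^ 2 := by
        apply mul_le_mul_of_nonneg_right _ (by positivity)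
        calc (5 : ℝ) ^ τ ≤ 5 ^ (1 : ℝ) := Real.rpow_le_rpow_of_exponent_le (by norm_num) hτ1
          _ = 5 := Real.rpow_one _
  have hKLτ0 : 0 < (K * L) ^ τ := Real.rpow_pos_of_pos hKL0 _
  have hinv : (K * L) ^ (-τ) = ((K * L) ^ τ)⁻¹ := Real.rpow_neg hKL0.le τ
  -- L/K from below
  have hLK2 : n ^ (2 * e) / 2 ≤ L / K := by
    rw [le_div_iff₀ hK0]
    have h6 : K * K ≤ n ^ (1 - e) * n ^ (1 - e) :=
      mul_le_mul hK2 hK2 hK0.le (by positivity)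
    have h7 : n ^ (1 - e) * n ^ (1 - e) * n ^ (2 * e) = n ^ 2 := by
      rw [← Real.rpow_add hn0, ← Real.rpow_add hn0, ← Real.rpow_natCast]
      congr 1
      push_cast
      ring
    have h8 : 0 ≤ n ^ (2 * e) := by positivity
    have h9 : K * (n ^ (2 * e) / 2 * K) ≤ K * L := by
      calc K * (n ^ (2 * e) / 2 * K) = K * K * n ^ (2 * e) / 2 := by ring
        _ ≤ n ^ (1 - e) * n ^ (1 - e) * n ^ (2 * e) / 2 := by
          have := mul_le_mul_of_nonneg_right h6 h8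
          linarith
        _ = n ^ 2 / 2 := by rw [h7]
        _ ≤ K * L := hKL1
    exact le_of_mul_le_mul_left h9 hK0
  have hA0 : 0 < A := lt_of_lt_of_le (Real.rpow_pos_of_pos hn0 _) hA1
  refine ⟨hK1', hL0, ?_, ?_, ?_, ?_, ?_, ?_⟩
  · have : 1 ≤ L / K := by linarith
    rwa [one_le_div₀ hK0] at this
  · -- A ≤ (KL)^(3/4)
    have h6 : (n ^ 2 / 2) ^ (3 / 4 : ℝ) ≤ (K * L) ^ (3 / 4 : ℝ) :=
      Real.rpow_le_rpow (by positivity) hKL1 (by norm_num)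
    have h7 : n ^ (3 / 2 : ℝ) / 2 ≤ (n ^ 2 / 2) ^ (3 / 4 : ℝ) := by
      rw [Real.div_rpow (by positivity) (by norm_num)]
      have h8 : (n ^ 2) ^ (3 / 4 : ℝ) = n ^ (3 / 2 : ℝ) := by
        rw [← Real.rpow_natCast, ← Real.rpow_mul hn0.le]; norm_num
      rw [h8]
      apply div_le_div_of_nonneg_left (by positivity) (by positivity)
      calc (2 : ℝ) ^ (3 / 4 : ℝ) ≤ 2 ^ (1 : ℝ) :=
            Real.rpow_le_rpow_of_exponent_le (by norm_num) (by norm_num)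
        _ = 2 := Real.rpow_one _
    have h9 : n * Real.log n ≤ n ^ (3 / 2 : ℝ) / 2 := by
      have h10 : n ^ (3 / 2 : ℝ) = n * n ^ (1 / 2 : ℝ) := by
        rw [show (3 / 2 : ℝ) = 1 + 1 / 2 by norm_num, Real.rpow_add hn0, Real.rpow_one]
      rw [h10]
      nlinarith
    linarith
  · rw [hinv, ← div_eq_mul_inv, le_div_iff₀ hKLτ0]
    have h6 : L * √(L / K) * (K * L) ^ τ ≤ 5 * p ^ 4 * (3 * p) * (5 * t ^ 2) := by
      apply mul_le_mul _ hKLt hKLτ0.le (by positivity)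
      apply mul_le_mul hLp hs hs0 (by positivity)
    have h7 : n ^ (2 * θ) ≤ A ^ 2 := by
      have : n ^ (2 * θ) = (n ^ θ) ^ 2 := by
        rw [← Real.rpow_natCast, ← Real.rpow_mul hn0.le]; congr 1; push_cast; ring
      rw [this]
      exact pow_le_pow_left₀ (by positivity) hA1 2
    have h8 : n ^ (2 * θ) = p ^ 5 * t ^ 2 * n ^ (2 * θ - 5 / 3 - 2 * τ) := by
      have e5 : p ^ 5 = n ^ (5 / 3 : ℝ) := by
        rw [hp, ← Real.rpow_natCast, ← Real.rpow_mul hn0.le]; norm_num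
      rw [e5, ← e2t, ← Real.rpow_add hn0, ← Real.rpow_add hn0]
      congr 1
      ring
    have h9 : p ^ 5 * t ^ 2 * 75 ≤ p ^ 5 * t ^ 2 * n ^ (2 * θ - 5 / 3 - 2 * τ) :=
      mul_le_mul_of_nonneg_left h2 (by positivity)
    calc L * √(L / K) * (K * L) ^ τ ≤ 5 * p ^ 4 * (3 * p) * (5 * t ^ 2) := h6
      _ = p ^ 5 * t ^ 2 * 75 := by ring
      _ ≤ A ^ 2 := by linarith
  · rw [hinv, ← div_eq_mul_inv, le_div_iff₀ hKLτ0]
    apply Real.le_sqrt_of_sq_le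
    have h6 : √(L / K) * (K * L) ^ τ ≤ 3 * p * (5 * t ^ 2) :=
      mul_le_mul hs hKLt hKLτ0.le (by positivity)
    have h8 : n ^ (θ / 2) = p * t ^ 2 * n ^ (θ / 2 - 1 / 3 - 2 * τ) := by
      rw [hp, ← e2t, ← Real.rpow_add hn0, ← Real.rpow_add hn0]
      congr 1
      ring
    have h9 : p * t ^ 2 * 15 ≤ p * t ^ 2 * n ^ (θ / 2 - 1 / 3 - 2 * τ) :=
      mul_le_mul_of_nonneg_left h3 (by positivity)
    have h10 : √(L / K) * (K * L) ^ τ ≤ n ^ (θ / 2) := by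
      calc √(L / K) * (K * L) ^ τ ≤ 3 * p * (5 * t ^ 2) := h6
        _ = p * t ^ 2 * 15 := by ring
        _ ≤ n ^ (θ / 2) := by linarith
    have h11 : (n ^ (θ / 2)) ^ 2 = n ^ θ := by
      rw [← Real.rpow_natCast, ← Real.rpow_mul hn0.le]; congr 1; push_cast; ring
    calc (√(L / K) * (K * L) ^ τ) ^ 2 ≤ (n ^ (θ / 2)) ^ 2 := pow_le_pow_left₀ (by positivity) h10 2
      _ = n ^ θ := h11
      _ ≤ A := hA1
  · apply Real.le_sqrt_of_sq_le
    have h6 : ((K * L) ^ τ) ^ 2 ≤ (5 * t ^ 2) ^ 2 := pow_le_pow_left₀ hKLτ0.le hKLt 2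
    have h7 : n ^ (2 * e) = (t ^ 2 * n ^ (e - 2 * τ)) ^ 2 := by
      rw [← e2t, ← Real.rpow_add hn0, ← Real.rpow_natCast, ← Real.rpow_mul hn0.le]
      congr 1
      push_cast
      ring
    have h8 : (t ^ 2 * 10) ^ 2 ≤ (t ^ 2 * n ^ (e - 2 * τ)) ^ 2 :=
      pow_le_pow_left₀ (by positivity) (mul_le_mul_of_nonneg_left h4 (by positivity)) 2
    have h9 : 0 ≤ t ^ 4 := by positivity
    nlinarith
  · have h6 : √(K * L) ≤ 3 * n := by
      apply Real.sqrt_le_iff.mpr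
      constructor
      · positivity
      · nlinarith
    linarith

end Pool.Agent.Lib.MP391708.QPA.Two

namespace Pool.Agent.Lib.MP391708.QPA

open Finset Filter Topology
open scoped Classical

theorem specTWO (hSEC : SpecSEC) (hFIRST : SpecFIRST) (hSELB : SpecSELB) : SpecTWO := by
  intro θ e e0 B hθ he he0 hB
  obtain ⟨CF, hCF, N1, hF⟩ := hFIRST e0 he0
  obtain ⟨CS, hCS, hS⟩ := hSELB
  obtain ⟨τ, hτ0, hτ1, hτe, hτ2, hτ3⟩ := Two.params hθ he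
  obtain ⟨σ, hσ, X0, hSECτ⟩ := hSEC τ hτ0
  set s' : ℝ := min σ (e0 / 2) with hs'
  have hs'0 : 0 < s' := lt_min hσ (by linarith)
  have hgI : 0 ≤ gI := MeasureTheory.integral_nonneg (fun x => gB.nonneg)
  refine ⟨B ^ 2 * CF * gI * (2 * CS) / s' + 1, by positivity, ?_⟩
  intro κ hκ
  have hev : ∀ᶠ N : ℕ in atTop, 3 ≤ N ∧ N1 ≤ N ∧ X0 ≤ (N : ℝ) ^ (1 : ℝ) ∧ 3 ≤ (N : ℝ) ^ e0 ∧
      2 ≤ (N : ℝ) ^ s' ∧ 2 ≤ (N : ℝ) ^ (2 * e) ∧ 2 * Real.log N ^ 1 ≤ 1 * (N : ℝ) ^ (1 / 2 : ℝ) ∧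
      75 ≤ (N : ℝ) ^ (2 * θ - 5 / 3 - 2 * τ) ∧ 15 ≤ (N : ℝ) ^ (θ / 2 - 1 / 3 - 2 * τ) ∧
      10 ≤ (N : ℝ) ^ (e - 2 * τ) ∧ B ^ 4 * CF * Real.log N ^ 3 ≤ κ * (N : ℝ) ^ σ := by
    filter_upwards [eventually_ge_atTop 3, eventually_ge_atTop N1, Two.ev_rpow (M := X0) one_pos,
      Two.ev_rpow (M := 3) he0, Two.ev_rpow (M := 2) hs'0, Two.ev_rpow (M := 2) (by linarith : 0 < 2 * e),
      Two.ev_log (c := 1 / 2) (κ := 1) (M := 2) (by norm_num) one_pos (by norm_num) 1,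
      Two.ev_rpow (M := 75) hτ2, Two.ev_rpow (M := 15) hτ3, Two.ev_rpow (M := 10) hτe,
      Two.ev_log (c := σ) (κ := κ) (M := B ^ 4 * CF) hσ hκ (by positivity) 3]
      with N a1 a2 a3 a4 a5 a6 a7 a8 a9 a10 a11
    exact ⟨a1, a2, a3, a4, a5, a6, a7, a8, a9, a10, a11⟩
  obtain ⟨N0, hN0⟩ := eventually_atTop.mp hev
  refine ⟨N0, ?_⟩
  intro N A hN hAdm K L hK1 hK2 hKL1 hKL2 α b hα hαs hb hbs
  obtain ⟨a1, a2, a3, a4, a5, a6, a7, a8, a9, a10, a11⟩ := hN0 N hN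
  obtain ⟨hA1, hA2⟩ := hAdm
  have hn3 : (3 : ℝ) ≤ N := by exact_mod_cast a1
  have hn0 : (0 : ℝ) < N := by linarith
  rw [pow_one, one_mul] at a7
  rw [Real.rpow_one] at a3
  obtain ⟨b1, b2, b3, b4, b5, b6, b7, b8⟩ := Two.sizes (A := A) hn3 hK1 hK2 hKL1 hKL2 hτ0 hτ1 a6 a8 a9
    a10 a7 hA1 hA2
  have hK0 : 0 < K := by linarith
  have hKL0 : 0 < K * L := by positivity
  have hAge : (1 : ℝ) ≤ A := by
    have : (1 : ℝ) ≤ (N : ℝ) ^ θ := Real.one_le_rpow (by linarith) (by linarith)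
    linarith
  have hAgeN : 1 ≤ A := by exact_mod_cast hAge
  set M : ℝ := Real.log N with hM
  have hM0 : 0 < M := Real.log_pos (by linarith)
  -- the sieve weights
  set y : ℝ := (N : ℝ) ^ s' with hy
  have hy0 : 0 < y := by positivity
  have hlogy : Real.log y = s' * M := by rw [hy, Real.log_rpow hn0]
  obtain ⟨lam, hlam1, hlamb, hlams, hQ0, hQ1⟩ := hS y 2 a5 (by norm_num)
  have hQ2' : QF y lam ≤ 2 * CS / (s' * M) := by
    refine hQ1.trans (le_of_eq ?_)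
    rw [hlogy, Nat.totient_two]
    push_cast
    ring
  have hyz : y < (N : ℝ) ^ e0 := by
    rw [hy]
    apply Real.rpow_lt_rpow_of_exponent_lt (by linarith)
    have : s' ≤ e0 / 2 := min_le_right _ _
    linarith
  have hyKL : y ≤ (K * L) ^ σ := by
    calc y ≤ (N : ℝ) ^ σ := Real.rpow_le_rpow_of_exponent_le (by linarith) (min_le_left _ _)
      _ ≤ (K * L) ^ σ := by
        apply Real.rpow_le_rpow hn0.le _ hσ.le
        nlinarith
  have hNKL : (N : ℝ) ≤ K * L := by nlinarith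
  -- SEC
  set b' : ℕ → ℝ := fun u => b u / B with hb'
  have hsec := hSECτ K L A y b' lam (8 * N) (a3.trans hNKL) b1 b3 hAge b4 b5 b6 b7
    (by push_cast; exact b8) (by linarith) hyKL hlamb
    (fun d hd => by
      obtain ⟨c1, c2, _, c4⟩ := hlams d hd
      exact ⟨c1, c2, Nat.coprime_two_right.mp c4⟩)
    (fun u => by
      rw [hb']
      simp only []
      rw [abs_div, abs_of_pos hB, div_le_one hB]
      exact hb u)
    (fun u hu => by
      apply hbs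
      intro h0
      apply hu
      rw [hb']
      simp only []
      rw [h0, zero_div])
  set W : ℝ := |Wsum K L b| with hW
  have hW0 : 0 ≤ W := abs_nonneg _
  have hWb : |Wsum K L b'| * B ^ 2 = W := by
    rw [hW, Two.Wsum_div (b := b) hB.ne', abs_mul, abs_of_pos (by positivity : 0 < B ^ 2), mul_comm]
  set S : ℝ := (K * L) ^ (-σ) with hSdef
  have hS0 : 0 < S := Real.rpow_pos_of_pos hKL0 _
  have hQ2b : Q2 (8 * N) K A lam b' ≤ A * gI * (2 * CS / (s' * M)) * |Wsum K L b'| + A * L * S := by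
    have h1 := (abs_le.mp hsec).2
    have h2 : (A : ℝ) * gI * QF y lam * Wsum K L b' ≤
        A * gI * (2 * CS / (s' * M)) * |Wsum K L b'| := by
      calc (A : ℝ) * gI * QF y lam * Wsum K L b' ≤ A * gI * QF y lam * |Wsum K L b'| := by
            apply mul_le_mul_of_nonneg_left (le_abs_self _)
            positivity
        _ ≤ A * gI * (2 * CS / (s' * M)) * |Wsum K L b'| := by
            apply mul_le_mul_of_nonneg_right _ (abs_nonneg _)
            apply mul_le_mul_of_nonneg_left hQ2'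
            positivity
    linarith
  have hSsmall : B ^ 4 * CF * M ^ 3 * S ≤ κ := by
    have h1 : S ≤ ((N : ℝ) ^ σ)⁻¹ := by
      rw [hSdef, Real.rpow_neg hKL0.le]
      apply inv_anti₀ (by positivity)
      exact Real.rpow_le_rpow hn0.le hNKL hσ.le
    calc B ^ 4 * CF * M ^ 3 * S ≤ (κ * (N : ℝ) ^ σ) * ((N : ℝ) ^ σ)⁻¹ := by
          apply mul_le_mul a11 h1 hS0.le (by positivity)
      _ = κ := by
          rw [mul_assoc, mul_inv_cancel₀ (by positivity), mul_one]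
  -- first factor
  have hb0 : b 0 = 0 := by
    by_contra h
    have := (hbs 0 h).1
    simp at this
  have hcs := Two.cauchy (X := 8 * N) (A := A) b1 hαs hb0
  have hfirst : ∑ a ∈ IA A, ∑ k ∈ Ioc ⌊K⌋₊ ⌊5 / 4 * K⌋₊, |α k| * (rho a k : ℝ) ≤
      B * (CF * A * K / M) := by
    have h1 := hF N A a2 (by
      refine le_trans ?_ hA1
      apply Real.rpow_le_rpow_of_exponent_le (by linarith) (by linarith)) K (by
      refine le_trans ?_ hK1
      apply Real.rpow_le_rpow_of_exponent_le (by linarith) (by norm_num)) (by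
      refine hK2.trans ?_
      calc (N : ℝ) ^ (1 - e) ≤ (N : ℝ) ^ (1 : ℝ) :=
            Real.rpow_le_rpow_of_exponent_le (by linarith) (by linarith)
        _ = N := Real.rpow_one _)
    refine le_trans ?_ (mul_le_mul_of_nonneg_left h1 hB.le)
    rw [mul_sum]
    refine sum_le_sum fun a _ => ?_
    rw [mul_sum]
    refine sum_le_sum fun k _ => ?_
    rw [← mul_assoc]
    exact mul_le_mul_of_nonneg_right (hα k) (by positivity)
  have hsecond := Two.second_le (X := 8 * N) (A := A) (K := K) (z := (N : ℝ) ^ e0) (y := y) (B := B)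
    (α := α) (b := b) (lam := lam) b1 hAgeN (by linarith) hyz hB.le hα hlam1
    (fun d hd => (hlams d hd).2.1)
  rw [Two.Q2_div (b := b) hB.ne'] at hsecond
  have hsecond' : ∑ a ∈ IA A, ∑ k ∈ Ioc ⌊K⌋₊ ⌊5 / 4 * K⌋₊, |α k| *
      ∑ ν ∈ Two.roots a k, (fan (8 * N) a k ν b) ^ 2 ≤
      B * (B ^ 2 * (A * gI * (2 * CS / (s' * M)) * |Wsum K L b'| + A * L * S)) := by
    refine hsecond.trans ?_
    apply mul_le_mul_of_nonneg_left _ hB.le
    apply mul_le_mul_of_nonneg_left hQ2b (by positivity)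
  have h0 : 0 ≤ ∑ a ∈ IA A, ∑ k ∈ Ioc ⌊K⌋₊ ⌊5 / 4 * K⌋₊, |α k| *
      ∑ ν ∈ Two.roots a k, (fan (8 * N) a k ν b) ^ 2 :=
    sum_nonneg fun a _ => sum_nonneg fun k _ => mul_nonneg (abs_nonneg _)
      (sum_nonneg fun ν _ => sq_nonneg _)
  refine hcs.trans ?_
  calc (∑ a ∈ IA A, ∑ k ∈ Ioc ⌊K⌋₊ ⌊5 / 4 * K⌋₊, |α k| * (rho a k : ℝ)) *
      (∑ a ∈ IA A, ∑ k ∈ Ioc ⌊K⌋₊ ⌊5 / 4 * K⌋₊, |α k| *
        ∑ ν ∈ Two.roots a k, (fan (8 * N) a k ν b) ^ 2)
      ≤ (B * (CF * A * K / M)) *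
        (B * (B ^ 2 * (A * gI * (2 * CS / (s' * M)) * |Wsum K L b'| + A * L * S))) := by
        apply mul_le_mul hfirst hsecond' h0 (by positivity)
    _ = (A : ℝ) ^ 2 * K / M ^ 2 * (B ^ 2 * CF * gI * (2 * CS) / s' * (|Wsum K L b'| * B ^ 2)
          + (B ^ 4 * CF * M ^ 3 * S) * (L / M ^ 2)) := by
        field_simp
    _ = (A : ℝ) ^ 2 * K / M ^ 2 * (B ^ 2 * CF * gI * (2 * CS) / s' * W
          + (B ^ 4 * CF * M ^ 3 * S) * (L / M ^ 2)) := by rw [hWb]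
    _ ≤ (A : ℝ) ^ 2 * K / M ^ 2 * (B ^ 2 * CF * gI * (2 * CS) / s' * W + κ * (L / M ^ 2)) := by
        apply mul_le_mul_of_nonneg_left _ (by positivity)
        have := mul_le_mul_of_nonneg_right hSsmall (by positivity : 0 ≤ L / M ^ 2)
        linarith
    _ ≤ (A : ℝ) ^ 2 * K / M ^ 2 * ((B ^ 2 * CF * gI * (2 * CS) / s' + 1) * (W + κ * L / M ^ 2)) := by
        apply mul_le_mul_of_nonneg_left _ (by positivity)
        have h1 : 0 ≤ B ^ 2 * CF * gI * (2 * CS) / s' := by positivity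
        have h2 : 0 ≤ κ * L / M ^ 2 := by positivity
        have h3 : κ * (L / M ^ 2) = κ * L / M ^ 2 := by ring
        rw [h3]
        nlinarith [mul_nonneg h1 h2]
    _ = (B ^ 2 * CF * gI * (2 * CS) / s' + 1) * ((A : ℝ) ^ 2 * K / M ^ 2) * (W + κ * L / M ^ 2) := by
        ring

end Pool.Agent.Lib.MP391708.QPA
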