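import Pool.Agent.Lib.MP_391708_nt.QPA.WBc

/-!
# QPA, module WB: the bound for `Wsum`
-/

set_option autoImplicit false

namespace Pool.Agent.Lib.MP391708.QPA.WB

open Finset Filter Topology
open scoped Classical

noncomputable section

/-- the dyadic blocks -/
lemma blocks {J : ℕ} {L η R G w : ℝ} {b : ℕ → ℝ} {k D₁ D₂ i : ℕ} (hD1 : 1 ≤ D₁)
    (hw : w = (1 / 2 : ℝ) ^ k) (hR : 0 ≤ R) (hD : (D₁ : ℝ) ≤ w * R) (hD2 : D₂ ≤ D₁ * 2 ^ k)
    (hG : ∀ D₀ : ℕ, 1 ≤ D₀ → (D₀ : ℝ) ≤ R → Vd (pc L η J i) b D₀ ≤ G) :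
    ∑ d ∈ Ioc D₁ D₂, Qc (pc L η J i) b d ≤ k * G := by
  have hmono : Monotone (fun m : ℕ => D₁ * 2 ^ m) := by
    intro m n hmn
    exact Nat.mul_le_mul_left _ (Nat.pow_le_pow_right (by norm_num) hmn)
  have ht := tele (fun m : ℕ => D₁ * 2 ^ m) hmono (fun d => Qc (pc L η J i) b d) k
  simp only [pow_zero, mul_one] at ht
  calc ∑ d ∈ Ioc D₁ D₂, Qc (pc L η J i) b d
      ≤ ∑ d ∈ Ioc D₁ (D₁ * 2 ^ k), Qc (pc L η J i) b d := by
        apply Finset.sum_le_sum_of_subset_of_nonneg (Finset.Ioc_subset_Ioc_right hD2)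
        intro d _ _
        exact Qc_nonneg _ _ _
    _ = ∑ m ∈ range k, ∑ d ∈ Ioc (D₁ * 2 ^ m) (D₁ * 2 ^ (m + 1)), Qc (pc L η J i) b d := ht.symm
    _ ≤ ∑ m ∈ range k, G := by
        apply Finset.sum_le_sum
        intro m hm
        have hmk : m < k := Finset.mem_range.1 hm
        have h1 := hG (D₁ * 2 ^ m) (Nat.mul_pos hD1 (by positivity)) (by
          push_cast
          have h2 : (2 : ℝ) ^ m ≤ 2 ^ k := pow_le_pow_right₀ (by norm_num) hmk.le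
          have h3 : w * 2 ^ k = 1 := by
            rw [hw, ← mul_pow]; norm_num
          have hw0 : 0 ≤ w := by rw [hw]; positivity
          calc (D₁ : ℝ) * 2 ^ m ≤ (w * R) * 2 ^ k := by gcongr
            _ = (w * 2 ^ k) * R := by ring
            _ = R := by rw [h3, one_mul])
        have h4 : D₁ * 2 ^ (m + 1) = 2 * (D₁ * 2 ^ m) := by ring
        rw [h4]
        exact h1
    _ = k * G := by simp

lemma sum_inv_tot {C₀ R w : ℝ} {D₁ D₂ : ℕ} (hC₀ : 0 < C₀)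
    (hratio : ∀ D : ℕ, ∑ d ∈ Icc 1 D, (d : ℝ) / (d.totient : ℝ) ≤ C₀ * D)
    (hw : 0 < w) (hR : 0 < R) (hD1 : ∀ d ∈ Ioc D₁ D₂, w * R ≤ d) (hD2 : (D₂ : ℝ) ≤ R / 4) :
    ∑ d ∈ Ioc D₁ D₂, 1 / (d.totient : ℝ) ≤ C₀ / (4 * w) := by
  calc ∑ d ∈ Ioc D₁ D₂, 1 / (d.totient : ℝ) ≤ ∑ d ∈ Ioc D₁ D₂, 1 / (w * R) * ((d : ℝ) / (d.totient : ℝ)) := by
        apply Finset.sum_le_sum
        intro d hd
        have h1 : 1 ≤ d := by have := (Finset.mem_Ioc.1 hd).1; omega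
        have h5 : (0 : ℝ) < d.totient := by exact_mod_cast Nat.totient_pos.2 h1
        have h2 := hD1 d hd
        have h3 : 0 < w * R := by positivity
        rw [div_mul_div_comm, one_mul, div_le_div_iff₀ h5 (by positivity)]
        nlinarith
    _ = 1 / (w * R) * ∑ d ∈ Ioc D₁ D₂, ((d : ℝ) / (d.totient : ℝ)) := by rw [Finset.mul_sum]
    _ ≤ 1 / (w * R) * (C₀ * (R / 4)) := by
        have h1 : ∑ d ∈ Ioc D₁ D₂, ((d : ℝ) / (d.totient : ℝ)) ≤ ∑ d ∈ Icc 1 D₂, ((d : ℝ) / (d.totient : ℝ)) := by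
          apply Finset.sum_le_sum_of_subset_of_nonneg
          · intro d hd
            rw [Finset.mem_Ioc] at hd
            rw [Finset.mem_Icc]
            omega
          · intro d _ _
            positivity
        have h2 := hratio D₂
        have h3 : C₀ * (D₂ : ℝ) ≤ C₀ * (R / 4) := by gcongr
        apply mul_le_mul_of_nonneg_left _ (by positivity)
        linarith
    _ = C₀ / (4 * w) := by field_simp

end

end Pool.Agent.Lib.MP391708.QPA.WB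

namespace Pool.Agent.Lib.MP391708.QPA

open Finset Filter Topology WB
open scoped Classical

set_option maxHeartbeats 1000000 in
theorem specWB : SpecWB := by
  intro B ϖ e hB hϖ he
  obtain ⟨C₀, hC₀, hratio⟩ := sum_ratio
  obtain ⟨M, hM, hlip⟩ := kB_lip
  obtain ⟨k, hk2, hk⟩ : ∃ k : ℕ, 2 ≤ k ∧ 36 * B ^ 2 * C₀ * (1 / 2 : ℝ) ^ k ≤ ϖ / 3 := by
    have ht : Tendsto (fun k : ℕ => 36 * B ^ 2 * C₀ * (1 / 2 : ℝ) ^ k) atTop (𝓝 (36 * B ^ 2 * C₀ * 0)) :=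
      (tendsto_pow_atTop_nhds_zero_of_lt_one (by norm_num) (by norm_num)).const_mul _
    rw [mul_zero] at ht
    have h1 := ht.eventually (eventually_le_nhds (show (0 : ℝ) < ϖ / 3 by positivity))
    obtain ⟨k, hk, hk2⟩ := (h1.and (eventually_ge_atTop 2)).exists
    exact ⟨k, hk2, hk⟩
  have hk0 : (0 : ℝ) < k := by
    have : (2 : ℝ) ≤ k := by exact_mod_cast hk2
    linarith
  set w : ℝ := (1 / 2 : ℝ) ^ k with hw
  have hw0 : 0 < w := by positivity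
  have hw2 : w * 2 ^ k = 1 := by rw [hw, ← mul_pow]; norm_num
  have h2k : (4 : ℝ) ≤ 2 ^ k := by
    calc (4 : ℝ) = 2 ^ 2 := by norm_num
      _ ≤ 2 ^ k := pow_le_pow_right₀ (by norm_num) hk2
  have hw4 : w ≤ 1 / 4 := by nlinarith
  refine ⟨ϖ / (3 * k), by positivity, max 1 ⌈3 * B ^ 2 * C₀ * (M + 2) / (w ^ 3 * ϖ)⌉₊, le_max_left _ _, ?_⟩
  intro J hJ
  have hJ1 : 1 ≤ J := (le_max_left _ _).trans hJ
  have hJ0 : (0 : ℝ) < J := by exact_mod_cast hJ1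
  have hJ2 : 3 * B ^ 2 * C₀ * (M + 2) / (w ^ 3 * ϖ) ≤ J := by
    have h1 : ⌈3 * B ^ 2 * C₀ * (M + 2) / (w ^ 3 * ϖ)⌉₊ ≤ J := (le_max_right _ _).trans hJ
    exact (Nat.le_ceil _).trans (by exact_mod_cast h1)
  obtain ⟨N₁, hN₁⟩ : ∃ N₁ : ℕ, ∀ N : ℕ, N₁ ≤ N → (2 : ℝ) ^ k ≤ (N : ℝ) ^ e := by
    have ht : Tendsto (fun N : ℕ => (N : ℝ) ^ e) atTop atTop :=
      (tendsto_rpow_atTop he).comp tendsto_natCast_atTop_atTop
    exact eventually_atTop.1 (ht.eventually_ge_atTop _)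
  refine ⟨max 4 N₁, ?_⟩
  intro N K L η b s hN hη hη4 hK1 hKL hlo hhi hRe hRN hbs hb hsv hvd
  set R := √(L / K) with hR
  have hR2k : (2 : ℝ) ^ k ≤ R := (hN₁ N ((le_max_right _ _).trans hN)).trans hRe
  have hN4 : (4 : ℝ) ≤ N := by exact_mod_cast (le_max_left _ _).trans hN
  have hS : Siz N K L e := ⟨hN4, hK1, hKL, hlo, h2k.trans hR2k, hRN⟩
  have hs : ∀ u, 0 ≤ s u := fun u => (abs_nonneg _).trans (hbs u)
  have hL := hS.Lpos
  have hK := hS.Kpos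
  have hlg := hS.lg
  have hRT := hS.RT
  have hR0 : 0 < R := by linarith
  have hRK : R ^ 2 * K = L := by
    rw [hR, Real.sq_sqrt (by positivity)]; field_simp
  set D₁ := ⌊w * R⌋₊ with hD₁
  set D₂ := ⌊R / 4⌋₊ with hD₂
  have hwR : 1 ≤ w * R := by nlinarith
  have hD₁1 : 1 ≤ D₁ := by
    rw [hD₁]; exact (Nat.one_le_floor_iff _).2 hwR
  have hD₁w : (D₁ : ℝ) ≤ w * R := Nat.floor_le (by positivity)
  have hD₂w : (D₂ : ℝ) ≤ R / 4 := Nat.floor_le (by positivity)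
  have hD12 : D₁ ≤ D₂ := Nat.floor_mono (by nlinarith)
  have hDd : ∀ d ∈ Ioc D₁ D₂, w * R ≤ d := by
    intro d hd
    have h1 : D₁ + 1 ≤ d := (Finset.mem_Ioc.1 hd).1
    have h2 : ((D₁ : ℝ) + 1) ≤ d := by exact_mod_cast h1
    have h3 := Nat.lt_floor_add_one (w * R)
    linarith
  have hD2k : D₂ ≤ D₁ * 2 ^ k := by
    have h1 : (D₂ : ℝ) ≤ (D₁ : ℝ) * 2 ^ k := by
      have h3 := Nat.lt_floor_add_one (w * R)
      have h4 : (1 : ℝ) ≤ D₁ := by exact_mod_cast hD₁1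
      have h5 : w * R ≤ 2 * D₁ := by linarith
      have h6 : (w * R) * 2 ^ k ≤ 2 * D₁ * 2 ^ k := by gcongr
      have h7 : (w * R) * 2 ^ k = R := by
        calc (w * R) * 2 ^ k = (w * 2 ^ k) * R := by ring
          _ = R := by rw [hw2, one_mul]
      linarith
    exact_mod_cast h1
  -- small d
  have hsmall : ∑ d ∈ Icc 1 D₁, |Wd K L d b| ≤ ϖ / 3 * L / (Real.log N) ^ 2 := by
    calc ∑ d ∈ Icc 1 D₁, |Wd K L d b|
        ≤ ∑ d ∈ Icc 1 D₁, 36 * B ^ 2 * √(K * L) / (Real.log N) ^ 2 * ((d : ℝ) / (d.totient : ℝ)) := by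
          apply Finset.sum_le_sum
          intro d hd
          rw [Finset.mem_Icc] at hd
          apply Wd_small hS hsv hB hbs hd.1
          have h1 : (d : ℝ) ≤ D₂ := by exact_mod_cast hd.2.trans hD12
          exact h1.trans hD₂w
      _ = 36 * B ^ 2 * √(K * L) / (Real.log N) ^ 2 * ∑ d ∈ Icc 1 D₁, ((d : ℝ) / (d.totient : ℝ)) := by
          rw [Finset.mul_sum]
      _ ≤ 36 * B ^ 2 * √(K * L) / (Real.log N) ^ 2 * (C₀ * (w * R)) := by
          have h1 := hratio D₁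
          have h2 : C₀ * (D₁ : ℝ) ≤ C₀ * (w * R) := by gcongr
          apply mul_le_mul_of_nonneg_left (h1.trans h2) (by positivity)
      _ = (36 * B ^ 2 * C₀ * w) * (R * √(K * L)) / (Real.log N) ^ 2 := by ring
      _ = (36 * B ^ 2 * C₀ * w) * L / (Real.log N) ^ 2 := by rw [hRT]
      _ ≤ ϖ / 3 * L / (Real.log N) ^ 2 := by gcongr
  -- large d
  set ε : ℝ := (M + 2) / w ^ 2 * (η * L / J) / L ^ 2 with hε
  have hε0 : 0 ≤ ε := by positivity
  have hlarge1 : ∀ d ∈ Ioc D₁ D₂, |Wd K L d b| ≤ J / L * ∑ i ∈ range J, Qc (pc L η J i) b d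
      + ε * (4 * B ^ 2 * L ^ 2 / (Real.log N) ^ 2 * (1 / (d.totient : ℝ))) := by
    intro d hd
    have hd' := Finset.mem_Ioc.1 hd
    have hd1 : 1 ≤ d := by omega
    have hdR : (d : ℝ) ≤ R / 4 := by
      have h1 : (d : ℝ) ≤ D₂ := by exact_mod_cast hd'.2
      exact h1.trans hD₂w
    have hwd := hDd d hd
    have hdw : w ^ 2 * L ≤ (d : ℝ) ^ 2 * K := by
      rw [← hRK]
      have h1 : (w * R) ^ 2 ≤ (d : ℝ) ^ 2 := by
        apply pow_le_pow_left₀ (by positivity) hwd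
      nlinarith
    have h1 := Wd_large (K := K) (ε := ε) (J := J) hbs hL hη.le hη4 hε0 hd1 hJ1 hb (by
      intro i hi j hj u hu v hv
      have hu' := mem_pc hu
      have hv' := mem_pc hv
      have e1 := xp_succ L η J i
      have e2 := xp_succ L η J j
      have e3 := xp_le hL.le hη.le (J := J) (i := i + 1) (by omega) hJ1
      have e4 := xp_le hL.le hη.le (J := J) (i := j + 1) (by omega) hJ1
      exact ker_diff hM hlip hK hL hw0 (by linarith) hd1 hdw (le_xp hL.le hη.le J i) hu'.1.le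
        (by linarith [hu'.2]) (le_xp hL.le hη.le J j) hv'.1.le (by linarith [hv'.2])
        (by nlinarith [hu'.2]) (by nlinarith [hv'.2]))
    have h2 := S2 hS hsv hB hs hd1 hdR hη4
    have h5 : (0 : ℝ) < d.totient := by exact_mod_cast Nat.totient_pos.2 hd1
    have h3 : 4 * B ^ 2 * L ^ 2 / ((d.totient : ℝ) * (Real.log N) ^ 2)
        = 4 * B ^ 2 * L ^ 2 / (Real.log N) ^ 2 * (1 / (d.totient : ℝ)) := by
      field_simp
    rw [h3] at h2
    have h4 := mul_le_mul_of_nonneg_left h2 hε0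
    linarith
  have hlarge : ∑ d ∈ Ioc D₁ D₂, |Wd K L d b| ≤ ϖ / 3 * L / (Real.log N) ^ 2
      + ϖ / 3 * L / (Real.log N) ^ 2 := by
    refine (Finset.sum_le_sum hlarge1).trans ?_
    rw [Finset.sum_add_distrib, ← Finset.mul_sum, ← Finset.mul_sum, ← Finset.mul_sum, Finset.sum_comm]
    apply add_le_add
    · have h1 : ∀ i ∈ range J, ∑ d ∈ Ioc D₁ D₂, Qc (pc L η J i) b d
          ≤ k * (ϖ / (3 * k) / (J : ℝ) ^ 2 * L ^ 2 / (Real.log N) ^ 2) := by
        intro i hi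
        exact blocks hD₁1 hw hR0.le hD₁w hD2k (hvd i (Finset.mem_range.1 hi))
      calc J / L * ∑ i ∈ range J, ∑ d ∈ Ioc D₁ D₂, Qc (pc L η J i) b d
          ≤ J / L * ∑ i ∈ range J, k * (ϖ / (3 * k) / (J : ℝ) ^ 2 * L ^ 2 / (Real.log N) ^ 2) := by
            apply mul_le_mul_of_nonneg_left (Finset.sum_le_sum h1) (by positivity)
        _ = ϖ / 3 * L / (Real.log N) ^ 2 := by
            rw [Finset.sum_const, Finset.card_range, nsmul_eq_mul]
            field_simp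
        _ ≤ _ := le_rfl
    · have h1 := sum_inv_tot hC₀ hratio hw0 hR0 hDd hD₂w
      calc ε * (4 * B ^ 2 * L ^ 2 / (Real.log N) ^ 2 * ∑ d ∈ Ioc D₁ D₂, 1 / (d.totient : ℝ))
          ≤ ε * (4 * B ^ 2 * L ^ 2 / (Real.log N) ^ 2 * (C₀ / (4 * w))) := by gcongr
        _ = η * ((B ^ 2 * C₀ * (M + 2) / w ^ 3) / J) * (L / (Real.log N) ^ 2) := by
            rw [hε]; field_simp
        _ ≤ 1 * (ϖ / 3) * (L / (Real.log N) ^ 2) := by
            have h2 : (B ^ 2 * C₀ * (M + 2) / w ^ 3) / J ≤ ϖ / 3 := by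
              rw [div_le_iff₀ hJ0]
              have h3 : B ^ 2 * C₀ * (M + 2) / w ^ 3 = ϖ / 3 * (3 * B ^ 2 * C₀ * (M + 2) / (w ^ 3 * ϖ)) := by
                field_simp
              rw [h3]
              gcongr
            gcongr
            linarith
        _ = ϖ / 3 * L / (Real.log N) ^ 2 := by ring
  -- the total
  have hsum : Wsum K L b = ∑ d ∈ Icc 1 D₁, Wd K L d b + ∑ d ∈ Ioc D₁ D₂, Wd K L d b := by
    unfold Wsum
    rw [← Finset.sum_union]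
    · apply Finset.sum_congr _ (fun _ _ => rfl)
      ext d
      simp only [Finset.mem_union, Finset.mem_Icc, Finset.mem_Ioc]
      constructor
      · rintro ⟨h1, h2⟩
        by_cases h3 : d ≤ D₁
        · exact Or.inl ⟨h1, h3⟩
        · exact Or.inr ⟨by omega, h2⟩
      · rintro (⟨h1, h2⟩ | ⟨h1, h2⟩)
        · exact ⟨h1, h2.trans hD12⟩
        · exact ⟨by omega, h2⟩
    · rw [Finset.disjoint_left]
      intro d h1 h2
      rw [Finset.mem_Icc] at h1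
      rw [Finset.mem_Ioc] at h2
      omega
  rw [hsum]
  calc |∑ d ∈ Icc 1 D₁, Wd K L d b + ∑ d ∈ Ioc D₁ D₂, Wd K L d b|
      ≤ |∑ d ∈ Icc 1 D₁, Wd K L d b| + |∑ d ∈ Ioc D₁ D₂, Wd K L d b| := abs_add_le _ _
    _ ≤ ∑ d ∈ Icc 1 D₁, |Wd K L d b| + ∑ d ∈ Ioc D₁ D₂, |Wd K L d b| :=
        add_le_add (Finset.abs_sum_le_sum_abs _ _) (Finset.abs_sum_le_sum_abs _ _)
    _ ≤ ϖ / 3 * L / (Real.log N) ^ 2 + (ϖ / 3 * L / (Real.log N) ^ 2 + ϖ / 3 * L / (Real.log N) ^ 2) :=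
        add_le_add hsmall hlarge
    _ = ϖ * L / (Real.log N) ^ 2 := by ring

end Pool.Agent.Lib.MP391708.QPA
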