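import Pool.Agent.Lib.MP_391708_nt.QPA.WINM

/-!
# WIN: the values `n² + a` with a divisor in a window
-/

set_option autoImplicit false

namespace Pool.Agent.Lib.MP391708.QPA

open Finset Filter Topology
open scoped Classical

noncomputable section

namespace WIN

/-- the truncated sieve sum -/
def ssum (y : ℝ) (lam : ℕ → ℝ) (l : ℕ) : ℝ := ∑ d ∈ Icc 1 ⌊y⌋₊, if d ∣ l then lam d else 0

/-- the sieve sum is `1` on rough numbers -/
theorem ssum_rough (y z : ℝ) (lam : ℕ → ℝ) (hy : 1 ≤ y) (hyz : y < z) (h1 : lam 1 = 1) (l : ℕ)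
    (hl : Rough z l) : ssum y lam l = 1 := by
  unfold ssum
  rw [sum_eq_single 1]
  · simp [h1]
  · intro d hd hd1
    rw [if_neg]
    intro hdl
    rw [mem_Icc] at hd
    obtain ⟨p, hp, hpd⟩ := Nat.exists_prime_and_dvd hd1
    have h2 := hl p hp (hpd.trans hdl)
    have h3 : p ≤ d := Nat.le_of_dvd (by omega) hpd
    have h4 : (d : ℝ) ≤ y := (Nat.cast_le.2 hd.2).trans (Nat.floor_le (by linarith))
    have h5 : (p : ℝ) ≤ d := by exact_mod_cast h3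
    linarith
  · intro h
    exfalso
    apply h
    rw [mem_Icc]
    exact ⟨le_rfl, Nat.le_floor (by simpa using hy)⟩

theorem sq_expand (y : ℝ) (lam : ℕ → ℝ) (l : ℕ) :
    (ssum y lam l) ^ 2 = ∑ d ∈ Icc 1 ⌊y⌋₊, ∑ e ∈ Icc 1 ⌊y⌋₊,
      lam d * lam e * (if d ∣ l ∧ e ∣ l then 1 else 0) := by
  unfold ssum
  rw [sq, sum_mul_sum]
  refine sum_congr rfl fun d _ => sum_congr rfl fun e _ => ?_
  by_cases h1 : d ∣ l <;> by_cases h2 : e ∣ l <;> simp [h1, h2]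

theorem dvd_iff (j d e v : ℕ) (hj : 1 ≤ j) :
    (j ∣ v ∧ d ∣ v / j ∧ e ∣ v / j) ↔ j * Nat.lcm d e ∣ v := by
  constructor
  · rintro ⟨⟨w, rfl⟩, h1, h2⟩
    rw [Nat.mul_div_cancel_left w hj] at h1 h2
    exact Nat.mul_dvd_mul_left j (Nat.lcm_dvd h1 h2)
  · intro h
    obtain ⟨w, rfl⟩ := (Nat.dvd_mul_right j (Nat.lcm d e)).trans h
    have h3 : Nat.lcm d e ∣ w := Nat.dvd_of_mul_dvd_mul_left hj h
    rw [Nat.mul_div_cancel_left w hj]
    exact ⟨dvd_mul_right j w, (Nat.dvd_lcm_left d e).trans h3, (Nat.dvd_lcm_right d e).trans h3⟩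

/-- the second moment of the sieve sum over the pairs `(n, a)` with `j ∣ n² + a` -/
theorem core (N A j : ℕ) (y E : ℝ) (lam : ℕ → ℝ) (hj : 1 ≤ j) (hy : 1 ≤ y)
    (hlam : ∀ d, |lam d| ≤ 1) (hE : 0 ≤ E)
    (hq : ∀ q : ℕ, j ≤ q → (q : ℝ) ≤ j * y ^ 2 →
      |((((Ioc N (N + N)) ×ˢ (IA A)).filter (fun t => q ∣ val t.2 t.1)).card : ℝ)
      - (2 * A + 1) * N / (q : ℝ)| ≤ E) :
    ∑ t ∈ ((Ioc N (N + N)) ×ˢ (IA A)).filter (fun t => j ∣ val t.2 t.1),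
        (ssum y lam (val t.2 t.1 / j)) ^ 2
      ≤ (2 * A + 1) * N / j * QF y lam + y ^ 2 * E := by
  have hjp : (0 : ℝ) < j := by exact_mod_cast hj
  set P := (Ioc N (N + N)) ×ˢ (IA A) with hP
  have h1 : ∑ t ∈ P.filter (fun t => j ∣ val t.2 t.1), (ssum y lam (val t.2 t.1 / j)) ^ 2
      = ∑ d ∈ Icc 1 ⌊y⌋₊, ∑ e ∈ Icc 1 ⌊y⌋₊, lam d * lam e *
        ((P.filter (fun t => j * Nat.lcm d e ∣ val t.2 t.1)).card : ℝ) := by
    simp_rw [sq_expand]
    rw [sum_comm]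
    refine sum_congr rfl fun d _ => ?_
    rw [sum_comm]
    refine sum_congr rfl fun e _ => ?_
    rw [← mul_sum]
    congr 1
    rw [sum_filter, card_eq_sum_ones, Nat.cast_sum, sum_filter]
    refine sum_congr rfl fun t _ => ?_
    by_cases h : j * Nat.lcm d e ∣ val t.2 t.1
    · have h2 := (dvd_iff j d e (val t.2 t.1) hj).2 h
      simp [h, h2.1, h2.2]
    · have h2 : ¬ (j ∣ val t.2 t.1 ∧ d ∣ val t.2 t.1 / j ∧ e ∣ val t.2 t.1 / j) :=
        fun hh => h ((dvd_iff j d e (val t.2 t.1) hj).1 hh)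
      by_cases h3 : j ∣ val t.2 t.1
      · have h4 : ¬ (d ∣ val t.2 t.1 / j ∧ e ∣ val t.2 t.1 / j) := fun hh => h2 ⟨h3, hh⟩
        rw [if_pos h3, if_neg h4, if_neg h]
      · simp [h, h3]
  rw [h1]
  have h2 : ∀ d ∈ Icc 1 ⌊y⌋₊, ∀ e ∈ Icc 1 ⌊y⌋₊, lam d * lam e *
        ((P.filter (fun t => j * Nat.lcm d e ∣ val t.2 t.1)).card : ℝ)
      ≤ (2 * A + 1) * N / j * (lam d * lam e / (Nat.lcm d e : ℝ)) + E := by
    intro d hd e he
    rw [mem_Icc] at hd he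
    have hlp : 0 < Nat.lcm d e := Nat.lcm_pos (by omega) (by omega)
    have hlp' : (0 : ℝ) < Nat.lcm d e := by exact_mod_cast hlp
    have hd' : (d : ℝ) ≤ y := (Nat.cast_le.2 hd.2).trans (Nat.floor_le (by linarith))
    have he' : (e : ℝ) ≤ y := (Nat.cast_le.2 he.2).trans (Nat.floor_le (by linarith))
    have hle : (Nat.lcm d e : ℝ) ≤ y ^ 2 := by
      have : Nat.lcm d e ≤ d * e := Nat.le_of_dvd (Nat.mul_pos (by omega) (by omega))
        (Nat.lcm_dvd_mul d e)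
      calc (Nat.lcm d e : ℝ) ≤ d * e := by exact_mod_cast this
        _ ≤ y * y := by gcongr
        _ = y ^ 2 := by ring
    have h3 := hq (j * Nat.lcm d e) (Nat.le_mul_of_pos_right j hlp) (by push_cast; gcongr)
    have h4 : |lam d * lam e| ≤ 1 := by
      rw [abs_mul]
      calc |lam d| * |lam e| ≤ 1 * 1 := by gcongr; exact hlam d; exact hlam e
        _ = 1 := by ring
    set X : ℝ := ((P.filter (fun t => j * Nat.lcm d e ∣ val t.2 t.1)).card : ℝ) with hX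
    set M : ℝ := (2 * A + 1) * N / ((j * Nat.lcm d e : ℕ) : ℝ) with hM
    have h5 : lam d * lam e * (X - M) ≤ E := by
      calc lam d * lam e * (X - M) ≤ |lam d * lam e * (X - M)| := le_abs_self _
        _ = |lam d * lam e| * |X - M| := abs_mul _ _
        _ ≤ 1 * E := by gcongr
        _ = E := by ring
    have h6 : (2 * A + 1) * N / j * (lam d * lam e / (Nat.lcm d e : ℝ)) = lam d * lam e * M := by
      rw [hM]
      push_cast
      field_simp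
    rw [h6]
    linarith
  calc ∑ d ∈ Icc 1 ⌊y⌋₊, ∑ e ∈ Icc 1 ⌊y⌋₊, lam d * lam e *
        ((P.filter (fun t => j * Nat.lcm d e ∣ val t.2 t.1)).card : ℝ)
      ≤ ∑ d ∈ Icc 1 ⌊y⌋₊, ∑ e ∈ Icc 1 ⌊y⌋₊,
        ((2 * A + 1) * N / j * (lam d * lam e / (Nat.lcm d e : ℝ)) + E) :=
        sum_le_sum fun d hd => sum_le_sum fun e he => h2 d hd e he
    _ = (2 * A + 1) * N / j * QF y lam + (⌊y⌋₊ : ℝ) ^ 2 * E := by
        unfold QF
        simp_rw [sum_add_distrib, sum_const, Nat.card_Icc, ← mul_sum]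
        simp only [Nat.add_sub_cancel, nsmul_eq_mul]
        ring
    _ ≤ (2 * A + 1) * N / j * QF y lam + y ^ 2 * E := by
        have : (⌊y⌋₊ : ℝ) ≤ y := Nat.floor_le (by linarith)
        gcongr

/-- the size of the values -/
theorem val_bounds (N A n : ℕ) (a : ℤ) (hn : n ∈ Ioc N (N + N)) (ha : a ∈ IA A)
    (hA : (A : ℝ) ≤ (N : ℝ) ^ 2 / 2) :
    (N : ℝ) ^ 2 / 2 ≤ (val a n : ℝ) ∧ (val a n : ℝ) ≤ 5 * (N : ℝ) ^ 2 := by
  rw [mem_Ioc] at hn
  unfold IA at ha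
  rw [mem_Icc] at ha
  have h1 : (N : ℝ) < n := by exact_mod_cast hn.1
  have h2 : (n : ℝ) ≤ 2 * N := by
    have : n ≤ 2 * N := by omega
    exact_mod_cast this
  have h3 : -(A : ℝ) ≤ a := by exact_mod_cast ha.1
  have h4 : (a : ℝ) ≤ A := by exact_mod_cast ha.2
  have h5 : (val a n : ℝ) = |(n : ℝ) ^ 2 + a| := by
    unfold val
    rw [Nat.cast_natAbs]
    push_cast
    rfl
  have h6 : (0 : ℝ) ≤ N := by positivity
  have h7 : (N : ℝ) ^ 2 ≤ (n : ℝ) ^ 2 := by gcongr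
  have h8 : (n : ℝ) ^ 2 ≤ 4 * (N : ℝ) ^ 2 := by
    calc (n : ℝ) ^ 2 ≤ (2 * N) ^ 2 := by gcongr
      _ = _ := by ring
  rw [h5, abs_of_nonneg (by linarith)]
  constructor <;> nlinarith [sq_nonneg (N : ℝ)]

/-- `∑_{1 ≤ j ≤ n} 1/√j ≤ 2√n` -/
theorem sum_inv_sqrt (n : ℕ) : ∑ j ∈ Icc 1 n, 1 / √(j : ℝ) ≤ 2 * √(n : ℝ) := by
  induction n with
  | zero => simp
  | succ n ih =>
    rw [sum_Icc_succ_top (by omega)]
    have h1 : (0 : ℝ) < √((n + 1 : ℕ) : ℝ) := Real.sqrt_pos.2 (by positivity)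
    have h2 : (√((n + 1 : ℕ) : ℝ)) ^ 2 = n + 1 := by
      rw [Real.sq_sqrt (by positivity)]
      push_cast
      ring
    have h3 : (√(n : ℝ)) ^ 2 = n := Real.sq_sqrt (by positivity)
    have h4 : 1 / √((n + 1 : ℕ) : ℝ) ≤ 2 * √((n + 1 : ℕ) : ℝ) - 2 * √(n : ℝ) := by
      rw [div_le_iff₀ h1]
      nlinarith [sq_nonneg (√((n + 1 : ℕ) : ℝ) - √(n : ℝ))]
    linarith

/-- WIN for all `θ > 3/5` -/
theorem main (hS : SpecSELB) (hQ : SpecQG) (hR : SpecRSUM) :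
    ∀ θ : ℝ, 3 / 5 < θ → ∃ C : ℝ, 0 < C ∧ ∀ e0 e : ℝ, 0 < e0 → e0 ≤ 1 / 10 →
  0 < e → e ≤ 1 / 10 → ∃ N₀ : ℕ, ∀ N A : ℕ, N₀ ≤ N → Adm θ N A → ∀ x : ℝ, 1 / 2 ≤ x → x ≤ 3 / 2 →
    ∑ a ∈ IA A, cnt N a (fun m => if Rough ((N : ℝ) ^ e0) m ∧ Win N x e m then 1 else 0)
      ≤ C * (e / e0 ^ 2) * A * N / Real.log N := by
  intro θ hθ
  obtain ⟨CS, hCS, hSel⟩ := hS
  obtain ⟨CW, hCW, hW⟩ := WINM.wsum hR
  obtain ⟨CQ, hCQ, hQG⟩ := hQ (1 / 100) (by norm_num)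
  refine ⟨60 * CS * CW + 1, by positivity, ?_⟩
  intro e0 e he0 he0' he he'
  obtain ⟨N₁, hN₁⟩ := hW e0 e he0 he0' he he'
  obtain ⟨N₂, hN₂⟩ := NSFM.eventually_rpow (1 / 20) (e / e0 ^ 2 / (15 * CQ)) (by norm_num)
    (by positivity)
  obtain ⟨N₄, hN₄⟩ := NSFM.eventually_rpow 1 (1 / 2) (by norm_num) (by norm_num)
  have ht : Tendsto (fun N : ℕ => (N : ℝ)) atTop atTop := tendsto_natCast_atTop_atTop
  have hev : ∀ᶠ N : ℕ in atTop, 2 ≤ (N : ℝ) ^ (e0 / 20) ∧ 3 ≤ (N : ℝ) ^ (9 / 10 : ℝ) :=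
    (ht.eventually ((tendsto_rpow_atTop (by positivity)).eventually_ge_atTop _)).and
      (ht.eventually ((tendsto_rpow_atTop (by norm_num)).eventually_ge_atTop _))
  obtain ⟨N₃, hN₃⟩ := eventually_atTop.1 hev
  refine ⟨max (max N₁ N₂) (max N₃ (max N₄ 3)), fun N A hN hAdm x hx1 hx2 => ?_⟩
  have hNN1 : N₁ ≤ N := ((le_max_left _ _).trans (le_max_left _ _)).trans hN
  have hNN2 : N₂ ≤ N := ((le_max_right _ _).trans (le_max_left _ _)).trans hN
  have hNN3 : N₃ ≤ N := ((le_max_left _ _).trans (le_max_right _ _)).trans hN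
  have hNN4 : N₄ ≤ N :=
    ((le_max_left _ _).trans ((le_max_right _ _).trans (le_max_right _ _))).trans hN
  have hN3 : 3 ≤ N :=
    ((le_max_right _ _).trans ((le_max_right _ _).trans (le_max_right _ _))).trans hN
  have hws := hN₁ N hNN1 x hx1 hx2
  have hlogN := hN₂ N hNN2
  obtain ⟨hy2, h39⟩ := hN₃ N hNN3
  have hlogN2 := hN₄ N hNN4
  rw [Real.rpow_one] at hlogN2
  have hN3' : (3 : ℝ) ≤ N := by exact_mod_cast hN3
  have hNp : (0 : ℝ) < N := by linarith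
  have hN1 : (1 : ℝ) < N := by linarith
  have hlogp : 0 < Real.log N := Real.log_pos hN1
  obtain ⟨hA1, hA2⟩ := hAdm
  have hAp : (0 : ℝ) < A := lt_of_lt_of_le (Real.rpow_pos_of_pos hNp _) hA1
  have hAone : (1 : ℝ) ≤ A := by
    have : 0 < A := by exact_mod_cast hAp
    exact_mod_cast this
  have hA3 : (A : ℝ) ≤ (N : ℝ) ^ 2 / 2 := by
    calc (A : ℝ) ≤ N * Real.log N := hA2
      _ ≤ N * (1 / 2 * N) := by gcongr
      _ = _ := by ring
  set z : ℝ := (N : ℝ) ^ e0 with hz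
  set y : ℝ := (N : ℝ) ^ (e0 / 20) with hy
  have hyz : y < z := Real.rpow_lt_rpow_of_exponent_lt hN1 (by linarith)
  have hlogy : Real.log y = e0 / 20 * Real.log N := Real.log_rpow hNp _
  have hy1 : 1 ≤ y := by linarith
  obtain ⟨lam, hlam1, hlam, -, hQF0, hQF⟩ := hSel y 1 hy2 le_rfl
  rw [hlogy, Nat.totient_one] at hQF
  set S := (Icc 1 (3 * N)).filter (fun j => Rough z j ∧ WINM.InW N x e j) with hSdef
  set P := (Ioc N (N + N)) ×ˢ (IA A) with hP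
  set E : ℕ → ℝ := fun j => CQ * (N : ℝ) ^ (1 / 50 : ℝ) *
    (N * (1 / √(j : ℝ)) + 2 * (N : ℝ) ^ (101 / 200 : ℝ)) with hEdef
  have hy200 : y ≤ (N : ℝ) ^ (1 / 200 : ℝ) :=
    Real.rpow_le_rpow_of_exponent_le hN1.le (by linarith)
  have hy100 : y ^ 2 ≤ (N : ℝ) ^ (1 / 100 : ℝ) := by
    calc y ^ 2 ≤ ((N : ℝ) ^ (1 / 200 : ℝ)) ^ 2 := by gcongr
      _ = (N : ℝ) ^ (1 / 100 : ℝ) := by
          rw [← Real.rpow_natCast, ← Real.rpow_mul hNp.le]; norm_num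
  -- for one `j`
  have hone : ∀ j ∈ S,
      ∑ t ∈ P.filter (fun t => j ∣ val t.2 t.1), (WIN.ssum y lam (val t.2 t.1 / j)) ^ 2
        ≤ 60 * CS * A * N / (e0 * Real.log N) * (1 / j) + (N : ℝ) ^ (1 / 100 : ℝ) * E j := by
    intro j hj
    rw [hSdef, mem_filter, mem_Icc] at hj
    obtain ⟨⟨hj1, hj2⟩, _, hjw⟩ := hj
    have hjp : (0 : ℝ) < j := by exact_mod_cast hj1
    have hj3 : (j : ℝ) ≤ 3 * N := by exact_mod_cast hj2
    have hc := WIN.core N A j y (E j) lam hj1 hy1 hlam (by positivity) (by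
      intro q hq1 hq2
      have hq1' : 1 ≤ q := hj1.trans hq1
      have hqp : (0 : ℝ) < q := by exact_mod_cast hq1'
      have hjq : (j : ℝ) ≤ q := by exact_mod_cast hq1
      refine (hQG q N N A hq1').trans ?_
      have hqN : (q : ℝ) ≤ 3 * N * (N : ℝ) ^ (1 / 100 : ℝ) := by
        refine hq2.trans ?_
        gcongr
      have h1 : (q : ℝ) ≤ (N : ℝ) ^ 2 := by
        refine hqN.trans ?_
        have h3 : 3 * (N : ℝ) ^ (1 / 100 : ℝ) ≤ N := by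
          calc 3 * (N : ℝ) ^ (1 / 100 : ℝ) ≤ (N : ℝ) ^ (9 / 10 : ℝ) * (N : ℝ) ^ (1 / 10 : ℝ) := by
                have : (N : ℝ) ^ (1 / 100 : ℝ) ≤ (N : ℝ) ^ (1 / 10 : ℝ) :=
                  Real.rpow_le_rpow_of_exponent_le hN1.le (by norm_num)
                gcongr
            _ = N := by rw [← Real.rpow_add hNp]; norm_num
        calc 3 * N * (N : ℝ) ^ (1 / 100 : ℝ) = N * (3 * (N : ℝ) ^ (1 / 100 : ℝ)) := by ring
          _ ≤ N * N := by gcongr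
          _ = _ := by ring
      have h2 : (q : ℝ) ^ (1 / 100 : ℝ) ≤ (N : ℝ) ^ (1 / 50 : ℝ) := by
        calc (q : ℝ) ^ (1 / 100 : ℝ) ≤ ((N : ℝ) ^ 2) ^ (1 / 100 : ℝ) := by gcongr
          _ = (N : ℝ) ^ (1 / 50 : ℝ) := by
              rw [← Real.rpow_natCast, ← Real.rpow_mul hNp.le]; norm_num
      have h3 : N / √(q : ℝ) ≤ N * (1 / √(j : ℝ)) := by
        rw [mul_one_div]
        have h4 : √(j : ℝ) ≤ √(q : ℝ) := Real.sqrt_le_sqrt hjq
        have h5 : 0 < √(j : ℝ) := Real.sqrt_pos.2 hjp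
        gcongr
      have h4 : √(q : ℝ) ≤ 2 * (N : ℝ) ^ (101 / 200 : ℝ) := by
        rw [Real.sqrt_le_left (by positivity)]
        have h6 : (0 : ℝ) < N * (N : ℝ) ^ (1 / 100 : ℝ) := by positivity
        calc (q : ℝ) ≤ 3 * N * (N : ℝ) ^ (1 / 100 : ℝ) := hqN
          _ ≤ 4 * (N * (N : ℝ) ^ (1 / 100 : ℝ)) := by nlinarith
          _ = (2 * (N : ℝ) ^ (101 / 200 : ℝ)) ^ 2 := by
              have h5 : ((N : ℝ) ^ (101 / 200 : ℝ)) ^ 2 = N * (N : ℝ) ^ (1 / 100 : ℝ) := by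
                rw [← Real.rpow_natCast, ← Real.rpow_mul hNp.le]
                nth_rw 2 [← Real.rpow_one (N : ℝ)]
                rw [← Real.rpow_add hNp]
                norm_num
              rw [mul_pow, h5]
              ring
      calc CQ * (q : ℝ) ^ (1 / 100 : ℝ) * (N / √(q : ℝ) + √(q : ℝ))
          ≤ CQ * (N : ℝ) ^ (1 / 50 : ℝ) *
            (N * (1 / √(j : ℝ)) + 2 * (N : ℝ) ^ (101 / 200 : ℝ)) := by
            gcongr
        _ = E j := rfl)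
    refine hc.trans (add_le_add ?_ ?_)
    · have h1 : (2 * (A : ℝ) + 1) ≤ 3 * A := by linarith
      calc (2 * (A : ℝ) + 1) * N / j * QF y lam
          ≤ 3 * A * N / j * (CS * (((1 : ℕ) : ℝ) / ((1 : ℕ) : ℝ)) / (e0 / 20 * Real.log N)) := by
            gcongr
        _ = 60 * CS * A * N / (e0 * Real.log N) * (1 / j) := by
            push_cast
            field_simp
            ring
    · have hE0 : 0 ≤ E j := by positivity
      gcongr
  -- reduction to the sums for one `j`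
  have hred : ∑ a ∈ IA A, cnt N a (fun m => if Rough z m ∧ Win N x e m then 1 else 0)
      ≤ ∑ j ∈ S, ∑ t ∈ P.filter (fun t => j ∣ val t.2 t.1),
        (WIN.ssum y lam (val t.2 t.1 / j)) ^ 2 := by
    have h1 : ∑ a ∈ IA A, cnt N a (fun m => if Rough z m ∧ Win N x e m then 1 else 0)
        = ∑ t ∈ P, (if Rough z (val t.2 t.1) ∧ Win N x e (val t.2 t.1) then (1 : ℝ) else 0) := by
      rw [hP, sum_product_right]
      unfold cnt
      rw [two_mul]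
    rw [h1]
    simp_rw [sum_filter]
    rw [sum_comm]
    refine sum_le_sum fun t htP => ?_
    rw [hP, mem_product] at htP
    have hnn : ∀ j ∈ S, 0 ≤ (if j ∣ val t.2 t.1 then (WIN.ssum y lam (val t.2 t.1 / j)) ^ 2 else 0) := by
      intro j _
      split_ifs <;> positivity
    split_ifs with hc
    · obtain ⟨hv1, hv2⟩ := WIN.val_bounds N A t.1 t.2 htP.1 htP.2 hA3
      obtain ⟨j, hj1, hj2, hj3, hj4, hj5⟩ := WINM.split N (by omega) z x e (val t.2 t.1) hv1 hv2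
        hc.1 hc.2
      have hjS : j ∈ S := by
        rw [hSdef, mem_filter]; exact ⟨hj1, hj3, hj5⟩
      have h2 := single_le_sum hnn hjS
      refine le_trans ?_ h2
      rw [if_pos hj2, WIN.ssum_rough y z lam hy1 hyz hlam1 _ hj4]
      norm_num
    · exact sum_nonneg hnn
  have hcardS : (S.card : ℝ) ≤ 3 * N := by
    have : S.card ≤ 3 * N := by
      refine (card_filter_le _ _).trans ?_
      simp
    exact_mod_cast this
  have hsq : ∑ j ∈ S, 1 / √(j : ℝ) ≤ 4 * (N : ℝ) ^ (1 / 2 : ℝ) := by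
    calc ∑ j ∈ S, 1 / √(j : ℝ) ≤ ∑ j ∈ Icc 1 (3 * N), 1 / √(j : ℝ) :=
          sum_le_sum_of_subset_of_nonneg (filter_subset _ _) fun _ _ _ => by positivity
      _ ≤ 2 * √((3 * N : ℕ) : ℝ) := WIN.sum_inv_sqrt _
      _ ≤ 2 * (2 * √(N : ℝ)) := by
          have h1 : √((3 * N : ℕ) : ℝ) ≤ 2 * √(N : ℝ) := by
            rw [Real.sqrt_le_left (by positivity), mul_pow, Real.sq_sqrt hNp.le]
            push_cast
            linarith
          gcongr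
      _ = 4 * (N : ℝ) ^ (1 / 2 : ℝ) := by
          rw [Real.sqrt_eq_rpow]; ring
  have hsumE : ∑ j ∈ S, (N : ℝ) ^ (1 / 100 : ℝ) * E j
      ≤ 10 * CQ * (N : ℝ) ^ (307 / 200 : ℝ) := by
    have h1 : ∑ j ∈ S, (N : ℝ) ^ (1 / 100 : ℝ) * E j
        = (N : ℝ) ^ (1 / 100 : ℝ) * (CQ * (N : ℝ) ^ (1 / 50 : ℝ)) *
          (N * ∑ j ∈ S, 1 / √(j : ℝ) + S.card * (2 * (N : ℝ) ^ (101 / 200 : ℝ))) := by
      rw [← mul_sum, hEdef, ← mul_sum, sum_add_distrib, ← mul_sum, sum_const, nsmul_eq_mul]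
      ring
    have h2 : (N : ℝ) * (N : ℝ) ^ (1 / 2 : ℝ) ≤ N * (N : ℝ) ^ (101 / 200 : ℝ) := by
      have : (N : ℝ) ^ (1 / 2 : ℝ) ≤ (N : ℝ) ^ (101 / 200 : ℝ) :=
        Real.rpow_le_rpow_of_exponent_le hN1.le (by norm_num)
      gcongr
    have h3 : N * ∑ j ∈ S, 1 / √(j : ℝ) + S.card * (2 * (N : ℝ) ^ (101 / 200 : ℝ))
        ≤ 10 * (N * (N : ℝ) ^ (101 / 200 : ℝ)) := by
      calc N * ∑ j ∈ S, 1 / √(j : ℝ) + S.card * (2 * (N : ℝ) ^ (101 / 200 : ℝ))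
          ≤ N * (4 * (N : ℝ) ^ (1 / 2 : ℝ)) + 3 * N * (2 * (N : ℝ) ^ (101 / 200 : ℝ)) := by
            gcongr
        _ = 4 * (N * (N : ℝ) ^ (1 / 2 : ℝ)) + 6 * (N * (N : ℝ) ^ (101 / 200 : ℝ)) := by ring
        _ ≤ 10 * (N * (N : ℝ) ^ (101 / 200 : ℝ)) := by linarith
    rw [h1]
    calc (N : ℝ) ^ (1 / 100 : ℝ) * (CQ * (N : ℝ) ^ (1 / 50 : ℝ)) *
          (N * ∑ j ∈ S, 1 / √(j : ℝ) + S.card * (2 * (N : ℝ) ^ (101 / 200 : ℝ)))
        ≤ (N : ℝ) ^ (1 / 100 : ℝ) * (CQ * (N : ℝ) ^ (1 / 50 : ℝ)) *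
          (10 * (N * (N : ℝ) ^ (101 / 200 : ℝ))) := by gcongr
      _ = 10 * CQ * ((N : ℝ) ^ (1 / 100 : ℝ) * (N : ℝ) ^ (1 / 50 : ℝ) * (N : ℝ) ^ (1 : ℝ)
            * (N : ℝ) ^ (101 / 200 : ℝ)) := by
          rw [Real.rpow_one]; ring
      _ = 10 * CQ * (N : ℝ) ^ (307 / 200 : ℝ) := by
          rw [← Real.rpow_add hNp, ← Real.rpow_add hNp, ← Real.rpow_add hNp]
          norm_num
  calc ∑ a ∈ IA A, cnt N a (fun m => if Rough z m ∧ Win N x e m then 1 else 0)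
      ≤ ∑ j ∈ S, (60 * CS * A * N / (e0 * Real.log N) * (1 / (j : ℝ))
          + (N : ℝ) ^ (1 / 100 : ℝ) * E j) := hred.trans (sum_le_sum hone)
    _ = 60 * CS * A * N / (e0 * Real.log N) * ∑ j ∈ S, 1 / (j : ℝ)
          + ∑ j ∈ S, (N : ℝ) ^ (1 / 100 : ℝ) * E j := by
        rw [sum_add_distrib, ← mul_sum]
    _ ≤ 60 * CS * A * N / (e0 * Real.log N) * (CW * (e / e0))
          + 10 * CQ * (N : ℝ) ^ (307 / 200 : ℝ) := by gcongr
    _ ≤ 60 * CS * CW * (e / e0 ^ 2) * A * N / Real.log N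
          + e / e0 ^ 2 * A * N / Real.log N := by
        refine add_le_add (le_of_eq ?_) ?_
        · field_simp
        · rw [le_div_iff₀ hlogp]
          have h1 : (N : ℝ) ^ (3 / 5 : ℝ) ≤ A :=
            (Real.rpow_le_rpow_of_exponent_le hN1.le hθ.le).trans hA1
          calc 10 * CQ * (N : ℝ) ^ (307 / 200 : ℝ) * Real.log N
              ≤ 10 * CQ * (N : ℝ) ^ (307 / 200 : ℝ)
                * (e / e0 ^ 2 / (15 * CQ) * (N : ℝ) ^ (1 / 20 : ℝ)) := by gcongr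
            _ = 10 / 15 * (e / e0 ^ 2 * ((N : ℝ) ^ (307 / 200 : ℝ) * (N : ℝ) ^ (1 / 20 : ℝ))) := by
                field_simp
            _ = 10 / 15 * (e / e0 ^ 2 * (N : ℝ) ^ (317 / 200 : ℝ)) := by
                rw [← Real.rpow_add hNp]; norm_num
            _ ≤ 1 * (e / e0 ^ 2 * (A * N)) := by
                have h2 : (N : ℝ) ^ (317 / 200 : ℝ) ≤ A * N := by
                  calc (N : ℝ) ^ (317 / 200 : ℝ) ≤ (N : ℝ) ^ (3 / 5 + 1 : ℝ) :=
                        Real.rpow_le_rpow_of_exponent_le hN1.le (by norm_num)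
                    _ = (N : ℝ) ^ (3 / 5 : ℝ) * N := by
                        rw [Real.rpow_add hNp, Real.rpow_one]
                    _ ≤ A * N := by gcongr
                have h3 : 0 < e / e0 ^ 2 := by positivity
                have h4 : (0 : ℝ) < (N : ℝ) ^ (317 / 200 : ℝ) := by positivity
                have h5 : e / e0 ^ 2 * (N : ℝ) ^ (317 / 200 : ℝ) ≤ e / e0 ^ 2 * (A * N) := by
                  gcongr
                have h6 : 0 < e / e0 ^ 2 * (N : ℝ) ^ (317 / 200 : ℝ) := by positivity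
                linarith
            _ = e / e0 ^ 2 * A * N := by ring
    _ = (60 * CS * CW + 1) * (e / e0 ^ 2) * A * N / Real.log N := by ring

end WIN

theorem specWIN (hS : SpecSELB) (hQ : SpecQG) (hR : SpecRSUM) : SpecWIN :=
  fun θ hθ => WIN.main hS hQ hR θ (by linarith)

end

end Pool.Agent.Lib.MP391708.QPA
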