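import Pool.Agent.Lib.MP_391708_nt.QPA.WIN
import Pool.Agent.Lib.MP_391708_nt.QPA.Spec2

/-!
# WINK: WIN for all `θ > 3/5`
-/

set_option autoImplicit false

namespace Pool.Agent.Lib.MP391708.QPA

theorem specWINK (hS : SpecSELB) (hQ : SpecQG) (hR : SpecRSUM) : SpecWINK :=
  WIN.main hS hQ hR

end Pool.Agent.Lib.MP391708.QPA
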