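import Pool.Agent.Lib.MP_391708_nt.QPA.NSFM

/-!
# WINM: the model sum over the rough integers with a divisor in a window
-/

set_option autoImplicit false

namespace Pool.Agent.Lib.MP391708.QPA

open Finset Filter Topology
open scoped Classical

noncomputable section

namespace WINM

/-- the windows for the smaller divisor -/
def InW (N : ℕ) (x e : ℝ) (j : ℕ) : Prop :=
  ((N : ℝ) ^ (x - e) ≤ j ∧ (j : ℝ) ≤ (N : ℝ) ^ (x + e)) ∨
    ((N : ℝ) ^ (2 - x - e) / 5 ≤ j ∧ (j : ℝ) ≤ 5 * (N : ℝ) ^ (2 - x + e))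

theorem rough_dvd (z : ℝ) (m j : ℕ) (hm : Rough z m) (h : j ∣ m) : Rough z j :=
  fun p hp hpj => hm p hp (hpj.trans h)

/-- splitting at the smaller of the two complementary divisors -/
theorem split (N : ℕ) (hN : 1 ≤ N) (z x e : ℝ) (m : ℕ) (h1 : (N : ℝ) ^ 2 / 2 ≤ m)
    (h2 : (m : ℝ) ≤ 5 * (N : ℝ) ^ 2) (hr : Rough z m) (hw : Win N x e m) :
    ∃ j ∈ Icc 1 (3 * N), j ∣ m ∧ Rough z j ∧ Rough z (m / j) ∧ InW N x e j := by
  obtain ⟨k, hkm, hk1, hk2⟩ := hw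
  have hN' : (0 : ℝ) < N := by exact_mod_cast hN
  have hm0 : 0 < m := by
    have : (0 : ℝ) < m := lt_of_lt_of_le (by positivity) h1
    exact_mod_cast this
  have hk0 : 0 < k := Nat.pos_of_dvd_of_pos hkm hm0
  obtain ⟨l, rfl⟩ := hkm
  have hl0 : 0 < l := Nat.pos_of_mul_pos_left hm0 |> fun _ => by
    rcases Nat.eq_zero_or_pos l with h | h
    · simp [h] at hm0
    · exact h
  have hkl : k * l / k = l := Nat.mul_div_cancel_left l hk0
  have hlk : k * l / l = k := Nat.mul_div_cancel k hl0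
  have h2' : k * l ≤ 9 * N ^ 2 := by
    have : ((k * l : ℕ) : ℝ) ≤ ((9 * N ^ 2 : ℕ) : ℝ) := by
      push_cast at h2 ⊢
      nlinarith [sq_nonneg (N : ℝ)]
    exact_mod_cast this
  rcases le_total k l with hkl' | hkl'
  · refine ⟨k, ?_, dvd_mul_right k l, rough_dvd z _ _ hr (dvd_mul_right k l), ?_, Or.inl ⟨hk1, hk2⟩⟩
    · rw [mem_Icc]
      refine ⟨hk0, ?_⟩
      by_contra hcon
      push Not at hcon
      nlinarith
    · rw [hkl]
      exact rough_dvd z _ _ hr (dvd_mul_left l k)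
  · refine ⟨l, ?_, dvd_mul_left l k, rough_dvd z _ _ hr (dvd_mul_left l k), ?_, Or.inr ⟨?_, ?_⟩⟩
    · rw [mem_Icc]
      refine ⟨hl0, ?_⟩
      by_contra hcon
      push Not at hcon
      nlinarith
    · rw [hlk]
      exact rough_dvd z _ _ hr (dvd_mul_right k l)
    · push_cast at h1
      have hp : 0 < (N : ℝ) ^ (x + e) := Real.rpow_pos_of_pos hN' _
      have hl' : (0 : ℝ) < l := by exact_mod_cast hl0
      have h3 : (N : ℝ) ^ (2 - x - e) * (N : ℝ) ^ (x + e) = (N : ℝ) ^ 2 := by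
        rw [← Real.rpow_add hN']
        norm_num
      have h4 : (N : ℝ) ^ (2 - x - e) / 5 * (N : ℝ) ^ (x + e) ≤ l * (N : ℝ) ^ (x + e) := by
        have h5 : (k : ℝ) * l ≤ (N : ℝ) ^ (x + e) * l := by gcongr
        nlinarith [sq_nonneg (N : ℝ)]
      exact le_of_mul_le_mul_right h4 hp
    · push_cast at h2
      have hp : 0 < (N : ℝ) ^ (x - e) := Real.rpow_pos_of_pos hN' _
      have hl' : (0 : ℝ) < l := by exact_mod_cast hl0
      have h3 : (N : ℝ) ^ (2 - x + e) * (N : ℝ) ^ (x - e) = (N : ℝ) ^ 2 := by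
        rw [← Real.rpow_add hN']
        norm_num
      have h4 : (l : ℝ) * (N : ℝ) ^ (x - e) ≤ 5 * (N : ℝ) ^ (2 - x + e) * (N : ℝ) ^ (x - e) := by
        have h5 : (N : ℝ) ^ (x - e) * l ≤ k * l := by gcongr
        nlinarith [sq_nonneg (N : ℝ)]
      exact le_of_mul_le_mul_right h4 hp

/-- the smaller divisors: sum of the reciprocals -/
theorem wsum (hR : SpecRSUM) : ∃ C : ℝ, 0 < C ∧ ∀ e0 e : ℝ, 0 < e0 → e0 ≤ 1 / 10 → 0 < e →
    e ≤ 1 / 10 → ∃ N₀ : ℕ, ∀ N : ℕ, N₀ ≤ N → ∀ x : ℝ, 1 / 2 ≤ x → x ≤ 3 / 2 →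
    ∑ j ∈ (Icc 1 (3 * N)).filter (fun j => Rough ((N : ℝ) ^ e0) j ∧ InW N x e j), 1 / (j : ℝ)
      ≤ C * (e / e0) := by
  obtain ⟨C, hC, h⟩ := hR
  refine ⟨10 * C, by positivity, ?_⟩
  intro e0 e he0 he0' he he'
  have ht : Tendsto (fun N : ℕ => (N : ℝ)) atTop atTop := tendsto_natCast_atTop_atTop
  have hev : ∀ᶠ N : ℕ in atTop, 1 / e ≤ Real.log N ∧ 2 ≤ (N : ℝ) ^ e0 ∧ 5 ≤ (N : ℝ) ^ (3 / 10 : ℝ)
      ∧ (2 : ℝ) ≤ N := by
    refine Eventually.and (ht.eventually (Real.tendsto_log_atTop.eventually_ge_atTop _))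
      (Eventually.and (ht.eventually ((tendsto_rpow_atTop he0).eventually_ge_atTop _))
        (Eventually.and (ht.eventually ((tendsto_rpow_atTop (by norm_num)).eventually_ge_atTop _))
          (ht.eventually_ge_atTop _)))
  obtain ⟨N₀, hN₀⟩ := eventually_atTop.1 hev
  refine ⟨N₀, fun N hN x hx1 hx2 => ?_⟩
  obtain ⟨hlog, hz2, h5, hN2⟩ := hN₀ N hN
  have hNp : (0 : ℝ) < N := by linarith
  have hN1 : (1 : ℝ) ≤ N := by linarith
  have hlogp : 0 < Real.log N := lt_of_lt_of_le (by positivity) hlog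
  have hel : 1 ≤ e * Real.log N := by
    rw [div_le_iff₀ he] at hlog
    linarith
  have hlz : Real.log ((N : ℝ) ^ e0) = e0 * Real.log N := Real.log_rpow hNp _
  set z : ℝ := (N : ℝ) ^ e0 with hz
  -- the two windows
  have h1 := h z ((N : ℝ) ^ (x - e)) ((N : ℝ) ^ (x + e)) hz2
    (Real.rpow_le_rpow_of_exponent_le hN1 (by linarith))
    (Real.rpow_le_rpow_of_exponent_le hN1 (by linarith))
  have h2 := h z ((N : ℝ) ^ (2 - x - e) / 5) (5 * (N : ℝ) ^ (2 - x + e)) hz2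
    (by
      rw [le_div_iff₀ (by norm_num : (0 : ℝ) < 5)]
      calc z * 5 ≤ (N : ℝ) ^ (1 / 10 : ℝ) * (N : ℝ) ^ (3 / 10 : ℝ) := by
            have : z ≤ (N : ℝ) ^ (1 / 10 : ℝ) := Real.rpow_le_rpow_of_exponent_le hN1 he0'
            gcongr
        _ = (N : ℝ) ^ (2 / 5 : ℝ) := by
            rw [← Real.rpow_add hNp]; norm_num
        _ ≤ (N : ℝ) ^ (2 - x - e) := Real.rpow_le_rpow_of_exponent_le hN1 (by linarith))
    (by
      have h3 : (N : ℝ) ^ (2 - x - e) ≤ (N : ℝ) ^ (2 - x + e) :=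
        Real.rpow_le_rpow_of_exponent_le hN1 (by linarith)
      have h4 : 0 < (N : ℝ) ^ (2 - x - e) := Real.rpow_pos_of_pos hNp _
      linarith)
  have hl1 : Real.log ((N : ℝ) ^ (x + e) / (N : ℝ) ^ (x - e)) = 2 * e * Real.log N := by
    rw [← Real.rpow_sub hNp, Real.log_rpow hNp]; ring
  have hl2 : Real.log (5 * (N : ℝ) ^ (2 - x + e) / ((N : ℝ) ^ (2 - x - e) / 5))
      = Real.log 25 + 2 * e * Real.log N := by
    have : 5 * (N : ℝ) ^ (2 - x + e) / ((N : ℝ) ^ (2 - x - e) / 5)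
        = 25 * (N : ℝ) ^ (2 * e) := by
      have h3 : (N : ℝ) ^ (2 - x + e) = (N : ℝ) ^ (2 - x - e) * (N : ℝ) ^ (2 * e) := by
        rw [← Real.rpow_add hNp]; congr 1; ring
      rw [h3]
      have h4 : 0 < (N : ℝ) ^ (2 - x - e) := Real.rpow_pos_of_pos hNp _
      field_simp
      ring
    rw [this, Real.log_mul (by norm_num) (Real.rpow_pos_of_pos hNp _).ne', Real.log_rpow hNp]
  have hl25 : Real.log 25 ≤ 4 := by
    rw [Real.log_le_iff_le_exp (by norm_num)]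
    have := Real.add_one_le_exp (2 : ℝ)
    have h3 : Real.exp 4 = Real.exp 1 ^ 4 := by rw [← Real.exp_nat_mul]; norm_num
    have h4 : (2.7 : ℝ) ≤ Real.exp 1 := by
      have := Real.exp_one_gt_d9
      linarith
    rw [h3]
    calc (25 : ℝ) ≤ 2.7 ^ 4 := by norm_num
      _ ≤ _ := by gcongr
  rw [hl1, hlz] at h1
  rw [hl2, hlz] at h2
  -- comparison of the sums
  have hsub : (Icc 1 (3 * N)).filter (fun j => Rough z j ∧ InW N x e j)
      ⊆ (Icc ⌈(N : ℝ) ^ (x - e)⌉₊ ⌊(N : ℝ) ^ (x + e)⌋₊).filter (fun j => Rough z j)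
        ∪ (Icc ⌈(N : ℝ) ^ (2 - x - e) / 5⌉₊ ⌊5 * (N : ℝ) ^ (2 - x + e)⌋₊).filter
          (fun j => Rough z j) := by
    intro j hj
    simp only [mem_filter, mem_Icc, mem_union] at hj ⊢
    obtain ⟨⟨hj1, hj2⟩, hjr, hjw⟩ := hj
    rcases hjw with ⟨ha, hb⟩ | ⟨ha, hb⟩
    · exact Or.inl ⟨⟨Nat.ceil_le.2 ha, Nat.le_floor hb⟩, hjr⟩
    · exact Or.inr ⟨⟨Nat.ceil_le.2 ha, Nat.le_floor hb⟩, hjr⟩
  have hrew : ∀ s : Finset ℕ, ∑ j ∈ s.filter (fun j => Rough z j), 1 / (j : ℝ)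
      = ∑ j ∈ s, rInd z j / (j : ℝ) := by
    intro s
    rw [sum_filter]
    refine sum_congr rfl fun j _ => ?_
    unfold rInd
    split_ifs <;> simp
  calc ∑ j ∈ (Icc 1 (3 * N)).filter (fun j => Rough z j ∧ InW N x e j), 1 / (j : ℝ)
      ≤ ∑ j ∈ (Icc ⌈(N : ℝ) ^ (x - e)⌉₊ ⌊(N : ℝ) ^ (x + e)⌋₊).filter (fun j => Rough z j)
        ∪ (Icc ⌈(N : ℝ) ^ (2 - x - e) / 5⌉₊ ⌊5 * (N : ℝ) ^ (2 - x + e)⌋₊).filter
          (fun j => Rough z j), 1 / (j : ℝ) :=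
        sum_le_sum_of_subset_of_nonneg hsub fun _ _ _ => by positivity
    _ ≤ ∑ j ∈ (Icc ⌈(N : ℝ) ^ (x - e)⌉₊ ⌊(N : ℝ) ^ (x + e)⌋₊).filter (fun j => Rough z j),
          1 / (j : ℝ)
        + ∑ j ∈ (Icc ⌈(N : ℝ) ^ (2 - x - e) / 5⌉₊ ⌊5 * (N : ℝ) ^ (2 - x + e)⌋₊).filter
          (fun j => Rough z j), 1 / (j : ℝ) := by
        rw [← sum_union_inter]
        have : 0 ≤ ∑ j ∈ (Icc ⌈(N : ℝ) ^ (x - e)⌉₊ ⌊(N : ℝ) ^ (x + e)⌋₊).filter
            (fun j => Rough z j)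
          ∩ (Icc ⌈(N : ℝ) ^ (2 - x - e) / 5⌉₊ ⌊5 * (N : ℝ) ^ (2 - x + e)⌋₊).filter
          (fun j => Rough z j), 1 / (j : ℝ) := sum_nonneg fun _ _ => by positivity
        linarith
    _ ≤ C * (2 * e * Real.log N + 1) / (e0 * Real.log N)
        + C * (Real.log 25 + 2 * e * Real.log N + 1) / (e0 * Real.log N) := by
        rw [hrew, hrew]
        exact add_le_add h1 h2
    _ ≤ 10 * C * (e / e0) := by
        rw [← add_div, div_le_iff₀ (by positivity)]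
        have : 10 * C * (e / e0) * (e0 * Real.log N) = 10 * C * (e * Real.log N) := by
          field_simp
        rw [this]
        nlinarith

/-- for one `j` -/
theorem one (z : ℝ) (a b j : ℕ) (hj : 1 ≤ j) (hab : a ≤ b) :
    ((Ioc a b).filter (fun m => j ∣ m ∧ Rough z (m / j))).card
      ≤ ((Ioc (a / j) (a / j + (b / j - a / j))).filter (fun u => u % 1 = 0 ∧ Rough z u)).card := by
  have hab' : a / j ≤ b / j := Nat.div_le_div_right hab
  refine card_le_card_of_injOn (fun m => m / j) ?_ ?_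
  · intro m hm
    simp only [coe_filter, mem_Ioc, Set.mem_ofPred_eq] at hm ⊢
    obtain ⟨⟨h1, h2⟩, ⟨u, rfl⟩, h4⟩ := hm
    have h5 : j * u / j = u := Nat.mul_div_cancel_left u hj
    rw [h5] at h4 ⊢
    refine ⟨⟨?_, ?_⟩, Nat.mod_one u, h4⟩
    · exact Nat.div_lt_of_lt_mul h1
    · have : u ≤ b / j := by
        rw [Nat.le_div_iff_mul_le hj, mul_comm]
        exact h2
      omega
  · intro m hm m' hm' hmm
    simp only [coe_filter, mem_Ioc, Set.mem_ofPred_eq] at hm hm'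
    obtain ⟨_, ⟨u, rfl⟩, _⟩ := hm
    obtain ⟨_, ⟨u', rfl⟩, _⟩ := hm'
    simp only [Nat.mul_div_cancel_left u hj, Nat.mul_div_cancel_left u' hj] at hmm
    rw [hmm]

end WINM

theorem specWINM (hBT : SpecBT) (hR : SpecRSUM) : SpecWINM := by
  obtain ⟨C, hC, hB⟩ := hBT
  obtain ⟨C', hC', hW⟩ := WINM.wsum hR
  refine ⟨9 / 2 * C * C', by positivity, ?_⟩
  intro e0 e he0 he0' he he'
  obtain ⟨N₁, hN₁⟩ := hW e0 e he0 he0' he he'
  obtain ⟨N₂, hN₂⟩ := NSFM.eventually_rpow (9 / 10) 1 (by norm_num) (by norm_num)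
  have ht : Tendsto (fun N : ℕ => (N : ℝ)) atTop atTop := tendsto_natCast_atTop_atTop
  have hev : ∀ᶠ N : ℕ in atTop, 2 ≤ (N : ℝ) ^ (e0 / 2) :=
    ht.eventually ((tendsto_rpow_atTop (by positivity)).eventually_ge_atTop _)
  obtain ⟨N₃, hN₃⟩ := eventually_atTop.1 hev
  refine ⟨max (max N₁ N₂) (max N₃ 3), fun N hN x hx1 hx2 => ?_⟩
  have hNN1 : N₁ ≤ N := ((le_max_left _ _).trans (le_max_left _ _)).trans hN
  have hNN2 : N₂ ≤ N := ((le_max_right _ _).trans (le_max_left _ _)).trans hN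
  have hNN3 : N₃ ≤ N := ((le_max_left _ _).trans (le_max_right _ _)).trans hN
  have hN3 : 3 ≤ N := ((le_max_right _ _).trans (le_max_right _ _)).trans hN
  have h1 := hN₁ N hNN1 x hx1 hx2
  have h2 := hN₂ N hNN2
  have h3 := hN₃ N hNN3
  have hN3' : (3 : ℝ) ≤ N := by exact_mod_cast hN3
  have hNp : (0 : ℝ) < N := by linarith
  have hN1 : (1 : ℝ) < N := by linarith
  have hlogp : 0 < Real.log N := Real.log_pos hN1
  set z : ℝ := (N : ℝ) ^ e0 with hz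
  set S := (Icc 1 (3 * N)).filter (fun j => Rough z j ∧ WINM.InW N x e j) with hS
  have hcard : ((Ioc (N ^ 2) (4 * N ^ 2)).filter (fun m => Rough z m ∧ Win N x e m)).card
      ≤ ∑ j ∈ S, ((Ioc (N ^ 2) (4 * N ^ 2)).filter (fun m => j ∣ m ∧ Rough z (m / j))).card := by
    refine le_trans (card_le_card ?_) card_biUnion_le
    intro m hm
    simp only [mem_filter, mem_Ioc, mem_biUnion] at hm ⊢
    obtain ⟨⟨hm1, hm2⟩, hr, hw⟩ := hm
    have hm1' : (N : ℝ) ^ 2 ≤ m := by exact_mod_cast hm1.le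
    have hm2' : (m : ℝ) ≤ 4 * (N : ℝ) ^ 2 := by exact_mod_cast hm2
    have hsq : 0 < (N : ℝ) ^ 2 := by positivity
    obtain ⟨j, hj1, hj2, hj3, hj4, hj5⟩ := WINM.split N (by omega) z x e m (by linarith)
      (by linarith) hr hw
    exact ⟨j, by rw [hS, mem_filter]; exact ⟨hj1, hj3, hj5⟩, ⟨hm1, hm2⟩, hj2, hj4⟩
  have hone : ∀ j ∈ S,
      (((Ioc (N ^ 2) (4 * N ^ 2)).filter (fun m => j ∣ m ∧ Rough z (m / j))).card : ℝ)
        ≤ 9 * C * (N : ℝ) ^ 2 / (e0 * Real.log N) * (1 / j) := by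
    intro j hj
    rw [hS, mem_filter, mem_Icc] at hj
    obtain ⟨⟨hj1, hj2⟩, _⟩ := hj
    have hjp : (0 : ℝ) < j := by exact_mod_cast hj1
    have hj3 : (j : ℝ) ≤ 3 * N := by exact_mod_cast hj2
    have h4 := WINM.one z (N ^ 2) (4 * N ^ 2) j hj1 (by omega)
    have h5 := hB ((N : ℝ) ^ (e0 / 2)) z 1 0 (N ^ 2 / j) (4 * N ^ 2 / j - N ^ 2 / j) h3
      (Real.rpow_lt_rpow_of_exponent_lt hN1 (by linarith)) le_rfl
    have h6 : Real.log ((N : ℝ) ^ (e0 / 2)) = e0 / 2 * Real.log N := Real.log_rpow hNp _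
    have h7 : ((N : ℝ) ^ (e0 / 2)) ^ 2 = z := by
      rw [hz, ← Real.rpow_natCast, ← Real.rpow_mul hNp.le]
      congr 1
      push_cast
      ring
    rw [h6, h7] at h5
    have h8 : (((4 * N ^ 2 / j - N ^ 2 / j : ℕ)) : ℝ) ≤ 4 * (N : ℝ) ^ 2 / j := by
      calc (((4 * N ^ 2 / j - N ^ 2 / j : ℕ)) : ℝ) ≤ ((4 * N ^ 2 / j : ℕ) : ℝ) := by
            exact_mod_cast Nat.sub_le _ _
        _ ≤ ((4 * N ^ 2 : ℕ) : ℝ) / j := Nat.cast_div_le
        _ = _ := by push_cast; ring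
    have h9 : z ≤ (N : ℝ) ^ 2 / (e0 * Real.log N) * (1 / j) := by
      rw [div_mul_div_comm, mul_one, le_div_iff₀ (by positivity)]
      have hz' : z ≤ (N : ℝ) ^ (1 / 10 : ℝ) := Real.rpow_le_rpow_of_exponent_le hN1.le he0'
      calc z * (e0 * Real.log N * j)
          ≤ (N : ℝ) ^ (1 / 10 : ℝ) * (1 / 10 * (1 * (N : ℝ) ^ (9 / 10 : ℝ)) * (3 * N)) := by
            gcongr
        _ = 3 / 10 * ((N : ℝ) ^ (1 / 10 : ℝ) * (N : ℝ) ^ (9 / 10 : ℝ)) * N := by ring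
        _ = 3 / 10 * (N : ℝ) ^ 2 := by
            rw [← Real.rpow_add hNp]
            norm_num
            ring
        _ ≤ (N : ℝ) ^ 2 := by nlinarith [sq_nonneg (N : ℝ)]
    calc (((Ioc (N ^ 2) (4 * N ^ 2)).filter (fun m => j ∣ m ∧ Rough z (m / j))).card : ℝ)
        ≤ (((Ioc (N ^ 2 / j) (N ^ 2 / j + (4 * N ^ 2 / j - N ^ 2 / j))).filter
            (fun u => u % 1 = 0 ∧ Rough z u)).card : ℝ) := by exact_mod_cast h4
      _ ≤ C * ((4 * N ^ 2 / j - N ^ 2 / j : ℕ) : ℝ) / (((1 : ℕ).totient : ℝ)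
            * (e0 / 2 * Real.log N)) + C * z := h5
      _ ≤ C * (4 * (N : ℝ) ^ 2 / j) / (1 * (e0 / 2 * Real.log N))
            + C * ((N : ℝ) ^ 2 / (e0 * Real.log N) * (1 / j)) := by
          rw [Nat.totient_one, Nat.cast_one]
          gcongr
      _ = 9 * C * (N : ℝ) ^ 2 / (e0 * Real.log N) * (1 / j) := by
          field_simp
          ring
  calc model N (fun m => if Rough z m ∧ Win N x e m then 1 else 0)
      ≤ (((Ioc (N ^ 2) (4 * N ^ 2)).filter (fun m => Rough z m ∧ Win N x e m)).card : ℝ)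
          / (2 * N) := by
        have hm := NSFM.model_le N (by omega) (fun m => Rough z m ∧ Win N x e m)
        convert hm
    _ ≤ (∑ j ∈ S, 9 * C * (N : ℝ) ^ 2 / (e0 * Real.log N) * (1 / (j : ℝ))) / (2 * N) := by
        gcongr
        calc (((Ioc (N ^ 2) (4 * N ^ 2)).filter (fun m => Rough z m ∧ Win N x e m)).card : ℝ)
            ≤ ∑ j ∈ S, (((Ioc (N ^ 2) (4 * N ^ 2)).filter
                (fun m => j ∣ m ∧ Rough z (m / j))).card : ℝ) := by exact_mod_cast hcard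
          _ ≤ _ := sum_le_sum hone
    _ = 9 * C * (N : ℝ) ^ 2 / (e0 * Real.log N) * (∑ j ∈ S, 1 / (j : ℝ)) / (2 * N) := by
        rw [mul_sum]
    _ ≤ 9 * C * (N : ℝ) ^ 2 / (e0 * Real.log N) * (C' * (e / e0)) / (2 * N) := by gcongr
    _ = 9 / 2 * C * C' * (e / e0 ^ 2) * N / Real.log N := by
        field_simp

end

end Pool.Agent.Lib.MP391708.QPA
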