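import Pool.Agent.Lib.MP_391708_nt.QPA.PNTAP
import Pool.Agent.Lib.MP_391708_nt.QPA.CHI
import Pool.Agent.Lib.MP_391708_nt.QPA.PNT
import Pool.Agent.Lib.MP_391708_nt.QPA.MODP
import Pool.Agent.Lib.MP_391708_nt.QPA.LI
import Pool.Agent.Lib.MP_391708_nt.QPA.Selb
import Pool.Agent.Lib.MP_391708_nt.QPA.Bt
import Pool.Agent.Lib.MP_391708_nt.QPA.Rsum
import Pool.Agent.Lib.MP_391708_nt.QPA.Wmer
import Pool.Agent.Lib.MP_391708_nt.QPA.FL
import Pool.Agent.Lib.MP_391708_nt.QPA.Rho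
import Pool.Agent.Lib.MP_391708_nt.QPA.PVA
import Pool.Agent.Lib.MP_391708_nt.QPA.PVE
import Pool.Agent.Lib.MP_391708_nt.QPA.SML
import Pool.Agent.Lib.MP_391708_nt.QPA.LRG
import Pool.Agent.Lib.MP_391708_nt.QPA.Gmax
import Pool.Agent.Lib.MP_391708_nt.QPA.Gmean
import Pool.Agent.Lib.MP_391708_nt.QPA.Prod
import Pool.Agent.Lib.MP_391708_nt.QPA.Mob
import Pool.Agent.Lib.MP_391708_nt.QPA.QG
import Pool.Agent.Lib.MP_391708_nt.QPA.RAV
import Pool.Agent.Lib.MP_391708_nt.QPA.RHOMEAN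
import Pool.Agent.Lib.MP_391708_nt.QPA.FIRST
import Pool.Agent.Lib.MP_391708_nt.QPA.NSF
import Pool.Agent.Lib.MP_391708_nt.QPA.WIN
import Pool.Agent.Lib.MP_391708_nt.QPA.WINM
import Pool.Agent.Lib.MP_391708_nt.QPA.NSFM
import Pool.Agent.Lib.MP_391708_nt.QPA.EDGE
import Pool.Agent.Lib.MP_391708_nt.QPA.DLS
import Pool.Agent.Lib.MP_391708_nt.QPA.BilH
import Pool.Agent.Lib.MP_391708_nt.QPA.POI
import Pool.Agent.Lib.MP_391708_nt.QPA.Count
import Pool.Agent.Lib.MP_391708_nt.QPA.KER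
import Pool.Agent.Lib.MP_391708_nt.QPA.SEC
import Pool.Agent.Lib.MP_391708_nt.QPA.Two
import Pool.Agent.Lib.MP_391708_nt.QPA.LS
import Pool.Agent.Lib.MP_391708_nt.QPA.LR
import Pool.Agent.Lib.MP_391708_nt.QPA.EQ
import Pool.Agent.Lib.MP_391708_nt.QPA.BDH
import Pool.Agent.Lib.MP_391708_nt.QPA.BDHP
import Pool.Agent.Lib.MP_391708_nt.QPA.WB
import Pool.Agent.Lib.MP_391708_nt.QPA.SHM
import Pool.Agent.Lib.MP_391708_nt.QPA.Mta
import Pool.Agent.Lib.MP_391708_nt.QPA.FFB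
import Pool.Agent.Lib.MP_391708_nt.QPA.MTB
import Pool.Agent.Lib.MP_391708_nt.QPA.BLK2
import Pool.Agent.Lib.MP_391708_nt.QPA.TII
import Pool.Agent.Lib.MP_391708_nt.QPA.FLA
import Pool.Agent.Lib.MP_391708_nt.QPA.FLB
import Pool.Agent.Lib.MP_391708_nt.QPA.TI
import Pool.Agent.Lib.MP_391708_nt.QPA.T1
import Pool.Agent.Lib.MP_391708_nt.QPA.T2
import Pool.Agent.Lib.MP_391708_nt.QPA.EUL
import Pool.Agent.Lib.MP_391708_nt.QPA.CONV
import Pool.Agent.Lib.MP_391708_nt.QPA.F6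
import Pool.Agent.Lib.MP_391708_nt.QPA.BLK
import Pool.Agent.Lib.MP_391708_nt.QPA.TAIL
import Pool.Agent.Lib.MP_391708_nt.QPA.FIN
import Pool.Agent.Lib.MP_391708_nt.QPA.FINU
import Pool.Agent.Lib.MP_391708_nt.QPA.DENS
import Pool.Agent.Lib.MP_391708_nt.QPA.ProdK
import Pool.Agent.Lib.MP_391708_nt.QPA.MobK
import Pool.Agent.Lib.MP_391708_nt.QPA.MtaK
import Pool.Agent.Lib.MP_391708_nt.QPA.RHOMEANK
import Pool.Agent.Lib.MP_391708_nt.QPA.FIRSTK
import Pool.Agent.Lib.MP_391708_nt.QPA.NSFK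
import Pool.Agent.Lib.MP_391708_nt.QPA.WINK
import Pool.Agent.Lib.MP_391708_nt.QPA.TWOK
import Pool.Agent.Lib.MP_391708_nt.QPA.FLAK
import Pool.Agent.Lib.MP_391708_nt.QPA.FLBK
import Pool.Agent.Lib.MP_391708_nt.QPA.TIK
import Pool.Agent.Lib.MP_391708_nt.QPA.T1K
import Pool.Agent.Lib.MP_391708_nt.QPA.T2K
import Pool.Agent.Lib.MP_391708_nt.QPA.P3M
import Pool.Agent.Lib.MP_391708_nt.QPA.BLKK
import Pool.Agent.Lib.MP_391708_nt.QPA.FINK

/-!
# QPA: assembly
-/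

set_option autoImplicit false

namespace Pool.Agent.Lib.MP391708.QPA

theorem all : SpecFINU ∧ SpecDENS ∧ SpecFINK := by
  have hSELB := specSELB
  have hBT := specBT hSELB
  have hRSUM := specRSUM hBT
  have hFL := specFL
  have hQG := specQG
  have hRAV := specRAV hQG
  have hSML := specSML specPVA
  have hLRG := specLRG specPVE
  have hGMAX := specGMAX specRHO2 specRHOP
  have hGMEAN := specGMEAN specRHO2 specRHOP
  have hEDGE := specEDGE hBT
  have hCOUNT := specCOUNT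
  have hSEC := specSEC (specKER (specBIL specDLS) specPOI hCOUNT) hCOUNT
  have hBDH := specBDH specLS (specLR hSELB) hBT hRSUM
  have hBDHP : SpecBDHP := specBDHP hBDH hBT
  have hEQ := specEQ (specCHI specPNTAP) hRSUM
  have hMODP := specMODP (specPNT specPNTAP)
  have hEUL := specEUL
  have hF6 := specF6 hEUL (specCONV hEUL specRHOP specRHO2) specPVA specPVE specRHOP specRHO2
  have hWINM := specWINM hBT hRSUM
  -- the asymptotic formula
  have hTI := specTI (specFLA hFL specRHO1 specRHOM specRHOP specRHO2 specRHOS specRHOC)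
    (specFLB hFL) (specPROD specRHOP specPVA) (specMOB hSML specRHOD)
    (specRHOMEAN hRAV hRSUM) hGMEAN hGMAX specWMER hRSUM
  have hTWO := specTWO hSEC (specFIRST hRAV hBT) hSELB
  have hBLK2 := specBLK2 hTWO specWB hBDHP hEQ (specMTA specRHOC specRHOM hRAV)
    (specMTB hSML hLRG hRAV specRHOD) specSHM hBT specFFB hGMAX hGMEAN
  have hTII := specTII hBLK2 hEDGE hBT specFFB hGMAX hGMEAN
  have hBLK := specBLK hTI specT2 hTII (specWIN hSELB hQG hRSUM) hWINM (specNSF hQG) specNSFM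
    hGMEAN hGMAX
  have hFINC := specFINC hBLK hF6 hMODP specLI (specTAIL hEDGE) specRHOP specRHO2 hGMAX
  have hFINU := specFINU hFINC specLI
  -- the lower bound in the shorter range
  have hTIK := specTIK (specFLAK hFL specRHO1 specRHOM specRHOP specRHO2 specRHOS specRHOC)
    (specFLBK hFL) (specPRODK specRHOP specPVA) (specMOBK hSML hLRG specRHOD hRSUM)
    (specRHOMEANK hRAV hRSUM) hGMEAN hGMAX specWMER hRSUM
  have hTWOK := specTWOK hSEC (specFIRSTK hRAV hBT) hSELB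
  have hBLK2K := specBLK2K hTWOK specWB hBDHP hEQ (specMTAK specRHOC specRHOM hRAV)
    (specMTBK hSML hLRG hRAV specRHOD) specSHM hBT specFFB hGMAX hGMEAN
  have hTIIK := specTIIK hBLK2K hEDGE hBT specFFB hGMAX hGMEAN
  have hBLKK := specBLKK hTIK specT2K hTIIK (specWINK hSELB hQG hRSUM) hWINM (specNSFK hQG)
    specNSFM hGMEAN hGMAX
  have hFINK := specFINK hBLKK (specP3M hMODP) hF6 hMODP specLI specRHOP specRHO2 hGMAX
  exact ⟨hFINU, specDENS hFINU specLI, hFINK⟩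

end Pool.Agent.Lib.MP391708.QPA
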