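import Pool.Agent.Lib.MP_391708_nt.QPA.BDHPdefs

/-!
# QPA module BDHP, part a: one modulus
-/

set_option autoImplicit false

namespace Pool.Agent.Lib.MP391708.QPA.BDHP

open Finset Filter Topology
open scoped Classical

noncomputable section

theorem mem_PB (w p : ℕ) : p ∈ PB ((w : ℝ) + 1) ↔ p ≤ w ∧ p.Prime := by
  rw [PB, Finset.mem_filter, Finset.mem_range]
  have : ⌈(w : ℝ) + 1⌉₊ = w + 1 := by
    rw [show (w : ℝ) + 1 = ((w + 1 : ℕ) : ℝ) by push_cast; ring, Nat.ceil_natCast]
  rw [this, Nat.lt_succ_iff]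

/-- the reciprocals of the primes of `q` above `w` -/
def th (w q : ℕ) : ℝ := ∑ p ∈ q.primeFactors.filter (fun p => w < p), 1 / (p : ℝ)

theorem th_nonneg (w q : ℕ) : 0 ≤ th w q := Finset.sum_nonneg (fun _ _ => by positivity)

theorem one_sub_prod (s : Finset ℕ) (a : ℕ → ℝ) (h : ∀ p ∈ s, 0 ≤ a p ∧ a p ≤ 1) :
    0 ≤ ∏ p ∈ s, (1 - a p) ∧ ∏ p ∈ s, (1 - a p) ≤ 1 ∧ 1 - ∏ p ∈ s, (1 - a p) ≤ ∑ p ∈ s, a p := by
  induction s using Finset.induction with
  | empty => simp
  | insert p s hp ih =>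
    obtain ⟨h1, h2, h3⟩ := ih (fun q hq => h q (Finset.mem_insert_of_mem hq))
    obtain ⟨h4, h5⟩ := h p (Finset.mem_insert_self p s)
    rw [Finset.prod_insert hp, Finset.sum_insert hp]
    refine ⟨mul_nonneg (by linarith) h1, ?_, ?_⟩
    · nlinarith
    · nlinarith

theorem Vw_pos (w : ℕ) : 0 < Vw w := by
  apply Finset.prod_pos
  intro p hp
  have h := ((mem_PB w p).mp hp).2.two_le
  have h2 : (2 : ℝ) ≤ p := by exact_mod_cast h
  have h3 : 1 / (p : ℝ) ≤ 1 / 2 := one_div_le_one_div_of_le (by norm_num) h2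
  apply inv_pos.mpr
  linarith

theorem Vw_mul (w : ℕ) : Vw w * ∏ p ∈ PB ((w : ℝ) + 1), (1 - 1 / (p : ℝ)) = 1 := by
  rw [Vw, ← Finset.prod_mul_distrib]
  apply Finset.prod_eq_one
  intro p hp
  have h := ((mem_PB w p).mp hp).2.two_le
  have h2 : (2 : ℝ) ≤ p := by exact_mod_cast h
  have h3 : 1 / (p : ℝ) ≤ 1 / 2 := one_div_le_one_div_of_le (by norm_num) h2
  exact inv_mul_cancel₀ (by linarith)

/-- the product over the small primes not dividing `q` -/
def Pi (w q : ℕ) : ℝ := ∏ p ∈ (PB ((w : ℝ) + 1)).filter (fun p => ¬ p ∣ q), (1 - 1 / (p : ℝ))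

theorem inv_mem (p : ℕ) : 0 ≤ 1 / (p : ℝ) ∧ 1 / (p : ℝ) ≤ 1 := by
  refine ⟨by positivity, ?_⟩
  rcases Nat.eq_zero_or_pos p with h | h
  · rw [h]; simp
  · rw [div_le_one (by exact_mod_cast h)]
    exact_mod_cast h

theorem Pi_mem (w q : ℕ) : 0 ≤ Pi w q ∧ Pi w q ≤ 1 := by
  have h := one_sub_prod ((PB ((w : ℝ) + 1)).filter (fun p => ¬ p ∣ q)) (fun p => 1 / (p : ℝ))
    (fun p _ => inv_mem p)
  exact ⟨h.1, h.2.1⟩

/-- the product over the large primes dividing `q` -/
def La (w q : ℕ) : ℝ := ∏ p ∈ q.primeFactors.filter (fun p => w < p), (1 - 1 / (p : ℝ))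

theorem La_mem (w q : ℕ) : 0 ≤ La w q ∧ La w q ≤ 1 ∧ 1 - La w q ≤ th w q :=
  one_sub_prod _ _ (fun p _ => inv_mem p)

theorem key_identity (w q : ℕ) (hq : 1 ≤ q) : Vw w * Pi w q / q = 1 / (q.totient : ℝ) * La w q := by
  have hq0 : (0 : ℝ) < q := by exact_mod_cast hq
  have htot : (q.totient : ℝ) = q * ∏ p ∈ q.primeFactors, (1 - 1 / (p : ℝ)) := by
    have h := Nat.totient_eq_mul_prod_factors q
    have h2 : ((q.totient : ℚ) : ℝ) = ((q * ∏ p ∈ q.primeFactors, (1 - (p : ℚ)⁻¹) : ℚ) : ℝ) := by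
      rw [h]
    push_cast at h2
    rw [h2]
    simp only [one_div]
  have hsplit : ∏ p ∈ q.primeFactors, (1 - 1 / (p : ℝ))
      = (∏ p ∈ q.primeFactors.filter (fun p => w < p), (1 - 1 / (p : ℝ)))
        * ∏ p ∈ q.primeFactors.filter (fun p => ¬ w < p), (1 - 1 / (p : ℝ)) :=
    (Finset.prod_filter_mul_prod_filter_not _ _ _).symm
  have hset : q.primeFactors.filter (fun p => ¬ w < p)
      = (PB ((w : ℝ) + 1)).filter (fun p => ¬ ¬ p ∣ q) := by
    ext p
    rw [Finset.mem_filter, Finset.mem_filter, mem_PB, Nat.mem_primeFactors]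
    constructor
    · rintro ⟨⟨h1, h2, h3⟩, h4⟩
      exact ⟨⟨by omega, h1⟩, by simpa using h2⟩
    · rintro ⟨⟨h1, h2⟩, h3⟩
      exact ⟨⟨h2, by simpa using h3, by omega⟩, by omega⟩
  have hPB := Finset.prod_filter_mul_prod_filter_not (PB ((w : ℝ) + 1)) (fun p => ¬ p ∣ q)
    (fun p => (1 - 1 / (p : ℝ)))
  have hV := Vw_mul w
  rw [← hPB, ← hset] at hV
  have hs0 : 0 < ∏ p ∈ q.primeFactors.filter (fun p => ¬ w < p), (1 - 1 / (p : ℝ)) := by
    apply Finset.prod_pos
    intro p hp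
    have h := (Nat.mem_primeFactors.mp (Finset.mem_filter.mp hp).1).1.two_le
    have h2 : (2 : ℝ) ≤ p := by exact_mod_cast h
    have h3 : 1 / (p : ℝ) ≤ 1 / 2 := one_div_le_one_div_of_le (by norm_num) h2
    linarith
  have hl0 : 0 < La w q := by
    apply Finset.prod_pos
    intro p hp
    have h := (Nat.mem_primeFactors.mp (Finset.mem_filter.mp hp).1).1.two_le
    have h2 : (2 : ℝ) ≤ p := by exact_mod_cast h
    have h3 : 1 / (p : ℝ) ≤ 1 / 2 := one_div_le_one_div_of_le (by norm_num) h2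
    linarith
  rw [htot, hsplit]
  change Vw w * (Pi w q * _) = 1 at hV
  change _ = 1 / (q * (La w q * _)) * La w q
  set σ := ∏ p ∈ q.primeFactors.filter (fun p => ¬ w < p), (1 - 1 / (p : ℝ)) with hσ
  have h5 : Vw w * Pi w q = 1 / σ := by
    rw [eq_div_iff hs0.ne']
    linarith
  rw [h5]
  field_simp

theorem cls_sum (b : ℕ → ℝ) (S : Finset ℕ) (q c w : ℕ) (D V : ℝ) :
    ∑ u ∈ S.filter (fun u => u % q = c), (b u - D * V * rInd ((w : ℝ) + 1) u)
      = (∑ u ∈ S.filter (fun u => u % q = c), b u)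
        - D * V * ((S.filter (fun u => u % q = c ∧ Rough ((w : ℝ) + 1) u)).card : ℝ) := by
  rw [Finset.sum_sub_distrib, ← Finset.mul_sum]
  congr 2
  rw [← Finset.filter_filter]
  simp only [rInd]
  rw [Finset.sum_boole]

/-- the number of elements of a class -/
theorem n_bound (hC : SpecCls) (w q c X Y : ℕ) (l : ℝ) (hq : 1 ≤ q) (hXY : X ≤ Y)
    (hYX : |(Y : ℝ) - X - l| ≤ 1) (hc : c < q)
    (hp : ∀ p : ℕ, p.Prime → p ≤ w → p ∣ q → ¬ p ∣ c) :
    |(((Ioc X Y).filter (fun u => u % q = c ∧ Rough ((w : ℝ) + 1) u)).card : ℝ) - l / q * Pi w q|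
      ≤ 2 ^ (w + 1) + 1 := by
  have h1 := hC w q c X Y hq hc hp hXY
  change |_ - ((Y : ℝ) - X) / q * Pi w q| ≤ _ at h1
  have hq1 : (1 : ℝ) ≤ q := by exact_mod_cast hq
  have h2 : |((Y : ℝ) - X) / q * Pi w q - l / q * Pi w q| ≤ 1 := by
    have h3 : ((Y : ℝ) - X) / q * Pi w q - l / q * Pi w q = ((Y : ℝ) - X - l) * (Pi w q / q) := by
      ring
    rw [h3, abs_mul]
    obtain ⟨h4, h5⟩ := Pi_mem w q
    have h6 : |Pi w q / q| ≤ 1 := by
      rw [abs_of_nonneg (by positivity), div_le_one (by linarith)]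
      linarith
    calc |(Y : ℝ) - X - l| * |Pi w q / q| ≤ 1 * 1 :=
          mul_le_mul hYX h6 (abs_nonneg _) (by norm_num)
      _ = 1 := by norm_num
  rw [abs_le] at h1 h2 ⊢
  constructor <;> linarith [h1.1, h1.2, h2.1, h2.2]

theorem sq3 (a b c : ℝ) : (a + b + c) ^ 2 ≤ 3 * a ^ 2 + 3 * b ^ 2 + 3 * c ^ 2 := by
  nlinarith [sq_nonneg (a - b), sq_nonneg (b - c), sq_nonneg (a - c)]

/-- one class coprime to `q` -/
theorem cop (hC : SpecCls) (w q c X Y : ℕ) (l T : ℝ) (b : ℕ → ℝ) (hq : 1 ≤ q) (hXY : X ≤ Y)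
    (hl : 0 < l) (hYX : |(Y : ℝ) - X - l| ≤ 1) (hc : c < q) (hcop : Nat.Coprime c q) :
    (∑ u ∈ (Ioc X Y).filter (fun u => u % q = c), (b u - T / l * Vw w * rInd ((w : ℝ) + 1) u)) ^ 2
      ≤ 3 * ((∑ u ∈ (Ioc X Y).filter (fun u => u % q = c), b u) - T / (q.totient : ℝ)) ^ 2
        + 3 * ((T / (q.totient : ℝ)) ^ 2 * th w q)
        + 3 * (T / l * Vw w * (2 ^ (w + 1) + 1)) ^ 2 := by
  have hq0 : (0 : ℝ) < q := by exact_mod_cast hq
  have hp : ∀ p : ℕ, p.Prime → p ≤ w → p ∣ q → ¬ p ∣ c := by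
    intro p hp _ hpq hpc
    have := Nat.dvd_gcd hpc hpq
    rw [hcop] at this
    exact hp.one_lt.ne' (Nat.dvd_one.mp this)
  have hn := n_bound hC w q c X Y l hq hXY hYX hc hp
  rw [cls_sum]
  set n : ℝ := (((Ioc X Y).filter (fun u => u % q = c ∧ Rough ((w : ℝ) + 1) u)).card : ℝ) with hn'
  set Sc := ∑ u ∈ (Ioc X Y).filter (fun u => u % q = c), b u with hSc
  have hkey := key_identity w q hq
  obtain ⟨hL0, hL1, hL2⟩ := La_mem w q
  have h1 : Sc - T / l * Vw w * n = (Sc - T / (q.totient : ℝ))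
      + (T / (q.totient : ℝ)) * (1 - La w q) + T / l * Vw w * (l / q * Pi w q - n) := by
    have h2 : T / l * Vw w * (l / q * Pi w q) = T * (Vw w * Pi w q / q) := by
      field_simp
    rw [mul_sub (T / l * Vw w), h2, hkey]
    ring
  rw [h1]
  refine (sq3 _ _ _).trans ?_
  have h3 : ((T / (q.totient : ℝ)) * (1 - La w q)) ^ 2 ≤ (T / (q.totient : ℝ)) ^ 2 * th w q := by
    rw [mul_pow]
    apply mul_le_mul_of_nonneg_left _ (sq_nonneg _)
    nlinarith
  have h4 : (T / l * Vw w * (l / q * Pi w q - n)) ^ 2 ≤ (T / l * Vw w * (2 ^ (w + 1) + 1)) ^ 2 := by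
    rw [mul_pow, mul_pow (T / l * Vw w)]
    apply mul_le_mul_of_nonneg_left _ (sq_nonneg _)
    rw [← sq_abs (l / q * Pi w q - n), abs_sub_comm]
    exact pow_le_pow_left₀ (abs_nonneg _) hn 2
  linarith

/-- a nonnegative sum over the classes not coprime to `q` -/
theorem union_sum (S : Finset ℕ) (q : ℕ) (P : Finset ℕ) (s : ℕ → ℝ) (hs : ∀ u, 0 ≤ s u)
    (h : ∀ u ∈ S, ¬ Nat.Coprime u q → s u ≠ 0 → ∃ p ∈ P, u % p = 0) :
    ∑ c ∈ (range q).filter (fun c => ¬ Nat.Coprime c q), ∑ u ∈ S.filter (fun u => u % q = c), s u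
      ≤ ∑ p ∈ P, ∑ u ∈ S.filter (fun u => u % p = 0), s u := by
  rcases Nat.eq_zero_or_pos q with hq | hq
  · rw [hq]
    simp only [Finset.range_zero, Finset.filter_empty, Finset.sum_empty]
    exact Finset.sum_nonneg (fun p _ => Finset.sum_nonneg (fun u _ => hs u))
  have hmod : ∀ u, Nat.Coprime (u % q) q ↔ Nat.Coprime u q := by
    intro u
    unfold Nat.Coprime
    rw [← Nat.gcd_rec, Nat.gcd_comm]
  have h1 : ∑ c ∈ (range q).filter (fun c => ¬ Nat.Coprime c q),
      ∑ u ∈ S.filter (fun u => u % q = c), s u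
      = ∑ u ∈ S.filter (fun u => ¬ Nat.Coprime u q), s u := by
    rw [← Finset.sum_fiberwise_of_maps_to (s := S.filter (fun u => ¬ Nat.Coprime u q))
      (t := (range q).filter (fun c => ¬ Nat.Coprime c q)) (g := fun u => u % q)]
    · apply Finset.sum_congr rfl
      intro c hc
      have hc' := Finset.mem_filter.mp hc
      apply Finset.sum_congr _ (fun _ _ => rfl)
      ext u
      simp only [Finset.mem_filter]
      constructor
      · rintro ⟨h2, h3⟩
        refine ⟨⟨h2, ?_⟩, h3⟩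
        rw [← hmod, h3]
        exact hc'.2
      · rintro ⟨⟨h2, _⟩, h3⟩
        exact ⟨h2, h3⟩
    · intro u hu
      have hu' := Finset.mem_filter.mp hu
      refine Finset.mem_filter.mpr ⟨Finset.mem_range.mpr (Nat.mod_lt _ hq), ?_⟩
      rw [hmod]
      exact hu'.2
  rw [h1]
  calc ∑ u ∈ S.filter (fun u => ¬ Nat.Coprime u q), s u
      ≤ ∑ u ∈ S.filter (fun u => ¬ Nat.Coprime u q), ∑ p ∈ P, if u % p = 0 then s u else 0 := by
        apply Finset.sum_le_sum
        intro u hu
        have hu' := Finset.mem_filter.mp hu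
        by_cases h0 : s u = 0
        · rw [h0]
          simp
        · obtain ⟨p, hp, hup⟩ := h u hu'.1 hu'.2 h0
          have h2 : (if u % p = 0 then s u else 0) ≤ ∑ p ∈ P, if u % p = 0 then s u else 0 :=
            Finset.single_le_sum (f := fun p => if u % p = 0 then s u else 0)
              (fun p _ => by
                split_ifs
                · exact hs u
                · exact le_refl _) hp
          rw [if_pos hup] at h2
          exact h2
    _ ≤ ∑ u ∈ S, ∑ p ∈ P, if u % p = 0 then s u else 0 := by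
        apply Finset.sum_le_sum_of_subset_of_nonneg (Finset.filter_subset _ _)
        intro u _ _
        apply Finset.sum_nonneg
        intro p _
        split_ifs
        · exact hs u
        · exact le_refl _
    _ = ∑ p ∈ P, ∑ u ∈ S.filter (fun u => u % p = 0), s u := by
        rw [Finset.sum_comm]
        apply Finset.sum_congr rfl
        intro p _
        rw [Finset.sum_filter]

/-- the number of elements of a class, crude -/
theorem cls_le (hC : SpecCls) (q c X Y : ℕ) (hq : 1 ≤ q) (hXY : X ≤ Y) (hc : c < q) :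
    (((Ioc X Y).filter (fun u => u % q = c)).card : ℝ) ≤ ((Y : ℝ) - X) / q + 2 := by
  have h1 := hC 0 q c X Y hq hc (fun p hp h0 _ => absurd hp.two_le (by omega)) hXY
  have h2 : (Ioc X Y).filter (fun u => u % q = c ∧ Rough (((0 : ℕ) : ℝ) + 1) u)
      = (Ioc X Y).filter (fun u => u % q = c) := by
    apply Finset.filter_congr
    intro u _
    constructor
    · exact fun h => h.1
    · intro h
      refine ⟨h, fun p hp _ => ?_⟩
      have : (1 : ℝ) ≤ p := by exact_mod_cast hp.one_lt.le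
      push_cast
      linarith
  have h3 : PB (((0 : ℕ) : ℝ) + 1) = ∅ := by
    ext p
    rw [mem_PB]
    constructor
    · rintro ⟨h, hp⟩
      exact absurd hp.two_le (by omega)
    · intro h
      exact absurd h (Finset.notMem_empty p)
  rw [h2, h3] at h1
  simp only [Finset.filter_empty, Finset.prod_empty, mul_one] at h1
  have h4 := (abs_le.mp h1).2
  norm_num at h4
  linarith

/-- the classes not coprime to `q`: the sum of `b` -/
theorem noncop_b (hC : SpecCls) (q X Y : ℕ) (B z : ℝ) (b : ℕ → ℝ) (hq : 1 ≤ q) (hXY : X ≤ Y)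
    (hB : 0 ≤ B) (hz : 1 ≤ z) (hb : ∀ u, |b u| ≤ B * rInd z u) :
    ∑ c ∈ (range q).filter (fun c => ¬ Nat.Coprime c q),
      (∑ u ∈ (Ioc X Y).filter (fun u => u % q = c), b u) ^ 2
      ≤ (B * (((Y : ℝ) - X) / q + 2)) * ((q.primeFactors.card : ℝ) * (B * (((Y : ℝ) - X) / z + 2))) := by
  have hYX : (0 : ℝ) ≤ (Y : ℝ) - X := by
    have : (X : ℝ) ≤ Y := by exact_mod_cast hXY
    linarith
  have hq0 : (0 : ℝ) < q := by exact_mod_cast hq
  have hbB : ∀ u, |b u| ≤ B := by
    intro u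
    refine (hb u).trans ?_
    have : rInd z u ≤ 1 := by
      rw [rInd]
      split_ifs <;> norm_num
    nlinarith
  have h1 : ∀ c ∈ (range q).filter (fun c => ¬ Nat.Coprime c q),
      (∑ u ∈ (Ioc X Y).filter (fun u => u % q = c), b u) ^ 2
      ≤ (B * (((Y : ℝ) - X) / q + 2)) * ∑ u ∈ (Ioc X Y).filter (fun u => u % q = c), |b u| := by
    intro c hc
    have hc' := Finset.mem_range.mp (Finset.mem_filter.mp hc).1
    have h2 : |∑ u ∈ (Ioc X Y).filter (fun u => u % q = c), b u|
        ≤ ∑ u ∈ (Ioc X Y).filter (fun u => u % q = c), |b u| := Finset.abs_sum_le_sum_abs _ _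
    have h3 : ∑ u ∈ (Ioc X Y).filter (fun u => u % q = c), |b u| ≤ B * (((Y : ℝ) - X) / q + 2) := by
      calc ∑ u ∈ (Ioc X Y).filter (fun u => u % q = c), |b u|
          ≤ ∑ u ∈ (Ioc X Y).filter (fun u => u % q = c), B := Finset.sum_le_sum (fun u _ => hbB u)
        _ = (((Ioc X Y).filter (fun u => u % q = c)).card : ℝ) * B := by
            rw [Finset.sum_const, nsmul_eq_mul]
        _ ≤ (((Y : ℝ) - X) / q + 2) * B :=
            mul_le_mul_of_nonneg_right (cls_le hC q c X Y hq hXY hc') hB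
        _ = _ := mul_comm _ _
    rw [← sq_abs, sq]
    exact mul_le_mul (h2.trans h3) h2 (abs_nonneg _) (by positivity)
  refine (Finset.sum_le_sum h1).trans ?_
  rw [← Finset.mul_sum]
  apply mul_le_mul_of_nonneg_left _ (by positivity)
  set P := q.primeFactors.filter (fun p : ℕ => z ≤ (p : ℝ)) with hP
  refine (union_sum (Ioc X Y) q P (fun u => |b u|) (fun _ => abs_nonneg _) ?_).trans ?_
  · intro u _ hcop hne
    have h4 : Rough z u := by
      by_contra hno
      apply hne
      have h5 := hb u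
      rw [rInd, if_neg hno, mul_zero] at h5
      exact le_antisymm h5 (abs_nonneg _)
    obtain ⟨p, hp, hpu, hpq⟩ := Nat.Prime.not_coprime_iff_dvd.mp hcop
    exact ⟨p, Finset.mem_filter.mpr ⟨Nat.mem_primeFactors.mpr ⟨hp, hpq, by omega⟩, h4 p hp hpu⟩,
      Nat.mod_eq_zero_of_dvd hpu⟩
  · calc ∑ p ∈ P, ∑ u ∈ (Ioc X Y).filter (fun u => u % p = 0), |b u|
        ≤ ∑ p ∈ P, B * (((Y : ℝ) - X) / z + 2) := by
          apply Finset.sum_le_sum
          intro p hp
          have hp' := Finset.mem_filter.mp hp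
          have hpp := (Nat.mem_primeFactors.mp hp'.1).1
          calc ∑ u ∈ (Ioc X Y).filter (fun u => u % p = 0), |b u|
              ≤ ∑ u ∈ (Ioc X Y).filter (fun u => u % p = 0), B :=
                Finset.sum_le_sum (fun u _ => hbB u)
            _ = (((Ioc X Y).filter (fun u => u % p = 0)).card : ℝ) * B := by
                rw [Finset.sum_const, nsmul_eq_mul]
            _ ≤ (((Y : ℝ) - X) / z + 2) * B := by
                apply mul_le_mul_of_nonneg_right _ hB
                refine (cls_le hC p 0 X Y hpp.one_lt.le hXY hpp.pos).trans ?_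
                have := div_le_div_of_nonneg_left hYX (by linarith : 0 < z) hp'.2
                linarith
            _ = _ := mul_comm _ _
      _ = (P.card : ℝ) * (B * (((Y : ℝ) - X) / z + 2)) := by rw [Finset.sum_const, nsmul_eq_mul]
      _ ≤ (q.primeFactors.card : ℝ) * (B * (((Y : ℝ) - X) / z + 2)) := by
          apply mul_le_mul_of_nonneg_right
          · exact_mod_cast Finset.card_le_card (Finset.filter_subset _ _)
          · have : 0 ≤ ((Y : ℝ) - X) / z := div_nonneg hYX (by linarith)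
            positivity

/-- the classes not coprime to `q`: the model -/
theorem noncop_m (hC : SpecCls) (w q X Y : ℕ) (l T : ℝ) (hq : 1 ≤ q) (hXY : X ≤ Y)
    (hl : 0 < l) (hYX : |(Y : ℝ) - X - l| ≤ 1) :
    ∑ c ∈ (range q).filter (fun c => ¬ Nat.Coprime c q),
      (T / l * Vw w * (((Ioc X Y).filter (fun u => u % q = c ∧ Rough ((w : ℝ) + 1) u)).card : ℝ)) ^ 2
      ≤ (|T| / (q.totient : ℝ) + |T| / l * Vw w * (2 ^ (w + 1) + 1))
        * (|T| * th w q + |T| / l * Vw w * (2 ^ (w + 1) + 1) * q.primeFactors.card) := by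
  have hq0 : (0 : ℝ) < q := by exact_mod_cast hq
  have hV := Vw_pos w
  have hT : 0 ≤ |T| := abs_nonneg _
  set G : ℝ := |T| / l * Vw w with hG
  have hG0 : 0 ≤ G := by positivity
  set E : ℝ := 2 ^ (w + 1) + 1 with hE
  have hE0 : 0 ≤ E := by positivity
  have hkey := key_identity w q hq
  obtain ⟨hL0, hL1, hL2⟩ := La_mem w q
  have hphi : (0 : ℝ) ≤ 1 / (q.totient : ℝ) := by positivity
  have h1 : ∀ c ∈ (range q).filter (fun c => ¬ Nat.Coprime c q),
      (T / l * Vw w * (((Ioc X Y).filter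
        (fun u => u % q = c ∧ Rough ((w : ℝ) + 1) u)).card : ℝ)) ^ 2
      ≤ (|T| / (q.totient : ℝ) + G * E) * (G *
        ∑ u ∈ (Ioc X Y).filter (fun u => u % q = c), rInd ((w : ℝ) + 1) u) := by
    intro c hc
    have hc' := Finset.mem_range.mp (Finset.mem_filter.mp hc).1
    set n : ℝ := (((Ioc X Y).filter (fun u => u % q = c ∧ Rough ((w : ℝ) + 1) u)).card : ℝ) with hn'
    have hn0 : 0 ≤ n := Nat.cast_nonneg _
    have hsum : ∑ u ∈ (Ioc X Y).filter (fun u => u % q = c), rInd ((w : ℝ) + 1) u = n := by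
      rw [hn', ← Finset.filter_filter]
      simp only [rInd]
      rw [Finset.sum_boole]
    rw [hsum]
    have habs : (T / l * Vw w * n) ^ 2 = (G * n) * (G * n) := by
      rw [← sq_abs, abs_mul, abs_mul, abs_div, abs_of_pos hl, abs_of_pos hV, abs_of_nonneg hn0]
      ring
    rw [habs]
    apply mul_le_mul_of_nonneg_right _ (by positivity)
    by_cases hz : n = 0
    · rw [hz, mul_zero]
      positivity
    · have hne : ((Ioc X Y).filter (fun u => u % q = c ∧ Rough ((w : ℝ) + 1) u)).Nonempty := by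
        rw [Finset.nonempty_iff_ne_empty]
        intro h0
        apply hz
        rw [hn', h0]
        simp
      obtain ⟨u, hu⟩ := hne
      obtain ⟨_, huq, hur⟩ := Finset.mem_filter.mp hu
      have hp : ∀ p : ℕ, p.Prime → p ≤ w → p ∣ q → ¬ p ∣ c := by
        intro p hp hpw hpq hpc
        have h2 : p ∣ u := by
          rw [← huq] at hpc
          exact (Nat.dvd_mod_iff hpq).mp hpc
        have h3 := hur p hp h2
        have h4 : (p : ℝ) ≤ w := by exact_mod_cast hpw
        linarith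
      have h5 := (abs_le.mp (n_bound hC w q c X Y l hq hXY hYX hc' hp)).2
      have h6 : n ≤ l / q * Pi w q + E := by linarith
      calc G * n ≤ G * (l / q * Pi w q + E) := mul_le_mul_of_nonneg_left h6 hG0
        _ = |T| * (Vw w * Pi w q / q) + G * E := by
            rw [hG]
            field_simp
        _ = |T| * (1 / (q.totient : ℝ) * La w q) + G * E := by rw [hkey]
        _ ≤ |T| * (1 / (q.totient : ℝ) * 1) + G * E := by
            have := mul_le_mul_of_nonneg_left hL1 hphi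
            have := mul_le_mul_of_nonneg_left this hT
            linarith
        _ = |T| / (q.totient : ℝ) + G * E := by ring
  refine (Finset.sum_le_sum h1).trans ?_
  rw [← Finset.mul_sum, ← Finset.mul_sum]
  apply mul_le_mul_of_nonneg_left _ (by positivity)
  set P := q.primeFactors.filter (fun p => w < p) with hP
  have h7 := union_sum (Ioc X Y) q P (fun u => rInd ((w : ℝ) + 1) u)
    (fun u => by rw [rInd]; split_ifs <;> norm_num) (by
      intro u _ hcop hne
      have h4 : Rough ((w : ℝ) + 1) u := by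
        by_contra hno
        apply hne
        rw [rInd, if_neg hno]
      obtain ⟨p, hp, hpu, hpq⟩ := Nat.Prime.not_coprime_iff_dvd.mp hcop
      have h5 := h4 p hp hpu
      have h6 : w < p := by
        have : (w : ℝ) < p := by linarith
        exact_mod_cast this
      exact ⟨p, Finset.mem_filter.mpr ⟨Nat.mem_primeFactors.mpr ⟨hp, hpq, by omega⟩, h6⟩,
        Nat.mod_eq_zero_of_dvd hpu⟩)
  have h8 : ∀ p ∈ P, G * ∑ u ∈ (Ioc X Y).filter (fun u => u % p = 0), rInd ((w : ℝ) + 1) u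
      ≤ |T| * (1 / (p : ℝ)) + G * E := by
    intro p hp
    obtain ⟨hp1, hp2⟩ := Finset.mem_filter.mp hp
    have hpp := (Nat.mem_primeFactors.mp hp1).1
    have hp0 : (0 : ℝ) < p := by exact_mod_cast hpp.pos
    have hsum : ∑ u ∈ (Ioc X Y).filter (fun u => u % p = 0), rInd ((w : ℝ) + 1) u
        = (((Ioc X Y).filter (fun u => u % p = 0 ∧ Rough ((w : ℝ) + 1) u)).card : ℝ) := by
      rw [← Finset.filter_filter]
      simp only [rInd]
      rw [Finset.sum_boole]
    rw [hsum]
    have hno : ∀ p' : ℕ, p'.Prime → p' ≤ w → ¬ p' ∣ p := by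
      intro p' hp' hw' hd
      have := (Nat.prime_dvd_prime_iff_eq hp' hpp).mp hd
      omega
    have h9 := (abs_le.mp (n_bound hC w p 0 X Y l hpp.one_lt.le hXY hYX hpp.pos
      (fun p' h1 h2 h3 => absurd h3 (hno p' h1 h2)))).2
    have hPi : Pi w p = ∏ p ∈ PB ((w : ℝ) + 1), (1 - 1 / (p : ℝ)) := by
      rw [Pi]
      apply Finset.prod_congr _ (fun _ _ => rfl)
      apply Finset.filter_true_of_mem
      intro p' hp'
      have := (mem_PB w p').mp hp'
      exact hno p' this.2 this.1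
    have hVP : Vw w * Pi w p = 1 := by rw [hPi]; exact Vw_mul w
    calc G * (((Ioc X Y).filter (fun u => u % p = 0 ∧ Rough ((w : ℝ) + 1) u)).card : ℝ)
        ≤ G * (l / p * Pi w p + E) := mul_le_mul_of_nonneg_left (by linarith) hG0
      _ = |T| * (Vw w * Pi w p) * (1 / (p : ℝ)) + G * E := by
          rw [hG]
          field_simp
      _ = |T| * (1 / (p : ℝ)) + G * E := by rw [hVP, mul_one]
  calc G * ∑ c ∈ (range q).filter (fun c => ¬ Nat.Coprime c q),
        ∑ u ∈ (Ioc X Y).filter (fun u => u % q = c), rInd ((w : ℝ) + 1) u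
      ≤ G * ∑ p ∈ P, ∑ u ∈ (Ioc X Y).filter (fun u => u % p = 0), rInd ((w : ℝ) + 1) u :=
        mul_le_mul_of_nonneg_left h7 hG0
    _ ≤ ∑ p ∈ P, (|T| * (1 / (p : ℝ)) + G * E) := by
        rw [Finset.mul_sum]
        exact Finset.sum_le_sum h8
    _ = |T| * th w q + G * E * P.card := by
        rw [Finset.sum_add_distrib, ← Finset.mul_sum, Finset.sum_const, nsmul_eq_mul, th]
        ring
    _ ≤ |T| * th w q + G * E * q.primeFactors.card := by
        have h10 : (P.card : ℝ) ≤ q.primeFactors.card := by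
          exact_mod_cast Finset.card_le_card (Finset.filter_subset _ _)
        have := mul_le_mul_of_nonneg_left h10 (by positivity : 0 ≤ G * E)
        linarith

end

end Pool.Agent.Lib.MP391708.QPA.BDHP
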