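import Pool.Agent.Lib.MP_391708_nt.QPA.BDHChar
import Pool.Agent.Lib.MP_391708_nt.QPA.BDHTot

/-!
# Reduction to rough moduli (for the module BDH)
-/

set_option autoImplicit false

namespace Pool.Agent.Lib.MP391708.QPA

open Finset Filter Topology
open scoped Classical

namespace BDH

/-- the product of the primes `p ≥ z` dividing `n` and not `m` -/
noncomputable def gg (z : ℝ) (n m : ℕ) : ℕ :=
  ∏ p ∈ n.primeFactors.filter (fun p : ℕ => z ≤ (p : ℝ) ∧ ¬ p ∣ m), p

lemma gg_dvd {z : ℝ} {n m : ℕ} : gg z n m ∣ n :=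
  (Finset.prod_dvd_prod_of_subset _ _ _ (Finset.filter_subset _ _)).trans
    (Nat.prod_primeFactors_dvd n)

lemma mem_of_dvd_gg {z : ℝ} {n m p : ℕ} (hp : p.Prime) (h : p ∣ gg z n m) :
    p ∣ n ∧ z ≤ (p : ℝ) ∧ ¬ p ∣ m := by
  unfold gg at h
  rw [hp.prime.dvd_finsetProd_iff] at h
  obtain ⟨q, hq, hpq⟩ := h
  rw [Finset.mem_filter, Nat.mem_primeFactors] at hq
  obtain ⟨⟨h1, h2, _⟩, h3, h4⟩ := hq
  have : p = q := (Nat.prime_dvd_prime_iff_eq hp h1).mp hpq
  rw [this]
  exact ⟨h2, h3, h4⟩

lemma dvd_gg {z : ℝ} {n m p : ℕ} (hp : p.Prime) (hn : n ≠ 0) (h1 : p ∣ n) (h2 : z ≤ (p : ℝ))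
    (h3 : ¬ p ∣ m) : p ∣ gg z n m := by
  unfold gg
  apply Finset.dvd_prod_of_mem (fun p => p)
  rw [Finset.mem_filter, Nat.mem_primeFactors]
  exact ⟨⟨hp, h1, hn⟩, h2, h3⟩

lemma gg_coprime {z : ℝ} {n m : ℕ} : Nat.Coprime (gg z n m) m := by
  apply Nat.coprime_of_dvd
  intro p hp h1 h2
  exact (mem_of_dvd_gg hp h1).2.2 h2

lemma gg_rough {z : ℝ} {n m : ℕ} : Rough z (gg z n m) := fun _ hp h => (mem_of_dvd_gg hp h).2.1

lemma gg_pos {z : ℝ} {n m : ℕ} (hn : 0 < n) : 0 < gg z n m := Nat.pos_of_dvd_of_pos gg_dvd hn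

lemma gg_le {z : ℝ} (hz : 2 < z) {d m : ℕ} (hd : 0 < d) : gg z (4 * d) m ≤ d := by
  apply Nat.le_of_dvd hd
  have h1 : Nat.Coprime (gg z (4 * d) m) 4 := by
    apply Nat.coprime_of_dvd
    intro p hp h1 h2
    have h3 := (mem_of_dvd_gg hp h1).2.1
    have h4 : p ∣ 2 ^ 2 := h2
    have h5 : p ∣ 2 := hp.dvd_of_dvd_pow h4
    have h6 : p = 2 := (Nat.prime_dvd_prime_iff_eq hp Nat.prime_two).mp h5
    rw [h6] at h3
    push_cast at h3
    linarith
  exact h1.dvd_of_dvd_mul_left gg_dvd

lemma csum_gg {z : ℝ} {n r : ℕ} (hn : n ≠ 0) {b : ℕ → ℝ}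
    (hb : ∀ u, b u ≠ 0 → Rough z u) (X : ℕ) :
    csum r (bq n b) X = csum r (bq (gg z n (r + 1)) b) X := by
  unfold csum
  apply Finset.sum_congr rfl
  intro ψ _
  congr 2
  apply Finset.sum_congr rfl
  intro u _
  by_cases hu : Nat.Coprime u (r + 1)
  · congr 2
    unfold bq
    by_cases hbu : b u = 0
    · rw [hbu]; simp
    · have hrough := hb u hbu
      have : Nat.Coprime u n ↔ Nat.Coprime u (gg z n (r + 1)) := by
        constructor
        · intro h
          exact Nat.Coprime.coprime_dvd_right gg_dvd h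
        · intro h
          apply Nat.coprime_of_dvd
          intro p hp h1 h2
          have h3 : ¬ p ∣ r + 1 := by
            intro h4
            have := Nat.dvd_gcd h1 h4
            rw [hu] at this
            exact hp.one_lt.ne' (Nat.dvd_one.mp this)
          have h4 := dvd_gg (m := r + 1) hp hn h2 (hrough p hp h1) h3
          have := Nat.dvd_gcd h1 h4
          rw [h] at this
          exact hp.one_lt.ne' (Nat.dvd_one.mp this)
      by_cases h : Nat.Coprime u n
      · rw [if_pos h, if_pos (this.mp h)]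
      · rw [if_neg h, if_neg (fun h' => h (this.mpr h'))]
  · rw [char_zero ψ hu]
    simp

lemma csum_nonneg (r : ℕ) (b : ℕ → ℝ) (X : ℕ) : 0 ≤ csum r b X := by
  unfold csum
  exact Finset.sum_nonneg (fun _ _ => by positivity)

/-- The main reduction. -/
lemma reduction {C : ℝ} (hC : ∀ D₀ m : ℕ, 1 ≤ D₀ → 1 ≤ m →
    ∑ d ∈ (Ioc D₀ (2 * D₀)).filter (fun d => m ∣ 4 * d), 1 / ((4 * d).totient : ℝ)
      ≤ C / (m.totient : ℝ)) {z : ℝ} (hz : 2 < z) {b : ℕ → ℝ} (hb : ∀ u, b u ≠ 0 → Rough z u)
    (X D₀ : ℕ) (hD : 1 ≤ D₀) :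
    ∑ d ∈ Ioc D₀ (2 * D₀), 1 / ((4 * d).totient : ℝ) *
      ∑ r ∈ (range (4 * d)).filter (fun r => 1 ≤ r ∧ r + 1 ∣ 4 * d), csum r (bq (4 * d) b) X
    ≤ C * ∑ g ∈ (Icc 1 (2 * D₀)).filter (fun g => Rough z g), 1 / (g.totient : ℝ) *
        ∑ r ∈ Ico 1 (8 * D₀), 1 / ((r + 1).totient : ℝ) * csum r (bq g b) X := by
  set G := (Icc 1 (2 * D₀)).filter (fun g => Rough z g) with hG
  have h1 : ∀ d ∈ Ioc D₀ (2 * D₀),
      ∑ r ∈ (range (4 * d)).filter (fun r => 1 ≤ r ∧ r + 1 ∣ 4 * d), csum r (bq (4 * d) b) X ≤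
      ∑ r ∈ Ico 1 (8 * D₀), ∑ g ∈ G, if Nat.Coprime g (r + 1) ∧ g * (r + 1) ∣ 4 * d then
        csum r (bq g b) X else 0 := by
    intro d hd
    rw [Finset.mem_Ioc] at hd
    have hd0 : 0 < d := by omega
    calc _ ≤ ∑ r ∈ (range (4 * d)).filter (fun r => 1 ≤ r ∧ r + 1 ∣ 4 * d),
          ∑ g ∈ G, (if Nat.Coprime g (r + 1) ∧ g * (r + 1) ∣ 4 * d then
            csum r (bq g b) X else 0) := by
          apply Finset.sum_le_sum
          intro r hr
          rw [Finset.mem_filter, Finset.mem_range] at hr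
          obtain ⟨hr1, hr2, hr3⟩ := hr
          rw [csum_gg (z := z) (by omega) hb]
          have hmem : gg z (4 * d) (r + 1) ∈ G := by
            rw [hG, Finset.mem_filter, Finset.mem_Icc]
            refine ⟨⟨gg_pos (by omega), ?_⟩, gg_rough⟩
            exact (gg_le hz hd0).trans hd.2
          have hle := Finset.single_le_sum (f := fun g =>
            if Nat.Coprime g (r + 1) ∧ g * (r + 1) ∣ 4 * d then csum r (bq g b) X else 0)
            (s := G) (fun g _ => by
              split_ifs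
              · exact csum_nonneg _ _ _
              · exact le_refl _) hmem
          rw [if_pos ⟨gg_coprime, gg_coprime.mul_dvd_of_dvd_of_dvd gg_dvd hr3⟩] at hle
          exact hle
      _ ≤ _ := by
          apply Finset.sum_le_sum_of_subset_of_nonneg
          · intro r hr
            rw [Finset.mem_filter, Finset.mem_range] at hr
            rw [Finset.mem_Ico]
            omega
          · intro r _ _
            apply Finset.sum_nonneg
            intro g _
            split_ifs
            · exact csum_nonneg _ _ _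
            · exact le_refl _
  calc _ ≤ ∑ d ∈ Ioc D₀ (2 * D₀), 1 / ((4 * d).totient : ℝ) *
        ∑ r ∈ Ico 1 (8 * D₀), ∑ g ∈ G, (if Nat.Coprime g (r + 1) ∧ g * (r + 1) ∣ 4 * d then
          csum r (bq g b) X else 0) := by
        apply Finset.sum_le_sum
        intro d hd
        exact mul_le_mul_of_nonneg_left (h1 d hd) (by positivity)
    _ = ∑ r ∈ Ico 1 (8 * D₀), ∑ g ∈ G, ∑ d ∈ Ioc D₀ (2 * D₀), 1 / ((4 * d).totient : ℝ) *
          (if Nat.Coprime g (r + 1) ∧ g * (r + 1) ∣ 4 * d then csum r (bq g b) X else 0) := by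
        rw [Finset.sum_congr rfl (fun d _ => Finset.mul_sum _ _ _)]
        rw [Finset.sum_comm]
        apply Finset.sum_congr rfl
        intro r _
        rw [Finset.sum_congr rfl (fun d _ => Finset.mul_sum _ _ _)]
        rw [Finset.sum_comm]
    _ ≤ ∑ r ∈ Ico 1 (8 * D₀), ∑ g ∈ G,
          C * (1 / (g.totient : ℝ) * (1 / ((r + 1).totient : ℝ) * csum r (bq g b) X)) := by
        apply Finset.sum_le_sum
        intro r _
        apply Finset.sum_le_sum
        intro g hg
        rw [hG, Finset.mem_filter, Finset.mem_Icc] at hg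
        have hg1 : 1 ≤ g := hg.1.1
        have hgφ : (0 : ℝ) < g.totient := by exact_mod_cast Nat.totient_pos.2 hg1
        have hrφ : (0 : ℝ) < (r + 1).totient := by exact_mod_cast Nat.totient_pos.2 (by omega)
        have hnn := csum_nonneg r (bq g b) X
        have hCC := hC D₀ (g * (r + 1)) hD (Nat.mul_pos hg1 (by omega))
        by_cases hcop : Nat.Coprime g (r + 1)
        · have h2 : ∑ d ∈ Ioc D₀ (2 * D₀), 1 / ((4 * d).totient : ℝ) *
              (if Nat.Coprime g (r + 1) ∧ g * (r + 1) ∣ 4 * d then csum r (bq g b) X else 0) =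
              (∑ d ∈ (Ioc D₀ (2 * D₀)).filter (fun d => g * (r + 1) ∣ 4 * d),
                1 / ((4 * d).totient : ℝ)) * csum r (bq g b) X := by
            rw [Finset.sum_mul, Finset.sum_filter]
            apply Finset.sum_congr rfl
            intro d _
            by_cases h : g * (r + 1) ∣ 4 * d
            · rw [if_pos ⟨hcop, h⟩, if_pos h]
            · rw [if_neg (fun h' => h h'.2), if_neg h, mul_zero]
          rw [h2]
          rw [Nat.totient_mul hcop] at hCC
          push_cast at hCC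
          calc _ ≤ C / ((g.totient : ℝ) * ((r + 1).totient : ℝ)) * csum r (bq g b) X :=
                mul_le_mul_of_nonneg_right hCC hnn
            _ = _ := by field_simp
        · have h2 : ∑ d ∈ Ioc D₀ (2 * D₀), 1 / ((4 * d).totient : ℝ) *
              (if Nat.Coprime g (r + 1) ∧ g * (r + 1) ∣ 4 * d then csum r (bq g b) X else 0) = 0 := by
            apply Finset.sum_eq_zero
            intro d _
            rw [if_neg (fun h' => hcop h'.1), mul_zero]
          rw [h2]
          have hC0 : 0 ≤ C := by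
            have h3 : (0 : ℝ) ≤ C / ((g * (r + 1)).totient : ℝ) :=
              le_trans (Finset.sum_nonneg (fun _ _ => by positivity)) hCC
            have h4 : (0 : ℝ) < ((g * (r + 1)).totient : ℝ) := by
              exact_mod_cast Nat.totient_pos.2 (Nat.mul_pos hg1 (by omega))
            by_contra hc
            push Not at hc
            have := div_neg_of_neg_of_pos hc h4
            linarith
          positivity
    _ = _ := by
        rw [Finset.sum_comm, Finset.mul_sum]
        apply Finset.sum_congr rfl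
        intro g _
        rw [Finset.mul_sum, Finset.mul_sum]

end BDH

end Pool.Agent.Lib.MP391708.QPA
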