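import Pool.Agent.Lib.MP_391708_nt.QPA.SHM
import Pool.Agent.Lib.MP_391708_nt.H20.Pl

/-!
# QPA, basic facts for the group M
-/

set_option autoImplicit false

namespace Pool.Agent.Lib.MP391708.QPA

open Finset Filter Topology
open scoped Classical

namespace BasM

lemma rInd_nonneg (z : ℝ) (m : ℕ) : 0 ≤ rInd z m := by
  unfold rInd; split_ifs <;> norm_num

lemma rInd_le_one (z : ℝ) (m : ℕ) : rInd z m ≤ 1 := by
  unfold rInd; split_ifs <;> norm_num

lemma rInd_of {z : ℝ} {m : ℕ} (h : Rough z m) : rInd z m = 1 := by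
  unfold rInd; rw [if_pos h]

lemma Rough.mono {z z' : ℝ} {m : ℕ} (h : Rough z' m) (hz : z ≤ z') : Rough z m :=
  fun p hp hd => hz.trans (h p hp hd)

lemma rInd_mono {z z' : ℝ} (hz : z ≤ z') (m : ℕ) : rInd z' m ≤ rInd z m := by
  by_cases h : Rough z' m
  · rw [rInd_of h, rInd_of (Rough.mono h hz)]
  · unfold rInd
    rw [if_neg h]
    split_ifs <;> norm_num

lemma odd_of_rough {z : ℝ} {m : ℕ} (hz : 2 < z) (h : Rough z m) : Odd m := by
  rw [← Nat.not_even_iff_odd]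
  intro h2
  have := h 2 Nat.prime_two h2.two_dvd
  push_cast at this
  linarith

lemma sum_rInd (z : ℝ) (S : Finset ℕ) :
    ∑ m ∈ S, rInd z m = ((S.filter (fun m => Rough z m)).card : ℝ) := by
  unfold rInd
  rw [card_filter]
  push_cast
  rfl

/-! ## large `N` -/

lemma ev_log (C : ℝ) : ∀ᶠ N : ℕ in atTop, C ≤ Real.log N :=
  (Real.tendsto_log_atTop.comp tendsto_natCast_atTop_atTop).eventually_ge_atTop C

lemma ev_pow {a b : ℝ} (hab : a < b) (C : ℝ) : ∀ᶠ N : ℕ in atTop, C * (N : ℝ) ^ a ≤ (N : ℝ) ^ b := by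
  have h : Tendsto (fun x : ℝ => x ^ (b - a)) atTop atTop := tendsto_rpow_atTop (by linarith)
  have h2 := (h.comp tendsto_natCast_atTop_atTop).eventually_ge_atTop C
  filter_upwards [h2, eventually_ge_atTop 1] with N hN h1
  have hN0 : (0 : ℝ) < N := by exact_mod_cast h1
  have h3 : (N : ℝ) ^ b = (N : ℝ) ^ (b - a) * (N : ℝ) ^ a := by
    rw [← Real.rpow_add hN0]; congr 1; ring
  rw [h3]
  exact mul_le_mul_of_nonneg_right hN (Real.rpow_nonneg hN0.le a)

lemma ev_const {b : ℝ} (hb : 0 < b) (C : ℝ) : ∀ᶠ N : ℕ in atTop, C ≤ (N : ℝ) ^ b := by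
  filter_upwards [ev_pow hb C] with N hN
  simpa using hN

lemma ev_logpow {b : ℝ} (hb : 0 < b) (C : ℝ) : ∀ᶠ N : ℕ in atTop, C * Real.log N ≤ (N : ℝ) ^ b := by
  have h : (fun x : ℝ => Real.log x) =o[atTop] fun x => x ^ b := isLittleO_log_rpow_atTop hb
  have h1 : (0 : ℝ) < 1 / (|C| + 1) := by positivity
  have h2 := h.def h1
  have h3 := (tendsto_natCast_atTop_atTop (R := ℝ)).eventually h2
  filter_upwards [h3, eventually_ge_atTop 1] with N hN hN1
  have hN0 : (0 : ℝ) < N := by exact_mod_cast hN1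
  rw [Real.norm_of_nonneg (Real.rpow_nonneg hN0.le b), Real.norm_eq_abs] at hN
  have h4 : (|C| + 1) * |Real.log N| ≤ (N : ℝ) ^ b := by
    have := mul_le_mul_of_nonneg_left hN (show (0 : ℝ) ≤ |C| + 1 by positivity)
    rwa [← mul_assoc, mul_one_div_cancel (by positivity), one_mul] at this
  calc C * Real.log N ≤ |C * Real.log N| := le_abs_self _
    _ = |C| * |Real.log N| := abs_mul _ _
    _ ≤ (|C| + 1) * |Real.log N| := by gcongr; linarith
    _ ≤ _ := h4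

lemma ev_two : ∀ᶠ N : ℕ in atTop, 2 ≤ N := eventually_ge_atTop 2

/-! ## the product `V_w` -/

lemma PB_eq (w : ℕ) : PB ((w : ℝ) + 1) = (range (w + 1)).filter Nat.Prime := by
  unfold PB
  have : ⌈(w : ℝ) + 1⌉₊ = w + 1 := by exact_mod_cast Nat.ceil_natCast (R := ℝ) (w + 1)
  rw [this]

lemma Vw_pos (w : ℕ) : 0 < Vw w := by
  unfold Vw
  refine prod_pos fun p hp => ?_
  have h2 : 2 ≤ p := by
    unfold PB at hp
    exact (mem_filter.1 hp).2.two_le
  have h3 : (1 : ℝ) / p < 1 := by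
    rw [div_lt_one (by positivity)]; exact_mod_cast h2
  exact inv_pos.2 (by linarith)

lemma Vw_le : ∃ C : ℝ, 0 < C ∧ ∀ w : ℕ, 3 ≤ w → Vw w ≤ C * Real.log w := by
  obtain ⟨C, hC⟩ := Pool.Agent.Lib.MP_391708_nt.H20.PlM.mertens 1 one_pos
  refine ⟨Real.exp (C + 1), Real.exp_pos _, fun w hw => ?_⟩
  have h := (abs_le.1 (hC w hw)).2
  have e1 : (Icc 1 w).filter (fun p => p.Prime ∧ p ≡ 1 [MOD 1]) = (range (w + 1)).filter Nat.Prime := by
    ext p
    simp only [mem_filter, mem_Icc, mem_range, Nat.modEq_one, and_true]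
    constructor
    · rintro ⟨⟨_, h1⟩, h2⟩; exact ⟨by omega, h2⟩
    · rintro ⟨h1, h2⟩; exact ⟨⟨h2.pos, by omega⟩, h2⟩
  rw [e1] at h
  simp only [Nat.totient_one, Nat.cast_one, div_one, one_mul] at h
  have hlw : 0 < Real.log w := Real.log_pos (by exact_mod_cast (by omega : 1 < w))
  have h2 : ∀ p ∈ (range (w + 1)).filter Nat.Prime,
      (1 - 1 / (p : ℝ))⁻¹ ≤ Real.exp (1 / (p : ℝ) + (1 / ((p : ℝ) - 1) - 1 / p)) := by
    intro p hp
    have h3 : 2 ≤ p := (mem_filter.1 hp).2.two_le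
    have h4 : (2 : ℝ) ≤ p := by exact_mod_cast h3
    have e2 : (1 - 1 / (p : ℝ))⁻¹ = 1 / ((p : ℝ) - 1) + 1 := by
      have : (p : ℝ) - 1 ≠ 0 := by linarith
      have : (p : ℝ) ≠ 0 := by linarith
      field_simp
      ring
    rw [e2]
    calc 1 / ((p : ℝ) - 1) + 1 ≤ Real.exp (1 / ((p : ℝ) - 1)) := Real.add_one_le_exp _
      _ = _ := by congr 1; ring
  unfold Vw
  rw [PB_eq]
  calc ∏ p ∈ (range (w + 1)).filter Nat.Prime, (1 - 1 / (p : ℝ))⁻¹
      ≤ ∏ p ∈ (range (w + 1)).filter Nat.Prime, Real.exp (1 / (p : ℝ) + (1 / ((p : ℝ) - 1) - 1 / p)) := by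
        refine prod_le_prod (fun p hp => ?_) h2
        have h3 : 2 ≤ p := (mem_filter.1 hp).2.two_le
        have h4 : (2 : ℝ) ≤ p := by exact_mod_cast h3
        have : 1 / (p : ℝ) ≤ 1 := by rw [div_le_one (by linarith)]; linarith
        exact inv_nonneg.2 (by linarith)
    _ = Real.exp (∑ p ∈ (range (w + 1)).filter Nat.Prime, (1 / (p : ℝ) + (1 / ((p : ℝ) - 1) - 1 / p))) := by
        rw [Real.exp_sum]
    _ ≤ Real.exp (Real.log (Real.log w) + (C + 1)) := by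
        apply Real.exp_le_exp.2
        rw [sum_add_distrib]
        have h5 : ∑ p ∈ (range (w + 1)).filter Nat.Prime, (1 / ((p : ℝ) - 1) - 1 / p) ≤ 1 := by
          have h6 : ∀ n : ℕ, ∑ p ∈ (range (n + 1)).filter Nat.Prime, (1 / ((p : ℝ) - 1) - 1 / p)
              ≤ 1 - (if n = 0 then 1 else 1 / (n : ℝ)) := by
            intro n
            induction n with
            | zero => simp [Finset.filter_singleton, Nat.not_prime_zero]
            | succ n ih =>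
              rw [range_add_one, filter_insert]
              have h7 : (1 : ℝ) - (if n = 0 then 1 else 1 / (n : ℝ))
                  ≤ 1 - (if n + 1 = 0 then 1 else 1 / ((n + 1 : ℕ) : ℝ)) := by
                rw [if_neg (Nat.succ_ne_zero n)]
                split_ifs with h0
                · have : (1 : ℝ) / ((n + 1 : ℕ) : ℝ) ≤ 1 := by
                    rw [div_le_one (by positivity)]; push_cast; linarith [Nat.cast_nonneg (α := ℝ) n]
                  linarith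
                · have : (0 : ℝ) < n := by positivity
                  have : (1 : ℝ) / ((n + 1 : ℕ) : ℝ) ≤ 1 / n := by
                    push_cast; gcongr; linarith
                  linarith
              by_cases hp : Nat.Prime (n + 1)
              · rw [if_pos hp, sum_insert (by simp)]
                have hn : 1 ≤ n := by have := hp.two_le; omega
                have hn0 : (0 : ℝ) < n := by exact_mod_cast hn
                rw [if_neg (by omega)] at ih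
                rw [if_neg (Nat.succ_ne_zero n)]
                push_cast
                have : (1 : ℝ) / ((n : ℝ) + 1 - 1) = 1 / n := by congr 1; ring
                rw [this]
                linarith
              · rw [if_neg hp]; exact ih.trans h7
          refine (h6 w).trans ?_
          rw [if_neg (by omega)]
          have : (0 : ℝ) ≤ 1 / (w : ℝ) := by positivity
          linarith
        linarith
    _ = Real.exp (C + 1) * Real.log w := by
        rw [add_comm, Real.exp_add, Real.exp_log hlw]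

/-! ## counting rough numbers -/

lemma rough_count (hBT : SpecBT) {e0 : ℝ} (he0 : 0 < e0) (he1 : e0 ≤ 1 / 10) :
    ∃ C : ℝ, 0 < C ∧ ∀ᶠ N : ℕ in atTop, ∀ q c x H : ℕ, 1 ≤ q →
      (q.totient : ℝ) * (N : ℝ) ^ (1 / 5 : ℝ) ≤ H →
      (((Ioc x (x + H)).filter (fun u => u % q = c ∧ Rough ((N : ℝ) ^ e0) u)).card : ℝ)
        ≤ C * H / ((q.totient : ℝ) * Real.log N) := by
  obtain ⟨C, hC, hB⟩ := hBT
  refine ⟨C * (2 / e0) + C, by positivity, ?_⟩
  filter_upwards [ev_const (half_pos he0) 2, eventually_ge_atTop 3,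
    ev_logpow (show (0 : ℝ) < 1 / 10 by norm_num) 1] with N h1 hN3 h2 q c x H hq hH
  have hN0 : (0 : ℝ) < N := by positivity
  have hN1 : (1 : ℝ) < N := by exact_mod_cast (by omega : 1 < N)
  have hlog : 0 < Real.log N := Real.log_pos hN1
  have hφ : 0 < (q.totient : ℝ) := by exact_mod_cast Nat.totient_pos.2 hq
  have h3 := hB ((N : ℝ) ^ (e0 / 2)) ((N : ℝ) ^ e0) q c x H h1
    (Real.rpow_lt_rpow_of_exponent_lt hN1 (by linarith)) hq
  refine h3.trans ?_
  rw [Real.log_rpow hN0]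
  have h4 : ((N : ℝ) ^ (e0 / 2)) ^ 2 ≤ H / ((q.totient : ℝ) * Real.log N) := by
    have h5 : ((N : ℝ) ^ (e0 / 2)) ^ 2 = (N : ℝ) ^ e0 := by
      rw [← Real.rpow_natCast, ← Real.rpow_mul hN0.le]; congr 1; push_cast; ring
    rw [h5, le_div_iff₀ (by positivity)]
    have h6 : (N : ℝ) ^ e0 ≤ (N : ℝ) ^ (1 / 10 : ℝ) := Real.rpow_le_rpow_of_exponent_le hN1.le he1
    have h7 : (N : ℝ) ^ (1 / 5 : ℝ) = (N : ℝ) ^ (1 / 10 : ℝ) * (N : ℝ) ^ (1 / 10 : ℝ) := by
      rw [← Real.rpow_add hN0]; norm_num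
    have h8 : (N : ℝ) ^ e0 * Real.log N ≤ (N : ℝ) ^ (1 / 5 : ℝ) := by
      rw [h7]
      exact mul_le_mul h6 (by linarith) hlog.le (by positivity)
    calc (N : ℝ) ^ e0 * ((q.totient : ℝ) * Real.log N)
        = (q.totient : ℝ) * ((N : ℝ) ^ e0 * Real.log N) := by ring
      _ ≤ (q.totient : ℝ) * (N : ℝ) ^ (1 / 5 : ℝ) := by gcongr
      _ ≤ H := hH
  have h9 : C * H / ((q.totient : ℝ) * (e0 / 2 * Real.log N))
      = C * (2 / e0) * (H / ((q.totient : ℝ) * Real.log N)) := by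
    field_simp
  rw [h9]
  have h10 : (C * (2 / e0) + C) * H / ((q.totient : ℝ) * Real.log N)
      = C * (2 / e0) * (H / ((q.totient : ℝ) * Real.log N)) + C * (H / ((q.totient : ℝ) * Real.log N)) := by
    ring
  rw [h10]
  gcongr

lemma rough_sum (hBT : SpecBT) {e0 : ℝ} (he0 : 0 < e0) (he1 : e0 ≤ 1 / 10) :
    ∃ C : ℝ, 0 < C ∧ ∀ᶠ N : ℕ in atTop, ∀ X Y : ℝ, 0 ≤ X → X + 2 * (N : ℝ) ^ (1 / 5 : ℝ) ≤ Y →
      ∑ u ∈ Ioc ⌊X⌋₊ ⌊Y⌋₊, rInd ((N : ℝ) ^ e0) u ≤ C * (Y - X) / Real.log N := by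
  obtain ⟨C, hC, hB⟩ := rough_count hBT he0 he1
  refine ⟨2 * C, by positivity, ?_⟩
  filter_upwards [hB, eventually_ge_atTop 3, ev_const (show (0 : ℝ) < 1 / 5 by norm_num) 1] with
    N h1 hN3 h2 X Y hX hXY
  have hN1 : (1 : ℝ) < N := by exact_mod_cast (by omega : 1 < N)
  have hlog : 0 < Real.log N := Real.log_pos hN1
  have hfl : ⌊X⌋₊ ≤ ⌊Y⌋₊ := Nat.floor_mono (by linarith)
  have hX1 : (⌊X⌋₊ : ℝ) ≤ X := Nat.floor_le hX
  have hX2 : X < (⌊X⌋₊ : ℝ) + 1 := Nat.lt_floor_add_one X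
  have hY1 : (⌊Y⌋₊ : ℝ) ≤ Y := Nat.floor_le (by linarith)
  have hY2 : Y < (⌊Y⌋₊ : ℝ) + 1 := Nat.lt_floor_add_one Y
  have hc : ((⌊Y⌋₊ - ⌊X⌋₊ : ℕ) : ℝ) = (⌊Y⌋₊ : ℝ) - ⌊X⌋₊ := by push_cast [hfl]; ring
  have h3 := h1 1 0 ⌊X⌋₊ (⌊Y⌋₊ - ⌊X⌋₊) le_rfl (by
    rw [hc]; simp only [Nat.totient_one, Nat.cast_one, one_mul]; linarith)
  rw [Nat.add_sub_cancel' hfl] at h3
  rw [sum_rInd]
  have e1 : (Ioc ⌊X⌋₊ ⌊Y⌋₊).filter (fun u => u % 1 = 0 ∧ Rough ((N : ℝ) ^ e0) u)
      = (Ioc ⌊X⌋₊ ⌊Y⌋₊).filter (fun u => Rough ((N : ℝ) ^ e0) u) := by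
    refine filter_congr fun u _ => ?_
    simp [Nat.mod_one]
  rw [e1] at h3
  refine h3.trans ?_
  rw [Nat.totient_one, Nat.cast_one, one_mul, hc]
  refine div_le_div_of_nonneg_right ?_ hlog.le
  nlinarith

lemma wrough_count (hBT : SpecBT) :
    ∃ C : ℝ, 0 < C ∧ ∀ w : ℕ, 3 ≤ w → ∀ᶠ N : ℕ in atTop, ∀ d c x H : ℕ, 1 ≤ d →
      (d : ℝ) * √(N : ℝ) ≤ H →
      Vw w * ∑ u ∈ (Ioc x (x + H)).filter (fun u => u % (4 * d) = c), rInd ((w : ℝ) + 1) u
        ≤ C * H / (d.totient : ℝ) := by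
  obtain ⟨C, hC, hB⟩ := hBT
  obtain ⟨C', hC', hV⟩ := Vw_le
  refine ⟨C * C' + 1, by positivity, fun w hw => ?_⟩
  have hw2 : (2 : ℝ) ≤ w := by exact_mod_cast (by omega : 2 ≤ w)
  have hlw : 0 < Real.log w := Real.log_pos (by linarith)
  filter_upwards [ev_const (show (0 : ℝ) < 1 / 2 by norm_num) (Vw w * (C * (w : ℝ) ^ 2)),
    eventually_ge_atTop 1] with N h1 hN1 d c x H hd hH
  have hN0 : (0 : ℝ) < N := by exact_mod_cast hN1
  have h2 := hB (w : ℝ) ((w : ℝ) + 1) (4 * d) c x H hw2 (by linarith) (by omega)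
  have e1 : ∑ u ∈ (Ioc x (x + H)).filter (fun u => u % (4 * d) = c), rInd ((w : ℝ) + 1) u
      = (((Ioc x (x + H)).filter (fun u => u % (4 * d) = c ∧ Rough ((w : ℝ) + 1) u)).card : ℝ) := by
    rw [sum_rInd, filter_filter]
  rw [e1]
  have hφ : 0 < (d.totient : ℝ) := by exact_mod_cast Nat.totient_pos.2 hd
  have hφ4 : (d.totient : ℝ) ≤ ((4 * d).totient : ℝ) := by
    exact_mod_cast Nat.le_of_dvd (Nat.totient_pos.2 (by omega)) (Nat.totient_dvd_of_dvd ⟨4, by ring⟩)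
  have hφd : (d.totient : ℝ) ≤ d := by exact_mod_cast Nat.totient_le d
  have h3 : Vw w * (C * H / (((4 * d).totient : ℝ) * Real.log w)) ≤ C * C' * H / (d.totient : ℝ) := by
    have h4 : C * H / (((4 * d).totient : ℝ) * Real.log w) ≤ C * H / ((d.totient : ℝ) * Real.log w) := by
      gcongr
    calc Vw w * (C * H / (((4 * d).totient : ℝ) * Real.log w))
        ≤ (C' * Real.log w) * (C * H / ((d.totient : ℝ) * Real.log w)) :=
          mul_le_mul (hV w hw) h4 (by positivity) (by positivity)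
      _ = C * C' * H / (d.totient : ℝ) := by field_simp
  have h5 : Vw w * (C * (w : ℝ) ^ 2) ≤ H / (d.totient : ℝ) := by
    rw [le_div_iff₀ hφ]
    have h6 : Vw w * (C * (w : ℝ) ^ 2) ≤ √(N : ℝ) := by rw [Real.sqrt_eq_rpow]; exact h1
    calc Vw w * (C * (w : ℝ) ^ 2) * (d.totient : ℝ) ≤ √(N : ℝ) * d := by
          gcongr
      _ ≤ H := by rw [mul_comm]; exact hH
  calc Vw w * (((Ioc x (x + H)).filter (fun u => u % (4 * d) = c ∧ Rough ((w : ℝ) + 1) u)).card : ℝ)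
      ≤ Vw w * (C * H / (((4 * d).totient : ℝ) * Real.log w) + C * (w : ℝ) ^ 2) :=
        mul_le_mul_of_nonneg_left h2 (Vw_pos w).le
    _ = Vw w * (C * H / (((4 * d).totient : ℝ) * Real.log w)) + Vw w * (C * (w : ℝ) ^ 2) := by ring
    _ ≤ C * C' * H / (d.totient : ℝ) + H / (d.totient : ℝ) := add_le_add h3 h5
    _ = (C * C' + 1) * H / (d.totient : ℝ) := by ring

/-! ## the functions `FF` -/

lemma FF_facts (hFFB : SpecFFB) {e0 : ℝ} (he0 : 0 < e0) {Q : ℕ} (hQ : 1 ≤ Q) {c : Multiset ℕ}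
    (hc : ∀ i ∈ c, Q ≤ i) {N : ℕ} (hN : 2 ≤ N) (m : ℕ) :
    0 ≤ FF N (e0 / Q) c m ∧
      FF N (e0 / Q) c m ≤ ((Multiset.card c).factorial : ℝ) * rInd ((N : ℝ) ^ e0) m := by
  have hQ0 : (0 : ℝ) < Q := by exact_mod_cast hQ
  obtain ⟨h1, h2, h3⟩ := hFFB N (e0 / Q) c m hN (by positivity)
  refine ⟨h1, ?_⟩
  by_cases h : FF N (e0 / Q) c m = 0
  · rw [h]; exact mul_nonneg (by positivity) (rInd_nonneg _ _)
  · have h4 := (h3 h).2.2.2.2 Q hc
    rw [div_mul_cancel₀ _ hQ0.ne'] at h4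
    rw [rInd_of h4, mul_one]
    exact h2

/-! ## bilinear sums -/

lemma bil_add (X : ℕ) (a : ℤ) (α β β' : ℕ → ℝ) :
    bil X a α (fun l => β l + β' l) = bil X a α β + bil X a α β' := by
  unfold bil conv
  rw [← sum_add_distrib]
  refine sum_congr rfl fun n _ => ?_
  rw [← sum_add_distrib]
  exact sum_congr rfl fun k _ => by ring

end BasM

end Pool.Agent.Lib.MP391708.QPA
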