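import Pool.Agent.Lib.MP_391708_nt.QPA.Spec

/-!
# KER: the kernel of the fans
-/

set_option autoImplicit false

namespace Pool.Agent.Lib.MP391708.QPA.KER

open Finset Filter Topology
open scoped Classical

noncomputable section

/-! ### the bumps -/

theorem kB_nonneg (x : ℝ) : 0 ≤ kB x := kB.nonneg
theorem kB_le_one (x : ℝ) : kB x ≤ 1 := kB.le_one
theorem gB_nonneg (x : ℝ) : 0 ≤ gB x := gB.nonneg
theorem gB_le_one (x : ℝ) : gB x ≤ 1 := gB.le_one

theorem kB_supp {x : ℝ} (h : kB x ≠ 0) : 1 / 2 < x ∧ x < 5 / 2 := by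
  have h1 : x ∈ Function.support (kB : ℝ → ℝ) := h
  rw [kB.support_eq] at h1
  have h2 : |x - 3 / 2| < 1 := by simpa [Metric.mem_ball, Real.dist_eq, kB] using h1
  rw [abs_lt] at h2
  constructor <;> linarith [h2.1, h2.2]

theorem gB_supp {x : ℝ} (h : gB x ≠ 0) : |x| < 2 := by
  have h1 : x ∈ Function.support (gB : ℝ → ℝ) := h
  rw [gB.support_eq] at h1
  simpa [Metric.mem_ball, Real.dist_eq, gB] using h1

theorem bump_lip {c : ℝ} (f : ContDiffBump c) : ∃ C : ℝ, 0 < C ∧ ∀ x y : ℝ,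
    |f x - f y| ≤ C * |x - y| := by
  obtain ⟨C, hC⟩ := (f.contDiff (n := 1)).lipschitzWith_of_hasCompactSupport f.hasCompactSupport
    one_ne_zero
  refine ⟨C + 1, by positivity, fun x y => ?_⟩
  have h := hC.dist_le_mul x y
  rw [Real.dist_eq, Real.dist_eq] at h
  nlinarith [abs_nonneg (x - y)]

theorem gI_nonneg : 0 ≤ gI := MeasureTheory.integral_nonneg fun x => gB.nonneg

theorem gh_le (ξ : ℝ) : |gh ξ| ≤ gI := by
  unfold gh gI
  have hint : MeasureTheory.Integrable (fun x => gB x) := gB.continuous.integrable_of_hasCompactSupport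
    gB.hasCompactSupport
  calc |∫ x, gB x * Real.cos (2 * Real.pi * ξ * x)|
      ≤ ∫ x, |gB x * Real.cos (2 * Real.pi * ξ * x)| := MeasureTheory.abs_integral_le_integral_abs
    _ ≤ ∫ x, gB x := by
        refine MeasureTheory.integral_mono_of_nonneg (Filter.Eventually.of_forall fun _ => abs_nonneg _)
          hint (Filter.Eventually.of_forall fun x => ?_)
        simp only
        rw [abs_mul, abs_of_nonneg gB.nonneg]
        exact mul_le_of_le_one_right gB.nonneg (Real.abs_cos_le_one _)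


/-! ### algebra -/

theorem aq_eq (d k u v : ℕ) (hd : 1 ≤ d) :
    aq d k u v = √((u : ℝ) * v) * ((k : ℝ) - k0 d u v) - (d : ℝ) ^ 2 * ((k : ℝ) - k0 d u v) ^ 2 := by
  unfold aq k0
  have hd0 : (d : ℝ) ≠ 0 := by positivity
  have hu : (0 : ℝ) ≤ u := by positivity
  have hv : (0 : ℝ) ≤ v := by positivity
  rw [Real.sqrt_mul hu]
  have h1 := Real.sq_sqrt hu
  have h2 := Real.sq_sqrt hv
  set x := √(u : ℝ)
  set y := √(v : ℝ)
  rw [← h1, ← h2]
  field_simp
  ring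

theorem k0_nonneg (d u v : ℕ) : 0 ≤ k0 d u v := by unfold k0; positivity

/-- if `|aq| ≤ 2A` and `k ≤ 5K/2` then `k` is close to `k0` -/
theorem close_of_aq {K L A : ℝ} {d k u v : ℕ} (hd : 1 ≤ d) (hL : 1 ≤ L) (hK : 1 ≤ K)
    (hdd : (d : ℝ) ^ 2 ≤ L / (16 * K)) (hu : L ≤ u) (hv : L ≤ v) (hk : (k : ℝ) ≤ 5 / 2 * K)
    (h : |aq d k u v| ≤ 2 * A) : |(k : ℝ) - k0 d u v| ≤ 3 * A / L := by
  rw [aq_eq d k u v hd] at h
  set t := (k : ℝ) - k0 d u v
  have ht : t ≤ 5 / 2 * K := by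
    have := k0_nonneg d u v
    have : t ≤ k := by simp only [t]; linarith
    linarith
  have hxy : L ≤ √((u : ℝ) * v) := by
    apply Real.le_sqrt_of_sq_le
    nlinarith
  have hdt : (d : ℝ) ^ 2 * t ≤ 5 / 32 * L := by
    rcases le_or_gt t 0 with h0 | h0
    · have : (d : ℝ) ^ 2 * t ≤ 0 := mul_nonpos_of_nonneg_of_nonpos (by positivity) h0
      linarith
    · calc (d : ℝ) ^ 2 * t ≤ L / (16 * K) * (5 / 2 * K) := by
            apply mul_le_mul hdd ht h0.le (by positivity)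
        _ = 5 / 32 * L := by field_simp; norm_num
  have hfac : √((u : ℝ) * v) * t - (d : ℝ) ^ 2 * t ^ 2 = t * (√((u : ℝ) * v) - (d : ℝ) ^ 2 * t) := by
    ring
  rw [hfac, abs_mul] at h
  have h3 : 27 / 32 * L ≤ |√((u : ℝ) * v) - (d : ℝ) ^ 2 * t| := by
    refine le_trans ?_ (le_abs_self _)
    linarith
  have h4 : |t| * (27 / 32 * L) ≤ 2 * A := le_trans (mul_le_mul_of_nonneg_left h3 (abs_nonneg _)) h
  rw [le_div_iff₀ (by linarith)]
  nlinarith [abs_nonneg t]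

/-- the numbers `√(uv)` and `√(cc')` -/
theorem sqrt_prod_diff {L δ u v c c' : ℝ} (hL : 1 ≤ L) (hδ : 0 < δ) (hδ' : δ ≤ 1 / 8)
    (hu : L ≤ u) (hu' : u ≤ 5 / 4 * L) (hv : L ≤ v) (hv' : v ≤ 5 / 4 * L)
    (hc : c ≤ u) (hc1 : u ≤ c + δ * L) (hc' : c' ≤ v) (hc1' : v ≤ c' + δ * L) :
    |√(u * v) - √(c * c')| ≤ 3 * δ * L ∧ L / 2 ≤ √(c * c') ∧ √(c * c') ≤ 5 / 4 * L := by
  have hc0 : 7 / 8 * L ≤ c := by nlinarith
  have hc0' : 7 / 8 * L ≤ c' := by nlinarith
  have h1 : 7 / 8 * L ≤ √(c * c') := by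
    apply Real.le_sqrt_of_sq_le
    nlinarith
  have h2 : L ≤ √(u * v) := by
    apply Real.le_sqrt_of_sq_le
    nlinarith
  have h3 : √(c * c') ≤ √(u * v) := Real.sqrt_le_sqrt (by nlinarith)
  have h4 : √(u * v) ≤ 5 / 4 * L := by
    apply Real.sqrt_le_iff.mpr
    constructor
    · linarith
    · nlinarith
  refine ⟨?_, by linarith, by linarith⟩
  rw [abs_of_nonneg (by linarith)]
  have h5 : (√(u * v) - √(c * c')) * (√(u * v) + √(c * c')) = u * v - c * c' := by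
    have ha := Real.sq_sqrt (show 0 ≤ u * v by nlinarith)
    have hb := Real.sq_sqrt (show 0 ≤ c * c' by nlinarith)
    nlinarith
  have h6 : u * v - c * c' ≤ 5 / 2 * L * (δ * L) := by
    have : u * v - c * c' = u * (v - c') + c' * (u - c) := by ring
    rw [this]
    have h7 : u * (v - c') ≤ 5 / 4 * L * (δ * L) := by
      apply mul_le_mul hu' (by linarith) (by linarith) (by linarith)
    have h8 : c' * (u - c) ≤ 5 / 4 * L * (δ * L) := by
      apply mul_le_mul (by linarith) (by linarith) (by linarith) (by linarith)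
    linarith
  have h9 : (√(u * v) - √(c * c')) * (15 / 8 * L) ≤ 5 / 2 * L * (δ * L) := by
    refine le_trans ?_ (h5.le.trans h6)
    apply mul_le_mul_of_nonneg_left (by linarith) (by linarith)
  have hLp : 0 < L := by linarith
  have h10 : (√(u * v) - √(c * c')) * 15 ≤ 20 * (δ * L) := by
    have : L * ((√(u * v) - √(c * c')) * 15) ≤ L * (20 * (δ * L)) := by nlinarith
    exact le_of_mul_le_mul_left this hLp
  have : 0 < δ * L := by positivity
  linarith

/-- `(√c' - √c)²/(4d²)` -/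
def kc (d : ℕ) (c c' : ℝ) : ℝ := (√c' - √c) ^ 2 / (4 * (d : ℝ) ^ 2)

theorem k0_eq_kc (d u v : ℕ) : k0 d u v = kc d u v := rfl

theorem sqrt_near {L δ u c : ℝ} (hL : 1 ≤ L) (hδ' : 0 < δ) (hu : L ≤ u)
    (hc : c ≤ u) (hc1 : u ≤ c + δ * L) (hc0 : 0 ≤ c) : |√u - √c| ≤ δ * √L := by
  have h1 : √L ≤ √u := Real.sqrt_le_sqrt hu
  have h2 : √c ≤ √u := Real.sqrt_le_sqrt hc
  have hL0 : 0 < √L := Real.sqrt_pos.mpr (by linarith)
  rw [abs_of_nonneg (by linarith)]
  have h3 : (√u - √c) * (√u + √c) = u - c := by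
    have ha := Real.sq_sqrt (show 0 ≤ u by linarith)
    have hb := Real.sq_sqrt hc0
    nlinarith
  have h4 : (√u - √c) * √L ≤ δ * √L * √L := by
    have hLL : √L * √L = L := Real.mul_self_sqrt (by linarith)
    calc (√u - √c) * √L ≤ (√u - √c) * (√u + √c) := by
          apply mul_le_mul_of_nonneg_left _ (by linarith)
          have := Real.sqrt_nonneg c
          linarith
      _ = u - c := h3
      _ ≤ δ * L := by linarith
      _ = δ * √L * √L := by rw [mul_assoc, hLL]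
  exact le_of_mul_le_mul_right h4 hL0

theorem kc_near {K L δ ε u v c c' : ℝ} {d : ℕ} (hd : 1 ≤ d) (hL : 1 ≤ L) (hK : 1 ≤ K)
    (hδ : 0 < δ) (hε : ε ≤ 1) (hδε : √L * δ ≤ d * √K * ε)
    (hu : L ≤ u) (hv : L ≤ v) (hc0 : 0 ≤ c) (hc0' : 0 ≤ c')
    (hc : c ≤ u) (hc1 : u ≤ c + δ * L) (hc' : c' ≤ v) (hc1' : v ≤ c' + δ * L)
    (h3 : kc d u v ≤ 3 * K ∨ kc d c c' ≤ 3 * K) : |kc d u v - kc d c c'| ≤ 6 * K * ε := by
  have hd0 : (0 : ℝ) < d := by positivity
  have hK0 : 0 < √K := Real.sqrt_pos.mpr (by linarith)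
  have hKK : √K * √K = K := Real.mul_self_sqrt (by linarith)
  have h1 := sqrt_near hL hδ hu hc hc1 hc0
  have h2 := sqrt_near hL hδ hv hc' hc1' hc0'
  set p := √v - √u with hp
  set q := √c' - √c with hq
  have hpq : |p - q| ≤ 2 * (d * √K * ε) := by
    have : p - q = (√v - √c') - (√u - √c) := by simp only [hp, hq]; ring
    rw [this]
    calc |(√v - √c') - (√u - √c)| ≤ |√v - √c'| + |√u - √c| := abs_sub _ _
      _ ≤ δ * √L + δ * √L := add_le_add h2 h1
      _ ≤ 2 * (d * √K * ε) := by linarith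
  have hε0 : 0 ≤ ε := by
    have h4 : 0 ≤ d * √K * ε := le_trans (by positivity) hδε
    by_contra hcon
    push Not at hcon
    have : d * √K * ε < 0 := mul_neg_of_pos_of_neg (by positivity) hcon
    linarith
  have hsq : ∀ r : ℝ, r ^ 2 / (4 * (d : ℝ) ^ 2) ≤ 3 * K → |r| ≤ 4 * (d * √K) := by
    intro r hr
    rw [div_le_iff₀ (by positivity)] at hr
    apply abs_le_of_sq_le_sq _ (by positivity)
    nlinarith [mul_pos hd0 hd0]
  have hsum : |p + q| ≤ 10 * (d * √K) := by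
    have hde : d * √K * ε ≤ d * √K := by
      have : d * √K * ε ≤ d * √K * 1 := mul_le_mul_of_nonneg_left hε (by positivity)
      linarith
    rcases h3 with h3 | h3
    · have h5 := hsq p h3
      have : p + q = 2 * p - (p - q) := by ring
      rw [this]
      calc |2 * p - (p - q)| ≤ |2 * p| + |p - q| := abs_sub _ _
        _ = 2 * |p| + |p - q| := by rw [abs_mul]; norm_num
        _ ≤ 10 * (d * √K) := by linarith
    · have h5 := hsq q h3
      have : p + q = 2 * q + (p - q) := by ring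
      rw [this]
      calc |2 * q + (p - q)| ≤ |2 * q| + |p - q| := abs_add_le _ _
        _ = 2 * |q| + |p - q| := by rw [abs_mul]; norm_num
        _ ≤ 10 * (d * √K) := by linarith
  have heq : kc d u v - kc d c c' = (p - q) * (p + q) / (4 * (d : ℝ) ^ 2) := by
    unfold kc
    rw [← hp, ← hq]
    ring
  rw [heq, abs_div, abs_mul, abs_of_pos (show 0 < 4 * (d : ℝ) ^ 2 by positivity),
    div_le_iff₀ (by positivity)]
  calc |p - q| * |p + q| ≤ (2 * (d * √K * ε)) * (10 * (d * √K)) :=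
        mul_le_mul hpq hsum (abs_nonneg _) (by positivity)
    _ = 20 * (d : ℝ) ^ 2 * (√K * √K) * ε := by ring
    _ ≤ 6 * K * ε * (4 * (d : ℝ) ^ 2) := by
        rw [hKK]
        have : 0 ≤ (d : ℝ) ^ 2 * K * ε := by positivity
        linarith


theorem touched {K L A δ ε Lk Lg c c' : ℝ} {d k u v : ℕ} (hd : 1 ≤ d) (hL : 1 ≤ L) (hK : 1 ≤ K)
    (hA : 1 ≤ A) (hdd : (d : ℝ) ^ 2 ≤ L / (16 * K)) (hδ : 0 < δ) (hδ' : δ ≤ 1 / 8)
    (hε : ε ≤ 1 / 100) (hδε' : δ ≤ ε) (hAT : A ≤ ε * (K * L)) (hδε : √L * δ ≤ d * √K * ε)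
    (hu : L ≤ u) (hu' : (u : ℝ) ≤ 5 / 4 * L) (hv : L ≤ v) (hv' : (v : ℝ) ≤ 5 / 4 * L)
    (hc0 : 0 ≤ c) (hc0' : 0 ≤ c')
    (hc : c ≤ u) (hc1 : (u : ℝ) ≤ c + δ * L) (hc' : c' ≤ v) (hc1' : (v : ℝ) ≤ c' + δ * L)
    (hLk : 0 ≤ Lk) (hLg : 0 ≤ Lg) (hkB : ∀ x y : ℝ, |kB x - kB y| ≤ Lk * |x - y|)
    (hgB : ∀ x y : ℝ, |gB x - gB y| ≤ Lg * |x - y|)
    (hne : kB ((k : ℝ) / K) * gB (aq d k u v / A) ≠
      kB (kc d c c' / K) * gB (√(c * c') / A * ((k : ℝ) - k0 d u v))) :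
    |aq d k u v| ≤ 4 * A ∧
    |kB ((k : ℝ) / K) * gB (aq d k u v / A) -
      kB (kc d c c' / K) * gB (√(c * c') / A * ((k : ℝ) - k0 d u v))| ≤ (10 * Lk + 13 * Lg) * ε := by
  have hLp : 0 < L := by linarith
  have hKp : 0 < K := by linarith
  have hAp : 0 < A := by linarith
  have hεp : 0 < ε := by linarith
  have hAL : A / L ≤ ε * K := by
    rw [div_le_iff₀ hLp]
    linarith
  obtain ⟨hs1, hs2, hs3⟩ := sqrt_prod_diff hL hδ hδ' hu hu' hv hv' hc hc1 hc' hc1'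
  set X1 := kB ((k : ℝ) / K) * gB (aq d k u v / A) with hX1
  set X2 := kB (kc d c c' / K) * gB (√(c * c') / A * ((k : ℝ) - k0 d u v)) with hX2
  have hor : (X1 ≠ 0) ∨ (X2 ≠ 0) := by
    by_contra hcon
    push Not at hcon
    exact hne (by rw [hcon.1, hcon.2])
  -- closeness
  have hclose : |(k : ℝ) - k0 d u v| ≤ 4 * A / L ∧ (kc d u v ≤ 3 * K ∨ kc d c c' ≤ 3 * K) ∧
      (|aq d k u v| ≤ 2 * A ∨ √(c * c') * |(k : ℝ) - k0 d u v| ≤ 2 * A) := by
    rcases hor with h | h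
    · have h1 : kB ((k : ℝ) / K) ≠ 0 := left_ne_zero_of_mul h
      have h2 : gB (aq d k u v / A) ≠ 0 := right_ne_zero_of_mul h
      have h3 := (kB_supp h1).2
      rw [div_lt_iff₀ hKp] at h3
      have h4 := gB_supp h2
      rw [abs_div, abs_of_pos hAp, div_lt_iff₀ hAp] at h4
      have h5 := close_of_aq hd hL hK hdd hu hv h3.le h4.le
      refine ⟨h5.trans ?_, Or.inl ?_, Or.inl h4.le⟩
      · gcongr
        norm_num
      · have h6 : k0 d u v ≤ k + 3 * A / L := by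
          have := (abs_le.mp h5).1
          linarith
        have h7 : 3 * A / L = 3 * (A / L) := by ring
        rw [k0_eq_kc] at h6
        nlinarith
    · have h1 : kB (kc d c c' / K) ≠ 0 := left_ne_zero_of_mul h
      have h2 := gB_supp (right_ne_zero_of_mul h)
      have h3 := (kB_supp h1).2
      rw [div_lt_iff₀ hKp] at h3
      rw [div_mul_eq_mul_div, abs_div, abs_of_pos hAp, div_lt_iff₀ hAp, abs_mul,
        abs_of_nonneg (Real.sqrt_nonneg _)] at h2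
      refine ⟨?_, Or.inr (by linarith), Or.inr h2.le⟩
      rw [le_div_iff₀ hLp]
      have : |(k : ℝ) - k0 d u v| * (L / 2) ≤ √(c * c') * |(k : ℝ) - k0 d u v| := by
        rw [mul_comm (√(c * c'))]
        exact mul_le_mul_of_nonneg_left hs2 (abs_nonneg _)
      linarith
  obtain ⟨hcl, h3K, hlast⟩ := hclose
  have hkn := kc_near hd hL hK hδ (by linarith) hδε hu hv hc0 hc0' hc hc1 hc' hc1' h3K
  set t := (k : ℝ) - k0 d u v with ht
  -- the difference of the arguments of gB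
  have hg : |aq d k u v - √(c * c') * t| ≤ 13 * ε * A := by
    rw [aq_eq d k u v hd, ← ht]
    have : √((u : ℝ) * v) * t - (d : ℝ) ^ 2 * t ^ 2 - √(c * c') * t =
        (√((u : ℝ) * v) - √(c * c')) * t - (d : ℝ) ^ 2 * t ^ 2 := by ring
    rw [this]
    have h1 : |(√((u : ℝ) * v) - √(c * c')) * t| ≤ 3 * δ * L * (4 * A / L) := by
      rw [abs_mul]
      exact mul_le_mul hs1 hcl (abs_nonneg _) (by positivity)
    have h2 : |(d : ℝ) ^ 2 * t ^ 2| ≤ L / (16 * K) * (4 * A / L) ^ 2 := by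
      have hsq : t ^ 2 ≤ (4 * A / L) ^ 2 := by
        rw [← sq_abs t]
        exact pow_le_pow_left₀ (abs_nonneg _) hcl 2
      rw [abs_of_nonneg (mul_nonneg (sq_nonneg (d : ℝ)) (sq_nonneg t))]
      exact mul_le_mul hdd hsq (sq_nonneg _) (by positivity)
    have h3 : 3 * δ * L * (4 * A / L) = 12 * δ * A := by field_simp; norm_num
    have h4 : L / (16 * K) * (4 * A / L) ^ 2 = A * (A / L) / K := by field_simp; norm_num
    have h5 : A * (A / L) / K ≤ ε * A := by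
      rw [div_le_iff₀ hKp]
      nlinarith
    calc |(√((u : ℝ) * v) - √(c * c')) * t - (d : ℝ) ^ 2 * t ^ 2|
        ≤ |(√((u : ℝ) * v) - √(c * c')) * t| + |(d : ℝ) ^ 2 * t ^ 2| := abs_sub _ _
      _ ≤ 12 * δ * A + ε * A := by rw [h3] at h1; rw [h4] at h2; linarith
      _ ≤ 13 * ε * A := by nlinarith
  constructor
  · rcases hlast with h | h
    · linarith
    · have : |aq d k u v| ≤ |aq d k u v - √(c * c') * t| + |√(c * c') * t| := by
        have := abs_add_le (aq d k u v - √(c * c') * t) (√(c * c') * t)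
        simpa using this
      rw [abs_mul (√(c * c')), abs_of_nonneg (Real.sqrt_nonneg _)] at this
      nlinarith
  · have e1 : X1 - X2 = (kB ((k : ℝ) / K) - kB (kc d c c' / K)) * gB (aq d k u v / A)
        + kB (kc d c c' / K) * (gB (aq d k u v / A) - gB (√(c * c') / A * t)) := by
      simp only [hX1, hX2]
      ring
    rw [e1]
    have h1 : |(k : ℝ) / K - kc d c c' / K| ≤ 10 * ε := by
      rw [← sub_div, abs_div, abs_of_pos hKp, div_le_iff₀ hKp]
      have : (k : ℝ) - kc d c c' = t + (kc d u v - kc d c c') := by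
        simp only [ht, k0_eq_kc]; ring
      rw [this]
      have h4 : 4 * A / L = 4 * (A / L) := by ring
      calc |t + (kc d u v - kc d c c')| ≤ |t| + |kc d u v - kc d c c'| := abs_add_le _ _
        _ ≤ 4 * (A / L) + 6 * K * ε := by linarith
        _ ≤ 10 * ε * K := by linarith
    have h2 : |aq d k u v / A - √(c * c') / A * t| ≤ 13 * ε := by
      have : aq d k u v / A - √(c * c') / A * t = (aq d k u v - √(c * c') * t) / A := by ring
      rw [this, abs_div, abs_of_pos hAp, div_le_iff₀ hAp]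
      exact hg
    calc |(kB ((k : ℝ) / K) - kB (kc d c c' / K)) * gB (aq d k u v / A)
        + kB (kc d c c' / K) * (gB (aq d k u v / A) - gB (√(c * c') / A * t))|
        ≤ |(kB ((k : ℝ) / K) - kB (kc d c c' / K)) * gB (aq d k u v / A)|
          + |kB (kc d c c' / K) * (gB (aq d k u v / A) - gB (√(c * c') / A * t))| := abs_add_le _ _
      _ ≤ Lk * (10 * ε) * 1 + 1 * (Lg * (13 * ε)) := by
          rw [abs_mul, abs_mul]
          apply add_le_add
          · apply mul_le_mul ((hkB _ _).trans (mul_le_mul_of_nonneg_left h1 hLk)) _ (abs_nonneg _)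
              (by positivity)
            rw [abs_of_nonneg (gB_nonneg _)]
            exact gB_le_one _
          · apply mul_le_mul _ ((hgB _ _).trans (mul_le_mul_of_nonneg_left h2 hLg)) (abs_nonneg _)
              (by norm_num)
            rw [abs_of_nonneg (kB_nonneg _)]
            exact kB_le_one _
      _ = (10 * Lk + 13 * Lg) * ε := by ring


/-- the common hypotheses -/
structure Ctx (K L A δ ε : ℝ) (d D : ℕ) : Prop where
  hd : 1 ≤ d
  hD : Odd D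
  hL : 1 ≤ L
  hK : 1 ≤ K
  hA : 1 ≤ A
  hdM : (d : ℝ) ≤ √(L / K) / 4
  hδ : 0 < δ
  hδ' : δ ≤ 1 / 8
  hε : ε ≤ 1 / 100
  hδε' : δ ≤ ε
  hAT : A ≤ ε * (K * L)
  hδε : √L * δ ≤ d * √K * ε

theorem Ctx.hdd {K L A δ ε : ℝ} {d D : ℕ} (h : Ctx K L A δ ε d D) :
    (d : ℝ) ^ 2 ≤ L / (16 * K) := by
  have h1 : (0 : ℝ) ≤ L / K := div_nonneg (by linarith [h.hL]) (by linarith [h.hK])
  have h2 : (d : ℝ) ^ 2 ≤ (√(L / K) / 4) ^ 2 := pow_le_pow_left₀ (by positivity) h.hdM 2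
  rw [div_pow, Real.sq_sqrt h1] at h2
  calc (d : ℝ) ^ 2 ≤ L / K / 4 ^ 2 := h2
    _ = L / (16 * K) := by rw [div_div]; ring_nf

/-- the box of `u` -/
def bx (W : ℝ) (u : ℕ) : ℕ := ⌊(u : ℝ) / W⌋₊

/-- the left endpoint of the box of `u` -/
def cx (W : ℝ) (u : ℕ) : ℝ := bx W u * W

theorem cx_le {W : ℝ} (hW : 0 < W) (u : ℕ) : cx W u ≤ u := by
  unfold cx bx
  have := Nat.floor_le (show 0 ≤ (u : ℝ) / W by positivity)
  calc (⌊(u : ℝ) / W⌋₊ : ℝ) * W ≤ (u : ℝ) / W * W := mul_le_mul_of_nonneg_right this hW.le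
    _ = u := by field_simp

theorem lt_cx {W : ℝ} (hW : 0 < W) (u : ℕ) : (u : ℝ) < cx W u + W := by
  unfold cx bx
  have := Nat.lt_floor_add_one ((u : ℝ) / W)
  calc (u : ℝ) = (u : ℝ) / W * W := by field_simp
    _ < (⌊(u : ℝ) / W⌋₊ + 1) * W := mul_lt_mul_of_pos_right this hW
    _ = (⌊(u : ℝ) / W⌋₊ : ℝ) * W + W := by ring

theorem cx_nonneg {W : ℝ} (hW : 0 < W) (u : ℕ) : 0 ≤ cx W u := by unfold cx; positivity

theorem mem_prs {L : ℝ} {d : ℕ} {x : ℕ × ℕ} (hx : x ∈ prs L d) :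
    L ≤ x.1 ∧ (x.1 : ℝ) ≤ 5 / 4 * L ∧ L ≤ x.2 ∧ (x.2 : ℝ) ≤ 5 / 4 * L ∧ x.1 < x.2 ∧
      4 * d ∣ x.2 - x.1 := by
  unfold prs at hx
  rw [mem_filter, mem_product, mem_Ioc, mem_Ioc] at hx
  obtain ⟨⟨⟨h1, h2⟩, h3, h4⟩, h5, h6⟩ := hx
  have e1 := (Nat.floor_lt' (by omega)).mp h1
  have e3 := (Nat.floor_lt' (by omega)).mp h3
  have e2 := (Nat.le_floor_iff' (by omega)).mp h2
  have e4 := (Nat.le_floor_iff' (by omega)).mp h4
  exact ⟨e1.le, e2, e3.le, e4, h5, h6⟩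

/-- `kB(κ)`, `κ` from the boxes -/
def kk (K W : ℝ) (d : ℕ) (x : ℕ × ℕ) : ℝ := kB (kc d (cx W x.1) (cx W x.2) / K)

/-- `λ` from the boxes -/
def la (A W : ℝ) (x : ℕ × ℕ) : ℝ := √(cx W x.1 * cx W x.2) / A

def KS (K : ℝ) (D : ℕ) : Finset ℕ := (Icc 1 ⌊4 * K⌋₊).filter (fun k => Odd k ∧ D ∣ k)

theorem Sd_eq (K L A : ℝ) (d D : ℕ) (b : ℕ → ℝ) (hK : 1 ≤ K) : Sd K L A d D b =
    ∑ k ∈ KS K D, ∑ x ∈ prs L d, b x.1 * b x.2 * (kB ((k : ℝ) / K) * gB (aq d k x.1 x.2 / A)) := by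
  unfold Sd
  have h1 : ∀ k : ℕ, kB ((k : ℝ) / K) * ∑ x ∈ prs L d, b x.1 * b x.2 * gB (aq d k x.1 x.2 / A) =
      ∑ x ∈ prs L d, b x.1 * b x.2 * (kB ((k : ℝ) / K) * gB (aq d k x.1 x.2 / A)) := by
    intro k
    rw [mul_sum]
    exact sum_congr rfl fun x _ => by ring
  simp_rw [h1]
  apply sum_subset
  · intro k hk
    unfold KS
    rw [mem_filter, mem_Icc] at hk ⊢
    refine ⟨⟨hk.1.1, hk.1.2.trans (Nat.floor_le_floor (by linarith))⟩, hk.2⟩
  · intro k hk hk'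
    unfold KS at hk
    rw [mem_filter, mem_Icc] at hk hk'
    have h2 : ⌊5 / 2 * K⌋₊ < k := by
      by_contra hcon
      exact hk' ⟨⟨hk.1.1, by omega⟩, hk.2⟩
    have h3 := (Nat.floor_lt' (by omega)).mp h2
    have h4 : kB ((k : ℝ) / K) = 0 := by
      by_contra hne
      have h5 := (kB_supp hne).2
      rw [div_lt_iff₀ (by linarith)] at h5
      linarith
    simp [h4]

theorem step1 {K L A δ ε Lk Lg : ℝ} {d D : ℕ} (h : Ctx K L A δ ε d D)
    (hLk : 0 ≤ Lk) (hLg : 0 ≤ Lg) (hkB : ∀ x y : ℝ, |kB x - kB y| ≤ Lk * |x - y|)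
    (hgB : ∀ x y : ℝ, |gB x - gB y| ≤ Lg * |x - y|)
    (b : ℕ → ℝ) (hb : ∀ u, |b u| ≤ 1) (hodd : ∀ u, b u ≠ 0 → Odd u) :
    |Sd K L A d D b - ∑ k ∈ KS K D, ∑ x ∈ prs L d, b x.1 * b x.2 *
        (kk K (δ * L) d x * gB (la A (δ * L) x * ((k : ℝ) - k0 d x.1 x.2)))|
      ≤ ((((Icc 1 ⌊4 * K⌋₊) ×ˢ (prs L d)).filter (fun t => Odd t.2.1 ∧ Odd t.2.2 ∧
        |aq d t.1 t.2.1 t.2.2| ≤ 4 * A)).card : ℝ) * ((10 * Lk + 13 * Lg) * ε) := by
  have hLp : 0 < L := by linarith [h.hL]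
  have hW : 0 < δ * L := mul_pos h.hδ hLp
  have hε0 : 0 < ε := lt_of_lt_of_le h.hδ h.hδε'
  rw [Sd_eq K L A d D b h.hK, ← sum_sub_distrib]
  have e1 : ∀ k ∈ KS K D, (∑ x ∈ prs L d, b x.1 * b x.2 *
        (kB ((k : ℝ) / K) * gB (aq d k x.1 x.2 / A)) - ∑ x ∈ prs L d, b x.1 * b x.2 *
        (kk K (δ * L) d x * gB (la A (δ * L) x * ((k : ℝ) - k0 d x.1 x.2)))) =
      ∑ x ∈ prs L d, b x.1 * b x.2 * ((kB ((k : ℝ) / K) * gB (aq d k x.1 x.2 / A)) -
        (kk K (δ * L) d x * gB (la A (δ * L) x * ((k : ℝ) - k0 d x.1 x.2)))) := by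
    intro k _
    rw [← sum_sub_distrib]
    exact sum_congr rfl fun x _ => by ring
  rw [sum_congr rfl e1]
  calc |∑ k ∈ KS K D, ∑ x ∈ prs L d, b x.1 * b x.2 * ((kB ((k : ℝ) / K) * gB (aq d k x.1 x.2 / A)) -
        (kk K (δ * L) d x * gB (la A (δ * L) x * ((k : ℝ) - k0 d x.1 x.2))))|
      ≤ ∑ k ∈ KS K D, ∑ x ∈ prs L d, |b x.1 * b x.2 * ((kB ((k : ℝ) / K) * gB (aq d k x.1 x.2 / A)) -
        (kk K (δ * L) d x * gB (la A (δ * L) x * ((k : ℝ) - k0 d x.1 x.2))))| :=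
        (abs_sum_le_sum_abs _ _).trans (sum_le_sum fun k _ => abs_sum_le_sum_abs _ _)
    _ ≤ ∑ k ∈ KS K D, ∑ x ∈ prs L d, if (Odd x.1 ∧ Odd x.2 ∧ |aq d k x.1 x.2| ≤ 4 * A) then
          (10 * Lk + 13 * Lg) * ε else 0 := by
        refine sum_le_sum fun k _ => sum_le_sum fun x hx => ?_
        obtain ⟨m1, m2, m3, m4, m5, m6⟩ := mem_prs hx
        by_cases hne : (kB ((k : ℝ) / K) * gB (aq d k x.1 x.2 / A)) =
            (kk K (δ * L) d x * gB (la A (δ * L) x * ((k : ℝ) - k0 d x.1 x.2)))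
        · rw [hne, sub_self, mul_zero, abs_zero]
          split_ifs <;> positivity
        by_cases hb0 : b x.1 * b x.2 = 0
        · rw [hb0, zero_mul, abs_zero]
          split_ifs <;> positivity
        have ht := touched (K := K) (L := L) (A := A) (δ := δ) (ε := ε) (Lk := Lk) (Lg := Lg)
          (c := cx (δ * L) x.1) (c' := cx (δ * L) x.2) (d := d) (k := k) (u := x.1) (v := x.2)
          h.hd h.hL h.hK h.hA h.hdd h.hδ h.hδ' h.hε h.hδε' h.hAT h.hδε m1 m2 m3 m4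
          (cx_nonneg hW _) (cx_nonneg hW _) (cx_le hW _) (lt_cx hW _).le (cx_le hW _) (lt_cx hW _).le
          hLk hLg hkB hgB hne
        rw [if_pos ⟨hodd _ (left_ne_zero_of_mul hb0), hodd _ (right_ne_zero_of_mul hb0), ht.1⟩,
          abs_mul, abs_mul]
        calc |b x.1| * |b x.2| * _ ≤ 1 * 1 * ((10 * Lk + 13 * Lg) * ε) := by
              apply mul_le_mul _ ht.2 (abs_nonneg _) (by norm_num)
              exact mul_le_mul (hb _) (hb _) (abs_nonneg _) (by norm_num)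
          _ = (10 * Lk + 13 * Lg) * ε := by ring
    _ ≤ ∑ k ∈ Icc 1 ⌊4 * K⌋₊, ∑ x ∈ prs L d, if (Odd x.1 ∧ Odd x.2 ∧ |aq d k x.1 x.2| ≤ 4 * A) then
          (10 * Lk + 13 * Lg) * ε else 0 := by
        apply sum_le_sum_of_subset_of_nonneg
        · exact filter_subset _ _
        · intro k _ _
          apply sum_nonneg
          intro x _
          split_ifs <;> positivity
    _ = ((((Icc 1 ⌊4 * K⌋₊) ×ˢ (prs L d)).filter (fun t => Odd t.2.1 ∧ Odd t.2.2 ∧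
        |aq d t.1 t.2.1 t.2.2| ≤ 4 * A)).card : ℝ) * ((10 * Lk + 13 * Lg) * ε) := by
        rw [← sum_product', ← sum_filter, sum_const, nsmul_eq_mul]


theorem la_bounds {K L A δ ε : ℝ} {d D : ℕ} (h : Ctx K L A δ ε d D) {x : ℕ × ℕ}
    (hx : x ∈ prs L d) : |√((x.1 : ℝ) * x.2) - √(cx (δ * L) x.1 * cx (δ * L) x.2)| ≤ 3 * δ * L ∧
      L / 2 ≤ √(cx (δ * L) x.1 * cx (δ * L) x.2) ∧ √(cx (δ * L) x.1 * cx (δ * L) x.2) ≤ 5 / 4 * L := by
  have hLp : 0 < L := by linarith [h.hL]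
  have hW : 0 < δ * L := mul_pos h.hδ hLp
  obtain ⟨m1, m2, m3, m4, m5, m6⟩ := mem_prs hx
  exact sqrt_prod_diff h.hL h.hδ h.hδ' m1 m2 m3 m4 (cx_le hW _) (lt_cx hW _).le (cx_le hW _)
    (lt_cx hW _).le

theorem la_le {K L A δ ε : ℝ} {d D : ℕ} (h : Ctx K L A δ ε d D) {x : ℕ × ℕ}
    (hx : x ∈ prs L d) : L / (2 * A) ≤ la A (δ * L) x ∧ la A (δ * L) x ≤ 5 / 4 * L / A := by
  obtain ⟨h1, h2, h3⟩ := la_bounds h hx
  have hA : 0 < A := by linarith [h.hA]
  unfold la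
  constructor
  · rw [← div_div]
    exact div_le_div_of_nonneg_right h2 hA.le
  · exact div_le_div_of_nonneg_right h3 hA.le

theorem near_kk {K L A δ ε : ℝ} {d D : ℕ} (h : Ctx K L A δ ε d D) {x : ℕ × ℕ}
    (hx : x ∈ prs L d) (h3 : k0 d x.1 x.2 ≤ 3 * K ∨ kc d (cx (δ * L) x.1) (cx (δ * L) x.2) ≤ 3 * K) :
    |k0 d x.1 x.2 - kc d (cx (δ * L) x.1) (cx (δ * L) x.2)| ≤ 6 * K * ε := by
  have hLp : 0 < L := by linarith [h.hL]
  have hW : 0 < δ * L := mul_pos h.hδ hLp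
  obtain ⟨m1, m2, m3, m4, m5, m6⟩ := mem_prs hx
  exact kc_near h.hd h.hL h.hK h.hδ (by linarith [h.hε]) h.hδε m1 m3 (cx_nonneg hW _)
    (cx_nonneg hW _) (cx_le hW _) (lt_cx hW _).le (cx_le hW _) (lt_cx hW _).le h3

theorem range_y {K L A δ ε : ℝ} {d D : ℕ} (h : Ctx K L A δ ε d D) {x : ℕ × ℕ}
    (hx : x ∈ prs L d) (hk : kk K (δ * L) d x ≠ 0) {y : ℝ}
    (hy : gB (la A (δ * L) x * (y - k0 d x.1 x.2)) ≠ 0) : 0 < y ∧ y ≤ 4 * K := by
  have hKp : 0 < K := by linarith [h.hK]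
  have hLp : 0 < L := by linarith [h.hL]
  have hAp : 0 < A := by linarith [h.hA]
  obtain ⟨h1, h2⟩ := kB_supp hk
  rw [lt_div_iff₀ hKp] at h1
  rw [div_lt_iff₀ hKp] at h2
  have h3 := abs_le.mp (near_kk h hx (Or.inr (by linarith)))
  obtain ⟨h4, h5⟩ := la_le h hx
  have h6 := gB_supp hy
  have h7 : 0 < la A (δ * L) x := lt_of_lt_of_le (by positivity) h4
  rw [abs_mul, abs_of_pos h7] at h6
  have h8 : L / (2 * A) * |y - k0 d x.1 x.2| < 2 :=
    lt_of_le_of_lt (mul_le_mul_of_nonneg_right h4 (abs_nonneg _)) h6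
  have h9 : |y - k0 d x.1 x.2| < 4 * (A / L) := by
    have : L / (2 * A) * |y - k0 d x.1 x.2| * (2 * A / L) < 2 * (2 * A / L) :=
      mul_lt_mul_of_pos_right h8 (by positivity)
    have e : L / (2 * A) * |y - k0 d x.1 x.2| * (2 * A / L) = |y - k0 d x.1 x.2| := by
      field_simp
    rw [e] at this
    calc |y - k0 d x.1 x.2| < 2 * (2 * A / L) := this
      _ = 4 * (A / L) := by ring
  have h10 : A / L ≤ ε * K := by
    rw [div_le_iff₀ hLp]
    linarith [h.hAT]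
  have h11 := abs_lt.mp h9
  have h12 : K * ε ≤ K / 100 := by
    have := mul_le_mul_of_nonneg_left h.hε hKp.le
    linarith
  constructor <;> nlinarith [h11.1, h11.2, h3.1, h3.2]

theorem tsum_eq {K L A δ ε : ℝ} {d D : ℕ} (h : Ctx K L A δ ε d D) {x : ℕ × ℕ}
    (hx : x ∈ prs L d) (hk : kk K (δ * L) d x ≠ 0) :
    (∑' i : ℤ, gB (la A (δ * L) x * ((D : ℝ) * (2 * (i : ℝ) + 1) - k0 d x.1 x.2))) =
      ∑ k ∈ KS K D, gB (la A (δ * L) x * ((k : ℝ) - k0 d x.1 x.2)) := by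
  have hD1 : 1 ≤ D := h.hD.pos
  have hDr : (0 : ℝ) < D := by exact_mod_cast hD1
  set φ : ℕ → ℤ := fun k => (((k / D : ℕ) : ℤ) - 1) / 2 with hφ
  have hk1 : ∀ k ∈ KS K D, ∃ j : ℕ, k = D * (2 * j + 1) ∧ φ k = j := by
    intro k hk
    unfold KS at hk
    rw [mem_filter, mem_Icc] at hk
    obtain ⟨m, hm⟩ := hk.2.2
    have hmo : Odd m := by
      have := hk.2.1
      rw [hm, Nat.odd_mul] at this
      exact this.2
    obtain ⟨j, hj⟩ := hmo
    refine ⟨j, by rw [hm, hj], ?_⟩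
    simp only [hφ]
    rw [hm, Nat.mul_div_cancel_left _ (by omega), hj]
    push_cast
    omega
  have hinj : Set.InjOn φ (KS K D : Set ℕ) := by
    intro a ha c hc hac
    obtain ⟨j, hj, hj'⟩ := hk1 a ha
    obtain ⟨j2, hj2, hj2'⟩ := hk1 c hc
    rw [hj', hj2'] at hac
    have : j = j2 := by exact_mod_cast hac
    rw [hj, hj2, this]
  rw [tsum_eq_sum (s := (KS K D).image φ)]
  · rw [sum_image hinj]
    apply sum_congr rfl
    intro k hk
    obtain ⟨j, hj, hj'⟩ := hk1 k hk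
    rw [hj', hj]
    push_cast
    ring_nf
  · intro i hi
    by_contra hne
    obtain ⟨hy1, hy2⟩ := range_y h hx hk hne
    apply hi
    have hi0 : 0 ≤ i := by
      by_contra hneg
      have : (i : ℝ) ≤ -1 := by exact_mod_cast (show i ≤ -1 by omega)
      have h2 : (D : ℝ) * (2 * (i : ℝ) + 1) < 0 := mul_neg_of_pos_of_neg hDr (by linarith)
      linarith
    obtain ⟨j, rfl⟩ := Int.eq_ofNat_of_zero_le hi0
    rw [mem_image]
    have hmem : D * (2 * j + 1) ∈ KS K D := by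
      unfold KS
      rw [mem_filter, mem_Icc]
      refine ⟨⟨Nat.mul_pos hD1 (by omega), ?_⟩, ?_, dvd_mul_right _ _⟩
      · apply Nat.le_floor
        push_cast
        push_cast at hy2
        exact hy2
      · rw [Nat.odd_mul]
        exact ⟨h.hD, ⟨j, rfl⟩⟩
    refine ⟨_, hmem, ?_⟩
    obtain ⟨j2, hj2, hj2'⟩ := hk1 _ hmem
    rw [hj2']
    have : 2 * j + 1 = 2 * j2 + 1 := Nat.eq_of_mul_eq_mul_left (by omega) hj2
    have : j = j2 := by omega
    rw [this]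

/-- the oscillating part -/
def osc (A W : ℝ) (d D H : ℕ) (x : ℕ × ℕ) : ℝ :=
  ∑ h ∈ Icc 1 H, gh (h / (2 * D * la A W x)) * (-1) ^ h *
    Real.cos (Real.pi * h * k0 d x.1 x.2 / D)

theorem step3 {K L A δ ε C : ℝ} {d D : ℕ} (h : Ctx K L A δ ε d D) {j : ℕ} (hC : 0 < C)
    (hPOI : ∀ (lam t : ℝ) (D H : ℕ), 0 < lam → 1 ≤ D → 1 ≤ H →
      |(∑' i : ℤ, gB (lam * (D * (2 * i + 1) - t)))
      - 1 / (2 * D * lam) * (gI + 2 * ∑ h ∈ Icc 1 H,
        gh (h / (2 * D * lam)) * (-1) ^ h * Real.cos (Real.pi * h * t / D))|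
      ≤ C * (2 * D * lam) ^ (j + 1) / (H : ℝ) ^ (j + 1))
    (b : ℕ → ℝ) (hb : ∀ u, |b u| ≤ 1) {H : ℕ} (hH : 1 ≤ H) :
    |(∑ k ∈ KS K D, ∑ x ∈ prs L d, b x.1 * b x.2 *
        (kk K (δ * L) d x * gB (la A (δ * L) x * ((k : ℝ) - k0 d x.1 x.2)))) -
      ∑ x ∈ prs L d, b x.1 * b x.2 * (kk K (δ * L) d x * (1 / (2 * D * la A (δ * L) x) *
        (gI + 2 * osc A (δ * L) d D H x)))|
      ≤ (prs L d).card * (C * (2 * D * (5 / 4 * L / A)) ^ (j + 1) / (H : ℝ) ^ (j + 1)) := by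
  have hD1 : 1 ≤ D := h.hD.pos
  have hLp : 0 < L := by linarith [h.hL]
  have hAp : 0 < A := by linarith [h.hA]
  have hHp : (0 : ℝ) < H := by exact_mod_cast hH
  have hDr : (0 : ℝ) < D := by exact_mod_cast hD1
  rw [sum_comm, ← sum_sub_distrib]
  refine (abs_sum_le_sum_abs _ _).trans ?_
  rw [← nsmul_eq_mul]
  apply sum_le_card_nsmul
  intro x hx
  obtain ⟨h4, h5⟩ := la_le h hx
  have h7 : 0 < la A (δ * L) x := lt_of_lt_of_le (by positivity) h4
  have e1 : ∑ k ∈ KS K D, b x.1 * b x.2 *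
        (kk K (δ * L) d x * gB (la A (δ * L) x * ((k : ℝ) - k0 d x.1 x.2))) =
      b x.1 * b x.2 * (kk K (δ * L) d x *
        ∑ k ∈ KS K D, gB (la A (δ * L) x * ((k : ℝ) - k0 d x.1 x.2))) := by
    rw [mul_sum, mul_sum]
  rw [e1, ← mul_sub, ← mul_sub, abs_mul, abs_mul]
  have hR0 : 0 ≤ C * (2 * D * (5 / 4 * L / A)) ^ (j + 1) / (H : ℝ) ^ (j + 1) := by positivity
  by_cases hk : kk K (δ * L) d x = 0
  · rw [hk, zero_mul, abs_zero, mul_zero]
    exact hR0
  rw [← tsum_eq h hx hk, abs_mul]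
  have h8 := hPOI (la A (δ * L) x) (k0 d x.1 x.2) D H h7 hD1 hH
  have h9 : C * (2 * D * la A (δ * L) x) ^ (j + 1) / (H : ℝ) ^ (j + 1) ≤
      C * (2 * D * (5 / 4 * L / A)) ^ (j + 1) / (H : ℝ) ^ (j + 1) := by
    gcongr
  have h10 := h8.trans h9
  have hkk : |kk K (δ * L) d x| ≤ 1 := by
    unfold kk
    rw [abs_of_nonneg (kB_nonneg _)]
    exact kB_le_one _
  have hbb : |b x.1| * |b x.2| ≤ 1 := by
    calc |b x.1| * |b x.2| ≤ 1 * 1 := mul_le_mul (hb _) (hb _) (abs_nonneg _) (by norm_num)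
      _ = 1 := by norm_num
  unfold osc
  calc |b x.1| * |b x.2| * (|kk K (δ * L) d x| * _)
      ≤ 1 * (1 * (C * (2 * D * (5 / 4 * L / A)) ^ (j + 1) / (H : ℝ) ^ (j + 1))) := by
        apply mul_le_mul hbb _ (by positivity) (by norm_num)
        exact mul_le_mul hkk h10 (abs_nonneg _) (by norm_num)
    _ = _ := by ring


/-- the integers of one box -/
def SB (L W : ℝ) (i : ℕ) : Finset ℕ := (Ioc ⌊L⌋₊ ⌊5 / 4 * L⌋₊).filter (fun u => bx W u = i)

theorem bx_mono {W : ℝ} (hW : 0 < W) {u v : ℕ} (h : u ≤ v) : bx W u ≤ bx W v := by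
  unfold bx
  apply Nat.floor_le_floor
  have : (u : ℝ) ≤ v := by exact_mod_cast h
  gcongr

theorem fiber_eq {L W : ℝ} (hW : 0 < W) {d i j : ℕ} (hij : i < j) (f : ℕ → ℕ → ℝ) :
    ∑ x ∈ (prs L d).filter (fun x => (bx W x.1, bx W x.2) = (i, j)), f x.1 x.2 =
      ∑ u ∈ SB L W i, ∑ v ∈ (SB L W j).filter (fun v => v % (4 * d) = u % (4 * d)), f u v := by
  have e1 : ∀ u ∈ SB L W i, ∑ v ∈ (SB L W j).filter (fun v => v % (4 * d) = u % (4 * d)), f u v =
      ∑ v ∈ SB L W j, if v % (4 * d) = u % (4 * d) then f u v else 0 := by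
    intro u _
    rw [sum_filter]
  rw [sum_congr rfl e1, ← sum_product' (f := fun u v => if v % (4 * d) = u % (4 * d) then f u v else 0),
    ← sum_filter (s := SB L W i ×ˢ SB L W j) (p := fun x => x.2 % (4 * d) = x.1 % (4 * d))
      (f := fun x : ℕ × ℕ => f x.1 x.2)]
  apply sum_congr _ fun x _ => rfl
  ext ⟨u, v⟩
  unfold prs SB
  simp only [mem_filter, mem_product, mem_Ioc, Prod.mk.injEq]
  constructor
  · rintro ⟨⟨⟨⟨h1, h2⟩, h3, h4⟩, h5, h6⟩, h7, h8⟩
    refine ⟨⟨⟨⟨h1, h2⟩, h7⟩, ⟨h3, h4⟩, h8⟩, ?_⟩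
    have := (Nat.modEq_iff_dvd' h5.le).mpr h6
    exact this.symm
  · rintro ⟨⟨⟨⟨h1, h2⟩, h7⟩, ⟨h3, h4⟩, h8⟩, h9⟩
    have huv : u < v := by
      by_contra hcon
      have := bx_mono hW (not_lt.mp hcon)
      omega
    refine ⟨⟨⟨⟨h1, h2⟩, h3, h4⟩, huv, ?_⟩, h7, h8⟩
    exact (Nat.modEq_iff_dvd' huv.le).mp h9.symm

theorem fiber_empty {L W : ℝ} (hW : 0 < W) {d i j : ℕ} (hij : j < i) :
    (prs L d).filter (fun x => (bx W x.1, bx W x.2) = (i, j)) = ∅ := by
  apply filter_eq_empty_iff.mpr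
  intro x hx hcon
  obtain ⟨m1, m2, m3, m4, m5, m6⟩ := mem_prs hx
  have := bx_mono hW m5.le
  simp only [Prod.mk.injEq] at hcon
  omega

/-- telescoping of dyadic blocks -/
theorem sum_dyadic (f : ℕ → ℝ) (n : ℕ) :
    ∑ i ∈ range n, ∑ h ∈ Ioc (2 ^ i) (2 * 2 ^ i), f h = ∑ h ∈ Ioc 1 (2 ^ n), f h := by
  induction n with
  | zero => simp
  | succ n ih =>
    rw [sum_range_succ, ih, show 2 * 2 ^ n = 2 ^ (n + 1) by ring]
    exact sum_Ioc_consecutive f Nat.one_le_two_pow (Nat.pow_le_pow_right (by norm_num) (by omega))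

/-- the hypothesis BIL for one exponent -/
def BILh (e C : ℝ) : Prop := ∀ (L : ℝ) (d D H : ℕ) (S T : Finset ℕ) (b c w : ℕ → ℂ),
  1 ≤ L → 1 ≤ d → 1 ≤ D → 1 ≤ H → (4 * d : ℝ) ≤ √L →
  (∀ u ∈ S, L ≤ (u : ℝ) ∧ (u : ℝ) ≤ 2 * L) → (∀ v ∈ T, L ≤ (v : ℝ) ∧ (v : ℝ) ≤ 2 * L) →
  (∀ u, ‖b u‖ ≤ 1) → (∀ v, ‖c v‖ ≤ 1) → (∀ h, ‖w h‖ ≤ 1) →
  ‖∑ h ∈ Ioc H (2 * H), ∑ u ∈ S, ∑ v ∈ T.filter (fun v => v % (4 * d) = u % (4 * d)),
      w h * b u * c v * Complex.exp (2 * Real.pi * Complex.I *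
        (((h : ℝ) * (√(v : ℝ) - √(u : ℝ)) ^ 2 / (8 * D * (d : ℝ) ^ 2) : ℝ) : ℂ))‖
    ≤ C * (D : ℝ) ^ 3 * (H * L) ^ e * L * (√(H * L) + H * √(L / d) + (H : ℝ) ^ 2)

/-- the bound of BIL -/
def bil1 (e C L : ℝ) (d D H : ℕ) : ℝ :=
  C * (2 * (D : ℝ)) ^ 3 * (2 * H * L) ^ e * L * (√(2 * H * L) + 2 * H * √(L / d) + (2 * (H : ℝ)) ^ 2)

theorem bil1_nonneg {e C L : ℝ} {d D H : ℕ} (hC : 0 < C) (hL : 0 < L) : 0 ≤ bil1 e C L d D H := by
  unfold bil1
  have : 0 ≤ (2 * (H : ℝ) * L) ^ e := Real.rpow_nonneg (by positivity) _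
  positivity

theorem fiber_bound {K L A δ ε e C : ℝ} {d D : ℕ} (h : Ctx K L A δ ε d D) (he : 0 < e) (hC : 0 < C)
    (hBIL : BILh e C)
    (b g : ℕ → ℝ) (hb : ∀ u, |b u| ≤ 1) (hg : ∀ h, |g h| ≤ 1) {i j H : ℕ} (hij : i < j)
    (hH : 1 ≤ H) :
    |∑ hh ∈ Icc 1 H, g hh * ∑ x ∈ (prs L d).filter (fun x => (bx (δ * L) x.1, bx (δ * L) x.2) = (i, j)),
      b x.1 * b x.2 * Real.cos (Real.pi * hh * k0 d x.1 x.2 / D)| ≤
      (Nat.log 2 (2 * H) + 1 : ℕ) * bil1 e C L d D H := by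
  have hLp : 0 < L := by linarith [h.hL]
  have hKp : 0 < K := by linarith [h.hK]
  have hW : 0 < δ * L := mul_pos h.hδ hLp
  have hd0 : (d : ℝ) ≠ 0 := by have := h.hd; positivity
  have hD1 : 1 ≤ D := h.hD.pos
  have hD0 : (D : ℝ) ≠ 0 := by positivity
  have hmem : ∀ i : ℕ, ∀ u ∈ SB L (δ * L) i, L ≤ (u : ℝ) ∧ (u : ℝ) ≤ 2 * L := by
    intro i u hu
    unfold SB at hu
    rw [mem_filter, mem_Ioc] at hu
    obtain ⟨⟨h1, h2⟩, -⟩ := hu
    have e1 := (Nat.floor_lt' (by omega)).mp h1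
    have e2 := (Nat.le_floor_iff' (by omega)).mp h2
    exact ⟨e1.le, by linarith⟩
  have h4d : (4 * d : ℝ) ≤ √L := by
    have h1 := h.hdM
    have h2 : √(L / K) ≤ √L := Real.sqrt_le_sqrt (div_le_self hLp.le h.hK)
    linarith
  -- the weights
  set w : ℕ → ℝ := fun m => if Even m ∧ m / 2 ≤ H then g (m / 2) else 0 with hw
  have hw1 : ∀ m, |w m| ≤ 1 := by
    intro m
    simp only [hw]
    split_ifs
    · exact hg _
    · simp
  set G : ℕ → ℝ := fun m => ∑ u ∈ SB L (δ * L) i,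
    ∑ v ∈ (SB L (δ * L) j).filter (fun v => v % (4 * d) = u % (4 * d)),
      b u * b v * Real.cos (Real.pi * m * k0 d u v / (2 * D)) with hG
  have e1 : ∑ hh ∈ Icc 1 H, g hh * ∑ x ∈ (prs L d).filter
      (fun x => (bx (δ * L) x.1, bx (δ * L) x.2) = (i, j)),
      b x.1 * b x.2 * Real.cos (Real.pi * hh * k0 d x.1 x.2 / D) =
      ∑ m ∈ Ioc 1 (2 ^ (Nat.log 2 (2 * H) + 1)), w m * G m := by
    have hlog : 2 * H < 2 ^ (Nat.log 2 (2 * H) + 1) := Nat.lt_pow_succ_log_self (by norm_num) _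
    have e2 : ∑ hh ∈ Icc 1 H, g hh * ∑ x ∈ (prs L d).filter
        (fun x => (bx (δ * L) x.1, bx (δ * L) x.2) = (i, j)),
        b x.1 * b x.2 * Real.cos (Real.pi * hh * k0 d x.1 x.2 / D) =
        ∑ hh ∈ Icc 1 H, w (2 * hh) * G (2 * hh) := by
      apply sum_congr rfl
      intro hh hhm
      rw [mem_Icc] at hhm
      rw [fiber_eq hW hij (fun u v => b u * b v * Real.cos (Real.pi * hh * k0 d u v / D))]
      have hwv : w (2 * hh) = g hh := by
        simp only [hw]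
        rw [Nat.mul_div_cancel_left _ (by norm_num), if_pos ⟨even_two_mul _, hhm.2⟩]
      rw [hwv]
      congr 1
      simp only [hG]
      apply sum_congr rfl
      intro u _
      apply sum_congr rfl
      intro v _
      congr 2
      push_cast
      field_simp
    rw [e2, ← sum_image (s := Icc 1 H) (g := fun hh => 2 * hh) (f := fun m => w m * G m)
      (fun x _ y _ hxy => by simpa using hxy)]
    apply sum_subset
    · intro m hm
      rw [mem_image] at hm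
      obtain ⟨hh, hhm, rfl⟩ := hm
      rw [mem_Icc] at hhm
      rw [mem_Ioc]
      omega
    · intro m hm hm'
      rw [mem_Ioc] at hm
      have : w m = 0 := by
        simp only [hw]
        rw [if_neg]
        rintro ⟨hev, hle⟩
        apply hm'
        rw [mem_image]
        obtain ⟨r, hr⟩ := hev
        refine ⟨r, ?_, by omega⟩
        rw [mem_Icc]
        omega
      rw [this, zero_mul]
  rw [e1, ← sum_dyadic]
  refine (abs_sum_le_sum_abs _ _).trans ?_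
  refine (sum_le_card_nsmul _ _ (bil1 e C L d D H) ?_).trans
    (le_of_eq (by rw [card_range, nsmul_eq_mul]))
  intro n hn
  rw [mem_range] at hn
  have hn2 : 2 ^ n ≤ 2 * H := by
    calc 2 ^ n ≤ 2 ^ (Nat.log 2 (2 * H)) := Nat.pow_le_pow_right (by norm_num) (by omega)
      _ ≤ 2 * H := Nat.pow_log_le_self 2 (by omega)
  have hmain := hBIL L d (2 * D) (2 ^ n) (SB L (δ * L) i) (SB L (δ * L) j) (fun u => (b u : ℂ))
    (fun v => (b v : ℂ)) (fun m => (w m : ℂ)) h.hL h.hd (by omega) Nat.one_le_two_pow h4d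
    (hmem i) (hmem j)
    (fun u => by rw [Complex.norm_real, Real.norm_eq_abs]; exact hb u)
    (fun u => by rw [Complex.norm_real, Real.norm_eq_abs]; exact hb u)
    (fun u => by rw [Complex.norm_real, Real.norm_eq_abs]; exact hw1 u)
  have hre : |∑ m ∈ Ioc (2 ^ n) (2 * 2 ^ n), w m * G m| ≤
      ‖∑ h ∈ Ioc (2 ^ n) (2 * 2 ^ n), ∑ u ∈ SB L (δ * L) i,
      ∑ v ∈ (SB L (δ * L) j).filter (fun v => v % (4 * d) = u % (4 * d)),
      (w h : ℂ) * (b u : ℂ) * (b v : ℂ) * Complex.exp (2 * Real.pi * Complex.I *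
        (((h : ℝ) * (√(v : ℝ) - √(u : ℝ)) ^ 2 / (8 * (2 * D : ℕ) * (d : ℝ) ^ 2) : ℝ) : ℂ))‖ := by
    refine le_trans (le_of_eq ?_) (Complex.abs_re_le_norm _)
    congr 1
    rw [Complex.re_sum]
    apply sum_congr rfl
    intro m _
    simp only [hG]
    rw [mul_sum, Complex.re_sum]
    apply sum_congr rfl
    intro u _
    rw [mul_sum, Complex.re_sum]
    apply sum_congr rfl
    intro v _
    have e1 : (2 * Real.pi * Complex.I *
        (((m : ℝ) * (√(v : ℝ) - √(u : ℝ)) ^ 2 / (8 * (2 * D : ℕ) * (d : ℝ) ^ 2) : ℝ) : ℂ)) =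
        ((Real.pi * m * k0 d u v / (2 * D) : ℝ) : ℂ) * Complex.I := by
      unfold k0
      push_cast
      field_simp
      ring
    rw [e1, ← Complex.ofReal_mul, ← Complex.ofReal_mul, Complex.re_ofReal_mul,
      Complex.exp_ofReal_mul_I_re]
    ring
  refine hre.trans (hmain.trans ?_)
  unfold bil1
  have hn3 : ((2 ^ n : ℕ) : ℝ) ≤ 2 * H := by exact_mod_cast hn2
  have hn0 : (0 : ℝ) < ((2 ^ n : ℕ) : ℝ) := by exact_mod_cast Nat.two_pow_pos n
  have hr : (((2 ^ n : ℕ) : ℝ) * L) ^ e ≤ (2 * H * L) ^ e :=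
    Real.rpow_le_rpow (by positivity) (mul_le_mul_of_nonneg_right hn3 hLp.le) he.le
  have hr0 : 0 ≤ (((2 ^ n : ℕ) : ℝ) * L) ^ e := Real.rpow_nonneg (by positivity) _
  have hD2 : ((2 * D : ℕ) : ℝ) = 2 * D := by push_cast; ring
  rw [hD2]
  have hs : √(((2 ^ n : ℕ) : ℝ) * L) ≤ √(2 * H * L) :=
    Real.sqrt_le_sqrt (mul_le_mul_of_nonneg_right hn3 hLp.le)
  have hs2 : ((2 ^ n : ℕ) : ℝ) * √(L / d) ≤ 2 * H * √(L / d) :=
    mul_le_mul_of_nonneg_right hn3 (Real.sqrt_nonneg _)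
  have hs3 : (((2 ^ n : ℕ) : ℝ)) ^ 2 ≤ (2 * (H : ℝ)) ^ 2 := pow_le_pow_left₀ hn0.le hn3 2
  apply mul_le_mul _ (by linarith) (by positivity) (by positivity)
  apply mul_le_mul_of_nonneg_right _ hLp.le
  exact mul_le_mul_of_nonneg_left hr (by positivity)

theorem step4 {K L A δ ε e C : ℝ} {d D : ℕ} (h : Ctx K L A δ ε d D) (he : 0 < e) (hC : 0 < C)
    (hBIL : BILh e C)
    (b : ℕ → ℝ) (hb : ∀ u, |b u| ≤ 1) {H : ℕ} (hH : 1 ≤ H) :
    |∑ x ∈ prs L d, b x.1 * b x.2 * (kk K (δ * L) d x * (1 / (2 * D * la A (δ * L) x) *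
        (2 * osc A (δ * L) d D H x)))|
      ≤ 4 / δ ^ 2 * (2 * A / (D * L) * ((gI + 1) * ((Nat.log 2 (2 * H) + 1 : ℕ) * bil1 e C L d D H))) := by
  have hLp : 0 < L := by linarith [h.hL]
  have hKp : 0 < K := by linarith [h.hK]
  have hAp : 0 < A := by linarith [h.hA]
  have hW : 0 < δ * L := mul_pos h.hδ hLp
  have hδp := h.hδ
  have hD1 : 1 ≤ D := h.hD.pos
  have hDr : (0 : ℝ) < D := by exact_mod_cast hD1
  set W := δ * L with hWdef
  set I := range (⌊5 / 4 / δ⌋₊ + 1) with hI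
  set BB : ℝ := ((Nat.log 2 (2 * H) + 1 : ℕ) : ℝ) * bil1 e C L d D H with hBB
  have hbil0 : 0 ≤ BB := mul_nonneg (by positivity) (bil1_nonneg hC hLp)
  have hmaps : ∀ x ∈ prs L d, (bx W x.1, bx W x.2) ∈ I ×ˢ I := by
    intro x hx
    obtain ⟨m1, m2, m3, m4, m5, m6⟩ := mem_prs hx
    have key : ∀ u : ℕ, (u : ℝ) ≤ 5 / 4 * L → bx W u ∈ I := by
      intro u hu
      rw [hI, mem_range, Nat.lt_add_one_iff]
      unfold bx
      apply Nat.floor_le_floor
      rw [div_le_iff₀ hW, hWdef]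
      calc (u : ℝ) ≤ 5 / 4 * L := hu
        _ = 5 / 4 / δ * (δ * L) := by field_simp
    rw [mem_product]
    exact ⟨key _ m2, key _ m4⟩
  rw [← sum_fiberwise_of_maps_to hmaps]
  refine (abs_sum_le_sum_abs _ _).trans ?_
  have hR0 : 0 ≤ 2 * A / (D * L) * ((gI + 1) * BB) := by
    have := gI_nonneg
    positivity
  have hcard : ((I ×ˢ I).card : ℝ) ≤ 4 / δ ^ 2 := by
    rw [card_product, hI, card_range]
    push_cast
    have h1 : (⌊5 / 4 / δ⌋₊ : ℝ) + 1 ≤ 2 / δ := by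
      have h2 := Nat.floor_le (show 0 ≤ 5 / 4 / δ by positivity)
      have h3 : (1 : ℝ) ≤ 3 / 4 / δ := by
        rw [le_div_iff₀ hδp]
        linarith [h.hδ']
      have h4 : 5 / 4 / δ + 3 / 4 / δ = 2 / δ := by ring
      linarith
    calc ((⌊5 / 4 / δ⌋₊ : ℝ) + 1) * ((⌊5 / 4 / δ⌋₊ : ℝ) + 1) ≤ 2 / δ * (2 / δ) :=
          mul_le_mul h1 h1 (by positivity) (by positivity)
      _ = 4 / δ ^ 2 := by ring
  refine le_trans (sum_le_card_nsmul _ _ (2 * A / (D * L) * ((gI + 1) * BB)) ?_) ?_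
  · rintro ⟨i, j⟩ _
    set P := (prs L d).filter (fun x => (bx W x.1, bx W x.2) = (i, j)) with hP
    rcases P.eq_empty_or_nonempty with hPe | ⟨x0, hx0⟩
    · rw [hPe, sum_empty, abs_zero]
      exact hR0
    have hx0m := mem_filter.mp hx0
    set q : ℝ := kB (kc d ((i : ℝ) * W) ((j : ℝ) * W) / K) with hq
    set lm : ℝ := √((i : ℝ) * W * ((j : ℝ) * W)) / A with hlm
    have hlx : ∀ x ∈ P, la A W x = lm ∧ kk K W d x = q := by
      intro x hx
      have hxm := (mem_filter.mp hx).2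
      simp only [Prod.mk.injEq] at hxm
      unfold la kk cx
      rw [hxm.1, hxm.2]
      exact ⟨rfl, rfl⟩
    have hlm1 : L / (2 * A) ≤ lm := by
      rw [← (hlx x0 hx0).1]
      exact (la_le h hx0m.1).1
    have hlm0 : 0 < lm := lt_of_lt_of_le (by positivity) hlm1
    have hgp : 0 < gI + 1 := by linarith [gI_nonneg]
    set g : ℕ → ℝ := fun hh => gh (hh / (2 * D * lm)) * (-1) ^ hh / (gI + 1) with hg
    have hg1 : ∀ hh, |g hh| ≤ 1 := by
      intro hh
      simp only [hg]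
      rw [abs_div, abs_mul, abs_pow, abs_neg, abs_one, one_pow, mul_one, abs_of_pos hgp,
        div_le_one hgp]
      exact (gh_le _).trans (by linarith)
    have e1 : ∑ x ∈ P, b x.1 * b x.2 * (kk K W d x * (1 / (2 * D * la A W x) *
        (2 * osc A W d D H x))) = q * (1 / (D * lm)) * ((gI + 1) * ∑ hh ∈ Icc 1 H,
          g hh * ∑ x ∈ P,
            b x.1 * b x.2 * Real.cos (Real.pi * hh * k0 d x.1 x.2 / D)) := by
      have e2 : ∀ x ∈ P, b x.1 * b x.2 * (kk K W d x * (1 / (2 * D * la A W x) *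
          (2 * osc A W d D H x))) = ∑ hh ∈ Icc 1 H, q * (1 / (D * lm)) *
            ((gh (hh / (2 * D * lm)) * (-1) ^ hh) *
            (b x.1 * b x.2 * Real.cos (Real.pi * hh * k0 d x.1 x.2 / D))) := by
        intro x hx
        unfold osc
        rw [(hlx x hx).1, (hlx x hx).2]
        simp only [mul_sum]
        apply sum_congr rfl
        intro hh _
        field_simp
      rw [sum_congr rfl e2, sum_comm, mul_sum, mul_sum]
      apply sum_congr rfl
      intro hh _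
      rw [mul_sum, mul_sum, mul_sum]
      apply sum_congr rfl
      intro x _
      simp only [hg]
      field_simp
    rw [e1]
    by_cases hq0 : q = 0
    · rw [hq0, zero_mul, zero_mul, abs_zero]
      exact hR0
    have hij : i < j := by
      rcases lt_trichotomy i j with h1 | h1 | h1
      · exact h1
      · exfalso
        have h2 := (kB_supp hq0).1
        rw [h1] at h2
        unfold kc at h2
        rw [sub_self] at h2
        norm_num at h2
      · exfalso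
        have := fiber_empty (L := L) (d := d) hW h1
        rw [hP, this] at hx0
        exact absurd hx0 (notMem_empty _)
    have hq1 : |q| ≤ 1 := by
      rw [hq, abs_of_nonneg (kB_nonneg _)]
      exact kB_le_one _
    have h1D : |1 / ((D : ℝ) * lm)| ≤ 2 * A / (D * L) := by
      rw [abs_of_pos (by positivity), div_le_div_iff₀ (by positivity) (by positivity)]
      have : L ≤ 2 * A * lm := by
        rw [div_le_iff₀ (by positivity)] at hlm1
        linarith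
      nlinarith
    have hsum := fiber_bound h he hC hBIL b g hb hg1 hij hH
    rw [abs_mul, abs_mul, abs_mul (gI + 1), abs_of_pos hgp]
    calc |q| * |1 / ((D : ℝ) * lm)| * ((gI + 1) * _) ≤ 1 * (2 * A / (D * L)) *
          ((gI + 1) * BB) := by
          apply mul_le_mul _ _ (by positivity) (by positivity)
          · exact mul_le_mul hq1 h1D (abs_nonneg _) (by norm_num)
          · exact mul_le_mul_of_nonneg_left hsum hgp.le
      _ = _ := by ring
  · rw [nsmul_eq_mul]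
    exact mul_le_mul_of_nonneg_right hcard hR0

/-- few pairs with `k0 ≤ 3K` -/
theorem near_card {K L : ℝ} {d : ℕ} (hd : 1 ≤ d) (hK : 1 ≤ K) (hL : 1 ≤ L) :
    (((prs L d).filter (fun x => k0 d x.1 x.2 ≤ 3 * K)).card : ℝ) ≤ 5 / 2 * L * √(K * L) := by
  have hLp : 0 < L := by linarith
  have hKp : 0 < K := by linarith
  have hd0 : (0 : ℝ) < d := by exact_mod_cast hd
  set B := (Ioc ⌊L⌋₊ ⌊5 / 4 * L⌋₊) ×ˢ (Icc 1 ⌊2 * √(K * L)⌋₊) with hB
  have hcard : ((prs L d).filter (fun x => k0 d x.1 x.2 ≤ 3 * K)).card ≤ B.card := by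
    apply card_le_card_of_injOn (fun x => (x.1, (x.2 - x.1) / (4 * d)))
    · intro x hx
      rw [mem_coe, mem_filter] at hx
      obtain ⟨hx1, hx2⟩ := hx
      obtain ⟨m1, m2, m3, m4, m5, m6⟩ := mem_prs hx1
      unfold prs at hx1
      rw [mem_filter, mem_product] at hx1
      rw [mem_coe, hB, mem_product]
      refine ⟨hx1.1.1, ?_⟩
      rw [mem_Icc]
      have hpos : 0 < x.2 - x.1 := by omega
      constructor
      · apply Nat.div_pos (Nat.le_of_dvd hpos m6) (by omega)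
      · apply Nat.le_floor
        obtain ⟨m, hm⟩ := m6
        have hmm : (x.2 - x.1) / (4 * d) = m := by
          rw [hm, Nat.mul_div_cancel_left _ (by omega)]
        simp only
        rw [hmm]
        have hv : (x.2 : ℝ) = x.1 + 4 * d * m := by
          have : x.2 = x.1 + 4 * d * m := by omega
          exact_mod_cast this
        have hk : (√(x.2 : ℝ) - √(x.1 : ℝ)) ^ 2 ≤ 12 * K * (d : ℝ) ^ 2 := by
          unfold k0 at hx2
          rw [div_le_iff₀ (by positivity)] at hx2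
          linarith
        have hu0 : (0 : ℝ) ≤ x.1 := by positivity
        have hv0 : (0 : ℝ) ≤ x.2 := by positivity
        have hsu := Real.sq_sqrt hu0
        have hsv := Real.sq_sqrt hv0
        have hprod : (√(x.2 : ℝ) - √(x.1 : ℝ)) * (√(x.2 : ℝ) + √(x.1 : ℝ)) = 4 * d * m := by
          nlinarith
        have hsq : (4 * d * m : ℝ) ^ 2 ≤ 12 * K * (d : ℝ) ^ 2 * (5 * L) := by
          rw [← hprod, mul_pow]
          apply mul_le_mul hk _ (by positivity) (by positivity)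
          have := two_mul_le_add_sq √(x.2 : ℝ) √(x.1 : ℝ)
          nlinarith
        have hm2 : ((m : ℝ)) ^ 2 ≤ 4 * (K * L) := by
          have h16 : (4 * d * m : ℝ) ^ 2 = (d : ℝ) ^ 2 * (16 * (m : ℝ) ^ 2) := by ring
          have h17 : 12 * K * (d : ℝ) ^ 2 * (5 * L) = (d : ℝ) ^ 2 * (60 * (K * L)) := by ring
          rw [h16, h17] at hsq
          have h18 := le_of_mul_le_mul_left hsq (by positivity)
          have h19 := mul_pos hKp hLp
          linarith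
        have h4 : (2 * √(K * L)) ^ 2 = 4 * (K * L) := by
          rw [mul_pow, Real.sq_sqrt (by positivity)]
          norm_num
        exact le_of_sq_le_sq (by rw [h4]; exact hm2) (by positivity)
    · intro x hx y hy hxy
      rw [mem_coe, mem_filter] at hx hy
      obtain ⟨_, _, _, _, m5, m6⟩ := mem_prs hx.1
      obtain ⟨_, _, _, _, n5, n6⟩ := mem_prs hy.1
      simp only [Prod.mk.injEq] at hxy
      obtain ⟨h1, h2⟩ := hxy
      obtain ⟨m, hm⟩ := m6
      obtain ⟨n, hn⟩ := n6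
      rw [hm, hn, Nat.mul_div_cancel_left _ (by omega), Nat.mul_div_cancel_left _ (by omega)] at h2
      rw [h2] at hm
      ext
      · exact h1
      · omega
  have hBc : (B.card : ℝ) ≤ 5 / 4 * L * (2 * √(K * L)) := by
    rw [hB, card_product, Nat.card_Ioc, Nat.card_Icc]
    push_cast
    have h1 : ((⌊5 / 4 * L⌋₊ - ⌊L⌋₊ : ℕ) : ℝ) ≤ 5 / 4 * L := by
      calc ((⌊5 / 4 * L⌋₊ - ⌊L⌋₊ : ℕ) : ℝ) ≤ (⌊5 / 4 * L⌋₊ : ℝ) := by
            exact_mod_cast Nat.sub_le _ _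
        _ ≤ 5 / 4 * L := Nat.floor_le (by positivity)
    have h2 : ((⌊2 * √(K * L)⌋₊ + 1 - 1 : ℕ) : ℝ) ≤ 2 * √(K * L) := by
      rw [Nat.add_sub_cancel]
      exact Nat.floor_le (by positivity)
    exact mul_le_mul h1 h2 (by positivity) (by positivity)
  calc (((prs L d).filter (fun x => k0 d x.1 x.2 ≤ 3 * K)).card : ℝ) ≤ (B.card : ℝ) := by
        exact_mod_cast hcard
    _ ≤ 5 / 4 * L * (2 * √(K * L)) := hBc
    _ = 5 / 2 * L * √(K * L) := by ring

theorem step5 {K L A δ ε Lk : ℝ} {d D : ℕ} (h : Ctx K L A δ ε d D)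
    (hLk : 0 ≤ Lk) (hkB : ∀ x y : ℝ, |kB x - kB y| ≤ Lk * |x - y|)
    (b : ℕ → ℝ) (hb : ∀ u, |b u| ≤ 1) :
    |(∑ x ∈ prs L d, b x.1 * b x.2 * (kk K (δ * L) d x * (1 / (2 * D * la A (δ * L) x) * gI)))
      - A * gI / (2 * D) * Wd K L d b|
      ≤ 5 / 2 * gI * (12 * Lk + 6) * ε * (A * √(K * L)) := by
  have hLp : 0 < L := by linarith [h.hL]
  have hKp : 0 < K := by linarith [h.hK]
  have hAp : 0 < A := by linarith [h.hA]
  have hW : 0 < δ * L := mul_pos h.hδ hLp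
  have hδp := h.hδ
  have hεp : 0 < ε := lt_of_lt_of_le hδp h.hδε'
  have hD1 : 1 ≤ D := h.hD.pos
  have hDr : (0 : ℝ) < D := by exact_mod_cast hD1
  have hD1r : (1 : ℝ) ≤ D := by exact_mod_cast hD1
  have hgI := gI_nonneg
  unfold Wd
  rw [mul_sum, ← sum_sub_distrib]
  set R : ℝ := A * gI / (2 * D) * ((12 * Lk + 6) * ε / L) with hR
  have hR0 : 0 ≤ R := by rw [hR]; positivity
  calc |∑ x ∈ prs L d, (b x.1 * b x.2 * (kk K (δ * L) d x * (1 / (2 * D * la A (δ * L) x) * gI)) -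
        A * gI / (2 * D) * (b x.1 * b x.2 * (kB (k0 d x.1 x.2 / K) / √((x.1 : ℝ) * x.2))))|
      ≤ ∑ x ∈ prs L d, |b x.1 * b x.2 * (kk K (δ * L) d x * (1 / (2 * D * la A (δ * L) x) * gI)) -
        A * gI / (2 * D) * (b x.1 * b x.2 * (kB (k0 d x.1 x.2 / K) / √((x.1 : ℝ) * x.2)))| :=
        abs_sum_le_sum_abs _ _
    _ ≤ ∑ x ∈ prs L d, if k0 d x.1 x.2 ≤ 3 * K then R else 0 := by
        apply sum_le_sum
        intro x hx
        obtain ⟨m1, m2, m3, m4, m5, m6⟩ := mem_prs hx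
        obtain ⟨l1, l2, l3⟩ := la_bounds h hx
        set s := √(cx (δ * L) x.1 * cx (δ * L) x.2) with hs
        set r := √((x.1 : ℝ) * x.2) with hr
        have hs0 : 0 < s := by linarith
        have hrL : L ≤ r := by
          rw [hr]
          apply Real.le_sqrt_of_sq_le
          nlinarith
        have hr0 : 0 < r := by linarith
        have e1 : b x.1 * b x.2 * (kk K (δ * L) d x * (1 / (2 * D * la A (δ * L) x) * gI)) -
            A * gI / (2 * D) * (b x.1 * b x.2 * (kB (k0 d x.1 x.2 / K) / r)) =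
            A * gI / (2 * D) * (b x.1 * b x.2) *
              (kk K (δ * L) d x / s - kB (k0 d x.1 x.2 / K) / r) := by
          unfold la
          rw [← hs]
          field_simp
        rw [e1]
        by_cases hz : kk K (δ * L) d x = 0 ∧ kB (k0 d x.1 x.2 / K) = 0
        · rw [hz.1, hz.2, zero_div, zero_div, sub_zero, mul_zero, abs_zero]
          split_ifs <;> positivity
        have h3 : k0 d x.1 x.2 ≤ 5 / 2 * K ∨ kc d (cx (δ * L) x.1) (cx (δ * L) x.2) ≤ 5 / 2 * K := by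
          by_cases hz1 : kk K (δ * L) d x = 0
          · left
            have hz2 : kB (k0 d x.1 x.2 / K) ≠ 0 := fun hcon => hz ⟨hz1, hcon⟩
            have := (kB_supp hz2).2
            rw [div_lt_iff₀ hKp] at this
            exact this.le
          · right
            have := (kB_supp hz1).2
            rw [div_lt_iff₀ hKp] at this
            exact this.le
        have hnear := near_kk h hx (h3.imp (fun h => by linarith) (fun h => by linarith))
        have hKε : K * ε ≤ K / 100 := by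
          have := mul_le_mul_of_nonneg_left h.hε hKp.le
          linarith
        have hk3 : k0 d x.1 x.2 ≤ 3 * K := by
          rcases h3 with h3 | h3
          · linarith
          · have := (abs_le.mp hnear).2
            nlinarith
        rw [if_pos hk3, abs_mul, abs_mul, hR]
        have hbb : |b x.1 * b x.2| ≤ 1 := by
          rw [abs_mul]
          calc |b x.1| * |b x.2| ≤ 1 * 1 := mul_le_mul (hb _) (hb _) (abs_nonneg _) (by norm_num)
            _ = 1 := by norm_num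
        have hdiff : |kk K (δ * L) d x / s - kB (k0 d x.1 x.2 / K) / r| ≤ (12 * Lk + 6) * ε / L := by
          have e2 : kk K (δ * L) d x / s - kB (k0 d x.1 x.2 / K) / r =
              (kk K (δ * L) d x - kB (k0 d x.1 x.2 / K)) / s +
                kB (k0 d x.1 x.2 / K) * ((r - s) / (s * r)) := by
            field_simp
            ring
          rw [e2]
          have h5 : |(kk K (δ * L) d x - kB (k0 d x.1 x.2 / K)) / s| ≤ 12 * Lk * ε / L := by
            rw [abs_div, abs_of_pos hs0, div_le_div_iff₀ hs0 hLp]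
            have h6 : |kk K (δ * L) d x - kB (k0 d x.1 x.2 / K)| ≤ Lk * (6 * ε) := by
              refine (hkB _ _).trans (mul_le_mul_of_nonneg_left ?_ hLk)
              rw [← sub_div, abs_div, abs_of_pos hKp, div_le_iff₀ hKp, abs_sub_comm]
              linarith
            calc |kk K (δ * L) d x - kB (k0 d x.1 x.2 / K)| * L ≤ Lk * (6 * ε) * (2 * s) :=
                  mul_le_mul h6 (by linarith) hLp.le (by positivity)
              _ = 12 * Lk * ε * s := by ring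
          have h7 : |kB (k0 d x.1 x.2 / K) * ((r - s) / (s * r))| ≤ 6 * ε / L := by
            rw [abs_mul, abs_of_nonneg (kB_nonneg _), abs_div, abs_of_pos (mul_pos hs0 hr0)]
            calc kB (k0 d x.1 x.2 / K) * (|r - s| / (s * r)) ≤ 1 * (3 * δ * L / (L / 2 * L)) := by
                  apply mul_le_mul (kB_le_one _) _ (by positivity) (by norm_num)
                  apply div_le_div₀ (by positivity) l1 (by positivity)
                  exact mul_le_mul l2 hrL hLp.le hs0.le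
              _ = 6 * δ / L := by field_simp; norm_num
              _ ≤ 6 * ε / L := by
                  have := h.hδε'
                  gcongr
          calc |(kk K (δ * L) d x - kB (k0 d x.1 x.2 / K)) / s +
                kB (k0 d x.1 x.2 / K) * ((r - s) / (s * r))| ≤ _ := abs_add_le _ _
            _ ≤ 12 * Lk * ε / L + 6 * ε / L := add_le_add h5 h7
            _ = (12 * Lk + 6) * ε / L := by ring
        rw [abs_of_nonneg (show 0 ≤ A * gI / (2 * D) by positivity)]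
        calc A * gI / (2 * D) * |b x.1 * b x.2| * |kk K (δ * L) d x / s - kB (k0 d x.1 x.2 / K) / r|
            ≤ A * gI / (2 * D) * 1 * ((12 * Lk + 6) * ε / L) := by
              apply mul_le_mul _ hdiff (abs_nonneg _) (by positivity)
              exact mul_le_mul_of_nonneg_left hbb (by positivity)
          _ = A * gI / (2 * D) * ((12 * Lk + 6) * ε / L) := by ring
    _ = ((prs L d).filter (fun x => k0 d x.1 x.2 ≤ 3 * K)).card * R := by
        rw [← sum_filter, sum_const, nsmul_eq_mul]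
    _ ≤ 5 / 2 * L * √(K * L) * R := mul_le_mul_of_nonneg_right (near_card h.hd h.hK h.hL) hR0
    _ = 5 / 4 * gI * (12 * Lk + 6) * ε * (A * √(K * L)) / D := by
        rw [hR]; field_simp; ring
    _ ≤ 5 / 4 * gI * (12 * Lk + 6) * ε * (A * √(K * L)) := div_le_self (by positivity) hD1r
    _ ≤ 5 / 2 * gI * (12 * Lk + 6) * ε * (A * √(K * L)) := by
        have : 0 ≤ gI * (12 * Lk + 6) * ε * (A * √(K * L)) := by positivity
        nlinarith


theorem raw {K L A δ ε Lk Lg CP CB e : ℝ} {d D : ℕ} (h : Ctx K L A δ ε d D)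
    (hLk : 0 ≤ Lk) (hLg : 0 ≤ Lg) (hkB : ∀ x y : ℝ, |kB x - kB y| ≤ Lk * |x - y|)
    (hgB : ∀ x y : ℝ, |gB x - gB y| ≤ Lg * |x - y|) {j : ℕ} (hCP : 0 < CP)
    (hPOI : ∀ (lam t : ℝ) (D H : ℕ), 0 < lam → 1 ≤ D → 1 ≤ H →
      |(∑' i : ℤ, gB (lam * (D * (2 * i + 1) - t)))
      - 1 / (2 * D * lam) * (gI + 2 * ∑ h ∈ Icc 1 H,
        gh (h / (2 * D * lam)) * (-1) ^ h * Real.cos (Real.pi * h * t / D))|
      ≤ CP * (2 * D * lam) ^ (j + 1) / (H : ℝ) ^ (j + 1)) (he : 0 < e) (hCB : 0 < CB)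
    (hBIL : BILh e CB)
    (b : ℕ → ℝ) (hb : ∀ u, |b u| ≤ 1) (hodd : ∀ u, b u ≠ 0 → Odd u) {H : ℕ} (hH : 1 ≤ H) :
    |Sd K L A d D b - A * gI / (2 * D) * Wd K L d b| ≤
      ((((Icc 1 ⌊4 * K⌋₊) ×ˢ (prs L d)).filter (fun t => Odd t.2.1 ∧ Odd t.2.2 ∧
        |aq d t.1 t.2.1 t.2.2| ≤ 4 * A)).card : ℝ) * ((10 * Lk + 13 * Lg) * ε) +
      (prs L d).card * (CP * (2 * D * (5 / 4 * L / A)) ^ (j + 1) / (H : ℝ) ^ (j + 1)) +
      4 / δ ^ 2 * (2 * A / (D * L) * ((gI + 1) * ((Nat.log 2 (2 * H) + 1 : ℕ) * bil1 e CB L d D H))) +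
      5 / 2 * gI * (12 * Lk + 6) * ε * (A * √(K * L)) := by
  have h1 := step1 h hLk hLg hkB hgB b hb hodd
  have h3 := step3 h hCP hPOI b hb hH
  have h4 := step4 h he hCB hBIL b hb hH
  have h5 := step5 h hLk hkB b hb
  have e : ∑ x ∈ prs L d, b x.1 * b x.2 * (kk K (δ * L) d x * (1 / (2 * D * la A (δ * L) x) *
        (gI + 2 * osc A (δ * L) d D H x))) =
      ∑ x ∈ prs L d, b x.1 * b x.2 * (kk K (δ * L) d x * (1 / (2 * D * la A (δ * L) x) * gI)) +
      ∑ x ∈ prs L d, b x.1 * b x.2 * (kk K (δ * L) d x * (1 / (2 * D * la A (δ * L) x) *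
        (2 * osc A (δ * L) d D H x))) := by
    rw [← sum_add_distrib]
    exact sum_congr rfl fun x _ => by ring
  rw [e] at h3
  have e1 := abs_le.mp h1
  have e3 := abs_le.mp h3
  have e4 := abs_le.mp h4
  have e5 := abs_le.mp h5
  rw [abs_le]
  constructor <;> linarith [e1.1, e1.2, e3.1, e3.2, e4.1, e4.2, e5.1, e5.2]

/-- the exponents -/
theorem expo {a M S L t A d D H : ℝ} (ht : 1 ≤ t) (hM : 1 ≤ M) (haS : a ≤ S) (hS : t ^ 112 ≤ S)
    (hL : L = M * S) (hLa : M ^ 2 * S * t ^ 128 ≤ a ^ 4) (hMa : M * t ^ 128 ≤ a) (hA : A = a ^ 2)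
    (hd : M / t ≤ d) (hD : 1 ≤ D) (hDt : D ≤ t) (hH : H ≤ D * (L / A) * t ^ 8 + 1)
    (hH0 : 0 ≤ H) :
    A * (√(H * L) + H * √(L / d) + H ^ 2) ≤ 8 * (A * S) / t ^ 54 := by
  have ht0 : 0 < t := by linarith
  have hM0 : 0 < M := by linarith
  have ha1 : 1 ≤ a := by
    have : 1 ≤ t ^ 128 := one_le_pow₀ ht
    nlinarith
  have ha0 : 0 < a := by linarith
  have hS0 : 0 < S := by linarith
  have hL0 : 0 < L := by rw [hL]; positivity
  have hA0 : 0 < A := by rw [hA]; positivity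
  have hD0 : 0 < D := by linarith
  have hd0 : 0 < d := lt_of_lt_of_le (by positivity) hd
  have hmono : ∀ m n : ℕ, m ≤ n → t ^ m ≤ t ^ n := fun m n h => pow_le_pow_right₀ ht h
  have hsL : √L * √L = L := Real.mul_self_sqrt hL0.le
  have hsL0 : 0 < √L := Real.sqrt_pos.mpr hL0
  set h1 := L / A * t ^ 9 with hh1
  have hh10 : 0 < h1 := by positivity
  have hH1 : H ≤ h1 + 1 := by
    calc H ≤ D * (L / A) * t ^ 8 + 1 := hH
      _ ≤ t * (L / A) * t ^ 8 + 1 := by gcongr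
      _ = h1 + 1 := by rw [hh1]; ring
  have hr1 : √(H * L) ≤ L / a * t ^ 5 + √L := by
    apply Real.sqrt_le_iff.mpr
    refine ⟨by positivity, ?_⟩
    have h2 := Real.sq_sqrt hL0.le
    have h3 : 0 ≤ L / a * t ^ 5 * √L := by positivity
    have h4 : h1 * L ≤ (L / a * t ^ 5) ^ 2 := by
      calc h1 * L = (L / a) ^ 2 * t ^ 9 := by rw [hh1, hA]; ring
        _ ≤ (L / a) ^ 2 * t ^ 10 := mul_le_mul_of_nonneg_left (hmono _ _ (by norm_num)) (by positivity)
        _ = (L / a * t ^ 5) ^ 2 := by ring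
    have h5 : H * L ≤ (h1 + 1) * L := mul_le_mul_of_nonneg_right hH1 hL0.le
    nlinarith
  set ρ := √(S * t) with hρ
  have hρ0 : 0 < ρ := Real.sqrt_pos.mpr (by positivity)
  have hρ2 : ρ ^ 2 = S * t := Real.sq_sqrt (by positivity)
  have hr2 : √(L / d) ≤ ρ := by
    apply Real.sqrt_le_sqrt
    rw [div_le_iff₀ hd0]
    rw [div_le_iff₀ ht0] at hd
    calc L = S * M := by rw [hL]; ring
      _ ≤ S * (d * t) := mul_le_mul_of_nonneg_left hd hS0.le
      _ = S * t * d := by ring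
  set Z := A * S with hZ
  have hZ0 : 0 < Z := by positivity
  have hp : 0 < t ^ 54 := by positivity
  have hL2 : √L * t ^ 54 ≤ S := by
    apply le_of_sq_le_sq _ hS0.le
    calc (√L * t ^ 54) ^ 2 = (√L * √L) * t ^ 108 := by ring
      _ = S * (M * t ^ 108) := by rw [hsL, hL]; ring
      _ ≤ S * (M * t ^ 128) := by
          apply mul_le_mul_of_nonneg_left _ hS0.le
          exact mul_le_mul_of_nonneg_left (hmono _ _ (by norm_num)) hM0.le
      _ ≤ S * S := mul_le_mul_of_nonneg_left (hMa.trans haS) hS0.le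
      _ = S ^ 2 := by ring
  have c1 : A * (L / a * t ^ 5) ≤ Z / t ^ 54 := by
    rw [le_div_iff₀ hp]
    calc A * (L / a * t ^ 5) * t ^ 54 = a * S * (M * t ^ 59) := by rw [hA, hL]; field_simp
      _ ≤ a * S * (M * t ^ 128) := by
          apply mul_le_mul_of_nonneg_left _ (by positivity)
          exact mul_le_mul_of_nonneg_left (hmono _ _ (by norm_num)) hM0.le
      _ ≤ a * S * a := mul_le_mul_of_nonneg_left hMa (by positivity)
      _ = Z := by rw [hZ, hA]; ring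
  have c2 : A * √L ≤ Z / t ^ 54 := by
    rw [le_div_iff₀ hp]
    calc A * √L * t ^ 54 = A * (√L * t ^ 54) := by ring
      _ ≤ A * S := mul_le_mul_of_nonneg_left hL2 hA0.le
  have c3 : A * (h1 * ρ) ≤ Z / t ^ 54 := by
    rw [le_div_iff₀ hp]
    have e1 : A * (h1 * ρ) * t ^ 54 = L * t ^ 63 * ρ := by rw [hh1]; field_simp
    rw [e1]
    apply le_of_sq_le_sq _ hZ0.le
    calc (L * t ^ 63 * ρ) ^ 2 = L ^ 2 * t ^ 126 * ρ ^ 2 := by ring
      _ = S ^ 2 * (M ^ 2 * S * t ^ 127) := by rw [hρ2, hL]; ring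
      _ ≤ S ^ 2 * (M ^ 2 * S * t ^ 128) := by
          apply mul_le_mul_of_nonneg_left _ (by positivity)
          exact mul_le_mul_of_nonneg_left (hmono _ _ (by norm_num)) (by positivity)
      _ ≤ S ^ 2 * a ^ 4 := mul_le_mul_of_nonneg_left hLa (by positivity)
      _ = Z ^ 2 := by rw [hZ, hA]; ring
  have c4 : A * ρ ≤ Z / t ^ 54 := by
    rw [le_div_iff₀ hp]
    have h2 : ρ * t ^ 54 ≤ S := by
      apply le_of_sq_le_sq _ hS0.le
      calc (ρ * t ^ 54) ^ 2 = ρ ^ 2 * t ^ 108 := by ring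
        _ = S * t ^ 109 := by rw [hρ2]; ring
        _ ≤ S * t ^ 112 := mul_le_mul_of_nonneg_left (hmono _ _ (by norm_num)) hS0.le
        _ ≤ S * S := mul_le_mul_of_nonneg_left hS hS0.le
        _ = S ^ 2 := by ring
    calc A * ρ * t ^ 54 = A * (ρ * t ^ 54) := by ring
      _ ≤ A * S := mul_le_mul_of_nonneg_left h2 hA0.le
  have c5 : A * h1 ^ 2 ≤ Z / t ^ 54 := by
    rw [le_div_iff₀ hp]
    have e1 : A * h1 ^ 2 * t ^ 54 = S * (M ^ 2 * S * t ^ 72) / a ^ 2 := by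
      rw [hh1, hA, hL]; field_simp
    rw [e1, div_le_iff₀ (by positivity)]
    calc S * (M ^ 2 * S * t ^ 72) ≤ S * (M ^ 2 * S * t ^ 128) := by
          apply mul_le_mul_of_nonneg_left _ hS0.le
          exact mul_le_mul_of_nonneg_left (hmono _ _ (by norm_num)) (by positivity)
      _ ≤ S * a ^ 4 := mul_le_mul_of_nonneg_left hLa hS0.le
      _ = Z * a ^ 2 := by rw [hZ, hA]; ring
  have c6 : A ≤ Z / t ^ 54 := by
    rw [le_div_iff₀ hp]
    exact mul_le_mul_of_nonneg_left ((hmono 54 112 (by norm_num)).trans hS) hA0.le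
  have hH2 : H ^ 2 ≤ 2 * h1 ^ 2 + 2 := by
    have : H ^ 2 ≤ (h1 + 1) ^ 2 := pow_le_pow_left₀ hH0 hH1 2
    nlinarith [sq_nonneg (h1 - 1)]
  have hHr : H * √(L / d) ≤ (h1 + 1) * ρ := mul_le_mul hH1 hr2 (Real.sqrt_nonneg _) (by positivity)
  calc A * (√(H * L) + H * √(L / d) + H ^ 2)
      ≤ A * ((L / a * t ^ 5 + √L) + (h1 + 1) * ρ + (2 * h1 ^ 2 + 2)) := by
        apply mul_le_mul_of_nonneg_left _ hA0.le
        linarith
    _ = A * (L / a * t ^ 5) + A * √L + A * (h1 * ρ) + A * ρ + 2 * (A * h1 ^ 2) + 2 * A := by ring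
    _ ≤ 8 * (Z / t ^ 54) := by linarith
    _ = 8 * Z / t ^ 54 := by ring


theorem prs_card {L : ℝ} {d : ℕ} (hL : 1 ≤ L) : ((prs L d).card : ℝ) ≤ 2 * L ^ 2 := by
  unfold prs
  have h1 : ((Ioc ⌊L⌋₊ ⌊5 / 4 * L⌋₊).card : ℝ) ≤ 5 / 4 * L := by
    rw [Nat.card_Ioc]
    calc ((⌊5 / 4 * L⌋₊ - ⌊L⌋₊ : ℕ) : ℝ) ≤ (⌊5 / 4 * L⌋₊ : ℝ) := by
          exact_mod_cast Nat.sub_le _ _
      _ ≤ 5 / 4 * L := Nat.floor_le (by positivity)
  calc _ ≤ (((Ioc ⌊L⌋₊ ⌊5 / 4 * L⌋₊) ×ˢ (Ioc ⌊L⌋₊ ⌊5 / 4 * L⌋₊)).card : ℝ) := by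
        exact_mod_cast card_filter_le _ _
    _ = ((Ioc ⌊L⌋₊ ⌊5 / 4 * L⌋₊).card : ℝ) * ((Ioc ⌊L⌋₊ ⌊5 / 4 * L⌋₊).card : ℝ) := by
        rw [card_product]; push_cast; ring
    _ ≤ 5 / 4 * L * (5 / 4 * L) := mul_le_mul h1 h1 (by positivity) (by positivity)
    _ ≤ 2 * L ^ 2 := by nlinarith

/-- the frequencies, with `t` -/
theorem third {A L S t CB e : ℝ} {d D H : ℕ} (ht : 1 ≤ t) (hA : 1 ≤ A) (hL : 1 ≤ L)
    (hCB : 0 < CB) (hD : 1 ≤ D) (hDt : (D : ℝ) ≤ t)
    (hn : ((Nat.log 2 (2 * H) + 1 : ℕ) : ℝ) ≤ t) (hpow : (2 * H * L) ^ e ≤ t)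
    (hex : A * (√(H * L) + H * √(L / d) + H ^ 2) ≤ 8 * (A * S) / t ^ 54) (hS : 0 ≤ S) :
    4 / (1 / t ^ 8) ^ 2 * (2 * A / (D * L) * ((gI + 1) *
      ((Nat.log 2 (2 * H) + 1 : ℕ) * bil1 e CB L d D H))) ≤
      2048 * CB * (gI + 1) * (A * S) / t ^ 6 := by
  have ht0 : 0 < t := by linarith
  have hA0 : 0 < A := by linarith
  have hL0 : 0 < L := by linarith
  have hD0 : (0 : ℝ) < D := by exact_mod_cast hD
  have hg : 0 < gI + 1 := by linarith [gI_nonneg]
  have hr0 : 0 ≤ (2 * (H : ℝ) * L) ^ e := Real.rpow_nonneg (by positivity) _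
  set E := √(H * L) + H * √(L / d) + (H : ℝ) ^ 2 with hE
  have hE0 : 0 ≤ E := by positivity
  have hE1 : √(2 * H * L) + 2 * H * √(L / d) + (2 * (H : ℝ)) ^ 2 ≤ 4 * E := by
    have h1 : √(2 * H * L) ≤ 2 * √(H * L) := by
      apply Real.sqrt_le_iff.mpr
      refine ⟨by positivity, ?_⟩
      rw [mul_pow, Real.sq_sqrt (by positivity)]
      have : 0 ≤ (H : ℝ) * L := by positivity
      linarith
    have h2 : 0 ≤ √(H * L) := Real.sqrt_nonneg _
    have h3 : 0 ≤ H * √(L / d) := by positivity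
    rw [hE]
    nlinarith
  have hb : bil1 e CB L d D H ≤ CB * (8 * (D : ℝ) ^ 3) * t * L * (4 * E) := by
    unfold bil1
    have e1 : (2 * (D : ℝ)) ^ 3 = 8 * (D : ℝ) ^ 3 := by ring
    rw [e1]
    apply mul_le_mul _ hE1 (by positivity) (by positivity)
    apply mul_le_mul_of_nonneg_right _ hL0.le
    exact mul_le_mul_of_nonneg_left hpow (by positivity)
  have hb0 : 0 ≤ bil1 e CB L d D H := bil1_nonneg hCB hL0
  calc 4 / (1 / t ^ 8) ^ 2 * (2 * A / (D * L) * ((gI + 1) *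
      ((Nat.log 2 (2 * H) + 1 : ℕ) * bil1 e CB L d D H)))
      ≤ 4 / (1 / t ^ 8) ^ 2 * (2 * A / (D * L) * ((gI + 1) *
        (t * (CB * (8 * (D : ℝ) ^ 3) * t * L * (4 * E))))) := by
        gcongr
    _ = 256 * CB * (gI + 1) * t ^ 18 * (D : ℝ) ^ 2 * (A * E) := by field_simp; ring
    _ ≤ 256 * CB * (gI + 1) * t ^ 18 * t ^ 2 * (8 * (A * S) / t ^ 54) := by
        gcongr
    _ = 2048 * CB * (gI + 1) * (A * S) / t ^ 34 := by field_simp; ring
    _ ≤ 2048 * CB * (gI + 1) * (A * S) / t ^ 6 := by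
        apply div_le_div_of_nonneg_left (by positivity) (by positivity)
        exact pow_le_pow_right₀ ht (by norm_num)

theorem main (hBIL : SpecBIL) (hPOI : SpecPOI) (hCOUNT : SpecCOUNT) : SpecKER := by
  intro τ hτ
  obtain ⟨Lk, hLk, hkB⟩ := bump_lip kB
  obtain ⟨Lg, hLg, hgB⟩ := bump_lip gB
  set c0 := min τ (1 / 16) with hc0
  have hc0p : 0 < c0 := lt_min hτ (by norm_num)
  have hc01 : c0 ≤ τ := min_le_left _ _
  have hc02 : c0 ≤ 1 / 16 := min_le_right _ _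
  set s := c0 / 128 with hs
  have hs0 : 0 < s := by positivity
  have hs1 : 128 * s ≤ τ := by rw [hs]; linarith
  have hs2 : 128 * s ≤ 1 / 16 := by rw [hs]; linarith
  obtain ⟨Cc, hCc, hcount⟩ := hCOUNT s hs0
  obtain ⟨CB, hCB, hbil⟩ := hBIL (s / 4) (by positivity)
  set j := ⌈3 / (8 * s)⌉₊ with hj
  obtain ⟨CP, hCP, hpoi⟩ := hPOI j
  have hj3 : 3 ≤ 8 * s * ((j : ℝ) + 1) := by
    have h1 := Nat.le_ceil (3 / (8 * s))
    rw [← hj] at h1
    rw [div_le_iff₀ (by positivity)] at h1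
    linarith
  have hgI := gI_nonneg
  set Ctot := Cc * (10 * Lk + 13 * Lg) + 2 * CP * (5 / 2) ^ (j + 1) + 2048 * CB * (gI + 1) +
    5 / 2 * gI * (12 * Lk + 6) with hCtot
  -- large T
  have ev1 : ∀ᶠ T : ℝ in atTop, 2 ≤ T ^ s := (tendsto_rpow_atTop hs0).eventually_ge_atTop 2
  have ev2 : ∀ᶠ T : ℝ in atTop, Ctot ≤ T ^ (5 * s) :=
    (tendsto_rpow_atTop (by positivity)).eventually_ge_atTop _
  have ev3 : ∀ᶠ T : ℝ in atTop, 4 ≤ T := eventually_ge_atTop 4
  have ev4 : ∀ᶠ T : ℝ in atTop, 3 + 2 * Real.logb 2 T ≤ T ^ s := by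
    have h1 := (isLittleO_log_rpow_atTop hs0).bound (show 0 < Real.log 2 / 4 by
      have := Real.log_pos (show (1 : ℝ) < 2 by norm_num)
      positivity)
    have h2 : ∀ᶠ T : ℝ in atTop, 6 ≤ T ^ s := (tendsto_rpow_atTop hs0).eventually_ge_atTop 6
    filter_upwards [h1, h2, eventually_ge_atTop 1] with T h1 h2 h3
    have hl2 := Real.log_pos (show (1 : ℝ) < 2 by norm_num)
    rw [Real.norm_of_nonneg (Real.log_nonneg h3),
      Real.norm_of_nonneg (Real.rpow_nonneg (by linarith) _)] at h1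
    have h4 : Real.logb 2 T ≤ T ^ s / 4 := by
      rw [Real.logb, div_le_iff₀ hl2]
      linarith
    linarith
  obtain ⟨X₀, hX₀⟩ := eventually_atTop.mp (((ev1.and ev2).and ev3).and ev4)
  refine ⟨s, hs0, by linarith, X₀, ?_⟩
  intro K L A d D b hX hK hKL hA hA34 hLM hM hDo hDs hd hd' hd1 hb hodd
  obtain ⟨⟨⟨f1, f2⟩, f3⟩, f4⟩ := hX₀ (K * L) hX
  set T := K * L with hT
  have hL : 1 ≤ L := hK.trans hKL
  have hK0 : 0 < K := by linarith
  have hL0 : 0 < L := by linarith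
  have hA0 : 0 < A := by linarith
  have hT0 : 0 < T := by positivity
  have hT1 : 1 ≤ T := by linarith
  set t := T ^ s with ht
  have ht0 : 0 < t := by linarith
  have ht1 : 1 ≤ t := by linarith
  have htn : ∀ n : ℕ, t ^ n = T ^ (n * s) := by
    intro n
    rw [ht, ← Real.rpow_natCast, ← Real.rpow_mul hT0.le, mul_comm]
  set M := √(L / K) with hMdef
  set S := √T with hSdef
  set a := √A with hadef
  have hM1 : 1 ≤ M := by
    rw [hMdef, Real.one_le_sqrt]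
    rw [le_div_iff₀ hK0]
    linarith
  have hLMS : L = M * S := by
    rw [hMdef, hSdef, ← Real.sqrt_mul (by positivity)]
    have : L / K * T = L ^ 2 := by rw [hT]; field_simp
    rw [this, Real.sqrt_sq hL0.le]
  have hAa : A = a ^ 2 := (Real.sq_sqrt hA0.le).symm
  have hSS : S ^ 2 = T := Real.sq_sqrt hT0.le
  have hS0 : 0 < S := Real.sqrt_pos.mpr hT0
  have hτt : T ^ (-τ) * t ^ 128 ≤ 1 := by
    rw [htn, ← Real.rpow_add hT0]
    apply Real.rpow_le_one_of_one_le_of_nonpos hT1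
    push_cast
    linarith
  have hLa : M ^ 2 * S * t ^ 128 ≤ a ^ 4 := by
    calc M ^ 2 * S * t ^ 128 = L * M * t ^ 128 := by rw [hLMS]; ring
      _ ≤ A ^ 2 * T ^ (-τ) * t ^ 128 := mul_le_mul_of_nonneg_right hLM (by positivity)
      _ = A ^ 2 * (T ^ (-τ) * t ^ 128) := by ring
      _ ≤ A ^ 2 * 1 := mul_le_mul_of_nonneg_left hτt (by positivity)
      _ = a ^ 4 := by rw [hAa]; ring
  have hMa : M * t ^ 128 ≤ a := by
    calc M * t ^ 128 ≤ a * T ^ (-τ) * t ^ 128 := mul_le_mul_of_nonneg_right hM (by positivity)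
      _ = a * (T ^ (-τ) * t ^ 128) := by ring
      _ ≤ a * 1 := mul_le_mul_of_nonneg_left hτt (Real.sqrt_nonneg _)
      _ = a := mul_one a
  have hAT : A ≤ T := hA34.trans (by
    calc T ^ (3 / 4 : ℝ) ≤ T ^ (1 : ℝ) := Real.rpow_le_rpow_of_exponent_le hT1 (by norm_num)
      _ = T := Real.rpow_one T)
  have haS : a ≤ S := Real.sqrt_le_sqrt hAT
  have hS112 : t ^ 112 ≤ S := by
    rw [htn, hSdef, Real.sqrt_eq_rpow]
    apply Real.rpow_le_rpow_of_exponent_le hT1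
    push_cast
    linarith
  have hAt7 : A * t ^ 7 ≤ T := by
    calc A * t ^ 7 ≤ T ^ (3 / 4 : ℝ) * T ^ (1 / 4 : ℝ) := by
          apply mul_le_mul hA34 _ (by positivity) (by positivity)
          rw [htn]
          apply Real.rpow_le_rpow_of_exponent_le hT1
          push_cast
          linarith
      _ = T := by rw [← Real.rpow_add hT0]; norm_num
  have hMt : M / t ≤ d := by
    calc M / t = M * T ^ (-s) := by rw [Real.rpow_neg hT0.le]; rfl
      _ ≤ d := hd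
  have hD1 : 1 ≤ D := hDo.pos
  have hD1r : (1 : ℝ) ≤ D := by exact_mod_cast hD1
  have hp2 : ∀ n : ℕ, (2 : ℝ) ^ n ≤ t ^ n := fun n => pow_le_pow_left₀ (by norm_num) f1 n
  have ctx : Ctx K L A (1 / t ^ 8) (1 / t ^ 7) d D := by
    refine ⟨hd1, hDo, hL, hK, hA, hd', by positivity, ?_, ?_, ?_, ?_, ?_⟩
    · rw [div_le_div_iff₀ (by positivity) (by norm_num)]
      have := hp2 8
      norm_num at this
      linarith
    · rw [div_le_div_iff₀ (by positivity) (by norm_num)]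
      have := hp2 7
      norm_num at this
      linarith
    · apply div_le_div_of_nonneg_left (by norm_num) (by positivity)
      exact pow_le_pow_right₀ ht1 (by norm_num)
    · rw [one_div, ← div_eq_inv_mul, le_div_iff₀ (by positivity)]
      exact hAt7
    · have hMK : M * √K = √L := by
        rw [hMdef, ← Real.sqrt_mul (by positivity)]
        congr 1
        field_simp
      rw [div_le_iff₀ ht0] at hMt
      have e1 : √L * (1 / t ^ 8) = M * √K / t ^ 8 := by rw [hMK]; ring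
      have e2 : (d : ℝ) * √K * (1 / t ^ 7) = d * t * √K / t ^ 8 := by field_simp
      rw [e1, e2]
      apply div_le_div_of_nonneg_right _ (by positivity)
      exact mul_le_mul_of_nonneg_right hMt (Real.sqrt_nonneg _)
  set x := (D : ℝ) * (L / A) * t ^ 8 with hx
  have hx0 : 0 < x := by positivity
  set H := ⌈x⌉₊ with hH
  have hH1 : 1 ≤ H := Nat.ceil_pos.mpr hx0
  have hHx : x ≤ H := Nat.le_ceil x
  have hHx' : (H : ℝ) ≤ x + 1 := (Nat.ceil_lt_add_one hx0.le).le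
  have hH0 : (0 : ℝ) < H := by exact_mod_cast hH1
  have hraw := raw ctx hLk.le hLg.le hkB hgB hCP hpoi (show 0 < s / 4 by positivity) hCB hbil
    b hb hodd hH1
  refine hraw.trans ?_
  set Z := A * S with hZ
  have hZ1 : 1 ≤ Z := by
    rw [hZ]
    have : 1 ≤ S := (one_le_pow₀ (n := 112) ht1).trans hS112
    exact one_le_mul_of_one_le_of_one_le hA this
  have hZ0 : 0 < Z := by linarith
  have hexp := expo (d := (d : ℝ)) (D := (D : ℝ)) (H := (H : ℝ)) ht1 hM1 haS hS112 hLMS hLa hMa hAa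
    hMt hD1r hDs hHx' hH0.le
  -- H and L are at most powers of T
  have hLT : L ≤ T := le_mul_of_one_le_left hL0.le hK
  have ht9 : t ^ 9 ≤ T := by
    rw [htn]
    calc T ^ (((9 : ℕ) : ℝ) * s) ≤ T ^ (1 : ℝ) := by
          apply Real.rpow_le_rpow_of_exponent_le hT1
          push_cast
          linarith
      _ = T := Real.rpow_one T
  have hxT : x ≤ T ^ 2 := by
    calc x ≤ t * L * t ^ 8 := by
          rw [hx]
          have : L / A ≤ L := div_le_self hL0.le hA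
          gcongr
      _ = L * t ^ 9 := by ring
      _ ≤ T * T := mul_le_mul hLT ht9 (by positivity) hT0.le
      _ = T ^ 2 := by ring
  have hHT : 2 * (H : ℝ) ≤ 4 * T ^ 2 := by
    have h1 : 1 ≤ T ^ 2 := one_le_pow₀ hT1
    linarith only [hHx', hxT, h1]
  have hn : ((Nat.log 2 (2 * H) + 1 : ℕ) : ℝ) ≤ t := by
    have h1 : (Nat.log 2 (2 * H) : ℝ) ≤ Real.logb 2 ((2 * H : ℕ) : ℝ) := by
      have := Real.natLog_le_logb (2 * H) 2
      exact_mod_cast this
    have h2 : Real.logb 2 ((2 * H : ℕ) : ℝ) ≤ Real.logb 2 (4 * T ^ 2) := by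
      apply Real.logb_le_logb_of_le (by norm_num)
      · push_cast; positivity
      · push_cast; exact hHT
    have h3 : Real.logb 2 (4 * T ^ 2) = 2 + 2 * Real.logb 2 T := by
      rw [Real.logb_mul (by norm_num) (by positivity), Real.logb_pow]
      have : Real.logb 2 4 = 2 := by
        rw [show (4 : ℝ) = 2 ^ (2 : ℕ) by norm_num, Real.logb_pow]
        norm_num
      rw [this]
      norm_num
    push_cast
    linarith
  have hpow : (2 * (H : ℝ) * L) ^ (s / 4) ≤ t := by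
    have h1 : 2 * (H : ℝ) * L ≤ T ^ 4 := by
      calc 2 * (H : ℝ) * L ≤ 4 * T ^ 2 * T := mul_le_mul hHT hLT hL0.le (by positivity)
        _ ≤ T * T ^ 2 * T := by gcongr
        _ = T ^ 4 := by ring
    calc (2 * (H : ℝ) * L) ^ (s / 4) ≤ (T ^ 4) ^ (s / 4) :=
          Real.rpow_le_rpow (by positivity) h1 (by positivity)
      _ = t := by
          rw [ht, ← Real.rpow_natCast, ← Real.rpow_mul hT0.le]
          congr 1
          push_cast
          ring
  have hE2 := third (e := s / 4) ht1 hA hL hCB hD1 hDs hn hpow hexp hS0.le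
  -- E1
  have hE1 : ((((Icc 1 ⌊4 * K⌋₊) ×ˢ (prs L d)).filter (fun t => Odd t.2.1 ∧ Odd t.2.2 ∧
        |aq d t.1 t.2.1 t.2.2| ≤ 4 * A)).card : ℝ) * ((10 * Lk + 13 * Lg) * (1 / t ^ 7)) ≤
      Cc * (10 * Lk + 13 * Lg) * Z / t ^ 6 := by
    have h1 := hcount K L A d hK hKL hA (by
      rw [le_div_iff₀ (by norm_num)]
      have h7 := hp2 7
      norm_num at h7
      have h8 : A * 100 ≤ A * t ^ 7 := mul_le_mul_of_nonneg_left (by linarith only [h7]) hA0.le
      exact h8.trans hAt7) hd1 hd'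
    calc _ ≤ Cc * T ^ s * A * √T * ((10 * Lk + 13 * Lg) * (1 / t ^ 7)) :=
          mul_le_mul_of_nonneg_right h1 (by positivity)
      _ = Cc * (10 * Lk + 13 * Lg) * Z / t ^ 6 := by
          rw [← ht, ← hSdef, hZ]
          field_simp
  -- E3
  have hE3 : ((prs L d).card : ℝ) * (CP * (2 * D * (5 / 4 * L / A)) ^ (j + 1) / (H : ℝ) ^ (j + 1)) ≤
      2 * CP * (5 / 2) ^ (j + 1) * Z / t ^ 6 := by
    have h1 : (2 * (D : ℝ) * (5 / 4 * L / A)) ^ (j + 1) / (H : ℝ) ^ (j + 1) ≤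
        (5 / 2) ^ (j + 1) * (1 / T ^ 3) := by
      rw [← div_pow]
      have h2 : 2 * (D : ℝ) * (5 / 4 * L / A) / H ≤ 5 / 2 * (1 / t ^ 8) := by
        rw [div_le_iff₀ hH0]
        calc 2 * (D : ℝ) * (5 / 4 * L / A) = 5 / 2 * (1 / t ^ 8) * x := by rw [hx]; field_simp; norm_num
          _ ≤ 5 / 2 * (1 / t ^ 8) * H := mul_le_mul_of_nonneg_left hHx (by positivity)
      calc (2 * (D : ℝ) * (5 / 4 * L / A) / H) ^ (j + 1) ≤ (5 / 2 * (1 / t ^ 8)) ^ (j + 1) :=
            pow_le_pow_left₀ (by positivity) h2 _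
        _ = (5 / 2) ^ (j + 1) * (1 / (t ^ 8) ^ (j + 1)) := by rw [mul_pow, one_div_pow]
        _ ≤ (5 / 2) ^ (j + 1) * (1 / T ^ 3) := by
            apply mul_le_mul_of_nonneg_left _ (by positivity)
            apply one_div_le_one_div_of_le (by positivity)
            rw [← pow_mul, htn, ← Real.rpow_natCast]
            apply Real.rpow_le_rpow_of_exponent_le hT1
            push_cast
            linarith
    have h3 := prs_card (d := d) hL
    have h6 : t ^ 6 ≤ T := (pow_le_pow_right₀ ht1 (by norm_num)).trans ht9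
    calc ((prs L d).card : ℝ) * (CP * (2 * D * (5 / 4 * L / A)) ^ (j + 1) / (H : ℝ) ^ (j + 1))
        = ((prs L d).card : ℝ) * (CP * ((2 * D * (5 / 4 * L / A)) ^ (j + 1) / (H : ℝ) ^ (j + 1))) := by
          ring
      _ ≤ (2 * T ^ 2) * (CP * ((5 / 2) ^ (j + 1) * (1 / T ^ 3))) := by
          apply mul_le_mul _ _ (by positivity) (by positivity)
          · calc ((prs L d).card : ℝ) ≤ 2 * L ^ 2 := h3
              _ ≤ 2 * T ^ 2 := by gcongr
          · exact mul_le_mul_of_nonneg_left h1 hCP.le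
      _ = 2 * CP * (5 / 2) ^ (j + 1) * (1 / T) := by field_simp
      _ ≤ 2 * CP * (5 / 2) ^ (j + 1) * (Z / t ^ 6) := by
          apply mul_le_mul_of_nonneg_left _ (by positivity)
          rw [div_le_div_iff₀ hT0 (by positivity)]
          calc 1 * t ^ 6 = t ^ 6 := one_mul _
            _ ≤ T := h6
            _ ≤ Z * T := le_mul_of_one_le_left hT0.le hZ1
      _ = _ := by ring
  -- E4
  have hE4 : 5 / 2 * gI * (12 * Lk + 6) * (1 / t ^ 7) * (A * √T) ≤
      5 / 2 * gI * (12 * Lk + 6) * Z / t ^ 6 := by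
    have : 1 / t ^ 7 ≤ 1 / t ^ 6 := by
      apply div_le_div_of_nonneg_left (by norm_num) (by positivity)
      exact pow_le_pow_right₀ ht1 (by norm_num)
    calc 5 / 2 * gI * (12 * Lk + 6) * (1 / t ^ 7) * (A * √T)
        ≤ 5 / 2 * gI * (12 * Lk + 6) * (1 / t ^ 6) * (A * √T) := by gcongr
      _ = _ := by rw [← hSdef, hZ]; ring
  have hfin : Ctot * Z / t ^ 6 ≤ A * √T * T ^ (-s) := by
    have h5 : Ctot ≤ t ^ 5 := by
      rw [htn]
      exact_mod_cast f2
    rw [Real.rpow_neg hT0.le, ← ht, ← hSdef, ← hZ, ← div_eq_mul_inv,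
      div_le_div_iff₀ (by positivity) ht0]
    calc Ctot * Z * t ≤ t ^ 5 * Z * t := by gcongr
      _ = Z * t ^ 6 := by ring
  have hsum : Cc * (10 * Lk + 13 * Lg) * Z / t ^ 6 + 2 * CP * (5 / 2) ^ (j + 1) * Z / t ^ 6 +
      2048 * CB * (gI + 1) * Z / t ^ 6 + 5 / 2 * gI * (12 * Lk + 6) * Z / t ^ 6 =
      Ctot * Z / t ^ 6 := by
    rw [hCtot]; ring
  rw [← hsum] at hfin
  linarith

end

end Pool.Agent.Lib.MP391708.QPA.KER

namespace Pool.Agent.Lib.MP391708.QPA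

/-- KER -/
theorem specKER (hBIL : SpecBIL) (hPOI : SpecPOI) (hCOUNT : SpecCOUNT) : SpecKER :=
  KER.main hBIL hPOI hCOUNT

end Pool.Agent.Lib.MP391708.QPA
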