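import Pool.Agent.Lib.MP_391708_nt.QPA.Spec

/-!
# The function `rho`
-/

set_option autoImplicit false

namespace Pool.Agent.Lib.MP391708.QPA

open Finset

namespace RHO

/-- `rho` as a number of elements of `ZMod k` -/
lemma rho_eq_card (a : ℤ) (k : ℕ) [NeZero k] :
    rho a k = (Finset.univ.filter (fun x : ZMod k => x ^ 2 + (a : ZMod k) = 0)).card := by
  classical
  unfold rho
  apply Finset.card_bij (fun (ν : ℕ) _ => (ν : ZMod k))
  · intro ν hν
    rw [Finset.mem_filter] at hν ⊢
    refine ⟨Finset.mem_univ _, ?_⟩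
    have h := (ZMod.intCast_zmod_eq_zero_iff_dvd ((ν : ℤ) ^ 2 + a) k).2 hν.2
    push_cast at h
    exact h
  · intro ν hν μ hμ h
    rw [Finset.mem_filter, Finset.mem_range] at hν hμ
    have h1 := congrArg ZMod.val h
    rwa [ZMod.val_natCast, ZMod.val_natCast, Nat.mod_eq_of_lt hν.1, Nat.mod_eq_of_lt hμ.1] at h1
  · intro x hx
    rw [Finset.mem_filter] at hx
    refine ⟨x.val, ?_, ZMod.natCast_zmod_val x⟩
    rw [Finset.mem_filter, Finset.mem_range]
    refine ⟨ZMod.val_lt x, ?_⟩
    rw [← ZMod.intCast_zmod_eq_zero_iff_dvd]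
    push_cast
    rw [ZMod.natCast_zmod_val]
    exact hx.2

lemma rho_mul (a : ℤ) (j k : ℕ) (h : Nat.Coprime j k) (hj : 1 ≤ j) (hk : 1 ≤ k) :
    rho a (j * k) = rho a j * rho a k := by
  classical
  have : NeZero j := ⟨by omega⟩
  have : NeZero k := ⟨by omega⟩
  have : NeZero (j * k) := ⟨by positivity⟩
  rw [rho_eq_card, rho_eq_card, rho_eq_card, ← Finset.card_product]
  let e := ZMod.chineseRemainder h
  apply Finset.card_bij (fun x _ => e x)
  · intro x hx
    rw [Finset.mem_filter] at hx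
    rw [Finset.mem_product, Finset.mem_filter, Finset.mem_filter]
    have h1 : e (x ^ 2 + (a : ZMod (j * k))) = 0 := by rw [hx.2, map_zero]
    rw [map_add, map_pow, map_intCast] at h1
    refine ⟨⟨Finset.mem_univ _, ?_⟩, ⟨Finset.mem_univ _, ?_⟩⟩
    · simpa using congrArg Prod.fst h1
    · simpa using congrArg Prod.snd h1
  · intro x _ y _ hxy
    exact e.injective hxy
  · intro y hy
    rw [Finset.mem_product, Finset.mem_filter, Finset.mem_filter] at hy
    refine ⟨e.symm y, ?_, e.apply_symm_apply y⟩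
    rw [Finset.mem_filter]
    refine ⟨Finset.mem_univ _, ?_⟩
    apply e.injective
    rw [map_add, map_pow, map_intCast, map_zero, e.apply_symm_apply]
    ext
    · simpa using hy.1.2
    · simpa using hy.2.2

lemma rho_one (a : ℤ) : rho a 1 = 1 := by
  unfold rho
  simp

lemma rho_prime (a : ℤ) (p : ℕ) (hp : p.Prime) (h2 : p ≠ 2) :
    (rho a p : ℤ) = 1 + jacobiSym (-a) p := by
  classical
  have : Fact p.Prime := ⟨hp⟩
  rw [rho_eq_card, ← jacobiSym.legendreSym.to_jacobiSym, add_comm, ← legendreSym.card_sqrts p h2]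
  congr 1
  apply congrArg
  ext x
  simp only [Finset.mem_filter, Finset.mem_univ, true_and, Set.mem_toFinset, Set.mem_ofPred_eq]
  push_cast
  constructor
  · intro h
    linear_combination h
  · intro h
    linear_combination h

lemma rho_two (a : ℤ) : rho a 2 = 1 := by
  unfold rho
  rcases Int.even_or_odd a with h | h
  · have : (range 2).filter (fun ν : ℕ => ((2 : ℕ) : ℤ) ∣ (ν : ℤ) ^ 2 + a) = {0} := by
      ext ν
      simp only [mem_filter, mem_range, mem_singleton]
      constructor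
      · rintro ⟨h1, h2⟩
        interval_cases ν
        · rfl
        · obtain ⟨b, rfl⟩ := h
          push_cast at h2
          omega
      · rintro rfl
        obtain ⟨b, rfl⟩ := h
        exact ⟨by norm_num, ⟨b, by push_cast; ring⟩⟩
    rw [this, card_singleton]
  · have : (range 2).filter (fun ν : ℕ => ((2 : ℕ) : ℤ) ∣ (ν : ℤ) ^ 2 + a) = {1} := by
      ext ν
      simp only [mem_filter, mem_range, mem_singleton]
      constructor
      · rintro ⟨h1, h2⟩
        interval_cases ν
        · obtain ⟨b, rfl⟩ := h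
          push_cast at h2
          omega
        · rfl
      · rintro rfl
        obtain ⟨b, rfl⟩ := h
        exact ⟨by norm_num, ⟨b + 1, by push_cast; ring⟩⟩
    rw [this, card_singleton]

/-- `rho` of a squarefree number is the product over the primes -/
lemma rho_squarefree (a : ℤ) (k : ℕ) (hk : Squarefree k) :
    rho a k = ∏ p ∈ k.primeFactors, rho a p := by
  induction k using Nat.recOnPosPrimePosCoprime with
  | prime_pow p n hp hn =>
    have hn1 : n = 1 := by
      rcases Nat.lt_or_ge n 2 with h | h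
      · omega
      · exfalso
        have : p ^ 2 ∣ p ^ n := pow_dvd_pow p h
        have h3 := hk p (by rw [← sq]; exact this)
        exact hp.one_lt.ne' (Nat.isUnit_iff.1 h3)
    subst hn1
    rw [pow_one, hp.primeFactors, prod_singleton]
  | zero => exact absurd hk not_squarefree_zero
  | one => simp [rho_one]
  | coprime m n hm hn hmn ihm ihn =>
    rw [Nat.squarefree_mul_iff] at hk
    rw [rho_mul a m n hmn (by omega) (by omega), ihm hk.2.1, ihn hk.2.2,
      hmn.primeFactors_mul, prod_union hmn.disjoint_primeFactors]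

lemma rho_prime_le (a : ℤ) (p : ℕ) (hp : p.Prime) : rho a p ≤ 2 := by
  by_cases h2 : p = 2
  · subst h2
    rw [rho_two]
    norm_num
  · have h := rho_prime a p hp h2
    have h3 : jacobiSym (-a) p ≤ 1 := by
      rcases jacobiSym.trichotomy (-a) p with h | h | h <;> rw [h] <;> norm_num
    omega

lemma rho_le_self (a : ℤ) (k : ℕ) : rho a k ≤ k := by
  unfold rho
  exact (card_filter_le _ _).trans (card_range k).le

end RHO

theorem specRHO1 : SpecRHO1 := RHO.rho_one

theorem specRHOM : SpecRHOM := RHO.rho_mul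

theorem specRHOP : SpecRHOP := RHO.rho_prime

theorem specRHO2 : SpecRHO2 := RHO.rho_two

theorem specRHOS : SpecRHOS := by
  intro a k hk
  rw [RHO.rho_squarefree a k hk]
  calc ∏ p ∈ k.primeFactors, rho a p ≤ ∏ p ∈ k.primeFactors, 2 :=
        Finset.prod_le_prod' fun p hp => RHO.rho_prime_le a p (Nat.prime_of_mem_primeFactors hp)
    _ = 2 ^ k.primeFactors.card := by rw [prod_const]

theorem specRHOD : SpecRHOD := by
  intro a k hodd hsq
  rw [RHO.rho_squarefree a k hsq]
  push_cast
  let f : ArithmeticFunction ℤ := ⟨fun e => if e = 0 then 0 else jacobiSym (-a) e, by simp⟩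
  have hf : f.IsMultiplicative := by
    refine ⟨by simp [f], ?_⟩
    intro m n hmn
    by_cases hm : m = 0
    · subst hm
      simp [f]
    by_cases hn : n = 0
    · subst hn
      simp [f]
    have : NeZero m := ⟨hm⟩
    have : NeZero n := ⟨hn⟩
    simp [f, hm, hn, jacobiSym.mul_right]
  have h1 := hf.prodPrimeFactors_one_add_of_squarefree hsq
  have h2 : ∏ p ∈ k.primeFactors, (rho a p : ℤ) = ∏ p ∈ k.primeFactors, (1 + f p) := by
    apply prod_congr rfl
    intro p hp
    have hp' := Nat.prime_of_mem_primeFactors hp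
    have hp2 : p ≠ 2 := by
      rintro rfl
      have : 2 ∣ k := Nat.dvd_of_mem_primeFactors hp
      exact (Nat.not_even_iff_odd.2 hodd) (even_iff_two_dvd.2 this)
    rw [RHO.rho_prime a p hp' hp2]
    simp [f, hp'.ne_zero]
  rw [h2, h1]
  apply sum_congr rfl
  intro e he
  have : e ≠ 0 := (Nat.pos_of_mem_divisors he).ne'
  simp [f, this]

theorem specRHOC : SpecRHOC := by
  intro a k x H hk
  have hk0 : (0 : ℝ) < k := by exact_mod_cast hk
  set R := (range k).filter (fun ν : ℕ => (k : ℤ) ∣ (ν : ℤ) ^ 2 + a) with hR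
  have hcard : rho a k = R.card := rfl
  have h1 : (Ioc x (x + H)).filter (fun n => k ∣ val a n)
      = R.biUnion (fun ν => (Ioc x (x + H)).filter (fun n => n ≡ ν [MOD k])) := by
    ext n
    simp only [mem_filter, mem_biUnion, hR, mem_range]
    have key : ∀ ν : ℕ, n ≡ ν [MOD k] → ((k : ℤ) ∣ (n : ℤ) ^ 2 + a ↔ (k : ℤ) ∣ (ν : ℤ) ^ 2 + a) := by
      intro ν hν
      have h2 : (k : ℤ) ∣ (n : ℤ) - ν := by
        have := (Int.natCast_modEq_iff.2 hν).symm.dvd
        simpa using this
      have h3 : (k : ℤ) ∣ ((n : ℤ) ^ 2 + a) - ((ν : ℤ) ^ 2 + a) := by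
        have : ((n : ℤ) ^ 2 + a) - ((ν : ℤ) ^ 2 + a) = ((n : ℤ) - ν) * (n + ν) := by ring
        rw [this]
        exact Dvd.dvd.mul_right h2 _
      constructor
      · intro h
        have h5 := dvd_sub h h3
        rwa [sub_sub_cancel] at h5
      · intro h
        have h5 := dvd_add h3 h
        rwa [sub_add_cancel] at h5
    have hv : (k ∣ val a n) ↔ (k : ℤ) ∣ (n : ℤ) ^ 2 + a := by
      unfold val
      rw [Int.natCast_dvd]
    constructor
    · rintro ⟨hn, hd⟩
      refine ⟨n % k, ⟨Nat.mod_lt _ hk, ?_⟩, hn, ?_⟩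
      · exact (key (n % k) (Nat.mod_modEq n k).symm).1 (hv.1 hd)
      · exact (Nat.mod_modEq n k).symm
    · rintro ⟨ν, ⟨_, h3⟩, hn, h4⟩
      exact ⟨hn, hv.2 ((key ν h4).2 h3)⟩
  have h2 : (((Ioc x (x + H)).filter (fun n => k ∣ val a n)).card : ℝ)
      = ∑ ν ∈ R, (((Ioc x (x + H)).filter (fun n => n ≡ ν [MOD k])).card : ℝ) := by
    rw [h1, card_biUnion]
    · push_cast
      rfl
    · intro ν hν μ hμ hne
      show Disjoint _ _
      rw [disjoint_left]
      intro n hn1 hn2
      rw [mem_filter] at hn1 hn2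
      have hν' := Finset.mem_coe.1 hν
      have hμ' := Finset.mem_coe.1 hμ
      rw [hR, mem_filter, mem_range] at hν' hμ'
      apply hne
      have := hn1.2.symm.trans hn2.2
      rwa [Nat.ModEq, Nat.mod_eq_of_lt hν'.1, Nat.mod_eq_of_lt hμ'.1] at this
  have h3 : ∀ ν ∈ R, |(((Ioc x (x + H)).filter (fun n => n ≡ ν [MOD k])).card : ℝ) - (H : ℝ) / k| ≤ 1 := by
    intro ν _
    have hk' : 0 < k := hk
    have hc := Nat.Ioc_filter_modEq_card (a := x) (b := x + H) hk' ν
    set c := ((Ioc x (x + H)).filter (fun n => n ≡ ν [MOD k])).card with hcdef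
    set u : ℚ := (((x + H : ℕ) : ℚ) - ν) / k with hu
    set v : ℚ := ((x : ℚ) - ν) / k with hv
    have huv : v ≤ u := by
      rw [hu, hv]
      gcongr
      push_cast
      linarith [(Nat.cast_nonneg H : (0 : ℚ) ≤ H)]
    have hfl : ⌊v⌋ ≤ ⌊u⌋ := Int.floor_mono huv
    have hc2 : (c : ℤ) = ⌊u⌋ - ⌊v⌋ := by
      rw [hcdef, hc]
      exact max_eq_left (by linarith)
    have hd : u - v = (H : ℚ) / k := by
      rw [hu, hv]
      push_cast
      ring
    have h4 : |((c : ℤ) : ℚ) - (H : ℚ) / k| ≤ 1 := by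
      rw [hc2, ← hd]
      push_cast
      rw [abs_le]
      have e1 := Int.floor_le u
      have e2 := Int.lt_floor_add_one u
      have e3 := Int.floor_le v
      have e4 := Int.lt_floor_add_one v
      constructor <;> linarith
    have h5 : ((|((c : ℤ) : ℚ) - (H : ℚ) / k| : ℚ) : ℝ) ≤ ((1 : ℚ) : ℝ) := by exact_mod_cast h4
    push_cast at h5
    exact h5
  rw [h2, hcard]
  have h4 : (∑ ν ∈ R, (((Ioc x (x + H)).filter (fun n => n ≡ ν [MOD k])).card : ℝ))
      - (R.card : ℝ) * H / k
      = ∑ ν ∈ R, ((((Ioc x (x + H)).filter (fun n => n ≡ ν [MOD k])).card : ℝ) - (H : ℝ) / k) := by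
    rw [sum_sub_distrib, sum_const, nsmul_eq_mul]
    ring
  rw [h4]
  calc _ ≤ ∑ ν ∈ R, |(((Ioc x (x + H)).filter (fun n => n ≡ ν [MOD k])).card : ℝ) - (H : ℝ) / k| :=
        abs_sum_le_sum_abs _ _
    _ ≤ ∑ ν ∈ R, 1 := sum_le_sum h3
    _ = R.card := by rw [sum_const, nsmul_eq_mul, mul_one]

end Pool.Agent.Lib.MP391708.QPA
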