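import Mathlib

/-!
# Definitions for the project QPA (primes `n ^ 2 + a` for almost all `a`)
-/

set_option autoImplicit false

namespace Pool.Agent.Lib.MP391708.QPA

open Finset Filter Topology
open scoped Classical

noncomputable section

/-- the primes `p < z` -/
def PB (z : ℝ) : Finset ℕ := (range ⌈z⌉₊).filter Nat.Prime

/-- no prime factor below `z` -/
def Rough (z : ℝ) (m : ℕ) : Prop := ∀ p : ℕ, p.Prime → p ∣ m → z ≤ (p : ℝ)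

/-- indicator of `Rough` -/
def rInd (z : ℝ) (m : ℕ) : ℝ := if Rough z m then 1 else 0

/-- the number of roots `ν` modulo `k` of `ν ^ 2 ≡ -a` -/
def rho (a : ℤ) (k : ℕ) : ℕ := ((range k).filter (fun ν : ℕ => (k : ℤ) ∣ (ν : ℤ) ^ 2 + a)).card

/-- `|n ^ 2 + a|` -/
def val (a : ℤ) (n : ℕ) : ℕ := ((n : ℤ) ^ 2 + a).natAbs

/-- the integers `|a| ≤ A` -/
def IA (A : ℕ) : Finset ℤ := Icc (-(A : ℤ)) A

/-- `∑_{N < n ≤ 2N} f(|n²+a|)` -/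
def cnt (N : ℕ) (a : ℤ) (f : ℕ → ℝ) : ℝ := ∑ n ∈ Ioc N (2 * N), f (val a n)

/-- the model sum `∑_{N² < m ≤ 4N²} f(m)/(2√m)` -/
def model (N : ℕ) (f : ℕ → ℝ) : ℝ := ∑ m ∈ Ioc (N ^ 2) (4 * N ^ 2), f m / (2 * √(m : ℝ))

/-- indicator of the primes -/
def primeInd (m : ℕ) : ℝ := if m.Prime then 1 else 0

/-- `∏_{p<z} (1-1/p)` -/
def Wp (z : ℝ) : ℝ := ∏ p ∈ PB z, (1 - 1 / (p : ℝ))

/-- `∏_{p<z} (1-ρ_a(p)/p)` -/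
def Wa (z : ℝ) (a : ℤ) : ℝ := ∏ p ∈ PB z, (1 - (rho a p : ℝ) / p)

/-- `∏_{p≤w} (1-ρ_a(p)/p)/(1-1/p)`, a partial product of the Hardy-Littlewood constant -/
def Gw (w : ℕ) (a : ℤ) : ℝ :=
  ∏ p ∈ PB ((w : ℝ) + 1), (1 - (rho a p : ℝ) / p) / (1 - 1 / (p : ℝ))

/-- `∏_{p≤w} (1-1/p)⁻¹` -/
def Vw (w : ℕ) : ℝ := ∏ p ∈ PB ((w : ℝ) + 1), (1 - 1 / (p : ℝ))⁻¹

/-- the admissible range `N^θ ≤ A ≤ N log N` -/
def Adm (θ : ℝ) (N A : ℕ) : Prop := (N : ℝ) ^ θ ≤ A ∧ (A : ℝ) ≤ N * Real.log N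

/-- Dirichlet convolution of two functions -/
def conv (α β : ℕ → ℝ) (m : ℕ) : ℝ := ∑ k ∈ m.divisors, α k * β (m / k)

/-- `∑_{1 ≤ n ≤ X} (α*β)(|n²+a|)` -/
def bil (X : ℕ) (a : ℤ) (α β : ℕ → ℝ) : ℝ := ∑ n ∈ Icc 1 X, conv α β (val a n)

/-- indicator of the primes in `[N^(ie), N^((i+1)e))` as an arithmetic function -/
def PJ (N : ℕ) (e : ℝ) (i : ℕ) : ArithmeticFunction ℝ :=
  ⟨fun p => if p.Prime ∧ (N : ℝ) ^ ((i : ℝ) * e) ≤ p ∧ (p : ℝ) < (N : ℝ) ^ (((i : ℝ) + 1) * e)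
    then 1 else 0, by simp [Nat.not_prime_zero]⟩

/-- the product (Dirichlet convolution) of the `PJ N e i`, `i ∈ c`: `FF N e c m` is the number of
ordered ways to write `m` as a product of primes from the intervals of the type `c` -/
def FF (N : ℕ) (e : ℝ) (c : Multiset ℕ) : ArithmeticFunction ℝ := (c.map (PJ N e)).prod

/-- `f` restricted to `(x, y]` -/
def cut (x y : ℝ) (f : ℕ → ℝ) (m : ℕ) : ℝ := if x < (m : ℝ) ∧ (m : ℝ) ≤ y then f m else 0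

/-- smooth bump, `1` on `[-1,1]`, `0` outside `(-2,2)` -/
def gB : ContDiffBump (0 : ℝ) := ⟨1, 2, one_pos, one_lt_two⟩

/-- smooth bump, `1` on `[1,2]`, `0` outside `(1/2,5/2)` -/
def kB : ContDiffBump (3 / 2 : ℝ) := ⟨1 / 2, 1, by norm_num, by norm_num⟩

/-- the integral of `gB` -/
def gI : ℝ := ∫ x, gB x

/-- the Fourier transform of the even function `gB` -/
def gh (ξ : ℝ) : ℝ := ∫ x, gB x * Real.cos (2 * Real.pi * ξ * x)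

/-- `k (u+v)/2 - k² d² - ((v-u)/(4d))²`: the value of `a` for the pair `u, v` of one fan -/
def aq (d k u v : ℕ) : ℝ :=
  (k : ℝ) * ((u : ℝ) + v) / 2 - (k : ℝ) ^ 2 * (d : ℝ) ^ 2 - (((v : ℝ) - u) / (4 * d)) ^ 2

/-- the pairs `u < v` in `(L, 5L/4]` with `4d ∣ v - u` -/
def prs (L : ℝ) (d : ℕ) : Finset (ℕ × ℕ) :=
  ((Ioc ⌊L⌋₊ ⌊5 / 4 * L⌋₊) ×ˢ (Ioc ⌊L⌋₊ ⌊5 / 4 * L⌋₊)).filter
    (fun x => x.1 < x.2 ∧ 4 * d ∣ x.2 - x.1)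

/-- `k₀ = (√v - √u)²/(4d²)` -/
def k0 (d u v : ℕ) : ℝ := (√(v : ℝ) - √(u : ℝ)) ^ 2 / (4 * (d : ℝ) ^ 2)

/-- the off-diagonal part of the fans with parameter `d`, `k` restricted to odd multiples of `D` -/
def Sd (K L A : ℝ) (d D : ℕ) (b : ℕ → ℝ) : ℝ :=
  ∑ k ∈ (Icc 1 ⌊5 / 2 * K⌋₊).filter (fun k => Odd k ∧ D ∣ k), kB ((k : ℝ) / K) *
    ∑ x ∈ prs L d, b x.1 * b x.2 * gB (aq d k x.1 x.2 / A)

/-- the main term for the parameter `d` -/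
def Wd (K L : ℝ) (d : ℕ) (b : ℕ → ℝ) : ℝ :=
  ∑ x ∈ prs L d, b x.1 * b x.2 * (kB (k0 d x.1 x.2 / K) / √((x.1 : ℝ) * x.2))

/-- the sum of the main terms -/
def Wsum (K L : ℝ) (b : ℕ → ℝ) : ℝ := ∑ d ∈ Icc 1 ⌊√(L / K) / 4⌋₊, Wd K L d b

/-- the quadratic form `∑ λ_δ λ_δ' / [δ,δ']` over `δ, δ' ≤ y` -/
def QF (y : ℝ) (lam : ℕ → ℝ) : ℝ :=
  ∑ d ∈ Icc 1 ⌊y⌋₊, ∑ e ∈ Icc 1 ⌊y⌋₊, lam d * lam e / (Nat.lcm d e : ℝ)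

/-- `(∑_{δ ∣ k} λ_δ)²` -/
def Th (lam : ℕ → ℝ) (k : ℕ) : ℝ := (∑ d ∈ k.divisors, lam d) ^ 2

/-- the fan `n ≡ ν (mod k)`, `1 ≤ n ≤ X`, of the function `b` -/
def fan (X : ℕ) (a : ℤ) (k ν : ℕ) (b : ℕ → ℝ) : ℝ :=
  ∑ n ∈ (Icc 1 X).filter (fun n => n % k = ν), b (val a n / k)

/-- the sum of the squares of all fans, with weights -/
def Q2 (X : ℕ) (K A : ℝ) (lam b : ℕ → ℝ) : ℝ :=
  ∑ a ∈ IA ⌊2 * A⌋₊, gB ((a : ℝ) / A) * ∑ k ∈ (Icc 1 ⌊5 / 2 * K⌋₊).filter Odd,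
    kB ((k : ℝ) / K) * Th lam k *
      ∑ ν ∈ (range k).filter (fun ν : ℕ => (k : ℤ) ∣ (ν : ℤ) ^ 2 + a), (fan X a k ν b) ^ 2

/-- the `i`-th of the `J` equal pieces of `(L, (1+η)L]` -/
def pc (L η : ℝ) (J i : ℕ) : Finset ℕ :=
  Ioc ⌊L * (1 + η * i / J)⌋₊ ⌊L * (1 + η * (i + 1) / J)⌋₊

/-- the average of `β` on the `i`-th piece -/
def Dav (L η : ℝ) (J : ℕ) (β : ℕ → ℝ) (i : ℕ) : ℝ := (∑ l ∈ pc L η J i, β l) / (η * L / J)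

/-- the model `β^♯` of `β` on `(L, (1+η)L]` -/
def sharp (w : ℕ) (L η : ℝ) (J : ℕ) (β : ℕ → ℝ) (l : ℕ) : ℝ :=
  ∑ i ∈ range J, if l ∈ pc L η J i then Dav L η J β i * Vw w * rInd ((w : ℝ) + 1) l else 0

/-- the dispersion of `b` in residue classes modulo `4d`, `D₀ < d ≤ 2D₀` -/
def Vd (S : Finset ℕ) (b : ℕ → ℝ) (D₀ : ℕ) : ℝ :=
  ∑ d ∈ Ioc D₀ (2 * D₀), ∑ c ∈ range (4 * d), (∑ u ∈ S.filter (fun u => u % (4 * d) = c), b u) ^ 2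

/-- the sum over primitive characters modulo `r + 1` of `|∑_{u ≤ X} b_u ψ(u)|²` -/
def csum (r : ℕ) (b : ℕ → ℝ) (X : ℕ) : ℝ :=
  ∑ ψ ∈ (univ : Finset (DirichletCharacter ℂ (r + 1))).filter (fun ψ => ψ.IsPrimitive),
    ‖∑ u ∈ Icc 1 X, (b u : ℂ) * ψ (u : ZMod (r + 1))‖ ^ 2

/-- `Y = (N/2)^(2/3)` -/
def YY (N : ℕ) : ℝ := ((N : ℝ) / 2) ^ (2 / 3 : ℝ)

/-- the truncated Möbius sum on `z`-rough numbers, `z = N^ε₀` -/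
def psiM (N : ℕ) (e0 : ℝ) (m : ℕ) : ℝ :=
  rInd ((N : ℝ) ^ e0) m * ∑ k ∈ m.divisors.filter (fun k : ℕ => (k : ℝ) ≤ YY N),
    (ArithmeticFunction.moebius k : ℝ)

/-- `m` is divisible by the square of a prime `≥ z` -/
def NSq (z : ℝ) (m : ℕ) : Prop := ∃ p : ℕ, p.Prime ∧ z ≤ p ∧ p ^ 2 ∣ m

/-- `m` has a divisor in the window `[N^(x-e), N^(x+e)]` -/
def Win (N : ℕ) (x e : ℝ) (m : ℕ) : Prop :=
  ∃ k : ℕ, k ∣ m ∧ (N : ℝ) ^ (x - e) ≤ k ∧ (k : ℝ) ≤ (N : ℝ) ^ (x + e)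

/-- the critical exponents -/
def crit (α : ℝ) : Finset ℝ := {2 / 3, 4 / 3, 1, α, 2 - α}

/-- the type `c` is good: for no nonempty subtype the interval of the sizes of the product meets
`[x-e, x+e]`, `x` critical (`e₂` is the side of the cubes) -/
def Good (e2 e α : ℝ) (c : Multiset ℕ) : Prop :=
  ∀ s : Multiset ℕ, s ≤ c → s ≠ 0 → ∀ x ∈ crit α,
    (x + e < e2 * (s.sum : ℝ)) ∨ (e2 * ((s.sum : ℝ) + (Multiset.card s : ℝ)) < x - e)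

/-- the subtype `c₁` gives products in `[N^(2/3+e), N^(1-e)]` -/
def Mid (e2 e : ℝ) (c1 : Multiset ℕ) : Prop :=
  2 / 3 + e ≤ e2 * (c1.sum : ℝ) ∧ e2 * ((c1.sum : ℝ) + (Multiset.card c1 : ℝ)) ≤ 1 - e

end

end Pool.Agent.Lib.MP391708.QPA
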