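import Mathlib
import Pool.Agent.Lib.MP_391708_nt.QPA.Spec
import Pool.Agent.Lib.MP_391708_nt.Div

/-!
# Module F6 of the project QPA, first part: the second moment of the body
-/

set_option autoImplicit false

namespace Pool.Agent.Lib.MP391708.QPA.F6

open Finset Filter Topology
open scoped Classical

lemma card_IA (A : ℕ) : (IA A).card = 2 * A + 1 := by
  unfold IA
  rw [Int.card_Icc]
  omega

lemma jac_le (a : ℤ) (k : ℕ) : |(jacobiSym a k : ℝ)| ≤ 1 := by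
  rcases jacobiSym.trichotomy a k with h | h | h <;> rw [h] <;> norm_num

/-- the rough numbers in `[2, Y]` -/
noncomputable def RY (w Y : ℕ) : Finset ℕ := (Icc 2 Y).filter (fun n => Rough ((w : ℝ) + 1) n)

lemma rough_lt {w n : ℕ} (hn : 2 ≤ n) (h : Rough ((w : ℝ) + 1) n) : w < n := by
  have hp := Nat.minFac_prime (n := n) (by omega)
  have h1 := h _ hp (Nat.minFac_dvd n)
  have h2 : n.minFac ≤ n := Nat.minFac_le (by omega)
  have h3 : ((w + 1 : ℕ) : ℝ) ≤ (n.minFac : ℝ) := by push_cast; exact h1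
  have h4 : w + 1 ≤ n.minFac := by exact_mod_cast h3
  omega

lemma rough_odd {w n : ℕ} (hw : 2 ≤ w) (h : Rough ((w : ℝ) + 1) n) : Odd n := by
  rw [← Nat.not_even_iff_odd]
  intro he
  have h1 := h 2 Nat.prime_two he.two_dvd
  have h2 : (2 : ℝ) ≤ w := by exact_mod_cast hw
  push_cast at h1
  linarith

lemma tele (w Y : ℕ) (hw : 1 ≤ w) (hY : w ≤ Y) :
    ∑ m ∈ Ioc w Y, √(m : ℝ) / (m : ℝ) ^ 2 ≤ 2 / √(w : ℝ) - 2 / √(Y : ℝ) := by
  induction Y, hY using Nat.le_induction with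
  | base => simp
  | succ Y hY ih =>
    rw [← Finset.insert_Ioc_right_eq_Ioc_add_one (by omega), Finset.sum_insert (by simp)]
    have hYR : (1 : ℝ) ≤ Y := by exact_mod_cast hw.trans hY
    set s := √(Y : ℝ) with hs
    set t := √((Y + 1 : ℕ) : ℝ) with ht
    have hs2 : s ^ 2 = Y := Real.sq_sqrt (by positivity)
    have ht2 : t ^ 2 = Y + 1 := by
      rw [ht, Real.sq_sqrt (by positivity)]
      push_cast
      ring
    have hspos : 0 < s := Real.sqrt_pos.mpr (by linarith)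
    have htpos : 0 < t := Real.sqrt_pos.mpr (by positivity)
    have hst : s ≤ t := Real.sqrt_le_sqrt (by push_cast; linarith)
    have hY1 : ((Y + 1 : ℕ) : ℝ) = t ^ 2 := by
      rw [ht2]; push_cast; ring
    rw [hY1]
    have h1 : t / (t ^ 2) ^ 2 ≤ 2 / s - 2 / t := by
      have e1 : t / (t ^ 2) ^ 2 = 1 / t ^ 3 := by
        field_simp
      have e2 : 2 / s - 2 / t = 2 * (t - s) / (s * t) := by
        field_simp
      rw [e1, e2, div_le_div_iff₀ (by positivity) (by positivity)]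
      have e3 : (t - s) * (t + s) = 1 := by nlinarith
      have e4 : s * t * (t + s) ≤ 2 * t ^ 3 := by
        have : s * (t + s) ≤ t * (t + t) := mul_le_mul hst (by linarith) (by positivity) htpos.le
        nlinarith
      have e5 : 1 * (s * t) * (t + s) ≤ 2 * (t - s) * t ^ 3 * (t + s) := by
        calc 1 * (s * t) * (t + s) ≤ 2 * t ^ 3 := by linarith
          _ = 2 * t ^ 3 * ((t - s) * (t + s)) := by rw [e3]; ring
          _ = 2 * (t - s) * t ^ 3 * (t + s) := by ring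
      exact le_of_mul_le_mul_right e5 (by positivity)
    linarith

lemma tele' (w Y : ℕ) (hw : 1 ≤ w) :
    ∑ m ∈ Ioc w Y, √(m : ℝ) / (m : ℝ) ^ 2 ≤ 2 / √(w : ℝ) := by
  rcases Nat.le_or_ge w Y with h | h
  · have h1 := tele w Y hw h
    have h2 : 0 ≤ 2 / √(Y : ℝ) := by positivity
    linarith
  · rw [Finset.Ioc_eq_empty_of_le h, Finset.sum_empty]
    positivity

lemma squares {C₁ : ℝ} (hC₁ : 0 < C₁)
    (hd : ∀ n : ℕ, 0 < n → (n.divisors.card : ℝ) ≤ C₁ * (n : ℝ) ^ (1 / 4 : ℝ))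
    (w Y : ℕ) (hw : 1 ≤ w) :
    ∑ x ∈ (RY w Y ×ˢ RY w Y).filter (fun x => IsSquare (x.1 * x.2)), 1 / ((x.1 : ℝ) * x.2)
      ≤ 2 * C₁ / √(w : ℝ) := by
  set S := (RY w Y ×ˢ RY w Y).filter (fun x => IsSquare (x.1 * x.2)) with hS
  have hmem : ∀ x ∈ S, (w < x.1 ∧ x.1 ≤ Y) ∧ (w < x.2 ∧ x.2 ≤ Y) ∧
      x.1 * x.2 = (Nat.sqrt (x.1 * x.2)) ^ 2 := by
    intro x hx
    rw [hS, Finset.mem_filter, Finset.mem_product] at hx
    obtain ⟨⟨h1, h2⟩, r, hr⟩ := hx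
    unfold RY at h1 h2
    rw [Finset.mem_filter, Finset.mem_Icc] at h1 h2
    refine ⟨⟨rough_lt h1.1.1 h1.2, h1.1.2⟩, ⟨rough_lt h2.1.1 h2.2, h2.1.2⟩, ?_⟩
    rw [hr, Nat.sqrt_eq, sq]
  have hmaps : ∀ x ∈ S, Nat.sqrt (x.1 * x.2) ∈ Ioc w Y := by
    intro x hx
    obtain ⟨⟨h1, h2⟩, ⟨h3, h4⟩, h5⟩ := hmem x hx
    rw [Finset.mem_Ioc]
    constructor
    · by_contra hcon
      push Not at hcon
      have : x.1 * x.2 ≤ w ^ 2 := by
        rw [h5]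
        exact Nat.pow_le_pow_left hcon 2
      nlinarith
    · by_contra hcon
      push Not at hcon
      have : Y ^ 2 < x.1 * x.2 := by
        rw [h5]
        exact Nat.pow_lt_pow_left hcon (by norm_num)
      nlinarith
  rw [← Finset.sum_fiberwise_of_maps_to hmaps]
  have hfib : ∀ m ∈ Ioc w Y, ∑ x ∈ S.filter (fun x => Nat.sqrt (x.1 * x.2) = m),
      1 / ((x.1 : ℝ) * x.2) ≤ C₁ * (√(m : ℝ) / (m : ℝ) ^ 2) := by
    intro m hm
    rw [Finset.mem_Ioc] at hm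
    have hm0 : 0 < m := by omega
    have hmR : (0 : ℝ) < m := by exact_mod_cast hm0
    have h1 : ∀ x ∈ S.filter (fun x => Nat.sqrt (x.1 * x.2) = m),
        1 / ((x.1 : ℝ) * x.2) = 1 / (m : ℝ) ^ 2 := by
      intro x hx
      rw [Finset.mem_filter] at hx
      have h5 := (hmem x hx.1).2.2
      rw [hx.2] at h5
      have : ((x.1 : ℝ) * x.2) = (m : ℝ) ^ 2 := by exact_mod_cast h5
      rw [this]
    rw [Finset.sum_congr rfl h1, Finset.sum_const, nsmul_eq_mul]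
    have h2 : (S.filter (fun x => Nat.sqrt (x.1 * x.2) = m)).card ≤ (m ^ 2).divisors.card := by
      refine Finset.card_le_card_of_injOn (fun x => x.1) ?_ ?_
      · intro x hx
        rw [Finset.mem_coe, Finset.mem_filter] at hx
        have h5 := (hmem x hx.1).2.2
        rw [hx.2] at h5
        exact Finset.mem_coe.mpr (Nat.mem_divisors.mpr ⟨⟨x.2, h5.symm⟩, by positivity⟩)
      · intro x hx y hy hxy
        rw [Finset.mem_coe, Finset.mem_filter] at hx hy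
        have h5 := (hmem x hx.1).2.2
        have h6 := (hmem y hy.1).2.2
        rw [hx.2] at h5
        rw [hy.2] at h6
        dsimp only at hxy
        have hx0 : 0 < x.1 := by have := (hmem x hx.1).1.1; omega
        refine Prod.ext hxy ?_
        rw [← h6, ← hxy] at h5
        exact Nat.eq_of_mul_eq_mul_left hx0 h5
    have h3 := hd (m ^ 2) (by positivity)
    have h4 : ((m ^ 2 : ℕ) : ℝ) ^ (1 / 4 : ℝ) = √(m : ℝ) := by
      rw [Real.sqrt_eq_rpow]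
      push_cast
      rw [← Real.rpow_natCast, ← Real.rpow_mul hmR.le]
      norm_num
    rw [h4] at h3
    have h5 : ((S.filter (fun x => Nat.sqrt (x.1 * x.2) = m)).card : ℝ) ≤ C₁ * √(m : ℝ) := by
      refine le_trans ?_ h3
      exact_mod_cast h2
    calc ((S.filter (fun x => Nat.sqrt (x.1 * x.2) = m)).card : ℝ) * (1 / (m : ℝ) ^ 2)
        ≤ (C₁ * √(m : ℝ)) * (1 / (m : ℝ) ^ 2) := mul_le_mul_of_nonneg_right h5 (by positivity)
      _ = C₁ * (√(m : ℝ) / (m : ℝ) ^ 2) := by ring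
  refine (Finset.sum_le_sum hfib).trans ?_
  rw [← Finset.mul_sum]
  calc C₁ * ∑ m ∈ Ioc w Y, √(m : ℝ) / (m : ℝ) ^ 2 ≤ C₁ * (2 / √(w : ℝ)) :=
        mul_le_mul_of_nonneg_left (tele' w Y hw) hC₁.le
    _ = 2 * C₁ / √(w : ℝ) := by ring

/-- **The body.** -/
theorem body (hP : SpecPVA) : ∃ C : ℝ, 0 < C ∧ ∀ w A Y : ℕ, 2 ≤ w → 1 ≤ A → 1 ≤ Y →
    ∑ a ∈ IA A, (∑ n ∈ RY w Y, (jacobiSym (-a) n : ℝ) / n) ^ 2
      ≤ C * (A / √(w : ℝ) + (Y : ℝ) ^ (5 / 4 : ℝ) * (1 + Real.log Y) ^ 2) := by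
  obtain ⟨C₁, hC₁, hd⟩ :=
    Pool.Agent.Lib.MP_391708_nt.Div.card_divisors_le_rpow (1 / 4) (by norm_num)
  obtain ⟨C₂, hC₂, hPV⟩ := hP (1 / 8) (by norm_num)
  refine ⟨6 * C₁ + C₂, by positivity, ?_⟩
  intro w A Y hw hA hY
  have hA1 : (1 : ℝ) ≤ A := by exact_mod_cast hA
  have hY1 : (1 : ℝ) ≤ Y := by exact_mod_cast hY
  have hposR : ∀ k ∈ RY w Y, (0 : ℝ) < k ∧ k ≠ 0 ∧ k ≤ Y ∧ Odd k := by
    intro k hk
    unfold RY at hk
    rw [Finset.mem_filter, Finset.mem_Icc] at hk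
    refine ⟨by exact_mod_cast (by omega : 0 < k), by omega, hk.1.2, rough_odd hw hk.2⟩
  have h1 : ∑ a ∈ IA A, (∑ n ∈ RY w Y, (jacobiSym (-a) n : ℝ) / n) ^ 2
      = ∑ x ∈ RY w Y ×ˢ RY w Y, 1 / ((x.1 : ℝ) * x.2) *
          ∑ a ∈ IA A, (jacobiSym (-a) (x.1 * x.2) : ℝ) := by
    have : ∀ a : ℤ, (∑ n ∈ RY w Y, (jacobiSym (-a) n : ℝ) / n) ^ 2
        = ∑ x ∈ RY w Y ×ˢ RY w Y, 1 / ((x.1 : ℝ) * x.2) * (jacobiSym (-a) (x.1 * x.2) : ℝ) := by
      intro a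
      rw [sq, Finset.sum_mul_sum, Finset.sum_product]
      refine Finset.sum_congr rfl (fun k hk => Finset.sum_congr rfl (fun l hl => ?_))
      have : NeZero k := ⟨(hposR k hk).2.1⟩
      have : NeZero l := ⟨(hposR l hl).2.1⟩
      rw [jacobiSym.mul_right]
      push_cast
      ring
    rw [Finset.sum_congr rfl (fun a _ => this a), Finset.sum_comm]
    refine Finset.sum_congr rfl (fun x _ => ?_)
    rw [Finset.mul_sum]
  rw [h1]
  have h2 : ∀ x ∈ RY w Y ×ˢ RY w Y, 1 / ((x.1 : ℝ) * x.2) *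
      ∑ a ∈ IA A, (jacobiSym (-a) (x.1 * x.2) : ℝ)
      ≤ (if IsSquare (x.1 * x.2) then 3 * A * (1 / ((x.1 : ℝ) * x.2)) else 0)
        + C₂ * (Y : ℝ) ^ (5 / 4 : ℝ) * ((1 / (x.1 : ℝ)) * (1 / (x.2 : ℝ))) := by
    intro x hx
    rw [Finset.mem_product] at hx
    obtain ⟨hk0, -, hkY, hko⟩ := hposR x.1 hx.1
    obtain ⟨hl0, -, hlY, hlo⟩ := hposR x.2 hx.2
    have hnn : 0 ≤ C₂ * (Y : ℝ) ^ (5 / 4 : ℝ) * ((1 / (x.1 : ℝ)) * (1 / (x.2 : ℝ))) := by positivity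
    split_ifs with hsq
    · have h3 : |∑ a ∈ IA A, (jacobiSym (-a) (x.1 * x.2) : ℝ)| ≤ 3 * A := by
        refine (Finset.abs_sum_le_sum_abs _ _).trans ?_
        refine (Finset.sum_le_sum (fun a _ => jac_le (-a) (x.1 * x.2))).trans ?_
        rw [Finset.sum_const, nsmul_eq_mul, mul_one, card_IA]
        push_cast
        linarith
      have h4 : 1 / ((x.1 : ℝ) * x.2) * ∑ a ∈ IA A, (jacobiSym (-a) (x.1 * x.2) : ℝ)
          ≤ 1 / ((x.1 : ℝ) * x.2) * (3 * A) :=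
        mul_le_mul_of_nonneg_left ((le_abs_self _).trans h3) (by positivity)
      linarith
    · rw [zero_add]
      have h3 := hPV (x.1 * x.2) (hko.mul hlo) hsq A
      have h4 : (((x.1 * x.2 : ℕ) : ℝ)) ^ (1 / 2 + 1 / 8 : ℝ) ≤ (Y : ℝ) ^ (5 / 4 : ℝ) := by
        have e1 : ((x.1 * x.2 : ℕ) : ℝ) ≤ (Y : ℝ) ^ 2 := by
          have : x.1 * x.2 ≤ Y * Y := Nat.mul_le_mul hkY hlY
          calc ((x.1 * x.2 : ℕ) : ℝ) ≤ ((Y * Y : ℕ) : ℝ) := by exact_mod_cast this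
            _ = (Y : ℝ) ^ 2 := by push_cast; ring
        calc (((x.1 * x.2 : ℕ) : ℝ)) ^ (1 / 2 + 1 / 8 : ℝ) ≤ ((Y : ℝ) ^ 2) ^ (1 / 2 + 1 / 8 : ℝ) :=
              Real.rpow_le_rpow (by positivity) e1 (by norm_num)
          _ = (Y : ℝ) ^ (5 / 4 : ℝ) := by
              rw [← Real.rpow_natCast (Y : ℝ) 2, ← Real.rpow_mul (by linarith)]
              norm_num
      have h5 : 1 / ((x.1 : ℝ) * x.2) * ∑ a ∈ IA A, (jacobiSym (-a) (x.1 * x.2) : ℝ)
          ≤ 1 / ((x.1 : ℝ) * x.2) * (C₂ * (Y : ℝ) ^ (5 / 4 : ℝ)) := by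
        refine mul_le_mul_of_nonneg_left ?_ (by positivity)
        exact (le_abs_self _).trans (h3.trans (mul_le_mul_of_nonneg_left h4 hC₂.le))
      refine h5.trans (le_of_eq ?_)
      rw [one_div_mul_one_div]
      ring
  refine (Finset.sum_le_sum h2).trans ?_
  rw [Finset.sum_add_distrib, ← Finset.sum_filter, ← Finset.mul_sum, ← Finset.mul_sum]
  have h3 := squares hC₁ hd w Y (by omega)
  have h4 : ∑ x ∈ RY w Y ×ˢ RY w Y, (1 / (x.1 : ℝ)) * (1 / (x.2 : ℝ)) ≤ (1 + Real.log Y) ^ 2 := by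
    rw [Finset.sum_product]
    dsimp only
    rw [← Finset.sum_mul_sum, ← sq]
    refine pow_le_pow_left₀ (Finset.sum_nonneg (fun i _ => by positivity)) ?_ 2
    have e1 : ∑ n ∈ RY w Y, 1 / (n : ℝ) ≤ ∑ n ∈ Icc 1 Y, 1 / (n : ℝ) := by
      refine Finset.sum_le_sum_of_subset_of_nonneg ?_ (fun i _ _ => by positivity)
      unfold RY
      exact (Finset.filter_subset _ _).trans (Finset.Icc_subset_Icc_left (by norm_num))
    refine e1.trans ?_
    have h := harmonic_le_one_add_log Y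
    rw [harmonic_eq_sum_Icc] at h
    push_cast at h
    simpa using h
  have h5 : 3 * (A : ℝ) * ∑ x ∈ (RY w Y ×ˢ RY w Y).filter (fun x => IsSquare (x.1 * x.2)),
      1 / ((x.1 : ℝ) * x.2) ≤ 3 * A * (2 * C₁ / √(w : ℝ)) :=
    mul_le_mul_of_nonneg_left h3 (by positivity)
  have h6 : C₂ * (Y : ℝ) ^ (5 / 4 : ℝ) * ∑ x ∈ RY w Y ×ˢ RY w Y, (1 / (x.1 : ℝ)) * (1 / (x.2 : ℝ))
      ≤ C₂ * (Y : ℝ) ^ (5 / 4 : ℝ) * (1 + Real.log Y) ^ 2 :=
    mul_le_mul_of_nonneg_left h4 (by positivity)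
  have h7 : (6 * C₁ + C₂) * (A / √(w : ℝ) + (Y : ℝ) ^ (5 / 4 : ℝ) * (1 + Real.log Y) ^ 2)
      = 3 * A * (2 * C₁ / √(w : ℝ)) + C₂ * (Y : ℝ) ^ (5 / 4 : ℝ) * (1 + Real.log Y) ^ 2
        + (6 * C₁ * ((Y : ℝ) ^ (5 / 4 : ℝ) * (1 + Real.log Y) ^ 2) + C₂ * (A / √(w : ℝ))) := by
    ring
  rw [h7]
  have h8 : 0 ≤ 6 * C₁ * ((Y : ℝ) ^ (5 / 4 : ℝ) * (1 + Real.log Y) ^ 2) + C₂ * (A / √(w : ℝ)) := by
    positivity
  linarith

end Pool.Agent.Lib.MP391708.QPA.F6
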