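import Mathlib
import Pool.Agent.Lib.MP_391708_nt.QPA.Spec
import Pool.Agent.Lib.MP_391708_nt.QPA.F6a

/-!
# Module F6 of the project QPA, second part: the tail and the limits
-/

set_option autoImplicit false

namespace Pool.Agent.Lib.MP391708.QPA.F6

open Finset Filter Topology
open scoped Classical

/-- odd and free of the primes in `S` -/
def Fr (S : Finset ℕ) (k : ℕ) : Prop := Odd k ∧ ∀ p ∈ S, ¬ p ∣ k

/-- the odd primes `≤ w` -/
noncomputable def SP (w : ℕ) : Finset ℕ := (range (w + 1)).filter (fun p => Nat.Prime p ∧ p ≠ 2)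

lemma mem_SP {w p : ℕ} : p ∈ SP w ↔ p ≤ w ∧ p.Prime ∧ p ≠ 2 := by
  unfold SP
  rw [Finset.mem_filter, Finset.mem_range, Nat.lt_succ_iff]

lemma rough_iff {w : ℕ} (hw : 2 ≤ w) (n : ℕ) : Rough ((w : ℝ) + 1) n ↔ Fr (SP w) n := by
  constructor
  · intro h
    refine ⟨rough_odd hw h, ?_⟩
    intro p hp hpn
    obtain ⟨h1, h2, h3⟩ := mem_SP.mp hp
    have h4 := h p h2 hpn
    have h5 : (p : ℝ) ≤ w := by exact_mod_cast h1
    linarith
  · rintro ⟨h1, h2⟩ p hp hpn
    by_contra hcon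
    have h3 : p ≤ w := by
      have h4 : (p : ℝ) < ((w + 1 : ℕ) : ℝ) := by
        push_cast
        exact not_le.mp hcon
      have h5 : p < w + 1 := by exact_mod_cast h4
      omega
    by_cases h4 : p = 2
    · rw [h4] at hpn
      exact (Nat.not_even_iff_odd.mpr h1) (even_iff_two_dvd.mpr hpn)
    · exact h2 p (mem_SP.mpr ⟨h3, hp, h4⟩) hpn

/-- splitting the multiples of `p` off -/
lemma split (f : ℕ → ℝ) {S : Finset ℕ} {p : ℕ} (hpS : p ∉ S) (hp : p.Prime) (hp2 : p ≠ 2)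
    (hS : ∀ r ∈ S, r.Prime) (x y : ℕ) :
    ∑ k ∈ (Ioc x y).filter (Fr S), f k
      = ∑ k ∈ (Ioc x y).filter (Fr (insert p S)), f k
        + ∑ m ∈ (Ioc (x / p) (y / p)).filter (Fr S), f (p * m) := by
  have hodd : Odd p := hp.odd_of_ne_two hp2
  have h1 : (Ioc x y).filter (Fr S) = (Ioc x y).filter (Fr (insert p S)) ∪
      ((Ioc (x / p) (y / p)).filter (Fr S)).image (fun m => p * m) := by
    ext k
    simp only [Finset.mem_union, Finset.mem_filter, Finset.mem_image, Finset.mem_Ioc]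
    constructor
    · rintro ⟨hk, hF⟩
      by_cases hpk : p ∣ k
      · right
        obtain ⟨m, rfl⟩ := hpk
        refine ⟨m, ⟨⟨?_, ?_⟩, ?_, ?_⟩, rfl⟩
        · rw [Nat.div_lt_iff_lt_mul hp.pos]
          rw [mul_comm]
          exact hk.1
        · rw [Nat.le_div_iff_mul_le hp.pos, mul_comm]
          exact hk.2
        · exact (Nat.odd_mul.mp hF.1).2
        · intro r hr hrm
          exact hF.2 r hr (dvd_mul_of_dvd_right hrm p)
      · left
        refine ⟨hk, hF.1, ?_⟩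
        intro r hr
        rcases Finset.mem_insert.mp hr with h | h
        · rw [h]; exact hpk
        · exact hF.2 r h
    · rintro (⟨hk, hF⟩ | ⟨m, ⟨hm, hF⟩, rfl⟩)
      · exact ⟨hk, hF.1, fun r hr => hF.2 r (Finset.mem_insert_of_mem hr)⟩
      · refine ⟨⟨?_, ?_⟩, ?_, ?_⟩
        · have := (Nat.div_lt_iff_lt_mul hp.pos).mp hm.1
          rw [mul_comm]
          exact this
        · have := (Nat.le_div_iff_mul_le hp.pos).mp hm.2
          rw [mul_comm]
          exact this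
        · exact hodd.mul hF.1
        · intro r hr hrm
          rcases (Nat.Prime.dvd_mul (hS r hr)).mp hrm with h | h
          · have : r = p := (Nat.prime_dvd_prime_iff_eq (hS r hr) hp).mp h
            rw [this] at hr
            exact hpS hr
          · exact hF.2 r hr h
  have hd : Disjoint ((Ioc x y).filter (Fr (insert p S)))
      (((Ioc (x / p) (y / p)).filter (Fr S)).image (fun m => p * m)) := by
    rw [Finset.disjoint_left]
    intro k hk hk'
    rw [Finset.mem_filter] at hk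
    obtain ⟨m, -, rfl⟩ := Finset.mem_image.mp hk'
    exact hk.2.2 p (Finset.mem_insert_self p S) (dvd_mul_right p m)
  rw [h1, Finset.sum_union hd, Finset.sum_image]
  intro a _ b _ hab
  exact Nat.eq_of_mul_eq_mul_left hp.pos hab

lemma jac_mul (n₀ : ℤ) {p m : ℕ} (hp : p ≠ 0) (hm : m ≠ 0) :
    (jacobiSym n₀ (p * m) : ℝ) = (jacobiSym n₀ p : ℝ) * jacobiSym n₀ m := by
  have : NeZero p := ⟨hp⟩
  have : NeZero m := ⟨hm⟩
  rw [jacobiSym.mul_right]
  push_cast
  ring

lemma sieve_sum (n₀ : ℤ) {B : ℝ} (hB : ∀ x y : ℕ,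
      |∑ k ∈ (Ioc x y).filter Odd, (jacobiSym n₀ k : ℝ)| ≤ B)
    (S : Finset ℕ) : (∀ p ∈ S, p.Prime ∧ p ≠ 2) → ∀ x y : ℕ,
    |∑ k ∈ (Ioc x y).filter (Fr S), (jacobiSym n₀ k : ℝ)| ≤ 2 ^ S.card * B := by
  induction S using Finset.induction_on with
  | empty =>
    intro _ x y
    have : (Ioc x y).filter (Fr ∅) = (Ioc x y).filter Odd := by
      refine Finset.filter_congr (fun k _ => ?_)
      simp [Fr]
    rw [this]
    simpa using hB x y
  | insert p S hpS ih =>
    intro hS x y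
    obtain ⟨hp, hp2⟩ := hS p (Finset.mem_insert_self p S)
    have hS' : ∀ r ∈ S, r.Prime ∧ r ≠ 2 := fun r hr => hS r (Finset.mem_insert_of_mem hr)
    have h1 := split (fun k => (jacobiSym n₀ k : ℝ)) hpS hp hp2 (fun r hr => (hS' r hr).1) x y
    have h2 : ∑ m ∈ (Ioc (x / p) (y / p)).filter (Fr S), (jacobiSym n₀ (p * m) : ℝ)
        = (jacobiSym n₀ p : ℝ) * ∑ m ∈ (Ioc (x / p) (y / p)).filter (Fr S), (jacobiSym n₀ m : ℝ) := by
      rw [Finset.mul_sum]
      refine Finset.sum_congr rfl (fun m hm => ?_)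
      rw [Finset.mem_filter, Finset.mem_Ioc] at hm
      exact jac_mul n₀ hp.ne_zero ((Nat.zero_le _).trans_lt hm.1.1).ne'
    have h3 := ih hS' x y
    have h4 := ih hS' (x / p) (y / p)
    have h5 : |(jacobiSym n₀ p : ℝ) *
        ∑ m ∈ (Ioc (x / p) (y / p)).filter (Fr S), (jacobiSym n₀ m : ℝ)| ≤ 2 ^ S.card * B := by
      rw [abs_mul]
      have := mul_le_mul (jac_le n₀ p) h4 (abs_nonneg _) zero_le_one
      linarith
    rw [Finset.card_insert_of_notMem hpS, pow_succ]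
    have h6 : ∑ k ∈ (Ioc x y).filter (Fr (insert p S)), (jacobiSym n₀ k : ℝ)
        = ∑ k ∈ (Ioc x y).filter (Fr S), (jacobiSym n₀ k : ℝ)
          - (jacobiSym n₀ p : ℝ) *
            ∑ m ∈ (Ioc (x / p) (y / p)).filter (Fr S), (jacobiSym n₀ m : ℝ) := by
      rw [← h2]
      linarith
    rw [h6]
    have h7 := abs_sub (∑ k ∈ (Ioc x y).filter (Fr S), (jacobiSym n₀ k : ℝ))
      ((jacobiSym n₀ p : ℝ) * ∑ m ∈ (Ioc (x / p) (y / p)).filter (Fr S), (jacobiSym n₀ m : ℝ))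
    linarith

/-- Abel summation -/
lemma abel (f : ℕ → ℝ) (Y : ℕ) {B : ℝ} (hB : ∀ t : ℕ, |∑ k ∈ Ioc Y t, f k| ≤ B) (X : ℕ)
    (hX : Y ≤ X) : |∑ k ∈ Ioc Y X, f k / k| ≤ B / (Y + 1) := by
  have hB0 : 0 ≤ B := (abs_nonneg _).trans (hB 0)
  have h1 : ∑ k ∈ Ioc Y X, f k / k = (∑ k ∈ Ioc Y X, f k) / (X + 1)
      + ∑ t ∈ Ioc Y X, (∑ k ∈ Ioc Y t, f k) * (1 / (t : ℝ) - 1 / ((t : ℝ) + 1)) := by
    induction X, hX using Nat.le_induction with
    | base => simp
    | succ X hX ih =>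
      rw [← Finset.insert_Ioc_right_eq_Ioc_add_one (by omega), Finset.sum_insert (by simp),
        Finset.sum_insert (by simp), Finset.sum_insert (by simp), ih,
        ← Finset.insert_Ioc_right_eq_Ioc_add_one (by omega), Finset.sum_insert (by simp)]
      push_cast
      have e1 : (X : ℝ) + 1 ≠ 0 := by positivity
      have e2 : (X : ℝ) + 1 + 1 ≠ 0 := by positivity
      field_simp
      ring
  have h2 : ∑ t ∈ Ioc Y X, (1 / (t : ℝ) - 1 / ((t : ℝ) + 1)) = 1 / ((Y : ℝ) + 1) - 1 / ((X : ℝ) + 1) := by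
    induction X, hX using Nat.le_induction with
    | base => simp
    | succ X hX ih =>
      rw [← Finset.insert_Ioc_right_eq_Ioc_add_one (by omega), Finset.sum_insert (by simp)]
      have h3 : ∑ t ∈ Ioc Y X, (1 / (t : ℝ) - 1 / ((t : ℝ) + 1))
          = 1 / ((Y : ℝ) + 1) - 1 / ((X : ℝ) + 1) := by
        clear h1 ih hB
        induction X, hX using Nat.le_induction with
        | base => simp
        | succ X hX ih =>
          rw [← Finset.insert_Ioc_right_eq_Ioc_add_one (by omega), Finset.sum_insert (by simp), ih]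
          push_cast
          ring
      rw [h3]
      push_cast
      ring
  rw [h1]
  have h3 : |(∑ k ∈ Ioc Y X, f k) / ((X : ℝ) + 1)| ≤ B / (X + 1) := by
    rw [abs_div, abs_of_pos (show (0 : ℝ) < (X : ℝ) + 1 by positivity)]
    exact div_le_div_of_nonneg_right (hB X) (by positivity)
  have h4 : |∑ t ∈ Ioc Y X, (∑ k ∈ Ioc Y t, f k) * (1 / (t : ℝ) - 1 / ((t : ℝ) + 1))|
      ≤ B * (1 / ((Y : ℝ) + 1) - 1 / ((X : ℝ) + 1)) := by
    rw [← h2, Finset.mul_sum]
    refine (Finset.abs_sum_le_sum_abs _ _).trans (Finset.sum_le_sum (fun t ht => ?_))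
    rw [Finset.mem_Ioc] at ht
    have htR : (0 : ℝ) < t := by exact_mod_cast (by omega : 0 < t)
    have e1 : 0 ≤ 1 / (t : ℝ) - 1 / ((t : ℝ) + 1) := by
      have : 1 / ((t : ℝ) + 1) ≤ 1 / (t : ℝ) := one_div_le_one_div_of_le htR (by linarith)
      linarith
    rw [abs_mul, abs_of_nonneg e1]
    exact mul_le_mul_of_nonneg_right (hB t) e1
  refine (abs_add_le _ _).trans ?_
  have h5 : B / ((X : ℝ) + 1) + B * (1 / ((Y : ℝ) + 1) - 1 / ((X : ℝ) + 1)) = B / (Y + 1) := by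
    ring
  linarith

/-- **The tail.** -/
lemma tail (n₀ : ℤ) {B : ℝ} (hB : ∀ x y : ℕ,
      |∑ k ∈ (Ioc x y).filter Odd, (jacobiSym n₀ k : ℝ)| ≤ B) {w : ℕ} (Y X : ℕ) (hX : Y ≤ X) :
    |∑ k ∈ (Ioc Y X).filter (Fr (SP w)), (jacobiSym n₀ k : ℝ) / k| ≤ 2 ^ (w + 1) * B / (Y + 1) := by
  have hB0 : 0 ≤ B := (abs_nonneg _).trans (hB 0 0)
  have hcard : (SP w).card ≤ w + 1 := by
    have : SP w ⊆ range (w + 1) := Finset.filter_subset _ _
    have h := Finset.card_le_card this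
    rwa [Finset.card_range] at h
  have h1 : ∀ t : ℕ, |∑ k ∈ Ioc Y t, (if Fr (SP w) k then (jacobiSym n₀ k : ℝ) else 0)|
      ≤ 2 ^ (w + 1) * B := by
    intro t
    rw [← Finset.sum_filter]
    refine (sieve_sum n₀ hB (SP w) (fun p hp => (mem_SP.mp hp).2) Y t).trans ?_
    exact mul_le_mul_of_nonneg_right (pow_le_pow_right₀ (by norm_num) hcard) hB0
  have h2 := abel _ Y h1 X hX
  rw [Finset.sum_filter]
  have h3 : ∀ k ∈ Ioc Y X, (if Fr (SP w) k then (jacobiSym n₀ k : ℝ) / k else 0)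
      = (if Fr (SP w) k then (jacobiSym n₀ k : ℝ) else 0) / k := by
    intro k _
    split_ifs <;> simp
  rw [Finset.sum_congr rfl h3]
  exact h2

/-- **The limit of the sifted sums.** -/
lemma limit_sift (n₀ : ℤ) {l : ℝ}
    (hl : Tendsto (fun X : ℕ => ∑ n ∈ (Icc 1 X).filter Odd, (jacobiSym n₀ n : ℝ) / n) atTop (𝓝 l))
    (S : Finset ℕ) : (∀ p ∈ S, p.Prime ∧ p ≠ 2) →
    Tendsto (fun X : ℕ => ∑ n ∈ (Ioc 0 X).filter (Fr S), (jacobiSym n₀ n : ℝ) / n) atTop
      (𝓝 (l * ∏ p ∈ S, (1 - (jacobiSym n₀ p : ℝ) / p))) := by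
  induction S using Finset.induction_on with
  | empty =>
    intro _
    rw [Finset.prod_empty, mul_one]
    refine hl.congr (fun X => ?_)
    have h1 : Icc 1 X = Ioc 0 X := by
      ext n; simp only [Finset.mem_Icc, Finset.mem_Ioc]; omega
    rw [h1]
    refine Finset.sum_congr ?_ (fun _ _ => rfl)
    refine Finset.filter_congr (fun k _ => ?_)
    simp [Fr]
  | insert p S hpS ih =>
    intro hS
    obtain ⟨hp, hp2⟩ := hS p (Finset.mem_insert_self p S)
    have hS' : ∀ r ∈ S, r.Prime ∧ r ≠ 2 := fun r hr => hS r (Finset.mem_insert_of_mem hr)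
    have h0 := ih hS'
    have h1 := h0.comp (Nat.tendsto_div_const_atTop hp.ne_zero)
    have h2 := h0.sub (h1.const_mul ((jacobiSym n₀ p : ℝ) / p))
    have h3 : l * ∏ r ∈ S, (1 - (jacobiSym n₀ r : ℝ) / r)
        - (jacobiSym n₀ p : ℝ) / p * (l * ∏ r ∈ S, (1 - (jacobiSym n₀ r : ℝ) / r))
        = l * ∏ r ∈ insert p S, (1 - (jacobiSym n₀ r : ℝ) / r) := by
      rw [Finset.prod_insert hpS]
      ring
    rw [h3] at h2
    refine h2.congr (fun X => ?_)
    have h4 := split (fun k => (jacobiSym n₀ k : ℝ) / k) hpS hp hp2 (fun r hr => (hS' r hr).1) 0 X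
    have h5 : ∑ m ∈ (Ioc (0 / p) (X / p)).filter (Fr S), (jacobiSym n₀ (p * m) : ℝ) / ((p * m : ℕ) : ℝ)
        = (jacobiSym n₀ p : ℝ) / p *
          ∑ m ∈ (Ioc 0 (X / p)).filter (Fr S), (jacobiSym n₀ m : ℝ) / m := by
      rw [Finset.mul_sum, Nat.zero_div]
      refine Finset.sum_congr rfl (fun m hm => ?_)
      rw [Finset.mem_filter, Finset.mem_Ioc] at hm
      rw [jac_mul n₀ hp.ne_zero (by omega)]
      push_cast
      rw [mul_div_mul_comm]
    rw [h5] at h4
    simp only [Function.comp_apply]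
    linarith

end Pool.Agent.Lib.MP391708.QPA.F6
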