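import Mathlib
import Pool.Agent.Lib.MP_391708_nt.QPA.Spec
import Pool.Agent.Lib.MP_391708_nt.QPA.F6b
import Pool.Agent.Lib.MP_391708_nt.QPA.RHOMEAN

/-!
# Module F6 of the project QPA
-/

set_option autoImplicit false

namespace Pool.Agent.Lib.MP391708.QPA.F6

open Finset Filter Topology
open scoped Classical

theorem Gw_eq (hP : SpecRHOP) (h2 : SpecRHO2) (X : ℕ) (a : ℤ) :
    Gw X a = ∏ w ∈ SP X, (1 - (jacobiSym (-a) w : ℝ) / ((w : ℝ) - 1)) := by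
  unfold Gw PB SP
  have hc : ⌈(X : ℝ) + 1⌉₊ = X + 1 := by
    have := Nat.ceil_natCast (R := ℝ) (X + 1)
    push_cast at this
    exact this
  rw [hc]
  symm
  apply Finset.prod_subset_one_on_sdiff
  · intro w hw
    rw [Finset.mem_filter] at hw ⊢
    exact ⟨hw.1, hw.2.1⟩
  · intro w hw
    rw [Finset.mem_sdiff, Finset.mem_filter, Finset.mem_filter] at hw
    have hw2 : w = 2 := by
      by_contra h
      exact hw.2 ⟨hw.1.1, hw.1.2, h⟩
    subst hw2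
    rw [h2 a]
    norm_num
  · intro w hw
    rw [Finset.mem_filter] at hw
    obtain ⟨_, hp, hp2⟩ := hw
    have h1 : (rho a w : ℝ) = 1 + (jacobiSym (-a) w : ℝ) := by
      have := hP a w hp hp2
      have h3 : ((rho a w : ℤ) : ℝ) = ((1 + jacobiSym (-a) w : ℤ) : ℝ) := by rw [this]
      push_cast at h3
      exact h3
    have hw1 : (2 : ℝ) < w := by
      have : 2 < w := lt_of_le_of_ne hp.two_le (Ne.symm hp2)
      exact_mod_cast this
    have hw0 : (w : ℝ) ≠ 0 := by linarith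
    have hwm : (w : ℝ) - 1 ≠ 0 := by linarith
    rw [h1]
    field_simp
    ring

lemma three_le {p : ℕ} (hp : p.Prime) (hp2 : p ≠ 2) : (3 : ℝ) ≤ p := by
  have : 2 < p := lt_of_le_of_ne hp.two_le (Ne.symm hp2)
  exact_mod_cast this

lemma fac_pos (n₀ : ℤ) {p : ℕ} (hp : p.Prime) (hp2 : p ≠ 2) :
    0 < 1 - (jacobiSym n₀ p : ℝ) / ((p : ℝ) - 1) := by
  have h3 := three_le hp hp2
  have h1 := (abs_le.mp (jac_le n₀ p)).2
  have h2 : (jacobiSym n₀ p : ℝ) / ((p : ℝ) - 1) < 1 := by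
    rw [div_lt_one (by linarith)]
    linarith
  linarith

lemma fac_pos' (n₀ : ℤ) {p : ℕ} (hp : p.Prime) (hp2 : p ≠ 2) :
    0 < 1 - (jacobiSym n₀ p : ℝ) / (p : ℝ) := by
  have h3 := three_le hp hp2
  have h1 := (abs_le.mp (jac_le n₀ p)).2
  have h2 : (jacobiSym n₀ p : ℝ) / (p : ℝ) < 1 := by
    rw [div_lt_one (by linarith)]
    linarith
  linarith

/-- the correction factor -/
noncomputable def cf (n₀ : ℤ) (p : ℕ) : ℝ :=
  -(jacobiSym n₀ p : ℝ) / (((p : ℝ) - 1) * ((p : ℝ) - jacobiSym n₀ p))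

lemma fac_split (n₀ : ℤ) {p : ℕ} (hp : p.Prime) (hp2 : p ≠ 2) :
    (1 - (jacobiSym n₀ p : ℝ) / ((p : ℝ) - 1)) * (1 - (jacobiSym n₀ p : ℝ) / (p : ℝ))⁻¹
      = 1 + cf n₀ p := by
  have h3 := three_le hp hp2
  have h1 := (abs_le.mp (jac_le n₀ p)).2
  have h4 := fac_pos' n₀ hp hp2
  unfold cf
  set c : ℝ := (jacobiSym n₀ p : ℝ)
  have e1 : (p : ℝ) - 1 ≠ 0 := by linarith
  have e2 : (p : ℝ) - c ≠ 0 := by linarith
  have e3 : (p : ℝ) ≠ 0 := by linarith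
  have e4 : (1 - c / (p : ℝ))⁻¹ = p / (p - c) := by
    rw [one_sub_div e3, inv_div]
  rw [e4]
  field_simp
  ring

lemma cf_le (n₀ : ℤ) {p : ℕ} (hp : p.Prime) (hp2 : p ≠ 2) :
    |cf n₀ p| ≤ 4 * ((p : ℝ) ^ 2)⁻¹ := by
  have h3 := three_le hp hp2
  have h0 := jac_le n₀ p
  have h1 := (abs_le.mp h0).2
  unfold cf
  set c : ℝ := (jacobiSym n₀ p : ℝ)
  have e1 : (p : ℝ) / 2 ≤ p - 1 := by linarith
  have e2 : (p : ℝ) / 2 ≤ p - c := by linarith
  have e3 : (p : ℝ) / 2 * (p / 2) ≤ (p - 1) * (p - c) :=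
    mul_le_mul e1 e2 (by linarith) (by linarith)
  have hpos : 0 < (p : ℝ) / 2 * (p / 2) := by positivity
  rw [abs_div, abs_neg, abs_of_pos (show 0 < ((p : ℝ) - 1) * (p - c) by linarith)]
  calc |c| / (((p : ℝ) - 1) * (p - c)) ≤ 1 / ((p : ℝ) / 2 * (p / 2)) :=
        div_le_div₀ zero_le_one h0 hpos e3
    _ = 4 * ((p : ℝ) ^ 2)⁻¹ := by
        field_simp
        norm_num

lemma prod_bound (n₀ : ℤ) {w : ℕ} (hw : 16 ≤ w) (v : ℕ) :
    |∏ p ∈ SP v \ SP w, (1 + cf n₀ p) - 1| ≤ 16 / ((w : ℝ) + 1) := by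
  have h1 := Finset.norm_prod_one_add_sub_one_le (SP v \ SP w) (fun p => cf n₀ p)
  rw [Real.norm_eq_abs] at h1
  have h2 : ∑ p ∈ SP v \ SP w, ‖cf n₀ p‖ ≤ 8 / ((w : ℝ) + 1) := by
    have e1 : ∀ p ∈ SP v \ SP w, ‖cf n₀ p‖ ≤ 4 * ((p : ℝ) ^ 2)⁻¹ := by
      intro p hp
      rw [Finset.mem_sdiff, mem_SP] at hp
      exact cf_le n₀ hp.1.2.1 hp.1.2.2
    refine (Finset.sum_le_sum e1).trans ?_
    rw [← Finset.mul_sum]
    have e2 : ∑ p ∈ SP v \ SP w, ((p : ℝ) ^ 2)⁻¹ ≤ ∑ p ∈ Ioo w (v + 1), ((p : ℝ) ^ 2)⁻¹ := by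
      refine Finset.sum_le_sum_of_subset_of_nonneg ?_ (fun i _ _ => by positivity)
      intro p hp
      rw [Finset.mem_sdiff, mem_SP, mem_SP] at hp
      rw [Finset.mem_Ioo]
      refine ⟨?_, by omega⟩
      by_contra hcon
      exact hp.2 ⟨by omega, hp.1.2⟩
    have e3 := sum_Ioo_inv_sq_le (α := ℝ) w (v + 1)
    calc 4 * ∑ p ∈ SP v \ SP w, ((p : ℝ) ^ 2)⁻¹ ≤ 4 * (2 / ((w : ℝ) + 1)) := by linarith
      _ = 8 / ((w : ℝ) + 1) := by ring
  have hwR : (16 : ℝ) ≤ w := by exact_mod_cast hw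
  set x : ℝ := 8 / ((w : ℝ) + 1) with hx
  have hx0 : 0 ≤ x := by positivity
  have hx1 : x ≤ 1 / 2 := by
    rw [hx, div_le_div_iff₀ (by positivity) (by norm_num)]
    linarith
  have h3 : Real.exp (∑ p ∈ SP v \ SP w, ‖cf n₀ p‖) ≤ Real.exp x := Real.exp_le_exp.mpr h2
  have h4 := Real.exp_bound_div_one_sub_of_interval hx0 (by linarith)
  have h5 : 1 / (1 - x) ≤ 1 + 2 * x := by
    rw [div_le_iff₀ (by linarith)]
    nlinarith
  have h6 : 16 / ((w : ℝ) + 1) = 2 * x := by rw [hx]; ring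
  rw [h6]
  linarith

/-- comparison of `h_a / G_w(a)` and `L_w(a)` -/
lemma compare (hP : SpecRHOP) (h2 : SpecRHO2) (a : ℤ) {h l : ℝ}
    (hh : Tendsto (fun v : ℕ => Gw v a) atTop (𝓝 h))
    (hl : Tendsto (fun X : ℕ => ∏ p ∈ SP X, (1 - (jacobiSym (-a) p : ℝ) / p)⁻¹) atTop (𝓝 l))
    {w : ℕ} (hw : 16 ≤ w) :
    0 < Gw w a ∧ |h * (l * ∏ p ∈ SP w, (1 - (jacobiSym (-a) p : ℝ) / p)) - Gw w a|
      ≤ 16 / ((w : ℝ) + 1) * Gw w a := by
  have hG : 0 < Gw w a := by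
    rw [Gw_eq hP h2]
    refine Finset.prod_pos (fun p hp => ?_)
    obtain ⟨-, hp1, hp2⟩ := mem_SP.mp hp
    exact fac_pos (-a) hp1 hp2
  refine ⟨hG, ?_⟩
  set E : ℕ → ℝ := fun X => ∏ p ∈ SP X, (1 - (jacobiSym (-a) p : ℝ) / p)⁻¹ with hE
  set P : ℝ := ∏ p ∈ SP w, (1 - (jacobiSym (-a) p : ℝ) / p) with hPdef
  have hPpos : 0 < P := by
    refine Finset.prod_pos (fun p hp => ?_)
    obtain ⟨-, hp1, hp2⟩ := mem_SP.mp hp
    exact fac_pos' (-a) hp1 hp2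
  have hEP : E w * P = 1 := by
    rw [hE, hPdef]
    simp only
    rw [Finset.prod_inv_distrib]
    exact inv_mul_cancel₀ hPpos.ne'
  have hlim : Tendsto (fun v : ℕ => |Gw v a * (E v * P) - Gw w a|) atTop
      (𝓝 |h * (l * P) - Gw w a|) :=
    ((hh.mul (hl.mul_const P)).sub_const (Gw w a)).abs
  refine le_of_tendsto hlim ?_
  filter_upwards [eventually_ge_atTop w] with v hv
  have hsub : SP w ⊆ SP v := by
    intro p hp
    obtain ⟨h3, h4⟩ := mem_SP.mp hp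
    exact mem_SP.mpr ⟨h3.trans hv, h4⟩
  have e1 : Gw v a * E v = Gw w a * E w * ∏ p ∈ SP v \ SP w, (1 + cf (-a) p) := by
    rw [Gw_eq hP h2, Gw_eq hP h2, hE]
    simp only
    rw [← Finset.prod_mul_distrib, ← Finset.prod_mul_distrib, ← Finset.prod_sdiff hsub, mul_comm]
    congr 1
    refine Finset.prod_congr rfl (fun p hp => ?_)
    rw [Finset.mem_sdiff, mem_SP] at hp
    exact fac_split (-a) hp.1.2.1 hp.1.2.2
  have e2 : Gw v a * (E v * P) - Gw w a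
      = Gw w a * (∏ p ∈ SP v \ SP w, (1 + cf (-a) p) - 1) := by
    calc Gw v a * (E v * P) - Gw w a = (Gw v a * E v) * P - Gw w a := by ring
      _ = Gw w a * (E w * P) * ∏ p ∈ SP v \ SP w, (1 + cf (-a) p) - Gw w a := by rw [e1]; ring
      _ = _ := by rw [hEP]; ring
  rw [e2, abs_mul, abs_of_pos hG, mul_comm]
  exact mul_le_mul_of_nonneg_right (prod_bound (-a) hw v) hG.le

lemma card_sq_le (A : ℕ) : ((IA A).filter (fun a => IsSquare (-a))).card ≤ Nat.sqrt A + 1 := by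
  have h1 : (IA A).filter (fun a => IsSquare (-a))
      ⊆ (range (Nat.sqrt A + 1)).image (fun r : ℕ => -((r : ℤ) ^ 2)) := by
    intro a ha
    rw [Finset.mem_filter] at ha
    unfold IA at ha
    rw [Finset.mem_Icc] at ha
    obtain ⟨⟨h1, h2⟩, r, hr⟩ := ha
    rw [Finset.mem_image]
    refine ⟨r.natAbs, ?_, ?_⟩
    · rw [Finset.mem_range, Nat.lt_succ_iff, Nat.le_sqrt]
      have h3 : ((r.natAbs * r.natAbs : ℕ) : ℤ) = -a := by
        rw [hr]
        push_cast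
        exact Int.natAbs_mul_self' r |>.symm ▸ by simp
      have h4 : ((r.natAbs * r.natAbs : ℕ) : ℤ) ≤ A := by rw [h3]; linarith
      exact_mod_cast h4
    · rw [Int.natCast_natAbs, sq_abs, sq, ← hr]
      ring
  have h2 := Finset.card_le_card h1
  refine h2.trans (Finset.card_image_le.trans ?_)
  rw [Finset.card_range]

end Pool.Agent.Lib.MP391708.QPA.F6

namespace Pool.Agent.Lib.MP391708.QPA

open Finset Filter Topology
open scoped Classical

/-- **Module F6.** -/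
theorem specF6 (hE : SpecEUL) (hC : SpecCONV) (hA : SpecPVA) (hV : SpecPVE) (hP : SpecRHOP)
    (h2 : SpecRHO2) : SpecF6 := by
  obtain ⟨C, hCpos, hbody⟩ := F6.body hA
  obtain ⟨C₂, hC₂, hPVE⟩ := hV (1 / 8) (by norm_num)
  intro δ hδ
  set δ₁ : ℝ := min δ 1 with hδ₁
  have hδ₁0 : 0 < δ₁ := lt_min hδ one_pos
  have hδ₁1 : δ₁ ≤ 1 := min_le_right _ _
  have hδ₁δ : δ₁ ≤ δ := min_le_left _ _
  set η : ℝ := δ₁ / 8 with hη
  have hη0 : 0 < η := by positivity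
  have hη1 : η ≤ 1 / 8 := by rw [hη]; linarith
  obtain ⟨w₀, hw₀⟩ := exists_nat_ge (max (16 / η) ((4 * C / (η ^ 2 * δ)) ^ 2))
  refine ⟨w₀ + 16, ?_⟩
  intro w hw
  have hw16 : 16 ≤ w := by omega
  have hwR : (w₀ : ℝ) ≤ w := by exact_mod_cast (by omega : w₀ ≤ w)
  have hw1 : 16 / ((w : ℝ) + 1) ≤ η := by
    have e1 : 16 / η ≤ w := (le_max_left _ _).trans (hw₀.trans hwR)
    rw [div_le_iff₀ (by positivity)]
    rw [div_le_iff₀ hη0] at e1
    nlinarith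
  have hw2 : C / (η ^ 2 * √(w : ℝ)) ≤ δ / 4 := by
    have e1 : (4 * C / (η ^ 2 * δ)) ^ 2 ≤ w := (le_max_right _ _).trans (hw₀.trans hwR)
    have e2 : 4 * C / (η ^ 2 * δ) ≤ √(w : ℝ) := Real.le_sqrt_of_sq_le e1
    rw [div_le_iff₀ (by positivity)] at e2
    have hwpos : 0 < √(w : ℝ) := Real.sqrt_pos.mpr (by exact_mod_cast (by omega : 0 < w))
    rw [div_le_iff₀ (by positivity)]
    nlinarith
  have hev : ∀ᶠ A : ℕ in atTop, 2 ^ (w + 1) * C₂ / η ≤ (A : ℝ) ^ (3 / 40 : ℝ) ∧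
      1 * (1 + Real.log A) ≤ (A : ℝ) ^ (1 / 32 : ℝ) ∧
      4 * C / (η ^ 2 * δ) ≤ (A : ℝ) ^ (1 / 16 : ℝ) ∧ 8 / δ ≤ (A : ℝ) ^ (1 / 2 : ℝ) ∧ 1 ≤ A :=
    (RHOMEAN.ev_rpow _ (by norm_num) _).and
      ((RHOMEAN.ev_log_rpow _ (by norm_num) 1 zero_le_one).and
      ((RHOMEAN.ev_rpow _ (by norm_num) _).and
      ((RHOMEAN.ev_rpow _ (by norm_num) _).and (eventually_ge_atTop 1))))
  obtain ⟨A₀, hA₀⟩ := eventually_atTop.mp hev
  refine ⟨A₀, ?_⟩
  intro A hAA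
  obtain ⟨q1, q2, q3, q4, hA1⟩ := hA₀ A hAA
  have hAR : (1 : ℝ) ≤ A := by exact_mod_cast hA1
  have hApos : (0 : ℝ) < A := by linarith
  have hpw : ∀ r s : ℝ, (A : ℝ) ^ r * (A : ℝ) ^ s = (A : ℝ) ^ (r + s) := fun r s =>
    (Real.rpow_add hApos r s).symm
  set Y : ℕ := ⌊(A : ℝ) ^ (7 / 10 : ℝ)⌋₊ with hY
  have hYle : (Y : ℝ) ≤ (A : ℝ) ^ (7 / 10 : ℝ) := Nat.floor_le (by positivity)
  have hYlt : (A : ℝ) ^ (7 / 10 : ℝ) < (Y : ℝ) + 1 := Nat.lt_floor_add_one _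
  have hY1 : 1 ≤ Y := by
    rw [hY]
    exact Nat.le_floor (by push_cast; exact Real.one_le_rpow hAR (by norm_num))
  have hYR : (1 : ℝ) ≤ Y := by exact_mod_cast hY1
  set S : ℤ → ℝ := fun a => ∑ n ∈ F6.RY w Y, (jacobiSym (-a) n : ℝ) / n with hS
  have hb := hbody w A Y (by omega) hA1 hY1
  -- the exceptional set
  have hsub : (IA A).filter (fun a => ¬ ∃ h : ℝ, 0 < h ∧ Tendsto (fun v : ℕ => Gw v a) atTop (𝓝 h) ∧
      |Gw w a - h| ≤ δ * h)
      ⊆ (IA A).filter (fun a => IsSquare (-a)) ∪ (IA A).filter (fun a => η < |S a|) := by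
    intro a ha
    rw [Finset.mem_filter] at ha
    rw [Finset.mem_union, Finset.mem_filter, Finset.mem_filter]
    by_contra hcon
    push Not at hcon
    obtain ⟨hc1, hc2⟩ := hcon
    have hsq := hc1 ha.1
    have hSa := hc2 ha.1
    apply ha.2
    obtain ⟨h, hh0, hh⟩ := hC a hsq
    refine ⟨h, hh0, hh, ?_⟩
    obtain ⟨l, hl0, hl1, hl2⟩ := hE a hsq
    have ha0 : -a ≠ 0 := by
      intro h0
      exact hsq (by rw [h0]; exact ⟨0, by ring⟩)
    have haA : |a| ≤ (A : ℤ) := by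
      have := ha.1
      unfold IA at this
      rw [Finset.mem_Icc] at this
      exact abs_le.mpr this
    -- the bound for the character sums
    set B : ℝ := C₂ * (A : ℝ) ^ (5 / 8 : ℝ) with hB
    have hBd : ∀ x y : ℕ, |∑ k ∈ (Ioc x y).filter Odd, (jacobiSym (-a) k : ℝ)| ≤ B := by
      intro x y
      refine (hPVE (-a) ha0 hsq x y).trans ?_
      refine mul_le_mul_of_nonneg_left ?_ hC₂.le
      have e1 : ((-a).natAbs : ℝ) ≤ A := by
        rw [Int.natAbs_neg]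
        have : (a.natAbs : ℤ) ≤ A := by
          rw [Int.natCast_natAbs]
          exact haA
        exact_mod_cast this
      rw [show (1 / 2 + 1 / 8 : ℝ) = 5 / 8 by norm_num]
      exact Real.rpow_le_rpow (by positivity) e1 (by norm_num)
    have htail : ∀ X : ℕ, Y ≤ X →
        |∑ k ∈ (Ioc Y X).filter (F6.Fr (F6.SP w)), (jacobiSym (-a) k : ℝ) / k| ≤ η := by
      intro X hX
      refine (F6.tail (-a) hBd Y X hX).trans ?_
      rw [div_le_iff₀ (by positivity)]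
      rw [div_le_iff₀ hη0] at q1
      calc 2 ^ (w + 1) * B = (2 ^ (w + 1) * C₂) * (A : ℝ) ^ (5 / 8 : ℝ) := by rw [hB]; ring
        _ ≤ ((A : ℝ) ^ (3 / 40 : ℝ) * η) * (A : ℝ) ^ (5 / 8 : ℝ) :=
            mul_le_mul_of_nonneg_right q1 (by positivity)
        _ = η * ((A : ℝ) ^ (3 / 40 : ℝ) * (A : ℝ) ^ (5 / 8 : ℝ)) := by ring
        _ = η * (A : ℝ) ^ (7 / 10 : ℝ) := by rw [hpw]; norm_num
        _ ≤ η * ((Y : ℝ) + 1) := mul_le_mul_of_nonneg_left hYlt.le hη0.le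
    set L : ℝ := l * ∏ p ∈ F6.SP w, (1 - (jacobiSym (-a) p : ℝ) / p) with hL
    have hLlim := F6.limit_sift (-a) hl1 (F6.SP w) (fun p hp => (F6.mem_SP.mp hp).2)
    have hL1 : |L - 1| ≤ 2 * η := by
      have hlim2 : Tendsto (fun X : ℕ =>
          |∑ n ∈ (Ioc 0 X).filter (F6.Fr (F6.SP w)), (jacobiSym (-a) n : ℝ) / n - 1|) atTop
          (𝓝 |L - 1|) := (hLlim.sub_const 1).abs
      refine le_of_tendsto hlim2 ?_
      filter_upwards [eventually_ge_atTop Y] with X hX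
      have e1 : (Ioc 0 X).filter (F6.Fr (F6.SP w))
          = insert 1 (F6.RY w Y ∪ (Ioc Y X).filter (F6.Fr (F6.SP w))) := by
        ext n
        unfold F6.RY
        rw [Finset.mem_insert, Finset.mem_union, Finset.mem_filter, Finset.mem_filter,
          Finset.mem_filter, Finset.mem_Ioc, Finset.mem_Icc, Finset.mem_Ioc,
          F6.rough_iff (by omega) n]
        constructor
        · rintro ⟨⟨h3, h4⟩, h5⟩
          rcases Nat.lt_or_ge n 2 with h6 | h6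
          · left; omega
          · right
            rcases Nat.le_or_ge n Y with h7 | h7
            · left; exact ⟨⟨h6, h7⟩, h5⟩
            · rcases Nat.eq_or_lt_of_le h7 with h8 | h8
              · left; exact ⟨⟨h6, h8.symm.le⟩, h5⟩
              · right; exact ⟨⟨h8, h4⟩, h5⟩
        · rintro (h3 | ⟨⟨h3, h4⟩, h5⟩ | ⟨⟨h3, h4⟩, h5⟩)
          · subst h3
            refine ⟨⟨by norm_num, hY1.trans hX⟩, odd_one, ?_⟩
            intro p hp hp1
            exact (F6.mem_SP.mp hp).2.1.one_lt.ne' (Nat.dvd_one.mp hp1)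
          · exact ⟨⟨by omega, h4.trans hX⟩, h5⟩
          · exact ⟨⟨by omega, h4⟩, h5⟩
      have e2 : (1 : ℕ) ∉ F6.RY w Y ∪ (Ioc Y X).filter (F6.Fr (F6.SP w)) := by
        unfold F6.RY
        rw [Finset.mem_union, Finset.mem_filter, Finset.mem_filter, Finset.mem_Icc, Finset.mem_Ioc]
        omega
      have e3 : Disjoint (F6.RY w Y) ((Ioc Y X).filter (F6.Fr (F6.SP w))) := by
        rw [Finset.disjoint_left]
        intro n hn hn'
        unfold F6.RY at hn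
        rw [Finset.mem_filter, Finset.mem_Icc] at hn
        rw [Finset.mem_filter, Finset.mem_Ioc] at hn'
        omega
      rw [e1, Finset.sum_insert e2, Finset.sum_union e3]
      have e4 : (jacobiSym (-a) 1 : ℝ) / ((1 : ℕ) : ℝ) = 1 := by
        rw [jacobiSym.one_right]
        norm_num
      rw [e4]
      have e5 : 1 + (∑ n ∈ F6.RY w Y, (jacobiSym (-a) n : ℝ) / n +
          ∑ n ∈ (Ioc Y X).filter (F6.Fr (F6.SP w)), (jacobiSym (-a) n : ℝ) / n) - 1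
          = S a + ∑ n ∈ (Ioc Y X).filter (F6.Fr (F6.SP w)), (jacobiSym (-a) n : ℝ) / n := by
        rw [hS]; ring
      rw [e5]
      refine (abs_add_le _ _).trans ?_
      have := htail X hX
      linarith
    obtain ⟨hG, hcmp⟩ := F6.compare hP h2 a hh hl2 hw16
    rw [← hL] at hcmp
    have hcmp' : |h * L - Gw w a| ≤ η * Gw w a :=
      hcmp.trans (mul_le_mul_of_nonneg_right hw1 hG.le)
    have f1 := abs_le.mp hcmp'
    have f2 := abs_le.mp hL1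
    have f3 : h * L ≤ h * (1 + 2 * η) := mul_le_mul_of_nonneg_left (by linarith) hh0.le
    have f4 : h * (1 - 2 * η) ≤ h * L := mul_le_mul_of_nonneg_left (by linarith) hh0.le
    have hG2 : Gw w a ≤ 2 * h := by nlinarith
    have f5 : η * Gw w a ≤ η * (2 * h) := mul_le_mul_of_nonneg_left hG2 hη0.le
    have f6 : 4 * (η * h) ≤ δ * h := by
      have : 4 * η ≤ δ := by rw [hη]; linarith
      nlinarith
    rw [abs_le]
    constructor <;> nlinarith
  have hcard := Finset.card_le_card hsub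
  have hcard2 := hcard.trans (Finset.card_union_le _ _)
  have hsqc := F6.card_sq_le A
  have hM : (((IA A).filter (fun a => η < |S a|)).card : ℝ) ≤ δ / 2 * A := by
    have e1 : (((IA A).filter (fun a => η < |S a|)).card : ℝ) * η ^ 2 ≤ ∑ a ∈ IA A, (S a) ^ 2 := by
      calc (((IA A).filter (fun a => η < |S a|)).card : ℝ) * η ^ 2
          = ∑ a ∈ (IA A).filter (fun a => η < |S a|), η ^ 2 := by
            rw [Finset.sum_const, nsmul_eq_mul]
        _ ≤ ∑ a ∈ (IA A).filter (fun a => η < |S a|), (S a) ^ 2 := by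
            refine Finset.sum_le_sum (fun a ha => ?_)
            rw [Finset.mem_filter] at ha
            rw [← sq_abs (S a)]
            exact pow_le_pow_left₀ hη0.le ha.2.le 2
        _ ≤ ∑ a ∈ IA A, (S a) ^ 2 :=
            Finset.sum_le_sum_of_subset_of_nonneg (Finset.filter_subset _ _)
              (fun i _ _ => sq_nonneg _)
    have e2 : (Y : ℝ) ^ (5 / 4 : ℝ) ≤ (A : ℝ) ^ (7 / 8 : ℝ) := by
      calc (Y : ℝ) ^ (5 / 4 : ℝ) ≤ ((A : ℝ) ^ (7 / 10 : ℝ)) ^ (5 / 4 : ℝ) :=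
            Real.rpow_le_rpow (by positivity) hYle (by norm_num)
        _ = (A : ℝ) ^ (7 / 8 : ℝ) := by
            rw [← Real.rpow_mul hApos.le]
            norm_num
    have hYA : (Y : ℝ) ≤ A := by
      refine hYle.trans ?_
      calc (A : ℝ) ^ (7 / 10 : ℝ) ≤ (A : ℝ) ^ (1 : ℝ) :=
            Real.rpow_le_rpow_of_exponent_le hAR (by norm_num)
        _ = A := Real.rpow_one _
    have e3 : (1 + Real.log Y) ^ 2 ≤ (A : ℝ) ^ (1 / 16 : ℝ) := by
      have f1 : 0 ≤ 1 + Real.log Y := by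
        have := Real.log_nonneg hYR
        linarith
      have f2 : 1 + Real.log Y ≤ (A : ℝ) ^ (1 / 32 : ℝ) := by
        have := Real.log_le_log (by linarith) hYA
        linarith
      calc (1 + Real.log Y) ^ 2 ≤ ((A : ℝ) ^ (1 / 32 : ℝ)) ^ 2 := pow_le_pow_left₀ f1 f2 2
        _ = (A : ℝ) ^ (1 / 16 : ℝ) := by
            rw [← Real.rpow_natCast, ← Real.rpow_mul hApos.le]
            norm_num
    have e4 : (Y : ℝ) ^ (5 / 4 : ℝ) * (1 + Real.log Y) ^ 2 ≤ (A : ℝ) ^ (15 / 16 : ℝ) := by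
      calc (Y : ℝ) ^ (5 / 4 : ℝ) * (1 + Real.log Y) ^ 2
          ≤ (A : ℝ) ^ (7 / 8 : ℝ) * (A : ℝ) ^ (1 / 16 : ℝ) :=
            mul_le_mul e2 e3 (by positivity) (by positivity)
        _ = (A : ℝ) ^ (15 / 16 : ℝ) := by rw [hpw]; norm_num
    have e5 : C * (A : ℝ) ^ (15 / 16 : ℝ) ≤ δ / 4 * η ^ 2 * A := by
      have f1 : (A : ℝ) ^ (15 / 16 : ℝ) * (A : ℝ) ^ (1 / 16 : ℝ) = A := by
        rw [hpw]
        norm_num
      rw [div_le_iff₀ (by positivity)] at q3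
      have f2 : (A : ℝ) ^ (15 / 16 : ℝ) * (4 * C)
          ≤ (A : ℝ) ^ (15 / 16 : ℝ) * ((A : ℝ) ^ (1 / 16 : ℝ) * (η ^ 2 * δ)) :=
        mul_le_mul_of_nonneg_left q3 (by positivity)
      have f3 : (A : ℝ) ^ (15 / 16 : ℝ) * ((A : ℝ) ^ (1 / 16 : ℝ) * (η ^ 2 * δ))
          = A * (η ^ 2 * δ) := by
        rw [← mul_assoc, f1]
      rw [f3] at f2
      linarith
    have e6 : C * (A / √(w : ℝ)) ≤ δ / 4 * η ^ 2 * A := by
      have hwpos : 0 < √(w : ℝ) := Real.sqrt_pos.mpr (by exact_mod_cast (by omega : 0 < w))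
      have f1 : C * (A / √(w : ℝ)) = C / (η ^ 2 * √(w : ℝ)) * (η ^ 2 * A) := by
        field_simp
      rw [f1]
      have f2 : C / (η ^ 2 * √(w : ℝ)) * (η ^ 2 * A) ≤ δ / 4 * (η ^ 2 * A) :=
        mul_le_mul_of_nonneg_right hw2 (by positivity)
      linarith
    have e7 : (((IA A).filter (fun a => η < |S a|)).card : ℝ) * η ^ 2 ≤ (δ / 2 * A) * η ^ 2 := by
      have f1 : C * (A / √(w : ℝ) + (Y : ℝ) ^ (5 / 4 : ℝ) * (1 + Real.log Y) ^ 2)
          ≤ C * (A / √(w : ℝ)) + C * (A : ℝ) ^ (15 / 16 : ℝ) := by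
        rw [mul_add]
        have := mul_le_mul_of_nonneg_left e4 hCpos.le
        linarith
      have f2 : ∑ a ∈ IA A, (S a) ^ 2 ≤ C * (A / √(w : ℝ) + (Y : ℝ) ^ (5 / 4 : ℝ) *
        (1 + Real.log Y) ^ 2) := hb
      linarith
    exact le_of_mul_le_mul_right e7 (by positivity)
  have hSq : ((((IA A).filter (fun a => IsSquare (-a))).card : ℕ) : ℝ) ≤ δ / 4 * A := by
    have e1 : ((((IA A).filter (fun a => IsSquare (-a))).card : ℕ) : ℝ) ≤ (Nat.sqrt A : ℝ) + 1 := by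
      exact_mod_cast hsqc
    have e2 : (Nat.sqrt A : ℝ) ≤ (A : ℝ) ^ (1 / 2 : ℝ) := by
      rw [← Real.sqrt_eq_rpow]
      exact Real.nat_sqrt_le_real_sqrt
    have e3 : (1 : ℝ) ≤ (A : ℝ) ^ (1 / 2 : ℝ) := Real.one_le_rpow hAR (by norm_num)
    have e4 : (A : ℝ) ^ (1 / 2 : ℝ) * (A : ℝ) ^ (1 / 2 : ℝ) = A := by
      rw [hpw]
      norm_num
    rw [div_le_iff₀ hδ] at q4
    have e5 : 2 * (A : ℝ) ^ (1 / 2 : ℝ) ≤ δ / 4 * A := by
      have f1 : (A : ℝ) ^ (1 / 2 : ℝ) * 8 ≤ (A : ℝ) ^ (1 / 2 : ℝ) * ((A : ℝ) ^ (1 / 2 : ℝ) * δ) :=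
        mul_le_mul_of_nonneg_left q4 (by positivity)
      rw [← mul_assoc, e4] at f1
      linarith
    linarith
  have hfin : ((((IA A).filter (fun a => ¬ ∃ h : ℝ, 0 < h ∧
      Tendsto (fun v : ℕ => Gw v a) atTop (𝓝 h) ∧ |Gw w a - h| ≤ δ * h)).card : ℕ) : ℝ)
      ≤ ((((IA A).filter (fun a => IsSquare (-a))).card : ℕ) : ℝ)
        + (((IA A).filter (fun a => η < |S a|)).card : ℝ) := by
    exact_mod_cast hcard2
  refine hfin.trans ?_
  have : 0 ≤ δ * A := by positivity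
  linarith

end Pool.Agent.Lib.MP391708.QPA
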