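import Pool.Agent.Lib.MP_391708_nt.QPA.Spec

/-!
# QPA module FFB: the functions `FF`
-/

set_option autoImplicit false

namespace Pool.Agent.Lib.MP391708.QPA.FFB

open Finset
open scoped Classical

theorem PJ_apply (N : ℕ) (e : ℝ) (i p : ℕ) : PJ N e i p =
    if p.Prime ∧ (N : ℝ) ^ ((i : ℝ) * e) ≤ p ∧ (p : ℝ) < (N : ℝ) ^ (((i : ℝ) + 1) * e)
    then 1 else 0 := rfl

theorem FF_zero (N : ℕ) (e : ℝ) : FF N e 0 = 1 := by simp [FF]

theorem FF_cons (N : ℕ) (e : ℝ) (i : ℕ) (c : Multiset ℕ) :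
    FF N e (i ::ₘ c) = PJ N e i * FF N e c := by simp [FF]

theorem FF_add (N : ℕ) (e : ℝ) (c d : Multiset ℕ) :
    FF N e (c + d) = FF N e c * FF N e d := by simp [FF]

theorem PJ_nonneg (N : ℕ) (e : ℝ) (i p : ℕ) : 0 ≤ PJ N e i p := by
  rw [PJ_apply]; split_ifs <;> norm_num

theorem PJ_le (N : ℕ) (e : ℝ) (i p : ℕ) : PJ N e i p ≤ 1 := by
  rw [PJ_apply]; split_ifs <;> norm_num

/-- the recursion for `FF` -/
theorem FF_cons_apply (N : ℕ) (e : ℝ) (i : ℕ) (c : Multiset ℕ) (m : ℕ) :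
    FF N e (i ::ₘ c) m
      = ∑ p ∈ m.primeFactors, PJ N e i p * FF N e c (m / p) := by
  rw [FF_cons, ArithmeticFunction.mul_apply, Nat.sum_divisorsAntidiagonal
    (f := fun a b => PJ N e i a * FF N e c b)]
  symm
  apply Finset.sum_subset
  · intro p hp
    have := Nat.mem_primeFactors.mp hp
    exact Nat.mem_divisors.mpr ⟨this.2.1, this.2.2⟩
  · intro p hp hnp
    have h1 := Nat.mem_divisors.mp hp
    have h2 : ¬ p.Prime := fun h => hnp (Nat.mem_primeFactors.mpr ⟨h, h1.1, h1.2⟩)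
    rw [PJ_apply, if_neg (fun h => h2 h.1), zero_mul]

theorem FF_nonneg (N : ℕ) (e : ℝ) (c : Multiset ℕ) (m : ℕ) : 0 ≤ FF N e c m := by
  induction c using Multiset.induction generalizing m with
  | empty => rw [FF_zero, ArithmeticFunction.one_apply]; split_ifs <;> norm_num
  | cons i c ih =>
    rw [FF_cons_apply]
    exact Finset.sum_nonneg (fun p _ => mul_nonneg (PJ_nonneg _ _ _ _) (ih _))

/-- a nonzero value comes from a factor -/
theorem FF_cons_ne (N : ℕ) (e : ℝ) (i : ℕ) (c : Multiset ℕ) (m : ℕ)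
    (h : FF N e (i ::ₘ c) m ≠ 0) : ∃ p ∈ m.primeFactors, (N : ℝ) ^ ((i : ℝ) * e) ≤ p ∧
      (p : ℝ) < (N : ℝ) ^ (((i : ℝ) + 1) * e) ∧ FF N e c (m / p) ≠ 0 := by
  rw [FF_cons_apply] at h
  obtain ⟨p, hp, hne⟩ := Finset.exists_ne_zero_of_sum_ne_zero h
  have h1 := left_ne_zero_of_mul hne
  have h2 := right_ne_zero_of_mul hne
  rw [PJ_apply] at h1
  split_ifs at h1 with h3
  · exact ⟨p, hp, h3.2.1, h3.2.2, h2⟩
  · exact absurd rfl h1

theorem length_div (m p : ℕ) (hp : p ∈ m.primeFactors) :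
    m.primeFactorsList.length = (m / p).primeFactorsList.length + 1 := by
  have h := Nat.mem_primeFactors.mp hp
  obtain ⟨k, hk⟩ := h.2.1
  have hk0 : k ≠ 0 := fun h0 => h.2.2 (by rw [hk, h0, mul_zero])
  have hmk : m / p = k := by rw [hk, Nat.mul_div_cancel_left _ h.1.pos]
  rw [hmk, hk, (Nat.perm_primeFactorsList_mul h.1.ne_zero hk0).length_eq, List.length_append,
    Nat.primeFactorsList_prime h.1]
  simp [add_comm]

theorem FF_support (N : ℕ) (e : ℝ) (hN : 2 ≤ N) (c : Multiset ℕ) (m : ℕ)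
    (h : FF N e c m ≠ 0) : 1 ≤ m ∧ (N : ℝ) ^ (e * (c.sum : ℝ)) ≤ m ∧
    (m : ℝ) ≤ (N : ℝ) ^ (e * ((c.sum : ℝ) + (Multiset.card c : ℝ))) ∧
    (m.primeFactorsList.length = Multiset.card c) ∧
    (0 < e → ∀ q : ℕ, (∀ i ∈ c, q ≤ i) → Rough ((N : ℝ) ^ (e * q)) m) := by
  induction c using Multiset.induction generalizing m with
  | empty =>
    rw [FF_zero, ArithmeticFunction.one_apply] at h
    have hm : m = 1 := by
      by_contra hne
      rw [if_neg hne] at h
      exact h rfl
    subst hm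
    refine ⟨le_refl _, by simp, by simp, by simp, ?_⟩
    intro _ q _ p hp hp1
    exact absurd (Nat.dvd_one.mp hp1) hp.one_lt.ne'
  | cons i c ih =>
    obtain ⟨p, hp, hlo, hhi, hne⟩ := FF_cons_ne N e i c m h
    obtain ⟨h1, h2, h3, h4, h5⟩ := ih _ hne
    have hpm := Nat.mem_primeFactors.mp hp
    have hN0 : (0 : ℝ) < N := by exact_mod_cast (by omega : 0 < N)
    have hN1 : (1 : ℝ) ≤ N := by exact_mod_cast (by omega : 1 ≤ N)
    have hmp : (m : ℝ) = p * (m / p : ℕ) := by
      exact_mod_cast (Nat.mul_div_cancel' hpm.2.1).symm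
    refine ⟨Nat.pos_of_ne_zero hpm.2.2, ?_, ?_, ?_, ?_⟩
    · rw [Multiset.sum_cons, hmp, Nat.cast_add]
      have : (N : ℝ) ^ (e * ((i : ℝ) + (c.sum : ℝ)))
          = (N : ℝ) ^ ((i : ℝ) * e) * (N : ℝ) ^ (e * (c.sum : ℝ)) := by
        rw [← Real.rpow_add hN0]; ring_nf
      rw [this]
      exact mul_le_mul hlo h2 (by positivity) (by positivity)
    · rw [Multiset.sum_cons, Multiset.card_cons, hmp, Nat.cast_add, Nat.cast_add, Nat.cast_one]
      have : (N : ℝ) ^ (e * ((i : ℝ) + (c.sum : ℝ) + ((Multiset.card c : ℝ) + 1)))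
          = (N : ℝ) ^ (((i : ℝ) + 1) * e) * (N : ℝ) ^ (e * ((c.sum : ℝ) + (Multiset.card c : ℝ))) := by
        rw [← Real.rpow_add hN0]; ring_nf
      rw [this]
      exact mul_le_mul hhi.le h3 (by positivity) (by positivity)
    · rw [Multiset.card_cons, length_div m p hp, h4]
    · intro he q hq r hr hrm
      rw [← Nat.mul_div_cancel' hpm.2.1] at hrm
      rcases (Nat.Prime.dvd_mul hr).mp hrm with h6 | h6
      · have h7 : r = p := (Nat.prime_dvd_prime_iff_eq hr hpm.1).mp h6
        rw [h7]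
        refine le_trans ?_ hlo
        apply Real.rpow_le_rpow_of_exponent_le hN1
        have : (q : ℝ) ≤ i := by exact_mod_cast hq i (Multiset.mem_cons_self i c)
        nlinarith
      · exact h5 he q (fun j hj => hq j (Multiset.mem_cons_of_mem hj)) r hr h6

theorem card_primeFactors_le (m : ℕ) : m.primeFactors.card ≤ m.primeFactorsList.length :=
  List.toFinset_card_le _

theorem FF_le (N : ℕ) (e : ℝ) (hN : 2 ≤ N) (c : Multiset ℕ) (m : ℕ) :
    FF N e c m ≤ (Multiset.card c).factorial := by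
  induction c using Multiset.induction generalizing m with
  | empty => rw [FF_zero, ArithmeticFunction.one_apply]; split_ifs <;> simp
  | cons i c ih =>
    by_cases h0 : FF N e (i ::ₘ c) m = 0
    · rw [h0]; positivity
    · have hlen := (FF_support N e hN _ _ h0).2.2.2.1
      rw [FF_cons_apply, Multiset.card_cons, Nat.factorial_succ]
      calc ∑ p ∈ m.primeFactors, PJ N e i p * FF N e c (m / p)
          ≤ ∑ p ∈ m.primeFactors, ((Multiset.card c).factorial : ℝ) := by
            apply Finset.sum_le_sum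
            intro p _
            calc PJ N e i p * FF N e c (m / p) ≤ 1 * ((Multiset.card c).factorial : ℝ) :=
                  mul_le_mul (PJ_le _ _ _ _) (ih _) (FF_nonneg _ _ _ _) (by norm_num)
              _ = _ := one_mul _
        _ = m.primeFactors.card * ((Multiset.card c).factorial : ℝ) := by
            rw [Finset.sum_const, nsmul_eq_mul]
        _ ≤ ((Multiset.card c + 1) * (Multiset.card c).factorial : ℕ) := by
            push_cast
            apply mul_le_mul_of_nonneg_right _ (by positivity)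
            have h1 := card_primeFactors_le m
            rw [hlen, Multiset.card_cons] at h1
            exact_mod_cast h1

end Pool.Agent.Lib.MP391708.QPA.FFB

namespace Pool.Agent.Lib.MP391708.QPA

theorem specFFB : SpecFFB := by
  intro N e c m hN he
  refine ⟨FFB.FF_nonneg N e c m, FFB.FF_le N e hN c m, fun h => ?_⟩
  obtain ⟨h1, h2, h3, h4, h5⟩ := FFB.FF_support N e hN c m h
  exact ⟨h1, h2, h3, h4, h5 he⟩

end Pool.Agent.Lib.MP391708.QPA
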