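import Pool.Agent.Lib.MP_391708_nt.QPA.FLW

/-!
# Module FLP: the fundamental lemma, pointwise form (universal weights)

The weights `cp` (upper bound sieve) and `ce` (error) depend on `z`, `b` only, neither on the densities nor on the
sequence: for all `a_p ∈ [0,1]`, with `ρ⁺(a) = ∑_δ cp(δ) ∏_{p ∣ δ} a_p`, `e(a) = ∑_δ ce(δ) ∏_{p ∣ δ} a_p`:
`0 ≤ ρ⁺(a) - ∏_{p < z} (1 - a_p) ≤ e(a)`, and `e(g) ≤ C e^(-b) ∏ (1 - g p)` for all densities `g p ≤ κ₀/p`.
-/

set_option autoImplicit false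

namespace Pool.Agent.Lib.MP391708.QPA

open Finset FL

/-- FLP (fundamental lemma, pointwise, dimension `κ₀`). -/
def SpecFLP : Prop := ∀ κ₀ : ℝ, 0 < κ₀ → ∃ C : ℝ, 0 < C ∧ ∀ (b : ℕ) (z : ℝ), 2 ≤ z →
  ∃ cp ce : ℕ → ℝ, (∀ δ, |cp δ| ≤ 1) ∧ (∀ δ, |ce δ| ≤ C * (1 + Real.log z)) ∧
  (∀ a : ℕ → ℝ, (∀ p : ℕ, p.Prime → 0 ≤ a p ∧ a p ≤ 1) →
    0 ≤ (∑ δ ∈ FLW.Dset z b, cp δ * ∏ p ∈ δ.primeFactors, a p) - ∏ p ∈ PB z, (1 - a p) ∧
    (∑ δ ∈ FLW.Dset z b, cp δ * ∏ p ∈ δ.primeFactors, a p) - ∏ p ∈ PB z, (1 - a p) ≤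
      ∑ δ ∈ FLW.Dset z b, ce δ * ∏ p ∈ δ.primeFactors, a p) ∧
  ∀ g : ℕ → ℝ, (∀ p : ℕ, p.Prime → 0 ≤ g p ∧ g p ≤ κ₀ / (p : ℝ) ∧ g p ≤ 2 / 3) →
    ∑ δ ∈ FLW.Dset z b, ce δ * ∏ p ∈ δ.primeFactors, g p ≤
      C * Real.exp (-(b : ℝ)) * ∏ p ∈ PB z, (1 - g p)

namespace FLPM

/-- sums over the subsets of the primes as sums over the moduli -/
lemma transfer {z : ℝ} {b K : ℕ} (hU : (range (K + 1)).biUnion (Blk z) = PB z)
    (c : Finset ℕ → ℝ)
    (hc : ∀ s : Finset ℕ, s ⊆ (range (K + 1)).biUnion (Blk z) → c s ≠ 0 →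
      (∏ p ∈ s, p) ∈ FLW.Dset z b) (a : ℕ → ℝ) :
    ∑ s ∈ ((range (K + 1)).biUnion (Blk z)).powerset, c s * ∏ p ∈ s, a p =
      ∑ δ ∈ FLW.Dset z b, c δ.primeFactors * ∏ p ∈ δ.primeFactors, a p := by
  classical
  have hinj : Set.InjOn (fun δ : ℕ => δ.primeFactors) (FLW.Dset z b : Set ℕ) := by
    intro δ hδ δ' hδ' h
    have h1 := (mem_filter.1 (Finset.mem_coe.1 hδ)).2.1
    have h2 := (mem_filter.1 (Finset.mem_coe.1 hδ')).2.1
    rw [← Nat.prod_primeFactors_of_squarefree h1, ← Nat.prod_primeFactors_of_squarefree h2]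
    simp only at h
    rw [h]
  have e1 : ∑ δ ∈ FLW.Dset z b, c δ.primeFactors * ∏ p ∈ δ.primeFactors, a p =
      ∑ s ∈ (FLW.Dset z b).image (fun δ => δ.primeFactors), c s * ∏ p ∈ s, a p := by
    rw [Finset.sum_image hinj]
  rw [e1]
  symm
  refine Finset.sum_subset ?_ ?_
  · intro s hs
    obtain ⟨δ, hδ, rfl⟩ := mem_image.1 hs
    have h1 := mem_filter.1 hδ
    rw [mem_powerset, hU]
    intro p hp
    have h2 := Nat.mem_primeFactors.1 hp
    exact mem_PB.2 ⟨h2.1, h1.2.2 p h2.1 h2.2.1⟩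
  · intro s hs hn
    by_cases h0 : c s = 0
    · rw [h0, zero_mul]
    · exfalso
      apply hn
      have hs' := mem_powerset.1 hs
      have hpr : ∀ p ∈ s, p.Prime := by
        intro p hp
        have h2 := hs' hp
        rw [hU] at h2
        exact (mem_PB.1 h2).1
      exact mem_image.2 ⟨∏ p ∈ s, p, hc s hs' h0, Nat.primeFactors_prod hpr⟩

end FLPM

theorem specFLP : SpecFLP := by
  classical
  intro κ₀ hκ₀
  have hM : 0 < FLW.Mk κ₀ := Real.exp_pos _
  set Mk := FLW.Mk κ₀ with hMk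
  refine ⟨Mk * Real.exp Mk + 2, by positivity, ?_⟩
  intro b z hz
  obtain ⟨K, hK1, hK2⟩ := exists_K hz
  have hU := biUnion_Blk hK2
  have hdis := Blk_disjoint z
  have hprime : ∀ j, ∀ p ∈ Blk z j, p.Prime := fun j p hp => (mem_Blk.1 hp).1
  set D := FLW.Dset z b with hDdef
  have hDmem : ∀ s : Finset ℕ, s ⊆ (range (K + 1)).biUnion (Blk z) →
      (∀ j ∈ range (K + 1), (s ∩ Blk z j).card ≤ 2 * (b + (K - j)) + 1) →
      (∏ p ∈ s, p) ∈ D := by
    intro s hs hc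
    have hsp : ∀ p ∈ s, p.Prime ∧ (p : ℝ) < z := by
      intro p hp
      have := hs hp
      rw [hU] at this
      exact mem_PB.1 this
    have hpf : (∏ p ∈ s, p).primeFactors = s := Nat.primeFactors_prod fun p hp => (hsp p hp).1
    have hne : (∏ p ∈ s, p) ≠ 0 := Finset.prod_ne_zero_iff.2 fun p hp => (hsp p hp).1.ne_zero
    rw [hDdef, FLW.Dset, Finset.mem_filter, Finset.mem_Icc]
    refine ⟨⟨Nat.pos_of_ne_zero hne, Nat.le_floor ?_⟩, ?_, ?_⟩
    · exact size_le hz hK1 s hs hc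
    · refine Finset.squarefree_prod_of_pairwise_isCoprime ?_ ?_
      · intro p hp q hq hpq
        exact Nat.coprime_iff_isRelPrime.1 ((Nat.coprime_primes (hsp p hp).1 (hsp q hq).1).2 hpq)
      · intro p hp; exact (hsp p hp).1.squarefree
    · intro p hp hd
      have : p ∈ (∏ p ∈ s, p).primeFactors := Nat.mem_primeFactors.2 ⟨hp, hd, hne⟩
      rw [hpf] at this
      exact (hsp p this).2
  set κ : ℕ → ℕ → ℝ := fun j => kap (2 * (b + (K - j))) with hκ
  set w : ℕ → ℕ → ℕ → ℝ := fun l j =>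
    if j = l then del (2 * (b + (K - j)) + 1) else kap (2 * (b + (K - j))) with hw
  set fκ : Finset ℕ → ℝ := fun s => ∏ j ∈ range (K + 1), κ j (s ∩ Blk z j).card with hfκ
  set fw : Finset ℕ → ℝ := fun s => ∑ l ∈ range (K + 1), ∏ j ∈ range (K + 1),
    w l j (s ∩ Blk z j).card with hfw
  have hκ1 : ∀ j n, |κ j n| ≤ 1 := fun j n => abs_kap_le _ _
  have hw1 : ∀ l j n, |w l j n| ≤ 1 := by
    intro l j n
    rw [hw]; simp only
    split_ifs
    · exact abs_del_le _ _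
    · exact abs_kap_le _ _
  have hfκ1 : ∀ s, |fκ s| ≤ 1 := by
    intro s
    rw [hfκ]; simp only
    rw [Finset.abs_prod]
    exact Finset.prod_le_one (fun _ _ => abs_nonneg _) (fun j _ => hκ1 j _)
  have hfw1 : ∀ s, |fw s| ≤ (K : ℝ) + 1 := by
    intro s
    rw [hfw]; simp only
    refine (Finset.abs_sum_le_sum_abs _ _).trans ?_
    calc ∑ l ∈ range (K + 1), |∏ j ∈ range (K + 1), w l j (s ∩ Blk z j).card|
        ≤ ∑ _l ∈ range (K + 1), (1 : ℝ) := by
          refine Finset.sum_le_sum fun l _ => ?_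
          rw [Finset.abs_prod]
          exact Finset.prod_le_one (fun _ _ => abs_nonneg _) (fun j _ => hw1 l j _)
      _ = (K : ℝ) + 1 := by
          rw [Finset.sum_const, Finset.card_range, nsmul_eq_mul]
          push_cast; ring
  have hfκD : ∀ s : Finset ℕ, s ⊆ (range (K + 1)).biUnion (Blk z) → fκ s ≠ 0 →
      (∏ p ∈ s, p) ∈ D := by
    intro s hs hne
    refine hDmem s hs fun j hj => ?_
    have h1 := Finset.prod_ne_zero_iff.1 hne j hj
    by_contra hcon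
    refine h1 ?_
    rw [hκ]
    simp only
    unfold kap
    rw [if_neg (by omega)]
  have hfwD : ∀ s : Finset ℕ, s ⊆ (range (K + 1)).biUnion (Blk z) → fw s ≠ 0 →
      (∏ p ∈ s, p) ∈ D := by
    intro s hs hne
    obtain ⟨l, _, hl⟩ := Finset.exists_ne_zero_of_sum_ne_zero hne
    refine hDmem s hs fun j hj => ?_
    have h1 := Finset.prod_ne_zero_iff.1 hl j hj
    by_contra hcon
    refine h1 ?_
    rw [hw]
    simp only
    split_ifs
    · unfold del
      rw [if_neg (by omega)]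
    · unfold kap
      rw [if_neg (by omega)]
  have hprodPB : ∀ a : ℕ → ℝ, ∏ p ∈ PB z, (1 - a p) =
      ∏ j ∈ range (K + 1), ∏ p ∈ Blk z j, (1 - a p) := by
    intro a
    rw [← hU, Finset.prod_biUnion]
    intro i _ j _ hij
    exact hdis i j hij
  have hbonf : ∀ (a : ℕ → ℝ), (∀ p, p.Prime → 0 ≤ a p ∧ a p ≤ 1) → ∀ j,
      0 ≤ ∏ p ∈ Blk z j, (1 - a p) ∧
      ∏ p ∈ Blk z j, (1 - a p) ≤ S (κ j) a (Blk z j) ∧
      S (κ j) a (Blk z j) ≤ ∏ p ∈ Blk z j, (1 - a p) +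
        S (del (2 * (b + (K - j)) + 1)) a (Blk z j) ∧
      0 ≤ S (del (2 * (b + (K - j)) + 1)) a (Blk z j) := by
    intro a ha j
    have haB : ∀ p ∈ Blk z j, 0 ≤ a p ∧ a p ≤ 1 := fun p hp => ha p (hprime j p hp)
    have h1 := bonf haB (2 * (b + (K - j)))
    have h2 : ((-1 : ℝ)) ^ (2 * (b + (K - j))) = 1 := by rw [pow_mul]; norm_num
    rw [h2, one_mul] at h1
    refine ⟨(prod_one_sub_mem haB).1, ?_, ?_, (S_del_le (fun p hp => (haB p hp).1) _).1⟩
    · linarith [h1.1]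
    · linarith [h1.2]
  have hlow : ∀ (a : ℕ → ℝ), (∀ p, p.Prime → 0 ≤ a p ∧ a p ≤ 1) →
      ∏ j ∈ range (K + 1), S (κ j) a (Blk z j) -
        ∑ l ∈ range (K + 1), ∏ j ∈ range (K + 1), S (w l j) a (Blk z j)
      ≤ ∏ j ∈ range (K + 1), ∏ p ∈ Blk z j, (1 - a p) := by
    intro a ha
    have h1 := prod_low (fun j => ∏ p ∈ Blk z j, (1 - a p)) (fun j => S (κ j) a (Blk z j))
      (fun j => S (del (2 * (b + (K - j)) + 1)) a (Blk z j))
      (fun j => (hbonf a ha j).1) (fun j => (hbonf a ha j).2.1)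
      (fun j => (hbonf a ha j).2.2.1) (fun j => (hbonf a ha j).2.2.2) (K + 1)
    have h2 : ∑ l ∈ range (K + 1), ∏ j ∈ range (K + 1), S (w l j) a (Blk z j) =
        ∑ l ∈ range (K + 1), ∏ j ∈ range (K + 1),
          (if j = l then S (del (2 * (b + (K - j)) + 1)) a (Blk z j) else
            S (κ j) a (Blk z j)) := by
      refine Finset.sum_congr rfl fun l _ => Finset.prod_congr rfl fun j _ => ?_
      rw [hw, hκ]
      simp only
      split_ifs <;> rfl
    rw [h2]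
    exact h1
  have hupp : ∀ (a : ℕ → ℝ), (∀ p, p.Prime → 0 ≤ a p ∧ a p ≤ 1) →
      ∏ j ∈ range (K + 1), ∏ p ∈ Blk z j, (1 - a p) ≤
        ∏ j ∈ range (K + 1), S (κ j) a (Blk z j) := by
    intro a ha
    exact Finset.prod_le_prod (fun j _ => (hbonf a ha j).1) (fun j _ => (hbonf a ha j).2.1)
  -- the sums over the moduli
  have hcp : ∀ a : ℕ → ℝ, ∏ j ∈ range (K + 1), S (κ j) a (Blk z j) =
      ∑ δ ∈ D, fκ δ.primeFactors * ∏ p ∈ δ.primeFactors, a p := by
    intro a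
    rw [prod_blocks (Blk z) hdis κ a (K + 1)]
    exact FLPM.transfer hU fκ hfκD a
  have hce : ∀ a : ℕ → ℝ, ∑ l ∈ range (K + 1), ∏ j ∈ range (K + 1), S (w l j) a (Blk z j) =
      ∑ δ ∈ D, fw δ.primeFactors * ∏ p ∈ δ.primeFactors, a p := by
    intro a
    rw [← FLPM.transfer hU fw hfwD a]
    have h1 : ∀ l ∈ range (K + 1), ∏ j ∈ range (K + 1), S (w l j) a (Blk z j) =
        ∑ s ∈ ((range (K + 1)).biUnion (Blk z)).powerset,
          (∏ j ∈ range (K + 1), w l j (s ∩ Blk z j).card) * ∏ p ∈ s, a p :=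
      fun l _ => prod_blocks (Blk z) hdis (w l) a (K + 1)
    rw [Finset.sum_congr rfl h1, Finset.sum_comm]
    refine Finset.sum_congr rfl fun s _ => ?_
    rw [hfw]; simp only
    rw [Finset.sum_mul]
  have hK3 := K_le hK1
  have hlogz : 0 ≤ Real.log z := Real.log_nonneg (by linarith)
  refine ⟨fun δ => fκ δ.primeFactors, fun δ => fw δ.primeFactors, fun δ => hfκ1 _, fun δ => ?_,
    fun a ha => ?_, fun g hg => ?_⟩
  · refine (hfw1 _).trans ?_
    have h1 : (0 : ℝ) ≤ Mk * Real.exp Mk * (1 + Real.log z) := by positivity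
    linarith
  · rw [← hcp a, ← hce a, hprodPB a]
    exact ⟨by linarith [hupp a ha], by linarith [hlow a ha]⟩
  · rw [← hce g]
    have hg1 : ∀ p, p.Prime → 0 ≤ g p ∧ g p ≤ 1 := fun p hp =>
      ⟨(hg p hp).1, (hg p hp).2.2.trans (by norm_num)⟩
    set Y := ∏ j ∈ range (K + 1), S (κ j) g (Blk z j) with hY
    set W := ∑ l ∈ range (K + 1), ∏ j ∈ range (K + 1), S (w l j) g (Blk z j) with hW
    set PG := ∏ p ∈ PB z, (1 - g p) with hPG
    have hPG' : PG = ∏ j ∈ range (K + 1), ∏ p ∈ Blk z j, (1 - g p) := hprodPB g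
    have hPG0 : 0 ≤ PG := by
      rw [hPG']; exact Finset.prod_nonneg fun j _ => (hbonf g hg1 j).1
    set ρ : ℕ → ℝ := fun j => Mk * Real.exp (-((2 * (b + (K - j)) + 1 : ℕ) : ℝ)) with hρ
    have hρ0 : ∀ j, 0 ≤ ρ j := fun j => mul_nonneg hM.le (Real.exp_pos _).le
    set η := ∑ j ∈ range (K + 1), ρ j with hη
    have hη0 : 0 ≤ η := Finset.sum_nonneg fun j _ => hρ0 j
    have hη1 : η ≤ Mk * Real.exp (-(b : ℝ)) := FLW.sum_rho_le hM b K
    have hη2 : η ≤ Mk := by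
      refine hη1.trans ?_
      have : Real.exp (-(b : ℝ)) ≤ 1 := Real.exp_le_one_iff.2 (by
        have : (0 : ℝ) ≤ b := Nat.cast_nonneg _
        linarith)
      nlinarith
    have hYnn : ∀ j, 0 ≤ S (κ j) g (Blk z j) := fun j =>
      (hbonf g hg1 j).1.trans (hbonf g hg1 j).2.1
    have hYup : Y ≤ PG * Real.exp η := by
      rw [hη, Real.exp_sum, hPG', ← Finset.prod_mul_distrib]
      refine Finset.prod_le_prod (fun j _ => hYnn j) (fun j _ => ?_)
      have h1 := (hbonf g hg1 j).2.2.1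
      have h2 := FLW.block_bounds hκ₀ hg (z := z) j (2 * (b + (K - j)) + 1)
      have h3 : 1 + ρ j ≤ Real.exp (ρ j) := by linarith [Real.add_one_le_exp (ρ j)]
      have h4 := (hbonf g hg1 j).1
      calc S (κ j) g (Blk z j) ≤ (∏ p ∈ Blk z j, (1 - g p)) * (1 + ρ j) := by
            rw [hρ]; simp only; linarith
        _ ≤ _ := mul_le_mul_of_nonneg_left h3 h4
    have hWup : W ≤ η * Y := by
      rw [hW, hη, Finset.sum_mul]
      refine Finset.sum_le_sum fun l hl => ?_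
      rw [hY, ← Finset.mul_prod_erase _ _ hl, ← Finset.mul_prod_erase _ _ hl, ← mul_assoc]
      have e1 : ∏ j ∈ (range (K + 1)).erase l, S (w l j) g (Blk z j) =
          ∏ j ∈ (range (K + 1)).erase l, S (κ j) g (Blk z j) := by
        refine Finset.prod_congr rfl fun j hj => ?_
        rw [hw]; simp only
        rw [if_neg (Finset.ne_of_mem_erase hj)]
      rw [e1]
      refine mul_le_mul_of_nonneg_right ?_ (Finset.prod_nonneg fun j _ => hYnn j)
      have e2 : w l l = del (2 * (b + (K - l)) + 1) := by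
        rw [hw]
        exact if_pos rfl
      rw [e2]
      refine (FLW.block_bounds hκ₀ hg (z := z) l (2 * (b + (K - l)) + 1)).trans ?_
      exact mul_le_mul_of_nonneg_left (hbonf g hg1 l).2.1 (hρ0 l)
    have hexpη : Real.exp η ≤ Real.exp Mk := Real.exp_le_exp.2 hη2
    have hexpb : 0 < Real.exp (-(b : ℝ)) := Real.exp_pos _
    calc W ≤ η * Y := hWup
      _ ≤ η * (PG * Real.exp η) := mul_le_mul_of_nonneg_left hYup hη0
      _ = PG * (η * Real.exp η) := by ring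
      _ ≤ PG * (Mk * Real.exp (-(b : ℝ)) * Real.exp Mk) := by
          refine mul_le_mul_of_nonneg_left ?_ hPG0
          exact mul_le_mul hη1 hexpη (Real.exp_pos _).le (mul_nonneg hM.le hexpb.le)
      _ ≤ (Mk * Real.exp Mk + 2) * Real.exp (-(b : ℝ)) * PG := by
          have : 0 ≤ 2 * Real.exp (-(b : ℝ)) * PG := by positivity
          nlinarith

end Pool.Agent.Lib.MP391708.QPA
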