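import Pool.Agent.Lib.MP_391708_nt.QPA.FL

/-!
# Module FLW: the fundamental lemma (Brun-Hooley sieve) with weights in `[0, 1]`, any dimension

`∏_{p<z} (1 - a_p(i))` for arbitrary `a_p(i) ∈ [0,1]` in place of the indicator of `(v_i, P(z)) = 1`,
and `g(p) ≤ κ₀ / p`.  To sieve only by the primes of a set take `a_p = 0`, `g p = 0` outside it.
-/

set_option autoImplicit false

namespace Pool.Agent.Lib.MP391708.QPA.FLW

open Finset FL

open scoped Classical in
/-- the moduli that occur in FL -/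
noncomputable def Dset (z : ℝ) (b : ℕ) : Finset ℕ :=
  (Icc 1 ⌊z ^ (8 * b + 16)⌋₊).filter
    (fun δ => Squarefree δ ∧ ∀ p : ℕ, p.Prime → p ∣ δ → (p : ℝ) < z)

/-- replacing the sums by the model costs the sum of the remainders -/
lemma rem_le {ι : Type*} (P : ℕ → Finset ℕ) (hd : ∀ i j, i ≠ j → Disjoint (P i) (P j))
    (hP : ∀ j, ∀ p ∈ P j, p.Prime) (J : ℕ) (κ : ℕ → ℕ → ℝ) (hκ : ∀ j n, |κ j n| ≤ 1)
    (D : Finset ℕ) (hD : ∀ s : Finset ℕ, s ⊆ (range J).biUnion P →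
      (∏ j ∈ range J, κ j (s ∩ P j).card) ≠ 0 → (∏ p ∈ s, p) ∈ D)
    (T : Finset ι) (a : ℕ → ι → ℝ) (om : ι → ℝ) (X : ℝ) (g : ℕ → ℝ) :
    |(∑ i ∈ T, om i * ∏ j ∈ range J, S (κ j) (fun p => a p i) (P j))
      - X * ∏ j ∈ range J, S (κ j) g (P j)| ≤
    ∑ δ ∈ D, |(∑ i ∈ T, om i * ∏ p ∈ δ.primeFactors, a p i) - X * ∏ p ∈ δ.primeFactors, g p| := by
  classical
  set PP := (range J).biUnion P with hPP
  have hprime : ∀ s ∈ PP.powerset, ∀ p ∈ s, p.Prime := by
    intro s hs p hp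
    obtain ⟨j, _, hj⟩ := Finset.mem_biUnion.1 (Finset.mem_powerset.1 hs hp)
    exact hP j p hj
  set c : Finset ℕ → ℝ := fun s => ∏ j ∈ range J, κ j (s ∩ P j).card with hc
  have hc1 : ∀ s, |c s| ≤ 1 := by
    intro s
    rw [hc]
    simp only
    rw [Finset.abs_prod]
    exact Finset.prod_le_one (fun _ _ => abs_nonneg _) (fun j _ => hκ j _)
  set F : ℕ → ℝ := fun δ => |(∑ i ∈ T, om i * ∏ p ∈ δ.primeFactors, a p i)
    - X * ∏ p ∈ δ.primeFactors, g p| with hF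
  have e1 : (∑ i ∈ T, om i * ∏ j ∈ range J, S (κ j) (fun p => a p i) (P j))
      - X * ∏ j ∈ range J, S (κ j) g (P j) =
      ∑ s ∈ PP.powerset, c s * ((∑ i ∈ T, om i * ∏ p ∈ s, a p i) - X * ∏ p ∈ s, g p) := by
    rw [prod_blocks P hd κ g J, Finset.mul_sum]
    have e2 : ∑ i ∈ T, om i * ∏ j ∈ range J, S (κ j) (fun p => a p i) (P j) =
        ∑ s ∈ PP.powerset, c s * ∑ i ∈ T, om i * ∏ p ∈ s, a p i := by
      have e3 : ∀ i ∈ T, om i * ∏ j ∈ range J, S (κ j) (fun p => a p i) (P j) =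
          ∑ s ∈ PP.powerset, c s * (om i * ∏ p ∈ s, a p i) := by
        intro i _
        rw [prod_blocks P hd κ _ J, Finset.mul_sum]
        refine Finset.sum_congr rfl fun s hs => ?_
        rw [hc]
        ring
      rw [Finset.sum_congr rfl e3, Finset.sum_comm]
      refine Finset.sum_congr rfl fun s _ => ?_
      rw [← Finset.mul_sum]
    rw [e2, ← Finset.sum_sub_distrib]
    refine Finset.sum_congr rfl fun s hs => ?_
    rw [hc]
    ring
  rw [e1]
  refine (Finset.abs_sum_le_sum_abs _ _).trans ?_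
  rw [← Finset.sum_filter_add_sum_filter_not PP.powerset (fun s => c s ≠ 0)]
  have e4 : ∑ s ∈ PP.powerset.filter (fun s => ¬ c s ≠ 0),
      |c s * ((∑ i ∈ T, om i * ∏ p ∈ s, a p i) - X * ∏ p ∈ s, g p)| = 0 := by
    refine Finset.sum_eq_zero fun s hs => ?_
    have := (Finset.mem_filter.1 hs).2
    push Not at this
    rw [this]; simp
  rw [e4, add_zero]
  have hinj : Set.InjOn (fun s : Finset ℕ => ∏ p ∈ s, p)
      (PP.powerset.filter (fun s => c s ≠ 0) : Finset (Finset ℕ)) := by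
    intro s hs t ht hst
    have hs' := hprime s (Finset.mem_filter.1 (Finset.mem_coe.1 hs)).1
    have ht' := hprime t (Finset.mem_filter.1 (Finset.mem_coe.1 ht)).1
    simp only at hst
    rw [← Nat.primeFactors_prod hs', ← Nat.primeFactors_prod ht', hst]
  calc ∑ s ∈ PP.powerset.filter (fun s => c s ≠ 0),
      |c s * ((∑ i ∈ T, om i * ∏ p ∈ s, a p i) - X * ∏ p ∈ s, g p)|
      ≤ ∑ s ∈ PP.powerset.filter (fun s => c s ≠ 0), F (∏ p ∈ s, p) := by
        refine Finset.sum_le_sum fun s hs => ?_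
        have hpf : (∏ p ∈ s, p).primeFactors = s :=
          Nat.primeFactors_prod (hprime s (Finset.mem_filter.1 hs).1)
        rw [hF]
        simp only
        rw [hpf, abs_mul]
        calc _ ≤ 1 * _ := mul_le_mul_of_nonneg_right (hc1 s) (abs_nonneg _)
          _ = _ := one_mul _
    _ = ∑ δ ∈ (PP.powerset.filter (fun s => c s ≠ 0)).image (fun s => ∏ p ∈ s, p), F δ := by
        rw [Finset.sum_image hinj]
    _ ≤ _ := by
        refine Finset.sum_le_sum_of_subset_of_nonneg ?_ (fun _ _ _ => abs_nonneg _)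
        intro δ hδ
        obtain ⟨s, hs, rfl⟩ := Finset.mem_image.1 hδ
        have hs' := Finset.mem_filter.1 hs
        exact hD s (Finset.mem_powerset.1 hs'.1) hs'.2

lemma sum_Blk_le' {κ₀ : ℝ} (hκ : 0 < κ₀) (z : ℝ) (k : ℕ) : ∑ p ∈ Blk z k, κ₀ / (p : ℝ) ≤ 4 * κ₀ := by
  have h := sum_Blk_le z k
  have h2 : ∑ p ∈ Blk z k, κ₀ / (p : ℝ) = κ₀ / 2 * ∑ p ∈ Blk z k, 2 / (p : ℝ) := by
    rw [Finset.mul_sum]
    refine Finset.sum_congr rfl fun p _ => ?_
    ring
  rw [h2]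
  nlinarith

/-- the constant -/
noncomputable def Mk (κ₀ : ℝ) : ℝ := Real.exp (4 * κ₀ * Real.exp 1 + 8 * κ₀)

lemma block_bounds {κ₀ z : ℝ} (hκ : 0 < κ₀) {g : ℕ → ℝ}
    (hg : ∀ p : ℕ, p.Prime → 0 ≤ g p ∧ g p ≤ κ₀ / (p : ℝ) ∧ g p ≤ 2 / 3) (j n : ℕ) :
    S (del n) g (Blk z j) ≤ Mk κ₀ * Real.exp (-(n : ℝ)) * ∏ p ∈ Blk z j, (1 - g p) := by
  have hgB : ∀ p ∈ Blk z j, 0 ≤ g p ∧ g p ≤ κ₀ / (p : ℝ) ∧ g p ≤ 2 / 3 :=
    fun p hp => hg p (mem_Blk.1 hp).1
  have hG : ∑ p ∈ Blk z j, g p ≤ 4 * κ₀ :=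
    (Finset.sum_le_sum fun p hp => (hgB p hp).2.1).trans (sum_Blk_le' hκ z j)
  have hG0 : 0 ≤ ∑ p ∈ Blk z j, g p := Finset.sum_nonneg fun p hp => (hgB p hp).1
  have h1 : Real.exp (-(8 * κ₀)) ≤ ∏ p ∈ Blk z j, (1 - g p) := by
    calc Real.exp (-(8 * κ₀)) ≤ Real.exp (∑ p ∈ Blk z j, -(2 * g p)) := by
          rw [Finset.sum_neg_distrib, ← Finset.mul_sum]
          exact Real.exp_le_exp.2 (by linarith)
      _ = ∏ p ∈ Blk z j, Real.exp (-(2 * g p)) := Real.exp_sum _ _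
      _ ≤ _ := Finset.prod_le_prod (fun _ _ => (Real.exp_pos _).le)
          (fun p hp => one_sub_ge (hgB p hp).1 (hgB p hp).2.2)
  have h2 := (S_del_le (fun p hp => (hgB p hp).1) n).2
  have h3 : (∑ p ∈ Blk z j, g p) ^ n / n.factorial ≤ (4 * κ₀) ^ n / n.factorial :=
    div_le_div_of_nonneg_right (pow_le_pow_left₀ hG0 hG n) (by positivity)
  have h4 : (4 * κ₀) ^ n / n.factorial ≤
      Real.exp (4 * κ₀ * Real.exp 1) * Real.exp (-(n : ℝ)) := by
    have h5 := Real.pow_div_factorial_le_exp (4 * κ₀ * Real.exp 1) (by positivity) n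
    have h6 : (4 * κ₀) ^ n / n.factorial =
        ((4 * κ₀ * Real.exp 1) ^ n / n.factorial) * Real.exp (-(n : ℝ)) := by
      rw [mul_pow _ (Real.exp 1), ← Real.exp_nat_mul, mul_one, div_mul_eq_mul_div, mul_assoc,
        ← Real.exp_add, add_neg_cancel, Real.exp_zero, mul_one]
    rw [h6]
    exact mul_le_mul_of_nonneg_right h5 (Real.exp_pos _).le
  refine (h2.trans (h3.trans h4)).trans ?_
  have h7 : Real.exp (4 * κ₀ * Real.exp 1) = Mk κ₀ * Real.exp (-(8 * κ₀)) := by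
    unfold Mk; rw [← Real.exp_add]; congr 1; ring
  rw [h7]
  calc Mk κ₀ * Real.exp (-(8 * κ₀)) * Real.exp (-(n : ℝ)) =
        Mk κ₀ * Real.exp (-(n : ℝ)) * Real.exp (-(8 * κ₀)) := by ring
    _ ≤ _ := mul_le_mul_of_nonneg_left h1 (mul_nonneg (Real.exp_pos _).le (Real.exp_pos _).le)

lemma sum_rho_le {M : ℝ} (hM : 0 < M) (b K : ℕ) :
    ∑ j ∈ range (K + 1), M * Real.exp (-((2 * (b + (K - j)) + 1 : ℕ) : ℝ)) ≤
      M * Real.exp (-(b : ℝ)) := by
  have h := FL.sum_rho_le b K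
  have hMc : 0 < Mc := Real.exp_pos _
  rw [← Finset.mul_sum] at h ⊢
  have h2 := le_of_mul_le_mul_left h hMc
  exact mul_le_mul_of_nonneg_left h2 hM.le

end Pool.Agent.Lib.MP391708.QPA.FLW

namespace Pool.Agent.Lib.MP391708.QPA

open Finset FL

/-- FLW (fundamental lemma with weights in `[0,1]`, dimension `κ₀`). -/
def SpecFLW : Prop := ∀ κ₀ : ℝ, 0 < κ₀ → ∃ C : ℝ, 0 < C ∧ ∀ (b : ℕ) (z : ℝ), 2 ≤ z →
  ∀ (ι : Type) (T : Finset ι) (a : ℕ → ι → ℝ) (om : ι → ℝ) (X : ℝ) (g : ℕ → ℝ), 0 ≤ X →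
  (∀ i ∈ T, 0 ≤ om i) → (∀ p : ℕ, p.Prime → ∀ i ∈ T, 0 ≤ a p i ∧ a p i ≤ 1) →
  (∀ p : ℕ, p.Prime → 0 ≤ g p ∧ g p ≤ κ₀ / (p : ℝ) ∧ g p ≤ 2 / 3) →
  |(∑ i ∈ T, om i * ∏ p ∈ PB z, (1 - a p i)) - X * ∏ p ∈ PB z, (1 - g p)|
    ≤ C * Real.exp (-(b : ℝ)) * X * (∏ p ∈ PB z, (1 - g p))
      + C * (1 + Real.log z) *
        ∑ δ ∈ FLW.Dset z b,
          |(∑ i ∈ T, om i * ∏ p ∈ δ.primeFactors, a p i) - X * ∏ p ∈ δ.primeFactors, g p|

theorem specFLW : SpecFLW := by
  classical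
  intro κ₀ hκ₀
  have hM : 0 < FLW.Mk κ₀ := Real.exp_pos _
  set Mk := FLW.Mk κ₀ with hMk
  refine ⟨Mk * Real.exp Mk + 2, by positivity, ?_⟩
  intro b z hz ι T a om X g hX hom ha01 hg
  obtain ⟨K, hK1, hK2⟩ := exists_K hz
  have hU := biUnion_Blk hK2
  have hdis := Blk_disjoint z
  have hprime : ∀ j, ∀ p ∈ Blk z j, p.Prime := fun j p hp => (mem_Blk.1 hp).1
  set D := FLW.Dset z b with hDdef
  set R := ∑ δ ∈ D, |(∑ i ∈ T, om i * ∏ p ∈ δ.primeFactors, a p i)
    - X * ∏ p ∈ δ.primeFactors, g p| with hR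
  have hR0 : 0 ≤ R := Finset.sum_nonneg fun _ _ => abs_nonneg _
  -- membership in `D`
  have hDmem : ∀ s : Finset ℕ, s ⊆ (range (K + 1)).biUnion (Blk z) →
      (∀ j ∈ range (K + 1), (s ∩ Blk z j).card ≤ 2 * (b + (K - j)) + 1) →
      (∏ p ∈ s, p) ∈ D := by
    intro s hs hc
    have hsp : ∀ p ∈ s, p.Prime ∧ (p : ℝ) < z := by
      intro p hp
      have := hs hp
      rw [hU] at this
      exact mem_PB.1 this
    have hpf : (∏ p ∈ s, p).primeFactors = s := Nat.primeFactors_prod fun p hp => (hsp p hp).1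
    have hne : (∏ p ∈ s, p) ≠ 0 := Finset.prod_ne_zero_iff.2 fun p hp => (hsp p hp).1.ne_zero
    rw [hDdef, FLW.Dset, Finset.mem_filter, Finset.mem_Icc]
    refine ⟨⟨Nat.pos_of_ne_zero hne, Nat.le_floor ?_⟩, ?_, ?_⟩
    · exact size_le hz hK1 s hs hc
    · refine Finset.squarefree_prod_of_pairwise_isCoprime ?_ ?_
      · intro p hp q hq hpq
        exact Nat.coprime_iff_isRelPrime.1 ((Nat.coprime_primes (hsp p hp).1 (hsp q hq).1).2 hpq)
      · intro p hp; exact (hsp p hp).1.squarefree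
    · intro p hp hd
      have : p ∈ (∏ p ∈ s, p).primeFactors := Nat.mem_primeFactors.2 ⟨hp, hd, hne⟩
      rw [hpf] at this
      exact (hsp p this).2
  set κ : ℕ → ℕ → ℝ := fun j => kap (2 * (b + (K - j))) with hκ
  set w : ℕ → ℕ → ℕ → ℝ := fun l j =>
    if j = l then del (2 * (b + (K - j)) + 1) else kap (2 * (b + (K - j))) with hw
  have hremκ := FLW.rem_le (Blk z) hdis hprime (K + 1) κ (fun j n => abs_kap_le _ _) D
    (by
      intro s hs hne
      refine hDmem s hs fun j hj => ?_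
      have h1 := Finset.prod_ne_zero_iff.1 hne j hj
      by_contra hcon
      refine h1 ?_
      rw [hκ]
      simp only
      unfold kap
      rw [if_neg (by omega)]) T a om X g
  have hremw : ∀ l, _ := fun l => FLW.rem_le (Blk z) hdis hprime (K + 1) (w l)
    (fun j n => by
      rw [hw]; simp only
      split_ifs
      · exact abs_del_le _ _
      · exact abs_kap_le _ _) D
    (by
      intro s hs hne
      refine hDmem s hs fun j hj => ?_
      have h1 := Finset.prod_ne_zero_iff.1 hne j hj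
      by_contra hcon
      refine h1 ?_
      rw [hw]
      simp only
      split_ifs
      · unfold del
        rw [if_neg (by omega)]
      · unfold kap
        rw [if_neg (by omega)]) T a om X g
  -- the inequalities for each `i`
  have hprodPB : ∀ a : ℕ → ℝ, ∏ p ∈ PB z, (1 - a p) =
      ∏ j ∈ range (K + 1), ∏ p ∈ Blk z j, (1 - a p) := by
    intro a
    rw [← hU, Finset.prod_biUnion]
    intro i _ j _ hij
    exact hdis i j hij
  have hbonf : ∀ (a : ℕ → ℝ), (∀ p, p.Prime → 0 ≤ a p ∧ a p ≤ 1) → ∀ j,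
      0 ≤ ∏ p ∈ Blk z j, (1 - a p) ∧
      ∏ p ∈ Blk z j, (1 - a p) ≤ S (κ j) a (Blk z j) ∧
      S (κ j) a (Blk z j) ≤ ∏ p ∈ Blk z j, (1 - a p) +
        S (del (2 * (b + (K - j)) + 1)) a (Blk z j) ∧
      0 ≤ S (del (2 * (b + (K - j)) + 1)) a (Blk z j) := by
    intro a ha j
    have haB : ∀ p ∈ Blk z j, 0 ≤ a p ∧ a p ≤ 1 := fun p hp => ha p (hprime j p hp)
    have h1 := bonf haB (2 * (b + (K - j)))
    have h2 : ((-1 : ℝ)) ^ (2 * (b + (K - j))) = 1 := by rw [pow_mul]; norm_num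
    rw [h2, one_mul] at h1
    refine ⟨(prod_one_sub_mem haB).1, ?_, ?_, (S_del_le (fun p hp => (haB p hp).1) _).1⟩
    · linarith [h1.1]
    · linarith [h1.2]
  have hlow : ∀ (a : ℕ → ℝ), (∀ p, p.Prime → 0 ≤ a p ∧ a p ≤ 1) →
      ∏ j ∈ range (K + 1), S (κ j) a (Blk z j) -
        ∑ l ∈ range (K + 1), ∏ j ∈ range (K + 1), S (w l j) a (Blk z j)
      ≤ ∏ j ∈ range (K + 1), ∏ p ∈ Blk z j, (1 - a p) := by
    intro a ha
    have h1 := prod_low (fun j => ∏ p ∈ Blk z j, (1 - a p)) (fun j => S (κ j) a (Blk z j))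
      (fun j => S (del (2 * (b + (K - j)) + 1)) a (Blk z j))
      (fun j => (hbonf a ha j).1) (fun j => (hbonf a ha j).2.1)
      (fun j => (hbonf a ha j).2.2.1) (fun j => (hbonf a ha j).2.2.2) (K + 1)
    have h2 : ∑ l ∈ range (K + 1), ∏ j ∈ range (K + 1), S (w l j) a (Blk z j) =
        ∑ l ∈ range (K + 1), ∏ j ∈ range (K + 1),
          (if j = l then S (del (2 * (b + (K - j)) + 1)) a (Blk z j) else
            S (κ j) a (Blk z j)) := by
      refine Finset.sum_congr rfl fun l _ => Finset.prod_congr rfl fun j _ => ?_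
      rw [hw, hκ]
      simp only
      split_ifs <;> rfl
    rw [h2]
    exact h1
  have hupp : ∀ (a : ℕ → ℝ), (∀ p, p.Prime → 0 ≤ a p ∧ a p ≤ 1) →
      ∏ j ∈ range (K + 1), ∏ p ∈ Blk z j, (1 - a p) ≤
        ∏ j ∈ range (K + 1), S (κ j) a (Blk z j) := by
    intro a ha
    exact Finset.prod_le_prod (fun j _ => (hbonf a ha j).1) (fun j _ => (hbonf a ha j).2.1)
  have hind : ∀ i ∈ T, ∀ p : ℕ, p.Prime → 0 ≤ a p i ∧ a p i ≤ 1 := fun i hi p hp => ha01 p hp i hi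
  have hg1 : ∀ p, p.Prime → 0 ≤ g p ∧ g p ≤ 1 := fun p hp =>
    ⟨(hg p hp).1, (hg p hp).2.2.trans (by norm_num)⟩
  set A := ∑ i ∈ T, om i * ∏ p ∈ PB z, (1 - a p i) with hA
  set Y := ∏ j ∈ range (K + 1), S (κ j) g (Blk z j) with hY
  set W := ∑ l ∈ range (K + 1), ∏ j ∈ range (K + 1), S (w l j) g (Blk z j) with hW
  set PG := ∏ p ∈ PB z, (1 - g p) with hPG
  have hPG' : PG = ∏ j ∈ range (K + 1), ∏ p ∈ Blk z j, (1 - g p) := hprodPB g
  have hPG0 : 0 ≤ PG := by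
    rw [hPG']; exact Finset.prod_nonneg fun j _ => (hbonf g hg1 j).1
  have hAup : A ≤ X * Y + R := by
    have h1 : A ≤ ∑ i ∈ T, om i * ∏ j ∈ range (K + 1),
        S (κ j) (fun p => a p i) (Blk z j) := by
      refine Finset.sum_le_sum fun i hi => mul_le_mul_of_nonneg_left ?_ (hom i hi)
      rw [hprodPB (fun p => a p i)]
      exact hupp _ (hind i hi)
    have h2 := (abs_le.1 hremκ).2
    linarith
  have hAlow : X * Y - X * W - (K + 2) * R ≤ A := by
    have h1 : ∑ i ∈ T, om i * (∏ j ∈ range (K + 1),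
        S (κ j) (fun p => a p i) (Blk z j) -
        ∑ l ∈ range (K + 1), ∏ j ∈ range (K + 1),
          S (w l j) (fun p => a p i) (Blk z j)) ≤ A := by
      refine Finset.sum_le_sum fun i hi => mul_le_mul_of_nonneg_left ?_ (hom i hi)
      rw [hprodPB (fun p => a p i)]
      exact hlow _ (hind i hi)
    have h2 : ∑ i ∈ T, om i * (∏ j ∈ range (K + 1),
        S (κ j) (fun p => a p i) (Blk z j) -
        ∑ l ∈ range (K + 1), ∏ j ∈ range (K + 1),
          S (w l j) (fun p => a p i) (Blk z j)) =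
        (∑ i ∈ T, om i * ∏ j ∈ range (K + 1),
          S (κ j) (fun p => a p i) (Blk z j)) -
        ∑ l ∈ range (K + 1), ∑ i ∈ T, om i * ∏ j ∈ range (K + 1),
          S (w l j) (fun p => a p i) (Blk z j) := by
      rw [Finset.sum_comm, ← Finset.sum_sub_distrib]
      refine Finset.sum_congr rfl fun i _ => ?_
      rw [mul_sub, Finset.mul_sum]
    rw [h2] at h1
    have h3 := (abs_le.1 hremκ).1
    have h4 : ∑ l ∈ range (K + 1), ∑ i ∈ T, om i * ∏ j ∈ range (K + 1),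
          S (w l j) (fun p => a p i) (Blk z j) ≤
        ∑ l ∈ range (K + 1), (X * ∏ j ∈ range (K + 1), S (w l j) g (Blk z j) + R) := by
      refine Finset.sum_le_sum fun l _ => ?_
      have := (abs_le.1 (hremw l)).2
      linarith
    rw [Finset.sum_add_distrib, ← Finset.mul_sum, Finset.sum_const, Finset.card_range,
      nsmul_eq_mul] at h4
    push_cast at h4
    linarith
  -- real analysis
  set ρ : ℕ → ℝ := fun j => Mk * Real.exp (-((2 * (b + (K - j)) + 1 : ℕ) : ℝ)) with hρ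
  have hρ0 : ∀ j, 0 ≤ ρ j := fun j => mul_nonneg hM.le (Real.exp_pos _).le
  set η := ∑ j ∈ range (K + 1), ρ j with hη
  have hη0 : 0 ≤ η := Finset.sum_nonneg fun j _ => hρ0 j
  have hη1 : η ≤ Mk * Real.exp (-(b : ℝ)) := FLW.sum_rho_le hM b K
  have hη2 : η ≤ Mk := by
    refine hη1.trans ?_
    have : Real.exp (-(b : ℝ)) ≤ 1 := Real.exp_le_one_iff.2 (by
      have : (0 : ℝ) ≤ b := Nat.cast_nonneg _
      linarith)
    nlinarith
  have hYnn : ∀ j, 0 ≤ S (κ j) g (Blk z j) := fun j =>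
    (hbonf g hg1 j).1.trans (hbonf g hg1 j).2.1
  have hYup : Y ≤ PG * Real.exp η := by
    rw [hη, Real.exp_sum, hPG', ← Finset.prod_mul_distrib]
    refine Finset.prod_le_prod (fun j _ => hYnn j) (fun j _ => ?_)
    have h1 := (hbonf g hg1 j).2.2.1
    have h2 := FLW.block_bounds hκ₀ hg (z := z) j (2 * (b + (K - j)) + 1)
    have h3 : 1 + ρ j ≤ Real.exp (ρ j) := by linarith [Real.add_one_le_exp (ρ j)]
    have h4 := (hbonf g hg1 j).1
    calc S (κ j) g (Blk z j) ≤ (∏ p ∈ Blk z j, (1 - g p)) * (1 + ρ j) := by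
          rw [hρ]; simp only; linarith
      _ ≤ _ := mul_le_mul_of_nonneg_left h3 h4
  have hYlow : PG ≤ Y := by rw [hPG']; exact hupp g hg1
  have hY0 : 0 ≤ Y := hPG0.trans hYlow
  have hWup : W ≤ η * Y := by
    rw [hW, hη, Finset.sum_mul]
    refine Finset.sum_le_sum fun l hl => ?_
    rw [hY, ← Finset.mul_prod_erase _ _ hl, ← Finset.mul_prod_erase _ _ hl, ← mul_assoc]
    have e1 : ∏ j ∈ (range (K + 1)).erase l, S (w l j) g (Blk z j) =
        ∏ j ∈ (range (K + 1)).erase l, S (κ j) g (Blk z j) := by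
      refine Finset.prod_congr rfl fun j hj => ?_
      rw [hw]; simp only
      rw [if_neg (Finset.ne_of_mem_erase hj)]
    rw [e1]
    refine mul_le_mul_of_nonneg_right ?_ (Finset.prod_nonneg fun j _ => hYnn j)
    have e2 : w l l = del (2 * (b + (K - l)) + 1) := by
      rw [hw]
      exact if_pos rfl
    rw [e2]
    refine (FLW.block_bounds hκ₀ hg (z := z) l (2 * (b + (K - l)) + 1)).trans ?_
    exact mul_le_mul_of_nonneg_left (hbonf g hg1 l).2.1 (hρ0 l)
  have hexpη : Real.exp η ≤ Real.exp Mk := Real.exp_le_exp.2 hη2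
  have hexp1 : Real.exp η - 1 ≤ η * Real.exp η := by
    have h1 := Real.add_one_le_exp (-η)
    have h2 := Real.exp_pos η
    have h3 : Real.exp (-η) * Real.exp η = 1 := by rw [← Real.exp_add]; simp
    nlinarith
  have hmain : η * Real.exp η ≤ Mk * Real.exp (-(b : ℝ)) * Real.exp Mk :=
    mul_le_mul hη1 hexpη (Real.exp_pos _).le (mul_nonneg hM.le (Real.exp_pos _).le)
  have hK3 := K_le hK1
  have hlogz : 0 ≤ Real.log z := Real.log_nonneg (by linarith)
  have hXPG : 0 ≤ X * PG := mul_nonneg hX hPG0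
  have hKR : ((K : ℝ) + 2) * R ≤ 2 * (1 + Real.log z) * R := mul_le_mul_of_nonneg_right hK3 hR0
  have hbig : X * PG * (η * Real.exp η) ≤ X * PG * (Mk * Real.exp (-(b : ℝ)) * Real.exp Mk) :=
    mul_le_mul_of_nonneg_left hmain hXPG
  have hK0 : (0 : ℝ) ≤ K := Nat.cast_nonneg _
  have hexpb : 0 < Real.exp (-(b : ℝ)) := Real.exp_pos _
  have hCR : 2 * (1 + Real.log z) * R ≤ (Mk * Real.exp Mk + 2) * (1 + Real.log z) * R := by
    refine mul_le_mul_of_nonneg_right (mul_le_mul_of_nonneg_right ?_ (by linarith)) hR0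
    have := mul_pos hM (Real.exp_pos Mk)
    linarith
  have hCX : X * PG * (Mk * Real.exp (-(b : ℝ)) * Real.exp Mk) ≤
      (Mk * Real.exp Mk + 2) * Real.exp (-(b : ℝ)) * X * PG := by
    have : 0 ≤ 2 * Real.exp (-(b : ℝ)) * (X * PG) := by positivity
    nlinarith
  rw [abs_le]
  constructor
  · have h1 : X * W ≤ X * PG * (η * Real.exp η) := by
      have h2 : W ≤ η * (PG * Real.exp η) := hWup.trans (mul_le_mul_of_nonneg_left hYup hη0)
      calc X * W ≤ X * (η * (PG * Real.exp η)) := mul_le_mul_of_nonneg_left h2 hX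
        _ = _ := by ring
    have h3 : X * PG ≤ X * Y := mul_le_mul_of_nonneg_left hYlow hX
    linarith
  · have h1 : X * Y - X * PG ≤ X * PG * (η * Real.exp η) := by
      calc X * Y - X * PG ≤ X * (PG * Real.exp η) - X * PG :=
            sub_le_sub_right (mul_le_mul_of_nonneg_left hYup hX) _
        _ = X * PG * (Real.exp η - 1) := by ring
        _ ≤ _ := mul_le_mul_of_nonneg_left hexp1 hXPG
    have h2 : R ≤ ((K : ℝ) + 2) * R := by nlinarith
    linarith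

end Pool.Agent.Lib.MP391708.QPA
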