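import Pool.Agent.Lib.MP_391708_nt.QPA.FFB

/-!
# QPA module MTB: the main term of Type II, `ρ_a(k)` against `1`
-/

set_option autoImplicit false

namespace Pool.Agent.Lib.MP391708.QPA.MTB

open Finset Filter Topology
open scoped Classical

/-- a divisor of a number of type `c` has a type `s ≤ c` -/
theorem divisor_type (N : ℕ) (e : ℝ) (c : Multiset ℕ) (k f : ℕ) (h : FF N e c k ≠ 0)
    (hd : f ∣ k) : ∃ s ≤ c, FF N e s f ≠ 0 := by
  induction c using Multiset.induction generalizing k f with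
  | empty =>
    rw [FFB.FF_zero, ArithmeticFunction.one_apply] at h
    have hk : k = 1 := by
      by_contra hne
      rw [if_neg hne] at h
      exact h rfl
    subst hk
    have hf : f = 1 := Nat.dvd_one.mp hd
    subst hf
    exact ⟨0, le_refl _, by rw [FFB.FF_zero, ArithmeticFunction.one_apply, if_pos rfl]; norm_num⟩
  | cons i c ih =>
    obtain ⟨p, hp, hlo, hhi, hne⟩ := FFB.FF_cons_ne N e i c k h
    have hpm := Nat.mem_primeFactors.mp hp
    have hkp : p * (k / p) = k := Nat.mul_div_cancel' hpm.2.1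
    by_cases hpf : p ∣ f
    · obtain ⟨g, rfl⟩ := hpf
      have hg : g ∣ k / p := by
        rw [← hkp] at hd
        exact Nat.dvd_of_mul_dvd_mul_left hpm.1.pos hd
      obtain ⟨s, hs, hsg⟩ := ih (k / p) g hne hg
      refine ⟨i ::ₘ s, Multiset.cons_le_cons i hs, ?_⟩
      have hg0 : g ≠ 0 := by
        rintro rfl
        have h0 : k = 0 := by
          have := hd
          rw [mul_zero] at this
          exact Nat.eq_zero_of_zero_dvd this
        exact hpm.2.2 h0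
      have hmem : p ∈ (p * g).primeFactors :=
        Nat.mem_primeFactors.mpr ⟨hpm.1, dvd_mul_right _ _, mul_ne_zero hpm.1.ne_zero hg0⟩
      rw [FFB.FF_cons_apply]
      have hpos : 0 < PJ N e i p * FF N e s ((p * g) / p) := by
        rw [FFB.PJ_apply, if_pos ⟨hpm.1, hlo, hhi⟩, one_mul, Nat.mul_div_cancel_left _ hpm.1.pos]
        exact lt_of_le_of_ne (FFB.FF_nonneg _ _ _ _) (Ne.symm hsg)
      have hle : PJ N e i p * FF N e s ((p * g) / p)
          ≤ ∑ p' ∈ (p * g).primeFactors, PJ N e i p' * FF N e s (p * g / p') :=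
        Finset.single_le_sum (f := fun p' => PJ N e i p' * FF N e s (p * g / p'))
          (fun q _ => mul_nonneg (FFB.PJ_nonneg _ _ _ _) (FFB.FF_nonneg _ _ _ _)) hmem
      exact (lt_of_lt_of_le hpos hle).ne'
    · have hcop : Nat.Coprime f p := ((Nat.Prime.coprime_iff_not_dvd hpm.1).mpr hpf).symm
      have hf : f ∣ k / p := by
        rw [← hkp] at hd
        exact hcop.dvd_of_dvd_mul_left hd
      obtain ⟨s, hs, hsg⟩ := ih (k / p) f hne hf
      exact ⟨s, hs.trans (Multiset.le_cons_self c i), hsg⟩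

theorem dyad (g : ℕ → ℝ) (J : ℕ) : ∑ f ∈ Ioc 1 (2 ^ J), g f
    = ∑ j ∈ range J, ∑ f ∈ Ioc (2 ^ j) (2 * 2 ^ j), g f := by
  induction J with
  | zero => simp
  | succ J ih =>
    have h1 : (1 : ℕ) ≤ 2 ^ J := Nat.one_le_two_pow
    rw [Finset.sum_range_succ, ← ih, pow_succ, mul_comm (2 ^ J) 2,
      Finset.sum_Ioc_consecutive _ h1 (by omega)]

/-- powers of logarithms are small against powers -/
theorem small (C σ κ : ℝ) (k : ℕ) (hσ : 0 < σ) (hκ : 0 < κ) : ∃ N₀ : ℕ, ∀ N : ℕ, N₀ ≤ N →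
    C * (Real.log N) ^ k * (N : ℝ) ^ (-σ) ≤ κ := by
  have h1 : Tendsto (fun x : ℝ => Real.log x ^ (k : ℝ) / x ^ σ) atTop (𝓝 0) :=
    (isLittleO_log_rpow_rpow_atTop (k : ℝ) hσ).tendsto_div_nhds_zero
  have h2 : Tendsto (fun x : ℝ => C * (Real.log x ^ (k : ℝ) / x ^ σ)) atTop (𝓝 (C * 0)) :=
    h1.const_mul C
  rw [mul_zero] at h2
  have h3 := (h2.comp tendsto_natCast_atTop_atTop).eventually (gt_mem_nhds hκ)
  obtain ⟨N₀, hN₀⟩ := eventually_atTop.mp h3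
  refine ⟨max N₀ 1, fun N hN => ?_⟩
  have h4 := hN₀ N (le_trans (le_max_left _ _) hN)
  have hN1 : 1 ≤ N := le_trans (le_max_right _ _) hN
  have h5 : (0 : ℝ) ≤ N := Nat.cast_nonneg N
  simp only [Function.comp] at h4
  rw [Real.rpow_natCast] at h4
  rw [Real.rpow_neg h5, mul_assoc, ← div_eq_mul_inv]
  exact h4.le

/-- Cauchy-Schwarz -/
theorem cs (S : Finset ℤ) (g : ℤ → ℝ) (X Y : ℝ) (hX : (S.card : ℝ) ≤ X)
    (hY : ∑ a ∈ S, (g a) ^ 2 ≤ Y) : ∑ a ∈ S, |g a| ≤ √(X * Y) := by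
  have hX0 : 0 ≤ X := le_trans (Nat.cast_nonneg _) hX
  have h1 : (∑ a ∈ S, |g a|) ^ 2 ≤ S.card * ∑ a ∈ S, |g a| ^ 2 := sq_sum_le_card_mul_sum_sq
  have h2 : ∑ a ∈ S, |g a| ^ 2 = ∑ a ∈ S, (g a) ^ 2 :=
    Finset.sum_congr rfl (fun a _ => sq_abs _)
  rw [h2] at h1
  have h3 : (S.card : ℝ) * ∑ a ∈ S, (g a) ^ 2 ≤ X * Y :=
    mul_le_mul hX hY (Finset.sum_nonneg (fun a _ => sq_nonneg _)) hX0
  exact Real.le_sqrt_of_sq_le (h1.trans h3)

/-- the coefficients -/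
noncomputable def cf (N : ℕ) (e2 : ℝ) (c : Multiset ℕ) (I : Finset ℕ) (f : ℕ) : ℝ :=
  ∑ k ∈ I.filter (fun k => Squarefree k ∧ f ∣ k), FF N e2 c k / √(k : ℝ)

theorem cf_nonneg (N : ℕ) (e2 : ℝ) (c : Multiset ℕ) (I : Finset ℕ) (f : ℕ) :
    0 ≤ cf N e2 c I f :=
  Finset.sum_nonneg (fun k _ => div_nonneg (FFB.FF_nonneg _ _ _ _) (Real.sqrt_nonneg _))

theorem cf_ne (N : ℕ) (e2 : ℝ) (c : Multiset ℕ) (I : Finset ℕ) (f : ℕ)
    (h : cf N e2 c I f ≠ 0) : ∃ k ∈ I, Squarefree k ∧ f ∣ k ∧ FF N e2 c k ≠ 0 := by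
  obtain ⟨k, hk, hne⟩ := Finset.exists_ne_zero_of_sum_ne_zero h
  have hk' := Finset.mem_filter.mp hk
  refine ⟨k, hk'.1, hk'.2.1, hk'.2.2, fun h0 => hne ?_⟩
  rw [h0, zero_div]

theorem card_mult (M f : ℕ) :
    (((Ioc 0 M).filter (fun k => f ∣ k)).card : ℝ) ≤ (M : ℝ) / f := by
  rw [Nat.Ioc_filter_dvd_card_eq_div]
  exact Nat.cast_div_le

theorem cf_le (N : ℕ) (hN : 2 ≤ N) (e2 : ℝ) (c : Multiset ℕ) (K η : ℝ) (hK : 1 ≤ K) (hη : η ≤ 1 / 4)
    (hη0 : 0 < η) (f : ℕ) (hf : 1 ≤ f) :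
    cf N e2 c (Ioc ⌊K⌋₊ ⌊(1 + η) * K⌋₊) f
      ≤ 5 / 4 * ((Multiset.card c).factorial : ℝ) * √K / f := by
  have hK0 : 0 < K := by linarith
  have hf0 : (0 : ℝ) < f := by exact_mod_cast hf
  have hsK : 0 < √K := Real.sqrt_pos.mpr hK0
  set B : ℝ := ((Multiset.card c).factorial : ℝ) with hB
  have hB0 : 0 ≤ B := Nat.cast_nonneg _
  have h1 : cf N e2 c (Ioc ⌊K⌋₊ ⌊(1 + η) * K⌋₊) f
      ≤ ∑ k ∈ (Ioc 0 ⌊(1 + η) * K⌋₊).filter (fun k => f ∣ k), B / √K := by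
    refine le_trans (Finset.sum_le_sum (g := fun _ => B / √K) ?_) ?_
    · intro k hk
      have hk' := Finset.mem_filter.mp hk
      have hk2 := Finset.mem_Ioc.mp hk'.1
      have hk3 : K < k := (Nat.floor_lt hK0.le).mp hk2.1
      exact div_le_div₀ hB0 (FFB.FF_le N e2 hN c k) hsK (Real.sqrt_le_sqrt hk3.le)
    · apply Finset.sum_le_sum_of_subset_of_nonneg
      · intro k hk
        have hk' := Finset.mem_filter.mp hk
        have hk2 := Finset.mem_Ioc.mp hk'.1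
        exact Finset.mem_filter.mpr ⟨Finset.mem_Ioc.mpr ⟨by omega, hk2.2⟩, hk'.2.2⟩
      · intro _ _ _
        positivity
  refine h1.trans ?_
  rw [Finset.sum_const, nsmul_eq_mul]
  have h2 := card_mult ⌊(1 + η) * K⌋₊ f
  have h3 : ((⌊(1 + η) * K⌋₊ : ℕ) : ℝ) ≤ 5 / 4 * K :=
    (Nat.floor_le (by positivity)).trans (by nlinarith)
  calc (((Ioc 0 ⌊(1 + η) * K⌋₊).filter (fun k => f ∣ k)).card : ℝ) * (B / √K)
      ≤ (5 / 4 * K / f) * (B / √K) := by
        apply mul_le_mul_of_nonneg_right _ (by positivity)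
        exact h2.trans (div_le_div_of_nonneg_right h3 hf0.le)
    _ = 5 / 4 * B * √K / f := by
        rw [show (5 / 4 * K / f) * (B / √K) = 5 / 4 * B * (K / √K) / f by ring, Real.div_sqrt]

/-- sums of the coefficients over a block -/
theorem cf_sum (g : ℕ → ℝ) (D : ℝ) (hD : 0 ≤ D) (E : ℕ) (hE : 1 ≤ E) (h0 : ∀ f, 0 ≤ g f)
    (h : ∀ f : ℕ, 1 ≤ f → g f ≤ D / f) :
    ∑ f ∈ Ioc E (2 * E), |g f| ≤ D ∧ ∑ f ∈ Ioc E (2 * E), (g f) ^ 2 ≤ D ^ 2 / E := by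
  have hE0 : (0 : ℝ) < E := by exact_mod_cast hE
  have hcard : ((Ioc E (2 * E)).card : ℝ) = E := by
    rw [Nat.card_Ioc]
    have : 2 * E - E = E := by omega
    rw [this]
  have hb : ∀ f ∈ Ioc E (2 * E), g f ≤ D / E := by
    intro f hf
    have hf' := Finset.mem_Ioc.mp hf
    have h1 : (E : ℝ) ≤ f := by exact_mod_cast hf'.1.le
    exact (h f (by omega)).trans (div_le_div_of_nonneg_left hD hE0 h1)
  constructor
  · calc ∑ f ∈ Ioc E (2 * E), |g f| ≤ ∑ f ∈ Ioc E (2 * E), D / E :=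
          Finset.sum_le_sum (fun f hf => by rw [abs_of_nonneg (h0 f)]; exact hb f hf)
      _ = D := by
          rw [Finset.sum_const, nsmul_eq_mul, hcard]
          field_simp
  · calc ∑ f ∈ Ioc E (2 * E), (g f) ^ 2 ≤ ∑ f ∈ Ioc E (2 * E), (D / E) ^ 2 :=
          Finset.sum_le_sum (fun f hf => pow_le_pow_left₀ (h0 f) (hb f hf) 2)
      _ = D ^ 2 / E := by
          rw [Finset.sum_const, nsmul_eq_mul, hcard]
          field_simp

/-- one dyadic block -/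
theorem block (hS : SpecSML) (hL : SpecLRG) (e t : ℝ) (he : 0 < e) (ht : 0 < t) :
    ∃ C : ℝ, 0 < C ∧ ∀ (N A E : ℕ) (g : ℕ → ℝ) (D : ℝ), 2 ≤ N → 1 ≤ E → 0 ≤ D →
    (N : ℝ) ^ (3 / 5 : ℝ) ≤ A → (A : ℝ) ≤ (N : ℝ) ^ 2 → (∀ f, 0 ≤ g f) →
    (∀ f : ℕ, 1 ≤ f → g f ≤ D / f) → (∀ f, g f ≠ 0 → Odd f ∧ Squarefree f) →
    (∀ f, g f ≠ 0 → 1 < f → (N : ℝ) ^ e ≤ f ∧
      ((A : ℝ) * (N : ℝ) ^ t ≤ f ∨ (f : ℝ) ≤ A * (N : ℝ) ^ (-t))) →
    ∑ a ∈ IA A, (∑ f ∈ Ioc E (2 * E), g f * (jacobiSym (-a) f : ℝ)) ^ 2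
      ≤ C * D ^ 2 * A * (N : ℝ) ^ (-(min e (min (t / 2) (3 / 10)))) := by
  obtain ⟨C₁, hC₁, h1⟩ := hS (t / 4) (by positivity)
  obtain ⟨C₃, hC₃, h3⟩ := hL (t / 4) (by positivity)
  refine ⟨3 * (C₁ + C₃), by positivity, ?_⟩
  intro N A E g D hN hE hD hA hA2 hg0 hgD hgo hgt
  set σ := min e (min (t / 2) (3 / 10)) with hσ
  have hσ1 : σ ≤ e := min_le_left _ _
  have hσ2 : σ ≤ t / 2 := (min_le_right _ _).trans (min_le_left _ _)
  have hσ3 : σ ≤ 3 / 10 := (min_le_right _ _).trans (min_le_right _ _)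
  have hN1 : (1 : ℝ) ≤ N := by exact_mod_cast (by omega : 1 ≤ N)
  have hN0 : (0 : ℝ) < N := by linarith
  have hE0 : (0 : ℝ) < E := by exact_mod_cast hE
  have hA1 : (1 : ℝ) ≤ A := (Real.one_le_rpow hN1 (by norm_num)).trans hA
  have hA1' : 1 ≤ A := by exact_mod_cast hA1
  have hA0 : (0 : ℝ) < A := by linarith
  obtain ⟨hs1, hs2⟩ := cf_sum g D hD E hE hg0 hgD
  have hNσ : 0 < (N : ℝ) ^ (-σ) := Real.rpow_pos_of_pos hN0 _
  have hR : 0 ≤ D ^ 2 * A * (N : ℝ) ^ (-σ) := by positivity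
  by_cases hz : ∀ f ∈ Ioc E (2 * E), g f = 0
  · have : ∑ a ∈ IA A, (∑ f ∈ Ioc E (2 * E), g f * (jacobiSym (-a) f : ℝ)) ^ 2 = 0 := by
      apply Finset.sum_eq_zero
      intro a _
      rw [Finset.sum_eq_zero (fun f hf => by rw [hz f hf, zero_mul])]
      norm_num
    rw [this]
    have : 0 ≤ 3 * (C₁ + C₃) := by positivity
    nlinarith
  · push Not at hz
    obtain ⟨f, hf, hgf⟩ := hz
    have hf' := Finset.mem_Ioc.mp hf
    obtain ⟨hf1, hf2⟩ := hgt f hgf (by omega)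
    have hfE : (f : ℝ) ≤ 2 * E := by exact_mod_cast hf'.2
    have hEf : (E : ℝ) ≤ f := by exact_mod_cast hf'.1.le
    have hAq : (A : ℝ) ^ (t / 4) ≤ (N : ℝ) ^ (t / 2) := by
      calc (A : ℝ) ^ (t / 4) ≤ ((N : ℝ) ^ 2) ^ (t / 4) :=
            Real.rpow_le_rpow hA0.le hA2 (by positivity)
        _ = (N : ℝ) ^ (t / 2) := by
            rw [← Real.rpow_natCast, ← Real.rpow_mul hN0.le]
            norm_num
            ring_nf
    by_cases hcase : (E : ℝ) ≤ A * (N : ℝ) ^ (-t)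
    · have h4 := h1 A E g hA1' hE hgo
      refine h4.trans ?_
      have h5 : (1 : ℝ) / E ≤ 2 * (N : ℝ) ^ (-σ) := by
        have h6 : (N : ℝ) ^ e ≤ 2 * E := hf1.trans hfE
        have h7 : (N : ℝ) ^ σ ≤ (N : ℝ) ^ e := Real.rpow_le_rpow_of_exponent_le hN1 hσ1
        rw [Real.rpow_neg hN0.le, div_le_iff₀ hE0]
        have h8 : 0 < (N : ℝ) ^ σ := Real.rpow_pos_of_pos hN0 _
        rw [show 2 * ((N : ℝ) ^ σ)⁻¹ * E = (2 * E) / (N : ℝ) ^ σ by ring, le_div_iff₀ h8]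
        linarith
      have hEp : (E : ℝ) ^ (1 + t / 4) ≤ A * (N : ℝ) ^ (-σ) := by
        have hEA : (E : ℝ) ≤ A := by
          refine hcase.trans ?_
          have : (N : ℝ) ^ (-t) ≤ 1 := Real.rpow_le_one_of_one_le_of_nonpos hN1 (by linarith)
          nlinarith
        rw [Real.rpow_add hE0, Real.rpow_one]
        calc (E : ℝ) * (E : ℝ) ^ (t / 4) ≤ (A * (N : ℝ) ^ (-t)) * (N : ℝ) ^ (t / 2) :=
              mul_le_mul hcase ((Real.rpow_le_rpow hE0.le hEA (by positivity)).trans hAq)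
                (by positivity) (by positivity)
          _ = A * (N : ℝ) ^ (-(t / 2)) := by
              rw [mul_assoc, ← Real.rpow_add hN0]
              congr 2
              ring
          _ ≤ A * (N : ℝ) ^ (-σ) :=
              mul_le_mul_of_nonneg_left (Real.rpow_le_rpow_of_exponent_le hN1 (by linarith)) hA0.le
      have h9 : (∑ k ∈ Ioc E (2 * E), |g k|) ^ 2 ≤ D ^ 2 :=
        pow_le_pow_left₀ (Finset.sum_nonneg (fun _ _ => abs_nonneg _)) hs1 2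
      have h10 : (A : ℝ) * ∑ k ∈ Ioc E (2 * E), (g k) ^ 2 ≤ 2 * (D ^ 2 * A * (N : ℝ) ^ (-σ)) := by
        calc (A : ℝ) * ∑ k ∈ Ioc E (2 * E), (g k) ^ 2 ≤ A * (D ^ 2 * (1 / E)) := by
              apply mul_le_mul_of_nonneg_left _ hA0.le
              rw [mul_one_div]
              exact hs2
          _ ≤ A * (D ^ 2 * (2 * (N : ℝ) ^ (-σ))) := by
              apply mul_le_mul_of_nonneg_left _ hA0.le
              exact mul_le_mul_of_nonneg_left h5 (sq_nonneg _)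
          _ = 2 * (D ^ 2 * A * (N : ℝ) ^ (-σ)) := by ring
      have h11 : (E : ℝ) ^ (1 + t / 4) * (∑ k ∈ Ioc E (2 * E), |g k|) ^ 2
          ≤ D ^ 2 * A * (N : ℝ) ^ (-σ) := by
        calc (E : ℝ) ^ (1 + t / 4) * (∑ k ∈ Ioc E (2 * E), |g k|) ^ 2
            ≤ (A * (N : ℝ) ^ (-σ)) * D ^ 2 :=
              mul_le_mul hEp h9 (by positivity) (by positivity)
          _ = _ := by ring
      calc C₁ * (A * (∑ k ∈ Ioc E (2 * E), (g k) ^ 2)
            + (E : ℝ) ^ (1 + t / 4) * (∑ k ∈ Ioc E (2 * E), |g k|) ^ 2)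
          ≤ C₁ * (3 * (D ^ 2 * A * (N : ℝ) ^ (-σ))) :=
            mul_le_mul_of_nonneg_left (by linarith) hC₁.le
        _ ≤ 3 * (C₁ + C₃) * D ^ 2 * A * (N : ℝ) ^ (-σ) := by
            have : 0 ≤ C₃ * (D ^ 2 * A * (N : ℝ) ^ (-σ)) := by positivity
            nlinarith
    · have h12 : (A : ℝ) * (N : ℝ) ^ t ≤ 2 * E := by
        rcases hf2 with h | h
        · exact h.trans hfE
        · exact absurd (hEf.trans h) hcase
      have h4 := h3 A E g hA1' hE (fun k hk => (hgo k hk).1)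
      refine h4.trans ?_
      have h5 : √(A : ℝ) ≤ A * (N : ℝ) ^ (-σ) := by
        have h6 : (N : ℝ) ^ σ ≤ √(A : ℝ) := by
          apply Real.le_sqrt_of_sq_le
          refine le_trans ?_ hA
          rw [← Real.rpow_natCast, ← Real.rpow_mul hN0.le]
          apply Real.rpow_le_rpow_of_exponent_le hN1
          push_cast
          linarith
        rw [Real.rpow_neg hN0.le, ← div_eq_mul_inv, le_div_iff₀ (Real.rpow_pos_of_pos hN0 _)]
        calc √(A : ℝ) * (N : ℝ) ^ σ ≤ √(A : ℝ) * √(A : ℝ) :=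
              mul_le_mul_of_nonneg_left h6 (Real.sqrt_nonneg _)
          _ = A := Real.mul_self_sqrt hA0.le
      have h7 : (A : ℝ) ^ (2 + t / 4) / E ≤ 2 * (A * (N : ℝ) ^ (-σ)) := by
        rw [div_le_iff₀ hE0]
        have hAt : (A : ℝ) ^ (2 + t / 4) = A * A * (A : ℝ) ^ (t / 4) := by
          rw [Real.rpow_add hA0, Real.rpow_two]
          ring
        have hNt : (N : ℝ) ^ (t / 2) = (N : ℝ) ^ t * (N : ℝ) ^ (-(t / 2)) := by
          rw [← Real.rpow_add hN0]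
          congr 1
          ring
        have hNs : (N : ℝ) ^ (-(t / 2)) ≤ (N : ℝ) ^ (-σ) :=
          Real.rpow_le_rpow_of_exponent_le hN1 (by linarith)
        calc (A : ℝ) ^ (2 + t / 4) ≤ A * A * (N : ℝ) ^ (t / 2) := by
              rw [hAt]
              exact mul_le_mul_of_nonneg_left hAq (by positivity)
          _ = (A * (N : ℝ) ^ t) * (A * (N : ℝ) ^ (-(t / 2))) := by rw [hNt]; ring
          _ ≤ (2 * E) * (A * (N : ℝ) ^ (-σ)) :=
              mul_le_mul h12 (mul_le_mul_of_nonneg_left hNs hA0.le) (by positivity) (by positivity)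
          _ = 2 * (A * (N : ℝ) ^ (-σ)) * E := by ring
      calc C₃ * (E * √(A : ℝ) + (A : ℝ) ^ (2 + t / 4)) * ∑ k ∈ Ioc E (2 * E), (g k) ^ 2
          ≤ C₃ * (E * √(A : ℝ) + (A : ℝ) ^ (2 + t / 4)) * (D ^ 2 / E) :=
            mul_le_mul_of_nonneg_left hs2 (by positivity)
        _ = C₃ * D ^ 2 * (√(A : ℝ) + (A : ℝ) ^ (2 + t / 4) / E) := by
            field_simp
        _ ≤ C₃ * D ^ 2 * (3 * (A * (N : ℝ) ^ (-σ))) :=
            mul_le_mul_of_nonneg_left (by linarith) (by positivity)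
        _ ≤ 3 * (C₁ + C₃) * D ^ 2 * A * (N : ℝ) ^ (-σ) := by
            have : 0 ≤ C₁ * (D ^ 2 * A * (N : ℝ) ^ (-σ)) := by positivity
            nlinarith

end Pool.Agent.Lib.MP391708.QPA.MTB
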