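import Pool.Agent.Lib.MP_391708_nt.QPA.FINU

/-!
# Project QPA: the density version
-/

set_option autoImplicit false

namespace Pool.Agent.Lib.MP391708.QPA

open Finset Filter Topology
open scoped Classical

/-- DENS (from FINU and LI): for almost all integers `a` (natural density) the asymptotic formula holds at
`N = |a|^B`, `1 ≤ B < 6/5`.  Apply FINU with `θ = 1/B`, `A = X`, `N = ⌊X^B⌋` and a small `ε' = ε'(ε, B)`; for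
`δX ≤ |a| ≤ X` the number `M = ⌊|a|^B⌋` satisfies `∫_2^N ≤ C(δ, B) ∫_2^M`. The `|a| < δX` cost `2δX + 1`. -/
def SpecDENS : Prop := ∀ B ε : ℝ, 1 ≤ B → B < 6 / 5 → 0 < ε → ∃ X₀ : ℕ, ∀ X : ℕ, X₀ ≤ X →
  (((Icc (-(X : ℤ)) X).filter (fun a : ℤ => ¬ ∃ h : ℝ, 0 < h ∧
    Tendsto (fun X : ℕ => ∏ w ∈ (range (X + 1)).filter (fun w => Nat.Prime w ∧ w ≠ 2),
      (1 - (jacobiSym (-a) w : ℝ) / ((w : ℝ) - 1))) atTop (𝓝 h) ∧
    |(((Icc 1 ⌊(a.natAbs : ℝ) ^ B⌋₊).filter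
          (fun n : ℕ => Nat.Prime ((n : ℤ) ^ 2 + a).natAbs)).card : ℝ)
        - 1 / 2 * h * ∫ t in (2 : ℝ)..(⌊(a.natAbs : ℝ) ^ B⌋₊ : ℝ), 1 / Real.log t|
      ≤ ε * (h * ∫ t in (2 : ℝ)..(⌊(a.natAbs : ℝ) ^ B⌋₊ : ℝ), 1 / Real.log t))).card : ℝ) ≤ ε * X

end Pool.Agent.Lib.MP391708.QPA
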