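import Pool.Agent.Lib.MP_391708_nt.QPA.Spec

set_option autoImplicit false

namespace Pool.Agent.Lib.MP391708.QPA.WB

open Finset Filter Topology
open scoped Classical

noncomputable section

lemma one_div_sub (p : ℕ) (hp : 3 ≤ p) : 1 / ((p : ℝ) - 1) ≤ 1 / √(p : ℝ) := by
  have h3 : (3 : ℝ) ≤ p := by exact_mod_cast hp
  apply one_div_le_one_div_of_le (Real.sqrt_pos.2 (by linarith))
  rw [Real.sqrt_le_left (by linarith)]
  nlinarith

lemma ratio_le (d : ℕ) (hd : 1 ≤ d) : (d : ℝ) / (d.totient : ℝ) ≤ 2 * ∑ r ∈ d.divisors, 1 / √(r : ℝ) := by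
  have hd0 : (0 : ℝ) < d := by exact_mod_cast hd
  have h1 : (d.totient : ℝ) = d * ∏ p ∈ d.primeFactors, (1 - (p : ℝ)⁻¹) := by
    have := Nat.totient_eq_mul_prod_factors d
    have h2 : ((d.totient : ℚ) : ℝ) = ((d * ∏ p ∈ d.primeFactors, (1 - (p : ℚ)⁻¹) : ℚ) : ℝ) := by
      rw [this]
    push_cast at h2
    exact h2
  have hP : ∀ p ∈ d.primeFactors, p.Prime := fun p hp => Nat.prime_of_mem_primeFactors hp
  have h2 : (d : ℝ) / (d.totient : ℝ) = ∏ p ∈ d.primeFactors, (1 + 1 / ((p : ℝ) - 1)) := by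
    rw [h1, div_mul_eq_div_div, div_self hd0.ne', one_div, ← Finset.prod_inv_distrib]
    apply Finset.prod_congr rfl
    intro p hp
    have : (2 : ℝ) ≤ p := by exact_mod_cast (hP p hp).two_le
    have h3 : (p : ℝ) - 1 ≠ 0 := by linarith
    have h4 : (p : ℝ) ≠ 0 := by linarith
    have h5 : (1 : ℝ) - (p : ℝ)⁻¹ = (p - 1) / p := by field_simp
    rw [h5, inv_div]
    field_simp
    ring
  have h3 : ∏ p ∈ d.primeFactors, (1 + 1 / ((p : ℝ) - 1)) ≤ 2 * ∏ p ∈ d.primeFactors.erase 2, (1 + 1 / √(p : ℝ)) := by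
    have hodd : ∏ p ∈ d.primeFactors.erase 2, (1 + 1 / ((p : ℝ) - 1)) ≤ ∏ p ∈ d.primeFactors.erase 2, (1 + 1 / √(p : ℝ)) := by
      apply Finset.prod_le_prod
      · intro p hp
        have : (2 : ℝ) ≤ p := by exact_mod_cast (hP p (Finset.mem_of_mem_erase hp)).two_le
        have : (0 : ℝ) < p - 1 := by linarith
        positivity
      · intro p hp
        have h2 := (hP p (Finset.mem_of_mem_erase hp)).two_le
        have h3 : p ≠ 2 := Finset.ne_of_mem_erase hp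
        have := one_div_sub p (by omega)
        linarith
    have hpos : 0 ≤ ∏ p ∈ d.primeFactors.erase 2, (1 + 1 / √(p : ℝ)) := by positivity
    by_cases h2 : 2 ∈ d.primeFactors
    · rw [← Finset.mul_prod_erase _ _ h2]
      have : (1 : ℝ) + 1 / ((2 : ℕ) - 1 : ℝ) = 2 := by norm_num
      rw [this]
      linarith
    · rw [Finset.erase_eq_of_notMem h2] at hodd hpos ⊢
      linarith
  have h4 : ∏ p ∈ d.primeFactors.erase 2, (1 + 1 / √(p : ℝ)) ≤ ∑ r ∈ d.divisors, 1 / √(r : ℝ) := by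
    rw [Finset.prod_one_add]
    have h5 : ∀ t ∈ (d.primeFactors.erase 2).powerset, ∏ p ∈ t, (1 / √(p : ℝ)) = 1 / √((∏ p ∈ t, p : ℕ) : ℝ) := by
      intro t ht
      rw [Finset.prod_div_distrib, Finset.prod_const_one, Nat.cast_prod, Real.sqrt_prod]
      intro i hi
      positivity
    rw [Finset.sum_congr rfl h5]
    have hinj : Set.InjOn (fun t : Finset ℕ => ∏ p ∈ t, p) ((d.primeFactors.erase 2).powerset : Set (Finset ℕ)) := by
      intro s hs t ht hst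
      have hs' : ∀ p ∈ s, p.Prime := fun p hp => hP p (Finset.mem_of_mem_erase (Finset.mem_powerset.1 (Finset.mem_coe.1 hs) hp))
      have ht' : ∀ p ∈ t, p.Prime := fun p hp => hP p (Finset.mem_of_mem_erase (Finset.mem_powerset.1 (Finset.mem_coe.1 ht) hp))
      simp only at hst
      rw [← Nat.primeFactors_prod hs', ← Nat.primeFactors_prod ht', hst]
    rw [← Finset.sum_image (f := fun r : ℕ => 1 / √(r : ℝ)) hinj]
    apply Finset.sum_le_sum_of_subset_of_nonneg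
    · intro r hr
      rw [Finset.mem_image] at hr
      obtain ⟨t, ht, rfl⟩ := hr
      rw [Nat.mem_divisors]
      refine ⟨?_, by omega⟩
      have h6 : ∏ p ∈ t, p ∣ ∏ p ∈ d.primeFactors, p :=
        Finset.prod_dvd_prod_of_subset _ _ _ ((Finset.mem_powerset.1 ht).trans (Finset.erase_subset _ _))
      exact h6.trans (Nat.prod_primeFactors_dvd d)
    · intro r _ _
      positivity
  rw [h2]
  linarith


lemma sum_ratio : ∃ C : ℝ, 0 < C ∧ ∀ D : ℕ, ∑ d ∈ Icc 1 D, (d : ℝ) / (d.totient : ℝ) ≤ C * D := by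
  have hsum : Summable (fun n : ℕ => 1 / (n : ℝ) ^ (3 / 2 : ℝ)) :=
    Real.summable_one_div_nat_rpow.2 (by norm_num)
  refine ⟨2 * (∑' n : ℕ, 1 / (n : ℝ) ^ (3 / 2 : ℝ)) + 1, ?_, ?_⟩
  · have : 0 ≤ ∑' n : ℕ, 1 / (n : ℝ) ^ (3 / 2 : ℝ) := tsum_nonneg (fun n => by positivity)
    linarith
  intro D
  have h1 : ∑ d ∈ Icc 1 D, (d : ℝ) / (d.totient : ℝ)
      ≤ ∑ d ∈ Icc 1 D, 2 * ∑ r ∈ d.divisors, 1 / √(r : ℝ) :=
    Finset.sum_le_sum (fun d hd => ratio_le d (Finset.mem_Icc.1 hd).1)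
  have h2 : ∑ d ∈ Icc 1 D, ∑ r ∈ d.divisors, 1 / √(r : ℝ)
      = ∑ r ∈ Icc 1 D, ∑ d ∈ (Icc 1 D).filter (fun d => r ∣ d), 1 / √(r : ℝ) := by
    apply Finset.sum_comm'
    intro d r
    simp only [Finset.mem_Icc, Nat.mem_divisors, Finset.mem_filter]
    constructor
    · rintro ⟨⟨h1, h2⟩, h3, h4⟩
      have := Nat.le_of_dvd (by omega) h3
      have := Nat.pos_of_dvd_of_pos h3 (by omega)
      exact ⟨⟨⟨h1, h2⟩, h3⟩, by omega, by omega⟩
    · rintro ⟨⟨⟨h1, h2⟩, h3⟩, h4, h5⟩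
      exact ⟨⟨h1, h2⟩, h3, by omega⟩
  have h3 : ∀ r ∈ Icc 1 D, ∑ d ∈ (Icc 1 D).filter (fun d => r ∣ d), 1 / √(r : ℝ)
      ≤ D * (1 / (r : ℝ) ^ (3 / 2 : ℝ)) := by
    intro r hr
    have hr1 : (0 : ℝ) < r := by exact_mod_cast (Finset.mem_Icc.1 hr).1
    rw [Finset.sum_const, nsmul_eq_mul]
    have hc : ((Icc 1 D).filter (fun d => r ∣ d)).card = D / r := by
      rw [← Nat.Ioc_filter_dvd_card_eq_div]
      congr 1
    rw [hc]
    have h4 : ((D / r : ℕ) : ℝ) ≤ D / r := Nat.cast_div_le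
    have h5 : (r : ℝ) ^ (3 / 2 : ℝ) = r * √(r : ℝ) := by
      rw [Real.sqrt_eq_rpow, show (3 / 2 : ℝ) = 1 + 1 / 2 by norm_num, Real.rpow_add hr1, Real.rpow_one]
    rw [h5]
    have h6 : 0 < √(r : ℝ) := Real.sqrt_pos.2 hr1
    calc ((D / r : ℕ) : ℝ) * (1 / √(r : ℝ)) ≤ (D / r) * (1 / √(r : ℝ)) := by gcongr
      _ = D * (1 / (r * √(r : ℝ))) := by field_simp
  have h4 : ∑ r ∈ Icc 1 D, 1 / (r : ℝ) ^ (3 / 2 : ℝ) ≤ ∑' n : ℕ, 1 / (n : ℝ) ^ (3 / 2 : ℝ) :=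
    hsum.sum_le_tsum _ (fun n _ => by positivity)
  calc ∑ d ∈ Icc 1 D, (d : ℝ) / (d.totient : ℝ)
      ≤ ∑ d ∈ Icc 1 D, 2 * ∑ r ∈ d.divisors, 1 / √(r : ℝ) := h1
    _ = 2 * ∑ r ∈ Icc 1 D, ∑ d ∈ (Icc 1 D).filter (fun d => r ∣ d), 1 / √(r : ℝ) := by
        rw [← Finset.mul_sum, h2]
    _ ≤ 2 * ∑ r ∈ Icc 1 D, D * (1 / (r : ℝ) ^ (3 / 2 : ℝ)) := by
        have := Finset.sum_le_sum h3
        linarith
    _ = 2 * (D * ∑ r ∈ Icc 1 D, 1 / (r : ℝ) ^ (3 / 2 : ℝ)) := by rw [← Finset.mul_sum]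
    _ ≤ 2 * (D * ∑' n : ℕ, 1 / (n : ℝ) ^ (3 / 2 : ℝ)) := by gcongr
    _ ≤ _ := by
        have : (0 : ℝ) ≤ D := Nat.cast_nonneg D
        nlinarith

/-! ### the kernel -/

/-- the kernel with real arguments -/
def ker (K : ℝ) (d : ℕ) (u v : ℝ) : ℝ := kB ((√v - √u) ^ 2 / (4 * (d : ℝ) ^ 2) / K) / √(u * v)

lemma kB_zero_left {x : ℝ} (h : x ≤ 1 / 2) : kB x = 0 := by
  apply kB.zero_of_le_dist
  change (1 : ℝ) ≤ dist x (3 / 2)
  rw [Real.dist_eq, abs_sub_comm]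
  exact le_trans (by linarith) (le_abs_self _)

lemma kB_zero_right {x : ℝ} (h : 5 / 2 ≤ x) : kB x = 0 := by
  apply kB.zero_of_le_dist
  change (1 : ℝ) ≤ dist x (3 / 2)
  rw [Real.dist_eq]
  exact le_trans (by linarith) (le_abs_self _)

lemma kB_lip : ∃ M : ℝ, 0 < M ∧ ∀ x y : ℝ, |kB x - kB y| ≤ M * |x - y| := by
  have hc : HasCompactSupport (kB : ℝ → ℝ) := kB.hasCompactSupport
  have hd : ContDiff ℝ 1 (kB : ℝ → ℝ) := kB.contDiff
  obtain ⟨C, hC⟩ := hd.lipschitzWith_of_hasCompactSupport hc one_ne_zero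
  refine ⟨C + 1, by positivity, ?_⟩
  intro x y
  have := hC.dist_le_mul x y
  rw [Real.dist_eq, Real.dist_eq] at this
  have h0 := abs_nonneg (x - y)
  linarith

lemma ker_nonneg (K : ℝ) (d : ℕ) (u v : ℝ) : 0 ≤ ker K d u v := by
  unfold ker
  exact div_nonneg kB.nonneg (Real.sqrt_nonneg _)

lemma ker_le {K L : ℝ} (d : ℕ) {u v : ℝ} (hL : 0 < L) (hu : L ≤ u) (hv : L ≤ v) :
    ker K d u v ≤ 1 / L := by
  unfold ker
  have h1 : L ≤ √(u * v) := by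
    apply Real.le_sqrt_of_sq_le
    nlinarith
  exact div_le_div₀ zero_le_one kB.le_one hL h1

lemma ker_self (K : ℝ) (d : ℕ) (u : ℝ) : ker K d u u = 0 := by
  unfold ker
  rw [kB_zero_left (by simp)]
  simp

set_option maxHeartbeats 1000000 in
lemma ker_diff {M : ℝ} (hM : 0 < M) (hlip : ∀ x y : ℝ, |kB x - kB y| ≤ M * |x - y|)
    {K L h w x y u v : ℝ} {d : ℕ} (hK : 0 < K) (hL : 0 < L) (hw : 0 < w) (hw1 : w ≤ 1)
    (hd : 1 ≤ d) (hdw : w ^ 2 * L ≤ (d : ℝ) ^ 2 * K) (hx : L ≤ x) (hxu : x ≤ u) (hux : u ≤ x + h)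
    (hy : L ≤ y) (hyv : y ≤ v) (hvy : v ≤ y + h) (hu2 : u ≤ 2 * L) (hv2 : v ≤ 2 * L) :
    |ker K d u v - ker K d x y| ≤ (M + 2) / w ^ 2 * h / L ^ 2 := by
  have hh : 0 ≤ h := by linarith
  have hd0 : (1 : ℝ) ≤ d := by exact_mod_cast hd
  set q := √L with hq
  have hq0 : 0 < q := Real.sqrt_pos.2 hL
  have hqq : q * q = L := Real.mul_self_sqrt hL.le
  have key : ∀ s t : ℝ, L ≤ s → s ≤ t → t ≤ s + h → t ≤ 2 * L →
      q ≤ √s ∧ √s ≤ √t ∧ √t - √s ≤ h / (2 * q) ∧ √t ≤ 3 / 2 * q := by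
    intro s t h1 h2 h3 h4
    have hs : 0 ≤ s := by linarith
    have ht : 0 ≤ t := by linarith
    have e1 : q ≤ √s := Real.sqrt_le_sqrt h1
    have e2 : √s ≤ √t := Real.sqrt_le_sqrt h2
    have e3 : √s * √s = s := Real.mul_self_sqrt hs
    have e4 : √t * √t = t := Real.mul_self_sqrt ht
    refine ⟨e1, e2, ?_, ?_⟩
    · rw [le_div_iff₀ (by positivity)]
      nlinarith
    · apply Real.sqrt_le_iff.2
      exact ⟨by positivity, by nlinarith⟩
  obtain ⟨a1, a2, a3, a4⟩ := key x u hx hxu hux hu2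
  obtain ⟨b1, b2, b3, b4⟩ := key y v hy hyv hvy hv2
  set a := √v - √u with ha
  set a' := √y - √x with ha'
  have haa : |a ^ 2 - a' ^ 2| ≤ h := by
    have h1 : a ^ 2 - a' ^ 2 = (a - a') * (a + a') := by ring
    rw [h1, abs_mul]
    have h2 : |a - a'| ≤ h / (2 * q) := by
      rw [abs_le]; constructor <;> simp only [ha, ha'] <;> linarith
    have h3 : |a + a'| ≤ q := by
      rw [abs_le]; constructor <;> simp only [ha, ha'] <;> linarith
    calc |a - a'| * |a + a'| ≤ (h / (2 * q)) * q := by gcongr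
      _ = h / 2 := by field_simp
      _ ≤ h := by linarith
  have hdK : 0 < (d : ℝ) ^ 2 * K := by positivity
  have hk : |kB (a ^ 2 / (4 * (d : ℝ) ^ 2) / K) - kB (a' ^ 2 / (4 * (d : ℝ) ^ 2) / K)|
      ≤ M * h / (4 * w ^ 2 * L) := by
    refine (hlip _ _).trans ?_
    have h1 : a ^ 2 / (4 * (d : ℝ) ^ 2) / K - a' ^ 2 / (4 * (d : ℝ) ^ 2) / K
        = (a ^ 2 - a' ^ 2) / (4 * ((d : ℝ) ^ 2 * K)) := by
      field_simp
    rw [h1, abs_div, abs_of_pos (by positivity : 0 < 4 * ((d : ℝ) ^ 2 * K)), mul_div_assoc]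
    apply mul_le_mul_of_nonneg_left _ hM.le
    exact div_le_div₀ hh haa (by positivity) (by linarith)
  have hs1 : L ≤ √(u * v) := by
    apply Real.le_sqrt_of_sq_le
    nlinarith
  have hs2 : L ≤ √(x * y) := by
    apply Real.le_sqrt_of_sq_le
    nlinarith
  have hs3 : √(u * v) * √(u * v) = u * v := Real.mul_self_sqrt (by nlinarith)
  have hs4 : √(x * y) * √(x * y) = x * y := Real.mul_self_sqrt (by nlinarith)
  have hs5 : √(x * y) ≤ √(u * v) := Real.sqrt_le_sqrt (by nlinarith)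
  have hs6 : √(u * v) - √(x * y) ≤ 2 * h := by
    have h1 : u * v - x * y ≤ 4 * L * h := by nlinarith
    have h2 : (√(u * v) - √(x * y)) * (2 * L) ≤ 4 * L * h := by
      nlinarith
    nlinarith
  have hs7 : |1 / √(u * v) - 1 / √(x * y)| ≤ 2 * h / L ^ 2 := by
    have p1 : 0 < √(u * v) := by linarith
    have p2 : 0 < √(x * y) := by linarith
    have h1 : 1 / √(u * v) - 1 / √(x * y) = -((√(u * v) - √(x * y)) / (√(u * v) * √(x * y))) := by
      field_simp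
      ring
    rw [h1, abs_neg, abs_of_nonneg (div_nonneg (by linarith) (by positivity))]
    apply div_le_div₀ (by positivity) hs6 (by positivity)
    nlinarith
  have hmain : ker K d u v - ker K d x y
      = (kB (a ^ 2 / (4 * (d : ℝ) ^ 2) / K) - kB (a' ^ 2 / (4 * (d : ℝ) ^ 2) / K)) * (1 / √(u * v))
        + kB (a' ^ 2 / (4 * (d : ℝ) ^ 2) / K) * (1 / √(u * v) - 1 / √(x * y)) := by
    unfold ker
    simp only [ha, ha']
    ring
  rw [hmain]
  have hb : |kB (a' ^ 2 / (4 * (d : ℝ) ^ 2) / K)| ≤ 1 := by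
    rw [abs_of_nonneg kB.nonneg]; exact kB.le_one
  have h1 : |1 / √(u * v)| ≤ 1 / L := by
    rw [abs_of_pos (by have : 0 < √(u * v) := by linarith
                       positivity)]
    exact one_div_le_one_div_of_le hL hs1
  calc |(kB (a ^ 2 / (4 * (d : ℝ) ^ 2) / K) - kB (a' ^ 2 / (4 * (d : ℝ) ^ 2) / K)) * (1 / √(u * v))
        + kB (a' ^ 2 / (4 * (d : ℝ) ^ 2) / K) * (1 / √(u * v) - 1 / √(x * y))|
      ≤ |kB (a ^ 2 / (4 * (d : ℝ) ^ 2) / K) - kB (a' ^ 2 / (4 * (d : ℝ) ^ 2) / K)| * |1 / √(u * v)|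
        + |kB (a' ^ 2 / (4 * (d : ℝ) ^ 2) / K)| * |1 / √(u * v) - 1 / √(x * y)| := by
        rw [← abs_mul, ← abs_mul]; exact abs_add_le _ _
    _ ≤ M * h / (4 * w ^ 2 * L) * (1 / L) + 1 * (2 * h / L ^ 2) := by gcongr
    _ = (M / 4 / w ^ 2 + 2) * h / L ^ 2 := by field_simp
    _ ≤ (M + 2) / w ^ 2 * h / L ^ 2 := by
        gcongr
        rw [add_div]
        have hw2 : w ^ 2 ≤ 1 := by nlinarith
        have h3 : (2 : ℝ) ≤ 2 / w ^ 2 := by
          rw [le_div_iff₀ (by positivity)]; linarith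
        have h4 : M / 4 / w ^ 2 ≤ M / w ^ 2 := by
          gcongr; linarith
        linarith

end

end Pool.Agent.Lib.MP391708.QPA.WB
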