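import Pool.Agent.Lib.MP_391708_nt.QPA.WBa

set_option autoImplicit false

namespace Pool.Agent.Lib.MP391708.QPA.WB

open Finset Filter Topology
open scoped Classical

noncomputable section

/-! ### telescoping sums -/

lemma tele {M : Type*} [AddCommMonoid M] (f : ℕ → ℕ) (hf : Monotone f) (g : ℕ → M) (n : ℕ) :
    ∑ m ∈ range n, ∑ i ∈ Ioc (f m) (f (m + 1)), g i = ∑ i ∈ Ioc (f 0) (f n), g i := by
  induction n with
  | zero => simp
  | succ n ih =>
    rw [Finset.sum_range_succ, ih]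
    exact Finset.sum_Ioc_consecutive g (hf (Nat.zero_le _)) (hf (Nat.le_succ _))

/-- the end points of the pieces -/
def xp (L η : ℝ) (J i : ℕ) : ℝ := L * (1 + η * i / J)

lemma xp_mono {L η : ℝ} (hL : 0 ≤ L) (hη : 0 ≤ η) (J : ℕ) {i j : ℕ} (hij : i ≤ j) :
    xp L η J i ≤ xp L η J j := by
  unfold xp
  have : (i : ℝ) ≤ j := by exact_mod_cast hij
  gcongr

lemma pc_eq (L η : ℝ) (J i : ℕ) : pc L η J i = Ioc ⌊xp L η J i⌋₊ ⌊xp L η J (i + 1)⌋₊ := by
  unfold pc xp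
  push_cast
  rfl

lemma sum_pc {L η : ℝ} (hL : 0 ≤ L) (hη : 0 ≤ η) {J : ℕ} (hJ : 1 ≤ J) (g : ℕ → ℝ) :
    ∑ i ∈ range J, ∑ u ∈ pc L η J i, g u = ∑ u ∈ Ioc ⌊L⌋₊ ⌊(1 + η) * L⌋₊, g u := by
  have h := tele (fun i => ⌊xp L η J i⌋₊) (fun i j hij => Nat.floor_mono (xp_mono hL hη J hij)) g J
  have hJ0 : (J : ℝ) ≠ 0 := by positivity
  have h0 : xp L η J 0 = L := by unfold xp; simp
  have h1 : xp L η J J = (1 + η) * L := by
    unfold xp; field_simp
  simp only [h0, h1] at h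
  rw [← h]
  apply Finset.sum_congr rfl
  intro i _
  rw [pc_eq]

lemma mem_pc {L η : ℝ} {J i u : ℕ} (hu : u ∈ pc L η J i) :
    xp L η J i < u ∧ (u : ℝ) ≤ xp L η J (i + 1) := by
  rw [pc_eq, Finset.mem_Ioc] at hu
  refine ⟨?_, ?_⟩
  · exact (Nat.floor_lt' (by omega)).1 hu.1
  · exact (Nat.le_floor_iff' (by omega)).1 hu.2

lemma xp_succ (L η : ℝ) (J i : ℕ) : xp L η J (i + 1) = xp L η J i + η * L / J := by
  unfold xp
  push_cast
  ring

lemma xp_le {L η : ℝ} (hL : 0 ≤ L) (hη : 0 ≤ η) {J i : ℕ} (hi : i ≤ J) (hJ : 1 ≤ J) :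
    xp L η J i ≤ (1 + η) * L := by
  have h := xp_mono hL hη J hi
  have hJ0 : (J : ℝ) ≠ 0 := by positivity
  have h1 : xp L η J J = (1 + η) * L := by
    unfold xp; field_simp
  linarith

lemma le_xp {L η : ℝ} (hL : 0 ≤ L) (hη : 0 ≤ η) (J i : ℕ) : L ≤ xp L η J i := by
  have h := xp_mono hL hη J (Nat.zero_le i)
  have h0 : xp L η J 0 = L := by unfold xp; simp
  linarith

/-! ### the summand -/

/-- the summand of `Wd` -/
def GG (K : ℝ) (d : ℕ) (b : ℕ → ℝ) (u v : ℕ) : ℝ :=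
  if u < v ∧ 4 * d ∣ v - u then b u * b v * ker K d u v else 0

lemma Wd_eq (K L : ℝ) (d : ℕ) (b : ℕ → ℝ) :
    Wd K L d b = ∑ u ∈ Ioc ⌊L⌋₊ ⌊5 / 4 * L⌋₊, ∑ v ∈ Ioc ⌊L⌋₊ ⌊5 / 4 * L⌋₊, GG K d b u v := by
  unfold Wd prs
  rw [Finset.sum_filter, Finset.sum_product]
  rfl

lemma GG_eq_zero {K : ℝ} {d : ℕ} {b : ℕ → ℝ} {u v : ℕ} (h : b u = 0 ∨ b v = 0) : GG K d b u v = 0 := by
  unfold GG
  split_ifs
  · rcases h with h | h <;> rw [h] <;> simp
  · rfl

lemma mod_of_dvd {d u v : ℕ} (h : u < v) (h2 : 4 * d ∣ v - u) : u % (4 * d) = v % (4 * d) := by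
  exact (Nat.modEq_iff_dvd' h.le).2 h2

lemma Wd_eq' {K L η : ℝ} (d : ℕ) {b : ℕ → ℝ} (hη : η ≤ 1 / 4) (hL : 0 ≤ L)
    (hb : ∀ u, b u ≠ 0 → L < (u : ℝ) ∧ (u : ℝ) ≤ (1 + η) * L) :
    Wd K L d b = ∑ u ∈ Ioc ⌊L⌋₊ ⌊(1 + η) * L⌋₊, ∑ v ∈ Ioc ⌊L⌋₊ ⌊(1 + η) * L⌋₊, GG K d b u v := by
  rw [Wd_eq]
  have hsub : Ioc ⌊L⌋₊ ⌊(1 + η) * L⌋₊ ⊆ Ioc ⌊L⌋₊ ⌊5 / 4 * L⌋₊ := by
    apply Finset.Ioc_subset_Ioc_right
    apply Nat.floor_mono
    nlinarith
  have hz : ∀ u ∈ Ioc ⌊L⌋₊ ⌊5 / 4 * L⌋₊, u ∉ Ioc ⌊L⌋₊ ⌊(1 + η) * L⌋₊ → b u = 0 := by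
    intro u hu hu'
    by_contra h
    apply hu'
    obtain ⟨h1, h2⟩ := hb u h
    rw [Finset.mem_Ioc]
    exact ⟨(Finset.mem_Ioc.1 hu).1, Nat.le_floor h2⟩
  symm
  calc ∑ u ∈ Ioc ⌊L⌋₊ ⌊(1 + η) * L⌋₊, ∑ v ∈ Ioc ⌊L⌋₊ ⌊(1 + η) * L⌋₊, GG K d b u v
      = ∑ u ∈ Ioc ⌊L⌋₊ ⌊(1 + η) * L⌋₊, ∑ v ∈ Ioc ⌊L⌋₊ ⌊5 / 4 * L⌋₊, GG K d b u v := by
        apply Finset.sum_congr rfl
        intro u _
        apply Finset.sum_subset hsub
        intro v hv hv'
        exact GG_eq_zero (Or.inr (hz v hv hv'))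
    _ = _ := by
        apply Finset.sum_subset hsub
        intro u hu hu'
        apply Finset.sum_eq_zero
        intro v _
        exact GG_eq_zero (Or.inl (hz u hu hu'))

/-- one pair of pieces, pointwise -/
lemma point {K L η ε : ℝ} {d J : ℕ} {b s : ℕ → ℝ} (hbs : ∀ u, |b u| ≤ s u)
    (hL : 0 ≤ L) (hη : 0 ≤ η) (hε : 0 ≤ ε) {i j : ℕ}
    (hk : ∀ u ∈ pc L η J i, ∀ v ∈ pc L η J j,
      |ker K d u v - ker K d (xp L η J i) (xp L η J j)| ≤ ε)
    {u v : ℕ} (hu : u ∈ pc L η J i) (hv : v ∈ pc L η J j) :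
    |GG K d b u v - (if i < j then ker K d (xp L η J i) (xp L η J j) else 0) *
        (if u % (4 * d) = v % (4 * d) then b u * b v else 0)|
      ≤ ε * (if u % (4 * d) = v % (4 * d) then s u * s v else 0) := by
  have hs : ∀ u, 0 ≤ s u := fun u => (abs_nonneg _).trans (hbs u)
  have hbb : |b u * b v| ≤ s u * s v := by
    rw [abs_mul]; exact mul_le_mul (hbs u) (hbs v) (abs_nonneg _) (hs u)
  by_cases hm : u % (4 * d) = v % (4 * d)
  · rw [if_pos hm, if_pos hm]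
    by_cases huv : u < v
    · have hd : 4 * d ∣ v - u := (Nat.modEq_iff_dvd' huv.le).1 hm
      unfold GG
      rw [if_pos ⟨huv, hd⟩]
      by_cases hij : i < j
      · rw [if_pos hij]
        have h1 : b u * b v * ker K d u v - ker K d (xp L η J i) (xp L η J j) * (b u * b v)
            = (ker K d u v - ker K d (xp L η J i) (xp L η J j)) * (b u * b v) := by ring
        rw [h1, abs_mul]
        exact mul_le_mul (hk u hu v hv) hbb (abs_nonneg _) hε
      · rw [if_neg hij]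
        have hij' : i = j := by
          by_contra hne
          have hlt : j + 1 ≤ i := by omega
          have h1 := mem_pc hu
          have h2 := mem_pc hv
          have h3 := xp_mono hL hη J hlt
          have h4 : (u : ℝ) < v := by exact_mod_cast huv
          linarith
        subst hij'
        have h2 := hk u hu v hv
        rw [ker_self, sub_zero] at h2
        rw [zero_mul, sub_zero, abs_mul, mul_comm]
        exact mul_le_mul h2 hbb (abs_nonneg _) hε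
    · have hG : GG K d b u v = 0 := by
        unfold GG
        rw [if_neg (fun h => huv h.1)]
      have hij : ¬ i < j := by
        intro hij
        apply huv
        have h1 := mem_pc hu
        have h2 := mem_pc hv
        have h3 := xp_mono hL hη J (Nat.succ_le_of_lt hij)
        have : (u : ℝ) < v := by
          have := h1.2
          have := h2.1
          simp only [Nat.succ_eq_add_one] at h3
          linarith
        exact_mod_cast this
      rw [hG, if_neg hij]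
      simp only [zero_mul, sub_zero, abs_zero]
      exact mul_nonneg hε (mul_nonneg (hs u) (hs v))
  · have hG : GG K d b u v = 0 := by
      unfold GG
      rw [if_neg (fun h => hm (mod_of_dvd h.1 h.2))]
    rw [hG, if_neg hm, if_neg hm]
    simp

lemma sum_classes {d : ℕ} (hd : 1 ≤ d) (S T : Finset ℕ) (b : ℕ → ℝ) :
    ∑ u ∈ S, ∑ v ∈ T, (if u % (4 * d) = v % (4 * d) then b u * b v else 0)
      = ∑ c ∈ range (4 * d), (∑ u ∈ S.filter (fun u => u % (4 * d) = c), b u)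
          * (∑ v ∈ T.filter (fun v => v % (4 * d) = c), b v) := by
  have h1 : ∀ c ∈ range (4 * d), (∑ u ∈ S.filter (fun u => u % (4 * d) = c), b u)
          * (∑ v ∈ T.filter (fun v => v % (4 * d) = c), b v)
      = ∑ u ∈ S, ∑ v ∈ T, (if u % (4 * d) = c ∧ v % (4 * d) = c then b u * b v else 0) := by
    intro c _
    rw [Finset.sum_filter, Finset.sum_filter, Finset.sum_mul_sum]
    apply Finset.sum_congr rfl
    intro u _
    apply Finset.sum_congr rfl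
    intro v _
    by_cases h1 : u % (4 * d) = c <;> by_cases h2 : v % (4 * d) = c <;> simp [h1, h2]
  rw [Finset.sum_congr rfl h1]
  symm
  rw [Finset.sum_comm]
  apply Finset.sum_congr rfl
  intro u _
  rw [Finset.sum_comm]
  apply Finset.sum_congr rfl
  intro v _
  have hmem : u % (4 * d) ∈ range (4 * d) := Finset.mem_range.2 (Nat.mod_lt _ (by omega))
  rw [Finset.sum_eq_single_of_mem _ hmem]
  · by_cases h : u % (4 * d) = v % (4 * d)
    · simp [h]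
    · rw [if_neg h, if_neg]
      rintro ⟨_, h2⟩
      exact h h2.symm
  · intro c _ hc
    rw [if_neg]
    rintro ⟨h1, _⟩
    exact hc h1.symm

/-- the sum of the squares over the classes modulo `4d` -/
def Qc (S : Finset ℕ) (b : ℕ → ℝ) (d : ℕ) : ℝ :=
  ∑ c ∈ range (4 * d), (∑ u ∈ S.filter (fun u => u % (4 * d) = c), b u) ^ 2

lemma sum_classes_le {d : ℕ} (hd : 1 ≤ d) (S T : Finset ℕ) (b : ℕ → ℝ) :
    |∑ u ∈ S, ∑ v ∈ T, (if u % (4 * d) = v % (4 * d) then b u * b v else 0)|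
      ≤ (Qc S b d + Qc T b d) / 2 := by
  rw [sum_classes hd]
  refine (Finset.abs_sum_le_sum_abs _ _).trans ?_
  unfold Qc
  rw [← Finset.sum_add_distrib, Finset.sum_div]
  apply Finset.sum_le_sum
  intro c _
  rw [abs_le]
  constructor <;> nlinarith [sq_nonneg ((∑ u ∈ S.filter (fun u => u % (4 * d) = c), b u)
    + (∑ v ∈ T.filter (fun v => v % (4 * d) = c), b v)), sq_nonneg ((∑ u ∈ S.filter (fun u => u % (4 * d) = c), b u)
    - (∑ v ∈ T.filter (fun v => v % (4 * d) = c), b v))]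

lemma Qc_nonneg (S : Finset ℕ) (b : ℕ → ℝ) (d : ℕ) : 0 ≤ Qc S b d :=
  Finset.sum_nonneg (fun _ _ => sq_nonneg _)

/-- the bound for one large `d` -/
lemma Wd_large {K L η ε : ℝ} {d J : ℕ} {b s : ℕ → ℝ} (hbs : ∀ u, |b u| ≤ s u)
    (hL : 0 < L) (hη : 0 ≤ η) (hη4 : η ≤ 1 / 4) (hε : 0 ≤ ε) (hd : 1 ≤ d) (hJ : 1 ≤ J)
    (hb : ∀ u, b u ≠ 0 → L < (u : ℝ) ∧ (u : ℝ) ≤ (1 + η) * L)
    (hk : ∀ i < J, ∀ j < J, ∀ u ∈ pc L η J i, ∀ v ∈ pc L η J j,
      |ker K d u v - ker K d (xp L η J i) (xp L η J j)| ≤ ε) :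
    |Wd K L d b| ≤ J / L * ∑ i ∈ range J, Qc (pc L η J i) b d
      + ε * ∑ u ∈ Ioc ⌊L⌋₊ ⌊(1 + η) * L⌋₊, ∑ v ∈ Ioc ⌊L⌋₊ ⌊(1 + η) * L⌋₊,
        (if u % (4 * d) = v % (4 * d) then s u * s v else 0) := by
  have hsplit : ∀ F : ℕ → ℕ → ℝ, ∑ u ∈ Ioc ⌊L⌋₊ ⌊(1 + η) * L⌋₊, ∑ v ∈ Ioc ⌊L⌋₊ ⌊(1 + η) * L⌋₊, F u v
      = ∑ i ∈ range J, ∑ j ∈ range J, ∑ u ∈ pc L η J i, ∑ v ∈ pc L η J j, F u v := by
    intro F
    rw [← sum_pc hL.le hη hJ]
    apply Finset.sum_congr rfl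
    intro i _
    symm
    rw [Finset.sum_comm]
    apply Finset.sum_congr rfl
    intro u _
    exact sum_pc hL.le hη hJ _
  rw [Wd_eq' d hη4 hL.le hb, hsplit, hsplit]
  set Z : ℕ → ℕ → ℝ := fun i j => (if i < j then ker K d (xp L η J i) (xp L η J j) else 0) *
    ∑ u ∈ pc L η J i, ∑ v ∈ pc L η J j, (if u % (4 * d) = v % (4 * d) then b u * b v else 0) with hZ
  have h1 : ∀ i ∈ range J, ∀ j ∈ range J,
      |(∑ u ∈ pc L η J i, ∑ v ∈ pc L η J j, GG K d b u v) - Z i j|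
        ≤ ε * ∑ u ∈ pc L η J i, ∑ v ∈ pc L η J j, (if u % (4 * d) = v % (4 * d) then s u * s v else 0) := by
    intro i hi j hj
    simp only [hZ]
    rw [Finset.mul_sum, ← Finset.sum_sub_distrib, Finset.mul_sum]
    refine (Finset.abs_sum_le_sum_abs _ _).trans (Finset.sum_le_sum ?_)
    intro u hu
    rw [Finset.mul_sum, ← Finset.sum_sub_distrib, Finset.mul_sum]
    refine (Finset.abs_sum_le_sum_abs _ _).trans (Finset.sum_le_sum ?_)
    intro v hv
    exact point hbs hL.le hη hε (hk i (Finset.mem_range.1 hi) j (Finset.mem_range.1 hj)) hu hv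
  have h2 : ∀ i ∈ range J, ∀ j ∈ range J,
      |Z i j| ≤ 1 / L * ((Qc (pc L η J i) b d + Qc (pc L η J j) b d) / 2) := by
    intro i _ j _
    simp only [hZ]
    rw [abs_mul]
    apply mul_le_mul _ (sum_classes_le hd _ _ _) (abs_nonneg _) (by positivity)
    split_ifs
    · rw [abs_of_nonneg (ker_nonneg _ _ _ _)]
      exact ker_le d hL (le_xp hL.le hη J i) (le_xp hL.le hη J j)
    · rw [abs_zero]; positivity
  calc |∑ i ∈ range J, ∑ j ∈ range J, ∑ u ∈ pc L η J i, ∑ v ∈ pc L η J j, GG K d b u v|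
      ≤ ∑ i ∈ range J, ∑ j ∈ range J, |∑ u ∈ pc L η J i, ∑ v ∈ pc L η J j, GG K d b u v| := by
        refine (Finset.abs_sum_le_sum_abs _ _).trans (Finset.sum_le_sum ?_)
        intro i _
        exact Finset.abs_sum_le_sum_abs _ _
    _ ≤ ∑ i ∈ range J, ∑ j ∈ range J, (1 / L * ((Qc (pc L η J i) b d + Qc (pc L η J j) b d) / 2)
          + ε * ∑ u ∈ pc L η J i, ∑ v ∈ pc L η J j, (if u % (4 * d) = v % (4 * d) then s u * s v else 0)) := by
        refine Finset.sum_le_sum (fun i hi => Finset.sum_le_sum (fun j hj => ?_))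
        have e1 := h1 i hi j hj
        have e2 := h2 i hi j hj
        have e3 := abs_sub_abs_le_abs_sub (∑ u ∈ pc L η J i, ∑ v ∈ pc L η J j, GG K d b u v) (Z i j)
        linarith
    _ = J / L * ∑ i ∈ range J, Qc (pc L η J i) b d
          + ε * ∑ i ∈ range J, ∑ j ∈ range J, ∑ u ∈ pc L η J i, ∑ v ∈ pc L η J j,
            (if u % (4 * d) = v % (4 * d) then s u * s v else 0) := by
        simp only [Finset.sum_add_distrib, ← Finset.mul_sum, ← Finset.sum_div, Finset.sum_const,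
          Finset.card_range, nsmul_eq_mul]
        ring

end

end Pool.Agent.Lib.MP391708.QPA.WB
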