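import Pool.Agent.Lib.MP_391708_nt.QPA.WBb

set_option autoImplicit false

namespace Pool.Agent.Lib.MP391708.QPA.WB

open Finset Filter Topology
open scoped Classical

noncomputable section

/-- the standing hypotheses on the sizes -/
structure Siz (N : ℕ) (K L e : ℝ) : Prop where
  N4 : (4 : ℝ) ≤ N
  K1 : 1 ≤ K
  KL : K ≤ L
  lo : (N : ℝ) ^ 2 / 2 ≤ K * L
  R4 : (4 : ℝ) ≤ √(L / K)
  RN : √(L / K) ≤ (N : ℝ) ^ (2 / 5 : ℝ)

/-- the sieve hypothesis -/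
def Sv (N : ℕ) (B : ℝ) (s : ℕ → ℝ) : Prop :=
  ∀ d c x H : ℕ, 1 ≤ d → (d : ℝ) ≤ (N : ℝ) ^ (2 / 5 : ℝ) → d * √(N : ℝ) ≤ H →
    ∑ u ∈ (Ioc x (x + H)).filter (fun u => u % (4 * d) = c), s u
      ≤ B * H / ((d.totient : ℝ) * Real.log N)

lemma Siz.Lpos {N : ℕ} {K L e : ℝ} (h : Siz N K L e) : 0 < L := lt_of_lt_of_le one_pos (h.K1.trans h.KL)

lemma Siz.Kpos {N : ℕ} {K L e : ℝ} (h : Siz N K L e) : 0 < K := lt_of_lt_of_le one_pos h.K1

lemma Siz.LN {N : ℕ} {K L e : ℝ} (h : Siz N K L e) : 7 / 10 * (N : ℝ) ≤ L := by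
  have h1 := h.lo
  have h2 := h.KL
  have h3 := h.N4
  have h4 := h.Lpos
  have h5 := h.Kpos
  by_contra hlt
  push Not at hlt
  nlinarith

lemma Siz.TN {N : ℕ} {K L e : ℝ} (h : Siz N K L e) : 7 / 10 * (N : ℝ) ≤ √(K * L) := by
  have h3 := h.N4
  apply Real.le_sqrt_of_sq_le
  have := h.lo
  nlinarith

lemma Siz.RT {N : ℕ} {K L e : ℝ} (h : Siz N K L e) : √(L / K) * √(K * L) = L := by
  have h4 := h.Lpos
  have h5 := h.Kpos
  rw [← Real.sqrt_mul (by positivity)]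
  have : L / K * (K * L) = L * L := by field_simp
  rw [this, Real.sqrt_mul_self h4.le]

lemma Siz.lg {N : ℕ} {K L e : ℝ} (h : Siz N K L e) : 0 < Real.log N :=
  Real.log_pos (by linarith [h.N4])

lemma Siz.dN {N : ℕ} {K L e : ℝ} (h : Siz N K L e) {d : ℕ} (hd : (d : ℝ) ≤ √(L / K) / 4) :
    (d : ℝ) ≤ (N : ℝ) ^ (2 / 5 : ℝ) := by
  have := h.RN
  have := h.R4
  linarith

lemma Siz.sqN {N : ℕ} {K L e : ℝ} (h : Siz N K L e) : √(N : ℝ) ≤ √(K * L) := by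
  have h3 := h.N4
  apply Real.sqrt_le_sqrt
  have := h.lo
  nlinarith

lemma Siz.flo {N : ℕ} {K L e : ℝ} (h : Siz N K L e) {d : ℕ} (hd : (d : ℝ) ≤ √(L / K) / 4) :
    d * √(N : ℝ) ≤ (⌊L⌋₊ : ℕ) := by
  have h3 := h.N4
  have hN0 : (0 : ℝ) < N := by linarith
  have h1 : (d : ℝ) ≤ (N : ℝ) ^ (2 / 5 : ℝ) / 4 := by
    have := h.RN
    linarith
  have h2 : (d : ℝ) * √(N : ℝ) ≤ N / 4 := by
    calc (d : ℝ) * √(N : ℝ) ≤ (N : ℝ) ^ (2 / 5 : ℝ) / 4 * √(N : ℝ) := by gcongr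
      _ = (N : ℝ) ^ (9 / 10 : ℝ) / 4 := by
        rw [Real.sqrt_eq_rpow, div_mul_eq_mul_div, ← Real.rpow_add hN0]
        norm_num
      _ ≤ N / 4 := by
        gcongr
        calc (N : ℝ) ^ (9 / 10 : ℝ) ≤ (N : ℝ) ^ (1 : ℝ) :=
              Real.rpow_le_rpow_of_exponent_le (by linarith) (by norm_num)
          _ = N := Real.rpow_one _
  have h4 := h.LN
  have h5 := Nat.lt_floor_add_one L
  linarith

lemma floor_sub {N : ℕ} {K L e : ℝ} (h : Siz N K L e) : ⌊5 / 4 * L⌋₊ ≤ ⌊L⌋₊ + ⌊L⌋₊ := by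
  have h4 := h.LN
  have h3 := h.N4
  have h5 := Nat.lt_floor_add_one L
  have : ⌊5 / 4 * L⌋₊ < ⌊L⌋₊ + ⌊L⌋₊ + 1 := by
    rw [Nat.floor_lt (by linarith)]
    push_cast
    linarith
  omega

lemma cls {N : ℕ} {K L e B : ℝ} {s : ℕ → ℝ} (h : Siz N K L e) (hS : Sv N B s) (hB : 0 < B)
    (hs : ∀ u, 0 ≤ s u) {d : ℕ} (hd1 : 1 ≤ d) (hd : (d : ℝ) ≤ √(L / K) / 4) (c : ℕ) :
    ∑ u ∈ (Ioc ⌊L⌋₊ ⌊5 / 4 * L⌋₊).filter (fun u => u % (4 * d) = c), s u
      ≤ B * L / ((d.totient : ℝ) * Real.log N) := by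
  have h1 := hS d c ⌊L⌋₊ ⌊L⌋₊ hd1 (h.dN hd) (h.flo hd)
  have h2 : ∑ u ∈ (Ioc ⌊L⌋₊ ⌊5 / 4 * L⌋₊).filter (fun u => u % (4 * d) = c), s u
      ≤ ∑ u ∈ (Ioc ⌊L⌋₊ (⌊L⌋₊ + ⌊L⌋₊)).filter (fun u => u % (4 * d) = c), s u := by
    apply Finset.sum_le_sum_of_subset_of_nonneg
    · exact Finset.filter_subset_filter _ (Finset.Ioc_subset_Ioc_right (floor_sub h))
    · intro u _ _
      exact hs u
  have h3 : (⌊L⌋₊ : ℝ) ≤ L := Nat.floor_le h.Lpos.le
  have h4 : 0 < Real.log N := h.lg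
  have h5 : (0 : ℝ) < d.totient := by exact_mod_cast Nat.totient_pos.2 hd1
  refine h2.trans (h1.trans ?_)
  gcongr

lemma tot {N : ℕ} {K L e B : ℝ} {s : ℕ → ℝ} (h : Siz N K L e) (hS : Sv N B s) (hB : 0 < B)
    (hs : ∀ u, 0 ≤ s u) :
    ∑ u ∈ Ioc ⌊L⌋₊ ⌊5 / 4 * L⌋₊, s u ≤ 4 * (B * L / Real.log N) := by
  have h1 : ∀ c ∈ range 4, ∑ u ∈ (Ioc ⌊L⌋₊ ⌊5 / 4 * L⌋₊).filter (fun u => u % (4 * 1) = c), s u
      ≤ B * L / Real.log N := by
    intro c _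
    have := cls h hS hB hs (d := 1) le_rfl (by have := h.R4; push_cast; linarith) c
    simpa using this
  have h2 : ∑ u ∈ Ioc ⌊L⌋₊ ⌊5 / 4 * L⌋₊, s u
      = ∑ c ∈ range 4, ∑ u ∈ (Ioc ⌊L⌋₊ ⌊5 / 4 * L⌋₊).filter (fun u => u % (4 * 1) = c), s u := by
    symm
    apply Finset.sum_fiberwise_of_maps_to
    intro u _
    exact Finset.mem_range.2 (Nat.mod_lt _ (by norm_num))
  rw [h2]
  refine (Finset.sum_le_sum h1).trans ?_
  simp

lemma S2 {N : ℕ} {K L e B : ℝ} {s : ℕ → ℝ} (h : Siz N K L e) (hS : Sv N B s) (hB : 0 < B)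
    (hs : ∀ u, 0 ≤ s u) {d : ℕ} (hd1 : 1 ≤ d) (hd : (d : ℝ) ≤ √(L / K) / 4) {η : ℝ} (hη : η ≤ 1 / 4) :
    ∑ u ∈ Ioc ⌊L⌋₊ ⌊(1 + η) * L⌋₊, ∑ v ∈ Ioc ⌊L⌋₊ ⌊(1 + η) * L⌋₊,
        (if u % (4 * d) = v % (4 * d) then s u * s v else 0)
      ≤ 4 * B ^ 2 * L ^ 2 / ((d.totient : ℝ) * (Real.log N) ^ 2) := by
  have hL := h.Lpos
  have h4 : 0 < Real.log N := h.lg
  have h5 : (0 : ℝ) < d.totient := by exact_mod_cast Nat.totient_pos.2 hd1
  have hsub : Ioc ⌊L⌋₊ ⌊(1 + η) * L⌋₊ ⊆ Ioc ⌊L⌋₊ ⌊5 / 4 * L⌋₊ := by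
    apply Finset.Ioc_subset_Ioc_right
    apply Nat.floor_mono
    nlinarith
  calc ∑ u ∈ Ioc ⌊L⌋₊ ⌊(1 + η) * L⌋₊, ∑ v ∈ Ioc ⌊L⌋₊ ⌊(1 + η) * L⌋₊,
        (if u % (4 * d) = v % (4 * d) then s u * s v else 0)
      ≤ ∑ u ∈ Ioc ⌊L⌋₊ ⌊5 / 4 * L⌋₊, s u * (B * L / ((d.totient : ℝ) * Real.log N)) := by
        refine (Finset.sum_le_sum (g := fun u => s u * (B * L / ((d.totient : ℝ) * Real.log N)))
          (fun u _ => ?_)).trans (Finset.sum_le_sum_of_subset_of_nonneg hsub ?_)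
        · have h6 : ∑ v ∈ Ioc ⌊L⌋₊ ⌊(1 + η) * L⌋₊, (if u % (4 * d) = v % (4 * d) then s u * s v else 0)
              = s u * ∑ v ∈ (Ioc ⌊L⌋₊ ⌊(1 + η) * L⌋₊).filter (fun v => v % (4 * d) = u % (4 * d)), s v := by
            rw [Finset.sum_filter, Finset.mul_sum]
            apply Finset.sum_congr rfl
            intro v _
            by_cases hh : u % (4 * d) = v % (4 * d)
            · rw [if_pos hh, if_pos hh.symm]
            · rw [if_neg hh, if_neg (fun h' => hh h'.symm), mul_zero]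
          rw [h6]
          apply mul_le_mul_of_nonneg_left _ (hs u)
          refine (Finset.sum_le_sum_of_subset_of_nonneg (Finset.filter_subset_filter _ hsub)
            (fun v _ _ => hs v)).trans (cls h hS hB hs hd1 hd _)
        · intro u _ _
          have := hs u
          positivity
    _ = (∑ u ∈ Ioc ⌊L⌋₊ ⌊5 / 4 * L⌋₊, s u) * (B * L / ((d.totient : ℝ) * Real.log N)) := by
        rw [Finset.sum_mul]
    _ ≤ 4 * (B * L / Real.log N) * (B * L / ((d.totient : ℝ) * Real.log N)) := by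
        apply mul_le_mul_of_nonneg_right (tot h hS hB hs) (by positivity)
    _ = _ := by field_simp

/-- a nonzero kernel forces `v - u ≤ 8 d √(KL)` -/
lemma ker_near {K L : ℝ} {d : ℕ} {u v : ℝ} (hK : 0 < K) (hL : 0 < L) (hd : 1 ≤ d)
    (hu : L ≤ u) (huv : u ≤ v) (hv : v ≤ 5 / 4 * L) (h : ker K d u v ≠ 0) :
    v - u ≤ 8 * d * √(K * L) := by
  have hd0 : (1 : ℝ) ≤ d := by exact_mod_cast hd
  have h1 : (√v - √u) ^ 2 / (4 * (d : ℝ) ^ 2) / K < 5 / 2 := by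
    by_contra hge
    push Not at hge
    apply h
    unfold ker
    rw [kB_zero_right hge, zero_div]
  rw [div_div, div_lt_iff₀ (by positivity)] at h1
  have hv0 : 0 ≤ v := by linarith
  have hu0 : 0 ≤ u := by linarith
  have e1 : √u ≤ √v := Real.sqrt_le_sqrt huv
  have e2 : √u * √u = u := Real.mul_self_sqrt hu0
  have e3 : √v * √v = v := Real.mul_self_sqrt hv0
  have e4 : 0 ≤ √u := Real.sqrt_nonneg _
  have hsq : (v - u) ^ 2 ≤ (8 * d * √(K * L)) ^ 2 := by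
    have h2 : v - u = (√v - √u) * (√v + √u) := by nlinarith
    have h3 : (√v + √u) ^ 2 ≤ 5 * L := by nlinarith [sq_nonneg (√v - √u)]
    rw [h2, mul_pow, mul_pow, Real.sq_sqrt (by positivity)]
    calc (√v - √u) ^ 2 * (√v + √u) ^ 2 ≤ (5 / 2 * (4 * (d : ℝ) ^ 2 * K)) * (5 * L) := by
          apply mul_le_mul h1.le h3 (by positivity) (by positivity)
      _ ≤ (8 * (d : ℝ)) ^ 2 * (K * L) := by
          have : 0 < (d : ℝ) ^ 2 * K * L := by positivity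
          nlinarith
  exact abs_le_of_sq_le_sq' hsq (by positivity) |>.2

/-- the bound for small `d` -/
lemma Wd_small {N : ℕ} {K L e B : ℝ} {b s : ℕ → ℝ} (h : Siz N K L e) (hS : Sv N B s) (hB : 0 < B)
    (hbs : ∀ u, |b u| ≤ s u) {d : ℕ} (hd1 : 1 ≤ d) (hd : (d : ℝ) ≤ √(L / K) / 4) :
    |Wd K L d b| ≤ 36 * B ^ 2 * √(K * L) / (Real.log N) ^ 2 * ((d : ℝ) / (d.totient : ℝ)) := by
  have hs : ∀ u, 0 ≤ s u := fun u => (abs_nonneg _).trans (hbs u)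
  have hL := h.Lpos
  have hK := h.Kpos
  have h4 : 0 < Real.log N := h.lg
  have h5 : (0 : ℝ) < d.totient := by exact_mod_cast Nat.totient_pos.2 hd1
  have hd0 : (1 : ℝ) ≤ d := by exact_mod_cast hd1
  set T := √(K * L) with hT
  have hT1 : 1 ≤ T := by have := h.TN; have := h.N4; linarith
  set H := ⌈8 * d * T⌉₊ with hH
  have hH1 : 8 * d * T ≤ H := Nat.le_ceil _
  have hH2 : (H : ℝ) ≤ 9 * d * T := by
    have := Nat.ceil_lt_add_one (a := 8 * d * T) (by positivity)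
    nlinarith
  have hpt : ∀ u ∈ Ioc ⌊L⌋₊ ⌊5 / 4 * L⌋₊, ∀ v ∈ Ioc ⌊L⌋₊ ⌊5 / 4 * L⌋₊,
      |GG K d b u v| ≤ 1 / L * (s u * (if v ∈ (Ioc u (u + H)).filter (fun v => v % (4 * d) = u % (4 * d))
        then s v else 0)) := by
    intro u hu v hv
    by_cases hz : GG K d b u v = 0
    · rw [hz, abs_zero]
      have := hs u
      have := hs v
      split_ifs <;> positivity
    · have hcond : u < v ∧ 4 * d ∣ v - u := by
        by_contra hc
        apply hz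
        unfold GG
        rw [if_neg hc]
      have hG : GG K d b u v = b u * b v * ker K d u v := by
        unfold GG
        rw [if_pos hcond]
      have hkz : ker K d u v ≠ 0 := by
        intro hk
        apply hz
        rw [hG, hk, mul_zero]
      rw [Finset.mem_Ioc] at hu hv
      have hu1 : L ≤ u := ((Nat.floor_lt' (by omega)).1 hu.1).le
      have hv1 : L ≤ v := ((Nat.floor_lt' (by omega)).1 hv.1).le
      have hv2 : (v : ℝ) ≤ 5 / 4 * L := (Nat.le_floor_iff' (by omega)).1 hv.2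
      have huv : (u : ℝ) ≤ v := by exact_mod_cast hcond.1.le
      have h6 := ker_near hK hL hd1 hu1 huv hv2 hkz
      have h7 : (v : ℝ) ≤ u + H := by linarith
      have h8 : v ≤ u + H := by exact_mod_cast h7
      have hmem : v ∈ (Ioc u (u + H)).filter (fun v => v % (4 * d) = u % (4 * d)) := by
        rw [Finset.mem_filter, Finset.mem_Ioc]
        exact ⟨⟨hcond.1, h8⟩, (mod_of_dvd hcond.1 hcond.2).symm⟩
      rw [if_pos hmem, hG, abs_mul, abs_mul, abs_of_nonneg (ker_nonneg _ _ _ _), mul_comm]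
      apply mul_le_mul (ker_le d hL hu1 hv1) (mul_le_mul (hbs u) (hbs v) (abs_nonneg _) (hs u))
        (by positivity) (by positivity)
  rw [Wd_eq]
  calc |∑ u ∈ Ioc ⌊L⌋₊ ⌊5 / 4 * L⌋₊, ∑ v ∈ Ioc ⌊L⌋₊ ⌊5 / 4 * L⌋₊, GG K d b u v|
      ≤ ∑ u ∈ Ioc ⌊L⌋₊ ⌊5 / 4 * L⌋₊, ∑ v ∈ Ioc ⌊L⌋₊ ⌊5 / 4 * L⌋₊, |GG K d b u v| := by
        refine (Finset.abs_sum_le_sum_abs _ _).trans (Finset.sum_le_sum ?_)
        intro i _
        exact Finset.abs_sum_le_sum_abs _ _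
    _ ≤ ∑ u ∈ Ioc ⌊L⌋₊ ⌊5 / 4 * L⌋₊, s u * (1 / L * (B * (9 * d * T) / ((d.totient : ℝ) * Real.log N))) := by
        refine Finset.sum_le_sum (fun u hu => ?_)
        refine (Finset.sum_le_sum (hpt u hu)).trans ?_
        rw [← Finset.mul_sum, ← Finset.mul_sum, mul_left_comm]
        apply mul_le_mul_of_nonneg_left _ (hs u)
        apply mul_le_mul_of_nonneg_left _ (by positivity)
        have h9 : ∑ v ∈ Ioc ⌊L⌋₊ ⌊5 / 4 * L⌋₊,
            (if v ∈ (Ioc u (u + H)).filter (fun v => v % (4 * d) = u % (4 * d)) then s v else 0)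
            ≤ ∑ v ∈ (Ioc u (u + H)).filter (fun v => v % (4 * d) = u % (4 * d)), s v := by
          rw [← Finset.sum_filter]
          apply Finset.sum_le_sum_of_subset_of_nonneg
          · intro v hv
            exact (Finset.mem_filter.1 hv).2
          · intro v _ _
            exact hs v
        have h10 := hS d (u % (4 * d)) u H hd1 (h.dN hd) (by
          have := h.sqN
          have h11 : (d : ℝ) * √(N : ℝ) ≤ d * T := by gcongr
          have h12 : (0 : ℝ) ≤ d * T := by positivity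
          linarith)
        refine h9.trans (h10.trans ?_)
        gcongr
    _ = (∑ u ∈ Ioc ⌊L⌋₊ ⌊5 / 4 * L⌋₊, s u) * (1 / L * (B * (9 * d * T) / ((d.totient : ℝ) * Real.log N))) := by
        rw [Finset.sum_mul]
    _ ≤ 4 * (B * L / Real.log N) * (1 / L * (B * (9 * d * T) / ((d.totient : ℝ) * Real.log N))) := by
        apply mul_le_mul_of_nonneg_right (tot h hS hB hs) (by positivity)
    _ = _ := by field_simp; ring

end

end Pool.Agent.Lib.MP391708.QPA.WB
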